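import Mathlib

/-!
# Row ExI: the exponential of a primitive of a bounded measurable function   (about 90 lines)

`exp_prim`: `f` measurable, `|f| ≤ K`, `F r = ∫ u in s..r, f u`: `exp (F T) - 1 = ∫ r in s..T, f r * exp (F r)` (`s ≤ T`).
Both sides are continuous in `f` for the `L¹` norm on `[s,T]` on the set `|f| ≤ K` (for two functions `f1, f2` with primitives `F1, F2`:
`|F1 - F2| ≤ ∫|f1 - f2|`, `|exp F1 - exp F2| ≤ exp(K(T-s)) |F1 - F2|`), and for continuous `f` the identity is the fundamental theorem of calculus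
(`intervalIntegral.integral_eq_sub_of_hasDerivAt` for `r ↦ exp (F r)`).  Continuous functions bounded by `K` are dense: take `g` continuous with compact support with
`∫ |f 1_{[s,T]} - g| ≤ ε` (`MeasureTheory.Integrable.exists_hasCompactSupport_integral_sub_le` or `MemLp` version) and truncate it at `±K`
(truncation is 1-Lipschitz and fixes f).  Alternatively use absolute continuity (`AbsolutelyContinuousOnInterval`) if convenient.

`exp_duh`: `k1, k2` measurable bounded by `K`: with `A_i(r,q) = ∫ u in r..q, k_i u`,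
`exp A2(s,T) = exp A1(s,T) + ∫ r in s..T, exp A1(s,r) * (k2 r - k1 r) * exp A2(r,T)`.
From `exp_prim`: the function `f = k1 - k2`: `exp(A1(s,r) + A2(r,T)) = exp(A2(s,T)) exp(F r)` with `F r = ∫ u in s..r, f`; so
`∫ exp A1(s,r) (k2-k1)(r) exp A2(r,T) dr = - exp A2(s,T) ∫ f e^F = - exp A2(s,T) (exp F(T) - 1) = exp A2(s,T) - exp A1(s,T)`.
-/

open MeasureTheory Set

namespace Pool.H50.BB

theorem ExI_int {f : ℝ → ℝ} {K : ℝ} (hf : Measurable f) (hK : ∀ u, |f u| ≤ K) (a b : ℝ) :
    IntervalIntegrable f volume a b := by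
  rw [intervalIntegrable_iff]
  refine Measure.integrableOn_of_bounded (M := K) ?_ hf.aestronglyMeasurable ?_
  · simp [uIoc, Real.volume_Ioc]
  · exact Filter.Eventually.of_forall fun u => by simpa using hK u

theorem ExI_exp {x y M : ℝ} (hx : x ≤ M) (hy : y ≤ M) : |Real.exp x - Real.exp y| ≤ Real.exp M * |x - y| := by
  have key : ∀ a b : ℝ, a ≤ M → b ≤ a → Real.exp a - Real.exp b ≤ Real.exp M * (a - b) := by
    intro a b ha hb
    have h1 : Real.exp b = Real.exp a * Real.exp (b - a) := by rw [← Real.exp_add]; congr 1; ring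
    have h2 : b - a + 1 ≤ Real.exp (b - a) := Real.add_one_le_exp _
    have h3 : Real.exp a ≤ Real.exp M := Real.exp_le_exp.2 ha
    have h4 : 0 < Real.exp a := Real.exp_pos a
    calc Real.exp a - Real.exp b = Real.exp a * (1 - Real.exp (b - a)) := by rw [h1]; ring
      _ ≤ Real.exp a * (a - b) := mul_le_mul_of_nonneg_left (by linarith) h4.le
      _ ≤ Real.exp M * (a - b) := mul_le_mul_of_nonneg_right h3 (by linarith)
  rcases le_total y x with h | h
  · rw [abs_of_nonneg (by have := Real.exp_le_exp.2 h; linarith), abs_of_nonneg (by linarith)]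
    exact key x y hx h
  · rw [abs_sub_comm, abs_sub_comm x y, abs_of_nonneg (by have := Real.exp_le_exp.2 h; linarith), abs_of_nonneg (by linarith)]
    exact key y x hy h

theorem exp_prim {f : ℝ → ℝ} {K s T : ℝ} (hf : Measurable f) (hK : ∀ u, |f u| ≤ K) (hs : s ≤ T) :
    Real.exp (∫ u in s..T, f u) - 1 = ∫ r in s..T, f r * Real.exp (∫ u in s..r, f u) := by
  have hK0 : 0 ≤ K := (abs_nonneg _).trans (hK 0)
  have hint := ExI_int hf hK
  set F : ℝ → ℝ := fun r => ∫ u in s..r, f u with hF
  have hbd : ∀ a b : ℝ, |F a - F b| ≤ K * |a - b| := by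
    intro a b
    have h1 : F a - F b = ∫ u in b..a, f u := intervalIntegral.integral_interval_sub_left (hint s a) (hint s b)
    rw [h1]
    have h2 := intervalIntegral.norm_integral_le_of_norm_le_const (a := b) (b := a) (f := f) (C := K)
      (fun x _ => by simpa using hK x)
    simpa using h2
  have hFs : F s = 0 := by simp [hF]
  have hle : ∀ r ∈ Set.uIcc s T, F r ≤ K * (T - s) := by
    intro r hr
    rw [Set.uIcc_of_le hs] at hr
    have h1 := hbd r s
    rw [hFs, sub_zero, abs_of_nonneg (by linarith [hr.1] : 0 ≤ r - s)] at h1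
    have h2 := le_abs_self (F r)
    have h3 : K * (r - s) ≤ K * (T - s) := mul_le_mul_of_nonneg_left (by linarith [hr.2]) hK0
    linarith
  have hM0 : 0 ≤ Real.exp (K * (T - s)) * K := by positivity
  have hlip : LipschitzOnWith (Real.toNNReal (Real.exp (K * (T - s)) * K)) (fun r => Real.exp (F r)) (Set.uIcc s T) := by
    refine LipschitzOnWith.of_dist_le_mul fun x hx y hy => ?_
    rw [Real.dist_eq, Real.dist_eq, Real.coe_toNNReal _ hM0]
    refine (ExI_exp (hle x hx) (hle y hy)).trans ?_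
    calc Real.exp (K * (T - s)) * |F x - F y| ≤ Real.exp (K * (T - s)) * (K * |x - y|) :=
          mul_le_mul_of_nonneg_left (hbd x y) (Real.exp_pos _).le
      _ = _ := by ring
  have hAC := hlip.absolutelyContinuousOnInterval
  have h1 := hAC.integral_deriv_eq_sub
  have h2 : ∫ x in s..T, deriv (fun r => Real.exp (F r)) x = ∫ r in s..T, f r * Real.exp (F r) := by
    refine intervalIntegral.integral_congr_ae ?_
    filter_upwards [(hint s T).ae_hasDerivAt_integral] with x hx hx'
    have h3 := hx (Set.uIoc_subset_uIcc hx') s Set.left_mem_uIcc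
    rw [(h3.exp).deriv]
    ring
  rw [← h2, h1, hFs, Real.exp_zero]

theorem exp_duh {k1 k2 : ℝ → ℝ} {K s T : ℝ} (h1 : Measurable k1) (h2 : Measurable k2)
    (hK1 : ∀ u, |k1 u| ≤ K) (hK2 : ∀ u, |k2 u| ≤ K) (hs : s ≤ T) :
    Real.exp (∫ u in s..T, k2 u) = Real.exp (∫ u in s..T, k1 u) +
      ∫ r in s..T, Real.exp (∫ u in s..r, k1 u) * (k2 r - k1 r) * Real.exp (∫ u in r..T, k2 u) := by
  have i1 := ExI_int h1 hK1
  have i2 := ExI_int h2 hK2
  have hb : ∀ u, |k1 u - k2 u| ≤ K + K := fun u => (abs_sub _ _).trans (add_le_add (hK1 u) (hK2 u))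
  have h3 := exp_prim (h1.sub h2) (K := K + K) hb hs
  have h4 : ∀ r : ℝ, ∫ u in s..r, (k1 u - k2 u) = (∫ u in s..r, k1 u) - ∫ u in s..r, k2 u := fun r =>
    intervalIntegral.integral_sub (i1 s r) (i2 s r)
  have h5 : ∀ r : ℝ, Real.exp (∫ u in s..r, k1 u) * (k2 r - k1 r) * Real.exp (∫ u in r..T, k2 u) =
      -(Real.exp (∫ u in s..T, k2 u) * ((k1 r - k2 r) * Real.exp (∫ u in s..r, (k1 u - k2 u)))) := by
    intro r
    have h6 : (∫ u in s..r, k2 u) + ∫ u in r..T, k2 u = ∫ u in s..T, k2 u :=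
      intervalIntegral.integral_add_adjacent_intervals (i2 s r) (i2 r T)
    rw [h4 r, ← h6, Real.exp_sub, Real.exp_add]
    have h7 := (Real.exp_pos (∫ u in s..r, k2 u)).ne'
    field_simp
    ring
  have h8 : ∫ r in s..T, Real.exp (∫ u in s..r, k1 u) * (k2 r - k1 r) * Real.exp (∫ u in r..T, k2 u) =
      -(Real.exp (∫ u in s..T, k2 u) * (Real.exp (∫ u in s..T, (k1 u - k2 u)) - 1)) := by
    have h9 : Real.exp (∫ u in s..T, (k1 u - k2 u)) - 1 =
        ∫ r in s..T, (k1 r - k2 r) * Real.exp (∫ u in s..r, (k1 u - k2 u)) := h3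
    rw [h9, ← intervalIntegral.integral_const_mul, ← intervalIntegral.integral_neg]
    exact intervalIntegral.integral_congr fun r _ => h5 r
  rw [h8, h4 T, Real.exp_sub]
  have h7 := (Real.exp_pos (∫ u in s..T, k2 u)).ne'
  field_simp
  ring

end Pool.H50.BB
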