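import Pool.Agent.H50.BB.Mea
import Pool.Agent.H50.BB.ExI

/-!
# Row Expo: integration over the exponential mark   (about 120 lines)

`expo_surv`: `P(e > a) = exp(-a)` for `a ≥ 0` (cdf of `expMeasure 1`: `cdf_expMeasure_eq` or the lintegral of the pdf).
`expo_split`: fix `w, x, t ≥ 0`, `A s = clock b w x s`, `τ(e) = tau b (w,e) x`.  For measurable `h : ℝ → ℝ≥0∞`:
`∫⁻ e in {e | e ≤ A t}, h (τ e) d(expMeasure 1) = ∫⁻ s in Ioc 0 t, ofReal (b (arg (x + pt w s)) exp (-A s)) h s ds`.
Both sides are `∫⁻ h dν_i`, `ν_1 = ((expMeasure 1).restrict {e ≤ A t}).map τ` (`τ` is measurable: `tau_meas`), `ν_2 = (volume.restrict (Ioc 0 t)).withDensity (...)`, finite measures on `ℝ`.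
They agree on all `Iic s` (`Measure.ext_of_Iic`): `s < 0`: both 0 (`tau ≥ 0`).  `0 ≤ s < t`: `ν_1 (Iic s) = P(e ≤ A t, τ(e) ≤ s)`, and for `0 < e ≤ A t`: `τ(e) ≤ s ↔ e ≤ A s` (`tau_spec`);
`P(e ≤ 0) = 0`; so it is `P(e ≤ A s) = 1 - exp(-A s)` (as `A s ≤ A t`).  `ν_2(Iic s) = ∫_0^s b e^{-A} = 1 - exp(-A s)` by `exp_prim` with `f r = - b (arg (x + pt w r))`
(`ofReal_integral_eq_lintegral_ofReal`).  `s ≥ t`: the same with `t` in the place of `s`.
-/

open MeasureTheory ProbabilityTheory Set Filter Topology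
open scoped NNReal ENNReal

namespace Pool.H50.BB

open Pool.Agent.H4.BM

theorem Expo_Iic {a : ℝ} (ha : 0 ≤ a) : expMeasure 1 (Iic a) = ENNReal.ofReal (1 - Real.exp (-a)) := by
  have : IsProbabilityMeasure (expMeasure 1) := isProbabilityMeasure_expMeasure one_pos
  rw [← ofReal_cdf, cdf_expMeasure_eq one_pos, if_pos ha, one_mul]

theorem expo_surv {a : ℝ} (ha : 0 ≤ a) : expMeasure 1 {e | a < e} = ENNReal.ofReal (Real.exp (-a)) := by
  have : IsProbabilityMeasure (expMeasure 1) := isProbabilityMeasure_expMeasure one_pos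
  have h1 : {e : ℝ | a < e} = (Iic a)ᶜ := by
    ext e
    simp
  rw [h1, prob_compl_eq_one_sub measurableSet_Iic, Expo_Iic ha, ← ENNReal.ofReal_one,
    ← ENNReal.ofReal_sub _ (by linarith [Real.exp_le_one_iff.2 (neg_nonpos.2 ha)])]
  congr 1
  ring

theorem expo_split {b : ℝ → ℝ} (hb : Rate b) (w : P2) (x : ℂ) {t : ℝ} (ht : 0 ≤ t) {h : ℝ → ℝ≥0∞}
    (hh : Measurable h) :
    ∫⁻ e in {e | e ≤ clock b w x t}, h (tau b (w, e) x) ∂(expMeasure 1) =
      ∫⁻ s in Ioc 0 t, ENNReal.ofReal (b (Complex.arg (x + pt w s)) * Real.exp (-clock b w x s)) * h s := by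
  have : IsProbabilityMeasure (expMeasure 1) := isProbabilityMeasure_expMeasure one_pos
  set A : ℝ → ℝ := clock b w x with hA
  have hAm : Monotone A := clock_mono hb w x
  have hA0 : A 0 = 0 := clock_zero b w x
  have hτ : Measurable fun e : ℝ => tau b (w, e) x :=
    (tau_meas hb).comp ((measurable_const.prodMk measurable_id).prodMk measurable_const)
  set φ : ℝ → ℝ := fun s => b (Complex.arg (x + pt w s)) * Real.exp (-A s) with hφ
  have hbm : Measurable fun s : ℝ => b (Complex.arg (x + pt w s)) :=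
    (barg_meas hb).comp (continuous_const.add (pt_cont w)).measurable
  have hφm : Measurable φ := hbm.mul (Real.continuous_exp.comp (clock_cont hb w x).neg).measurable
  have hφ0 : ∀ s, 0 ≤ φ s := fun s => mul_nonneg (hb.nonneg _) (Real.exp_pos _).le
  have hgm : Measurable fun s => ENNReal.ofReal (φ s) := hφm.ennreal_ofReal
  have hbb : ∀ u, |-(b (Complex.arg (x + pt w u)))| ≤ 1 := by
    intro u
    rw [abs_neg, abs_of_nonneg (hb.nonneg _)]
    exact hb.le_one _
  have hA' : ∀ r, ∫ u in (0 : ℝ)..r, -(b (Complex.arg (x + pt w u))) = -A r := by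
    intro r
    rw [intervalIntegral.integral_neg]
    rfl
  -- the integral of the density
  have hden : ∀ s, 0 ≤ s → ∫⁻ r in Ioc 0 s, ENNReal.ofReal (φ r) = ENNReal.ofReal (1 - Real.exp (-A s)) := by
    intro s hs
    have h1 := exp_prim (f := fun u => -(b (Complex.arg (x + pt w u)))) hbm.neg hbb hs
    rw [hA' s] at h1
    have h2 : ∫ r in (0 : ℝ)..s, -(b (Complex.arg (x + pt w r))) * Real.exp (∫ u in (0 : ℝ)..r, -(b (Complex.arg (x + pt w u)))) =
        -∫ r in (0 : ℝ)..s, φ r := by
      rw [← intervalIntegral.integral_neg]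
      refine intervalIntegral.integral_congr fun r _ => ?_
      rw [hA' r, hφ]
      ring
    have h3 : ∫ r in (0 : ℝ)..s, φ r = 1 - Real.exp (-A s) := by
      have h4 : Real.exp (-A s) - 1 = -∫ r in (0 : ℝ)..s, φ r := h1.trans h2
      linarith
    rw [intervalIntegral.integral_of_le hs] at h3
    rw [← h3, ofReal_integral_eq_lintegral_ofReal]
    · refine Measure.integrableOn_of_bounded (M := 1) (by simp [Real.volume_Ioc]) hφm.aestronglyMeasurable ?_
      rw [ae_restrict_iff' measurableSet_Ioc]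
      refine Eventually.of_forall fun r hr => ?_
      rw [Real.norm_eq_abs, abs_of_nonneg (hφ0 r)]
      have h5 : 0 ≤ A r := by rw [← hA0]; exact hAm hr.1.le
      have h6 : Real.exp (-A r) ≤ 1 := Real.exp_le_one_iff.2 (by linarith)
      calc φ r ≤ 1 * 1 := mul_le_mul (hb.le_one _) h6 (Real.exp_pos _).le zero_le_one
        _ = 1 := one_mul 1
    · exact Eventually.of_forall fun r => hφ0 r
  have hmeq : ((expMeasure 1).restrict {e | e ≤ A t}).map (fun e : ℝ => tau b (w, e) x) =
      (volume.restrict (Ioc 0 t)).withDensity (fun s => ENNReal.ofReal (φ s)) := by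
    refine Measure.ext_of_Iic _ _ fun s => ?_
    rw [Measure.map_apply hτ measurableSet_Iic, Measure.restrict_apply (hτ measurableSet_Iic),
      withDensity_apply _ measurableSet_Iic, Measure.restrict_restrict measurableSet_Iic]
    rcases lt_or_ge s 0 with hs | hs
    · have h1 : (fun e : ℝ => tau b (w, e) x) ⁻¹' Iic s ∩ {e | e ≤ A t} = ∅ := by
        ext e
        simp only [mem_inter_iff, mem_preimage, mem_Iic, mem_empty_iff_false, iff_false, not_and]
        intro h2 _
        have := tau_nonneg b (w, e) x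
        linarith
      have h2 : Iic s ∩ Ioc 0 t = ∅ := by
        ext r
        simp only [mem_inter_iff, mem_Iic, mem_Ioc, mem_empty_iff_false, iff_false, not_and]
        intro h3 h4 _
        linarith
      rw [h1, h2]
      simp
    · have h2 : Iic s ∩ Ioc 0 t = Ioc 0 (min s t) := by
        ext r
        simp only [mem_inter_iff, mem_Iic, mem_Ioc, le_min_iff]
        tauto
      rw [h2, hden _ (le_min hs ht)]
      have hA1 : 0 ≤ A (min s t) := by rw [← hA0]; exact hAm (le_min hs ht)
      rw [← Expo_Iic hA1]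
      have hnull : expMeasure 1 (Iic (0 : ℝ)) = 0 := by
        rw [Expo_Iic le_rfl]
        simp
      refine measure_congr ?_
      have hae : ∀ᵐ e ∂(expMeasure 1), 0 < e := by
        rw [ae_iff]
        have : {a : ℝ | ¬ 0 < a} = Iic 0 := by ext e; simp
        rw [this, hnull]
      filter_upwards [hae] with e he
      apply propext
      change (tau b (w, e) x ≤ s ∧ e ≤ A t) ↔ e ≤ A (min s t)
      rw [hAm.map_min, le_min_iff]
      constructor
      · rintro ⟨h3, h4⟩
        exact ⟨((tau_spec hb ht he h4).2.2.2 s hs).1 h3, h4⟩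
      · rintro ⟨h3, h4⟩
        exact ⟨((tau_spec hb ht he h4).2.2.2 s hs).2 h3, h4⟩
  rw [← lintegral_map hh hτ, hmeq, lintegral_withDensity_eq_lintegral_mul _ hgm hh]
  rfl

end Pool.H50.BB
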