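import Pool.Agent.H50.BB.Tree
import Pool.Agent.H50.BB.Expo

/-!
# Row Cnt: finitely many particles   (about 130 lines)

`a n t x = ∑' u, if u.length ≤ n then PP {ω | Alive b u ω x t} else 0`.  Claim `a n t x ≤ ofReal (exp t)` for all `n`, `x`, `t ≥ 0`, by induction on `n`.
`n = 0`: at most `1`.  Step: words of length `≤ n+1` are `[]` and `c :: u`, `u.length ≤ n`.  By `tree_map` and the definition of `Alive`, for a word `c :: u`:
`PP {Alive (c :: u) x t} = ∫⁻ m in {e ≤ clock t}, PP {Alive u (x + pt w τ) (t - τ)} dmk`.  Sum over `u`, `c` (Tonelli `lintegral_tsum`):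
`a (n+1) t x ≤ ∫⁻ w [ofReal exp(-A t) + 2 ∫⁻ e in {e ≤ A t}, ofReal exp (t - τ(e))] dW2` (`expo_surv`, induction), and by `expo_split` the inner integral is
`∫⁻ s in Ioc 0 t, ofReal (b(..s) exp (-A s) exp (t-s))`.  With `f r = -(b(arg(x+pt w r)) + 1)`, `exp_prim`: `∫_0^t (b+1) exp(-A s - s) ds = 1 - exp(-A t - t)`, and `b ≤ 1` gives
`2b ≤ b + 1`; so `2 ∫ b e^{-A s} e^{t-s} ds ≤ e^t (1 - exp (-A t - t)) = e^t - e^{-A t}`; total `≤ e^t`.
`cnt`: `n → ∞` (`ENNReal.tsum` as supremum over finite sets: each finite set of words has bounded length; `ENNReal.tsum_le_of_sum_le`-like).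
`alive_finite`: `∑' u PP(A_u) < ∞` so by Borel-Cantelli (`measure_limsup_cofinite_eq_zero` / `ae_finite_setOf_mem`) a.e. `ω` is in finitely many `A_u`.
-/

open MeasureTheory ProbabilityTheory Set Filter Topology
open scoped NNReal ENNReal

namespace Pool.H50.BB

open Pool.Agent.H4.BM

/-- start of the children -/
theorem cnt_fm {b : ℝ → ℝ} (hb : Rate b) (t : ℝ) (x : ℂ) :
    Measurable fun m : P2 × ℝ => (x + pt m.1 (tau b m x), t - tau b m x) := by
  have h1 : Measurable fun m : P2 × ℝ => tau b m x :=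
    (tau_meas hb).comp (measurable_id.prodMk measurable_const)
  have h2 : Measurable fun m : P2 × ℝ => pt m.1 (tau b m x) :=
    pt_meas.comp (measurable_fst.prodMk h1)
  exact (measurable_const.add h2).prodMk (measurable_const.sub h1)

theorem cnt_gm {b : ℝ → ℝ} (hb : Rate b) (t : ℝ) (x : ℂ) :
    MeasurableSet {m : P2 × ℝ | m.2 ≤ clock b m.1 x t} := by
  have h1 : Measurable fun m : P2 × ℝ => clock b m.1 x t :=
    (clock_meas hb).comp (measurable_fst.prodMk (measurable_const.prodMk measurable_const))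
  exact measurableSet_le measurable_snd h1

theorem cnt_am {b : ℝ → ℝ} (hb : Rate b) (u : List Bool) (t : ℝ) (x : ℂ) :
    Measurable fun m : P2 × ℝ => PP {ω | Alive b u ω (x + pt m.1 (tau b m x)) (t - tau b m x)} := by
  have h1 : MeasurableSet {q : (P2 × ℝ) × Cfg |
      Alive b u q.2 (x + pt q.1.1 (tau b q.1 x)) (t - tau b q.1 x)} := by
    have h2 : Measurable fun q : (P2 × ℝ) × Cfg =>
        (q.2, (x + pt q.1.1 (tau b q.1 x), t - tau b q.1 x)) :=
      measurable_snd.prodMk ((cnt_fm hb t x).comp measurable_fst)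
    exact h2 (alive_meas hb u)
  exact measurable_measure_prodMk_left h1

theorem cnt_tree {b : ℝ → ℝ} (hb : Rate b) (c : Bool) (u : List Bool) (t : ℝ) (x : ℂ) :
    PP {ω | Alive b (c :: u) ω x t} =
      ∫⁻ m in {m : P2 × ℝ | m.2 ≤ clock b m.1 x t},
        PP {ω | Alive b u ω (x + pt m.1 (tau b m x)) (t - tau b m x)} ∂mk := by
  have hG : Measurable (fun ω : Cfg => (ω [], sub false ω, sub true ω)) :=
    (measurable_pi_apply _).prodMk ((sub_meas false).prodMk (sub_meas true))
  obtain ⟨sel, hsm, hsp, hsel⟩ : ∃ sel : Cfg × Cfg → Cfg, Measurable sel ∧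
      (∀ s : Set Cfg, MeasurableSet s → (PP.prod PP) (sel ⁻¹' s) = PP s) ∧
      ∀ ω : Cfg, sel (sub false ω, sub true ω) = sub c ω := by
    cases c
    · refine ⟨Prod.fst, measurable_fst, fun s hs => ?_, fun ω => rfl⟩
      exact measurePreserving_fst.measure_preimage hs.nullMeasurableSet
    · refine ⟨Prod.snd, measurable_snd, fun s hs => ?_, fun ω => rfl⟩
      exact measurePreserving_snd.measure_preimage hs.nullMeasurableSet
  have hS : MeasurableSet {p : (P2 × ℝ) × Cfg × Cfg | p.1.2 ≤ clock b p.1.1 x t ∧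
      Alive b u (sel p.2) (x + pt p.1.1 (tau b p.1 x)) (t - tau b p.1 x)} := by
    have h1 : MeasurableSet {p : (P2 × ℝ) × Cfg × Cfg | p.1.2 ≤ clock b p.1.1 x t} :=
      measurable_fst (cnt_gm hb t x)
    have h2 : Measurable fun q : (P2 × ℝ) × Cfg × Cfg =>
        (sel q.2, (x + pt q.1.1 (tau b q.1 x), t - tau b q.1 x)) :=
      (hsm.comp measurable_snd).prodMk ((cnt_fm hb t x).comp measurable_fst)
    exact h1.inter (h2 (alive_meas hb u))
  have h3 : {ω | Alive b (c :: u) ω x t} = (fun ω : Cfg => (ω [], sub false ω, sub true ω)) ⁻¹'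
      {p : (P2 × ℝ) × Cfg × Cfg | p.1.2 ≤ clock b p.1.1 x t ∧
      Alive b u (sel p.2) (x + pt p.1.1 (tau b p.1 x)) (t - tau b p.1 x)} := by
    ext ω
    simp only [Set.mem_ofPred_eq, Set.mem_preimage, hsel]
    rfl
  rw [h3, ← Measure.map_apply hG hS, tree_map, Measure.prod_apply hS,
    ← lintegral_indicator (cnt_gm hb t x)]
  refine lintegral_congr fun m => ?_
  by_cases hm : m ∈ {m : P2 × ℝ | m.2 ≤ clock b m.1 x t}
  · rw [Set.indicator_of_mem hm]
    have h4 : MeasurableSet {ω | Alive b u ω (x + pt m.1 (tau b m x)) (t - tau b m x)} := by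
      have h5 : Measurable fun ω : Cfg => (ω, (x + pt m.1 (tau b m x), t - tau b m x)) :=
        measurable_id.prodMk measurable_const
      exact h5 (alive_meas hb u)
    rw [← hsp _ h4]
    congr 1
    ext q
    simp only [Set.mem_preimage, Set.mem_ofPred_eq]
    exact ⟨fun h => h.2, fun h => ⟨hm, h⟩⟩
  · rw [Set.indicator_of_notMem hm]
    have h4 : Prod.mk m ⁻¹' {p : (P2 × ℝ) × Cfg × Cfg | p.1.2 ≤ clock b p.1.1 x t ∧
      Alive b u (sel p.2) (x + pt p.1.1 (tau b p.1 x)) (t - tau b p.1 x)} = ∅ := by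
      ext q
      simp only [Set.mem_preimage, Set.mem_ofPred_eq, Set.mem_empty_iff_false, iff_false]
      exact fun h => hm h.1
    rw [h4, measure_empty]

theorem cnt_nil {b : ℝ → ℝ} (hb : Rate b) {t : ℝ} (ht : 0 ≤ t) (x : ℂ) :
    PP {ω | Alive b [] ω x t} = ∫⁻ w, ENNReal.ofReal (Real.exp (-clock b w x t)) ∂W2 := by
  have hG : Measurable (fun ω : Cfg => (ω [], sub false ω, sub true ω)) :=
    (measurable_pi_apply _).prodMk ((sub_meas false).prodMk (sub_meas true))
  have hc : Measurable fun m : P2 × ℝ => clock b m.1 x t :=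
    (clock_meas hb).comp (measurable_fst.prodMk (measurable_const.prodMk measurable_const))
  have hS0 : MeasurableSet {m : P2 × ℝ | clock b m.1 x t < m.2} := measurableSet_lt hc measurable_snd
  have hS : MeasurableSet {p : (P2 × ℝ) × Cfg × Cfg | clock b p.1.1 x t < p.1.2} :=
    measurable_fst hS0
  have h3 : {ω | Alive b [] ω x t} = (fun ω : Cfg => (ω [], sub false ω, sub true ω)) ⁻¹'
      {p : (P2 × ℝ) × Cfg × Cfg | clock b p.1.1 x t < p.1.2} := by
    ext ω
    simp only [Set.mem_ofPred_eq, Set.mem_preimage]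
    rfl
  have h4 : {p : (P2 × ℝ) × Cfg × Cfg | clock b p.1.1 x t < p.1.2} =
      Prod.fst ⁻¹' {m : P2 × ℝ | clock b m.1 x t < m.2} := rfl
  have : IsProbabilityMeasure (expMeasure 1) := isProbabilityMeasure_expMeasure one_pos
  rw [h3, ← Measure.map_apply hG hS, tree_map, h4,
    measurePreserving_fst.measure_preimage hS0.nullMeasurableSet]
  unfold mk
  rw [Measure.prod_apply hS0]
  refine lintegral_congr fun w => ?_
  have h0 : 0 ≤ clock b w x t := by
    have := clock_mono hb w x ht
    rwa [clock_zero] at this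
  rw [← expo_surv h0]
  rfl

theorem cnt_one {b : ℝ → ℝ} (hb : Rate b) (w : P2) {t : ℝ} (ht : 0 ≤ t) (x : ℂ) :
    ENNReal.ofReal (Real.exp (-clock b w x t)) +
      2 * ∫⁻ s in Ioc 0 t, ENNReal.ofReal (b (Complex.arg (x + pt w s)) *
        Real.exp (-clock b w x s)) * ENNReal.ofReal (Real.exp (t - s)) ≤
      ENNReal.ofReal (Real.exp t) := by
  have hbm : Measurable fun r : ℝ => b (Complex.arg (x + pt w r)) :=
    (barg_meas hb).comp ((continuous_const.add (pt_cont w)).measurable)
  have hK : ∀ u : ℝ, |(fun r : ℝ => -(b (Complex.arg (x + pt w r)) + 1)) u| ≤ 2 := by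
    intro u
    have h1 := hb.nonneg (Complex.arg (x + pt w u))
    have h2 := hb.le_one (Complex.arg (x + pt w u))
    rw [abs_le]; constructor <;> simp only <;> linarith
  have h1 := exp_prim (hbm.add measurable_const).neg hK ht
  have h2 : ∀ r : ℝ, (∫ u in (0 : ℝ)..r, -(b (Complex.arg (x + pt w u)) + 1)) =
      -(clock b w x r + r) := by
    intro r
    rw [intervalIntegral.integral_neg, intervalIntegral.integral_add (clock_int hb w x 0 r)
      intervalIntegrable_const]
    simp [clock]
  simp only [Pi.neg_apply, Pi.add_apply, h2] at h1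
  have hcc := clock_cont hb w x
  have h3 : IntervalIntegrable (fun s => (b (Complex.arg (x + pt w s)) + 1) *
      (Real.exp (-clock b w x s) * Real.exp (t - s))) volume 0 t := by
    refine IntervalIntegrable.mul_continuousOn ((clock_int hb w x 0 t).add
      intervalIntegrable_const) ?_
    exact Continuous.continuousOn (by fun_prop)
  have h4 : ∫ s in (0 : ℝ)..t, (b (Complex.arg (x + pt w s)) + 1) *
      (Real.exp (-clock b w x s) * Real.exp (t - s)) =
      Real.exp t - Real.exp (-clock b w x t) := by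
    have h5 : ∀ s : ℝ, (b (Complex.arg (x + pt w s)) + 1) *
      (Real.exp (-clock b w x s) * Real.exp (t - s)) =
      (-Real.exp t) * (-(b (Complex.arg (x + pt w s)) + 1) * Real.exp (-(clock b w x s + s))) := by
      intro s
      rw [show -(clock b w x s + s) = -clock b w x s + (-s) by ring, Real.exp_add,
        show t - s = t + (-s) by ring, Real.exp_add]
      ring
    rw [intervalIntegral.integral_congr (fun s _ => h5 s), intervalIntegral.integral_const_mul,
      ← h1, show -(clock b w x t + t) = -clock b w x t + (-t) by ring, Real.exp_add]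
    have h6 : Real.exp t * Real.exp (-t) = 1 := by rw [← Real.exp_add]; simp
    linear_combination (-Real.exp (-clock b w x t)) * h6
  have h7 : 2 * ∫⁻ s in Ioc 0 t, ENNReal.ofReal (b (Complex.arg (x + pt w s)) *
        Real.exp (-clock b w x s)) * ENNReal.ofReal (Real.exp (t - s)) ≤
      ∫⁻ s in Ioc 0 t, ENNReal.ofReal ((b (Complex.arg (x + pt w s)) + 1) *
      (Real.exp (-clock b w x s) * Real.exp (t - s))) := by
    rw [← lintegral_const_mul']
    · refine lintegral_mono fun s => ?_
      have h8 := hb.nonneg (Complex.arg (x + pt w s))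
      have h9 := hb.le_one (Complex.arg (x + pt w s))
      have h10 : (2 : ℝ≥0∞) = ENNReal.ofReal 2 := by simp
      rw [← ENNReal.ofReal_mul (by positivity), h10, ← ENNReal.ofReal_mul (by norm_num)]
      refine ENNReal.ofReal_le_ofReal ?_
      have h11 : 0 < Real.exp (-clock b w x s) * Real.exp (t - s) := by positivity
      nlinarith
    · simp
  have h8 : ∫⁻ s in Ioc 0 t, ENNReal.ofReal ((b (Complex.arg (x + pt w s)) + 1) *
      (Real.exp (-clock b w x s) * Real.exp (t - s))) =
      ENNReal.ofReal (Real.exp t - Real.exp (-clock b w x t)) := by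
    rw [← h4, intervalIntegral.integral_of_le ht, ofReal_integral_eq_lintegral_ofReal]
    · exact (intervalIntegrable_iff_integrableOn_Ioc_of_le ht).1 h3
    · refine Eventually.of_forall fun s => ?_
      have h8 := hb.nonneg (Complex.arg (x + pt w s))
      simp only [Pi.zero_apply]
      positivity
  have h9 : Real.exp (-clock b w x t) ≤ Real.exp t := by
    have h0 : 0 ≤ clock b w x t := by
      have := clock_mono hb w x ht
      rwa [clock_zero] at this
    exact Real.exp_le_exp.2 (by linarith)
  calc _ ≤ ENNReal.ofReal (Real.exp (-clock b w x t)) +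
        ENNReal.ofReal (Real.exp t - Real.exp (-clock b w x t)) := by
        rw [← h8]; gcongr
    _ = _ := by
        rw [← ENNReal.ofReal_add (by positivity) (by linarith)]
        congr 1; ring

theorem cnt_tau_le {b : ℝ → ℝ} {m : P2 × ℝ} {x : ℂ} {t : ℝ} (ht : 0 ≤ t)
    (h : m.2 ≤ clock b m.1 x t) : tau b m x ≤ t :=
  csInf_le ⟨0, fun _ hs => hs.1⟩ ⟨ht, h⟩

theorem cnt_le {b : ℝ → ℝ} (hb : Rate b) (n : ℕ) : ∀ (s : Finset (List Bool)),
    (∀ u ∈ s, u.length < n) → ∀ {t : ℝ}, 0 ≤ t → ∀ x : ℂ,
    ∑ u ∈ s, PP {ω | Alive b u ω x t} ≤ ENNReal.ofReal (Real.exp t) := by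
  induction n with
  | zero =>
    intro s hs t ht x
    have h1 : s = ∅ := Finset.eq_empty_of_forall_notMem fun u hu => absurd (hs u hu) (by omega)
    rw [h1]; simp
  | succ n ih =>
    intro s hs t ht x
    have hinj : ∀ c : Bool, Function.Injective (List.cons c) := fun c => List.cons_injective
    set sc : Bool → Finset (List Bool) := fun c => s.preimage (List.cons c) (hinj c).injOn with hsc
    have hlen : ∀ c, ∀ u ∈ sc c, u.length < n := by
      intro c u hu
      rw [hsc, Finset.mem_preimage] at hu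
      have := hs _ hu
      simp at this
      exact this
    have hsub : s ⊆ insert [] ((sc false).map ⟨List.cons false, hinj false⟩ ∪
        (sc true).map ⟨List.cons true, hinj true⟩) := by
      intro u hu
      rcases u with _ | ⟨c, u⟩
      · simp
      · cases c
        · simp [hsc, hu]
        · simp [hsc, hu]
    have hchild : ∀ c, ∑ u ∈ sc c, PP {ω | Alive b (c :: u) ω x t} ≤
        ∫⁻ m in {m : P2 × ℝ | m.2 ≤ clock b m.1 x t},
          ENNReal.ofReal (Real.exp (t - tau b m x)) ∂mk := by
      intro c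
      rw [Finset.sum_congr rfl fun u _ => cnt_tree hb c u t x,
        ← lintegral_finsetSum _ fun u _ => cnt_am hb u t x]
      refine setLIntegral_mono' (cnt_gm hb t x) fun m hm => ?_
      exact ih _ (hlen c) (sub_nonneg.2 (cnt_tau_le ht hm)) _
    have hexp : IsProbabilityMeasure (expMeasure 1) := isProbabilityMeasure_expMeasure one_pos
    have hint : ∫⁻ m in {m : P2 × ℝ | m.2 ≤ clock b m.1 x t},
          ENNReal.ofReal (Real.exp (t - tau b m x)) ∂mk =
        ∫⁻ w, (∫⁻ s in Ioc 0 t, ENNReal.ofReal (b (Complex.arg (x + pt w s)) *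
          Real.exp (-clock b w x s)) * ENNReal.ofReal (Real.exp (t - s))) ∂W2 := by
      have hm1 : Measurable fun m : P2 × ℝ => ENNReal.ofReal (Real.exp (t - tau b m x)) :=
        (Real.measurable_exp.comp ((cnt_fm hb t x).snd)).ennreal_ofReal
      rw [← lintegral_indicator (cnt_gm hb t x)]
      unfold mk
      rw [lintegral_prod _ ((hm1.indicator (cnt_gm hb t x)).aemeasurable)]
      refine lintegral_congr fun w => ?_
      have hme : Measurable fun s : ℝ => ENNReal.ofReal (Real.exp (t - s)) := by fun_prop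
      rw [← expo_split hb w x ht hme, ← lintegral_indicator (by measurability)]
      rfl
    calc ∑ u ∈ s, PP {ω | Alive b u ω x t}
        ≤ ∑ u ∈ insert [] ((sc false).map ⟨List.cons false, hinj false⟩ ∪
        (sc true).map ⟨List.cons true, hinj true⟩), PP {ω | Alive b u ω x t} :=
          Finset.sum_le_sum_of_subset hsub
      _ = PP {ω | Alive b [] ω x t} + ((∑ u ∈ sc false, PP {ω | Alive b (false :: u) ω x t}) +
          ∑ u ∈ sc true, PP {ω | Alive b (true :: u) ω x t}) := by
          rw [Finset.sum_insert (by simp), Finset.sum_union, Finset.sum_map, Finset.sum_map]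
          · rfl
          · rw [Finset.disjoint_left]
            intro u hu hu'
            simp at hu hu'
            obtain ⟨a, _, rfl⟩ := hu
            obtain ⟨a', _, h⟩ := hu'
            simp at h
      _ ≤ (∫⁻ w, ENNReal.ofReal (Real.exp (-clock b w x t)) ∂W2) +
          2 * ∫⁻ w, (∫⁻ s in Ioc 0 t, ENNReal.ofReal (b (Complex.arg (x + pt w s)) *
          Real.exp (-clock b w x s)) * ENNReal.ofReal (Real.exp (t - s))) ∂W2 := by
          rw [cnt_nil hb ht x, ← hint, two_mul]
          exact add_le_add le_rfl (add_le_add (hchild false) (hchild true))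
      _ ≤ ∫⁻ w, (ENNReal.ofReal (Real.exp (-clock b w x t)) +
          2 * ∫⁻ s in Ioc 0 t, ENNReal.ofReal (b (Complex.arg (x + pt w s)) *
          Real.exp (-clock b w x s)) * ENNReal.ofReal (Real.exp (t - s))) ∂W2 := by
          have hc : Measurable fun w : P2 => ENNReal.ofReal (Real.exp (-clock b w x t)) := by
            have hc : Measurable fun w : P2 => clock b w x t :=
              (clock_meas hb).comp (measurable_id.prodMk (measurable_const.prodMk measurable_const))
            exact (Real.measurable_exp.comp hc.neg).ennreal_ofReal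
          rw [lintegral_add_left hc, lintegral_const_mul' _ _ (by simp)]
      _ ≤ ∫⁻ w, ENNReal.ofReal (Real.exp t) ∂W2 := lintegral_mono fun w => cnt_one hb w ht x
      _ = ENNReal.ofReal (Real.exp t) := by simp

theorem cnt {b : ℝ → ℝ} (hb : Rate b) {t : ℝ} (ht : 0 ≤ t) (x : ℂ) :
    ∑' u : List Bool, PP {ω | Alive b u ω x t} ≤ ENNReal.ofReal (Real.exp t) := by
  rw [ENNReal.tsum_eq_iSup_sum]
  refine iSup_le fun s => ?_
  refine cnt_le hb (s.sup List.length + 1) s (fun u hu => ?_) ht x
  exact Nat.lt_succ_of_le (Finset.le_sup (f := List.length) hu)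

theorem alive_finite {b : ℝ → ℝ} (hb : Rate b) {t : ℝ} (ht : 0 ≤ t) (x : ℂ) :
    ∀ᵐ ω ∂PP, {u | Alive b u ω x t}.Finite := by
  have h2 := ae_finite_setOfPred_mem (μ := PP) (s := fun u => {ω | Alive b u ω x t})
    ((cnt hb ht x).trans_lt ENNReal.ofReal_lt_top).ne
  exact h2

end Pool.H50.BB
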