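import Pool.Agent.H50.BB.Tree
import Pool.Agent.H50.BB.Expo

/-!
# Row Renew: first branching decomposition   (about 170 lines)

Fix `x`, `t ≥ 0`, `A` measurable; `G(ω,x,t) = ¬ ∃ u, Alive b u ω x t ∧ pos b u ω x t ∈ A`; `PP {G} = 1 - vf b A t x` (complement, `hit_meas`).
Words are `[]` or `c :: u`, so (definitions of `Alive`, `pos`), with `m = ω [] = (w,e)`, `A_t = clock b w x t`, `τ = tau b m x`:
`G(ω,x,t) ↔ (A_t < e → x + pt w t ∉ A) ∧ (e ≤ A_t → G(sub false ω, x + pt w τ, t - τ) ∧ G(sub true ω, x + pt w τ, t - τ))`.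
By `tree_map` (`lintegral_map`, `Measure.prod_prod`-type computation, Fubini) `PP{G} = ∫⁻ m, [1{A_t<e} 1{x + pt w t ∉ A} + 1{e ≤ A_t} ofReal (1 - vf b A (t-τ) (x + pt w τ))^2] dmk`
(for fixed `m` the two subtree events are independent with the same probability).  `mk = W2.prod (expMeasure 1)`: for fixed `w` the first part is `exp(-A_t) 1{∉A}` (`expo_surv`),
the second is `expo_split` with `h s = ofReal ((1 - vf b A (t-s) (x + pt w s))^2)`.
`renew_ennreal` is this.  `renew`: real form for `t = T - s`; `PK` with `k = -b(arg y)`: `∫ u in s..r, -b(arg(x + pt w (u-s))) = -clock b w x (r-s)` (substitution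
`intervalIntegral.integral_comp_sub_right`), everything is bounded (by 1) and measurable, so `ofReal_integral_eq_lintegral_ofReal` and Fubini between `dr` on `(s,T]` and `W2`
(and the substitution `r = s + r'`).
-/

open MeasureTheory ProbabilityTheory Set Filter Topology
open scoped NNReal ENNReal

namespace Pool.H50.BB

open Pool.Agent.H4.BM

/-- no particle is in `A` at time `t` -/
def RenMiss (b : ℝ → ℝ) (A : Set ℂ) (ω : Cfg) (x : ℂ) (t : ℝ) : Prop :=
  ¬ ∃ u, Alive b u ω x t ∧ pos b u ω x t ∈ A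

theorem Ren_iff (b : ℝ → ℝ) (A : Set ℂ) (ω : Cfg) (x : ℂ) (t : ℝ) :
    RenMiss b A ω x t ↔
      (clock b (ω []).1 x t < (ω []).2 → x + pt (ω []).1 t ∉ A) ∧
      ((ω []).2 ≤ clock b (ω []).1 x t →
        RenMiss b A (sub false ω) (x + pt (ω []).1 (tau b (ω []) x)) (t - tau b (ω []) x) ∧
        RenMiss b A (sub true ω) (x + pt (ω []).1 (tau b (ω []) x)) (t - tau b (ω []) x)) := by
  constructor
  · intro h
    refine ⟨fun h1 h2 => h ⟨[], h1, h2⟩, fun h1 => ⟨?_, ?_⟩⟩
    · rintro ⟨u, h2, h3⟩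
      exact h ⟨false :: u, ⟨h1, h2⟩, h3⟩
    · rintro ⟨u, h2, h3⟩
      exact h ⟨true :: u, ⟨h1, h2⟩, h3⟩
  · rintro ⟨h1, h2⟩ ⟨u, hu1, hu2⟩
    rcases u with _ | ⟨c, u⟩
    · exact h1 hu1 hu2
    · cases c
      · exact (h2 hu1.1).1 ⟨u, hu1.2, hu2⟩
      · exact (h2 hu1.1).2 ⟨u, hu1.2, hu2⟩

theorem Ren_meas {b : ℝ → ℝ} (hb : Rate b) {A : Set ℂ} (hA : MeasurableSet A) :
    MeasurableSet {p : Cfg × ℂ × ℝ | RenMiss b A p.1 p.2.1 p.2.2} := (hit_meas hb hA).compl

theorem Ren_PP {b : ℝ → ℝ} (hb : Rate b) {A : Set ℂ} (hA : MeasurableSet A) (x : ℂ) (t : ℝ) :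
    PP {ω | RenMiss b A ω x t} = ENNReal.ofReal (1 - vf b A t x) := by
  have hm : MeasurableSet {ω : Cfg | ∃ u, Alive b u ω x t ∧ pos b u ω x t ∈ A} := by
    have h1 : Measurable fun ω : Cfg => (ω, (x, t)) := measurable_id.prodMk measurable_const
    exact h1 (hit_meas hb hA)
  have h2 : {ω | RenMiss b A ω x t} = {ω : Cfg | ∃ u, Alive b u ω x t ∧ pos b u ω x t ∈ A}ᶜ := rfl
  rw [h2, prob_compl_eq_one_sub hm, vf, ENNReal.ofReal_sub _ ENNReal.toReal_nonneg, ENNReal.ofReal_one,
    ENNReal.ofReal_toReal (measure_ne_top _ _)]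

/-- the event in terms of the root and the two subtrees -/
def RenE (b : ℝ → ℝ) (A : Set ℂ) (x : ℂ) (t : ℝ) : Set ((P2 × ℝ) × Cfg × Cfg) :=
  {p | (clock b p.1.1 x t < p.1.2 → x + pt p.1.1 t ∉ A) ∧
      (p.1.2 ≤ clock b p.1.1 x t →
        RenMiss b A p.2.1 (x + pt p.1.1 (tau b p.1 x)) (t - tau b p.1 x) ∧
        RenMiss b A p.2.2 (x + pt p.1.1 (tau b p.1 x)) (t - tau b p.1 x))}

theorem Ren_imp {α : Type} [MeasurableSpace α] {p q : α → Prop} (hp : MeasurableSet {x | p x})
    (hq : MeasurableSet {x | q x}) : MeasurableSet {x | p x → q x} := by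
  have h : {x | p x → q x} = {x | p x}ᶜ ∪ {x | q x} := by
    ext x
    simp only [mem_ofPred_eq, mem_union, mem_compl_iff]
    exact imp_iff_not_or
  rw [h]
  exact hp.compl.union hq

theorem Ren_clk {b : ℝ → ℝ} (hb : Rate b) (x : ℂ) (t : ℝ) : Measurable fun w : P2 => clock b w x t :=
  (clock_meas hb).comp (measurable_id.prodMk (measurable_const.prodMk measurable_const))

theorem Ren_pt (t : ℝ) : Measurable fun w : P2 => pt w t :=
  pt_meas.comp (measurable_id.prodMk measurable_const)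

theorem RenE_meas {b : ℝ → ℝ} (hb : Rate b) {A : Set ℂ} (hA : MeasurableSet A) (x : ℂ) (t : ℝ) :
    MeasurableSet (RenE b A x t) := by
  have hm : Measurable fun p : (P2 × ℝ) × Cfg × Cfg => p.1 := measurable_fst
  have hw : Measurable fun p : (P2 × ℝ) × Cfg × Cfg => p.1.1 := measurable_fst.comp hm
  have he : Measurable fun p : (P2 × ℝ) × Cfg × Cfg => p.1.2 := measurable_snd.comp hm
  have hc : Measurable fun p : (P2 × ℝ) × Cfg × Cfg => clock b p.1.1 x t := (Ren_clk hb x t).comp hw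
  have hp : Measurable fun p : (P2 × ℝ) × Cfg × Cfg => x + pt p.1.1 t :=
    measurable_const.add ((Ren_pt t).comp hw)
  have ht : Measurable fun p : (P2 × ℝ) × Cfg × Cfg => tau b p.1 x :=
    (tau_meas hb).comp (hm.prodMk measurable_const)
  have hx : Measurable fun p : (P2 × ℝ) × Cfg × Cfg => x + pt p.1.1 (tau b p.1 x) :=
    measurable_const.add (pt_meas.comp (hw.prodMk ht))
  have ht' : Measurable fun p : (P2 × ℝ) × Cfg × Cfg => t - tau b p.1 x := measurable_const.sub ht
  have h0 : MeasurableSet {p : (P2 × ℝ) × Cfg × Cfg |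
      RenMiss b A p.2.1 (x + pt p.1.1 (tau b p.1 x)) (t - tau b p.1 x)} :=
    ((measurable_fst.comp measurable_snd).prodMk (hx.prodMk ht')) (Ren_meas hb hA)
  have h1 : MeasurableSet {p : (P2 × ℝ) × Cfg × Cfg |
      RenMiss b A p.2.2 (x + pt p.1.1 (tau b p.1 x)) (t - tau b p.1 x)} :=
    ((measurable_snd.comp measurable_snd).prodMk (hx.prodMk ht')) (Ren_meas hb hA)
  exact (Ren_imp (measurableSet_lt hc he) (hp hA.compl)).inter
    (Ren_imp (measurableSet_le he hc) (h0.inter h1))

theorem Ren_slice {b : ℝ → ℝ} (hb : Rate b) {A : Set ℂ} (hA : MeasurableSet A) (x : ℂ) (t : ℝ) (m : P2 × ℝ) :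
    (clock b m.1 x t < m.2 → (PP.prod PP) (Prod.mk m ⁻¹' RenE b A x t) =
      ENNReal.ofReal (1 - A.indicator (fun _ => (1 : ℝ)) (x + pt m.1 t))) ∧
    (m.2 ≤ clock b m.1 x t → (PP.prod PP) (Prod.mk m ⁻¹' RenE b A x t) =
      ENNReal.ofReal ((1 - vf b A (t - tau b m x) (x + pt m.1 (tau b m x))) ^ 2)) := by
  constructor
  · intro h
    by_cases hxA : x + pt m.1 t ∈ A
    · have h1 : Prod.mk m ⁻¹' RenE b A x t = ∅ := by
        ext q
        simp only [mem_preimage, RenE, mem_ofPred_eq, mem_empty_iff_false, iff_false]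
        intro h2
        exact h2.1 h hxA
      rw [h1, measure_empty, indicator_of_mem hxA, sub_self, ENNReal.ofReal_zero]
    · have h1 : Prod.mk m ⁻¹' RenE b A x t = univ := by
        ext q
        simp only [mem_preimage, RenE, mem_ofPred_eq, mem_univ, iff_true]
        exact ⟨fun _ => hxA, fun h2 => absurd h (not_lt.2 h2)⟩
      rw [h1, measure_univ, indicator_of_notMem hxA, sub_zero, ENNReal.ofReal_one]
  · intro h
    have h1 : Prod.mk m ⁻¹' RenE b A x t =
        {ω | RenMiss b A ω (x + pt m.1 (tau b m x)) (t - tau b m x)} ×ˢ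
        {ω | RenMiss b A ω (x + pt m.1 (tau b m x)) (t - tau b m x)} := by
      ext q
      simp only [mem_preimage, RenE, mem_ofPred_eq, mem_prod]
      exact ⟨fun h2 => h2.2 h, fun h2 => ⟨fun h3 => absurd h3 (not_lt.2 h), fun _ => h2⟩⟩
    rw [h1, Measure.prod_prod, Ren_PP hb hA, ← ENNReal.ofReal_mul (by linarith [vf_le_one b A (t - tau b m x) (x + pt m.1 (tau b m x))]),
      pow_two]

theorem Ren_m1 {b : ℝ → ℝ} (hb : Rate b) {A : Set ℂ} (hA : MeasurableSet A) (x : ℂ) (t : ℝ) :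
    Measurable fun w : P2 => Real.exp (-clock b w x t) * (1 - A.indicator (fun _ => (1 : ℝ)) (x + pt w t)) :=
  (Real.measurable_exp.comp (Ren_clk hb x t).neg).mul
    (measurable_const.sub ((measurable_const.indicator hA).comp (measurable_const.add (Ren_pt t))))

theorem Ren_h {b : ℝ → ℝ} (hb : Rate b) {A : Set ℂ} (hA : MeasurableSet A) (x : ℂ) (t : ℝ) (w : P2) :
    Measurable fun s : ℝ => ENNReal.ofReal ((1 - vf b A (t - s) (x + pt w s)) ^ 2) := by
  have h0 : Measurable fun s : ℝ => (t - s, x + pt w s) :=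
    (measurable_const.sub measurable_id).prodMk (measurable_const.add (pt_cont w).measurable)
  have h1 : Measurable fun s : ℝ => vf b A (t - s) (x + pt w s) := (vf_meas hb hA).comp h0
  have h2 : Measurable fun s : ℝ => (1 - vf b A (t - s) (x + pt w s)) ^ 2 :=
    (measurable_const.sub h1).pow_const 2
  exact h2.ennreal_ofReal

theorem renew_ennreal {b : ℝ → ℝ} (hb : Rate b) {A : Set ℂ} (hA : MeasurableSet A) {t : ℝ} (ht : 0 ≤ t) (x : ℂ) :
    ENNReal.ofReal (1 - vf b A t x) =
      ∫⁻ w, ENNReal.ofReal (Real.exp (-clock b w x t) * (1 - A.indicator (fun _ => (1 : ℝ)) (x + pt w t))) ∂W2 +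
      ∫⁻ w, (∫⁻ s in Ioc 0 t, ENNReal.ofReal (b (Complex.arg (x + pt w s)) * Real.exp (-clock b w x s)) *
        ENNReal.ofReal ((1 - vf b A (t - s) (x + pt w s)) ^ 2)) ∂W2 := by
  have : IsProbabilityMeasure (expMeasure 1) := isProbabilityMeasure_expMeasure one_pos
  have hG : Measurable (fun ω : Cfg => (ω [], sub false ω, sub true ω)) :=
    (measurable_pi_apply []).prodMk ((sub_meas false).prodMk (sub_meas true))
  have hE := RenE_meas hb hA x t
  have h1 : PP {ω | RenMiss b A ω x t} = (mk.prod (PP.prod PP)) (RenE b A x t) := by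
    rw [← tree_map, Measure.map_apply hG hE]
    congr 1
    ext ω
    exact Ren_iff b A ω x t
  rw [← Ren_PP hb hA, h1, Measure.prod_apply hE]
  have h2 : ∫⁻ m, (PP.prod PP) (Prod.mk m ⁻¹' RenE b A x t) ∂mk =
      ∫⁻ w, ∫⁻ e, (PP.prod PP) (Prod.mk (w, e) ⁻¹' RenE b A x t) ∂(expMeasure 1) ∂W2 := by
    unfold mk
    exact lintegral_prod _ (measurable_measure_prodMk_left hE).aemeasurable
  rw [h2]
  have h3 : ∀ w : P2, ∫⁻ e, (PP.prod PP) (Prod.mk (w, e) ⁻¹' RenE b A x t) ∂(expMeasure 1) =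
      ENNReal.ofReal (Real.exp (-clock b w x t) * (1 - A.indicator (fun _ => (1 : ℝ)) (x + pt w t))) +
      ∫⁻ s in Ioc 0 t, ENNReal.ofReal (b (Complex.arg (x + pt w s)) * Real.exp (-clock b w x s)) *
        ENNReal.ofReal ((1 - vf b A (t - s) (x + pt w s)) ^ 2) := by
    intro w
    have hset : MeasurableSet {e : ℝ | clock b w x t < e} := measurableSet_Ioi
    rw [← lintegral_add_compl _ hset]
    congr 1
    · rw [setLIntegral_congr_fun (g := fun _ => ENNReal.ofReal (1 - A.indicator (fun _ => (1 : ℝ)) (x + pt w t))) hset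
        (fun e he => (Ren_slice hb hA x t (w, e)).1 he), setLIntegral_const,
        expo_surv (by rw [← clock_zero b w x]; exact clock_mono hb w x ht),
        ← ENNReal.ofReal_mul, mul_comm]
      unfold indicator
      split_ifs <;> norm_num
    · have hc : {e : ℝ | clock b w x t < e}ᶜ = {e | e ≤ clock b w x t} := by
        ext e
        simp
      rw [hc]
      have hset' : MeasurableSet {e : ℝ | e ≤ clock b w x t} := measurableSet_Iic
      rw [setLIntegral_congr_fun (g := fun e => (fun s => ENNReal.ofReal ((1 - vf b A (t - s) (x + pt w s)) ^ 2)) (tau b (w, e) x)) hset'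
        (fun e he => (Ren_slice hb hA x t (w, e)).2 he)]
      exact expo_split hb w x ht (Ren_h hb hA x t w)
  rw [lintegral_congr h3]
  exact lintegral_add_left (Ren_m1 hb hA x t).ennreal_ofReal _

theorem Ren_PK (b : ℝ → ℝ) (s r : ℝ) (g : ℂ → ℝ) (x : ℂ) :
    PK (fun _ y => -b (Complex.arg y)) s r g x =
      ∫ w, Real.exp (-clock b w x (r - s)) * g (x + pt w (r - s)) ∂W2 := by
  unfold PK
  refine integral_congr_ae (Filter.Eventually.of_forall fun w => ?_)
  have h : ∫ u in s..r, -b (Complex.arg (x + pt w (u - s))) = -clock b w x (r - s) := by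
    unfold clock
    rw [intervalIntegral.integral_neg,
      intervalIntegral.integral_comp_sub_right (fun u => b (Complex.arg (x + pt w u))) s, sub_self]
  simp only [h]

theorem renew {b : ℝ → ℝ} (hb : Rate b) {A : Set ℂ} (hA : MeasurableSet A) {s T : ℝ} (hs : s ≤ T) (x : ℂ) :
    1 - vf b A (T - s) x =
      PK (fun _ y => -b (Complex.arg y)) s T (fun y => 1 - A.indicator (fun _ => (1 : ℝ)) y) x +
      ∫ r in s..T, PK (fun _ y => -b (Complex.arg y)) s r
        (fun y => b (Complex.arg y) * (1 - vf b A (T - r) y) ^ 2) x := by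
  obtain ⟨t, htdef⟩ : ∃ t, t = T - s := ⟨_, rfl⟩
  have ht : 0 ≤ t := by linarith
  have hren := renew_ennreal hb hA ht x
  -- the first term
  have hind : ∀ y : ℂ, 0 ≤ 1 - A.indicator (fun _ => (1 : ℝ)) y ∧ 1 - A.indicator (fun _ => (1 : ℝ)) y ≤ 1 := by
    intro y
    unfold indicator
    split_ifs <;> norm_num
  have hclk : ∀ (w : P2) (q : ℝ), 0 ≤ q → Real.exp (-clock b w x q) ≤ 1 := by
    intro w q hq
    rw [Real.exp_le_one_iff, neg_nonpos, ← clock_zero b w x]
    exact clock_mono hb w x hq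
  have hm1 : Measurable fun w : P2 => Real.exp (-clock b w x t) * (1 - A.indicator (fun _ => (1 : ℝ)) (x + pt w t)) :=
    (Real.measurable_exp.comp (Ren_clk hb x t).neg).mul
      (measurable_const.sub ((measurable_const.indicator hA).comp (measurable_const.add (Ren_pt t))))
  have hn1 : ∀ w : P2, 0 ≤ Real.exp (-clock b w x t) * (1 - A.indicator (fun _ => (1 : ℝ)) (x + pt w t)) :=
    fun w => mul_nonneg (Real.exp_pos _).le (hind _).1
  have hi1 : Integrable (fun w : P2 => Real.exp (-clock b w x t) *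
      (1 - A.indicator (fun _ => (1 : ℝ)) (x + pt w t))) W2 := by
    refine Integrable.of_bound hm1.aestronglyMeasurable 1 (Filter.Eventually.of_forall fun w => ?_)
    rw [Real.norm_of_nonneg (hn1 w)]
    exact mul_le_one₀ (hclk w t ht) (hind _).1 (hind _).2
  -- the second term
  obtain ⟨f, hf⟩ : ∃ f : P2 → ℝ → ℝ, f = fun w q => Real.exp (-clock b w x q) *
    (b (Complex.arg (x + pt w q)) * (1 - vf b A (t - q) (x + pt w q)) ^ 2) := ⟨_, rfl⟩
  have hfm : Measurable (Function.uncurry f) := by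
    have h1 : Measurable fun p : P2 × ℝ => clock b p.1 x p.2 :=
      (clock_meas hb).comp (measurable_fst.prodMk (measurable_const.prodMk measurable_snd))
    have h2 : Measurable fun p : P2 × ℝ => x + pt p.1 p.2 := measurable_const.add pt_meas
    have h3 : Measurable fun p : P2 × ℝ => vf b A (t - p.2) (x + pt p.1 p.2) :=
      (vf_meas hb hA).comp ((measurable_const.sub measurable_snd).prodMk h2)
    rw [hf]
    exact (Real.measurable_exp.comp h1.neg).mul
      (((barg_meas hb).comp h2).mul ((measurable_const.sub h3).pow_const 2))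
  have hv : ∀ (q : ℝ) (y : ℂ), 0 ≤ (1 - vf b A q y) ^ 2 ∧ (1 - vf b A q y) ^ 2 ≤ 1 := by
    intro q y
    have h1 := vf_nonneg b A q y
    have h2 := vf_le_one b A q y
    exact ⟨sq_nonneg _, by nlinarith⟩
  have hfn : ∀ w q, 0 ≤ f w q := by
    intro w q
    rw [hf]
    exact mul_nonneg (Real.exp_pos _).le (mul_nonneg (hb.nonneg _) (hv _ _).1)
  have hf1 : ∀ w q, 0 ≤ q → f w q ≤ 1 := by
    intro w q hq
    rw [hf]
    exact mul_le_one₀ (hclk w q hq) (mul_nonneg (hb.nonneg _) (hv _ _).1)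
      (mul_le_one₀ (hb.le_one _) (hv _ _).1 (hv _ _).2)
  have hfi : ∀ q, 0 ≤ q → Integrable (fun w => f w q) W2 := by
    intro q hq
    refine Integrable.of_bound (hfm.comp (measurable_id.prodMk measurable_const)).aestronglyMeasurable 1
      (Filter.Eventually.of_forall fun w => ?_)
    rw [Real.norm_of_nonneg (hfn w q)]
    exact hf1 w q hq
  have hΦm : StronglyMeasurable fun q => ∫ w, f w q ∂W2 :=
    StronglyMeasurable.integral_prod_left hfm.stronglyMeasurable
  have hΦn : ∀ q, 0 ≤ ∫ w, f w q ∂W2 := fun q => integral_nonneg fun w => hfn w q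
  have hΦi : Integrable (fun q => ∫ w, f w q ∂W2) (volume.restrict (Ioc 0 t)) := by
    refine Integrable.of_bound hΦm.aestronglyMeasurable 1 ?_
    refine (ae_restrict_iff' measurableSet_Ioc).2 (Filter.Eventually.of_forall fun q hq => ?_)
    rw [Real.norm_of_nonneg (hΦn q)]
    calc ∫ w, f w q ∂W2 ≤ ∫ _w, (1 : ℝ) ∂W2 :=
          integral_mono (hfi q hq.1.le) (integrable_const 1) fun w => hf1 w q hq.1.le
      _ = 1 := by simp
  have h1 : ENNReal.ofReal (∫ w, Real.exp (-clock b w x t) * (1 - A.indicator (fun _ => (1 : ℝ)) (x + pt w t)) ∂W2) =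
      ∫⁻ w, ENNReal.ofReal (Real.exp (-clock b w x t) * (1 - A.indicator (fun _ => (1 : ℝ)) (x + pt w t))) ∂W2 :=
    ofReal_integral_eq_lintegral_ofReal hi1 (Filter.Eventually.of_forall hn1)
  have h2 : ENNReal.ofReal (∫ q in Ioc 0 t, ∫ w, f w q ∂W2) =
      ∫⁻ w, (∫⁻ s in Ioc 0 t, ENNReal.ofReal (b (Complex.arg (x + pt w s)) * Real.exp (-clock b w x s)) *
        ENNReal.ofReal ((1 - vf b A (t - s) (x + pt w s)) ^ 2)) ∂W2 := by
    rw [ofReal_integral_eq_lintegral_ofReal hΦi (Filter.Eventually.of_forall hΦn)]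
    have h3 : ∫⁻ q in Ioc 0 t, ENNReal.ofReal (∫ w, f w q ∂W2) =
        ∫⁻ q in Ioc 0 t, ∫⁻ w, ENNReal.ofReal (f w q) ∂W2 := by
      refine setLIntegral_congr_fun measurableSet_Ioc fun q hq => ?_
      exact ofReal_integral_eq_lintegral_ofReal (hfi q hq.1.le) (Filter.Eventually.of_forall fun w => hfn w q)
    rw [h3, lintegral_lintegral_swap]
    · refine lintegral_congr fun w => lintegral_congr fun q => ?_
      rw [← ENNReal.ofReal_mul (mul_nonneg (hb.nonneg _) (Real.exp_pos _).le), hf]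
      congr 1
      ring
    · exact (ENNReal.measurable_ofReal.comp (hfm.comp measurable_swap)).aemeasurable
  rw [← h1, ← h2, ← ENNReal.ofReal_add (integral_nonneg hn1) (integral_nonneg hΦn)] at hren
  have h4 := (ENNReal.ofReal_eq_ofReal_iff (by linarith [vf_le_one b A t x])
    (add_nonneg (integral_nonneg hn1) (integral_nonneg hΦn))).1 hren
  rw [← htdef, h4, Ren_PK, ← htdef]
  congr 1
  have h5 : ∀ r, PK (fun _ y => -b (Complex.arg y)) s r
      (fun y => b (Complex.arg y) * (1 - vf b A (T - r) y) ^ 2) x = (fun q => ∫ w, f w q ∂W2) (r - s) := by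
    intro r
    rw [Ren_PK, hf]
    have h6 : T - r = t - (r - s) := by
      rw [htdef]
      ring
    rw [h6]
  simp_rw [h5]
  rw [intervalIntegral.integral_comp_sub_right (fun q => ∫ w, f w q ∂W2) s, sub_self, ← htdef,
    intervalIntegral.integral_of_le ht]

end Pool.H50.BB
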