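import Pool.Agent.H50.BB.KD
import Pool.Agent.H50.BB.Renew
import Pool.Agent.H50.BB.Cnt

/-!
# Row FKv: Feynman-Kac representation of vf, comparison   (about 220 lines)

Fix `b` (Rate), `A` measurable, `T ≥ 0`; `v s y = vf b A (T - s) y` (for `s ≤ T`; for `s > T` the function `vf` at negative times is measurable and in [0,1] as well, so all functions
are `Bdd`).
(1) `vf_zero`: at time 0: `clock = 0`, so the root is alive iff `0 < e`, which is a.s., and a word `c :: u` is alive only if `e ≤ 0`; position of the root is `x`.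
(2) mild form (`vf_mild`): `h = 1 - v` satisfies the hypothesis of `kd` with `k1 = -b(arg y)`, `f r y = b(arg y) (1 - v r y)^2` (`renew`; `h T = 1 - 1_A` by (1)).
`kd` with `k2 = 0`: `h s = PK 0 s T (h T) + ∫ PK 0 s r (b h^2 - b h)`, and `b h^2 - b h = -b h (1-h) = -b v (1-v)`; so `v s = PK 0 s T (v T) + ∫ r in s..T, PK 0 s r (b v (1-v))`
(`PK 0 s T 1 = 1`, linearity).
(3) `vf_fk`: `kd` for `v` with `k1 = 0`, `f = b v (1-v)`, `k2 = b (1-v)`: the source is `b v (1-v) - b (1-v) v = 0`: `v s = PK (b(1-v)) s T (v T)`.  By the semigroup property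
`v s = PK (b (1-v)) s r (v r)` for `s ≤ r ≤ T`.  Taking `s = 0` this is `vf_fk` (`PK` at `s = 0`; `vf b A (T - r) y = v r y`).
(4) `vf_diff`: two sets `A, A'`, two horizons `T, T'`, `0 ≤ r ≤ min T T'`; `v1, v2` as above, `δ = v1 - v2`.  From (3) and `kd` (on `[0,r]`, `k1 = b(1-v_i)`, source 0, `k2 = 0`):
`v_i s = PK 0 s r (v_i r) + ∫ q in s..r, PK 0 s q (b v_i (1-v_i))`; subtract: source `b δ (1 - v1 - v2)`; `kd` with `k2 = b (1 - v1 - v2)`: `δ s = PK (b(1-v1-v2)) s r (δ r)`.
As `b (1-v1-v2) ≤ b`: `|δ 0| ≤ PK b 0 r |δ r|`.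
(5) `vf_cmp`: `b1 ≤ b2`; `v_i s = vf b_i A (T - s)`, `δ = v2 - v1`, `δ T = 0`; from (2) the source is `b2 v2 (1-v2) - b1 v1 (1-v1) = (b2-b1) v2(1-v2) + b1 δ (1-v1-v2)`; `kd` with
`k2 = b1 (1-v1-v2)`: `δ s = ∫ r in s..T, PK k2 s r ((b2-b1) v2 (1-v2))`, which is `≥ 0` and `≤ exp T * ∫ r in 0..T, E (b2-b1)(arg B_r)` (as `k2 ≤ 1`, `0 ≤ v2(1-v2) ≤ 1`).
(6) `vf_mono`: inclusion of events.  (7) `vf_univ`: by (3) with `r = T` and `A = univ`: `vf ≥ ∫ exp(nonnegative) * 1 ≥ 1`.
(8) `alive_nonempty`: (7) says that the probability is 1.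
-/

open MeasureTheory ProbabilityTheory Set Filter Topology
open scoped NNReal ENNReal

namespace Pool.H50.BB

open Pool.Agent.H4.BM

variable {b : ℝ → ℝ} {A : Set ℂ}

theorem fk_bdd_v (hb : Rate b) (hA : MeasurableSet A) (T : ℝ) : Bdd 1 (fun s y => vf b A (T - s) y) where
  meas := by
    have h : Measurable fun p : ℝ × ℂ => ((T - p.1, p.2) : ℝ × ℂ) := by fun_prop
    exact (vf_meas hb hA).comp h
  bdd s y := by
    rw [abs_le]
    exact ⟨by linarith [vf_nonneg b A (T - s) y], vf_le_one b A (T - s) y⟩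

theorem fk_bdd_b (hb : Rate b) : Bdd 1 (fun (_ : ℝ) y => b (Complex.arg y)) where
  meas := (barg_meas hb).comp measurable_snd
  bdd _ y := by
    rw [abs_le]
    exact ⟨by linarith [hb.nonneg (Complex.arg y)], hb.le_one _⟩

theorem Bdd.mono {K K' : ℝ} {f : ℝ → ℂ → ℝ} (h : Bdd K f) (hK : K ≤ K') : Bdd K' f :=
  ⟨h.meas, fun s x => (h.bdd s x).trans hK⟩

theorem Bdd.mul {K M : ℝ} {f g : ℝ → ℂ → ℝ} (hf : Bdd K f) (hg : Bdd M g) :
    Bdd (K * M) (fun s y => f s y * g s y) where
  meas := hf.meas.mul hg.meas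
  bdd s y := by
    rw [abs_mul]
    exact mul_le_mul (hf.bdd s y) (hg.bdd s y) (abs_nonneg _) ((abs_nonneg _).trans (hf.bdd s y))

theorem Bdd.sub {K M : ℝ} {f g : ℝ → ℂ → ℝ} (hf : Bdd K f) (hg : Bdd M g) :
    Bdd (K + M) (fun s y => f s y - g s y) where
  meas := hf.meas.sub hg.meas
  bdd s y := by
    have h1 := abs_sub (f s y) (g s y)
    linarith [hf.bdd s y, hg.bdd s y]

theorem fk_bdd_const (c : ℝ) : Bdd |c| (fun _ _ => c) := ⟨measurable_const, fun _ _ => le_rfl⟩

theorem Bdd.sec {M : ℝ} {f : ℝ → ℂ → ℝ} (h : Bdd M f) (s : ℝ) : Measurable (f s) :=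
  h.meas.comp measurable_prodMk_left

theorem fk_zero {k : ℝ → ℂ → ℝ} {s T : ℝ} {x : ℂ} {G : ℝ → ℂ → ℝ} (hG : ∀ r y, G r y = 0) :
    ∫ r in s..T, PK k s r (G r) x = 0 := by
  unfold PK
  simp [hG]

/-- `PK` with potential zero -/
theorem PK_null {k : ℝ → ℂ → ℝ} (hk : ∀ u y, k u y = 0) (s r : ℝ) (g : ℂ → ℝ) (x : ℂ) :
    PK k s r g x = ∫ w, g (x + pt w (r - s)) ∂W2 := by
  unfold PK
  simp only [hk, intervalIntegral.integral_zero, Real.exp_zero, one_mul]

theorem fk_int {g : ℂ → ℝ} (hg : Measurable g) {M : ℝ} (hM : ∀ y, |g y| ≤ M) (x : ℂ) (s : ℝ) :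
    Integrable (fun w => g (x + pt w s)) W2 := by
  have h1 : Measurable fun w : P2 => x + pt w s := by
    have : Measurable fun w : P2 => pt w s := pt_meas.comp (measurable_id.prodMk measurable_const)
    exact measurable_const.add this
  exact Integrable.of_bound (hg.comp h1).aestronglyMeasurable M
    (Eventually.of_forall fun w => by rw [Real.norm_eq_abs]; exact hM _)

theorem PK_ii {K M : ℝ} {k G : ℝ → ℂ → ℝ} (hk : Bdd K k) (hG : Bdd M G) {s T : ℝ} (hs : s ≤ T) (x : ℂ) :
    IntervalIntegrable (fun r => PK k s r (G r) x) volume s T := by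
  rw [intervalIntegrable_iff_integrableOn_Ioc_of_le hs]
  have hm : Measurable fun r : ℝ => PK k s r (G r) x := by
    have h : Measurable fun r : ℝ => ((s, r, x) : ℝ × ℝ × ℂ) := by fun_prop
    exact (PK_meas hk hG).comp h
  refine Measure.integrableOn_of_bounded (M := Real.exp (|K| * (T - s)) * |M|)
    measure_Ioc_lt_top.ne hm.aestronglyMeasurable ?_
  filter_upwards [ae_restrict_mem measurableSet_Ioc] with r hr
  rw [Real.norm_eq_abs]
  refine (PK_bdd hk (hG.sec r) (hG.bdd r) hr.1.le x).trans ?_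
  refine mul_le_mul ?_ (le_abs_self M) ((abs_nonneg _).trans (hG.bdd r 0)) (Real.exp_pos _).le
  apply Real.exp_le_exp.2
  have h1 := le_abs_self K
  have h2 := abs_nonneg K
  nlinarith [hr.1, hr.2]

theorem vf_zero (hb : Rate b) (hA : MeasurableSet A) (x : ℂ) : vf b A 0 x = A.indicator (fun _ => (1 : ℝ)) x := by
  have h0 : ∀ᵐ ω : Cfg ∂PP, 0 < (ω []).2 := by
    have h1 : mk {m | ¬ 0 < m.2} = 0 := by
      have hs : {m : P2 × ℝ | ¬ 0 < m.2} = (univ : Set P2) ×ˢ {e : ℝ | ¬ 0 < e} := by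
        ext m; simp
      rw [hs]
      unfold mk
      have : IsProbabilityMeasure (expMeasure 1) := isProbabilityMeasure_expMeasure one_pos
      rw [Measure.prod_prod]
      have h2 : expMeasure 1 {e : ℝ | ¬ 0 < e} = 0 := by
        have h3 : {e : ℝ | ¬ 0 < e} = {e : ℝ | 0 < e}ᶜ := rfl
        have hm : MeasurableSet {e : ℝ | 0 < e} := measurableSet_Ioi
        rw [h3, prob_compl_eq_zero_iff hm, expo_surv le_rfl]
        simp
      rw [h2, mul_zero]
    have hmp : MeasurePreserving (fun ω : Cfg => ω []) PP mk := measurePreserving_eval_infinitePi _ _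
    have h4 := hmp.measure_preimage (s := {m | ¬ 0 < m.2})
      (measurableSet_lt measurable_const measurable_snd).compl.nullMeasurableSet
    rw [h1] at h4
    exact ae_iff.2 h4
  have h5 : ∀ ω : Cfg, 0 < (ω []).2 →
      ((∃ u, Alive b u ω x 0 ∧ pos b u ω x 0 ∈ A) ↔ x ∈ A) := by
    intro ω hω
    constructor
    · rintro ⟨u, hu, hp⟩
      cases u with
      | nil => simpa [pos, pt_zero] using hp
      | cons c u =>
        exfalso
        have := hu.1
        rw [clock_zero] at this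
        linarith
    · intro hx
      refine ⟨[], ?_, ?_⟩
      · change clock b (ω []).1 x 0 < (ω []).2
        rw [clock_zero]; exact hω
      · simpa [pos, pt_zero] using hx
  unfold vf
  by_cases hx : x ∈ A
  · rw [Set.indicator_of_mem hx]
    have h6 : PP {ω | ∃ u, Alive b u ω x 0 ∧ pos b u ω x 0 ∈ A} = PP univ := by
      apply measure_congr
      filter_upwards [h0] with ω hω
      apply propext
      exact ⟨fun _ => trivial, fun _ => (h5 ω hω).2 hx⟩
    rw [h6, measure_univ]; rfl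
  · rw [Set.indicator_of_notMem hx]
    have h6 : PP {ω | ∃ u, Alive b u ω x 0 ∧ pos b u ω x 0 ∈ A} = PP ∅ := by
      apply measure_congr
      filter_upwards [h0] with ω hω
      apply propext
      exact ⟨fun h => (hx ((h5 ω hω).1 h)).elim, fun h => h.elim⟩
    rw [h6, measure_empty]; rfl

/-- mild form with potential zero -/
theorem fk_mild (hb : Rate b) (hA : MeasurableSet A) {T s : ℝ} (hs : 0 ≤ s) (hsT : s ≤ T) (x : ℂ) :
    vf b A (T - s) x = PK (fun _ _ => 0) s T (vf b A (T - T)) x +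
      ∫ r in s..T, PK (fun _ _ => 0) s r
        (fun y => b (Complex.arg y) * vf b A (T - r) y * (1 - vf b A (T - r) y)) x := by
  have hB := fk_bdd_b hb
  have hv := fk_bdd_v hb hA T
  have h1 : Bdd (|1| + 1) (fun s y => 1 - vf b A (T - s) y) := (fk_bdd_const 1).sub hv
  have hnb : Bdd 1 (fun (_ : ℝ) y => -b (Complex.arg y)) :=
    ⟨hB.meas.neg, fun s y => by rw [abs_neg]; exact hB.bdd s y⟩
  have hf : Bdd 2 (fun (r : ℝ) y => b (Complex.arg y) * (1 - vf b A (T - r) y) ^ 2) := by
    refine ⟨hB.meas.mul (h1.meas.pow_const 2), fun r y => ?_⟩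
    have a1 := vf_nonneg b A (T - r) y
    have a2 := vf_le_one b A (T - r) y
    have a3 := hb.nonneg (Complex.arg y)
    have a4 := hb.le_one (Complex.arg y)
    have a5 : (1 - vf b A (T - r) y) ^ 2 ≤ 1 := by nlinarith
    have a6 : 0 ≤ (1 - vf b A (T - r) y) ^ 2 := sq_nonneg _
    rw [abs_of_nonneg (mul_nonneg a3 a6)]
    nlinarith
  have key := kd (T := T) hnb ((fk_bdd_const 0).mono (by norm_num : |(0 : ℝ)| ≤ 1))
    (h1.mono (by norm_num : |(1 : ℝ)| + 1 ≤ 2)) hf (fun s _ hsT x => by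
      have := renew hb hA hsT x
      simp only [sub_self]
      simp only [vf_zero hb hA]
      exact this) hs hsT x
  have e1 : PK (fun _ _ => 0) s T (fun y => 1 - vf b A (T - T) y) x =
      1 - PK (fun _ _ => 0) s T (vf b A (T - T)) x := by
    rw [PK_null (fun _ _ => rfl), PK_null (fun _ _ => rfl),
      integral_sub (integrable_const _) (fk_int (hv.sec T) (hv.bdd T) x _)]
    simp
  have e2 : ∫ r in s..T, PK (fun _ _ => 0) s r (fun y => b (Complex.arg y) * (1 - vf b A (T - r) y) ^ 2 +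
        (-b (Complex.arg y) - 0) * (1 - vf b A (T - r) y)) x =
      -∫ r in s..T, PK (fun _ _ => 0) s r
        (fun y => b (Complex.arg y) * vf b A (T - r) y * (1 - vf b A (T - r) y)) x := by
    rw [← intervalIntegral.integral_neg]
    congr 1
    funext r
    rw [PK_null (fun _ _ => rfl), PK_null (fun _ _ => rfl), ← integral_neg]
    congr 1
    funext w
    ring
  rw [e2] at key
  change 1 - vf b A (T - s) x = PK (fun _ _ => 0) s T (fun y => 1 - vf b A (T - T) y) x + _ at key
  rw [e1] at key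
  linarith

/-- Feynman-Kac form on `[s, T]` -/
theorem fk_full (hb : Rate b) (hA : MeasurableSet A) {T s : ℝ} (hs : 0 ≤ s) (hsT : s ≤ T) (x : ℂ) :
    vf b A (T - s) x = PK (fun u y => b (Complex.arg y) * (1 - vf b A (T - u) y)) s T (vf b A (T - T)) x := by
  have hB := fk_bdd_b hb
  have hv := fk_bdd_v hb hA T
  have h1 : Bdd (|1| + 1) (fun s y => 1 - vf b A (T - s) y) := (fk_bdd_const 1).sub hv
  have hk2 : Bdd 2 (fun u y => b (Complex.arg y) * (1 - vf b A (T - u) y)) :=
    (hB.mul h1).mono (by norm_num)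
  have hf : Bdd 2 (fun r y => b (Complex.arg y) * vf b A (T - r) y * (1 - vf b A (T - r) y)) :=
    ((hB.mul hv).mul h1).mono (by norm_num)
  have key := kd (T := T) ((fk_bdd_const 0).mono (by norm_num : |(0 : ℝ)| ≤ 2)) hk2
    (hv.mono (by norm_num : (1 : ℝ) ≤ 2)) hf (fun s hs hsT x => fk_mild hb hA hs hsT x) hs hsT x
  have e2 : ∫ r in s..T, PK (fun u y => b (Complex.arg y) * (1 - vf b A (T - u) y)) s r
      (fun y => b (Complex.arg y) * vf b A (T - r) y * (1 - vf b A (T - r) y) +
        (0 - b (Complex.arg y) * (1 - vf b A (T - r) y)) * vf b A (T - r) y) x = 0 :=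
    fk_zero (G := fun r y => b (Complex.arg y) * vf b A (T - r) y * (1 - vf b A (T - r) y) +
        (0 - b (Complex.arg y) * (1 - vf b A (T - r) y)) * vf b A (T - r) y) (fun r y => by ring)
  rw [e2, add_zero] at key
  exact key

/-- Feynman-Kac form on `[s, r]` -/
theorem fk_part (hb : Rate b) (hA : MeasurableSet A) {T r s : ℝ} (hs : 0 ≤ s) (hsr : s ≤ r) (hrT : r ≤ T)
    (x : ℂ) :
    vf b A (T - s) x = PK (fun u y => b (Complex.arg y) * (1 - vf b A (T - u) y)) s r (vf b A (T - r)) x := by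
  have hB := fk_bdd_b hb
  have hv := fk_bdd_v hb hA T
  have h1 : Bdd (|1| + 1) (fun s y => 1 - vf b A (T - s) y) := (fk_bdd_const 1).sub hv
  have hk2 : Bdd 2 (fun u y => b (Complex.arg y) * (1 - vf b A (T - u) y)) :=
    (hB.mul h1).mono (by norm_num)
  rw [fk_full hb hA hs (hsr.trans hrT) x, PK_semi hk2 (hv.sec T) (hv.bdd T) hsr hrT x]
  congr 1
  funext y
  exact (fk_full hb hA (hs.trans hsr) hrT y).symm

/-- mild form on `[s, r]` -/
theorem fk_mildp (hb : Rate b) (hA : MeasurableSet A) {T r s : ℝ} (hs : 0 ≤ s) (hsr : s ≤ r) (hrT : r ≤ T)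
    (x : ℂ) :
    vf b A (T - s) x = PK (fun _ _ => 0) s r (vf b A (T - r)) x +
      ∫ q in s..r, PK (fun _ _ => 0) s q
        (fun y => b (Complex.arg y) * vf b A (T - q) y * (1 - vf b A (T - q) y)) x := by
  have hB := fk_bdd_b hb
  have hv := fk_bdd_v hb hA T
  have h1 : Bdd (|1| + 1) (fun s y => 1 - vf b A (T - s) y) := (fk_bdd_const 1).sub hv
  have hk2 : Bdd 2 (fun u y => b (Complex.arg y) * (1 - vf b A (T - u) y)) :=
    (hB.mul h1).mono (by norm_num)
  have key := kd (T := r) (f := fun _ _ => 0) hk2 ((fk_bdd_const 0).mono (by norm_num : |(0 : ℝ)| ≤ 2))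
    (hv.mono (by norm_num : (1 : ℝ) ≤ 2)) ((fk_bdd_const 0).mono (by norm_num : |(0 : ℝ)| ≤ 2))
    (fun s hs hsr x => by
      have e := fk_part hb hA hs hsr hrT x
      have e2 : ∫ q in s..r, PK (fun u y => b (Complex.arg y) * (1 - vf b A (T - u) y)) s q
          (fun _ => 0) x = 0 := fk_zero (G := fun _ _ => 0) (fun _ _ => rfl)
      rw [e2, add_zero]
      exact e) hs hsr x
  refine key.trans ?_
  congr 2
  funext q
  rw [PK_null (fun _ _ => rfl), PK_null (fun _ _ => rfl)]
  congr 1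
  funext w
  ring

/-- Feynman-Kac representation -/
theorem vf_fk (hb : Rate b) (hA : MeasurableSet A) {t r : ℝ} (hr : 0 ≤ r) (hrt : r ≤ t) (x : ℂ) :
    vf b A t x = ∫ w, Real.exp (∫ u in (0 : ℝ)..r, b (Complex.arg (x + pt w u)) * (1 - vf b A (t - u) (x + pt w u))) *
      vf b A (t - r) (x + pt w r) ∂W2 := by
  have h := fk_part hb hA le_rfl hr hrt x
  unfold PK at h
  simpa only [sub_zero] using h

/-- mild form, with an intermediate time -/
theorem vf_mild (hb : Rate b) (hA : MeasurableSet A) {t r : ℝ} (hr : 0 ≤ r) (hrt : r ≤ t) (x : ℂ) :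
    vf b A t x = ∫ w, vf b A (t - r) (x + pt w r) ∂W2 +
      ∫ s in (0 : ℝ)..r, ∫ w, b (Complex.arg (x + pt w s)) * vf b A (t - s) (x + pt w s) *
        (1 - vf b A (t - s) (x + pt w s)) ∂W2 := by
  have h := fk_mildp hb hA le_rfl hr hrt x
  simp only [PK_null (k := fun _ _ => 0) (fun _ _ => rfl), sub_zero] at h
  exact h

theorem vf_diff (hb : Rate b) {A' : Set ℂ} (hA : MeasurableSet A) (hA' : MeasurableSet A') {t t' r : ℝ}
    (hr : 0 ≤ r) (hrt : r ≤ t) (hrt' : r ≤ t') (x : ℂ) :
    |vf b A t x - vf b A' t' x| ≤ ∫ w, Real.exp (∫ u in (0 : ℝ)..r, b (Complex.arg (x + pt w u))) *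
      |vf b A (t - r) (x + pt w r) - vf b A' (t' - r) (x + pt w r)| ∂W2 := by
  have hB := fk_bdd_b hb
  have hv := fk_bdd_v hb hA t
  have hv' := fk_bdd_v hb hA' t'
  have h1 : Bdd (|1| + 1) (fun s y => 1 - vf b A (t - s) y) := (fk_bdd_const 1).sub hv
  have h1' : Bdd (|1| + 1) (fun s y => 1 - vf b A' (t' - s) y) := (fk_bdd_const 1).sub hv'
  have h2 : Bdd 3 (fun s y => 1 - vf b A (t - s) y - vf b A' (t' - s) y) :=
    (h1.sub hv').mono (by norm_num)
  have hd : Bdd 3 (fun s y => vf b A (t - s) y - vf b A' (t' - s) y) := (hv.sub hv').mono (by norm_num)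
  have hk2 : Bdd 3 (fun s y => b (Complex.arg y) * (1 - vf b A (t - s) y - vf b A' (t' - s) y)) :=
    (hB.mul h2).mono (by norm_num)
  have hf : Bdd 9 (fun s y => b (Complex.arg y) * (1 - vf b A (t - s) y - vf b A' (t' - s) y) *
      (vf b A (t - s) y - vf b A' (t' - s) y)) := (hk2.mul hd).mono (by norm_num)
  have g1 : Bdd 2 (fun r y => b (Complex.arg y) * vf b A (t - r) y * (1 - vf b A (t - r) y)) :=
    ((hB.mul hv).mul h1).mono (by norm_num)
  have g2 : Bdd 2 (fun r y => b (Complex.arg y) * vf b A' (t' - r) y * (1 - vf b A' (t' - r) y)) :=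
    ((hB.mul hv').mul h1').mono (by norm_num)
  have hz : Bdd 9 (fun (_ : ℝ) (_ : ℂ) => (0 : ℝ)) := (fk_bdd_const 0).mono (by norm_num)
  have key := kd (T := r) (h := fun s y => vf b A (t - s) y - vf b A' (t' - s) y) hz
    (hk2.mono (by norm_num : (3 : ℝ) ≤ 9)) (hd.mono (by norm_num : (3 : ℝ) ≤ 9)) hf
    (fun s hs hsr x => by
      have e1 := fk_mildp hb hA hs hsr hrt x
      have e2 := fk_mildp hb hA' hs hsr hrt' x
      have e3 : PK (fun _ _ => 0) s r (fun y => vf b A (t - r) y - vf b A' (t' - r) y) x =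
          PK (fun _ _ => 0) s r (vf b A (t - r)) x - PK (fun _ _ => 0) s r (vf b A' (t' - r)) x := by
        rw [PK_null (fun _ _ => rfl), PK_null (fun _ _ => rfl), PK_null (fun _ _ => rfl)]
        exact integral_sub (fk_int (hv.sec r) (hv.bdd r) x _) (fk_int (hv'.sec r) (hv'.bdd r) x _)
      have e4 : (∫ q in s..r, PK (fun _ _ => 0) s q
          (fun y => b (Complex.arg y) * (1 - vf b A (t - q) y - vf b A' (t' - q) y) *
            (vf b A (t - q) y - vf b A' (t' - q) y)) x) =
          (∫ q in s..r, PK (fun _ _ => 0) s q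
            (fun y => b (Complex.arg y) * vf b A (t - q) y * (1 - vf b A (t - q) y)) x) -
          ∫ q in s..r, PK (fun _ _ => 0) s q
            (fun y => b (Complex.arg y) * vf b A' (t' - q) y * (1 - vf b A' (t' - q) y)) x := by
        rw [← intervalIntegral.integral_sub (PK_ii (hz.mono le_rfl) g1 hsr x) (PK_ii (hz.mono le_rfl) g2 hsr x)]
        congr 1
        funext q
        rw [PK_null (fun _ _ => rfl), PK_null (fun _ _ => rfl), PK_null (fun _ _ => rfl),
          ← integral_sub (fk_int (g1.sec q) (g1.bdd q) x _) (fk_int (g2.sec q) (g2.bdd q) x _)]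
        congr 1
        funext w
        ring
      change vf b A (t - s) x - vf b A' (t' - s) x =
        PK (fun _ _ => 0) s r (fun y => vf b A (t - r) y - vf b A' (t' - r) y) x + _
      rw [e3, e4, e1, e2]
      ring) le_rfl hr x
  have e5 : ∫ q in (0 : ℝ)..r, PK (fun s y => b (Complex.arg y) * (1 - vf b A (t - s) y - vf b A' (t' - s) y)) 0 q
      (fun y => b (Complex.arg y) * (1 - vf b A (t - q) y - vf b A' (t' - q) y) *
            (vf b A (t - q) y - vf b A' (t' - q) y) +
        (0 - b (Complex.arg y) * (1 - vf b A (t - q) y - vf b A' (t' - q) y)) *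
          (vf b A (t - q) y - vf b A' (t' - q) y)) x = 0 :=
    fk_zero (G := fun q y => b (Complex.arg y) * (1 - vf b A (t - q) y - vf b A' (t' - q) y) *
            (vf b A (t - q) y - vf b A' (t' - q) y) +
        (0 - b (Complex.arg y) * (1 - vf b A (t - q) y - vf b A' (t' - q) y)) *
          (vf b A (t - q) y - vf b A' (t' - q) y)) (fun q y => by ring)
  rw [e5, add_zero] at key
  simp only [sub_zero] at key
  rw [key]
  have e6 : |PK (fun s y => b (Complex.arg y) * (1 - vf b A (t - s) y - vf b A' (t' - s) y)) 0 r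
      (fun y => vf b A (t - r) y - vf b A' (t' - r) y) x| ≤
      PK (fun s y => b (Complex.arg y) * (1 - vf b A (t - s) y - vf b A' (t' - s) y)) 0 r
      (fun y => |vf b A (t - r) y - vf b A' (t' - r) y|) x := by
    unfold PK
    refine (abs_integral_le_integral_abs).trans (le_of_eq ?_)
    congr 1
    funext w
    rw [abs_mul, abs_of_pos (Real.exp_pos _)]
  refine e6.trans ?_
  have e7 := PK_mono (g := fun y => |vf b A (t - r) y - vf b A' (t' - r) y|)
    (g' := fun y => |vf b A (t - r) y - vf b A' (t' - r) y|) (M := 3) hk2 hB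
    ((hd.sec r).abs) (fun y => by rw [abs_abs]; exact hd.bdd r y)
    ((hd.sec r).abs) (fun y => by rw [abs_abs]; exact hd.bdd r y) (fun y => abs_nonneg _) hr
    (fun u y => by
      have a1 := vf_nonneg b A (t - u) y
      have a2 := vf_nonneg b A' (t' - u) y
      have a3 := hb.nonneg (Complex.arg y)
      nlinarith [mul_nonneg a3 a1, mul_nonneg a3 a2]) (fun y => le_rfl) x
  refine e7.trans (le_of_eq ?_)
  unfold PK
  simp only [sub_zero]

theorem vf_cmp {b' : ℝ → ℝ} (hb : Rate b) (hb' : Rate b') (h : ∀ θ, b θ ≤ b' θ) (hA : MeasurableSet A) {t : ℝ}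
    (ht : 0 ≤ t) (x : ℂ) : vf b A t x ≤ vf b' A t x ∧
      vf b' A t x - vf b A t x ≤ Real.exp t *
        ∫ s in (0 : ℝ)..t, ∫ w, (b' (Complex.arg (x + pt w s)) - b (Complex.arg (x + pt w s))) ∂W2 := by
  have hB := fk_bdd_b hb
  have hB' := fk_bdd_b hb'
  have hv := fk_bdd_v hb hA t
  have hv' := fk_bdd_v hb' hA t
  have h1 : Bdd (|1| + 1) (fun s y => 1 - vf b A (t - s) y) := (fk_bdd_const 1).sub hv
  have h1' : Bdd (|1| + 1) (fun s y => 1 - vf b' A (t - s) y) := (fk_bdd_const 1).sub hv'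
  have h2 : Bdd 3 (fun s y => 1 - vf b A (t - s) y - vf b' A (t - s) y) :=
    (h1.sub hv').mono (by norm_num)
  have hd : Bdd 3 (fun s y => vf b' A (t - s) y - vf b A (t - s) y) := (hv'.sub hv).mono (by norm_num)
  have hk2 : Bdd 3 (fun s y => b (Complex.arg y) * (1 - vf b A (t - s) y - vf b' A (t - s) y)) :=
    (hB.mul h2).mono (by norm_num)
  have g1 : Bdd 2 (fun r y => b (Complex.arg y) * vf b A (t - r) y * (1 - vf b A (t - r) y)) :=
    ((hB.mul hv).mul h1).mono (by norm_num)
  have g2 : Bdd 2 (fun r y => b' (Complex.arg y) * vf b' A (t - r) y * (1 - vf b' A (t - r) y)) :=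
    ((hB'.mul hv').mul h1').mono (by norm_num)
  have hf : Bdd 4 (fun r y => b' (Complex.arg y) * vf b' A (t - r) y * (1 - vf b' A (t - r) y) -
      b (Complex.arg y) * vf b A (t - r) y * (1 - vf b A (t - r) y)) := (g2.sub g1).mono (by norm_num)
  have hz : Bdd 9 (fun (_ : ℝ) (_ : ℂ) => (0 : ℝ)) := (fk_bdd_const 0).mono (by norm_num)
  have hG : Bdd 4 (fun (_ : ℝ) y => b' (Complex.arg y) - b (Complex.arg y)) := (hB'.sub hB).mono (by norm_num)
  have hS : Bdd 4 (fun r y => (b' (Complex.arg y) - b (Complex.arg y)) * vf b' A (t - r) y *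
      (1 - vf b' A (t - r) y)) := by
    refine ⟨(hG.meas.mul hv'.meas).mul h1'.meas, fun r y => ?_⟩
    have a1 := vf_nonneg b' A (t - r) y
    have a2 := vf_le_one b' A (t - r) y
    have a3 := hb.nonneg (Complex.arg y)
    have a4 := hb'.le_one (Complex.arg y)
    have a5 := h (Complex.arg y)
    have a6 : 0 ≤ (b' (Complex.arg y) - b (Complex.arg y)) * vf b' A (t - r) y *
      (1 - vf b' A (t - r) y) := mul_nonneg (mul_nonneg (by linarith) a1) (by linarith)
    have a7 : vf b' A (t - r) y * (1 - vf b' A (t - r) y) ≤ 1 := by nlinarith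
    have a8 : 0 ≤ vf b' A (t - r) y * (1 - vf b' A (t - r) y) := mul_nonneg a1 (by linarith)
    change |(b' (Complex.arg y) - b (Complex.arg y)) * vf b' A (t - r) y *
      (1 - vf b' A (t - r) y)| ≤ 4
    rw [abs_of_nonneg a6, mul_assoc]
    nlinarith
  have key := kd (T := t) (h := fun s y => vf b' A (t - s) y - vf b A (t - s) y) hz
    (hk2.mono (by norm_num : (3 : ℝ) ≤ 9)) (hd.mono (by norm_num : (3 : ℝ) ≤ 4)) hf
    (fun s hs hst x => by
      have e1 := fk_mild hb hA hs hst x
      have e2 := fk_mild hb' hA hs hst x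
      have e3 : PK (fun _ _ => 0) s t (fun y => vf b' A (t - t) y - vf b A (t - t) y) x =
          PK (fun _ _ => 0) s t (vf b' A (t - t)) x - PK (fun _ _ => 0) s t (vf b A (t - t)) x := by
        rw [PK_null (fun _ _ => rfl), PK_null (fun _ _ => rfl), PK_null (fun _ _ => rfl)]
        exact integral_sub (fk_int (hv'.sec t) (hv'.bdd t) x _) (fk_int (hv.sec t) (hv.bdd t) x _)
      have e4 : (∫ q in s..t, PK (fun _ _ => 0) s q
          (fun y => b' (Complex.arg y) * vf b' A (t - q) y * (1 - vf b' A (t - q) y) -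
            b (Complex.arg y) * vf b A (t - q) y * (1 - vf b A (t - q) y)) x) =
          (∫ q in s..t, PK (fun _ _ => 0) s q
            (fun y => b' (Complex.arg y) * vf b' A (t - q) y * (1 - vf b' A (t - q) y)) x) -
          ∫ q in s..t, PK (fun _ _ => 0) s q
            (fun y => b (Complex.arg y) * vf b A (t - q) y * (1 - vf b A (t - q) y)) x := by
        rw [← intervalIntegral.integral_sub (PK_ii (hz.mono le_rfl) g2 hst x) (PK_ii (hz.mono le_rfl) g1 hst x)]
        congr 1
        funext q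
        rw [PK_null (fun _ _ => rfl), PK_null (fun _ _ => rfl), PK_null (fun _ _ => rfl),
          ← integral_sub (fk_int (g2.sec q) (g2.bdd q) x _) (fk_int (g1.sec q) (g1.bdd q) x _)]
      change vf b' A (t - s) x - vf b A (t - s) x =
        PK (fun _ _ => 0) s t (fun y => vf b' A (t - t) y - vf b A (t - t) y) x + _
      rw [e3, e4, e1, e2]
      ring) le_rfl ht x
  have e5 : PK (fun s y => b (Complex.arg y) * (1 - vf b A (t - s) y - vf b' A (t - s) y)) 0 t
      (fun y => vf b' A (t - t) y - vf b A (t - t) y) x = 0 := by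
    unfold PK
    simp only [sub_self, vf_zero hb hA, vf_zero hb' hA, mul_zero, integral_zero]
  have e6 : ∀ q, (fun y => b' (Complex.arg y) * vf b' A (t - q) y * (1 - vf b' A (t - q) y) -
      b (Complex.arg y) * vf b A (t - q) y * (1 - vf b A (t - q) y) +
      (0 - b (Complex.arg y) * (1 - vf b A (t - q) y - vf b' A (t - q) y)) *
        (vf b' A (t - q) y - vf b A (t - q) y)) =
      (fun y => (b' (Complex.arg y) - b (Complex.arg y)) * vf b' A (t - q) y *
        (1 - vf b' A (t - q) y)) := by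
    intro q
    funext y
    ring
  simp only [e5, e6, zero_add, sub_zero] at key
  have n1 : ∀ q y, 0 ≤ (b' (Complex.arg y) - b (Complex.arg y)) * vf b' A (t - q) y *
        (1 - vf b' A (t - q) y) := fun q y =>
    mul_nonneg (mul_nonneg (by linarith [h (Complex.arg y)]) (vf_nonneg _ _ _ _))
      (by linarith [vf_le_one b' A (t - q) y])
  have n2 : ∀ q, 0 ≤ PK (fun s y => b (Complex.arg y) * (1 - vf b A (t - s) y - vf b' A (t - s) y)) 0 q
      (fun y => (b' (Complex.arg y) - b (Complex.arg y)) * vf b' A (t - q) y *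
        (1 - vf b' A (t - q) y)) x := fun q =>
    integral_nonneg fun w => mul_nonneg (Real.exp_pos _).le (n1 q _)
  constructor
  · have := intervalIntegral.integral_nonneg (μ := volume) ht (fun q _ => n2 q)
    rw [← key] at this
    linarith
  · rw [key, ← intervalIntegral.integral_const_mul]
    have hz4 : Bdd 4 (fun (_ : ℝ) (_ : ℂ) => (0 : ℝ)) := (fk_bdd_const 0).mono (by norm_num)
    have i2 : IntervalIntegrable (fun s => Real.exp t *
        ∫ w, (b' (Complex.arg (x + pt w s)) - b (Complex.arg (x + pt w s))) ∂W2) volume 0 t := by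
      have := (PK_ii hz4 hG ht x).const_mul (Real.exp t)
      refine this.congr ?_
      intro s _
      change Real.exp t * PK (fun _ _ => 0) 0 s (fun y => b' (Complex.arg y) - b (Complex.arg y)) x = _
      rw [PK_null (fun _ _ => rfl), sub_zero]
    refine intervalIntegral.integral_mono_on ht (PK_ii hk2 hS ht x) i2 (fun q hq => ?_)
    have m1 := PK_mono (k' := fun _ _ => 1) (K' := 1) (M := 4) hk2 ((fk_bdd_const 1).mono (by norm_num))
      (hS.sec q) (hS.bdd q) (hG.sec q) (hG.bdd q) (n1 q) hq.1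
      (fun u y => by
        have a1 := vf_nonneg b A (t - u) y
        have a2 := vf_nonneg b' A (t - u) y
        have a3 := hb.nonneg (Complex.arg y)
        have a4 := hb.le_one (Complex.arg y)
        nlinarith [mul_nonneg a3 a1, mul_nonneg a3 a2])
      (fun y => by
        have a1 := vf_nonneg b' A (t - q) y
        have a2 := vf_le_one b' A (t - q) y
        have a5 := h (Complex.arg y)
        have a7 : vf b' A (t - q) y * (1 - vf b' A (t - q) y) ≤ 1 := by nlinarith
        rw [mul_assoc]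
        nlinarith) x
    refine m1.trans ?_
    unfold PK
    simp only [sub_zero, intervalIntegral.integral_const, smul_eq_mul, mul_one, integral_const_mul]
    refine mul_le_mul_of_nonneg_right (Real.exp_le_exp.2 hq.2) ?_
    exact integral_nonneg fun w => by
      change 0 ≤ b' (Complex.arg (x + pt w q)) - b (Complex.arg (x + pt w q))
      linarith [h (Complex.arg (x + pt w q))]

theorem vf_mono (hb : Rate b) {A' : Set ℂ} (h : A ⊆ A') (t : ℝ) (x : ℂ) : vf b A t x ≤ vf b A' t x := by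
  unfold vf
  refine ENNReal.toReal_mono (measure_ne_top _ _) (measure_mono ?_)
  rintro ω ⟨u, hu, hp⟩
  exact ⟨u, hu, h hp⟩

theorem vf_univ (hb : Rate b) {t : ℝ} (ht : 0 ≤ t) (x : ℂ) : vf b univ t x = 1 := by
  refine le_antisymm (vf_le_one _ _ _ _) ?_
  have hB := fk_bdd_b hb
  have hv := fk_bdd_v hb MeasurableSet.univ t
  have h1 : Bdd (|1| + 1) (fun s y => 1 - vf b univ (t - s) y) := (fk_bdd_const 1).sub hv
  have hk2 : Bdd 2 (fun u y => b (Complex.arg y) * (1 - vf b univ (t - u) y)) :=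
    (hB.mul h1).mono (by norm_num)
  have e := fk_full hb MeasurableSet.univ le_rfl ht x
  have e1 : (vf b univ (t - t)) = fun _ : ℂ => (1 : ℝ) := by
    funext y
    rw [sub_self, vf_zero hb MeasurableSet.univ]
    simp
  rw [e1, sub_zero] at e
  rw [e]
  have m := PK_mono (k := fun _ _ => 0) (K := 0) (M := 1) ((fk_bdd_const 0).mono (by norm_num)) hk2
    (g := fun _ => (1 : ℝ)) (g' := fun _ => (1 : ℝ)) measurable_const (fun _ => by norm_num)
    measurable_const (fun _ => by norm_num) (fun _ => by norm_num) ht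
    (fun u y => mul_nonneg (hb.nonneg _) (by linarith [vf_le_one b univ (t - u) y])) (fun _ => le_rfl) x
  refine le_trans (le_of_eq ?_) m
  rw [PK_null (fun _ _ => rfl)]
  simp

theorem alive_nonempty (hb : Rate b) {t : ℝ} (ht : 0 ≤ t) (x : ℂ) : ∀ᵐ ω ∂PP, ∃ u, Alive b u ω x t := by
  have h := vf_univ hb ht x
  unfold vf at h
  have h1 : PP {ω | ∃ u, Alive b u ω x t ∧ pos b u ω x t ∈ (univ : Set ℂ)} = 1 := by
    have := congrArg ENNReal.ofReal h
    rwa [ENNReal.ofReal_toReal (measure_ne_top _ _), ENNReal.ofReal_one] at this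
  have hm : MeasurableSet {ω : Cfg | ∃ u, Alive b u ω x t ∧ pos b u ω x t ∈ (univ : Set ℂ)} := by
    have h2 := hit_meas hb (A := univ) MeasurableSet.univ
    have h3 : Measurable fun ω : Cfg => ((ω, x, t) : Cfg × ℂ × ℝ) :=
      measurable_id.prodMk measurable_const
    exact h3 h2
  have h4 := (mem_ae_iff_prob_eq_one hm).2 h1
  filter_upwards [h4] with ω hω
  obtain ⟨u, hu, _⟩ := hω
  exact ⟨u, hu⟩

end Pool.H50.BB
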