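import Pool.Agent.H50.BB.Defs2

/-!
# Row Win: the time windows   (about 260 lines, pure calculus; may be split)

`0 < α < 2`, `β > 0`, `g = gg α = 1 - 2γ`, `γ = gam α`, `0 < g`, `0 < γ < 1/2`, `κ = kb α β > 0`, `ell s = κ s^γ`.
`x_k^g = r^g + k D`, `D = (t^g - r^g)/N = g κ² H`, `H ∈ [1/2,2]`; `x_k ≥ r ≥ s0` large (depending on α, β).  `ε_k = (x_{k+1}-x_k)/x_k`.
(xlt) `(x_{k+1}/x_k)^g = 1 + D/x_k^g ≤ 1 + 2gκ² s0^{-g} ≤ 2^g`.
(xd) mean value theorem for `z ↦ z^{1/g}`: `x_{k+1} - x_k = (1/g) ξ^{1-g} D`, `x_k ≤ ξ ≤ 2 x_k`, `1 - g = 2γ`: so `c x_k^{2γ} ≤ x_{k+1} - x_k ≤ C x_k^{2γ}`, and `ε_k ≤ C x_k^{-g} ≤ 1`.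
(chord) `ell` is concave: the chord is below `ell`.  Lower bound: with `x = x_k`, `a = σ/x ∈ [0, ε]`, the difference `((1+a)^γ - [1 + (a/ε)((1+ε)^γ - 1)])` is at most `a ε γ(1-γ)/2 ≤ ε²/8`, from
`(1+a)^γ ≤ 1 + γ a` and `(1+ε)^γ ≥ 1 + γ ε - γ(1-γ) ε²/2`; so `ell(x+σ) - chord ≤ κ x^γ ε²/8 ≤ ell(x+σ) C x^{-2g}`.
(hlo, hhi) `∫_0^Δ dσ/(ℓ1+θσ)² = Δ/(ℓ1 ℓ2) = h_k`, while `∫_0^Δ dσ/ell(x+σ)² = κ^{-2} ∫ s^{-2γ} ds = D/(gκ²) = H`; compare by (chord): `H ≤ h_k ≤ (1 - C x^{-2g})^{-2} H`.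
(sl) slopes of the concave increasing function: `ell'(x_{k+1}) ≤ sl_k ≤ ell'(x_k) = κγ x_k^{γ-1}`; `sl_k ell(x_{k+1}) ≤ C x_k^{2γ-1} = C x_k^{-g}`, and `≥ κ²γ x_{k+1}^{-g}`.
(kink) `sl_k - sl_{k+1} ≤ ell'(x_k) - ell'(x_{k+2}) ≤ κγ(1-γ) x_k^{γ-2} (x_{k+2} - x_k) ≤ C x_k^{3γ-2}`; times `ell(x_{k+1})`: `C x^{4γ-2} = C x^{-2g}`.
`win_sum`: `∑_{k<N} (r^g + kD)^{-δ/g} ≤ r^{-δ} + ∫_0^∞ (r^g + D z)^{-δ/g} dz = r^{-δ} + r^{g-δ}/(D(δ/g - 1))` (`δ > g`).
-/

open MeasureTheory Set Filter Topology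

namespace Pool.H50.BB

/-- the partition points -/
noncomputable def xk (α r t : ℝ) (N k : ℕ) : ℝ := (r ^ gg α + k * ((t ^ gg α - r ^ gg α) / N)) ^ (1 / gg α)

/-- slope of the chord of `ell` -/
noncomputable def sl (α β r t : ℝ) (N k : ℕ) : ℝ :=
  (ell α β (xk α r t N (k + 1)) - ell α β (xk α r t N k)) / (xk α r t N (k + 1) - xk α r t N k)

/-- length of the window in the intrinsic time -/
noncomputable def hw (α β r t : ℝ) (N k : ℕ) : ℝ :=
  (xk α r t N (k + 1) - xk α r t N k) / (ell α β (xk α r t N k) * ell α β (xk α r t N (k + 1)))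

/-- length of each window in the limiting intrinsic time -/
noncomputable def HH (α β r t : ℝ) (N : ℕ) : ℝ := (t ^ gg α - r ^ gg α) / (gg α * kb α β ^ 2 * N)

structure WinF (α β C r t : ℝ) (N : ℕ) : Prop where
  x0 : xk α r t N 0 = r
  xN : xk α r t N N = t
  xge : ∀ k ≤ N, r ≤ xk α r t N k
  xlt : ∀ k < N, xk α r t N k < xk α r t N (k + 1)
  x2 : ∀ k < N, xk α r t N (k + 1) ≤ 2 * xk α r t N k
  xd : ∀ k < N, xk α r t N (k + 1) - xk α r t N k ≤ C * xk α r t N k ^ (2 * gam α)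
  xdlo : ∀ k < N, C⁻¹ * xk α r t N k ^ (2 * gam α) ≤ xk α r t N (k + 1) - xk α r t N k
  hlo : ∀ k < N, HH α β r t N ≤ hw α β r t N k
  hhi : ∀ k < N, hw α β r t N k ≤ HH α β r t N * (1 + C * xk α r t N k ^ (-2 * gg α))
  h4 : ∀ k < N, hw α β r t N k ≤ 4
  sl0 : ∀ k < N, 0 ≤ sl α β r t N k
  slhi : ∀ k < N, sl α β r t N k * ell α β (xk α r t N (k + 1)) ≤ C * xk α r t N k ^ (-gg α)
  sllo : ∀ k < N, C⁻¹ * xk α r t N k ^ (-gg α) ≤ sl α β r t N k * ell α β (xk α r t N (k + 1))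
  slm : ∀ k, k + 1 < N → sl α β r t N (k + 1) ≤ sl α β r t N k
  kink : ∀ k, k + 1 < N → ell α β (xk α r t N (k + 1)) * (sl α β r t N k - sl α β r t N (k + 1)) / 2 ≤
    C * xk α r t N (k + 1) ^ (-2 * gg α)
  chord_le : ∀ k < N, ∀ σ, 0 ≤ σ → σ ≤ xk α r t N (k + 1) - xk α r t N k →
    ell α β (xk α r t N k) + sl α β r t N k * σ ≤ ell α β (xk α r t N k + σ)
  chord_ge : ∀ k < N, ∀ σ, 0 ≤ σ → σ ≤ xk α r t N (k + 1) - xk α r t N k →
    (1 - C * xk α r t N k ^ (-2 * gg α)) * ell α β (xk α r t N k + σ) ≤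
      ell α β (xk α r t N k) + sl α β r t N k * σ

theorem Win_gg_pos {α : ℝ} (hα : 0 < α) (hα2 : α < 2) : 0 < gg α := by
  unfold gg; exact div_pos (by linarith) (by linarith)

theorem Win_gam_pos {α : ℝ} (hα : 0 < α) : 0 < gam α := by
  unfold gam; exact div_pos hα (by linarith)

theorem Win_gg_eq {α : ℝ} (hα : 0 < α) : gg α = 1 - 2 * gam α := by
  unfold gg gam
  have : (2 + α) ≠ 0 := by linarith
  field_simp
  ring

theorem Win_gam_lt {α : ℝ} (hα : 0 < α) (hα2 : α < 2) : gam α < 1 / 2 := by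
  have h1 := Win_gg_pos hα hα2
  have h2 := Win_gg_eq hα
  linarith

theorem Win_gg_lt {α : ℝ} (hα : 0 < α) : gg α < 1 := by
  have h1 := Win_gam_pos hα
  have h2 := Win_gg_eq hα
  linarith

theorem kb_pos {α β : ℝ} (hβ : 0 < β) : 0 < kb α β := by
  unfold kb
  apply Real.rpow_pos_of_pos
  exact mul_pos hβ (Real.rpow_pos_of_pos (by norm_num) _)

theorem Win_B1 {y p : ℝ} (hy : 1 ≤ y) (hp : 0 ≤ p) (hp1 : p ≤ 1) : y ^ p ≤ 1 + p * (y - 1) := by
  have h := rpow_one_add_le_one_add_mul_self (s := y - 1) (by linarith) hp hp1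
  have e : 1 + (y - 1) = y := by ring
  rwa [e] at h

theorem Win_B2 {y p : ℝ} (hy : 1 ≤ y) (hp : 0 ≤ p) (hp1 : p ≤ 1) : y ^ p * (p * (y - 1) / y) ≤ y ^ p - 1 := by
  have hy0 : 0 < y := by linarith
  have h := rpow_one_add_le_one_add_mul_self (s := 1 / y - 1) (by
    have : 0 ≤ 1 / y := by positivity
    linarith) hp hp1
  have e : 1 + (1 / y - 1) = 1 / y := by ring
  rw [e, Real.div_rpow zero_le_one hy0.le, Real.one_rpow] at h
  have hyp : 0 < y ^ p := Real.rpow_pos_of_pos hy0 _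
  rw [div_le_iff₀ hyp] at h
  have e2 : (1 + p * (1 / y - 1)) * y ^ p = y ^ p - y ^ p * (p * (y - 1) / y) := by
    field_simp
    ring
  rw [e2] at h
  linarith

theorem Win_B3 {y p : ℝ} (hy : 1 ≤ y) (hy2 : y ≤ 2) (hp : 0 ≤ p) (hp1 : p ≤ 1) : p * (y - 1) / 2 ≤ y ^ p - 1 := by
  have hy0 : 0 < y := by linarith
  have h := Win_B2 hy hp hp1
  have h1 : 1 ≤ y ^ p := Real.one_le_rpow hy hp
  have h2 : p * (y - 1) / 2 ≤ p * (y - 1) / y :=
    div_le_div_of_nonneg_left (mul_nonneg hp (by linarith)) hy0 hy2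
  have h3 : 0 ≤ p * (y - 1) / y := div_nonneg (mul_nonneg hp (by linarith)) hy0.le
  nlinarith

theorem Win_sinh1 {g s : ℝ} (hg : 0 ≤ g) (hg1 : g ≤ 1) (hs : 0 ≤ s) : Real.sinh (g * s) ≤ g * Real.sinh s := by
  have hmono : MonotoneOn (fun x => g * Real.sinh x - Real.sinh (g * x)) (Set.Ici 0) := by
    apply monotoneOn_of_deriv_nonneg (convex_Ici 0)
    · fun_prop
    · intro x _
      apply DifferentiableAt.differentiableWithinAt
      fun_prop
    · intro x hx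
      rw [interior_Ici] at hx
      have hd : HasDerivAt (fun x => g * Real.sinh x - Real.sinh (g * x))
          (g * Real.cosh x - Real.cosh (g * x) * (g * 1)) x := by
        refine ((Real.hasDerivAt_sinh x).const_mul g).sub ?_
        exact (((hasDerivAt_id x).const_mul g).sinh)
      rw [hd.deriv]
      have h1 : Real.cosh (g * x) ≤ Real.cosh x := by
        rw [Real.cosh_le_cosh, abs_mul, abs_of_nonneg hg, abs_of_pos hx]
        have hx' : (0 : ℝ) < x := hx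
        nlinarith
      nlinarith
  have h := hmono (Set.mem_Ici.2 le_rfl) (Set.mem_Ici.2 hs) hs
  simp at h
  exact h

theorem Win_sinh2 {s : ℝ} (hs : 0 ≤ s) (hs1 : s ≤ 1) : Real.sinh s ≤ s * (1 + s ^ 2) := by
  have hmono : MonotoneOn (fun x => x * Real.cosh x - Real.sinh x) (Set.Ici 0) := by
    apply monotoneOn_of_deriv_nonneg (convex_Ici 0)
    · fun_prop
    · intro x _
      apply DifferentiableAt.differentiableWithinAt
      fun_prop
    · intro x hx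
      rw [interior_Ici] at hx
      have hd : HasDerivAt (fun x => x * Real.cosh x - Real.sinh x)
          (1 * Real.cosh x + x * Real.sinh x - Real.cosh x) x := by
        exact ((hasDerivAt_id x).mul (Real.hasDerivAt_cosh x)).sub (Real.hasDerivAt_sinh x)
      rw [hd.deriv]
      have hx' : (0 : ℝ) < x := hx
      have h1 : 0 ≤ Real.sinh x := Real.sinh_nonneg_iff.2 hx'.le
      nlinarith
  have h := hmono (Set.mem_Ici.2 le_rfl) (Set.mem_Ici.2 hs) hs
  simp at h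
  have h2 : Real.cosh s ≤ Real.exp (s ^ 2 / 2) := Real.cosh_le_exp_half_sq s
  have h3 : Real.exp (s ^ 2 / 2) ≤ 1 + s ^ 2 := by
    have hx0 : 0 ≤ s ^ 2 / 2 := by positivity
    have hx1 : s ^ 2 / 2 ≤ 1 / 2 := by nlinarith
    have h4 : 1 - s ^ 2 / 2 ≤ Real.exp (-(s ^ 2 / 2)) := by
      have := Real.add_one_le_exp (-(s ^ 2 / 2))
      linarith
    rw [Real.exp_neg] at h4
    have h5 : 0 < Real.exp (s ^ 2 / 2) := Real.exp_pos _
    have h6 : (1 - s ^ 2 / 2) * Real.exp (s ^ 2 / 2) ≤ 1 := by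
      calc (1 - s ^ 2 / 2) * Real.exp (s ^ 2 / 2) ≤ (Real.exp (s ^ 2 / 2))⁻¹ * Real.exp (s ^ 2 / 2) :=
            mul_le_mul_of_nonneg_right h4 h5.le
        _ = 1 := inv_mul_cancel₀ h5.ne'
    set E := Real.exp (s ^ 2 / 2)
    nlinarith
  calc Real.sinh s ≤ s * Real.cosh s := h
    _ ≤ s * (1 + s ^ 2) := mul_le_mul_of_nonneg_left (h2.trans h3) hs

theorem Win_S {y g : ℝ} (hy : 1 ≤ y) (hy2 : y ≤ 2) (hg : 0 < g) (hg1 : g ≤ 1) :
    (y ^ g - 1) / g ≤ (y - 1) * y ^ (-((1 - g) / 2)) ∧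
      (y - 1) * y ^ (-((1 - g) / 2)) ≤ (y ^ g - 1) / g * (1 + (y - 1) ^ 2) := by
  have hy0 : 0 < y := by linarith
  set s := Real.log y / 2 with hs
  have hs0 : 0 ≤ s := by
    rw [hs]
    have := Real.log_nonneg hy
    positivity
  have hs1 : s ≤ (y - 1) / 2 := by
    rw [hs]
    have := Real.log_le_sub_one_of_pos hy0
    linarith
  have hylog : Real.log y = 2 * s := by rw [hs]; ring
  have hyexp : y = Real.exp (2 * s) := by rw [← hylog, Real.exp_log hy0]
  have h1 : y ^ g - 1 = Real.exp (g * s) * (2 * Real.sinh (g * s)) := by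
    rw [Real.rpow_def_of_pos hy0, hylog, Real.sinh_eq]
    have e1 : Real.exp (2 * s * g) = Real.exp (g * s) * Real.exp (g * s) := by
      rw [← Real.exp_add]; congr 1; ring
    have e2 : Real.exp (g * s) * Real.exp (-(g * s)) = 1 := by
      rw [← Real.exp_add, add_neg_cancel, Real.exp_zero]
    rw [e1]
    have : Real.exp (g * s) * (2 * ((Real.exp (g * s) - Real.exp (-(g * s))) / 2)) =
      Real.exp (g * s) * Real.exp (g * s) - Real.exp (g * s) * Real.exp (-(g * s)) := by ring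
    rw [this, e2]
  have h2 : (y - 1) * y ^ (-((1 - g) / 2)) = Real.exp (g * s) * (2 * Real.sinh s) := by
    rw [Real.rpow_def_of_pos hy0, hylog, Real.sinh_eq]
    conv_lhs => rw [hyexp]
    have e1 : Real.exp (2 * s * -((1 - g) / 2)) = Real.exp (g * s) * Real.exp (-s) := by
      rw [← Real.exp_add]; congr 1; ring
    have e2 : Real.exp (2 * s) * Real.exp (-s) = Real.exp s := by
      rw [← Real.exp_add]; congr 1; ring
    rw [e1]
    calc (Real.exp (2 * s) - 1) * (Real.exp (g * s) * Real.exp (-s))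
        = Real.exp (g * s) * (Real.exp (2 * s) * Real.exp (-s) - Real.exp (-s)) := by ring
      _ = _ := by rw [e2]; ring
  have hE : 0 < Real.exp (g * s) := Real.exp_pos _
  have h3 : g * s ≤ Real.sinh (g * s) := Real.self_le_sinh_iff.2 (by positivity)
  have h4 := Win_sinh1 hg.le hg1 hs0
  have h5 := Win_sinh2 hs0 (by linarith)
  rw [h1, h2]
  constructor
  · rw [div_le_iff₀ hg]
    nlinarith
  · have h6 : Real.sinh s ≤ Real.sinh (g * s) / g * (1 + (y - 1) ^ 2) := by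
      have h7 : s ≤ Real.sinh (g * s) / g := by
        rw [le_div_iff₀ hg]; linarith
      have h8 : s ^ 2 ≤ (y - 1) ^ 2 := by nlinarith
      calc Real.sinh s ≤ s * (1 + s ^ 2) := h5
        _ ≤ s * (1 + (y - 1) ^ 2) := by nlinarith
        _ ≤ _ := mul_le_mul_of_nonneg_right h7 (by positivity)
    have e : Real.exp (g * s) * (2 * Real.sinh (g * s)) / g * (1 + (y - 1) ^ 2) =
        Real.exp (g * s) * (2 * (Real.sinh (g * s) / g * (1 + (y - 1) ^ 2))) := by ring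
    rw [e]
    exact mul_le_mul_of_nonneg_left (by linarith) hE.le


/-- facts about two neighbouring partition points -/
structure WinP (α β x x' D : ℝ) : Prop where
  hx : 1 ≤ x
  hxx : x < x'
  hx2 : x' ≤ 2 * x
  hD : x' ^ gg α = x ^ gg α + D
  hD1 : gg α * kb α β ^ 2 / 2 ≤ D
  hD2 : D ≤ 2 * (gg α * kb α β ^ 2)

section pair

variable {α β x x' D : ℝ}

theorem Win_y (P : WinP α β x x' D) : 1 ≤ x' / x ∧ x' / x ≤ 2 ∧ (x' / x) ^ gg α - 1 = D / x ^ gg α ∧
    x' - x = x * (x' / x - 1) := by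
  have hx0 : 0 < x := by linarith [P.hx]
  refine ⟨?_, ?_, ?_, ?_⟩
  · rw [le_div_iff₀ hx0]; linarith [P.hxx]
  · rw [div_le_iff₀ hx0]; exact P.hx2
  · rw [Real.div_rpow (by linarith [P.hxx]) hx0.le, P.hD]
    have : x ^ gg α ≠ 0 := (Real.rpow_pos_of_pos hx0 _).ne'
    field_simp
    ring
  · field_simp

theorem Win_x1g (hα : 0 < α) (hx : 1 ≤ x) : x / x ^ gg α = x ^ (2 * gam α) := by
  have hx0 : 0 < x := by linarith
  have h := Win_gg_eq hα
  have e : 2 * gam α = 1 - gg α := by linarith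
  rw [e, Real.rpow_sub hx0, Real.rpow_one]

theorem Win_xd (hα : 0 < α) (hα2 : α < 2) (P : WinP α β x x' D) :
    x' - x ≤ 4 * kb α β ^ 2 * x ^ (2 * gam α) := by
  obtain ⟨h1, h2, h3, h4⟩ := Win_y P
  have hg := Win_gg_pos hα hα2
  have hx0 : 0 < x := by linarith [P.hx]
  have hxg : 0 < x ^ gg α := Real.rpow_pos_of_pos hx0 _
  have h5 := Win_B3 h1 h2 hg.le (Win_gg_lt hα).le
  rw [h3] at h5
  have h6 : x' / x - 1 ≤ 2 * D / (gg α * x ^ gg α) := by
    rw [le_div_iff₀ (mul_pos hg hxg)]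
    have := mul_le_mul_of_nonneg_right h5 hxg.le
    rw [div_mul_cancel₀ _ hxg.ne'] at this
    nlinarith
  rw [h4, ← Win_x1g hα P.hx]
  calc x * (x' / x - 1) ≤ x * (2 * D / (gg α * x ^ gg α)) := mul_le_mul_of_nonneg_left h6 hx0.le
    _ = (2 * D / gg α) * (x / x ^ gg α) := by field_simp
    _ ≤ (4 * kb α β ^ 2) * (x / x ^ gg α) := by
        refine mul_le_mul_of_nonneg_right ?_ (by positivity)
        rw [div_le_iff₀ hg]
        linarith [P.hD2]

theorem Win_xdlo (hα : 0 < α) (hα2 : α < 2) (P : WinP α β x x' D) :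
    kb α β ^ 2 / 2 * x ^ (2 * gam α) ≤ x' - x := by
  obtain ⟨h1, h2, h3, h4⟩ := Win_y P
  have hg := Win_gg_pos hα hα2
  have hx0 : 0 < x := by linarith [P.hx]
  have hxg : 0 < x ^ gg α := Real.rpow_pos_of_pos hx0 _
  have h5 := Win_B1 h1 hg.le (Win_gg_lt hα).le
  have h5' : D / x ^ gg α ≤ gg α * (x' / x - 1) := by linarith
  have h6 : D / (gg α * x ^ gg α) ≤ x' / x - 1 := by
    rw [div_le_iff₀ (mul_pos hg hxg)]
    have := mul_le_mul_of_nonneg_right h5' hxg.le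
    rw [div_mul_cancel₀ _ hxg.ne'] at this
    linarith
  rw [h4, ← Win_x1g hα P.hx]
  calc kb α β ^ 2 / 2 * (x / x ^ gg α) ≤ (D / gg α) * (x / x ^ gg α) := by
        refine mul_le_mul_of_nonneg_right ?_ (by positivity)
        rw [le_div_iff₀ hg]
        linarith [P.hD1]
    _ = x * (D / (gg α * x ^ gg α)) := by field_simp
    _ ≤ x * (x' / x - 1) := mul_le_mul_of_nonneg_left h6 hx0.le

theorem Win_eps (hα : 0 < α) (hα2 : α < 2) (P : WinP α β x x' D) :
    x' / x - 1 ≤ 4 * kb α β ^ 2 * x ^ (-gg α) := by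
  obtain ⟨h1, h2, h3, h4⟩ := Win_y P
  have hx0 : 0 < x := by linarith [P.hx]
  have h5 := Win_xd hα hα2 P
  rw [h4, ← Win_x1g hα P.hx] at h5
  have e : 4 * kb α β ^ 2 * (x / x ^ gg α) = x * (4 * kb α β ^ 2 * x ^ (-gg α)) := by
    rw [Real.rpow_neg hx0.le]; field_simp
  rw [e] at h5
  exact le_of_mul_le_mul_left h5 hx0

theorem Win_eps2 (hα : 0 < α) (hα2 : α < 2) (P : WinP α β x x' D) :
    (x' / x - 1) ^ 2 ≤ 16 * kb α β ^ 4 * x ^ (-2 * gg α) := by
  have hx0 : 0 < x := by linarith [P.hx]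
  have h0 : 0 ≤ x' / x - 1 := by linarith [(Win_y P).1]
  have h := pow_le_pow_left₀ h0 (Win_eps hα hα2 P) 2
  refine h.trans (le_of_eq ?_)
  rw [mul_pow]
  have : (x ^ (-gg α)) ^ 2 = x ^ (-2 * gg α) := by
    rw [← Real.rpow_natCast, ← Real.rpow_mul hx0.le]
    congr 1
    push_cast
    ring
  rw [this]
  ring

theorem Win_ell_mul (hx : 0 < x) (hx' : 0 < x') : ell α β x' = ell α β x * (x' / x) ^ gam α := by
  unfold ell
  rw [Real.div_rpow hx'.le hx.le]
  have : x ^ gam α ≠ 0 := (Real.rpow_pos_of_pos hx _).ne'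
  field_simp

theorem Win_ell_pos (hβ : 0 < β) (hx : 0 < x) : 0 < ell α β x :=
  mul_pos (kb_pos hβ) (Real.rpow_pos_of_pos hx _)

theorem Win_h (hα : 0 < α) (hβ : 0 < β) (P : WinP α β x x' D) :
    (x' - x) / (ell α β x * ell α β x') =
      x ^ gg α / kb α β ^ 2 * ((x' / x - 1) * (x' / x) ^ (-((1 - gg α) / 2))) := by
  obtain ⟨h1, h2, h3, h4⟩ := Win_y P
  have hx0 : 0 < x := by linarith [P.hx]
  have hx0' : 0 < x' := by linarith [P.hxx]
  have hy0 : 0 < x' / x := by linarith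
  have hk := kb_pos (α := α) hβ
  have e1 : (1 - gg α) / 2 = gam α := by
    have := Win_gg_eq hα; linarith
  rw [Win_ell_mul (α := α) (β := β) hx0 hx0', e1, h4, Real.rpow_neg hy0.le]
  unfold ell
  have e2 : x ^ gg α * (x ^ gam α) ^ 2 = x := by
    rw [← Real.rpow_natCast, ← Real.rpow_mul hx0.le, ← Real.rpow_add hx0]
    have : gg α + gam α * ((2 : ℕ) : ℝ) = 1 := by
      have := Win_gg_eq hα; push_cast; linarith
    rw [this, Real.rpow_one]
  have n1 : x ^ gam α ≠ 0 := (Real.rpow_pos_of_pos hx0 _).ne'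
  have n2 : (x' / x) ^ gam α ≠ 0 := (Real.rpow_pos_of_pos hy0 _).ne'
  set Y := x' / x with hY
  set G := x ^ gg α with hG
  set A := x ^ gam α with hA
  set B := Y ^ gam α with hB
  rw [div_eq_iff (by positivity)]
  calc x * (Y - 1) = (G * A ^ 2) * (Y - 1) := by rw [e2]
    _ = G / kb α β ^ 2 * ((Y - 1) * B⁻¹) * (kb α β * A * (kb α β * A * B)) := by
        field_simp

theorem Win_HHD (hα : 0 < α) (hα2 : α < 2) (hβ : 0 < β) (P : WinP α β x x' D) :
    D / (gg α * kb α β ^ 2) = x ^ gg α / kb α β ^ 2 * (((x' / x) ^ gg α - 1) / gg α) := by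
  obtain ⟨h1, h2, h3, h4⟩ := Win_y P
  have hx0 : 0 < x := by linarith [P.hx]
  have hg := Win_gg_pos hα hα2
  have hk := kb_pos (α := α) hβ
  have hxg : x ^ gg α ≠ 0 := (Real.rpow_pos_of_pos hx0 _).ne'
  rw [h3]
  field_simp

theorem Win_hlo (hα : 0 < α) (hα2 : α < 2) (hβ : 0 < β) (P : WinP α β x x' D) :
    D / (gg α * kb α β ^ 2) ≤ (x' - x) / (ell α β x * ell α β x') := by
  have hx0 : 0 < x := by linarith [P.hx]
  obtain ⟨h1, h2, -, -⟩ := Win_y P
  rw [Win_h hα hβ P, Win_HHD hα hα2 hβ P]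
  exact mul_le_mul_of_nonneg_left (Win_S h1 h2 (Win_gg_pos hα hα2) (Win_gg_lt hα).le).1
    (div_nonneg (Real.rpow_nonneg hx0.le _) (by positivity))

theorem Win_hhi (hα : 0 < α) (hα2 : α < 2) (hβ : 0 < β) (P : WinP α β x x' D) :
    (x' - x) / (ell α β x * ell α β x') ≤
      D / (gg α * kb α β ^ 2) * (1 + 16 * kb α β ^ 4 * x ^ (-2 * gg α)) := by
  have hx0 : 0 < x := by linarith [P.hx]
  obtain ⟨h1, h2, -, -⟩ := Win_y P
  have hg := Win_gg_pos hα hα2
  have hS := (Win_S h1 h2 hg (Win_gg_lt hα).le).2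
  have hE := Win_eps2 hα hα2 P
  have hc : 0 ≤ x ^ gg α / kb α β ^ 2 := div_nonneg (Real.rpow_nonneg hx0.le _) (by positivity)
  have h0 : 0 ≤ ((x' / x) ^ gg α - 1) / gg α :=
    div_nonneg (by linarith [Real.one_le_rpow h1 hg.le]) hg.le
  rw [Win_h hα hβ P, Win_HHD hα hα2 hβ P]
  calc x ^ gg α / kb α β ^ 2 * ((x' / x - 1) * (x' / x) ^ (-((1 - gg α) / 2)))
      ≤ x ^ gg α / kb α β ^ 2 * (((x' / x) ^ gg α - 1) / gg α * (1 + (x' / x - 1) ^ 2)) :=
        mul_le_mul_of_nonneg_left hS hc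
    _ ≤ x ^ gg α / kb α β ^ 2 * (((x' / x) ^ gg α - 1) / gg α * (1 + 16 * kb α β ^ 4 * x ^ (-2 * gg α))) := by
        refine mul_le_mul_of_nonneg_left (mul_le_mul_of_nonneg_left (by linarith) h0) hc
    _ = _ := by ring

theorem Win_slU (hα : 0 < α) (hα2 : α < 2) (hβ : 0 < β) (P : WinP α β x x' D) :
    (ell α β x' - ell α β x) / (x' - x) ≤ kb α β * gam α * x ^ (gam α - 1) := by
  obtain ⟨h1, h2, -, h4⟩ := Win_y P
  have hx0 : 0 < x := by linarith [P.hx]
  have hx0' : 0 < x' := by linarith [P.hxx]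
  have hd : 0 < x' - x := by linarith [P.hxx]
  have hk := kb_pos (α := α) hβ
  have hB := Win_B1 h1 (Win_gam_pos hα).le (by linarith [Win_gam_lt hα hα2])
  rw [div_le_iff₀ hd, Win_ell_mul (α := α) (β := β) hx0 hx0', h4, Real.rpow_sub hx0, Real.rpow_one]
  unfold ell
  have hA : 0 < kb α β * x ^ gam α := mul_pos hk (Real.rpow_pos_of_pos hx0 _)
  calc kb α β * x ^ gam α * (x' / x) ^ gam α - kb α β * x ^ gam α
      = (kb α β * x ^ gam α) * ((x' / x) ^ gam α - 1) := by ring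
    _ ≤ (kb α β * x ^ gam α) * (gam α * (x' / x - 1)) := mul_le_mul_of_nonneg_left (by linarith) hA.le
    _ = _ := by field_simp

theorem Win_slL (hα : 0 < α) (hα2 : α < 2) (hβ : 0 < β) (P : WinP α β x x' D) :
    kb α β * gam α * x' ^ (gam α - 1) ≤ (ell α β x' - ell α β x) / (x' - x) := by
  obtain ⟨h1, h2, -, h4⟩ := Win_y P
  have hx0 : 0 < x := by linarith [P.hx]
  have hx0' : 0 < x' := by linarith [P.hxx]
  have hd : 0 < x' - x := by linarith [P.hxx]
  have hk := kb_pos (α := α) hβ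
  have hB := Win_B2 h1 (Win_gam_pos hα).le (by linarith [Win_gam_lt hα hα2])
  rw [le_div_iff₀ hd, Real.rpow_sub hx0', Real.rpow_one]
  have e1 : x' ^ gam α = x ^ gam α * (x' / x) ^ gam α := by
    rw [Real.div_rpow hx0'.le hx0.le]
    have : x ^ gam α ≠ 0 := (Real.rpow_pos_of_pos hx0 _).ne'
    field_simp
  unfold ell
  have hA : 0 < kb α β * x ^ gam α := mul_pos hk (Real.rpow_pos_of_pos hx0 _)
  calc kb α β * gam α * (x' ^ gam α / x') * (x' - x)
      = (kb α β * x ^ gam α) * ((x' / x) ^ gam α * (gam α * (x' / x - 1) / (x' / x))) := by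
        rw [e1]; field_simp
    _ ≤ (kb α β * x ^ gam α) * ((x' / x) ^ gam α - 1) := mul_le_mul_of_nonneg_left hB hA.le
    _ = _ := by rw [e1]; ring

theorem Win_pow_half {p : ℝ} (hp : 0 ≤ p) (hp1 : p ≤ 1) (hx0 : 0 < x) (hx2 : x' ≤ 2 * x) (hx0' : 0 < x') :
    x ^ (-p) ≤ 2 * x' ^ (-p) := by
  have h1 : x' ^ p ≤ 2 * x ^ p := by
    calc x' ^ p ≤ (2 * x) ^ p := Real.rpow_le_rpow hx0'.le hx2 hp
      _ = 2 ^ p * x ^ p := Real.mul_rpow (by norm_num) hx0.le
      _ ≤ 2 * x ^ p := by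
          refine mul_le_mul_of_nonneg_right ?_ (Real.rpow_nonneg hx0.le _)
          calc (2 : ℝ) ^ p ≤ 2 ^ (1 : ℝ) := Real.rpow_le_rpow_of_exponent_le (by norm_num) hp1
            _ = 2 := Real.rpow_one _
  rw [Real.rpow_neg hx0.le, Real.rpow_neg hx0'.le]
  have a1 : 0 < x ^ p := Real.rpow_pos_of_pos hx0 _
  have a2 : 0 < x' ^ p := Real.rpow_pos_of_pos hx0' _
  rw [← div_eq_mul_inv, inv_eq_one_div, div_le_div_iff₀ a1 a2]
  linarith

theorem Win_slhi (hα : 0 < α) (hα2 : α < 2) (hβ : 0 < β) (P : WinP α β x x' D) :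
    (ell α β x' - ell α β x) / (x' - x) * ell α β x' ≤ kb α β ^ 2 * x ^ (-gg α) := by
  have hx0 : 0 < x := by linarith [P.hx]
  have hx0' : 0 < x' := by linarith [P.hxx]
  have hk := kb_pos (α := α) hβ
  have hg1 := Win_gam_lt hα hα2
  have hg0 := Win_gam_pos hα
  have h1 := Win_slU hα hα2 hβ P
  have h2 : ell α β x' ≤ 2 * (kb α β * x ^ gam α) := by
    unfold ell
    have : x' ^ gam α ≤ 2 * x ^ gam α := by
      calc x' ^ gam α ≤ (2 * x) ^ gam α := Real.rpow_le_rpow hx0'.le P.hx2 hg0.le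
        _ = 2 ^ gam α * x ^ gam α := Real.mul_rpow (by norm_num) hx0.le
        _ ≤ 2 * x ^ gam α := by
            refine mul_le_mul_of_nonneg_right ?_ (Real.rpow_nonneg hx0.le _)
            calc (2 : ℝ) ^ gam α ≤ 2 ^ (1 : ℝ) :=
                  Real.rpow_le_rpow_of_exponent_le (by norm_num) (by linarith)
              _ = 2 := Real.rpow_one _
    calc kb α β * x' ^ gam α ≤ kb α β * (2 * x ^ gam α) := mul_le_mul_of_nonneg_left this hk.le
      _ = _ := by ring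
  have h3 : 0 ≤ kb α β * gam α * x ^ (gam α - 1) := by positivity
  calc (ell α β x' - ell α β x) / (x' - x) * ell α β x'
      ≤ (kb α β * gam α * x ^ (gam α - 1)) * (2 * (kb α β * x ^ gam α)) :=
        mul_le_mul h1 h2 (Win_ell_pos hβ hx0').le h3
    _ = 2 * gam α * (kb α β ^ 2 * (x ^ (gam α - 1) * x ^ gam α)) := by ring
    _ = 2 * gam α * (kb α β ^ 2 * x ^ (-gg α)) := by
        rw [← Real.rpow_add hx0]
        congr 4
        have := Win_gg_eq hα; linarith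
    _ ≤ 1 * (kb α β ^ 2 * x ^ (-gg α)) := mul_le_mul_of_nonneg_right (by linarith) (by positivity)
    _ = _ := one_mul _

theorem Win_sllo (hα : 0 < α) (hα2 : α < 2) (hβ : 0 < β) (P : WinP α β x x' D) :
    kb α β ^ 2 * gam α / 2 * x ^ (-gg α) ≤ (ell α β x' - ell α β x) / (x' - x) * ell α β x' := by
  have hx0 : 0 < x := by linarith [P.hx]
  have hx0' : 0 < x' := by linarith [P.hxx]
  have hk := kb_pos (α := α) hβ
  have hg0 := Win_gam_pos hα
  have h1 := Win_slL hα hα2 hβ P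
  have h2 := Win_pow_half (Win_gg_pos hα hα2).le (Win_gg_lt hα).le hx0 P.hx2 hx0'
  calc kb α β ^ 2 * gam α / 2 * x ^ (-gg α) ≤ kb α β ^ 2 * gam α / 2 * (2 * x' ^ (-gg α)) :=
        mul_le_mul_of_nonneg_left h2 (by positivity)
    _ = kb α β ^ 2 * gam α * x' ^ (-gg α) := by ring
    _ = kb α β ^ 2 * gam α * (x' ^ (gam α - 1) * x' ^ gam α) := by
        rw [← Real.rpow_add hx0']
        congr 2
        have := Win_gg_eq hα; linarith
    _ = (kb α β * gam α * x' ^ (gam α - 1)) * (kb α β * x' ^ gam α) := by ring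
    _ ≤ _ := mul_le_mul_of_nonneg_right h1 (Win_ell_pos hβ hx0').le

theorem Win_sub {a b : ℝ} (hα : 0 < α) (ha : 0 < a) (hab : a ≤ b) :
    a ^ (gam α - 1) - b ^ (gam α - 1) ≤ a ^ (gam α - 1) * ((b - a) / b) := by
  have hb : 0 < b := by linarith
  have hy : 1 ≤ b / a := by rw [le_div_iff₀ ha]; linarith
  have hg0 := Win_gam_pos hα
  have e : b ^ (gam α - 1) = a ^ (gam α - 1) * (b / a) ^ (gam α - 1) := by
    rw [Real.div_rpow hb.le ha.le]
    have : a ^ (gam α - 1) ≠ 0 := (Real.rpow_pos_of_pos ha _).ne'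
    field_simp
  have h1 : (b / a) ^ (-1 : ℝ) ≤ (b / a) ^ (gam α - 1) :=
    Real.rpow_le_rpow_of_exponent_le hy (by linarith)
  rw [Real.rpow_neg_one, inv_div] at h1
  have h2 : 1 - (b / a) ^ (gam α - 1) ≤ (b - a) / b := by
    have : (b - a) / b = 1 - a / b := by field_simp
    rw [this]; linarith
  calc a ^ (gam α - 1) - b ^ (gam α - 1) = a ^ (gam α - 1) * (1 - (b / a) ^ (gam α - 1)) := by
        rw [e]; ring
    _ ≤ _ := mul_le_mul_of_nonneg_left h2 (Real.rpow_nonneg ha.le _)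

theorem Win_chord_le (hα : 0 < α) (hα2 : α < 2) (hβ : 0 < β) (P : WinP α β x x' D) {σ : ℝ} (hσ : 0 ≤ σ)
    (hσ' : σ ≤ x' - x) : ell α β x + (ell α β x' - ell α β x) / (x' - x) * σ ≤ ell α β (x + σ) := by
  have hx0 : 0 < x := by linarith [P.hx]
  have hx0' : 0 < x' := by linarith [P.hxx]
  have hd : 0 < x' - x := by linarith [P.hxx]
  have hk := kb_pos (α := α) hβ
  have hc := Real.concaveOn_rpow (Win_gam_pos hα).le (by linarith [Win_gam_lt hα hα2] : gam α ≤ 1)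
  have hl0 : 0 ≤ σ / (x' - x) := by positivity
  have hl1 : σ / (x' - x) ≤ 1 := (div_le_one hd).2 hσ'
  have h := hc.2 (Set.mem_Ici.2 hx0.le) (Set.mem_Ici.2 hx0'.le) (by linarith : 0 ≤ 1 - σ / (x' - x)) hl0
    (by ring)
  simp only [smul_eq_mul] at h
  have e : (1 - σ / (x' - x)) * x + σ / (x' - x) * x' = x + σ := by
    field_simp
    ring
  rw [e] at h
  have h2 := mul_le_mul_of_nonneg_left h hk.le
  unfold ell
  refine le_trans (le_of_eq ?_) h2
  field_simp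
  ring

theorem Win_chord_ge (hα : 0 < α) (hα2 : α < 2) (hβ : 0 < β) (P : WinP α β x x' D) {σ : ℝ} (hσ : 0 ≤ σ)
    (hσ' : σ ≤ x' - x) : (1 - 16 * kb α β ^ 4 * x ^ (-2 * gg α)) * ell α β (x + σ) ≤
      ell α β x + (ell α β x' - ell α β x) / (x' - x) * σ := by
  obtain ⟨hy1, hy2, -, h4⟩ := Win_y P
  have hx0 : 0 < x := by linarith [P.hx]
  have hx0' : 0 < x' := by linarith [P.hxx]
  have hd : 0 < x' - x := by linarith [P.hxx]
  have hk := kb_pos (α := α) hβ
  have hg0 := Win_gam_pos hα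
  have hg1 := Win_gam_lt hα hα2
  have h1 := mul_le_mul_of_nonneg_right (Win_slL hα hα2 hβ P) hσ
  -- upper bound for ell (x + σ)
  have h2 : ell α β (x + σ) ≤ ell α β x + kb α β * gam α * x ^ (gam α - 1) * σ := by
    rw [Win_ell_mul (α := α) (β := β) hx0 (by linarith : 0 < x + σ)]
    have hB := Win_B1 (y := (x + σ) / x) (by rw [le_div_iff₀ hx0]; linarith) hg0.le (by linarith)
    rw [Real.rpow_sub hx0, Real.rpow_one]
    have he := Win_ell_pos (α := α) hβ hx0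
    calc ell α β x * ((x + σ) / x) ^ gam α ≤ ell α β x * (1 + gam α * ((x + σ) / x - 1)) :=
          mul_le_mul_of_nonneg_left hB he.le
      _ = _ := by unfold ell; field_simp; ring
  have h3 := Win_sub (α := α) hα hx0 P.hxx.le
  have h5 : kb α β * gam α * x ^ (gam α - 1) * σ - kb α β * gam α * x' ^ (gam α - 1) * σ ≤
      kb α β * x ^ gam α * (x' / x - 1) ^ 2 := by
    have h6 : (x' - x) / x' ≤ x' / x - 1 := by
      have : x' / x - 1 = (x' - x) / x := by field_simp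
      rw [this]
      exact div_le_div_of_nonneg_left hd.le hx0 P.hxx.le
    have hc0 : 0 ≤ kb α β * gam α * σ := by positivity
    have hxp : 0 ≤ x ^ (gam α - 1) := Real.rpow_nonneg hx0.le _
    have hy0 : 0 ≤ x' / x - 1 := by linarith
    calc kb α β * gam α * x ^ (gam α - 1) * σ - kb α β * gam α * x' ^ (gam α - 1) * σ
        = kb α β * gam α * σ * (x ^ (gam α - 1) - x' ^ (gam α - 1)) := by ring
      _ ≤ kb α β * gam α * σ * (x ^ (gam α - 1) * ((x' - x) / x')) := mul_le_mul_of_nonneg_left h3 hc0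
      _ ≤ kb α β * gam α * σ * (x ^ (gam α - 1) * (x' / x - 1)) :=
          mul_le_mul_of_nonneg_left (mul_le_mul_of_nonneg_left h6 hxp) hc0
      _ ≤ kb α β * 1 * (x' - x) * (x ^ (gam α - 1) * (x' / x - 1)) := by
          refine mul_le_mul_of_nonneg_right ?_ (mul_nonneg hxp hy0)
          exact mul_le_mul (mul_le_mul_of_nonneg_left (by linarith) hk.le) hσ' hσ (by positivity)
      _ = kb α β * x ^ gam α * (x' / x - 1) ^ 2 := by
          rw [Real.rpow_sub hx0, Real.rpow_one, h4]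
          field_simp
  have h7 := Win_eps2 hα hα2 P
  have hmono : ell α β x ≤ ell α β (x + σ) := by
    unfold ell
    exact mul_le_mul_of_nonneg_left (Real.rpow_le_rpow hx0.le (by linarith) hg0.le) hk.le
  have hex : 0 < ell α β x := Win_ell_pos hβ hx0
  have h8 : kb α β * x ^ gam α * (x' / x - 1) ^ 2 ≤ 16 * kb α β ^ 4 * x ^ (-2 * gg α) * ell α β (x + σ) := by
    calc kb α β * x ^ gam α * (x' / x - 1) ^ 2 = (x' / x - 1) ^ 2 * ell α β x := by unfold ell; ring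
      _ ≤ (16 * kb α β ^ 4 * x ^ (-2 * gg α)) * ell α β (x + σ) :=
          mul_le_mul h7 hmono hex.le (by positivity)
  nlinarith

theorem Win_kink {x'' : ℝ} (hα : 0 < α) (hα2 : α < 2) (hβ : 0 < β) (P : WinP α β x x' D)
    (P' : WinP α β x' x'' D) :
    ell α β x' * ((ell α β x' - ell α β x) / (x' - x) - (ell α β x'' - ell α β x') / (x'' - x')) / 2 ≤
      8 * kb α β ^ 4 * x' ^ (-2 * gg α) := by
  have hx0 : 0 < x := by linarith [P.hx]
  have hx0' : 0 < x' := by linarith [P.hxx]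
  have hx0'' : 0 < x'' := by linarith [P'.hxx]
  have hk := kb_pos (α := α) hβ
  have hg0 := Win_gam_pos hα
  have hg1 := Win_gam_lt hα hα2
  have h1 := Win_slU hα hα2 hβ P
  have h2 := Win_slL hα hα2 hβ P'
  have h3 := Win_sub (α := α) hα hx0 (by linarith [P.hxx, P'.hxx] : x ≤ x'')
  have h4 : x ^ (gam α - 1) ≤ 2 * x' ^ (gam α - 1) := by
    have := Win_pow_half (p := 1 - gam α) (by linarith) (by linarith) hx0 P.hx2 hx0'
    rwa [neg_sub] at this
  have h5 := Win_xd hα hα2 P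
  have h6 := Win_xd hα hα2 P'
  have h7 : x ^ (2 * gam α) ≤ x' ^ (2 * gam α) := Real.rpow_le_rpow hx0.le P.hxx.le (by linarith)
  have h8 : x'' - x ≤ 8 * kb α β ^ 2 * x' ^ (2 * gam α) := by nlinarith [sq_nonneg (kb α β)]
  have h9 : (x'' - x) / x'' ≤ 8 * kb α β ^ 2 * x' ^ (2 * gam α) / x' := by
    calc (x'' - x) / x'' ≤ (x'' - x) / x' :=
          div_le_div_of_nonneg_left (by linarith [P.hxx, P'.hxx]) hx0' P'.hxx.le
      _ ≤ _ := div_le_div_of_nonneg_right h8 hx0'.le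
  have h10 : (ell α β x' - ell α β x) / (x' - x) - (ell α β x'' - ell α β x') / (x'' - x') ≤
      kb α β * gam α * (2 * x' ^ (gam α - 1) * (8 * kb α β ^ 2 * x' ^ (2 * gam α) / x')) := by
    calc _ ≤ kb α β * gam α * x ^ (gam α - 1) - kb α β * gam α * x'' ^ (gam α - 1) := by linarith
      _ = kb α β * gam α * (x ^ (gam α - 1) - x'' ^ (gam α - 1)) := by ring
      _ ≤ kb α β * gam α * (x ^ (gam α - 1) * ((x'' - x) / x'')) :=
          mul_le_mul_of_nonneg_left h3 (by positivity)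
      _ ≤ _ := by
          refine mul_le_mul_of_nonneg_left ?_ (by positivity)
          exact mul_le_mul h4 h9 (div_nonneg (by linarith [P.hxx, P'.hxx]) hx0''.le)
            (by positivity)
  have he := Win_ell_pos (α := α) hβ hx0'
  have h11 := mul_le_mul_of_nonneg_left h10 he.le
  have e : ell α β x' * (kb α β * gam α * (2 * x' ^ (gam α - 1) * (8 * kb α β ^ 2 * x' ^ (2 * gam α) / x'))) =
      16 * gam α * (kb α β ^ 4 * x' ^ (-2 * gg α)) := by
    have e1 : x' ^ (-2 * gg α) = x' ^ gam α * x' ^ (gam α - 1) * x' ^ (2 * gam α) / x' := by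
      rw [← Real.rpow_add hx0', ← Real.rpow_add hx0']
      have e3 : -2 * gg α = gam α + (gam α - 1) + 2 * gam α - 1 := by
        have := Win_gg_eq hα; linarith
      rw [e3, Real.rpow_sub_one hx0'.ne']
    rw [e1]
    unfold ell
    field_simp
    ring
  rw [e] at h11
  have h12 : 16 * gam α * (kb α β ^ 4 * x' ^ (-2 * gg α)) ≤ 16 * (kb α β ^ 4 * x' ^ (-2 * gg α)) :=
    mul_le_mul_of_nonneg_right (by linarith) (by positivity)
  linarith

end pair

theorem Win_slm {α β x x' x'' : ℝ} (hα : 0 < α) (hα2 : α < 2) (hβ : 0 < β) (hx : 0 < x) (h1 : x < x') (h2 : x' < x'') :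
    (ell α β x'' - ell α β x') / (x'' - x') ≤ (ell α β x' - ell α β x) / (x' - x) := by
  have hk := kb_pos (α := α) hβ
  have hc := Real.concaveOn_rpow (Win_gam_pos hα).le (by linarith [Win_gam_lt hα hα2] : gam α ≤ 1)
  have h := hc.slope_anti_adjacent (Set.mem_Ici.2 hx.le) (Set.mem_Ici.2 (by linarith : (0 : ℝ) ≤ x'')) h1 h2
  have h3 := mul_le_mul_of_nonneg_left h hk.le
  unfold ell
  calc (kb α β * x'' ^ gam α - kb α β * x' ^ gam α) / (x'' - x')
      = kb α β * ((x'' ^ gam α - x' ^ gam α) / (x'' - x')) := by ring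
    _ ≤ _ := h3
    _ = _ := by ring

theorem win {α β : ℝ} (hα : 0 < α) (hα2 : α < 2) (hβ : 0 < β) : ∃ s0 ≥ (1 : ℝ), ∃ C ≥ (1 : ℝ), ∀ r t : ℝ, ∀ N : ℕ,
    s0 ≤ r → 0 ≤ t → 1 ≤ N → 1 / 2 ≤ HH α β r t N → HH α β r t N ≤ 2 → WinF α β C r t N := by
  have hk := kb_pos (α := α) hβ
  have hg := Win_gg_pos hα hα2
  have hg0 := Win_gam_pos hα
  have hg1 := Win_gam_lt hα hα2
  set κ := kb α β with hκ
  set g := gg α with hgdef
  have h2g : (1 : ℝ) < 2 ^ g := Real.one_lt_rpow (by norm_num) hg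
  set C := 1 + κ ^ 2 + 4 * κ ^ 2 + 16 * κ ^ 4 + 2 / κ ^ 2 + 2 / (κ ^ 2 * gam α) with hC
  have hC1 : 1 ≤ C := by
    have : 0 ≤ κ ^ 2 + 4 * κ ^ 2 + 16 * κ ^ 4 + 2 / κ ^ 2 + 2 / (κ ^ 2 * gam α) := by positivity
    linarith
  have hCa : 4 * κ ^ 2 ≤ C := by
    have : 0 ≤ 1 + κ ^ 2 + 16 * κ ^ 4 + 2 / κ ^ 2 + 2 / (κ ^ 2 * gam α) := by positivity
    linarith
  have hCb : 16 * κ ^ 4 ≤ C := by
    have : 0 ≤ 1 + κ ^ 2 + 4 * κ ^ 2 + 2 / κ ^ 2 + 2 / (κ ^ 2 * gam α) := by positivity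
    linarith
  have hCc : 2 / κ ^ 2 ≤ C := by
    have : 0 ≤ 1 + κ ^ 2 + 4 * κ ^ 2 + 16 * κ ^ 4 + 2 / (κ ^ 2 * gam α) := by positivity
    linarith
  have hCd : 2 / (κ ^ 2 * gam α) ≤ C := by
    have : 0 ≤ 1 + κ ^ 2 + 4 * κ ^ 2 + 16 * κ ^ 4 + 2 / κ ^ 2 := by positivity
    linarith
  have hCe : κ ^ 2 ≤ C := by
    have : 0 ≤ 1 + 4 * κ ^ 2 + 16 * κ ^ 4 + 2 / κ ^ 2 + 2 / (κ ^ 2 * gam α) := by positivity
    linarith
  have hC0 : 0 < C := by linarith
  have hCc' : C⁻¹ ≤ κ ^ 2 / 2 := by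
    rw [inv_le_comm₀ hC0 (by positivity), inv_div]; exact hCc
  have hCd' : C⁻¹ ≤ κ ^ 2 * gam α / 2 := by
    rw [inv_le_comm₀ hC0 (by positivity), inv_div]; exact hCd
  set M := C + 2 * (g * κ ^ 2) / (2 ^ g - 1) with hM
  have hM0 : 0 ≤ 2 * (g * κ ^ 2) / (2 ^ g - 1) := div_nonneg (by positivity) (by linarith)
  have hM1 : 1 ≤ M := by linarith
  have hMC : C ≤ M := by linarith
  refine ⟨M ^ (1 / g), Real.one_le_rpow hM1 (by positivity), C, hC1, ?_⟩
  intro r t N hr ht hN hH1 hH2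
  have hNr : (0 : ℝ) < N := by exact_mod_cast hN
  have hr1 : 1 ≤ r := (Real.one_le_rpow hM1 (by positivity)).trans hr
  have hr0 : 0 < r := by linarith
  have hrg : M ≤ r ^ g := by
    have h := Real.rpow_le_rpow (Real.rpow_nonneg (by linarith) _) hr hg.le
    rwa [← Real.rpow_mul (by linarith), one_div_mul_cancel hg.ne', Real.rpow_one] at h
  set D := (t ^ g - r ^ g) / N with hD
  have hHD : HH α β r t N = D / (g * κ ^ 2) := by
    unfold HH
    rw [← hκ, ← hgdef, hD]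
    field_simp
  have hgk : 0 < g * κ ^ 2 := by positivity
  have hD1 : g * κ ^ 2 / 2 ≤ D := by
    rw [hHD, le_div_iff₀ hgk] at hH1; linarith
  have hD2 : D ≤ 2 * (g * κ ^ 2) := by
    rw [hHD, div_le_iff₀ hgk] at hH2; linarith
  have hD0 : 0 < D := by
    have : 0 < g * κ ^ 2 / 2 := by positivity
    linarith
  -- the points
  have hP : ∀ k : ℕ, r ^ g ≤ r ^ g + k * D := fun k => by
    have : 0 ≤ (k : ℝ) * D := by positivity
    linarith
  have hxk : ∀ k, xk α r t N k = (r ^ g + k * D) ^ (1 / g) := fun k => rfl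
  have hrg0 : 0 < r ^ g := Real.rpow_pos_of_pos hr0 _
  have hxg : ∀ k, xk α r t N k ^ g = r ^ g + k * D := fun k => by
    rw [hxk, ← Real.rpow_mul (by linarith [hP k]), one_div_mul_cancel hg.ne', Real.rpow_one]
  have hxr : ∀ k, r ≤ xk α r t N k := fun k => by
    rw [hxk]
    have h := Real.rpow_le_rpow hrg0.le (hP k) (by positivity : 0 ≤ 1 / g)
    rwa [← Real.rpow_mul hr0.le, mul_one_div_cancel hg.ne', Real.rpow_one] at h
  have hx0 : ∀ k, 0 < xk α r t N k := fun k => by linarith [hxr k]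
  have hlt : ∀ k, xk α r t N k < xk α r t N (k + 1) := fun k => by
    rw [hxk, hxk]
    refine Real.rpow_lt_rpow (by linarith [hP k]) ?_ (by positivity)
    push_cast
    linarith
  have hxg' : ∀ k, xk α r t N (k + 1) ^ g = xk α r t N k ^ g + D := fun k => by
    rw [hxg, hxg]; push_cast; ring
  have hx2 : ∀ k, xk α r t N (k + 1) ≤ 2 * xk α r t N k := fun k => by
    rw [← Real.rpow_le_rpow_iff (hx0 _).le (by linarith [hx0 k]) hg, hxg' k,
      Real.mul_rpow (by norm_num) (hx0 k).le]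
    have h1 : M ≤ xk α r t N k ^ g := by rw [hxg]; linarith [hP k]
    have h2 : 2 * (g * κ ^ 2) / (2 ^ g - 1) ≤ xk α r t N k ^ g := by linarith
    rw [div_le_iff₀ (by linarith)] at h2
    nlinarith
  have hPP : ∀ k, WinP α β (xk α r t N k) (xk α r t N (k + 1)) D := fun k =>
    ⟨by linarith [hxr k], hlt k, hx2 k, hxg' k, hD1, hD2⟩
  have hpp : ∀ k (p : ℝ), 0 < xk α r t N k ^ p := fun k p => Real.rpow_pos_of_pos (hx0 k) _
  have hsmall : ∀ k, C * xk α r t N k ^ (-2 * g) ≤ 1 := fun k => by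
    have h1 : M ≤ xk α r t N k ^ g := by rw [hxg]; linarith [hP k]
    have h2 : xk α r t N k ^ (-2 * g) = (xk α r t N k ^ g * xk α r t N k ^ g)⁻¹ := by
      rw [← Real.rpow_add (hx0 k), ← Real.rpow_neg (hx0 k).le]
      congr 1
      ring
    rw [h2, ← div_eq_mul_inv, div_le_one (mul_pos (hpp k g) (hpp k g))]
    nlinarith
  refine
    { x0 := ?_, xN := ?_, xge := fun k _ => hxr k, xlt := fun k _ => hlt k, x2 := fun k _ => hx2 k,
      xd := fun k _ => ?_, xdlo := fun k _ => ?_, hlo := fun k _ => ?_, hhi := fun k _ => ?_,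
      h4 := fun k _ => ?_, sl0 := fun k _ => ?_, slhi := fun k _ => ?_, sllo := fun k _ => ?_,
      slm := fun k _ => ?_, kink := fun k _ => ?_, chord_le := fun k _ σ hσ hσ' => ?_,
      chord_ge := fun k _ σ hσ hσ' => ?_ }
  · rw [hxk]
    push_cast
    rw [zero_mul, add_zero, ← Real.rpow_mul hr0.le, mul_one_div_cancel hg.ne', Real.rpow_one]
  · rw [hxk]
    have : r ^ g + (N : ℝ) * D = t ^ g := by
      rw [hD]; field_simp; ring
    rw [this, ← Real.rpow_mul ht, mul_one_div_cancel hg.ne', Real.rpow_one]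
  · exact (Win_xd hα hα2 (hPP k)).trans (mul_le_mul_of_nonneg_right hCa (hpp k _).le)
  · exact (mul_le_mul_of_nonneg_right hCc' (hpp k _).le).trans (Win_xdlo hα hα2 (hPP k))
  · rw [hHD]
    exact Win_hlo hα hα2 hβ (hPP k)
  · rw [hHD]
    refine (Win_hhi hα hα2 hβ (hPP k)).trans ?_
    refine mul_le_mul_of_nonneg_left ?_ (by positivity)
    have := mul_le_mul_of_nonneg_right hCb (hpp k (-2 * g)).le
    linarith
  · have h1 := Win_hhi hα hα2 hβ (hPP k)
    have h2 := mul_le_mul_of_nonneg_right hCb (hpp k (-2 * g)).le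
    have h3 := hsmall k
    rw [hHD] at hH2
    have h0 : 0 ≤ D / (g * κ ^ 2) := by positivity
    have h4 : 0 ≤ 16 * κ ^ 4 * xk α r t N k ^ (-2 * g) := by have := hpp k (-2 * g); positivity
    unfold hw
    refine h1.trans ?_
    calc D / (g * κ ^ 2) * (1 + 16 * κ ^ 4 * xk α r t N k ^ (-2 * g)) ≤ 2 * (1 + 1) :=
          mul_le_mul hH2 (by linarith) (by linarith) (by norm_num)
      _ = 4 := by norm_num
  · unfold sl
    refine div_nonneg ?_ (by linarith [hlt k])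
    unfold ell
    have := Real.rpow_le_rpow (hx0 k).le (hlt k).le hg0.le
    nlinarith
  · exact (Win_slhi hα hα2 hβ (hPP k)).trans (mul_le_mul_of_nonneg_right hCe (hpp k _).le)
  · exact (mul_le_mul_of_nonneg_right hCd' (hpp k _).le).trans (Win_sllo hα hα2 hβ (hPP k))
  · exact Win_slm hα hα2 hβ (hx0 k) (hlt k) (hlt (k + 1))
  · refine (Win_kink hα hα2 hβ (hPP k) (hPP (k + 1))).trans ?_
    refine mul_le_mul_of_nonneg_right ?_ (hpp (k + 1) _).le
    have : 0 ≤ κ ^ 4 := by positivity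
    linarith
  · exact Win_chord_le hα hα2 hβ (hPP k) hσ hσ'
  · refine le_trans ?_ (Win_chord_ge hα hα2 hβ (hPP k) hσ hσ')
    refine mul_le_mul_of_nonneg_right ?_ (Win_ell_pos hβ (by linarith [hx0 k])).le
    have := mul_le_mul_of_nonneg_right hCb (hpp k (-2 * g)).le
    linarith

theorem Win_tele {a D q : ℝ} (ha : 0 < a) (hD : 0 < D) (hq : 1 < q) :
    (a + D) ^ (-q) ≤ (a ^ (1 - q) - (a + D) ^ (1 - q)) / (D * (q - 1)) := by
  have hb : 0 < a + D := by linarith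
  rw [le_div_iff₀ (mul_pos hD (by linarith))]
  have e : a ^ (1 - q) = (a + D) ^ (1 - q) * (a / (a + D)) ^ (1 - q) := by
    rw [Real.div_rpow ha.le hb.le]
    have : (a + D) ^ (1 - q) ≠ 0 := (Real.rpow_pos_of_pos hb _).ne'
    field_simp
  have hw : a / (a + D) = 1 - D / (a + D) := by field_simp; ring
  have h1 : 1 + (q - 1) * (D / (a + D)) ≤ (a / (a + D)) ^ (1 - q) := by
    have hy : 0 < a / (a + D) := by positivity
    rw [Real.rpow_def_of_pos hy]
    have h2 : Real.log (a / (a + D)) ≤ -(D / (a + D)) := by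
      have := Real.log_le_sub_one_of_pos hy
      rw [hw] at this ⊢
      linarith
    have h3 : (q - 1) * (D / (a + D)) ≤ Real.log (a / (a + D)) * (1 - q) := by nlinarith
    have h4 := Real.add_one_le_exp (Real.log (a / (a + D)) * (1 - q))
    linarith
  have hbp : 0 < (a + D) ^ (1 - q) := Real.rpow_pos_of_pos hb _
  have h5 := mul_le_mul_of_nonneg_left h1 hbp.le
  rw [← e] at h5
  have e2 : (a + D) ^ (-q) = (a + D) ^ (1 - q) / (a + D) := by
    rw [← Real.rpow_sub_one hb.ne']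
    congr 1
    ring
  rw [e2]
  have e3 : (a + D) ^ (1 - q) / (a + D) * (D * (q - 1)) = (a + D) ^ (1 - q) * (1 + (q - 1) * (D / (a + D))) -
      (a + D) ^ (1 - q) := by
    field_simp
    ring
  rw [e3]
  linarith

theorem win_sum {α β : ℝ} (hα : 0 < α) (hα2 : α < 2) (hβ : 0 < β) {δ : ℝ} (hδ : gg α < δ) :
    ∃ C > 0, ∀ r t : ℝ, ∀ N : ℕ, 1 ≤ r → 1 ≤ N → 1 / 2 ≤ HH α β r t N →
      ∑ k ∈ Finset.range N, xk α r t N k ^ (-δ) ≤ C * r ^ (gg α - δ) := by
  have hk := kb_pos (α := α) hβ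
  have hg := Win_gg_pos hα hα2
  set κ := kb α β with hκ
  set g := gg α with hgdef
  set q := δ / g with hq
  have hq1 : 1 < q := by rw [hq, one_lt_div hg]; exact hδ
  refine ⟨1 + 1 / (g * κ ^ 2 / 2 * (q - 1)), ?_, ?_⟩
  · have : 0 ≤ 1 / (g * κ ^ 2 / 2 * (q - 1)) := by
      have : 0 < q - 1 := by linarith
      positivity
    linarith
  intro r t N hr hN hH
  have hNr : (0 : ℝ) < N := by exact_mod_cast hN
  have hr0 : 0 < r := by linarith
  set D := (t ^ g - r ^ g) / N with hD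
  have hHD : HH α β r t N = D / (g * κ ^ 2) := by
    unfold HH
    rw [← hκ, ← hgdef, hD]
    field_simp
  have hgk : 0 < g * κ ^ 2 := by positivity
  have hD1 : g * κ ^ 2 / 2 ≤ D := by
    rw [hHD, le_div_iff₀ hgk] at hH; linarith
  have hD0 : 0 < D := by
    have : 0 < g * κ ^ 2 / 2 := by positivity
    linarith
  have hrg0 : 0 < r ^ g := Real.rpow_pos_of_pos hr0 _
  have hPpos : ∀ k : ℕ, 0 < r ^ g + k * D := fun k => by positivity
  have hterm : ∀ k, xk α r t N k ^ (-δ) = (r ^ g + k * D) ^ (-q) := fun k => by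
    have : xk α r t N k = (r ^ g + k * D) ^ (1 / g) := rfl
    rw [this, ← Real.rpow_mul (hPpos k).le]
    congr 1
    rw [hq]
    ring
  simp_rw [hterm]
  have hind : ∀ n : ℕ, ∑ k ∈ Finset.range n, (r ^ g + ((k + 1 : ℕ) : ℝ) * D) ^ (-q) ≤
      ((r ^ g) ^ (1 - q) - (r ^ g + n * D) ^ (1 - q)) / (D * (q - 1)) := by
    intro n
    induction n with
    | zero => simp
    | succ n ih =>
      rw [Finset.sum_range_succ]
      have h1 := Win_tele (hPpos n) hD0 hq1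
      have e : r ^ g + ((n + 1 : ℕ) : ℝ) * D = r ^ g + n * D + D := by push_cast; ring
      rw [e]
      calc _ ≤ ((r ^ g) ^ (1 - q) - (r ^ g + n * D) ^ (1 - q)) / (D * (q - 1)) +
            ((r ^ g + n * D) ^ (1 - q) - (r ^ g + n * D + D) ^ (1 - q)) / (D * (q - 1)) := add_le_add ih h1
        _ = _ := by ring
  obtain ⟨n, rfl⟩ : ∃ n, N = n + 1 := ⟨N - 1, by omega⟩
  rw [Finset.sum_range_succ']
  have h1 := hind n
  have hq0 : 0 < q - 1 := by linarith
  have h2 : ((r ^ g) ^ (1 - q) - (r ^ g + n * D) ^ (1 - q)) / (D * (q - 1)) ≤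
      (r ^ g) ^ (1 - q) / (g * κ ^ 2 / 2 * (q - 1)) := by
    have h3 : 0 < (r ^ g + n * D) ^ (1 - q) := Real.rpow_pos_of_pos (hPpos n) _
    have h4 : 0 ≤ (r ^ g) ^ (1 - q) := Real.rpow_nonneg hrg0.le _
    calc ((r ^ g) ^ (1 - q) - (r ^ g + n * D) ^ (1 - q)) / (D * (q - 1)) ≤ (r ^ g) ^ (1 - q) / (D * (q - 1)) :=
          div_le_div_of_nonneg_right (by linarith) (by positivity)
      _ ≤ _ := div_le_div_of_nonneg_left h4 (by positivity) (mul_le_mul_of_nonneg_right hD1 hq0.le)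
  have e1 : (r ^ g) ^ (1 - q) = r ^ (g - δ) := by
    rw [← Real.rpow_mul hr0.le]
    congr 1
    rw [hq]
    field_simp
  have h5 : (r ^ g + ((0 : ℕ) : ℝ) * D) ^ (-q) ≤ r ^ (g - δ) := by
    rw [← e1]
    push_cast
    rw [zero_mul, add_zero]
    exact Real.rpow_le_rpow_of_exponent_le (Real.one_le_rpow hr hg.le) (by linarith)
  calc _ ≤ (r ^ g) ^ (1 - q) / (g * κ ^ 2 / 2 * (q - 1)) + r ^ (g - δ) := add_le_add (h1.trans h2) h5
    _ = _ := by rw [e1]; ring

end Pool.H50.BB
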