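import Pool.Agent.H50.BB.Defs3
import Pool.Agent.H50.BB.Win

/-!
# Row Kpf: the curve kap
-/

open MeasureTheory Set Filter Topology

namespace Pool.H50.BB

theorem gg_pos {α : ℝ} (hα : 0 < α) (hα2 : α < 2) : 0 < gg α ∧ 0 < gam α ∧ gam α < 1 / 2 ∧ gg α = 1 - 2 * gam α :=
  ⟨Win_gg_pos hα hα2, Win_gam_pos hα, Win_gam_lt hα hα2, Win_gg_eq hα⟩

theorem gg_lt {α : ℝ} (hα : 2 / 3 < α) (hα2 : α < 2) : gg α < 1 / 2 := by
  unfold gg
  rw [div_lt_div_iff₀ (by linarith) (by norm_num)]
  linarith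

/-- the constant of the curve -/
noncomputable def Kpf_a (α β lam : ℝ) : ℝ := lam / (√2 * gg α * kb α β ^ 2)

theorem Kpf_kap (α β lam s : ℝ) : kap α β lam s = Kpf_a α β lam * s ^ gg α := by
  unfold kap Kpf_a
  rw [div_mul_eq_mul_div]

theorem Kpf_a_pos {α β lam : ℝ} (hα : 0 < α) (hα2 : α < 2) (hβ : 0 < β) (hlam : 0 < lam) :
    0 < Kpf_a α β lam := by
  have h1 := Win_gg_pos hα hα2
  have h2 : 0 < kb α β := by
    unfold kb
    exact Real.rpow_pos_of_pos (mul_pos hβ (Real.rpow_pos_of_pos two_pos _)) _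
  unfold Kpf_a
  positivity

theorem Kpf_lin {g s t : ℝ} (hg : 0 < g) (hg1 : g < 1) (hs : 0 < s) (hst : s ≤ t) :
    t ^ g - s ^ g ≤ g * s ^ (g - 1) * (t - s) := by
  have h1 : -1 ≤ (t - s) / s := by
    have : 0 ≤ (t - s) / s := div_nonneg (by linarith) hs.le
    linarith
  have h2 := rpow_one_add_le_one_add_mul_self h1 hg.le hg1.le
  have h3 : t ^ g = s ^ g * (1 + (t - s) / s) ^ g := by
    rw [← Real.mul_rpow hs.le (by have : 0 ≤ (t - s) / s := div_nonneg (by linarith) hs.le
                                  linarith)]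
    congr 1
    field_simp
    ring
  have h4 : s ^ (g - 1) = s ^ g / s := by rw [Real.rpow_sub_one hs.ne']
  have h5 : 0 < s ^ g := Real.rpow_pos_of_pos hs _
  rw [h3, h4]
  have h6 := mul_le_mul_of_nonneg_left h2 h5.le
  have h7 : g * (s ^ g / s) * (t - s) = s ^ g * (1 + g * ((t - s) / s)) - s ^ g := by
    field_simp
    ring
  rw [h7]
  linarith

theorem Kpf_log {g s t : ℝ} (hs : 0 < s) (hst : s ≤ t) :
    g * s ^ g * Real.log (t / s) ≤ t ^ g - s ^ g := by
  have ht : 0 < t := lt_of_lt_of_le hs hst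
  have h1 : t ^ g = s ^ g * Real.exp (g * Real.log (t / s)) := by
    have : t = s * (t / s) := by field_simp
    conv_lhs => rw [this]
    rw [Real.mul_rpow hs.le (by positivity), Real.rpow_def_of_pos (div_pos ht hs), mul_comm g]
  have h2 := Real.add_one_le_exp (g * Real.log (t / s))
  have h5 : 0 < s ^ g := Real.rpow_pos_of_pos hs _
  rw [h1]
  nlinarith [mul_le_mul_of_nonneg_left h2 h5.le]

theorem Kpf_sqrt {g s t : ℝ} (hg : 0 < g) (hg1 : g < 1 / 2) (hs : 1 ≤ s) (hst : s ≤ t) :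
    t ^ g - s ^ g ≤ √(t - s) := by
  have hu : 0 ≤ t - s := by linarith
  rcases le_total (t - s) 1 with h | h
  · have h1 := Kpf_lin hg (by linarith) (by linarith) hst
    have h2 : s ^ (g - 1) ≤ 1 := Real.rpow_le_one_of_one_le_of_nonpos hs (by linarith)
    have h3 : g * s ^ (g - 1) * (t - s) ≤ t - s := by
      have h4 : 0 ≤ s ^ (g - 1) := Real.rpow_nonneg (by linarith) _
      have h5 : g * s ^ (g - 1) ≤ 1 := by nlinarith
      exact mul_le_of_le_one_left hu h5
    have h6 : t - s ≤ √(t - s) := by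
      refine Real.le_sqrt_of_sq_le ?_
      nlinarith
    linarith
  · have h1 := Real.rpow_add_le_add_rpow (by linarith : 0 ≤ s) hu hg.le (by linarith : g ≤ 1)
    have h2 : s + (t - s) = t := by ring
    rw [h2] at h1
    have h3 : (t - s) ^ g ≤ √(t - s) := by
      rw [Real.sqrt_eq_rpow]
      exact Real.rpow_le_rpow_of_exponent_le h hg1.le
    linarith

theorem kap_kap {α β lam : ℝ} (hα : 2 / 3 < α) (hα2 : α < 2) (hβ : 0 < β) (hlam : 0 < lam) :
    ∃ Λ s0 : ℝ, ∀ s1, s0 ≤ s1 → Kap (kap α β lam) (gam α) Λ s1 := by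
  have hα0 : 0 < α := by linarith
  have hg := Win_gg_pos hα0 hα2
  have hg1 := gg_lt hα hα2
  have hγ := Win_gam_pos hα0
  have hγ1 := Win_gam_lt hα0 hα2
  have ha := Kpf_a_pos hα0 hα2 hβ hlam
  have hf : kap α β lam = fun s => Kpf_a α β lam * s ^ gg α := funext (Kpf_kap α β lam)
  set a := Kpf_a α β lam
  set g := gg α
  set γ := gam α
  have hc : 0 < γ / (2 * √2) := by positivity
  set c := γ / (2 * √2) with hcd
  refine ⟨a, max 1 ((c / (a * g)) ^ (1 / g)), fun s1 hs1 => ?_⟩
  have h11 : 1 ≤ s1 := (le_max_left _ _).trans hs1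
  rw [hf]
  refine ⟨hγ.le, by linarith, h11, ha.le, ?_, ?_, ?_, ?_, ?_⟩
  · exact (continuous_const.mul (Real.continuous_rpow_const hg.le)).continuousOn
  · intro s t hs hst
    exact mul_le_mul_of_nonneg_left (Real.rpow_le_rpow (by linarith) hst hg.le) ha.le
  · intro s s' t hs hs' ht
    rcases eq_or_lt_of_le (hs'.trans ht) with h | h
    · have e1 : s' = s := le_antisymm (by linarith) hs'
      have e2 : t = s := h.symm
      rw [e1, e2]
    · have hconc := Real.concaveOn_rpow hg.le (by linarith : g ≤ 1)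
      have hts : 0 < t - s := by linarith
      have ha1 : 0 ≤ (t - s') / (t - s) := div_nonneg (by linarith) hts.le
      have hb1 : 0 ≤ (s' - s) / (t - s) := div_nonneg (by linarith) hts.le
      have hab1 : (t - s') / (t - s) + (s' - s) / (t - s) = 1 := by field_simp; ring
      have hs0' : s ∈ Ici (0 : ℝ) := by simp only [mem_Ici]; linarith
      have ht0' : t ∈ Ici (0 : ℝ) := by simp only [mem_Ici]; linarith
      have h1 := hconc.2 hs0' ht0' ha1 hb1 hab1
      have h2 : ((t - s') / (t - s)) • s + ((s' - s) / (t - s)) • t = s' := by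
        simp only [smul_eq_mul]
        field_simp
        ring
      rw [h2] at h1
      simp only [smul_eq_mul] at h1
      have h3 : (t - s') * s ^ g + (s' - s) * t ^ g ≤ (t - s) * s' ^ g := by
        have h4 := mul_le_mul_of_nonneg_left h1 hts.le
        have h5 : (t - s) * ((t - s') / (t - s) * s ^ g + (s' - s) / (t - s) * t ^ g) =
            (t - s') * s ^ g + (s' - s) * t ^ g := by
          field_simp
        rw [h5] at h4
        exact h4
      show (s' - s) * (a * t ^ g - a * s ^ g) ≤ (t - s) * (a * s' ^ g - a * s ^ g)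
      nlinarith [mul_le_mul_of_nonneg_left h3 ha.le]
  · intro s t hs hst
    have hs0 : 0 < s := by linarith
    have h1 := Kpf_log (g := g) hs0 hst
    have h2 : 0 ≤ Real.log (t / s) := Real.log_nonneg ((one_le_div hs0).2 hst)
    have h3 : c / (a * g) ≤ s ^ g := by
      have h4 : (c / (a * g)) ^ (1 / g) ≤ s := (le_max_right _ _).trans (hs1.trans hs)
      have h5 := Real.rpow_le_rpow (Real.rpow_nonneg (by positivity) _) h4 hg.le
      rw [← Real.rpow_mul (by positivity), one_div_mul_cancel hg.ne', Real.rpow_one] at h5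
      exact h5
    have h6 : c ≤ a * (g * s ^ g) := by
      rw [div_le_iff₀ (by positivity)] at h3
      linarith
    show c * Real.log (t / s) ≤ a * t ^ g - a * s ^ g
    have h7 := mul_le_mul_of_nonneg_right h6 h2
    have h8 := mul_le_mul_of_nonneg_left h1 ha.le
    nlinarith
  · intro s t hs hst
    have h1 := Kpf_sqrt hg hg1 (h11.trans hs) hst
    show a * t ^ g - a * s ^ g ≤ a * √(t - s)
    rw [← mul_sub]
    exact mul_le_mul_of_nonneg_left h1 ha.le

theorem kap_adm {α β lam : ℝ} (hα : 2 / 3 < α) (hα2 : α < 2) (hβ : 0 < β) (hlam : 0 < lam) :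
    ∃ s0 ≥ (1 : ℝ), ∀ s t a q : ℝ, s0 ≤ s → a ≤ √s → s ≤ q → q ≤ t →
      mm α β lam t + a - MM (kap α β lam) (gam α) q t ≤ √2 * q + √q := by
  have hα0 : 0 < α := by linarith
  have hg := Win_gg_pos hα0 hα2
  have hg1 := gg_lt hα hα2
  have hγ := Win_gam_pos hα0
  have hγ1 := Win_gam_lt hα0 hα2
  have ha := Kpf_a_pos hα0 hα2 hβ hlam
  have hf : ∀ s, kap α β lam s = Kpf_a α β lam * s ^ gg α := Kpf_kap α β lam
  set b := Kpf_a α β lam
  set g := gg α
  have hc : 0 < gam α / (2 * √2) := by positivity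
  set c := gam α / (2 * √2) with hcd
  refine ⟨max 1 ((2 * c / (b * g)) ^ (2 / g)), le_max_left _ _, ?_⟩
  intro s t a q hs hap hsq hqt
  have hq1 : 1 ≤ q := (le_max_left _ _).trans (hs.trans hsq)
  have hq0 : 0 < q := by linarith
  have ht0 : 0 < t := by linarith
  have h1 : c * Real.log q ≤ kap α β lam q := by
    rw [hf]
    have h2 : Real.log q ≤ q ^ (g / 2) / (g / 2) := Real.log_le_rpow_div hq0.le (by positivity)
    have h3 : 2 * c / (b * g) ≤ q ^ (g / 2) := by
      have h4 : (2 * c / (b * g)) ^ (2 / g) ≤ q := (le_max_right _ _).trans (hs.trans hsq)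
      have h5 := Real.rpow_le_rpow (Real.rpow_nonneg (by positivity) _) h4 (by positivity : 0 ≤ g / 2)
      have e : 2 / g * (g / 2) = 1 := by field_simp
      rw [← Real.rpow_mul (by positivity), e, Real.rpow_one] at h5
      exact h5
    have h6 : q ^ g = q ^ (g / 2) * q ^ (g / 2) := by
      rw [← Real.rpow_add hq0]
      congr 1
      ring
    have h7 : 0 < q ^ (g / 2) := Real.rpow_pos_of_pos hq0 _
    rw [div_le_iff₀ (by positivity)] at h3
    have h8 : c * Real.log q ≤ c * (q ^ (g / 2) / (g / 2)) := mul_le_mul_of_nonneg_left h2 hc.le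
    have h9 : c * (q ^ (g / 2) / (g / 2)) = (2 * c) * q ^ (g / 2) / g := by
      field_simp
    have h10 : (2 * c) * q ^ (g / 2) / g ≤ b * q ^ g := by
      rw [div_le_iff₀ hg, h6]
      nlinarith [mul_le_mul_of_nonneg_right h3 h7.le]
    linarith
  have h2 : √s ≤ √q := Real.sqrt_le_sqrt hsq
  have h3 : Real.log (t - q + 1) ≤ Real.log t := Real.log_le_log (by linarith) (by linarith)
  have h4 : Real.log (t / q) = Real.log t - Real.log q := Real.log_div ht0.ne' hq0.ne'
  unfold mm MM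
  rw [h4]
  have h5 : 0 < 3 / (2 * √2) := by positivity
  have h6 : (3 - gam α) / (2 * √2) = 3 / (2 * √2) - c := by rw [hcd]; ring
  rw [h6, ← hcd]
  have h7 := mul_le_mul_of_nonneg_left h3 h5.le
  nlinarith

theorem kap_diff {α β lam : ℝ} (hα : 2 / 3 < α) (hα2 : α < 2) (hβ : 0 < β) (hlam : 0 < lam) (ℓ : ℝ) :
    Tendsto (fun t => kap α β lam t - kap α β lam (t - ℓ)) atTop (𝓝 0) := by
  have hα0 : 0 < α := by linarith
  have hg := Win_gg_pos hα0 hα2
  have hg1 := gg_lt hα hα2
  have ha := Kpf_a_pos hα0 hα2 hβ hlam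
  have hf : ∀ s, kap α β lam s = Kpf_a α β lam * s ^ gg α := Kpf_kap α β lam
  set a := Kpf_a α β lam
  set g := gg α
  have h1 : Tendsto (fun t : ℝ => a * (g * (t - |ℓ|) ^ (-(1 - g)) * |ℓ|)) atTop (𝓝 0) := by
    have h2 : Tendsto (fun t : ℝ => (t - |ℓ|) ^ (-(1 - g))) atTop (𝓝 0) :=
      (tendsto_rpow_neg_atTop (by linarith : 0 < 1 - g)).comp (tendsto_atTop_add_const_right _ _ tendsto_id)
    have h3 := ((h2.const_mul g).mul_const |ℓ|).const_mul a
    simpa using h3
  refine squeeze_zero_norm' ?_ h1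
  filter_upwards [eventually_gt_atTop (|ℓ| + 1)] with t ht
  have hb1 := neg_abs_le ℓ
  have hb2 := le_abs_self ℓ
  have hb3 := abs_nonneg ℓ
  have e : -(1 - g) = g - 1 := by ring
  rw [hf, hf, ← mul_sub, norm_mul, Real.norm_of_nonneg ha.le, e]
  refine mul_le_mul_of_nonneg_left ?_ ha.le
  rw [Real.norm_eq_abs]
  have hpos : 0 < t - |ℓ| := by linarith
  have hmon : ∀ s, t - |ℓ| ≤ s → s ^ (g - 1) ≤ (t - |ℓ|) ^ (g - 1) := fun s hs =>
    Real.rpow_le_rpow_of_nonpos hpos hs (by linarith)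
  rcases le_total 0 ℓ with h | h
  · have h3 := Kpf_lin hg (by linarith) (by linarith : 0 < t - ℓ) (by linarith : t - ℓ ≤ t)
    have h4 : (t - ℓ) ^ g ≤ t ^ g := Real.rpow_le_rpow (by linarith) (by linarith) hg.le
    rw [abs_of_nonneg (by linarith)]
    refine h3.trans ?_
    have h5 := hmon (t - ℓ) (by linarith)
    have h6 : t - (t - ℓ) = |ℓ| := by rw [abs_of_nonneg h]; ring
    rw [h6]
    exact mul_le_mul_of_nonneg_right (mul_le_mul_of_nonneg_left h5 hg.le) hb3
  · have h3 := Kpf_lin hg (by linarith) (by linarith : 0 < t) (by linarith : t ≤ t - ℓ)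
    have h4 : t ^ g ≤ (t - ℓ) ^ g := Real.rpow_le_rpow (by linarith) (by linarith) hg.le
    rw [abs_of_nonpos (by linarith)]
    have h5 := hmon t (by linarith)
    have h6 : t - ℓ - t = |ℓ| := by rw [abs_of_nonpos h]; ring
    rw [h6] at h3
    have h7 := mul_le_mul_of_nonneg_right (mul_le_mul_of_nonneg_left h5 hg.le) hb3
    linarith

end Pool.H50.BB
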