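import Pool.Agent.H50.BB.Defs3

/-!
# Row Qlu: bounds of the potential q = 1 - b(arg)   (about 230 lines)

`A12 b α β`, `2/3 < α < 2`, `β > 0`.  `rate`: `b 0 = 1` (`asy` at the point 0), `b ≤ 1` on `[-π,π]` (`max`) and everywhere by periodicity.  Let `q θ = 1 - b θ`.
From `asy`: `C1`, `θ1 ∈ (0,1]` with `|q θ - β|θ|^α| ≤ C1 θ²` for `|θ| ≤ θ1`.

`qlo`.  `g = gg α`, `γ = gam α`, `η = 1/(2(2+α))`, `ζ = min (1/2) (3g/2)`; `g < ζ` (as `g < 1/2` iff `α > 2/3`), `γ + η < 1`, `(1-γ-η)(2-α) = 3g/2`.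
`ψ θ = βθ^α - C1 θ²` is increasing on `[0,θ2]` for small `θ2 ≤ θ1`; `q1 = inf {q θ : θ2 ≤ |θ| ≤ π} > 0` (compactness, `max`).  Let `s ≥ s0`, `z = x + iy`, `x ≤ √2 s + √s + 1`,
`Y = min |y| s^{γ+η}`, `ϑ = Y/(√2 s + √s + 1) ≤ s^{γ+η-1}`, small.  `θ = |arg z|`.  If `x ≤ 0`, `θ ≥ π/2` (or `z = 0`, `y = 0`: then `cfl = 0`); if `x > 0`, `tan θ = |y|/x ≥ ϑ`, so `θ ≥ arctan ϑ ≥ ϑ(1-ϑ²)`
(in both cases, `y ≠ 0`).  If `θ ≥ θ2`: `q ≥ q1 ≥ β (s^{γ+η-1})^α ≥ cfl`.  If `θ < θ2`: `q ≥ ψ θ ≥ ψ(arctan ϑ) ≥ β ϑ^α (1-ϑ²)^α - C1 ϑ² ≥ β ϑ^α (1 - 2ϑ² - (C1/β) ϑ^{2-α})`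
(`arctan ϑ ≤ ϑ` in the second term, `(1-x)^α ≥ 1 - 2x`), and `ϑ ≥ (Y/(√2 s)) (1 - 2 s^{-1/2})` (`(√2 s + √s + 1) ≤ √2 s (1 + 2 s^{-1/2})`), `ϑ^{2-α} ≤ s^{-3g/2}`; so
`q ≥ β (Y/(√2 s))^α (1 - Cf s^{-ζ})`, and `q ≥ 0`: this is `cfl α β Cf ζ η s y` (`max s 1 = s`).

`qup`: `s ≥ 1`, `d = √2 s - x ≥ 0`.  For all `|θ| ≤ π`: `q θ ≤ β|θ|^α + C2 θ²` (near 0 by `asy`; for `|θ| ≥ θ1`: `q ≤ 1 ≤ θ²/θ1²`).  If `d ≤ s/10`: `x ≥ (√2 - 1/10) s > 0`, `|arg z| ≤ |y|/x`,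
`(|y|/x)^α = (|y|/(√2 s))^α (√2 s/x)^α`, `√2 s/x = 1/(1 - d/(√2 s)) ≤ 1 + 2 d/s`, `(1+2d/s)^α ≤ (1 + 2d/s)² ≤ 1 + 5 d/s`; `(|y|/x)² ≤ y²/s²`.  If `d > s/10`: `q ≤ 1 ≤ 10^4 (d/s)^4`.
-/

open MeasureTheory Set Filter Topology

namespace Pool.H50.BB

theorem Qlu_asy {b : ℝ → ℝ} {α β : ℝ} (h : A12 b α β) :
    ∃ C > 0, ∃ r > 0, r ≤ 1 ∧ ∀ θ : ℝ, |θ| < r → |b θ - (1 - β * |θ| ^ α)| ≤ C * θ ^ 2 := by
  obtain ⟨C, hC⟩ := h.asy.bound
  obtain ⟨r, hr, hb⟩ := Metric.eventually_nhds_iff.1 hC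
  refine ⟨max C 1, lt_of_lt_of_le one_pos (le_max_right _ _), min r 1, lt_min hr one_pos,
    min_le_right _ _, fun θ hθ => ?_⟩
  have h1 := hb (y := θ) (by rw [Real.dist_eq, sub_zero]; exact lt_of_lt_of_le hθ (min_le_left _ _))
  rw [Real.norm_eq_abs, Real.norm_eq_abs, abs_of_nonneg (sq_nonneg θ)] at h1
  exact h1.trans (mul_le_mul_of_nonneg_right (le_max_left _ _) (sq_nonneg θ))

theorem a12_one {b : ℝ → ℝ} {α β : ℝ} (hα : 0 < α) (h : A12 b α β) : b 0 = 1 := by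
  obtain ⟨C, hC, r, hr, hr1, hb⟩ := Qlu_asy h
  have h1 := hb 0 (by rw [abs_zero]; exact hr)
  rw [abs_zero, Real.zero_rpow hα.ne', mul_zero, sub_zero] at h1
  have h2 : |b 0 - 1| ≤ 0 := by simpa using h1
  have h3 := abs_nonpos_iff.1 h2
  linarith

theorem a12_rate {b : ℝ → ℝ} {α β : ℝ} (hα : 0 < α) (h : A12 b α β) : Rate b := by
  refine ⟨h.cont, h.nonneg, fun θ => ?_⟩
  obtain ⟨y, hy, hyb⟩ := h.per.exists_mem_Ioc (by positivity : (0 : ℝ) < 2 * Real.pi) θ (-Real.pi)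
  rw [hyb]
  by_cases h0 : y = 0
  · rw [h0, a12_one hα h]
  · have h1 := h.max y ⟨hy.1.le, by linarith [hy.2]⟩ h0
    rw [a12_one hα h] at h1
    exact h1.le

theorem Qlu_low {b : ℝ → ℝ} {α β : ℝ} (hα : 0 < α) (hα2 : α < 2) (hβ : 0 < β) (h : A12 b α β) :
    ∃ C ≥ (0 : ℝ), ∃ r > 0, ∀ t θ : ℝ, 0 ≤ t → t ≤ r → |θ| ≤ Real.pi → t ≤ |θ| →
      β * t ^ α - C * t ^ 2 ≤ 1 - b θ := by
  obtain ⟨C1, hC1, r1, hr1, hr11, hb⟩ := Qlu_asy h
  have hrate := a12_rate hα h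
  have hlow : ∀ θ : ℝ, |θ| < r1 → β * |θ| ^ α - C1 * θ ^ 2 ≤ 1 - b θ := by
    intro θ hθ
    have h1 := (abs_le.1 (hb θ hθ)).2
    linarith
  have h2α : 0 < 2 - α := by linarith
  -- the first radius
  have hq0 : 0 < β / (2 * C1) := by positivity
  set r2 : ℝ := min (r1 / 2) ((β / (2 * C1)) ^ (1 / (2 - α))) with hr2
  have hr2p : 0 < r2 := lt_min (by positivity) (Real.rpow_pos_of_pos hq0 _)
  have hr2a : r2 < r1 := lt_of_le_of_lt (min_le_left _ _) (by linarith)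
  have hr2b : r2 ^ (2 - α) ≤ β / (2 * C1) := by
    have h1 : r2 ^ (2 - α) ≤ ((β / (2 * C1)) ^ (1 / (2 - α))) ^ (2 - α) :=
      Real.rpow_le_rpow hr2p.le (min_le_right _ _) h2α.le
    rwa [← Real.rpow_mul hq0.le, one_div, inv_mul_cancel₀ h2α.ne', Real.rpow_one] at h1
  have hpi : (1 : ℝ) < Real.pi := by linarith [Real.pi_gt_three]
  -- the compact part
  obtain ⟨q1, hq1, hq⟩ : ∃ q1 > 0, ∀ θ : ℝ, r2 ≤ |θ| → |θ| ≤ Real.pi → q1 ≤ 1 - b θ := by
    have hK : IsCompact ({θ : ℝ | r2 ≤ |θ|} ∩ Icc (-Real.pi) Real.pi) :=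
      isCompact_Icc.inter_left (isClosed_le continuous_const continuous_abs)
    have hne : ({θ : ℝ | r2 ≤ |θ|} ∩ Icc (-Real.pi) Real.pi).Nonempty := by
      refine ⟨1, ?_, by linarith, hpi.le⟩
      change r2 ≤ |(1 : ℝ)|
      rw [abs_one]
      linarith
    obtain ⟨θ0, hθ0, hmin⟩ := hK.exists_isMinOn hne
      (f := fun θ => 1 - b θ) (continuous_const.sub h.cont).continuousOn
    refine ⟨1 - b θ0, ?_, fun θ h1 h2 => ?_⟩
    · have hne0 : θ0 ≠ 0 := by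
        intro h0
        have h1 : r2 ≤ |θ0| := hθ0.1
        rw [h0, abs_zero] at h1
        linarith
      have h1 := h.max θ0 hθ0.2 hne0
      rw [a12_one hα h] at h1
      linarith
    · exact hmin ⟨h1, abs_le.1 h2⟩
  have hq1b : 0 < q1 / β := by positivity
  set r3 : ℝ := min r2 ((q1 / β) ^ (1 / α)) with hr3
  have hr3p : 0 < r3 := lt_min hr2p (Real.rpow_pos_of_pos hq1b _)
  have hr3b : β * r3 ^ α ≤ q1 := by
    have h1 : r3 ^ α ≤ ((q1 / β) ^ (1 / α)) ^ α :=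
      Real.rpow_le_rpow hr3p.le (min_le_right _ _) hα.le
    rw [← Real.rpow_mul hq1b.le, one_div, inv_mul_cancel₀ hα.ne', Real.rpow_one] at h1
    calc β * r3 ^ α ≤ β * (q1 / β) := mul_le_mul_of_nonneg_left h1 hβ.le
      _ = q1 := by field_simp
  refine ⟨C1 * 2 ^ (2 / α), by positivity, r3, hr3p, fun t θ ht0 htr hθ htθ => ?_⟩
  have ht2 : 0 ≤ C1 * 2 ^ (2 / α) * t ^ 2 := by positivity
  have hq0' : 0 ≤ 1 - b θ := by linarith [hrate.le_one θ]
  rcases eq_or_lt_of_le ht0 with h0 | htp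
  · rw [← h0, Real.zero_rpow hα.ne']
    simpa using hrate.le_one θ
  by_cases hbig : r2 ≤ |θ|
  · have h1 := hq θ hbig hθ
    have h2 : t ^ α ≤ r3 ^ α := Real.rpow_le_rpow ht0 htr hα.le
    have h3 : β * t ^ α ≤ β * r3 ^ α := mul_le_mul_of_nonneg_left h2 hβ.le
    linarith
  · have hlt : |θ| < r2 := not_le.1 hbig
    have hap : 0 < |θ| := lt_of_lt_of_le htp htθ
    have h1 := hlow θ (hlt.trans hr2a)
    have hsq : θ ^ 2 = |θ| ^ α * |θ| ^ (2 - α) := by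
      rw [← Real.rpow_add hap, show α + (2 - α) = ((2 : ℕ) : ℝ) by push_cast; ring,
        Real.rpow_natCast, sq_abs]
    have h2 : t ^ α ≤ |θ| ^ α := Real.rpow_le_rpow ht0 htθ hα.le
    have h3 : 0 < t ^ α := Real.rpow_pos_of_pos htp _
    by_cases hs : 2 * t ^ α ≤ |θ| ^ α
    · have h4 : |θ| ^ (2 - α) ≤ β / (2 * C1) :=
        (Real.rpow_le_rpow hap.le hlt.le h2α.le).trans hr2b
      have h5 : C1 * θ ^ 2 ≤ β / 2 * |θ| ^ α := by
        rw [hsq]
        have h6 : C1 * |θ| ^ (2 - α) ≤ β / 2 := by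
          calc C1 * |θ| ^ (2 - α) ≤ C1 * (β / (2 * C1)) := mul_le_mul_of_nonneg_left h4 hC1.le
            _ = β / 2 := by field_simp
        have h7 := mul_le_mul_of_nonneg_left h6 (Real.rpow_nonneg hap.le α)
        nlinarith
      nlinarith
    · have hs' : |θ| ^ α ≤ 2 * t ^ α := (not_le.1 hs).le
      have h4 : θ ^ 2 ≤ 2 ^ (2 / α) * t ^ 2 := by
        have e1 : (|θ| ^ α) ^ (2 / α) = θ ^ 2 := by
          rw [← Real.rpow_mul hap.le, mul_div_cancel₀ _ hα.ne',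
            show (2 : ℝ) = ((2 : ℕ) : ℝ) by norm_num, Real.rpow_natCast, sq_abs]
        have e2 : (2 * t ^ α) ^ (2 / α) = 2 ^ (2 / α) * t ^ 2 := by
          rw [Real.mul_rpow (by norm_num) h3.le, ← Real.rpow_mul ht0, mul_div_cancel₀ _ hα.ne']
          congr 1
          rw [show (2 : ℝ) = ((2 : ℕ) : ℝ) by norm_num, Real.rpow_natCast]
        rw [← e1, ← e2]
        exact Real.rpow_le_rpow (Real.rpow_nonneg hap.le _) hs' (by positivity)
      have h5 := mul_le_mul_of_nonneg_left h4 hC1.le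
      have h6 := mul_le_mul_of_nonneg_left h2 hβ.le
      nlinarith

theorem Qlu_arg_lo {z : ℂ} {X Y t : ℝ} (hX : z.re ≤ X) (hX0 : 0 < X) (hY : Y ≤ |z.im|)
    (hY0 : 0 < Y) (ht0 : 0 ≤ t) (ht1 : t ≤ 1) (ht : t * (X + Y) ≤ Y) : t ≤ |Complex.arg z| := by
  have hz : z ≠ 0 := by
    rintro rfl
    simp only [Complex.zero_im, abs_zero] at hY
    linarith
  rcases le_or_gt z.re 0 with h0 | h0
  · have h1 : ¬ |Complex.arg z| < Real.pi / 2 := by
      rw [Complex.abs_arg_lt_pi_div_two_iff]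
      push Not
      exact ⟨h0, hz⟩
    have h2 := Real.pi_gt_three
    linarith [not_lt.1 h1]
  · have h1 : |Real.sin (Complex.arg z)| ≤ |Complex.arg z| := Real.abs_sin_le_abs
    refine le_trans ?_ h1
    rw [Complex.sin_arg, abs_div, abs_of_nonneg (norm_nonneg z)]
    have hn : 0 < ‖z‖ := norm_pos_iff.2 hz
    rw [le_div_iff₀ hn]
    have h2 : ‖z‖ ≤ |z.re| + |z.im| := Complex.norm_le_abs_re_add_abs_im z
    rw [abs_of_pos h0] at h2
    have h3 : t * ‖z‖ ≤ t * (X + |z.im|) := mul_le_mul_of_nonneg_left (by linarith) ht0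
    nlinarith

theorem qlo {b : ℝ → ℝ} {α β : ℝ} (hα : 2 / 3 < α) (hα2 : α < 2) (hβ : 0 < β) (h : A12 b α β) :
    ∃ Cf ≥ (0 : ℝ), ∃ ζ η : ℝ, gg α < ζ ∧ 0 < η ∧ ∃ s0 ≥ (1 : ℝ), ∀ s, s0 ≤ s → ∀ z : ℂ,
      z.re ≤ √2 * s + √s + 1 → cfl α β Cf ζ η s z.im ≤ 1 - b (Complex.arg z) := by
  have hα0 : 0 < α := by linarith
  obtain ⟨C, hC, r, hr, hlow⟩ := Qlu_low hα0 hα2 hβ h
  have hrate := a12_rate hα0 h
  have h2a : 0 < 2 + α := by linarith
  have h2m : 0 < 2 - α := by linarith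
  set g : ℝ := gg α with hg
  set ζ : ℝ := min (1 / 2) (3 * g / 2) with hζ
  set η : ℝ := 1 / (2 * (2 + α)) with hη
  have hgv : g = (2 - α) / (2 + α) := rfl
  have hgp : 0 < g := by rw [hgv]; positivity
  have hg12 : g < 1 / 2 := by
    rw [hgv, div_lt_div_iff₀ h2a (by norm_num)]
    linarith
  have hgζ : g < ζ := lt_min hg12 (by linarith)
  have hζp : 0 < ζ := hgp.trans hgζ
  have hηp : 0 < η := by rw [hη]; positivity
  have hge : gam α + η - 1 = -(3 / (2 * (2 + α))) := by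
    rw [hη]
    unfold gam
    field_simp
    ring
  have hζ1 : gam α + η - 1 ≤ -ζ := by
    rw [hge, neg_le_neg_iff]
    rcases le_or_gt α 1 with h1 | h1
    · refine (min_le_left _ _).trans ?_
      rw [div_le_div_iff₀ (by norm_num) (by positivity)]
      linarith
    · refine (min_le_right _ _).trans ?_
      rw [hgv, show 3 * ((2 - α) / (2 + α)) / 2 = (3 * (2 - α)) / (2 * (2 + α)) by field_simp,
        div_le_div_iff_of_pos_right (by positivity)]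
      linarith
  have hζ2 : (gam α + η - 1) * (2 - α) ≤ -ζ := by
    rw [hge]
    have h1 : -(3 / (2 * (2 + α))) * (2 - α) = -(3 * g / 2) := by
      rw [hgv]; field_simp
    rw [h1, neg_le_neg_iff]
    exact min_le_right _ _
  have hζ3 : ζ ≤ 1 / 2 := min_le_left _ _
  set m : ℝ := min (1 / 6) r with hm
  have hmp : 0 < m := lt_min (by norm_num) hr
  refine ⟨6 + C / β, by positivity, ζ, η, hgζ, hηp, max 1 ((1 / m) ^ (1 / ζ)), le_max_left _ _,
    fun s hs z hz => ?_⟩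
  have hs1 : 1 ≤ s := (le_max_left _ _).trans hs
  have hs0 : 0 < s := by linarith
  have hqn : 0 ≤ 1 - b (Complex.arg z) := by linarith [hrate.le_one (Complex.arg z)]
  set E : ℝ := s ^ (-ζ) with hE
  have hEp : 0 < E := Real.rpow_pos_of_pos hs0 _
  have hEm : E ≤ m := by
    have h1 : 1 / m ≤ s ^ ζ := by
      have h2 : ((1 / m) ^ (1 / ζ)) ^ ζ ≤ s ^ ζ :=
        Real.rpow_le_rpow (by positivity) ((le_max_right _ _).trans hs) hζp.le
      rwa [← Real.rpow_mul (by positivity), one_div ζ, inv_mul_cancel₀ hζp.ne', Real.rpow_one] at h2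
    rw [hE, Real.rpow_neg hs0.le]
    have h3 : 0 < s ^ ζ := Real.rpow_pos_of_pos hs0 _
    rw [inv_le_comm₀ h3 hmp, ← one_div]
    exact h1
  have hE6 : E ≤ 1 / 6 := hEm.trans (min_le_left _ _)
  have hEr : E ≤ r := hEm.trans (min_le_right _ _)
  -- the quantities
  have hmax : max s 1 = s := max_eq_left hs1
  unfold cfl
  rw [hmax]
  set Y : ℝ := min |z.im| (s ^ (gam α + η)) with hY
  have hY0 : 0 ≤ Y := le_min (abs_nonneg _) (Real.rpow_nonneg hs0.le _)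
  have hsqrt2 : (1 : ℝ) ≤ √2 := by
    rw [show (1 : ℝ) = √1 by simp]
    exact Real.sqrt_le_sqrt (by norm_num)
  set e : ℝ := Y / (√2 * s) with he
  have he0 : 0 ≤ e := by positivity
  change max 0 (1 - (6 + C / β) * E) * (β * e ^ α) ≤ _
  have hYs : Y ≤ s ^ (gam α + η) := min_le_right _ _
  have hpow : s ^ (gam α + η) = s * s ^ (gam α + η - 1) := by
    rw [Real.rpow_sub_one hs0.ne']
    field_simp
  have hes : e ≤ s ^ (gam α + η - 1) := by
    rw [he, div_le_iff₀ (by positivity)]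
    calc Y ≤ s * s ^ (gam α + η - 1) := by rw [← hpow]; exact hYs
      _ ≤ s ^ (gam α + η - 1) * (√2 * s) := by
        have h1 : 0 ≤ s ^ (gam α + η - 1) * s := by positivity
        nlinarith
  have hpE : s ^ (gam α + η - 1) ≤ E := Real.rpow_le_rpow_of_exponent_le hs1 hζ1
  have heE : e ≤ E := hes.trans hpE
  rcases eq_or_lt_of_le hY0 with h0 | hYp
  · have he00 : e = 0 := by rw [he, ← h0, zero_div]
    rw [he00, Real.zero_rpow hα0.ne', mul_zero, mul_zero]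
    exact hqn
  have hep : 0 < e := by positivity
  set t : ℝ := e * (1 - 3 * E) with ht
  have h3E : 0 ≤ 1 - 3 * E := by linarith
  have ht0 : 0 ≤ t := mul_nonneg he0 h3E
  have hte : t ≤ e := by
    rw [ht]
    nlinarith
  have hX0 : 0 < √2 * s + √s + 1 := by positivity
  have hXY : t * ((√2 * s + √s + 1) + Y) ≤ Y := by
    have h1 : √s ≤ s * E := by
      have h2 : √s = s * s ^ (-(1 / 2) : ℝ) := by
        rw [Real.sqrt_eq_rpow]
        nth_rewrite 2 [← Real.rpow_one s]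
        rw [← Real.rpow_add hs0]
        norm_num
      rw [h2]
      exact mul_le_mul_of_nonneg_left
        (Real.rpow_le_rpow_of_exponent_le hs1 (by linarith)) hs0.le
    have h1' : 1 ≤ √s := by
      rw [show (1 : ℝ) = √1 by simp]
      exact Real.sqrt_le_sqrt hs1
    have h2 : Y ≤ s * E := hYs.trans (by rw [hpow]; exact mul_le_mul_of_nonneg_left hpE hs0.le)
    have h3 : (√2 * s + √s + 1) + Y ≤ √2 * s * (1 + 3 * E) := by
      have h4 : s * E ≤ √2 * (s * E) := by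
        have : 0 ≤ s * E := by positivity
        nlinarith
      nlinarith
    have h5 : Y = e * (√2 * s) := by
      rw [he]
      field_simp
    have h6 : t * ((√2 * s + √s + 1) + Y) ≤ t * (√2 * s * (1 + 3 * E)) :=
      mul_le_mul_of_nonneg_left h3 ht0
    have h7 : t * (√2 * s * (1 + 3 * E)) = Y * (1 - 9 * E ^ 2) := by
      rw [ht, h5]
      ring
    have h8 : 0 ≤ Y * (9 * E ^ 2) := by positivity
    nlinarith
  have hθ := Qlu_arg_lo (z := z) hz hX0 (min_le_left _ _) hYp ht0 (by linarith) hXY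
  have h1 := hlow t (Complex.arg z) ht0 (by linarith) (Complex.abs_arg_le_pi z) hθ
  -- the main estimate
  have h2 : e ^ α * (1 - 6 * E) ≤ t ^ α := by
    rw [ht, Real.mul_rpow he0 h3E]
    refine mul_le_mul_of_nonneg_left ?_ (Real.rpow_nonneg he0 _)
    have h3 : (1 - 3 * E) ^ (2 : ℝ) ≤ (1 - 3 * E) ^ α :=
      Real.rpow_le_rpow_of_exponent_ge (by linarith) (by linarith) hα2.le
    rw [show (2 : ℝ) = ((2 : ℕ) : ℝ) by norm_num, Real.rpow_natCast] at h3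
    nlinarith
  have h4 : t ^ 2 ≤ e ^ α * E := by
    have h5 : t ^ 2 ≤ e ^ 2 := pow_le_pow_left₀ ht0 hte 2
    have h6 : e ^ 2 = e ^ α * e ^ (2 - α) := by
      rw [← Real.rpow_add hep, show α + (2 - α) = ((2 : ℕ) : ℝ) by push_cast; ring,
        Real.rpow_natCast]
    have h7 : e ^ (2 - α) ≤ E := by
      refine (Real.rpow_le_rpow he0 hes h2m.le).trans ?_
      rw [← Real.rpow_mul hs0.le]
      exact Real.rpow_le_rpow_of_exponent_le hs1 hζ2
    rw [h6] at h5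
    exact h5.trans (mul_le_mul_of_nonneg_left h7 (Real.rpow_nonneg he0 _))
  have h8 : (1 - (6 + C / β) * E) * (β * e ^ α) ≤ 1 - b (Complex.arg z) := by
    refine le_trans ?_ h1
    have h9 := mul_le_mul_of_nonneg_left h2 hβ.le
    have h10 := mul_le_mul_of_nonneg_left h4 hC
    have h11 : (1 - (6 + C / β) * E) * (β * e ^ α) =
        β * (e ^ α * (1 - 6 * E)) - C * (e ^ α * E) := by
      field_simp
      ring
    rw [h11]
    linarith
  rcases le_total 0 (1 - (6 + C / β) * E) with h9 | h9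
  · rw [max_eq_right h9]
    exact h8
  · rw [max_eq_left h9, zero_mul]
    exact hqn

theorem Qlu_arg_up {z : ℂ} (hz : 0 < z.re) : |Complex.arg z| ≤ |z.im| / z.re := by
  have h1 : |Complex.arg z| < Real.pi / 2 := Complex.abs_arg_lt_pi_div_two_iff.2 (Or.inl hz)
  rcases le_total 0 (Complex.arg z) with h0 | h0
  · rw [abs_of_nonneg h0] at h1 ⊢
    have h2 := Real.le_tan h0 h1
    rw [Complex.tan_arg] at h2
    exact h2.trans (div_le_div_of_nonneg_right (le_abs_self _) hz.le)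
  · rw [abs_of_nonpos h0] at h1 ⊢
    have h2 := Real.le_tan (by linarith : 0 ≤ -Complex.arg z) h1
    rw [Real.tan_neg, Complex.tan_arg, ← neg_div] at h2
    exact h2.trans (div_le_div_of_nonneg_right (neg_le_abs _) hz.le)

theorem qup {b : ℝ → ℝ} {α β : ℝ} (hα : 0 < α) (hα2 : α < 2) (hβ : 0 < β) (h : A12 b α β) :
    ∃ Cq > 0, ∀ s, 1 ≤ s → ∀ z : ℂ, z.re ≤ √2 * s →
      1 - b (Complex.arg z) ≤ c0 α β s z.im + Cq * (c0 α β s z.im * ((√2 * s - z.re) / s) + z.im ^ 2 / s ^ 2 +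
        ((√2 * s - z.re) / s) ^ 4) := by
  obtain ⟨C1, hC1, r1, hr1, hr11, hb⟩ := Qlu_asy h
  have hall : ∀ θ : ℝ, 1 - b θ ≤ β * |θ| ^ α + (C1 + 1 / r1 ^ 2) * θ ^ 2 := by
    intro θ
    have hp : 0 ≤ β * |θ| ^ α := by positivity
    have hsq := sq_nonneg θ
    have hr2 : 0 < 1 / r1 ^ 2 := by positivity
    by_cases hθ : |θ| < r1
    · have h1 := (abs_le.1 (hb θ hθ)).1
      nlinarith
    · have h2 : r1 ^ 2 ≤ θ ^ 2 := by
        rw [← sq_abs θ]
        exact pow_le_pow_left₀ hr1.le (not_lt.1 hθ) 2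
      have h3 : 1 ≤ 1 / r1 ^ 2 * θ ^ 2 := by
        rw [one_div, ← div_eq_inv_mul, le_div_iff₀ (by positivity)]
        linarith
      have h4 := h.nonneg θ
      nlinarith
  set C2 : ℝ := C1 + 1 / r1 ^ 2 with hC2
  have hC2p : 0 < C2 := by positivity
  refine ⟨3 + C2 + 10 ^ 4, by positivity, fun s hs z hz => ?_⟩
  have hs0 : 0 < s := by linarith
  have hmax : max s 1 = s := max_eq_left hs
  have hc0 : c0 α β s z.im = β * (|z.im| / (√2 * s)) ^ α := by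
    unfold c0
    rw [hmax]
  have hc0n : 0 ≤ c0 α β s z.im := by
    rw [hc0]
    positivity
  set d : ℝ := (√2 * s - z.re) / s with hd
  have hd0 : 0 ≤ d := div_nonneg (by linarith) hs0.le
  have hy0 : 0 ≤ z.im ^ 2 / s ^ 2 := by positivity
  have hd4 : 0 ≤ d ^ 4 := by positivity
  have hcd : 0 ≤ c0 α β s z.im * d := mul_nonneg hc0n hd0
  by_cases hdc : d ≤ 1 / 10
  · have hre : √2 * s - z.re = d * s := by
      rw [hd]
      field_simp
    have hsqrt2 : (1.4 : ℝ) ≤ √2 := by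
      apply Real.le_sqrt_of_sq_le
      norm_num
    have hx : s ≤ z.re := by nlinarith
    have hxp : 0 < z.re := by linarith
    have h1 := Qlu_arg_up hxp
    have h2 : |z.im| / z.re ≤ |z.im| / (√2 * s) * (1 + d) := by
      rw [div_mul_eq_mul_div, div_le_div_iff₀ hxp (by positivity)]
      have h3 : √2 * s ≤ (1 + d) * z.re := by nlinarith
      have h4 := mul_le_mul_of_nonneg_left h3 (abs_nonneg z.im)
      nlinarith
    have h3 : |Complex.arg z| ^ α ≤ (|z.im| / (√2 * s)) ^ α * (1 + 3 * d) := by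
      calc |Complex.arg z| ^ α ≤ (|z.im| / (√2 * s) * (1 + d)) ^ α :=
            Real.rpow_le_rpow (abs_nonneg _) (h1.trans h2) hα.le
        _ = (|z.im| / (√2 * s)) ^ α * (1 + d) ^ α := Real.mul_rpow (by positivity) (by positivity)
        _ ≤ (|z.im| / (√2 * s)) ^ α * (1 + 3 * d) := by
          refine mul_le_mul_of_nonneg_left ?_ (by positivity)
          have h4 : (1 + d) ^ α ≤ (1 + d) ^ (2 : ℝ) :=
            Real.rpow_le_rpow_of_exponent_le (by linarith) hα2.le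
          rw [show (2 : ℝ) = ((2 : ℕ) : ℝ) by norm_num, Real.rpow_natCast] at h4
          nlinarith
    have h4 : (Complex.arg z) ^ 2 ≤ z.im ^ 2 / s ^ 2 := by
      have h5 : |Complex.arg z| ≤ |z.im| / s :=
        h1.trans (div_le_div_of_nonneg_left (abs_nonneg _) hs0 hx)
      have h6 := pow_le_pow_left₀ (abs_nonneg _) h5 2
      rwa [sq_abs, div_pow, sq_abs] at h6
    have h5 := hall (Complex.arg z)
    have h6 := mul_le_mul_of_nonneg_left h3 hβ.le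
    have h7 := mul_le_mul_of_nonneg_left h4 hC2p.le
    have h8 : β * ((|z.im| / (√2 * s)) ^ α * (1 + 3 * d)) =
        c0 α β s z.im + 3 * (c0 α β s z.im * d) := by
      rw [hc0]
      ring
    rw [h8] at h6
    nlinarith
  · have h1 : 1 / 10 ≤ d := (not_le.1 hdc).le
    have h2 : (1 / 10) ^ 4 ≤ d ^ 4 := pow_le_pow_left₀ (by norm_num) h1 4
    have h3 := h.nonneg (Complex.arg z)
    have h4 : 1 ≤ 10 ^ 4 * d ^ 4 := by
      norm_num at h2
      linarith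
    nlinarith

end Pool.H50.BB
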