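import Pool.Agent.H50.BB.Brf

/-!
# Row Bmk: two-time formula for the killed motion; maximal inequality   (about 130 lines)

`kk_two` (`0 < s < T`): `w ∈ Blw D 0 T` iff `w ∈ Blw D 0 s` and `shift s w ∈ Blw (D - w s) 0 (T-s)` (continuity is not needed: split `[0,T]` at `s`; `w(s + r) = w s + (shift s w) r`), and
`D - w T = (D - w s) - (shift s w)(T - s)`.  By `lintegral_stop_shift` (H4/BM/Wiener) the left side is
`∫⁻ w in Blw D 0 s, g (D - w s) * (∫⁻ w' in Blw (D - w s) 0 (T-s), f ((D - w s) - w' (T-s)) ∂Wm) ∂Wm`, inner integral by `refl_lint` (`D - w s > 0` on the event), outer integral by `refl_lint`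
with the function `d1 ↦ g d1 * ∫⁻ d2 ...` (measurable: `Measurable.lintegral_prod_right'`; `kk` is jointly measurable).
`kk_three`: the three-time version is not needed.
`sup_tail`: `Wm {∃ s ∈ [0,T], R ≤ w s} = 1 - Wm (Blw R 0 T) = 1 - ∫_{d>0} kk T R d dd = ∫_{|x| ≥ R} gd T x dx ≤ 2 exp (-R²/(2T))`
(`∫_{d>0} gd T (d-R) - gd T (d+R) = ∫_{-R}^{R} gd T`; tail bound: `∫_R^∞ gd T ≤ exp(-R²/(2T))`, e.g. Chernoff with the Gaussian mgf), and the same for `-w` (`neg_map`); so
`Wm {w | ∃ s ∈ Icc 0 T, R ≤ |w s|} ≤ 4 exp (-R²/(2T))` for `R > 0`.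
-/

open MeasureTheory ProbabilityTheory Set Filter Topology
open scoped NNReal ENNReal

namespace Pool.H50.BB

open Pool.Agent.H4.BM

open Pth

theorem Bmk_gd_meas (v : ℝ) : Measurable (gd v) := by
  unfold gd
  fun_prop

theorem Bmk_kk_meas (T : ℝ) : Measurable (fun p : ℝ × ℝ => kk T p.1 p.2) := by
  unfold kk
  exact ((Bmk_gd_meas T).comp (measurable_snd.sub measurable_fst)).sub
    ((Bmk_gd_meas T).comp (measurable_snd.add measurable_fst))

theorem Bmk_cat {s T D : ℝ} (hs : 0 < s) (hsT : s < T) (A B : Pth) :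
    cat ⟨s, hs.le⟩ A B ∈ Blw D 0 T ↔ A ∈ Blw D 0 s ∧ B ∈ Blw (D - A s) 0 (T - s) := by
  unfold Blw
  simp only [mem_setOf_eq, zero_mul, add_zero, mem_Icc]
  constructor
  · intro h
    constructor
    · rintro r ⟨h0, h1⟩
      have h2 := h r ⟨h0, h1.trans hsT.le⟩
      rwa [cat_apply_of_le A B (c := ⟨s, hs.le⟩) h1] at h2
    · rintro r ⟨h0, h1⟩
      have h2 := h (s + r) ⟨by linarith, by linarith⟩
      rw [cat_apply_of_ge A B (c := ⟨s, hs.le⟩) (by show s ≤ s + r; linarith)] at h2
      have h3 : A s + B (s + r - s) < D := h2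
      rw [add_sub_cancel_left] at h3
      linarith
  · rintro ⟨h1, h2⟩ r ⟨h0, hr⟩
    rcases le_total r s with h | h
    · rw [cat_apply_of_le A B (c := ⟨s, hs.le⟩) h]
      exact h1 r ⟨h0, h⟩
    · rw [cat_apply_of_ge A B (c := ⟨s, hs.le⟩) h]
      have h3 := h2 (r - s) ⟨by linarith, by linarith⟩
      show A s + B (r - s) < D
      linarith

theorem kk_two {s T D : ℝ} (hs : 0 < s) (hsT : s < T) (hD : 0 < D) {f g : ℝ → ℝ≥0∞} (hf : Measurable f)
    (hg : Measurable g) :
    ∫⁻ w in Blw D 0 T, g (D - w s) * f (D - w T) ∂Wm =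
      ∫⁻ d1 in Ioi (0 : ℝ), g d1 * ENNReal.ofReal (kk s D d1) *
        (∫⁻ d2 in Ioi (0 : ℝ), f d2 * ENNReal.ofReal (kk (T - s) d1 d2)) := by
  have hΦ : Measurable (fun d1 : ℝ => g d1 *
      (∫⁻ d2 in Ioi (0 : ℝ), f d2 * ENNReal.ofReal (kk (T - s) d1 d2))) := by
    refine hg.mul ?_
    have h1 : Measurable (fun p : ℝ × ℝ => f p.2 * ENNReal.ofReal (kk (T - s) p.1 p.2)) :=
      (hf.comp measurable_snd).mul (Bmk_kk_meas (T - s)).ennreal_ofReal
    exact h1.lintegral_prod_right' (ν := volume.restrict (Ioi (0 : ℝ)))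
  have hH : Measurable ((Blw D 0 T).indicator (fun w : Pth => g (D - w s) * f (D - w T))) := by
    refine Measurable.indicator ?_ (blw_meas D 0 T)
    exact (hg.comp (measurable_const.sub (measurable_apply s))).mul
      (hf.comp (measurable_const.sub (measurable_apply T)))
  rw [← lintegral_indicator (blw_meas D 0 T), ← lintegral_cat Wm_isW ⟨s, hs.le⟩ hH]
  have hin : ∀ A : Pth, ∫⁻ B, (Blw D 0 T).indicator
      (fun w : Pth => g (D - w s) * f (D - w T)) (cat ⟨s, hs.le⟩ A B) ∂Wm =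
      (Blw D 0 s).indicator (fun w : Pth => g (D - w s) *
      (∫⁻ d2 in Ioi (0 : ℝ), f d2 * ENNReal.ofReal (kk (T - s) (D - w s) d2))) A := by
    intro A
    by_cases hA : A ∈ Blw D 0 s
    · rw [indicator_of_mem hA]
      have hDs : 0 < D - A s := by
        have h1 := hA s ⟨hs.le, le_rfl⟩
        rw [zero_mul, add_zero] at h1
        linarith
      have e1 : ∀ B : Pth, (Blw D 0 T).indicator (fun w : Pth => g (D - w s) * f (D - w T))
          (cat ⟨s, hs.le⟩ A B) = (Blw (D - A s) 0 (T - s)).indicator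
            (fun B : Pth => g (D - A s) * f (D - A s - B (T - s))) B := by
        intro B
        have h2 := Bmk_cat (D := D) hs hsT A B
        have e2 : cat ⟨s, hs.le⟩ A B s = A s := cat_apply_of_le A B (c := ⟨s, hs.le⟩) le_rfl
        have e3 : cat ⟨s, hs.le⟩ A B T = A s + B (T - s) :=
          cat_apply_of_ge A B (c := ⟨s, hs.le⟩) hsT.le
        by_cases hB : B ∈ Blw (D - A s) 0 (T - s)
        · rw [indicator_of_mem hB, indicator_of_mem (h2.2 ⟨hA, hB⟩), e2, e3]
          congr 2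
          ring
        · rw [indicator_of_notMem hB, indicator_of_notMem (fun h => hB (h2.1 h).2)]
      have hmf : Measurable (fun B : Pth => f (D - A s - B (T - s))) :=
        hf.comp (measurable_const.sub (measurable_apply (T - s)))
      rw [lintegral_congr e1, lintegral_indicator (blw_meas _ _ _), lintegral_const_mul _ hmf,
        refl_lint (by linarith) hDs hf]
    · rw [indicator_of_notMem hA]
      have e1 : ∀ B : Pth, (Blw D 0 T).indicator (fun w : Pth => g (D - w s) * f (D - w T))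
          (cat ⟨s, hs.le⟩ A B) = 0 := by
        intro B
        exact indicator_of_notMem (fun h => hA ((Bmk_cat hs hsT A B).1 h).1) _
      rw [lintegral_congr e1, lintegral_zero]
  rw [lintegral_congr hin, lintegral_indicator (blw_meas D 0 s)]
  have h3 := refl_lint hs hD hΦ
  rw [h3]
  refine lintegral_congr fun d1 => ?_
  ring

theorem Bmk_gd_le {T a b c : ℝ} (hT : 0 < T) (h : b ^ 2 + c ^ 2 ≤ a ^ 2) :
    gd T a ≤ Real.exp (-c ^ 2 / (2 * T)) * gd T b := by
  unfold gd
  have h1 : Real.exp (-a ^ 2 / (2 * T)) ≤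
      Real.exp (-c ^ 2 / (2 * T)) * Real.exp (-b ^ 2 / (2 * T)) := by
    rw [← Real.exp_add, Real.exp_le_exp, ← add_div]
    exact div_le_div_of_nonneg_right (by linarith) (by positivity)
  have h2 : 0 ≤ (√(2 * Real.pi * T))⁻¹ := by positivity
  calc (√(2 * Real.pi * T))⁻¹ * Real.exp (-a ^ 2 / (2 * T)) ≤ (√(2 * Real.pi * T))⁻¹ *
        (Real.exp (-c ^ 2 / (2 * T)) * Real.exp (-b ^ 2 / (2 * T))) :=
        mul_le_mul_of_nonneg_left h1 h2
    _ = _ := by ring

theorem Bmk_one {T : ℝ} (hT : 0 < T) : ∫⁻ x, ENNReal.ofReal (gd T x) = 1 := by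
  have h := marg hT (f := fun _ => 1) measurable_const
  simp only [one_mul, lintegral_one, measure_univ] at h
  exact h.symm

theorem Bmk_blw {T R : ℝ} (hT : 0 < T) (hR : 0 < R) :
    Wm (Blw R 0 T)ᶜ ≤ ENNReal.ofReal (2 * Real.exp (-R ^ 2 / (2 * T))) := by
  have hm := Bmk_gd_meas T
  have he := (Real.exp_pos (-R ^ 2 / (2 * T))).le
  have hB : Wm (Blw R 0 T) = ∫⁻ d in Ioi (0 : ℝ), ENNReal.ofReal (kk T R d) := by
    have h := refl_lint hT hR (f := fun _ => 1) measurable_const
    simp only [one_mul, lintegral_one, Measure.restrict_apply MeasurableSet.univ, univ_inter] at h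
    exact h
  have h1 : ∫⁻ x in Ioi (-R), ENNReal.ofReal (gd T x) =
      Wm (Blw R 0 T) + ∫⁻ d in Ioi (0 : ℝ), ENNReal.ofReal (gd T (d + R)) := by
    have e1 : ∫⁻ x in Ioi (-R), ENNReal.ofReal (gd T x) =
        ∫⁻ d in Ioi (0 : ℝ), ENNReal.ofReal (gd T (d - R)) := by
      rw [← lintegral_indicator measurableSet_Ioi, ← lintegral_indicator measurableSet_Ioi,
        ← lintegral_sub_right_eq_self _ R]
      refine lintegral_congr fun d => ?_
      by_cases hd : 0 < d
      · rw [indicator_of_mem (show d - R ∈ Ioi (-R) from by rw [mem_Ioi]; linarith),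
          indicator_of_mem (show d ∈ Ioi (0 : ℝ) from hd)]
      · rw [indicator_of_notMem (show d - R ∉ Ioi (-R) from by rw [mem_Ioi]; linarith),
          indicator_of_notMem (show d ∉ Ioi (0 : ℝ) from hd)]
    have hk : Measurable (fun d => ENNReal.ofReal (kk T R d)) :=
      ((Bmk_kk_meas T).comp (measurable_const.prodMk measurable_id)).ennreal_ofReal
    rw [e1, hB, ← lintegral_add_left hk]
    refine setLIntegral_congr_fun measurableSet_Ioi fun d hd => ?_
    have hd' : 0 < d := hd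
    show ENNReal.ofReal (gd T (d - R)) =
      ENNReal.ofReal (kk T R d) + ENNReal.ofReal (gd T (d + R))
    rw [← ENNReal.ofReal_add (kk_nonneg hT hR.le hd'.le) (gd_nonneg _ _)]
    congr 1
    unfold kk
    ring
  have b1 : ∫⁻ d in Ioi (0 : ℝ), ENNReal.ofReal (gd T (d + R)) ≤
      ENNReal.ofReal (Real.exp (-R ^ 2 / (2 * T))) := by
    calc ∫⁻ d in Ioi (0 : ℝ), ENNReal.ofReal (gd T (d + R)) ≤
          ∫⁻ d in Ioi (0 : ℝ), ENNReal.ofReal (Real.exp (-R ^ 2 / (2 * T))) *
            ENNReal.ofReal (gd T d) := by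
          refine setLIntegral_mono (measurable_const.mul hm.ennreal_ofReal) fun d hd => ?_
          have hd' : 0 < d := hd
          rw [← ENNReal.ofReal_mul he]
          refine ENNReal.ofReal_le_ofReal (Bmk_gd_le hT ?_)
          nlinarith
      _ ≤ ∫⁻ d, ENNReal.ofReal (Real.exp (-R ^ 2 / (2 * T))) * ENNReal.ofReal (gd T d) :=
          setLIntegral_le_lintegral _ _
      _ = ENNReal.ofReal (Real.exp (-R ^ 2 / (2 * T))) := by
          rw [lintegral_const_mul _ hm.ennreal_ofReal, Bmk_one hT, mul_one]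
  have b2 : ∫⁻ x in Iic (-R), ENNReal.ofReal (gd T x) ≤
      ENNReal.ofReal (Real.exp (-R ^ 2 / (2 * T))) := by
    have hm' : Measurable (fun x => ENNReal.ofReal (gd T (x + R))) :=
      (hm.comp (measurable_id.add_const R)).ennreal_ofReal
    calc ∫⁻ x in Iic (-R), ENNReal.ofReal (gd T x) ≤
          ∫⁻ x in Iic (-R), ENNReal.ofReal (Real.exp (-R ^ 2 / (2 * T))) *
            ENNReal.ofReal (gd T (x + R)) := by
          refine setLIntegral_mono (measurable_const.mul hm') fun x hx => ?_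
          have hx' : x ≤ -R := hx
          rw [← ENNReal.ofReal_mul he]
          refine ENNReal.ofReal_le_ofReal (Bmk_gd_le hT ?_)
          nlinarith
      _ ≤ ∫⁻ x, ENNReal.ofReal (Real.exp (-R ^ 2 / (2 * T))) * ENNReal.ofReal (gd T (x + R)) :=
          setLIntegral_le_lintegral _ _
      _ = ENNReal.ofReal (Real.exp (-R ^ 2 / (2 * T))) := by
          rw [lintegral_const_mul _ hm',
            lintegral_add_right_eq_self (fun x => ENNReal.ofReal (gd T x)) R, Bmk_one hT, mul_one]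
  have h2 : (1 : ℝ≥0∞) = Wm (Blw R 0 T) + (∫⁻ d in Ioi (0 : ℝ), ENNReal.ofReal (gd T (d + R))) +
      ∫⁻ x in Iic (-R), ENNReal.ofReal (gd T x) := by
    rw [← h1, ← Bmk_one hT]
    have h3 := lintegral_add_compl (μ := volume) (fun x => ENNReal.ofReal (gd T x))
      (measurableSet_Ioi (a := -R))
    rw [compl_Ioi] at h3
    exact h3.symm
  rw [measure_compl (blw_meas R 0 T) (measure_ne_top _ _), measure_univ, tsub_le_iff_left]
  rw [h2, add_assoc]
  refine add_le_add_right ?_ _
  refine (add_le_add b1 b2).trans (le_of_eq ?_)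
  rw [← ENNReal.ofReal_add he he]
  congr 1
  ring

theorem sup_tail {T R : ℝ} (hT : 0 < T) (hR : 0 < R) :
    Wm {w | ∃ s ∈ Icc (0 : ℝ) T, R ≤ |w s|} ≤ ENNReal.ofReal (4 * Real.exp (-R ^ 2 / (2 * T))) := by
  have hsub : {w : Pth | ∃ s ∈ Icc (0 : ℝ) T, R ≤ |w s|} ⊆
      (Blw R 0 T)ᶜ ∪ negP ⁻¹' (Blw R 0 T)ᶜ := by
    rintro w ⟨s, hs, hw⟩
    rcases le_abs.1 hw with h | h
    · left
      intro hb
      have := hb s hs
      rw [zero_mul, add_zero] at this
      linarith
    · right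
      intro hb
      have h1 := hb s hs
      rw [zero_mul, add_zero] at h1
      have h2 : -w s < R := h1
      linarith
  have hmn : Measurable negP := measurable_of_eval fun t => (measurable_apply t).neg
  have h1 := Bmk_blw hT hR
  have h2 : Wm (negP ⁻¹' (Blw R 0 T)ᶜ) = Wm (Blw R 0 T)ᶜ := by
    rw [← Measure.map_apply hmn (blw_meas R 0 T).compl, neg_map]
  refine (measure_mono hsub).trans ((measure_union_le _ _).trans ?_)
  rw [h2]
  refine (add_le_add h1 h1).trans (le_of_eq ?_)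
  have he := (Real.exp_pos (-R ^ 2 / (2 * T))).le
  rw [← ENNReal.ofReal_add (by positivity) (by positivity)]
  congr 1
  ring

end Pool.H50.BB
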