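import Pool.Agent.H50.BB.Gmk
import Pool.Agent.H50.BB.Win
import Pool.Agent.H50.BB.Bmk

/-!
# Row Y1f: short times and the far region   (about 200 lines)

`g = gg α`, `γ = gam α`, `F z = 1 + p z² t^{-2γ}`, `0 ≤ p ≤ 1`.
`y1_short` (`t ≥ r ≥ s0`, `t^g - r^g ≤ 4 g κ²`): `t ≤ 2r` and `t - r ≤ C r^{2γ}` (mean value theorem).  `Gm ≤ E (1 + p (y + w(t-r))² t^{-2γ}) ≤ 1 + p (y² + (t-r)) t^{-2γ} ≤ C (1 + p y² r^{-2γ})`
(weight `≤ 1`, `E w = 0`, `E w² = t - r`), and `NN r t ≥ exp (-√2 (kap t - kap r)) = exp (-lam (t^g - r^g)/(gκ²)) ≥ e^{-4 lam}`.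
`y1_far` (`x1^g - r^g = g κ² H`, `1/2 ≤ H ≤ 2`, `|y| ≥ r^{γ+g/2}`, `r ≥ s0(ε)`): `Δ = x1 - r ∈ [c r^{2γ}, C r^{2γ}]`, `x1 ≤ 2r`.  Let `m = min (g/2) η > 0`.
On `{∀ s ∈ [0,Δ], |w s| < |y|/2}` all positions satisfy `|y + w s| ≥ |y|/2 ≥ r^{γ+m}/2`, so for `s ∈ [r,x1]`: `min |y+w| s^{γ+η} ≥ r^{γ+m}/2`,
`cfl s (y+w) ≥ (1/2) β (r^{γ+m}/(2√2 · 2 r))^α ≥ c r^{α(γ-1)+αm} = c r^{-2γ+αm}` (`α(1-γ) = 2γ`), and `∫_r^{x1} cfl ≥ c r^{αm}`.  The complement has probability `≤ 4 exp (-y²/(8Δ)) ≤ 4 exp (-c r^g)` (`sup_tail`).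
Cauchy-Schwarz: `E[e^{-∫cfl}(1 + p Y² x1^{-2γ})] ≤ (E e^{-2∫cfl})^{1/2} (E (1+pY²x1^{-2γ})²)^{1/2} ≤ (exp(-2c r^{αm}) + 4 exp (-c r^g))^{1/2} C (1 + p y² r^{-2γ})`
(`E (y+w)^4 ≤ 8 y^4 + 8·3Δ²`), and the first factor is `≤ ε/C` for `r ≥ s0`.
-/

open MeasureTheory ProbabilityTheory Set Filter Topology
open scoped NNReal ENNReal

namespace Pool.H50.BB

open Pool.Agent.H4.BM

theorem Y1f_mgf {T : ℝ} (hT : 0 < T) (θ : ℝ) :
    ∫⁻ w, ENNReal.ofReal (Real.exp (θ * w T)) ∂Wm = ENNReal.ofReal (Real.exp (T * θ ^ 2 / 2)) := by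
  have h1 := (IsPreBrownianReal.hasLaw_eval Wm_isW T.toNNReal).map_eq
  have hc : ((T.toNNReal : ℝ≥0) : ℝ) = T := Real.coe_toNNReal T hT.le
  have h2 : Wm.map (fun w : Pth => w T) = gaussianReal 0 T.toNNReal := by
    rw [← h1]
    simp only [hc]
  have h3 : ∫⁻ w, ENNReal.ofReal (Real.exp (θ * w T)) ∂Wm =
      ∫⁻ x, ENNReal.ofReal (Real.exp (θ * x)) ∂(Wm.map (fun w : Pth => w T)) := by
    rw [lintegral_map (by fun_prop) (Pth.measurable_apply T)]
  rw [h3, h2, ← ofReal_integral_eq_lintegral_ofReal (integrable_exp_mul_gaussianReal θ)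
    (Eventually.of_forall fun x => (Real.exp_pos _).le)]
  congr 1
  have h4 := congrFun (mgf_fun_id_gaussianReal (μ := 0) (v := T.toNNReal)) θ
  unfold mgf at h4
  rw [h4, hc, zero_mul, zero_add]

theorem Y1f_pow (x : ℝ) (n : ℕ) :
    |x| ^ n ≤ (n.factorial : ℝ) * (Real.exp x + Real.exp (-x)) := by
  have h1 := Real.pow_div_factorial_le_exp |x| (abs_nonneg x) n
  rw [div_le_iff₀ (by positivity)] at h1
  have h2 : Real.exp |x| ≤ Real.exp x + Real.exp (-x) := by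
    rcases abs_cases x with ⟨h, -⟩ | ⟨h, -⟩
    · rw [h]; linarith [Real.exp_pos (-x)]
    · rw [h]; linarith [Real.exp_pos x]
  calc |x| ^ n ≤ Real.exp |x| * (n.factorial : ℝ) := h1
    _ ≤ (Real.exp x + Real.exp (-x)) * (n.factorial : ℝ) :=
        mul_le_mul_of_nonneg_right h2 (by positivity)
    _ = _ := mul_comm _ _

theorem Y1f_half : Real.exp (1 / 2) ≤ 2 := by
  have h : (1 / 2 : ℝ) ≤ Real.log 2 := by linarith [Real.log_two_gt_d9]
  calc Real.exp (1 / 2) ≤ Real.exp (Real.log 2) := Real.exp_le_exp.2 h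
    _ = 2 := Real.exp_log two_pos

theorem Y1f_mom {T : ℝ} (hT : 0 < T) (n : ℕ) :
    ∫⁻ w, ENNReal.ofReal (|w T| ^ n) ∂Wm ≤
      ENNReal.ofReal (4 * (n.factorial : ℝ) * (√T) ^ n) := by
  have hs : 0 < √T := Real.sqrt_pos.2 hT
  have hsq : √T ^ 2 = T := Real.sq_sqrt hT.le
  have hpt : ∀ w : Pth, ENNReal.ofReal (|w T| ^ n) ≤
      ENNReal.ofReal ((√T) ^ n * (n.factorial : ℝ)) *
        (ENNReal.ofReal (Real.exp ((√T)⁻¹ * w T)) + ENNReal.ofReal (Real.exp (-(√T)⁻¹ * w T))) := by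
    intro w
    rw [← ENNReal.ofReal_add (Real.exp_pos _).le (Real.exp_pos _).le,
      ← ENNReal.ofReal_mul (by positivity)]
    apply ENNReal.ofReal_le_ofReal
    have h1 := Y1f_pow ((√T)⁻¹ * w T) n
    have h2 : |w T| = √T * |(√T)⁻¹ * w T| := by
      rw [abs_mul, abs_inv, abs_of_pos hs, ← mul_assoc, mul_inv_cancel₀ hs.ne', one_mul]
    rw [h2, mul_pow, mul_assoc, neg_mul]
    exact mul_le_mul_of_nonneg_left h1 (by positivity)
  refine (lintegral_mono hpt).trans ?_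
  have hm : Measurable fun w : Pth => ENNReal.ofReal (Real.exp ((√T)⁻¹ * w T)) :=
    (Real.measurable_exp.comp ((Pth.measurable_apply T).const_mul _)).ennreal_ofReal
  have hm2 : Measurable fun w : Pth => ENNReal.ofReal (Real.exp (-(√T)⁻¹ * w T)) :=
    (Real.measurable_exp.comp ((Pth.measurable_apply T).const_mul _)).ennreal_ofReal
  have hm3 : Measurable fun w : Pth => ENNReal.ofReal (Real.exp ((√T)⁻¹ * w T)) +
      ENNReal.ofReal (Real.exp (-(√T)⁻¹ * w T)) := hm.add hm2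
  rw [lintegral_const_mul _ hm3, lintegral_add_left hm, Y1f_mgf hT, Y1f_mgf hT,
    ← ENNReal.ofReal_add (Real.exp_pos _).le (Real.exp_pos _).le,
    ← ENNReal.ofReal_mul (by positivity)]
  apply ENNReal.ofReal_le_ofReal
  have e1 : T * (√T)⁻¹ ^ 2 / 2 = 1 / 2 := by
    rw [inv_pow, hsq, mul_inv_cancel₀ hT.ne']
  have e2 : T * (-(√T)⁻¹) ^ 2 / 2 = 1 / 2 := by
    rw [neg_sq, e1]
  rw [e1, e2]
  have h5 := Y1f_half
  have h6 : 0 ≤ (√T) ^ n * (n.factorial : ℝ) := by positivity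
  have h7 := mul_le_mul_of_nonneg_left h5 h6
  linarith

theorem Y1f_poly {T : ℝ} (hT : 0 ≤ T) {a0 a2 a4 : ℝ} (h0 : 0 ≤ a0) (h2 : 0 ≤ a2) (h4 : 0 ≤ a4) :
    ∫⁻ w : Pth, ENNReal.ofReal (a0 + a2 * w T ^ 2 + a4 * w T ^ 4) ∂Wm ≤
      ENNReal.ofReal (a0 + 8 * a2 * T + 96 * a4 * T ^ 2) := by
  rcases hT.eq_or_lt with hT0 | hT0
  · subst hT0
    have h : ∀ w : Pth, w 0 = 0 := fun w => Pth.zero w
    simp [h]
  · have m2 := Y1f_mom hT0 2
    have m4 := Y1f_mom hT0 4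
    have hsq : √T ^ 2 = T := Real.sq_sqrt hT0.le
    have hs4 : √T ^ 4 = T ^ 2 := by
      calc √T ^ 4 = (√T ^ 2) ^ 2 := by ring
        _ = T ^ 2 := by rw [hsq]
    have f2 : ((Nat.factorial 2 : ℕ) : ℝ) = 2 := by norm_num [Nat.factorial]
    have f4 : ((Nat.factorial 4 : ℕ) : ℝ) = 24 := by norm_num [Nat.factorial]
    rw [hsq, f2] at m2
    rw [hs4, f4] at m4
    have hms : ∀ n : ℕ, Measurable fun w : Pth => ENNReal.ofReal (|w T| ^ n) := by
      intro n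
      have h1 : Measurable fun w : Pth => |w T| := (Pth.measurable_apply T).norm
      exact (h1.pow_const n).ennreal_ofReal
    have hpt : ∀ w : Pth, ENNReal.ofReal (a0 + a2 * w T ^ 2 + a4 * w T ^ 4) =
        ENNReal.ofReal a0 + ENNReal.ofReal a2 * ENNReal.ofReal (|w T| ^ 2) +
          ENNReal.ofReal a4 * ENNReal.ofReal (|w T| ^ 4) := by
      intro w
      have e4 : |w T| ^ 4 = w T ^ 4 := by
        have : |w T| ^ 4 = (|w T| ^ 2) ^ 2 := by ring
        rw [this, sq_abs]; ring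
      rw [e4, sq_abs, ← ENNReal.ofReal_mul h2, ← ENNReal.ofReal_mul h4,
        ← ENNReal.ofReal_add h0 (by positivity), ← ENNReal.ofReal_add (by positivity) (by positivity)]
    have hm4 : Measurable fun w : Pth => ENNReal.ofReal a0 +
        ENNReal.ofReal a2 * ENNReal.ofReal (|w T| ^ 2) :=
      measurable_const.add ((hms 2).const_mul _)
    rw [lintegral_congr hpt, lintegral_add_left hm4,
      lintegral_add_left measurable_const, lintegral_const, measure_univ, mul_one,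
      lintegral_const_mul _ (hms 2), lintegral_const_mul _ (hms 4)]
    calc ENNReal.ofReal a0 + ENNReal.ofReal a2 * ∫⁻ w, ENNReal.ofReal (|w T| ^ 2) ∂Wm +
          ENNReal.ofReal a4 * ∫⁻ w, ENNReal.ofReal (|w T| ^ 4) ∂Wm
        ≤ ENNReal.ofReal a0 + ENNReal.ofReal a2 * ENNReal.ofReal (4 * 2 * T) +
          ENNReal.ofReal a4 * ENNReal.ofReal (4 * 24 * T ^ 2) := by
          gcongr
      _ = ENNReal.ofReal (a0 + 8 * a2 * T + 96 * a4 * T ^ 2) := by
          rw [← ENNReal.ofReal_mul h2, ← ENNReal.ofReal_mul h4,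
            ← ENNReal.ofReal_add h0 (by positivity),
            ← ENNReal.ofReal_add (by positivity) (by positivity)]
          congr 1
          ring

theorem Y1f_sq (a b : ℝ) : (a + b) ^ 2 ≤ 2 * a ^ 2 + 2 * b ^ 2 := by
  nlinarith [sq_nonneg (a - b)]

theorem Y1f_par {α : ℝ} (hα : 0 < α) (hα2 : α < 2) : 0 < gg α ∧ gg α < 1 ∧ 0 < gam α ∧
    gg α - 1 = -(2 * gam α) ∧ 2 * gam α ≤ 1 ∧ α * (gam α - 1) = -(2 * gam α) := by
  unfold gg gam
  have h : 0 < 2 + α := by linarith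
  refine ⟨by apply div_pos <;> linarith, ?_, by positivity, ?_, ?_, ?_⟩
  · rw [div_lt_one h]; linarith
  · field_simp; ring
  · rw [← mul_div_assoc, div_le_one h]; linarith
  · field_simp; ring

/-- tangent bounds for the concave power -/
theorem Y1f_tan {g r x : ℝ} (hg0 : 0 < g) (hg1 : g < 1) (hr : 0 < r) (hx : r ≤ x) :
    g * x ^ (g - 1) * (x - r) ≤ x ^ g - r ^ g ∧ x ^ g - r ^ g ≤ g * r ^ (g - 1) * (x - r) := by
  have hx0 : 0 < x := hr.trans_le hx
  constructor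
  · have h1 := rpow_one_add_le_one_add_mul_self (s := -((x - r) / x)) (by
      rw [neg_le_neg_iff, div_le_one hx0]; linarith) hg0.le hg1.le
    have e1 : 1 + -((x - r) / x) = r / x := by field_simp; ring
    rw [e1, Real.div_rpow hr.le hx0.le, div_le_iff₀ (Real.rpow_pos_of_pos hx0 g)] at h1
    have e2 : x ^ (g - 1) = x ^ g / x := by rw [Real.rpow_sub_one hx0.ne']
    rw [e2]
    have e3 : (1 + g * -((x - r) / x)) * x ^ g = x ^ g - g * (x ^ g / x) * (x - r) := by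
      ring
    rw [e3] at h1
    linarith
  · have h1 := rpow_one_add_le_one_add_mul_self (s := (x - r) / r) (by
      have : 0 ≤ (x - r) / r := div_nonneg (by linarith) hr.le
      linarith) hg0.le hg1.le
    have e1 : 1 + (x - r) / r = x / r := by field_simp; ring
    rw [e1, Real.div_rpow hx0.le hr.le, div_le_iff₀ (Real.rpow_pos_of_pos hr g)] at h1
    have e2 : r ^ (g - 1) = r ^ g / r := by rw [Real.rpow_sub_one hr.ne']
    rw [e2]
    have e3 : (1 + g * ((x - r) / r)) * r ^ g = r ^ g + g * (r ^ g / r) * (x - r) := by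
      ring
    rw [e3] at h1
    linarith

theorem Y1f_Gm_le {α β : ℝ} (hβ : 0 ≤ β) (Cf ζ η : ℝ) {r t : ℝ} (hrt : r ≤ t)
    (f : ℝ → ℝ≥0∞) (y : ℝ) :
    Gm (cfl α β Cf ζ η) r t f y ≤ ∫⁻ w : Pth, f (y + w (t - r)) ∂Wm := by
  unfold Gm
  refine lintegral_mono fun w => ?_
  have h1 : 0 ≤ ∫ s in r..t, cfl α β Cf ζ η s (y + w (s - r)) :=
    intervalIntegral.integral_nonneg hrt fun s _ => cfl_nonneg hβ _ _ _ _ _
  have h2 : ENNReal.ofReal (Real.exp (-∫ s in r..t, cfl α β Cf ζ η s (y + w (s - r)))) ≤ 1 := by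
    rw [ENNReal.ofReal_le_one, Real.exp_le_one_iff]
    linarith
  calc _ ≤ 1 * f (y + w (t - r)) := mul_le_mul_left h2 _
    _ = _ := one_mul _

theorem y1_short {α β lam : ℝ} (hα : 0 < α) (hα2 : α < 2) (hβ : 0 < β) (hlam : 0 < lam)
    (Cf ζ η : ℝ) :
    ∃ s0 ≥ (1 : ℝ), ∃ C1 > 0, ∀ p : ℝ, 0 ≤ p → p ≤ 1 → ∀ r t : ℝ, s0 ≤ r → r ≤ t →
      t ^ gg α - r ^ gg α ≤ 4 * gg α * kb α β ^ 2 → ∀ y,
        Gm (cfl α β Cf ζ η) r t (fun z => ENNReal.ofReal (1 + p * (z ^ 2 * t ^ (-2 * gam α)))) y ≤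
          ENNReal.ofReal (C1 * (1 + p * (y ^ 2 * r ^ (-2 * gam α))) * NN α β lam r t) := by
  obtain ⟨hg0, hg1, hγ0, hg, hγ1, hαγ⟩ := Y1f_par hα hα2
  have hκ : 0 < kb α β := kb_pos hβ
  refine ⟨1, le_rfl, (2 + 64 * kb α β ^ 2) * Real.exp (4 * lam), by positivity, ?_⟩
  intro p hp0 hp1 r t hr hrt hd y
  have hr0 : 0 < r := by linarith
  have ht0 : 0 < t := by linarith
  -- the normalisation
  have hN : Real.exp (-(4 * lam)) ≤ NN α β lam r t := by
    unfold NN kap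
    have h1 : 1 ≤ (t / r) ^ (gam α / 2) :=
      Real.one_le_rpow ((one_le_div hr0).2 hrt) (by positivity)
    have h2 : -(4 * lam) ≤ -√2 * (lam * t ^ gg α / (√2 * gg α * kb α β ^ 2) -
        lam * r ^ gg α / (√2 * gg α * kb α β ^ 2)) := by
      have e1 : -√2 * (lam * t ^ gg α / (√2 * gg α * kb α β ^ 2) -
          lam * r ^ gg α / (√2 * gg α * kb α β ^ 2)) =
          -(lam * ((t ^ gg α - r ^ gg α) / (gg α * kb α β ^ 2))) := by
        have h3 : √2 ≠ 0 := by positivity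
        field_simp
      rw [e1, neg_le_neg_iff]
      have h3 : (t ^ gg α - r ^ gg α) / (gg α * kb α β ^ 2) ≤ 4 := by
        rw [div_le_iff₀ (by positivity)]
        linarith
      have h4 := mul_le_mul_of_nonneg_left h3 hlam.le
      linarith
    calc Real.exp (-(4 * lam)) ≤ Real.exp (-√2 * (lam * t ^ gg α / (√2 * gg α * kb α β ^ 2) -
          lam * r ^ gg α / (√2 * gg α * kb α β ^ 2))) := Real.exp_le_exp.2 h2
      _ = 1 * Real.exp (-√2 * (lam * t ^ gg α / (√2 * gg α * kb α β ^ 2) -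
          lam * r ^ gg α / (√2 * gg α * kb α β ^ 2))) := (one_mul _).symm
      _ ≤ _ := mul_le_mul_of_nonneg_right h1 (Real.exp_pos _).le
  have hU0 : 0 < t ^ (-2 * gam α) := Real.rpow_pos_of_pos ht0 _
  have hUr : t ^ (-2 * gam α) ≤ r ^ (-2 * gam α) :=
    Real.rpow_le_rpow_of_nonpos hr0 hrt (by linarith)
  have hL : (t - r) * t ^ (-2 * gam α) ≤ 4 * kb α β ^ 2 := by
    have h1 := (Y1f_tan hg0 hg1 hr0 hrt).1
    have e1 : gg α - 1 = -2 * gam α := by linarith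
    rw [e1] at h1
    have h2 : gg α * ((t - r) * t ^ (-2 * gam α)) ≤ gg α * (4 * kb α β ^ 2) := by linarith
    exact le_of_mul_le_mul_left h2 hg0
  refine (Y1f_Gm_le hβ.le Cf ζ η hrt _ y).trans ?_
  have hmono : ∀ w : Pth, ENNReal.ofReal (1 + p * ((y + w (t - r)) ^ 2 * t ^ (-2 * gam α))) ≤
      ENNReal.ofReal ((1 + 2 * p * y ^ 2 * t ^ (-2 * gam α)) +
        (2 * p * t ^ (-2 * gam α)) * w (t - r) ^ 2 + 0 * w (t - r) ^ 4) := by
    intro w
    apply ENNReal.ofReal_le_ofReal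
    have h1 : (y + w (t - r)) ^ 2 ≤ 2 * y ^ 2 + 2 * w (t - r) ^ 2 := Y1f_sq _ _
    have h2 : p * t ^ (-2 * gam α) * (y + w (t - r)) ^ 2 ≤
        p * t ^ (-2 * gam α) * (2 * y ^ 2 + 2 * w (t - r) ^ 2) :=
      mul_le_mul_of_nonneg_left h1 (by positivity)
    linarith
  refine (lintegral_mono hmono).trans
    ((Y1f_poly (by linarith) (by positivity) (by positivity) le_rfl).trans ?_)
  apply ENNReal.ofReal_le_ofReal
  have hQ : 1 ≤ 1 + p * (y ^ 2 * r ^ (-2 * gam α)) := by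
    have : 0 ≤ p * (y ^ 2 * r ^ (-2 * gam α)) := by positivity
    linarith
  have hA : 2 * p * y ^ 2 * t ^ (-2 * gam α) ≤ 2 * (p * (y ^ 2 * r ^ (-2 * gam α))) := by
    have h1 : p * y ^ 2 * t ^ (-2 * gam α) ≤ p * y ^ 2 * r ^ (-2 * gam α) :=
      mul_le_mul_of_nonneg_left hUr (by positivity)
    linarith
  have hB : 8 * (2 * p * t ^ (-2 * gam α)) * (t - r) ≤ 64 * kb α β ^ 2 := by
    have h1 : p * ((t - r) * t ^ (-2 * gam α)) ≤ 1 * (4 * kb α β ^ 2) := by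
      have h3 : 0 ≤ (t - r) * t ^ (-2 * gam α) := mul_nonneg (by linarith) hU0.le
      exact mul_le_mul hp1 hL h3 zero_le_one
    linarith
  have hC : (2 + 64 * kb α β ^ 2) * (1 + p * (y ^ 2 * r ^ (-2 * gam α))) ≤
      (2 + 64 * kb α β ^ 2) * Real.exp (4 * lam) * (1 + p * (y ^ 2 * r ^ (-2 * gam α))) *
        NN α β lam r t := by
    have h1 : 1 ≤ Real.exp (4 * lam) * NN α β lam r t := by
      calc (1 : ℝ) = Real.exp (4 * lam) * Real.exp (-(4 * lam)) := by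
            rw [← Real.exp_add, add_neg_cancel, Real.exp_zero]
        _ ≤ _ := mul_le_mul_of_nonneg_left hN (Real.exp_pos _).le
    have h2 : 0 ≤ (2 + 64 * kb α β ^ 2) * (1 + p * (y ^ 2 * r ^ (-2 * gam α))) := by positivity
    have h3 := mul_le_mul_of_nonneg_left h1 h2
    linarith
  have hD : 64 * kb α β ^ 2 ≤ 64 * kb α β ^ 2 * (1 + p * (y ^ 2 * r ^ (-2 * gam α))) :=
    le_mul_of_one_le_right (by positivity) hQ
  refine le_trans ?_ hC
  linarith

/-- lower bound of the potential far from the axis -/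
theorem Y1f_cfl {α β : ℝ} (hα : 0 < α) (hα2 : α < 2) (hβ : 0 < β)
    {Cf ζ η m : ℝ} (hCf : 0 ≤ Cf) (hm1 : m ≤ gg α / 2) (hm2 : m ≤ η) (hm : 0 < m) (hζ : 0 < ζ)
    {r s Y : ℝ} (hr : 1 ≤ r)
    (hrC : 2 * Cf ≤ r ^ ζ) (hs1 : r ≤ s) (hs2 : s ≤ 2 * r) (hY : r ^ (gam α + gg α / 2) / 2 ≤ |Y|) :
    β / 2 * (1 / (4 * √2)) ^ α * r ^ (-(2 * gam α) + α * m) ≤ cfl α β Cf ζ η s Y := by
  obtain ⟨hg0, hg1, hγ0, hg, hγ1, hαγ⟩ := Y1f_par hα hα2
  have hr0 : 0 < r := by linarith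
  have hs0 : 0 < s := by linarith
  have hmax : max s 1 = s := max_eq_left (by linarith)
  unfold cfl
  rw [hmax]
  have h1 : 1 / 2 ≤ max 0 (1 - Cf * s ^ (-ζ)) := by
    apply le_max_of_le_right
    have h2 : r ^ ζ ≤ s ^ ζ := Real.rpow_le_rpow hr0.le hs1 hζ.le
    have h3 : 0 < s ^ ζ := Real.rpow_pos_of_pos hs0 ζ
    rw [Real.rpow_neg hs0.le, ← div_eq_mul_inv]
    have h4 : Cf / s ^ ζ ≤ 1 / 2 := by
      rw [div_le_iff₀ h3]; linarith
    linarith
  have hrp : 0 < r ^ (gam α + m) := Real.rpow_pos_of_pos hr0 _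
  have h2 : r ^ (gam α + m) / 2 ≤ min |Y| (s ^ (gam α + η)) := by
    apply le_min
    · refine le_trans ?_ hY
      have := Real.rpow_le_rpow_of_exponent_le hr (show gam α + m ≤ gam α + gg α / 2 by linarith)
      linarith
    · have h3 := Real.rpow_le_rpow_of_exponent_le hr (show gam α + m ≤ gam α + η by linarith)
      have h4 : r ^ (gam α + η) ≤ s ^ (gam α + η) :=
        Real.rpow_le_rpow hr0.le hs1 (by linarith)
      linarith
  have h3 : 1 / (4 * √2) * r ^ (gam α + m - 1) ≤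
      min |Y| (s ^ (gam α + η)) / (√2 * s) := by
    have hs2' : 0 < √2 := by positivity
    rw [le_div_iff₀ (by positivity), Real.rpow_sub_one hr0.ne']
    have e1 : 1 / (4 * √2) * (r ^ (gam α + m) / r) * (√2 * s) =
        r ^ (gam α + m) / 2 * (s / (2 * r)) := by
      field_simp
      ring
    rw [e1]
    have h4 : s / (2 * r) ≤ 1 := by
      rw [div_le_one (by positivity)]; exact hs2
    calc r ^ (gam α + m) / 2 * (s / (2 * r)) ≤ r ^ (gam α + m) / 2 * 1 :=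
          mul_le_mul_of_nonneg_left h4 (by positivity)
      _ = r ^ (gam α + m) / 2 := mul_one _
      _ ≤ _ := h2
  have h4 : (1 / (4 * √2)) ^ α * r ^ (-(2 * gam α) + α * m) ≤
      (min |Y| (s ^ (gam α + η)) / (√2 * s)) ^ α := by
    have h5 : 0 ≤ 1 / (4 * √2) * r ^ (gam α + m - 1) := by positivity
    have h6 := Real.rpow_le_rpow h5 h3 hα.le
    rw [Real.mul_rpow (by positivity) (by positivity), ← Real.rpow_mul hr0.le] at h6
    have e1 : (gam α + m - 1) * α = -(2 * gam α) + α * m := by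
      rw [← hαγ]; ring
    rw [e1] at h6
    exact h6
  have h5 : 0 ≤ (1 / (4 * √2)) ^ α * r ^ (-(2 * gam α) + α * m) := by positivity
  calc β / 2 * (1 / (4 * √2)) ^ α * r ^ (-(2 * gam α) + α * m) =
        1 / 2 * (β * ((1 / (4 * √2)) ^ α * r ^ (-(2 * gam α) + α * m))) := by ring
    _ ≤ _ := mul_le_mul h1 (mul_le_mul_of_nonneg_left h4 hβ.le) (by positivity)
        (le_trans (by norm_num) h1)

theorem Y1f_lim {a c ε : ℝ} (ha : 0 < a) (hc : 0 < c) (hε : 0 < ε) :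
    ∀ᶠ r : ℝ in atTop, Real.exp (-(c * r ^ a)) ≤ ε := by
  have h1 : Tendsto (fun r : ℝ => c * r ^ a) atTop atTop :=
    (tendsto_rpow_atTop ha).const_mul_atTop hc
  have h2 : Tendsto (fun r : ℝ => Real.exp (-(c * r ^ a))) atTop (𝓝 0) :=
    Real.tendsto_exp_neg_atTop_nhds_zero.comp h1
  exact h2.eventually (ge_mem_nhds hε)

theorem y1_far {α β : ℝ} (hα : 0 < α) (hα2 : α < 2) (hβ : 0 < β)
    {Cf ζ η : ℝ} (hCf : 0 ≤ Cf) (hζ : 0 < ζ) (hη : 0 < η) {ε : ℝ} (hε : 0 < ε) :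
    ∃ s0 ≥ (1 : ℝ), ∀ p : ℝ, 0 ≤ p → p ≤ 1 → ∀ r x1 : ℝ, s0 ≤ r →
      gg α * kb α β ^ 2 / 2 ≤ x1 ^ gg α - r ^ gg α → x1 ^ gg α - r ^ gg α ≤ 2 * gg α * kb α β ^ 2 → r ≤ x1 →
      ∀ y, r ^ (gam α + gg α / 2) ≤ |y| →
        Gm (cfl α β Cf ζ η) r x1 (fun z => ENNReal.ofReal (1 + p * (z ^ 2 * x1 ^ (-2 * gam α)))) y ≤
          ENNReal.ofReal (ε * (1 + p * (y ^ 2 * r ^ (-2 * gam α)))) := by
  obtain ⟨hg0, hg1, hγ0, hg, hγ1, hαγ⟩ := Y1f_par hα hα2
  have hκ : 0 < kb α β := kb_pos hβ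
  set κ := kb α β with hκd
  set m : ℝ := min (gg α / 2) η with hm
  have hm0 : 0 < m := lt_min (by linarith) hη
  set c1 : ℝ := β / 2 * (1 / (4 * √2)) ^ α with hc1
  have hc1p : 0 < c1 := by
    rw [hc1]
    have : 0 < (1 / (4 * √2)) ^ α := Real.rpow_pos_of_pos (by positivity) _
    positivity
  set c : ℝ := κ ^ 2 / 2 * c1 with hc
  have hcp : 0 < c := by positivity
  set L : ℝ := 4 * κ ^ 2 with hL
  have hLp : 0 < L := by positivity
  set δ : ℝ := ε / (3 * (4 + 384 * L ^ 2)) with hδ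
  have hδp : 0 < δ := by positivity
  have t1 := Y1f_lim (a := α * m) (c := c) (ε := ε / (3 * (2 + 16 * L))) (by positivity) hcp
    (by positivity)
  have t2 := Y1f_lim (a := gg α) (c := (32 * κ ^ 2)⁻¹) (ε := ε * δ / 12) hg0 (by positivity)
    (by positivity)
  have h2g : 0 < (2 : ℝ) ^ gg α - 1 := by
    have := Real.one_lt_rpow (show (1 : ℝ) < 2 by norm_num) hg0
    linarith
  have t3 := (tendsto_rpow_atTop hg0).eventually_ge_atTop (2 * gg α * κ ^ 2 / ((2 : ℝ) ^ gg α - 1))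
  have t4 := (tendsto_rpow_atTop hζ).eventually_ge_atTop (2 * Cf)
  obtain ⟨a, hall⟩ := Filter.eventually_atTop.1 (t1.and (t2.and (t3.and t4)))
  refine ⟨max a 1, le_max_right _ _, ?_⟩
  intro p hp0 hp1 r x1 hr hd1 hd2 hrx y hy
  obtain ⟨q1, q2, q3, q4⟩ := hall r ((le_max_left _ _).trans hr)
  have hr1 : 1 ≤ r := (le_max_right _ _).trans hr
  have hr0 : 0 < r := by linarith
  have hx0 : 0 < x1 := by linarith
  obtain ⟨tan1, tan2⟩ := Y1f_tan hg0 hg1 hr0 hrx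
  -- the length of the interval
  have hx2 : x1 ≤ 2 * r := by
    rw [div_le_iff₀ h2g] at q3
    have h1 : x1 ^ gg α ≤ (2 * r) ^ gg α := by
      rw [Real.mul_rpow (by norm_num) hr0.le]
      linarith
    exact (Real.rpow_le_rpow_iff hx0.le (by positivity) hg0).1 h1
  have eg : gg α - 1 = -(2 * gam α) := hg
  have e2 : (-2 * gam α) = -(2 * gam α) := by ring
  rw [eg] at tan1 tan2
  rw [e2]
  have hR0 : 0 < r ^ (2 * gam α) := Real.rpow_pos_of_pos hr0 _
  have hX0 : 0 < x1 ^ (2 * gam α) := Real.rpow_pos_of_pos hx0 _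
  have hΔlo : κ ^ 2 / 2 * r ^ (2 * gam α) ≤ x1 - r := by
    rw [Real.rpow_neg hr0.le] at tan2
    have h1 : gg α * κ ^ 2 / 2 ≤ gg α * (r ^ (2 * gam α))⁻¹ * (x1 - r) := hd1.trans tan2
    have h2 : gg α * (κ ^ 2 / 2) ≤ gg α * ((x1 - r) / r ^ (2 * gam α)) := by
      calc gg α * (κ ^ 2 / 2) = gg α * κ ^ 2 / 2 := by ring
        _ ≤ gg α * (r ^ (2 * gam α))⁻¹ * (x1 - r) := h1
        _ = gg α * ((x1 - r) / r ^ (2 * gam α)) := by rw [div_eq_mul_inv]; ring
    have h3 := le_of_mul_le_mul_left h2 hg0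
    rwa [le_div_iff₀ hR0] at h3
  have hΔ0 : 0 < x1 - r := lt_of_lt_of_le (by positivity) hΔlo
  have hΔhi : x1 - r ≤ L * r ^ (2 * gam α) := by
    rw [Real.rpow_neg hx0.le] at tan1
    have h1 : gg α * (x1 ^ (2 * gam α))⁻¹ * (x1 - r) ≤ 2 * gg α * κ ^ 2 := tan1.trans hd2
    have h2 : gg α * ((x1 - r) / x1 ^ (2 * gam α)) ≤ gg α * (2 * κ ^ 2) := by
      calc gg α * ((x1 - r) / x1 ^ (2 * gam α)) = gg α * (x1 ^ (2 * gam α))⁻¹ * (x1 - r) := by
            rw [div_eq_mul_inv]; ring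
        _ ≤ 2 * gg α * κ ^ 2 := h1
        _ = gg α * (2 * κ ^ 2) := by ring
    have h3 := le_of_mul_le_mul_left h2 hg0
    rw [div_le_iff₀ hX0] at h3
    have h4 : x1 ^ (2 * gam α) ≤ 2 * r ^ (2 * gam α) := by
      calc x1 ^ (2 * gam α) ≤ (2 * r) ^ (2 * gam α) :=
            Real.rpow_le_rpow hx0.le hx2 (by positivity)
        _ = 2 ^ (2 * gam α) * r ^ (2 * gam α) := Real.mul_rpow (by norm_num) hr0.le
        _ ≤ 2 ^ (1 : ℝ) * r ^ (2 * gam α) := by
            apply mul_le_mul_of_nonneg_right _ hR0.le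
            exact Real.rpow_le_rpow_of_exponent_le (by norm_num) hγ1
        _ = 2 * r ^ (2 * gam α) := by rw [Real.rpow_one]
    rw [hL]
    have h5 := mul_le_mul_of_nonneg_left h4 (show 0 ≤ 2 * κ ^ 2 by positivity)
    linarith
  set U : ℝ := r ^ (-(2 * gam α)) with hU
  have hUp : 0 < U := Real.rpow_pos_of_pos hr0 _
  have hUL : U * (x1 - r) ≤ L := by
    rw [hU, Real.rpow_neg hr0.le, inv_mul_le_iff₀ hR0]
    linarith
  set u : ℝ := x1 ^ (-(2 * gam α)) with hu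
  have hup : 0 < u := Real.rpow_pos_of_pos hx0 _
  have huU : u ≤ U := Real.rpow_le_rpow_of_nonpos hr0 hrx (by linarith)
  set e0 : ℝ := Real.exp (-(c * r ^ (α * m))) with he0
  have he0p : 0 < e0 := Real.exp_pos _
  set Q : ℝ := 1 + p * (y ^ 2 * U) with hQ
  have hQ1 : 1 ≤ Q := by
    have : 0 ≤ p * (y ^ 2 * U) := by positivity
    linarith
  have hQp : 0 < Q := by linarith
  have hypos : 0 < |y| := lt_of_lt_of_le (Real.rpow_pos_of_pos hr0 _) hy
  set Bad : Set Pth := {w : Pth | ∃ s ∈ Icc (0 : ℝ) (x1 - r), |y| / 2 ≤ |w s|} with hBad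
  have hPB : Wm Bad ≤ ENNReal.ofReal (ε * δ / 3) := by
    refine (sup_tail hΔ0 (show 0 < |y| / 2 by linarith)).trans (ENNReal.ofReal_le_ofReal ?_)
    have h1 : (32 * κ ^ 2)⁻¹ * r ^ gg α ≤ (|y| / 2) ^ 2 / (2 * (x1 - r)) := by
      rw [le_div_iff₀ (by positivity)]
      have h2 : (r ^ (gam α + gg α / 2)) ^ 2 = r ^ (2 * gam α) * r ^ gg α := by
        rw [← Real.rpow_natCast, ← Real.rpow_mul hr0.le, ← Real.rpow_add hr0]
        congr 1
        push_cast
        ring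
      have h3 : r ^ (2 * gam α) * r ^ gg α ≤ |y| ^ 2 := by
        rw [← h2]
        exact pow_le_pow_left₀ (Real.rpow_pos_of_pos hr0 _).le hy 2
      have h4 : 0 < r ^ gg α := Real.rpow_pos_of_pos hr0 _
      have h5 : (32 * κ ^ 2)⁻¹ * r ^ gg α * (2 * (x1 - r)) ≤
          (32 * κ ^ 2)⁻¹ * r ^ gg α * (2 * (L * r ^ (2 * gam α))) := by
        apply mul_le_mul_of_nonneg_left _ (by positivity)
        linarith
      have h6 : (32 * κ ^ 2)⁻¹ * r ^ gg α * (2 * (L * r ^ (2 * gam α))) =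
          r ^ (2 * gam α) * r ^ gg α / 4 := by
        rw [hL]
        field_simp
        ring
      calc _ ≤ _ := h5
        _ = _ := h6
        _ ≤ |y| ^ 2 / 4 := by linarith
        _ = (|y| / 2) ^ 2 := by ring
    have h2 : Real.exp (-(|y| / 2) ^ 2 / (2 * (x1 - r))) ≤
        Real.exp (-((32 * κ ^ 2)⁻¹ * r ^ gg α)) := by
      rw [Real.exp_le_exp, neg_div, neg_le_neg_iff]
      exact h1
    calc 4 * Real.exp (-(|y| / 2) ^ 2 / (2 * (x1 - r))) ≤ 4 * (ε * δ / 12) := by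
          linarith
      _ = ε * δ / 3 := by ring
  -- the good event
  have hgood : ∀ w : Pth, w ∉ Bad →
      Real.exp (-∫ s in r..x1, cfl α β Cf ζ η s (y + w (s - r))) ≤ e0 := by
    intro w hw
    rw [he0, Real.exp_le_exp, neg_le_neg_iff]
    have hcont : Continuous fun s : ℝ => cfl α β Cf ζ η s (y + w (s - r)) := by
      have h1 : Continuous fun s : ℝ => (s, y + w (s - r)) :=
        continuous_id.prodMk (continuous_const.add
          (w.continuous.comp (continuous_id.sub continuous_const)))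
      exact (cfl_cont hα β Cf ζ η).comp h1
    have h1 : ∫ _s in r..x1, c1 * r ^ (-(2 * gam α) + α * m) ≤
        ∫ s in r..x1, cfl α β Cf ζ η s (y + w (s - r)) := by
      refine intervalIntegral.integral_mono_on hrx (intervalIntegrable_const)
        (hcont.intervalIntegrable _ _) ?_
      intro s hs
      refine Y1f_cfl hα hα2 hβ hCf (min_le_left _ _) (min_le_right _ _) hm0 hζ hr1 q4 hs.1
        (hs.2.trans hx2) ?_
      have h2 : |w (s - r)| < |y| / 2 := by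
        by_contra hcon
        push Not at hcon
        exact hw ⟨s - r, ⟨by linarith [hs.1], by linarith [hs.2]⟩, hcon⟩
      have h3 : |y| ≤ |y + w (s - r)| + |w (s - r)| := by
        have := abs_sub (y + w (s - r)) (w (s - r))
        rwa [add_sub_cancel_right] at this
      linarith
    rw [intervalIntegral.integral_const, smul_eq_mul] at h1
    refine le_trans ?_ h1
    have h2 : κ ^ 2 / 2 * r ^ (2 * gam α) * (c1 * r ^ (-(2 * gam α) + α * m)) ≤
        (x1 - r) * (c1 * r ^ (-(2 * gam α) + α * m)) :=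
      mul_le_mul_of_nonneg_right hΔlo (by positivity)
    refine le_trans (le_of_eq ?_) h2
    rw [hc, Real.rpow_add hr0, Real.rpow_neg hr0.le]
    field_simp
  -- pointwise bound
  set a0 : ℝ := e0 * (1 + 2 * p * U * y ^ 2) + δ / (4 * Q) * (2 + 16 * p ^ 2 * U ^ 2 * y ^ 4) with ha0
  set a2 : ℝ := 2 * e0 * p * U with ha2
  set a4 : ℝ := δ / (4 * Q) * (16 * p ^ 2 * U ^ 2) with ha4
  have hpt : ∀ w : Pth, ENNReal.ofReal (Real.exp (-∫ s in r..x1, cfl α β Cf ζ η s (y + w (s - r)))) *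
      ENNReal.ofReal (1 + p * ((y + w (x1 - r)) ^ 2 * u)) ≤
      ENNReal.ofReal (a0 + a2 * w (x1 - r) ^ 2 + a4 * w (x1 - r) ^ 4) +
        Bad.indicator (fun _ => ENNReal.ofReal (Q / δ)) w := by
    intro w
    set v : ℝ := w (x1 - r) with hv
    set Z : ℝ := 1 + p * ((y + v) ^ 2 * u) with hZ
    have hZ0 : 0 < Z := by positivity
    have hZle : Z ≤ 1 + 2 * p * U * (y ^ 2 + v ^ 2) := by
      have h1 : (y + v) ^ 2 * u ≤ (2 * y ^ 2 + 2 * v ^ 2) * U := by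
        exact mul_le_mul (Y1f_sq y v) huU hup.le (by positivity)
      have h2 := mul_le_mul_of_nonneg_left h1 hp0
      rw [hZ]
      linarith
    have hZ2 : Z ^ 2 ≤ 2 + 16 * p ^ 2 * U ^ 2 * (y ^ 4 + v ^ 4) := by
      have h1 : Z ^ 2 ≤ (1 + 2 * p * U * (y ^ 2 + v ^ 2)) ^ 2 :=
        pow_le_pow_left₀ hZ0.le hZle 2
      have h2 : (1 + 2 * p * U * (y ^ 2 + v ^ 2)) ^ 2 ≤
          2 + 2 * (2 * p * U * (y ^ 2 + v ^ 2)) ^ 2 := by
        have := Y1f_sq 1 (2 * p * U * (y ^ 2 + v ^ 2))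
        linarith
      have h3 : (2 * p * U * (y ^ 2 + v ^ 2)) ^ 2 ≤ 8 * p ^ 2 * U ^ 2 * (y ^ 4 + v ^ 4) := by
        have h4 := Y1f_sq (y ^ 2) (v ^ 2)
        have h5 := mul_le_mul_of_nonneg_left h4 (show 0 ≤ 4 * p ^ 2 * U ^ 2 by positivity)
        linarith
      linarith
    have hpoly : e0 * Z + δ / (4 * Q) * Z ^ 2 ≤ a0 + a2 * v ^ 2 + a4 * v ^ 4 := by
      have h1 := mul_le_mul_of_nonneg_left hZle he0p.le
      have h2 := mul_le_mul_of_nonneg_left hZ2 (show 0 ≤ δ / (4 * Q) by positivity)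
      rw [ha0, ha2, ha4]
      linarith
    by_cases hw : w ∈ Bad
    · rw [indicator_of_mem hw]
      have h1 : 0 ≤ ∫ s in r..x1, cfl α β Cf ζ η s (y + w (s - r)) :=
        intervalIntegral.integral_nonneg hrx fun s _ => cfl_nonneg hβ.le _ _ _ _ _
      have h2 : Real.exp (-∫ s in r..x1, cfl α β Cf ζ η s (y + w (s - r))) ≤ 1 := by
        rw [Real.exp_le_one_iff]; linarith
      rw [← ENNReal.ofReal_mul (Real.exp_pos _).le,
        ← ENNReal.ofReal_add (by positivity) (by positivity)]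
      apply ENNReal.ofReal_le_ofReal
      have h3 : Z ≤ δ / (4 * Q) * Z ^ 2 + Q / δ := by
        have h4 : 0 ≤ δ / (4 * Q) * (Z - 2 * Q / δ) ^ 2 := by positivity
        have h5 : δ / (4 * Q) * (Z - 2 * Q / δ) ^ 2 = δ / (4 * Q) * Z ^ 2 - Z + Q / δ := by
          field_simp
          ring
        linarith
      have h4 : Real.exp (-∫ s in r..x1, cfl α β Cf ζ η s (y + w (s - r))) * Z ≤ 1 * Z :=
        mul_le_mul_of_nonneg_right h2 hZ0.le
      have h5 : 0 ≤ e0 * Z := by positivity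
      linarith
    · rw [indicator_of_notMem hw, add_zero, ← ENNReal.ofReal_mul (Real.exp_pos _).le]
      apply ENNReal.ofReal_le_ofReal
      have h4 := mul_le_mul_of_nonneg_right (hgood w hw) hZ0.le
      have h5 : 0 ≤ δ / (4 * Q) * Z ^ 2 := by positivity
      linarith
  have hmeas : Measurable fun w : Pth =>
      ENNReal.ofReal (a0 + a2 * w (x1 - r) ^ 2 + a4 * w (x1 - r) ^ 4) := by
    have h1 : Measurable fun w : Pth => w (x1 - r) := Pth.measurable_apply (x1 - r)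
    exact ((measurable_const.add ((h1.pow_const 2).const_mul a2)).add
      ((h1.pow_const 4).const_mul a4)).ennreal_ofReal
  unfold Gm
  refine (lintegral_mono hpt).trans ?_
  rw [lintegral_add_left hmeas]
  have hp1' := Y1f_poly (a0 := a0) (a2 := a2) (a4 := a4) hΔ0.le (by positivity) (by positivity)
    (by positivity)
  have hp2 : ∫⁻ w, Bad.indicator (fun _ => ENNReal.ofReal (Q / δ)) w ∂Wm ≤
      ENNReal.ofReal (Q * ε / 3) := by
    refine (lintegral_indicator_const_le _ _).trans ?_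
    calc ENNReal.ofReal (Q / δ) * Wm Bad ≤ ENNReal.ofReal (Q / δ) * ENNReal.ofReal (ε * δ / 3) := by
          gcongr
      _ = ENNReal.ofReal (Q * ε / 3) := by
          rw [← ENNReal.ofReal_mul (by positivity)]
          congr 1
          field_simp
  refine (add_le_add hp1' hp2).trans ?_
  rw [← ENNReal.ofReal_add (by positivity) (by positivity)]
  apply ENNReal.ofReal_le_ofReal
  -- final estimate
  have k1 : e0 * (1 + 2 * p * U * y ^ 2) ≤ 2 * e0 * Q := by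
    have h1 : 1 + 2 * p * U * y ^ 2 ≤ 2 * Q := by rw [hQ]; linarith
    have h2 := mul_le_mul_of_nonneg_left h1 he0p.le
    linarith
  have k2 : δ / (4 * Q) * (2 + 16 * p ^ 2 * U ^ 2 * y ^ 4) ≤ 4 * δ * Q := by
    have h1 : 2 + 16 * p ^ 2 * U ^ 2 * y ^ 4 ≤ 16 * Q ^ 2 := by
      have h2 : 0 ≤ p * (y ^ 2 * U) := by positivity
      rw [hQ]
      have h5 : 16 * p ^ 2 * U ^ 2 * y ^ 4 = 16 * (p * (y ^ 2 * U)) ^ 2 := by ring
      rw [h5, add_sq]
      linarith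
    have h3 := mul_le_mul_of_nonneg_left h1 (show 0 ≤ δ / (4 * Q) by positivity)
    have h4 : δ / (4 * Q) * (16 * Q ^ 2) = 4 * δ * Q := by
      field_simp
      ring
    linarith
  have k3 : 8 * a2 * (x1 - r) ≤ 16 * L * e0 * Q := by
    have h1 : p * (U * (x1 - r)) ≤ 1 * L :=
      mul_le_mul hp1 hUL (by positivity) zero_le_one
    have h2 : 8 * a2 * (x1 - r) = 16 * e0 * (p * (U * (x1 - r))) := by rw [ha2]; ring
    rw [h2]
    have h3 := mul_le_mul_of_nonneg_left h1 (show 0 ≤ 16 * e0 by positivity)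
    have h4 : 16 * e0 * (1 * L) ≤ 16 * e0 * (1 * L) * Q :=
      le_mul_of_one_le_right (by positivity) hQ1
    linarith
  have k4 : 96 * a4 * (x1 - r) ^ 2 ≤ 384 * L ^ 2 * δ * Q := by
    have h1 : p * (U * (x1 - r)) ≤ 1 * L :=
      mul_le_mul hp1 hUL (by positivity) zero_le_one
    have h1' : (p * (U * (x1 - r))) ^ 2 ≤ L ^ 2 := by
      rw [one_mul] at h1
      exact pow_le_pow_left₀ (by positivity) h1 2
    have h2 : 96 * a4 * (x1 - r) ^ 2 = 384 * δ / Q * (p * (U * (x1 - r))) ^ 2 := by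
      rw [ha4]
      field_simp
      ring
    rw [h2]
    have h3 : 384 * δ / Q ≤ 384 * δ * Q := by
      rw [div_le_iff₀ hQp]
      have h5 : 1 ≤ Q * Q := one_le_mul_of_one_le_of_one_le hQ1 hQ1
      have h6 := mul_le_mul_of_nonneg_left h5 (show 0 ≤ 384 * δ by positivity)
      linarith
    calc 384 * δ / Q * (p * (U * (x1 - r))) ^ 2 ≤ 384 * δ * Q * L ^ 2 :=
          mul_le_mul h3 h1' (by positivity) (by positivity)
      _ = _ := by ring
  have k5 : (2 + 16 * L) * e0 ≤ ε / 3 := by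
    have h1 := mul_le_mul_of_nonneg_left q1 (show 0 ≤ 2 + 16 * L by positivity)
    have h2 : (2 + 16 * L) * (ε / (3 * (2 + 16 * L))) = ε / 3 := by
      field_simp
    linarith
  have k6 : (4 + 384 * L ^ 2) * δ = ε / 3 := by
    rw [hδ]
    field_simp
  have k7 : (2 + 16 * L) * e0 * Q ≤ ε / 3 * Q := mul_le_mul_of_nonneg_right k5 hQp.le
  have k8 : (4 + 384 * L ^ 2) * δ * Q = ε / 3 * Q := by rw [k6]
  rw [ha0]
  linarith

end Pool.H50.BB
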