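import Pool.Agent.H50.BB.Y1n
import Pool.Agent.H50.BB.Y1f

/-!
# Row Y1: uniform upper bound of Gm   (about 130 lines)

`c = cfl`, `F_t z = 1 + p z² t^{-2γ}`, `C* = max` of the constants of `y1_short` and `y1_near`, `s0` = maximum of the thresholds, `y1_far` with `ε = e^{-2 lam}`.
Claim by induction on `N ≥ 1`: for all `r ≥ s0`, `t` with `HH r t N ∈ [1/2,2]` (so `t ≥ r`) and all `y`: `Gm c r t F_t y ≤ C* (1 + p y² r^{-2γ}) NN r t`.
`N = 1`: `y1_short` (`t^g - r^g = gκ² H ≤ 4gκ²`).  `N+1 ≥ 2`: if `|y| ≤ r^{γ+g/2}`: `y1_near`.  Otherwise let `x1 = (r^g + gκ²H)^{1/g}`, `H = HH r t (N+1)`; then `HH x1 t N = H`, `x1 ≥ r`;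
`Gm c r t F_t y = Gm c r x1 (Gm c x1 t F_t) y ≤ C* NN x1 t Gm c r x1 (F_{x1}) y ≤ C* NN x1 t e^{-2lam} (1 + p y² r^{-2γ}) ≤ C* NN r t (1 + p y² r^{-2γ})`
(`Gm_markov`, `Gm_mono`, `Gm_const_mul`, `y1_far`; `NN r t = NN r x1 NN x1 t`, `NN r x1 ≥ exp (-lam H) ≥ e^{-2lam}`).
Conclusion: for `t ≥ r ≥ s0`: if `t^g - r^g ≤ gκ²` use `y1_short`; otherwise `N = ⌊(t^g - r^g)/(gκ²)⌋ ≥ 1` has `HH ∈ [1,2)`.  Take `p = 0` and `p = 1`.
-/

open MeasureTheory ProbabilityTheory Set Filter Topology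
open scoped NNReal ENNReal

namespace Pool.H50.BB

open Pool.Agent.H4.BM

/-- the positivity facts -/
theorem Y1_gg_pos {α : ℝ} (hα : 0 < α) (hα2 : α < 2) : 0 < gg α := by
  unfold gg
  exact div_pos (by linarith) (by linarith)

theorem Y1_gam_pos {α : ℝ} (hα : 0 < α) : 0 < gam α := by
  unfold gam
  positivity

theorem NN_mul {α β lam r q t : ℝ} (hr : 0 < r) (hq : 0 < q) (ht : 0 < t) :
    NN α β lam r t = NN α β lam r q * NN α β lam q t := by
  unfold NN
  have h1 : (t / r) ^ (gam α / 2) = (q / r) ^ (gam α / 2) * (t / q) ^ (gam α / 2) := by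
    rw [← Real.mul_rpow (by positivity) (by positivity)]
    congr 1
    field_simp
  have h2 : Real.exp (-√2 * (kap α β lam t - kap α β lam r)) =
      Real.exp (-√2 * (kap α β lam q - kap α β lam r)) * Real.exp (-√2 * (kap α β lam t - kap α β lam q)) := by
    rw [← Real.exp_add]
    congr 1
    ring
  rw [h1, h2]
  ring

theorem Y1_NN_nonneg {α β lam r t : ℝ} (hr : 0 < r) (ht : 0 < t) : 0 ≤ NN α β lam r t := by
  unfold NN
  positivity

theorem Y1_NN_ge {α β lam r t : ℝ} (hα : 0 < α) (hα2 : α < 2) (hβ : 0 < β) (hlam : 0 < lam) (hr : 0 < r)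
    (hrt : r ≤ t) (hd : t ^ gg α - r ^ gg α ≤ 2 * gg α * kb α β ^ 2) :
    Real.exp (-2 * lam) ≤ NN α β lam r t := by
  have hg := Y1_gg_pos hα hα2
  have hk : 0 < kb α β := kb_pos hβ
  have h2 : 0 < √2 := by positivity
  unfold NN
  have e1 : 1 ≤ (t / r) ^ (gam α / 2) := by
    apply Real.one_le_rpow
    · rwa [one_le_div hr]
    · have := Y1_gam_pos hα
      positivity
  have e2 : -2 * lam ≤ -√2 * (kap α β lam t - kap α β lam r) := by
    unfold kap
    have e3 : -√2 * (lam * t ^ gg α / (√2 * gg α * kb α β ^ 2) - lam * r ^ gg α / (√2 * gg α * kb α β ^ 2)) =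
        -(lam * ((t ^ gg α - r ^ gg α) / (gg α * kb α β ^ 2))) := by
      field_simp
    rw [e3]
    have e4 : (t ^ gg α - r ^ gg α) / (gg α * kb α β ^ 2) ≤ 2 := by
      rw [div_le_iff₀ (by positivity)]
      linarith
    have := mul_le_mul_of_nonneg_left e4 hlam.le
    linarith
  calc Real.exp (-2 * lam) = 1 * Real.exp (-2 * lam) := (one_mul _).symm
    _ ≤ _ := mul_le_mul e1 (Real.exp_le_exp.2 e2) (Real.exp_pos _).le (by positivity)

theorem Y1_Fmeas (p t a : ℝ) : Measurable fun z : ℝ => ENNReal.ofReal (1 + p * (z ^ 2 * t ^ (-2 * gam a))) := by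
  fun_prop

theorem Y1_step {α β lam : ℝ} (hα : 0 < α) (hα2 : α < 2) (hβ : 0 < β) (hlam : 0 < lam) {Cf ζ η C1 : ℝ}
    (hC1 : 0 < C1) {p : ℝ} (hp : 0 ≤ p) {r x t y : ℝ} (hr : 0 < r) (hrx : r ≤ x) (hxt : x ≤ t)
    (hd : x ^ gg α - r ^ gg α ≤ 2 * gg α * kb α β ^ 2)
    (hfar : Gm (cfl α β Cf ζ η) r x (fun z => ENNReal.ofReal (1 + p * (z ^ 2 * x ^ (-2 * gam α)))) y ≤
          ENNReal.ofReal (Real.exp (-2 * lam) * (1 + p * (y ^ 2 * r ^ (-2 * gam α)))))
    (hind : ∀ z, Gm (cfl α β Cf ζ η) x t (fun z => ENNReal.ofReal (1 + p * (z ^ 2 * t ^ (-2 * gam α)))) z ≤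
          ENNReal.ofReal (C1 * (1 + p * (z ^ 2 * x ^ (-2 * gam α))) * NN α β lam x t)) :
    Gm (cfl α β Cf ζ η) r t (fun z => ENNReal.ofReal (1 + p * (z ^ 2 * t ^ (-2 * gam α)))) y ≤
      ENNReal.ofReal (C1 * (1 + p * (y ^ 2 * r ^ (-2 * gam α))) * NN α β lam r t) := by
  have hc := cfl_cont hα β Cf ζ η
  have hx : 0 < x := hr.trans_le hrx
  have ht : 0 < t := hx.trans_le hxt
  have hN := Y1_NN_nonneg (α := α) (β := β) (lam := lam) hx ht
  rw [Gm_markov hc (Y1_Fmeas p t α) hrx hxt y]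
  refine (Gm_mono hc hc hrx (fun _ _ _ _ => le_rfl) hind y).trans ?_
  have e1 : (fun z : ℝ => ENNReal.ofReal (C1 * (1 + p * (z ^ 2 * x ^ (-2 * gam α))) * NN α β lam x t)) =
      fun z => ENNReal.ofReal (C1 * NN α β lam x t) * ENNReal.ofReal (1 + p * (z ^ 2 * x ^ (-2 * gam α))) := by
    funext z
    rw [← ENNReal.ofReal_mul (by positivity)]
    congr 1
    ring
  rw [e1, Gm_const_mul hc (Y1_Fmeas p x α)]
  refine (mul_le_mul_right hfar _).trans ?_
  rw [← ENNReal.ofReal_mul (by positivity)]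
  refine ENNReal.ofReal_le_ofReal ?_
  rw [NN_mul (α := α) (β := β) (lam := lam) hr hx ht]
  have e2 := Y1_NN_ge (lam := lam) hα hα2 hβ hlam hr hrx hd
  have e3 : 0 ≤ 1 + p * (y ^ 2 * r ^ (-2 * gam α)) := by positivity
  have e4 : 0 ≤ C1 * NN α β lam x t * (1 + p * (y ^ 2 * r ^ (-2 * gam α))) := by positivity
  have := mul_le_mul_of_nonneg_left e2 e4
  calc _ = C1 * NN α β lam x t * (1 + p * (y ^ 2 * r ^ (-2 * gam α))) * Real.exp (-2 * lam) := by ring
    _ ≤ _ := this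
    _ = _ := by ring

theorem Y1_main {α β lam ρ C : ℝ} {φ : ℝ → ℝ} (hα : 0 < α) (hα2 : α < 2) (hβ : 0 < β) (G : GS α lam ρ C φ)
    {Cf ζ η : ℝ} (hCf : 0 ≤ Cf) (hζ : gg α < ζ) (hη : 0 < η) :
    ∃ s0 ≥ (1 : ℝ), ∃ C1 > 0, ∀ p : ℝ, 0 ≤ p → p ≤ 1 → ∀ r t : ℝ, s0 ≤ r → r ≤ t → ∀ y,
      Gm (cfl α β Cf ζ η) r t (fun z => ENNReal.ofReal (1 + p * (z ^ 2 * t ^ (-2 * gam α)))) y ≤
        ENNReal.ofReal (C1 * (1 + p * (y ^ 2 * r ^ (-2 * gam α))) * NN α β lam r t) := by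
  have hg := Y1_gg_pos hα hα2
  have hk : 0 < kb α β := kb_pos hβ
  have hlam := G.lam_pos
  obtain ⟨sa, hsa1, Ca, hCa, hshort⟩ := y1_short (lam := lam) hα hα2 hβ hlam Cf ζ η
  obtain ⟨sb, hsb1, Cb, hCb, hnear⟩ := y1_near hα hα2 hβ G hCf hζ hη
  obtain ⟨sc, hsc1, hfar⟩ := y1_far hα hα2 hβ hCf (hg.trans hζ) hη (Real.exp_pos (-2 * lam))
  have hC : 0 < max Ca Cb := lt_max_of_lt_left hCa
  have key : ∀ p : ℝ, 0 ≤ p → p ≤ 1 → ∀ N : ℕ, ∀ r t : ℝ, max sa (max sb sc) ≤ r → r ≤ t →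
      1 / 2 ≤ HH α β r t (N + 1) → HH α β r t (N + 1) ≤ 2 → ∀ y,
      Gm (cfl α β Cf ζ η) r t (fun z => ENNReal.ofReal (1 + p * (z ^ 2 * t ^ (-2 * gam α)))) y ≤
        ENNReal.ofReal (max Ca Cb * (1 + p * (y ^ 2 * r ^ (-2 * gam α))) * NN α β lam r t) := by
    intro p hp0 hp1 N
    induction N with
    | zero =>
      intro r t hr hrt h1 h2 y
      have hra : sa ≤ r := (le_max_left _ _).trans hr
      have hr0 : 0 < r := by linarith
      have ht0 : 0 < t := hr0.trans_le hrt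
      have hd : t ^ gg α - r ^ gg α ≤ 4 * gg α * kb α β ^ 2 := by
        unfold HH at h2
        have hp : 0 < gg α * kb α β ^ 2 * ((0 + 1 : ℕ) : ℝ) := by
          push_cast
          positivity
        rw [div_le_iff₀ hp] at h2
        push_cast at h2
        have : 0 < gg α * kb α β ^ 2 := by positivity
        linarith
      refine (hshort p hp0 hp1 r t hra hrt hd y).trans (ENNReal.ofReal_le_ofReal ?_)
      have hN := Y1_NN_nonneg (α := α) (β := β) (lam := lam) hr0 ht0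
      gcongr
      exact le_max_left _ _
    | succ N ih =>
      intro r t hr hrt h1 h2 y
      have hra : sa ≤ r := (le_max_left _ _).trans hr
      have hrb : sb ≤ r := (le_max_left _ _).trans ((le_max_right _ _).trans hr)
      have hrc : sc ≤ r := (le_max_right _ _).trans ((le_max_right _ _).trans hr)
      have hr0 : 0 < r := by linarith
      have ht0 : 0 < t := hr0.trans_le hrt
      have hN := Y1_NN_nonneg (α := α) (β := β) (lam := lam) hr0 ht0
      rcases le_or_gt |y| (r ^ (gam α + gg α / 2)) with hy | hy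
      · refine (hnear p hp0 hp1 r t (N + 1 + 1) hrb ht0.le (by omega) h1 h2 y hy).trans (ENNReal.ofReal_le_ofReal ?_)
        have e1 : Cb ≤ max Ca Cb * (1 + p * (y ^ 2 * r ^ (-2 * gam α))) := by
          have : 0 ≤ p * (y ^ 2 * r ^ (-2 * gam α)) := by positivity
          nlinarith [le_max_right Ca Cb]
        exact mul_le_mul_of_nonneg_right e1 hN
      · have hgk : 0 < gg α * kb α β ^ 2 := by positivity
        set H := HH α β r t (N + 1 + 1) with hH
        have hH' : t ^ gg α - r ^ gg α = gg α * kb α β ^ 2 * ((N:ℝ) + 2) * H := by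
          rw [hH]
          unfold HH
          push_cast
          field_simp
          ring
        have hrg : 0 < r ^ gg α := Real.rpow_pos_of_pos hr0 _
        have hH0 : 0 < H := by linarith
        have hB : 0 < r ^ gg α + gg α * kb α β ^ 2 * H := by positivity
        obtain ⟨x, hx⟩ : ∃ x : ℝ, x = (r ^ gg α + gg α * kb α β ^ 2 * H) ^ (1 / gg α) := ⟨_, rfl⟩
        have hx0 : 0 < x := by rw [hx]; positivity
        have hxg : x ^ gg α = r ^ gg α + gg α * kb α β ^ 2 * H := by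
          rw [hx, ← Real.rpow_mul hB.le, one_div, inv_mul_cancel₀ hg.ne', Real.rpow_one]
        have hrx : r ≤ x := by
          rw [← Real.rpow_le_rpow_iff hr0.le hx0.le hg, hxg]
          have : 0 < gg α * kb α β ^ 2 * H := by positivity
          linarith
        have hxt : x ≤ t := by
          rw [← Real.rpow_le_rpow_iff hx0.le ht0.le hg, hxg]
          have e1 : gg α * kb α β ^ 2 * ((N:ℝ) + 2) * H =
              gg α * kb α β ^ 2 * H + gg α * kb α β ^ 2 * H * ((N:ℝ) + 1) := by ring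
          have e2 : 0 ≤ gg α * kb α β ^ 2 * H * ((N:ℝ) + 1) := by positivity
          linarith
        have hHx : HH α β x t (N + 1) = H := by
          unfold HH
          have e1 : t ^ gg α - x ^ gg α = gg α * kb α β ^ 2 * ((N:ℝ) + 1) * H := by
            rw [hxg]
            linarith
          rw [e1]
          push_cast
          field_simp
        refine Y1_step hα hα2 hβ hlam hC hp0 hr0 hrx hxt ?_ ?_ ?_
        · rw [hxg]
          nlinarith
        · refine hfar p hp0 hp1 r x hrc ?_ ?_ hrx y hy.le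
          · rw [hxg]
            nlinarith
          · rw [hxg]
            nlinarith
        · intro z
          exact ih x t (hr.trans hrx) hxt (by rw [hHx]; exact h1) (by rw [hHx]; exact h2) z
  refine ⟨max sa (max sb sc), le_max_of_le_left hsa1, max Ca Cb, hC, ?_⟩
  intro p hp0 hp1 r t hr hrt y
  have hra : sa ≤ r := (le_max_left _ _).trans hr
  have hr0 : 0 < r := by linarith
  have ht0 : 0 < t := hr0.trans_le hrt
  have hgk : 0 < gg α * kb α β ^ 2 := by positivity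
  rcases le_or_gt (t ^ gg α - r ^ gg α) (4 * gg α * kb α β ^ 2) with hd | hd
  · refine (hshort p hp0 hp1 r t hra hrt hd y).trans (ENNReal.ofReal_le_ofReal ?_)
    have hN := Y1_NN_nonneg (α := α) (β := β) (lam := lam) hr0 ht0
    gcongr
    exact le_max_left _ _
  · obtain ⟨N, hN⟩ : ∃ N : ℕ, N = ⌊(t ^ gg α - r ^ gg α) / (gg α * kb α β ^ 2)⌋₊ := ⟨_, rfl⟩
    have hq : 4 < (t ^ gg α - r ^ gg α) / (gg α * kb α β ^ 2) := by
      rw [lt_div_iff₀ hgk]
      linarith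
    have hN1 : (N : ℝ) ≤ (t ^ gg α - r ^ gg α) / (gg α * kb α β ^ 2) := by
      rw [hN]
      exact Nat.floor_le (by linarith)
    have hN2 : (t ^ gg α - r ^ gg α) / (gg α * kb α β ^ 2) < (N : ℝ) + 1 := by
      rw [hN]
      exact Nat.lt_floor_add_one _
    have hN3 : (3:ℝ) < N := by linarith
    obtain ⟨M, rfl⟩ : ∃ M, N = M + 1 := ⟨N - 1, by
      have : 3 < N := by exact_mod_cast hN3
      omega⟩
    have hHH : HH α β r t (M + 1) =
        (t ^ gg α - r ^ gg α) / (gg α * kb α β ^ 2) / ((M + 1 : ℕ) : ℝ) := by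
      unfold HH
      rw [div_div]
    have hMp : (0:ℝ) < ((M + 1 : ℕ) : ℝ) := by linarith
    refine key p hp0 hp1 M r t hr hrt ?_ ?_ y
    · rw [hHH, le_div_iff₀ hMp]
      linarith
    · rw [hHH, div_le_iff₀ hMp]
      linarith

theorem y1 {α β lam ρ C : ℝ} {φ : ℝ → ℝ} (hα : 0 < α) (hα2 : α < 2) (hβ : 0 < β) (G : GS α lam ρ C φ)
    {Cf ζ η : ℝ} (hCf : 0 ≤ Cf) (hζ : gg α < ζ) (hη : 0 < η) :
    ∃ s0 ≥ (1 : ℝ), ∃ C1 > 0, ∀ r t : ℝ, s0 ≤ r → r ≤ t → ∀ y,
      Gm (cfl α β Cf ζ η) r t (fun _ => 1) y ≤ ENNReal.ofReal (C1 * NN α β lam r t) ∧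
      Gm (cfl α β Cf ζ η) r t (fun z => ENNReal.ofReal (1 + z ^ 2 * t ^ (-2 * gam α))) y ≤
        ENNReal.ofReal (C1 * (1 + y ^ 2 * r ^ (-2 * gam α)) * NN α β lam r t) := by
  obtain ⟨s0, hs0, C1, hC1, h⟩ := Y1_main hα hα2 hβ G hCf hζ hη
  refine ⟨s0, hs0, C1, hC1, fun r t hr hrt y => ⟨?_, ?_⟩⟩
  · have := h 0 le_rfl zero_le_one r t hr hrt y
    simpa using this
  · have := h 1 zero_le_one le_rfl r t hr hrt y
    simpa only [one_mul] using this

end Pool.H50.BB
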