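import Pool.Agent.H50.BB.Ca5
import Pool.Agent.H50.BB.Kpf
import Pool.Agent.H50.BB.Qlu
import Pool.Agent.H50.BB.Y1
import Pool.Agent.H50.BB.FKv

/-!
# Row Ap: a priori bounds for the branching system   (about 180 lines)

`v_subfk`: `u q x = vf b A (t - q) x` is `SubFK (fun z => b (arg z)) s t` (`vf_fk` with `b (1-v) ≤ b`; measurability `vf_meas`; `PK` with a constant potential in time:
`∫ u in q..q', kb (x + pt w (u - q)) = ∫ u in 0..(q'-q), kb (x + pt w u)`).  `vdiff_subfk`: the same for `|vf b A (t - q) x - vf b A' (t' - q) x|` on `[s, min t t']` (`vf_diff`).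

`apb`: `kb z = b (arg z)`, `c = cfl α β Cf ζ η` (`qlo`), `L q = √2 q + √q + 1` (concave), `Inst` with `C1` from `y1` (`NN α β lam s s' = Gf (kap) γ s s'` by definition), `Kap` from `kap_kap`; `c ≤ 1` for `q ≥ s0`
(`qlo` at the point `z = 0 + y i`: `cfl ≤ 1 - b ≤ 1`); `kap_adm`.  `boot` with `z = mm t + a`, `u q x = vf b {re > z} (t - q) x` (`u t = 1_{re > z}`: `vf_zero`).
`hom_bound` (constant rate 1): `Kap 0 0 0 1`-instance with `κ = 0`, `γ = 0`, `c = 0`, `C1 = 1`, `L` = a constant `≥ z + 1 + 2 log(j+1)`-ish (constants satisfy `conc` with equality); `s = 1`, `t = 1 + j`: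
`vf (fun _ => 1) {re > z} j x ≤ A (1 + max 0 X) e^{-√2 X}`, `X = z - x.re - √2 j + (3/(2√2)) log (j+1)`.
-/

open MeasureTheory ProbabilityTheory Set Filter Topology
open scoped NNReal ENNReal

namespace Pool.H50.BB

open Pool.Agent.H4.BM

/-- half plane `re > z` -/
def HP (z : ℝ) : Set ℂ := {x | z < x.re}

theorem HP_meas (z : ℝ) : MeasurableSet (HP z) :=
  measurableSet_lt measurable_const Complex.measurable_re

/-- time shift of `PK` for a potential constant in time -/
theorem Ap_shift (kb : ℂ → ℝ) (g : ℂ → ℝ) (q q' : ℝ) (x : ℂ) :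
    PK (fun _ => kb) q q' g x = PK (fun _ => kb) 0 (q' - q) g x := by
  unfold PK
  congr 1
  funext w
  have h := intervalIntegral.integral_comp_sub_right (a := q) (b := q') (fun u => kb (x + pt w u)) q
  rw [sub_self] at h
  rw [h]
  simp only [sub_zero]

theorem v_subfk {b : ℝ → ℝ} (hb : Rate b) {A : Set ℂ} (hA : MeasurableSet A) (s t : ℝ) :
    SubFK (fun z => b (Complex.arg z)) s t (fun q x => vf b A (t - q) x) where
  kmeas := barg_meas hb
  knonneg x := hb.nonneg _
  kle x := hb.le_one _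
  meas := (fk_bdd_v hb hA t).meas
  nonneg q x := vf_nonneg _ _ _ _
  le_one q x := vf_le_one _ _ _ _
  sub q q' hq hqq hq' x := by
    rw [Ap_shift]
    have h1 := fk_part hb hA (T := t - q) (r := q' - q) le_rfl (by linarith) (by linarith) x
    have e1 : t - q - (q' - q) = t - q' := by ring
    rw [sub_zero, e1] at h1
    change vf b A (t - q) x ≤ _
    rw [h1]
    have hB := fk_bdd_b hb
    have hv := fk_bdd_v hb hA (t - q)
    have hv' := fk_bdd_v hb hA t
    have h2 : Bdd (|1| + 1) (fun s y => 1 - vf b A (t - q - s) y) := (fk_bdd_const 1).sub hv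
    exact PK_mono (M := 1) (hB.mul h2) hB (hv'.sec q') (hv'.bdd q') (hv'.sec q') (hv'.bdd q')
      (fun y => vf_nonneg _ _ _ _) (by linarith)
      (fun u y => by
        have a1 := vf_nonneg b A (t - q - u) y
        have a3 := hb.nonneg (Complex.arg y)
        nlinarith [mul_nonneg a3 a1]) (fun y => le_rfl) x

theorem vdiff_subfk {b : ℝ → ℝ} (hb : Rate b) {A A' : Set ℂ} (hA : MeasurableSet A) (hA' : MeasurableSet A')
    (s t T T' : ℝ) (hT : t ≤ T) (hT' : t ≤ T') :
    SubFK (fun z => b (Complex.arg z)) s t (fun q x => |vf b A (T - q) x - vf b A' (T' - q) x|) where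
  kmeas := barg_meas hb
  knonneg x := hb.nonneg _
  kle x := hb.le_one _
  meas := ((fk_bdd_v hb hA T).meas.sub (fk_bdd_v hb hA' T').meas).abs
  nonneg q x := abs_nonneg _
  le_one q x := by
    have a1 := vf_nonneg b A (T - q) x
    have a2 := vf_le_one b A (T - q) x
    have a3 := vf_nonneg b A' (T' - q) x
    have a4 := vf_le_one b A' (T' - q) x
    rw [abs_le]
    constructor <;> linarith
  sub q q' hq hqq hq' x := by
    rw [Ap_shift]
    have h1 := vf_diff hb hA hA' (t := T - q) (t' := T' - q) (r := q' - q) (by linarith)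
      (by linarith) (by linarith) x
    have e1 : T - q - (q' - q) = T - q' := by ring
    have e2 : T' - q - (q' - q) = T' - q' := by ring
    rw [e1, e2] at h1
    unfold PK
    simpa only [sub_zero] using h1

/-- the constant rate -/
theorem Ap_rate : Rate (fun _ => (1 : ℝ)) :=
  ⟨continuous_const, fun _ => zero_le_one, fun _ => le_rfl⟩

theorem Ap_kap : Kap (fun _ => (0 : ℝ)) 0 0 1 where
  γ0 := le_rfl
  γ1 := zero_lt_one
  s1 := le_rfl
  Λ0 := le_rfl
  cont := continuousOn_const
  mono _ _ _ _ := le_rfl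
  conc s s' t _ _ _ := by simp
  log_le s t _ _ := by simp
  grow s t _ _ := by simp

theorem Ap_inst (L0 : ℝ) : Inst (fun _ => (0 : ℝ)) 0 1 1 (fun _ => (1 : ℝ)) (fun _ _ => 0) (fun _ => L0) where
  cmeas := measurable_const
  c0 _ _ := le_rfl
  c1 _ _ _ := zero_le_one
  kc q _ z _ := by simp
  conc s s' t _ _ _ := by
    have : (t - s') * L0 + (s' - s) * L0 = (t - s) * L0 := by ring
    exact this.le
  gm s s' _ _ y := by
    unfold Gm Gf
    simp

theorem hom_bound : ∃ A ≥ (1 : ℝ), ∀ (j z : ℝ), 0 ≤ j → ∀ x : ℂ,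
    vf (fun _ => 1) (HP z) j x ≤ A * (1 + max 0 (z - x.re - √2 * j + 3 / (2 * √2) * Real.log (j + 1))) *
      Real.exp (-√2 * (z - x.re - √2 * j + 3 / (2 * √2) * Real.log (j + 1))) := by
  obtain ⟨A, hA1, hA⟩ := boot 0 0 1 le_rfl zero_lt_one zero_lt_one
  refine ⟨A, hA1, fun j z hj x => ?_⟩
  have h2 : 0 < √2 := by positivity
  have hS := v_subfk Ap_rate (HP_meas z) 1 (1 + j)
  have h := hA (fun _ => 0) 1 (fun _ => 1) (fun _ _ => 0)
    (fun _ => z + 1 + 3 / (2 * √2) * Real.log (j + 1)) Ap_kap (Ap_inst _) 1 (1 + j) z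
    (fun q x => vf (fun _ => 1) (HP z) (1 + j - q) x) le_rfl (by linarith) hS
    (fun x hx => by
      change vf (fun _ => 1) (HP z) (1 + j - (1 + j)) x = 0
      rw [sub_self, vf_zero Ap_rate (HP_meas z), Set.indicator_of_notMem]
      exact not_lt.2 hx)
    (fun q hq hq' => by
      unfold MM
      have h3 : Real.log (1 + j - q + 1) ≤ Real.log (j + 1) :=
        Real.log_le_log (by linarith) (by linarith)
      have h4 : 3 / (2 * √2) * Real.log (1 + j - q + 1) ≤ 3 / (2 * √2) * Real.log (j + 1) :=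
        mul_le_mul_of_nonneg_left h3 (by positivity)
      have h5 : 0 ≤ √2 * (1 + j - q) := mul_nonneg h2.le (by linarith)
      simp only [sub_zero, zero_div, zero_mul, add_zero]
      linarith) x
  have e1 : z - x.re - MM (fun _ => 0) 0 1 (1 + j) =
      z - x.re - √2 * j + 3 / (2 * √2) * Real.log (j + 1) := by
    unfold MM
    have e2 : 1 + j - 1 = j := by ring
    rw [e2]
    simp only [sub_zero, zero_div, zero_mul, add_zero]
    ring
  rw [e1] at h
  have e3 : 1 + j - 1 = j := by ring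
  simp only [e3] at h
  exact h

/-- `√` is concave -/
theorem Ap_sqrt {s s' t : ℝ} (hs : 0 ≤ s) (hss : s ≤ s') (hst : s' ≤ t) :
    (t - s') * √s + (s' - s) * √t ≤ (t - s) * √s' := by
  have h1 := Real.sq_sqrt hs
  have h2 := Real.sq_sqrt (hs.trans hss)
  have h3 := Real.sq_sqrt ((hs.trans hss).trans hst)
  have a1 : √s ≤ √s' := Real.sqrt_le_sqrt hss
  have a2 : √s' ≤ √t := Real.sqrt_le_sqrt hst
  have key : 0 ≤ (√t - √s') * (√s' - √s) * (√t - √s) :=
    mul_nonneg (mul_nonneg (by linarith) (by linarith)) (by linarith)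
  have e : (t - s) * √s' - ((t - s') * √s + (s' - s) * √t) =
      (√t - √s') * (√s' - √s) * (√t - √s) := by
    rw [← h1, ← h2, ← h3]
    simp only [h1, h2, h3]
    nlinarith [h1, h2, h3]
  linarith

theorem apb {b : ℝ → ℝ} {α β lam ρ C : ℝ} {φ : ℝ → ℝ} (hα : 2 / 3 < α) (hα2 : α < 2) (hβ : 0 < β)
    (h : A12 b α β) (G : GS α lam ρ C φ) :
    ∃ s0 ≥ (1 : ℝ), ∃ A ≥ (1 : ℝ), ∀ s t a : ℝ, s0 ≤ s → s ≤ t → a ≤ √s → ∀ x : ℂ,
      vf b (HP (mm α β lam t + a)) (t - s) x ≤
        A * (1 + max 0 (mm α β lam t + a - x.re - MM (kap α β lam) (gam α) s t)) *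
          Real.exp (-√2 * (mm α β lam t + a - x.re - MM (kap α β lam) (gam α) s t)) := by
  have hα0 : 0 < α := by linarith
  have hb : Rate b := a12_rate hα0 h
  obtain ⟨hg, hγ0, hγ1, -⟩ := gg_pos hα0 hα2
  obtain ⟨Cf, hCf, ζ, η, hζ, hη, sa, hsa1, hqlo⟩ := qlo hα hα2 hβ h
  obtain ⟨sb, hsb1, C1, hC1, hy1⟩ := y1 hα0 hα2 hβ G hCf hζ hη
  obtain ⟨Λ, sc, hkap⟩ := kap_kap hα hα2 hβ G.lam_pos
  obtain ⟨sd, hsd1, hadm⟩ := kap_adm hα hα2 hβ G.lam_pos
  obtain ⟨A, hA1, hA⟩ := boot (gam α) Λ C1 hγ0.le (by linarith) hC1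
  have ha : sa ≤ max (max sa sb) (max sc sd) := (le_max_left _ _).trans (le_max_left _ _)
  have hb' : sb ≤ max (max sa sb) (max sc sd) := (le_max_right _ _).trans (le_max_left _ _)
  have hc : sc ≤ max (max sa sb) (max sc sd) := (le_max_left _ _).trans (le_max_right _ _)
  have hd : sd ≤ max (max sa sb) (max sc sd) := (le_max_right _ _).trans (le_max_right _ _)
  set s0 := max (max sa sb) (max sc sd) with hs0
  have hK : Kap (kap α β lam) (gam α) Λ s0 := hkap s0 hc
  have hI : Inst (kap α β lam) (gam α) s0 C1 (fun z => b (Complex.arg z)) (cfl α β Cf ζ η)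
      (fun q => √2 * q + √q + 1) :=
    { cmeas := (cfl_cont hα0 β Cf ζ η).measurable
      c0 := fun q y => cfl_nonneg hβ.le _ _ _ _ _
      c1 := fun q hq y => by
        have h1 := hqlo q (ha.trans hq) (⟨0, y⟩ : ℂ) (by
          have : 0 ≤ q := by linarith
          positivity)
        exact h1.trans (by linarith [hb.nonneg (Complex.arg (⟨0, y⟩ : ℂ))])
      kc := fun q hq z hz => by
        have h1 := hqlo q (ha.trans hq) z hz
        change b (Complex.arg z) ≤ _
        linarith
      conc := fun s s' t hs hss hst => by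
        have h1 := Ap_sqrt (s := s) (s' := s') (t := t) (by linarith) hss hst
        change (t - s') * (√2 * s + √s + 1) + (s' - s) * (√2 * t + √t + 1) ≤
          (t - s) * (√2 * s' + √s' + 1)
        have e1 : (t - s') * (√2 * s + √s + 1) + (s' - s) * (√2 * t + √t + 1) =
          ((t - s') * √s + (s' - s) * √t) + (t - s) * (√2 * s' + 1) := by ring
        have e2 : (t - s) * (√2 * s' + √s' + 1) = (t - s) * √s' + (t - s) * (√2 * s' + 1) := by ring
        rw [e1, e2]
        linarith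
      gm := fun s s' hs hss y => (hy1 s s' (hb'.trans hs) hss y).1 }
  refine ⟨s0, hsa1.trans ha, A, hA1, fun s t a hs hst has x => ?_⟩
  exact hA (kap α β lam) s0 (fun z => b (Complex.arg z)) (cfl α β Cf ζ η)
    (fun q => √2 * q + √q + 1) hK hI s t (mm α β lam t + a)
    (fun q x => vf b (HP (mm α β lam t + a)) (t - q) x) hs hst (v_subfk hb (HP_meas _) s t)
    (fun x hx => by
      change vf b (HP (mm α β lam t + a)) (t - t) x = 0
      rw [sub_self, vf_zero hb (HP_meas _), Set.indicator_of_notMem]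
      exact not_lt.2 hx)
    (fun q hq hq' => by
      have := hadm s t a q (hd.trans hs) has hq hq'
      change _ ≤ √2 * q + √q + 1
      linarith) x

end Pool.H50.BB
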