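import Pool.Agent.H50.BB.Defs1

/-!
# Row Bcm: Cameron-Martin for lines and polygons   (about 220 lines)

`cm_lin`: `Q = Wm.withDensity (exp (μ w_T - μ² T/2))`, `Ψ w = (t ↦ w t - μ min(max t 0) T)` in `Pth`.  Claim `Q.map Ψ = Wm`.  Then
`∫⁻ Z G (stop T w) dWm = ∫⁻ G (stop T (addP (lineP μ) (Ψ w))) dQ = ∫⁻ G (stop T (addP (lineP μ) w)) dWm` as `stop T (addP (lineP μ) (Ψ w)) = stop T w`.
Claim: `Ψ` is pre-Brownian under `Q` (then `IsW.map_eq`).  Use `HasIndepIncrements.isPreBrownianReal_of_hasLaw` (Mathlib BrownianMotion/Basic) or the definition: for finitely many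
times, we may add `T` and `0` to them; the increments `Δ_i` of `w` over consecutive times `t_i < t_{i+1}` are independent `N(0, δ_i)`, and the density is the product over the intervals
`[t_i,t_{i+1}]` below `T` of `exp (μ Δ_i - μ² δ_i/2)`; under this density the `Δ_i` are independent, with law `N(μ δ_i, δ_i)` below `T` (density `exp(μ x - μ² v/2) gaussianPDF 0 v x = gaussianPDF (μ v) v x`)
and `N(0,δ_i)` above; the increments of `Ψ w` are `Δ_i - μ δ_i` below `T` and `Δ_i` above.
(Alternative: two steps. By `cat`/`stop`/`shift` it suffices to treat functionals of the path up to `T`; or use characteristic functions of finite-dimensional laws.)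

`cm_poly`: induction on `N`.  `N = 0`: both sides are `G (stop 0 w)`, `stop 0 _ = 0` path.  Step: at time `c = N h` (`lintegral_cat`-type formulas of H4/BM/Wiener: `∫⁻ F w = ∫⁻∫⁻ F (cat c A B)`):
`addP p (cat c A B) = cat c (addP p A) (addP (shift c p) B)`, the shifted polygon is the line with slope `θ N` up to time `h`; for fixed `A` apply `cm_lin` (with `T = h`, `μ = θ N`) to
`B ↦ G (stop ((N+1)h) (cat c (stop c (addP p A)) B))` (depends on `stop h B`), then the induction hypothesis to `A`; the weights multiply: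
`(cat c A B)((N+1)h) - (cat c A B)(N h) = B h`, and the other increments are those of `A`.
-/

open MeasureTheory ProbabilityTheory Set Filter Topology
open scoped NNReal ENNReal

namespace Pool.H50.BB

open Pool.Agent.H4.BM

theorem Bcm_addP_meas2 {Ω : Type*} [MeasurableSpace Ω] {f g : Ω → Pth} (hf : Measurable f)
    (hg : Measurable g) : Measurable (fun ω => addP (f ω) (g ω)) := by
  refine Pth.measurable_of_eval fun t => ?_
  exact ((Pth.measurable_apply t).comp hg).add ((Pth.measurable_apply t).comp hf)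

theorem addP_meas (p : Pth) : Measurable (addP p) :=
  Bcm_addP_meas2 measurable_const measurable_id

theorem Bcm_addP_apply (p w : Pth) (t : ℝ) : addP p w t = w t + p t := rfl

/-- the ramp: slope `x / T` up to time `T`, then constant -/
noncomputable def Bcm_ramp (T : ℝ≥0) (x : ℝ) : Pth :=
  ⟨fun t => x * (min (max t 0) T / T), by fun_prop, fun t ht => by
    rw [max_eq_right ht, min_eq_left T.coe_nonneg, zero_div, mul_zero]⟩

theorem Bcm_ramp_apply (T : ℝ≥0) (x t : ℝ) :
    Bcm_ramp T x t = x * (min (max t 0) T / T) := rfl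

theorem Bcm_ramp_meas (T : ℝ≥0) : Measurable (Bcm_ramp T) := by
  refine Pth.measurable_of_eval fun t => ?_
  simp only [Bcm_ramp_apply]
  fun_prop

/-- the bridge part of the path -/
noncomputable def Bcm_br (T : ℝ≥0) (w : Pth) : Pth := addP (Bcm_ramp T (- w T)) w

theorem Bcm_br_meas (T : ℝ≥0) : Measurable (Bcm_br T) :=
  Bcm_addP_meas2 ((Bcm_ramp_meas T).comp (Pth.measurable_apply _).neg) measurable_id

theorem Bcm_split (T : ℝ≥0) (w : Pth) : addP (Bcm_ramp T (w T)) (Bcm_br T w) = w := by
  ext t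
  rw [Bcm_addP_apply, Bcm_br, Bcm_addP_apply, Bcm_ramp_apply, Bcm_ramp_apply]
  ring

theorem Bcm_indep {T : ℝ≥0} (hT : T ≠ 0) : IndepFun (fun w : Pth => w T) (Bcm_br T) Wm := by
  have hB : IsPreBrownianReal (fun (t : ℝ≥0) (A : Pth) => A t) Wm := Wm_isW
  have h : IndepFun (fun (w : Pth) (_ : Unit) => w (T : ℝ))
      (fun (w : Pth) (t : ℝ≥0) => w t + (- w T) * (min (t : ℝ) T / T)) Wm := by
    apply IsGaussianProcess.indepFun_of_covariance_eq_zero
    · apply hB.isGaussianProcess.of_isGaussianProcess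
      classical
      rintro (u | t)
      · exact ⟨{T},
          { toFun x := x ⟨T, by simp⟩
            map_add' x y := by simp
            map_smul' c x := by simp }, by simp⟩
      · exact ⟨{T, t},
          { toFun x := x ⟨t, by simp⟩ + (- x ⟨T, by simp⟩) * (min (t : ℝ) T / T)
            map_add' x y := by simp; ring
            map_smul' c x := by simp; ring }, by simp⟩
    · intro u
      exact (Pth.measurable_apply _).aemeasurable
    · intro t
      exact ((Pth.measurable_apply _).add ((Pth.measurable_apply _).neg.mul_const _)).aemeasurable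
    · intro u t
      have l2 : ∀ t : ℝ≥0, MemLp (fun A : Pth => A t) 2 Wm := fun t =>
        (hB.isGaussianProcess.hasGaussianLaw_eval t).memLp_two
      have e : (fun w : Pth => w (t : ℝ) + (- w (T : ℝ)) * (min (t : ℝ) T / T)) =
          fun w : Pth => w (t : ℝ) - (min (t : ℝ) T / T) * w (T : ℝ) := by
        funext w
        ring
      have hc := hB.covariance_fun_eval T t
      have hc2 := hB.covariance_fun_eval T T
      have hTr : (T : ℝ) ≠ 0 := by exact_mod_cast hT
      change cov[fun w : Pth => w (T : ℝ), fun w : Pth => w (t : ℝ) + (- w (T : ℝ)) *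
        (min (t : ℝ) T / T); Wm] = 0
      rw [e, covariance_fun_sub_right (l2 _) (l2 _) ((l2 _).const_mul _),
        covariance_const_mul_right, hc, hc2, NNReal.coe_min, NNReal.coe_min, min_self,
        min_comm (T : ℝ) t]
      field_simp
      ring
  have m1 : Measurable (fun g : Unit → ℝ => g ()) := measurable_pi_apply _
  have m2 : Measurable (fun (g : ℝ≥0 → ℝ) (t : ℝ) => g t.toNNReal) :=
    measurable_pi_iff.2 fun t => measurable_pi_apply _
  have h' := h.comp m1 m2
  have e1 : ((fun g : Unit → ℝ => g ()) ∘ fun (w : Pth) (_ : Unit) => w (T : ℝ)) =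
      fun w : Pth => w (T : ℝ) := rfl
  have e2 : Pth.toFun ∘ Bcm_br T = (fun (g : ℝ≥0 → ℝ) (t : ℝ) => g t.toNNReal) ∘
      (fun (w : Pth) (t : ℝ≥0) => w t + (- w T) * (min (t : ℝ) T / T)) := by
    funext w t
    simp only [Function.comp_apply]
    rw [Bcm_br, Bcm_addP_apply, Bcm_ramp_apply]
    rcases le_total 0 t with ht | ht
    · rw [Real.coe_toNNReal _ ht, max_eq_left ht]
    · rw [Real.toNNReal_of_nonpos ht, max_eq_right ht, w.of_nonpos ht, NNReal.coe_zero, w.zero]
  rw [e1, ← e2] at h'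
  rw [IndepFun_iff_Indep] at h' ⊢
  rw [← MeasurableSpace.comap_comp] at h'
  exact h'

theorem Bcm_law (T : ℝ≥0) : Wm.map (fun w : Pth => w (T : ℝ)) = gaussianReal 0 T :=
  (IsPreBrownianReal.hasLaw_eval (B := fun (t : ℝ≥0) (A : Pth) => A t) Wm_isW T).map_eq

theorem Bcm_prod {T : ℝ≥0} (hT : T ≠ 0) {H : ℝ × Pth → ℝ≥0∞} (hH : Measurable H) :
    ∫⁻ w, H (w T, Bcm_br T w) ∂Wm =
      ∫⁻ R, ∫⁻ x, H (x, R) ∂(gaussianReal 0 T) ∂(Wm.map (Bcm_br T)) := by
  have m1 : Measurable (fun w : Pth => w (T : ℝ)) := Pth.measurable_apply _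
  have h := (indepFun_iff_map_prod_eq_prod_map_map m1.aemeasurable
    (Bcm_br_meas T).aemeasurable).1 (Bcm_indep hT)
  have : IsProbabilityMeasure (Wm.map (Bcm_br T)) :=
    Measure.isProbabilityMeasure_map (Bcm_br_meas T).aemeasurable
  rw [← lintegral_map hH (m1.prodMk (Bcm_br_meas T)), h, Bcm_law,
    lintegral_prod_symm _ hH.aemeasurable]

/-- Cameron-Martin for one Gaussian variable -/
theorem Bcm_one (μ : ℝ) {T : ℝ≥0} (hT : T ≠ 0) {f : ℝ → ℝ≥0∞} (hf : Measurable f) :
    ∫⁻ x, ENNReal.ofReal (Real.exp (μ * x - μ ^ 2 * T / 2)) * f x ∂(gaussianReal 0 T) =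
      ∫⁻ x, f (x + μ * T) ∂(gaussianReal 0 T) := by
  have h1 : ∫⁻ x, f (x + μ * T) ∂(gaussianReal 0 T) = ∫⁻ x, f x ∂(gaussianReal (μ * T) T) := by
    have := gaussianReal_map_add_const (μ := 0) (v := T) (μ * T)
    rw [zero_add] at this
    rw [← this, lintegral_map hf (by fun_prop)]
  rw [h1, gaussianReal_of_var_ne_zero _ hT, gaussianReal_of_var_ne_zero _ hT,
    lintegral_withDensity_eq_lintegral_mul _ (measurable_gaussianPDF _ _) (by fun_prop),
    lintegral_withDensity_eq_lintegral_mul _ (measurable_gaussianPDF _ _) hf]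
  refine lintegral_congr fun x => ?_
  simp only [Pi.mul_apply]
  rw [← mul_assoc]
  congr 1
  rw [gaussianPDF, gaussianPDF, ← ENNReal.ofReal_mul (gaussianPDFReal_nonneg _ _ _)]
  congr 1
  rw [gaussianPDFReal, gaussianPDFReal, mul_assoc, ← Real.exp_add]
  congr 2
  have hTr : (T : ℝ) ≠ 0 := by exact_mod_cast hT
  field_simp
  ring

theorem Bcm_stop_ramp (μ : ℝ) {T : ℝ≥0} (hT : T ≠ 0) (x : ℝ) (R : Pth) :
    Pth.stop T (addP (lineP μ) (addP (Bcm_ramp T x) R)) =
      Pth.stop T (addP (Bcm_ramp T (x + μ * T)) R) := by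
  have hTr : (T : ℝ) ≠ 0 := by exact_mod_cast hT
  ext t
  rw [Pth.stop_apply, Pth.stop_apply, Bcm_addP_apply, Bcm_addP_apply, Bcm_addP_apply,
    Bcm_ramp_apply, Bcm_ramp_apply]
  have h1 : lineP μ (min t T) = μ * max (min t T) 0 := rfl
  have h2 : min (max (min t (T : ℝ)) 0) T = max (min t (T : ℝ)) 0 :=
    min_eq_left (max_le (min_le_right _ _) T.coe_nonneg)
  rw [h1, h2]
  field_simp
  ring

theorem cm_lin (μ : ℝ) (T : ℝ≥0) {G : Pth → ℝ≥0∞} (hG : Measurable G) :
    ∫⁻ w, G (Pth.stop T (addP (lineP μ) w)) ∂Wm =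
      ∫⁻ w, ENNReal.ofReal (Real.exp (μ * w T - μ ^ 2 * T / 2)) * G (Pth.stop T w) ∂Wm := by
  have mstop : Measurable (Pth.stop T) := Pth.measurable_stop measurable_const measurable_id
  rcases eq_or_ne T 0 with hT | hT
  · subst hT
    refine lintegral_congr fun w => ?_
    have e : ∀ A : Pth, Pth.stop 0 A = Pth.stop 0 w := by
      intro A
      ext t
      rw [Pth.stop_apply, Pth.stop_apply, NNReal.coe_zero, A.of_nonpos (min_le_right _ _),
        w.of_nonpos (min_le_right _ _)]
    rw [e (addP (lineP μ) w), NNReal.coe_zero, w.zero]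
    simp
  · have hH1 : Measurable (fun q : ℝ × Pth =>
        G (Pth.stop T (addP (lineP μ) (addP (Bcm_ramp T q.1) q.2)))) := by
      refine hG.comp (mstop.comp ((addP_meas _).comp ?_))
      exact Bcm_addP_meas2 ((Bcm_ramp_meas T).comp measurable_fst) measurable_snd
    have hH2 : Measurable (fun q : ℝ × Pth =>
        ENNReal.ofReal (Real.exp (μ * q.1 - μ ^ 2 * T / 2)) *
          G (Pth.stop T (addP (Bcm_ramp T q.1) q.2))) := by
      refine Measurable.mul (by fun_prop) (hG.comp (mstop.comp ?_))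
      exact Bcm_addP_meas2 ((Bcm_ramp_meas T).comp measurable_fst) measurable_snd
    have e1 := Bcm_prod hT hH1
    have e2 := Bcm_prod hT hH2
    simp only [Bcm_split] at e1 e2
    rw [e1, e2]
    refine lintegral_congr fun R => ?_
    have hf : Measurable (fun x : ℝ => G (Pth.stop T (addP (Bcm_ramp T x) R))) :=
      hG.comp (mstop.comp (Bcm_addP_meas2 (Bcm_ramp_meas T) measurable_const))
    rw [Bcm_one μ hT hf]
    refine lintegral_congr fun x => ?_
    rw [Bcm_stop_ramp μ hT]

/-- the weight of the polygon -/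
noncomputable def Bcm_wt (h : ℝ≥0) (θ : ℕ → ℝ) (N : ℕ) (w : Pth) : ℝ≥0∞ :=
  ENNReal.ofReal (Real.exp (∑ k ∈ Finset.range N, θ k * (w ((k + 1) * h) - w (k * h)) -
    (∑ k ∈ Finset.range N, θ k ^ 2) * h / 2))

theorem Bcm_wt_meas (h : ℝ≥0) (θ : ℕ → ℝ) (N : ℕ) : Measurable (Bcm_wt h θ N) := by
  unfold Bcm_wt
  refine ENNReal.measurable_ofReal.comp (Real.measurable_exp.comp (Measurable.sub ?_
    measurable_const))
  refine Finset.measurable_sum _ fun k _ => ?_
  exact ((Pth.measurable_apply _).sub (Pth.measurable_apply _)).const_mul _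

theorem Bcm_wt_succ (h : ℝ≥0) (θ : ℕ → ℝ) (N : ℕ) (A B : Pth) :
    Bcm_wt h θ (N + 1) (Pth.cat (N * h) A B) =
      ENNReal.ofReal (Real.exp (θ N * B h - θ N ^ 2 * h / 2)) * Bcm_wt h θ N A := by
  unfold Bcm_wt
  rw [← ENNReal.ofReal_mul (Real.exp_pos _).le, ← Real.exp_add]
  congr 2
  have hh := h.coe_nonneg
  have e0 : ∀ k ≤ N, Pth.cat (N * h) A B ((k : ℝ) * h) = A ((k : ℝ) * h) := by
    intro k hk
    apply Pth.cat_apply_of_le
    push_cast
    exact mul_le_mul_of_nonneg_right (by exact_mod_cast hk) hh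
  have e1 : ∀ k ∈ Finset.range N, θ k * (Pth.cat (N * h) A B ((k + 1) * h) -
      Pth.cat (N * h) A B (k * h)) = θ k * (A ((k + 1) * h) - A (k * h)) := by
    intro k hk
    have h1 := e0 (k + 1) (by have := Finset.mem_range.1 hk; omega)
    push_cast at h1
    rw [h1, e0 k (Finset.mem_range.1 hk).le]
  have e2 : Pth.cat (N * h) A B (((N : ℝ) + 1) * h) = A ((N : ℝ) * h) + B h := by
    rw [Pth.cat_apply_of_ge]
    · push_cast
      congr 2
      ring
    · push_cast
      nlinarith
  rw [Finset.sum_range_succ, Finset.sum_range_succ, Finset.sum_congr rfl e1, e2, e0 N le_rfl]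
  ring

theorem Bcm_stop_succ (h : ℝ≥0) (N : ℕ) (A B : Pth) :
    Pth.stop (((N + 1 : ℕ) : ℝ≥0) * h) (Pth.cat (N * h) A B) =
      Pth.cat (N * h) (Pth.stop (N * h) A) (Pth.stop h B) := by
  ext t
  rw [Pth.stop_apply, Pth.cat_apply, Pth.cat_apply, Pth.stop_apply, Pth.stop_apply]
  have hh := h.coe_nonneg
  push_cast
  have e1 : min (min t (((N : ℝ) + 1) * h)) ((N : ℝ) * h) = min (min t ((N : ℝ) * h)) ((N : ℝ) * h) := by
    rw [min_assoc, min_assoc, min_self]
    congr 1
    exact min_eq_right (by nlinarith)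
  have e2 : min t (((N : ℝ) + 1) * h) - (N : ℝ) * h = min (t - (N : ℝ) * h) h := by
    rw [← min_sub_sub_right]
    congr 1
    ring
  rw [e1, e2]

theorem cm_poly (h : ℝ≥0) (θ : ℕ → ℝ) (p : Pth) (N : ℕ)
    (hp : ∀ k < N, ∀ s ∈ Icc (0 : ℝ) h, p (k * h + s) = p (k * h) + θ k * s)
    {G : Pth → ℝ≥0∞} (hG : Measurable G) :
    ∫⁻ w, G (Pth.stop (N * h) (addP p w)) ∂Wm =
      ∫⁻ w, ENNReal.ofReal (Real.exp (∑ k ∈ Finset.range N, θ k * (w ((k + 1) * h) - w (k * h)) -
        (∑ k ∈ Finset.range N, θ k ^ 2) * h / 2)) * G (Pth.stop (N * h) w) ∂Wm := by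
  change _ = ∫⁻ w, Bcm_wt h θ N w * G (Pth.stop (N * h) w) ∂Wm
  induction N generalizing G with
  | zero =>
    refine lintegral_congr fun w => ?_
    have e : ∀ A : Pth, Pth.stop (((0 : ℕ) : ℝ≥0) * h) A = Pth.stop (((0 : ℕ) : ℝ≥0) * h) w := by
      intro A
      ext t
      have h0 : ((((0 : ℕ) : ℝ≥0) * h : ℝ≥0) : ℝ) = 0 := by simp
      rw [Pth.stop_apply, Pth.stop_apply, h0, A.of_nonpos (min_le_right _ _),
        w.of_nonpos (min_le_right _ _)]
    rw [e (addP p w)]
    simp [Bcm_wt]
  | succ N ih =>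
    have ih' := fun {G : Pth → ℝ≥0∞} (hG : Measurable G) =>
      ih (G := G) (fun k hk => hp k (by omega)) hG
    set c : ℝ≥0 := N * h with hc
    have hh := h.coe_nonneg
    have mcat : ∀ {Ω : Type} [MeasurableSpace Ω] {f g : Ω → Pth}, Measurable f → Measurable g →
        Measurable (fun ω => Pth.cat c (f ω) (g ω)) :=
      fun hf hg => Pth.measurable_cat measurable_const hf hg
    have mst : ∀ d : ℝ≥0, Measurable (Pth.stop d) := fun d =>
      Pth.measurable_stop measurable_const measurable_id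
    -- left side
    have hF : Measurable (fun w : Pth => G (Pth.stop (((N + 1 : ℕ) : ℝ≥0) * h) (addP p w))) :=
      hG.comp ((mst _).comp (addP_meas p))
    rw [← lintegral_cat Wm_isW c hF]
    have e1 : ∀ A B : Pth, Pth.stop (((N + 1 : ℕ) : ℝ≥0) * h) (addP p (Pth.cat c A B)) =
        Pth.cat c (Pth.stop c (addP p A)) (Pth.stop h (addP (lineP (θ N)) B)) := by
      intro A B
      have e0 : addP p (Pth.cat c A B) = Pth.cat c (addP p A) (addP (Pth.shift c p) B) := by
        refine Pth.ext_pos fun t ht => ?_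
        rw [Bcm_addP_apply]
        rcases le_total t c with h1 | h1
        · rw [Pth.cat_apply_of_le _ _ h1, Pth.cat_apply_of_le _ _ h1, Bcm_addP_apply]
        · rw [Pth.cat_apply_of_ge _ _ h1, Pth.cat_apply_of_ge _ _ h1, Bcm_addP_apply,
            Bcm_addP_apply, Pth.shift_apply_of_nonneg _ _ (by linarith)]
          ring_nf
      rw [e0, hc, Bcm_stop_succ, ← hc]
      congr 1
      refine Pth.ext_pos fun t ht => ?_
      rw [Pth.stop_apply, Pth.stop_apply, Bcm_addP_apply, Bcm_addP_apply]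
      congr 1
      have h0 : (0 : ℝ) ≤ min t h := le_min ht hh
      rw [Pth.shift_apply_of_nonneg _ _ h0]
      have h1 : lineP (θ N) (min t h) = θ N * max (min t h) 0 := rfl
      rw [h1, max_eq_left h0]
      have h2 := hp N (by omega) (min t h) ⟨h0, min_le_right _ _⟩
      have h3 : ((c : ℝ≥0) : ℝ) = (N : ℝ) * h := by rw [hc]; push_cast; ring
      rw [h3, h2]
      ring
    simp only [e1]
    have e2 : ∀ A : Pth, ∫⁻ B, G (Pth.cat c (Pth.stop c (addP p A))
        (Pth.stop h (addP (lineP (θ N)) B))) ∂Wm =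
        ∫⁻ B, ENNReal.ofReal (Real.exp (θ N * B h - θ N ^ 2 * h / 2)) *
          G (Pth.cat c (Pth.stop c (addP p A)) (Pth.stop h B)) ∂Wm := by
      intro A
      exact cm_lin (θ N) h (G := fun B => G (Pth.cat c (Pth.stop c (addP p A)) B))
        (hG.comp (mcat measurable_const measurable_id))
    simp only [e2]
    have mB : Measurable (fun B : Pth => ENNReal.ofReal (Real.exp (θ N * B h - θ N ^ 2 * h / 2))) := by
      refine ENNReal.measurable_ofReal.comp (Real.measurable_exp.comp (Measurable.sub ?_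
        measurable_const))
      exact (Pth.measurable_apply _).const_mul _
    rw [lintegral_lintegral_swap]
    · have e3 : ∀ B : Pth, ∫⁻ A, ENNReal.ofReal (Real.exp (θ N * B h - θ N ^ 2 * h / 2)) *
          G (Pth.cat c (Pth.stop c (addP p A)) (Pth.stop h B)) ∂Wm =
          ∫⁻ A, ENNReal.ofReal (Real.exp (θ N * B h - θ N ^ 2 * h / 2)) * (Bcm_wt h θ N A *
          G (Pth.cat c (Pth.stop c A) (Pth.stop h B))) ∂Wm := by
        intro B
        have m1 : Measurable (fun A : Pth => G (Pth.cat c A (Pth.stop h B))) :=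
          hG.comp (mcat measurable_id measurable_const)
        have m2 : Measurable (fun A : Pth =>
            G (Pth.cat c (Pth.stop c (addP p A)) (Pth.stop h B))) :=
          m1.comp ((mst c).comp (addP_meas p))
        have m3 : Measurable (fun A : Pth =>
            Bcm_wt h θ N A * G (Pth.cat c (Pth.stop c A) (Pth.stop h B))) :=
          (Bcm_wt_meas h θ N).mul (m1.comp (mst c))
        rw [lintegral_const_mul _ m2, lintegral_const_mul _ m3]
        congr 1
        exact ih' m1
      simp only [e3]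
      rw [lintegral_lintegral_swap]
      · have hR : Measurable (fun w : Pth => Bcm_wt h θ (N + 1) w *
            G (Pth.stop (((N + 1 : ℕ) : ℝ≥0) * h) w)) :=
          (Bcm_wt_meas h θ (N + 1)).mul (hG.comp (mst _))
        rw [← lintegral_cat Wm_isW c hR]
        refine lintegral_congr fun A => lintegral_congr fun B => ?_
        rw [hc, Bcm_wt_succ, Bcm_stop_succ, mul_assoc]
      · refine Measurable.aemeasurable ?_
        refine (mB.comp measurable_fst).mul (((Bcm_wt_meas h θ N).comp measurable_snd).mul ?_)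
        exact hG.comp (mcat ((mst c).comp measurable_snd) ((mst h).comp measurable_fst))
    · refine Measurable.aemeasurable ?_
      refine (mB.comp measurable_snd).mul ?_
      exact hG.comp (mcat ((mst c).comp ((addP_meas p).comp measurable_fst))
        ((mst h).comp measurable_snd))

end Pool.H50.BB
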