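import Pool.Agent.H50.BB.Brf
import Pool.Agent.H50.BB.Bcm

/-!
# Row Bkl: killed kernel with drift and law of the hitting time of a line   (about 180 lines)

`kline`.  With `F w = 1{∀ s ∈ [0,T], w s < D} f (D - w T)` (a function of `stop T w`): `w ∈ Blw D μ T`, `D + μ T - w T` are `w - μ s` staying below `D`, `D - (w - μ·)(T)`; so the left side is
`∫⁻ F (addP (lineP (-μ)) w) = ∫⁻ exp(-μ w T - μ² T/2) F w` (`cm_lin`), and on `w T = D - d`: `exp(-μ (D-d)) = exp (μ (d - D))`; `refl_lint` with the function `f d * exp (μ (d-D) - μ² T/2)`.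

`surv`: probability of `Blw D μ s`.  With `Φ x = ∫ y in Iic x, gd 1 y`: completing squares,
`exp(μ(d-D) - μ² s/2) gd s (d-D) = gd s (d - D - μ s)`, `exp(μ(d-D) - μ² s/2) gd s (d+D) = exp(-2μD) gd s (d + D - μ s)`, so
`Wm (Blw D μ s) = F(s) := Φ((D+μ s)/√s) - exp(-2μD) Φ((μ s - D)/√s)`.
`hit_lint`: both sides are `∫ f dν_i` for finite measures carried by `(0,T]` (`hit_spec`).  `ν_1(Iic s) = 1 - F(s)` for `0 < s ≤ T`.  `F' = -fpd μ D`: `Φ' = gd 1`, with
`A = (D+μs)/√s`, `B = (μ s-D)/√s`: `A² - B² = 4μD` so `exp(-2μD) gd 1 B = gd 1 A`; `A' - B' = (μ/(2√s) - D/(2 s^{3/2})) - (μ/(2√s) + D/(2 s^{3/2})) = -D s^{-3/2}`; so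
`F' = gd 1 A (A' - B') = -D s^{-3/2} (2π)^{-1/2} exp(-(D+μs)²/(2s)) = -fpd μ D s`.  `F(s) → 1` as `s → 0+` (`A → ∞`, `B → -∞`).  So `1 - F(s) = ∫_0^s fpd μ D` (FTC on `[ε,s]`,
`ε → 0`; `fpd ≥ 0`).  `Measure.ext_of_Iic`.
-/

open MeasureTheory ProbabilityTheory Set Filter Topology
open scoped NNReal ENNReal

namespace Pool.H50.BB

open Pool.Agent.H4.BM

/-- the Gaussian tail -/
noncomputable def Bkl_Q (x : ℝ) : ℝ := ∫ y in Ioi x, gd 1 y

/-- the survival probability -/
noncomputable def Bkl_F (μ D s : ℝ) : ℝ :=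
  Bkl_Q (-(D / √s) - μ * √s) - Real.exp (-(2 * μ * D)) * Bkl_Q (D / √s - μ * √s)

theorem Bkl_gd (v : ℝ≥0) : gd v = gaussianPDFReal 0 v := by
  funext x
  unfold gd gaussianPDFReal
  rw [sub_zero]

theorem Bkl_gd' {s : ℝ} (hs : 0 ≤ s) : gd s = gaussianPDFReal 0 s.toNNReal := by
  rw [← Bkl_gd, Real.coe_toNNReal s hs]

theorem Bkl_int {s : ℝ} (hs : 0 ≤ s) : Integrable (gd s) := by
  rw [Bkl_gd' hs]
  exact integrable_gaussianPDFReal _ _

theorem Bkl_cont (s : ℝ) : Continuous (gd s) := by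
  unfold gd
  fun_prop

theorem Bkl_one : ∫ x, gd 1 x = 1 := by
  have h := Bkl_gd 1
  rw [NNReal.coe_one] at h
  rw [h]
  exact integral_gaussianPDFReal_eq_one 0 one_ne_zero

theorem Bkl_Q_deriv (x : ℝ) : HasDerivAt Bkl_Q (-gd 1 x) x := by
  have h1 : Bkl_Q = fun x => Bkl_Q 0 - ∫ y in (0 : ℝ)..x, gd 1 y := by
    funext x
    have h2 := intervalIntegral.integral_Ioi_sub_Ioi' (μ := volume) (f := gd 1) (a := 0) (b := x)
      (Bkl_int zero_le_one).integrableOn (Bkl_int zero_le_one).integrableOn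
    unfold Bkl_Q
    linarith
  rw [h1]
  have h3 : HasDerivAt (fun x => ∫ y in (0 : ℝ)..x, gd 1 y) (gd 1 x) x :=
    intervalIntegral.integral_hasDerivAt_right ((Bkl_cont 1).intervalIntegrable _ _)
      ((Bkl_cont 1).stronglyMeasurableAtFilter _ _) (Bkl_cont 1).continuousAt
  have h4 := h3.const_sub (Bkl_Q 0)
  exact h4

theorem Bkl_Q_bot : Tendsto Bkl_Q atBot (𝓝 1) := by
  have h := (aecover_Ioi (μ := volume) (l := atBot) (a := fun x : ℝ => x) tendsto_id
    ).integral_tendsto_of_countably_generated (Bkl_int zero_le_one)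
  rw [Bkl_one] at h
  exact h

theorem Bkl_Q_top : Tendsto Bkl_Q atTop (𝓝 0) := by
  have h := (aecover_Iic (μ := volume) (l := atTop) (b := fun x : ℝ => x) tendsto_id
    ).integral_tendsto_of_countably_generated (Bkl_int zero_le_one)
  rw [Bkl_one] at h
  have h1 : Bkl_Q = fun x => 1 - ∫ y in Iic x, gd 1 y := by
    funext x
    have h2 := intervalIntegral.integral_Iic_add_Ioi (μ := volume) (f := gd 1) (b := x)
      (Bkl_int zero_le_one).integrableOn (Bkl_int zero_le_one).integrableOn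
    rw [Bkl_one] at h2
    unfold Bkl_Q
    linarith
  rw [h1]
  have h3 := h.const_sub 1
  rw [sub_self] at h3
  exact h3

theorem Bkl_scale {s : ℝ} (hs : 0 < s) (a : ℝ) :
    ∫ d in Ioi (0 : ℝ), gd s (d + a) = Bkl_Q (a / √s) := by
  have hq : 0 < √s := Real.sqrt_pos.2 hs
  have h1 : ∫ d in Ioi (0 : ℝ), gd s (d + a) = ∫ y in Ioi a, gd s y := by
    have h := (measurePreserving_add_right (volume : Measure ℝ) a).setIntegral_preimage_emb
      (MeasurableEquiv.addRight a).measurableEmbedding (gd s) (Ioi a)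
    rw [← h]
    have h2 : (fun x => x + a) ⁻¹' Ioi a = Ioi (0 : ℝ) := by
      ext x
      simp only [mem_preimage, mem_Ioi]
      constructor <;> intro h3 <;> linarith
    rw [h2]
  have h2 : ∀ y, gd s y = (√s)⁻¹ * gd 1 ((√s)⁻¹ * y) := by
    intro y
    unfold gd
    have e1 : √(2 * Real.pi * s) = √s * √(2 * Real.pi * 1) := by
      rw [mul_one, mul_comm (2 * Real.pi) s, Real.sqrt_mul hs.le]
    have e2 : -((√s)⁻¹ * y) ^ 2 / (2 * 1) = -y ^ 2 / (2 * s) := by
      rw [mul_pow, inv_pow, Real.sq_sqrt hs.le]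
      field_simp
    rw [e1, e2, mul_inv]
    ring
  rw [h1]
  simp only [h2]
  rw [integral_const_mul, integral_comp_mul_left_Ioi _ _ (inv_pos.2 hq), inv_inv, smul_eq_mul,
    ← mul_assoc, inv_mul_cancel₀ hq.ne', one_mul]
  unfold Bkl_Q
  rw [inv_mul_eq_div]

theorem Bkl_u_deriv {D s : ℝ} (hs : 0 < s) :
    HasDerivAt (fun s => D / √s) (-(D / (2 * s * √s))) s := by
  have hq : √s ≠ 0 := (Real.sqrt_pos.2 hs).ne'
  have h1 := (Real.hasDerivAt_sqrt hs.ne').inv hq
  have h2 := h1.const_mul D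
  have h3 : (fun s => D * (√s)⁻¹) = fun s => D / √s := by
    funext t
    rw [div_eq_mul_inv]
  have h4 : D * (-(1 / (2 * √s)) / √s ^ 2) = -(D / (2 * s * √s)) := by
    rw [Real.sq_sqrt hs.le]
    field_simp
  rw [← h4]
  rw [← h3]
  exact h2

theorem Bkl_v_deriv {μ s : ℝ} (hs : 0 < s) :
    HasDerivAt (fun s => μ * √s) (μ * (1 / (2 * √s))) s :=
  (Real.hasDerivAt_sqrt hs.ne').const_mul μ

theorem Bkl_F_deriv {μ D s : ℝ} (hs : 0 < s) :
    HasDerivAt (Bkl_F μ D) (-fpd μ D s) s := by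
  have hq : 0 < √s := Real.sqrt_pos.2 hs
  have hu := Bkl_u_deriv (D := D) hs
  have hv := Bkl_v_deriv (μ := μ) hs
  have hα : HasDerivAt (fun s => -(D / √s) - μ * √s)
      (-(-(D / (2 * s * √s))) - μ * (1 / (2 * √s))) s := hu.neg.sub hv
  have hβ : HasDerivAt (fun s => D / √s - μ * √s)
      (-(D / (2 * s * √s)) - μ * (1 / (2 * √s))) s := hu.sub hv
  have h1 := (Bkl_Q_deriv (-(D / √s) - μ * √s)).comp s hα
  have h2 := ((Bkl_Q_deriv (D / √s - μ * √s)).comp s hβ).const_mul (Real.exp (-(2 * μ * D)))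
  have h3 := h1.sub h2
  have e0 : D / √s * (μ * √s) = D * μ := by
    field_simp
  have e1 : Real.exp (-(2 * μ * D)) * gd 1 (D / √s - μ * √s) = gd 1 (-(D / √s) - μ * √s) := by
    unfold gd
    rw [← mul_assoc, mul_comm (Real.exp (-(2 * μ * D))), mul_assoc, ← Real.exp_add]
    congr 2
    have : (D / √s - μ * √s) ^ 2 = (-(D / √s) - μ * √s) ^ 2 - 4 * (D * μ) := by
      rw [← e0]
      ring
    rw [this]
    ring
  have e2 : gd 1 (-(D / √s) - μ * √s) = (√(2 * Real.pi))⁻¹ * Real.exp (-(D + μ * s) ^ 2 / (2 * s)) := by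
    unfold gd
    rw [mul_one]
    congr 2
    have h4 : -(D / √s) - μ * √s = -((D + μ * s) / √s) := by
      have h5 : μ * √s = μ * s / √s := by
        rw [eq_div_iff hq.ne', mul_assoc, Real.mul_self_sqrt hs.le]
      rw [h5]
      ring
    rw [h4, neg_sq, div_pow, Real.sq_sqrt hs.le]
    field_simp
  have e3 : (√(2 * Real.pi * s ^ 3))⁻¹ = (√(2 * Real.pi))⁻¹ * (s * √s)⁻¹ := by
    have h4 : s ^ 3 = (s * √s) ^ 2 := by
      rw [mul_pow, Real.sq_sqrt hs.le]
      ring
    rw [Real.sqrt_mul (by positivity), h4, Real.sqrt_sq (by positivity), mul_inv]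
  have e4 : -fpd μ D s = -gd 1 (-(D / √s) - μ * √s) * (-(-(D / (2 * s * √s))) - μ * (1 / (2 * √s))) -
      Real.exp (-(2 * μ * D)) * (-gd 1 (D / √s - μ * √s) *
        (-(D / (2 * s * √s)) - μ * (1 / (2 * √s)))) := by
    have h5 : Real.exp (-(2 * μ * D)) * (-gd 1 (D / √s - μ * √s) *
        (-(D / (2 * s * √s)) - μ * (1 / (2 * √s)))) =
        -(Real.exp (-(2 * μ * D)) * gd 1 (D / √s - μ * √s)) *
          (-(D / (2 * s * √s)) - μ * (1 / (2 * √s))) := by ring
    rw [h5, e1]
    have h6 : ∀ g a b : ℝ, -g * (-(-a) - b) - -g * (-a - b) = -(2 * a * g) := by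
      intro g a b
      ring
    rw [h6, e2]
    unfold fpd
    rw [e3]
    have h7 : 2 * (D / (2 * s * √s)) = D * (s * √s)⁻¹ := by
      field_simp
    rw [h7]
    ring
  rw [e4]
  exact h3

theorem Bkl_F_zero {μ D : ℝ} (hD : 0 < D) : Tendsto (Bkl_F μ D) (𝓝[>] 0) (𝓝 1) := by
  have hq : Tendsto (fun s : ℝ => √s) (𝓝[>] 0) (𝓝[>] 0) := by
    refine tendsto_nhdsWithin_iff.2 ⟨?_, ?_⟩
    · have h := (Real.continuous_sqrt.tendsto 0).mono_left (nhdsWithin_le_nhds (s := Ioi 0))
      rw [Real.sqrt_zero] at h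
      exact h
    · filter_upwards [self_mem_nhdsWithin] with s hs
      exact Real.sqrt_pos.2 hs
  have hu : Tendsto (fun s : ℝ => D / √s) (𝓝[>] 0) atTop := by
    have h1 : Tendsto (fun s : ℝ => (√s)⁻¹) (𝓝[>] 0) atTop := tendsto_inv_nhdsGT_zero.comp hq
    have h2 := h1.const_mul_atTop hD
    refine h2.congr fun s => ?_
    rw [div_eq_mul_inv]
  have hv : Tendsto (fun s : ℝ => μ * √s) (𝓝[>] 0) (𝓝 0) := by
    have h1 := (hq.mono_right nhdsWithin_le_nhds).const_mul μ
    rw [mul_zero] at h1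
    exact h1
  have hα : Tendsto (fun s : ℝ => -(D / √s) - μ * √s) (𝓝[>] 0) atBot := by
    have h1 : Tendsto (fun s : ℝ => -(D / √s)) (𝓝[>] 0) atBot := tendsto_neg_atTop_atBot.comp hu
    have h2 := h1.atBot_add hv.neg
    refine h2.congr fun s => ?_
    ring
  have hβ : Tendsto (fun s : ℝ => D / √s - μ * √s) (𝓝[>] 0) atTop := by
    have h2 := hu.atTop_add hv.neg
    refine h2.congr fun s => ?_
    ring
  have h3 := (Bkl_Q_bot.comp hα).sub ((Bkl_Q_top.comp hβ).const_mul (Real.exp (-(2 * μ * D))))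
  rw [mul_zero, sub_zero] at h3
  exact h3

theorem kline {T D : ℝ} (μ : ℝ) (hT : 0 < T) (hD : 0 < D) {f : ℝ → ℝ≥0∞} (hf : Measurable f) :
    ∫⁻ w in Blw D μ T, f (D + μ * T - w T) ∂Wm =
      ∫⁻ d in Ioi (0 : ℝ), f d * ENNReal.ofReal (Real.exp (μ * (d - D) - μ ^ 2 * T / 2) * kk T D d) := by
  have hB := blw_meas D 0 T
  have hT' : ((T.toNNReal : ℝ≥0) : ℝ) = T := Real.coe_toNNReal T hT.le
  have hG : Measurable ((Blw D 0 T).indicator (fun v : Pth => f (D - v T))) :=
    (hf.comp (measurable_const.sub (Pth.measurable_apply T))).indicator hB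
  have h1 := cm_lin (-μ) T.toNNReal hG
  rw [hT'] at h1
  have e1 : ∀ w : Pth, (Blw D 0 T).indicator (fun v : Pth => f (D - v T))
      (Pth.stop T.toNNReal (addP (lineP (-μ)) w)) =
      (Blw D μ T).indicator (fun w : Pth => f (D + μ * T - w T)) w := by
    intro w
    have hv : ∀ s ∈ Icc (0 : ℝ) T, Pth.stop T.toNNReal (addP (lineP (-μ)) w) s = w s - μ * s := by
      intro s hs
      rw [Pth.stop_apply, hT', min_eq_left hs.2]
      show w s + (-μ) * max s 0 = _
      rw [max_eq_left hs.1]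
      ring
    by_cases hw : w ∈ Blw D μ T
    · have hw' : Pth.stop T.toNNReal (addP (lineP (-μ)) w) ∈ Blw D 0 T := by
        intro s hs
        rw [hv s hs]
        have := hw s hs
        linarith
      rw [indicator_of_mem hw', indicator_of_mem hw, hv T ⟨hT.le, le_rfl⟩]
      congr 1
      ring
    · have hw' : Pth.stop T.toNNReal (addP (lineP (-μ)) w) ∉ Blw D 0 T := by
        intro h
        apply hw
        intro s hs
        have := h s hs
        rw [hv s hs] at this
        linarith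
      rw [indicator_of_notMem hw', indicator_of_notMem hw]
  have e2 : ∀ w : Pth, ENNReal.ofReal (Real.exp (-μ * w T - (-μ) ^ 2 * T / 2)) *
      (Blw D 0 T).indicator (fun v : Pth => f (D - v T)) (Pth.stop T.toNNReal w) =
      (Blw D 0 T).indicator (fun w : Pth =>
        (fun d => ENNReal.ofReal (Real.exp (μ * (d - D) - μ ^ 2 * T / 2)) * f d) (D - w T)) w := by
    intro w
    have hv : ∀ s ∈ Icc (0 : ℝ) T, Pth.stop T.toNNReal w s = w s := by
      intro s hs
      rw [Pth.stop_apply, hT', min_eq_left hs.2]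
    by_cases hw : w ∈ Blw D 0 T
    · have hw' : Pth.stop T.toNNReal w ∈ Blw D 0 T := by
        intro s hs
        rw [hv s hs]
        exact hw s hs
      rw [indicator_of_mem hw', indicator_of_mem hw, hv T ⟨hT.le, le_rfl⟩]
      show _ = ENNReal.ofReal (Real.exp (μ * (D - w T - D) - μ ^ 2 * T / 2)) * f (D - w T)
      congr 3
      ring
    · have hw' : Pth.stop T.toNNReal w ∉ Blw D 0 T := by
        intro h
        apply hw
        intro s hs
        have := h s hs
        rwa [hv s hs] at this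
      rw [indicator_of_notMem hw', indicator_of_notMem hw, mul_zero]
  simp only [e1, e2] at h1
  rw [lintegral_indicator (blw_meas D μ T), lintegral_indicator hB] at h1
  rw [h1, refl_lint hT hD (f := fun d =>
    ENNReal.ofReal (Real.exp (μ * (d - D) - μ ^ 2 * T / 2)) * f d) (by fun_prop)]
  refine lintegral_congr fun d => ?_
  rw [ENNReal.ofReal_mul (Real.exp_pos _).le]
  ring

theorem fpd_nonneg {μ D s : ℝ} (hD : 0 ≤ D) : 0 ≤ fpd μ D s := by
  unfold fpd
  positivity

theorem Bkl_pt {μ D s d : ℝ} (hs : 0 < s) :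
    Real.exp (μ * (d - D) - μ ^ 2 * s / 2) * kk s D d =
      gd s (d + (-(D + μ * s))) - Real.exp (-(2 * μ * D)) * gd s (d + (D - μ * s)) := by
  unfold kk gd
  rw [mul_sub]
  have h : ∀ c x : ℝ, Real.exp (μ * (d - D) - μ ^ 2 * s / 2) * (c * Real.exp x) =
      c * Real.exp (μ * (d - D) - μ ^ 2 * s / 2 + x) := by
    intro c x
    rw [Real.exp_add]
    ring
  have h' : ∀ c x : ℝ, Real.exp (-(2 * μ * D)) * (c * Real.exp x) =
      c * Real.exp (-(2 * μ * D) + x) := by
    intro c x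
    rw [Real.exp_add]
    ring
  rw [h, h, h']
  have e1 : μ * (d - D) - μ ^ 2 * s / 2 + -(d - D) ^ 2 / (2 * s) =
      -(d + (-(D + μ * s))) ^ 2 / (2 * s) := by
    field_simp
    ring
  have e2 : μ * (d - D) - μ ^ 2 * s / 2 + -(d + D) ^ 2 / (2 * s) =
      -(2 * μ * D) + -(d + (D - μ * s)) ^ 2 / (2 * s) := by
    field_simp
    ring
  rw [e1, e2]

theorem Bkl_surv {μ D s : ℝ} (hs : 0 < s) (hD : 0 < D) :
    0 ≤ Bkl_F μ D s ∧ Wm (Blw D μ s) = ENNReal.ofReal (Bkl_F μ D s) := by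
  have h1 := kline μ hs hD (f := fun _ => 1) measurable_const
  rw [setLIntegral_one] at h1
  simp only [one_mul] at h1
  have hnn : ∀ d ∈ Ioi (0 : ℝ), 0 ≤ Real.exp (μ * (d - D) - μ ^ 2 * s / 2) * kk s D d := by
    intro d hd
    exact mul_nonneg (Real.exp_pos _).le (kk_nonneg hs hD.le (le_of_lt hd))
  have i1 : Integrable (fun d => gd s (d + (-(D + μ * s)))) := (Bkl_int hs.le).comp_add_right _
  have i2 : Integrable (fun d => Real.exp (-(2 * μ * D)) * gd s (d + (D - μ * s))) :=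
    ((Bkl_int hs.le).comp_add_right _).const_mul _
  have hF : ∫ d in Ioi (0 : ℝ), Real.exp (μ * (d - D) - μ ^ 2 * s / 2) * kk s D d =
      Bkl_F μ D s := by
    simp only [Bkl_pt hs]
    rw [integral_sub i1.integrableOn i2.integrableOn, integral_const_mul, Bkl_scale hs, Bkl_scale hs]
    unfold Bkl_F
    have hq : 0 < √s := Real.sqrt_pos.2 hs
    have h5 : μ * √s = μ * s / √s := by
      rw [eq_div_iff hq.ne', mul_assoc, Real.mul_self_sqrt hs.le]
    rw [h5]
    congr 2
    · ring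
    · congr 1
      ring
  have hi : IntegrableOn (fun d => Real.exp (μ * (d - D) - μ ^ 2 * s / 2) * kk s D d) (Ioi 0) := by
    simp only [Bkl_pt hs]
    exact (i1.sub i2).integrableOn
  refine ⟨?_, ?_⟩
  · rw [← hF]
    exact setIntegral_nonneg measurableSet_Ioi hnn
  · rw [h1, ← hF]
    exact (ofReal_integral_eq_lintegral_ofReal hi
      ((ae_restrict_iff' measurableSet_Ioi).2 (ae_of_all _ hnn))).symm

theorem Bkl_ftc {μ D a : ℝ} (hD : 0 < D) (ha : 0 < a) :
    ∫⁻ s in Ioc 0 a, ENNReal.ofReal (fpd μ D s) = ENNReal.ofReal (1 - Bkl_F μ D a) := by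
  have hd : ∀ x : ℝ, 0 < x → HasDerivAt (Function.update (fun s => 1 - Bkl_F μ D s) 0 0)
      (fpd μ D x) x := by
    intro x hx
    have h1 := (Bkl_F_deriv (μ := μ) (D := D) hx).const_sub 1
    rw [neg_neg] at h1
    refine h1.congr_of_eventuallyEq ?_
    filter_upwards [eventually_ne_nhds hx.ne'] with y hy
    rw [Function.update_of_ne hy]
  have hcont : ContinuousOn (Function.update (fun s => 1 - Bkl_F μ D s) 0 0) (Icc 0 a) := by
    intro x hx
    rcases eq_or_lt_of_le hx.1 with h0 | h0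
    · subst h0
      rw [continuousWithinAt_update_same]
      have h1 : Tendsto (fun s => 1 - Bkl_F μ D s) (𝓝[>] 0) (𝓝 (1 - 1)) :=
        (Bkl_F_zero hD).const_sub 1
      rw [sub_self] at h1
      refine h1.mono_left (nhdsWithin_mono _ ?_)
      intro y hy
      exact lt_of_le_of_ne hy.1.1 (fun h => hy.2 h.symm)
    · exact (hd x h0).continuousAt.continuousWithinAt
  have hint := intervalIntegral.integrableOn_deriv_of_nonneg hcont (fun x hx => hd x hx.1)
    (fun x _ => fpd_nonneg hD.le)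
  have h2 := intervalIntegral.integral_eq_sub_of_hasDerivAt_of_le ha.le hcont
    (fun x hx => hd x hx.1) ((intervalIntegrable_iff_integrableOn_Ioc_of_le ha.le).2 hint)
  rw [Function.update_self, Function.update_of_ne ha.ne', sub_zero,
    intervalIntegral.integral_of_le ha.le] at h2
  rw [← h2]
  exact (ofReal_integral_eq_lintegral_ofReal hint
    (ae_of_all _ fun x => fpd_nonneg hD.le)).symm

theorem Bkl_meas (μ D : ℝ) : Measurable (fun s => ENNReal.ofReal (fpd μ D s)) := by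
  unfold fpd
  fun_prop

theorem Bkl_compl {μ D s : ℝ} (hs : 0 < s) (hD : 0 < D) :
    Wm (Blw D μ s)ᶜ = ENNReal.ofReal (1 - Bkl_F μ D s) := by
  obtain ⟨h1, h2⟩ := Bkl_surv (μ := μ) hs hD
  rw [prob_compl_eq_one_sub (blw_meas D μ s), h2, ENNReal.ofReal_sub _ h1, ENNReal.ofReal_one]

theorem hit_lint {T D : ℝ} (μ : ℝ) (hT : 0 < T) (hD : 0 < D) {f : ℝ → ℝ≥0∞} (hf : Measurable f) :
    ∫⁻ w in (Blw D μ T)ᶜ, f (hit D μ w) ∂Wm = ∫⁻ s in Ioc 0 T, f s * ENNReal.ofReal (fpd μ D s) := by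
  have hB := (blw_meas D μ T).compl
  have hh := hit_meas' D μ
  have hν : (Wm.restrict (Blw D μ T)ᶜ).map (hit D μ) =
      (volume.restrict (Ioc 0 T)).withDensity (fun s => ENNReal.ofReal (fpd μ D s)) := by
    have hIic : ∀ a : ℝ, 0 < a → a ≤ T → (Wm.restrict (Blw D μ T)ᶜ).map (hit D μ) (Iic a) =
        (volume.restrict (Ioc 0 T)).withDensity (fun s => ENNReal.ofReal (fpd μ D s)) (Iic a) := by
      intro a ha haT
      rw [Measure.map_apply hh measurableSet_Iic, Measure.restrict_apply (hh measurableSet_Iic),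
        withDensity_apply _ measurableSet_Iic, Measure.restrict_restrict measurableSet_Iic]
      have h1 : hit D μ ⁻¹' Iic a ∩ (Blw D μ T)ᶜ = (Blw D μ a)ᶜ := by
        ext w
        constructor
        · rintro ⟨hw1, hw2⟩ hw3
          have h2 := ((hit_spec hD hT.le hw2).2.2.2 a ha.le haT).1 hw3
          exact absurd hw1 (not_le.2 h2)
        · intro hw
          have hw2 : w ∉ Blw D μ T := fun h => hw (fun s hs => h s ⟨hs.1, hs.2.trans haT⟩)
          refine ⟨?_, hw2⟩
          have h2 := (hit_spec hD hT.le hw2).2.2.2 a ha.le haT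
          exact not_lt.1 (fun h => hw (h2.2 h))
      have h2 : Iic a ∩ Ioc 0 T = Ioc 0 a := by
        ext s
        simp only [mem_inter_iff, mem_Iic, mem_Ioc]
        constructor
        · rintro ⟨h3, h4, h5⟩
          exact ⟨h4, h3⟩
        · rintro ⟨h3, h4⟩
          exact ⟨h4, h3, h4.trans haT⟩
      rw [h1, h2, Bkl_compl ha hD, Bkl_ftc hD ha]
    refine Measure.ext_of_Iic _ _ fun a => ?_
    rcases le_or_gt a 0 with ha | ha
    · rw [Measure.map_apply hh measurableSet_Iic, Measure.restrict_apply (hh measurableSet_Iic),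
        withDensity_apply _ measurableSet_Iic, Measure.restrict_restrict measurableSet_Iic]
      have h1 : hit D μ ⁻¹' Iic a ∩ (Blw D μ T)ᶜ = ∅ := by
        ext w
        simp only [mem_inter_iff, mem_preimage, mem_Iic, mem_compl_iff, mem_empty_iff_false,
          iff_false, not_and, not_not]
        intro hw1
        by_contra hw2
        have := (hit_spec hD hT.le hw2).1
        linarith
      have h2 : Iic a ∩ Ioc 0 T = ∅ := by
        ext s
        simp only [mem_inter_iff, mem_Iic, mem_Ioc, mem_empty_iff_false, iff_false, not_and]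
        intro h3 h4
        linarith
      rw [h1, h2, measure_empty, Measure.restrict_empty, lintegral_zero_measure]
    · rcases le_or_gt a T with haT | haT
      · exact hIic a ha haT
      · have h1 := hIic T hT le_rfl
        rw [Measure.map_apply hh measurableSet_Iic, Measure.restrict_apply (hh measurableSet_Iic),
          withDensity_apply _ measurableSet_Iic, Measure.restrict_restrict measurableSet_Iic] at h1 ⊢
        have h2 : hit D μ ⁻¹' Iic a ∩ (Blw D μ T)ᶜ = hit D μ ⁻¹' Iic T ∩ (Blw D μ T)ᶜ := by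
          ext w
          constructor
          · rintro ⟨hw1, hw2⟩
            exact ⟨(hit_spec hD hT.le hw2).2.1, hw2⟩
          · rintro ⟨hw1, hw2⟩
            exact ⟨(hit_spec hD hT.le hw2).2.1.trans haT.le, hw2⟩
        have h3 : Iic a ∩ Ioc 0 T = Iic T ∩ Ioc 0 T := by
          ext s
          simp only [mem_inter_iff, mem_Iic, mem_Ioc]
          constructor
          · rintro ⟨_, h4, h5⟩
            exact ⟨h5, h4, h5⟩
          · rintro ⟨_, h4, h5⟩
            exact ⟨h5.trans haT.le, h4, h5⟩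
        rw [h2, h3]
        exact h1
  calc ∫⁻ w in (Blw D μ T)ᶜ, f (hit D μ w) ∂Wm
      = ∫⁻ s, f s ∂((Wm.restrict (Blw D μ T)ᶜ).map (hit D μ)) := (lintegral_map hf hh).symm
    _ = ∫⁻ s, f s ∂((volume.restrict (Ioc 0 T)).withDensity
          (fun s => ENNReal.ofReal (fpd μ D s))) := by rw [hν]
    _ = ∫⁻ s in Ioc 0 T, f s * ENNReal.ofReal (fpd μ D s) := by
      rw [lintegral_withDensity_eq_lintegral_mul _ (Bkl_meas μ D) hf]
      refine lintegral_congr fun s => ?_
      rw [Pi.mul_apply, mul_comm]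

/-- the total mass of the driftless first passage density is at most 1 -/
theorem fpd_mass {D : ℝ} (hD : 0 < D) : ∫⁻ s in Ioi (0 : ℝ), ENNReal.ofReal (fpd 0 D s) ≤ 1 := by
  have h1 : Ioi (0 : ℝ) = ⋃ n : ℕ, Ioc (0 : ℝ) (n + 1) := by
    ext s
    simp only [mem_Ioi, mem_iUnion, mem_Ioc]
    constructor
    · intro hs
      obtain ⟨n, hn⟩ := exists_nat_ge s
      exact ⟨n, hs, by linarith⟩
    · rintro ⟨n, h2, _⟩
      exact h2
  rw [h1, setLIntegral_iUnion_of_directed]
  · refine iSup_le fun n => ?_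
    rw [Bkl_ftc hD (by positivity)]
    have h2 := (Bkl_surv (μ := 0) (s := (n : ℝ) + 1) (by positivity) hD).1
    refine (ENNReal.ofReal_le_ofReal (q := 1) (by linarith)).trans ?_
    rw [ENNReal.ofReal_one]
  · refine Monotone.directed_le fun i j hij => ?_
    have : (i : ℝ) ≤ j := by exact_mod_cast hij
    exact Ioc_subset_Ioc_right (by linarith)

end Pool.H50.BB
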