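import Pool.Agent.H50.BB.Brf

/-!
# Row Bmo: moments and bounds of the killed kernel   (about 200 lines)

`kk T D d = gd T (d-D) - gd T (d+D)`, `D, d > 0`.
`kk_le`: `gd T (d+D) = gd T (d-D) exp(-2dD/T)`, `1 - e^{-x} ≤ x`, `gd T ≤ (2πT)^{-1/2}`: `kk ≤ (2πT)^{-1/2} 2 d D/T = √(2/π) D d / (T √T)`.
`kk_le1`: `kk T D d ≤ gd T (d - D)`.
`kk_ge`: `kk = (2πT)^{-1/2} exp(-(D²+d²)/(2T)) * (e^{x} - e^{-x})` with `x = dD/T ≥ 0`, and `e^x - e^{-x} ≥ 2x`.
`kk_symm`: clear.
`kk_mom`: for an odd function `f` (`f d = d^n`, `n = 1,3,5`): `∫_{d>0} f(d) kk T D d dd = ∫_ℝ f(x) gd T (x - D) dx` (in the second term substitute `d → -d`), which is the `n`-th moment of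
`N(D,T)`: `D`, `D³+3DT`, `D⁵+10D³T+15DT²` (moments of `gaussianReal`: e.g. expand `(D + √T ξ)^n`; the even moments of `N(0,T)` are `T`, `3T²`; Mathlib: `centralMoment_..gaussianReal` or integrate by
parts / `integral_rpow_mul_exp_neg_mul_sq`).  Real integrals (all integrable), then `ofReal_integral_eq_lintegral_ofReal`.
`kk_mom2`: `d² ≤ (ω d + d³/ω)/2` with `ω = √(T + D²)` gives `∫ d² kk ≤ (D ω + (D³+3DT)/ω)/2 ≤ 2 D √(T+D²)` (as `D² + 3T ≤ 3 ω²`).
`kk_green`: for `0 < a < b`: `gd τ a - gd τ b = ∫_a^b (m/τ) gd τ m dm`, and `∫_0^∞ (m/τ) gd τ m dτ = ∫_0^∞ fpd 0 m τ dτ ≤ 1` (`(m/τ)(2πτ)^{-1/2} = m (2πτ³)^{-1/2}`); so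
`∫_0^∞ (gd τ a - gd τ b) dτ ≤ b - a` (Tonelli; also if `a = 0` by monotone limit or directly since the formula for the difference holds for `a ≥ 0`); here `a = |d - D|`, `b = d + D`, `b - a = 2 min(D,d)`.
(The bound `∫_0^∞ fpd 0 m ≤ 1` is `fpd_mass` of `Bkl`; to keep the imports independent prove it here directly: `m (2πτ³)^{-1/2} exp(-m²/2τ)` is `-d/dτ` of ... `2Φ(-m/√τ)`;
or just import `Bkl`.)
-/

open MeasureTheory ProbabilityTheory Set Filter Topology
open scoped NNReal ENNReal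

namespace Pool.H50.BB

open Pool.Agent.H4.BM

lemma bmo_const {T : ℝ} (hT : 0 < T) :
    (√(2 * Real.pi * T))⁻¹ * 2 = √(2 / Real.pi) / √T := by
  have hpi := Real.pi_pos
  have h2 : √2 * √2 = (2 : ℝ) := Real.mul_self_sqrt (by norm_num)
  have hp : 0 < √Real.pi := Real.sqrt_pos.2 hpi
  have ht : 0 < √T := Real.sqrt_pos.2 hT
  have h2p : 0 < √(2 : ℝ) := Real.sqrt_pos.2 (by norm_num)
  rw [Real.sqrt_mul (by positivity), Real.sqrt_mul (by norm_num), Real.sqrt_div (by norm_num)]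
  rw [div_div, eq_div_iff (by positivity), mul_inv, mul_inv]
  field_simp
  nlinarith

lemma bmo_exp1 (T D d : ℝ) (hT : 0 < T) :
    Real.exp (-(d - D) ^ 2 / (2 * T)) =
      Real.exp (-(D ^ 2 + d ^ 2) / (2 * T)) * Real.exp (d * D / T) := by
  rw [← Real.exp_add]
  congr 1
  field_simp
  ring

lemma bmo_exp2 (T D d : ℝ) (hT : 0 < T) :
    Real.exp (-(d + D) ^ 2 / (2 * T)) =
      Real.exp (-(D ^ 2 + d ^ 2) / (2 * T)) * Real.exp (-(d * D / T)) := by
  rw [← Real.exp_add]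
  congr 1
  field_simp
  ring

theorem kk_le {T D d : ℝ} (hT : 0 < T) (hD : 0 ≤ D) (hd : 0 ≤ d) :
    kk T D d ≤ √(2 / Real.pi) * D * d / (T * √T) := by
  have ht : 0 < √T := Real.sqrt_pos.2 hT
  have h1 : Real.exp (-(d + D) ^ 2 / (2 * T)) =
      Real.exp (-(d - D) ^ 2 / (2 * T)) * Real.exp (-(2 * (d * D) / T)) := by
    rw [← Real.exp_add]
    congr 1
    field_simp
    ring
  have h2 : 1 - 2 * (d * D) / T ≤ Real.exp (-(2 * (d * D) / T)) := Real.one_sub_le_exp_neg _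
  have h3 : Real.exp (-(d - D) ^ 2 / (2 * T)) ≤ 1 := by
    rw [Real.exp_le_one_iff]
    apply div_nonpos_of_nonpos_of_nonneg
    · nlinarith [sq_nonneg (d - D)]
    · positivity
  have h4 : 0 ≤ 2 * (d * D) / T := by positivity
  have h5 : 0 < (√(2 * Real.pi * T))⁻¹ := by positivity
  have h6 := bmo_const hT
  calc kk T D d = (√(2 * Real.pi * T))⁻¹ * (Real.exp (-(d - D) ^ 2 / (2 * T)) *
        (1 - Real.exp (-(2 * (d * D) / T)))) := by
        unfold kk gd
        rw [h1]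
        ring
    _ ≤ (√(2 * Real.pi * T))⁻¹ * (1 * (2 * (d * D) / T)) := by
        refine mul_le_mul_of_nonneg_left ?_ h5.le
        exact mul_le_mul h3 (by linarith) (by
          rw [sub_nonneg, Real.exp_le_one_iff]
          linarith) zero_le_one
    _ = ((√(2 * Real.pi * T))⁻¹ * 2) * (d * D / T) := by ring
    _ = √(2 / Real.pi) * D * d / (T * √T) := by
        rw [h6]
        field_simp

theorem kk_le1 {T D d : ℝ} : kk T D d ≤ gd T (d - D) := by
  unfold kk
  have := gd_nonneg T (d + D)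
  linarith

theorem kk_ge {T D d : ℝ} (hT : 0 < T) (hD : 0 ≤ D) (hd : 0 ≤ d) :
    √(2 / Real.pi) * D * d / (T * √T) * Real.exp (-(D ^ 2 + d ^ 2) / (2 * T)) ≤ kk T D d := by
  have ht : 0 < √T := Real.sqrt_pos.2 hT
  have h5 : 0 < (√(2 * Real.pi * T))⁻¹ := by positivity
  have h6 := bmo_const hT
  have h7 : 0 ≤ d * D / T := by positivity
  have h8 := Real.self_le_sinh_iff.2 h7
  rw [Real.sinh_eq] at h8
  calc √(2 / Real.pi) * D * d / (T * √T) * Real.exp (-(D ^ 2 + d ^ 2) / (2 * T))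
      = (√(2 / Real.pi) / √T) * (d * D / T) * Real.exp (-(D ^ 2 + d ^ 2) / (2 * T)) := by
        field_simp
    _ = (√(2 * Real.pi * T))⁻¹ * (Real.exp (-(D ^ 2 + d ^ 2) / (2 * T)) * (2 * (d * D / T))) := by
        rw [← h6]
        ring
    _ ≤ (√(2 * Real.pi * T))⁻¹ * (Real.exp (-(D ^ 2 + d ^ 2) / (2 * T)) *
        (Real.exp (d * D / T) - Real.exp (-(d * D / T)))) := by
        refine mul_le_mul_of_nonneg_left ?_ h5.le
        refine mul_le_mul_of_nonneg_left ?_ (Real.exp_pos _).le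
        linarith
    _ = kk T D d := by
        unfold kk gd
        rw [bmo_exp1 T D d hT, bmo_exp2 T D d hT]
        ring

theorem kk_symm (T D d : ℝ) : kk T D d = kk T d D := by
  unfold kk gd
  have h1 : (d - D) ^ 2 = (D - d) ^ 2 := by ring
  rw [h1, add_comm D d]

/-! ### moments -/

lemma gm_int0 {T : ℝ} (hT : 0 < T) (n : ℕ) : Integrable (fun y : ℝ => y ^ n * gd T y) := by
  have hb : 0 < 1 / (2 * T) := by positivity
  have h := integrable_rpow_mul_exp_neg_mul_sq hb (s := (n : ℝ))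
    (by have : (0 : ℝ) ≤ n := Nat.cast_nonneg n
        linarith)
  refine (h.const_mul (√(2 * Real.pi * T))⁻¹).congr (ae_of_all _ fun y => ?_)
  simp only [gd, Real.rpow_natCast]
  have : -(1 / (2 * T)) * y ^ 2 = -y ^ 2 / (2 * T) := by ring
  rw [this]
  ring

lemma gm_int {T : ℝ} (hT : 0 < T) (D : ℝ) (n : ℕ) :
    Integrable (fun x : ℝ => x ^ n * gd T (x - D)) := by
  have h1 : Integrable (fun y : ℝ => (y + D) ^ n * gd T y) := by
    have h2 : ∀ y : ℝ, (y + D) ^ n * gd T y =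
        ∑ m ∈ Finset.range (n + 1), (D ^ (n - m) * (n.choose m : ℝ)) * (y ^ m * gd T y) := by
      intro y
      rw [add_pow, Finset.sum_mul]
      refine Finset.sum_congr rfl fun m _ => ?_
      ring
    simp only [h2]
    exact integrable_finset_sum _ fun m _ => (gm_int0 hT m).const_mul _
  have h3 := h1.comp_sub_right D
  refine h3.congr (ae_of_all _ fun x => ?_)
  simp only [sub_add_cancel]

lemma gd_hasDeriv {T : ℝ} (hT : 0 < T) (D x : ℝ) :
    HasDerivAt (fun x : ℝ => gd T (x - D)) (-((x - D) / T) * gd T (x - D)) x := by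
  have h1 : HasDerivAt (fun x : ℝ => -(x - D) ^ 2 / (2 * T)) (-((x - D) / T)) x := by
    have h2 := ((((hasDerivAt_id x).sub_const D).pow 2).neg).div_const (2 * T)
    refine h2.congr_deriv ?_
    simp only [id]
    field_simp
    push_cast
    ring
  have h3 := (h1.exp).const_mul (√(2 * Real.pi * T))⁻¹
  refine h3.congr_deriv ?_
  unfold gd
  ring

lemma gm_rec {T : ℝ} (hT : 0 < T) (D : ℝ) (k : ℕ) :
    ∫ x, x ^ (k + 1) * gd T (x - D) =
      D * (∫ x, x ^ k * gd T (x - D)) + k * T * ∫ x, x ^ (k - 1) * gd T (x - D) := by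
  have hd : ∀ x : ℝ, HasDerivAt (fun x : ℝ => x ^ k * gd T (x - D))
      ((k * (x ^ (k - 1) * gd T (x - D)) + D / T * (x ^ k * gd T (x - D)))
        - 1 / T * (x ^ (k + 1) * gd T (x - D))) x := by
    intro x
    have h1 := (hasDerivAt_pow k x).mul (gd_hasDeriv hT D x)
    refine h1.congr_deriv ?_
    rw [pow_succ]
    field_simp
    ring
  have i1 := (gm_int hT D (k - 1)).const_mul (k : ℝ)
  have i2 := (gm_int hT D k).const_mul (D / T)
  have i3 := (gm_int hT D (k + 1)).const_mul (1 / T)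
  have i12 : Integrable (fun x : ℝ => k * (x ^ (k - 1) * gd T (x - D))
      + D / T * (x ^ k * gd T (x - D))) := i1.add i2
  have h0 := integral_eq_zero_of_hasDerivAt_of_integrable hd (i12.sub i3) (gm_int hT D k)
  rw [integral_sub i12 i3, integral_add i1 i2, integral_const_mul, integral_const_mul,
    integral_const_mul] at h0
  field_simp at h0
  linarith

lemma gm_zero {T : ℝ} (hT : 0 < T) (D : ℝ) : ∫ x, x ^ 0 * gd T (x - D) = 1 := by
  have h := integral_gaussianPDFReal_eq_one D (v := T.toNNReal) (by simpa using hT)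
  rw [← h]
  refine integral_congr_ae (ae_of_all _ fun x => ?_)
  simp only [gd, gaussianPDFReal, pow_zero, one_mul, Real.coe_toNNReal T hT.le]

lemma gm_one {T : ℝ} (hT : 0 < T) (D : ℝ) : ∫ x, x ^ 1 * gd T (x - D) = D := by
  have h := gm_rec hT D 0
  simp only [zero_add, Nat.cast_zero, zero_mul, add_zero, gm_zero hT D, mul_one] at h
  exact h

lemma gm_two {T : ℝ} (hT : 0 < T) (D : ℝ) : ∫ x, x ^ 2 * gd T (x - D) = D ^ 2 + T := by
  have h := gm_rec hT D 1
  rw [gm_one hT D, Nat.sub_self, gm_zero hT D] at h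
  rw [h]
  push_cast
  ring

lemma gm_three {T : ℝ} (hT : 0 < T) (D : ℝ) :
    ∫ x, x ^ 3 * gd T (x - D) = D ^ 3 + 3 * D * T := by
  have h := gm_rec hT D 2
  rw [gm_two hT D, show 2 - 1 = 1 from rfl, gm_one hT D] at h
  rw [h]
  push_cast
  ring

lemma gm_four {T : ℝ} (hT : 0 < T) (D : ℝ) :
    ∫ x, x ^ 4 * gd T (x - D) = D ^ 4 + 6 * D ^ 2 * T + 3 * T ^ 2 := by
  have h := gm_rec hT D 3
  rw [gm_three hT D, show 3 - 1 = 2 from rfl, gm_two hT D] at h
  rw [h]
  push_cast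
  ring

lemma gm_five {T : ℝ} (hT : 0 < T) (D : ℝ) :
    ∫ x, x ^ 5 * gd T (x - D) = D ^ 5 + 10 * D ^ 3 * T + 15 * D * T ^ 2 := by
  have h := gm_rec hT D 4
  rw [gm_four hT D, show 4 - 1 = 3 from rfl, gm_three hT D] at h
  rw [h]
  push_cast
  ring

lemma kk_mom {T D : ℝ} (hT : 0 < T) (hD : 0 ≤ D) {n : ℕ} (hn : Odd n) :
    ∫⁻ d in Ioi (0 : ℝ), ENNReal.ofReal (kk T D d * d ^ n) =
      ENNReal.ofReal (∫ x, x ^ n * gd T (x - D)) := by
  have i1 : Integrable (fun x : ℝ => x ^ n * gd T (x - D)) := gm_int hT D n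
  have i2 : Integrable (fun x : ℝ => x ^ n * gd T (x + D)) := by
    have := gm_int hT (-D) n
    simpa only [sub_neg_eq_add] using this
  have e1 : ∀ d : ℝ, kk T D d * d ^ n = d ^ n * gd T (d - D) - d ^ n * gd T (d + D) := by
    intro d
    unfold kk
    ring
  have i3 : IntegrableOn (fun d : ℝ => kk T D d * d ^ n) (Ioi 0) := by
    simp only [e1]
    exact (i1.sub i2).integrableOn
  rw [← ofReal_integral_eq_lintegral_ofReal i3]
  · congr 1
    simp only [e1]
    rw [integral_sub i1.integrableOn i2.integrableOn]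
    have h1 := integral_comp_neg_Ioi (0 : ℝ) (fun x : ℝ => x ^ n * gd T (x - D))
    have h2 : ∀ x : ℝ, (-x) ^ n * gd T (-x - D) = -(x ^ n * gd T (x + D)) := by
      intro x
      rw [hn.neg_pow]
      have : gd T (-x - D) = gd T (x + D) := by
        unfold gd
        have : (-x - D) ^ 2 = (x + D) ^ 2 := by ring
        rw [this]
      rw [this]
      ring
    simp only [h2, neg_zero] at h1
    rw [integral_neg] at h1
    rw [← integral_add_compl (measurableSet_Ioi (a := (0 : ℝ))) i1, compl_Ioi, ← h1]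
    ring
  · filter_upwards [ae_restrict_mem measurableSet_Ioi] with d hd
    exact mul_nonneg (kk_nonneg hT hD (le_of_lt hd)) (pow_nonneg (le_of_lt hd) _)

theorem kk_mom1 {T D : ℝ} (hT : 0 < T) (hD : 0 ≤ D) :
    ∫⁻ d in Ioi (0 : ℝ), ENNReal.ofReal (kk T D d * d) = ENNReal.ofReal D := by
  have h := kk_mom hT hD (n := 1) (by decide)
  rw [gm_one hT D] at h
  simpa only [pow_one] using h

theorem kk_mom3 {T D : ℝ} (hT : 0 < T) (hD : 0 ≤ D) :
    ∫⁻ d in Ioi (0 : ℝ), ENNReal.ofReal (kk T D d * d ^ 3) = ENNReal.ofReal (D ^ 3 + 3 * D * T) := by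
  rw [kk_mom hT hD (n := 3) (by decide), gm_three hT D]

theorem kk_mom5 {T D : ℝ} (hT : 0 < T) (hD : 0 ≤ D) :
    ∫⁻ d in Ioi (0 : ℝ), ENNReal.ofReal (kk T D d * d ^ 5) =
      ENNReal.ofReal (D ^ 5 + 10 * D ^ 3 * T + 15 * D * T ^ 2) := by
  rw [kk_mom hT hD (n := 5) (by decide), gm_five hT D]

lemma gd_cont (T : ℝ) : Continuous (fun x : ℝ => gd T x) := by
  unfold gd
  fun_prop

lemma kk_cont (T D : ℝ) : Continuous (fun d : ℝ => kk T D d) := by
  unfold kk gd
  fun_prop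

theorem kk_mom2 {T D : ℝ} (hT : 0 < T) (hD : 0 ≤ D) :
    ∫⁻ d in Ioi (0 : ℝ), ENNReal.ofReal (kk T D d * d ^ 2) ≤ ENNReal.ofReal (2 * D * √(T + D ^ 2)) := by
  set ω := √(T + D ^ 2) with hω
  have hω0 : 0 < ω := Real.sqrt_pos.2 (by positivity)
  have hω2 : ω ^ 2 = T + D ^ 2 := Real.sq_sqrt (by positivity)
  have hm1 : Measurable (fun d : ℝ => ENNReal.ofReal (kk T D d * d)) :=
    ((kk_cont T D).mul continuous_id).measurable.ennreal_ofReal
  have hpt : ∀ d ∈ Ioi (0 : ℝ), ENNReal.ofReal (kk T D d * d ^ 2) ≤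
      ENNReal.ofReal (ω / 2) * ENNReal.ofReal (kk T D d * d) +
        ENNReal.ofReal (1 / (2 * ω)) * ENNReal.ofReal (kk T D d * d ^ 3) := by
    intro d hd
    have hd0 : 0 < d := hd
    have hk := kk_nonneg hT hD hd0.le
    rw [← ENNReal.ofReal_mul (by positivity), ← ENNReal.ofReal_mul (by positivity),
      ← ENNReal.ofReal_add (by positivity) (by positivity)]
    apply ENNReal.ofReal_le_ofReal
    have h1 : d ^ 2 ≤ ω / 2 * d + 1 / (2 * ω) * d ^ 3 := by
      have h2 : ω / 2 * d + 1 / (2 * ω) * d ^ 3 - d ^ 2 = d / (2 * ω) * (ω - d) ^ 2 := by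
        field_simp
        ring
      have h3 : 0 ≤ d / (2 * ω) * (ω - d) ^ 2 := by positivity
      linarith
    calc kk T D d * d ^ 2 ≤ kk T D d * (ω / 2 * d + 1 / (2 * ω) * d ^ 3) :=
          mul_le_mul_of_nonneg_left h1 hk
      _ = _ := by ring
  calc ∫⁻ d in Ioi (0 : ℝ), ENNReal.ofReal (kk T D d * d ^ 2)
      ≤ ∫⁻ d in Ioi (0 : ℝ), (ENNReal.ofReal (ω / 2) * ENNReal.ofReal (kk T D d * d) +
        ENNReal.ofReal (1 / (2 * ω)) * ENNReal.ofReal (kk T D d * d ^ 3)) :=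
        setLIntegral_mono' measurableSet_Ioi hpt
    _ = ENNReal.ofReal (ω / 2) * ENNReal.ofReal D +
        ENNReal.ofReal (1 / (2 * ω)) * ENNReal.ofReal (D ^ 3 + 3 * D * T) := by
        rw [lintegral_add_left (hm1.const_mul _), lintegral_const_mul' _ _ ENNReal.ofReal_ne_top,
          lintegral_const_mul' _ _ ENNReal.ofReal_ne_top, kk_mom1 hT hD, kk_mom3 hT hD]
    _ = ENNReal.ofReal (ω / 2 * D + 1 / (2 * ω) * (D ^ 3 + 3 * D * T)) := by
        rw [← ENNReal.ofReal_mul (by positivity), ← ENNReal.ofReal_mul (by positivity),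
          ← ENNReal.ofReal_add (by positivity) (by positivity)]
    _ ≤ ENNReal.ofReal (2 * D * ω) := by
        apply ENNReal.ofReal_le_ofReal
        have h1 : 1 / (2 * ω) * (D ^ 3 + 3 * D * T) ≤ 3 / 2 * D * ω := by
          have h2 : D ^ 3 + 3 * D * T ≤ 3 * D * ω ^ 2 := by
            rw [hω2]
            have : 0 ≤ D ^ 3 := by positivity
            nlinarith
          calc 1 / (2 * ω) * (D ^ 3 + 3 * D * T) ≤ 1 / (2 * ω) * (3 * D * ω ^ 2) :=
                mul_le_mul_of_nonneg_left h2 (by positivity)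
            _ = 3 / 2 * D * ω := by field_simp
        nlinarith

/-! ### Green function -/

lemma green_half : ∫⁻ u in Ioi (0 : ℝ), ENNReal.ofReal (2 * gd 1 u) = 1 := by
  have h1 := integral_gaussian_Ioi (1 / 2)
  have e1 : ∀ u : ℝ, 2 * gd 1 u = (2 * (√(2 * Real.pi))⁻¹) * Real.exp (-(1 / 2) * u ^ 2) := by
    intro u
    unfold gd
    have : -u ^ 2 / (2 * 1) = -(1 / 2) * u ^ 2 := by ring
    rw [this, mul_one]
    ring
  have hi : Integrable (fun u : ℝ => 2 * gd 1 u) := by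
    simp only [e1]
    exact (integrable_exp_neg_mul_sq (by norm_num : (0 : ℝ) < 1 / 2)).const_mul _
  rw [← ofReal_integral_eq_lintegral_ofReal hi.integrableOn
    (ae_of_all _ fun u => mul_nonneg zero_le_two (gd_nonneg _ _))]
  simp only [e1]
  rw [integral_const_mul, h1]
  have hp : 0 < √(2 * Real.pi) := Real.sqrt_pos.2 (by positivity)
  have e2 : Real.pi / (1 / 2) = 2 * Real.pi := by ring
  rw [e2]
  have e3 : 2 * (√(2 * Real.pi))⁻¹ * (√(2 * Real.pi) / 2) = 1 := by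
    field_simp
  rw [e3, ENNReal.ofReal_one]

lemma green_one {m : ℝ} (hm : 0 < m) :
    ∫⁻ τ in Ioi (0 : ℝ), ENNReal.ofReal (m / τ * gd τ m) ≤ 1 := by
  have hder : ∀ x ∈ Ioi (0 : ℝ), HasDerivWithinAt (fun τ : ℝ => m * (√τ)⁻¹)
      (m * (-(1 / (2 * √x)) / √x ^ 2)) (Ioi 0) x := by
    intro x hx
    have hx0 : (0 : ℝ) < x := hx
    have hs : √x ≠ 0 := (Real.sqrt_pos.2 hx0).ne'
    exact (((Real.hasDerivAt_sqrt hx0.ne').inv hs).const_mul m).hasDerivWithinAt
  have hinj : InjOn (fun τ : ℝ => m * (√τ)⁻¹) (Ioi 0) := by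
    intro a ha b hb hab
    have ha0 : (0 : ℝ) < a := ha
    have hb0 : (0 : ℝ) < b := hb
    have h1 := mul_left_cancel₀ hm.ne' hab
    have h2 := inv_injective h1
    exact (Real.sqrt_inj ha0.le hb0.le).1 h2
  have h := lintegral_image_eq_lintegral_abs_deriv_mul measurableSet_Ioi hder hinj
    (fun u => ENNReal.ofReal (2 * gd 1 u))
  have e : ∀ τ ∈ Ioi (0 : ℝ), ENNReal.ofReal |m * (-(1 / (2 * √τ)) / √τ ^ 2)| *
      ENNReal.ofReal (2 * gd 1 (m * (√τ)⁻¹)) = ENNReal.ofReal (m / τ * gd τ m) := by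
    intro τ hτ
    have hτ0 : (0 : ℝ) < τ := hτ
    have hs : 0 < √τ := Real.sqrt_pos.2 hτ0
    have hs2 : √τ ^ 2 = τ := Real.sq_sqrt hτ0.le
    have ha : |m * (-(1 / (2 * √τ)) / √τ ^ 2)| = m * (1 / (2 * √τ) / √τ ^ 2) := by
      rw [neg_div, mul_neg, abs_neg, abs_of_nonneg (by positivity)]
    rw [ha, ← ENNReal.ofReal_mul (by positivity)]
    congr 1
    unfold gd
    have e1 : -(m * (√τ)⁻¹) ^ 2 / (2 * 1) = -m ^ 2 / (2 * τ) := by
      rw [mul_pow, inv_pow, hs2]
      field_simp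
    rw [e1, Real.sqrt_mul (by positivity) τ, mul_one, hs2]
    field_simp
  rw [setLIntegral_congr_fun measurableSet_Ioi e] at h
  rw [← h]
  calc ∫⁻ u in (fun τ : ℝ => m * (√τ)⁻¹) '' Ioi 0, ENNReal.ofReal (2 * gd 1 u)
      ≤ ∫⁻ u in Ioi (0 : ℝ), ENNReal.ofReal (2 * gd 1 u) := by
        apply lintegral_mono_set
        rintro u ⟨τ, hτ, rfl⟩
        have hτ0 : (0 : ℝ) < τ := hτ
        have hs : 0 < √τ := Real.sqrt_pos.2 hτ0
        exact mul_pos hm (inv_pos.2 hs)
    _ = 1 := green_half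

lemma green_ftc {τ a b : ℝ} (hτ : 0 < τ) (ha : 0 ≤ a) (hab : a ≤ b) :
    ENNReal.ofReal (gd τ a - gd τ b) = ∫⁻ m in Ioc a b, ENNReal.ofReal (m / τ * gd τ m) := by
  have hd : ∀ x ∈ uIcc a b, HasDerivAt (fun x : ℝ => -gd τ x) (x / τ * gd τ x) x := by
    intro x _
    have h1 := (gd_hasDeriv hτ 0 x).neg
    simp only [sub_zero] at h1
    refine h1.congr_deriv ?_
    ring
  have hc : Continuous (fun x : ℝ => x / τ * gd τ x) :=
    (continuous_id.div_const τ).mul (gd_cont τ)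
  have h1 := intervalIntegral.integral_eq_sub_of_hasDerivAt hd (hc.intervalIntegrable a b)
  have h2 : gd τ a - gd τ b = ∫ x in Ioc a b, x / τ * gd τ x := by
    rw [← intervalIntegral.integral_of_le hab, h1]
    ring
  rw [h2, ofReal_integral_eq_lintegral_ofReal]
  · exact (hc.integrableOn_Icc (a := a) (b := b)).mono_set Ioc_subset_Icc_self
  · filter_upwards [ae_restrict_mem measurableSet_Ioc] with x hx
    have : 0 ≤ x := ha.trans hx.1.le
    exact mul_nonneg (by positivity) (gd_nonneg _ _)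

lemma kk_eq_abs (τ D d : ℝ) : kk τ D d = gd τ |d - D| - gd τ (d + D) := by
  unfold kk gd
  rw [sq_abs]

theorem kk_green {D d : ℝ} (hD : 0 < D) (hd : 0 < d) :
    ∫⁻ τ in Ioi (0 : ℝ), ENNReal.ofReal (kk τ D d) ≤ ENNReal.ofReal (2 * min D d) := by
  have hab : |d - D| ≤ d + D := by
    rw [abs_le]
    constructor <;> linarith
  have e : ∀ τ ∈ Ioi (0 : ℝ), ENNReal.ofReal (kk τ D d) =
      ∫⁻ m in Ioc |d - D| (d + D), ENNReal.ofReal (m / τ * gd τ m) := by
    intro τ hτ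
    rw [kk_eq_abs, green_ftc hτ (abs_nonneg _) hab]
  have hmeas : Measurable (Function.uncurry fun (τ m : ℝ) =>
      ENNReal.ofReal (m / τ * gd τ m)) := by
    unfold Function.uncurry gd
    fun_prop
  rw [setLIntegral_congr_fun measurableSet_Ioi e, lintegral_lintegral_swap hmeas.aemeasurable]
  calc ∫⁻ m in Ioc |d - D| (d + D), ∫⁻ τ in Ioi (0 : ℝ), ENNReal.ofReal (m / τ * gd τ m)
      ≤ ∫⁻ _ in Ioc |d - D| (d + D), 1 := by
        refine setLIntegral_mono' measurableSet_Ioc fun m hm => ?_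
        exact green_one (lt_of_le_of_lt (abs_nonneg _) hm.1)
    _ = ENNReal.ofReal (2 * min D d) := by
        rw [setLIntegral_one, Real.volume_Ioc]
        congr 1
        rcases le_total D d with h | h
        · rw [min_eq_left h, abs_of_nonneg (by linarith)]
          ring
        · rw [min_eq_right h, abs_of_nonpos (by linarith)]
          ring

end Pool.H50.BB
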