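import Pool.Agent.H50.BB.Defs1

/-!
# Row Brf: marginals, symmetry and the reflection principle   (about 230 lines)

`marg`: `w T` has law `gaussianReal 0 T` (`IsPreBrownianReal.hasLaw_eval`), density `gd T` (`gaussianPDFReal`).
`neg_map`: the map `w ↦ -w` preserves `Wm` (`IsPreBrownianReal.neg`, `IsW.map_eq`).
`blw_meas`: `w ∈ Blw D μ T` iff (continuity, compactness of `[0,T]`) there is `n` with `w s ≤ D + μ s - 1/(n+1)` for all rational-time `s ∈ [0,T]` (countable dense subset of `[0,T]`: e.g.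
`s = q T`, `q ∈ ℚ ∩ [0,1]`); measurable.
`hit_meas`: as `tau_meas`: for `s > 0`, `{hit < s}` = `{∃ q ∈ ℚ ∩ [0,s), w ∉ Blw D μ q}` ∪ `{∀ n, w ∈ Blw D μ n}` (if the set is empty the infimum is 0).
`hit_spec`: for `0 < D`, `w ∉ Blw D μ T`: the set is closed, nonempty, `0 < hit ≤ T` (`w 0 = 0 < D`), `w (hit) = D + μ hit` (continuity), and for `0 ≤ s ≤ T`: `w ∈ Blw D μ s ↔ s < hit`.

`refl_lint` (reflection principle).  Let `a = D`, `σ = hit a 0`.  For `n`, `r_k = k T / 2^n`, `k = 1..2^n`; `E_k = Blw a 0 r_{k-1} \ Blw a 0 r_k = {r_{k-1} < σ ≤ r_k}` depends only on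
`stop r_k w`.  For bounded continuous `G`: `w T = w r_k + (shift r_k w) (T - r_k)`; by `lintegral_stop_shift` (H4/BM/Wiener; use nonnegative `G`) and `neg_map`,
`E[1_{E_k} G(w T)] = E[1_{E_k} G(2 w r_k - w T)]`.  Sum over `k`: with `σ_n = r_k` on `E_k`, `E[G(w T); σ ≤ T] = E[G(2 w σ_n - w T); σ ≤ T]`; as `n → ∞`, `σ ≤ σ_n ≤ σ + T/2^n`, so
`w σ_n → w σ = a`; dominated convergence: `E[G(w T); σ ≤ T] = E[G(2a - w T); σ ≤ T]` for all bounded continuous `G ≥ 0`, so the finite measures (laws of `w T` and of `2a - w T` restricted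
to `{σ ≤ T}`) coincide (`ext_of_forall_lintegral_eq_of_IsFiniteMeasure`).  For `f ≥ 0` measurable let `G x = 1{x < a} f(a - x)`.  On `Blw`, `w T < a`; on the complement of `Blw`
`E[G(w T); σ ≤ T] = E[G(2a - w T); σ ≤ T] = E[G(2a - w T)]` since `G(2a - w T) ≠ 0` forces `w T > a`, hence `σ ≤ T`.  So
`∫⁻ w in Blw, f(a - w T) + E[G (2a - w T)] = E[G (w T)]`, i.e. for `f` an indicator of a set `S`: `ν(S) + ∫_S gd T (d + a) dd = ∫_S gd T (a - d) dd` (over `d > 0`), where `ν` is the law of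
`a - w T` on `Blw`; all finite; so `ν = (volume.restrict (Ioi 0)).withDensity (ofReal (kk T a d))` (`kk ≥ 0` for `d, D > 0`).
-/

open MeasureTheory ProbabilityTheory Set Filter Topology
open scoped NNReal ENNReal

namespace Pool.H50.BB

open Pool.Agent.H4.BM

theorem gd_nonneg (v x : ℝ) : 0 ≤ gd v x := by
  unfold gd
  exact mul_nonneg (inv_nonneg.2 (Real.sqrt_nonneg _)) (Real.exp_nonneg _)

theorem kk_nonneg {T D d : ℝ} (hT : 0 < T) (hD : 0 ≤ D) (hd : 0 ≤ d) : 0 ≤ kk T D d := by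
  unfold kk gd
  rw [← mul_sub]
  refine mul_nonneg (inv_nonneg.2 (Real.sqrt_nonneg _)) ?_
  rw [sub_nonneg, Real.exp_le_exp]
  refine div_le_div_of_nonneg_right ?_ (by linarith)
  nlinarith [mul_nonneg hD hd]

theorem gd_meas (v : ℝ) : Measurable (gd v) := by
  unfold gd
  fun_prop

theorem marg {T : ℝ} (hT : 0 < T) {f : ℝ → ℝ≥0∞} (hf : Measurable f) :
    ∫⁻ w, f (w T) ∂Wm = ∫⁻ x, f x * ENNReal.ofReal (gd T x) := by
  have h1 := (IsPreBrownianReal.hasLaw_eval Wm_isW T.toNNReal).map_eq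
  have hv : T.toNNReal ≠ 0 := by
    rw [Ne, Real.toNNReal_eq_zero]
    linarith
  have hc : ((T.toNNReal : ℝ≥0) : ℝ) = T := Real.coe_toNNReal T hT.le
  have h2 : Wm.map (fun w : Pth => w T) = gaussianReal 0 T.toNNReal := by
    rw [← h1]
    simp only [hc]
  have h3 : ∫⁻ w, f (w T) ∂Wm = ∫⁻ x, f x ∂(Wm.map (fun w : Pth => w T)) := by
    rw [lintegral_map hf (Pth.measurable_apply T)]
  rw [h3, h2, gaussianReal_of_var_ne_zero 0 hv,
    lintegral_withDensity_eq_lintegral_mul _ (measurable_gaussianPDF 0 _) hf]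
  refine lintegral_congr fun x => ?_
  rw [Pi.mul_apply, mul_comm]
  have h4 : gaussianPDFReal 0 T.toNNReal x = gd T x := by
    unfold gaussianPDFReal gd
    rw [hc, sub_zero]
  rw [gaussianPDF, h4]

/-- `-w` -/
def negP (w : Pth) : Pth := ⟨fun t => -w t, w.continuous.neg, fun t ht => by rw [w.of_nonpos ht, neg_zero]⟩

theorem negP_meas : Measurable negP :=
  Pth.measurable_of_eval fun t => (Pth.measurable_apply t).neg

theorem neg_map : Wm.map negP = Wm :=
  IsW.map_eq Wm_isW negP_meas (IsPreBrownianReal.neg Wm_isW)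

/-- clamp to `[0,T]` -/
noncomputable def clmp (T s : ℝ) : ℝ := max 0 (min s T)

theorem blw_iff (D μ : ℝ) {T : ℝ} (hT : 0 ≤ T) (w : Pth) :
    w ∈ Blw D μ T ↔ ∃ n : ℕ, ∀ q : ℚ, w (clmp T q) - μ * clmp T q ≤ D - 1 / ((n : ℝ) + 1) := by
  have hw := w.continuous
  constructor
  · intro h
    have hcont : Continuous fun s : ℝ => w s - μ * s := by fun_prop
    obtain ⟨s0, hs0, hmax⟩ := isCompact_Icc.exists_isMaxOn (nonempty_Icc.2 hT) hcont.continuousOn
    have h0 := h s0 hs0
    obtain ⟨n, hn⟩ := exists_nat_one_div_lt (show 0 < D - (w s0 - μ * s0) by linarith)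
    refine ⟨n, fun q => ?_⟩
    have hq : clmp T q ∈ Icc (0 : ℝ) T := by
      unfold clmp
      exact ⟨le_max_left _ _, max_le hT (min_le_right _ _)⟩
    have h1 := hmax hq
    simp only [mem_setOf_eq] at h1
    linarith
  · rintro ⟨n, hn⟩ s hs
    have hcl : IsClosed {s : ℝ | w (clmp T s) - μ * clmp T s ≤ D - 1 / ((n : ℝ) + 1)} := by
      refine isClosed_le ?_ continuous_const
      unfold clmp
      fun_prop
    have h1 := DenseRange.induction_on (p := fun s : ℝ => w (clmp T s) - μ * clmp T s ≤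
      D - 1 / ((n : ℝ) + 1)) Rat.denseRange_cast s hcl hn
    have h2 : clmp T s = s := by
      unfold clmp
      rw [min_eq_left hs.2, max_eq_right hs.1]
    rw [h2] at h1
    have h3 : 0 < 1 / ((n : ℝ) + 1) := by positivity
    linarith

theorem blw_meas (D μ T : ℝ) : MeasurableSet (Blw D μ T) := by
  rcases lt_or_ge T 0 with hT | hT
  · have e : Blw D μ T = univ := by
      ext w
      refine ⟨fun _ => trivial, fun _ s hs => ?_⟩
      exact absurd (hs.1.trans hs.2) (by linarith)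
    rw [e]
    exact MeasurableSet.univ
  · have e : Blw D μ T = ⋃ n : ℕ, ⋂ q : ℚ,
        {w : Pth | w (clmp T q) - μ * clmp T q ≤ D - 1 / ((n : ℝ) + 1)} := by
      ext w
      rw [blw_iff D μ hT w]
      simp only [mem_iUnion, mem_iInter, mem_setOf_eq]
    rw [e]
    refine MeasurableSet.iUnion fun n => MeasurableSet.iInter fun q => ?_
    exact measurableSet_le ((Pth.measurable_apply _).sub_const _) measurable_const

theorem hit_nonneg (D μ : ℝ) (w : Pth) : 0 ≤ hit D μ w :=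
  Real.sInf_nonneg fun _ hx => hx.1

theorem hit_le {D μ : ℝ} {w : Pth} {s : ℝ} (hs : 0 ≤ s) (h : D + μ * s ≤ w s) : hit D μ w ≤ s :=
  csInf_le ⟨0, fun _ hx => hx.1⟩ ⟨hs, h⟩

theorem not_blw {D μ T : ℝ} {w : Pth} : w ∉ Blw D μ T ↔ ∃ s ∈ Icc (0 : ℝ) T, D + μ * s ≤ w s := by
  unfold Blw
  simp only [mem_setOf_eq, not_forall, not_lt, exists_prop]

theorem hit_meas' (D μ : ℝ) : Measurable (hit D μ) := by
  refine measurable_of_Iio fun s => ?_
  rcases le_or_gt s 0 with hs | hs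
  · have e : hit D μ ⁻¹' Iio s = ∅ := by
      ext w
      simp only [mem_preimage, mem_Iio, mem_empty_iff_false, iff_false, not_lt]
      exact hs.trans (hit_nonneg D μ w)
    rw [e]
    exact MeasurableSet.empty
  · have e : hit D μ ⁻¹' Iio s = (⋃ q : {q : ℚ // (q : ℝ) < s}, (Blw D μ (q.1 : ℝ))ᶜ) ∪
        ⋂ n : ℕ, Blw D μ n := by
      ext w
      simp only [mem_preimage, mem_Iio, mem_union, mem_iUnion, mem_compl_iff, mem_iInter]
      constructor
      · intro h
        by_cases hne : {s : ℝ | 0 ≤ s ∧ D + μ * s ≤ w s}.Nonempty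
        · left
          obtain ⟨a, ha, has⟩ := exists_lt_of_csInf_lt hne h
          obtain ⟨q, hq1, hq2⟩ := exists_rat_btwn has
          refine ⟨⟨q, hq2⟩, ?_⟩
          rw [not_blw]
          exact ⟨a, ⟨ha.1, hq1.le⟩, ha.2⟩
        · right
          intro n r hr
          by_contra hcon
          exact hne ⟨r, hr.1, not_lt.1 hcon⟩
      · rintro (⟨⟨q, hq⟩, hw⟩ | hw)
        · rw [not_blw] at hw
          obtain ⟨a, ha, haw⟩ := hw
          exact (hit_le ha.1 haw).trans_lt (ha.2.trans_lt hq)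
        · have e0 : {s : ℝ | 0 ≤ s ∧ D + μ * s ≤ w s} = ∅ := by
            ext r
            simp only [mem_setOf_eq, mem_empty_iff_false, iff_false, not_and, not_le]
            intro hr
            obtain ⟨n, hn⟩ := exists_nat_ge r
            exact hw n r ⟨hr, hn⟩
          unfold hit
          rw [e0, Real.sInf_empty]
          exact hs
    rw [e]
    exact (MeasurableSet.iUnion fun q => (blw_meas D μ _).compl).union
      (MeasurableSet.iInter fun n => blw_meas D μ _)

theorem hit_spec {D μ T : ℝ} (hD : 0 < D) (hT : 0 ≤ T) {w : Pth} (hw : w ∉ Blw D μ T) :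
    0 < hit D μ w ∧ hit D μ w ≤ T ∧ w (hit D μ w) = D + μ * hit D μ w ∧
      ∀ s, 0 ≤ s → s ≤ T → (w ∈ Blw D μ s ↔ s < hit D μ w) := by
  have hwc := w.continuous
  rw [not_blw] at hw
  obtain ⟨a, ha, haw⟩ := hw
  have hcl : IsClosed {s : ℝ | 0 ≤ s ∧ D + μ * s ≤ w s} := by
    have : {s : ℝ | 0 ≤ s ∧ D + μ * s ≤ w s} = Ici 0 ∩ {s : ℝ | D + μ * s ≤ w s} := rfl
    rw [this]
    exact isClosed_Ici.inter (isClosed_le (by fun_prop) hwc)
  have hmem : hit D μ w ∈ {s : ℝ | 0 ≤ s ∧ D + μ * s ≤ w s} :=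
    hcl.csInf_mem ⟨a, ha.1, haw⟩ ⟨0, fun _ hx => hx.1⟩
  have hlt : ∀ s, 0 ≤ s → s < hit D μ w → w s < D + μ * s := by
    intro s hs hsh
    by_contra hcon
    exact absurd (hit_le hs (not_lt.1 hcon)) (not_le.2 hsh)
  have hpos : 0 < hit D μ w := by
    rcases (hmem.1).lt_or_eq with h | h
    · exact h
    · have h2 := hmem.2
      rw [← h, Pth.zero, mul_zero, add_zero] at h2
      linarith
  refine ⟨hpos, (hit_le ha.1 haw).trans ha.2, ?_, ?_⟩
  · refine le_antisymm ?_ hmem.2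
    have hc2 : Continuous fun s : ℝ => D + μ * s := by fun_prop
    have h1 : Tendsto (fun s : ℝ => w s) (𝓝[<] hit D μ w) (𝓝 (w (hit D μ w))) :=
      (hwc.tendsto _).mono_left nhdsWithin_le_nhds
    have h2 : Tendsto (fun s : ℝ => D + μ * s) (𝓝[<] hit D μ w) (𝓝 (D + μ * hit D μ w)) :=
      (hc2.tendsto _).mono_left nhdsWithin_le_nhds
    refine le_of_tendsto_of_tendsto h1 h2 ?_
    filter_upwards [Ioo_mem_nhdsLT hpos] with s hs
    exact (hlt s hs.1.le hs.2).le
  · intro s hs hsT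
    constructor
    · intro h
      by_contra hcon
      have h1 := h (hit D μ w) ⟨hpos.le, not_lt.1 hcon⟩
      exact absurd hmem.2 (not_le.2 h1)
    · intro h r hr
      exact hlt r hr.1 (hr.2.trans_lt h)

theorem stop_blw {D μ s : ℝ} {c : ℝ≥0} (hsr : s ≤ c) (w : Pth) :
    Pth.stop c w ∈ Blw D μ s ↔ w ∈ Blw D μ s := by
  unfold Blw
  simp only [mem_setOf_eq]
  refine forall₂_congr fun u hu => ?_
  rw [Pth.stop_apply, min_eq_left (hu.2.trans hsr)]

theorem refl_step {c : ℝ≥0} {T : ℝ} (hrT : (c : ℝ) ≤ T) {E : Set Pth} (hE : MeasurableSet E)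
    (hs : ∀ w, Pth.stop c w ∈ E ↔ w ∈ E) {G : ℝ → ℝ≥0∞} (hG : Measurable G) :
    ∫⁻ w in E, G (w T) ∂Wm = ∫⁻ w in E, G (2 * w c - w T) ∂Wm := by
  have key : ∀ σ : ℝ, ∫⁻ w in E, G (w c + σ * (w T - w c)) ∂Wm =
      ∫⁻ A, ∫⁻ B, E.indicator (fun _ => (1 : ℝ≥0∞)) (Pth.stop c A) *
        G (Pth.stop c A c + σ * B (T - c)) ∂Wm ∂Wm := by
    intro σ
    have hGm : Measurable fun p : Pth × Pth => E.indicator (fun _ => (1 : ℝ≥0∞)) p.1 *
        G (p.1 c + σ * p.2 (T - c)) := by
      refine ((measurable_const.indicator hE).comp measurable_fst).mul (hG.comp ?_)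
      exact ((Pth.measurable_apply c).comp measurable_fst).add
        (((Pth.measurable_apply (T - c)).comp measurable_snd).const_mul σ)
    have h1 := lintegral_stop_shift Wm_isW c hGm
    rw [← h1, ← lintegral_indicator hE]
    refine lintegral_congr fun w => ?_
    have e1 : Pth.stop c w c = w c := by
      rw [Pth.stop_apply, min_self]
    have e2 : Pth.shift c w (T - c) = w T - w c := by
      rw [Pth.shift_apply_of_nonneg _ _ (by linarith), add_sub_cancel]
    simp only [e1, e2]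
    by_cases hw : w ∈ E
    · rw [indicator_of_mem hw, indicator_of_mem ((hs w).2 hw), one_mul]
    · rw [indicator_of_notMem hw, indicator_of_notMem (fun h => hw ((hs w).1 h)), zero_mul]
  have k1 := key 1
  have k2 := key (-1)
  have e1 : ∀ w : Pth, w c + 1 * (w T - w c) = w T := fun w => by ring
  have e2 : ∀ w : Pth, w c + (-1) * (w T - w c) = 2 * w c - w T := fun w => by ring
  simp only [e1] at k1
  simp only [e2] at k2
  rw [k1, k2]
  refine lintegral_congr fun A => ?_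
  have hm : Measurable fun B : Pth => E.indicator (fun _ => (1 : ℝ≥0∞)) (Pth.stop c A) *
        G (Pth.stop c A c + 1 * B (T - c)) :=
    measurable_const.mul (hG.comp (((Pth.measurable_apply (T - c)).const_mul 1).const_add _))
  conv_lhs => rw [← neg_map]
  rw [lintegral_map hm negP_meas]
  refine lintegral_congr fun B => ?_
  have e3 : Pth.stop c A c + 1 * (negP B) (T - c) =
      Pth.stop c A c + -1 * B (T - c) := by
    show Pth.stop c A c + 1 * (-B (T - c)) = _
    ring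
  rw [e3]

/-- discretised hitting time index -/
noncomputable def brfKap (D T : ℝ) (n : ℕ) (w : Pth) : ℕ := ⌈((n : ℝ) + 1) * hit D 0 w / T⌉₊

theorem brfKap_meas (D T : ℝ) (n : ℕ) : Measurable (brfKap D T n) := by
  unfold brfKap
  exact Nat.measurable_ceil.comp (((hit_meas' D 0).const_mul _).div_const _)

theorem refl_disc {T D : ℝ} (hT : 0 < T) (hD : 0 < D) (n : ℕ) {G : ℝ → ℝ≥0∞} (hG : Measurable G) :
    ∫⁻ w in (Blw D 0 T)ᶜ, G (w T) ∂Wm =
      ∫⁻ w in (Blw D 0 T)ᶜ, G (2 * w (brfKap D T n w * T / ((n : ℝ) + 1)) - w T) ∂Wm := by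
  have hA := (blw_meas D 0 T).compl
  have hn : (0 : ℝ) < (n : ℝ) + 1 := by positivity
  have hU : (Blw D 0 T)ᶜ = ⋃ k : ℕ, (Blw D 0 T)ᶜ ∩ brfKap D T n ⁻¹' {k} := by
    ext w
    simp only [mem_iUnion, mem_inter_iff, mem_preimage, mem_singleton_iff, exists_and_left,
      exists_eq', and_true]
  have hm : ∀ k : ℕ, MeasurableSet ((Blw D 0 T)ᶜ ∩ brfKap D T n ⁻¹' {k}) := fun k =>
    hA.inter (brfKap_meas D T n (measurableSet_singleton k))
  have hd : Pairwise (Function.onFun Disjoint fun k : ℕ => (Blw D 0 T)ᶜ ∩ brfKap D T n ⁻¹' {k}) := by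
    intro i j hij
    refine Set.disjoint_left.2 fun w hw hw' => hij ?_
    rw [← show brfKap D T n w = i from hw.2, ← show brfKap D T n w = j from hw'.2]
  have hsum : ∀ F : Pth → ℝ≥0∞, ∫⁻ w in (Blw D 0 T)ᶜ, F w ∂Wm =
      ∑' k : ℕ, ∫⁻ w in (Blw D 0 T)ᶜ ∩ brfKap D T n ⁻¹' {k}, F w ∂Wm := by
    intro F
    conv_lhs => rw [hU]
    exact lintegral_iUnion hm hd F
  rw [hsum, hsum]
  refine tsum_congr fun k => ?_
  have hr1 : ∫⁻ w in (Blw D 0 T)ᶜ ∩ brfKap D T n ⁻¹' {k},
      G (2 * w (brfKap D T n w * T / ((n : ℝ) + 1)) - w T) ∂Wm =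
      ∫⁻ w in (Blw D 0 T)ᶜ ∩ brfKap D T n ⁻¹' {k}, G (2 * w (k * T / ((n : ℝ) + 1)) - w T) ∂Wm := by
    refine setLIntegral_congr_fun (hm k) fun w hw => ?_
    have : brfKap D T n w = k := hw.2
    simp only [this]
  rw [hr1]
  rcases Set.eq_empty_or_nonempty ((Blw D 0 T)ᶜ ∩ brfKap D T n ⁻¹' {k}) with he | ⟨w0, hw0⟩
  · rw [he]
    simp
  -- basic equivalence
  have hk : k ≠ 0 ∧ k ≤ n + 1 := by
    obtain ⟨h0, h1, -, -⟩ := hit_spec hD hT.le hw0.1
    have hkk : brfKap D T n w0 = k := hw0.2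
    rw [← hkk]
    unfold brfKap
    constructor
    · rw [Ne, Nat.ceil_eq_zero, not_le]
      positivity
    · rw [Nat.ceil_le]
      push_cast
      rw [div_le_iff₀ hT]
      exact mul_le_mul_of_nonneg_left h1 hn.le
  obtain ⟨j, rfl⟩ := Nat.exists_eq_succ_of_ne_zero hk.1
  have hj : (j : ℝ) + 1 ≤ (n : ℝ) + 1 := by
    have := hk.2
    exact_mod_cast this
  have hr0 : (0 : ℝ) ≤ ((j.succ : ℕ) : ℝ) * T / ((n : ℝ) + 1) := by positivity
  have hrT : ((j.succ : ℕ) : ℝ) * T / ((n : ℝ) + 1) ≤ T := by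
    rw [div_le_iff₀ hn, mul_comm T]
    push_cast
    exact mul_le_mul_of_nonneg_right hj hT.le
  have hr'0 : (0 : ℝ) ≤ (j : ℝ) * T / ((n : ℝ) + 1) := by positivity
  have hr'r : (j : ℝ) * T / ((n : ℝ) + 1) ≤ ((j.succ : ℕ) : ℝ) * T / ((n : ℝ) + 1) := by
    refine div_le_div_of_nonneg_right ?_ hn.le
    push_cast
    nlinarith
  have heq : ∀ w, w ∈ (Blw D 0 T)ᶜ ∩ brfKap D T n ⁻¹' {j.succ} ↔
      w ∈ Blw D 0 ((j : ℝ) * T / ((n : ℝ) + 1)) ∧ w ∉ Blw D 0 (((j.succ : ℕ) : ℝ) * T / ((n : ℝ) + 1)) := by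
    intro w
    have hkap : brfKap D T n w = j.succ ↔ (j : ℝ) * T / ((n : ℝ) + 1) < hit D 0 w ∧
        hit D 0 w ≤ ((j.succ : ℕ) : ℝ) * T / ((n : ℝ) + 1) := by
      unfold brfKap
      rw [Nat.ceil_eq_iff (Nat.succ_ne_zero j), lt_div_iff₀ hT, div_le_iff₀ hT, div_lt_iff₀ hn,
        le_div_iff₀ hn, Nat.succ_sub_one, mul_comm (hit D 0 w)]
    constructor
    · rintro ⟨hw, hw2⟩
      obtain ⟨h0, h1, -, h3⟩ := hit_spec hD hT.le hw
      have hw2' := hkap.1 hw2
      rw [h3 _ hr'0 (hr'r.trans hrT), h3 _ hr0 hrT, not_lt]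
      exact hw2'
    · rintro ⟨hw, hw2⟩
      have hwT : w ∉ Blw D 0 T := by
        intro h
        exact hw2 fun s hs => h s ⟨hs.1, hs.2.trans hrT⟩
      obtain ⟨h0, h1, -, h3⟩ := hit_spec hD hT.le hwT
      rw [h3 _ hr'0 (hr'r.trans hrT)] at hw
      rw [h3 _ hr0 hrT, not_lt] at hw2
      exact ⟨hwT, hkap.2 ⟨hw, hw2⟩⟩
  have hcc : ((Real.toNNReal (((j.succ : ℕ) : ℝ) * T / ((n : ℝ) + 1)) : ℝ≥0) : ℝ) =
      ((j.succ : ℕ) : ℝ) * T / ((n : ℝ) + 1) := Real.coe_toNNReal _ hr0
  have hfin := refl_step (c := Real.toNNReal (((j.succ : ℕ) : ℝ) * T / ((n : ℝ) + 1))) (T := T)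
    (by rw [hcc]; exact hrT) (hm j.succ) (fun w => by
      rw [heq, heq, stop_blw (by rw [hcc]; exact hr'r), stop_blw (by rw [hcc])]) hG
  rw [hcc] at hfin
  exact hfin

open BoundedContinuousFunction in
theorem refl_cont {T D : ℝ} (hT : 0 < T) (hD : 0 < D) (G : ℝ →ᵇ ℝ≥0) :
    ∫⁻ w in (Blw D 0 T)ᶜ, (G (w T) : ℝ≥0∞) ∂Wm =
      ∫⁻ w in (Blw D 0 T)ᶜ, (G (2 * D - w T) : ℝ≥0∞) ∂Wm := by
  have hA := (blw_meas D 0 T).compl
  have hGc : Continuous fun x : ℝ => (G x : ℝ≥0∞) := ENNReal.continuous_coe.comp G.continuous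
  have hGm : Measurable fun x : ℝ => (G x : ℝ≥0∞) := hGc.measurable
  have hlim : Tendsto (fun n : ℕ => ∫⁻ w in (Blw D 0 T)ᶜ,
      (G (2 * w (brfKap D T n w * T / ((n : ℝ) + 1)) - w T) : ℝ≥0∞) ∂Wm) atTop
      (𝓝 (∫⁻ w in (Blw D 0 T)ᶜ, (G (2 * D - w T) : ℝ≥0∞) ∂Wm)) := by
    refine tendsto_lintegral_of_dominated_convergence (fun _ => ((nndist G 0 : ℝ≥0) : ℝ≥0∞)) ?_ ?_ ?_ ?_
    · intro n
      have hk : Measurable fun w : Pth => (brfKap D T n w : ℝ) * T / ((n : ℝ) + 1) :=
        ((measurable_from_nat.comp (brfKap_meas D T n)).mul_const T).div_const _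
      exact hGm.comp (((Pth.measurable_eval measurable_id hk).const_mul 2).sub
        (Pth.measurable_apply T))
    · intro n
      exact Eventually.of_forall fun w => ENNReal.coe_le_coe.2 (NNReal.upper_bound G _)
    · rw [lintegral_const]
      exact ENNReal.mul_ne_top ENNReal.coe_ne_top (measure_ne_top _ _)
    · refine ae_restrict_of_forall_mem hA fun w hw => ?_
      obtain ⟨h0, h1, h2, -⟩ := hit_spec hD hT.le hw
      rw [zero_mul, add_zero] at h2
      have hs : Tendsto (fun n : ℕ => (brfKap D T n w : ℝ) * T / ((n : ℝ) + 1)) atTop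
          (𝓝 (hit D 0 w)) := by
        have hup : Tendsto (fun n : ℕ => hit D 0 w + T * (1 / ((n : ℝ) + 1))) atTop
            (𝓝 (hit D 0 w + T * 0)) :=
          (tendsto_one_div_add_atTop_nhds_zero_nat.const_mul T).const_add _
        rw [mul_zero, add_zero] at hup
        refine tendsto_of_tendsto_of_tendsto_of_le_of_le tendsto_const_nhds hup ?_ ?_
        · intro n
          have hn : (0 : ℝ) < (n : ℝ) + 1 := by positivity
          have hce : ((n : ℝ) + 1) * hit D 0 w / T ≤ (brfKap D T n w : ℝ) := Nat.le_ceil _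
          rw [div_le_iff₀ hT] at hce
          show hit D 0 w ≤ (brfKap D T n w : ℝ) * T / ((n : ℝ) + 1)
          rw [le_div_iff₀ hn, mul_comm]
          exact hce
        · intro n
          have hn : (0 : ℝ) < (n : ℝ) + 1 := by positivity
          have hce : (brfKap D T n w : ℝ) < ((n : ℝ) + 1) * hit D 0 w / T + 1 :=
            Nat.ceil_lt_add_one (by positivity)
          show (brfKap D T n w : ℝ) * T / ((n : ℝ) + 1) ≤ hit D 0 w + T * (1 / ((n : ℝ) + 1))
          have h4 : (brfKap D T n w : ℝ) * T ≤ ((n : ℝ) + 1) * hit D 0 w + T := by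
            have := mul_le_mul_of_nonneg_right hce.le hT.le
            rw [add_mul, div_mul_cancel₀ _ hT.ne', one_mul] at this
            exact this
          rw [div_le_iff₀ hn]
          have e : (hit D 0 w + T * (1 / ((n : ℝ) + 1))) * ((n : ℝ) + 1) =
              ((n : ℝ) + 1) * hit D 0 w + T := by
            field_simp
          rw [e]
          exact h4
      have hwc : Tendsto (fun n : ℕ => w ((brfKap D T n w : ℝ) * T / ((n : ℝ) + 1))) atTop
          (𝓝 D) := by
        have := (w.continuous.tendsto (hit D 0 w)).comp hs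
        rw [h2] at this
        exact this
      exact (hGc.tendsto _).comp ((hwc.const_mul 2).sub_const _)
  have hcst : ∀ n : ℕ, ∫⁻ w in (Blw D 0 T)ᶜ,
      (G (2 * w (brfKap D T n w * T / ((n : ℝ) + 1)) - w T) : ℝ≥0∞) ∂Wm =
      ∫⁻ w in (Blw D 0 T)ᶜ, (G (w T) : ℝ≥0∞) ∂Wm := fun n => (refl_disc hT hD n hGm).symm
  simp only [hcst] at hlim
  exact tendsto_nhds_unique tendsto_const_nhds hlim

theorem refl_gen {T D : ℝ} (hT : 0 < T) (hD : 0 < D) {G : ℝ → ℝ≥0∞} (hG : Measurable G) :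
    ∫⁻ w in (Blw D 0 T)ᶜ, G (w T) ∂Wm = ∫⁻ w in (Blw D 0 T)ᶜ, G (2 * D - w T) ∂Wm := by
  have hm1 : Measurable fun w : Pth => w T := Pth.measurable_apply T
  have hm2 : Measurable fun w : Pth => 2 * D - w T := measurable_const.sub hm1
  have h : (Wm.restrict (Blw D 0 T)ᶜ).map (fun w : Pth => w T) =
      (Wm.restrict (Blw D 0 T)ᶜ).map (fun w : Pth => 2 * D - w T) := by
    refine ext_of_forall_lintegral_eq_of_IsFiniteMeasure fun f => ?_
    have hfm : Measurable fun x : ℝ => (f x : ℝ≥0∞) :=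
      (ENNReal.continuous_coe.comp f.continuous).measurable
    rw [lintegral_map hfm hm1, lintegral_map hfm hm2]
    exact refl_cont hT hD f
  rw [← lintegral_map (f := G) (g := fun w : Pth => w T) hG hm1,
    ← lintegral_map (f := G) (g := fun w : Pth => 2 * D - w T) hG hm2, h]

theorem lint_gd {T : ℝ} (hT : 0 < T) : ∫⁻ x, ENNReal.ofReal (gd T x) = 1 := by
  have h := marg hT (f := fun _ => 1) measurable_const
  simp only [one_mul] at h
  rw [← h]
  simp

theorem refl_eq {T D : ℝ} (hT : 0 < T) (hD : 0 < D) {f : ℝ → ℝ≥0∞} (hf : Measurable f) :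
    ∫⁻ w in Blw D 0 T, f (D - w T) ∂Wm + ∫⁻ d in Ioi (0 : ℝ), f d * ENNReal.ofReal (gd T (d + D)) =
      ∫⁻ d in Ioi (0 : ℝ), f d * ENNReal.ofReal (gd T (d - D)) := by
  have hB := blw_meas D 0 T
  have hGm : Measurable ((Iio D).indicator fun x => f (D - x)) :=
    (hf.comp (measurable_const.sub measurable_id)).indicator measurableSet_Iio
  have hgd : Measurable fun x => ENNReal.ofReal (gd T x) := (gd_meas T).ennreal_ofReal
  have hwT : ∀ w ∈ Blw D 0 T, w T < D := by
    intro w hw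
    have := hw T ⟨hT.le, le_rfl⟩
    rwa [zero_mul, add_zero] at this
  have h1 : ∫⁻ w, (Iio D).indicator (fun x => f (D - x)) (w T) ∂Wm =
      ∫⁻ w in Blw D 0 T, f (D - w T) ∂Wm +
        ∫⁻ w, (Iio D).indicator (fun x => f (D - x)) (2 * D - w T) ∂Wm := by
    have s1 := lintegral_add_compl (μ := Wm)
      (fun w : Pth => (Iio D).indicator (fun x => f (D - x)) (w T)) hB
    have s2 := lintegral_add_compl (μ := Wm)
      (fun w : Pth => (Iio D).indicator (fun x => f (D - x)) (2 * D - w T)) hB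
    rw [← s1, refl_gen hT hD hGm, ← s2]
    have e1 : ∫⁻ w in Blw D 0 T, (Iio D).indicator (fun x => f (D - x)) (w T) ∂Wm =
        ∫⁻ w in Blw D 0 T, f (D - w T) ∂Wm := by
      refine setLIntegral_congr_fun hB fun w hw => ?_
      exact indicator_of_mem (show w T ∈ Iio D from hwT w hw) _
    have e2 : ∫⁻ w in Blw D 0 T, (Iio D).indicator (fun x => f (D - x)) (2 * D - w T) ∂Wm = 0 := by
      refine setLIntegral_eq_zero hB fun w hw => ?_
      refine indicator_of_notMem ?_ _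
      have := hwT w hw
      rw [mem_Iio, not_lt]
      linarith
    rw [e1, e2, zero_add]
  have hGm2 : Measurable fun x : ℝ => (Iio D).indicator (fun x => f (D - x)) (2 * D - x) :=
    hGm.comp (measurable_const.sub measurable_id)
  rw [marg hT hGm, marg hT hGm2] at h1
  have e3 : ∫⁻ x, (Iio D).indicator (fun x => f (D - x)) x * ENNReal.ofReal (gd T x) =
      ∫⁻ d in Ioi (0 : ℝ), f d * ENNReal.ofReal (gd T (d - D)) := by
    rw [← lintegral_indicator measurableSet_Ioi,
      ← lintegral_sub_left_eq_self (fun x => (Iio D).indicator (fun x => f (D - x)) x *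
        ENNReal.ofReal (gd T x)) D]
    refine lintegral_congr fun d => ?_
    have e4 : gd T (D - d) = gd T (d - D) := by
      unfold gd
      rw [show (D - d) ^ 2 = (d - D) ^ 2 by ring]
    by_cases hd : 0 < d
    · rw [indicator_of_mem (show D - d ∈ Iio D by rw [mem_Iio]; linarith),
        indicator_of_mem (show d ∈ Ioi (0 : ℝ) from hd), e4, sub_sub_cancel]
    · rw [indicator_of_notMem (show D - d ∉ Iio D by rw [mem_Iio]; linarith),
        indicator_of_notMem (show d ∉ Ioi (0 : ℝ) from hd), zero_mul]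
  have e5 : ∫⁻ x, (Iio D).indicator (fun x => f (D - x)) (2 * D - x) * ENNReal.ofReal (gd T x) =
      ∫⁻ d in Ioi (0 : ℝ), f d * ENNReal.ofReal (gd T (d + D)) := by
    rw [← lintegral_indicator measurableSet_Ioi,
      ← lintegral_add_right_eq_self (fun x => (Iio D).indicator (fun x => f (D - x)) (2 * D - x) *
        ENNReal.ofReal (gd T x)) D]
    refine lintegral_congr fun d => ?_
    by_cases hd : 0 < d
    · rw [indicator_of_mem (show 2 * D - (d + D) ∈ Iio D by rw [mem_Iio]; linarith),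
        indicator_of_mem (show d ∈ Ioi (0 : ℝ) from hd),
        show D - (2 * D - (d + D)) = d by ring]
    · rw [indicator_of_notMem (show 2 * D - (d + D) ∉ Iio D by rw [mem_Iio]; linarith),
        indicator_of_notMem (show d ∉ Ioi (0 : ℝ) from hd), zero_mul]
  rw [e3, e5] at h1
  exact h1.symm

/-- reflection principle: law of the end point on the event that the path stays below `D` -/
theorem refl_lint {T D : ℝ} (hT : 0 < T) (hD : 0 < D) {f : ℝ → ℝ≥0∞} (hf : Measurable f) :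
    ∫⁻ w in Blw D 0 T, f (D - w T) ∂Wm = ∫⁻ d in Ioi (0 : ℝ), f d * ENNReal.ofReal (kk T D d) := by
  have hkm : Measurable fun d => ENNReal.ofReal (kk T D d) := by
    unfold kk
    exact (((gd_meas T).comp (measurable_id.sub_const D)).sub
      ((gd_meas T).comp (measurable_id.add_const D))).ennreal_ofReal
  have hm : Measurable fun w : Pth => D - w T := measurable_const.sub (Pth.measurable_apply T)
  have hadd : Measurable fun d => ENNReal.ofReal (gd T (d + D)) :=
    ((gd_meas T).comp (measurable_id.add_const D)).ennreal_ofReal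
  have h : (Wm.restrict (Blw D 0 T)).map (fun w : Pth => D - w T) =
      (volume.restrict (Ioi (0 : ℝ))).withDensity (fun d => ENNReal.ofReal (kk T D d)) := by
    ext S hS
    have hS1 : Measurable (S.indicator fun _ => (1 : ℝ≥0∞)) := measurable_const.indicator hS
    have h1 := refl_eq hT hD hS1
    have e1 : (Wm.restrict (Blw D 0 T)).map (fun w : Pth => D - w T) S =
        ∫⁻ w in Blw D 0 T, S.indicator (fun _ => (1 : ℝ≥0∞)) (D - w T) ∂Wm := by
      rw [← lintegral_map (f := S.indicator fun _ => (1 : ℝ≥0∞)) (g := fun w : Pth => D - w T) hS1 hm,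
        lintegral_indicator hS, setLIntegral_one]
    have e2 : (volume.restrict (Ioi (0 : ℝ))).withDensity (fun d => ENNReal.ofReal (kk T D d)) S =
        ∫⁻ d in Ioi (0 : ℝ), S.indicator (fun _ => (1 : ℝ≥0∞)) d * ENNReal.ofReal (kk T D d) := by
      rw [withDensity_apply _ hS, ← lintegral_indicator hS]
      refine lintegral_congr fun d => ?_
      by_cases hd : d ∈ S
      · rw [indicator_of_mem hd, indicator_of_mem hd, one_mul]
      · rw [indicator_of_notMem hd, indicator_of_notMem hd, zero_mul]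
    rw [e1, e2]
    have e3 : ∫⁻ d in Ioi (0 : ℝ), S.indicator (fun _ => (1 : ℝ≥0∞)) d * ENNReal.ofReal (gd T (d - D)) =
        (∫⁻ d in Ioi (0 : ℝ), S.indicator (fun _ => (1 : ℝ≥0∞)) d * ENNReal.ofReal (kk T D d)) +
        ∫⁻ d in Ioi (0 : ℝ), S.indicator (fun _ => (1 : ℝ≥0∞)) d * ENNReal.ofReal (gd T (d + D)) := by
      have hmk : Measurable fun d => S.indicator (fun _ => (1 : ℝ≥0∞)) d * ENNReal.ofReal (kk T D d) :=
        hS1.mul hkm
      rw [← lintegral_add_left hmk]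
      refine setLIntegral_congr_fun measurableSet_Ioi fun d hd => ?_
      have hd' : (0 : ℝ) < d := hd
      show _ = S.indicator (fun _ => (1 : ℝ≥0∞)) d * ENNReal.ofReal (kk T D d) +
        S.indicator (fun _ => (1 : ℝ≥0∞)) d * ENNReal.ofReal (gd T (d + D))
      rw [← mul_add, ← ENNReal.ofReal_add (kk_nonneg hT hD.le hd'.le) (gd_nonneg _ _)]
      unfold kk
      rw [sub_add_cancel]
    rw [e3] at h1
    refine (ENNReal.add_left_inj ?_).1 h1
    refine ne_top_of_le_ne_top (b := 1) ENNReal.one_ne_top ?_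
    calc ∫⁻ d in Ioi (0 : ℝ), S.indicator (fun _ => (1 : ℝ≥0∞)) d * ENNReal.ofReal (gd T (d + D))
        ≤ ∫⁻ d in Ioi (0 : ℝ), ENNReal.ofReal (gd T (d + D)) := by
          refine lintegral_mono fun d => ?_
          by_cases hd : d ∈ S
          · rw [indicator_of_mem hd, one_mul]
          · rw [indicator_of_notMem hd, zero_mul]
            exact bot_le
      _ ≤ ∫⁻ d, ENNReal.ofReal (gd T (d + D)) := setLIntegral_le_lintegral _ _
      _ = ∫⁻ d, ENNReal.ofReal (gd T d) :=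
          lintegral_add_right_eq_self (fun x => ENNReal.ofReal (gd T x)) D
      _ = 1 := lint_gd hT
  rw [← lintegral_map (f := f) (g := fun w : Pth => D - w T) hf hm, h,
    lintegral_withDensity_eq_lintegral_mul _ hkm hf]
  refine lintegral_congr fun d => ?_
  rw [Pi.mul_apply, mul_comm]

end Pool.H50.BB
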