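import Pool.Agent.H50.BB.Defs1

/-!
# Row Bsc: Brownian motion in a linearly growing scale   (about 260 lines)

`ℓ σ = ℓ1 + θ σ`, `ℓ2 = ℓ Δ > 0`, `ℓ1 > 0`, `h = Δ/(ℓ1 ℓ2)`, `τ(σ) = σ/(ℓ1 ℓ(σ))` (increasing from `0` to `h`).  `zP w` is the path `σ ↦ ℓ(σ) (y/ℓ1 + w(τ(σ))) - y` on `[0,Δ]`, constant after `Δ`.
CLAIM (`scale_path`): `∫⁻ Φ (stop Δ w) dWm = √(ℓ2/ℓ1) e^{θ y²/(2ℓ1)} ∫⁻ Φ (zP w) exp (-θ ℓ2 (y/ℓ1 + w h)²/2) dWm`.
Proof by the Brownian bridge: `lin4_map` gives that the path built from the scaled bridge of `w` on `[0,h]`, a line with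
independent end point and the increments of `w` after `h + Δ` is a Brownian motion (`yP_map`); with other parameters it also
gives the independence of the scaled bridge and of `w h`.
-/

open MeasureTheory ProbabilityTheory Set Filter Topology
open scoped NNReal ENNReal

namespace Pool.H50.BB

open Pool.Agent.H4.BM

/-- the time change -/
noncomputable def tch (ℓ1 θ σ : ℝ) : ℝ := σ / (ℓ1 * (ℓ1 + θ * σ))

/-- `zP w` as a function: the scaled path, started at `y`, minus `y`, stopped at `Δ` -/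
noncomputable def zfun (ℓ1 θ Δ y : ℝ) (w : Pth) (σ : ℝ) : ℝ :=
  (ℓ1 + θ * (max 0 (min σ Δ))) * (y / ℓ1 + w (tch ℓ1 θ (max 0 (min σ Δ)))) - y

theorem clp0 (Δ σ : ℝ) : 0 ≤ max 0 (min σ Δ) := le_max_left _ _

theorem clp1 {Δ : ℝ} (hΔ : 0 < Δ) (σ : ℝ) : max 0 (min σ Δ) ≤ Δ := max_le hΔ.le (min_le_right _ _)

theorem clp_neg {Δ : ℝ} {σ : ℝ} (hσ : σ ≤ 0) : max 0 (min σ Δ) = 0 :=
  max_eq_left ((min_le_left _ _).trans hσ)

theorem ell_pos {ℓ1 θ Δ : ℝ} (h1 : 0 < ℓ1) (h2 : 0 < ℓ1 + θ * Δ) {s : ℝ} (hs : 0 ≤ s) (hs' : s ≤ Δ) :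
    0 < ℓ1 + θ * s := by
  rcases le_total 0 θ with h | h
  · have := mul_nonneg h hs
    linarith
  · have : θ * Δ ≤ θ * s := mul_le_mul_of_nonpos_left hs' h
    linarith

theorem tch_cont {ℓ1 θ Δ : ℝ} (h1 : 0 < ℓ1) (h2 : 0 < ℓ1 + θ * Δ) (hΔ : 0 < Δ) :
    Continuous (fun σ => tch ℓ1 θ (max 0 (min σ Δ))) := by
  unfold tch
  refine Continuous.div (by fun_prop) (by fun_prop) fun σ => ?_
  have := ell_pos h1 h2 (clp0 Δ σ) (clp1 hΔ σ)
  positivity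

theorem tch_zero (ℓ1 θ : ℝ) : tch ℓ1 θ 0 = 0 := by
  unfold tch; rw [zero_div]

theorem tch_mono {ℓ1 θ Δ : ℝ} (h1 : 0 < ℓ1) (h2 : 0 < ℓ1 + θ * Δ) {s t : ℝ} (hs : 0 ≤ s) (hst : s ≤ t)
    (ht : t ≤ Δ) : tch ℓ1 θ s ≤ tch ℓ1 θ t := by
  have p1 := ell_pos h1 h2 hs (hst.trans ht)
  have p2 := ell_pos h1 h2 (hs.trans hst) ht
  unfold tch
  rw [div_le_div_iff₀ (by positivity) (by positivity)]
  nlinarith [mul_le_mul_of_nonneg_left hst (mul_pos h1 h1).le]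

theorem tch_pos {ℓ1 θ Δ : ℝ} (h1 : 0 < ℓ1) (h2 : 0 < ℓ1 + θ * Δ) (hΔ : 0 < Δ) : 0 < tch ℓ1 θ Δ := by
  unfold tch; positivity

theorem tch_nonneg {ℓ1 θ Δ : ℝ} (h1 : 0 < ℓ1) (h2 : 0 < ℓ1 + θ * Δ) {s : ℝ} (hs : 0 ≤ s) (hs' : s ≤ Δ) :
    0 ≤ tch ℓ1 θ s := by
  have := tch_mono h1 h2 le_rfl hs hs'
  rwa [tch_zero] at this

theorem zfun_cont {ℓ1 θ Δ : ℝ} (h1 : 0 < ℓ1) (h2 : 0 < ℓ1 + θ * Δ) (hΔ : 0 < Δ) (y : ℝ) (w : Pth) :
    Continuous (zfun ℓ1 θ Δ y w) := by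
  have := tch_cont h1 h2 hΔ
  have hw := w.continuous.comp this
  unfold zfun
  exact ((continuous_const.add (continuous_const.mul (by fun_prop))).mul
    (continuous_const.add hw)).sub continuous_const

theorem zfun_nonpos {ℓ1 θ Δ : ℝ} (h1 : 0 < ℓ1) (hΔ : 0 < Δ) (y : ℝ) (w : Pth) {σ : ℝ} (hσ : σ ≤ 0) :
    zfun ℓ1 θ Δ y w σ = 0 := by
  unfold zfun
  rw [clp_neg hσ, tch_zero, w.zero]
  field_simp
  ring

/-- the scaled path -/
noncomputable def zP {ℓ1 θ Δ : ℝ} (h1 : 0 < ℓ1) (h2 : 0 < ℓ1 + θ * Δ) (hΔ : 0 < Δ) (y : ℝ) (w : Pth) : Pth :=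
  ⟨zfun ℓ1 θ Δ y w, zfun_cont h1 h2 hΔ y w, fun _ ht => zfun_nonpos h1 hΔ y w ht⟩

/-! ### the bridge -/

theorem lin4_map {Ψ : Pth → Pth} (hΨ : Measurable Ψ) (c : ℝ≥0 → Fin 4 → ℝ) (r : ℝ≥0 → Fin 4 → ℝ≥0)
    (hf : ∀ t : ℝ≥0, ∀ A : Pth, Ψ A t = ∑ i, c t i * A (r t i : ℝ))
    (hc : ∀ s t : ℝ≥0, s ≤ t → ∑ i, ∑ j, c s i * c t j * min (r s i : ℝ) (r t j) = s) :
    Wm.map Ψ = Wm := by
  refine Wm_isW.map_eq hΨ ?_
  have hB : IsPreBrownianReal (fun (t : ℝ≥0) (A : Pth) => A t) Wm := Wm_isW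
  have l2 : ∀ t : ℝ≥0, MemLp (fun A : Pth => A t) 2 Wm := fun t =>
    (hB.isGaussianProcess.hasGaussianLaw_eval t).memLp_two
  have e : (fun (t : ℝ≥0) (A : Pth) => Ψ A t) = fun (t : ℝ≥0) (A : Pth) => ∑ i, c t i * A (r t i : ℝ) := by
    funext t A
    exact hf t A
  rw [e]
  refine IsGaussianProcess.isPreBrownianReal_of_covariance ?_ (fun t ↦ ?_) (fun s t hst ↦ ?_)
  · classical
    refine hB.isGaussianProcess.of_isGaussianProcess fun t => ⟨Finset.univ.image (r t),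
      { toFun x := ∑ i, c t i * x ⟨r t i, Finset.mem_image_of_mem _ (Finset.mem_univ i)⟩
        map_add' x y := by simp only [Pi.add_apply, mul_add, Finset.sum_add_distrib]
        map_smul' a x := by
          simp only [Pi.smul_apply, smul_eq_mul, RingHom.id_apply, Finset.mul_sum]
          exact Finset.sum_congr rfl fun i _ => by ring }, fun A => by simp⟩
  · rw [integral_finsetSum]
    · apply Finset.sum_eq_zero
      intro i _
      rw [integral_const_mul]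
      have : ∫ A : Pth, A (r t i : ℝ) ∂Wm = 0 := hB.integral_eval (r t i)
      rw [this, mul_zero]
    · intro i _
      exact (hB.integrable_eval (r t i)).const_mul _
  · have cv : ∀ s t : ℝ≥0, cov[fun A : Pth => A (s : ℝ), fun A : Pth => A (t : ℝ); Wm] = min (s : ℝ) t := by
      intro s t
      have := hB.covariance_fun_eval s t
      simpa using this
    rw [covariance_fun_sum_fun_sum (fun i => (l2 (r s i)).const_mul (c s i)) (fun i => (l2 (r t i)).const_mul (c t i))]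
    rw [← hc s t hst]
    refine Finset.sum_congr rfl fun i _ => Finset.sum_congr rfl fun j _ => ?_
    rw [covariance_const_mul_left, covariance_const_mul_right, cv]
    ring

/-- the scaled bridge -/
noncomputable def sbf (ℓ1 θ Δ : ℝ) (A : Pth) (σ : ℝ) : ℝ :=
  (ℓ1 + θ * max 0 (min σ Δ)) * (A (tch ℓ1 θ (max 0 (min σ Δ))) -
    tch ℓ1 θ (max 0 (min σ Δ)) / tch ℓ1 θ Δ * A (tch ℓ1 θ Δ))

theorem sbf_cont {ℓ1 θ Δ : ℝ} (h1 : 0 < ℓ1) (h2 : 0 < ℓ1 + θ * Δ) (hΔ : 0 < Δ) (A : Pth) :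
    Continuous (sbf ℓ1 θ Δ A) := by
  have ht := tch_cont h1 h2 hΔ
  have hw := A.continuous.comp ht
  unfold sbf
  exact (continuous_const.add (continuous_const.mul (by fun_prop))).mul
    (hw.sub ((ht.div_const _).mul continuous_const))

theorem sbf_nonpos {ℓ1 θ Δ : ℝ} (A : Pth) {σ : ℝ} (hσ : σ ≤ 0) : sbf ℓ1 θ Δ A σ = 0 := by
  unfold sbf
  rw [clp_neg hσ, tch_zero, A.zero, zero_div, zero_mul, sub_zero, mul_zero]

/-- the scaled bridge plus a line -/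
noncomputable def cmb {ℓ1 θ Δ : ℝ} (h1 : 0 < ℓ1) (h2 : 0 < ℓ1 + θ * Δ) (hΔ : 0 < Δ) (A : Pth) (z : ℝ) : Pth :=
  ⟨fun σ => sbf ℓ1 θ Δ A σ + max 0 (min σ Δ) / Δ * z, by
    have := sbf_cont h1 h2 hΔ A
    fun_prop, fun σ hσ => by
    rw [sbf_nonpos A hσ, clp_neg hσ, zero_div, zero_mul, add_zero]⟩

/-- the new Brownian motion -/
noncomputable def yP {ℓ1 θ Δ : ℝ} (h1 : 0 < ℓ1) (h2 : 0 < ℓ1 + θ * Δ) (hΔ : 0 < Δ) (A : Pth) : Pth :=
  ⟨fun σ => sbf ℓ1 θ Δ A σ + max 0 (min σ Δ) / Δ * (A (tch ℓ1 θ Δ + Δ) - A (tch ℓ1 θ Δ)) +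
      (A (tch ℓ1 θ Δ + max σ Δ) - A (tch ℓ1 θ Δ + Δ)), by
    have := sbf_cont h1 h2 hΔ A
    have := A.continuous
    fun_prop, fun σ hσ => by
    rw [sbf_nonpos A hσ, clp_neg hσ, zero_div, zero_mul, add_zero, max_eq_right (hσ.trans hΔ.le), sub_self,
      add_zero]⟩

theorem sbf_meas (ℓ1 θ Δ σ : ℝ) : Measurable (fun A : Pth => sbf ℓ1 θ Δ A σ) := by
  unfold sbf
  exact ((Pth.measurable_apply _).sub ((Pth.measurable_apply _).const_mul _)).const_mul _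

theorem cmb_meas {ℓ1 θ Δ : ℝ} (h1 : 0 < ℓ1) (h2 : 0 < ℓ1 + θ * Δ) (hΔ : 0 < Δ) :
    Measurable (fun p : Pth × ℝ => cmb h1 h2 hΔ p.1 p.2) := by
  refine Pth.measurable_of_eval fun t => ?_
  exact ((sbf_meas ℓ1 θ Δ t).comp measurable_fst).add (measurable_snd.const_mul _)

theorem yP_meas {ℓ1 θ Δ : ℝ} (h1 : 0 < ℓ1) (h2 : 0 < ℓ1 + θ * Δ) (hΔ : 0 < Δ) :
    Measurable (yP h1 h2 hΔ) := by
  refine Pth.measurable_of_eval fun t => ?_
  exact ((sbf_meas ℓ1 θ Δ t).add (((Pth.measurable_apply _).sub (Pth.measurable_apply _)).const_mul _)).add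
    ((Pth.measurable_apply _).sub (Pth.measurable_apply _))

theorem yP_map {ℓ1 θ Δ : ℝ} (h1 : 0 < ℓ1) (h2 : 0 < ℓ1 + θ * Δ) (hΔ : 0 < Δ) :
    Wm.map (yP h1 h2 hΔ) = Wm := by
  have hH := tch_pos h1 h2 hΔ
  refine lin4_map (yP_meas h1 h2 hΔ)
    (fun t => ![ℓ1 + θ * max 0 (min (t : ℝ) Δ),
      - ((ℓ1 + θ * max 0 (min (t : ℝ) Δ)) * (tch ℓ1 θ (max 0 (min (t : ℝ) Δ)) / tch ℓ1 θ Δ)) - max 0 (min (t : ℝ) Δ) / Δ,
      max 0 (min (t : ℝ) Δ) / Δ - 1, 1])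
    (fun t => ![(tch ℓ1 θ (max 0 (min (t : ℝ) Δ))).toNNReal, (tch ℓ1 θ Δ).toNNReal, (tch ℓ1 θ Δ + Δ).toNNReal,
      (tch ℓ1 θ Δ + max (t : ℝ) Δ).toNNReal]) ?_ ?_
  · intro t A
    have p1 := tch_nonneg h1 h2 (clp0 Δ (t : ℝ)) (clp1 hΔ t)
    have p2 : 0 ≤ tch ℓ1 θ Δ + max (t : ℝ) Δ := by
      have := le_max_right (t : ℝ) Δ
      linarith
    rw [Fin.sum_univ_four]
    simp only [Matrix.cons_val]
    rw [Real.coe_toNNReal _ p1, Real.coe_toNNReal _ hH.le, Real.coe_toNNReal _ (by positivity),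
      Real.coe_toNNReal _ p2]
    change sbf ℓ1 θ Δ A t + max 0 (min (t : ℝ) Δ) / Δ * (A (tch ℓ1 θ Δ + Δ) - A (tch ℓ1 θ Δ)) +
      (A (tch ℓ1 θ Δ + max (t : ℝ) Δ) - A (tch ℓ1 θ Δ + Δ)) = _
    unfold sbf
    ring
  · intro s t hst
    have hst' : (s : ℝ) ≤ t := hst
    have p1 := tch_nonneg h1 h2 (clp0 Δ (s : ℝ)) (clp1 hΔ s)
    have p1' := tch_nonneg h1 h2 (clp0 Δ (t : ℝ)) (clp1 hΔ t)
    have p2 : Δ ≤ max (s : ℝ) Δ := le_max_right _ _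
    have p2' : Δ ≤ max (t : ℝ) Δ := le_max_right _ _
    have p3 : max (s : ℝ) Δ ≤ max (t : ℝ) Δ := max_le_max hst' le_rfl
    have p4 : max 0 (min (s : ℝ) Δ) ≤ max 0 (min (t : ℝ) Δ) := max_le_max le_rfl (min_le_min hst' le_rfl)
    have p5 := tch_mono h1 h2 (clp0 Δ (s : ℝ)) p4 (clp1 hΔ t)
    have p6 := tch_mono h1 h2 (clp0 Δ (t : ℝ)) (clp1 hΔ t) le_rfl
    have p7 : max 0 (min (s : ℝ) Δ) + max (s : ℝ) Δ = s + Δ := by
      rw [max_eq_right (le_min s.coe_nonneg hΔ.le)]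
      exact min_add_max _ _
    have q1 := ell_pos h1 h2 (clp0 Δ (s : ℝ)) (clp1 hΔ s)
    have q2 := ell_pos h1 h2 (clp0 Δ (t : ℝ)) (clp1 hΔ t)
    have e1 : (ℓ1 + θ * max 0 (min (s : ℝ) Δ)) * tch ℓ1 θ (max 0 (min (s : ℝ) Δ)) = max 0 (min (s : ℝ) Δ) / ℓ1 := by
      unfold tch
      field_simp
    have e2 : (ℓ1 + θ * max 0 (min (t : ℝ) Δ)) * (tch ℓ1 θ (max 0 (min (t : ℝ) Δ)) / tch ℓ1 θ Δ) =
        ℓ1 + θ * max 0 (min (t : ℝ) Δ) - ℓ1 * (1 - max 0 (min (t : ℝ) Δ) / Δ) := by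
      unfold tch
      field_simp
      ring
    simp only [Fin.sum_univ_four, Matrix.cons_val]
    have n1 : ((tch ℓ1 θ (max 0 (min (s : ℝ) Δ))).toNNReal : ℝ) = tch ℓ1 θ (max 0 (min (s : ℝ) Δ)) :=
      Real.coe_toNNReal _ p1
    have n1' : ((tch ℓ1 θ (max 0 (min (t : ℝ) Δ))).toNNReal : ℝ) = tch ℓ1 θ (max 0 (min (t : ℝ) Δ)) :=
      Real.coe_toNNReal _ p1'
    have n2 : ((tch ℓ1 θ Δ).toNNReal : ℝ) = tch ℓ1 θ Δ := Real.coe_toNNReal _ hH.le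
    have n3 : ((tch ℓ1 θ Δ + Δ).toNNReal : ℝ) = tch ℓ1 θ Δ + Δ := Real.coe_toNNReal _ (by positivity)
    have n4 : ((tch ℓ1 θ Δ + max (s : ℝ) Δ).toNNReal : ℝ) = tch ℓ1 θ Δ + max (s : ℝ) Δ :=
      Real.coe_toNNReal _ (by linarith)
    have n4' : ((tch ℓ1 θ Δ + max (t : ℝ) Δ).toNNReal : ℝ) = tch ℓ1 θ Δ + max (t : ℝ) Δ :=
      Real.coe_toNNReal _ (by linarith)
    rw [n1, n1', n2, n3, n4, n4']
    have e3 : (ℓ1 + θ * max 0 (min (t : ℝ) Δ)) * tch ℓ1 θ (max 0 (min (t : ℝ) Δ)) =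
        (ℓ1 + θ * max 0 (min (t : ℝ) Δ) - ℓ1 * (1 - max 0 (min (t : ℝ) Δ) / Δ)) * tch ℓ1 θ Δ := by
      rw [← e2]
      field_simp
    rw [e2]
    generalize hS : max 0 (min (s : ℝ) Δ) = S at *
    generalize hT : max 0 (min (t : ℝ) Δ) = T at *
    generalize hS' : max (s : ℝ) Δ = S' at *
    generalize hT' : max (t : ℝ) Δ = T' at *
    generalize hu : tch ℓ1 θ S = u at *
    generalize hv : tch ℓ1 θ T = v at *
    generalize hHH : tch ℓ1 θ Δ = H at *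
    have uH : u ≤ H := p5.trans p6
    rw [min_eq_left p5, min_eq_left uH, min_eq_left (by linarith : u ≤ H + Δ), min_eq_left (by linarith : u ≤ H + T'),
      min_eq_right p6, min_self, min_eq_left (by linarith : H ≤ H + Δ), min_eq_left (by linarith : H ≤ H + T'),
      min_eq_right (by linarith : v ≤ H + Δ), min_eq_right (by linarith : H ≤ H + Δ), min_self,
      min_eq_left (by linarith : H + Δ ≤ H + T'), min_eq_right (by linarith : v ≤ H + S'),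
      min_eq_right (by linarith : H ≤ H + S'), min_eq_right (by linarith : H + Δ ≤ H + S'),
      min_eq_left (by linarith : H + S' ≤ H + T')]
    have hS'e : S' = s + Δ - S := by linarith
    rw [hS'e]
    set Lt := ℓ1 + θ * T with hLt
    set Ls := ℓ1 + θ * S with hLs
    have e6 : S / Δ * Δ = S := by field_simp
    have e7 : Ls * u * ℓ1 = S := by
      rw [e1]
      field_simp
    linear_combination (1 - T / Δ) * e7 + (-(Ls * (u / H))) * e3 + T / Δ * e6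

theorem cmb_eq {ℓ1 θ Δ : ℝ} (h1 : 0 < ℓ1) (h2 : 0 < ℓ1 + θ * Δ) (hΔ : 0 < Δ) {A A' : Pth}
    (h : ∀ r, 0 ≤ r → r ≤ tch ℓ1 θ Δ → A r - r / tch ℓ1 θ Δ * A (tch ℓ1 θ Δ) =
      A' r - r / tch ℓ1 θ Δ * A' (tch ℓ1 θ Δ)) (z : ℝ) : cmb h1 h2 hΔ A z = cmb h1 h2 hΔ A' z := by
  ext t
  change sbf ℓ1 θ Δ A t + _ = sbf ℓ1 θ Δ A' t + _
  unfold sbf
  rw [h _ (tch_nonneg h1 h2 (clp0 Δ t) (clp1 hΔ t)) (tch_mono h1 h2 (clp0 Δ t) (clp1 hΔ t) le_rfl)]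

theorem cmb_stop {ℓ1 θ Δ : ℝ} (h1 : 0 < ℓ1) (h2 : 0 < ℓ1 + θ * Δ) (hΔ : 0 < Δ) (A : Pth) (z : ℝ) :
    cmb h1 h2 hΔ (Pth.stop (tch ℓ1 θ Δ).toNNReal A) z = cmb h1 h2 hΔ A z := by
  refine cmb_eq h1 h2 hΔ (fun r _ hr => ?_) z
  rw [Pth.stop_apply, Pth.stop_apply, Real.coe_toNNReal _ (tch_pos h1 h2 hΔ).le, min_eq_left hr, min_self]

theorem stop_yP {ℓ1 θ Δ : ℝ} (h1 : 0 < ℓ1) (h2 : 0 < ℓ1 + θ * Δ) (hΔ : 0 < Δ) (A : Pth) :
    Pth.stop Δ.toNNReal (yP h1 h2 hΔ A) =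
      cmb h1 h2 hΔ A (Pth.shift (tch ℓ1 θ Δ).toNNReal A Δ) := by
  ext t
  rw [Pth.stop_apply, Real.coe_toNNReal _ hΔ.le, Pth.shift_apply, Real.coe_toNNReal _ (tch_pos h1 h2 hΔ).le]
  change sbf ℓ1 θ Δ A (min t Δ) + max 0 (min (min t Δ) Δ) / Δ * (A (tch ℓ1 θ Δ + Δ) - A (tch ℓ1 θ Δ)) +
    (A (tch ℓ1 θ Δ + max (min t Δ) Δ) - A (tch ℓ1 θ Δ + Δ)) = sbf ℓ1 θ Δ A t + max 0 (min t Δ) / Δ *
      (A (tch ℓ1 θ Δ + max Δ 0) - A (tch ℓ1 θ Δ))
  unfold sbf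
  rw [min_assoc, min_self, max_eq_right (min_le_right t Δ), max_eq_left hΔ.le]
  ring

theorem zP_eq {ℓ1 θ Δ : ℝ} (h1 : 0 < ℓ1) (h2 : 0 < ℓ1 + θ * Δ) (hΔ : 0 < Δ) (y : ℝ) (w : Pth) :
    zP h1 h2 hΔ y w = cmb h1 h2 hΔ w ((ℓ1 + θ * Δ) * w (tch ℓ1 θ Δ) + ((ℓ1 + θ * Δ) * (y / ℓ1) - y)) := by
  ext t
  change zfun ℓ1 θ Δ y w t = sbf ℓ1 θ Δ w t + max 0 (min t Δ) / Δ *
    ((ℓ1 + θ * Δ) * w (tch ℓ1 θ Δ) + ((ℓ1 + θ * Δ) * (y / ℓ1) - y))
  unfold zfun sbf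
  have q1 := ell_pos h1 h2 (clp0 Δ t) (clp1 hΔ t)
  have e2 : (ℓ1 + θ * max 0 (min t Δ)) * (tch ℓ1 θ (max 0 (min t Δ)) / tch ℓ1 θ Δ) =
      max 0 (min t Δ) / Δ * (ℓ1 + θ * Δ) := by
    unfold tch
    field_simp
  have e3 : (ℓ1 + θ * max 0 (min t Δ)) * (y / ℓ1) - y = max 0 (min t Δ) / Δ * ((ℓ1 + θ * Δ) * (y / ℓ1) - y) := by
    field_simp
    ring
  linear_combination e3 + (w (tch ℓ1 θ Δ)) * e2

theorem gauss_split {H T : ℝ} (hT : 0 ≤ T) {G : Pth × ℝ → ℝ≥0∞} (hG : Measurable G) :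
    ∫⁻ w, G (Pth.stop H.toNNReal w, Pth.shift H.toNNReal w T) ∂Wm =
      ∫⁻ z, ∫⁻ A, G (Pth.stop H.toNNReal A, z) ∂Wm ∂(gaussianReal 0 T.toNNReal) := by
  have mst : Measurable (Pth.stop H.toNNReal) := Pth.measurable_stop measurable_const measurable_id
  have h := lintegral_stop_shift Wm_isW H.toNNReal (G := fun p => G (p.1, p.2 T))
    (hG.comp (measurable_fst.prodMk ((Pth.measurable_apply T).comp measurable_snd)))
  rw [h]
  have mm : Measurable (fun p : Pth × ℝ => G (Pth.stop H.toNNReal p.1, p.2)) :=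
    hG.comp ((mst.comp measurable_fst).prodMk measurable_snd)
  rw [lintegral_lintegral_swap]
  · have hl : Wm.map (fun A : Pth => A T) = gaussianReal 0 T.toNNReal := by
      have hB : IsPreBrownianReal (fun (t : ℝ≥0) (A : Pth) => A t) Wm := Wm_isW
      have := (hB.hasLaw_eval T.toNNReal).map_eq
      simp only [Real.coe_toNNReal _ hT] at this
      exact this
    rw [← hl, lintegral_map _ (Pth.measurable_apply T)]
    exact mm.lintegral_prod_left'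
  · exact (mm.comp (measurable_fst.prodMk ((Pth.measurable_apply T).comp measurable_snd))).aemeasurable

theorem yP_one {H : ℝ} (hH : 0 < H) (w : Pth) {r : ℝ} (hr : 0 ≤ r) (hr' : r ≤ H) :
    yP (ℓ1 := 1) (θ := 0) one_pos (by norm_num) hH w r = w r - r / H * w H + r / H * (Pth.shift H.toNNReal w H) := by
  rw [Pth.shift_apply, Real.coe_toNNReal _ hH.le, max_eq_left hH.le]
  change sbf 1 0 H w r + max 0 (min r H) / H * (w (tch 1 0 H + H) - w (tch 1 0 H)) +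
    (w (tch 1 0 H + max r H) - w (tch 1 0 H + H)) = _
  unfold sbf
  have e : ∀ x : ℝ, tch 1 0 x = x := by
    intro x
    unfold tch
    norm_num
  simp only [e]
  rw [min_eq_left hr', max_eq_right hr, max_eq_right hr']
  ring

theorem scale_path {ℓ1 θ : ℝ} {Δ : ℝ} (h1 : 0 < ℓ1) (h2 : 0 < ℓ1 + θ * Δ) (hΔ : 0 < Δ) (y : ℝ)
    {Φ : Pth → ℝ≥0∞} (hΦ : Measurable Φ) :
    ∫⁻ w, Φ (Pth.stop Δ.toNNReal w) ∂Wm =
      ENNReal.ofReal (√((ℓ1 + θ * Δ) / ℓ1) * Real.exp (θ * y ^ 2 / (2 * ℓ1))) *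
      ∫⁻ w, Φ (zP h1 h2 hΔ y w) *
        ENNReal.ofReal (Real.exp (-θ * (ℓ1 + θ * Δ) *
          (y / ℓ1 + w (Δ / (ℓ1 * (ℓ1 + θ * Δ)))) ^ 2 / 2)) ∂Wm := by
  have hH := tch_pos h1 h2 hΔ
  have hHe : Δ / (ℓ1 * (ℓ1 + θ * Δ)) = tch ℓ1 θ Δ := rfl
  rw [hHe]
  set H := tch ℓ1 θ Δ with hHdef
  set L := ℓ1 + θ * Δ with hL
  set m := L * (y / ℓ1) - y with hm
  have mst : ∀ c : ℝ≥0, Measurable (Pth.stop c) := fun c => Pth.measurable_stop measurable_const measurable_id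
  have msh : ∀ c : ℝ≥0, Measurable (Pth.shift c) := fun c => Pth.measurable_shift measurable_const measurable_id
  have mc : Measurable (fun p : Pth × ℝ => Φ (cmb h1 h2 hΔ p.1 p.2)) := hΦ.comp (cmb_meas h1 h2 hΔ)
  set Psi : ℝ → ℝ≥0∞ := fun z => ∫⁻ A, Φ (cmb h1 h2 hΔ A z) ∂Wm with hPsi
  have mPsi : Measurable Psi := mc.lintegral_prod_left'
  -- left side
  have hleft : ∫⁻ w, Φ (Pth.stop Δ.toNNReal w) ∂Wm = ∫⁻ z, Psi z ∂(gaussianReal 0 Δ.toNNReal) := by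
    have e1 : ∫⁻ w, Φ (Pth.stop Δ.toNNReal w) ∂Wm = ∫⁻ w, Φ (Pth.stop Δ.toNNReal (yP h1 h2 hΔ w)) ∂Wm := by
      have mΦ : Measurable (fun w => Φ (Pth.stop Δ.toNNReal w)) := hΦ.comp (mst _)
      conv_lhs => rw [← yP_map h1 h2 hΔ, lintegral_map mΦ (yP_meas h1 h2 hΔ)]
    rw [e1]
    simp only [stop_yP]
    have e2 : ∀ w, Φ (cmb h1 h2 hΔ w (Pth.shift (tch ℓ1 θ Δ).toNNReal w Δ)) =
        (fun p : Pth × ℝ => Φ (cmb h1 h2 hΔ p.1 p.2)) (Pth.stop H.toNNReal w, Pth.shift H.toNNReal w Δ) := by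
      intro w
      simp only
      rw [hHdef, cmb_stop]
    simp only [e2]
    rw [gauss_split hΔ.le mc]
    refine lintegral_congr fun z => ?_
    simp only [hHdef, cmb_stop, hPsi]
  -- right side
  have hright : ∫⁻ w, Φ (zP h1 h2 hΔ y w) * ENNReal.ofReal (Real.exp (-θ * L * (y / ℓ1 + w H) ^ 2 / 2)) ∂Wm =
      ∫⁻ u, Psi (L * u + m) * ENNReal.ofReal (Real.exp (-θ * L * (y / ℓ1 + u) ^ 2 / 2)) ∂(gaussianReal 0 H.toNNReal) := by
    have mG : Measurable (fun p : Pth × ℝ => Φ (cmb h1 h2 hΔ p.1 (L * p.2 + m)) *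
        ENNReal.ofReal (Real.exp (-θ * L * (y / ℓ1 + p.2) ^ 2 / 2))) := by
      refine (mc.comp (measurable_fst.prodMk ((measurable_snd.const_mul L).add_const m))).mul ?_
      fun_prop
    have mG' : Measurable (fun w : Pth => Φ (cmb h1 h2 hΔ w (L * w H + m)) *
        ENNReal.ofReal (Real.exp (-θ * L * (y / ℓ1 + w H) ^ 2 / 2))) :=
      mG.comp (measurable_id.prodMk (Pth.measurable_apply H))
    simp only [zP_eq]
    have e1 : ∫⁻ w, Φ (cmb h1 h2 hΔ w (L * w H + m)) *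
        ENNReal.ofReal (Real.exp (-θ * L * (y / ℓ1 + w H) ^ 2 / 2)) ∂Wm =
        ∫⁻ w, (fun p : Pth × ℝ => Φ (cmb h1 h2 hΔ p.1 (L * p.2 + m)) *
        ENNReal.ofReal (Real.exp (-θ * L * (y / ℓ1 + p.2) ^ 2 / 2))) (Pth.stop H.toNNReal w, Pth.shift H.toNNReal w H) ∂Wm := by
      conv_lhs => rw [← yP_map (ℓ1 := 1) (θ := 0) one_pos (by norm_num) hH, lintegral_map mG' (yP_meas _ _ _)]
      refine lintegral_congr fun w => ?_
      simp only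
      have e2 : yP (ℓ1 := 1) (θ := 0) one_pos (by norm_num) hH w H = Pth.shift H.toNNReal w H := by
        rw [yP_one hH w hH.le le_rfl, div_self hH.ne']
        ring
      rw [e2]
      have e3 : ∀ z, cmb h1 h2 hΔ (yP (ℓ1 := 1) (θ := 0) one_pos (by norm_num) hH w) z =
          cmb h1 h2 hΔ (Pth.stop H.toNNReal w) z := by
        intro z
        refine Eq.trans ?_ (cmb_stop h1 h2 hΔ w z).symm
        refine cmb_eq h1 h2 hΔ (fun r hr hr' => ?_) z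
        change _ - r / H * yP (ℓ1 := 1) (θ := 0) one_pos (by norm_num) hH w H = w r - r / H * w H
        rw [yP_one hH w hr hr', yP_one hH w hH.le le_rfl, div_self hH.ne']
        ring
      rw [e3]
    rw [e1, gauss_split hH.le mG]
    refine lintegral_congr fun z => ?_
    simp only
    rw [lintegral_mul_const]
    · simp only [hHdef, cmb_stop, hPsi]
    · exact mc.comp ((mst _).prodMk measurable_const)
  rw [hleft, hright]
  have mE : Measurable (fun z : ℝ => ENNReal.ofReal (Real.exp (-θ * (z + y) ^ 2 / (2 * L)))) := by fun_prop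
  have mPE : Measurable (fun z : ℝ => Psi z * ENNReal.ofReal (Real.exp (-θ * (z + y) ^ 2 / (2 * L)))) := mPsi.mul mE
  have e4 : ∫⁻ u, Psi (L * u + m) * ENNReal.ofReal (Real.exp (-θ * L * (y / ℓ1 + u) ^ 2 / 2)) ∂(gaussianReal 0 H.toNNReal) =
      ∫⁻ z, Psi z * ENNReal.ofReal (Real.exp (-θ * (z + y) ^ 2 / (2 * L))) ∂(gaussianReal m (L * Δ / ℓ1).toNNReal) := by
    have e5 : (gaussianReal 0 H.toNNReal).map (fun u => L * u + m) = gaussianReal m (L * Δ / ℓ1).toNNReal := by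
      have : (fun u : ℝ => L * u + m) = (fun x => x + m) ∘ (fun u => L * u) := rfl
      rw [this, ← Measure.map_map (by fun_prop) (by fun_prop), gaussianReal_map_const_mul, gaussianReal_map_add_const]
      congr 1
      · ring
      · apply NNReal.eq
        push_cast
        rw [Real.coe_toNNReal _ hH.le, Real.coe_toNNReal _ (by positivity)]
        change L ^ 2 * (Δ / (ℓ1 * L)) = _
        field_simp
    rw [← e5, lintegral_map mPE (by fun_prop)]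
    refine lintegral_congr fun u => ?_
    have e7 : -θ * L * (y / ℓ1 + u) ^ 2 / 2 = -θ * (L * u + m + y) ^ 2 / (2 * L) := by
      have hLp : L ≠ 0 := h2.ne'
      rw [hm]
      field_simp
      ring
    rw [e7]
  rw [e4]
  have v1 : Δ.toNNReal ≠ 0 := by
    rw [Ne, Real.toNNReal_eq_zero]
    linarith
  have v2 : (L * Δ / ℓ1).toNNReal ≠ 0 := by
    rw [Ne, Real.toNNReal_eq_zero]
    have : 0 < L * Δ / ℓ1 := by positivity
    linarith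
  rw [gaussianReal_of_var_ne_zero _ v1, gaussianReal_of_var_ne_zero _ v2,
    lintegral_withDensity_eq_lintegral_mul _ (measurable_gaussianPDF _ _) mPsi,
    lintegral_withDensity_eq_lintegral_mul _ (measurable_gaussianPDF _ _) mPE,
    ← lintegral_const_mul _ ((measurable_gaussianPDF _ _).mul mPE)]
  refine lintegral_congr fun z => ?_
  simp only [Pi.mul_apply, gaussianPDF]
  have e6 : gaussianPDFReal 0 Δ.toNNReal z = √(L / ℓ1) * Real.exp (θ * y ^ 2 / (2 * ℓ1)) *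
      (gaussianPDFReal m (L * Δ / ℓ1).toNNReal z * Real.exp (-θ * (z + y) ^ 2 / (2 * L))) := by
    unfold gaussianPDFReal
    rw [Real.coe_toNNReal _ hΔ.le, Real.coe_toNNReal _ (by positivity : 0 ≤ L * Δ / ℓ1)]
    have s1 : √(2 * Real.pi * (L * Δ / ℓ1)) = √(L / ℓ1) * √(2 * Real.pi * Δ) := by
      rw [← Real.sqrt_mul (by positivity)]
      congr 1
      ring
    rw [s1, mul_inv]
    have s2 : √(L / ℓ1) ≠ 0 := by positivity
    have s3 : Real.exp (-(z - 0) ^ 2 / (2 * Δ)) = Real.exp (θ * y ^ 2 / (2 * ℓ1)) *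
        (Real.exp (-(z - m) ^ 2 / (2 * (L * Δ / ℓ1))) * Real.exp (-θ * (z + y) ^ 2 / (2 * L))) := by
      rw [← Real.exp_add, ← Real.exp_add]
      congr 1
      have hLp : L ≠ 0 := h2.ne'
      have hθ : θ = (L - ℓ1) / Δ := by
        rw [hL]
        field_simp
        ring
      rw [hm, hθ]
      field_simp
      ring
    rw [s3]
    field_simp
  rw [e6, ENNReal.ofReal_mul (by positivity), ENNReal.ofReal_mul (gaussianPDFReal_nonneg _ _ _)]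
  ring

end Pool.H50.BB
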