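import Pool.Agent.H50.BB.Bsc

/-!
# Row Bsc2: comparison of Feynman-Kac functionals in a linearly growing scale   (about 130 lines)

Time interval `[r, r+Δ]`, `ℓ σ = ℓ1 + θ σ` (`σ = s - r`), `ℓ2 = ℓ1 + θΔ`, `h = Δ/(ℓ1ℓ2)`.  Apply `scale_path` to
`Φ z = exp (-∫_0^Δ c (r+σ) (y + z σ) dσ) * F (y + z Δ)`: for `z = zP w`: `y + z σ = ℓ(σ) (y/ℓ1 + w (τ σ))`, `y + z Δ = ℓ2 (y/ℓ1 + w h)`.
Substitution `τ = τ(σ) = σ/(ℓ1 ℓ σ)`: `dτ/dσ = 1/ℓ(σ)²` (derivative of `σ/(ℓ1(ℓ1+θσ))` is `ℓ1/(ℓ1 ℓ(σ)²)`), so if `V v ≤ ℓ(σ)² c (r+σ) (ℓ(σ) v)` for all `σ ∈ [0,Δ]`, `v`: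
`∫_0^Δ c(r+σ)(ℓ(σ)(u+w(τ σ))) dσ ≥ ∫_0^Δ V(u + w(τ σ)) ℓ(σ)^{-2} dσ = ∫_0^h V(u + w τ) dτ` (`intervalIntegral.integral_comp_mul_deriv`); reversed for `≥`.
`Gm c r (r+Δ) F y` has the integral over `[r,r+Δ]`, substitution `s = r + σ`.
-/

open MeasureTheory ProbabilityTheory Set Filter Topology
open scoped NNReal ENNReal

namespace Pool.H50.BB

open Pool.Agent.H4.BM

/-- time-homogeneous Feynman-Kac functional -/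
noncomputable def Th (V : ℝ → ℝ) (h : ℝ) (f : ℝ → ℝ≥0∞) (u : ℝ) : ℝ≥0∞ :=
  ∫⁻ w, ENNReal.ofReal (Real.exp (-∫ s in (0 : ℝ)..h, V (u + w s))) * f (u + w h) ∂Wm

theorem Bsc2_pos {ℓ1 θ Δ σ : ℝ} (h1 : 0 < ℓ1) (h2 : 0 < ℓ1 + θ * Δ) (hΔ : 0 < Δ) (hσ : 0 ≤ σ)
    (hσ' : σ ≤ Δ) : 0 < ℓ1 + θ * σ := by
  have e : Δ * (ℓ1 + θ * σ) = (Δ - σ) * ℓ1 + σ * (ℓ1 + θ * Δ) := by ring
  have h3 : 0 < (Δ - σ) * ℓ1 + σ * (ℓ1 + θ * Δ) := by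
    rcases hσ.eq_or_lt with h | h
    · rw [← h]
      simp only [sub_zero, zero_mul, add_zero]
      positivity
    · have a1 : 0 ≤ (Δ - σ) * ℓ1 := mul_nonneg (by linarith) h1.le
      have a2 : 0 < σ * (ℓ1 + θ * Δ) := mul_pos h h2
      linarith
  rw [← e] at h3
  exact (mul_pos_iff_of_pos_left hΔ).1 h3

theorem Bsc2_sub {ℓ1 θ Δ : ℝ} (h1 : 0 < ℓ1) (h2 : 0 < ℓ1 + θ * Δ) (hΔ : 0 < Δ) {V : ℝ → ℝ}
    (hV : Continuous V) (u : ℝ) (w : Pth) :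
    ∫ s in (0 : ℝ)..(Δ / (ℓ1 * (ℓ1 + θ * Δ))), V (u + w s) =
      ∫ σ in (0 : ℝ)..Δ, V (u + w (tch ℓ1 θ σ)) * ((ℓ1 + θ * σ) ^ 2)⁻¹ := by
  have hd : ∀ x ∈ uIcc 0 Δ, HasDerivAt (tch ℓ1 θ) ((ℓ1 + θ * x) ^ 2)⁻¹ x := by
    intro x hx
    rw [uIcc_of_le hΔ.le] at hx
    have hp := Bsc2_pos h1 h2 hΔ hx.1 hx.2
    have hden : HasDerivAt (fun σ : ℝ => ℓ1 * (ℓ1 + θ * σ)) (ℓ1 * θ) x := by
      have := (((hasDerivAt_id x).const_mul θ).const_add ℓ1).const_mul ℓ1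
      simpa using this
    have := (hasDerivAt_id x).div hden (by positivity)
    refine this.congr_deriv ?_
    simp only [id]
    field_simp
    ring
  have hc : ContinuousOn (fun x : ℝ => ((ℓ1 + θ * x) ^ 2)⁻¹) (uIcc 0 Δ) := by
    refine ContinuousOn.inv₀ (by fun_prop) ?_
    intro x hx
    rw [uIcc_of_le hΔ.le] at hx
    have hp := Bsc2_pos h1 h2 hΔ hx.1 hx.2
    positivity
  have hg : Continuous fun s => V (u + w s) := hV.comp (continuous_const.add w.continuous)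
  have := intervalIntegral.integral_comp_mul_deriv hd hc hg
  have e0 : tch ℓ1 θ 0 = 0 := by simp [tch]
  have e1 : tch ℓ1 θ Δ = Δ / (ℓ1 * (ℓ1 + θ * Δ)) := rfl
  rw [e0, e1] at this
  rw [← this]
  rfl

/-- the functional -/
noncomputable def Bsc2_Phi (c : ℝ → ℝ → ℝ) (r Δ y : ℝ) (F : ℝ → ℝ≥0∞) (z : Pth) : ℝ≥0∞ :=
  ENNReal.ofReal (Real.exp (-∫ σ in (0 : ℝ)..Δ, c (r + σ) (y + z σ))) * F (y + z Δ)

theorem Bsc2_meas {c : ℝ → ℝ → ℝ} (hc : Continuous (Function.uncurry c)) {r Δ : ℝ} (hΔ : 0 < Δ)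
    (y : ℝ) {F : ℝ → ℝ≥0∞} (hF : Measurable F) : Measurable (Bsc2_Phi c r Δ y F) := by
  have h1 : Measurable fun p : Pth × ℝ => c (r + p.2) (y + p.1 p.2) := by
    have a : Measurable fun p : Pth × ℝ => p.1 p.2 :=
      Pth.measurable_eval2.comp (measurable_snd.prodMk measurable_fst)
    have b : Measurable fun p : Pth × ℝ => (r + p.2, y + p.1 p.2) :=
      (measurable_const.add measurable_snd).prodMk (measurable_const.add a)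
    exact hc.measurable.comp b
  have h2 : Measurable fun z : Pth => ∫ σ in (0 : ℝ)..Δ, c (r + σ) (y + z σ) := by
    have := (h1.stronglyMeasurable.integral_prod_right' (ν := volume.restrict (Ioc 0 Δ))).measurable
    have e : (fun z : Pth => ∫ σ in (0 : ℝ)..Δ, c (r + σ) (y + z σ)) =
        fun z : Pth => ∫ σ, c (r + σ) (y + z σ) ∂(volume.restrict (Ioc 0 Δ)) := by
      funext z
      rw [intervalIntegral.integral_of_le hΔ.le]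
    rw [e]
    exact this
  unfold Bsc2_Phi
  exact (Real.measurable_exp.comp h2.neg).ennreal_ofReal.mul
    (hF.comp (measurable_const.add (Pth.measurable_apply Δ)))

theorem Bsc2_Gm {c : ℝ → ℝ → ℝ} {r Δ : ℝ} (hΔ : 0 < Δ) (y : ℝ) (F : ℝ → ℝ≥0∞) :
    Gm c r (r + Δ) F y = ∫⁻ w, Bsc2_Phi c r Δ y F (Pth.stop Δ.toNNReal w) ∂Wm := by
  unfold Gm
  refine lintegral_congr fun w => ?_
  unfold Bsc2_Phi
  have e1 : ∫ s in r..(r + Δ), c s (y + w (s - r)) = ∫ σ in (0 : ℝ)..Δ, c (r + σ) (y + w σ) := by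
    have := intervalIntegral.integral_comp_add_left (a := 0) (b := Δ)
      (fun s => c s (y + w (s - r))) r
    rw [add_zero] at this
    rw [← this]
    refine intervalIntegral.integral_congr fun σ _ => ?_
    simp only [add_sub_cancel_left]
  have e2 : ∫ σ in (0 : ℝ)..Δ, c (r + σ) (y + Pth.stop Δ.toNNReal w σ) =
      ∫ σ in (0 : ℝ)..Δ, c (r + σ) (y + w σ) := by
    refine intervalIntegral.integral_congr fun σ hσ => ?_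
    rw [uIcc_of_le hΔ.le] at hσ
    simp only [Pth.stop_apply, Real.coe_toNNReal _ hΔ.le, min_eq_left hσ.2]
  rw [e1, e2, Pth.stop_apply, Real.coe_toNNReal _ hΔ.le, min_self, add_sub_cancel_left]

theorem Bsc2_zP {ℓ1 θ Δ : ℝ} (h1 : 0 < ℓ1) (h2 : 0 < ℓ1 + θ * Δ) (hΔ : 0 < Δ) (y : ℝ) (w : Pth)
    {σ : ℝ} (hσ : 0 ≤ σ) (hσ' : σ ≤ Δ) :
    y + zP h1 h2 hΔ y w σ = (ℓ1 + θ * σ) * (y / ℓ1 + w (tch ℓ1 θ σ)) := by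
  have e : zP h1 h2 hΔ y w σ = zfun ℓ1 θ Δ y w σ := rfl
  rw [e]
  unfold zfun
  rw [min_eq_left hσ', max_eq_right hσ]
  ring

theorem Bsc2_Phi_zP {ℓ1 θ r Δ : ℝ} (h1 : 0 < ℓ1) (h2 : 0 < ℓ1 + θ * Δ) (hΔ : 0 < Δ)
    {c : ℝ → ℝ → ℝ} (y : ℝ) (F : ℝ → ℝ≥0∞) (w : Pth) :
    Bsc2_Phi c r Δ y F (zP h1 h2 hΔ y w) =
      ENNReal.ofReal (Real.exp (-∫ σ in (0 : ℝ)..Δ,
        c (r + σ) ((ℓ1 + θ * σ) * (y / ℓ1 + w (tch ℓ1 θ σ))))) *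
        F ((ℓ1 + θ * Δ) * (y / ℓ1 + w (Δ / (ℓ1 * (ℓ1 + θ * Δ))))) := by
  unfold Bsc2_Phi
  rw [Bsc2_zP h1 h2 hΔ y w hΔ.le le_rfl]
  have e1 : tch ℓ1 θ Δ = Δ / (ℓ1 * (ℓ1 + θ * Δ)) := rfl
  rw [e1]
  congr 4
  refine intervalIntegral.integral_congr fun σ hσ => ?_
  rw [uIcc_of_le hΔ.le] at hσ
  simp only [Bsc2_zP h1 h2 hΔ y w hσ.1 hσ.2]

theorem Bsc2_cont {ℓ1 θ Δ : ℝ} (h1 : 0 < ℓ1) (h2 : 0 < ℓ1 + θ * Δ) (hΔ : 0 < Δ) (w : Pth) (u : ℝ) :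
    ContinuousOn (fun σ => u + w (tch ℓ1 θ σ)) (uIcc 0 Δ) := by
  refine continuousOn_const.add (w.continuous.comp_continuousOn ?_)
  unfold tch
  refine continuousOn_id.div (by fun_prop) ?_
  intro x hx
  rw [uIcc_of_le hΔ.le] at hx
  have hp := Bsc2_pos h1 h2 hΔ hx.1 hx.2
  positivity

theorem Bsc2_i1 {ℓ1 θ r Δ : ℝ} (h1 : 0 < ℓ1) (h2 : 0 < ℓ1 + θ * Δ) (hΔ : 0 < Δ)
    {c : ℝ → ℝ → ℝ} (hc : Continuous (Function.uncurry c)) (u : ℝ) (w : Pth) :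
    IntervalIntegrable (fun σ => c (r + σ) ((ℓ1 + θ * σ) * (u + w (tch ℓ1 θ σ)))) volume 0 Δ := by
  refine ContinuousOn.intervalIntegrable ?_
  have h3 : ContinuousOn (fun σ : ℝ => (r + σ, (ℓ1 + θ * σ) * (u + w (tch ℓ1 θ σ)))) (uIcc 0 Δ) := by
    refine ContinuousOn.prodMk (by fun_prop) ?_
    exact ContinuousOn.mul (by fun_prop) (Bsc2_cont h1 h2 hΔ w u)
  exact hc.comp_continuousOn h3

theorem Bsc2_i2 {ℓ1 θ Δ : ℝ} (h1 : 0 < ℓ1) (h2 : 0 < ℓ1 + θ * Δ) (hΔ : 0 < Δ)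
    {V : ℝ → ℝ} (hV : Continuous V) (u : ℝ) (w : Pth) :
    IntervalIntegrable (fun σ => V (u + w (tch ℓ1 θ σ)) * ((ℓ1 + θ * σ) ^ 2)⁻¹) volume 0 Δ := by
  refine ContinuousOn.intervalIntegrable ?_
  refine (hV.comp_continuousOn (Bsc2_cont h1 h2 hΔ w u)).mul ?_
  refine ContinuousOn.inv₀ (by fun_prop) ?_
  intro x hx
  rw [uIcc_of_le hΔ.le] at hx
  have hp := Bsc2_pos h1 h2 hΔ hx.1 hx.2
  positivity

theorem scale_le {ℓ1 θ r Δ : ℝ} (h1 : 0 < ℓ1) (h2 : 0 < ℓ1 + θ * Δ) (hΔ : 0 < Δ) {c : ℝ → ℝ → ℝ} {V : ℝ → ℝ}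
    (hc : Continuous (Function.uncurry c)) (hV : Continuous V)
    (hle : ∀ σ, 0 ≤ σ → σ ≤ Δ → ∀ v, V v ≤ (ℓ1 + θ * σ) ^ 2 * c (r + σ) ((ℓ1 + θ * σ) * v))
    {F : ℝ → ℝ≥0∞} (hF : Measurable F) (y : ℝ) :
    Gm c r (r + Δ) F y ≤ ENNReal.ofReal (√((ℓ1 + θ * Δ) / ℓ1) * Real.exp (θ * y ^ 2 / (2 * ℓ1))) *
      Th V (Δ / (ℓ1 * (ℓ1 + θ * Δ))) (fun v => F ((ℓ1 + θ * Δ) * v) *
        ENNReal.ofReal (Real.exp (-θ * (ℓ1 + θ * Δ) * v ^ 2 / 2))) (y / ℓ1) := by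
  rw [Bsc2_Gm hΔ, scale_path h1 h2 hΔ y (Bsc2_meas hc hΔ y hF)]
  refine mul_le_mul_right (lintegral_mono fun w => ?_) _
  rw [Bsc2_Phi_zP h1 h2 hΔ, mul_assoc]
  refine mul_le_mul_left (ENNReal.ofReal_le_ofReal (Real.exp_le_exp.2 (neg_le_neg ?_))) _
  rw [Bsc2_sub h1 h2 hΔ hV]
  refine intervalIntegral.integral_mono_on hΔ.le (Bsc2_i2 h1 h2 hΔ hV _ w)
    (Bsc2_i1 h1 h2 hΔ hc _ w) fun σ hσ => ?_
  have hp := Bsc2_pos h1 h2 hΔ hσ.1 hσ.2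
  have h3 := hle σ hσ.1 hσ.2 (y / ℓ1 + w (tch ℓ1 θ σ))
  rw [← div_eq_mul_inv, div_le_iff₀ (by positivity), mul_comm]
  exact h3

theorem scale_ge {ℓ1 θ r Δ : ℝ} (h1 : 0 < ℓ1) (h2 : 0 < ℓ1 + θ * Δ) (hΔ : 0 < Δ) {c : ℝ → ℝ → ℝ} {V : ℝ → ℝ}
    (hc : Continuous (Function.uncurry c)) (hV : Continuous V)
    (hge : ∀ σ, 0 ≤ σ → σ ≤ Δ → ∀ v, (ℓ1 + θ * σ) ^ 2 * c (r + σ) ((ℓ1 + θ * σ) * v) ≤ V v)
    {F : ℝ → ℝ≥0∞} (hF : Measurable F) (y : ℝ) :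
    ENNReal.ofReal (√((ℓ1 + θ * Δ) / ℓ1) * Real.exp (θ * y ^ 2 / (2 * ℓ1))) *
      Th V (Δ / (ℓ1 * (ℓ1 + θ * Δ))) (fun v => F ((ℓ1 + θ * Δ) * v) *
        ENNReal.ofReal (Real.exp (-θ * (ℓ1 + θ * Δ) * v ^ 2 / 2))) (y / ℓ1) ≤ Gm c r (r + Δ) F y := by
  rw [Bsc2_Gm hΔ, scale_path h1 h2 hΔ y (Bsc2_meas hc hΔ y hF)]
  refine mul_le_mul_right (lintegral_mono fun w => ?_) _
  rw [Bsc2_Phi_zP h1 h2 hΔ, mul_assoc]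
  refine mul_le_mul_left (ENNReal.ofReal_le_ofReal (Real.exp_le_exp.2 (neg_le_neg ?_))) _
  rw [Bsc2_sub h1 h2 hΔ hV]
  refine intervalIntegral.integral_mono_on hΔ.le (Bsc2_i1 h1 h2 hΔ hc _ w)
    (Bsc2_i2 h1 h2 hΔ hV _ w) fun σ hσ => ?_
  have hp := Bsc2_pos h1 h2 hΔ hσ.1 hσ.2
  have h3 := hge σ hσ.1 hσ.2 (y / ℓ1 + w (tch ℓ1 θ σ))
  rw [← div_eq_mul_inv, le_div_iff₀ (by positivity), mul_comm]
  exact h3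

end Pool.H50.BB
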