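import Pool.Agent.H50.BB.Defs3

/-!
# Row Ca1: pointwise estimates on the line   (about 180 lines, calculus)

`j = t - s ≥ 1`, `j' = j - σ`, `N = Nn κ γ s t`, `N' = Nn κ γ (s+σ) t`, `δ = (N+1)/j`; `mu = √2 - δ` (`MM = √2 j - N`).
`nn_nonneg`: `N ≥ (3/(2√2)) log (j+1) ≥ 0` (`log_le`).  `nn_sq`: `N ≤ Λ √j + (3/(2√2)) log (j+1)`, so `(N+1)² ≤ K j` for `j ≥ 1`.
`ca_fpd`: `σ - (D+mu σ)²/(2σ) = -√2 D + √2 δ σ - (D - δσ)²/(2σ)` and `(D-δσ)² ≥ D²/2 - δ²σ²`, `δ²σ/2 ≤ (N+1)²/(2j) ≤ K/2`; `(2π σ³)^{-1/2} ≤ σ^{-3/2}`.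
`ca_cancel`: the exponent of `exp(√2 δσ) Gf s (s+σ) exp (-√2 Xs)`: `√2 (N+1) σ/j - √2 N' + √2 (N+1) j'/j = √2(N+1) - √2 N'`, `√2 (N-N') = √2(κ(s+σ) - κ s) + (3/2) log((j+1)/(j'+1)) - (γ/2) log((s+σ)/s)`;
`Gf` cancels the first and the third term.
`ca_X`: `Xs = [κ t - κ s' - (j'/j)(κ t - κ s)] + (3/(2√2)) [log(j'+1) - (j'/j) log(j+1)] - (γ/(2√2)) [log(t/s') - (j'/j) log (t/s)] - j'/j`, `s' = s + σ`.  First bracket `≤ 0` (`conc`); second `≤ log(j'+1)`;
third: `-[..] ≤ (j'/j) log(t/s) ≤ (j'/j) log(1+j) ≤ log(1+j')` (`t/s ≤ 1 + j` as `s ≥ 1`; `log(1+j)/j` is decreasing).  `(3+γ)/(2√2) ≤ 2`.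
`ca_early` (`σ ≤ j/log(j+2)`): `√2 (N+1) σ/j ≤ √2 (σ/j)(κ t - κ s) + (3/2)(σ/j) log(j+1) + √2 σ/j ≤ √2 (κ s' - κ s) + 3/2 + √2` (`conc`, drop the negative term); so the product with `Gf` is
`≤ e^3 (s'/s)^{γ/2} ≤ e^3 (1+σ)^{γ/2}`.
-/

open MeasureTheory Set Filter Topology

namespace Pool.H50.BB

variable {κ : ℝ → ℝ} {γ Λ s0 : ℝ}

lemma ca1_sq : √(2 : ℝ) * √2 = 2 := Real.mul_self_sqrt (by norm_num)

lemma ca1_pos : (0 : ℝ) < √2 := Real.sqrt_pos.2 (by norm_num)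

lemma ca1_c (c : ℝ) : √2 * (c / (2 * √2)) = c / 2 := by
  have := ca1_pos
  field_simp

lemma ca1_lt : √(2 : ℝ) ≤ 3 / 2 := by
  rw [Real.sqrt_le_left (by norm_num)]
  norm_num

lemma ca1_gt : (1.4 : ℝ) ≤ √2 := by
  apply Real.le_sqrt_of_sq_le
  norm_num

theorem mu_eq {s t : ℝ} (hst : s < t) : mu κ γ s t = √2 - (Nn κ γ s t + 1) / (t - s) := by
  have h : t - s ≠ 0 := by
    have : 0 < t - s := by linarith
    exact this.ne'
  unfold mu MM Nn
  field_simp
  ring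

theorem nn_nonneg (K : Kap κ γ Λ s0) {s t : ℝ} (hs : s0 ≤ s) (hst : s ≤ t) : 0 ≤ Nn κ γ s t := by
  have h1 := K.log_le s t hs hst
  have h2 : 0 ≤ Real.log (t - s + 1) := Real.log_nonneg (by linarith)
  have h3 : (0 : ℝ) ≤ 3 / (2 * √2) := by positivity
  have h4 := mul_nonneg h3 h2
  unfold Nn
  linarith

lemma ca1_logts (K : Kap κ γ Λ s0) {s t : ℝ} (hs : s0 ≤ s) (hst : s ≤ t) : 0 ≤ Real.log (t / s) := by
  have h1 := K.s1
  apply Real.log_nonneg
  rw [le_div_iff₀ (by linarith)]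
  linarith

lemma ca1_ts (K : Kap κ γ Λ s0) {s t : ℝ} (hs : s0 ≤ s) (hst : s ≤ t) : t / s ≤ 1 + (t - s) := by
  have h1 := K.s1
  rw [div_le_iff₀ (by linarith)]
  nlinarith

theorem nn_sq (Λ : ℝ) : ∃ K1 ≥ (1 : ℝ), ∀ (κ : ℝ → ℝ) (γ s0 : ℝ), Kap κ γ Λ s0 → ∀ s t, s0 ≤ s → s + 1 ≤ t →
    (Nn κ γ s t + 1) ^ 2 ≤ K1 * (t - s) := by
  refine ⟨(|Λ| + 4) ^ 2, by nlinarith [abs_nonneg Λ], fun κ γ s0 K s t hs hst => ?_⟩
  have hst' : s ≤ t := by linarith
  have hj : 1 ≤ t - s := by linarith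
  have hq : 1 ≤ √(t - s) := Real.one_le_sqrt.2 hj
  have hq2 : √(t - s) * √(t - s) = t - s := Real.mul_self_sqrt (by linarith)
  have h1 := K.grow s t hs hst'
  have h2 := ca1_logts K hs hst'
  have h3 : Real.log (t - s + 1) ≤ 2 * √(t - s) := by
    have h4 : t - s + 1 ≤ (√(t - s) + 1) ^ 2 := by nlinarith
    have h5 : Real.log (t - s + 1) ≤ Real.log ((√(t - s) + 1) ^ 2) := Real.log_le_log (by linarith) h4
    rw [Real.log_pow] at h5
    have h6 := Real.log_le_sub_one_of_pos (show 0 < √(t - s) + 1 by linarith)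
    push_cast at h5
    linarith
  have h4 : (3 : ℝ) / (2 * √2) ≤ 3 / 2 := by
    have := ca1_gt
    apply div_le_div_of_nonneg_left (by norm_num) (by norm_num)
    linarith
  have h4' : (0 : ℝ) ≤ 3 / (2 * √2) := by positivity
  have h5 : 3 / (2 * √2) * Real.log (t - s + 1) ≤ 3 * √(t - s) := by
    have hl : 0 ≤ Real.log (t - s + 1) := Real.log_nonneg (by linarith)
    calc 3 / (2 * √2) * Real.log (t - s + 1) ≤ 3 / 2 * (2 * √(t - s)) := by gcongr
      _ = 3 * √(t - s) := by ring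
  have h6 : 0 ≤ γ / (2 * √2) * Real.log (t / s) := by
    have := K.γ0
    positivity
  have h7 : Λ * √(t - s) ≤ |Λ| * √(t - s) := by
    gcongr
    exact le_abs_self _
  have h8 : Nn κ γ s t + 1 ≤ (|Λ| + 4) * √(t - s) := by
    unfold Nn
    linarith
  have h9 := nn_nonneg K hs hst'
  calc (Nn κ γ s t + 1) ^ 2 ≤ ((|Λ| + 4) * √(t - s)) ^ 2 := by
        apply pow_le_pow_left₀ (by linarith) h8
    _ = (|Λ| + 4) ^ 2 * (√(t - s) * √(t - s)) := by ring
    _ = (|Λ| + 4) ^ 2 * (t - s) := by rw [hq2]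

theorem ca_fpd (Λ : ℝ) : ∃ K2 ≥ (1 : ℝ), ∀ (κ : ℝ → ℝ) (γ s0 : ℝ), Kap κ γ Λ s0 → ∀ s t, s0 ≤ s → s + 1 ≤ t →
    ∀ σ D, 0 < σ → σ ≤ t - s → 0 ≤ D →
      fpd (mu κ γ s t) D σ * Real.exp σ ≤ K2 * Real.exp (-√2 * D) * (D * σ ^ (-(3 / 2 : ℝ)) * Real.exp (-D ^ 2 / (4 * σ))) *
        Real.exp (√2 * (Nn κ γ s t + 1) * σ / (t - s)) := by
  obtain ⟨K1, hK1, hN⟩ := nn_sq Λ
  refine ⟨Real.exp (K1 / 2), Real.one_le_exp (by linarith), fun κ γ s0 K s t hs hst σ D hσ hσt hD => ?_⟩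
  have hj : 1 ≤ t - s := by linarith
  have hj0 : 0 < t - s := by linarith
  set N1 := Nn κ γ s t + 1 with hN1
  have h1 := hN κ γ s0 K s t hs hst
  rw [← hN1] at h1
  have hr := ca1_sq
  have hmu : mu κ γ s t = √2 - N1 / (t - s) := mu_eq (by linarith)
  set δ := N1 / (t - s) with hδ
  have hδ2 : δ ^ 2 * σ ≤ K1 := by
    rw [hδ, div_pow, div_mul_eq_mul_div, div_le_iff₀ (by positivity)]
    calc N1 ^ 2 * σ ≤ (K1 * (t - s)) * (t - s) := by gcongr
      _ = K1 * (t - s) ^ 2 := by ring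
  have hexp : σ + -(D + mu κ γ s t * σ) ^ 2 / (2 * σ) ≤
      K1 / 2 + -√2 * D + -D ^ 2 / (4 * σ) + √2 * N1 * σ / (t - s) := by
    have e1 : σ + -(D + mu κ γ s t * σ) ^ 2 / (2 * σ) = -√2 * D + √2 * δ * σ - (D - δ * σ) ^ 2 / (2 * σ) := by
      rw [hmu]
      have hσ' := hσ.ne'
      field_simp
      linear_combination (-σ ^ 2) * hr
    have e2 : √2 * N1 * σ / (t - s) = √2 * δ * σ := by
      rw [hδ]
      ring
    have e3 : -(D - δ * σ) ^ 2 / (2 * σ) ≤ -D ^ 2 / (4 * σ) + δ ^ 2 * σ / 2 := by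
      have : -D ^ 2 / (4 * σ) + δ ^ 2 * σ / 2 - -(D - δ * σ) ^ 2 / (2 * σ) = (D - 2 * (δ * σ)) ^ 2 / (4 * σ) := by
        have hσ' := hσ.ne'
        field_simp
        ring
      have h2 : 0 ≤ (D - 2 * (δ * σ)) ^ 2 / (4 * σ) := by positivity
      linarith
    have e4 : (D - δ * σ) ^ 2 / (2 * σ) = -(-(D - δ * σ) ^ 2 / (2 * σ)) := by ring
    rw [e1, e2, e4]
    linarith
  have hs32 : (√(2 * Real.pi * σ ^ 3))⁻¹ ≤ σ ^ (-(3 / 2 : ℝ)) := by
    rw [Real.rpow_neg hσ.le]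
    apply inv_anti₀ (by positivity)
    have e5 : σ ^ (3 / 2 : ℝ) = √(σ ^ 3) := by
      rw [Real.sqrt_eq_rpow, ← Real.rpow_natCast σ 3, ← Real.rpow_mul hσ.le]
      norm_num
    rw [e5]
    apply Real.sqrt_le_sqrt
    have h3 := Real.pi_gt_three
    have h4 : 0 < σ ^ 3 := by positivity
    nlinarith
  calc fpd (mu κ γ s t) D σ * Real.exp σ
      = D * (√(2 * Real.pi * σ ^ 3))⁻¹ * Real.exp (σ + -(D + mu κ γ s t * σ) ^ 2 / (2 * σ)) := by
        unfold fpd
        rw [Real.exp_add]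
        ring
    _ ≤ D * σ ^ (-(3 / 2 : ℝ)) * Real.exp (K1 / 2 + -√2 * D + -D ^ 2 / (4 * σ) + √2 * N1 * σ / (t - s)) := by
        gcongr
    _ = _ := by
        rw [Real.exp_add, Real.exp_add, Real.exp_add]
        ring

theorem ca_cancel (K : Kap κ γ Λ s0) {s t σ : ℝ} (hs : s0 ≤ s) (hst : s < t) (hσ : 0 ≤ σ) (hσt : σ ≤ t - s) :
    Real.exp (√2 * (Nn κ γ s t + 1) * σ / (t - s)) * Gf κ γ s (s + σ) =
      Real.exp √2 * ((t - s + 1) / (t - s - σ + 1)) ^ (3 / 2 : ℝ) * Real.exp (√2 * Xs κ γ s t σ) := by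
  have hs1 := K.s1
  have hs0 : 0 < s := by linarith
  have hs' : 0 < s + σ := by linarith
  have ht0 : 0 < t := by linarith
  have hj0 : t - s ≠ 0 := by
    have : 0 < t - s := by linarith
    exact this.ne'
  have h1 : 0 < (s + σ) / s := by positivity
  have h2 : 0 < t - s + 1 := by linarith
  have h3 : 0 < t - s - σ + 1 := by linarith
  have h4 : 0 < (t - s + 1) / (t - s - σ + 1) := by positivity
  unfold Gf
  rw [Real.rpow_def_of_pos h1, Real.rpow_def_of_pos h4, Real.log_div hs'.ne' hs0.ne',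
    Real.log_div h2.ne' h3.ne', ← Real.exp_add, ← Real.exp_add, ← Real.exp_add, ← Real.exp_add]
  congr 1
  have c3 := ca1_c 3
  have cγ := ca1_c γ
  have e1 : √2 * (Nn κ γ s t) = √2 * (κ t - κ s) + 3 / 2 * Real.log (t - s + 1)
      - γ / 2 * (Real.log t - Real.log s) := by
    unfold Nn
    rw [Real.log_div ht0.ne' hs0.ne']
    linear_combination Real.log (t - s + 1) * c3 - (Real.log t - Real.log s) * cγ
  have e2 : √2 * (Nn κ γ (s + σ) t) = √2 * (κ t - κ (s + σ)) + 3 / 2 * Real.log (t - s - σ + 1)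
      - γ / 2 * (Real.log t - Real.log (s + σ)) := by
    unfold Nn
    rw [Real.log_div ht0.ne' hs'.ne', show t - (s + σ) + 1 = t - s - σ + 1 by ring]
    linear_combination Real.log (t - s - σ + 1) * c3 - (Real.log t - Real.log (s + σ)) * cγ
  have e3 : √2 * Xs κ γ s t σ = √2 * (Nn κ γ (s + σ) t) - √2 * (Nn κ γ s t + 1)
      + √2 * (Nn κ γ s t + 1) * σ / (t - s) := by
    unfold Xs
    field_simp
    ring
  rw [e3, e2]
  have e4 : √2 * (Nn κ γ s t + 1) = √2 * (Nn κ γ s t) + √2 := by ring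
  rw [e4, e1]
  ring

theorem ca_X (K : Kap κ γ Λ s0) {s t σ : ℝ} (hs : s0 ≤ s) (hst : s < t) (hσ : 0 ≤ σ) (hσt : σ ≤ t - s) :
    Xs κ γ s t σ ≤ 2 * Real.log (t - s - σ + 1) := by
  have hs1 := K.s1
  have hγ0 := K.γ0
  have hγ1 := K.γ1
  have hs0 : 0 < s := by linarith
  have hj0 : 0 < t - s := by linarith
  set j := t - s with hj
  have hj' : 0 ≤ j - σ := by linarith
  set q := (j - σ) / j with hq
  have hq0 : 0 ≤ q := by positivity
  have hq1 : q ≤ 1 := by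
    rw [hq, div_le_one hj0]
    linarith
  have hqj : q * j = j - σ := by
    rw [hq]
    field_simp
  -- first bracket
  have h1 : κ t - κ (s + σ) ≤ q * (κ t - κ s) := by
    have h2 := K.conc s (s + σ) t hs (by linarith) (by linarith)
    rw [← hj] at h2
    have h3 : j * (κ t - κ (s + σ)) ≤ j * (q * (κ t - κ s)) := by
      have e : j * (q * (κ t - κ s)) = (j - σ) * (κ t - κ s) := by
        rw [← hqj]
        ring
      rw [e]
      linarith
    exact le_of_mul_le_mul_left h3 hj0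
  have hL : 0 ≤ Real.log (j + 1) := Real.log_nonneg (by linarith)
  have hL' : 0 ≤ Real.log (j - σ + 1) := Real.log_nonneg (by linarith)
  have hT := ca1_logts K hs hst.le
  have hT' := ca1_logts K (s := s + σ) (t := t) (by linarith) (by linarith)
  have hTj : Real.log (t / s) ≤ Real.log (1 + j) := by
    have h2 := ca1_ts K hs hst.le
    apply Real.log_le_log _ h2
    have : 0 < t := by linarith
    positivity
  have hB : q * Real.log (1 + j) ≤ Real.log (j - σ + 1) := by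
    have h2 := rpow_one_add_le_one_add_mul_self (s := j) (p := q) (by linarith) hq0 hq1
    have h3 := Real.log_le_log (by positivity) h2
    rw [Real.log_rpow (by linarith), hqj] at h3
    rw [show j - σ + 1 = 1 + (j - σ) by ring]
    exact h3
  have hc : (0 : ℝ) ≤ 1 / (2 * √2) := by positivity
  have hXs : Xs κ γ s t σ = (κ t - κ (s + σ) - q * (κ t - κ s))
      + 3 / (2 * √2) * (Real.log (j - σ + 1) - q * Real.log (j + 1))
      - γ / (2 * √2) * (Real.log (t / (s + σ)) - q * Real.log (t / s)) - q := by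
    unfold Xs Nn
    rw [show t - (s + σ) + 1 = j - σ + 1 by rw [hj]; ring, ← hj]
    have e : ((κ t - κ s) + 3 / (2 * √2) * Real.log (j + 1) - γ / (2 * √2) * Real.log (t / s) + 1) * (j - σ) / j
        = ((κ t - κ s) + 3 / (2 * √2) * Real.log (j + 1) - γ / (2 * √2) * Real.log (t / s) + 1) * q := by
      rw [hq, mul_div_assoc]
    rw [e]
    ring
  have hA : 3 / (2 * √2) * (Real.log (j - σ + 1) - q * Real.log (j + 1)) ≤
      3 / (2 * √2) * Real.log (j - σ + 1) := by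
    apply mul_le_mul_of_nonneg_left _ (by positivity)
    have := mul_nonneg hq0 hL
    linarith
  have hC : - (γ / (2 * √2) * (Real.log (t / (s + σ)) - q * Real.log (t / s))) ≤
      1 / (2 * √2) * Real.log (j - σ + 1) := by
    have h2 : q * Real.log (t / s) ≤ Real.log (j - σ + 1) :=
      (mul_le_mul_of_nonneg_left hTj hq0).trans hB
    have h3 : -(Real.log (t / (s + σ)) - q * Real.log (t / s)) ≤ Real.log (j - σ + 1) := by linarith
    have h4 : γ / (2 * √2) ≤ 1 / (2 * √2) := by gcongr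
    have h5 : 0 ≤ γ / (2 * √2) := by positivity
    calc - (γ / (2 * √2) * (Real.log (t / (s + σ)) - q * Real.log (t / s)))
        = γ / (2 * √2) * (-(Real.log (t / (s + σ)) - q * Real.log (t / s))) := by ring
      _ ≤ γ / (2 * √2) * Real.log (j - σ + 1) := mul_le_mul_of_nonneg_left h3 h5
      _ ≤ 1 / (2 * √2) * Real.log (j - σ + 1) := mul_le_mul_of_nonneg_right h4 hL'
  have hD : 3 / (2 * √2) + 1 / (2 * √2) ≤ 2 := by
    have := ca1_gt
    rw [← add_div, div_le_iff₀ (by positivity)]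
    linarith
  have hE := mul_le_mul_of_nonneg_right hD hL'
  rw [hXs]
  linarith

theorem ca_early (K : Kap κ γ Λ s0) {s t σ : ℝ} (hs : s0 ≤ s) (hst : s < t) (hσ : 0 ≤ σ)
    (hσt : σ ≤ (t - s) / Real.log (t - s + 2)) (hσj : σ ≤ t - s) :
    Real.exp (√2 * (Nn κ γ s t + 1) * σ / (t - s)) * Gf κ γ s (s + σ) ≤ Real.exp 3 * (1 + σ) ^ (γ / 2) := by
  have hs1 := K.s1
  have hγ0 := K.γ0
  have hs0 : 0 < s := by linarith
  have hj0 : 0 < t - s := by linarith
  set j := t - s with hj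
  have hL2 : 0 < Real.log (j + 2) := Real.log_pos (by linarith)
  have hσL : σ / j * Real.log (j + 1) ≤ 1 := by
    have h1 : Real.log (j + 1) ≤ Real.log (j + 2) := Real.log_le_log (by linarith) (by linarith)
    have h2 : σ * Real.log (j + 2) ≤ j := (le_div_iff₀ hL2).1 hσt
    have h3 : 0 ≤ σ / j := by positivity
    calc σ / j * Real.log (j + 1) ≤ σ / j * Real.log (j + 2) := by gcongr
      _ = σ * Real.log (j + 2) / j := by ring
      _ ≤ 1 := by
          rw [div_le_one hj0]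
          exact h2
  have hq1 : σ / j ≤ 1 := by
    rw [div_le_one hj0]
    exact hσj
  have hq0 : 0 ≤ σ / j := by positivity
  have hT := ca1_logts K hs hst.le
  have hcon : σ / j * (κ t - κ s) ≤ κ (s + σ) - κ s := by
    have h2 := K.conc s (s + σ) t hs (by linarith) (by linarith)
    rw [← hj] at h2
    have h3 : j * (σ / j * (κ t - κ s)) ≤ j * (κ (s + σ) - κ s) := by
      have e : j * (σ / j * (κ t - κ s)) = (s + σ - s) * (κ t - κ s) := by
        field_simp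
        ring
      rw [e]
      exact h2
    exact le_of_mul_le_mul_left h3 hj0
  have hr := ca1_pos
  have c3 := ca1_c 3
  have cγ := ca1_c γ
  have hexp : √2 * (Nn κ γ s t + 1) * σ / j ≤ √2 * (κ (s + σ) - κ s) + 3 := by
    have e1 : √2 * (Nn κ γ s t + 1) * σ / j = √2 * (σ / j * (κ t - κ s)) + 3 / 2 * (σ / j * Real.log (j + 1))
        - γ / 2 * (σ / j * Real.log (t / s)) + √2 * (σ / j) := by
      unfold Nn
      rw [← hj]
      linear_combination (σ / j * Real.log (j + 1)) * c3 - (σ / j * Real.log (t / s)) * cγ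
    have h1 := mul_le_mul_of_nonneg_left hcon hr.le
    have h2 : 0 ≤ γ / 2 * (σ / j * Real.log (t / s)) := by positivity
    have h3 := mul_le_mul_of_nonneg_left hq1 hr.le
    have h4 := ca1_lt
    rw [e1]
    linarith
  have h1 : ((s + σ) / s) ^ (γ / 2) ≤ (1 + σ) ^ (γ / 2) := by
    apply Real.rpow_le_rpow (by positivity) _ (by positivity)
    rw [div_le_iff₀ hs0]
    nlinarith
  calc Real.exp (√2 * (Nn κ γ s t + 1) * σ / j) * Gf κ γ s (s + σ)
      ≤ Real.exp (√2 * (κ (s + σ) - κ s) + 3) * ((1 + σ) ^ (γ / 2) * Real.exp (-√2 * (κ (s + σ) - κ s))) := by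
        unfold Gf
        gcongr
    _ = Real.exp 3 * (1 + σ) ^ (γ / 2) := by
        rw [Real.exp_add]
        have h2 : Real.exp (√2 * (κ (s + σ) - κ s)) * Real.exp (-√2 * (κ (s + σ) - κ s)) = 1 := by
          rw [← Real.exp_add]
          ring_nf
          exact Real.exp_zero
        linear_combination (Real.exp 3 * (1 + σ) ^ (γ / 2)) * h2

end Pool.H50.BB
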