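import Mathlib

/-!
# Row Ca3: three integrals   (about 150 lines, calculus)

(a) `D ≥ 1`, `0 ≤ γ < 1`: `(1+σ)^{γ/2} ≤ 1 + σ^{γ/2}`; substitution `σ = D²/(4y²)`: `∫_0^∞ D σ^{-3/2} e^{-D²/(4σ)} dσ = 4 ∫_0^∞ e^{-y²} dy = 2√π`,
`∫_0^∞ D σ^{-3/2} σ^{γ/2} e^{-D²/(4σ)} dσ = 4 ∫ e^{-y²} (D/(2y))^γ dy = C D^γ`.  (Alternatively without substitution: `σ ≥ D²`: `∫_{D²}^∞ D σ^{-3/2} (1 + σ^{γ/2}) ≤ C (1 + D^γ)`;
`σ ≤ D²`: `e^{-D²/(4σ)} ≤ 64 (σ/D²)²` (`e^{-x} ≤ 2/x²`), so `∫_0^{D²} D σ^{-3/2} 64 σ² D^{-4} (1+σ^{γ/2}) ≤ C(1 + D^γ)`.)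
(b) `∫_a^b D σ^{-3/2} ≤ 2 D a^{-1/2}`.
(c) `1 ≤ ℓ ≤ j/4`, `σ ≥ j/2`: `σ^{-3/2} ((j+1)/(j-σ+1))^{3/2} ≤ 8 (j - σ + 1)^{-3/2}` (`(2(j+1)/j)^{3/2} ≤ 4^{3/2}`); substitute `v = j - σ ∈ [ℓ, j/2]`:
`∫_ℓ^∞ (v+1)^{-3/2} (1 + 2 log (v+1)) dv = 2 (ℓ+1)^{-1/2} (5 + 2 log(ℓ+1)) ≤ C ℓ^{-1/2} (1 + log(ℓ+1))` (primitive: `-2 (v+1)^{-1/2}(5 + 2 log(v+1))`).
-/

open MeasureTheory Set

namespace Pool.H50.BB

/-- the tail integral of a power -/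
theorem Ca3_tail {a c : ℝ} (ha : a < -1) (hc : 0 < c) :
    ∫⁻ σ in Ioi c, ENNReal.ofReal (σ ^ a) = ENNReal.ofReal (-c ^ (a + 1) / (a + 1)) := by
  rw [← integral_Ioi_rpow_of_lt ha hc]
  symm
  refine ofReal_integral_eq_lintegral_ofReal (integrableOn_Ioi_rpow_of_lt ha hc) ?_
  refine (ae_restrict_iff' measurableSet_Ioi).2 (ae_of_all _ fun x hx => ?_)
  exact Real.rpow_nonneg (hc.le.trans (le_of_lt hx)) a

theorem Ca3_tail_mul {a c K : ℝ} (ha : a < -1) (hc : 0 < c) (hK : 0 ≤ K) :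
    ∫⁻ σ in Ioi c, ENNReal.ofReal (K * σ ^ a) = ENNReal.ofReal (K * (-c ^ (a + 1) / (a + 1))) := by
  rw [ENNReal.ofReal_mul hK, ← Ca3_tail ha hc,
    ← lintegral_const_mul' _ _ ENNReal.ofReal_ne_top]
  exact lintegral_congr fun σ => ENNReal.ofReal_mul hK

theorem Ca3_exp {x : ℝ} (hx : 0 < x) : Real.exp (-x) ≤ 2 / x ^ 2 := by
  have h := Real.quadratic_le_exp_of_nonneg hx.le
  rw [Real.exp_neg, ← one_div, div_le_div_iff₀ (Real.exp_pos x) (by positivity)]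
  nlinarith

/-- near part -/
theorem Ca3_near {γ D σ : ℝ} (h0 : 0 ≤ γ) (h1 : γ < 1) (hD : 1 ≤ D) (hσ : 0 < σ) (hσD : σ ≤ D ^ 2) :
    D * σ ^ (-(3 / 2 : ℝ)) * Real.exp (-D ^ 2 / (4 * σ)) * (1 + σ) ^ (γ / 2) ≤
      64 * D ^ γ / D ^ 2 := by
  have hD0 : 0 < D := by linarith
  have e1 : Real.exp (-D ^ 2 / (4 * σ)) ≤ 32 * σ ^ 2 / D ^ 4 := by
    have h2 := Ca3_exp (x := D ^ 2 / (4 * σ)) (by positivity)
    have e2 : -D ^ 2 / (4 * σ) = -(D ^ 2 / (4 * σ)) := by ring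
    rw [e2]
    refine h2.trans (le_of_eq ?_)
    field_simp
    ring
  have e3 : (1 + σ) ^ (γ / 2) ≤ 2 * D ^ γ := by
    have h2 : (1 + σ) ^ (γ / 2) ≤ (2 * D ^ 2) ^ (γ / 2) :=
      Real.rpow_le_rpow (by positivity) (by nlinarith) (by linarith)
    have h3 : (2 * D ^ 2) ^ (γ / 2) = 2 ^ (γ / 2) * D ^ γ := by
      rw [Real.mul_rpow (by norm_num) (by positivity), ← Real.rpow_natCast, ← Real.rpow_mul hD0.le]
      congr 2
      push_cast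
      ring
    have h4 : (2 : ℝ) ^ (γ / 2) ≤ 2 := by
      calc (2 : ℝ) ^ (γ / 2) ≤ 2 ^ (1 : ℝ) :=
            Real.rpow_le_rpow_of_exponent_le (by norm_num) (by linarith)
        _ = 2 := Real.rpow_one 2
    rw [h3] at h2
    exact h2.trans (mul_le_mul_of_nonneg_right h4 (Real.rpow_nonneg hD0.le _))
  have e4 : σ ^ (-(3 / 2 : ℝ)) * σ ^ 2 ≤ D := by
    have h2 : σ ^ (-(3 / 2 : ℝ)) * σ ^ 2 = σ ^ (1 / 2 : ℝ) := by
      rw [← Real.rpow_natCast σ 2, ← Real.rpow_add hσ]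
      norm_num
    rw [h2]
    have h3 : σ ^ (1 / 2 : ℝ) ≤ (D ^ 2) ^ (1 / 2 : ℝ) :=
      Real.rpow_le_rpow hσ.le hσD (by norm_num)
    rwa [← Real.sqrt_eq_rpow, ← Real.sqrt_eq_rpow, Real.sqrt_sq hD0.le, Real.sqrt_eq_rpow] at h3
  have hDγ : 0 ≤ D ^ γ := Real.rpow_nonneg hD0.le _
  have hσ32 : 0 ≤ σ ^ (-(3 / 2 : ℝ)) := Real.rpow_nonneg hσ.le _
  calc D * σ ^ (-(3 / 2 : ℝ)) * Real.exp (-D ^ 2 / (4 * σ)) * (1 + σ) ^ (γ / 2)
      ≤ D * σ ^ (-(3 / 2 : ℝ)) * (32 * σ ^ 2 / D ^ 4) * (2 * D ^ γ) :=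
        mul_le_mul (mul_le_mul_of_nonneg_left e1 (by positivity)) e3 (by positivity) (by positivity)
    _ = (64 * D ^ γ / D ^ 3) * (σ ^ (-(3 / 2 : ℝ)) * σ ^ 2) := by
        field_simp
        ring
    _ ≤ (64 * D ^ γ / D ^ 3) * D := mul_le_mul_of_nonneg_left e4 (by positivity)
    _ = 64 * D ^ γ / D ^ 2 := by
        field_simp

/-- far part -/
theorem Ca3_far {γ D σ : ℝ} (h0 : 0 ≤ γ) (h1 : γ < 1) (hD : 1 ≤ D) (hσD : D ^ 2 < σ) :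
    D * σ ^ (-(3 / 2 : ℝ)) * Real.exp (-D ^ 2 / (4 * σ)) * (1 + σ) ^ (γ / 2) ≤
      (2 * D) * σ ^ (γ / 2 - 3 / 2) := by
  have hD0 : 0 < D := by linarith
  have hσ1 : 1 ≤ σ := by nlinarith
  have hσ : 0 < σ := by linarith
  have e1 : Real.exp (-D ^ 2 / (4 * σ)) ≤ 1 := by
    apply Real.exp_le_one_iff.2
    rw [neg_div]
    have : 0 ≤ D ^ 2 / (4 * σ) := by positivity
    linarith
  have e3 : (1 + σ) ^ (γ / 2) ≤ 2 * σ ^ (γ / 2) := by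
    have h2 : (1 + σ) ^ (γ / 2) ≤ (2 * σ) ^ (γ / 2) :=
      Real.rpow_le_rpow (by positivity) (by linarith) (by linarith)
    rw [Real.mul_rpow (by norm_num) hσ.le] at h2
    have h4 : (2 : ℝ) ^ (γ / 2) ≤ 2 := by
      calc (2 : ℝ) ^ (γ / 2) ≤ 2 ^ (1 : ℝ) :=
            Real.rpow_le_rpow_of_exponent_le (by norm_num) (by linarith)
        _ = 2 := Real.rpow_one 2
    exact h2.trans (mul_le_mul_of_nonneg_right h4 (Real.rpow_nonneg hσ.le _))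
  have hσ32 : 0 ≤ σ ^ (-(3 / 2 : ℝ)) := Real.rpow_nonneg hσ.le _
  have hσg : 0 ≤ σ ^ (γ / 2) := Real.rpow_nonneg hσ.le _
  have e5 : σ ^ (γ / 2 - 3 / 2) = σ ^ (-(3 / 2 : ℝ)) * σ ^ (γ / 2) := by
    rw [← Real.rpow_add hσ]
    congr 1
    ring
  calc D * σ ^ (-(3 / 2 : ℝ)) * Real.exp (-D ^ 2 / (4 * σ)) * (1 + σ) ^ (γ / 2)
      ≤ D * σ ^ (-(3 / 2 : ℝ)) * 1 * (2 * σ ^ (γ / 2)) :=
        mul_le_mul (mul_le_mul_of_nonneg_left e1 (by positivity)) e3 (by positivity) (by positivity)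
    _ = (2 * D) * σ ^ (γ / 2 - 3 / 2) := by
        rw [e5]
        ring

theorem ca3_a {γ : ℝ} (h0 : 0 ≤ γ) (h1 : γ < 1) : ∃ C > 0, ∀ D : ℝ, 1 ≤ D →
    ∫⁻ σ in Ioi (0 : ℝ), ENNReal.ofReal (D * σ ^ (-(3 / 2 : ℝ)) * Real.exp (-D ^ 2 / (4 * σ)) * (1 + σ) ^ (γ / 2)) ≤
      ENNReal.ofReal (C * (1 + D ^ γ)) := by
  have hγ : 0 < 1 - γ := by linarith
  refine ⟨64 + 4 / (1 - γ), by positivity, fun D hD => ?_⟩
  have hD0 : 0 < D := by linarith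
  have hD2 : (0 : ℝ) ≤ D ^ 2 := by positivity
  have hDγ : 0 < D ^ γ := Real.rpow_pos_of_pos hD0 _
  have hsp : Ioi (0 : ℝ) = Ioc 0 (D ^ 2) ∪ Ioi (D ^ 2) := (Ioc_union_Ioi_eq_Ioi hD2).symm
  rw [hsp]
  refine (lintegral_union_le _ _ _).trans ?_
  have hA : ∫⁻ σ in Ioc (0 : ℝ) (D ^ 2), ENNReal.ofReal
      (D * σ ^ (-(3 / 2 : ℝ)) * Real.exp (-D ^ 2 / (4 * σ)) * (1 + σ) ^ (γ / 2)) ≤
      ENNReal.ofReal (64 * D ^ γ) := by
    refine (setLIntegral_mono' measurableSet_Ioc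
      (g := fun _ => ENNReal.ofReal (64 * D ^ γ / D ^ 2)) fun σ hσ =>
        ENNReal.ofReal_le_ofReal (Ca3_near h0 h1 hD hσ.1 hσ.2)).trans ?_
    rw [setLIntegral_const, Real.volume_Ioc, ← ENNReal.ofReal_mul (by positivity)]
    refine ENNReal.ofReal_le_ofReal (le_of_eq ?_)
    field_simp
    ring
  have hB : ∫⁻ σ in Ioi (D ^ 2), ENNReal.ofReal
      (D * σ ^ (-(3 / 2 : ℝ)) * Real.exp (-D ^ 2 / (4 * σ)) * (1 + σ) ^ (γ / 2)) ≤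
      ENNReal.ofReal (4 / (1 - γ) * D ^ γ) := by
    refine (setLIntegral_mono' measurableSet_Ioi fun σ hσ =>
        ENNReal.ofReal_le_ofReal (Ca3_far h0 h1 hD hσ)).trans ?_
    rw [Ca3_tail_mul (by linarith) (by positivity) (by positivity)]
    refine ENNReal.ofReal_le_ofReal (le_of_eq ?_)
    have e1 : (D ^ 2) ^ (γ / 2 - 3 / 2 + 1) = D ^ γ / D := by
      rw [← Real.rpow_natCast D 2, ← Real.rpow_mul hD0.le]
      have e2 : ((2 : ℕ) : ℝ) * (γ / 2 - 3 / 2 + 1) = γ - 1 := by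
        push_cast
        ring
      rw [e2, Real.rpow_sub hD0, Real.rpow_one]
    rw [e1]
    have e3 : γ / 2 - 3 / 2 + 1 = -((1 - γ) / 2) := by ring
    rw [e3]
    field_simp
    ring
  refine (add_le_add hA hB).trans ?_
  rw [← ENNReal.ofReal_add (by positivity) (by positivity)]
  refine ENNReal.ofReal_le_ofReal ?_
  have : 0 < 4 / (1 - γ) := by positivity
  nlinarith

theorem ca3_b {a b D : ℝ} (ha : 0 < a) (hD : 0 ≤ D) :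
    ∫⁻ σ in Ioc a b, ENNReal.ofReal (D * σ ^ (-(3 / 2 : ℝ))) ≤ ENNReal.ofReal (2 * D * a ^ (-(1 / 2 : ℝ))) := by
  have h1 : ∫⁻ σ in Ioc a b, ENNReal.ofReal (D * σ ^ (-(3 / 2 : ℝ))) ≤
      ∫⁻ σ in Ioi a, ENNReal.ofReal (D * σ ^ (-(3 / 2 : ℝ))) :=
    lintegral_mono_set Ioc_subset_Ioi_self
  refine h1.trans ?_
  rw [Ca3_tail_mul (by norm_num) ha hD]
  refine ENNReal.ofReal_le_ofReal (le_of_eq ?_)
  have e1 : (-(3 / 2 : ℝ)) + 1 = -(1 / 2) := by norm_num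
  rw [e1]
  ring

/-- the primitive -/
theorem Ca3_deriv {j σ : ℝ} (h : 0 < j - σ + 1) :
    HasDerivAt (fun s => 2 * (j - s + 1) ^ (-(1 / 2 : ℝ)) * (5 + 2 * Real.log (j - s + 1)))
      ((j - σ + 1) ^ (-(3 / 2 : ℝ)) * (1 + 2 * Real.log (j - σ + 1))) σ := by
  have h1 : HasDerivAt (fun s : ℝ => j - s + 1) (-1) σ := by
    have := ((hasDerivAt_id σ).const_sub j).add_const 1
    simpa using this
  have h2 := (h1.rpow_const (p := -(1 / 2 : ℝ)) (Or.inl h.ne')).const_mul 2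
  have h3 := ((h1.log h.ne').const_mul 2).const_add 5
  have h4 := h2.mul h3
  refine h4.congr_deriv ?_
  have e1 : (-(1 / 2 : ℝ)) - 1 = -(3 / 2) := by norm_num
  have e2 : (j - σ + 1) ^ (-(1 / 2 : ℝ)) = (j - σ + 1) ^ (-(3 / 2 : ℝ)) * (j - σ + 1) := by
    rw [← Real.rpow_add_one h.ne']
    norm_num
  rw [e1, e2]
  field_simp
  ring

theorem Ca3_int {j ℓ : ℝ} (hℓ : 1 ≤ ℓ) (hj : 4 * ℓ ≤ j) :
    ∫⁻ σ in Ioc (j / 2) (j - ℓ), ENNReal.ofReal ((j - σ + 1) ^ (-(3 / 2 : ℝ)) *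
      (1 + 2 * Real.log (j - σ + 1))) ≤
      ENNReal.ofReal (10 * (ℓ ^ (-(1 / 2 : ℝ)) * (1 + Real.log (ℓ + 1)))) := by
  have hle : j / 2 ≤ j - ℓ := by linarith
  have hpos : ∀ σ, σ ≤ j - ℓ → 2 ≤ j - σ + 1 := fun σ hσ => by linarith
  have hcont : ContinuousOn (fun σ : ℝ => (j - σ + 1) ^ (-(3 / 2 : ℝ)) *
      (1 + 2 * Real.log (j - σ + 1))) (uIcc (j / 2) (j - ℓ)) := by
    rw [uIcc_of_le hle]
    refine ContinuousOn.mul (ContinuousOn.rpow_const (by fun_prop) fun x hx => Or.inl ?_)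
      (continuousOn_const.add (continuousOn_const.mul (ContinuousOn.log (by fun_prop) fun x hx => ?_)))
    · have := hpos x hx.2
      linarith
    · have := hpos x hx.2
      linarith
  have hint := hcont.intervalIntegrable (μ := volume)
  have hval := intervalIntegral.integral_eq_sub_of_hasDerivAt (a := j / 2) (b := j - ℓ)
    (f := fun s => 2 * (j - s + 1) ^ (-(1 / 2 : ℝ)) * (5 + 2 * Real.log (j - s + 1)))
    (fun x hx => Ca3_deriv (by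
      rw [uIcc_of_le hle] at hx
      have := hpos x hx.2
      linarith)) hint
  rw [intervalIntegral.integral_of_le hle] at hval
  have hI : IntegrableOn (fun σ : ℝ => (j - σ + 1) ^ (-(3 / 2 : ℝ)) *
      (1 + 2 * Real.log (j - σ + 1))) (Ioc (j / 2) (j - ℓ)) := by
    rw [intervalIntegrable_iff_integrableOn_Ioc_of_le hle] at hint
    exact hint
  rw [← ofReal_integral_eq_lintegral_ofReal hI, hval]
  · refine ENNReal.ofReal_le_ofReal ?_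
    have e1 : j - (j - ℓ) + 1 = ℓ + 1 := by ring
    have e2 : 0 ≤ 2 * (j - j / 2 + 1) ^ (-(1 / 2 : ℝ)) * (5 + 2 * Real.log (j - j / 2 + 1)) := by
      have h1 : 0 ≤ Real.log (j - j / 2 + 1) := Real.log_nonneg (by linarith)
      have h2 : 0 ≤ (j - j / 2 + 1) ^ (-(1 / 2 : ℝ)) := Real.rpow_nonneg (by linarith) _
      positivity
    rw [e1]
    have hlog : 0 ≤ Real.log (ℓ + 1) := Real.log_nonneg (by linarith)
    have h3 : (ℓ + 1) ^ (-(1 / 2 : ℝ)) ≤ ℓ ^ (-(1 / 2 : ℝ)) :=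
      Real.rpow_le_rpow_of_nonpos (by linarith) (by linarith) (by norm_num)
    have h4 : 0 ≤ (ℓ + 1) ^ (-(1 / 2 : ℝ)) := Real.rpow_nonneg (by linarith) _
    have h5 : 2 * (ℓ + 1) ^ (-(1 / 2 : ℝ)) * (5 + 2 * Real.log (ℓ + 1)) ≤
        2 * ℓ ^ (-(1 / 2 : ℝ)) * (5 * (1 + Real.log (ℓ + 1))) :=
      mul_le_mul (by linarith) (by linarith) (by positivity) (by linarith)
    linarith
  · refine (ae_restrict_iff' measurableSet_Ioc).2 (ae_of_all _ fun x hx => ?_)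
    have := hpos x hx.2
    have h1 : 0 ≤ Real.log (j - x + 1) := Real.log_nonneg (by linarith)
    have h2 : 0 ≤ (j - x + 1) ^ (-(3 / 2 : ℝ)) := Real.rpow_nonneg (by linarith) _
    show 0 ≤ (j - x + 1) ^ (-(3 / 2 : ℝ)) * (1 + 2 * Real.log (j - x + 1))
    positivity

theorem ca3_c : ∃ C > 0, ∀ j ℓ D : ℝ, 1 ≤ ℓ → 4 * ℓ ≤ j → 0 ≤ D →
    ∫⁻ σ in Ioc (j / 2) (j - ℓ), ENNReal.ofReal (D * σ ^ (-(3 / 2 : ℝ)) * ((j + 1) / (j - σ + 1)) ^ (3 / 2 : ℝ) *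
        (1 + 2 * Real.log (j - σ + 1))) ≤
      ENNReal.ofReal (C * D * (ℓ ^ (-(1 / 2 : ℝ)) * (1 + Real.log (ℓ + 1)))) := by
  refine ⟨80, by norm_num, fun j ℓ D hℓ hj hD => ?_⟩
  have hpt : ∀ σ ∈ Ioc (j / 2) (j - ℓ),
      ENNReal.ofReal (D * σ ^ (-(3 / 2 : ℝ)) * ((j + 1) / (j - σ + 1)) ^ (3 / 2 : ℝ) *
        (1 + 2 * Real.log (j - σ + 1))) ≤
      ENNReal.ofReal (8 * D) * ENNReal.ofReal ((j - σ + 1) ^ (-(3 / 2 : ℝ)) *
        (1 + 2 * Real.log (j - σ + 1))) := by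
    intro σ hσ
    have hσ0 : 0 < σ := by linarith [hσ.1]
    have hw : 2 ≤ j - σ + 1 := by linarith [hσ.2]
    have hlog : 0 ≤ Real.log (j - σ + 1) := Real.log_nonneg (by linarith)
    rw [← ENNReal.ofReal_mul (by positivity)]
    refine ENNReal.ofReal_le_ofReal ?_
    have e1 : σ ^ (-(3 / 2 : ℝ)) * ((j + 1) / (j - σ + 1)) ^ (3 / 2 : ℝ) =
        ((j + 1) / σ) ^ (3 / 2 : ℝ) * (j - σ + 1) ^ (-(3 / 2 : ℝ)) := by
      rw [Real.div_rpow (by linarith) (by linarith), Real.div_rpow (by linarith) hσ0.le,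
        Real.rpow_neg hσ0.le, Real.rpow_neg (by linarith)]
      ring
    have e2 : ((j + 1) / σ) ^ (3 / 2 : ℝ) ≤ 8 := by
      have h1 : (j + 1) / σ ≤ 4 := by
        rw [div_le_iff₀ hσ0]
        linarith [hσ.1]
      calc ((j + 1) / σ) ^ (3 / 2 : ℝ) ≤ 4 ^ (3 / 2 : ℝ) :=
            Real.rpow_le_rpow (by apply div_nonneg <;> linarith) h1 (by norm_num)
        _ = 8 := by
            rw [show (4 : ℝ) = 2 ^ (2 : ℝ) by norm_num, ← Real.rpow_mul (by norm_num)]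
            norm_num
    have h2 : 0 ≤ (j - σ + 1) ^ (-(3 / 2 : ℝ)) := Real.rpow_nonneg (by linarith) _
    calc D * σ ^ (-(3 / 2 : ℝ)) * ((j + 1) / (j - σ + 1)) ^ (3 / 2 : ℝ) *
          (1 + 2 * Real.log (j - σ + 1))
        = D * (σ ^ (-(3 / 2 : ℝ)) * ((j + 1) / (j - σ + 1)) ^ (3 / 2 : ℝ)) *
          (1 + 2 * Real.log (j - σ + 1)) := by ring
      _ = ((j + 1) / σ) ^ (3 / 2 : ℝ) * (D * ((j - σ + 1) ^ (-(3 / 2 : ℝ)) *
          (1 + 2 * Real.log (j - σ + 1)))) := by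
          rw [e1]
          ring
      _ ≤ 8 * (D * ((j - σ + 1) ^ (-(3 / 2 : ℝ)) * (1 + 2 * Real.log (j - σ + 1)))) :=
          mul_le_mul_of_nonneg_right e2 (by positivity)
      _ = _ := by ring
  refine (setLIntegral_mono' measurableSet_Ioc hpt).trans ?_
  rw [lintegral_const_mul' _ _ ENNReal.ofReal_ne_top]
  refine (mul_le_mul_right (Ca3_int hℓ hj) _).trans ?_
  rw [← ENNReal.ofReal_mul (by positivity)]
  refine ENNReal.ofReal_le_ofReal (le_of_eq ?_)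
  ring

end Pool.H50.BB
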