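import Pool.Agent.H50.BB.Ca1
import Pool.Agent.H50.BB.Ca3
import Pool.Agent.H50.BB.Brf

/-!
# Row Ca4: the sum over the hitting times   (about 200 lines)

`j = t - s ≥ 8`, `1 ≤ ℓ ≤ j/4`, `D ≥ 1`, `A ≥ 1`; `Θ σ ∈ [0,1]` and `Θ σ ≤ A (1 + max 0 Xs) e^{-√2 Xs}` for `σ ≥ 2`.  `e(σ) = exp(√2 (N+1) σ/j) Gf s (s+σ)`, `f(σ) = D σ^{-3/2} e^{-D²/(4σ)}`.
By `ca_fpd` the integrand is `≤ K2 e^{-√2 D} f(σ) e(σ) Θ(σ)`.
Early: `σ ≤ σ1 := j/log(j+2)` (`≥ 2` since `j ≥ 8`): `Θ ≤ 1`, `ca_early`: `f (1+σ)^{γ/2} e³`: `ca3_a` gives `C (1 + D^γ)`.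
For `σ ≥ σ1 ≥ 2`: `e(σ) Θ(σ) ≤ e^{√2} ((j+1)/(j'+1))^{3/2} A (1 + max 0 Xs)` (`ca_cancel`), `max 0 Xs ≤ 2 log(j'+1)` (`ca_X`).
Mid `σ1 ≤ σ ≤ j/2`: `(j+1)/(j'+1) ≤ 2`, `1 + 2 log(j'+1) ≤ 3 log (j+2)`: `ca3_b` with `a = σ1`: `C A D log(j+2) (log(j+2)/j)^{1/2}`.
Late `j/2 ≤ σ ≤ j-ℓ`: `ca3_c`.  Measurability of `Θ` is not needed if we bound pointwise first (`lintegral_mono`).
`ca_last`: `σ ∈ (j-ℓ, j]`: `Θ ≤ 1`, `e(σ) = e^{√2} ((j+1)/(j'+1))^{3/2} e^{√2 Xs} ≤ C (j+1)^{3/2} (j'+1)^{2√2} ≤ C (j+1)^{3/2} (ℓ+1)^3`, `f(σ) ≤ D (j/2)^{-3/2}`... ; integral over an interval of length `ℓ`.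
-/

open MeasureTheory Set Filter Topology
open scoped ENNReal

namespace Pool.H50.BB

theorem Ca4_Gf {κ : ℝ → ℝ} {γ s σ : ℝ} (hs : 1 ≤ s) (hσ : 0 ≤ σ) : 0 ≤ Gf κ γ s (s + σ) := by
  unfold Gf
  have h1 : 0 ≤ (s + σ) / s := div_nonneg (by linarith) (by linarith)
  exact mul_nonneg (Real.rpow_nonneg h1 _) (Real.exp_pos _).le

theorem Ca4_log {j : ℝ} (hj : 8 ≤ j) : Real.log (j + 2) ≤ j / 2 := by
  have h1 : Real.log (j + 2) = Real.log 4 + Real.log ((j + 2) / 4) := by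
    rw [← Real.log_mul (by norm_num) (by linarith)]
    congr 1; ring
  have h2 : Real.log ((j + 2) / 4) ≤ (j + 2) / 4 - 1 := Real.log_le_sub_one_of_pos (by linarith)
  have h3 : Real.log 4 = 2 * Real.log 2 := by
    rw [show (4 : ℝ) = 2 ^ 2 by norm_num, Real.log_pow]; norm_num
  have h4 := Real.log_two_lt_d9
  rw [h1, h3]
  linarith

theorem Ca4_log2 {j : ℝ} (hj : 8 ≤ j) : 2 ≤ Real.log (j + 2) := by
  rw [Real.le_log_iff_exp_le (by linarith)]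
  have h1 := Real.exp_one_lt_d9
  have h2 : Real.exp 2 = Real.exp 1 * Real.exp 1 := by rw [← Real.exp_add]; norm_num
  have h3 := Real.exp_pos 1
  rw [h2]
  nlinarith

/-- the pointwise bound -/
theorem Ca4_pt {κ : ℝ → ℝ} {γ s t D K2 : ℝ} {σ θ : ℝ} (hs : 1 ≤ s) (hσ : 0 ≤ σ) (hθ : 0 ≤ θ)
    (h : fpd (mu κ γ s t) D σ * Real.exp σ ≤ K2 * Real.exp (-√2 * D) *
      (D * σ ^ (-(3 / 2 : ℝ)) * Real.exp (-D ^ 2 / (4 * σ))) *
        Real.exp (√2 * (Nn κ γ s t + 1) * σ / (t - s))) :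
    fpd (mu κ γ s t) D σ * Real.exp σ * θ * Gf κ γ s (s + σ) ≤
      K2 * Real.exp (-√2 * D) * (D * σ ^ (-(3 / 2 : ℝ)) * Real.exp (-D ^ 2 / (4 * σ))) *
        (θ * (Real.exp (√2 * (Nn κ γ s t + 1) * σ / (t - s)) * Gf κ γ s (s + σ))) := by
  have hG := Ca4_Gf (κ := κ) (γ := γ) hs hσ
  calc _ = fpd (mu κ γ s t) D σ * Real.exp σ * (θ * Gf κ γ s (s + σ)) := by ring
    _ ≤ _ := mul_le_mul_of_nonneg_right h (mul_nonneg hθ hG)
    _ = _ := by ring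

theorem ca_hits (γ Λ : ℝ) (hγ0 : 0 ≤ γ) (hγ1 : γ < 1) : ∃ C > 0, ∀ (κ : ℝ → ℝ) (s0 : ℝ), Kap κ γ Λ s0 →
    ∀ s t ℓ D A : ℝ, s0 ≤ s → 8 ≤ t - s → 1 ≤ ℓ → 4 * ℓ ≤ t - s → 1 ≤ D → 1 ≤ A → ∀ Θ : ℝ → ℝ,
      (∀ σ, 0 < σ → σ ≤ t - s → 0 ≤ Θ σ ∧ Θ σ ≤ 1) →
      (∀ σ, 2 ≤ σ → σ ≤ t - s → Θ σ ≤ A * (1 + max 0 (Xs κ γ s t σ)) * Real.exp (-√2 * Xs κ γ s t σ)) →
      ∫⁻ σ in Ioc 0 (t - s - ℓ), ENNReal.ofReal (fpd (mu κ γ s t) D σ * Real.exp σ * Θ σ * Gf κ γ s (s + σ)) ≤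
        ENNReal.ofReal (C * Real.exp (-√2 * D) * ((1 + D ^ γ) +
          A * D * ((t - s) ^ (-(1 / 2 : ℝ)) * Real.log (t - s + 2) ^ (3 / 2 : ℝ) + ℓ ^ (-(1 / 2 : ℝ)) * (1 + Real.log (ℓ + 1))))) := by
  obtain ⟨K2, hK2, hfpd⟩ := ca_fpd Λ
  obtain ⟨Ca, hCa, h3a⟩ := ca3_a hγ0 hγ1
  obtain ⟨Cc, hCc, h3c⟩ := ca3_c
  have hK20 : 0 < K2 := by linarith
  refine ⟨K2 * Real.exp 3 * Ca + K2 * Real.exp √2 * 18 + K2 * Real.exp √2 * Cc, by positivity, ?_⟩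
  intro κ s0 K s t ℓ D A hs hj hℓ hℓj hD hA Θ hΘ1 hΘ2
  have hs1 : 1 ≤ s := K.s1.trans hs
  have hst : s < t := by linarith
  set j := t - s with hjdef
  have hD0 : 0 ≤ D := by linarith
  have hA0 : 0 ≤ A := by linarith
  have hlog := Ca4_log hj
  have hlog2 := Ca4_log2 hj
  have hlog0 : 0 < Real.log (j + 2) := by linarith
  have hj0 : 0 < j := by linarith
  set σ1 := j / Real.log (j + 2) with hσ1
  have hσ12 : 2 ≤ σ1 := by rw [hσ1, le_div_iff₀ hlog0]; linarith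
  have hσ1j : σ1 ≤ j / 2 := by
    rw [hσ1, div_le_div_iff₀ hlog0 (by norm_num)]
    nlinarith
  set E := K2 * Real.exp (-√2 * D) with hE
  have hE0 : 0 < E := by positivity
  have hf0 : ∀ σ, 0 < σ → 0 ≤ D * σ ^ (-(3 / 2 : ℝ)) := fun σ hσ =>
    mul_nonneg hD0 (Real.rpow_nonneg hσ.le _)
  have hpt : ∀ σ, 0 < σ → σ ≤ j →
      fpd (mu κ γ s t) D σ * Real.exp σ * Θ σ * Gf κ γ s (s + σ) ≤
      E * (D * σ ^ (-(3 / 2 : ℝ)) * Real.exp (-D ^ 2 / (4 * σ))) *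
        (Θ σ * (Real.exp (√2 * (Nn κ γ s t + 1) * σ / j) * Gf κ γ s (s + σ))) := fun σ hσ hσj =>
    Ca4_pt hs1 hσ.le (hΘ1 σ hσ hσj).1 (hfpd κ γ s0 K s t hs (by linarith) σ D hσ hσj hD0)
  -- early
  have early : ∫⁻ σ in Ioc 0 σ1, ENNReal.ofReal (fpd (mu κ γ s t) D σ * Real.exp σ * Θ σ *
      Gf κ γ s (s + σ)) ≤ ENNReal.ofReal (E * Real.exp 3 * (Ca * (1 + D ^ γ))) := by
    calc _ ≤ ∫⁻ σ in Ioc 0 σ1, ENNReal.ofReal (E * Real.exp 3) *
          ENNReal.ofReal (D * σ ^ (-(3 / 2 : ℝ)) * Real.exp (-D ^ 2 / (4 * σ)) * (1 + σ) ^ (γ / 2)) := by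
          refine setLIntegral_mono' measurableSet_Ioc fun σ hσ => ?_
          have hσj : σ ≤ j := by linarith [hσ.2]
          rw [← ENNReal.ofReal_mul (by positivity)]
          refine ENNReal.ofReal_le_ofReal ((hpt σ hσ.1 hσj).trans ?_)
          have h1 := ca_early K hs hst hσ.1.le hσ.2 hσj
          have h2 := hΘ1 σ hσ.1 hσj
          have h3 : 0 ≤ Real.exp (√2 * (Nn κ γ s t + 1) * σ / j) * Gf κ γ s (s + σ) :=
            mul_nonneg (Real.exp_pos _).le (Ca4_Gf hs1 hσ.1.le)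
          have h4 : Θ σ * (Real.exp (√2 * (Nn κ γ s t + 1) * σ / j) * Gf κ γ s (s + σ)) ≤
              Real.exp 3 * (1 + σ) ^ (γ / 2) := (mul_le_of_le_one_left h3 h2.2).trans h1
          have h5 : 0 ≤ E * (D * σ ^ (-(3 / 2 : ℝ)) * Real.exp (-D ^ 2 / (4 * σ))) :=
            mul_nonneg hE0.le (mul_nonneg (hf0 σ hσ.1) (Real.exp_pos _).le)
          refine (mul_le_mul_of_nonneg_left h4 h5).trans (le_of_eq ?_)
          ring
      _ ≤ ENNReal.ofReal (E * Real.exp 3) * ENNReal.ofReal (Ca * (1 + D ^ γ)) := by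
          rw [lintegral_const_mul' _ _ ENNReal.ofReal_ne_top]
          gcongr
          exact (lintegral_mono_set Ioc_subset_Ioi_self).trans (h3a D hD)
      _ = _ := by rw [← ENNReal.ofReal_mul (by positivity)]
  -- the bound beyond σ1
  have hlate : ∀ σ, 2 ≤ σ → σ ≤ j →
      fpd (mu κ γ s t) D σ * Real.exp σ * Θ σ * Gf κ γ s (s + σ) ≤
      E * Real.exp √2 * A * (D * σ ^ (-(3 / 2 : ℝ)) * ((j + 1) / (j - σ + 1)) ^ (3 / 2 : ℝ) *
        (1 + 2 * Real.log (j - σ + 1))) := by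
    intro σ hσ hσj
    have hσ0 : 0 < σ := by linarith
    refine (hpt σ hσ0 hσj).trans ?_
    have h1 := ca_cancel K hs hst hσ0.le hσj
    have h2 := ca_X K hs hst hσ0.le hσj
    have h3 := hΘ2 σ hσ hσj
    have hl0 : 0 ≤ Real.log (j - σ + 1) := Real.log_nonneg (by linarith)
    have h4 : max 0 (Xs κ γ s t σ) ≤ 2 * Real.log (j - σ + 1) := max_le (by linarith) h2
    have hr0 : 0 ≤ ((j + 1) / (j - σ + 1)) ^ (3 / 2 : ℝ) :=
      Real.rpow_nonneg (div_nonneg (by linarith) (by linarith)) _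
    rw [h1]
    have h5 : Θ σ * (Real.exp √2 * ((j + 1) / (j - σ + 1)) ^ (3 / 2 : ℝ) *
        Real.exp (√2 * Xs κ γ s t σ)) ≤ Real.exp √2 * A * (((j + 1) / (j - σ + 1)) ^ (3 / 2 : ℝ) *
        (1 + 2 * Real.log (j - σ + 1))) := by
      calc _ ≤ A * (1 + max 0 (Xs κ γ s t σ)) * Real.exp (-√2 * Xs κ γ s t σ) *
            (Real.exp √2 * ((j + 1) / (j - σ + 1)) ^ (3 / 2 : ℝ) *
            Real.exp (√2 * Xs κ γ s t σ)) := mul_le_mul_of_nonneg_right h3 (by positivity)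
        _ = Real.exp √2 * A * (((j + 1) / (j - σ + 1)) ^ (3 / 2 : ℝ) *
            (1 + max 0 (Xs κ γ s t σ))) * (Real.exp (-√2 * Xs κ γ s t σ) *
            Real.exp (√2 * Xs κ γ s t σ)) := by ring
        _ = Real.exp √2 * A * (((j + 1) / (j - σ + 1)) ^ (3 / 2 : ℝ) *
            (1 + max 0 (Xs κ γ s t σ))) := by
            rw [← Real.exp_add, show -√2 * Xs κ γ s t σ + √2 * Xs κ γ s t σ = 0 by ring,
              Real.exp_zero, mul_one]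
        _ ≤ _ := by gcongr
    have h6 : D * σ ^ (-(3 / 2 : ℝ)) * Real.exp (-D ^ 2 / (4 * σ)) ≤ D * σ ^ (-(3 / 2 : ℝ)) := by
      refine mul_le_of_le_one_right (hf0 σ hσ0) (Real.exp_le_one_iff.2 ?_)
      rw [neg_div]
      exact neg_nonpos.2 (by positivity)
    have h7 : 0 ≤ D * σ ^ (-(3 / 2 : ℝ)) * Real.exp (-D ^ 2 / (4 * σ)) :=
      mul_nonneg (hf0 σ hσ0) (Real.exp_pos _).le
    have h8 : 0 ≤ Real.exp √2 * A * (((j + 1) / (j - σ + 1)) ^ (3 / 2 : ℝ) *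
        (1 + 2 * Real.log (j - σ + 1))) := by positivity
    calc _ ≤ E * (D * σ ^ (-(3 / 2 : ℝ)) * Real.exp (-D ^ 2 / (4 * σ))) *
          (Real.exp √2 * A * (((j + 1) / (j - σ + 1)) ^ (3 / 2 : ℝ) *
          (1 + 2 * Real.log (j - σ + 1)))) := mul_le_mul_of_nonneg_left h5 (mul_nonneg hE0.le h7)
      _ ≤ E * (D * σ ^ (-(3 / 2 : ℝ))) * (Real.exp √2 * A * (((j + 1) / (j - σ + 1)) ^ (3 / 2 : ℝ) *
          (1 + 2 * Real.log (j - σ + 1)))) :=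
          mul_le_mul_of_nonneg_right (mul_le_mul_of_nonneg_left h6 hE0.le) h8
      _ = _ := by ring
  -- mid
  have mid : ∫⁻ σ in Ioc σ1 (j / 2), ENNReal.ofReal (fpd (mu κ γ s t) D σ * Real.exp σ * Θ σ *
      Gf κ γ s (s + σ)) ≤ ENNReal.ofReal (E * Real.exp √2 * A * 18 * D *
        (j ^ (-(1 / 2 : ℝ)) * Real.log (j + 2) ^ (3 / 2 : ℝ))) := by
    calc _ ≤ ∫⁻ σ in Ioc σ1 (j / 2), ENNReal.ofReal (E * Real.exp √2 * A * (9 * Real.log (j + 2))) *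
          ENNReal.ofReal (D * σ ^ (-(3 / 2 : ℝ))) := by
          refine setLIntegral_mono' measurableSet_Ioc fun σ hσ => ?_
          have hσj : σ ≤ j := by linarith [hσ.2]
          have hσ2 : 2 ≤ σ := by linarith [hσ.1]
          rw [← ENNReal.ofReal_mul (by positivity)]
          refine ENNReal.ofReal_le_ofReal ((hlate σ hσ2 hσj).trans ?_)
          have h1 : (j + 1) / (j - σ + 1) ≤ 2 := by
            rw [div_le_iff₀ (by linarith)]; linarith [hσ.2]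
          have h1' : 0 ≤ (j + 1) / (j - σ + 1) := div_nonneg (by linarith) (by linarith)
          have h2 : ((j + 1) / (j - σ + 1)) ^ (3 / 2 : ℝ) ≤ 3 := by
            calc ((j + 1) / (j - σ + 1)) ^ (3 / 2 : ℝ) ≤ (2 : ℝ) ^ (3 / 2 : ℝ) :=
                  Real.rpow_le_rpow h1' h1 (by norm_num)
              _ = 2 * √2 := by
                  rw [show (3 / 2 : ℝ) = 1 + 1 / 2 by norm_num, Real.rpow_add (by norm_num),
                    Real.rpow_one, Real.sqrt_eq_rpow]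
              _ ≤ 3 := by
                  have : √2 ≤ 3 / 2 := by
                    rw [Real.sqrt_le_left (by norm_num)]; norm_num
                  linarith
          have h3 : Real.log (j - σ + 1) ≤ Real.log (j + 2) :=
            Real.log_le_log (by linarith) (by linarith)
          have h3' : 0 ≤ Real.log (j - σ + 1) := Real.log_nonneg (by linarith)
          have h4 : 1 + 2 * Real.log (j - σ + 1) ≤ 3 * Real.log (j + 2) := by linarith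
          have h5 : ((j + 1) / (j - σ + 1)) ^ (3 / 2 : ℝ) * (1 + 2 * Real.log (j - σ + 1)) ≤
              3 * (3 * Real.log (j + 2)) := mul_le_mul h2 h4 (by linarith) (by norm_num)
          have h6 := hf0 σ (by linarith : 0 < σ)
          have h7 : 0 ≤ E * Real.exp √2 * A := by positivity
          calc _ = E * Real.exp √2 * A * (D * σ ^ (-(3 / 2 : ℝ))) *
                (((j + 1) / (j - σ + 1)) ^ (3 / 2 : ℝ) * (1 + 2 * Real.log (j - σ + 1))) := by ring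
            _ ≤ E * Real.exp √2 * A * (D * σ ^ (-(3 / 2 : ℝ))) * (3 * (3 * Real.log (j + 2))) :=
                mul_le_mul_of_nonneg_left h5 (mul_nonneg h7 h6)
            _ = _ := by ring
      _ ≤ ENNReal.ofReal (E * Real.exp √2 * A * (9 * Real.log (j + 2))) *
            ENNReal.ofReal (2 * D * σ1 ^ (-(1 / 2 : ℝ))) := by
          rw [lintegral_const_mul' _ _ ENNReal.ofReal_ne_top]
          gcongr
          exact ca3_b (by linarith) hD0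
      _ = _ := by
          rw [← ENNReal.ofReal_mul (by positivity)]
          congr 1
          have h1 : σ1 ^ (-(1 / 2 : ℝ)) = j ^ (-(1 / 2 : ℝ)) * Real.log (j + 2) ^ (1 / 2 : ℝ) := by
            rw [hσ1, Real.div_rpow hj0.le hlog0.le, Real.rpow_neg hlog0.le (1 / 2), div_inv_eq_mul]
          have h2 : Real.log (j + 2) ^ (3 / 2 : ℝ) =
              Real.log (j + 2) * Real.log (j + 2) ^ (1 / 2 : ℝ) := by
            rw [show (3 / 2 : ℝ) = 1 + 1 / 2 by norm_num, Real.rpow_add hlog0, Real.rpow_one]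
          rw [h1, h2]
          ring
  -- late
  have late : ∫⁻ σ in Ioc (j / 2) (j - ℓ), ENNReal.ofReal (fpd (mu κ γ s t) D σ * Real.exp σ * Θ σ *
      Gf κ γ s (s + σ)) ≤ ENNReal.ofReal (E * Real.exp √2 * A * (Cc * D *
        (ℓ ^ (-(1 / 2 : ℝ)) * (1 + Real.log (ℓ + 1))))) := by
    calc _ ≤ ∫⁻ σ in Ioc (j / 2) (j - ℓ), ENNReal.ofReal (E * Real.exp √2 * A) *
          ENNReal.ofReal (D * σ ^ (-(3 / 2 : ℝ)) * ((j + 1) / (j - σ + 1)) ^ (3 / 2 : ℝ) *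
        (1 + 2 * Real.log (j - σ + 1))) := by
          refine setLIntegral_mono' measurableSet_Ioc fun σ hσ => ?_
          rw [← ENNReal.ofReal_mul (by positivity)]
          exact ENNReal.ofReal_le_ofReal (hlate σ (by linarith [hσ.1]) (by linarith [hσ.2]))
      _ ≤ ENNReal.ofReal (E * Real.exp √2 * A) * ENNReal.ofReal (Cc * D *
            (ℓ ^ (-(1 / 2 : ℝ)) * (1 + Real.log (ℓ + 1)))) := by
          rw [lintegral_const_mul' _ _ ENNReal.ofReal_ne_top]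
          gcongr
          exact h3c j ℓ D hℓ hℓj hD0
      _ = _ := by rw [← ENNReal.ofReal_mul (by positivity)]
  have hcov : Ioc 0 (j - ℓ) ⊆ Ioc 0 σ1 ∪ (Ioc σ1 (j / 2) ∪ Ioc (j / 2) (j - ℓ)) := by
    intro σ hσ
    by_cases h1 : σ ≤ σ1
    · exact Or.inl ⟨hσ.1, h1⟩
    · by_cases h2 : σ ≤ j / 2
      · exact Or.inr (Or.inl ⟨not_le.1 h1, h2⟩)
      · exact Or.inr (Or.inr ⟨not_le.1 h2, hσ.2⟩)
  have hl1 : 0 ≤ 1 + Real.log (ℓ + 1) := by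
    have := Real.log_nonneg (show (1 : ℝ) ≤ ℓ + 1 by linarith)
    linarith
  have hℓp : 0 ≤ ℓ ^ (-(1 / 2 : ℝ)) := Real.rpow_nonneg (by linarith) _
  have hjp : 0 ≤ j ^ (-(1 / 2 : ℝ)) := Real.rpow_nonneg (by linarith) _
  have hlp : 0 ≤ Real.log (j + 2) ^ (3 / 2 : ℝ) := Real.rpow_nonneg hlog0.le _
  have hDg : 0 ≤ D ^ γ := Real.rpow_nonneg hD0 _
  calc _ ≤ (∫⁻ σ in Ioc 0 σ1, ENNReal.ofReal (fpd (mu κ γ s t) D σ * Real.exp σ * Θ σ *
        Gf κ γ s (s + σ))) + ((∫⁻ σ in Ioc σ1 (j / 2), ENNReal.ofReal (fpd (mu κ γ s t) D σ *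
        Real.exp σ * Θ σ * Gf κ γ s (s + σ))) + ∫⁻ σ in Ioc (j / 2) (j - ℓ),
        ENNReal.ofReal (fpd (mu κ γ s t) D σ * Real.exp σ * Θ σ * Gf κ γ s (s + σ))) :=
        (lintegral_mono_set hcov).trans ((lintegral_union_le _ _ _).trans
          (add_le_add le_rfl (lintegral_union_le _ _ _)))
    _ ≤ ENNReal.ofReal (E * Real.exp 3 * (Ca * (1 + D ^ γ))) + (ENNReal.ofReal (E * Real.exp √2 *
        A * 18 * D * (j ^ (-(1 / 2 : ℝ)) * Real.log (j + 2) ^ (3 / 2 : ℝ))) +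
        ENNReal.ofReal (E * Real.exp √2 * A * (Cc * D *
        (ℓ ^ (-(1 / 2 : ℝ)) * (1 + Real.log (ℓ + 1)))))) := add_le_add early (add_le_add mid late)
    _ = ENNReal.ofReal (E * Real.exp 3 * (Ca * (1 + D ^ γ)) + (E * Real.exp √2 *
        A * 18 * D * (j ^ (-(1 / 2 : ℝ)) * Real.log (j + 2) ^ (3 / 2 : ℝ)) +
        E * Real.exp √2 * A * (Cc * D * (ℓ ^ (-(1 / 2 : ℝ)) * (1 + Real.log (ℓ + 1)))))) := by
        rw [ENNReal.ofReal_add, ENNReal.ofReal_add] <;> positivity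
    _ ≤ _ := by
        refine ENNReal.ofReal_le_ofReal ?_
        rw [hE]
        set u := Real.exp (-√2 * D) with hu
        set q1 := j ^ (-(1 / 2 : ℝ)) * Real.log (j + 2) ^ (3 / 2 : ℝ) with hq1
        set q2 := ℓ ^ (-(1 / 2 : ℝ)) * (1 + Real.log (ℓ + 1)) with hq2
        have hq10 : 0 ≤ q1 := mul_nonneg hjp hlp
        have hq20 : 0 ≤ q2 := mul_nonneg hℓp hl1
        have hu0 : 0 ≤ u := (Real.exp_pos _).le
        set e3 := Real.exp 3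
        set e2 := Real.exp √2
        have he3 : 0 < e3 := Real.exp_pos _
        have he2 : 0 < e2 := Real.exp_pos _
        have b1 : 0 ≤ K2 * e3 * Ca * u * (A * D * (q1 + q2)) := by positivity
        have b2 : 0 ≤ K2 * e2 * 18 * u * ((1 + D ^ γ) + A * D * q2) := by positivity
        have b3 : 0 ≤ K2 * e2 * Cc * u * ((1 + D ^ γ) + A * D * q1) := by positivity
        nlinarith

theorem ca_last (γ Λ : ℝ) (hγ0 : 0 ≤ γ) (hγ1 : γ < 1) : ∃ C > 0, ∀ (κ : ℝ → ℝ) (s0 : ℝ), Kap κ γ Λ s0 →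
    ∀ s t ℓ D : ℝ, s0 ≤ s → 8 ≤ t - s → 1 ≤ ℓ → 4 * ℓ ≤ t - s → 1 ≤ D → ∀ Θ : ℝ → ℝ,
      (∀ σ, 0 < σ → σ ≤ t - s → 0 ≤ Θ σ ∧ Θ σ ≤ 1) →
      ∫⁻ σ in Ioc (t - s - ℓ) (t - s), ENNReal.ofReal (fpd (mu κ γ s t) D σ * Real.exp σ * Θ σ * Gf κ γ s (s + σ)) ≤
        ENNReal.ofReal (C * (ℓ + 1) ^ 4 * D * Real.exp (-√2 * D)) := by
  obtain ⟨K2, hK2, hfpd⟩ := ca_fpd Λ
  have hK20 : 0 < K2 := by linarith
  refine ⟨K2 * Real.exp √2 * 6, by positivity, ?_⟩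
  intro κ s0 K s t ℓ D hs hj hℓ hℓj hD Θ hΘ1
  have hs1 : 1 ≤ s := K.s1.trans hs
  have hst : s < t := by linarith
  set j := t - s with hjdef
  have hD0 : 0 ≤ D := by linarith
  have hj0 : 0 < j := by linarith
  set E := K2 * Real.exp (-√2 * D) with hE
  have hE0 : 0 < E := by positivity
  have hpt : ∀ σ ∈ Ioc (j - ℓ) j,
      fpd (mu κ γ s t) D σ * Real.exp σ * Θ σ * Gf κ γ s (s + σ) ≤
      E * Real.exp √2 * 6 * (ℓ + 1) ^ 3 * D := by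
    intro σ hσ
    have hσ2 : j / 2 < σ := by linarith [hσ.1]
    have hσ0 : 0 < σ := by linarith
    have h0 := Ca4_pt (θ := Θ σ) hs1 hσ0.le (hΘ1 σ hσ0 hσ.2).1
      (hfpd κ γ s0 K s t hs (by linarith) σ D hσ0 hσ.2 hD0)
    refine h0.trans ?_
    have h1 := ca_cancel K hs hst hσ0.le hσ.2
    have h2 := ca_X K hs hst hσ0.le hσ.2
    rw [h1]
    have hl0 : 0 ≤ Real.log (j - σ + 1) := Real.log_nonneg (by linarith [hσ.2])
    have h3 : Real.exp (√2 * Xs κ γ s t σ) ≤ (ℓ + 1) ^ 3 := by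
      calc Real.exp (√2 * Xs κ γ s t σ) ≤ Real.exp (3 * Real.log (j - σ + 1)) := by
            refine Real.exp_le_exp.2 ?_
            have h4 : √2 ≤ 3 / 2 := by rw [Real.sqrt_le_left (by norm_num)]; norm_num
            have h5 : (0 : ℝ) ≤ √2 := Real.sqrt_nonneg _
            have h6 : √2 * Xs κ γ s t σ ≤ √2 * (2 * Real.log (j - σ + 1)) :=
              mul_le_mul_of_nonneg_left h2 h5
            nlinarith
        _ = (j - σ + 1) ^ 3 := by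
            rw [← Real.log_rpow (by linarith [hσ.2]), Real.exp_log]
            · norm_cast
            · exact Real.rpow_pos_of_pos (by linarith [hσ.2]) _
        _ ≤ (ℓ + 1) ^ 3 := pow_le_pow_left₀ (by linarith [hσ.2]) (by linarith [hσ.1]) 3
    have h4 : σ ^ (-(3 / 2 : ℝ)) * ((j + 1) / (j - σ + 1)) ^ (3 / 2 : ℝ) ≤ 6 := by
      have h5 : 0 ≤ (j + 1) / (j - σ + 1) := div_nonneg (by linarith) (by linarith [hσ.2])
      have h6 : (j + 1) / (j - σ + 1) ≤ j + 1 := div_le_self (by linarith) (by linarith [hσ.2])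
      have h7 : (j + 1) / (j - σ + 1) / σ ≤ 9 / 4 := by
        rw [div_le_iff₀ hσ0]
        nlinarith
      calc σ ^ (-(3 / 2 : ℝ)) * ((j + 1) / (j - σ + 1)) ^ (3 / 2 : ℝ)
          = ((j + 1) / (j - σ + 1) / σ) ^ (3 / 2 : ℝ) := by
            rw [Real.div_rpow h5 hσ0.le, Real.rpow_neg hσ0.le]
            ring
        _ ≤ (9 / 4 : ℝ) ^ (3 / 2 : ℝ) :=
            Real.rpow_le_rpow (div_nonneg h5 hσ0.le) h7 (by norm_num)
        _ ≤ (9 / 4 : ℝ) ^ (2 : ℝ) :=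
            Real.rpow_le_rpow_of_exponent_le (by norm_num) (by norm_num)
        _ ≤ 6 := by norm_num
    have h5 : Real.exp (-D ^ 2 / (4 * σ)) ≤ 1 := by
      refine Real.exp_le_one_iff.2 ?_
      rw [neg_div]
      exact neg_nonpos.2 (by positivity)
    have h6 := hΘ1 σ hσ0 hσ.2
    have hr0 : 0 ≤ ((j + 1) / (j - σ + 1)) ^ (3 / 2 : ℝ) :=
      Real.rpow_nonneg (div_nonneg (by linarith) (by linarith [hσ.2])) _
    have hs0' : 0 ≤ σ ^ (-(3 / 2 : ℝ)) := Real.rpow_nonneg hσ0.le _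
    calc _ = E * D * Real.exp √2 * (σ ^ (-(3 / 2 : ℝ)) * ((j + 1) / (j - σ + 1)) ^ (3 / 2 : ℝ)) *
          (Real.exp (-D ^ 2 / (4 * σ)) * Θ σ) * Real.exp (√2 * Xs κ γ s t σ) := by ring
      _ ≤ E * D * Real.exp √2 * 6 * 1 * (ℓ + 1) ^ 3 := by
          have h7 : Real.exp (-D ^ 2 / (4 * σ)) * Θ σ ≤ 1 :=
            mul_le_one₀ h5 h6.1 h6.2
          have h8 : 0 ≤ Real.exp (-D ^ 2 / (4 * σ)) * Θ σ := mul_nonneg (Real.exp_pos _).le h6.1
          gcongr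
      _ = _ := by ring
  calc _ ≤ ∫⁻ σ in Ioc (j - ℓ) j, ENNReal.ofReal (E * Real.exp √2 * 6 * (ℓ + 1) ^ 3 * D) :=
        setLIntegral_mono' measurableSet_Ioc fun σ hσ => ENNReal.ofReal_le_ofReal (hpt σ hσ)
    _ = ENNReal.ofReal (E * Real.exp √2 * 6 * (ℓ + 1) ^ 3 * D * ℓ) := by
        rw [setLIntegral_const, Real.volume_Ioc, ← ENNReal.ofReal_mul (by positivity)]
        congr 2; ring
    _ ≤ _ := by
        refine ENNReal.ofReal_le_ofReal ?_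
        rw [hE]
        have h1 : 0 ≤ K2 * Real.exp (-√2 * D) * Real.exp √2 * 6 * (ℓ + 1) ^ 3 * D := by positivity
        calc _ ≤ K2 * Real.exp (-√2 * D) * Real.exp √2 * 6 * (ℓ + 1) ^ 3 * D * (ℓ + 1) :=
              mul_le_mul_of_nonneg_left (by linarith) h1
          _ = _ := by ring

end Pool.H50.BB
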