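import Pool.Agent.H50.BB.Hi0
import Pool.Agent.H50.BB.Bkl

/-!
# Row Hi: the hitting inequality   (about 170 lines)

`hi`: in `hi0`, for `r ≤ σ = hit D μ w.1` (resp. `r ≤ T` on `Blw`) the real part `x.re + w.1 r ≤ x.re + D + μ r` so `kb (x + pt w r) ≤ 1 - c (s + r) (x.im + w.2 r)`:
`exp (∫_0^σ kb) ≤ e^σ exp (-∫_0^σ c (s+r) (x.im + w.2 r) dr)`.  `W2 = Wm.prod Wm`; for fixed `w.1`, integrate over `w.2`: the integral of
`exp (-∫_0^σ c(s+r)(x.im + w.2 r) dr)` is `Gm c s (s+σ) 1 (x.im)` (substitution `s' = s + r`; `Gm` with `f = 1`), so the hit part is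
`≤ ∫⁻ w1 in (Blw D μ T)ᶜ, ofReal(e^σ Θ(..)) * Gm c s (s+σ) 1 x.im ∂Wm`, a function of `σ = hit D μ w1` only: `hit_lint`.  In the other part `u t z ≤ û (D-coordinate)`: with
`d = D + μ T - w.1 T > 0`: `ofReal (u t z) ≤ û d`; product of an integral over `w.1` (`kline`) and one over `w.2` (`Gm c s t 1 x.im`).
`σ ↦ Gm c s (s+σ) 1 y` is measurable (jointly measurable integrand).
`hik`: see the header of `Hi0`.
-/

open MeasureTheory ProbabilityTheory Set Filter Topology
open scoped NNReal ENNReal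

namespace Pool.H50.BB

open Pool.Agent.H4.BM

theorem Hi_ivl {α : Type*} [MeasurableSpace α] {F : α → ℝ → ℝ} (hF : Measurable (Function.uncurry F))
    {a b : α → ℝ} (ha : Measurable a) (hb : Measurable b) : Measurable fun p => ∫ r in (a p)..(b p), F p r := by
  have key : ∀ {a b : α → ℝ}, Measurable a → Measurable b → Measurable fun p => ∫ r in Ioc (a p) (b p), F p r := by
    intro a b ha hb
    have h1 : (fun p => ∫ r in Ioc (a p) (b p), F p r) =
        fun p => ∫ r, (({q : α × ℝ | a q.1 < q.2 ∧ q.2 ≤ b q.1}).indicator (Function.uncurry F)) (p, r) := by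
      ext p
      rw [← integral_indicator measurableSet_Ioc]
      refine integral_congr_ae (Filter.Eventually.of_forall fun r => ?_)
      by_cases h : r ∈ Ioc (a p) (b p)
      · have h' : (p, r) ∈ {q : α × ℝ | a q.1 < q.2 ∧ q.2 ≤ b q.1} := h
        simp only [indicator_of_mem h, indicator_of_mem h', Function.uncurry_apply_pair]
      · have h' : (p, r) ∉ {q : α × ℝ | a q.1 < q.2 ∧ q.2 ≤ b q.1} := h
        simp only [indicator_of_notMem h, indicator_of_notMem h']
    rw [h1]
    refine (StronglyMeasurable.integral_prod_right' ?_).measurable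
    refine StronglyMeasurable.indicator hF.stronglyMeasurable ?_
    exact (measurableSet_lt (ha.comp measurable_fst) measurable_snd).inter
      (measurableSet_le measurable_snd (hb.comp measurable_fst))
  simp only [intervalIntegral]
  exact (key ha hb).sub (key hb ha)

theorem Gm_meas {c : ℝ → ℝ → ℝ} (hc : Measurable (Function.uncurry c)) {f : ℝ → ℝ≥0∞} (hf : Measurable f) :
    Measurable fun p : ℝ × ℝ × ℝ => Gm c p.1 p.2.1 f p.2.2 := by
  unfold Gm
  have hq : Measurable fun q : (ℝ × ℝ × ℝ) × Pth =>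
      ENNReal.ofReal (Real.exp (-∫ s in q.1.1..q.1.2.1, c s (q.1.2.2 + q.2 (s - q.1.1)))) *
        f (q.1.2.2 + q.2 (q.1.2.1 - q.1.1)) := by
    refine Measurable.mul ?_ ?_
    · refine ENNReal.measurable_ofReal.comp (Real.measurable_exp.comp (Measurable.neg ?_))
      refine Hi_ivl (α := (ℝ × ℝ × ℝ) × Pth) (F := fun q s => c s (q.1.2.2 + q.2 (s - q.1.1))) ?_ ?_ ?_
      · have h1 : Measurable fun p : ((ℝ × ℝ × ℝ) × Pth) × ℝ => (p.2, p.1.1.2.2 + p.1.2 (p.2 - p.1.1.1)) := by
          refine measurable_snd.prodMk (Measurable.add ?_ ?_)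
          · exact measurable_snd.comp (measurable_snd.comp (measurable_fst.comp measurable_fst))
          · exact Pth.measurable_eval (measurable_snd.comp measurable_fst)
              (measurable_snd.sub (measurable_fst.comp (measurable_fst.comp measurable_fst)))
        exact hc.comp h1
      · exact measurable_fst.comp measurable_fst
      · exact measurable_fst.comp (measurable_snd.comp measurable_fst)
    · refine hf.comp (Measurable.add ?_ ?_)
      · exact measurable_snd.comp (measurable_snd.comp measurable_fst)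
      · exact Pth.measurable_eval measurable_snd ((measurable_fst.comp (measurable_snd.comp measurable_fst)).sub
          (measurable_fst.comp measurable_fst))
  exact hq.lintegral_prod_right'

theorem Hi_prod {S : Set Pth} {F : Pth → Pth → ℝ≥0∞} (hF : Measurable (Function.uncurry F)) :
    ∫⁻ w in {w : P2 | w.1 ∈ S}, F w.1 w.2 ∂W2 = ∫⁻ a in S, ∫⁻ b, F a b ∂Wm ∂Wm := by
  have h1 : {w : P2 | w.1 ∈ S} = S ×ˢ (univ : Set Pth) := by ext w; simp
  rw [h1, W2, ← Measure.prod_restrict, Measure.restrict_univ]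
  exact lintegral_prod (fun w : Pth × Pth => F w.1 w.2) hF.aemeasurable

/-- the cost of the second coordinate -/
noncomputable def HiC (c : ℝ → ℝ → ℝ) (s y σ : ℝ) (b : Pth) : ℝ≥0∞ :=
  ENNReal.ofReal (Real.exp (-∫ r in (0 : ℝ)..σ, c (s + r) (y + b r)))

theorem HiC_gm (c : ℝ → ℝ → ℝ) (s y σ : ℝ) : ∫⁻ b, HiC c s y σ b ∂Wm = Gm c s (s + σ) (fun _ => 1) y := by
  unfold Gm HiC
  refine lintegral_congr fun b => ?_
  rw [mul_one]
  have h := intervalIntegral.integral_comp_add_left (a := 0) (b := σ) (fun q => c q (y + b (q - s))) s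
  simp only [add_sub_cancel_left, add_zero] at h
  rw [h]

theorem HiC_meas {c : ℝ → ℝ → ℝ} (hc : Measurable (Function.uncurry c)) (s y : ℝ) {h : Pth → ℝ} (hh : Measurable h) :
    Measurable fun p : Pth × Pth => HiC c s y (h p.1) p.2 := by
  unfold HiC
  refine ENNReal.measurable_ofReal.comp (Real.measurable_exp.comp (Measurable.neg ?_))
  refine Hi_ivl (α := Pth × Pth) (F := fun p r => c (s + r) (y + p.2 r)) ?_ measurable_const (hh.comp measurable_fst)
  have h1 : Measurable fun p : (Pth × Pth) × ℝ => (s + p.2, y + p.1.2 p.2) :=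
    (measurable_const.add measurable_snd).prodMk
      (measurable_const.add (Pth.measurable_eval (measurable_snd.comp measurable_fst) measurable_snd))
  exact hc.comp h1

theorem Hi_pt {kb : ℂ → ℝ} (hkm : Measurable kb) (hk0 : ∀ z, 0 ≤ kb z) (hk1 : ∀ z, kb z ≤ 1) {s t D μ σ : ℝ} (x : ℂ)
    {c : ℝ → ℝ → ℝ} (hc : Measurable (Function.uncurry c)) (hc0 : ∀ q y, 0 ≤ c q y)
    (hc1 : ∀ q, s ≤ q → q ≤ t → ∀ y, c q y ≤ 1)
    (hkc : ∀ q, s ≤ q → q ≤ t → ∀ z : ℂ, z.re ≤ x.re + D + μ * (q - s) → kb z ≤ 1 - c q z.im)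
    (h0 : 0 ≤ σ) (h1 : σ ≤ t - s) (w : P2) (hw : ∀ r, 0 ≤ r → r ≤ σ → w.1 r ≤ D + μ * r) :
    Real.exp (∫ r in (0 : ℝ)..σ, kb (x + pt w r)) ≤
      Real.exp σ * Real.exp (-∫ r in (0 : ℝ)..σ, c (s + r) (x.im + w.2 r)) := by
  rw [← Real.exp_add]
  refine Real.exp_le_exp.2 ?_
  have hpm : Measurable fun r : ℝ => pt w r := (pt_cont w).measurable
  have hi1 : IntervalIntegrable (fun r => kb (x + pt w r)) volume 0 σ := by
    rw [intervalIntegrable_iff]
    refine Measure.integrableOn_of_bounded (M := 1) ?_ (hkm.comp (measurable_const.add hpm)).aestronglyMeasurable ?_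
    · simp [uIoc, Real.volume_Ioc]
    · exact Filter.Eventually.of_forall fun r => by
        rw [Real.norm_eq_abs, abs_of_nonneg (hk0 _)]; exact hk1 _
  have hcm : Measurable fun r : ℝ => c (s + r) (x.im + w.2 r) := by
    have h1 : Measurable fun r : ℝ => (s + r, x.im + w.2 r) :=
      (measurable_const.add measurable_id).prodMk (measurable_const.add w.2.continuous.measurable)
    exact hc.comp h1
  have hi2 : IntervalIntegrable (fun r => c (s + r) (x.im + w.2 r)) volume 0 σ := by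
    rw [intervalIntegrable_iff]
    refine Measure.integrableOn_of_bounded (M := 1) ?_ hcm.aestronglyMeasurable ?_
    · simp [uIoc, Real.volume_Ioc]
    · rw [uIoc_of_le h0]
      refine (ae_restrict_iff' measurableSet_Ioc).2 (Filter.Eventually.of_forall fun r hr => ?_)
      rw [Real.norm_eq_abs, abs_of_nonneg (hc0 _ _)]
      exact hc1 _ (by linarith [hr.1]) (by linarith [hr.2]) _
  have h3 : ∫ r in (0 : ℝ)..σ, kb (x + pt w r) ≤ ∫ r in (0 : ℝ)..σ, (1 - c (s + r) (x.im + w.2 r)) := by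
    refine intervalIntegral.integral_mono_on h0 hi1 (intervalIntegrable_const.sub hi2) fun r hr => ?_
    have h4 := hkc (s + r) (by linarith [hr.1]) (by linarith [hr.2]) (x + pt w r) (by
      have := hw r hr.1 hr.2
      simp only [pt, Complex.add_re]
      linarith [mul_comm μ r, show μ * (s + r - s) = μ * r by ring])
    simpa [pt] using h4
  rw [intervalIntegral.integral_sub intervalIntegrable_const hi2] at h3
  simp only [intervalIntegral.integral_const, smul_eq_mul, mul_one, sub_zero] at h3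
  linarith

/-- **hitting inequality** -/
theorem hi {kb : ℂ → ℝ} {s t : ℝ} (hst : s < t) {u : ℝ → ℂ → ℝ} (hu : SubFK kb s t u) {D : ℝ} (μ : ℝ) (hD : 0 < D)
    {Θ : ℝ → ℝ → ℝ} (hΘ : Continuous (Function.uncurry Θ)) (hΘ0 : ∀ q z, 0 ≤ Θ q z) (hΘ1 : ∀ q z, Θ q z ≤ 1)
    (huΘ : ∀ q, s ≤ q → q ≤ t → ∀ z, u q z ≤ Θ q z.re) (x : ℂ)
    {c : ℝ → ℝ → ℝ} (hc : Measurable (Function.uncurry c)) (hc0 : ∀ q y, 0 ≤ c q y)
    (hc1 : ∀ q, s ≤ q → q ≤ t → ∀ y, c q y ≤ 1)
    (hkc : ∀ q, s ≤ q → q ≤ t → ∀ z : ℂ, z.re ≤ x.re + D + μ * (q - s) → kb z ≤ 1 - c q z.im)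
    {U : ℝ → ℝ≥0∞} (hU : Measurable U)
    (huU : ∀ z : ℂ, z.re < x.re + D + μ * (t - s) → ENNReal.ofReal (u t z) ≤ U (x.re + D + μ * (t - s) - z.re)) :
    ENNReal.ofReal (u s x) ≤
      (∫⁻ σ in Ioc 0 (t - s), ENNReal.ofReal (fpd μ D σ * Real.exp σ * Θ (s + σ) (x.re + D + μ * σ)) *
        Gm c s (s + σ) (fun _ => 1) x.im) +
      ENNReal.ofReal (Real.exp (t - s)) *
        (∫⁻ d in Ioi (0 : ℝ), ENNReal.ofReal (Real.exp (μ * (d - D) - μ ^ 2 * (t - s) / 2) * kk (t - s) D d) * U d) *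
        Gm c s t (fun _ => 1) x.im := by
  have hT : 0 < t - s := by linarith
  refine (hi0 hst hu μ hD hΘ hΘ0 hΘ1 huΘ x).trans (add_le_add ?_ ?_)
  · -- hit part
    set f : ℝ → ℝ≥0∞ := fun σ => ENNReal.ofReal (Real.exp σ * Θ (s + σ) (x.re + D + μ * σ)) *
      Gm c s (s + σ) (fun _ => 1) x.im with hf
    have hfm0 : Measurable fun σ : ℝ => ENNReal.ofReal (Real.exp σ * Θ (s + σ) (x.re + D + μ * σ)) := by
      refine ENNReal.measurable_ofReal.comp (Real.measurable_exp.mul ?_)
      have h1 : Continuous fun σ : ℝ => (s + σ, x.re + D + μ * σ) := by fun_prop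
      exact (hΘ.comp h1).measurable
    have hfm : Measurable f := by
      refine hfm0.mul ?_
      have h1 : Measurable fun σ : ℝ => (s, s + σ, x.im) :=
        measurable_const.prodMk ((measurable_const.add measurable_id).prodMk measurable_const)
      exact (Gm_meas hc measurable_const).comp h1
    have e1 : ∫⁻ σ in Ioc 0 (t - s), ENNReal.ofReal (fpd μ D σ * Real.exp σ * Θ (s + σ) (x.re + D + μ * σ)) *
        Gm c s (s + σ) (fun _ => 1) x.im = ∫⁻ σ in Ioc 0 (t - s), f σ * ENNReal.ofReal (fpd μ D σ) := by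
      refine lintegral_congr fun σ => ?_
      rw [hf, mul_assoc (fpd μ D σ), ENNReal.ofReal_mul (fpd_nonneg hD.le)]
      ring
    rw [e1, ← hit_lint μ hT hD hfm]
    have e2 : ∫⁻ w in {w : P2 | w.1 ∉ Blw D μ (t - s)}, ENNReal.ofReal
        (Real.exp (∫ r in (0 : ℝ)..(hit D μ w.1), kb (x + pt w r)) *
          Θ (s + hit D μ w.1) (x.re + D + μ * hit D μ w.1)) ∂W2 ≤
        ∫⁻ w in {w : P2 | w.1 ∈ (Blw D μ (t - s))ᶜ},
          ENNReal.ofReal (Real.exp (hit D μ w.1) * Θ (s + hit D μ w.1) (x.re + D + μ * hit D μ w.1)) *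
          HiC c s x.im (hit D μ w.1) w.2 ∂W2 := by
      refine setLIntegral_mono' (measurable_fst (blw_meas D μ (t - s)).compl) fun w hw => ?_
      obtain ⟨h1, h2, h3, h4⟩ := hit_spec (μ := μ) hD hT.le (w := w.1) hw
      unfold HiC
      rw [← ENNReal.ofReal_mul (mul_nonneg (Real.exp_pos _).le (hΘ0 _ _))]
      refine ENNReal.ofReal_le_ofReal ?_
      have h5 := Hi_pt hu.kmeas hu.knonneg hu.kle (s := s) (t := t) (D := D) (μ := μ) x hc hc0 hc1 hkc h1.le h2 w (by
        intro r hr0 hr1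
        rcases hr1.lt_or_eq with h | h
        · exact ((h4 r hr0 (hr1.trans h2)).2 h r ⟨hr0, le_rfl⟩).le
        · rw [h]; exact h3.le)
      calc _ ≤ (Real.exp (hit D μ w.1) * Real.exp (-∫ r in (0 : ℝ)..(hit D μ w.1), c (s + r) (x.im + w.2 r))) *
            Θ (s + hit D μ w.1) (x.re + D + μ * hit D μ w.1) := mul_le_mul_of_nonneg_right h5 (hΘ0 _ _)
        _ = _ := by ring
    refine e2.trans (le_of_eq ?_)
    have hhm := hit_meas' D μ
    rw [Hi_prod (S := (Blw D μ (t - s))ᶜ) (F := fun a b =>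
      ENNReal.ofReal (Real.exp (hit D μ a) * Θ (s + hit D μ a) (x.re + D + μ * hit D μ a)) *
          HiC c s x.im (hit D μ a) b)
      ((hfm0.comp (hhm.comp measurable_fst)).mul (HiC_meas hc s x.im hhm))]
    refine lintegral_congr fun a => ?_
    have hm : Measurable fun b : Pth => HiC c s x.im (hit D μ a) b :=
      (HiC_meas hc s x.im (h := fun _ => hit D μ a) measurable_const).comp (measurable_prodMk_left (x := a))
    rw [lintegral_const_mul _ hm, HiC_gm]
  · -- the part that stays below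
    have e2 : ∫⁻ w in {w : P2 | w.1 ∈ Blw D μ (t - s)}, ENNReal.ofReal
        (Real.exp (∫ r in (0 : ℝ)..(t - s), kb (x + pt w r)) * u t (x + pt w (t - s))) ∂W2 ≤
        ∫⁻ w in {w : P2 | w.1 ∈ Blw D μ (t - s)},
          (ENNReal.ofReal (Real.exp (t - s)) * U (D + μ * (t - s) - w.1 (t - s))) *
          HiC c s x.im (t - s) w.2 ∂W2 := by
      refine setLIntegral_mono' (measurable_fst (blw_meas D μ (t - s))) fun w hw => ?_
      have hw' : ∀ r ∈ Icc (0 : ℝ) (t - s), w.1 r < D + μ * r := hw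
      unfold HiC
      have h5 := Hi_pt hu.kmeas hu.knonneg hu.kle (s := s) (t := t) (D := D) (μ := μ) x hc hc0 hc1 hkc hT.le le_rfl w
        (fun r hr0 hr1 => (hw' r ⟨hr0, hr1⟩).le)
      have h6 := huU (x + pt w (t - s)) (by
        have := hw' (t - s) ⟨hT.le, le_rfl⟩
        simp only [pt, Complex.add_re]
        linarith)
      have h7 : x.re + D + μ * (t - s) - (x + pt w (t - s)).re = D + μ * (t - s) - w.1 (t - s) := by
        simp only [pt, Complex.add_re]; ring
      rw [h7] at h6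
      rw [ENNReal.ofReal_mul (Real.exp_pos _).le]
      calc _ ≤ ENNReal.ofReal (Real.exp (t - s) * Real.exp (-∫ r in (0 : ℝ)..(t - s), c (s + r) (x.im + w.2 r))) *
            U (D + μ * (t - s) - w.1 (t - s)) := mul_le_mul' (ENNReal.ofReal_le_ofReal h5) h6
        _ = _ := by rw [ENNReal.ofReal_mul (Real.exp_pos _).le]; ring
    refine e2.trans (le_of_eq ?_)
    have hum : Measurable fun a : Pth => ENNReal.ofReal (Real.exp (t - s)) * U (D + μ * (t - s) - a (t - s)) :=
      measurable_const.mul (hU.comp (measurable_const.sub (Pth.measurable_apply (t - s))))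
    have hCm : Measurable fun b : Pth => HiC c s x.im (t - s) b :=
      (HiC_meas hc s x.im (h := fun _ => t - s) measurable_const).comp (measurable_prodMk_left (x := (default : Pth)))
    have hCm2 : Measurable fun p : Pth × Pth => HiC c s x.im (t - s) p.2 := hCm.comp measurable_snd
    rw [Hi_prod (S := Blw D μ (t - s)) (F := fun a b =>
      (ENNReal.ofReal (Real.exp (t - s)) * U (D + μ * (t - s) - a (t - s))) * HiC c s x.im (t - s) b)
      ((hum.comp measurable_fst).mul hCm2)]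
    have e3 : ∀ a : Pth, ∫⁻ b, (ENNReal.ofReal (Real.exp (t - s)) * U (D + μ * (t - s) - a (t - s))) *
        HiC c s x.im (t - s) b ∂Wm = ENNReal.ofReal (Real.exp (t - s)) * U (D + μ * (t - s) - a (t - s)) *
        Gm c s t (fun _ => 1) x.im := by
      intro a
      rw [lintegral_const_mul _ hCm, HiC_gm, add_sub_cancel]
    simp only [e3]
    have hum0 : Measurable fun a : Pth => U (D + μ * (t - s) - a (t - s)) :=
      hU.comp (measurable_const.sub (Pth.measurable_apply (t - s)))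
    rw [lintegral_mul_const _ hum, lintegral_const_mul _ hum0, kline μ hT hD hU]
    congr 2
    refine lintegral_congr fun d => ?_
    rw [mul_comm]

/-- killing on a line of slope `√2` costs `exp (-√2 K)` -/
theorem hik {kb : ℂ → ℝ} {s t : ℝ} (hst : s < t) {u : ℝ → ℂ → ℝ} (hu : SubFK kb s t u) {K : ℝ} (hK : 0 < K) (x : ℂ) :
    ENNReal.ofReal (u s x) ≤ ENNReal.ofReal (Real.exp (-√2 * K)) +
      ∫⁻ w in {w : P2 | w.1 ∈ Blw K √2 (t - s)}, ENNReal.ofReal
        (Real.exp (∫ r in (0 : ℝ)..(t - s), kb (x + pt w r)) * u t (x + pt w (t - s))) ∂W2 := by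
  have hT : 0 < t - s := by linarith
  refine (hi0 hst hu √2 hK (Θ := fun _ _ => 1) (by
    have : (Function.uncurry fun _ _ : ℝ => (1 : ℝ)) = fun _ => 1 := by ext p; rfl
    rw [this]; exact continuous_const) (fun _ _ => zero_le_one) (fun _ _ => le_rfl)
    (fun q _ _ z => hu.le_one q z) x).trans (add_le_add ?_ le_rfl)
  have hhm := hit_meas' K √2
  have hem : Measurable fun σ : ℝ => ENNReal.ofReal (Real.exp σ) := ENNReal.measurable_ofReal.comp Real.measurable_exp
  have e2 : ∫⁻ w in {w : P2 | w.1 ∉ Blw K √2 (t - s)}, ENNReal.ofReal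
      (Real.exp (∫ r in (0 : ℝ)..(hit K √2 w.1), kb (x + pt w r)) * 1) ∂W2 ≤
      ∫⁻ w in {w : P2 | w.1 ∈ (Blw K √2 (t - s))ᶜ}, ENNReal.ofReal (Real.exp (hit K √2 w.1)) ∂W2 := by
    refine setLIntegral_mono' (measurable_fst (blw_meas K √2 (t - s)).compl) fun w hw => ?_
    obtain ⟨h1, h2, h3, h4⟩ := hit_spec (μ := √2) hK hT.le (w := w.1) hw
    refine ENNReal.ofReal_le_ofReal ?_
    rw [mul_one]
    have h5 := Hi_pt hu.kmeas hu.knonneg hu.kle (s := s) (t := t) (D := K) (μ := √2) x (c := fun _ _ => 0)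
      (by
        have : (Function.uncurry fun _ _ : ℝ => (0 : ℝ)) = fun _ => 0 := by ext p; rfl
        rw [this]; exact measurable_const) (fun _ _ => le_rfl) (fun _ _ _ _ => zero_le_one)
      (fun _ _ _ z _ => by rw [sub_zero]; exact hu.kle z) h1.le h2 w (by
        intro r hr0 hr1
        rcases hr1.lt_or_eq with h | h
        · exact ((h4 r hr0 (hr1.trans h2)).2 h r ⟨hr0, le_rfl⟩).le
        · rw [h]; exact h3.le)
    simpa using h5
  refine e2.trans ?_
  rw [Hi_prod (S := (Blw K √2 (t - s))ᶜ) (F := fun a _ => ENNReal.ofReal (Real.exp (hit K √2 a)))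
    (hem.comp (hhm.comp measurable_fst))]
  simp only [lintegral_const, measure_univ, mul_one]
  rw [hit_lint √2 hT hK (f := fun σ => ENNReal.ofReal (Real.exp σ)) hem]
  have e3 : ∫⁻ σ in Ioc 0 (t - s), ENNReal.ofReal (Real.exp σ) * ENNReal.ofReal (fpd √2 K σ) =
      ∫⁻ σ in Ioc 0 (t - s), ENNReal.ofReal (Real.exp (-√2 * K)) * ENNReal.ofReal (fpd 0 K σ) := by
    refine setLIntegral_congr_fun measurableSet_Ioc fun σ hσ => ?_
    have hσ0 : σ ≠ 0 := hσ.1.ne'
    rw [← ENNReal.ofReal_mul (Real.exp_pos _).le, ← ENNReal.ofReal_mul (Real.exp_pos _).le]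
    congr 1
    unfold fpd
    have h2 : √2 ^ 2 = (2 : ℝ) := Real.sq_sqrt (by norm_num)
    have h1 : Real.exp σ * Real.exp (-(K + √2 * σ) ^ 2 / (2 * σ)) =
        Real.exp (-√2 * K) * Real.exp (-(K + 0 * σ) ^ 2 / (2 * σ)) := by
      rw [← Real.exp_add, ← Real.exp_add]
      congr 1
      field_simp
      ring_nf
      rw [h2]
      ring
    calc _ = K * (√(2 * Real.pi * σ ^ 3))⁻¹ * (Real.exp σ * Real.exp (-(K + √2 * σ) ^ 2 / (2 * σ))) := by ring
      _ = _ := by rw [h1]; ring
  rw [e3]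
  have hfm : Measurable fun σ : ℝ => ENNReal.ofReal (fpd 0 K σ) := by
    unfold fpd
    fun_prop
  rw [lintegral_const_mul _ hfm]
  calc _ ≤ ENNReal.ofReal (Real.exp (-√2 * K)) * 1 := by
        refine mul_le_mul' le_rfl (le_trans ?_ (fpd_mass hK))
        exact lintegral_mono_set fun σ hσ => hσ.1
    _ = _ := mul_one _

end Pool.H50.BB
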