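import Pool.Agent.H50.BB.Ca4
import Pool.Agent.H50.BB.Hi

/-!
# Row Ca5: the a priori bound by bootstrap   (about 230 lines)

Constants: `C` of `ca_hits`, `ca_last`; first choose `ℓ` with `C1 C e^{-√2} ℓ^{-1/2}(1 + log(ℓ+1)) ≤ 1/8`, then `j1 ≥ max 8 (4ℓ) ...` with `C1 C e^{-√2} j^{-1/2} log(j+2)^{3/2} ≤ 1/8` for `j ≥ j1`
(we need the total coefficient of `A` to be at most `1/2`: factor 2 since `D = X+1 ≤ 2... ` see below), then `A` large.
Claim by induction on `n : ℕ`: for all instances with `t - s ≤ n` and all `x`: `u s x ≤ A (1 + max 0 X) e^{-√2 X}`, `X = z - x.re - MM s t`.  (If `X ≤ 0`: `u ≤ 1 ≤ A e^{-√2 X}`.)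
Small times `j = t - s ≤ j1` (any `X > 0`): `u s x ≤ PK kb s t (u t) x ≤ e^j P(x.re + w j > z) ≤ e^j e^{-√2 (z - x.re)} E e^{√2 w_j} = e^{2j} e^{-√2 (z-x.re)}` (only the first coordinate matters: `u t ≤ 1{re > z}`,
`kb ≤ 1`; `j = 0`: `u s x = 0` if `x.re ≤ z`), `= e^{√2 Nn} e^{-√2 X}` (`MM = √2 j - Nn`), `Nn ≤ Λ √j1 + 2 log(j1+1)`: bounded by a constant `≤ A`.
Step `j ≥ j1 ≥ 8`, `X > 0`, the claim known for all start times `q ∈ [s+1,t]` (same `t, z, u`: `t - q ≤ n-1`).  `D = X + 1`, `μ = mu s t`: the line `x.re + D + μ(q-s)` is `z` at `q = t` and `z - MM s t + 1 ≤ L s` at `q = s`, so by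
concavity of `L` (and `z + 1 ≤ L t`, `MM t t = 0`) it is `≤ L q`: hypothesis `hkc` of `hi`.
`Θ q z' = min 1 (A (1 + max 0 X') e^{-√2 X'} + max 0 (s + 2 - q))`, `X' = z - z' - MM (clamp q) t`, `clamp q = max s (min q t)`: continuous (`κ` is continuous on `[s0,∞)`), `u q z ≤ Θ q z.re`: for `q ≤ s+1` the last term is
`≥ 1`; for `q ≥ s+1` by the induction hypothesis.  `U = 0` (`u t z = 0` for `z.re < z0`).  On the line at time `s+σ`: `X' = Xs s t σ`.
`hi`: `u s x ≤ ∫ fpd μ D σ e^σ Θ_σ Gm c s (s+σ) 1` and `Gm ≤ C1 Gf`.  `ca_hits` + `ca_last`, for `σ ≥ 2`: `Θ_σ ≤ A(..)`: total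
`≤ C1 C e^{-√2(X+1)} [(1 + D^γ) + A D (j^{-1/2} log^{3/2} + ℓ^{-1/2}(1+log)) + (ℓ+1)^4 D]`, `D^γ ≤ D`, `1 ≤ D`, `D = 1 + X`: `≤ (C'' + A/2)(1+X) e^{-√2 X} ≤ A (1+X) e^{-√2 X}` for `A ≥ 2C''`
(choose the two small constants so that the sum is `≤ 1/2`).
-/

open MeasureTheory ProbabilityTheory Set Filter Topology
open scoped NNReal ENNReal

namespace Pool.H50.BB

open Pool.Agent.H4.BM

/-- an instance: rate, lower potential and region -/
structure Inst (κ : ℝ → ℝ) (γ s0 C1 : ℝ) (kb : ℂ → ℝ) (c : ℝ → ℝ → ℝ) (L : ℝ → ℝ) : Prop where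
  cmeas : Measurable (Function.uncurry c)
  c0 : ∀ q y, 0 ≤ c q y
  c1 : ∀ q, s0 ≤ q → ∀ y, c q y ≤ 1
  kc : ∀ q, s0 ≤ q → ∀ z : ℂ, z.re ≤ L q → kb z ≤ 1 - c q z.im
  conc : ∀ s s' t, s0 ≤ s → s ≤ s' → s' ≤ t → (t - s') * L s + (s' - s) * L t ≤ (t - s) * L s'
  gm : ∀ s s', s0 ≤ s → s ≤ s' → ∀ y, Gm c s s' (fun _ => 1) y ≤ ENNReal.ofReal (C1 * Gf κ γ s s')

theorem Ca5_a {x : ℝ} (hx : 2 ≤ x) :
    x ^ (-(1 / 2 : ℝ)) * (1 + Real.log (x + 1)) ≤ 9 * x ^ (-(1 / 4 : ℝ)) := by
  have hx0 : 0 < x := by linarith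
  have h1 : Real.log x ≤ x ^ (1 / 4 : ℝ) / (1 / 4) := Real.log_le_rpow_div hx0.le (by norm_num)
  have h2 : Real.log (x + 1) ≤ 2 * Real.log x := by
    have e : 2 * Real.log x = Real.log (x ^ 2) := by
      rw [Real.log_pow]
      norm_num
    rw [e]
    exact Real.log_le_log (by linarith) (by nlinarith)
  have h3 : 1 ≤ x ^ (1 / 4 : ℝ) := Real.one_le_rpow (by linarith) (by norm_num)
  have h4 : 1 + Real.log (x + 1) ≤ 9 * x ^ (1 / 4 : ℝ) := by linarith
  have e : x ^ (-(1 / 4 : ℝ)) = x ^ (-(1 / 2 : ℝ)) * x ^ (1 / 4 : ℝ) := by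
    rw [← Real.rpow_add hx0]
    norm_num
  rw [e]
  have h5 := mul_le_mul_of_nonneg_left h4 (Real.rpow_nonneg hx0.le (-(1 / 2 : ℝ)))
  linarith

theorem Ca5_b {x : ℝ} (hx : 2 ≤ x) :
    x ^ (-(1 / 2 : ℝ)) * Real.log (x + 2) ^ (3 / 2 : ℝ) ≤ 144 * x ^ (-(1 / 4 : ℝ)) := by
  have hx0 : 0 < x := by linarith
  have h1 : Real.log x ≤ x ^ (1 / 6 : ℝ) / (1 / 6) := Real.log_le_rpow_div hx0.le (by norm_num)
  have h2 : Real.log (x + 2) ≤ 2 * Real.log x := by
    have e : 2 * Real.log x = Real.log (x ^ 2) := by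
      rw [Real.log_pow]
      norm_num
    rw [e]
    exact Real.log_le_log (by linarith) (by nlinarith)
  have h3 : Real.log (x + 2) ≤ 12 * x ^ (1 / 6 : ℝ) := by linarith
  have h0 : 0 ≤ Real.log (x + 2) := Real.log_nonneg (by linarith)
  have h4 : Real.log (x + 2) ^ (3 / 2 : ℝ) ≤ 144 * x ^ (1 / 4 : ℝ) := by
    refine (Real.rpow_le_rpow h0 h3 (by norm_num)).trans ?_
    rw [Real.mul_rpow (by norm_num) (Real.rpow_nonneg hx0.le _), ← Real.rpow_mul hx0.le]
    have e1 : (1 / 6 : ℝ) * (3 / 2) = 1 / 4 := by norm_num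
    rw [e1]
    refine mul_le_mul_of_nonneg_right ?_ (Real.rpow_nonneg hx0.le _)
    have h5 : (12 : ℝ) ^ (3 / 2 : ℝ) ≤ (12 : ℝ) ^ (2 : ℝ) :=
      Real.rpow_le_rpow_of_exponent_le (by norm_num) (by norm_num)
    refine h5.trans (le_of_eq ?_)
    norm_num
  have e : x ^ (-(1 / 4 : ℝ)) = x ^ (-(1 / 2 : ℝ)) * x ^ (1 / 4 : ℝ) := by
    rw [← Real.rpow_add hx0]
    norm_num
  rw [e]
  have h5 := mul_le_mul_of_nonneg_left h4 (Real.rpow_nonneg hx0.le (-(1 / 2 : ℝ)))
  linarith

theorem Ca5_c (K ε : ℝ) (hε : 0 < ε) : ∃ x0 : ℝ, 2 ≤ x0 ∧ ∀ x : ℝ, x0 ≤ x →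
    K * x ^ (-(1 / 4 : ℝ)) ≤ ε := by
  have h1 := (tendsto_rpow_neg_atTop (show (0 : ℝ) < 1 / 4 by norm_num)).const_mul K
  rw [mul_zero] at h1
  obtain ⟨a, ha⟩ := Filter.eventually_atTop.1 (h1.eventually_le_const hε)
  exact ⟨max a 2, le_max_right _ _, fun x hx => ha x ((le_max_left _ _).trans hx)⟩

theorem Ca5_law {h : ℝ} (hh : 0 < h) : Wm.map (fun w : Pth => w h) = gaussianReal 0 h.toNNReal := by
  have h1 := (IsPreBrownianReal.hasLaw_eval (B := fun (t : ℝ≥0) (A : Pth) => A t) Wm_isW h.toNNReal).map_eq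
  have hc : ((h.toNNReal : ℝ≥0) : ℝ) = h := Real.coe_toNNReal h hh.le
  rw [hc] at h1
  exact h1

theorem Ca5_exp {h : ℝ} (hh : 0 < h) :
    Integrable (fun w : P2 => Real.exp (√2 * w.1 h)) W2 ∧
      ∫ w : P2, Real.exp (√2 * w.1 h) ∂W2 = Real.exp h := by
  have hm : Measurable (fun w : Pth => w h) := Pth.measurable_apply _
  have hc : ((h.toNNReal : ℝ≥0) : ℝ) = h := Real.coe_toNNReal h hh.le
  have hI : Integrable (fun w : Pth => Real.exp (√2 * w h)) Wm := by
    have h1 : Integrable (fun x : ℝ => Real.exp (√2 * x)) (Wm.map (fun w : Pth => w h)) := by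
      rw [Ca5_law hh]
      exact integrable_exp_mul_gaussianReal _
    exact h1.comp_measurable hm
  have hE : ∫ w : Pth, Real.exp (√2 * w h) ∂Wm = Real.exp h := by
    have h1 : mgf (fun w : Pth => w h) Wm √2 = Real.exp (0 * √2 + h.toNNReal * √2 ^ 2 / 2) :=
      mgf_gaussianReal (p := Wm) (X := fun w : Pth => w h) (Ca5_law hh) √2
    unfold mgf at h1
    rw [h1, hc, Real.sq_sqrt (by norm_num)]
    congr 1
    ring
  refine ⟨hI.comp_fst Wm, ?_⟩
  have h2 := integral_fun_fst (μ := Wm) (ν := Wm) (fun w : Pth => Real.exp (√2 * w h))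
  unfold W2
  rw [h2, hE]
  simp

/-- small times -/
theorem Ca5_small {kb : ℂ → ℝ} {s t z : ℝ} (hst : s < t) {u : ℝ → ℂ → ℝ} (hu : SubFK kb s t u)
    (hz : ∀ x : ℂ, x.re ≤ z → u t x = 0) (x : ℂ) :
    u s x ≤ Real.exp (2 * (t - s)) * Real.exp (-√2 * (z - x.re)) := by
  have hT : 0 < t - s := by linarith
  obtain ⟨hI, hE⟩ := Ca5_exp hT
  refine (hu.sub s t le_rfl hst.le le_rfl x).trans ?_
  unfold PK
  have h1 : ∫ w : P2, Real.exp (∫ v in s..t, kb (x + pt w (v - s))) * u t (x + pt w (t - s)) ∂W2 ≤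
      ∫ w : P2, Real.exp (t - s) * Real.exp (-√2 * (z - x.re)) * Real.exp (√2 * w.1 (t - s)) ∂W2 := by
    refine integral_mono_of_nonneg ?_ (hI.const_mul _) ?_
    · exact Filter.Eventually.of_forall fun w => mul_nonneg (Real.exp_pos _).le (hu.nonneg _ _)
    · refine Filter.Eventually.of_forall fun w => ?_
      have a1 : ∫ v in s..t, kb (x + pt w (v - s)) ≤ t - s := by
        have h := intervalIntegral.norm_integral_le_of_norm_le_const (a := s) (b := t) (C := 1)
          (f := fun v => kb (x + pt w (v - s)))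
          (fun v _ => by rw [Real.norm_of_nonneg (hu.knonneg _)]; exact hu.kle _)
        rw [one_mul, abs_of_pos hT] at h
        exact (le_abs_self _).trans h
      have a2 : u t (x + pt w (t - s)) ≤ Real.exp (√2 * (x.re + w.1 (t - s) - z)) := by
        have e : (x + pt w (t - s)).re = x.re + w.1 (t - s) := by simp [pt]
        by_cases hc : x.re + w.1 (t - s) ≤ z
        · rw [hz _ (by rw [e]; exact hc)]
          exact (Real.exp_pos _).le
        · refine (hu.le_one _ _).trans (Real.one_le_exp ?_)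
          have := Real.sqrt_nonneg 2
          have h2 : 0 ≤ x.re + w.1 (t - s) - z := by linarith [not_le.1 hc]
          positivity
      have e2 : Real.exp (t - s) * Real.exp (-√2 * (z - x.re)) * Real.exp (√2 * w.1 (t - s)) =
          Real.exp (t - s) * Real.exp (√2 * (x.re + w.1 (t - s) - z)) := by
        rw [mul_assoc, ← Real.exp_add]
        congr 2
        ring
      show Real.exp (∫ v in s..t, kb (x + pt w (v - s))) * u t (x + pt w (t - s)) ≤
        Real.exp (t - s) * Real.exp (-√2 * (z - x.re)) * Real.exp (√2 * w.1 (t - s))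
      rw [e2]
      exact mul_le_mul (Real.exp_le_exp.2 a1) a2 (hu.nonneg _ _) (Real.exp_pos _).le
  refine h1.trans (le_of_eq ?_)
  rw [integral_const_mul, hE]
  have e3 : Real.exp (2 * (t - s)) = Real.exp (t - s) * Real.exp (t - s) := by
    rw [← Real.exp_add]
    congr 1
    ring
  rw [e3]
  ring

theorem Ca5_MM {κ : ℝ → ℝ} {γ s t : ℝ} : MM κ γ s t = √2 * (t - s) - Nn κ γ s t := by
  unfold MM Nn
  ring

theorem Ca5_MMtt {κ : ℝ → ℝ} {γ t : ℝ} (ht : 0 < t) : MM κ γ t t = 0 := by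
  unfold MM
  rw [sub_self, sub_self, zero_add, Real.log_one, div_self ht.ne', Real.log_one]
  ring

theorem Ca5_Nn {κ : ℝ → ℝ} {γ Λ s0 : ℝ} (K : Kap κ γ Λ s0) {s t j1 : ℝ} (hs : s0 ≤ s) (hst : s ≤ t)
    (hj : t - s ≤ j1) : Nn κ γ s t ≤ Λ * √j1 + 3 / (2 * √2) * Real.log (j1 + 1) := by
  have h1 := K.grow s t hs hst
  have h2 : Λ * √(t - s) ≤ Λ * √j1 := mul_le_mul_of_nonneg_left (Real.sqrt_le_sqrt hj) K.Λ0
  have h3 : Real.log (t - s + 1) ≤ Real.log (j1 + 1) := Real.log_le_log (by linarith) (by linarith)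
  have h4 : 0 ≤ 3 / (2 * √2) := by positivity
  have h5 := mul_le_mul_of_nonneg_left h3 h4
  have hs1 := K.s1
  have h6 : 0 ≤ Real.log (t / s) := Real.log_nonneg (by rw [le_div_iff₀ (by linarith)]; linarith)
  have h7 : 0 ≤ γ / (2 * √2) := div_nonneg K.γ0 (by positivity)
  have h8 := mul_nonneg h7 h6
  unfold Nn
  linarith

/-- the majorant -/
noncomputable def Ca5_Th (κ : ℝ → ℝ) (γ s t z A : ℝ) (q ζ : ℝ) : ℝ :=
  min 1 (A * (1 + max 0 (z - ζ - MM κ γ (max s (min q t)) t)) *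
    Real.exp (-√2 * (z - ζ - MM κ γ (max s (min q t)) t)) + max 0 (s + 2 - q))

theorem Ca5_cont {κ : ℝ → ℝ} {γ Λ s0 : ℝ} (K : Kap κ γ Λ s0) {s t z A : ℝ} (hs : s0 ≤ s) (hst : s ≤ t) :
    Continuous (Function.uncurry (Ca5_Th κ γ s t z A)) := by
  have hs1 := K.s1
  have hp : Continuous fun q : ℝ => max s (min q t) := by fun_prop
  have hp1 : ∀ q : ℝ, s ≤ max s (min q t) := fun q => le_max_left _ _
  have hp2 : ∀ q : ℝ, max s (min q t) ≤ t := fun q => max_le hst (min_le_right _ _)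
  have hκ : Continuous fun q : ℝ => κ (max s (min q t)) :=
    K.cont.comp_continuous hp fun q => hs.trans (hp1 q)
  have hl1 : Continuous fun q : ℝ => Real.log (t - max s (min q t) + 1) := by
    refine Continuous.log (by fun_prop) fun q => ?_
    have := hp2 q
    have h : 0 < t - max s (min q t) + 1 := by linarith
    exact h.ne'
  have hl2 : Continuous fun q : ℝ => Real.log (t / max s (min q t)) := by
    refine Continuous.log (continuous_const.div hp fun q => ?_) fun q => ?_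
    · have := hp1 q
      have h : 0 < max s (min q t) := by linarith
      exact h.ne'
    · have := hp1 q
      have h : 0 < max s (min q t) := by linarith
      have h' : 0 < t := by linarith
      exact (div_pos h' h).ne'
  have hM : Continuous fun q : ℝ => MM κ γ (max s (min q t)) t := by
    unfold MM
    exact (((continuous_const.mul (continuous_const.sub hp)).sub (continuous_const.sub hκ)).sub
      (continuous_const.mul hl1)).add (continuous_const.mul hl2)
  have hM2 : Continuous fun p : ℝ × ℝ => z - p.2 - MM κ γ (max s (min p.1 t)) t :=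
    (continuous_const.sub continuous_snd).sub (hM.comp continuous_fst)
  have he : Function.uncurry (Ca5_Th κ γ s t z A) = fun p : ℝ × ℝ =>
      min 1 (A * (1 + max 0 (z - p.2 - MM κ γ (max s (min p.1 t)) t)) *
        Real.exp (-√2 * (z - p.2 - MM κ γ (max s (min p.1 t)) t)) + max 0 (s + 2 - p.1)) := rfl
  rw [he]
  refine continuous_const.min (Continuous.add (Continuous.mul ?_ ?_) ?_)
  · exact continuous_const.mul (continuous_const.add (continuous_const.max hM2))
  · exact Real.continuous_exp.comp (continuous_const.mul hM2)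
  · fun_prop

theorem Ca5_num {γ C1 Ch Cl l A X e : ℝ} (hγ1 : γ < 1) (hC1 : 0 < C1) (hCh : 0 < Ch)
    (hA : 0 < A) (hX : 0 < X) (he : C1 * Ch * e ≤ 1 / 2)
    (hA2 : 2 * C1 * (2 * Ch + Cl * (l + 1) ^ 4) ≤ A) :
    C1 * (Ch * Real.exp (-√2 * (X + 1)) * ((1 + (X + 1) ^ γ) + A * (X + 1) * e) +
      Cl * (l + 1) ^ 4 * (X + 1) * Real.exp (-√2 * (X + 1))) ≤ A * (1 + X) * Real.exp (-√2 * X) := by
  have h1 : (X + 1) ^ γ ≤ X + 1 := by
    have := Real.rpow_le_rpow_of_exponent_le (show 1 ≤ X + 1 by linarith) hγ1.le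
    rwa [Real.rpow_one] at this
  have h2 : Real.exp (-√2 * (X + 1)) ≤ Real.exp (-√2 * X) := by
    refine Real.exp_le_exp.2 ?_
    have := Real.sqrt_nonneg 2
    linarith
  set E := Real.exp (-√2 * (X + 1))
  have hE : 0 < E := Real.exp_pos _
  have hcc : 0 < C1 * Ch := mul_pos hC1 hCh
  have k1 : C1 * Ch * (1 + (X + 1) ^ γ) ≤ C1 * Ch * (2 * (X + 1)) :=
    mul_le_mul_of_nonneg_left (by linarith) hcc.le
  have k2 : A * (X + 1) * (C1 * Ch * e) ≤ A * (X + 1) * (1 / 2) :=
    mul_le_mul_of_nonneg_left he (by positivity)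
  have k3 : (X + 1) * (2 * C1 * (2 * Ch + Cl * (l + 1) ^ 4)) ≤ (X + 1) * A :=
    mul_le_mul_of_nonneg_left hA2 (by linarith)
  have k4 : C1 * Ch * (1 + (X + 1) ^ γ) + A * (X + 1) * (C1 * Ch * e) +
      C1 * Cl * (l + 1) ^ 4 * (X + 1) ≤ A * (1 + X) := by
    nlinarith
  calc C1 * (Ch * E * ((1 + (X + 1) ^ γ) + A * (X + 1) * e) + Cl * (l + 1) ^ 4 * (X + 1) * E)
      = (C1 * Ch * (1 + (X + 1) ^ γ) + A * (X + 1) * (C1 * Ch * e) +
        C1 * Cl * (l + 1) ^ 4 * (X + 1)) * E := by ring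
    _ ≤ (A * (1 + X)) * E := mul_le_mul_of_nonneg_right k4 hE.le
    _ ≤ A * (1 + X) * Real.exp (-√2 * X) := mul_le_mul_of_nonneg_left h2 (by positivity)

theorem boot (γ Λ C1 : ℝ) (hγ0 : 0 ≤ γ) (hγ1 : γ < 1) (hC1 : 0 < C1) : ∃ A ≥ (1 : ℝ),
    ∀ (κ : ℝ → ℝ) (s0 : ℝ) (kb : ℂ → ℝ) (c : ℝ → ℝ → ℝ) (L : ℝ → ℝ), Kap κ γ Λ s0 → Inst κ γ s0 C1 kb c L →
      ∀ (s t z : ℝ) (u : ℝ → ℂ → ℝ), s0 ≤ s → s ≤ t → SubFK kb s t u → (∀ x : ℂ, x.re ≤ z → u t x = 0) →
        (∀ q, s ≤ q → q ≤ t → z - MM κ γ q t + 1 ≤ L q) → ∀ x : ℂ,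
          u s x ≤ A * (1 + max 0 (z - x.re - MM κ γ s t)) * Real.exp (-√2 * (z - x.re - MM κ γ s t)) := by
  obtain ⟨Ch, hCh, hits⟩ := ca_hits γ Λ hγ0 hγ1
  obtain ⟨Cl, hCl, last⟩ := ca_last γ Λ hγ0 hγ1
  obtain ⟨l, hl2, hl⟩ := Ca5_c (9 * (C1 * Ch)) (1 / 4) (by norm_num)
  obtain ⟨j0, hj02, hj0⟩ := Ca5_c (144 * (C1 * Ch)) (1 / 4) (by norm_num)
  have hcc : 0 < C1 * Ch := mul_pos hC1 hCh
  set j1 : ℝ := max (max j0 (4 * l)) 8 with hj1
  have hj18 : 8 ≤ j1 := le_max_right _ _
  have hj14 : 4 * l ≤ j1 := (le_max_right _ _).trans (le_max_left _ _)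
  have hj1j : j0 ≤ j1 := (le_max_left _ _).trans (le_max_left _ _)
  set A : ℝ := max 1 (max (2 * C1 * (2 * Ch + Cl * (l + 1) ^ 4))
    (Real.exp (√2 * (Λ * √j1 + 3 / (2 * √2) * Real.log (j1 + 1))))) with hAdef
  have hA1 : 1 ≤ A := le_max_left _ _
  have hA2 : 2 * C1 * (2 * Ch + Cl * (l + 1) ^ 4) ≤ A := (le_max_left _ _).trans (le_max_right _ _)
  have hA3 : Real.exp (√2 * (Λ * √j1 + 3 / (2 * √2) * Real.log (j1 + 1))) ≤ A :=
    (le_max_right _ _).trans (le_max_right _ _)
  have hA0 : 0 < A := by linarith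
  have hsq : √2 * √2 = 2 := Real.mul_self_sqrt (by norm_num)
  have hsq0 : 0 < √2 := Real.sqrt_pos.2 (by norm_num)
  refine ⟨A, hA1, ?_⟩
  intro κ s0 kb c L K I
  have main : ∀ n : ℕ, ∀ (s t z : ℝ) (u : ℝ → ℂ → ℝ), t - s ≤ n → s0 ≤ s → s ≤ t → SubFK kb s t u →
      (∀ x : ℂ, x.re ≤ z → u t x = 0) → (∀ q, s ≤ q → q ≤ t → z - MM κ γ q t + 1 ≤ L q) → ∀ x : ℂ,
        u s x ≤ A * (1 + max 0 (z - x.re - MM κ γ s t)) * Real.exp (-√2 * (z - x.re - MM κ γ s t)) := by
    intro n
    induction n with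
    | zero =>
      intro s t z u hn hs hst hu hz hL x
      have hst' : s = t := by
        have : t - s ≤ 0 := by simpa using hn
        linarith
      subst hst'
      have hs0 : 0 < s := by linarith [K.s1]
      rw [Ca5_MMtt hs0]
      by_cases hx : x.re ≤ z
      · rw [hz x hx]
        positivity
      · have h1 : z - x.re - 0 ≤ 0 := by linarith [not_le.1 hx]
        rw [max_eq_left h1, add_zero, mul_one]
        have h2 : 1 ≤ Real.exp (-√2 * (z - x.re - 0)) := Real.one_le_exp (by nlinarith)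
        have h3 := hu.le_one s x
        nlinarith
    | succ n ih =>
      intro s t z u hn hs hst hu hz hL x
      have hs0 : 0 < s := by linarith [K.s1]
      have ht0 : 0 < t := by linarith
      set X : ℝ := z - x.re - MM κ γ s t with hXdef
      by_cases hX : X ≤ 0
      · rw [max_eq_left hX, add_zero, mul_one]
        have h2 : 1 ≤ Real.exp (-√2 * X) := Real.one_le_exp (by nlinarith)
        have h3 := hu.le_one s x
        nlinarith
      have hX0 : 0 < X := not_le.1 hX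
      rw [max_eq_right hX0.le]
      rcases hst.eq_or_lt with hst' | hst'
      · subst hst'
        rw [Ca5_MMtt hs0] at hXdef
        rw [hz x (by linarith)]
        positivity
      by_cases hj : t - s ≤ j1
      · have h1 := Ca5_small hst' hu hz x
        have h2 := Ca5_Nn K hs hst hj
        have e1 : z - x.re = X + MM κ γ s t := by rw [hXdef]; ring
        rw [e1, Ca5_MM, ← Real.exp_add] at h1
        have e2 : 2 * (t - s) + -√2 * (X + (√2 * (t - s) - Nn κ γ s t)) =
            √2 * Nn κ γ s t + -√2 * X := by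
          linear_combination -(t - s) * hsq
        rw [e2, Real.exp_add] at h1
        have h3 : Real.exp (√2 * Nn κ γ s t) ≤ A :=
          (Real.exp_le_exp.2 (mul_le_mul_of_nonneg_left h2 hsq0.le)).trans hA3
        have h4 := mul_le_mul_of_nonneg_right h3 (Real.exp_pos (-√2 * X)).le
        have h5 : A * Real.exp (-√2 * X) ≤ A * (1 + X) * Real.exp (-√2 * X) :=
          mul_le_mul_of_nonneg_right (by nlinarith) (Real.exp_pos _).le
        linarith
      have hj' : j1 < t - s := not_le.1 hj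
      have hj8 : 8 ≤ t - s := by linarith
      -- the line
      have hD : 0 < X + 1 := by linarith
      have hμ : mu κ γ s t * (t - s) = MM κ γ s t - 1 := by
        unfold mu
        exact div_mul_cancel₀ _ (by linarith)
      have hz1 : z + 1 ≤ L t := by
        have := hL t hst le_rfl
        rw [Ca5_MMtt ht0] at this
        linarith
      have hLs := hL s le_rfl hst
      have hline : ∀ q, s ≤ q → q ≤ t → x.re + (X + 1) + mu κ γ s t * (q - s) ≤ L q := by
        intro q hq1 hq2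
        have h1 := I.conc s q t hs hq1 hq2
        have h2 : (t - s) * (x.re + (X + 1) + mu κ γ s t * (q - s)) =
            (t - q) * (z - MM κ γ s t + 1) + (q - s) * z := by
          have e : x.re + (X + 1) = z - MM κ γ s t + 1 := by rw [hXdef]; ring
          rw [e]
          linear_combination (q - s) * hμ
        have h3 : (t - q) * (z - MM κ γ s t + 1) ≤ (t - q) * L s :=
          mul_le_mul_of_nonneg_left hLs (by linarith)
        have h4 : (q - s) * z ≤ (q - s) * L t := mul_le_mul_of_nonneg_left (by linarith) (by linarith)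
        exact le_of_mul_le_mul_left (by linarith) (show 0 < t - s by linarith)
      -- the majorant
      have hTh0 : ∀ q ζ, 0 ≤ Ca5_Th κ γ s t z A q ζ := by
        intro q ζ
        unfold Ca5_Th
        refine le_min zero_le_one ?_
        have h1 := le_max_left 0 (z - ζ - MM κ γ (max s (min q t)) t)
        have h2 := le_max_left 0 (s + 2 - q)
        positivity
      have hTh1 : ∀ q ζ, Ca5_Th κ γ s t z A q ζ ≤ 1 := fun q ζ => min_le_left _ _
      have huTh : ∀ q, s ≤ q → q ≤ t → ∀ y : ℂ, u q y ≤ Ca5_Th κ γ s t z A q y.re := by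
        intro q hq1 hq2 y
        unfold Ca5_Th
        refine le_min (hu.le_one q y) ?_
        rw [min_eq_left hq2, max_eq_right hq1]
        by_cases hq : q ≤ s + 1
        · have h1 : 1 ≤ max 0 (s + 2 - q) := le_max_of_le_right (by linarith)
          have h2 := le_max_left 0 (z - y.re - MM κ γ q t)
          have h3 : 0 ≤ A * (1 + max 0 (z - y.re - MM κ γ q t)) *
              Real.exp (-√2 * (z - y.re - MM κ γ q t)) := by positivity
          have h4 := hu.le_one q y
          linarith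
        · have hq' : s + 1 < q := not_le.1 hq
          have hsub : SubFK kb q t u :=
            { kmeas := hu.kmeas
              knonneg := hu.knonneg
              kle := hu.kle
              meas := hu.meas
              nonneg := hu.nonneg
              le_one := hu.le_one
              sub := fun a b h1 h2 h3 => hu.sub a b (hq1.trans h1) h2 h3 }
          have hn' : t - q ≤ n := by
            push_cast at hn
            linarith
          have h1 := ih q t z u hn' (hs.trans hq1) hq2 hsub hz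
            (fun a h1 h2 => hL a (hq1.trans h1) h2) y
          have h2 := le_max_left 0 (s + 2 - q)
          linarith
      have hThx : ∀ σ, 2 ≤ σ → σ ≤ t - s →
          Ca5_Th κ γ s t z A (s + σ) (x.re + (X + 1) + mu κ γ s t * σ) ≤
            A * (1 + max 0 (Xs κ γ s t σ)) * Real.exp (-√2 * Xs κ γ s t σ) := by
        intro σ h2 hσ
        have e1 : max s (min (s + σ) t) = s + σ := by
          rw [min_eq_left (by linarith), max_eq_right (by linarith)]
        have e2 : z - (x.re + (X + 1) + mu κ γ s t * σ) - MM κ γ (s + σ) t = Xs κ γ s t σ := by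
          unfold Xs
          rw [Ca5_MM (s := s + σ)]
          have e3 : mu κ γ s t = √2 - (Nn κ γ s t + 1) / (t - s) := mu_eq hst'
          have e4 : MM κ γ s t = √2 * (t - s) - Nn κ γ s t := Ca5_MM
          rw [hXdef, e3, e4]
          have hts : t - s ≠ 0 := by linarith
          field_simp
          ring
        have e5 : max 0 (s + 2 - (s + σ)) = 0 := max_eq_left (by linarith)
        unfold Ca5_Th
        rw [e1, e2, e5, add_zero]
        exact min_le_right _ _
      -- the hitting inequality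
      have h1 := hi hst' hu (mu κ γ s t) hD (Ca5_cont K hs hst) hTh0 hTh1 huTh x I.cmeas I.c0
        (fun q hq1 _ y => I.c1 q (hs.trans hq1) y)
        (fun q hq1 hq2 w hw => I.kc q (hs.trans hq1) w (hw.trans (hline q hq1 hq2)))
        (U := fun _ => 0) measurable_const
        (by
          intro w hw
          have hzw : w.re ≤ z := by
            have e : x.re + (X + 1) + mu κ γ s t * (t - s) = z := by
              rw [hμ, hXdef]
              ring
            rw [e] at hw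
            exact hw.le
          rw [hz w hzw, ENNReal.ofReal_zero])
      simp only [mul_zero, lintegral_zero, zero_mul, add_zero] at h1
      set Θ : ℝ → ℝ := fun σ => Ca5_Th κ γ s t z A (s + σ) (x.re + (X + 1) + mu κ γ s t * σ) with hΘ
      have hTb : ∀ σ, 0 < σ → σ ≤ t - s → 0 ≤ Θ σ ∧ Θ σ ≤ 1 := fun σ _ _ => ⟨hTh0 _ _, hTh1 _ _⟩
      have h2 : ∫⁻ σ in Ioc 0 (t - s), ENNReal.ofReal (fpd (mu κ γ s t) (X + 1) σ * Real.exp σ *
            Ca5_Th κ γ s t z A (s + σ) (x.re + (X + 1) + mu κ γ s t * σ)) *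
            Gm c s (s + σ) (fun _ => 1) x.im ≤
          ∫⁻ σ in Ioc 0 (t - s), ENNReal.ofReal C1 *
            ENNReal.ofReal (fpd (mu κ γ s t) (X + 1) σ * Real.exp σ * Θ σ * Gf κ γ s (s + σ)) := by
        refine setLIntegral_mono' measurableSet_Ioc fun σ hσ => ?_
        have hG := I.gm s (s + σ) hs (by linarith [hσ.1]) x.im
        have hf : 0 ≤ fpd (mu κ γ s t) (X + 1) σ * Real.exp σ * Θ σ :=
          mul_nonneg (mul_nonneg (fpd_nonneg hD.le) (Real.exp_pos _).le) (hTh0 _ _)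
        calc _ ≤ ENNReal.ofReal (fpd (mu κ γ s t) (X + 1) σ * Real.exp σ * Θ σ) *
              ENNReal.ofReal (C1 * Gf κ γ s (s + σ)) := mul_le_mul_right hG _
          _ = _ := by
            rw [← ENNReal.ofReal_mul hf, ← ENNReal.ofReal_mul hC1.le]
            congr 1
            ring
      rw [lintegral_const_mul' _ _ ENNReal.ofReal_ne_top] at h2
      have hsplit : Ioc (0 : ℝ) (t - s) = Ioc 0 (t - s - l) ∪ Ioc (t - s - l) (t - s) :=
        (Ioc_union_Ioc_eq_Ioc (by linarith) (by linarith)).symm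
      have h3 : ∫⁻ σ in Ioc 0 (t - s),
            ENNReal.ofReal (fpd (mu κ γ s t) (X + 1) σ * Real.exp σ * Θ σ * Gf κ γ s (s + σ)) ≤
          (∫⁻ σ in Ioc 0 (t - s - l),
            ENNReal.ofReal (fpd (mu κ γ s t) (X + 1) σ * Real.exp σ * Θ σ * Gf κ γ s (s + σ))) +
          ∫⁻ σ in Ioc (t - s - l) (t - s),
            ENNReal.ofReal (fpd (mu κ γ s t) (X + 1) σ * Real.exp σ * Θ σ * Gf κ γ s (s + σ)) := by
        rw [hsplit]
        exact lintegral_union_le _ _ _
      have h4 := hits κ s0 K s t l (X + 1) A hs hj8 (by linarith) (by linarith) (by linarith) hA1 Θ hTb hThx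
      have h5 := last κ s0 K s t l (X + 1) hs hj8 (by linarith) (by linarith) (by linarith) Θ hTb
      set e : ℝ := (t - s) ^ (-(1 / 2 : ℝ)) * Real.log (t - s + 2) ^ (3 / 2 : ℝ) +
        l ^ (-(1 / 2 : ℝ)) * (1 + Real.log (l + 1)) with he
      have hrl : 0 ≤ Real.log (t - s + 2) := Real.log_nonneg (by linarith)
      have hrl2 : 0 ≤ Real.log (l + 1) := Real.log_nonneg (by linarith)
      have he0 : 0 ≤ e := by
        have a1 : 0 ≤ (t - s) ^ (-(1 / 2 : ℝ)) := Real.rpow_nonneg (by linarith) _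
        have a2 : 0 ≤ Real.log (t - s + 2) ^ (3 / 2 : ℝ) := Real.rpow_nonneg hrl _
        have a3 : 0 ≤ l ^ (-(1 / 2 : ℝ)) := Real.rpow_nonneg (by linarith) _
        positivity
      have he1 : C1 * Ch * e ≤ 1 / 2 := by
        have a1 := Ca5_a hl2
        have a2 := Ca5_b (x := t - s) (by linarith)
        have a3 := hl l le_rfl
        have a4 := hj0 (t - s) (by linarith)
        have a5 := mul_le_mul_of_nonneg_left a1 hcc.le
        have a6 := mul_le_mul_of_nonneg_left a2 hcc.le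
        rw [he]
        linarith
      have hnn1 : 0 ≤ Ch * Real.exp (-√2 * (X + 1)) * ((1 + (X + 1) ^ γ) + A * (X + 1) * e) := by
        have a1 : 0 ≤ (X + 1) ^ γ := Real.rpow_nonneg hD.le _
        positivity
      have hnn2 : 0 ≤ Cl * (l + 1) ^ 4 * (X + 1) * Real.exp (-√2 * (X + 1)) := by
        have : 0 < l := by linarith
        positivity
      have h6 : ENNReal.ofReal (u s x) ≤ ENNReal.ofReal (C1 * (Ch * Real.exp (-√2 * (X + 1)) *
          ((1 + (X + 1) ^ γ) + A * (X + 1) * e) +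
          Cl * (l + 1) ^ 4 * (X + 1) * Real.exp (-√2 * (X + 1)))) := by
        rw [ENNReal.ofReal_mul hC1.le, ENNReal.ofReal_add hnn1 hnn2]
        refine h1.trans (h2.trans ?_)
        exact mul_le_mul_right (h3.trans (add_le_add h4 h5)) _
      have h7 := Ca5_num (γ := γ) hγ1 hC1 hCh hA0 hX0 he1 hA2
      have h8 : 0 ≤ A * (1 + X) * Real.exp (-√2 * X) := by positivity
      exact ((ENNReal.ofReal_le_ofReal_iff h8).1 (h6.trans (ENNReal.ofReal_le_ofReal h7)))
  intro s t z u hs hst hu hz hL x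
  obtain ⟨n, hn⟩ := exists_nat_ge (t - s)
  exact main n s t z u hn hs hst hu hz hL x

end Pool.H50.BB
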