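import Pool.Agent.H50.BB.Trn

/-!
# Row Ccf: the constants CC ℓ   (about 110 lines)

`F d = d e^{√2 d} vh ℓ (√2 ℓ + d)` is measurable (antitone function) and, for `d > 0`, `F d ≤ d e^{√2 d} exp(ℓ - (√2ℓ+d)²/(2ℓ)) = d exp(-d²/(2ℓ))` (`vh_le`): integrable on `Ioi 0`.
`cc_pos`: the integrand is positive (`vh_pos`).
`cc_up`: for `0 ≤ δ ≤ 1`: `∫_{d>0} d e^{√2 d} vh ℓ (√2ℓ - δ + d) dd = ∫_{d > -δ} (d+δ) e^{√2 (d+δ)} vh ℓ (√2ℓ + d) dd`, dominated by `(d+1) e^{√2(d+1)} (exp(-√2 d - d²/(2ℓ)) for d ≥ 0, 1 for -1 ≤ d ≤ 0)`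
(`√2ℓ + d ≥ 0` may fail for small ℓ: then `vh ≤ 1`); converges to `∫ F` as `δ → 0+`.
`cc_lo`: `∫_{0<d≤Dm} F → ∫ F` as `Dm → ∞`; and `d e^{√2d} max 0 (vh - ε1) ≥ F - ε1 d e^{√2 d}`: choose `Dm`, then `ε1`.
-/

open MeasureTheory ProbabilityTheory Set Filter Topology
open scoped NNReal ENNReal

namespace Pool.H50.BB

open Pool.Agent.H4.BM

/-- the limiting constants -/
noncomputable def CC (ℓ : ℝ) : ℝ :=
  √(2 / Real.pi) * ∫ d in Ioi (0 : ℝ), d * Real.exp (√2 * d) * vh ℓ (√2 * ℓ + d)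

theorem Ccf_meas (ℓ c : ℝ) : Measurable (fun d => d * Real.exp (√2 * d) * vh ℓ (c + d)) := by
  have h1 : Measurable (fun d => vh ℓ (c + d)) := (vh_anti ℓ).measurable.comp (measurable_const.add measurable_id)
  exact (measurable_id.mul (by fun_prop)).mul h1

theorem Ccf_bound {ℓ δ d : ℝ} (hℓ : 0 < ℓ) (hδ0 : 0 ≤ δ) (hδ1 : δ ≤ 1) (hδ2 : δ ≤ √2 * ℓ) (hd : 0 < d) :
    d * Real.exp (√2 * d) * vh ℓ (√2 * ℓ - δ + d) ≤
      Real.exp (√2 + 1 / ℓ) * (d * Real.exp (-(1 / (4 * ℓ)) * d ^ 2)) := by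
  have h1 := vh_le (D := √2 * ℓ - δ + d) hℓ (by linarith)
  have h2 : 0 ≤ d * Real.exp (√2 * d) := by positivity
  have hs : √2 ^ 2 = 2 := Real.sq_sqrt (by norm_num)
  have hs0 : 0 ≤ √2 := Real.sqrt_nonneg 2
  calc d * Real.exp (√2 * d) * vh ℓ (√2 * ℓ - δ + d)
      ≤ d * Real.exp (√2 * d) * Real.exp (ℓ - (√2 * ℓ - δ + d) ^ 2 / (2 * ℓ)) :=
        mul_le_mul_of_nonneg_left h1 h2
    _ = d * Real.exp (√2 * d + (ℓ - (√2 * ℓ - δ + d) ^ 2 / (2 * ℓ))) := by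
        rw [Real.exp_add]; ring
    _ ≤ d * Real.exp (√2 + 1 / ℓ + -(1 / (4 * ℓ)) * d ^ 2) := by
        refine mul_le_mul_of_nonneg_left (Real.exp_le_exp.2 ?_) hd.le
        have e1 : √2 * d + (ℓ - (√2 * ℓ - δ + d) ^ 2 / (2 * ℓ))
            = √2 * δ + δ * d / ℓ - δ ^ 2 / (2 * ℓ) - d ^ 2 / (2 * ℓ) := by
          have e2 : (√2 * ℓ - δ + d) ^ 2 = √2 ^ 2 * ℓ ^ 2 + 2 * (√2 * ℓ) * (d - δ) + (d - δ) ^ 2 := by ring
          rw [e2, hs]
          field_simp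
          ring
        rw [e1]
        have e3 : √2 * δ ≤ √2 := by nlinarith
        have e4 : δ * d / ℓ ≤ d / ℓ := by
          rw [div_le_div_iff_of_pos_right hℓ]
          nlinarith
        have e5 : 0 ≤ δ ^ 2 / (2 * ℓ) := by positivity
        have e6 : d / ℓ - d ^ 2 / (2 * ℓ) ≤ 1 / ℓ + -(1 / (4 * ℓ)) * d ^ 2 := by
          have e7 : 1 / ℓ + -(1 / (4 * ℓ)) * d ^ 2 - (d / ℓ - d ^ 2 / (2 * ℓ)) = (d / 2 - 1) ^ 2 / ℓ := by
            field_simp
            ring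
          have e8 : 0 ≤ (d / 2 - 1) ^ 2 / ℓ := by positivity
          linarith
        linarith
    _ = _ := by rw [Real.exp_add]; ring

theorem Ccf_dom {ℓ : ℝ} (hℓ : 0 < ℓ) : IntegrableOn
    (fun d => Real.exp (√2 + 1 / ℓ) * (d * Real.exp (-(1 / (4 * ℓ)) * d ^ 2))) (Ioi 0) :=
  ((integrable_mul_exp_neg_mul_sq (b := 1 / (4 * ℓ)) (by positivity)).const_mul _).integrableOn

theorem Ccf_int {ℓ δ : ℝ} (hℓ : 0 < ℓ) (hδ0 : 0 ≤ δ) (hδ1 : δ ≤ 1) (hδ2 : δ ≤ √2 * ℓ) :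
    IntegrableOn (fun d => d * Real.exp (√2 * d) * vh ℓ (√2 * ℓ - δ + d)) (Ioi 0) := by
  refine Integrable.mono' (Ccf_dom hℓ) (Ccf_meas ℓ (√2 * ℓ - δ)).aestronglyMeasurable ?_
  filter_upwards [ae_restrict_mem measurableSet_Ioi] with d hd
  have hd' : 0 < d := hd
  have h0 : 0 ≤ d * Real.exp (√2 * d) * vh ℓ (√2 * ℓ - δ + d) :=
    mul_nonneg (by positivity) (vh_nonneg _ _)
  rw [Real.norm_eq_abs, abs_of_nonneg h0]
  exact Ccf_bound hℓ hδ0 hδ1 hδ2 hd'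

theorem cc_int {ℓ : ℝ} (hℓ : 0 < ℓ) : IntegrableOn (fun d => d * Real.exp (√2 * d) * vh ℓ (√2 * ℓ + d)) (Ioi 0) := by
  have h := Ccf_int (δ := 0) hℓ le_rfl zero_le_one (by positivity)
  simpa only [sub_zero] using h

theorem cc_pos {ℓ : ℝ} (hℓ : 0 < ℓ) : 0 < CC ℓ := by
  unfold CC
  refine mul_pos (Real.sqrt_pos.2 (by positivity)) ?_
  rw [setIntegral_pos_iff_support_of_nonneg_ae]
  · have h1 : Ioi (0 : ℝ) ⊆ (Function.support fun d => d * Real.exp (√2 * d) * vh ℓ (√2 * ℓ + d)) ∩ Ioi 0 := by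
      intro d hd
      refine ⟨?_, hd⟩
      have hd' : 0 < d := hd
      exact (mul_pos (mul_pos hd' (Real.exp_pos _)) (vh_pos hℓ _)).ne'
    refine lt_of_lt_of_le ?_ (measure_mono h1)
    rw [Real.volume_Ioi]
    exact ENNReal.zero_lt_top
  · filter_upwards [ae_restrict_mem measurableSet_Ioi] with d hd
    have hd' : 0 < d := hd
    exact mul_nonneg (by positivity) (vh_nonneg _ _)
  · exact cc_int hℓ

theorem cc_up {ℓ ε : ℝ} (hℓ : 0 < ℓ) (hε : 0 < ε) : ∃ δ0 > 0, ∀ δ, 0 ≤ δ → δ ≤ δ0 →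
    ∫⁻ d in Ioi (0 : ℝ), ENNReal.ofReal (√(2 / Real.pi) * (d * Real.exp (√2 * d) * vh ℓ (√2 * ℓ - δ + d))) ≤
      ENNReal.ofReal (CC ℓ + ε) := by
  set δ1 : ℝ := min 1 (√2 * ℓ) with hδ1
  have hδ1p : 0 < δ1 := lt_min one_pos (by positivity)
  set dn : ℕ → ℝ := fun n => δ1 / (n + 1) with hdn
  have hdp : ∀ n, 0 < dn n := fun n => by positivity
  have hdl : ∀ n, dn n ≤ δ1 := fun n => by
    have h1 : (1 : ℝ) ≤ n + 1 := by linarith [Nat.cast_nonneg (α := ℝ) n]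
    exact div_le_self hδ1p.le h1
  have hdt : Tendsto dn atTop (𝓝 0) := by
    have := (tendsto_one_div_add_atTop_nhds_zero_nat (𝕜 := ℝ)).const_mul δ1
    rw [mul_zero] at this
    refine this.congr fun n => ?_
    rw [hdn]
    ring
  have hae : ∀ᵐ d : ℝ, ContinuousAt (vh ℓ) (√2 * ℓ + d) := by
    have hc : ({x : ℝ | ¬ContinuousAt (vh ℓ) x}).Countable := (vh_anti ℓ).countable_not_continuousAt
    have hc2 : ((fun d : ℝ => √2 * ℓ + d) ⁻¹' {x : ℝ | ¬ContinuousAt (vh ℓ) x}).Countable :=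
      hc.preimage_of_injOn (fun a _ b _ hab => by simpa using hab)
    filter_upwards [hc2.ae_notMem volume] with d hd
    by_contra hcon
    exact hd hcon
  have hlim : Tendsto (fun n => ∫ d in Ioi (0 : ℝ), d * Real.exp (√2 * d) * vh ℓ (√2 * ℓ - dn n + d)) atTop
      (𝓝 (∫ d in Ioi (0 : ℝ), d * Real.exp (√2 * d) * vh ℓ (√2 * ℓ + d))) := by
    refine tendsto_integral_of_dominated_convergence
      (fun d => Real.exp (√2 + 1 / ℓ) * (d * Real.exp (-(1 / (4 * ℓ)) * d ^ 2)))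
      (fun n => (Ccf_meas ℓ (√2 * ℓ - dn n)).aestronglyMeasurable) (Ccf_dom hℓ) (fun n => ?_) ?_
    · filter_upwards [ae_restrict_mem measurableSet_Ioi] with d hd
      have hd' : 0 < d := hd
      have h0 : 0 ≤ d * Real.exp (√2 * d) * vh ℓ (√2 * ℓ - dn n + d) :=
        mul_nonneg (by positivity) (vh_nonneg _ _)
      rw [Real.norm_eq_abs, abs_of_nonneg h0]
      exact Ccf_bound hℓ (hdp n).le ((hdl n).trans (min_le_left _ _)) ((hdl n).trans (min_le_right _ _)) hd'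
    · filter_upwards [ae_restrict_of_ae hae] with d hd
      refine Tendsto.const_mul _ ?_
      have h1 : Tendsto (fun n => √2 * ℓ - dn n + d) atTop (𝓝 (√2 * ℓ + d)) := by
        have := ((tendsto_const_nhds (x := √2 * ℓ)).sub hdt).add (tendsto_const_nhds (x := d))
        simpa using this
      exact hd.tendsto.comp h1
  have hlim2 := hlim.const_mul (√(2 / Real.pi))
  have hev : ∀ᶠ n in atTop, √(2 / Real.pi) *
      ∫ d in Ioi (0 : ℝ), d * Real.exp (√2 * d) * vh ℓ (√2 * ℓ - dn n + d) < CC ℓ + ε :=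
    hlim2.eventually_lt_const (by unfold CC; linarith)
  obtain ⟨n, hn⟩ := hev.exists
  refine ⟨dn n, hdp n, fun δ hδ0 hδ => ?_⟩
  have hint := Ccf_int hℓ (hdp n).le ((hdl n).trans (min_le_left _ _)) ((hdl n).trans (min_le_right _ _))
  calc ∫⁻ d in Ioi (0 : ℝ), ENNReal.ofReal (√(2 / Real.pi) * (d * Real.exp (√2 * d) * vh ℓ (√2 * ℓ - δ + d)))
      ≤ ∫⁻ d in Ioi (0 : ℝ), ENNReal.ofReal (√(2 / Real.pi) *
          (d * Real.exp (√2 * d) * vh ℓ (√2 * ℓ - dn n + d))) := by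
        refine setLIntegral_mono' measurableSet_Ioi fun d hd => ENNReal.ofReal_le_ofReal ?_
        have hd' : 0 < d := hd
        refine mul_le_mul_of_nonneg_left (mul_le_mul_of_nonneg_left ?_ (by positivity)) (Real.sqrt_nonneg _)
        exact vh_anti ℓ (by linarith)
    _ = ENNReal.ofReal (∫ d in Ioi (0 : ℝ), √(2 / Real.pi) *
          (d * Real.exp (√2 * d) * vh ℓ (√2 * ℓ - dn n + d))) := by
        rw [ofReal_integral_eq_lintegral_ofReal (hint.const_mul _)]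
        filter_upwards [ae_restrict_mem measurableSet_Ioi] with d hd
        have hd' : 0 < d := hd
        exact mul_nonneg (Real.sqrt_nonneg _) (mul_nonneg (by positivity) (vh_nonneg _ _))
    _ ≤ ENNReal.ofReal (CC ℓ + ε) := by
        refine ENNReal.ofReal_le_ofReal ?_
        rw [integral_const_mul]
        exact hn.le

theorem cc_lo {ℓ ε : ℝ} (hℓ : 0 < ℓ) (hε : 0 < ε) : ∃ Dm ≥ (1 : ℝ), ∃ ε1 > 0,
    CC ℓ - ε ≤ √(2 / Real.pi) * ∫ d in Ioc (0 : ℝ) Dm, d * (Real.exp (√2 * d) * max 0 (vh ℓ (√2 * ℓ + d) - ε1)) := by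
  set c : ℝ := √(2 / Real.pi) with hc
  have hcp : 0 < c := Real.sqrt_pos.2 (by positivity)
  have hint := cc_int hℓ
  have hlim := intervalIntegral_tendsto_integral_Ioi (0 : ℝ) hint tendsto_id
  have hev := hlim.eventually_const_lt (show (∫ d in Ioi (0 : ℝ), d * Real.exp (√2 * d) * vh ℓ (√2 * ℓ + d)) -
      ε / (2 * c) < _ by linarith [show 0 < ε / (2 * c) by positivity])
  obtain ⟨Dm, hDm, hD1⟩ := (hev.and (eventually_ge_atTop (1 : ℝ))).exists
  rw [id, intervalIntegral.integral_of_le (by linarith : (0 : ℝ) ≤ Dm)] at hDm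
  set K : ℝ := ∫ d in Ioc (0 : ℝ) Dm, d * Real.exp (√2 * d) with hK
  have hK0 : 0 ≤ K := setIntegral_nonneg measurableSet_Ioc fun d hd => by
    have : 0 < d := hd.1
    positivity
  have hg : IntegrableOn (fun d : ℝ => d * Real.exp (√2 * d)) (Ioc 0 Dm) :=
    (Continuous.integrableOn_Icc (by fun_prop)).mono_set Ioc_subset_Icc_self
  have hF : IntegrableOn (fun d => d * Real.exp (√2 * d) * vh ℓ (√2 * ℓ + d)) (Ioc 0 Dm) :=
    hint.mono_set fun d hd => hd.1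
  refine ⟨Dm, hD1, ε / (2 * c * (K + 1)), by positivity, ?_⟩
  set ε1 : ℝ := ε / (2 * c * (K + 1)) with hε1
  have hε1p : 0 < ε1 := by positivity
  have hM : IntegrableOn (fun d => d * (Real.exp (√2 * d) * max 0 (vh ℓ (√2 * ℓ + d) - ε1))) (Ioc 0 Dm) := by
    have hm1 : Measurable (fun d => vh ℓ (√2 * ℓ + d)) :=
      (vh_anti ℓ).measurable.comp (measurable_const.add measurable_id)
    refine Integrable.mono' hF ?_ ?_
    · exact (measurable_id.mul ((by fun_prop : Measurable fun d : ℝ => Real.exp (√2 * d)).mul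
        (measurable_const.max (hm1.sub measurable_const)))).aestronglyMeasurable
    · filter_upwards [ae_restrict_mem measurableSet_Ioc] with d hd
      have hd' : 0 < d := hd.1
      have h0 : 0 ≤ max 0 (vh ℓ (√2 * ℓ + d) - ε1) := le_max_left _ _
      have h1 : max 0 (vh ℓ (√2 * ℓ + d) - ε1) ≤ vh ℓ (√2 * ℓ + d) :=
        max_le (vh_nonneg _ _) (by linarith)
      rw [Real.norm_eq_abs, abs_of_nonneg (by positivity), ← mul_assoc]
      exact mul_le_mul_of_nonneg_left h1 (by positivity)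
  have h2 : (∫ d in Ioc (0 : ℝ) Dm, d * Real.exp (√2 * d) * vh ℓ (√2 * ℓ + d)) - ε1 * K ≤
      ∫ d in Ioc (0 : ℝ) Dm, d * (Real.exp (√2 * d) * max 0 (vh ℓ (√2 * ℓ + d) - ε1)) := by
    rw [hK, ← integral_const_mul, ← integral_sub hF (hg.const_mul _)]
    refine setIntegral_mono_on (hF.sub (hg.const_mul _)) hM measurableSet_Ioc fun d hd => ?_
    have hd' : 0 < d := hd.1
    have h1 : vh ℓ (√2 * ℓ + d) - ε1 ≤ max 0 (vh ℓ (√2 * ℓ + d) - ε1) := le_max_right _ _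
    have h3 : 0 ≤ d * Real.exp (√2 * d) := by positivity
    have h4 := mul_le_mul_of_nonneg_left h1 h3
    linarith
  have h5 : c * (ε1 * K) ≤ ε / 2 := by
    have e1 : c * (ε1 * K) = ε / 2 * (K / (K + 1)) := by
      rw [hε1]
      field_simp
    rw [e1]
    have e2 : K / (K + 1) ≤ 1 := (div_le_one (by linarith)).2 (by linarith)
    have e3 := mul_le_mul_of_nonneg_left e2 (by linarith : 0 ≤ ε / 2)
    linarith
  have h6 : c * (ε / (2 * c)) = ε / 2 := by field_simp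
  have h7 := mul_le_mul_of_nonneg_left h2 hcp.le
  have h8 := mul_le_mul_of_nonneg_left hDm.le hcp.le
  have h9 : CC ℓ = c * ∫ d in Ioi (0 : ℝ), d * Real.exp (√2 * d) * vh ℓ (√2 * ℓ + d) := rfl
  rw [h9]
  rw [mul_sub] at h7 h8
  linarith

end Pool.H50.BB
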