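import Mathlib

/-!
# Row Dab: maximal vectors of a weak-to-strong continuous symmetric operator   (about 120 lines)

`H` a separable real Hilbert space, `S : H →L[ℝ] H` symmetric and weak-to-strong sequentially continuous (`hc`), `K` a closed subspace invariant under `S`.
Let `ν = sup {‖S y‖ : y ∈ K, ‖y‖ ≤ 1}` (bounded by `‖S‖`, nonempty).  Take `y_n ∈ K`, `‖y_n‖ ≤ 1`, `‖S y_n‖ → ν`.  Bounded sequences have weakly convergent subsequences: sequential Banach-Alaoglu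
`WeakDual.isSeqCompact_closedBall` (separable) and the Riesz isomorphism (`InnerProductSpace.toDual`): there are a subsequence and `x ∈ H` with `⟪g, y_n⟫ → ⟪g, x⟫` for all `g`.
`‖x‖ ≤ 1` (`‖x‖² = lim ⟪x, y_n⟫ ≤ ‖x‖`), `x ∈ K` (for `g ∈ Kᗮ`: `⟪g,x⟫ = 0`, so `x ∈ Kᗮᗮ = K`).  `S y_n → S x`, so `‖S x‖ = ν`.
If `ν > 0`: `‖x‖ = 1` (else `x/‖x‖` would be better; `‖S x‖ ≤ ν ‖x‖`), and since `S x ∈ K`: `‖S (S x)‖ ≤ ν ‖S x‖ = ν²`, `⟪S (S x), x⟫ = ‖S x‖² = ν²`, hence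
`‖S (S x) - ν² x‖² = ‖S(Sx)‖² - 2 ν² ν² + ν⁴ ≤ 0`.
-/

open Filter Topology
open scoped InnerProductSpace

namespace Pool.H50.BB

/-- bounded sequences have weakly convergent subsequences -/
theorem dab_subseq {H : Type*} [NormedAddCommGroup H] [InnerProductSpace ℝ H] [CompleteSpace H]
    [TopologicalSpace.SeparableSpace H] (y : ℕ → H) (M : ℝ) (hy : ∀ n, ‖y n‖ ≤ M) :
    ∃ x : H, ∃ φ : ℕ → ℕ, StrictMono φ ∧ ∀ g, Tendsto (fun n => ⟪g, y (φ n)⟫_ℝ) atTop (𝓝 ⟪g, x⟫_ℝ) := by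
  have hK := WeakDual.isSeqCompact_closedBall ℝ H (0 : StrongDual ℝ H) M
  let f : ℕ → WeakDual ℝ H := fun n => StrongDual.toWeakDual (InnerProductSpace.toDual ℝ H (y n))
  have hf : ∀ n, f n ∈ WeakDual.toStrongDual ⁻¹' Metric.closedBall (0 : StrongDual ℝ H) M := by
    intro n
    show (InnerProductSpace.toDual ℝ H (y n)) ∈ Metric.closedBall (0 : StrongDual ℝ H) M
    rw [mem_closedBall_zero_iff, LinearIsometryEquiv.norm_map]
    exact hy n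
  obtain ⟨a, ha, φ, hφ, hlim⟩ := hK hf
  refine ⟨(InnerProductSpace.toDual ℝ H).symm (WeakDual.toStrongDual a), φ, hφ, fun g => ?_⟩
  have h1 := ((WeakDual.eval_continuous (𝕜 := ℝ) g).tendsto a).comp hlim
  have h2 : ⟪g, (InnerProductSpace.toDual ℝ H).symm (WeakDual.toStrongDual a)⟫_ℝ = a g := by
    rw [real_inner_comm, InnerProductSpace.toDual_symm_apply]
    rfl
  rw [h2]
  refine h1.congr (fun n => ?_)
  show (InnerProductSpace.toDual ℝ H (y (φ n))) g = _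
  rw [InnerProductSpace.toDual_apply_apply, real_inner_comm]

theorem max_eig {H : Type*} [NormedAddCommGroup H] [InnerProductSpace ℝ H] [CompleteSpace H]
    [TopologicalSpace.SeparableSpace H] (S : H →L[ℝ] H) (hS : ∀ x y, ⟪S x, y⟫_ℝ = ⟪x, S y⟫_ℝ)
    (hc : ∀ (x : ℕ → H) (y : H) (M : ℝ), (∀ n, ‖x n‖ ≤ M) → (∀ g, Tendsto (fun n => ⟪g, x n⟫_ℝ) atTop (𝓝 ⟪g, y⟫_ℝ)) →
      Tendsto (fun n => S (x n)) atTop (𝓝 (S y)))
    (K : Submodule ℝ H) (hK : IsClosed (K : Set H)) (hSK : ∀ x ∈ K, S x ∈ K) :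
    ∃ ν : ℝ, 0 ≤ ν ∧ (∀ y ∈ K, ‖S y‖ ≤ ν * ‖y‖) ∧ (ν = 0 ∨ ∃ x ∈ K, ‖x‖ = 1 ∧ S (S x) = ν ^ 2 • x) := by
  set A : Set ℝ := {r | ∃ y ∈ K, ‖y‖ ≤ 1 ∧ r = ‖S y‖} with hA
  have hA0 : (0 : ℝ) ∈ A := ⟨0, K.zero_mem, by simp, by simp⟩
  have hAb : BddAbove A := by
    refine ⟨‖S‖, ?_⟩
    rintro r ⟨y, -, hy, rfl⟩
    calc ‖S y‖ ≤ ‖S‖ * ‖y‖ := S.le_opNorm y
      _ ≤ ‖S‖ * 1 := by gcongr
      _ = ‖S‖ := mul_one _
  set ν : ℝ := sSup A with hν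
  have hν0 : 0 ≤ ν := le_csSup hAb hA0
  have hle1 : ∀ y ∈ K, ‖y‖ ≤ 1 → ‖S y‖ ≤ ν := fun y hy h1 => le_csSup hAb ⟨y, hy, h1, rfl⟩
  have hle : ∀ y ∈ K, ‖S y‖ ≤ ν * ‖y‖ := by
    intro y hy
    by_cases h0 : y = 0
    · simp [h0]
    have hn : 0 < ‖y‖ := norm_pos_iff.2 h0
    have h1 := hle1 (‖y‖⁻¹ • y) (K.smul_mem _ hy) (by
      rw [norm_smul, norm_inv, norm_norm, inv_mul_cancel₀ hn.ne'])
    rw [map_smul, norm_smul, norm_inv, norm_norm, inv_mul_le_iff₀ hn] at h1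
    linarith
  refine ⟨ν, hν0, hle, ?_⟩
  by_cases hz : ν = 0
  · exact Or.inl hz
  right
  have hνp : 0 < ν := lt_of_le_of_ne hν0 (Ne.symm hz)
  obtain ⟨u, -, hu, huA⟩ := exists_seq_tendsto_sSup ⟨0, hA0⟩ hAb
  choose y hyK hy1 hyu using huA
  obtain ⟨x, φ, hφ, hw⟩ := dab_subseq y 1 hy1
  have hx1 : ‖x‖ ≤ 1 := by
    have h1 : Tendsto (fun n => ⟪x, y (φ n)⟫_ℝ) atTop (𝓝 ⟪x, x⟫_ℝ) := hw x
    have h2 : ⟪x, x⟫_ℝ ≤ ‖x‖ := by
      refine le_of_tendsto h1 (Eventually.of_forall fun n => ?_)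
      calc ⟪x, y (φ n)⟫_ℝ ≤ ‖x‖ * ‖y (φ n)‖ := real_inner_le_norm _ _
        _ ≤ ‖x‖ * 1 := by gcongr; exact hy1 _
        _ = ‖x‖ := mul_one _
    rw [real_inner_self_eq_norm_sq] at h2
    by_contra hc'
    push Not at hc'
    nlinarith
  have hxK : x ∈ K := by
    have : CompleteSpace K := hK.completeSpace_coe
    have h1 : x ∈ Kᗮᗮ := by
      rw [Submodule.mem_orthogonal]
      intro g hg
      have h2 := hw g
      have h3 : ∀ n, ⟪g, y (φ n)⟫_ℝ = 0 := fun n => by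
        rw [real_inner_comm]
        exact (Submodule.mem_orthogonal K g).1 hg _ (hyK _)
      simp only [h3] at h2
      exact (tendsto_nhds_unique h2 tendsto_const_nhds)
    rwa [Submodule.orthogonal_orthogonal] at h1
  have hSx : Tendsto (fun n => S (y (φ n))) atTop (𝓝 (S x)) := hc _ x 1 (fun n => hy1 _) hw
  have hSν : ‖S x‖ = ν := by
    have h1 := hSx.norm
    have h2 : Tendsto (fun n => ‖S (y (φ n))‖) atTop (𝓝 ν) := by
      refine (hu.comp hφ.tendsto_atTop).congr (fun n => ?_)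
      exact hyu _
    exact tendsto_nhds_unique h1 h2
  have hxe : ‖x‖ = 1 := by
    have h1 := hle x hxK
    rw [hSν] at h1
    have h2 : 1 ≤ ‖x‖ := by
      by_contra hc'
      push Not at hc'
      nlinarith
    linarith
  refine ⟨x, hxK, hxe, ?_⟩
  have hSS : ‖S (S x)‖ ≤ ν ^ 2 := by
    have h1 := hle (S x) (hSK x hxK)
    rw [hSν] at h1
    nlinarith
  have hin : ⟪S (S x), x⟫_ℝ = ν ^ 2 := by
    rw [hS (S x) x, real_inner_self_eq_norm_sq, hSν]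
  have h0 : ‖S (S x) - ν ^ 2 • x‖ ^ 2 ≤ 0 := by
    rw [norm_sub_sq_real, real_inner_smul_right, hin, norm_smul, hxe, Real.norm_eq_abs,
      abs_of_nonneg (by positivity : (0 : ℝ) ≤ ν ^ 2)]
    have h1 : ‖S (S x)‖ ^ 2 ≤ (ν ^ 2) ^ 2 := by gcongr
    nlinarith
  have h1 : ‖S (S x) - ν ^ 2 • x‖ = 0 := by
    have := sq_nonneg ‖S (S x) - ν ^ 2 • x‖
    have h2 : ‖S (S x) - ν ^ 2 • x‖ ^ 2 = 0 := le_antisymm h0 this
    exact pow_eq_zero_iff (two_ne_zero) |>.1 h2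
  exact sub_eq_zero.1 (norm_eq_zero.1 h1)

end Pool.H50.BB
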