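import Pool.Agent.H50.BB.Dph

/-!
# Row Dat: products of perturbed operators   (about 150 lines)

`nrm` has the triangle inequality on measurable `L²` functions (`nrm f = ‖toLp f‖`, `nrm_sq`).
`at_nrm`: `nrm (f k) ≤ nrm (TV h_k f (k+1)) + η_k e^{-lam h_k} nrm (f (k+1)) ≤ (1+η_k) e^{-lam h_k} nrm (f (k+1))` (`GS.nrm_le`); induction (from `N` down to `0`).
`at_fun`: let `g N = f N`, `g k = TV (Va α) (h k) (g (k+1))`; `g 0 = TV (Va α) H (f N)`, `H = ∑ h k > 0` (`tv_semi`, needs `N ≥ 1`).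
`d k = nrm (f k - g k)`: `f k - g k = (f k - TV h_k (f (k+1))) + TV h_k (f (k+1) - g (k+1))`, so `d k ≤ η_k e^{-lam h_k} nrm (f (k+1)) + e^{-lam h_k} d (k+1)`; with
`P k = ∏_{j ≥ k} (1+η_j)`, `H k = ∑_{j≥k} h j`: by backward induction `d k ≤ e^{-lam H k} (P k - 1) nrm (f N)` (`η_k P(k+1) + P(k+1) - 1 = P k - 1`).  Finally `GS.gap` for `g 0`.
-/

open MeasureTheory ProbabilityTheory Set Filter Topology
open scoped NNReal ENNReal InnerProductSpace

namespace Pool.H50.BB

open Pool.Agent.H4.BM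

theorem Dat_nrm {f : ℝ → ℝ} (hf : MemLp f 2 volume) : nrm f = ‖hf.toLp f‖ := by
  have h1 : ∫ x, f x ^ 2 = ‖hf.toLp f‖ ^ 2 := by
    rw [nrm_sq]
    refine integral_congr_ae ?_
    filter_upwards [MemLp.coeFn_toLp hf] with x hx
    rw [hx]
  rw [nrm, h1, Real.sqrt_sq (norm_nonneg _)]

theorem Dat_nonneg (f : ℝ → ℝ) : 0 ≤ nrm f := Real.sqrt_nonneg _

theorem nrm_add {f g : ℝ → ℝ} (hf : MemLp f 2 volume) (hg : MemLp g 2 volume) :
    nrm (fun x => f x + g x) ≤ nrm f + nrm g := by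
  have h1 : MemLp (fun x => f x + g x) 2 volume := hf.add hg
  have h2 : h1.toLp (fun x => f x + g x) = hf.toLp f + hg.toLp g := MemLp.toLp_add hf hg
  rw [Dat_nrm hf, Dat_nrm hg, Dat_nrm h1, h2]
  exact norm_add_le _ _

theorem nrm_smul (c : ℝ) (f : ℝ → ℝ) : nrm (fun x => c * f x) = |c| * nrm f := by
  unfold nrm
  simp only [mul_pow]
  rw [integral_const_mul, Real.sqrt_mul (sq_nonneg c), Real.sqrt_sq_eq_abs]

theorem nrm_mono {f g : ℝ → ℝ} (hg : MemLp g 2 volume) (h : ∀ x, |f x| ≤ |g x|) : nrm f ≤ nrm g := by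
  unfold nrm
  refine Real.sqrt_le_sqrt ?_
  refine integral_mono_of_nonneg (Eventually.of_forall fun x => sq_nonneg _) hg.integrable_sq
    (Eventually.of_forall fun x => ?_)
  exact sq_le_sq.2 (h x)

theorem nrm_cs {f g : ℝ → ℝ} (hf : MemLp f 2 volume) (hg : MemLp g 2 volume) : |∫ x, f x * g x| ≤ nrm f * nrm g := by
  rw [Dat_nrm hf, Dat_nrm hg]
  have h1 : ∫ x, f x * g x = ⟪hf.toLp f, hg.toLp g⟫_ℝ := by
    rw [L2.inner_def]
    refine integral_congr_ae ?_
    filter_upwards [MemLp.coeFn_toLp hf, MemLp.coeFn_toLp hg] with x hx hy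
    rw [hx, hy]
    simp only [RCLike.inner_apply, conj_trivial]
    ring
  rw [h1]
  exact abs_real_inner_le_norm _ _

variable {α lam ρ C : ℝ} {φ : ℝ → ℝ}

theorem Dat_pot (hα : 0 < α) : Pot (Va α) where
  cont := by
    unfold Va
    exact continuous_abs.rpow_const fun x => Or.inr hα.le
  nonneg := fun x => Real.rpow_nonneg (abs_nonneg x) α

theorem Dat_step (hα : 0 < α) (G : GS α lam ρ C φ) {h η : ℝ} {f g : ℝ → ℝ}
    (hf2 : MemLp f 2 volume) (hg : Measurable g) (hg2 : MemLp g 2 volume)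
    (hh : 0 < h)
    (H : nrm (fun u => f u - TV (Va α) h g u) ≤ η * Real.exp (-lam * h) * nrm g) :
    nrm f ≤ (1 + η) * Real.exp (-lam * h) * nrm g := by
  have hp := Dat_pot hα
  have t1 : MemLp (TV (Va α) h g) 2 volume := (tv_L2 hp hh hg hg2).1
  have t2 : MemLp (fun u => f u - TV (Va α) h g u) 2 volume := hf2.sub t1
  have h1 := nrm_add t2 t1
  have h2 : (fun x => f x - TV (Va α) h g x + TV (Va α) h g x) = f := by
    funext x
    ring
  rw [h2] at h1
  have h3 := G.nrm_le h hh g hg hg2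
  linarith

theorem at_nrm (hα : 0 < α) (G : GS α lam ρ C φ) (N : ℕ) (h η : ℕ → ℝ) (f : ℕ → ℝ → ℝ)
    (hm : ∀ k ≤ N, Measurable (f k)) (h2 : ∀ k ≤ N, MemLp (f k) 2 volume) (hh : ∀ k < N, 0 < h k) (hη : ∀ k < N, 0 ≤ η k)
    (H : ∀ k < N, nrm (fun u => f k u - TV (Va α) (h k) (f (k + 1)) u) ≤ η k * Real.exp (-lam * h k) * nrm (f (k + 1))) :
    nrm (f 0) ≤ Real.exp (-lam * ∑ k ∈ Finset.range N, h k) * (∏ k ∈ Finset.range N, (1 + η k)) * nrm (f N) := by
  have key : ∀ j ≤ N, nrm (f 0) ≤ Real.exp (-lam * ∑ k ∈ Finset.range j, h k) *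
      (∏ k ∈ Finset.range j, (1 + η k)) * nrm (f j) := by
    intro j
    induction j with
    | zero => intro _; simp
    | succ j ih =>
      intro hj
      have h1 := ih (by omega)
      have h3 := Dat_step hα G (h2 j (by omega)) (hm (j + 1) hj) (h2 (j + 1) hj)
        (hh j (by omega)) (H j (by omega))
      rw [Finset.sum_range_succ, Finset.prod_range_succ, mul_add, Real.exp_add]
      have hP : 0 ≤ ∏ k ∈ Finset.range j, (1 + η k) := by
        refine Finset.prod_nonneg fun k hk => ?_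
        have := hη k (by have := Finset.mem_range.1 hk; omega)
        linarith
      calc nrm (f 0) ≤ Real.exp (-lam * ∑ k ∈ Finset.range j, h k) *
            (∏ k ∈ Finset.range j, (1 + η k)) * nrm (f j) := h1
        _ ≤ Real.exp (-lam * ∑ k ∈ Finset.range j, h k) *
            (∏ k ∈ Finset.range j, (1 + η k)) * ((1 + η j) * Real.exp (-lam * h j) * nrm (f (j + 1))) :=
          mul_le_mul_of_nonneg_left h3 (mul_nonneg (Real.exp_pos _).le hP)
        _ = _ := by ring
  exact key N le_rfl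

theorem Dat_gs_L2 (G : GS α lam ρ C φ) : MemLp φ 2 volume := by
  rw [memLp_two_iff_integrable_sq G.meas.aestronglyMeasurable]
  by_contra hn
  have h1 := integral_undef hn
  rw [G.norm] at h1
  exact one_ne_zero h1

theorem Dat_fun (hα : 0 < α) (G : GS α lam ρ C φ) (N : ℕ) (h η : ℕ → ℝ) (f : ℕ → ℝ → ℝ)
    (hm : ∀ k ≤ N, Measurable (f k)) (h2 : ∀ k ≤ N, MemLp (f k) 2 volume) (hh : ∀ k < N, 0 < h k) (hη : ∀ k < N, 0 ≤ η k)
    (H : ∀ k < N, nrm (fun u => f k u - TV (Va α) (h k) (f (k + 1)) u) ≤ η k * Real.exp (-lam * h k) * nrm (f (k + 1))) :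
    ∀ j, 1 ≤ j → j ≤ N → 0 < ∑ k ∈ Finset.range j, h k ∧
      nrm (fun u => f 0 u - TV (Va α) (∑ k ∈ Finset.range j, h k) (f j) u) ≤
        Real.exp (-lam * ∑ k ∈ Finset.range j, h k) *
          ((∏ k ∈ Finset.range j, (1 + η k)) - 1) * nrm (f j) := by
  have hp := Dat_pot hα
  intro j hj
  induction j, hj using Nat.le_induction with
  | base =>
    intro hN
    have h1 := H 0 (by omega)
    simp only [zero_add] at h1
    simp only [Finset.range_one, Finset.sum_singleton, Finset.prod_singleton]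
    refine ⟨hh 0 (by omega), h1.trans (le_of_eq ?_)⟩
    ring
  | succ j hj ih =>
    intro hN
    obtain ⟨hS, h1⟩ := ih (by omega)
    have hhj := hh j (by omega)
    have hηj := hη j (by omega)
    have hH := H j (by omega)
    have mj := hm j (by omega)
    have mj1 := hm (j + 1) hN
    have lj := h2 j (by omega)
    have lj1 := h2 (j + 1) hN
    set S := ∑ k ∈ Finset.range j, h k with hSdef
    set P := ∏ k ∈ Finset.range j, (1 + η k) with hPdef
    rw [Finset.sum_range_succ, Finset.prod_range_succ, ← hSdef, ← hPdef]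
    refine ⟨add_pos hS hhj, ?_⟩
    have hP : 1 ≤ P := by
      rw [hPdef]
      calc (1 : ℝ) = ∏ k ∈ Finset.range j, (1 : ℝ) := by simp
        _ ≤ _ := Finset.prod_le_prod (fun _ _ => zero_le_one) fun k hk => by
            have := hη k (by have := Finset.mem_range.1 hk; omega)
            linarith
    have t1 := tv_L2 hp hhj mj1 lj1
    have mt1 := tv_meas hp hhj mj1
    have td : MemLp (fun u => f j u - TV (Va α) (h j) (f (j + 1)) u) 2 volume := lj.sub t1.1
    have md : Measurable (fun u => f j u - TV (Va α) (h j) (f (j + 1)) u) := mj.sub mt1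
    have e1 : (fun u => f 0 u - TV (Va α) (S + h j) (f (j + 1)) u) = fun u =>
        (f 0 u - TV (Va α) S (f j) u) +
          TV (Va α) S (fun u => f j u - TV (Va α) (h j) (f (j + 1)) u) u := by
      funext u
      have a1 := tv_add hp hS mj lj mt1 t1.1 1 (-1) u
      have a2 : (fun x => 1 * f j x + -1 * TV (Va α) (h j) (f (j + 1)) x) =
          fun u => f j u - TV (Va α) (h j) (f (j + 1)) u := by
        funext x
        ring
      rw [a2, tv_semi hp hS hhj mj1 lj1] at a1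
      rw [a1]
      ring
    rw [e1]
    have s1 : MemLp (fun u => f 0 u - TV (Va α) S (f j) u) 2 volume :=
      (h2 0 (by omega)).sub (tv_L2 hp hS mj lj).1
    have s2 := tv_L2 hp hS md td
    have n1 := nrm_add s1 s2.1
    have n2 := G.nrm_le S hS _ md td
    have n3 := Dat_step hα G lj mj1 lj1 hhj hH
    have E1 : 0 < Real.exp (-lam * S) := Real.exp_pos _
    rw [mul_add, Real.exp_add]
    have n4 : Real.exp (-lam * S) * (P - 1) * nrm (f j) ≤
        Real.exp (-lam * S) * (P - 1) * ((1 + η j) * Real.exp (-lam * h j) * nrm (f (j + 1))) :=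
      mul_le_mul_of_nonneg_left n3 (mul_nonneg E1.le (by linarith))
    have n5 : Real.exp (-lam * S) * nrm (fun u => f j u - TV (Va α) (h j) (f (j + 1)) u) ≤
        Real.exp (-lam * S) * (η j * Real.exp (-lam * h j) * nrm (f (j + 1))) :=
      mul_le_mul_of_nonneg_left hH E1.le
    calc nrm (fun u => (f 0 u - TV (Va α) S (f j) u) +
          TV (Va α) S (fun u => f j u - TV (Va α) (h j) (f (j + 1)) u) u)
        ≤ Real.exp (-lam * S) * (P - 1) * ((1 + η j) * Real.exp (-lam * h j) * nrm (f (j + 1))) +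
          Real.exp (-lam * S) * (η j * Real.exp (-lam * h j) * nrm (f (j + 1))) := by
          linarith
      _ = _ := by ring

theorem at_fun (hα : 0 < α) (G : GS α lam ρ C φ) (N : ℕ) (hN : 1 ≤ N) (h η : ℕ → ℝ) (f : ℕ → ℝ → ℝ)
    (hm : ∀ k ≤ N, Measurable (f k)) (h2 : ∀ k ≤ N, MemLp (f k) 2 volume) (hh : ∀ k < N, 0 < h k) (hη : ∀ k < N, 0 ≤ η k)
    (H : ∀ k < N, nrm (fun u => f k u - TV (Va α) (h k) (f (k + 1)) u) ≤ η k * Real.exp (-lam * h k) * nrm (f (k + 1))) :
    nrm (fun u => f 0 u - Real.exp (-lam * ∑ k ∈ Finset.range N, h k) * (∫ x, φ x * f N x) * φ u) ≤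
      Real.exp (-lam * ∑ k ∈ Finset.range N, h k) *
        ((∏ k ∈ Finset.range N, (1 + η k)) - 1 + C * Real.exp (-ρ * ∑ k ∈ Finset.range N, h k)) * nrm (f N) := by
  have hp := Dat_pot hα
  obtain ⟨hS, h1⟩ := Dat_fun hα G N h η f hm h2 hh hη H N hN le_rfl
  set S := ∑ k ∈ Finset.range N, h k with hSdef
  have mN := hm N le_rfl
  have lN := h2 N le_rfl
  have t1 := tv_L2 hp hS mN lN
  have h3 := G.gap S hS (f N) mN lN
  have e1 : (fun u => f 0 u - Real.exp (-lam * S) * (∫ x, φ x * f N x) * φ u) = fun u =>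
      (f 0 u - TV (Va α) S (f N) u) +
        (TV (Va α) S (f N) u - Real.exp (-lam * S) * (∫ x, φ x * f N x) * φ u) := by
    funext u
    ring
  rw [e1]
  have s1 : MemLp (fun u => f 0 u - TV (Va α) S (f N) u) 2 volume := (h2 0 (by omega)).sub t1.1
  have s2 : MemLp (fun u => TV (Va α) S (f N) u -
      Real.exp (-lam * S) * (∫ x, φ x * f N x) * φ u) 2 volume :=
    t1.1.sub ((Dat_gs_L2 G).const_mul _)
  have n1 := nrm_add s1 s2
  have e2 : Real.exp (-(lam + ρ) * S) = Real.exp (-lam * S) * Real.exp (-ρ * S) := by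
    rw [← Real.exp_add]
    congr 1
    ring
  rw [e2] at h3
  calc nrm (fun u => (f 0 u - TV (Va α) S (f N) u) +
        (TV (Va α) S (f N) u - Real.exp (-lam * S) * (∫ x, φ x * f N x) * φ u))
      ≤ Real.exp (-lam * S) * ((∏ k ∈ Finset.range N, (1 + η k)) - 1) * nrm (f N) +
        C * (Real.exp (-lam * S) * Real.exp (-ρ * S)) * nrm (f N) := by linarith
    _ = _ := by ring

end Pool.H50.BB
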