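import Pool.Agent.H50.BB.Dtv
import Pool.Agent.H50.BB.Bmk

/-!
# Row Dom: decay of om for the homogeneous potential   (about 90 lines)

`Va α u = |u|^α`, `0 < α < 2`.  `pot_Va`, `pot_Vt` (continuity of `rpow` with positive exponent; `0 ≤ ω ≤ 1`, `R ≥ 0`).
`om_decay`: `1/8 ≤ h ≤ 4`.  If `|w s| < |u|/2` on `[0,h]` then `|u + w s| ≥ |u|/2`, so `∫_0^h Va(u + w) ≥ h (|u|/2)^α`; otherwise bound the exponential by 1 and use `sup_tail`:
`om (Va α) h u ≤ exp (-2h (|u|/2)^α) + 4 exp (-u²/(8h)) ≤ exp (-(|u|/2)^α/4) + 4 exp (-u²/32)` for `u ≠ 0`, and this is `≤ C (1+u²)^{-4}` for a suitable `C = C(α)`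
(`x^k exp (-c x^α)` is bounded).
`sup_split`: the general inequality used here: for every `V` (Pot), `m ≥ 0` with `m ≤ V x` for all `|x| ≥ |u|/2`:
`om V h u ≤ exp (-2 h m) + 4 exp (-u²/(8h))`.
-/

open MeasureTheory ProbabilityTheory Set Filter Topology
open scoped NNReal ENNReal

namespace Pool.H50.BB

open Pool.Agent.H4.BM

theorem pot_Va {α : ℝ} (hα : 0 < α) : Pot (Va α) :=
  ⟨continuous_abs.rpow_const fun _ => Or.inr hα.le, fun x => Real.rpow_nonneg (abs_nonneg x) α⟩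

theorem pot_Vt {α ω R : ℝ} (hα : 0 < α) (hω : ω ≤ 1) (hR : 0 ≤ R) : Pot (Vt α ω R) :=
  ⟨continuous_const.mul ((continuous_abs.min continuous_const).rpow_const fun _ => Or.inr hα.le),
    fun x => mul_nonneg (by linarith) (Real.rpow_nonneg (le_min (abs_nonneg x) hR) α)⟩

theorem sup_split {V : ℝ → ℝ} (hV : Pot V) {h u m : ℝ} (hh : 0 < h) (hu : u ≠ 0) (hm0 : 0 ≤ m)
    (hm : ∀ x, |u| / 2 ≤ |x| → m ≤ V x) :
    om V h u ≤ Real.exp (-2 * h * m) + 4 * Real.exp (-u ^ 2 / (8 * h)) := by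
  set S : Set Pth := {w | ∃ s ∈ Icc (0 : ℝ) h, |u| / 2 ≤ |w s|} with hS
  have hu0 : 0 < |u| := abs_pos.2 hu
  have hS1 := sup_tail hh (R := |u| / 2) (by positivity)
  set A : Set Pth := toMeasurable Wm S with hA
  have hAm : MeasurableSet A := measurableSet_toMeasurable _ _
  have hAS : S ⊆ A := subset_toMeasurable _ _
  have hA1 : Wm.real A ≤ 4 * Real.exp (-u ^ 2 / (8 * h)) := by
    have e : 4 * Real.exp (-(|u| / 2) ^ 2 / (2 * h)) = 4 * Real.exp (-u ^ 2 / (8 * h)) := by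
      congr 2
      rw [div_pow, sq_abs]
      field_simp
      ring
    rw [← e, Measure.real, hA, measure_toMeasurable]
    refine ENNReal.toReal_le_of_le_ofReal (by positivity) hS1
  have hpt : ∀ w : Pth, Real.exp (-2 * ∫ s in (0 : ℝ)..h, V (u + w s)) ≤
      Real.exp (-2 * h * m) + A.indicator (fun _ => (1 : ℝ)) w := by
    intro w
    by_cases hw : w ∈ A
    · rw [indicator_of_mem hw]
      have h1 := wt_le hV hh.le u w
      rw [Dtv_two]
      have h2 := pow_le_one₀ (n := 2) (Real.exp_pos _).le h1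
      linarith [Real.exp_pos (-2 * h * m)]
    · rw [indicator_of_notMem hw, add_zero]
      have hw' : w ∉ S := fun h' => hw (hAS h')
      refine Real.exp_le_exp.2 ?_
      have h1 : ∫ _s in (0 : ℝ)..h, m ≤ ∫ s in (0 : ℝ)..h, V (u + w s) := by
        refine intervalIntegral.integral_mono_on hh.le (by simp) ?_ fun s hs => ?_
        · exact (hV.cont.comp (continuous_const.add (Pth.continuous w))).intervalIntegrable _ _
        · apply hm
          have h2 : |w s| < |u| / 2 := by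
            by_contra h3
            exact hw' ⟨s, hs, not_lt.1 h3⟩
          have h3 : |u| - |w s| ≤ |u + w s| := by
            have := abs_sub_abs_le_abs_sub u (-w s)
            rwa [abs_neg, sub_neg_eq_add] at this
          linarith
      rw [intervalIntegral.integral_const, sub_zero, smul_eq_mul] at h1
      linarith
  unfold om
  have hi2 : Integrable (fun w : Pth => Real.exp (-2 * h * m) + A.indicator (fun _ => (1 : ℝ)) w) Wm :=
    (integrable_const _).add ((integrable_const _).indicator hAm)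
  calc ∫ w, Real.exp (-2 * ∫ s in (0 : ℝ)..h, V (u + w s)) ∂Wm
      ≤ ∫ w, (Real.exp (-2 * h * m) + A.indicator (fun _ => (1 : ℝ)) w) ∂Wm :=
        integral_mono_of_nonneg (Filter.Eventually.of_forall fun w => (Real.exp_pos _).le) hi2
          (Filter.Eventually.of_forall hpt)
    _ = Real.exp (-2 * h * m) + Wm.real A := by
        rw [integral_add (integrable_const _) ((integrable_const _).indicator hAm),
          integral_indicator_const _ hAm]
        simp
    _ ≤ _ := by linarith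

theorem Dom_aux {α : ℝ} (hα : 0 < α) :
    ∃ C > 0, ∀ u : ℝ, Real.exp (-((|u| / 2) ^ α) / 4) * (1 + u ^ 2) ^ 4 ≤ C := by
  obtain ⟨n, hn⟩ := exists_nat_ge (8 / α)
  have hn8 : 8 ≤ α * n := by
    rw [div_le_iff₀ hα] at hn
    linarith
  refine ⟨(n.factorial : ℝ) * 4 ^ n * 2 ^ 8 * 4 + 5 ^ 4, by positivity, fun u => ?_⟩
  have h0 : (0 : ℝ) ≤ (|u| / 2) ^ α := Real.rpow_nonneg (by positivity) _
  rcases le_total |u| 2 with hu | hu
  · have h1 : Real.exp (-((|u| / 2) ^ α) / 4) ≤ 1 := by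
      rw [Real.exp_le_one_iff]
      linarith
    have h2 : (1 + u ^ 2) ^ 4 ≤ 5 ^ 4 := by
      refine pow_le_pow_left₀ (by positivity) ?_ 4
      rw [← sq_abs]
      nlinarith [abs_nonneg u]
    calc Real.exp (-((|u| / 2) ^ α) / 4) * (1 + u ^ 2) ^ 4 ≤ 1 * 5 ^ 4 :=
          mul_le_mul h1 h2 (by positivity) (by norm_num)
      _ ≤ _ := by
          have : (0 : ℝ) ≤ (n.factorial : ℝ) * 4 ^ n * 2 ^ 8 * 4 := by positivity
          linarith
  · set t : ℝ := (|u| / 2) ^ α with ht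
    have hu1 : 1 ≤ |u| / 2 := by linarith
    have ht1 : 1 ≤ t := Real.one_le_rpow hu1 hα.le
    have ht2 : (|u| / 2) ^ 8 ≤ t ^ n := by
      rw [ht, ← Real.rpow_natCast ((|u| / 2) ^ α) n, ← Real.rpow_mul (by positivity),
        ← Real.rpow_natCast (|u| / 2) 8]
      exact Real.rpow_le_rpow_of_exponent_le hu1 (by exact_mod_cast hn8)
    have h3 : (t / 4) ^ n / n.factorial ≤ Real.exp (t / 4) :=
      Real.pow_div_factorial_le_exp _ (by linarith) n
    have h4 : Real.exp (-t / 4) = (Real.exp (t / 4))⁻¹ := by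
      rw [← Real.exp_neg]
      congr 1
      ring
    have h5 : (1 + u ^ 2) ^ 4 ≤ 4 * u ^ 8 := by
      have h6 : 1 + u ^ 2 ≤ 5 / 4 * u ^ 2 := by
        rw [← sq_abs]
        nlinarith
      calc (1 + u ^ 2) ^ 4 ≤ (5 / 4 * u ^ 2) ^ 4 := pow_le_pow_left₀ (by positivity) h6 4
        _ = (5 / 4) ^ 4 * u ^ 8 := by ring
        _ ≤ 4 * u ^ 8 := by
          have : (0 : ℝ) ≤ u ^ 8 := by positivity
          nlinarith
    have h7 : u ^ 8 = 2 ^ 8 * (|u| / 2) ^ 8 := by
      rw [div_pow, ← Even.pow_abs (by decide : Even 8) u]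
      ring
    have hf : (0 : ℝ) < n.factorial := by positivity
    have h8 : t ^ n ≤ n.factorial * 4 ^ n * Real.exp (t / 4) := by
      rw [div_pow, div_div, div_le_iff₀ (by positivity)] at h3
      calc t ^ n ≤ Real.exp (t / 4) * (4 ^ n * n.factorial) := h3
        _ = _ := by ring
    rw [h4, inv_mul_le_iff₀ (Real.exp_pos _)]
    have h9 : (0 : ℝ) < Real.exp (t / 4) := Real.exp_pos _
    calc (1 + u ^ 2) ^ 4 ≤ 4 * (2 ^ 8 * (|u| / 2) ^ 8) := by rw [← h7]; exact h5
      _ ≤ 4 * (2 ^ 8 * (n.factorial * 4 ^ n * Real.exp (t / 4))) := by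
          have := ht2.trans h8
          linarith
      _ ≤ Real.exp (t / 4) * ((n.factorial : ℝ) * 4 ^ n * 2 ^ 8 * 4 + 5 ^ 4) := by nlinarith

theorem om_decay {α : ℝ} (hα : 0 < α) (hα2 : α < 2) :
    ∃ C > 0, ∀ h, 1 / 8 ≤ h → h ≤ 4 → ∀ u, om (Va α) h u ≤ C / (1 + u ^ 2) ^ 4 := by
  obtain ⟨C, hC, hCu⟩ := Dom_aux hα
  refine ⟨C + 4 * (3 * (24 * 32 ^ 4)) + 1, by positivity, fun h h1 h2 u => ?_⟩
  have hh : 0 < h := by linarith
  rw [le_div_iff₀ (by positivity)]
  rcases eq_or_ne u 0 with rfl | hu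
  · have := (om_le (pot_Va hα) hh.le 0).2
    norm_num
    linarith
  · have hm0 : (0 : ℝ) ≤ (|u| / 2) ^ α := Real.rpow_nonneg (by positivity) _
    have h3 := sup_split (pot_Va hα) hh hu hm0 fun x hx =>
      Real.rpow_le_rpow (by positivity) hx hα.le
    have h4 : Real.exp (-2 * h * (|u| / 2) ^ α) ≤ Real.exp (-((|u| / 2) ^ α) / 4) := by
      refine Real.exp_le_exp.2 ?_
      nlinarith
    have h5 : Real.exp (-u ^ 2 / (8 * h)) ≤ Real.exp (-u ^ 2 / 32) := by
      refine Real.exp_le_exp.2 ?_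
      rw [neg_div, neg_div, neg_le_neg_iff]
      exact div_le_div_of_nonneg_left (sq_nonneg u) (by positivity) (by linarith)
    have h6 : Real.exp (-u ^ 2 / 32) * (1 + u ^ 2) ^ 4 ≤ 3 * (24 * 32 ^ 4) := by
      have h7 : ((1 + u ^ 2) / 32) ^ 4 / (4 : ℕ).factorial ≤ Real.exp ((1 + u ^ 2) / 32) :=
        Real.pow_div_factorial_le_exp _ (by positivity) 4
      have h8 : Real.exp ((1 + u ^ 2) / 32) = Real.exp (1 / 32) * (Real.exp (-u ^ 2 / 32))⁻¹ := by
        rw [← Real.exp_neg, ← Real.exp_add]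
        congr 1
        ring
      have h9 : Real.exp (1 / 32) ≤ 3 := by
        have := Real.exp_one_lt_d9
        have h10 : Real.exp (1 / 32) ≤ Real.exp 1 := Real.exp_le_exp.2 (by norm_num)
        linarith
      have h11 : (4 : ℕ).factorial = 24 := rfl
      rw [h8, h11] at h7
      have h12 := Real.exp_pos (-u ^ 2 / 32)
      have h13 : ((1 + u ^ 2) / 32) ^ 4 / 24 ≤ 3 * (Real.exp (-u ^ 2 / 32))⁻¹ :=
        (by exact_mod_cast h7 : ((1 + u ^ 2) / 32) ^ 4 / 24 ≤
          Real.exp (1 / 32) * (Real.exp (-u ^ 2 / 32))⁻¹).trans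
          (mul_le_mul_of_nonneg_right h9 (inv_pos.2 h12).le)
      rw [← div_eq_mul_inv, le_div_iff₀ h12, div_pow] at h13
      nlinarith
    have h7 := hCu u
    have h8 : (0 : ℝ) ≤ (1 + u ^ 2) ^ 4 := by positivity
    calc om (Va α) h u * (1 + u ^ 2) ^ 4
        ≤ (Real.exp (-((|u| / 2) ^ α) / 4) + 4 * Real.exp (-u ^ 2 / 32)) * (1 + u ^ 2) ^ 4 :=
          mul_le_mul_of_nonneg_right (by linarith) h8
      _ = Real.exp (-((|u| / 2) ^ α) / 4) * (1 + u ^ 2) ^ 4 +
          4 * (Real.exp (-u ^ 2 / 32) * (1 + u ^ 2) ^ 4) := by ring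
      _ ≤ _ := by linarith

end Pool.H50.BB
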