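import Pool.Agent.H50.BB.Dtl
import Pool.Agent.H50.BB.Dom

/-!
# Row Dcp: weak-to-strong continuity   (about 90 lines)

`V = Va α`, `1/8 ≤ h ≤ 4`.  Let `‖x_n‖ ≤ M`, `⟪g, x_n⟫ → ⟪g, y⟫` for all `g ∈ E2`.
(1) For every `u`: `f ↦ TV V h f u` is linear on `E2` (`tv_add`, `tv_congr`) and bounded: `|TV V h f u|² ≤ om V h u (√(2πh))⁻¹ ‖f‖²` (`tv_sq`, `memLp_path`).  So it is `⟪g_u, ·⟫` (Riesz,
`InnerProductSpace.toDual`), and `TV V h x_n u → TV V h y u`.
(2) `(TV V h x_n u - TV V h y u)² ≤ om V h u (√(2πh))⁻¹ (2M')²` with `M' = max M ‖y‖`, integrable in `u` (`om_decay`).  Dominated convergence: `∫ (TV x_n - TV y)² → 0`, i.e. `‖TL x_n - TL y‖² → 0`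
(`nrm_sq`, `tl_coe`).
-/

open MeasureTheory ProbabilityTheory Set Filter Topology
open scoped NNReal ENNReal InnerProductSpace

namespace Pool.H50.BB

open Pool.Agent.H4.BM

theorem Dcp_add {V : ℝ → ℝ} (hV : Pot V) {h : ℝ} (hh : 0 < h) (f g : E2) (u : ℝ) :
    TV V h (f + g : E2) u = TV V h f u + TV V h g u := by
  have mf := (Lp.stronglyMeasurable f).measurable
  have mg := (Lp.stronglyMeasurable g).measurable
  have h5 : TV V h (f + g : E2) u = TV V h (fun x => 1 * f x + 1 * g x) u := by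
    refine tv_congr hh (Lp.stronglyMeasurable _).measurable
      ((mf.const_mul 1).add (mg.const_mul 1)) ?_ u
    filter_upwards [Lp.coeFn_add f g] with x hx
    rw [hx, Pi.add_apply]
    change f x + g x = 1 * f x + 1 * g x
    ring
  rw [h5, tv_add hV hh mf (Lp.memLp f) mg (Lp.memLp g)]
  ring

theorem Dcp_smul {V : ℝ → ℝ} (hV : Pot V) {h : ℝ} (hh : 0 < h) (c : ℝ) (f : E2) (u : ℝ) :
    TV V h (c • f : E2) u = c * TV V h f u := by
  have mf := (Lp.stronglyMeasurable f).measurable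
  have h5 : TV V h (c • f : E2) u = TV V h (fun x => c * f x + 0 * f x) u := by
    refine tv_congr hh (Lp.stronglyMeasurable _).measurable
      ((mf.const_mul c).add (mf.const_mul 0)) ?_ u
    filter_upwards [Lp.coeFn_smul c f] with x hx
    rw [hx, Pi.smul_apply, smul_eq_mul]
    change c * f x = c * f x + 0 * f x
    ring
  rw [h5, tv_add hV hh mf (Lp.memLp f) mf (Lp.memLp f)]
  ring

theorem Dcp_sq {V : ℝ → ℝ} (hV : Pot V) {h : ℝ} (hh : 0 < h) (f : E2) (u : ℝ) :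
    TV V h f u ^ 2 ≤ om V h u * (√(2 * Real.pi * h))⁻¹ * ‖f‖ ^ 2 := by
  have mf := (Lp.stronglyMeasurable f).measurable
  refine (tv_sq hV hh mf (Lp.memLp f) u).trans ?_
  rw [mul_assoc, nrm_sq]
  exact mul_le_mul_of_nonneg_left (memLp_path hh mf (Lp.memLp f) u).2 (om_le hV hh.le u).1

/-- evaluation as a continuous functional -/
noncomputable def Dcp_ev {V : ℝ → ℝ} (hV : Pot V) {h : ℝ} (hh : 0 < h) (u : ℝ) : E2 →L[ℝ] ℝ :=
  LinearMap.mkContinuous
    { toFun := fun f => TV V h f u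
      map_add' := fun f g => Dcp_add hV hh f g u
      map_smul' := fun c f => Dcp_smul hV hh c f u }
    (√(om V h u * (√(2 * Real.pi * h))⁻¹)) (fun f => by
      change ‖TV V h f u‖ ≤ _
      rw [Real.norm_eq_abs]
      have h1 := Real.abs_le_sqrt (Dcp_sq hV hh f u)
      rw [Real.sqrt_mul (mul_nonneg (om_le hV hh.le u).1 (by positivity)),
        Real.sqrt_sq (norm_nonneg _)] at h1
      exact h1)

theorem Dcp_ev_apply {V : ℝ → ℝ} (hV : Pot V) {h : ℝ} (hh : 0 < h) (u : ℝ) (f : E2) :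
    Dcp_ev hV hh u f = TV V h f u := rfl

theorem tl_cpt {α : ℝ} (hα : 0 < α) (hα2 : α < 2) {h : ℝ} (hh : 1 / 8 ≤ h) (hh4 : h ≤ 4) (hh0 : 0 < h) (x : ℕ → E2) (y : E2)
    (M : ℝ) (hM : ∀ n, ‖x n‖ ≤ M) (hw : ∀ g : E2, Tendsto (fun n => ⟪g, x n⟫_ℝ) atTop (𝓝 ⟪g, y⟫_ℝ)) :
    Tendsto (fun n => TL (pot_Va hα) hh0 (x n)) atTop (𝓝 (TL (pot_Va hα) hh0 y)) := by
  have hV := pot_Va hα
  set c : ℝ := (√(2 * Real.pi * h))⁻¹ with hc
  have hc0 : 0 ≤ c := by positivity
  obtain ⟨C, hC, hdec⟩ := om_decay hα hα2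
  have hM0 : 0 ≤ M := (norm_nonneg _).trans (hM 0)
  set K : ℝ := M + ‖y‖ with hK
  have hK0 : 0 ≤ K := by positivity
  -- pointwise convergence
  have hpt : ∀ u, Tendsto (fun n => (TV (Va α) h (x n) u - TV (Va α) h y u) ^ 2) atTop (𝓝 0) := by
    intro u
    have h1 := hw ((InnerProductSpace.toDual ℝ E2).symm (Dcp_ev hV hh0 u))
    simp only [InnerProductSpace.toDual_symm_apply, Dcp_ev_apply] at h1
    have h2 := (h1.sub_const (TV (Va α) h y u)).pow 2
    simpa using h2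
  -- domination
  have hdom : ∀ n u, (TV (Va α) h (x n) u - TV (Va α) h y u) ^ 2 ≤ C * c * K ^ 2 * (1 + u ^ 2)⁻¹ := by
    intro n u
    have h1 : TV (Va α) h (x n) u - TV (Va α) h y u = TV (Va α) h (x n - y : E2) u := by
      rw [← Dcp_ev_apply hV hh0, ← Dcp_ev_apply hV hh0, ← Dcp_ev_apply hV hh0, map_sub]
    rw [h1]
    refine (Dcp_sq hV hh0 _ u).trans ?_
    have h2 : ‖x n - y‖ ≤ K := (norm_sub_le _ _).trans (by rw [hK]; linarith [hM n])
    have h3 : ‖x n - y‖ ^ 2 ≤ K ^ 2 := pow_le_pow_left₀ (norm_nonneg _) h2 2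
    have h4 : om (Va α) h u ≤ C * (1 + u ^ 2)⁻¹ := by
      refine (hdec h hh hh4 u).trans ?_
      rw [div_eq_mul_inv]
      refine mul_le_mul_of_nonneg_left ?_ hC.le
      apply inv_anti₀ (by positivity)
      have h5 : (1 : ℝ) ≤ 1 + u ^ 2 := by nlinarith [sq_nonneg u]
      calc 1 + u ^ 2 = (1 + u ^ 2) ^ 1 := (pow_one _).symm
        _ ≤ (1 + u ^ 2) ^ 4 := pow_le_pow_right₀ h5 (by norm_num)
    have h6 := (om_le hV hh0.le u).1
    calc om (Va α) h u * c * ‖x n - y‖ ^ 2 ≤ (C * (1 + u ^ 2)⁻¹) * c * K ^ 2 := by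
          have h7 : (0 : ℝ) ≤ (1 + u ^ 2)⁻¹ := by positivity
          gcongr
      _ = _ := by ring
  have hlim : Tendsto (fun n => ∫ u, (TV (Va α) h (x n) u - TV (Va α) h y u) ^ 2) atTop
      (𝓝 (∫ _u : ℝ, (0 : ℝ))) := by
    refine tendsto_integral_of_dominated_convergence (fun u => C * c * K ^ 2 * (1 + u ^ 2)⁻¹) ?_ ?_ ?_ ?_
    · intro n
      exact (((tv_meas hV hh0 (Lp.stronglyMeasurable (x n)).measurable).sub
        (tv_meas hV hh0 (Lp.stronglyMeasurable y).measurable)).pow_const 2).aestronglyMeasurable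
    · exact integrable_inv_one_add_sq.const_mul _
    · intro n
      refine Eventually.of_forall fun u => ?_
      rw [Real.norm_of_nonneg (sq_nonneg _)]
      exact hdom n u
    · exact Eventually.of_forall hpt
  rw [integral_zero] at hlim
  have hsq : ∀ n, ‖TL hV hh0 (x n) - TL hV hh0 y‖ ^ 2
      = ∫ u, (TV (Va α) h (x n) u - TV (Va α) h y u) ^ 2 := by
    intro n
    rw [nrm_sq]
    refine integral_congr_ae ?_
    filter_upwards [tl_coe hV hh0 (x n), tl_coe hV hh0 y,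
      Lp.coeFn_sub (TL hV hh0 (x n)) (TL hV hh0 y)] with u h1 h2 h3
    rw [h3, Pi.sub_apply, h1, h2]
  rw [tendsto_iff_norm_sub_tendsto_zero]
  have h1 : Tendsto (fun n => √(‖TL hV hh0 (x n) - TL hV hh0 y‖ ^ 2)) atTop (𝓝 (√0)) := by
    simp_rw [hsq]
    exact hlim.sqrt
  simp only [Real.sqrt_zero] at h1
  refine h1.congr fun n => ?_
  exact Real.sqrt_sq (norm_nonneg _)

end Pool.H50.BB
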