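import Mathlib
import Pool.Agent.H4.BM.Wiener
import Pool.Agent.H4.BM.Exists

/-!
# Definitions for MP_4b98c1 (branching Brownian motion with angle-dependent branching)
-/

open MeasureTheory ProbabilityTheory Set Filter Topology
open scoped NNReal ENNReal

namespace Pool.H50.BB

open Pool.Agent.H4.BM

/-- Wiener measure -/
noncomputable def Wm : Measure Pth := exists_IsW.choose

theorem Wm_isW : IsW Wm := exists_IsW.choose_spec

instance : IsProbabilityMeasure Wm := Wm_isW.prob

/-- a pair of paths: a path in the plane -/
abbrev P2 := Pth × Pth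

/-- law of planar Brownian motion -/
noncomputable def W2 : Measure P2 := Wm.prod Wm

instance : IsProbabilityMeasure W2 := by unfold W2; infer_instance

/-- position at time `s` -/
def pt (w : P2) (s : ℝ) : ℂ := ⟨w.1 s, w.2 s⟩

/-! ### the branching system -/

/-- the accumulated branching rate along the path `x + w` up to time `s` -/
noncomputable def clock (b : ℝ → ℝ) (w : P2) (x : ℂ) (s : ℝ) : ℝ :=
  ∫ r in (0 : ℝ)..s, b (Complex.arg (x + pt w r))

/-- the time at which a particle with path `x + w` and exponential mark `e` splits -/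
noncomputable def tau (b : ℝ → ℝ) (m : P2 × ℝ) (x : ℂ) : ℝ :=
  sInf {s : ℝ | 0 ≤ s ∧ m.2 ≤ clock b m.1 x s}

/-- a configuration: one mark (a planar path and a positive number) for each possible particle;
particles are words in two letters, the first letter is the choice of the child of the root -/
abbrev Cfg := List Bool → P2 × ℝ

/-- the configuration of the subtree of the child `c` of the root -/
def sub (c : Bool) (ω : Cfg) : Cfg := fun u => ω (c :: u)

/-- the particle `u` is alive at time `t` (root started at `x` at time `0`) -/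
def Alive (b : ℝ → ℝ) : List Bool → Cfg → ℂ → ℝ → Prop
  | [], ω, x, t => clock b (ω []).1 x t < (ω []).2
  | c :: u, ω, x, t => (ω []).2 ≤ clock b (ω []).1 x t ∧
      Alive b u (sub c ω) (x + pt (ω []).1 (tau b (ω []) x)) (t - tau b (ω []) x)

/-- position of the particle `u` at time `t` -/
noncomputable def pos (b : ℝ → ℝ) : List Bool → Cfg → ℂ → ℝ → ℂ
  | [], ω, x, t => x + pt (ω []).1 t
  | c :: u, ω, x, t => pos b u (sub c ω) (x + pt (ω []).1 (tau b (ω []) x)) (t - tau b (ω []) x)

/-- law of one mark -/
noncomputable def mk : Measure (P2 × ℝ) := W2.prod (expMeasure 1)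

instance : IsProbabilityMeasure mk := by
  have : IsProbabilityMeasure (expMeasure 1) := isProbabilityMeasure_expMeasure one_pos
  unfold mk; infer_instance

/-- law of the configuration -/
noncomputable def PP : Measure Cfg := Measure.infinitePi fun _ => mk

instance : IsProbabilityMeasure PP := by unfold PP; infer_instance

/-- probability that some particle is in `A` at time `t` -/
noncomputable def vf (b : ℝ → ℝ) (A : Set ℂ) (t : ℝ) (x : ℂ) : ℝ :=
  (PP {ω | ∃ u, Alive b u ω x t ∧ pos b u ω x t ∈ A}).toReal

/-- the branching rates that we admit in the general part -/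
structure Rate (b : ℝ → ℝ) : Prop where
  cont : Continuous b
  nonneg : ∀ θ, 0 ≤ b θ
  le_one : ∀ θ, b θ ≤ 1

/-! ### Feynman-Kac operators in the plane -/

/-- bounded measurable functions of time and space -/
structure Bdd (K : ℝ) (f : ℝ → ℂ → ℝ) : Prop where
  meas : Measurable (Function.uncurry f)
  bdd : ∀ s x, |f s x| ≤ K

/-- `E_{s,x} [exp (∫_s^r k) g(B_r)]` -/
noncomputable def PK (k : ℝ → ℂ → ℝ) (s r : ℝ) (g : ℂ → ℝ) (x : ℂ) : ℝ :=
  ∫ w, Real.exp (∫ u in s..r, k u (x + pt w (u - s))) * g (x + pt w (r - s)) ∂W2

end Pool.H50.BB
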