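import Pool.Agent.H50.BB.Defs

/-!
# More definitions: one-dimensional Brownian tools
-/

open MeasureTheory ProbabilityTheory Set Filter Topology
open scoped NNReal ENNReal

namespace Pool.H50.BB

open Pool.Agent.H4.BM

/-- Gaussian density of variance `v` -/
noncomputable def gd (v x : ℝ) : ℝ := (√(2 * Real.pi * v))⁻¹ * Real.exp (-x ^ 2 / (2 * v))

/-- kernel of Brownian motion killed at `0` -/
noncomputable def kk (T D d : ℝ) : ℝ := gd T (d - D) - gd T (d + D)

/-- density of the first time at which Brownian motion meets the line `D + μ s` -/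
noncomputable def fpd (μ D s : ℝ) : ℝ :=
  D * (√(2 * Real.pi * s ^ 3))⁻¹ * Real.exp (-(D + μ * s) ^ 2 / (2 * s))

/-- paths that stay strictly below the line `D + μ s` on `[0,T]` -/
def Blw (D μ T : ℝ) : Set Pth := {w | ∀ s ∈ Icc (0 : ℝ) T, w s < D + μ * s}

/-- first time at which the path meets the line -/
noncomputable def hit (D μ : ℝ) (w : Pth) : ℝ := sInf {s : ℝ | 0 ≤ s ∧ D + μ * s ≤ w s}

/-- the path `w + p` -/
def addP (p w : Pth) : Pth :=
  ⟨fun t => w t + p t, w.continuous.add p.continuous, fun t ht => by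
    rw [w.of_nonpos ht, p.of_nonpos ht, add_zero]⟩

/-- the line with slope `μ` as a path -/
def lineP (μ : ℝ) : Pth :=
  ⟨fun t => μ * max t 0, by fun_prop, fun t ht => by rw [max_eq_right ht, mul_zero]⟩

/-- `E_{r,y} [exp (-∫_r^t c(s,Y_s) ds) f(Y_t)]` for one-dimensional Brownian motion `Y` -/
noncomputable def Gm (c : ℝ → ℝ → ℝ) (r t : ℝ) (f : ℝ → ℝ≥0∞) (y : ℝ) : ℝ≥0∞ :=
  ∫⁻ w, ENNReal.ofReal (Real.exp (-∫ s in r..t, c s (y + w (s - r)))) * f (y + w (t - r)) ∂Wm

end Pool.H50.BB
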