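import Pool.Agent.H50.BB.Defs1

/-!
# Definitions for the lateral part
-/

open MeasureTheory ProbabilityTheory Set Filter Topology
open scoped NNReal ENNReal

namespace Pool.H50.BB

open Pool.Agent.H4.BM

/-- admissible potentials -/
structure Pot (V : ℝ → ℝ) : Prop where
  cont : Continuous V
  nonneg : ∀ x, 0 ≤ V x

/-- `E [exp (-∫_0^h V(u + w_s) ds) f(u + w_h)]`, real-valued version -/
noncomputable def TV (V : ℝ → ℝ) (h : ℝ) (f : ℝ → ℝ) (u : ℝ) : ℝ :=
  ∫ w, Real.exp (-∫ s in (0 : ℝ)..h, V (u + w s)) * f (u + w h) ∂Wm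

/-- `E [exp (-2 ∫_0^h V(u + w_s) ds)]` -/
noncomputable def om (V : ℝ → ℝ) (h u : ℝ) : ℝ := ∫ w, Real.exp (-2 * ∫ s in (0 : ℝ)..h, V (u + w s)) ∂Wm

/-- the homogeneous potential -/
noncomputable def Va (α u : ℝ) : ℝ := |u| ^ α

/-- the truncated potential -/
noncomputable def Vt (α ω R u : ℝ) : ℝ := (1 - ω) * (min |u| R) ^ α

noncomputable def gam (α : ℝ) : ℝ := α / (2 + α)

noncomputable def gg (α : ℝ) : ℝ := (2 - α) / (2 + α)

/-- `β' ^ (-1/(2+α))`, `β' = β 2^(-α/2)` -/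
noncomputable def kb (α β : ℝ) : ℝ := (β * 2 ^ (-α / 2)) ^ (-1 / (2 + α))

/-- the lateral scale -/
noncomputable def ell (α β s : ℝ) : ℝ := kb α β * s ^ gam α

/-- the limiting potential -/
noncomputable def c0 (α β s y : ℝ) : ℝ := β * (|y| / (√2 * max s 1)) ^ α

/-- the lower potential -/
noncomputable def cfl (α β C ζ η s y : ℝ) : ℝ :=
  max 0 (1 - C * (max s 1) ^ (-ζ)) * (β * (min |y| ((max s 1) ^ (gam α + η)) / (√2 * max s 1)) ^ α)

/-- the curve -/
noncomputable def kap (α β lam s : ℝ) : ℝ := lam * s ^ gg α / (√2 * gg α * kb α β ^ 2)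

/-- the normalisation -/
noncomputable def NN (α β lam r t : ℝ) : ℝ :=
  (t / r) ^ (gam α / 2) * Real.exp (-√2 * (kap α β lam t - kap α β lam r))

end Pool.H50.BB
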