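import Pool.Agent.H50.BB.Defs2

/-!
# Definitions for the a priori bound
-/

open MeasureTheory ProbabilityTheory Set Filter Topology
open scoped NNReal ENNReal

namespace Pool.H50.BB

open Pool.Agent.H4.BM

/-- the hypotheses (A1), (A2) of the problem -/
structure A12 (b : ℝ → ℝ) (α β : ℝ) : Prop where
  cont : Continuous b
  per : Function.Periodic b (2 * Real.pi)
  nonneg : ∀ θ, 0 ≤ b θ
  max : ∀ θ ∈ Icc (-Real.pi) Real.pi, θ ≠ 0 → b θ < b 0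
  asy : (fun θ => b θ - (1 - β * |θ| ^ α)) =O[𝓝 0] fun θ => θ ^ 2

/-- properties of the curve -/
structure Kap (κ : ℝ → ℝ) (γ Λ s0 : ℝ) : Prop where
  γ0 : 0 ≤ γ
  γ1 : γ < 1
  s1 : 1 ≤ s0
  Λ0 : 0 ≤ Λ
  cont : ContinuousOn κ (Ici s0)
  mono : ∀ s t, s0 ≤ s → s ≤ t → κ s ≤ κ t
  conc : ∀ s s' t, s0 ≤ s → s ≤ s' → s' ≤ t → (s' - s) * (κ t - κ s) ≤ (t - s) * (κ s' - κ s)
  log_le : ∀ s t, s0 ≤ s → s ≤ t → γ / (2 * √2) * Real.log (t / s) ≤ κ t - κ s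
  grow : ∀ s t, s0 ≤ s → s ≤ t → κ t - κ s ≤ Λ * √(t - s)

/-- expected displacement of the front between times `s` and `t` -/
noncomputable def MM (κ : ℝ → ℝ) (γ s t : ℝ) : ℝ :=
  √2 * (t - s) - (κ t - κ s) - 3 / (2 * √2) * Real.log (t - s + 1) + γ / (2 * √2) * Real.log (t / s)

/-- the defect `√2 (t-s) - MM` -/
noncomputable def Nn (κ : ℝ → ℝ) (γ s t : ℝ) : ℝ :=
  (κ t - κ s) + 3 / (2 * √2) * Real.log (t - s + 1) - γ / (2 * √2) * Real.log (t / s)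

/-- the bound of the lateral functional -/
noncomputable def Gf (κ : ℝ → ℝ) (γ s s' : ℝ) : ℝ := (s' / s) ^ (γ / 2) * Real.exp (-√2 * (κ s' - κ s))

/-- slope of the line from `(s, x + X + 1)` to `(t, z)` -/
noncomputable def mu (κ : ℝ → ℝ) (γ s t : ℝ) : ℝ := (MM κ γ s t - 1) / (t - s)

/-- the value of `X` at the point of the line at time `s + σ` -/
noncomputable def Xs (κ : ℝ → ℝ) (γ s t σ : ℝ) : ℝ :=
  Nn κ γ (s + σ) t - (Nn κ γ s t + 1) * (t - s - σ) / (t - s)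

/-- the centring -/
noncomputable def mm (α β lam t : ℝ) : ℝ :=
  √2 * t - kap α β lam t - (3 - gam α) / (2 * √2) * Real.log t

end Pool.H50.BB
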