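import Pool.Agent.H50.BB.Dph

/-!
# Row Det: perturbation estimates for the windows   (about 200 lines)

`0 < α < 2`, `V = Va α`, `V' = Vt α ω R` (`≤ V`), `0 ≤ ω ≤ 1/2`, `R ≥ 1`, `1/8 ≤ h ≤ 4`.
Weights: `Z(u,w) = exp(-∫_0^h V'(u+w)) - exp(-∫_0^h V(u+w)) ≥ 0`.
(i) if `|u + w s| ≤ R` on `[0,h]`: `V' = (1-ω) V` there, with `I = ∫_0^h V(u+w) ≥ 0`: `Z = e^{-(1-ω)I} - e^{-I} ≤ ω I e^{-I/2} ≤ ω`.
(ii) otherwise, if `|w s| < R/4` on `[0,h]` (so that `|u+w s| > R/2` for all `s`): `Z ≤ exp (-(h/2) (R/2)^α) ≤ exp (-(R/2)^α/16)`.  (iii) otherwise `Z ≤ 1`.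
So `Z(u,w) ≤ Y(w) := ω + exp(-(R/2)^α/16) + 1{∃ s ∈ [0,h], R/4 ≤ |w s|}`, and `∫ Y, (∫ Y²)^{1/2} ≤ C (ω + exp (-c R^α))` (`sup_tail`: `4 exp(-R²/(32 h)) ≤ 4 exp(-R²/128) ≤ 4 exp(-R^α/128)`, as `R ≥ 1`).
`det1` is `tv_gen` for the norm (note `nrm f = √∫f²`); pointwise: Cauchy-Schwarz `|∫ Z f(u + w h)| ≤ (∫Y²)^{1/2} ((√(2πh))⁻¹ ∫f²)^{1/2}` (`memLp_path`).
`det2`: `(1 - e^{-ρ u²})² (TV f u)² ≤ ρ² u⁴ om(h,u) ∫ w, f(u + w h)²` (`tv_sq`), `u⁴ om ≤ C` (`om_decay`), integrate (`path_L2`).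
`det3`: `|TV V h f u| ≤ C nrm f` for every Pot `V` and `h ≥ 1/8` (`tv_sq`, `om ≤ 1`, `memLp_path`).
-/

open MeasureTheory ProbabilityTheory Set Filter Topology
open scoped NNReal ENNReal

namespace Pool.H50.BB

open Pool.Agent.H4.BM

theorem Det_nrm_sq (f : ℝ → ℝ) : nrm f ^ 2 = ∫ x, f x ^ 2 := by
  unfold nrm
  exact Real.sq_sqrt (integral_nonneg fun x => sq_nonneg _)

theorem Det_nrm_nonneg (f : ℝ → ℝ) : 0 ≤ nrm f := Real.sqrt_nonneg _

theorem Det_nrm_le {f g : ℝ → ℝ} {c : ℝ} (hc : 0 ≤ c) (h : ∫ x, g x ^ 2 ≤ c ^ 2 * ∫ x, f x ^ 2) : nrm g ≤ c * nrm f := by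
  have h1 : nrm g ^ 2 ≤ (c * nrm f) ^ 2 := by
    rw [mul_pow, Det_nrm_sq, Det_nrm_sq]
    exact h
  exact le_of_sq_le_sq h1 (mul_nonneg hc (Det_nrm_nonneg f))

theorem Det_cs {Ω : Type*} [MeasurableSpace Ω] {μ : Measure Ω} {Y g : Ω → ℝ} (hY : Integrable (fun w => Y w ^ 2) μ)
    (hg : Integrable (fun w => g w ^ 2) μ) (hYg : Integrable (fun w => Y w * g w) μ) :
    (∫ w, Y w * g w ∂μ) ^ 2 ≤ (∫ w, Y w ^ 2 ∂μ) * ∫ w, g w ^ 2 ∂μ := by
  have h : ∀ t : ℝ, 0 ≤ (∫ w, g w ^ 2 ∂μ) * (t * t) + 2 * (∫ w, Y w * g w ∂μ) * t + ∫ w, Y w ^ 2 ∂μ := by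
    intro t
    have h1 : 0 ≤ ∫ w, (Y w + t * g w) ^ 2 ∂μ := integral_nonneg fun w => sq_nonneg _
    have h2 : ∫ w, (Y w + t * g w) ^ 2 ∂μ =
        (∫ w, g w ^ 2 ∂μ) * (t * t) + 2 * (∫ w, Y w * g w ∂μ) * t + ∫ w, Y w ^ 2 ∂μ := by
      have e : ∀ w, (Y w + t * g w) ^ 2 = g w ^ 2 * (t * t) + Y w * g w * (2 * t) + Y w ^ 2 := fun w => by ring
      simp_rw [e]
      have i1 : Integrable (fun w => g w ^ 2 * (t * t)) μ := hg.mul_const _
      have i2 : Integrable (fun w => Y w * g w * (2 * t)) μ := hYg.mul_const _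
      have i3 : Integrable (fun w => g w ^ 2 * (t * t) + Y w * g w * (2 * t)) μ := i1.add i2
      rw [integral_add i3 hY, integral_add i1 i2, integral_mul_const, integral_mul_const]
      ring
    rw [h2] at h1
    exact h1
  have h3 := discrim_le_zero h
  unfold discrim at h3
  nlinarith

theorem Det_I (I : ℝ) : I * Real.exp (-(I / 2)) ≤ 1 := by
  have h1 := Real.add_one_le_exp (I / 2 - 1)
  have h2 : Real.exp (I / 2 - 1) = Real.exp (I / 2) / Real.exp 1 := Real.exp_sub _ _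
  have h3 : (2 : ℝ) ≤ Real.exp 1 := by
    have := Real.add_one_le_exp (1 : ℝ)
    linarith
  have h4 : Real.exp (I / 2) / Real.exp 1 ≤ Real.exp (I / 2) / 2 := by
    gcongr
  have h5 : I ≤ Real.exp (I / 2) := by
    rw [h2] at h1
    linarith
  rw [Real.exp_neg, ← div_eq_mul_inv, div_le_one (Real.exp_pos _)]
  exact h5

theorem Det_i {ω I : ℝ} (h0 : 0 ≤ ω) (h1 : ω ≤ 1 / 2) (hI : 0 ≤ I) :
    Real.exp (-((1 - ω) * I)) - Real.exp (-I) ≤ ω := by
  have e1 : Real.exp (-I) = Real.exp (-((1 - ω) * I)) * Real.exp (-(ω * I)) := by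
    rw [← Real.exp_add]
    congr 1
    ring
  have h2 := Real.add_one_le_exp (-(ω * I))
  have h3 : Real.exp (-((1 - ω) * I)) ≤ Real.exp (-(I / 2)) := by
    apply Real.exp_le_exp.2
    nlinarith
  have h4 : 0 < Real.exp (-((1 - ω) * I)) := Real.exp_pos _
  have h5 : 0 ≤ ω * I := mul_nonneg h0 hI
  calc Real.exp (-((1 - ω) * I)) - Real.exp (-I) = Real.exp (-((1 - ω) * I)) * (1 - Real.exp (-(ω * I))) := by
        rw [e1]
        ring
    _ ≤ Real.exp (-((1 - ω) * I)) * (ω * I) := mul_le_mul_of_nonneg_left (by linarith) h4.le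
    _ ≤ Real.exp (-(I / 2)) * (ω * I) := mul_le_mul_of_nonneg_right h3 h5
    _ = ω * (I * Real.exp (-(I / 2))) := by ring
    _ ≤ ω * 1 := mul_le_mul_of_nonneg_left (Det_I I) h0
    _ = ω := mul_one ω

/-- the set of the paths which reach height `m` -/
def DetS (h m : ℝ) : Set Pth := {w | ∃ s ∈ Icc (0 : ℝ) h, m ≤ |w s|}

theorem Det_Z {α : ℝ} (hα : 0 < α) {ω R h : ℝ} (h0 : 0 ≤ ω) (h1 : ω ≤ 1 / 2) (hR : 1 ≤ R) (hh : 1 / 8 ≤ h) (u : ℝ) (w : Pth) :
    0 ≤ Real.exp (-∫ s in (0 : ℝ)..h, Vt α ω R (u + w s)) - Real.exp (-∫ s in (0 : ℝ)..h, Va α (u + w s)) ∧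
    Real.exp (-∫ s in (0 : ℝ)..h, Vt α ω R (u + w s)) - Real.exp (-∫ s in (0 : ℝ)..h, Va α (u + w s)) ≤
      ω + Real.exp (-((R / 2) ^ α / 16)) + (DetS h (R / 4)).indicator (fun _ => (1 : ℝ)) w := by
  have hV := pot_Va hα
  have hV' := pot_Vt (ω := ω) (R := R) hα (by linarith) (by linarith)
  have hh0 : 0 ≤ h := by linarith
  have hc : Continuous fun s : ℝ => u + w s := continuous_const.add w.continuous
  have hi : IntervalIntegrable (fun s => Va α (u + w s)) volume 0 h := (hV.cont.comp hc).intervalIntegrable _ _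
  have hi' : IntervalIntegrable (fun s => Vt α ω R (u + w s)) volume 0 h := (hV'.cont.comp hc).intervalIntegrable _ _
  have hle : ∀ x, Vt α ω R x ≤ Va α x := by
    intro x
    unfold Vt Va
    have h2 : (min |x| R) ^ α ≤ |x| ^ α :=
      Real.rpow_le_rpow (le_min (abs_nonneg _) (by linarith)) (min_le_left _ _) hα.le
    have h3 : 0 ≤ (min |x| R) ^ α := Real.rpow_nonneg (le_min (abs_nonneg _) (by linarith)) _
    nlinarith
  have hmono : ∫ s in (0 : ℝ)..h, Vt α ω R (u + w s) ≤ ∫ s in (0 : ℝ)..h, Va α (u + w s) :=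
    intervalIntegral.integral_mono_on hh0 hi' hi fun s _ => hle _
  have hind : 0 ≤ (DetS h (R / 4)).indicator (fun _ => (1 : ℝ)) w := Set.indicator_nonneg (fun _ _ => zero_le_one) _
  have he := Real.exp_pos (-((R / 2) ^ α / 16))
  refine ⟨sub_nonneg.2 (Real.exp_le_exp.2 (by linarith)), ?_⟩
  by_cases hcase : ∀ s ∈ Icc (0 : ℝ) h, |u + w s| ≤ R
  · have hI : ∫ s in (0 : ℝ)..h, Vt α ω R (u + w s) = (1 - ω) * ∫ s in (0 : ℝ)..h, Va α (u + w s) := by
      rw [← intervalIntegral.integral_const_mul]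
      apply intervalIntegral.integral_congr
      intro s hs
      rw [uIcc_of_le hh0] at hs
      have := hcase s hs
      show Vt α ω R (u + w s) = (1 - ω) * Va α (u + w s)
      unfold Vt Va
      rw [min_eq_left this]
    have hInn : 0 ≤ ∫ s in (0 : ℝ)..h, Va α (u + w s) :=
      intervalIntegral.integral_nonneg hh0 fun s _ => hV.nonneg _
    rw [hI]
    have := Det_i h0 h1 hInn
    linarith
  · push Not at hcase
    obtain ⟨s0, hs0, hs0R⟩ := hcase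
    have hVnn : 0 ≤ Real.exp (-∫ s in (0 : ℝ)..h, Va α (u + w s)) := (Real.exp_pos _).le
    by_cases hcase2 : ∀ s ∈ Icc (0 : ℝ) h, |w s| < R / 4
    · have hu : 3 / 4 * R < |u| := by
        have h2 := abs_add_le u (w s0)
        have h3 := hcase2 s0 hs0
        linarith
      have hlow : (1 / 2 * (R / 2) ^ α) * h ≤ ∫ s in (0 : ℝ)..h, Vt α ω R (u + w s) := by
        have h2 : ∫ _s in (0 : ℝ)..h, (1 / 2 * (R / 2) ^ α) ≤ ∫ s in (0 : ℝ)..h, Vt α ω R (u + w s) := by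
          apply intervalIntegral.integral_mono_on hh0 intervalIntegrable_const hi'
          intro s hs
          have h3 := hcase2 s hs
          have h4 : R / 2 ≤ |u + w s| := by
            have h5 := abs_sub_abs_le_abs_add u (w s)
            linarith
          unfold Vt
          have h6 : (R / 2) ^ α ≤ (min |u + w s| R) ^ α :=
            Real.rpow_le_rpow (by linarith) (le_min h4 (by linarith)) hα.le
          have h7 : 0 ≤ (R / 2) ^ α := Real.rpow_nonneg (by linarith) _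
          nlinarith
        rw [intervalIntegral.integral_const, sub_zero, smul_eq_mul] at h2
        linarith
      have h8 : 0 ≤ (R / 2) ^ α := Real.rpow_nonneg (by linarith) _
      have h9 : (R / 2) ^ α / 16 ≤ ∫ s in (0 : ℝ)..h, Vt α ω R (u + w s) := by
        refine le_trans ?_ hlow
        nlinarith
      have h10 : Real.exp (-∫ s in (0 : ℝ)..h, Vt α ω R (u + w s)) ≤ Real.exp (-((R / 2) ^ α / 16)) :=
        Real.exp_le_exp.2 (by linarith)
      linarith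
    · push Not at hcase2
      obtain ⟨s1, hs1, hs1R⟩ := hcase2
      have hw : w ∈ DetS h (R / 4) := ⟨s1, hs1, hs1R⟩
      rw [Set.indicator_of_mem hw]
      have h2 := wt_le hV' hh0 u w
      linarith

/-- the majorant -/
noncomputable def DetY (α ω R h : ℝ) (w : Pth) : ℝ :=
  ω + Real.exp (-((R / 2) ^ α / 16)) + (toMeasurable Wm (DetS h (R / 4))).indicator (fun _ => (1 : ℝ)) w

theorem Det_Y_meas (α ω R h : ℝ) : Measurable (DetY α ω R h) := by
  unfold DetY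
  exact measurable_const.add (measurable_const.indicator (measurableSet_toMeasurable _ _))

theorem Det_exp {α R : ℝ} (hα : 0 < α) (hα2 : α < 2) (hR : 1 ≤ R) :
    Real.exp (-((R / 2) ^ α / 16)) ≤ Real.exp (-(1 / 128) * R ^ α) := by
  apply Real.exp_le_exp.2
  have hR0 : 0 ≤ R := by linarith
  have h1 : (R / 2) ^ α = R ^ α / 2 ^ α := Real.div_rpow hR0 (by norm_num) α
  have h2 : (2 : ℝ) ^ α ≤ 4 := by
    calc (2 : ℝ) ^ α ≤ 2 ^ (2 : ℝ) := Real.rpow_le_rpow_of_exponent_le (by norm_num) hα2.le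
      _ = 4 := by norm_num
  have h3 : (0 : ℝ) < 2 ^ α := Real.rpow_pos_of_pos (by norm_num) _
  have h4 : 0 ≤ R ^ α := Real.rpow_nonneg hR0 _
  have h5 : R ^ α / 4 ≤ (R / 2) ^ α := by
    rw [h1]
    exact div_le_div_of_nonneg_left h4 h3 h2
  linarith

theorem Det_S {α R h : ℝ} (hα2 : α < 2) (hR : 1 ≤ R) (hh : 1 / 8 ≤ h) (hh4 : h ≤ 4) :
    (Wm (toMeasurable Wm (DetS h (R / 4)))).toReal ≤ 4 * Real.exp (-(1 / 128) * R ^ α) := by
  rw [measure_toMeasurable]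
  have h1 : Wm (DetS h (R / 4)) ≤ ENNReal.ofReal (4 * Real.exp (-(R / 4) ^ 2 / (2 * h))) :=
    sup_tail (by linarith) (by linarith)
  have h2 := ENNReal.toReal_mono ENNReal.ofReal_ne_top h1
  rw [ENNReal.toReal_ofReal (by positivity)] at h2
  refine h2.trans ?_
  apply mul_le_mul_of_nonneg_left _ (by norm_num)
  apply Real.exp_le_exp.2
  have h3 : R ^ α ≤ R ^ 2 := by
    calc R ^ α ≤ R ^ (2 : ℝ) := Real.rpow_le_rpow_of_exponent_le hR hα2.le
      _ = R ^ 2 := Real.rpow_two R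
  have h4 : 1 / 128 * R ^ 2 ≤ (R / 4) ^ 2 / (2 * h) := by
    rw [le_div_iff₀ (by linarith)]
    nlinarith [sq_nonneg R]
  have h5 : -(R / 4) ^ 2 / (2 * h) = -((R / 4) ^ 2 / (2 * h)) := by ring
  rw [h5]
  linarith

theorem Det_Y_int {α ω R h : ℝ} (hα : 0 < α) (hα2 : α < 2) (h0 : 0 ≤ ω) (hR : 1 ≤ R) (hh : 1 / 8 ≤ h) (hh4 : h ≤ 4) :
    0 ≤ ∫ w, DetY α ω R h w ∂Wm ∧ ∫ w, DetY α ω R h w ∂Wm ≤ 5 * (ω + Real.exp (-(1 / 128) * R ^ α)) ∧
    ∫ w, DetY α ω R h w ^ 2 ∂Wm ≤ (6 * (ω + Real.exp (-(1 / 256) * R ^ α))) ^ 2 := by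
  have hm := measurableSet_toMeasurable Wm (DetS h (R / 4))
  have hi : Integrable ((toMeasurable Wm (DetS h (R / 4))).indicator (fun _ => (1 : ℝ))) Wm :=
    (integrable_const 1).indicator hm
  have hS := Det_S (α := α) hα2 hR hh hh4
  have hE := Det_exp hα hα2 hR
  have he1 := Real.exp_pos (-((R / 2) ^ α / 16))
  have hI : ∫ w, (toMeasurable Wm (DetS h (R / 4))).indicator (fun _ => (1 : ℝ)) w ∂Wm ≤
      4 * Real.exp (-(1 / 128) * R ^ α) := by
    rw [integral_indicator_const _ hm, smul_eq_mul, mul_one]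
    exact hS
  have hnn : ∀ w, 0 ≤ DetY α ω R h w := by
    intro w
    unfold DetY
    have := Set.indicator_nonneg (s := toMeasurable Wm (DetS h (R / 4))) (f := fun _ => (1 : ℝ)) (fun _ _ => zero_le_one) w
    positivity
  refine ⟨integral_nonneg hnn, ?_, ?_⟩
  · unfold DetY
    rw [integral_add (integrable_const _) hi, integral_const]
    simp only [probReal_univ, one_smul]
    linarith
  · have hb : ∀ w, DetY α ω R h w ^ 2 ≤ 3 * (ω ^ 2 + Real.exp (-(1 / 128) * R ^ α) ^ 2) +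
        3 * (toMeasurable Wm (DetS h (R / 4))).indicator (fun _ => (1 : ℝ)) w := by
      intro w
      unfold DetY
      obtain ⟨i, hi'⟩ : ∃ i, i = (toMeasurable Wm (DetS h (R / 4))).indicator (fun _ => (1 : ℝ)) w := ⟨_, rfl⟩
      have hi2 : i ^ 2 = i := by
        rw [hi']
        by_cases hw : w ∈ toMeasurable Wm (DetS h (R / 4))
        · rw [Set.indicator_of_mem hw]
          norm_num
        · rw [Set.indicator_of_notMem hw]
          norm_num
      rw [← hi']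
      have h2 : Real.exp (-((R / 2) ^ α / 16)) ^ 2 ≤ Real.exp (-(1 / 128) * R ^ α) ^ 2 :=
        pow_le_pow_left₀ he1.le hE 2
      nlinarith [sq_nonneg (ω - Real.exp (-((R / 2) ^ α / 16))), sq_nonneg (ω - i),
        sq_nonneg (Real.exp (-((R / 2) ^ α / 16)) - i)]
    have h3 : ∫ w, DetY α ω R h w ^ 2 ∂Wm ≤ ∫ w, (3 * (ω ^ 2 + Real.exp (-(1 / 128) * R ^ α) ^ 2) +
        3 * (toMeasurable Wm (DetS h (R / 4))).indicator (fun _ => (1 : ℝ)) w) ∂Wm :=
      integral_mono_of_nonneg (Filter.Eventually.of_forall fun w => sq_nonneg _)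
        ((integrable_const _).add (hi.const_mul 3)) (Filter.Eventually.of_forall hb)
    refine h3.trans ?_
    rw [integral_add (integrable_const _) (hi.const_mul 3), integral_const, integral_const_mul]
    simp only [probReal_univ, one_smul]
    have hRα : 0 ≤ R ^ α := Real.rpow_nonneg (by linarith) _
    obtain ⟨e, he⟩ : ∃ e, e = Real.exp (-(1 / 256) * R ^ α) := ⟨_, rfl⟩
    have e2 : Real.exp (-(1 / 128) * R ^ α) = e ^ 2 := by
      rw [he, ← Real.exp_nat_mul]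
      congr 1
      push_cast
      ring
    have he0 : 0 < e := by rw [he]; exact Real.exp_pos _
    have hele : e ≤ 1 := by
      rw [he]
      apply Real.exp_le_one_iff.2
      nlinarith
    rw [← he]
    rw [e2] at hI ⊢
    have h4 : (e ^ 2) ^ 2 ≤ e ^ 2 := by
      have h5 : e ^ 2 ≤ 1 := by nlinarith
      nlinarith [sq_nonneg e]
    nlinarith [mul_nonneg h0 he0.le, sq_nonneg ω, sq_nonneg e]

theorem Det_h {h : ℝ} (hh : 1 / 8 ≤ h) : (√(2 * Real.pi * h))⁻¹ ≤ 4 := by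
  have h1 : (1 / 4 : ℝ) ≤ √(2 * Real.pi * h) := by
    apply Real.le_sqrt_of_sq_le
    have := Real.pi_gt_three
    nlinarith
  rw [inv_le_comm₀ (by positivity) (by norm_num)]
  linarith

theorem det3 {V : ℝ → ℝ} (hV : Pot V) {h : ℝ} (hh : 1 / 8 ≤ h) {f : ℝ → ℝ} (hf : Measurable f)
    (hf2 : MemLp f 2 volume) (u : ℝ) : |TV V h f u| ≤ 2 * nrm f := by
  have hh0 : 0 < h := by linarith
  have h1 := tv_sq hV hh0 hf hf2 u
  have h2 := (memLp_path hh0 hf hf2 u).2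
  have h3 := om_le hV hh0.le u
  have h4 : 0 ≤ ∫ w, f (u + w h) ^ 2 ∂Wm := integral_nonneg fun _ => sq_nonneg _
  have h5 := Det_nrm_sq f
  have h6 : TV V h f u ^ 2 ≤ (2 * nrm f) ^ 2 := by
    have h7 : om V h u * ∫ w, f (u + w h) ^ 2 ∂Wm ≤ 1 * ∫ w, f (u + w h) ^ 2 ∂Wm :=
      mul_le_mul_of_nonneg_right h3.2 h4
    have h8 : (√(2 * Real.pi * h))⁻¹ * ∫ x, f x ^ 2 ≤ 4 * ∫ x, f x ^ 2 :=
      mul_le_mul_of_nonneg_right (Det_h hh) (by rw [← h5]; positivity)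
    have h9 : (2 * nrm f) ^ 2 = 4 * ∫ x, f x ^ 2 := by rw [← h5]; ring
    rw [h9]
    linarith
  exact abs_le_of_sq_le_sq h6 (mul_nonneg (by norm_num) (Det_nrm_nonneg f))

theorem det1 {α : ℝ} (hα : 0 < α) (hα2 : α < 2) : ∃ C > 0, ∃ c > 0, ∀ ω R h : ℝ, 0 ≤ ω → ω ≤ 1 / 2 → 1 ≤ R →
    1 / 8 ≤ h → h ≤ 4 → ∀ f : ℝ → ℝ, Measurable f → MemLp f 2 volume →
      nrm (fun u => TV (Vt α ω R) h f u - TV (Va α) h f u) ≤ C * (ω + Real.exp (-c * R ^ α)) * nrm f ∧
      ∀ u, |TV (Vt α ω R) h f u - TV (Va α) h f u| ≤ C * (ω + Real.exp (-c * R ^ α)) * nrm f := by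
  refine ⟨12, by norm_num, 1 / 256, by norm_num, fun ω R h h0 h1 hR hh hh4 f hf hf2 => ?_⟩
  have hh0 : 0 < h := by linarith
  have hV := pot_Va hα
  have hV' := pot_Vt (ω := ω) (R := R) hα (by linarith) (by linarith)
  obtain ⟨Z, hZ⟩ : ∃ Z : ℝ → Pth → ℝ, Z = fun u w => Real.exp (-∫ s in (0 : ℝ)..h, Vt α ω R (u + w s)) -
      Real.exp (-∫ s in (0 : ℝ)..h, Va α (u + w s)) := ⟨_, rfl⟩
  have hZm : Measurable (Function.uncurry Z) := by
    rw [hZ]
    exact (wt_meas hV' h).sub (wt_meas hV h)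
  have hZY : ∀ u w, |Z u w| ≤ DetY α ω R h w := by
    intro u w
    obtain ⟨a, b⟩ := Det_Z hα h0 h1 hR hh u w
    rw [hZ]
    show |_ - _| ≤ _
    rw [abs_of_nonneg a]
    refine b.trans ?_
    unfold DetY
    have h2 : (DetS h (R / 4)).indicator (fun _ => (1 : ℝ)) w ≤
        (toMeasurable Wm (DetS h (R / 4))).indicator (fun _ => (1 : ℝ)) w :=
      Set.indicator_le_indicator_of_subset (subset_toMeasurable _ _) (fun _ => zero_le_one) w
    linarith
  have hYM : ∀ w, DetY α ω R h w ≤ 3 := by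
    intro w
    unfold DetY
    have h2 : (toMeasurable Wm (DetS h (R / 4))).indicator (fun _ => (1 : ℝ)) w ≤ 1 :=
      Set.indicator_le_self' (fun _ _ => zero_le_one) w
    have h3 : Real.exp (-((R / 2) ^ α / 16)) ≤ 1 := by
      apply Real.exp_le_one_iff.2
      have : 0 ≤ (R / 2) ^ α := Real.rpow_nonneg (by linarith) _
      linarith
    linarith
  have hYn : ∀ w, 0 ≤ DetY α ω R h w := fun w => (abs_nonneg _).trans (hZY 0 w)
  have hF : ∀ u, TV (Vt α ω R) h f u - TV (Va α) h f u = ∫ w, Z u w * f (u + w h) ∂Wm := by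
    intro u
    unfold TV
    rw [← integral_sub (tv_int hV' hh0 hf hf2 u) (tv_int hV hh0 hf hf2 u)]
    refine integral_congr_ae (Filter.Eventually.of_forall fun w => ?_)
    rw [hZ]
    ring
  obtain ⟨y0, y1, y2⟩ := Det_Y_int (ω := ω) (R := R) (h := h) hα hα2 h0 hR hh hh4
  have hRα : 0 ≤ R ^ α := Real.rpow_nonneg (by linarith) _
  have hexp : Real.exp (-(1 / 128) * R ^ α) ≤ Real.exp (-(1 / 256) * R ^ α) := by
    apply Real.exp_le_exp.2
    linarith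
  have hep : 0 < Real.exp (-(1 / 256) * R ^ α) := Real.exp_pos _
  constructor
  · have hg := (tv_gen hh0 hf hf2 hZm (Det_Y_meas α ω R h) hYM hZY).2
    have e1 : (fun u => TV (Vt α ω R) h f u - TV (Va α) h f u) = fun u => ∫ w, Z u w * f (u + w h) ∂Wm := by
      funext u
      exact hF u
    rw [e1]
    refine (Det_nrm_le y0 hg).trans ?_
    apply mul_le_mul_of_nonneg_right _ (Det_nrm_nonneg f)
    nlinarith
  · intro u
    rw [hF u]
    obtain ⟨m1, m2⟩ := memLp_path hh0 hf hf2 u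
    have hg2 : Integrable (fun w : Pth => |f (u + w h)| ^ 2) Wm := by
      have := m1.integrable_sq
      refine this.congr (Filter.Eventually.of_forall fun w => ?_)
      exact (sq_abs _).symm
    have hY2 : Integrable (fun w => DetY α ω R h w ^ 2) Wm := by
      refine Integrable.of_bound ((Det_Y_meas α ω R h).pow_const 2).aestronglyMeasurable 9 (Filter.Eventually.of_forall fun w => ?_)
      rw [Real.norm_of_nonneg (sq_nonneg _)]
      nlinarith [hYn w, hYM w]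
    have hfi : Integrable (fun w : Pth => |f (u + w h)|) Wm := (m1.integrable (by norm_num)).abs
    have hYg : Integrable (fun w => DetY α ω R h w * |f (u + w h)|) Wm := by
      refine Integrable.mono' (hfi.const_mul 3) ((Det_Y_meas α ω R h).aestronglyMeasurable.mul hfi.aestronglyMeasurable)
        (Filter.Eventually.of_forall fun w => ?_)
      rw [Real.norm_of_nonneg (mul_nonneg (hYn w) (abs_nonneg _))]
      exact mul_le_mul_of_nonneg_right (hYM w) (abs_nonneg _)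
    have hcs := Det_cs hY2 hg2 hYg
    have h2 : |∫ w, Z u w * f (u + w h) ∂Wm| ≤ ∫ w, DetY α ω R h w * |f (u + w h)| ∂Wm := by
      refine abs_integral_le_integral_abs.trans ?_
      refine integral_mono_of_nonneg (Filter.Eventually.of_forall fun w => abs_nonneg _) hYg
        (Filter.Eventually.of_forall fun w => ?_)
      show |Z u w * f (u + w h)| ≤ _
      rw [abs_mul]
      exact mul_le_mul_of_nonneg_right (hZY u w) (abs_nonneg _)
    refine h2.trans ?_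
    have e3 : ∫ w, |f (u + w h)| ^ 2 ∂Wm = ∫ w, f (u + w h) ^ 2 ∂Wm :=
      integral_congr_ae (Filter.Eventually.of_forall fun w => sq_abs _)
    rw [e3] at hcs
    have h5 := Det_nrm_sq f
    have h8 : (√(2 * Real.pi * h))⁻¹ * ∫ x, f x ^ 2 ≤ 4 * ∫ x, f x ^ 2 :=
      mul_le_mul_of_nonneg_right (Det_h hh) (by rw [← h5]; positivity)
    have h9 : (∫ w, DetY α ω R h w * |f (u + w h)| ∂Wm) ^ 2 ≤
        (12 * (ω + Real.exp (-(1 / 256) * R ^ α)) * nrm f) ^ 2 := by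
      have h10 : ∫ w, f (u + w h) ^ 2 ∂Wm ≤ 4 * nrm f ^ 2 := by
        rw [h5]
        linarith
      have h11 : 0 ≤ ∫ w, f (u + w h) ^ 2 ∂Wm := integral_nonneg fun _ => sq_nonneg _
      calc (∫ w, DetY α ω R h w * |f (u + w h)| ∂Wm) ^ 2 ≤
            (∫ w, DetY α ω R h w ^ 2 ∂Wm) * ∫ w, f (u + w h) ^ 2 ∂Wm := hcs
        _ ≤ (6 * (ω + Real.exp (-(1 / 256) * R ^ α))) ^ 2 * (4 * nrm f ^ 2) :=
            mul_le_mul y2 h10 h11 (sq_nonneg _)
        _ = _ := by ring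
    exact le_of_sq_le_sq h9 (mul_nonneg (by positivity) (Det_nrm_nonneg f))

theorem det2 {α : ℝ} (hα : 0 < α) (hα2 : α < 2) : ∃ C > 0, ∀ ρ h : ℝ, 0 ≤ ρ → 1 / 8 ≤ h → h ≤ 4 →
    ∀ f : ℝ → ℝ, Measurable f → MemLp f 2 volume →
      nrm (fun u => Real.exp (-ρ * u ^ 2) * TV (Va α) h f u - TV (Va α) h f u) ≤ C * ρ * nrm f := by
  obtain ⟨C, hC, hom⟩ := om_decay hα hα2
  refine ⟨√C, Real.sqrt_pos.2 hC, fun ρ h hρ hh hh4 f hf hf2 => ?_⟩
  have hh0 : 0 < h := by linarith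
  have hV := pot_Va hα
  apply Det_nrm_le (mul_nonneg (Real.sqrt_nonneg _) hρ)
  obtain ⟨p1, p2⟩ := path_L2 hh0 hf hf2
  have hpt : ∀ u, (Real.exp (-ρ * u ^ 2) * TV (Va α) h f u - TV (Va α) h f u) ^ 2 ≤
      ρ ^ 2 * C * ∫ w, f (u + w h) ^ 2 ∂Wm := by
    intro u
    have h1 := tv_sq hV hh0 hf hf2 u
    have h2 : 0 ≤ ∫ w, f (u + w h) ^ 2 ∂Wm := integral_nonneg fun _ => sq_nonneg _
    have h3 := hom h hh hh4 u
    have h4 := Real.add_one_le_exp (-ρ * u ^ 2)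
    have h5 : Real.exp (-ρ * u ^ 2) ≤ 1 := by
      apply Real.exp_le_one_iff.2
      nlinarith [sq_nonneg u]
    have h6 : (Real.exp (-ρ * u ^ 2) - 1) ^ 2 ≤ (ρ * u ^ 2) ^ 2 := by
      have h7 : |Real.exp (-ρ * u ^ 2) - 1| ≤ ρ * u ^ 2 := by
        rw [abs_le]
        constructor
        · linarith
        · nlinarith [sq_nonneg u]
      exact sq_le_sq' (by linarith [(abs_le.1 h7).1]) (abs_le.1 h7).2
    have e : (Real.exp (-ρ * u ^ 2) * TV (Va α) h f u - TV (Va α) h f u) ^ 2 =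
        (Real.exp (-ρ * u ^ 2) - 1) ^ 2 * TV (Va α) h f u ^ 2 := by ring
    rw [e]
    have h7 : (ρ * u ^ 2) ^ 2 * om (Va α) h u ≤ ρ ^ 2 * C := by
      have h8 : u ^ 4 * om (Va α) h u ≤ C := by
        have h9 : u ^ 4 * (C / (1 + u ^ 2) ^ 4) ≤ C := by
          rw [← mul_div_assoc, div_le_iff₀ (by positivity)]
          have h10 : u ^ 4 ≤ (1 + u ^ 2) ^ 4 := by
            have h11 : (u ^ 2) ^ 2 ≤ (1 + u ^ 2) ^ 2 := pow_le_pow_left₀ (sq_nonneg u) (by linarith) 2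
            have h12 : (1 + u ^ 2) ^ 2 ≤ (1 + u ^ 2) ^ 4 := pow_le_pow_right₀ (by nlinarith [sq_nonneg u]) (by norm_num)
            calc u ^ 4 = (u ^ 2) ^ 2 := by ring
              _ ≤ _ := h11.trans h12
          nlinarith
        have h10 : u ^ 4 * om (Va α) h u ≤ u ^ 4 * (C / (1 + u ^ 2) ^ 4) := mul_le_mul_of_nonneg_left h3 (by positivity)
        linarith
      calc (ρ * u ^ 2) ^ 2 * om (Va α) h u = ρ ^ 2 * (u ^ 4 * om (Va α) h u) := by ring
        _ ≤ ρ ^ 2 * C := mul_le_mul_of_nonneg_left h8 (sq_nonneg _)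
    calc (Real.exp (-ρ * u ^ 2) - 1) ^ 2 * TV (Va α) h f u ^ 2 ≤ (ρ * u ^ 2) ^ 2 * TV (Va α) h f u ^ 2 :=
          mul_le_mul_of_nonneg_right h6 (sq_nonneg _)
      _ ≤ (ρ * u ^ 2) ^ 2 * (om (Va α) h u * ∫ w, f (u + w h) ^ 2 ∂Wm) :=
          mul_le_mul_of_nonneg_left h1 (sq_nonneg _)
      _ = ((ρ * u ^ 2) ^ 2 * om (Va α) h u) * ∫ w, f (u + w h) ^ 2 ∂Wm := by ring
      _ ≤ ρ ^ 2 * C * ∫ w, f (u + w h) ^ 2 ∂Wm := mul_le_mul_of_nonneg_right h7 h2
  have h1 : ∫ u, (Real.exp (-ρ * u ^ 2) * TV (Va α) h f u - TV (Va α) h f u) ^ 2 ≤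
      ∫ u, ρ ^ 2 * C * ∫ w, f (u + w h) ^ 2 ∂Wm :=
    integral_mono_of_nonneg (Filter.Eventually.of_forall fun u => sq_nonneg _) (p1.const_mul _)
      (Filter.Eventually.of_forall hpt)
  rw [integral_const_mul, p2] at h1
  refine h1.trans (le_of_eq ?_)
  rw [mul_pow, Real.sq_sqrt hC.le]
  ring

end Pool.H50.BB
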