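import Pool.Agent.H50.BB.Mea
import Pool.Agent.H50.BB.ExI

/-!
# Row Dh: measurability, semigroup property and Duhamel formula for PK   (about 200 lines)

`k, g` bounded and measurable.  `PK k s r g x = ∫ w, exp (∫ u in s..r, k u (x + pt w (u - s))) * g (x + pt w (r - s)) ∂W2`.
`PK_meas`: for `G : ℝ → ℂ → ℝ` bounded measurable, `(s,r,x) ↦ PK k s r (G r) x` is measurable: joint measurability of the integrand (interval integrals of jointly measurable
bounded functions with measurable end points as in `clock_meas`), `StronglyMeasurable.integral_prod_right'`.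
`PK_bdd`: `|PK k s r g x| ≤ exp (K (r-s)) M` if `|k| ≤ K`, `|g| ≤ M`, `s ≤ r`.
Markov property (`pk_markov`): for `c ≥ 0` and `F : P2 × P2 → ℝ` bounded measurable, `∫ F (stop c w, shift c w) dW2 = ∫∫ F (stop c w, w') dW2 dW2`, where `stop c w = (stop c w.1, stop c w.2)` etc.:
each coordinate by `map_stop_shift` (H4/BM/Wiener) and Fubini (`W2 = Wm.prod Wm`; the map `(w1,w2) ↦ ((stop w1, stop w2), (shift w1, shift w2))` sends `Wm⊗Wm` to
`(stop_* Wm ⊗ stop_* Wm) ⊗ (Wm ⊗ Wm)`: `Measure.map_prod_map` and a permutation of the four factors).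
`PK_semi` (`s ≤ q ≤ r`): with `c = q - s`: `pt w (u-s)` depends on `stop c w` for `u ≤ q`, and `x + pt w (u-s) = (x + pt w c) + pt (shift c w) (u - q)` for `u ≥ q`; the exponential splits
(`intervalIntegral.integral_add_adjacent_intervals`); `pt (stop c w) c = pt w c`.
`PK_duh` (`s ≤ T`): pathwise `exp_duh` applied to `k_i u (x + pt w (u-s))`, multiply by `g(x + pt w (T-s))`, integrate, Fubini (all bounded), and for each `r` the Markov property at time `r - s`:
`E[exp(∫_s^r k1) (k2-k1)(r,B_r) exp (∫_r^T k2) g(B_T)] = PK k1 s r (fun y => (k2 r y - k1 r y) * PK k2 r T g y) x`.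
-/

open MeasureTheory ProbabilityTheory Set Filter Topology
open scoped NNReal ENNReal

namespace Pool.H50.BB

open Pool.Agent.H4.BM

/-- stopping both coordinates -/
def stop2 (c : ℝ≥0) (w : P2) : P2 := (Pth.stop c w.1, Pth.stop c w.2)

/-- shifting both coordinates -/
def shift2 (c : ℝ≥0) (w : P2) : P2 := (Pth.shift c w.1, Pth.shift c w.2)

private theorem Dh_mstop (c : ℝ≥0) : Measurable (Pth.stop c) :=
  Pth.measurable_stop measurable_const measurable_id

private theorem Dh_mshift (c : ℝ≥0) : Measurable (Pth.shift c) :=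
  Pth.measurable_shift measurable_const measurable_id

private theorem Dh_mstop2 (c : ℝ≥0) : Measurable (stop2 c) :=
  ((Dh_mstop c).comp measurable_fst).prodMk ((Dh_mstop c).comp measurable_snd)

private theorem Dh_mshift2 (c : ℝ≥0) : Measurable (shift2 c) :=
  ((Dh_mshift c).comp measurable_fst).prodMk ((Dh_mshift c).comp measurable_snd)

theorem lintegral_markov2 (c : ℝ≥0) {F : P2 × P2 → ℝ≥0∞} (hF : Measurable F) :
    ∫⁻ w, F (stop2 c w, shift2 c w) ∂W2 = ∫⁻ w, ∫⁻ w', F (stop2 c w, w') ∂W2 ∂W2 := by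
  have ms := Dh_mstop c
  have mh := Dh_mshift c
  have ms2 := Dh_mstop2 c
  have mh2 := Dh_mshift2 c
  unfold W2
  -- left hand side
  have m1 : Measurable fun w : P2 => F (stop2 c w, shift2 c w) := hF.comp (ms2.prodMk mh2)
  rw [lintegral_prod _ m1.aemeasurable]
  have e1 : ∀ a : Pth, ∫⁻ b, F (stop2 c (a, b), shift2 c (a, b)) ∂Wm =
      ∫⁻ b, ∫⁻ b', F ((Pth.stop c a, Pth.stop c b), (Pth.shift c a, b')) ∂Wm ∂Wm := by
    intro a
    refine lintegral_stop_shift Wm_isW c
      (G := fun p : Pth × Pth => F ((Pth.stop c a, p.1), (Pth.shift c a, p.2))) ?_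
    exact hF.comp ((measurable_const.prodMk measurable_fst).prodMk
      (measurable_const.prodMk measurable_snd))
  rw [lintegral_congr e1]
  have e2 : ∫⁻ a, ∫⁻ b, ∫⁻ b', F ((Pth.stop c a, Pth.stop c b), (Pth.shift c a, b')) ∂Wm ∂Wm ∂Wm =
      ∫⁻ a, ∫⁻ a', ∫⁻ b, ∫⁻ b', F ((Pth.stop c a, Pth.stop c b), (a', b')) ∂Wm ∂Wm ∂Wm ∂Wm := by
    refine lintegral_stop_shift Wm_isW c
      (G := fun p : Pth × Pth => ∫⁻ b, ∫⁻ b', F ((p.1, Pth.stop c b), (p.2, b')) ∂Wm ∂Wm) ?_
    have m2 : Measurable fun z : ((Pth × Pth) × Pth) × Pth =>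
        F ((z.1.1.1, Pth.stop c z.1.2), (z.1.1.2, z.2)) := by
      refine hF.comp ((Measurable.prodMk ?_ (ms.comp ?_)).prodMk (Measurable.prodMk ?_ measurable_snd))
      · exact measurable_fst.comp (measurable_fst.comp measurable_fst)
      · exact measurable_snd.comp measurable_fst
      · exact measurable_snd.comp (measurable_fst.comp measurable_fst)
    exact (m2.lintegral_prod_right').lintegral_prod_right'
  rw [e2]
  -- right hand side
  have m3 : Measurable fun z : P2 × P2 => F (stop2 c z.1, z.2) :=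
    hF.comp ((ms2.comp measurable_fst).prodMk measurable_snd)
  have m4 : Measurable fun w : P2 => ∫⁻ w', F (stop2 c w, w') ∂(Wm.prod Wm) :=
    m3.lintegral_prod_right'
  rw [lintegral_prod _ m4.aemeasurable]
  refine lintegral_congr fun a => ?_
  have e3 : ∀ b : Pth, ∫⁻ w', F (stop2 c (a, b), w') ∂(Wm.prod Wm) =
      ∫⁻ a', ∫⁻ b', F ((Pth.stop c a, Pth.stop c b), (a', b')) ∂Wm ∂Wm := by
    intro b
    have m5 : Measurable fun w' : P2 => F (stop2 c (a, b), w') :=
      hF.comp (measurable_const.prodMk measurable_id)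
    exact lintegral_prod _ m5.aemeasurable
  rw [lintegral_congr e3]
  refine lintegral_lintegral_swap ?_
  have m6 : Measurable fun z : (Pth × Pth) × Pth =>
      F ((Pth.stop c a, Pth.stop c z.1.2), (z.1.1, z.2)) := by
    refine hF.comp ((measurable_const.prodMk (ms.comp ?_)).prodMk (Measurable.prodMk ?_ measurable_snd))
    · exact measurable_snd.comp measurable_fst
    · exact measurable_fst.comp measurable_fst
  exact (m6.lintegral_prod_right').aemeasurable

theorem markov2 (c : ℝ≥0) : W2.map (fun w => (stop2 c w, shift2 c w)) = (W2.map (stop2 c)).prod W2 := by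
  have ms2 := Dh_mstop2 c
  have mh2 := Dh_mshift2 c
  refine Measure.ext_of_lintegral _ fun F hF => ?_
  rw [lintegral_map hF (ms2.prodMk mh2), lintegral_markov2 c hF,
    lintegral_prod _ hF.aemeasurable, lintegral_map hF.lintegral_prod_right' ms2]

/-- Markov property, for bounded functions -/
private theorem Dh_markov (c : ℝ≥0) {F : P2 × P2 → ℝ} (hF : Measurable F) {C : ℝ} (hC : ∀ p, |F p| ≤ C) :
    ∫ w, F (stop2 c w, shift2 c w) ∂W2 = ∫ w, ∫ w', F (stop2 c w, w') ∂W2 ∂W2 := by
  have ms2 := Dh_mstop2 c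
  have mh2 := Dh_mshift2 c
  have : IsProbabilityMeasure (W2.map (stop2 c)) :=
    Measure.isProbabilityMeasure_map ms2.aemeasurable
  have h1 : ∫ w, F (stop2 c w, shift2 c w) ∂W2 =
      ∫ p, F p ∂(W2.map fun w => (stop2 c w, shift2 c w)) :=
    (integral_map (ms2.prodMk mh2).aemeasurable hF.aestronglyMeasurable).symm
  rw [h1, markov2 c, integral_prod]
  · have m1 : StronglyMeasurable fun a : P2 => ∫ w', F (a, w') ∂W2 :=
      hF.stronglyMeasurable.integral_prod_right'
    exact integral_map ms2.aemeasurable m1.aestronglyMeasurable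
  · exact Integrable.of_bound hF.aestronglyMeasurable C
      (Eventually.of_forall fun p => by rw [Real.norm_eq_abs]; exact hC p)

private theorem Dh_ptm {Ω : Type*} [MeasurableSpace Ω] {Φ : Ω → P2} {τ : Ω → ℝ} (hΦ : Measurable Φ)
    (hτ : Measurable τ) : Measurable fun ω => pt (Φ ω) (τ ω) :=
  pt_meas.comp (hΦ.prodMk hτ)

/-- measurability of the exponent -/
private theorem Dh_expo {Ω : Type*} [MeasurableSpace Ω] {K : ℝ} {k : ℝ → ℂ → ℝ} (hk : Bdd K k)
    {a b ρ : Ω → ℝ} {ξ : Ω → ℂ} {Φ : Ω → P2} (ha : Measurable a) (hb : Measurable b) (hρ : Measurable ρ)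
    (hξ : Measurable ξ) (hΦ : Measurable Φ) :
    Measurable fun ω => Real.exp (∫ u in a ω..b ω, k u (ξ ω + pt (Φ ω) (u - ρ ω))) := by
  refine Real.measurable_exp.comp ?_
  have hF : Measurable fun z : Ω × ℝ => k z.2 (ξ z.1 + pt (Φ z.1) (z.2 - ρ z.1)) := by
    have h1 : Measurable fun z : Ω × ℝ => pt (Φ z.1) (z.2 - ρ z.1) :=
      Dh_ptm (Φ := fun z : Ω × ℝ => Φ z.1) (hΦ.comp measurable_fst)
        (measurable_snd.sub (hρ.comp measurable_fst))
    exact hk.meas.comp (measurable_snd.prodMk ((hξ.comp measurable_fst).add h1))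
  have key : ∀ {a b : Ω → ℝ}, Measurable a → Measurable b →
      Measurable fun ω => ∫ u in Ioc (a ω) (b ω), k u (ξ ω + pt (Φ ω) (u - ρ ω)) := by
    intro a b ha hb
    have h : (fun ω => ∫ u in Ioc (a ω) (b ω), k u (ξ ω + pt (Φ ω) (u - ρ ω))) = fun ω =>
        ∫ u, (fun z : Ω × ℝ => if a z.1 < z.2 ∧ z.2 ≤ b z.1 then
          k z.2 (ξ z.1 + pt (Φ z.1) (z.2 - ρ z.1)) else 0) (ω, u) := by
      funext ω
      rw [← integral_indicator measurableSet_Ioc]
      congr 1
      funext u
      simp only [indicator, mem_Ioc]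
    rw [h]
    have h3 : Measurable (fun z : Ω × ℝ => if a z.1 < z.2 ∧ z.2 ≤ b z.1 then
          k z.2 (ξ z.1 + pt (Φ z.1) (z.2 - ρ z.1)) else 0) := by
      refine Measurable.ite ?_ hF measurable_const
      exact (measurableSet_lt (ha.comp measurable_fst) measurable_snd).inter
        (measurableSet_le measurable_snd (hb.comp measurable_fst))
    exact (StronglyMeasurable.integral_prod_right' h3.stronglyMeasurable).measurable
  unfold intervalIntegral
  exact (key ha hb).sub (key hb ha)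

theorem PK_meas {K M : ℝ} {k G : ℝ → ℂ → ℝ} (hk : Bdd K k) (hG : Bdd M G) :
    Measurable fun p : ℝ × ℝ × ℂ => PK k p.1 p.2.1 (G p.2.1) p.2.2 := by
  unfold PK
  have h : Measurable fun z : (ℝ × ℝ × ℂ) × P2 =>
      Real.exp (∫ u in z.1.1..z.1.2.1, k u (z.1.2.2 + pt z.2 (u - z.1.1))) *
        G z.1.2.1 (z.1.2.2 + pt z.2 (z.1.2.1 - z.1.1)) := by
    have m1 : Measurable fun z : (ℝ × ℝ × ℂ) × P2 => z.1.1 := by fun_prop
    have m2 : Measurable fun z : (ℝ × ℝ × ℂ) × P2 => z.1.2.1 := by fun_prop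
    have m3 : Measurable fun z : (ℝ × ℝ × ℂ) × P2 => z.1.2.2 := by fun_prop
    have m4 : Measurable fun z : (ℝ × ℝ × ℂ) × P2 => z.2 := measurable_snd
    refine (Dh_expo hk m1 m2 m1 m3 m4).mul ?_
    exact hG.meas.comp (m2.prodMk (m3.add (Dh_ptm m4 (m2.sub m1))))
  exact (h.stronglyMeasurable.integral_prod_right').measurable

private theorem Dh_K {K : ℝ} {k : ℝ → ℂ → ℝ} (hk : Bdd K k) : 0 ≤ K := (abs_nonneg _).trans (hk.bdd 0 0)

/-- the path `u ↦ k u (x + pt w (u - ρ))` is measurable -/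
private theorem Dh_path {K : ℝ} {k : ℝ → ℂ → ℝ} (hk : Bdd K k) (x : ℂ) (w : P2) (ρ : ℝ) :
    Measurable fun u : ℝ => k u (x + pt w (u - ρ)) := by
  have h1 : Measurable fun u : ℝ => pt w (u - ρ) :=
    (pt_cont w).measurable.comp (measurable_id.sub_const ρ)
  exact hk.meas.comp (measurable_id.prodMk (measurable_const.add h1))

private theorem Dh_E {K : ℝ} {k : ℝ → ℂ → ℝ} (hk : Bdd K k) (x : ℂ) (w : P2) (ρ : ℝ) {a b : ℝ} (hab : a ≤ b) :
    Real.exp (∫ u in a..b, k u (x + pt w (u - ρ))) ≤ Real.exp (K * (b - a)) := by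
  refine Real.exp_le_exp.2 ?_
  have h1 := intervalIntegral.norm_integral_le_of_norm_le_const (a := a) (b := b)
    (f := fun u => k u (x + pt w (u - ρ))) (C := K) (fun u _ => by
      rw [Real.norm_eq_abs]; exact hk.bdd _ _)
  rw [Real.norm_eq_abs, abs_of_nonneg (by linarith : 0 ≤ b - a)] at h1
  exact (le_abs_self _).trans h1

private theorem Dh_sec {K : ℝ} {k : ℝ → ℂ → ℝ} (hk : Bdd K k) {g : ℂ → ℝ} (hg : Measurable g)
    (s r : ℝ) (x : ℂ) : Measurable fun w : P2 =>
      Real.exp (∫ u in s..r, k u (x + pt w (u - s))) * g (x + pt w (r - s)) :=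
  (Dh_expo hk measurable_const measurable_const measurable_const measurable_const measurable_id).mul
    (hg.comp (measurable_const.add (Dh_ptm measurable_id measurable_const)))

private theorem Dh_bd {K M : ℝ} {k : ℝ → ℂ → ℝ} {g : ℂ → ℝ} (hk : Bdd K k) (hM : ∀ y, |g y| ≤ M)
    {s r : ℝ} (hs : s ≤ r) (x : ℂ) (w : P2) :
    |Real.exp (∫ u in s..r, k u (x + pt w (u - s))) * g (x + pt w (r - s))| ≤
      Real.exp (K * (r - s)) * M := by
  rw [abs_mul, abs_of_pos (Real.exp_pos _)]
  exact mul_le_mul (Dh_E hk x w s hs) (hM _) (abs_nonneg _) (Real.exp_pos _).le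

theorem PK_bdd {K M : ℝ} {k : ℝ → ℂ → ℝ} {g : ℂ → ℝ} (hk : Bdd K k) (hg : Measurable g) (hM : ∀ y, |g y| ≤ M)
    {s r : ℝ} (hs : s ≤ r) (x : ℂ) : |PK k s r g x| ≤ Real.exp (K * (r - s)) * M := by
  have h1 := norm_integral_le_of_norm_le_const (μ := W2) (C := Real.exp (K * (r - s)) * M)
    (f := fun w : P2 => Real.exp (∫ u in s..r, k u (x + pt w (u - s))) * g (x + pt w (r - s)))
    (Eventually.of_forall fun w => by
      rw [Real.norm_eq_abs]
      exact Dh_bd hk hM hs x w)
  rw [Real.norm_eq_abs, probReal_univ, mul_one] at h1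
  exact h1

theorem PK_self {k : ℝ → ℂ → ℝ} {g : ℂ → ℝ} (s : ℝ) (x : ℂ) : PK k s s g x = g x := by
  unfold PK
  simp [pt_zero]

private theorem Dh_integrable {K M : ℝ} {k : ℝ → ℂ → ℝ} {g : ℂ → ℝ} (hk : Bdd K k) (hg : Measurable g)
    (hM : ∀ y, |g y| ≤ M) {s r : ℝ} (hs : s ≤ r) (x : ℂ) :
    Integrable (fun w : P2 => Real.exp (∫ u in s..r, k u (x + pt w (u - s))) * g (x + pt w (r - s))) W2 :=
  Integrable.of_bound (Dh_sec hk hg s r x).aestronglyMeasurable (Real.exp (K * (r - s)) * M)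
    (Eventually.of_forall fun w => by
      rw [Real.norm_eq_abs]
      exact Dh_bd hk hM hs x w)

theorem PK_mono {K K' M : ℝ} {k k' : ℝ → ℂ → ℝ} {g g' : ℂ → ℝ} (hk : Bdd K k) (hk' : Bdd K' k')
    (hg : Measurable g) (hM : ∀ y, |g y| ≤ M) (hg' : Measurable g') (hM' : ∀ y, |g' y| ≤ M)
    (h0 : ∀ y, 0 ≤ g y) {s r : ℝ} (hs : s ≤ r) (hkk : ∀ u y, k u y ≤ k' u y) (hgg : ∀ y, g y ≤ g' y) (x : ℂ) :
    PK k s r g x ≤ PK k' s r g' x := by
  refine integral_mono (Dh_integrable hk hg hM hs x) (Dh_integrable hk' hg' hM' hs x) fun w => ?_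
  refine mul_le_mul (Real.exp_le_exp.2 ?_) (hgg _) (h0 _) (Real.exp_pos _).le
  exact intervalIntegral.integral_mono_on hs
    (ExI_int (Dh_path hk x w s) (fun u => hk.bdd _ _) s r)
    (ExI_int (Dh_path hk' x w s) (fun u => hk'.bdd _ _) s r) fun u _ => hkk _ _

private theorem Dh_stop (c : ℝ≥0) (w : P2) {t : ℝ} (ht : t ≤ c) : pt (stop2 c w) t = pt w t := by
  apply Complex.ext
  · change (Pth.stop c w.1) t = w.1 t
    rw [Pth.stop_apply, min_eq_left ht]
  · change (Pth.stop c w.2) t = w.2 t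
    rw [Pth.stop_apply, min_eq_left ht]

private theorem Dh_shift (c : ℝ≥0) (w : P2) {t : ℝ} (ht : 0 ≤ t) :
    pt (shift2 c w) t = pt w (c + t) - pt w c := by
  apply Complex.ext
  · change (Pth.shift c w.1) t = w.1 (c + t) - w.1 c
    rw [Pth.shift_apply_of_nonneg _ _ ht]
  · change (Pth.shift c w.2) t = w.2 (c + t) - w.2 c
    rw [Pth.shift_apply_of_nonneg _ _ ht]

/-- Markov property for the Feynman-Kac functionals -/
private theorem Dh_mk {K K' M H : ℝ} {k1 k2 : ℝ → ℂ → ℝ} {g h : ℂ → ℝ} (hk1 : Bdd K k1) (hk2 : Bdd K' k2)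
    (hg : Measurable g) (hM : ∀ y, |g y| ≤ M) (hh : Measurable h) (hH : ∀ y, |h y| ≤ H)
    {s q r : ℝ} (hs : s ≤ q) (hq : q ≤ r) (x : ℂ) :
    ∫ w, Real.exp (∫ u in s..q, k1 u (x + pt w (u - s))) * (h (x + pt w (q - s)) *
      (Real.exp (∫ u in q..r, k2 u (x + pt w (u - s))) * g (x + pt w (r - s)))) ∂W2 =
    PK k1 s q (fun y => h y * PK k2 q r g y) x := by
  obtain ⟨c, hc⟩ : ∃ c : ℝ≥0, (c : ℝ) = q - s := ⟨⟨q - s, by linarith⟩, rfl⟩
  have hH0 : 0 ≤ H := (abs_nonneg _).trans (hH 0)
  let F : P2 × P2 → ℝ := fun p => Real.exp (∫ u in s..q, k1 u (x + pt p.1 (u - s))) *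
    (h (x + pt p.1 (q - s)) * (Real.exp (∫ u in q..r, k2 u ((x + pt p.1 (q - s)) + pt p.2 (u - q))) *
      g ((x + pt p.1 (q - s)) + pt p.2 (r - q))))
  have mA : Measurable fun p : P2 × P2 => x + pt p.1 (q - s) :=
    measurable_const.add (Dh_ptm measurable_fst measurable_const)
  have hF : Measurable F := by
    refine (Dh_expo hk1 measurable_const measurable_const measurable_const measurable_const
      measurable_fst).mul ((hh.comp mA).mul ((Dh_expo hk2 measurable_const measurable_const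
      measurable_const mA measurable_snd).mul (hg.comp (mA.add ?_))))
    exact Dh_ptm measurable_snd measurable_const
  have hFb : ∀ p, |F p| ≤ Real.exp (K * (q - s)) * (H * (Real.exp (K' * (r - q)) * M)) := by
    intro p
    change |Real.exp (∫ u in s..q, k1 u (x + pt p.1 (u - s))) *
      (h (x + pt p.1 (q - s)) * (Real.exp (∫ u in q..r, k2 u ((x + pt p.1 (q - s)) + pt p.2 (u - q))) *
        g ((x + pt p.1 (q - s)) + pt p.2 (r - q))))| ≤ _
    rw [abs_mul, abs_of_pos (Real.exp_pos _), abs_mul]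
    refine mul_le_mul (Dh_E hk1 x p.1 s hs) ?_ (by positivity) (Real.exp_pos _).le
    exact mul_le_mul (hH _) (Dh_bd hk2 hM hq _ p.2) (abs_nonneg _) hH0
  have e1 : ∀ w : P2, Real.exp (∫ u in s..q, k1 u (x + pt w (u - s))) * (h (x + pt w (q - s)) *
      (Real.exp (∫ u in q..r, k2 u (x + pt w (u - s))) * g (x + pt w (r - s)))) =
      F (stop2 c w, shift2 c w) := by
    intro w
    have hst : pt (stop2 c w) (q - s) = pt w (q - s) := Dh_stop c w (by rw [hc])
    have i1 : ∫ u in s..q, k1 u (x + pt (stop2 c w) (u - s)) = ∫ u in s..q, k1 u (x + pt w (u - s)) := by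
      refine intervalIntegral.integral_congr fun u hu => ?_
      rw [uIcc_of_le hs] at hu
      change k1 u (x + pt (stop2 c w) (u - s)) = k1 u (x + pt w (u - s))
      rw [Dh_stop c w (by rw [hc]; linarith [hu.2])]
    have i2 : ∫ u in q..r, k2 u ((x + pt (stop2 c w) (q - s)) + pt (shift2 c w) (u - q)) =
        ∫ u in q..r, k2 u (x + pt w (u - s)) := by
      refine intervalIntegral.integral_congr fun u hu => ?_
      rw [uIcc_of_le hq] at hu
      change k2 u ((x + pt (stop2 c w) (q - s)) + pt (shift2 c w) (u - q)) = k2 u (x + pt w (u - s))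
      rw [hst, Dh_shift c w (by linarith [hu.1]), hc]
      congr 1
      have : q - s + (u - q) = u - s := by ring
      rw [this]
      ring
    have i3 : (x + pt (stop2 c w) (q - s)) + pt (shift2 c w) (r - q) = x + pt w (r - s) := by
      rw [hst, Dh_shift c w (by linarith), hc]
      have : q - s + (r - q) = r - s := by ring
      rw [this]
      ring
    change _ = Real.exp (∫ u in s..q, k1 u (x + pt (stop2 c w) (u - s))) *
      (h (x + pt (stop2 c w) (q - s)) *
        (Real.exp (∫ u in q..r, k2 u ((x + pt (stop2 c w) (q - s)) + pt (shift2 c w) (u - q))) *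
          g ((x + pt (stop2 c w) (q - s)) + pt (shift2 c w) (r - q))))
    rw [i1, i2, i3, hst]
  simp only [e1]
  rw [Dh_markov c hF hFb]
  unfold PK
  refine integral_congr_ae (Eventually.of_forall fun w => ?_)
  have hst : pt (stop2 c w) (q - s) = pt w (q - s) := Dh_stop c w (by rw [hc])
  have i1 : ∫ u in s..q, k1 u (x + pt (stop2 c w) (u - s)) = ∫ u in s..q, k1 u (x + pt w (u - s)) := by
    refine intervalIntegral.integral_congr fun u hu => ?_
    rw [uIcc_of_le hs] at hu
    change k1 u (x + pt (stop2 c w) (u - s)) = k1 u (x + pt w (u - s))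
    rw [Dh_stop c w (by rw [hc]; linarith [hu.2])]
  change ∫ w', Real.exp (∫ u in s..q, k1 u (x + pt (stop2 c w) (u - s))) *
      (h (x + pt (stop2 c w) (q - s)) *
        (Real.exp (∫ u in q..r, k2 u ((x + pt (stop2 c w) (q - s)) + pt w' (u - q))) *
          g ((x + pt (stop2 c w) (q - s)) + pt w' (r - q)))) ∂W2 = _
  rw [i1, hst, integral_const_mul, integral_const_mul]

theorem PK_semi {K M : ℝ} {k : ℝ → ℂ → ℝ} {g : ℂ → ℝ} (hk : Bdd K k) (hg : Measurable g) (hM : ∀ y, |g y| ≤ M)
    {s q r : ℝ} (hs : s ≤ q) (hq : q ≤ r) (x : ℂ) : PK k s r g x = PK k s q (PK k q r g) x := by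
  have h1 := Dh_mk (h := fun _ => 1) (H := 1) hk hk hg hM measurable_const (fun _ => by simp) hs hq x
  simp only [one_mul] at h1
  refine Eq.trans ?_ h1
  unfold PK
  refine integral_congr_ae (Eventually.of_forall fun w => ?_)
  have i1 := ExI_int (Dh_path hk x w s) (fun u => hk.bdd _ _)
  change Real.exp (∫ u in s..r, k u (x + pt w (u - s))) * g (x + pt w (r - s)) =
    Real.exp (∫ u in s..q, k u (x + pt w (u - s))) *
      (Real.exp (∫ u in q..r, k u (x + pt w (u - s))) * g (x + pt w (r - s)))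
  rw [← mul_assoc, ← Real.exp_add, intervalIntegral.integral_add_adjacent_intervals (i1 s q) (i1 q r)]

theorem PK_duh {K M : ℝ} {k1 k2 : ℝ → ℂ → ℝ} {g : ℂ → ℝ} (hk1 : Bdd K k1) (hk2 : Bdd K k2)
    (hg : Measurable g) (hM : ∀ y, |g y| ≤ M) {s T : ℝ} (hs : s ≤ T) (x : ℂ) :
    PK k2 s T g x = PK k1 s T g x + ∫ r in s..T, PK k1 s r (fun y => (k2 r y - k1 r y) * PK k2 r T g y) x := by
  have hK0 := Dh_K hk1
  have hM0 : 0 ≤ M := (abs_nonneg _).trans (hM 0)
  -- the integrand
  set f : P2 → ℝ → ℝ := fun w r => Real.exp (∫ u in s..r, k1 u (x + pt w (u - s))) *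
    ((k2 r (x + pt w (r - s)) - k1 r (x + pt w (r - s))) *
      (Real.exp (∫ u in r..T, k2 u (x + pt w (u - s))) * g (x + pt w (T - s)))) with hf
  have hdb : ∀ r y, |k2 r y - k1 r y| ≤ 2 * K := fun r y =>
    (abs_sub _ _).trans (by linarith [hk1.bdd r y, hk2.bdd r y])
  have hdm : ∀ r, Measurable fun y => k2 r y - k1 r y := fun r =>
    (hk2.meas.comp measurable_prodMk_left).sub (hk1.meas.comp measurable_prodMk_left)
  have e1 : ∀ r, s ≤ r → r ≤ T →
      ∫ w, f w r ∂W2 = PK k1 s r (fun y => (k2 r y - k1 r y) * PK k2 r T g y) x := fun r h1 h2 =>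
    Dh_mk (h := fun y => k2 r y - k1 r y) (H := 2 * K) hk1 hk2 hg hM (hdm r) (hdb r) h1 h2 x
  have hfm : Measurable (Function.uncurry f) := by
    have m1 : Measurable fun z : P2 × ℝ => z.2 := measurable_snd
    have m2 : Measurable fun z : P2 × ℝ => z.1 := measurable_fst
    have m3 : Measurable fun z : P2 × ℝ => x + pt z.1 (z.2 - s) :=
      measurable_const.add (Dh_ptm m2 (m1.sub_const s))
    refine (Dh_expo hk1 measurable_const m1 measurable_const measurable_const m2).mul
      (((hk2.meas.comp (m1.prodMk m3)).sub (hk1.meas.comp (m1.prodMk m3))).mul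
      ((Dh_expo hk2 m1 measurable_const measurable_const measurable_const m2).mul
        (hg.comp (measurable_const.add (Dh_ptm m2 measurable_const)))))
  have hfb : ∀ w r, s < r → r ≤ T → |f w r| ≤
      Real.exp (K * (T - s)) * (2 * K * (Real.exp (K * (T - s)) * M)) := by
    intro w r h1 h2
    have a1 : Real.exp (K * (r - s)) ≤ Real.exp (K * (T - s)) :=
      Real.exp_le_exp.2 (mul_le_mul_of_nonneg_left (by linarith) hK0)
    have a2 : Real.exp (K * (T - r)) ≤ Real.exp (K * (T - s)) :=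
      Real.exp_le_exp.2 (mul_le_mul_of_nonneg_left (by linarith) hK0)
    rw [hf]
    simp only
    rw [abs_mul, abs_of_pos (Real.exp_pos _), abs_mul, abs_mul, abs_of_pos (Real.exp_pos _)]
    refine mul_le_mul ((Dh_E hk1 x w s h1.le).trans a1) ?_ (by positivity) (Real.exp_pos _).le
    refine mul_le_mul (hdb _ _) ?_ (by positivity) (by positivity)
    exact mul_le_mul ((Dh_E hk2 x w s h2).trans a2) (hM _) (abs_nonneg _) (Real.exp_pos _).le
  have hfi : Integrable (Function.uncurry f) (W2.prod (volume.restrict (Ioc s T))) := by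
    have h1 : W2.prod (volume.restrict (Ioc s T)) = (W2.prod volume).restrict (univ ×ˢ Ioc s T) := by
      rw [← Measure.prod_restrict, Measure.restrict_univ]
    rw [h1]
    refine Measure.integrableOn_of_bounded
      (M := Real.exp (K * (T - s)) * (2 * K * (Real.exp (K * (T - s)) * M))) ?_
      hfm.aestronglyMeasurable ?_
    · rw [Measure.prod_prod, Real.volume_Ioc]
      exact ENNReal.mul_ne_top (measure_ne_top _ _) ENNReal.ofReal_ne_top
    · filter_upwards [ae_restrict_mem (MeasurableSet.univ.prod measurableSet_Ioc)] with z hz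
      rw [Real.norm_eq_abs]
      exact hfb z.1 z.2 hz.2.1 hz.2.2
  have hswap := integral_integral_swap hfi
  have e2 : ∀ w : P2, Real.exp (∫ u in s..T, k2 u (x + pt w (u - s))) * g (x + pt w (T - s)) =
      Real.exp (∫ u in s..T, k1 u (x + pt w (u - s))) * g (x + pt w (T - s)) +
        ∫ r in Ioc s T, f w r := by
    intro w
    have h1 := exp_duh (Dh_path hk1 x w s) (Dh_path hk2 x w s) (fun u => hk1.bdd _ _)
      (fun u => hk2.bdd _ _) hs
    have h2 : (∫ r in s..T, Real.exp (∫ u in s..r, k1 u (x + pt w (u - s))) *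
        (k2 r (x + pt w (r - s)) - k1 r (x + pt w (r - s))) *
          Real.exp (∫ u in r..T, k2 u (x + pt w (u - s)))) * g (x + pt w (T - s)) =
        ∫ r in Ioc s T, f w r := by
      rw [← intervalIntegral.integral_mul_const, intervalIntegral.integral_of_le hs]
      refine integral_congr_ae (Eventually.of_forall fun r => ?_)
      simp only [hf]
      ring
    rw [h1, add_mul, h2]
  have e3 : ∫ w, (∫ r in Ioc s T, f w r) ∂W2 =
      ∫ r in s..T, PK k1 s r (fun y => (k2 r y - k1 r y) * PK k2 r T g y) x := by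
    rw [hswap, intervalIntegral.integral_of_le hs]
    refine setIntegral_congr_fun (s := Ioc s T) measurableSet_Ioc fun r hr => ?_
    exact e1 r hr.1.le hr.2
  rw [← e3]
  unfold PK
  have hfi' : Integrable (fun w : P2 => ∫ r in Ioc s T, f w r) W2 := hfi.integral_prod_left
  rw [← integral_add (Dh_integrable hk1 hg hM hs x) hfi']
  exact integral_congr_ae (Eventually.of_forall fun w => e2 w)

end Pool.H50.BB
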