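import Pool.Agent.H50.BB.Dsb

/-!
# Row Dph: the ground state as a function   (about 180 lines)

From `spec`: `φ0 : E2`.  Put `φ u = e^{lam} TV (Va α) 1 φ0 u` (a measurable function, `= φ0` a.e. since `TL 1 φ0 = e^{-lam} φ0`, `tl_coe`).
`pos`: `tv_pos`.  `bd`: `φ(u)² ≤ e^{2 lam} om(1,u) (√(2π))⁻¹` (`tv_sq`, `memLp_path`) and `om ≤ C/(1+u²)^4` (`om_decay`).
`norm`: `nrm_sq`.  `eig`: `TV h φ u = TV h φ0 u` (`tv_congr`) and `φ = e^{lam} TV 1 φ0`, so
`TV h φ u = e^{lam} TV h (TV 1 φ0) u = e^{lam} TV 1 (TV h φ0) u` (`tv_semi` twice) `= e^{lam} TV 1 (e^{-lam h} φ0) u = e^{-lam h} φ u`.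
`nrm`: third property of `spec` with `tl_toLp`.  `gap`: for `f` let `F` be its class, `F = c φ0 + z`, `c = ⟪φ0,F⟫ = ∫ φ f`, `⟪φ0, z⟫ = 0`, `‖z‖ ≤ ‖F‖`:
`T_h F - e^{-lam h} c φ0 = T_h z`, norm `≤ C e^{-(lam+ρ)h} ‖F‖`; translate to integrals (`nrm_sq`, a.e. equalities).
`low` (lower bound on `|u| ≤ U`, `U ≥ 0`): `φ u = e^{lam} TV 1 φ u`.  For `M > 0`: on `{w | ∀ s ∈ [0,1], |w s| < M}` the weight is `≥ exp (-(U+M)^α)`, so
`TV 1 φ u ≥ exp(-(U+M)^α) (E φ(u + w 1) - B Wm{∃ s ∈ [0,1], M ≤ |w s|})`, `B = sup φ`, and `E φ(u + w 1) = ∫ φ(x) gd 1 (x-u) dx ≥ (min over |x| ≤ 1, |u| ≤ U of gd 1 (x-u)) ∫_{|x| ≤ 1} φ =: m > 0`;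
by `sup_tail` choose `M` with `4 B exp (-M²/2) ≤ m/2`.
-/

open MeasureTheory ProbabilityTheory Set Filter Topology
open scoped NNReal ENNReal InnerProductSpace

namespace Pool.H50.BB

open Pool.Agent.H4.BM

/-- `L²` norm of a function -/
noncomputable def nrm (f : ℝ → ℝ) : ℝ := √(∫ x, f x ^ 2)

/-- the ground state and its properties -/
structure GS (α lam ρ C : ℝ) (φ : ℝ → ℝ) : Prop where
  lam_pos : 0 < lam
  rho_pos : 0 < ρ
  C_ge : 1 ≤ C
  meas : Measurable φ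
  pos : ∀ u, 0 < φ u
  bd : ∀ u, φ u ≤ C / (1 + u ^ 2) ^ 2
  low : ∀ U : ℝ, ∃ c > 0, ∀ u, |u| ≤ U → c ≤ φ u
  norm : ∫ x, φ x ^ 2 = 1
  eig : ∀ h > 0, ∀ u, TV (Va α) h φ u = Real.exp (-lam * h) * φ u
  nrm_le : ∀ h > 0, ∀ f : ℝ → ℝ, Measurable f → MemLp f 2 volume →
    nrm (TV (Va α) h f) ≤ Real.exp (-lam * h) * nrm f
  gap : ∀ h > 0, ∀ f : ℝ → ℝ, Measurable f → MemLp f 2 volume →
    nrm (fun u => TV (Va α) h f u - Real.exp (-lam * h) * (∫ x, φ x * f x) * φ u) ≤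
      C * Real.exp (-(lam + ρ) * h) * nrm f

theorem Dph_nrm {G : E2} {g : ℝ → ℝ} (h : (G : ℝ → ℝ) =ᵐ[volume] g) : nrm g = ‖G‖ := by
  unfold nrm
  have h1 : ∫ x, g x ^ 2 = ∫ x, G x ^ 2 := by
    refine integral_congr_ae ?_
    filter_upwards [h] with x hx
    rw [hx]
  rw [h1, ← nrm_sq, Real.sqrt_sq (norm_nonneg _)]

theorem Dph_smul (V : ℝ → ℝ) (h a : ℝ) (f : ℝ → ℝ) (u : ℝ) :
    TV V h (fun x => a * f x) u = a * TV V h f u := by
  unfold TV
  rw [← integral_const_mul]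
  refine integral_congr_ae (ae_of_all _ fun w => ?_)
  show _ * (a * _) = a * (_ * _)
  ring

/-- lower bound on the free average -/
theorem Dph_free {φ : ℝ → ℝ} (hm : Measurable φ) (hpos : ∀ u, 0 < φ u) (U : ℝ) :
    ∃ m : ℝ≥0∞, m ≠ 0 ∧ m ≠ ⊤ ∧ ∀ u, |u| ≤ U → m ≤ ∫⁻ w, ENNReal.ofReal (φ (u + w 1)) ∂Wm := by
  have hU : ∀ u, |u| ≤ U → ENNReal.ofReal (gd 1 (|U| + 1)) *
      ∫⁻ y in Icc (-1 : ℝ) 1, ENNReal.ofReal (φ y) ≤ ∫⁻ w, ENNReal.ofReal (φ (u + w 1)) ∂Wm := by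
    intro u hu
    rw [marg one_pos (f := fun x => ENNReal.ofReal (φ (u + x))) (by fun_prop)]
    have h1 : ∫⁻ x, ENNReal.ofReal (φ (u + x)) * ENNReal.ofReal (gd 1 x) =
        ∫⁻ y, ENNReal.ofReal (φ y) * ENNReal.ofReal (gd 1 (y - u)) := by
      have h2 := lintegral_add_left_eq_self (μ := (volume : Measure ℝ))
        (fun y => ENNReal.ofReal (φ y) * ENNReal.ofReal (gd 1 (y - u))) u
      rw [← h2]
      refine lintegral_congr fun x => ?_
      rw [add_sub_cancel_left]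
    rw [h1, ← lintegral_const_mul _ (by fun_prop)]
    refine (lintegral_mono_ae ?_).trans (setLIntegral_le_lintegral (Icc (-1 : ℝ) 1) _)
    refine (ae_restrict_iff' measurableSet_Icc).2 (ae_of_all _ fun y hy => ?_)
    rw [mul_comm]
    refine mul_le_mul_right ?_ _
    refine ENNReal.ofReal_le_ofReal ?_
    unfold gd
    refine mul_le_mul_of_nonneg_left ?_ (by positivity)
    refine Real.exp_le_exp.2 ?_
    have h3 : |y - u| ≤ |U| + 1 := by
      have h4 : |y| ≤ 1 := abs_le.2 hy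
      have h5 := abs_sub y u
      have h6 := le_abs_self U
      linarith
    have h7 : (y - u) ^ 2 ≤ (|U| + 1) ^ 2 := by
      rw [← sq_abs (y - u)]
      exact pow_le_pow_left₀ (abs_nonneg _) h3 2
    linarith
  have h0 : ∫⁻ y in Icc (-1 : ℝ) 1, ENNReal.ofReal (φ y) ≠ 0 := by
    intro h
    rw [lintegral_eq_zero_iff (by fun_prop)] at h
    have h1 : ∀ᵐ y ∂(volume.restrict (Icc (-1 : ℝ) 1)), False := by
      filter_upwards [h] with y hy
      have h2 : ENNReal.ofReal (φ y) = 0 := hy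
      rw [ENNReal.ofReal_eq_zero] at h2
      exact absurd (hpos y) (not_lt.2 h2)
    rw [ae_iff] at h1
    have h2 : (volume : Measure ℝ) (Icc (-1 : ℝ) 1) = 0 := by
      have h3 : {a : ℝ | ¬ False} = univ := by
        ext a
        simp
      rw [h3, Measure.restrict_apply_univ] at h1
      exact h1
    rw [Real.volume_Icc] at h2
    norm_num at h2
  have hg : ENNReal.ofReal (gd 1 (|U| + 1)) ≠ 0 := by
    rw [Ne, ENNReal.ofReal_eq_zero, not_le]
    unfold gd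
    positivity
  refine ⟨min 1 (ENNReal.ofReal (gd 1 (|U| + 1)) * ∫⁻ y in Icc (-1 : ℝ) 1, ENNReal.ofReal (φ y)),
    ?_, ?_, fun u hu => (min_le_right _ _).trans (hU u hu)⟩
  · intro h
    rcases min_eq_iff.1 h with h1 | h1
    · exact one_ne_zero h1.1
    · exact (mul_ne_zero hg h0) h1.1
  · exact ne_top_of_le_ne_top ENNReal.one_ne_top (min_le_left _ _)

theorem Dph_low {α lam B : ℝ} (hα : 0 < α) {φ : ℝ → ℝ} (hm : Measurable φ) (hpos : ∀ u, 0 < φ u)
    (hB : ∀ u, φ u ≤ B) (hf2 : MemLp φ 2 volume)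
    (heig : ∀ u, TV (Va α) 1 φ u = Real.exp (-lam * 1) * φ u) (U : ℝ) :
    ∃ c > 0, ∀ u, |u| ≤ U → c ≤ φ u := by
  obtain ⟨m, hm0, hmt, hmU⟩ := Dph_free hm hpos U
  have hB0 : 0 < B := (hpos 0).trans_le (hB 0)
  have hmr : 0 < m.toReal := ENNReal.toReal_pos hm0 hmt
  -- choose `M`
  obtain ⟨M, hM0, hM⟩ : ∃ M : ℝ, 0 < M ∧ B * (4 * Real.exp (-M ^ 2 / (2 * 1))) ≤ m.toReal / 2 := by
    have h1 : Tendsto (fun M : ℝ => B * (4 * Real.exp (-M ^ 2 / (2 * 1)))) atTop (𝓝 (B * (4 * 0))) := by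
      refine (Tendsto.const_mul 4 ?_).const_mul B
      refine Real.tendsto_exp_atBot.comp ?_
      have h2 : Tendsto (fun M : ℝ => M ^ 2) atTop atTop := tendsto_pow_atTop (by norm_num)
      have h3 : (fun M : ℝ => -M ^ 2 / (2 * 1)) = fun M => -(M ^ 2 / 2) := by
        funext M
        ring
      rw [h3]
      exact tendsto_neg_atTop_atBot.comp (h2.atTop_div_const (by norm_num))
    rw [mul_zero, mul_zero] at h1
    have h2 := (h1.eventually (gt_mem_nhds (half_pos hmr))).and (eventually_gt_atTop (0 : ℝ))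
    obtain ⟨M, h3, h4⟩ := h2.exists
    exact ⟨M, h4, h3.le⟩
  let S : Set Pth := toMeasurable Wm {w | ∃ s ∈ Icc (0 : ℝ) 1, M ≤ |w s|}
  have hS : MeasurableSet S := measurableSet_toMeasurable _ _
  have hSm : Wm S ≤ ENNReal.ofReal (4 * Real.exp (-M ^ 2 / (2 * 1))) := by
    show Wm (toMeasurable _ _) ≤ _
    rw [measure_toMeasurable]
    exact sup_tail one_pos hM0
  have hSc : ∀ w ∈ Sᶜ, ∀ s ∈ Icc (0 : ℝ) 1, |w s| < M := by
    intro w hw s hs
    by_contra hcon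
    exact hw (subset_toMeasurable _ _ ⟨s, hs, not_lt.1 hcon⟩)
  have hwm : Measurable fun w : Pth => w 1 := Pth.measurable_apply 1
  have hint : ∀ u, |u| ≤ U → m / 2 ≤ ∫⁻ w in Sᶜ, ENNReal.ofReal (φ (u + w 1)) ∂Wm := by
    intro u hu
    have h1 := hmU u hu
    rw [← lintegral_add_compl _ hS] at h1
    have h2 : ∫⁻ w in S, ENNReal.ofReal (φ (u + w 1)) ∂Wm ≤ m / 2 := by
      calc ∫⁻ w in S, ENNReal.ofReal (φ (u + w 1)) ∂Wm ≤ ∫⁻ _ in S, ENNReal.ofReal B ∂Wm :=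
            lintegral_mono fun w => ENNReal.ofReal_le_ofReal (hB _)
        _ = ENNReal.ofReal B * Wm S := by rw [setLIntegral_const]
        _ ≤ ENNReal.ofReal B * ENNReal.ofReal (4 * Real.exp (-M ^ 2 / (2 * 1))) :=
            mul_le_mul_right hSm _
        _ = ENNReal.ofReal (B * (4 * Real.exp (-M ^ 2 / (2 * 1)))) :=
            (ENNReal.ofReal_mul hB0.le).symm
        _ ≤ ENNReal.ofReal (m.toReal / 2) := ENNReal.ofReal_le_ofReal hM
        _ = m / 2 := by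
          rw [ENNReal.ofReal_div_of_pos (by norm_num), ENNReal.ofReal_toReal hmt]
          norm_num
    have h3 : m ≤ m / 2 + ∫⁻ w in Sᶜ, ENNReal.ofReal (φ (u + w 1)) ∂Wm := h1.trans (by gcongr)
    have h4 : m / 2 + m / 2 = m := ENNReal.add_halves m
    have h5 : m / 2 + m / 2 ≤ m / 2 + ∫⁻ w in Sᶜ, ENNReal.ofReal (φ (u + w 1)) ∂Wm := by
      rw [h4]
      exact h3
    exact (ENNReal.add_le_add_iff_left (ENNReal.div_ne_top hmt (by norm_num))).1 h5
  have hVU : ∀ u, |u| ≤ U → ∀ w ∈ Sᶜ, Real.exp (-(|U| + M) ^ α) ≤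
      Real.exp (-∫ s in (0 : ℝ)..1, Va α (u + w s)) := by
    intro u hu w hw
    refine Real.exp_le_exp.2 (neg_le_neg ?_)
    have hc : Continuous fun s => Va α (u + w s) :=
      (pot_Va hα).cont.comp (continuous_const.add w.continuous)
    calc ∫ s in (0 : ℝ)..1, Va α (u + w s) ≤ ∫ _ in (0 : ℝ)..1, (|U| + M) ^ α := by
          refine intervalIntegral.integral_mono_on zero_le_one (hc.intervalIntegrable _ _)
            (by simp) fun s hs => ?_
          unfold Va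
          refine Real.rpow_le_rpow (abs_nonneg _) ?_ hα.le
          have h1 := abs_add_le u (w s)
          have h2 := hSc w hw s hs
          have h3 := le_abs_self U
          linarith
      _ = (|U| + M) ^ α := by
        rw [intervalIntegral.integral_const]
        simp
  refine ⟨Real.exp lam * (Real.exp (-(|U| + M) ^ α) * (m.toReal / 2)), by positivity, fun u hu => ?_⟩
  have h1 : ENNReal.ofReal (Real.exp (-(|U| + M) ^ α) * (m.toReal / 2)) ≤
      ENNReal.ofReal (TV (Va α) 1 φ u) := by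
    have h2 := tv_int (pot_Va hα) one_pos hm hf2 u
    unfold TV
    rw [ofReal_integral_eq_lintegral_ofReal h2
      (ae_of_all _ fun w => mul_nonneg (Real.exp_pos _).le (hpos _).le)]
    calc ENNReal.ofReal (Real.exp (-(|U| + M) ^ α) * (m.toReal / 2))
        = ENNReal.ofReal (Real.exp (-(|U| + M) ^ α)) * (m / 2) := by
          rw [ENNReal.ofReal_mul (Real.exp_pos _).le, ENNReal.ofReal_div_of_pos (by norm_num),
            ENNReal.ofReal_toReal hmt]
          norm_num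
      _ ≤ ENNReal.ofReal (Real.exp (-(|U| + M) ^ α)) *
          ∫⁻ w in Sᶜ, ENNReal.ofReal (φ (u + w 1)) ∂Wm := mul_le_mul_right (hint u hu) _
      _ = ∫⁻ w in Sᶜ, ENNReal.ofReal (Real.exp (-(|U| + M) ^ α)) *
          ENNReal.ofReal (φ (u + w 1)) ∂Wm :=
          (lintegral_const_mul _ (by fun_prop)).symm
      _ ≤ ∫⁻ w in Sᶜ, ENNReal.ofReal (Real.exp (-∫ s in (0 : ℝ)..1, Va α (u + w s)) *
          φ (u + w 1)) ∂Wm := by
          refine lintegral_mono_ae ?_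
          refine (ae_restrict_iff' hS.compl).2 (ae_of_all _ fun w hw => ?_)
          rw [← ENNReal.ofReal_mul (Real.exp_pos _).le]
          exact ENNReal.ofReal_le_ofReal
            (mul_le_mul_of_nonneg_right (hVU u hu w hw) (hpos _).le)
      _ ≤ ∫⁻ w, ENNReal.ofReal (Real.exp (-∫ s in (0 : ℝ)..1, Va α (u + w s)) *
          φ (u + w 1)) ∂Wm := setLIntegral_le_lintegral _ _
  have h3 : 0 ≤ TV (Va α) 1 φ u := by
    rw [heig u]
    exact mul_nonneg (Real.exp_pos _).le (hpos u).le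
  have h4 := (ENNReal.ofReal_le_ofReal_iff h3).1 h1
  rw [heig u] at h4
  calc Real.exp lam * (Real.exp (-(|U| + M) ^ α) * (m.toReal / 2))
      ≤ Real.exp lam * (Real.exp (-lam * 1) * φ u) :=
        mul_le_mul_of_nonneg_left h4 (Real.exp_pos _).le
    _ = φ u := by
      rw [← mul_assoc, ← Real.exp_add]
      have : lam + -lam * 1 = 0 := by ring
      rw [this, Real.exp_zero, one_mul]

theorem exists_GS {α : ℝ} (hα : 0 < α) (hα2 : α < 2) : ∃ lam ρ C φ, GS α lam ρ C φ := by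
  obtain ⟨lam, ρ, C, φ0, hlam, hρ, hC, hn, hp, he, hb, hg⟩ := spec hα hα2
  obtain ⟨K0, hK0, hom⟩ := om_decay hα hα2
  have hV := pot_Va hα
  have m0 : Measurable (φ0 : ℝ → ℝ) := (Lp.stronglyMeasurable φ0).measurable
  have l0 : MemLp (φ0 : ℝ → ℝ) 2 volume := Lp.memLp φ0
  -- eigenfunction a.e.
  have hTe : ∀ (h : ℝ), 0 < h → TV (Va α) h φ0 =ᵐ[volume] fun x => Real.exp (-lam * h) * φ0 x := by
    intro h hh
    have h1 := tl_coe hV hh φ0
    rw [he h hh] at h1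
    filter_upwards [h1, Lp.coeFn_smul (Real.exp (-lam * h)) φ0] with x hx1 hx2
    rw [← hx1, hx2]
    rfl
  have hsq : ∫ x, φ0 x ^ 2 = 1 := by
    rw [← nrm_sq, hn, one_pow]
  have hφae : (fun u => Real.exp lam * TV (Va α) 1 φ0 u) =ᵐ[volume] φ0 := by
    filter_upwards [hTe 1 one_pos] with x hx
    rw [hx, ← mul_assoc, ← Real.exp_add]
    have : lam + -lam * 1 = 0 := by ring
    rw [this, Real.exp_zero, one_mul]
  have hφm : Measurable (fun u => Real.exp lam * TV (Va α) 1 φ0 u) :=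
    (tv_meas hV one_pos m0).const_mul _
  have hφl : MemLp (fun u => Real.exp lam * TV (Va α) 1 φ0 u) 2 volume := l0.ae_eq hφae.symm
  have hφpos : ∀ u, 0 < Real.exp lam * TV (Va α) 1 φ0 u := by
    intro u
    refine mul_pos (Real.exp_pos _) (tv_pos hV one_pos m0 l0 (hp.mono fun x hx => hx.le) ?_ u)
    intro h0
    have h1 : ∀ᵐ x ∂(volume : Measure ℝ), False := by
      filter_upwards [hp, h0] with x hx1 hx2
      rw [hx2] at hx1
      exact lt_irrefl _ hx1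
    obtain ⟨x, hx⟩ := h1.exists
    exact hx
  have heig : ∀ h > 0, ∀ u, TV (Va α) h (fun u => Real.exp lam * TV (Va α) 1 φ0 u) u =
      Real.exp (-lam * h) * (Real.exp lam * TV (Va α) 1 φ0 u) := by
    intro h hh u
    rw [Dph_smul, tv_semi hV hh one_pos m0 l0, add_comm h 1, ← tv_semi hV one_pos hh m0 l0,
      tv_congr one_pos (tv_meas hV hh m0) (m0.const_mul _) (hTe h hh), Dph_smul]
    ring
  -- the decay bound
  have hbd : ∀ u, Real.exp lam * TV (Va α) 1 φ0 u ≤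
      √(Real.exp lam ^ 2 * (K0 * (√(2 * Real.pi * 1))⁻¹)) / (1 + u ^ 2) ^ 2 := by
    intro u
    have h1 := tv_sq hV one_pos m0 l0 u
    have h2 := (memLp_path one_pos m0 l0 u).2
    rw [hsq, mul_one] at h2
    have h3 := hom 1 (by norm_num) (by norm_num) u
    have h4 : (Real.exp lam * TV (Va α) 1 φ0 u) ^ 2 ≤
        (√(Real.exp lam ^ 2 * (K0 * (√(2 * Real.pi * 1))⁻¹)) / (1 + u ^ 2) ^ 2) ^ 2 := by
      rw [div_pow, Real.sq_sqrt (by positivity), mul_pow, mul_div_assoc]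
      refine mul_le_mul_of_nonneg_left ?_ (by positivity)
      refine h1.trans ?_
      have h5 : 0 ≤ ∫ w, φ0 (u + w 1) ^ 2 ∂Wm := integral_nonneg fun w => sq_nonneg _
      calc om (Va α) 1 u * ∫ w, φ0 (u + w 1) ^ 2 ∂Wm
          ≤ K0 / (1 + u ^ 2) ^ 4 * (√(2 * Real.pi * 1))⁻¹ :=
            mul_le_mul h3 h2 h5 (by positivity)
        _ = K0 * (√(2 * Real.pi * 1))⁻¹ / ((1 + u ^ 2) ^ 2) ^ 2 := by
          rw [← pow_mul]
          ring
    exact le_of_sq_le_sq h4 (by positivity)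
  have hK1 : 0 ≤ √(Real.exp lam ^ 2 * (K0 * (√(2 * Real.pi * 1))⁻¹)) := Real.sqrt_nonneg _
  refine ⟨lam, ρ, max C (√(Real.exp lam ^ 2 * (K0 * (√(2 * Real.pi * 1))⁻¹))),
    fun u => Real.exp lam * TV (Va α) 1 φ0 u, ?_⟩
  refine
    { lam_pos := hlam
      rho_pos := hρ
      C_ge := hC.trans (le_max_left _ _)
      meas := hφm
      pos := hφpos
      bd := fun u => (hbd u).trans (by gcongr; exact le_max_right _ _)
      low := fun U => ?_
      norm := ?_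
      eig := heig
      nrm_le := fun h hh f hf hf2 => ?_
      gap := fun h hh f hf hf2 => ?_ }
  · refine Dph_low (lam := lam) (B := √(Real.exp lam ^ 2 * (K0 * (√(2 * Real.pi * 1))⁻¹))) hα hφm
      hφpos (fun u => (hbd u).trans ?_) hφl (heig 1 one_pos) U
    refine div_le_self hK1 ?_
    have : 0 ≤ u ^ 2 := sq_nonneg u
    exact one_le_pow₀ (by linarith)
  · have h1 : ∫ x, (Real.exp lam * TV (Va α) 1 φ0 x) ^ 2 = ∫ x, φ0 x ^ 2 := by
      refine integral_congr_ae ?_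
      filter_upwards [hφae] with x hx
      show (Real.exp lam * TV (Va α) 1 φ0 x) ^ 2 = _
      rw [hx]
    rw [h1, hsq]
  · rw [Dph_nrm (tl_toLp hV hh hf hf2), Dph_nrm hf2.coeFn_toLp]
    exact hb h hh _
  · have hc : ∫ x, Real.exp lam * TV (Va α) 1 φ0 x * f x = ⟪φ0, hf2.toLp f⟫_ℝ := by
      rw [MeasureTheory.L2.inner_def]
      refine integral_congr_ae ?_
      filter_upwards [hφae, hf2.coeFn_toLp] with x hx1 hx2
      rw [hx1, hx2]
      simp [mul_comm]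
    set c := ⟪φ0, hf2.toLp f⟫_ℝ with hcdef
    have hz : ⟪φ0, hf2.toLp f - c • φ0⟫_ℝ = 0 := by
      rw [inner_sub_right, inner_smul_right, real_inner_self_eq_norm_sq, hn]
      rw [← hcdef]
      ring
    have h1 := hg h hh _ hz
    have h2 : (TL hV hh (hf2.toLp f - c • φ0) : ℝ → ℝ) =ᵐ[volume]
        fun u => TV (Va α) h f u - Real.exp (-lam * h) * c *
          (Real.exp lam * TV (Va α) 1 φ0 u) := by
      rw [map_sub, map_smul, he h hh, smul_smul]
      filter_upwards [Lp.coeFn_sub (TL hV hh (hf2.toLp f)) ((c * Real.exp (-lam * h)) • φ0),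
        tl_toLp hV hh hf hf2, Lp.coeFn_smul (c * Real.exp (-lam * h)) φ0, hφae]
        with x h3 h4 h5 h6
      rw [h3, Pi.sub_apply, h4, h5, h6, Pi.smul_apply, smul_eq_mul]
      ring
    rw [hc, Dph_nrm h2, Dph_nrm hf2.coeFn_toLp]
    refine h1.trans ?_
    have h3 : ‖hf2.toLp f - c • φ0‖ ≤ ‖hf2.toLp f‖ := by
      have h4 : ‖hf2.toLp f‖ ^ 2 = ‖hf2.toLp f - c • φ0‖ ^ 2 + c ^ 2 := by
        have h5 : hf2.toLp f = (hf2.toLp f - c • φ0) + c • φ0 := by abel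
        have h6 : ⟪hf2.toLp f - c • φ0, c • φ0⟫_ℝ = 0 := by
          rw [inner_smul_right, real_inner_comm, hz, mul_zero]
        have h7 := norm_add_sq_real (hf2.toLp f - c • φ0) (c • φ0)
        rw [h6, norm_smul, hn, mul_one, Real.norm_eq_abs, sq_abs] at h7
        rw [← h5] at h7
        linarith
      exact le_of_sq_le_sq (by nlinarith [sq_nonneg c]) (norm_nonneg _)
    calc C * Real.exp (-(lam + ρ) * h) * ‖hf2.toLp f - c • φ0‖
        ≤ C * Real.exp (-(lam + ρ) * h) * ‖hf2.toLp f‖ := by gcongr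
      _ ≤ max C (√(Real.exp lam ^ 2 * (K0 * (√(2 * Real.pi * 1))⁻¹))) *
          Real.exp (-(lam + ρ) * h) * ‖hf2.toLp f‖ := by
        gcongr
        exact le_max_left _ _

end Pool.H50.BB
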