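import Pool.Agent.H50.BB.Dtl

/-!
# Row Dsa: eigenvectors for the maximal eigenvalue have a constant sign
-/

open MeasureTheory ProbabilityTheory Set Filter Topology
open scoped NNReal ENNReal InnerProductSpace

namespace Pool.H50.BB

open Pool.Agent.H4.BM

theorem Dsa_abs {V : ℝ → ℝ} (hV : Pot V) {h : ℝ} (hh : 0 < h) {μ : ℝ} (hμ : 0 < μ)
    (hb : ∀ y : E2, ‖TL hV hh y‖ ≤ μ * ‖y‖) {x : E2} (hx : TL hV hh x = μ • x) :
    TL hV hh |x| = μ • |x| := by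
  have hd : ∀ᵐ u, 0 ≤ (TL hV hh |x| - μ • |x| : E2) u := by
    filter_upwards [Lp.coeFn_sub (TL hV hh |x|) (μ • |x|), Lp.coeFn_smul μ |x|, Lp.coeFn_abs x,
      tl_coe hV hh |x|, tl_coe hV hh x, Lp.coeFn_smul μ x] with u h1 h2 h3 h4 h5 h6
    rw [h1, Pi.sub_apply, h2, Pi.smul_apply, h3, h4, smul_eq_mul]
    have m1 := (Lp.stronglyMeasurable x).measurable
    have h7 : TV V h ((|x| : E2) : ℝ → ℝ) u = TV V h (fun v => |x v|) u :=
      tv_congr hh (Lp.stronglyMeasurable _).measurable m1.abs (Lp.coeFn_abs x) u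
    have h8 := tv_abs hV hh m1 (Lp.memLp x) u
    rw [← h5, hx, h6, Pi.smul_apply, smul_eq_mul, abs_mul, abs_of_pos hμ] at h8
    rw [h7]
    linarith
  have h1 : 0 ≤ ⟪|x|, TL hV hh |x| - μ • |x|⟫_ℝ := by
    rw [L2.inner_def]
    refine integral_nonneg_of_ae ?_
    filter_upwards [hd, Lp.coeFn_abs x] with u h2 h3
    simp only [RCLike.inner_apply, conj_trivial, Pi.zero_apply]
    rw [h3]
    exact mul_nonneg h2 (abs_nonneg _)
  have h2 : ‖TL hV hh |x| - μ • |x|‖ ^ 2 ≤ 0 := by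
    rw [norm_sub_sq_real, norm_smul, real_inner_smul_right, Real.norm_of_nonneg hμ.le]
    rw [inner_sub_right, real_inner_smul_right, real_inner_self_eq_norm_sq, real_inner_comm] at h1
    have h3 := hb |x|
    have h4 : ‖TL hV hh |x|‖ ^ 2 ≤ (μ * ‖|x|‖) ^ 2 := pow_le_pow_left₀ (norm_nonneg _) h3 2
    nlinarith
  have h3 : ‖TL hV hh |x| - μ • |x|‖ = 0 := by
    have := sq_nonneg ‖TL hV hh |x| - μ • |x|‖
    exact pow_eq_zero_iff (two_ne_zero) |>.1 (le_antisymm h2 this)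
  exact sub_eq_zero.1 (norm_eq_zero.1 h3)

theorem Dsa_pos {V : ℝ → ℝ} (hV : Pot V) {h : ℝ} (hh : 0 < h) {μ : ℝ} (hμ : 0 < μ)
    {z : E2} (hz : TL hV hh z = μ • z) (hz0 : ∀ᵐ u, 0 ≤ z u) (hne : z ≠ 0) : ∀ᵐ u, 0 < z u := by
  have m1 := (Lp.stronglyMeasurable z).measurable
  have hne' : ¬ (z : ℝ → ℝ) =ᵐ[volume] 0 := by
    intro h1
    exact hne ((Lp.eq_zero_iff_ae_eq_zero).2 h1)
  filter_upwards [tl_coe hV hh z, Lp.coeFn_smul μ z] with u h1 h2
  have h3 := tv_pos hV hh m1 (Lp.memLp z) hz0 hne' u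
  rw [← h1, hz, h2, Pi.smul_apply, smul_eq_mul] at h3
  exact pos_of_mul_pos_right h3 hμ.le

theorem eig_sign {V : ℝ → ℝ} (hV : Pot V) {h : ℝ} (hh : 0 < h) {μ : ℝ} (hμ : 0 < μ)
    (hb : ∀ y : E2, ‖TL hV hh y‖ ≤ μ * ‖y‖) {x : E2} (hx : TL hV hh x = μ • x) (hx0 : x ≠ 0) :
    (∀ᵐ u, 0 < x u) ∨ (∀ᵐ u, x u < 0) := by
  have ha := Dsa_abs hV hh hμ hb hx
  by_cases hp : |x| + x = 0
  · right
    have hq : |x| - x ≠ 0 := by
      intro hq
      apply hx0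
      have h1 : |x| = x := sub_eq_zero.1 hq
      rw [h1] at hp
      have h2 : (2 : ℝ) • x = 0 := by rw [two_smul]; exact hp
      exact (smul_eq_zero.1 h2).resolve_left two_ne_zero
    have h1 : TL hV hh (|x| - x) = μ • (|x| - x) := by rw [map_sub, ha, hx, smul_sub]
    have h2 : ∀ᵐ u, 0 ≤ (|x| - x : E2) u := by
      filter_upwards [Lp.coeFn_sub |x| x, Lp.coeFn_abs x] with u h3 h4
      rw [h3, Pi.sub_apply, h4]
      linarith [le_abs_self (x u)]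
    filter_upwards [Dsa_pos hV hh hμ h1 h2 hq, Lp.coeFn_sub |x| x, Lp.coeFn_abs x] with u h5 h3 h4
    rw [h3, Pi.sub_apply, h4] at h5
    by_contra h6
    push Not at h6
    rw [abs_of_nonneg h6] at h5
    linarith
  · left
    have h1 : TL hV hh (|x| + x) = μ • (|x| + x) := by rw [map_add, ha, hx, smul_add]
    have h2 : ∀ᵐ u, 0 ≤ (|x| + x : E2) u := by
      filter_upwards [Lp.coeFn_add |x| x, Lp.coeFn_abs x] with u h3 h4
      rw [h3, Pi.add_apply, h4]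
      linarith [neg_abs_le (x u)]
    filter_upwards [Dsa_pos hV hh hμ h1 h2 hp, Lp.coeFn_add |x| x, Lp.coeFn_abs x] with u h5 h3 h4
    rw [h3, Pi.add_apply, h4] at h5
    by_contra h6
    push Not at h6
    rw [abs_of_nonpos h6] at h5
    linarith

theorem Dsa_inner {a b : E2} (ha : ∀ᵐ u, 0 < a u) (hb : ∀ᵐ u, 0 < b u) : 0 < ⟪a, b⟫_ℝ := by
  rw [L2.inner_def]
  have hi := L2.integrable_inner (𝕜 := ℝ) a b
  have h0 : ∀ᵐ u, 0 < ⟪a u, b u⟫_ℝ := by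
    filter_upwards [ha, hb] with u h1 h2
    simp only [RCLike.inner_apply, conj_trivial]
    exact mul_pos h2 h1
  have h1 : 0 ≤ᵐ[volume] fun u => ⟪a u, b u⟫_ℝ := h0.mono fun u hu => hu.le
  rw [integral_pos_iff_support_of_nonneg_ae h1 hi]
  have h2 : volume (Function.support fun u => ⟪a u, b u⟫_ℝ)ᶜ = 0 := by
    rw [← ae_iff.1 (h0.mono fun u hu => hu.ne')]
    congr 1
  have h3 : (Function.support fun u => ⟪a u, b u⟫_ℝ) =ᵐ[volume] (Set.univ : Set ℝ) := by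
    rw [ae_eq_univ]
    exact h2
  rw [measure_congr h3]
  simp

theorem Dsa_neg {x : E2} (hx : ∀ᵐ u, x u < 0) : ∀ᵐ u, 0 < (-x : E2) u := by
  filter_upwards [hx, Lp.coeFn_neg x] with u h1 h2
  rw [h2, Pi.neg_apply]
  linarith

theorem eig_simple {V : ℝ → ℝ} (hV : Pot V) {h : ℝ} (hh : 0 < h) {μ : ℝ} (hμ : 0 < μ)
    (hb : ∀ y : E2, ‖TL hV hh y‖ ≤ μ * ‖y‖) {x y : E2} (hx : TL hV hh x = μ • x) (hx1 : ‖x‖ = 1)
    (hy : TL hV hh y = μ • y) : y = ⟪x, y⟫_ℝ • x := by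
  by_contra hne
  have hx0 : x ≠ 0 := by
    intro h0
    rw [h0, norm_zero] at hx1
    exact zero_ne_one hx1
  set z := y - ⟪x, y⟫_ℝ • x with hz
  have hz0 : z ≠ 0 := fun h0 => hne (sub_eq_zero.1 h0)
  have hTz : TL hV hh z = μ • z := by
    rw [hz, map_sub, map_smul, hx, hy, smul_sub, smul_comm]
  have h1 : ⟪x, z⟫_ℝ = 0 := by
    rw [hz, inner_sub_right, real_inner_smul_right, real_inner_self_eq_norm_sq, hx1]
    ring
  rcases eig_sign hV hh hμ hb hx hx0 with h2 | h2 <;> rcases eig_sign hV hh hμ hb hTz hz0 with h3 | h3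
  · exact absurd h1 (Dsa_inner h2 h3).ne'
  · have h4 := Dsa_inner h2 (Dsa_neg h3)
    rw [inner_neg_right, h1, neg_zero] at h4
    exact lt_irrefl _ h4
  · have h4 := Dsa_inner (Dsa_neg h2) h3
    rw [inner_neg_left, h1, neg_zero] at h4
    exact lt_irrefl _ h4
  · have h4 := Dsa_inner (Dsa_neg h2) (Dsa_neg h3)
    rw [inner_neg_left, inner_neg_right, h1, neg_zero, neg_zero] at h4
    exact lt_irrefl _ h4

end Pool.H50.BB
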