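import Pool.Agent.H50.BB.Dab
import Pool.Agent.H50.BB.Dcp
import Pool.Agent.H50.BB.Dsa

/-!
# Row Dsb: ground state and spectral gap   (about 260 lines; may be split)

`V = Va α`, `T_h = TL (pot_Va hα) (h > 0)`, `S = T_{1/2}`.  `tl_comp`: `T_h T_{h'} = T_{h+h'}` (all `T_h` commute).
(1) `max_eig` for `S`, `K = ⊤`: `ν ≥ 0`, `‖S y‖ ≤ ν ‖y‖`.  `ν > 0`: `S ≠ 0` (for `f` = class of the indicator of `[0,1]`, `TV f > 0` everywhere: `tv_pos`).  So `x`, `‖x‖ = 1`,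
`T_1 x = μ x`, `μ = ν²`; `‖T_1 y‖ ≤ μ ‖y‖`.  By `eig_sign` (with `h = 1`) and replacing `x` by `-x`: `φ = x > 0` a.e.
(2) Real times: `T_h φ` satisfies `T_1 (T_h φ) = μ T_h φ`, so `T_h φ = n(h) φ`, `n(h) = ⟪φ, T_h φ⟫` (`eig_simple`).  `n(h+h') = n(h) n(h')`, `0 < n(h) ≤ 1` (`n(h) φ = T_h φ > 0` a.e. by `tv_pos`; `‖T_h‖ ≤ 1`).
So `n` is nonincreasing and multiplicative on `(0,∞)`: `n(h) = n(1)^h = μ^h` (additive monotone functions are linear: `n(p/q)^q = n(1)^p`, then monotone).  `lam = -log μ`.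
`lam > 0`, i.e. `μ < 1`: `μ = ⟪φ, T_1 φ⟫ = ∫ φ TV 1 φ < ∫ φ(u) E φ(u + w 1) du ≤ ‖φ‖² = 1` (`tv_lt`, `φ > 0` a.e.; Cauchy-Schwarz and `path_L2`).
(3) `‖T_h‖ ≤ e^{-lam h}` for all `h > 0`: `T_h = T_{h/2}²` with `T_{h/2}` symmetric, so for all `y`: `‖T_h y‖^{2^n} ≤ ‖T_{2^n h} y‖ ‖y‖^{2^n - 1}` (iterate `‖A y‖² = ⟪y, A² y⟫ ≤ ‖y‖ ‖A² y‖` for symmetric `A`);
and `‖T_{t} y‖ ≤ μ^{⌊t⌋} ‖y‖ ≤ μ^{t-1} ‖y‖` (`T_t = T_{t - ⌊t⌋} T_1^{⌊t⌋}`, `‖T_1 y‖ ≤ μ ‖y‖`, `‖T‖ ≤ 1`).  So `‖T_h y‖ ≤ (μ^{2^n h - 1})^{1/2^n} ‖y‖ → μ^h ‖y‖`.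
(4) Gap: `K = {y | ⟪φ, y⟫ = 0}`, closed; `T_h` maps `K` to `K` (`⟪φ, T_h y⟫ = ⟪T_h φ, y⟫ = 0`).  `max_eig` for `S` on `K`: `ν' ≤ ν`.  If `ν' = ν` (`> 0`): `x' ∈ K`, `‖x'‖ = 1`, `T_1 x' = μ x'`, so by
`eig_simple` `x' = ⟪φ,x'⟫ φ = 0`: contradiction.  So `ν' < ν`; `‖T_1 y‖ ≤ ν'² ‖y‖` on `K`.  Let `μ' = max (ν'²) (μ/2) < μ`, `ρ = log (μ/μ') > 0`: for `y ∈ K`, `n = ⌊h⌋`:
`‖T_h y‖ ≤ μ'^n ‖y‖ ≤ μ'^{h-1} ‖y‖ = C e^{-(lam+ρ) h} ‖y‖`, `C = 1/μ' ≥ 1`.
-/

open MeasureTheory ProbabilityTheory Set Filter Topology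
open scoped NNReal ENNReal InnerProductSpace

namespace Pool.H50.BB

open Pool.Agent.H4.BM

theorem Dsb_pw {a b : ℝ} {n : ℕ} (hn : n ≠ 0) (hb : 0 ≤ b) (h : a ^ n ≤ b ^ n) : a ≤ b :=
  le_of_not_gt fun hlt => not_lt_of_ge h (pow_lt_pow_left₀ hlt hb hn)

theorem Dsb_sq {a b : ℝ} (h : a ^ 2 ≤ b ^ 2) (hb : 0 ≤ b) : a ≤ b := Dsb_pw two_ne_zero hb h

theorem Dsb_congr {V : ℝ → ℝ} (hV : Pot V) {h h' : ℝ} (e : h = h') (hh : 0 < h) (hh' : 0 < h') (y : E2) :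
    TL hV hh y = TL hV hh' y := by
  subst e; rfl

theorem Dsb_le {V : ℝ → ℝ} (hV : Pot V) {h : ℝ} (hh : 0 < h) (y : E2) : ‖TL hV hh y‖ ≤ ‖y‖ := by
  have := tl_bound hV hh y
  rw [one_mul] at this
  exact this

theorem Dsb_add {V : ℝ → ℝ} (hV : Pot V) {h h' k : ℝ} (hh : 0 < h) (hh' : 0 < h') (hk : 0 < k)
    (e : h + h' = k) (y : E2) : TL hV hh (TL hV hh' y) = TL hV hk y := by
  rw [tl_comp]; exact Dsb_congr hV e _ _ y

theorem Dsb_comm {V : ℝ → ℝ} (hV : Pot V) {h h' : ℝ} (hh : 0 < h) (hh' : 0 < h') (y : E2) :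
    TL hV hh (TL hV hh' y) = TL hV hh' (TL hV hh y) := by
  rw [tl_comp, tl_comp]; exact Dsb_congr hV (add_comm _ _) _ _ y

theorem Dsb_iter {V : ℝ → ℝ} (hV : Pot V) {μ : ℝ} (hμ : 0 ≤ μ) {K : E2 → Prop}
    (hK : ∀ (h : ℝ) (hh : 0 < h) (y : E2), K y → K (TL hV hh y))
    (h1 : ∀ y, K y → ‖TL hV one_pos y‖ ≤ μ * ‖y‖) (m : ℕ) {s : ℝ} (hs : 0 < s) :
    ∀ (t : ℝ) (ht : 0 < t), t = s + m → ∀ y : E2, K y → ‖TL hV ht y‖ ≤ μ ^ m * ‖y‖ := by
  induction m with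
  | zero =>
    intro t ht e y _
    rw [pow_zero, one_mul]
    exact Dsb_le hV ht y
  | succ m ih =>
    intro t ht e y hy
    have hm : (0 : ℝ) ≤ m := Nat.cast_nonneg m
    have hp : 0 < s + m := by linarith
    have e2 : 1 + (s + m) = t := by rw [e]; push_cast; ring
    rw [← Dsb_add hV one_pos hp ht e2 y]
    calc ‖TL hV one_pos (TL hV hp y)‖ ≤ μ * ‖TL hV hp y‖ := h1 _ (hK _ hp y hy)
      _ ≤ μ * (μ ^ m * ‖y‖) := mul_le_mul_of_nonneg_left (ih (s + m) hp rfl y hy) hμ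
      _ = μ ^ (m + 1) * ‖y‖ := by ring

theorem Dsb_split {t : ℝ} (ht : 0 < t) : ∃ (m : ℕ) (s : ℝ), 0 < s ∧ t = s + m ∧ t - 1 ≤ m := by
  have h1 : 0 < ⌈t⌉₊ := Nat.ceil_pos.2 ht
  have h2 := Nat.le_ceil t
  have h3 := Nat.ceil_lt_add_one ht.le
  have h4 : ((⌈t⌉₊ - 1 : ℕ) : ℝ) = ⌈t⌉₊ - 1 := by
    rw [Nat.cast_sub h1]; simp
  refine ⟨⌈t⌉₊ - 1, t - (⌈t⌉₊ - 1 : ℕ), ?_, by ring, ?_⟩
  · rw [h4]; linarith
  · rw [h4]; linarith

/-- bound of the norm for all times on an invariant set -/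
theorem Dsb_bd {V : ℝ → ℝ} (hV : Pot V) {μ : ℝ} (hμ : 0 < μ) (hμ1 : μ ≤ 1) {K : E2 → Prop}
    (hK : ∀ (h : ℝ) (hh : 0 < h) (y : E2), K y → K (TL hV hh y))
    (h1 : ∀ y, K y → ‖TL hV one_pos y‖ ≤ μ * ‖y‖) {t : ℝ} (ht : 0 < t) (y : E2) (hy : K y) :
    ‖TL hV ht y‖ ≤ Real.exp (Real.log μ * (t - 1)) * ‖y‖ := by
  obtain ⟨m, s, hs, e, hm⟩ := Dsb_split ht
  refine (Dsb_iter hV hμ.le hK h1 m hs t ht e y hy).trans ?_
  refine mul_le_mul_of_nonneg_right ?_ (norm_nonneg y)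
  have h2 : μ ^ m = Real.exp (Real.log μ * m) := by
    rw [mul_comm, Real.exp_nat_mul, Real.exp_log hμ]
  rw [h2]
  apply Real.exp_le_exp.2
  have h3 := Real.log_nonpos hμ.le hμ1
  nlinarith

/-- multiplicative functions with values in `(0,1]` -/
theorem Dsb_mul {c : ℝ → ℝ} (hpos : ∀ h, 0 < h → 0 < c h) (hle : ∀ h, 0 < h → c h ≤ 1)
    (hmul : ∀ h h', 0 < h → 0 < h' → c (h + h') = c h * c h') {h : ℝ} (hh : 0 < h) :
    c h = Real.exp (Real.log (c 1) * h) := by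
  set g : ℝ → ℝ := fun h => -Real.log (c h) with hg
  have g0 : ∀ h, 0 < h → 0 ≤ g h := fun h hh => by
    have := Real.log_nonpos (hpos h hh).le (hle h hh)
    simp only [hg]; linarith
  have ga : ∀ h h', 0 < h → 0 < h' → g (h + h') = g h + g h' := fun h h' hh hh' => by
    simp only [hg]
    rw [hmul h h' hh hh', Real.log_mul (hpos h hh).ne' (hpos h' hh').ne']
    ring
  have gm : ∀ h h', 0 < h → h ≤ h' → g h ≤ g h' := fun h h' hh hle' => by
    rcases eq_or_lt_of_le hle' with e | e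
    · rw [e]
    · have := ga h (h' - h) hh (by linarith)
      rw [show h + (h' - h) = h' by ring] at this
      have := g0 (h' - h) (by linarith)
      linarith
  have gn : ∀ (n : ℕ) (h : ℝ), 0 < h → g ((n + 1 : ℕ) * h) = (n + 1 : ℕ) * g h := by
    intro n h hh
    induction n with
    | zero => simp
    | succ n ih =>
      have hp : 0 < ((n + 1 : ℕ) : ℝ) * h := by positivity
      have := ga (((n + 1 : ℕ) : ℝ) * h) h hp hh
      have e : (((n + 1 + 1 : ℕ)) : ℝ) * h = ((n + 1 : ℕ) : ℝ) * h + h := by push_cast; ring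
      rw [e, this, ih]
      push_cast
      ring
  have key : ∀ N : ℕ, 0 < N → |N * g h - N * (h * g 1)| ≤ g 1 := by
    intro N hN
    have hN' : (0 : ℝ) < N := by exact_mod_cast hN
    have e1 : g (N * h) = N * g h := by
      have := gn (N - 1) h hh
      rwa [Nat.sub_add_cancel hN] at this
    have hx : 0 < (N : ℝ) * h := by positivity
    have hk1 := Nat.floor_le hx.le
    have hk2 := Nat.lt_floor_add_one ((N : ℝ) * h)
    set k := ⌊(N : ℝ) * h⌋₊ with hk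
    have u1 : N * g h ≤ (k + 1) * g 1 := by
      rw [← e1]
      have := gn k 1 one_pos
      rw [mul_one] at this
      push_cast at this
      rw [← this]
      exact gm _ _ hx hk2.le
    have l1 : k * g 1 ≤ N * g h := by
      rcases Nat.eq_zero_or_pos k with h0 | h0
      · rw [h0, Nat.cast_zero, zero_mul]
        exact mul_nonneg hN'.le (g0 h hh)
      · rw [← e1]
        have := gn (k - 1) 1 one_pos
        rw [Nat.sub_add_cancel h0, mul_one] at this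
        rw [← this]
        exact gm _ _ (by exact_mod_cast h0) hk1
    have g1 := g0 1 one_pos
    have u2 : N * (h * g 1) ≤ (k + 1) * g 1 := by nlinarith
    have l2 : k * g 1 ≤ N * (h * g 1) := by nlinarith
    rw [abs_le]
    constructor <;> linarith
  have fin : g h = h * g 1 := by
    by_contra hne
    have hd : 0 < |g h - h * g 1| := abs_pos.2 (sub_ne_zero.2 hne)
    obtain ⟨N, hN⟩ := exists_nat_gt (g 1 / |g h - h * g 1|)
    have hN0 : (0 : ℝ) < N := lt_of_le_of_lt (div_nonneg (g0 1 one_pos) hd.le) hN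
    have hk := key N (by exact_mod_cast hN0)
    rw [← mul_sub, abs_mul, abs_of_pos hN0] at hk
    rw [div_lt_iff₀ hd] at hN
    linarith
  have e2 : Real.log (c h) = Real.log (c 1) * h := by
    simp only [hg] at fin
    linarith
  rw [← e2, Real.exp_log (hpos h hh)]

theorem Dsb_ne {V : ℝ → ℝ} (hV : Pot V) {h : ℝ} (hh : 0 < h) : ∃ y : E2, TL hV hh y ≠ 0 := by
  set f : ℝ → ℝ := (Icc (0 : ℝ) 1).indicator fun _ => (1 : ℝ) with hf
  have hfm : Measurable f := measurable_const.indicator measurableSet_Icc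
  have hf2 : MemLp f 2 volume :=
    memLp_indicator_const 2 measurableSet_Icc 1 (Or.inr (by simp))
  have hf0 : ∀ x, 0 ≤ f x := fun x => Set.indicator_nonneg (fun _ _ => zero_le_one) x
  have hfne : ¬ f =ᵐ[volume] 0 := by
    intro hc
    have h1 : volume {x | f x ≠ 0} = 0 := ae_iff.1 hc
    have h2 : Icc (0 : ℝ) 1 ⊆ {x | f x ≠ 0} := by
      intro x hx
      simpa [hf] using hx
    have h3 := measure_mono_null h2 h1
    simp at h3
  refine ⟨hf2.toLp f, fun hc => ?_⟩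
  have h1 := tl_toLp hV hh hfm hf2
  rw [hc] at h1
  have h2 : ((0 : E2) : ℝ → ℝ) =ᵐ[volume] 0 := Lp.coeFn_zero ℝ 2 volume
  have h3 : ∀ᵐ u : ℝ, False := by
    filter_upwards [h1, h2] with u a1 a2
    have a3 := tv_pos hV hh hfm hf2 (Eventually.of_forall hf0) hfne u
    rw [← a1, a2] at a3
    exact lt_irrefl _ a3
  obtain ⟨_, h4⟩ := h3.exists
  exact h4

/-- the eigenvalue is less than one -/
theorem Dsb_lt {α : ℝ} (hα : 0 < α) {φ : E2} (hφ : ∀ᵐ u, 0 < φ u)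
    (hT : TL (pot_Va hα) one_pos φ = φ) : False := by
  have hm := (Lp.stronglyMeasurable φ).measurable
  have h2 := Lp.memLp φ
  obtain ⟨hi, he⟩ := path_L2 one_pos hm h2
  have hF : Integrable (fun u => φ u ^ 2) := (memLp_two_iff_integrable_sq hm.aestronglyMeasurable).1 h2
  have c1 := tl_coe (pot_Va hα) one_pos φ
  rw [hT] at c1
  have hlt : ∀ᵐ u, φ u ^ 2 < ∫ w, φ (u + w 1) ^ 2 ∂Wm := by
    filter_upwards [hφ, c1] with u a1 a2
    have a3 := tv_lt (pot_Va hα) (fun x hx => Real.rpow_pos_of_pos (abs_pos.2 hx) α) one_pos hm h2 hφ u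
    rw [← a2] at a3
    obtain ⟨m1, _⟩ := memLp_path one_pos hm h2 u
    have i1 : Integrable (fun w : Pth => φ (u + w 1)) Wm := m1.integrable (by norm_num)
    have i2 : Integrable (fun w : Pth => φ (u + w 1) ^ 2) Wm := m1.integrable_sq
    set E := ∫ w, φ (u + w 1) ∂Wm with hE
    have v : 0 ≤ ∫ w, (φ (u + w 1) - E) ^ 2 ∂Wm := integral_nonneg fun w => sq_nonneg _
    have v2 : ∫ w, (φ (u + w 1) - E) ^ 2 ∂Wm = (∫ w, φ (u + w 1) ^ 2 ∂Wm) - E ^ 2 := by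
      have e1 : (fun w : Pth => (φ (u + w 1) - E) ^ 2) =
          fun w => (φ (u + w 1) ^ 2 - (2 * E) * φ (u + w 1)) + E ^ 2 := by funext w; ring
      have j1 : Integrable (fun w : Pth => φ (u + w 1) ^ 2 - (2 * E) * φ (u + w 1)) Wm :=
        i2.sub (i1.const_mul _)
      rw [e1, integral_add j1 (integrable_const _), integral_sub i2 (i1.const_mul _),
        integral_const_mul, ← hE]
      simp
      ring
    nlinarith
  have hz : ∫ u, ((∫ w, φ (u + w 1) ^ 2 ∂Wm) - φ u ^ 2) = 0 := by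
    rw [integral_sub hi hF, he, sub_self]
  have hi' : Integrable (fun u => (∫ w, φ (u + w 1) ^ 2 ∂Wm) - φ u ^ 2) := hi.sub hF
  have hz2 := (integral_eq_zero_iff_of_nonneg_ae (hlt.mono fun u hu => by
    simp only [Pi.zero_apply]; linarith) hi').1 hz
  have h3 : ∀ᵐ u : ℝ, False := by
    filter_upwards [hlt, hz2] with u a1 a2
    simp only [Pi.zero_apply] at a2
    linarith
  obtain ⟨_, h4⟩ := h3.exists
  exact h4

theorem spec {α : ℝ} (hα : 0 < α) (hα2 : α < 2) :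
    ∃ (lam ρ C : ℝ) (φ : E2), 0 < lam ∧ 0 < ρ ∧ 1 ≤ C ∧ ‖φ‖ = 1 ∧ (∀ᵐ u, 0 < φ u) ∧
      (∀ (h : ℝ) (hh : 0 < h), TL (pot_Va hα) hh φ = Real.exp (-lam * h) • φ) ∧
      (∀ (h : ℝ) (hh : 0 < h) (y : E2), ‖TL (pot_Va hα) hh y‖ ≤ Real.exp (-lam * h) * ‖y‖) ∧
      (∀ (h : ℝ) (hh : 0 < h) (y : E2), ⟪φ, y⟫_ℝ = 0 →
        ‖TL (pot_Va hα) hh y‖ ≤ C * Real.exp (-(lam + ρ) * h) * ‖y‖) := by
  have hV := pot_Va hα
  have hh2 : (0 : ℝ) < 1 / 2 := by norm_num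
  have hc : ∀ (x : ℕ → E2) (y : E2) (M : ℝ), (∀ n, ‖x n‖ ≤ M) →
      (∀ g, Tendsto (fun n => ⟪g, x n⟫_ℝ) atTop (𝓝 ⟪g, y⟫_ℝ)) →
      Tendsto (fun n => TL hV hh2 (x n)) atTop (𝓝 (TL hV hh2 y)) := fun x y M hM hw =>
    tl_cpt hα hα2 (by norm_num) (by norm_num) hh2 x y M hM hw
  have : Fact ((2 : ℝ≥0∞) ≠ ∞) := ⟨by norm_num⟩
  obtain ⟨ν, hν0, hνb, hν⟩ := max_eig (TL hV hh2) (tl_symm hV hh2) hc ⊤ isClosed_univ
    (fun _ _ => trivial)
  have hνpos : 0 < ν := by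
    rcases eq_or_lt_of_le hν0 with e | e
    · exfalso
      obtain ⟨y, hy⟩ := Dsb_ne hV hh2
      have := hνb y trivial
      rw [← e, zero_mul] at this
      exact hy (norm_le_zero_iff.1 this)
    · exact e
  have T1 : ∀ y, TL hV one_pos y = TL hV hh2 (TL hV hh2 y) := fun y =>
    (Dsb_add hV hh2 hh2 one_pos (by norm_num) y).symm
  obtain ⟨x, _, hx1, hx2⟩ := hν.resolve_left hνpos.ne'
  set μ := ν ^ 2 with hμdef
  have hμ : 0 < μ := by positivity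
  have hb : ∀ y : E2, ‖TL hV one_pos y‖ ≤ μ * ‖y‖ := fun y => by
    rw [T1 y]
    calc ‖TL hV hh2 (TL hV hh2 y)‖ ≤ ν * ‖TL hV hh2 y‖ := hνb _ trivial
      _ ≤ ν * (ν * ‖y‖) := mul_le_mul_of_nonneg_left (hνb _ trivial) hν0
      _ = μ * ‖y‖ := by rw [hμdef]; ring
  have hxe : TL hV one_pos x = μ • x := by rw [T1 x, hx2]
  have hx0 : x ≠ 0 := by
    intro h0
    rw [h0, norm_zero] at hx1
    exact zero_ne_one hx1
  obtain ⟨φ, hφ1, hφe, hφ⟩ : ∃ φ : E2, ‖φ‖ = 1 ∧ TL hV one_pos φ = μ • φ ∧ ∀ᵐ u, 0 < φ u := by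
    rcases eig_sign hV one_pos hμ hb hxe hx0 with hs | hs
    · exact ⟨x, hx1, hxe, hs⟩
    · refine ⟨-x, by rw [norm_neg, hx1], by rw [map_neg, hxe, smul_neg], ?_⟩
      filter_upwards [hs, Lp.coeFn_neg x] with u a1 a2
      rw [a2]
      simp only [Pi.neg_apply]
      linarith
  have hφ0 : φ ≠ 0 := by
    intro h0
    rw [h0, norm_zero] at hφ1
    exact zero_ne_one hφ1
  have hm := (Lp.stronglyMeasurable φ).measurable
  have hL := Lp.memLp φ
  have hφne : ¬ (φ : ℝ → ℝ) =ᵐ[volume] 0 := by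
    intro hc
    have h3 : ∀ᵐ u : ℝ, False := by
      filter_upwards [hφ, hc] with u a1 a2
      rw [a2] at a1
      exact lt_irrefl _ a1
    obtain ⟨_, h4⟩ := h3.exists
    exact h4
  -- real times
  have hc1 : ∀ (h : ℝ) (hh : 0 < h), TL hV hh φ = ⟪φ, TL hV hh φ⟫_ℝ • φ := fun h hh => by
    refine eig_simple hV one_pos hμ hb hφe hφ1 ?_
    rw [Dsb_comm hV one_pos hh φ, hφe, map_smul]
  have hc2 : ∀ (h : ℝ) (hh : 0 < h), 0 < ⟪φ, TL hV hh φ⟫_ℝ := fun h hh => by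
    have a := hc1 h hh
    set c := ⟪φ, TL hV hh φ⟫_ℝ with hcd
    have b1 := tl_coe hV hh φ
    rw [a] at b1
    have b2 := Lp.coeFn_smul c φ
    have b3 : ∀ᵐ u : ℝ, 0 < c := by
      filter_upwards [b1, b2, hφ] with u d1 d2 d3
      have d4 := tv_pos hV hh hm hL (hφ.mono fun _ h => h.le) hφne u
      rw [← d1, d2] at d4
      simp only [Pi.smul_apply, smul_eq_mul] at d4
      exact (pos_iff_pos_of_mul_pos d4).2 d3
    obtain ⟨_, b4⟩ := b3.exists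
    exact b4
  have hc3 : ∀ (h : ℝ) (hh : 0 < h), ⟪φ, TL hV hh φ⟫_ℝ ≤ 1 := fun h hh => by
    have a := Dsb_le hV hh φ
    have b := abs_real_inner_le_norm φ (TL hV hh φ)
    rw [hφ1] at a b
    exact (le_abs_self _).trans (b.trans (by linarith))
  set c : ℝ → ℝ := fun h => if hh : 0 < h then ⟪φ, TL hV hh φ⟫_ℝ else 1 with hcdef
  have hcv : ∀ (h : ℝ) (hh : 0 < h), c h = ⟪φ, TL hV hh φ⟫_ℝ := fun h hh => by
    simp only [hcdef, dif_pos hh]
  have hcT : ∀ (h : ℝ) (hh : 0 < h), TL hV hh φ = c h • φ := fun h hh => by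
    rw [hcv h hh]; exact hc1 h hh
  have hin : ⟪φ, φ⟫_ℝ = 1 := by rw [real_inner_self_eq_norm_sq, hφ1]; norm_num
  have hcm : ∀ h h', 0 < h → 0 < h' → c (h + h') = c h * c h' := fun h h' hh hh' => by
    rw [hcv (h + h') (add_pos hh hh'), ← tl_comp hV hh hh' φ, hcT h' hh', map_smul, hcT h hh,
      inner_smul_right, inner_smul_right, hin]
    ring
  have hc1μ : c 1 = μ := by
    rw [hcv 1 one_pos, hφe, inner_smul_right, hin, mul_one]
  have hcexp : ∀ (h : ℝ), 0 < h → c h = Real.exp (Real.log μ * h) := fun h hh => by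
    have := Dsb_mul (c := c) (fun h hh => by rw [hcv h hh]; exact hc2 h hh)
      (fun h hh => by rw [hcv h hh]; exact hc3 h hh) hcm hh
    rwa [hc1μ] at this
  have hμ1 : μ ≤ 1 := by rw [← hc1μ, hcv 1 one_pos]; exact hc3 1 one_pos
  have hμlt : μ < 1 := by
    rcases eq_or_lt_of_le hμ1 with e | e
    · exfalso
      refine Dsb_lt hα hφ ?_
      rw [hφe, e, one_smul]
    · exact e
  have hlog : Real.log μ < 0 := Real.log_neg hμ hμlt
  -- norms
  have hN : ∀ (h : ℝ) (hh : 0 < h) (y : E2), ‖TL hV hh y‖ ≤ Real.exp (Real.log μ * h) * ‖y‖ := by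
    have hop1 : ∀ (h : ℝ) (hh : 0 < h), ‖TL hV hh‖ ≤ Real.exp (Real.log μ * (h - 1)) := fun h hh =>
      ContinuousLinearMap.opNorm_le_bound _ (Real.exp_pos _).le fun y =>
        Dsb_bd hV hμ hμ1 (K := fun _ => True) (fun _ _ _ _ => trivial) (fun y _ => hb y) hh y trivial
    have hop2 : ∀ (h : ℝ) (hh : 0 < h) (hk : 0 < 2 * h), ‖TL hV hh‖ ^ 2 ≤ ‖TL hV hk‖ := by
      intro h hh hk
      have hs : ‖TL hV hh‖ ≤ √‖TL hV hk‖ := by
        refine ContinuousLinearMap.opNorm_le_bound _ (Real.sqrt_nonneg _) fun y => ?_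
        have e1 : ‖TL hV hh y‖ ^ 2 ≤ ‖TL hV hk‖ * ‖y‖ ^ 2 := by
          rw [← real_inner_self_eq_norm_sq, tl_symm, Dsb_add hV hh hh hk (by ring) y]
          calc ⟪y, TL hV hk y⟫_ℝ ≤ ‖y‖ * ‖TL hV hk y‖ := real_inner_le_norm _ _
            _ ≤ ‖y‖ * (‖TL hV hk‖ * ‖y‖) :=
                mul_le_mul_of_nonneg_left ((TL hV hk).le_opNorm y) (norm_nonneg _)
            _ = _ := by ring
        refine Dsb_sq ?_ (by positivity)
        rw [mul_pow, Real.sq_sqrt (norm_nonneg _)]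
        exact e1
      calc ‖TL hV hh‖ ^ 2 ≤ √‖TL hV hk‖ ^ 2 := pow_le_pow_left₀ (norm_nonneg _) hs 2
        _ = _ := Real.sq_sqrt (norm_nonneg _)
    have hop3 : ∀ (n : ℕ) (h : ℝ) (hh : 0 < h) (hk : 0 < 2 ^ n * h),
        ‖TL hV hh‖ ^ (2 ^ n) ≤ ‖TL hV hk‖ := by
      intro n
      induction n with
      | zero =>
        intro h hh hk
        rw [pow_zero, pow_one]
        have : TL hV hh = TL hV hk := by
          ext1 y
          exact Dsb_congr hV (by ring) _ _ y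
        rw [this]
      | succ n ih =>
        intro h hh hk
        have h2 : 0 < 2 * h := by linarith
        have h3 : 0 < 2 ^ n * (2 * h) := by positivity
        have : TL hV hk = TL hV h3 := by
          ext1 y
          exact Dsb_congr hV (by ring) _ _ y
        rw [this, pow_succ' 2 n, pow_mul]
        calc (‖TL hV hh‖ ^ 2) ^ 2 ^ n ≤ ‖TL hV h2‖ ^ 2 ^ n :=
              pow_le_pow_left₀ (by positivity) (hop2 h hh h2) _
          _ ≤ _ := ih (2 * h) h2 h3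
    have hop4 : ∀ (h : ℝ) (hh : 0 < h) (n : ℕ),
        ‖TL hV hh‖ ≤ Real.exp (Real.log μ * h) * Real.exp (-Real.log μ * (1 / 2) ^ n) := by
      intro h hh n
      have hk : 0 < 2 ^ n * h := by positivity
      have e1 := (hop3 n h hh hk).trans (hop1 _ hk)
      have hn : (2 ^ n : ℕ) ≠ 0 := by positivity
      have e2 : Real.exp (Real.log μ * (2 ^ n * h - 1)) =
          (Real.exp (Real.log μ * h) * Real.exp (-Real.log μ * (1 / 2) ^ n)) ^ (2 ^ n) := by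
        rw [← Real.exp_add, ← Real.exp_nat_mul]
        congr 1
        have : (2 : ℝ) ^ n * (1 / 2) ^ n = 1 := by rw [← mul_pow]; norm_num
        push_cast
        linear_combination Real.log μ * this
      rw [e2] at e1
      exact Dsb_pw hn (by positivity) e1
    intro h hh y
    have lim : Tendsto (fun n : ℕ => Real.exp (Real.log μ * h) * Real.exp (-Real.log μ * (1 / 2) ^ n)) atTop
        (𝓝 (Real.exp (Real.log μ * h) * Real.exp (-Real.log μ * 0))) := by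
      have := (tendsto_pow_atTop_nhds_zero_of_lt_one (r := (1 / 2 : ℝ)) (by norm_num) (by norm_num))
      exact ((Real.continuous_exp.tendsto _).comp (this.const_mul _)).const_mul _
    rw [mul_zero, Real.exp_zero, mul_one] at lim
    have h5 : ‖TL hV hh‖ ≤ Real.exp (Real.log μ * h) := ge_of_tendsto' lim fun n => hop4 h hh n
    exact ((TL hV hh).le_opNorm y).trans (mul_le_mul_of_nonneg_right h5 (norm_nonneg _))
  -- gap
  have hKinv : ∀ (h : ℝ) (hh : 0 < h) (y : E2), ⟪φ, y⟫_ℝ = 0 → ⟪φ, TL hV hh y⟫_ℝ = 0 := fun h hh y hy => by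
    rw [← tl_symm, hcT h hh, real_inner_smul_left, hy, mul_zero]
  obtain ⟨ν', hν'0, hν'b, hν'⟩ := max_eig (TL hV hh2) (tl_symm hV hh2) hc (ℝ ∙ φ)ᗮ
    (Submodule.isClosed_orthogonal _) (fun y hy => by
      rw [Submodule.mem_orthogonal_singleton_iff_inner_right] at hy ⊢
      exact hKinv _ hh2 y hy)
  have hlt : ν' < ν := by
    rcases hν' with e | ⟨x', hx'K, hx'1, hx'2⟩
    · rw [e]; exact hνpos
    · have hx'e : TL hV one_pos x' = ν' ^ 2 • x' := by rw [T1 x', hx'2]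
      have h1 := hb x'
      rw [hx'e, norm_smul, hx'1, Real.norm_of_nonneg (sq_nonneg ν'), mul_one, mul_one] at h1
      have h2 : ν' ≤ ν := by
        rw [hμdef] at h1
        exact Dsb_sq h1 hν0
      rcases eq_or_lt_of_le h2 with e | e
      · exfalso
        have h3 := eig_simple hV one_pos hμ hb hφe hφ1 (y := x') (by rw [hx'e, e])
        rw [Submodule.mem_orthogonal_singleton_iff_inner_right] at hx'K
        rw [hx'K, zero_smul] at h3
        rw [h3, norm_zero] at hx'1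
        exact zero_ne_one hx'1
      · exact e
  set μ' := max (ν' ^ 2) (μ / 2) with hμ'
  have hμ'0 : 0 < μ' := lt_of_lt_of_le (by linarith) (le_max_right _ _)
  have hμ'lt : μ' < μ := by
    refine max_lt ?_ (by linarith)
    rw [hμdef]
    exact pow_lt_pow_left₀ hlt hν'0 two_ne_zero
  have hμ'1 : μ' ≤ 1 := by linarith
  refine ⟨-Real.log μ, Real.log μ - Real.log μ', 1 / μ', φ, by linarith, ?_, ?_, hφ1, hφ, ?_, ?_, ?_⟩
  · have := Real.log_lt_log hμ'0 hμ'lt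
    linarith
  · rw [le_div_iff₀ hμ'0]; linarith
  · intro h hh
    rw [neg_neg, ← hcexp h hh]
    exact hcT h hh
  · intro h hh y
    rw [neg_neg]
    exact hN h hh y
  · intro h hh y hy
    have h1 := Dsb_bd hV hμ'0 hμ'1 (K := fun y => ⟪φ, y⟫_ℝ = 0) hKinv (fun y hy => by
      have hyK : y ∈ (ℝ ∙ φ)ᗮ := by
        rw [Submodule.mem_orthogonal_singleton_iff_inner_right]; exact hy
      have hyK2 : TL hV hh2 y ∈ (ℝ ∙ φ)ᗮ := by
        rw [Submodule.mem_orthogonal_singleton_iff_inner_right]; exact hKinv _ hh2 y hy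
      rw [T1 y]
      calc ‖TL hV hh2 (TL hV hh2 y)‖ ≤ ν' * ‖TL hV hh2 y‖ := hν'b _ hyK2
        _ ≤ ν' * (ν' * ‖y‖) := mul_le_mul_of_nonneg_left (hν'b _ hyK) hν'0
        _ = ν' ^ 2 * ‖y‖ := by ring
        _ ≤ μ' * ‖y‖ := mul_le_mul_of_nonneg_right (le_max_left _ _) (norm_nonneg _)) hh y hy
    refine h1.trans (le_of_eq ?_)
    congr 1
    have e1 : -(-Real.log μ + (Real.log μ - Real.log μ')) * h = Real.log μ' * h := by ring
    rw [e1, mul_sub, mul_one, Real.exp_sub, Real.exp_log hμ'0]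
    ring

end Pool.H50.BB
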