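import Pool.Agent.H50.BB.Dts

/-!
# Row Dtl: the operator on the Hilbert space   (about 120 lines)

`E2 = Lp ℝ 2 (volume : Measure ℝ)`.  `TL hV hh f` is the class of `TV V h f` (`f` has a strongly measurable representative, `Lp.stronglyMeasurable`, `Lp.memLp`).
`tl_add`, `tl_smul`: `tv_congr` (representatives of sums are a.e. sums) and `tv_add`.  `tl_bound`: `‖·‖² = ∫ (·)²` (`Lp.norm_def`, `eLpNorm` with exponent 2, or
`real_inner_self_eq_norm_sq` and `L2.inner_def`), `tv_L2`.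
`tl_symm`: `L2.inner_def` and `tv_symm`.  `tl_comp`: `tv_semi` and `tv_congr`.
-/

open MeasureTheory ProbabilityTheory Set Filter Topology
open scoped NNReal ENNReal InnerProductSpace

namespace Pool.H50.BB

open Pool.Agent.H4.BM

/-- the Hilbert space -/
noncomputable abbrev E2 := Lp ℝ 2 (volume : Measure ℝ)

theorem nrm_sq (f : E2) : ‖f‖ ^ 2 = ∫ x, f x ^ 2 := by
  rw [← real_inner_self_eq_norm_sq, L2.inner_def]
  refine integral_congr_ae (Eventually.of_forall fun x => ?_)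
  simp only [RCLike.inner_apply, conj_trivial]
  ring

/-- class of `TV V h f` -/
noncomputable def TL0 {V : ℝ → ℝ} (hV : Pot V) {h : ℝ} (hh : 0 < h) (f : E2) : E2 :=
  (tv_L2 hV hh (Lp.stronglyMeasurable f).measurable (Lp.memLp f)).1.toLp (TV V h f)

theorem Dtl_coe0 {V : ℝ → ℝ} (hV : Pot V) {h : ℝ} (hh : 0 < h) (f : E2) :
    (TL0 hV hh f : ℝ → ℝ) =ᵐ[volume] TV V h f := MemLp.coeFn_toLp _

theorem tl_add {V : ℝ → ℝ} (hV : Pot V) {h : ℝ} (hh : 0 < h) (f g : E2) :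
    TL0 hV hh (f + g) = TL0 hV hh f + TL0 hV hh g := by
  refine Lp.ext ?_
  filter_upwards [Dtl_coe0 hV hh (f + g), Dtl_coe0 hV hh f, Dtl_coe0 hV hh g,
    Lp.coeFn_add (TL0 hV hh f) (TL0 hV hh g)] with u h1 h2 h3 h4
  rw [h1, h4, Pi.add_apply, h2, h3]
  have mf := (Lp.stronglyMeasurable f).measurable
  have mg := (Lp.stronglyMeasurable g).measurable
  have h5 : TV V h (f + g : E2) u = TV V h (fun x => 1 * f x + 1 * g x) u := by
    refine tv_congr hh (Lp.stronglyMeasurable _).measurable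
      ((mf.const_mul 1).add (mg.const_mul 1)) ?_ u
    filter_upwards [Lp.coeFn_add f g] with x hx
    rw [hx, Pi.add_apply]
    change f x + g x = 1 * f x + 1 * g x
    ring
  rw [h5, tv_add hV hh mf (Lp.memLp f) mg (Lp.memLp g)]
  ring

theorem tl_smul {V : ℝ → ℝ} (hV : Pot V) {h : ℝ} (hh : 0 < h) (c : ℝ) (f : E2) :
    TL0 hV hh (c • f) = c • TL0 hV hh f := by
  refine Lp.ext ?_
  filter_upwards [Dtl_coe0 hV hh (c • f), Dtl_coe0 hV hh f,
    Lp.coeFn_smul c (TL0 hV hh f)] with u h1 h2 h4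
  rw [h1, h4, Pi.smul_apply, h2]
  have mf := (Lp.stronglyMeasurable f).measurable
  have h5 : TV V h (c • f : E2) u = TV V h (fun x => c * f x + 0 * f x) u := by
    refine tv_congr hh (Lp.stronglyMeasurable _).measurable
      ((mf.const_mul c).add (mf.const_mul 0)) ?_ u
    filter_upwards [Lp.coeFn_smul c f] with x hx
    rw [hx, Pi.smul_apply, smul_eq_mul]
    change c * f x = c * f x + 0 * f x
    ring
  rw [h5, tv_add hV hh mf (Lp.memLp f) mf (Lp.memLp f), smul_eq_mul]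
  ring

theorem tl_bound {V : ℝ → ℝ} (hV : Pot V) {h : ℝ} (hh : 0 < h) (f : E2) : ‖TL0 hV hh f‖ ≤ 1 * ‖f‖ := by
  rw [one_mul]
  have h1 : ‖TL0 hV hh f‖ ^ 2 ≤ ‖f‖ ^ 2 := by
    rw [nrm_sq, nrm_sq]
    refine le_trans (le_of_eq ?_)
      (tv_L2 hV hh (Lp.stronglyMeasurable f).measurable (Lp.memLp f)).2
    refine integral_congr_ae ?_
    filter_upwards [Dtl_coe0 hV hh f] with u hu
    rw [hu]
  exact le_of_sq_le_sq h1 (norm_nonneg _)

/-- the operator -/
noncomputable def TL {V : ℝ → ℝ} (hV : Pot V) {h : ℝ} (hh : 0 < h) : E2 →L[ℝ] E2 :=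
  LinearMap.mkContinuous
    { toFun := TL0 hV hh
      map_add' := tl_add hV hh
      map_smul' := fun c f => tl_smul hV hh c f } 1 (fun f => tl_bound hV hh f)

theorem tl_coe {V : ℝ → ℝ} (hV : Pot V) {h : ℝ} (hh : 0 < h) (f : E2) :
    (TL hV hh f : ℝ → ℝ) =ᵐ[volume] TV V h f := Dtl_coe0 hV hh f

theorem tl_toLp {V : ℝ → ℝ} (hV : Pot V) {h : ℝ} (hh : 0 < h) {f : ℝ → ℝ} (hf : Measurable f)
    (hf2 : MemLp f 2 volume) : (TL hV hh (hf2.toLp f) : ℝ → ℝ) =ᵐ[volume] TV V h f := by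
  filter_upwards [tl_coe hV hh (hf2.toLp f)] with u hu
  rw [hu]
  exact tv_congr hh (Lp.stronglyMeasurable _).measurable hf (MemLp.coeFn_toLp hf2) u

theorem tl_symm {V : ℝ → ℝ} (hV : Pot V) {h : ℝ} (hh : 0 < h) (f g : E2) :
    ⟪TL hV hh f, g⟫_ℝ = ⟪f, TL hV hh g⟫_ℝ := by
  rw [L2.inner_def, L2.inner_def]
  have h1 : ∫ a, ⟪(TL hV hh f : ℝ → ℝ) a, g a⟫_ℝ = ∫ u, g u * TV V h f u := by
    refine integral_congr_ae ?_
    filter_upwards [tl_coe hV hh f] with u hu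
    rw [hu]
    simp only [RCLike.inner_apply, conj_trivial]
  have h2 : ∫ a, ⟪f a, (TL hV hh g : ℝ → ℝ) a⟫_ℝ = ∫ u, f u * TV V h g u := by
    refine integral_congr_ae ?_
    filter_upwards [tl_coe hV hh g] with u hu
    rw [hu]
    simp only [RCLike.inner_apply, conj_trivial]
    ring
  rw [h1, h2]
  exact tv_symm hV hh (Lp.stronglyMeasurable f).measurable (Lp.memLp f)
    (Lp.stronglyMeasurable g).measurable (Lp.memLp g)

theorem tl_comp {V : ℝ → ℝ} (hV : Pot V) {h h' : ℝ} (hh : 0 < h) (hh' : 0 < h') (f : E2) :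
    TL hV hh (TL hV hh' f) = TL hV (add_pos hh hh') f := by
  refine Lp.ext ?_
  filter_upwards [tl_coe hV hh (TL hV hh' f), tl_coe hV (add_pos hh hh') f] with u h1 h2
  rw [h1, h2]
  have mf := (Lp.stronglyMeasurable f).measurable
  have h3 := tv_L2 hV hh' mf (Lp.memLp f)
  rw [tv_congr hh (Lp.stronglyMeasurable _).measurable (tv_meas hV hh' mf) (tl_coe hV hh' f) u]
  exact tv_semi hV hh hh' mf (Lp.memLp f) u

end Pool.H50.BB
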