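import Pool.Agent.H50.BB.Dtv

/-!
# Row Dts: semigroup property, symmetry, positivity of TV   (about 200 lines)

`tv_semi`: `TV V h (TV V h' f) = TV V (h + h') f`.  For `f ≥ 0` (use `f = f⁺ - f⁻`; all integrals are finite by `tv_int`): with `c = h`, Markov property (`lintegral_stop_shift`,
H4/BM/Wiener): `w(s) = (stop h w) s` for `s ≤ h`, `w (h + s) = w h + (shift h w) s`; the interval integral over `[0,h+h']` splits at `h`.
`tv_symm`: `∫ g TV f = ∫ f TV g`.  By linearity and positive/negative parts let `f, g ≥ 0` (all integrals finite: `g, TV f ∈ L²`), use lintegrals.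
Time reversal (`isW_reflect`, `lintegral_glue` of H4/BM/Wiener; `rev w s = w(h - s) - w h` for `0 ≤ s ≤ h` preserves the law of the path up to time `h`):
`∫⁻ w, exp(-∫_0^h V(u + w s) ds) f(u + w h) = ∫⁻ w, exp (-∫_0^h V(u + w(h-s) - w h) ds) f(u - w h)`; integrate against `g(u) du`, Tonelli, translate `u = u' + w h` for each `w`:
`∫⁻ w ∫⁻ du' g(u' + w h) exp(-∫_0^h V(u' + w (h - s)) ds) f(u')`, substitute `s → h - s`: this is `∫ f TV g`.
`tv_pos`: `f ≥ 0` a.e., `f` not a.e. zero, in `L²`: `TV V h f u > 0` for every `u`: the weight is positive, `f(u + w h) ≥ 0` a.s., and `E f(u + w h) = ∫ f(u+x) gd h x dx > 0`; the integral of a nonnegative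
function that is not a.s. zero is positive.
`tv_abs`: `|TV V h f u| ≤ TV V h |f| u`.
`tv_lt`: if moreover `V` vanishes only at `0` (or just `V > 0` off a null set... here: `V x > 0` for `x ≠ 0`), then the weight is `< 1` for a.e. `w` (the continuous function `s ↦ V(u + w s)` is positive
somewhere unless `u + w s = 0` on `[0,h]`, which has probability 0 as `w h ≠ -u` a.s.): `TV V h f u < ∫ w, f(u + w h)` if `f > 0` a.e.
-/

open MeasureTheory ProbabilityTheory Set Filter Topology
open scoped NNReal ENNReal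

namespace Pool.H50.BB

open Pool.Agent.H4.BM

variable {V : ℝ → ℝ} {h h' : ℝ} {f g : ℝ → ℝ}

/-- null sets and the position at time `h` -/
theorem Dts_null (hh : 0 < h) (u : ℝ) {S : Set ℝ} (hS : MeasurableSet S) :
    Wm {w | u + w h ∈ S} = 0 ↔ volume S = 0 := by
  have hm : Measurable fun w : Pth => u + w h := (Pth.measurable_apply h).const_add u
  have h1 : Wm {w | u + w h ∈ S} = ∫⁻ w, (fun x => S.indicator (fun _ => (1 : ℝ≥0∞)) (u + x)) (w h) ∂Wm :=
    (lintegral_indicator_one (μ := Wm) (hm hS)).symm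
  have hi : Measurable fun x : ℝ => S.indicator (fun _ => (1 : ℝ≥0∞)) (u + x) :=
    (measurable_const.indicator hS).comp (measurable_id.const_add u)
  have hg : Measurable fun x => ENNReal.ofReal (gd h x) := (gd_meas h).ennreal_ofReal
  have hig : Measurable fun x : ℝ => S.indicator (fun _ => (1 : ℝ≥0∞)) (u + x) * ENNReal.ofReal (gd h x) :=
    hi.mul hg
  rw [h1, marg hh hi, lintegral_eq_zero_iff hig]
  have hpos : ∀ x, 0 < gd h x := by
    intro x
    unfold gd
    positivity
  have h2 : ((fun x : ℝ => S.indicator (fun _ => (1 : ℝ≥0∞)) (u + x) * ENNReal.ofReal (gd h x)) =ᵐ[volume] 0) ↔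
      volume {x | u + x ∈ S} = 0 := by
    have h3 : {x | u + x ∈ S} = {x | ¬ (fun x : ℝ => S.indicator (fun _ => (1 : ℝ≥0∞)) (u + x) *
        ENNReal.ofReal (gd h x)) x = (0 : ℝ → ℝ≥0∞) x} := by
      ext x
      by_cases hx : u + x ∈ S
      · simp [hx, hpos x]
      · simp [hx]
    rw [h3]
    rfl
  rw [h2]
  have h4 : volume {x | u + x ∈ S} = volume S := measure_preimage_add volume u S
  rw [h4]

theorem Dts_ae (hh : 0 < h) (u : ℝ) {p : ℝ → Prop} (hp : ∀ᵐ x, p x) : ∀ᵐ w ∂Wm, p (u + w h) := by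
  rw [ae_iff] at hp
  obtain ⟨S, hSs, hSm, hS0⟩ := exists_measurable_superset_of_null hp
  rw [ae_iff]
  exact measure_mono_null (fun w hw => hSs hw) ((Dts_null hh u hSm).2 hS0)

/-- concatenation preserves the law -/
theorem Dts_cat (c : ℝ≥0) : (Wm.prod Wm).map (fun p : Pth × Pth => Pth.cat c p.1 p.2) = Wm := by
  have hm : Measurable (fun p : Pth × Pth => Pth.cat c p.1 p.2) :=
    Pth.measurable_cat measurable_const measurable_fst measurable_snd
  ext S hS
  have h1 := lintegral_cat Wm_isW c (G := S.indicator fun _ => (1 : ℝ≥0∞)) (measurable_const.indicator hS)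
  rw [lintegral_indicator_const hS, one_mul] at h1
  rw [← h1, Measure.map_apply hm hS, ← lintegral_indicator_one (hm hS), lintegral_prod _
    ((measurable_one.indicator (hm hS)).aemeasurable)]
  rfl

theorem Dts_wt (u : ℝ) (hh : 0 < h) (hh' : 0 < h') (hV : Pot V) (A B : Pth) :
    ∫ s in (0 : ℝ)..(h + h'), V (u + Pth.cat h.toNNReal A B s) =
      (∫ s in (0 : ℝ)..h, V (u + A s)) + ∫ s in (0 : ℝ)..h', V (u + A h + B s) := by
  have hc : ((h.toNNReal : ℝ≥0) : ℝ) = h := Real.coe_toNNReal h hh.le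
  have hcont : Continuous fun s => V (u + Pth.cat h.toNNReal A B s) :=
    hV.cont.comp (continuous_const.add (Pth.cat h.toNNReal A B).continuous)
  rw [← intervalIntegral.integral_add_adjacent_intervals (hcont.intervalIntegrable 0 h)
    (hcont.intervalIntegrable h (h + h'))]
  congr 1
  · refine intervalIntegral.integral_congr fun s hs => ?_
    rw [uIcc_of_le hh.le] at hs
    show V (u + Pth.cat h.toNNReal A B s) = V (u + A s)
    rw [Pth.cat_apply_of_le A B (by rw [hc]; exact hs.2)]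
  · have h1 := intervalIntegral.integral_comp_add_left (a := 0) (b := h')
      (fun s => V (u + Pth.cat h.toNNReal A B s)) h
    rw [add_zero] at h1
    rw [← h1]
    refine intervalIntegral.integral_congr fun s hs => ?_
    rw [uIcc_of_le hh'.le] at hs
    show V (u + Pth.cat h.toNNReal A B (h + s)) = V (u + A h + B s)
    rw [Pth.cat_apply_of_ge A B (by rw [hc]; linarith [hs.1]), hc, add_sub_cancel_left, add_assoc]

theorem tv_semi (hV : Pot V) (hh : 0 < h) (hh' : 0 < h') (hf : Measurable f) (hf2 : MemLp f 2 volume) (u : ℝ) :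
    TV V h (TV V h' f) u = TV V (h + h') f u := by
  have hc : ((h.toNNReal : ℝ≥0) : ℝ) = h := Real.coe_toNNReal h hh.le
  have hm : Measurable (fun p : Pth × Pth => Pth.cat h.toNNReal p.1 p.2) :=
    Pth.measurable_cat measurable_const measurable_fst measurable_snd
  have hsum : 0 < h + h' := add_pos hh hh'
  have hG := tv_int hV hsum hf hf2 u
  have hGm : Measurable fun w : Pth => Real.exp (-∫ s in (0 : ℝ)..(h + h'), V (u + w s)) * f (u + w (h + h')) := by
    refine Measurable.mul ?_ (hf.comp ((Pth.measurable_apply _).const_add u))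
    exact (wt_meas hV (h + h')).comp (measurable_const.prodMk measurable_id)
  have hG' : Integrable (fun w : Pth => Real.exp (-∫ s in (0 : ℝ)..(h + h'), V (u + w s)) *
      f (u + w (h + h'))) ((Wm.prod Wm).map (fun p : Pth × Pth => Pth.cat h.toNNReal p.1 p.2)) := by
    rw [Dts_cat]
    exact hG
  have hI : Integrable (fun p : Pth × Pth => Real.exp (-∫ s in (0 : ℝ)..(h + h'),
      V (u + Pth.cat h.toNNReal p.1 p.2 s)) * f (u + Pth.cat h.toNNReal p.1 p.2 (h + h')))
      (Wm.prod Wm) := hG'.comp_measurable hm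
  have h1 : TV V (h + h') f u = ∫ p : Pth × Pth, Real.exp (-∫ s in (0 : ℝ)..(h + h'),
      V (u + Pth.cat h.toNNReal p.1 p.2 s)) * f (u + Pth.cat h.toNNReal p.1 p.2 (h + h')) ∂(Wm.prod Wm) := by
    unfold TV
    conv_lhs => rw [← Dts_cat h.toNNReal]
    exact integral_map hm.aemeasurable hGm.aestronglyMeasurable
  rw [h1, integral_prod _ hI]
  unfold TV
  refine integral_congr_ae (Eventually.of_forall fun A => ?_)
  show _ = ∫ B, Real.exp (-∫ s in (0 : ℝ)..(h + h'), V (u + Pth.cat h.toNNReal A B s)) *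
    f (u + Pth.cat h.toNNReal A B (h + h')) ∂Wm
  simp only []
  rw [← integral_const_mul]
  refine integral_congr_ae (Eventually.of_forall fun B => ?_)
  show _ = Real.exp (-∫ s in (0 : ℝ)..(h + h'), V (u + Pth.cat h.toNNReal A B s)) *
    f (u + Pth.cat h.toNNReal A B (h + h'))
  rw [Dts_wt u hh hh' hV A B, Pth.cat_apply_of_ge A B (by rw [hc]; linarith), hc,
    add_sub_cancel_left, neg_add, Real.exp_add, ← add_assoc]
  simp only [mul_assoc]

/-- time reversal on `[0,c]` -/
def Dts_rev (c : ℝ≥0) (w : Pth) : Pth := Pth.glue c w (Pth.shift c w)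

theorem Dts_rev_meas (c : ℝ≥0) : Measurable (Dts_rev c) :=
  Pth.measurable_glue measurable_const measurable_id (Pth.measurable_shift measurable_const measurable_id)

theorem Dts_rev_map (c : ℝ≥0) : Wm.map (Dts_rev c) = Wm := isW_reflect Wm_isW c

theorem Dts_Phi_meas (h : ℝ) : Measurable (fun p : ℝ × Pth => (p.1 + p.2 h, Dts_rev h.toNNReal p.2)) :=
  (measurable_fst.add ((Pth.measurable_apply h).comp measurable_snd)).prodMk
    ((Dts_rev_meas _).comp measurable_snd)

theorem Dts_mp (h : ℝ) : MeasurePreserving (fun p : ℝ × Pth => (p.1 + p.2 h, Dts_rev h.toNNReal p.2))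
    (volume.prod Wm) (volume.prod Wm) := by
  refine ⟨Dts_Phi_meas h, ?_⟩
  ext S hS
  rw [Measure.map_apply (Dts_Phi_meas h) hS, Measure.prod_apply_symm (Dts_Phi_meas h hS),
    Measure.prod_apply_symm hS]
  have h1 : ∀ w : Pth, volume ((fun u : ℝ => (u, w)) ⁻¹'
      ((fun p : ℝ × Pth => (p.1 + p.2 h, Dts_rev h.toNNReal p.2)) ⁻¹' S)) =
      volume ((fun u : ℝ => (u, Dts_rev h.toNNReal w)) ⁻¹' S) := by
    intro w
    exact measure_preimage_add_right volume (w h) ((fun u : ℝ => (u, Dts_rev h.toNNReal w)) ⁻¹' S)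
  simp only [h1]
  have h2 := lintegral_map (μ := Wm) (f := fun w : Pth => volume ((fun u : ℝ => (u, w)) ⁻¹' S))
    (measurable_measure_prodMk_right hS) (Dts_rev_meas h.toNNReal)
  rw [Dts_rev_map] at h2
  exact h2.symm

theorem Dts_revwt (hh : 0 < h) (u : ℝ) (w : Pth) :
    ∫ s in (0 : ℝ)..h, V (u + w h + Dts_rev h.toNNReal w s) = ∫ s in (0 : ℝ)..h, V (u + w s) := by
  have hc : ((h.toNNReal : ℝ≥0) : ℝ) = h := Real.coe_toNNReal h hh.le
  have h1 : ∫ s in (0 : ℝ)..h, V (u + w h + Dts_rev h.toNNReal w s) =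
      ∫ s in (0 : ℝ)..h, V (u + w (h - s)) := by
    refine intervalIntegral.integral_congr fun s hs => ?_
    rw [uIcc_of_le hh.le] at hs
    show V (u + w h + Dts_rev h.toNNReal w s) = V (u + w (h - s))
    unfold Dts_rev
    rw [Pth.glue_apply_of_le _ _ hs.1 (by rw [hc]; exact hs.2), hc]
    congr 1
    ring
  have h2 := intervalIntegral.integral_comp_sub_left (a := 0) (b := h) (fun s => V (u + w s)) h
  rw [sub_self, sub_zero] at h2
  rw [h1, h2]

theorem Dts_rev_end (hh : 0 < h) (w : Pth) : Dts_rev h.toNNReal w h = - w h := by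
  have hc : ((h.toNNReal : ℝ≥0) : ℝ) = h := Real.coe_toNNReal h hh.le
  unfold Dts_rev
  rw [Pth.glue_apply_of_le _ _ hh.le (by rw [hc]), hc, sub_self, Pth.zero, zero_sub]

theorem Dts_Hint (hV : Pot V) (hh : 0 < h) (hf : Measurable f) (hf2 : MemLp f 2 volume) (hg : Measurable g)
    (hg2 : MemLp g 2 volume) : Integrable (fun p : ℝ × Pth => g p.1 *
      (Real.exp (-∫ s in (0 : ℝ)..h, V (p.1 + p.2 s)) * f (p.1 + p.2 h))) (volume.prod Wm) := by
  have i1 : Integrable (fun p : ℝ × Pth => g p.1 ^ 2) (volume.prod Wm) :=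
    hg2.integrable_sq.comp_fst Wm
  have i2 : Integrable (fun p : ℝ × Pth => f p.1 ^ 2) (volume.prod Wm) :=
    hf2.integrable_sq.comp_fst Wm
  have i3 : Integrable (fun p : ℝ × Pth => f (p.1 + p.2 h) ^ 2) (volume.prod Wm) :=
    (Dts_mp h).integrable_comp_of_integrable i2
  refine (i1.add i3).mono' ?_ (Eventually.of_forall fun p => ?_)
  · refine (Measurable.mul (hg.comp measurable_fst) (Measurable.mul (wt_meas hV h) (hf.comp ?_))).aestronglyMeasurable
    exact measurable_fst.add ((Pth.measurable_apply h).comp measurable_snd)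
  · have hw := wt_le hV hh.le p.1 p.2
    have hw0 := Real.exp_pos (-∫ s in (0 : ℝ)..h, V (p.1 + p.2 s))
    show ‖g p.1 * (Real.exp (-∫ s in (0 : ℝ)..h, V (p.1 + p.2 s)) * f (p.1 + p.2 h))‖ ≤
      g p.1 ^ 2 + f (p.1 + p.2 h) ^ 2
    rw [Real.norm_eq_abs, abs_mul, abs_mul, abs_of_pos hw0]
    have h3 : Real.exp (-∫ s in (0 : ℝ)..h, V (p.1 + p.2 s)) * |f (p.1 + p.2 h)| ≤ |f (p.1 + p.2 h)| :=
      mul_le_of_le_one_left (abs_nonneg _) hw
    have h4 := mul_le_mul_of_nonneg_left h3 (abs_nonneg (g p.1))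
    nlinarith [sq_abs (g p.1), sq_abs (f (p.1 + p.2 h)), sq_nonneg (|g p.1| - |f (p.1 + p.2 h)|),
      abs_nonneg (g p.1), abs_nonneg (f (p.1 + p.2 h))]

theorem Dts_sy (hV : Pot V) (hh : 0 < h) (hf : Measurable f) (hf2 : MemLp f 2 volume) (hg : Measurable g)
    (hg2 : MemLp g 2 volume) : ∫ u, g u * TV V h f u = ∫ p : ℝ × Pth, g p.1 *
      (Real.exp (-∫ s in (0 : ℝ)..h, V (p.1 + p.2 s)) * f (p.1 + p.2 h)) ∂(volume.prod Wm) := by
  rw [integral_prod _ (Dts_Hint hV hh hf hf2 hg hg2)]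
  refine integral_congr_ae (Eventually.of_forall fun u => ?_)
  show g u * TV V h f u = ∫ w, g u * (Real.exp (-∫ s in (0 : ℝ)..h, V (u + w s)) * f (u + w h)) ∂Wm
  rw [integral_const_mul]
  rfl

theorem tv_symm (hV : Pot V) (hh : 0 < h) (hf : Measurable f) (hf2 : MemLp f 2 volume) (hg : Measurable g)
    (hg2 : MemLp g 2 volume) : ∫ u, g u * TV V h f u = ∫ u, f u * TV V h g u := by
  rw [Dts_sy hV hh hf hf2 hg hg2, Dts_sy hV hh hg hg2 hf hf2]
  have hK := Dts_Hint hV hh hg hg2 hf hf2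
  have hmp := Dts_mp h
  rw [← hmp.map_eq] at hK
  have h1 := integral_map hmp.measurable.aemeasurable hK.aestronglyMeasurable
  rw [hmp.map_eq] at h1
  rw [h1]
  refine integral_congr_ae (Eventually.of_forall fun p => ?_)
  obtain ⟨u, w⟩ := p
  show g u * (Real.exp (-∫ s in (0 : ℝ)..h, V (u + w s)) * f (u + w h)) =
    f (u + w h) * (Real.exp (-∫ s in (0 : ℝ)..h, V (u + w h + Dts_rev h.toNNReal w s)) *
      g (u + w h + Dts_rev h.toNNReal w h))
  rw [Dts_revwt hh, Dts_rev_end hh, add_neg_cancel_right]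
  ring

theorem tv_nonneg (hV : Pot V) (hf0 : ∀ x, 0 ≤ f x) (u : ℝ) : 0 ≤ TV V h f u := by
  unfold TV
  exact integral_nonneg fun w => mul_nonneg (Real.exp_pos _).le (hf0 _)

theorem tv_mono (hV : Pot V) (hh : 0 < h) (hf : Measurable f) (hf2 : MemLp f 2 volume) (hg : Measurable g)
    (hg2 : MemLp g 2 volume) (hfg : ∀ᵐ x, f x ≤ g x) (u : ℝ) : TV V h f u ≤ TV V h g u := by
  have hg' : Measurable fun x => max (f x) (g x) := hf.max hg
  have he : g =ᵐ[volume] fun x => max (f x) (g x) := by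
    filter_upwards [hfg] with x hx
    rw [max_eq_right hx]
  have hg2' : MemLp (fun x => max (f x) (g x)) 2 volume := hg2.ae_eq he
  rw [tv_congr hh hg hg' he u]
  unfold TV
  refine integral_mono (tv_int hV hh hf hf2 u) (tv_int hV hh hg' hg2' u) fun w => ?_
  exact mul_le_mul_of_nonneg_left (le_max_left _ _) (Real.exp_pos _).le

theorem tv_pos (hV : Pot V) (hh : 0 < h) (hf : Measurable f) (hf2 : MemLp f 2 volume) (hf0 : ∀ᵐ x, 0 ≤ f x)
    (hfne : ¬ f =ᵐ[volume] 0) (u : ℝ) : 0 < TV V h f u := by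
  have hg' : Measurable fun x => max (f x) 0 := hf.max measurable_const
  have he : f =ᵐ[volume] fun x => max (f x) 0 := by
    filter_upwards [hf0] with x hx
    rw [max_eq_left hx]
  have hg2' : MemLp (fun x => max (f x) 0) 2 volume := hf2.ae_eq he
  rw [tv_congr hh hf hg' he u]
  have h0 : 0 ≤ TV V h (fun x => max (f x) 0) u := tv_nonneg hV (fun x => le_max_right _ _) u
  refine lt_of_le_of_ne h0 fun hz => hfne ?_
  have h1 : (fun w : Pth => Real.exp (-∫ s in (0 : ℝ)..h, V (u + w s)) * max (f (u + w h)) 0) =ᵐ[Wm] 0 :=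
    (integral_eq_zero_iff_of_nonneg (fun w => mul_nonneg (Real.exp_pos _).le (le_max_right _ _))
      (tv_int hV hh hg' hg2' u)).1 hz.symm
  have hS : MeasurableSet {x | max (f x) 0 ≠ 0} := (hg' (measurableSet_singleton 0)).compl
  have h2 : Wm {w | u + w h ∈ {x | max (f x) 0 ≠ 0}} = 0 := by
    have h3 : ∀ᵐ w ∂Wm, ¬ (u + w h ∈ {x | max (f x) 0 ≠ 0}) := by
      filter_upwards [h1] with w hw
      intro hc
      exact hc ((mul_eq_zero.1 hw).resolve_left (Real.exp_pos _).ne')
    rw [ae_iff] at h3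
    simpa only [not_not] using h3
  have h4 := (Dts_null hh u hS).1 h2
  have h5 : (fun x => max (f x) 0) =ᵐ[volume] 0 := by
    rw [Filter.EventuallyEq, ae_iff]
    exact h4
  exact he.trans h5

theorem tv_abs (hV : Pot V) (hh : 0 < h) (hf : Measurable f) (hf2 : MemLp f 2 volume) (u : ℝ) :
    |TV V h f u| ≤ TV V h (fun x => |f x|) u := by
  unfold TV
  refine abs_integral_le_integral_abs.trans (le_of_eq ?_)
  refine integral_congr_ae (Eventually.of_forall fun w => ?_)
  show |Real.exp (-∫ s in (0 : ℝ)..h, V (u + w s)) * f (u + w h)| =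
    Real.exp (-∫ s in (0 : ℝ)..h, V (u + w s)) * |f (u + w h)|
  rw [abs_mul, abs_of_pos (Real.exp_pos _)]

theorem tv_lt (hV : Pot V) (hV0 : ∀ x, x ≠ 0 → 0 < V x) (hh : 0 < h) (hf : Measurable f)
    (hf2 : MemLp f 2 volume) (hf0 : ∀ᵐ x, 0 < f x) (u : ℝ) : TV V h f u < ∫ w, f (u + w h) ∂Wm := by
  have hi := tv_int hV hh hf hf2 u
  have hi2 : Integrable (fun w : Pth => f (u + w h)) Wm :=
    (memLp_path hh hf hf2 u).1.integrable one_le_two
  have hne : ∀ᵐ w ∂Wm, u + w h ≠ 0 := by
    refine Dts_ae hh u (p := fun x => x ≠ 0) ?_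
    rw [ae_iff]
    simp only [ne_eq, not_not, setOf_eq_eq_singleton, Real.volume_singleton]
  have hpos : ∀ᵐ w ∂Wm, 0 < f (u + w h) := Dts_ae hh u hf0
  have hlt : ∀ᵐ w ∂Wm, Real.exp (-∫ s in (0 : ℝ)..h, V (u + w s)) * f (u + w h) < f (u + w h) := by
    filter_upwards [hne, hpos] with w h1 h2
    have h3 : 0 < ∫ s in (0 : ℝ)..h, V (u + w s) := by
      have hcont : Continuous fun s => V (u + w s) := hV.cont.comp (continuous_const.add w.continuous)
      refine intervalIntegral.integral_pos hh hcont.continuousOn (fun s _ => hV.nonneg _)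
        ⟨h, ⟨hh.le, le_rfl⟩, hV0 _ h1⟩
    have h4 : Real.exp (-∫ s in (0 : ℝ)..h, V (u + w s)) < 1 := by
      rw [Real.exp_lt_one_iff]
      linarith
    exact mul_lt_of_lt_one_left h2 h4
  have hle : TV V h f u ≤ ∫ w, f (u + w h) ∂Wm :=
    integral_mono_ae hi hi2 (hlt.mono fun w hw => hw.le)
  refine lt_of_le_of_ne hle fun he => ?_
  have h5 : ∫ w, (f (u + w h) - Real.exp (-∫ s in (0 : ℝ)..h, V (u + w s)) * f (u + w h)) ∂Wm = 0 := by
    rw [integral_sub hi2 hi, sub_eq_zero]
    exact he.symm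
  have h6 := (integral_eq_zero_iff_of_nonneg_ae (hlt.mono fun w hw => sub_nonneg.2 hw.le)
    (hi2.sub hi)).1 h5
  have h7 : ∀ᵐ w ∂Wm, False := by
    filter_upwards [h6, hlt] with w h8 h9
    have h8' : f (u + w h) - Real.exp (-∫ s in (0 : ℝ)..h, V (u + w s)) * f (u + w h) = 0 := h8
    linarith
  rw [ae_iff] at h7
  simp at h7

theorem tv_add (hV : Pot V) (hh : 0 < h) (hf : Measurable f) (hf2 : MemLp f 2 volume) (hg : Measurable g)
    (hg2 : MemLp g 2 volume) (a b u : ℝ) :
    TV V h (fun x => a * f x + b * g x) u = a * TV V h f u + b * TV V h g u := by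
  unfold TV
  have hi := (tv_int hV hh hf hf2 u).const_mul a
  have hj := (tv_int hV hh hg hg2 u).const_mul b
  rw [← integral_const_mul, ← integral_const_mul, ← integral_add hi hj]
  refine integral_congr_ae (Eventually.of_forall fun w => ?_)
  simp only []
  ring

/-- joint bound of two operators with potentials `V ≤ V'` -/
theorem tv_anti {V' : ℝ → ℝ} (hV : Pot V) (hV' : Pot V') (hle : ∀ x, V x ≤ V' x) (hh : 0 < h)
    (hf : Measurable f) (hf2 : MemLp f 2 volume) (hf0 : ∀ x, 0 ≤ f x) (u : ℝ) : TV V' h f u ≤ TV V h f u := by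
  unfold TV
  refine integral_mono (tv_int hV' hh hf hf2 u) (tv_int hV hh hf hf2 u) fun w => ?_
  refine mul_le_mul_of_nonneg_right ?_ (hf0 _)
  rw [Real.exp_le_exp, neg_le_neg_iff]
  have hc : Continuous fun s => V (u + w s) := hV.cont.comp (continuous_const.add w.continuous)
  have hc' : Continuous fun s => V' (u + w s) := hV'.cont.comp (continuous_const.add w.continuous)
  exact intervalIntegral.integral_mono_on hh.le (hc.intervalIntegrable _ _) (hc'.intervalIntegrable _ _)
    fun s _ => hle _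

end Pool.H50.BB
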