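import Pool.Agent.H50.BB.Defs2
import Pool.Agent.H50.BB.Brf

/-!
# Row Dtv: the operator TV on square integrable functions   (about 200 lines)

`V` continuous, nonnegative, `h > 0`, `f : ℝ → ℝ` measurable with `MemLp f 2 volume`.  `gd h ≤ (√(2πh))⁻¹`, `marg`: for EVERY `u`
`∫⁻ w, ofReal (f(u + w h)²) = ∫⁻ x, ofReal (f(u+x)²) gd h x dx ≤ (√(2πh))⁻¹ ∫⁻ ofReal f²` (translation invariance), finite.  So `w ↦ f(u + w h)` is in `L²(Wm)`, hence in `L¹`; the weight is in `(0,1]`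
and measurable in `w` (jointly in `(u,w)`: interval integral of the continuous function `s ↦ V(u + w s)`; jointly measurable as a limit or by `StronglyMeasurable.integral_prod_right'`).
`tv_sq` (Cauchy-Schwarz): `(TV V h f u)² ≤ om V h u * ∫ w, f (u + w h)² ∂Wm`.
`tv_L2`: `(TV V h f u)² ≤ ∫ w, f(u + w h)²` (`om ≤ 1`); integrate over `u` and use Tonelli and translation invariance: `∫ (TV f)² ≤ ∫ f²`.
`tv_gen`: more generally for a family of weights `|Z u w| ≤ Y w`, `Z` jointly measurable, `Y` bounded measurable: `F u = ∫ w, Z u w * f (u + w h)`: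
`(F u)² ≤ (∫ Y) ∫ w, Y w f(u + w h)²` and so `∫ F² ≤ (∫ Y)² ∫ f²`.
`tv_congr`: if `f = g` a.e. then `f (u + w h) = g (u + w h)` for a.e. `w` (the law of `w h` has a density).
-/

open MeasureTheory ProbabilityTheory Set Filter Topology
open scoped NNReal ENNReal

namespace Pool.H50.BB

open Pool.Agent.H4.BM

theorem Dtv_cs {Ω : Type} [MeasurableSpace Ω] {μ : Measure Ω} {X Y : Ω → ℝ} (hX : MemLp X 2 μ)
    (hY : MemLp Y 2 μ) :
    (∫ w, X w * Y w ∂μ) ^ 2 ≤ (∫ w, X w ^ 2 ∂μ) * ∫ w, Y w ^ 2 ∂μ := by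
  have hX2 : Integrable (fun w => X w ^ 2) μ := hX.integrable_sq
  have hY2 : Integrable (fun w => Y w ^ 2) μ := hY.integrable_sq
  have hXY : Integrable (fun w => X w * Y w) μ := hX.integrable_mul hY
  have h : ∀ t : ℝ, 0 ≤ (∫ w, X w ^ 2 ∂μ) * (t * t) + (2 * ∫ w, X w * Y w ∂μ) * t +
      ∫ w, Y w ^ 2 ∂μ := by
    intro t
    have e : (∫ w, X w ^ 2 ∂μ) * (t * t) + (2 * ∫ w, X w * Y w ∂μ) * t + ∫ w, Y w ^ 2 ∂μ =
        ∫ w, (t * X w + Y w) ^ 2 ∂μ := by
      have e1 : ∀ w, (t * X w + Y w) ^ 2 = (t * t) * X w ^ 2 + (2 * t) * (X w * Y w) + Y w ^ 2 :=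
        fun w => by ring
      simp_rw [e1]
      have i1 : Integrable (fun w => (t * t) * X w ^ 2) μ := hX2.const_mul _
      have i2 : Integrable (fun w => (2 * t) * (X w * Y w)) μ := hXY.const_mul _
      have i3 : Integrable (fun w => (t * t) * X w ^ 2 + (2 * t) * (X w * Y w)) μ := i1.add i2
      rw [integral_add i3 hY2, integral_add i1 i2, integral_const_mul, integral_const_mul]
      ring
    rw [e]
    exact integral_nonneg fun w => sq_nonneg _
  have h1 := discrim_le_zero h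
  unfold discrim at h1
  nlinarith

theorem Dtv_F {V : ℝ → ℝ} (hV : Pot V) : Measurable fun q : (ℝ × Pth) × ℝ => V (q.1.1 + q.1.2 q.2) :=
  hV.cont.measurable.comp ((measurable_fst.comp measurable_fst).add
    (Pth.measurable_eval2.comp (measurable_snd.prodMk (measurable_snd.comp measurable_fst))))

theorem Dtv_path (h : ℝ) : Measurable fun p : ℝ × Pth => p.1 + p.2 h :=
  measurable_fst.add ((Pth.measurable_apply h).comp measurable_snd)

theorem wt_meas {V : ℝ → ℝ} (hV : Pot V) (h : ℝ) :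
    Measurable fun p : ℝ × Pth => Real.exp (-∫ s in (0 : ℝ)..h, V (p.1 + p.2 s)) := by
  have h1 : Measurable fun p : ℝ × Pth => ∫ s in (0 : ℝ)..h, V (p.1 + p.2 s) := by
    have h2 : Measurable fun p : ℝ × Pth => ∫ s in Ioc (0 : ℝ) h, V (p.1 + p.2 s) :=
      ((Dtv_F hV).stronglyMeasurable.integral_prod_right' (ν := volume.restrict (Ioc (0 : ℝ) h))).measurable
    have h3 : Measurable fun p : ℝ × Pth => ∫ s in Ioc h (0 : ℝ), V (p.1 + p.2 s) :=
      ((Dtv_F hV).stronglyMeasurable.integral_prod_right' (ν := volume.restrict (Ioc h (0 : ℝ)))).measurable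
    exact h2.sub h3
  exact Real.measurable_exp.comp h1.neg

theorem wt_le {V : ℝ → ℝ} (hV : Pot V) {h : ℝ} (hh : 0 ≤ h) (u : ℝ) (w : Pth) :
    Real.exp (-∫ s in (0 : ℝ)..h, V (u + w s)) ≤ 1 := by
  rw [Real.exp_le_one_iff, neg_nonpos]
  exact intervalIntegral.integral_nonneg hh fun s _ => hV.nonneg _

theorem Dtv_two (V : ℝ → ℝ) (h u : ℝ) (w : Pth) : Real.exp (-2 * ∫ s in (0 : ℝ)..h, V (u + w s)) =
    Real.exp (-∫ s in (0 : ℝ)..h, V (u + w s)) ^ 2 := by
  rw [← Real.exp_nat_mul]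
  congr 1
  push_cast
  ring

theorem Dtv_wu {V : ℝ → ℝ} (hV : Pot V) (h u : ℝ) :
    Measurable fun w : Pth => Real.exp (-∫ s in (0 : ℝ)..h, V (u + w s)) :=
  (wt_meas hV h).comp (measurable_const.prodMk measurable_id)

theorem Dtv_sqle {V : ℝ → ℝ} (hV : Pot V) {h : ℝ} (hh : 0 ≤ h) (u : ℝ) (w : Pth) :
    Real.exp (-∫ s in (0 : ℝ)..h, V (u + w s)) ^ 2 ≤ 1 :=
  pow_le_one₀ (Real.exp_pos _).le (wt_le hV hh u w)

theorem om_le {V : ℝ → ℝ} (hV : Pot V) {h : ℝ} (hh : 0 ≤ h) (u : ℝ) : 0 ≤ om V h u ∧ om V h u ≤ 1 := by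
  unfold om
  simp_rw [Dtv_two]
  have hm : Measurable fun w : Pth => Real.exp (-∫ s in (0 : ℝ)..h, V (u + w s)) ^ 2 :=
    (Dtv_wu hV h u).pow_const 2
  have hi : Integrable (fun w : Pth => Real.exp (-∫ s in (0 : ℝ)..h, V (u + w s)) ^ 2) Wm := by
    refine Integrable.of_bound hm.aestronglyMeasurable 1 (Filter.Eventually.of_forall fun w => ?_)
    rw [Real.norm_of_nonneg (sq_nonneg _)]
    exact Dtv_sqle hV hh u w
  refine ⟨integral_nonneg fun w => sq_nonneg _, ?_⟩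
  calc ∫ w, Real.exp (-∫ s in (0 : ℝ)..h, V (u + w s)) ^ 2 ∂Wm ≤ ∫ _w, (1 : ℝ) ∂Wm :=
        integral_mono hi (integrable_const 1) fun w => Dtv_sqle hV hh u w
    _ = 1 := by simp

theorem om_meas {V : ℝ → ℝ} (hV : Pot V) (h : ℝ) : Measurable (om V h) := by
  unfold om
  simp_rw [Dtv_two]
  exact ((wt_meas hV h).pow_const 2).stronglyMeasurable.integral_prod_right'.measurable

theorem Dtv_lint {h : ℝ} (hh : 0 < h) {g : ℝ → ℝ≥0∞} (hg : Measurable g) (u : ℝ) :
    ∫⁻ w, g (u + w h) ∂Wm ≤ ENNReal.ofReal ((√(2 * Real.pi * h))⁻¹) * ∫⁻ x, g x := by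
  have h1 := marg hh (f := fun x => g (u + x)) (hg.comp (measurable_const.add measurable_id))
  rw [h1]
  calc ∫⁻ x, g (u + x) * ENNReal.ofReal (gd h x)
      ≤ ∫⁻ x, ENNReal.ofReal ((√(2 * Real.pi * h))⁻¹) * g (u + x) := by
        refine lintegral_mono fun x => ?_
        rw [mul_comm]
        refine mul_le_mul' (ENNReal.ofReal_le_ofReal ?_) le_rfl
        unfold gd
        refine mul_le_of_le_one_right (by positivity) ?_
        rw [Real.exp_le_one_iff]
        exact div_nonpos_of_nonpos_of_nonneg (by nlinarith [sq_nonneg x]) (by positivity)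
    _ = ENNReal.ofReal ((√(2 * Real.pi * h))⁻¹) * ∫⁻ x, g (u + x) :=
        lintegral_const_mul _ (hg.comp (measurable_const.add measurable_id))
    _ = _ := by rw [lintegral_add_left_eq_self]

theorem Dtv_fin {f : ℝ → ℝ} (hf2 : MemLp f 2 volume) : ∫⁻ x, ENNReal.ofReal (f x ^ 2) < ⊤ := by
  have h1 : Integrable (fun x => f x ^ 2) := hf2.integrable_sq
  have h2 := h1.hasFiniteIntegral
  rwa [hasFiniteIntegral_iff_ofReal (ae_of_all _ fun x => sq_nonneg _)] at h2

theorem Dtv_fu {f : ℝ → ℝ} (hf : Measurable f) (h u : ℝ) : Measurable fun w : Pth => f (u + w h) :=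
  hf.comp ((Pth.measurable_apply h).const_add u)

theorem memLp_path {h : ℝ} (hh : 0 < h) {f : ℝ → ℝ} (hf : Measurable f) (hf2 : MemLp f 2 volume) (u : ℝ) :
    MemLp (fun w : Pth => f (u + w h)) 2 Wm ∧
      ∫ w, f (u + w h) ^ 2 ∂Wm ≤ (√(2 * Real.pi * h))⁻¹ * ∫ x, f x ^ 2 := by
  have hfi : Integrable (fun x => f x ^ 2) := hf2.integrable_sq
  have hle := Dtv_lint hh (g := fun x => ENNReal.ofReal (f x ^ 2)) (hf.pow_const 2).ennreal_ofReal u
  have hm := Dtv_fu hf h u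
  have hint : Integrable (fun w : Pth => f (u + w h) ^ 2) Wm := by
    refine ⟨(hm.pow_const 2).aestronglyMeasurable, ?_⟩
    rw [hasFiniteIntegral_iff_ofReal (ae_of_all _ fun w => sq_nonneg _)]
    exact hle.trans_lt (ENNReal.mul_lt_top ENNReal.ofReal_lt_top (Dtv_fin hf2))
  refine ⟨(memLp_two_iff_integrable_sq hm.aestronglyMeasurable).2 hint, ?_⟩
  have hc : 0 ≤ (√(2 * Real.pi * h))⁻¹ := by positivity
  rw [← ENNReal.ofReal_le_ofReal_iff (mul_nonneg hc (integral_nonneg fun x => sq_nonneg _)),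
    ENNReal.ofReal_mul hc, ofReal_integral_eq_lintegral_ofReal hint (ae_of_all _ fun w => sq_nonneg _),
    ofReal_integral_eq_lintegral_ofReal hfi (ae_of_all _ fun w => sq_nonneg _)]
  exact hle

theorem Dtv_prod {h : ℝ} {f : ℝ → ℝ} (hf : Measurable f) (hf2 : MemLp f 2 volume) {Y : Pth → ℝ}
    (hY : Measurable Y) {M : ℝ} (hYM : ∀ w, Y w ≤ M) (hY0 : ∀ w, 0 ≤ Y w) :
    Integrable (fun p : ℝ × Pth => Y p.2 * f (p.1 + p.2 h) ^ 2) (volume.prod Wm) ∧
    ∫ u, ∫ w, Y w * f (u + w h) ^ 2 ∂Wm = (∫ w, Y w ∂Wm) * ∫ x, f x ^ 2 := by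
  have hm : Measurable fun p : ℝ × Pth => Y p.2 * f (p.1 + p.2 h) ^ 2 :=
    (hY.comp measurable_snd).mul ((hf.comp (Dtv_path h)).pow_const 2)
  have hint : Integrable (fun p : ℝ × Pth => Y p.2 * f (p.1 + p.2 h) ^ 2) (volume.prod Wm) := by
    refine ⟨hm.aestronglyMeasurable, ?_⟩
    rw [hasFiniteIntegral_iff_ofReal (ae_of_all _ fun p => mul_nonneg (hY0 _) (sq_nonneg _)),
      lintegral_prod_symm' _ hm.ennreal_ofReal]
    calc ∫⁻ w, ∫⁻ u, ENNReal.ofReal (Y w * f (u + w h) ^ 2) ∂volume ∂Wm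
        ≤ ∫⁻ _w, (ENNReal.ofReal M * ∫⁻ x, ENNReal.ofReal (f x ^ 2)) ∂Wm := by
          refine lintegral_mono fun w => ?_
          calc ∫⁻ u, ENNReal.ofReal (Y w * f (u + w h) ^ 2)
              ≤ ∫⁻ u, ENNReal.ofReal M * ENNReal.ofReal (f (u + w h) ^ 2) := by
                refine lintegral_mono fun u => ?_
                rw [ENNReal.ofReal_mul (hY0 w)]
                exact mul_le_mul' (ENNReal.ofReal_le_ofReal (hYM w)) le_rfl
            _ = ENNReal.ofReal M * ∫⁻ x, ENNReal.ofReal (f x ^ 2) := by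
                have hmw : Measurable fun u : ℝ => ENNReal.ofReal (f (u + w h) ^ 2) :=
                  ((hf.comp (measurable_id.add_const (w h))).pow_const 2).ennreal_ofReal
                rw [lintegral_const_mul _ hmw,
                  lintegral_add_right_eq_self (fun x => ENNReal.ofReal (f x ^ 2))]
      _ < ⊤ := by
          rw [lintegral_const, measure_univ, mul_one]
          exact ENNReal.mul_lt_top ENNReal.ofReal_lt_top (Dtv_fin hf2)
  refine ⟨hint, ?_⟩
  have hsw := integral_integral_swap (f := fun u (w : Pth) => Y w * f (u + w h) ^ 2) hint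
  rw [hsw]
  have h2 : ∀ w : Pth, ∫ u, Y w * f (u + w h) ^ 2 = Y w * ∫ x, f x ^ 2 := by
    intro w
    rw [integral_const_mul, integral_add_right_eq_self (fun x => f x ^ 2)]
  simp_rw [h2]
  rw [integral_mul_const]

theorem path_L2 {h : ℝ} (hh : 0 < h) {f : ℝ → ℝ} (hf : Measurable f) (hf2 : MemLp f 2 volume) :
    Integrable (fun u => ∫ w, f (u + w h) ^ 2 ∂Wm) ∧ ∫ u, ∫ w, f (u + w h) ^ 2 ∂Wm = ∫ x, f x ^ 2 := by
  obtain ⟨h1, h2⟩ := Dtv_prod (h := h) hf hf2 (Y := fun _ => 1) measurable_const (M := 1)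
    (fun _ => le_rfl) (fun _ => zero_le_one)
  have h3 := h1.integral_prod_left
  simp only [one_mul] at h2 h3
  refine ⟨h3, ?_⟩
  rw [h2]
  simp

theorem tv_int {V : ℝ → ℝ} (hV : Pot V) {h : ℝ} (hh : 0 < h) {f : ℝ → ℝ} (hf : Measurable f)
    (hf2 : MemLp f 2 volume) (u : ℝ) :
    Integrable (fun w => Real.exp (-∫ s in (0 : ℝ)..h, V (u + w s)) * f (u + w h)) Wm := by
  have h1 : Integrable (fun w : Pth => f (u + w h)) Wm := (memLp_path hh hf hf2 u).1.integrable one_le_two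
  refine h1.mono ((Dtv_wu hV h u).mul (Dtv_fu hf h u)).aestronglyMeasurable
    (Filter.Eventually.of_forall fun w => ?_)
  rw [norm_mul, Real.norm_of_nonneg (Real.exp_pos _).le]
  exact mul_le_of_le_one_left (norm_nonneg _) (wt_le hV hh.le u w)

theorem tv_meas {V : ℝ → ℝ} (hV : Pot V) {h : ℝ} (hh : 0 < h) {f : ℝ → ℝ} (hf : Measurable f) :
    Measurable (TV V h f) := by
  unfold TV
  exact ((wt_meas hV h).mul (hf.comp (Dtv_path h))).stronglyMeasurable.integral_prod_right'.measurable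

theorem tv_sq {V : ℝ → ℝ} (hV : Pot V) {h : ℝ} (hh : 0 < h) {f : ℝ → ℝ} (hf : Measurable f)
    (hf2 : MemLp f 2 volume) (u : ℝ) :
    TV V h f u ^ 2 ≤ om V h u * ∫ w, f (u + w h) ^ 2 ∂Wm := by
  have hX : MemLp (fun w : Pth => Real.exp (-∫ s in (0 : ℝ)..h, V (u + w s))) 2 Wm := by
    refine MemLp.of_bound (Dtv_wu hV h u).aestronglyMeasurable 1 (Filter.Eventually.of_forall fun w => ?_)
    rw [Real.norm_of_nonneg (Real.exp_pos _).le]
    exact wt_le hV hh.le u w
  have h1 := Dtv_cs hX (memLp_path hh hf hf2 u).1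
  unfold TV om
  simp_rw [Dtv_two]
  exact h1

/-- general weights bounded by a function of the path only -/
theorem tv_gen {h : ℝ} (hh : 0 < h) {f : ℝ → ℝ} (hf : Measurable f) (hf2 : MemLp f 2 volume)
    {Z : ℝ → Pth → ℝ} (hZ : Measurable (Function.uncurry Z)) {Y : Pth → ℝ} (hY : Measurable Y) {M : ℝ}
    (hYM : ∀ w, Y w ≤ M) (hZY : ∀ u w, |Z u w| ≤ Y w) :
    MemLp (fun u => ∫ w, Z u w * f (u + w h) ∂Wm) 2 volume ∧
      ∫ u, (∫ w, Z u w * f (u + w h) ∂Wm) ^ 2 ≤ (∫ w, Y w ∂Wm) ^ 2 * ∫ x, f x ^ 2 := by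
  have hY0 : ∀ w, 0 ≤ Y w := fun w => (abs_nonneg _).trans (hZY 0 w)
  obtain ⟨hint, hval⟩ := Dtv_prod (h := h) hf hf2 hY hYM hY0
  have hm : Measurable (fun p : ℝ × Pth => Z p.1 p.2 * f (p.1 + p.2 h)) :=
    hZ.mul (hf.comp (Dtv_path h))
  have hFm : Measurable fun u => ∫ w, Z u w * f (u + w h) ∂Wm :=
    hm.stronglyMeasurable.integral_prod_right'.measurable
  have hYi : Integrable Y Wm := by
    refine Integrable.of_bound hY.aestronglyMeasurable M (Filter.Eventually.of_forall fun w => ?_)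
    rw [Real.norm_of_nonneg (hY0 w)]
    exact hYM w
  have hsq : Measurable fun w : Pth => √(Y w) := hY.sqrt
  have hpt : ∀ u, (∫ w, Z u w * f (u + w h) ∂Wm) ^ 2 ≤
      (∫ w, Y w ∂Wm) * ∫ w, Y w * f (u + w h) ^ 2 ∂Wm := by
    intro u
    have hfm := Dtv_fu hf h u
    obtain ⟨hfL, _⟩ := memLp_path hh hf hf2 u
    have hX : MemLp (fun w => √(Y w)) 2 Wm := by
      rw [memLp_two_iff_integrable_sq hsq.aestronglyMeasurable]
      simp_rw [Real.sq_sqrt (hY0 _)]
      exact hYi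
    have hYf : Integrable (fun w => Y w * f (u + w h) ^ 2) Wm := by
      have h1 : Integrable (fun w : Pth => M * f (u + w h) ^ 2) Wm := hfL.integrable_sq.const_mul M
      refine h1.mono (hY.mul (hfm.pow_const 2)).aestronglyMeasurable (Filter.Eventually.of_forall fun w => ?_)
      rw [norm_mul, norm_mul, Real.norm_of_nonneg (hY0 w), Real.norm_of_nonneg ((hY0 w).trans (hYM w))]
      exact mul_le_mul_of_nonneg_right (hYM w) (norm_nonneg _)
    have hX' : MemLp (fun w : Pth => √(Y w) * |f (u + w h)|) 2 Wm := by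
      have hm' : Measurable fun w : Pth => √(Y w) * |f (u + w h)| := hsq.mul hfm.abs
      rw [memLp_two_iff_integrable_sq hm'.aestronglyMeasurable]
      have e : ∀ w : Pth, (√(Y w) * |f (u + w h)|) ^ 2 = Y w * f (u + w h) ^ 2 := by
        intro w
        rw [mul_pow, Real.sq_sqrt (hY0 w), sq_abs]
      simp_rw [e]
      exact hYf
    have hcs := Dtv_cs hX hX'
    have e1 : ∀ w : Pth, √(Y w) * (√(Y w) * |f (u + w h)|) = Y w * |f (u + w h)| := by
      intro w
      rw [← mul_assoc, Real.mul_self_sqrt (hY0 w)]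
    have e2 : ∀ w : Pth, (√(Y w) * |f (u + w h)|) ^ 2 = Y w * f (u + w h) ^ 2 := by
      intro w
      rw [mul_pow, Real.sq_sqrt (hY0 w), sq_abs]
    simp_rw [e1, e2, Real.sq_sqrt (hY0 _)] at hcs
    refine le_trans ?_ hcs
    have hYa : Integrable (fun w => Y w * |f (u + w h)|) Wm := by
      have h1 : Integrable (fun w : Pth => M * |f (u + w h)|) Wm :=
        (hfL.integrable one_le_two).abs.const_mul M
      refine h1.mono (hY.mul hfm.abs).aestronglyMeasurable (Filter.Eventually.of_forall fun w => ?_)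
      rw [norm_mul, norm_mul, Real.norm_of_nonneg (hY0 w), Real.norm_of_nonneg ((hY0 w).trans (hYM w))]
      exact mul_le_mul_of_nonneg_right (hYM w) (norm_nonneg _)
    rw [← sq_abs (∫ w, Z u w * f (u + w h) ∂Wm)]
    refine pow_le_pow_left₀ (abs_nonneg _) ?_ 2
    refine abs_integral_le_integral_abs.trans ?_
    refine integral_mono_of_nonneg (Filter.Eventually.of_forall fun w => abs_nonneg _) hYa
      (Filter.Eventually.of_forall fun w => ?_)
    simp only [abs_mul]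
    exact mul_le_mul_of_nonneg_right (hZY u w) (abs_nonneg _)
  have hbi : Integrable fun u => (∫ w, Y w ∂Wm) * ∫ w, Y w * f (u + w h) ^ 2 ∂Wm :=
    hint.integral_prod_left.const_mul _
  have hFi : Integrable fun u => (∫ w, Z u w * f (u + w h) ∂Wm) ^ 2 := by
    refine hbi.mono' (hFm.pow_const 2).aestronglyMeasurable (Filter.Eventually.of_forall fun u => ?_)
    rw [Real.norm_of_nonneg (sq_nonneg _)]
    exact hpt u
  refine ⟨(memLp_two_iff_integrable_sq hFm.aestronglyMeasurable).2 hFi, ?_⟩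
  calc ∫ u, (∫ w, Z u w * f (u + w h) ∂Wm) ^ 2
      ≤ ∫ u, (∫ w, Y w ∂Wm) * ∫ w, Y w * f (u + w h) ^ 2 ∂Wm := integral_mono hFi hbi hpt
    _ = (∫ w, Y w ∂Wm) ^ 2 * ∫ x, f x ^ 2 := by
        rw [integral_const_mul, hval]
        ring

theorem tv_L2 {V : ℝ → ℝ} (hV : Pot V) {h : ℝ} (hh : 0 < h) {f : ℝ → ℝ} (hf : Measurable f)
    (hf2 : MemLp f 2 volume) : MemLp (TV V h f) 2 volume ∧ ∫ u, TV V h f u ^ 2 ≤ ∫ x, f x ^ 2 := by
  obtain ⟨h1, h2⟩ := tv_gen hh hf hf2 (Z := fun u w => Real.exp (-∫ s in (0 : ℝ)..h, V (u + w s)))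
    (wt_meas hV h) (Y := fun _ => 1) measurable_const (M := 1) (fun _ => le_rfl)
    (fun u w => by
      rw [abs_of_pos (Real.exp_pos _)]
      exact wt_le hV hh.le u w)
  refine ⟨h1, ?_⟩
  have h3 : (∫ _w : Pth, (1 : ℝ) ∂Wm) = 1 := by simp
  rw [h3, one_pow, one_mul] at h2
  exact h2

theorem tv_congr {V : ℝ → ℝ} {h : ℝ} (hh : 0 < h) {f g : ℝ → ℝ} (hf : Measurable f) (hg : Measurable g)
    (hfg : f =ᵐ[volume] g) (u : ℝ) : TV V h f u = TV V h g u := by
  unfold TV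
  refine integral_congr_ae ?_
  have hset : MeasurableSet {x : ℝ | ¬ f x = g x} := (measurableSet_eq_fun hf hg).compl
  have hN : ∀ᵐ w ∂Wm, f (u + w h) = g (u + w h) := by
    rw [ae_iff]
    have h0 : Measurable fun w : Pth => u + w h := (Pth.measurable_apply h).const_add u
    have h1 : Wm {w : Pth | ¬ f (u + w h) = g (u + w h)} =
        ∫⁻ w, {x : ℝ | ¬ f x = g x}.indicator (fun _ => (1 : ℝ≥0∞)) (u + w h) ∂Wm := by
      rw [← lintegral_map (f := {x : ℝ | ¬ f x = g x}.indicator (fun _ => (1 : ℝ≥0∞)))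
        (g := fun w : Pth => u + w h) (measurable_const.indicator hset) h0,
        lintegral_indicator hset, setLIntegral_one, Measure.map_apply h0 hset]
      rfl
    have h2 := Dtv_lint hh (g := {x : ℝ | ¬ f x = g x}.indicator (fun _ => (1 : ℝ≥0∞)))
      (measurable_const.indicator hset) u
    have h3 : ∫⁻ x, {x : ℝ | ¬ f x = g x}.indicator (fun _ => (1 : ℝ≥0∞)) x = 0 := by
      rw [lintegral_indicator hset, setLIntegral_one]
      exact hfg
    rw [h3, mul_zero] at h2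
    rw [h1]
    exact le_antisymm h2 bot_le
  filter_upwards [hN] with w hw
  rw [hw]

end Pool.H50.BB
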