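import Pool.Agent.H50.BB.Defs2
import Pool.Agent.H50.BB.Brf

/-!
# Row Gmk: Markov property and monotonicity of Gm; the two potentials   (about 150 lines)

`Gm_markov` (`r ≤ q ≤ t`): with `a = q - r`: `w (s - r)` for `s ≤ q` depends on `stop a w`; for `s ≥ q`: `w (s - r) = w a + (shift a w)(s - q)`; split the interval integral and use
`lintegral_stop_shift` (H4/BM/Wiener); measurability of everything (continuous `c`, continuous paths).
`Gm_mono`: pointwise monotone.  `Gm_const_mul`.
`c0 s y = β (|y|/(√2 max s 1))^α`, continuous (positive exponent, denominators `≥ √2`), `≥ 0`, `Continuous (Function.uncurry ..)`; same for `cfl` (products of continuous functions).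
`cfl_le_c0`: `cfl ≤ c0` when `C ≥ 0`: `max 0 (1 - C..) ≤ 1` and `min |y| _ ≤ |y|`.
-/

open MeasureTheory ProbabilityTheory Set Filter Topology
open scoped NNReal ENNReal

namespace Pool.H50.BB

open Pool.Agent.H4.BM

/-- measurability of the exponent -/
theorem gmk_expo {Ω : Type*} [MeasurableSpace Ω] {c : ℝ → ℝ → ℝ} (hc : Continuous (Function.uncurry c))
    {a b ρ η : Ω → ℝ} {Φ : Ω → Pth} (ha : Measurable a) (hb : Measurable b) (hρ : Measurable ρ)
    (hη : Measurable η) (hΦ : Measurable Φ) :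
    Measurable fun ω => ∫ s in a ω..b ω, c s (η ω + Φ ω (s - ρ ω)) := by
  have hF : Measurable fun z : Ω × ℝ => c z.2 (η z.1 + Φ z.1 (z.2 - ρ z.1)) := by
    have h1 : Measurable fun z : Ω × ℝ => Φ z.1 (z.2 - ρ z.1) :=
      Pth.measurable_eval (Φ := fun z : Ω × ℝ => Φ z.1) (hΦ.comp measurable_fst)
        (measurable_snd.sub (hρ.comp measurable_fst))
    exact hc.measurable.comp (measurable_snd.prodMk ((hη.comp measurable_fst).add h1))
  have key : ∀ {a b : Ω → ℝ}, Measurable a → Measurable b →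
      Measurable fun ω => ∫ s in Ioc (a ω) (b ω), c s (η ω + Φ ω (s - ρ ω)) := by
    intro a b ha hb
    have h : (fun ω => ∫ s in Ioc (a ω) (b ω), c s (η ω + Φ ω (s - ρ ω))) = fun ω =>
        ∫ s, (fun z : Ω × ℝ => if a z.1 < z.2 ∧ z.2 ≤ b z.1 then
          c z.2 (η z.1 + Φ z.1 (z.2 - ρ z.1)) else 0) (ω, s) := by
      funext ω
      rw [← integral_indicator measurableSet_Ioc]
      congr 1
      funext s
      simp only [indicator, mem_Ioc]
    rw [h]
    have h3 : Measurable (fun z : Ω × ℝ => if a z.1 < z.2 ∧ z.2 ≤ b z.1 then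
          c z.2 (η z.1 + Φ z.1 (z.2 - ρ z.1)) else 0) := by
      refine Measurable.ite ?_ hF measurable_const
      exact (measurableSet_lt (ha.comp measurable_fst) measurable_snd).inter
        (measurableSet_le measurable_snd (hb.comp measurable_fst))
    exact (StronglyMeasurable.integral_prod_right' h3.stronglyMeasurable).measurable
  unfold intervalIntegral
  exact (key ha hb).sub (key hb ha)

/-- measurability of the weight -/
theorem gmk_wt {Ω : Type*} [MeasurableSpace Ω] {c : ℝ → ℝ → ℝ} (hc : Continuous (Function.uncurry c))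
    {a b ρ η : Ω → ℝ} {Φ : Ω → Pth} (ha : Measurable a) (hb : Measurable b) (hρ : Measurable ρ)
    (hη : Measurable η) (hΦ : Measurable Φ) :
    Measurable fun ω => ENNReal.ofReal (Real.exp (-∫ s in a ω..b ω, c s (η ω + Φ ω (s - ρ ω)))) :=
  (Real.measurable_exp.comp (gmk_expo hc ha hb hρ hη hΦ).neg).ennreal_ofReal

theorem Gm_self {c : ℝ → ℝ → ℝ} (r : ℝ) (f : ℝ → ℝ≥0∞) (y : ℝ) : Gm c r r f y = f y := by
  unfold Gm
  simp

theorem Gm_measurable {c : ℝ → ℝ → ℝ} (hc : Continuous (Function.uncurry c)) {f : ℝ → ℝ≥0∞} (hf : Measurable f) :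
    Measurable fun p : ℝ × ℝ × ℝ => Gm c p.1 p.2.1 f p.2.2 := by
  unfold Gm
  have h : Measurable fun z : (ℝ × ℝ × ℝ) × Pth =>
      ENNReal.ofReal (Real.exp (-∫ s in z.1.1..z.1.2.1, c s (z.1.2.2 + z.2 (s - z.1.1)))) *
        f (z.1.2.2 + z.2 (z.1.2.1 - z.1.1)) := by
    have m1 : Measurable fun z : (ℝ × ℝ × ℝ) × Pth => z.1.1 := by fun_prop
    have m2 : Measurable fun z : (ℝ × ℝ × ℝ) × Pth => z.1.2.1 := by fun_prop
    have m3 : Measurable fun z : (ℝ × ℝ × ℝ) × Pth => z.1.2.2 := by fun_prop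
    have m4 : Measurable fun z : (ℝ × ℝ × ℝ) × Pth => z.2 := measurable_snd
    refine (gmk_wt hc m1 m2 m1 m3 m4).mul (hf.comp (m3.add ?_))
    exact Pth.measurable_eval m4 (m2.sub m1)
  exact h.lintegral_prod_right'

theorem gmk_path_cont {c : ℝ → ℝ → ℝ} (hc : Continuous (Function.uncurry c)) (y r : ℝ) (w : Pth) :
    Continuous fun s => c s (y + w (s - r)) := by
  have h1 : Continuous fun s : ℝ => w (s - r) := w.continuous.comp (continuous_id.sub continuous_const)
  exact hc.comp (continuous_id.prodMk (continuous_const.add h1))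

theorem Gm_markov {c : ℝ → ℝ → ℝ} (hc : Continuous (Function.uncurry c)) {f : ℝ → ℝ≥0∞} (hf : Measurable f)
    {r q t : ℝ} (hrq : r ≤ q) (hqt : q ≤ t) (y : ℝ) : Gm c r t f y = Gm c r q (fun z => Gm c q t f z) y := by
  obtain ⟨a, ha⟩ : ∃ a : ℝ≥0, (a : ℝ) = q - r := ⟨⟨q - r, by linarith⟩, rfl⟩
  let G : Pth × Pth → ℝ≥0∞ := fun p =>
    ENNReal.ofReal (Real.exp (-∫ s in r..q, c s (y + p.1 (s - r)))) *
      (ENNReal.ofReal (Real.exp (-∫ s in q..t, c s ((y + p.1 a) + p.2 (s - q)))) *
        f ((y + p.1 a) + p.2 (t - q)))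
  have mA : Measurable fun p : Pth × Pth => y + p.1 a :=
    measurable_const.add ((Pth.measurable_apply a).comp measurable_fst)
  have hG : Measurable G := by
    refine (gmk_wt hc measurable_const measurable_const measurable_const measurable_const
      measurable_fst).mul ((gmk_wt hc measurable_const measurable_const measurable_const mA
      measurable_snd).mul (hf.comp (mA.add ?_)))
    exact (Pth.measurable_apply (t - q)).comp measurable_snd
  have e1 : Gm c r t f y = ∫⁻ w, G (Pth.stop a w, Pth.shift a w) ∂Wm := by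
    unfold Gm
    refine lintegral_congr fun w => ?_
    have hs : Pth.stop a w a = w a := by rw [Pth.stop_apply, min_self]
    have i1 : ∫ s in r..q, c s (y + Pth.stop a w (s - r)) = ∫ s in r..q, c s (y + w (s - r)) := by
      refine intervalIntegral.integral_congr fun s hsm => ?_
      rw [uIcc_of_le hrq] at hsm
      rw [Pth.stop_apply, min_eq_left (by rw [ha]; linarith [hsm.2])]
    have i2 : ∫ s in q..t, c s ((y + Pth.stop a w a) + Pth.shift a w (s - q)) =
        ∫ s in q..t, c s (y + w (s - r)) := by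
      refine intervalIntegral.integral_congr fun s hsm => ?_
      rw [uIcc_of_le hqt] at hsm
      rw [hs, Pth.shift_apply_of_nonneg _ _ (by linarith [hsm.1])]
      congr 1
      have : (a : ℝ) + (s - q) = s - r := by rw [ha]; ring
      rw [this]
      ring
    have i3 : (y + Pth.stop a w a) + Pth.shift a w (t - q) = y + w (t - r) := by
      rw [hs, Pth.shift_apply_of_nonneg _ _ (by linarith)]
      have : (a : ℝ) + (t - q) = t - r := by rw [ha]; ring
      rw [this]
      ring
    show _ = ENNReal.ofReal (Real.exp (-∫ s in r..q, c s (y + Pth.stop a w (s - r)))) *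
      (ENNReal.ofReal (Real.exp (-∫ s in q..t, c s ((y + Pth.stop a w a) + Pth.shift a w (s - q)))) *
        f ((y + Pth.stop a w a) + Pth.shift a w (t - q)))
    rw [i1, i2, i3, ← mul_assoc, ← ENNReal.ofReal_mul (Real.exp_pos _).le, ← Real.exp_add]
    congr 3
    have hi := gmk_path_cont hc y r w
    rw [← intervalIntegral.integral_add_adjacent_intervals (hi.intervalIntegrable r q)
      (hi.intervalIntegrable q t)]
    ring
  rw [e1, lintegral_stop_shift Wm_isW a hG]
  unfold Gm
  refine lintegral_congr fun w => ?_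
  have hs : Pth.stop a w a = w a := by rw [Pth.stop_apply, min_self]
  have i1 : ∫ s in r..q, c s (y + Pth.stop a w (s - r)) = ∫ s in r..q, c s (y + w (s - r)) := by
    refine intervalIntegral.integral_congr fun s hsm => ?_
    rw [uIcc_of_le hrq] at hsm
    rw [Pth.stop_apply, min_eq_left (by rw [ha]; linarith [hsm.2])]
  show ∫⁻ B, ENNReal.ofReal (Real.exp (-∫ s in r..q, c s (y + Pth.stop a w (s - r)))) *
      (ENNReal.ofReal (Real.exp (-∫ s in q..t, c s ((y + Pth.stop a w a) + B (s - q)))) *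
        f ((y + Pth.stop a w a) + B (t - q))) ∂Wm = _
  rw [i1, hs, ha]
  refine lintegral_const_mul _ ?_
  refine (gmk_wt hc measurable_const measurable_const measurable_const measurable_const
      measurable_id).mul (hf.comp (measurable_const.add ?_))
  exact Pth.measurable_apply (t - q)

theorem Gm_mono {c c' : ℝ → ℝ → ℝ} (hc : Continuous (Function.uncurry c)) (hc' : Continuous (Function.uncurry c'))
    {f f' : ℝ → ℝ≥0∞} {r t : ℝ} (hrt : r ≤ t) (hcc : ∀ s, r ≤ s → s ≤ t → ∀ y, c' s y ≤ c s y) (hff : ∀ y, f y ≤ f' y)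
    (y : ℝ) : Gm c r t f y ≤ Gm c' r t f' y := by
  unfold Gm
  refine lintegral_mono fun w => ?_
  refine mul_le_mul' (ENNReal.ofReal_le_ofReal (Real.exp_le_exp.2 (neg_le_neg ?_))) (hff _)
  exact intervalIntegral.integral_mono_on hrt ((gmk_path_cont hc' y r w).intervalIntegrable _ _)
    ((gmk_path_cont hc y r w).intervalIntegrable _ _) fun s hs => hcc s hs.1 hs.2 _

theorem Gm_const_mul {c : ℝ → ℝ → ℝ} (hc : Continuous (Function.uncurry c)) {f : ℝ → ℝ≥0∞} (hf : Measurable f)
    (a : ℝ≥0∞) (r t y : ℝ) : Gm c r t (fun z => a * f z) y = a * Gm c r t f y := by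
  unfold Gm
  rw [← lintegral_const_mul]
  · refine lintegral_congr fun w => ?_
    ring
  · refine (gmk_wt hc measurable_const measurable_const measurable_const measurable_const
      measurable_id).mul (hf.comp (measurable_const.add ?_))
    exact Pth.measurable_apply (t - r)

theorem gmk_pos (s : ℝ) : 0 < √2 * max s 1 := by
  have h1 : (0 : ℝ) < max s 1 := lt_of_lt_of_le one_pos (le_max_right _ _)
  have h2 : (0 : ℝ) < √2 := Real.sqrt_pos.2 (by norm_num)
  positivity

theorem c0_cont {α : ℝ} (hα : 0 < α) (β : ℝ) : Continuous (Function.uncurry (c0 α β)) := by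
  unfold c0 Function.uncurry
  refine continuous_const.mul (Continuous.rpow_const ?_ fun x => Or.inr hα.le)
  refine Continuous.div (by fun_prop) (by fun_prop) fun x => (gmk_pos x.1).ne'

theorem c0_nonneg {α β : ℝ} (hβ : 0 ≤ β) (s y : ℝ) : 0 ≤ c0 α β s y := by
  unfold c0
  have := gmk_pos s
  exact mul_nonneg hβ (Real.rpow_nonneg (by positivity) _)

theorem cfl_cont {α : ℝ} (hα : 0 < α) (β C ζ η : ℝ) : Continuous (Function.uncurry (cfl α β C ζ η)) := by
  unfold cfl Function.uncurry
  have hm : ∀ x : ℝ × ℝ, max x.1 1 ≠ 0 := fun x =>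
    (lt_of_lt_of_le one_pos (le_max_right x.1 (1 : ℝ))).ne'
  have h1 : ∀ e : ℝ, Continuous fun x : ℝ × ℝ => (max x.1 1) ^ e := fun e =>
    Continuous.rpow_const (by fun_prop) fun x => Or.inl (hm x)
  refine Continuous.mul ?_ (continuous_const.mul (Continuous.rpow_const ?_ fun x => Or.inr hα.le))
  · exact continuous_const.max (continuous_const.sub (continuous_const.mul (h1 _)))
  · refine Continuous.div ?_ (by fun_prop) fun x => (gmk_pos x.1).ne'
    exact (continuous_abs.comp continuous_snd).min (h1 _)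

theorem gmk_min_nonneg (s y e : ℝ) : 0 ≤ min |y| ((max s 1) ^ e) := by
  have h1 : (0 : ℝ) < max s 1 := lt_of_lt_of_le one_pos (le_max_right _ _)
  exact le_min (abs_nonneg _) (Real.rpow_nonneg h1.le _)

theorem cfl_nonneg {α β : ℝ} (hβ : 0 ≤ β) (C ζ η s y : ℝ) : 0 ≤ cfl α β C ζ η s y := by
  unfold cfl
  have h1 := gmk_pos s
  have h2 := gmk_min_nonneg s y (gam α + η)
  exact mul_nonneg (le_max_left _ _) (mul_nonneg hβ (Real.rpow_nonneg (div_nonneg h2 h1.le) _))

theorem cfl_le_c0 {α β C ζ η : ℝ} (hα : 0 < α) (hβ : 0 ≤ β) (hC : 0 ≤ C) (s y : ℝ) :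
    cfl α β C ζ η s y ≤ c0 α β s y := by
  unfold cfl c0
  have h0 : (0 : ℝ) < max s 1 := lt_of_lt_of_le one_pos (le_max_right _ _)
  have h1 := gmk_pos s
  have h2 := gmk_min_nonneg s y (gam α + η)
  have h3 : max 0 (1 - C * (max s 1) ^ (-ζ)) ≤ 1 := by
    refine max_le zero_le_one ?_
    have : 0 ≤ C * (max s 1) ^ (-ζ) := mul_nonneg hC (Real.rpow_nonneg h0.le _)
    linarith
  have h4 : β * (min |y| ((max s 1) ^ (gam α + η)) / (√2 * max s 1)) ^ α ≤
      β * (|y| / (√2 * max s 1)) ^ α := by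
    refine mul_le_mul_of_nonneg_left ?_ hβ
    refine Real.rpow_le_rpow (div_nonneg h2 h1.le) ?_ hα.le
    exact div_le_div_of_nonneg_right (min_le_left _ _) h1.le
  have h5 : 0 ≤ β * (min |y| ((max s 1) ^ (gam α + η)) / (√2 * max s 1)) ^ α :=
    mul_nonneg hβ (Real.rpow_nonneg (div_nonneg h2 h1.le) _)
  calc _ ≤ 1 * (β * (min |y| ((max s 1) ^ (gam α + η)) / (√2 * max s 1)) ^ α) :=
        mul_le_mul_of_nonneg_right h3 h5
    _ ≤ _ := by rw [one_mul]; exact h4

end Pool.H50.BB
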