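import Pool.Agent.H50.BB.Idf
import Pool.Agent.H50.BB.Bcm
import Pool.Agent.H50.BB.Bmk
import Pool.Agent.H50.BB.Gmk

/-!
# Row Ils: the last stage   (about 170 lines)

`Δ = t - t1 > 0`.
`ilast`: `S = {w | ∃ s ∈ Icc 0 Δ, R/8 ≤ |w s|}`, `Wm S ≤ ofReal (4 exp (-(R/8)²/(2Δ))) = ofReal (4 exp (-R²/(128Δ)))` (`sup_tail`, Bmk.lean).  For every `w` the integrand is `≤ ofReal (exp (-(m Δ))) + S.indicator 1 w`:
on `S` it is `≤ 1` (`c ≥ 0`, `far ≤ 1`).  Off `S`, if `far R (..) ≠ 0`, i.e. `R ≤ |y + w Δ + ν Δ|`, then for `s ∈ [t1,t]`, `σ = s - t1`: `|y + w σ + ν σ| ≥ R - |w Δ - w σ| - |ν|(Δ - σ) ≥ R - R/4 - R/4 = R/2`, so `m ≤ c s (..)`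
and `∫_{t1}^t c ≥ m Δ` (continuous integrand, `gmk_path_cont`-like).  Integrate (`lintegral_add_left`, `lintegral_indicator_one_le`).
`gm_last`: `ch ν z = (ofReal (exp (ν z)) + ofReal (exp (-(ν z)))) / 2`, so `Gm c t1 t (ch ν * far R) y = (1/2) ∑_{σ = ±ν} ∫⁻ w, ofReal (exp (σ (y + w Δ))) * G w dWm`,
`G w = ofReal (exp (-∫_{t1}^t c s (y + w (s-t1)) ds)) * far R (y + w Δ)`, and by `cm_lin` (Bcm.lean; `T = ⟨Δ,_⟩`, `μ = σ`; `G (stop T w) = G w`)
`∫⁻ w, ofReal (exp (σ (y + w Δ))) * G w = ofReal (exp (σ y + σ² Δ/2)) * ∫⁻ w, G (addP (lineP σ) w) ≤ ofReal (exp (σ y + σ²Δ/2)) * δ` by `ilast` with `σ` (`|σ| = |ν|`; `lineP σ r = σ r` for `r ≥ 0`).  Sum: `cosh (ν y) exp (ν²Δ/2) δ`.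
-/

open MeasureTheory ProbabilityTheory Set Filter Topology
open scoped NNReal ENNReal

namespace Pool.H50.BB

open Pool.Agent.H4.BM

theorem Ils_far_le (R z : ℝ) : far R z ≤ 1 := by
  unfold far
  by_cases h : z ∈ {z : ℝ | R ≤ |z|}
  · rw [indicator_of_mem h]
  · rw [indicator_of_notMem h]
    exact zero_le

theorem Ils_far_zero {R z : ℝ} (h : ¬ R ≤ |z|) : far R z = 0 := by
  unfold far
  exact indicator_of_notMem (s := {z : ℝ | R ≤ |z|}) h (fun _ => (1 : ℝ≥0∞))

theorem Ils_far_meas (R : ℝ) : Measurable (far R) := by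
  unfold far
  exact (measurable_const : Measurable fun _ : ℝ => (1 : ℝ≥0∞)).indicator
    (measurableSet_le measurable_const continuous_abs.measurable)

theorem Ils_cont {c : ℝ → ℝ → ℝ} (hc : Continuous (Function.uncurry c)) (y ν t1 : ℝ) (w : Pth) :
    Continuous fun s => c s (y + (w (s - t1) + ν * (s - t1))) := by
  have h1 : Continuous fun s : ℝ => w (s - t1) := w.continuous.comp (continuous_id.sub continuous_const)
  exact hc.comp (continuous_id.prodMk (continuous_const.add (h1.add (by fun_prop))))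

theorem ilast {c : ℝ → ℝ → ℝ} (hc : Continuous (Function.uncurry c)) (hc0 : ∀ s y, 0 ≤ c s y) {t1 t R ν m : ℝ}
    (ht : t1 < t) (hR : 0 < R) (hν : |ν| * (t - t1) ≤ R / 4)
    (hm : ∀ s ∈ Icc t1 t, ∀ y, R / 2 ≤ |y| → m ≤ c s y) (y : ℝ) :
    ∫⁻ w, ENNReal.ofReal (Real.exp (-∫ s in t1..t, c s (y + (w (s - t1) + ν * (s - t1))))) *
        far R (y + (w (t - t1) + ν * (t - t1))) ∂Wm ≤
      ENNReal.ofReal (Real.exp (-(m * (t - t1))) + 4 * Real.exp (-R ^ 2 / (128 * (t - t1)))) := by
  have hΔ : 0 < t - t1 := by linarith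
  set S : Set Pth := {w | ∃ s ∈ Icc (0 : ℝ) (t - t1), R / 8 ≤ |w s|} with hS
  set S' : Set Pth := toMeasurable Wm S with hS'
  have hSS : S ⊆ S' := subset_toMeasurable _ _
  have hSm : MeasurableSet S' := measurableSet_toMeasurable _ _
  have hst := sup_tail (T := t - t1) (R := R / 8) hΔ (by positivity)
  have hWS : Wm S' ≤ ENNReal.ofReal (4 * Real.exp (-R ^ 2 / (128 * (t - t1)))) := by
    rw [hS', measure_toMeasurable]
    refine hst.trans (le_of_eq ?_)
    congr 3
    field_simp
    norm_num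
  have key : ∀ w : Pth, ENNReal.ofReal (Real.exp (-∫ s in t1..t, c s (y + (w (s - t1) + ν * (s - t1))))) *
        far R (y + (w (t - t1) + ν * (t - t1))) ≤
      ENNReal.ofReal (Real.exp (-(m * (t - t1)))) + S'.indicator (fun _ => 1) w := by
    intro w
    have hi0 : 0 ≤ ∫ s in t1..t, c s (y + (w (s - t1) + ν * (s - t1))) :=
      intervalIntegral.integral_nonneg ht.le fun s _ => hc0 _ _
    by_cases hw : w ∈ S
    · rw [indicator_of_mem (hSS hw)]
      refine le_trans ?_ le_add_self
      refine (mul_le_mul' ?_ (Ils_far_le _ _)).trans (le_of_eq (one_mul 1))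
      rw [← ENNReal.ofReal_one]
      refine ENNReal.ofReal_le_ofReal ?_
      rw [← Real.exp_zero]
      exact Real.exp_le_exp.2 (by linarith)
    · refine le_trans ?_ le_self_add
      by_cases hf : R ≤ |y + (w (t - t1) + ν * (t - t1))|
      · refine (mul_le_mul' (le_refl _) (Ils_far_le _ _)).trans ?_
        rw [mul_one]
        refine ENNReal.ofReal_le_ofReal (Real.exp_le_exp.2 (neg_le_neg ?_))
        have hb : ∀ s ∈ Icc (0 : ℝ) (t - t1), |w s| < R / 8 := by
          intro s hs
          by_contra hcon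
          exact hw ⟨s, hs, not_lt.1 hcon⟩
        have hmc : ∀ s ∈ Icc t1 t, m ≤ c s (y + (w (s - t1) + ν * (s - t1))) := by
          intro s hs
          refine hm s hs _ ?_
          have h1 := hb (s - t1) ⟨by linarith [hs.1], by linarith [hs.2]⟩
          have h2 := hb (t - t1) ⟨hΔ.le, le_rfl⟩
          have h3 : |ν * (t - s)| ≤ R / 4 := by
            rw [abs_mul, abs_of_nonneg (show 0 ≤ t - s by linarith [hs.2])]
            refine le_trans (mul_le_mul_of_nonneg_left ?_ (abs_nonneg _)) hν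
            linarith [hs.1]
          have h4 : y + (w (t - t1) + ν * (t - t1)) = (y + (w (s - t1) + ν * (s - t1))) +
              (w (t - t1) + (-(w (s - t1)) + ν * (t - s))) := by ring
          have h5 : |y + (w (t - t1) + ν * (t - t1))| ≤ |y + (w (s - t1) + ν * (s - t1))| +
              (|w (t - t1)| + (|w (s - t1)| + |ν * (t - s)|)) := by
            rw [h4]
            refine (abs_add_le _ _).trans (add_le_add_right ?_ _)
            refine (abs_add_le _ _).trans (add_le_add_right ?_ _)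
            refine (abs_add_le _ _).trans (le_of_eq ?_)
            rw [abs_neg]
          linarith
        have h6 : ∫ _ in t1..t, m = m * (t - t1) := by
          rw [intervalIntegral.integral_const, smul_eq_mul]
          ring
        rw [← h6]
        exact intervalIntegral.integral_mono_on ht.le (continuous_const.intervalIntegrable _ _)
          ((Ils_cont hc y ν t1 w).intervalIntegrable _ _) hmc
      · rw [Ils_far_zero hf, mul_zero]
        exact zero_le
  refine (lintegral_mono key).trans ?_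
  rw [lintegral_add_left measurable_const, lintegral_const, measure_univ, mul_one,
    lintegral_indicator_const hSm, one_mul, ENNReal.ofReal_add (Real.exp_pos _).le (by positivity)]
  exact add_le_add_right hWS _

theorem Ils_tilt {c : ℝ → ℝ → ℝ} (hc : Continuous (Function.uncurry c)) (hc0 : ∀ s y, 0 ≤ c s y) {t1 t R m : ℝ}
    (ht : t1 < t) (hR : 0 < R) {σ : ℝ} (hν : |σ| * (t - t1) ≤ R / 4)
    (hm : ∀ s ∈ Icc t1 t, ∀ y, R / 2 ≤ |y| → m ≤ c s y) (y : ℝ) :
    ∫⁻ w, ENNReal.ofReal (Real.exp (σ * (y + w (t - t1)))) *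
        (ENNReal.ofReal (Real.exp (-∫ s in t1..t, c s (y + w (s - t1)))) *
          far R (y + w (t - t1))) ∂Wm ≤
      ENNReal.ofReal (Real.exp (σ * y + σ ^ 2 * (t - t1) / 2)) *
        ENNReal.ofReal (Real.exp (-(m * (t - t1))) + 4 * Real.exp (-R ^ 2 / (128 * (t - t1)))) := by
  obtain ⟨T, hT⟩ : ∃ T : ℝ≥0, (T : ℝ) = t - t1 := ⟨⟨t - t1, by linarith⟩, rfl⟩
  let G : Pth → ℝ≥0∞ := fun w => ENNReal.ofReal (Real.exp (-∫ s in t1..t, c s (y + w (s - t1)))) *
    far R (y + w (t - t1))
  have hG : Measurable G := by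
    refine (gmk_wt hc measurable_const measurable_const measurable_const measurable_const
      measurable_id).mul ((Ils_far_meas R).comp (measurable_const.add ?_))
    exact Pth.measurable_apply (t - t1)
  have hstop : ∀ w : Pth, G (Pth.stop T w) = G w := by
    intro w
    have i1 : ∫ s in t1..t, c s (y + Pth.stop T w (s - t1)) = ∫ s in t1..t, c s (y + w (s - t1)) := by
      refine intervalIntegral.integral_congr fun s hsm => ?_
      rw [uIcc_of_le ht.le] at hsm
      rw [Pth.stop_apply, min_eq_left (by rw [hT]; linarith [hsm.2])]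
    have i2 : Pth.stop T w (t - t1) = w (t - t1) := by
      rw [Pth.stop_apply, min_eq_left hT.ge]
    show ENNReal.ofReal (Real.exp (-∫ s in t1..t, c s (y + Pth.stop T w (s - t1)))) *
      far R (y + Pth.stop T w (t - t1)) = _
    rw [i1, i2]
  have hline : ∀ w : Pth, G (addP (lineP σ) w) =
      ENNReal.ofReal (Real.exp (-∫ s in t1..t, c s (y + (w (s - t1) + σ * (s - t1))))) *
        far R (y + (w (t - t1) + σ * (t - t1))) := by
    intro w
    have ha : ∀ r : ℝ, 0 ≤ r → addP (lineP σ) w r = w r + σ * r := by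
      intro r hr
      show w r + σ * max r 0 = _
      rw [max_eq_left hr]
    have i1 : ∫ s in t1..t, c s (y + addP (lineP σ) w (s - t1)) =
        ∫ s in t1..t, c s (y + (w (s - t1) + σ * (s - t1))) := by
      refine intervalIntegral.integral_congr fun s hsm => ?_
      rw [uIcc_of_le ht.le] at hsm
      rw [ha _ (by linarith [hsm.1])]
    show ENNReal.ofReal (Real.exp (-∫ s in t1..t, c s (y + addP (lineP σ) w (s - t1)))) *
      far R (y + addP (lineP σ) w (t - t1)) = _
    rw [i1, ha _ (by linarith)]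
  have hcm := cm_lin σ T hG
  simp only [hstop] at hcm
  have e1 : ∀ w : Pth, ENNReal.ofReal (Real.exp (σ * (y + w (t - t1)))) * G w =
      ENNReal.ofReal (Real.exp (σ * y + σ ^ 2 * (t - t1) / 2)) *
        (ENNReal.ofReal (Real.exp (σ * w T - σ ^ 2 * T / 2)) * G w) := by
    intro w
    have hx : ENNReal.ofReal (Real.exp (σ * (y + w (t - t1)))) =
        ENNReal.ofReal (Real.exp (σ * y + σ ^ 2 * (t - t1) / 2)) *
        ENNReal.ofReal (Real.exp (σ * w T - σ ^ 2 * T / 2)) := by
      rw [← ENNReal.ofReal_mul (Real.exp_pos _).le, ← Real.exp_add, hT]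
      congr 2
      ring
    rw [hx, mul_assoc]
  show ∫⁻ w, ENNReal.ofReal (Real.exp (σ * (y + w (t - t1)))) * G w ∂Wm ≤ _
  simp only [e1]
  rw [lintegral_const_mul]
  · refine mul_le_mul' (le_refl _) ?_
    rw [← hcm]
    simp only [hline]
    exact ilast hc hc0 ht hR hν hm y
  · refine Measurable.mul ?_ hG
    exact (Real.measurable_exp.comp (((Pth.measurable_apply _).const_mul _).sub
      measurable_const)).ennreal_ofReal

theorem gm_last {c : ℝ → ℝ → ℝ} (hc : Continuous (Function.uncurry c)) (hc0 : ∀ s y, 0 ≤ c s y) {t1 t R ν m : ℝ}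
    (ht : t1 < t) (hR : 0 < R) (hν : |ν| * (t - t1) ≤ R / 4)
    (hm : ∀ s ∈ Icc t1 t, ∀ y, R / 2 ≤ |y| → m ≤ c s y) (y : ℝ) :
    Gm c t1 t (fun z => ch ν z * far R z) y ≤
      ENNReal.ofReal (Real.exp (ν ^ 2 * (t - t1) / 2) * Real.cosh (ν * y) *
        (Real.exp (-(m * (t - t1))) + 4 * Real.exp (-R ^ 2 / (128 * (t - t1))))) := by
  have h1 := Ils_tilt hc hc0 ht hR (σ := ν) hν hm y
  have h2 := Ils_tilt hc hc0 ht hR (σ := -ν) (by rw [abs_neg]; exact hν) hm y
  set δ : ℝ := Real.exp (-(m * (t - t1))) + 4 * Real.exp (-R ^ 2 / (128 * (t - t1))) with hδ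
  have hδ0 : 0 ≤ δ := by positivity
  let G : Pth → ℝ≥0∞ := fun w => ENNReal.ofReal (Real.exp (-∫ s in t1..t, c s (y + w (s - t1)))) *
    far R (y + w (t - t1))
  have hG : Measurable G := by
    refine (gmk_wt hc measurable_const measurable_const measurable_const measurable_const
      measurable_id).mul ((Ils_far_meas R).comp (measurable_const.add ?_))
    exact Pth.measurable_apply (t - t1)
  have hE : ∀ σ : ℝ, Measurable fun w : Pth => ENNReal.ofReal (Real.exp (σ * (y + w (t - t1)))) := by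
    intro σ
    exact (Real.measurable_exp.comp ((measurable_const.add
      (Pth.measurable_apply _)).const_mul _)).ennreal_ofReal
  have e1 : Gm c t1 t (fun z => ch ν z * far R z) y = ∫⁻ w, ENNReal.ofReal (1 / 2) *
      (ENNReal.ofReal (Real.exp (ν * (y + w (t - t1)))) * G w +
        ENNReal.ofReal (Real.exp (-ν * (y + w (t - t1)))) * G w) ∂Wm := by
    unfold Gm
    refine lintegral_congr fun w => ?_
    have h3 : ch ν (y + w (t - t1)) = ENNReal.ofReal (1 / 2) *
        (ENNReal.ofReal (Real.exp (ν * (y + w (t - t1)))) +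
          ENNReal.ofReal (Real.exp (-ν * (y + w (t - t1))))) := by
      unfold ch
      rw [← ENNReal.ofReal_add (Real.exp_pos _).le (Real.exp_pos _).le,
        ← ENNReal.ofReal_mul (by norm_num), Real.cosh_eq]
      congr 1
      rw [neg_mul]
      ring
    show ENNReal.ofReal (Real.exp (-∫ s in t1..t, c s (y + w (s - t1)))) *
      (ch ν (y + w (t - t1)) * far R (y + w (t - t1))) = _
    rw [h3]
    show _ = ENNReal.ofReal (1 / 2) *
      (ENNReal.ofReal (Real.exp (ν * (y + w (t - t1)))) *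
        (ENNReal.ofReal (Real.exp (-∫ s in t1..t, c s (y + w (s - t1)))) *
          far R (y + w (t - t1))) +
        ENNReal.ofReal (Real.exp (-ν * (y + w (t - t1)))) *
        (ENNReal.ofReal (Real.exp (-∫ s in t1..t, c s (y + w (s - t1)))) *
          far R (y + w (t - t1))))
    ring
  have m1 : ∀ σ : ℝ, Measurable fun w : Pth =>
      ENNReal.ofReal (Real.exp (σ * (y + w (t - t1)))) * G w := fun σ => (hE σ).mul hG
  have m2 : Measurable fun w : Pth => ENNReal.ofReal (Real.exp (ν * (y + w (t - t1)))) * G w +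
      ENNReal.ofReal (Real.exp (-ν * (y + w (t - t1)))) * G w := (m1 ν).add (m1 (-ν))
  rw [e1, lintegral_const_mul _ m2, lintegral_add_left (m1 ν)]
  refine (mul_le_mul' (le_refl _) (add_le_add h1 h2)).trans (le_of_eq ?_)
  rw [← ENNReal.ofReal_mul (Real.exp_pos _).le, ← ENNReal.ofReal_mul (Real.exp_pos _).le,
    ← ENNReal.ofReal_add (by positivity) (by positivity), ← ENNReal.ofReal_mul (by norm_num),
    Real.cosh_eq, Real.exp_add, Real.exp_add]
  congr 1
  rw [neg_mul, neg_sq]
  ring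

end Pool.H50.BB
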