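import Pool.Agent.H50.BB.Ich
import Pool.Agent.H50.BB.Ils

/-!
# Row Iam: both stages together   (about 90 lines)

`Δ = t - t1`, `δ = exp (-(mΔ)) + 4 exp (-R²/(128Δ))`, `f z = ch ν z * far R z` (measurable).
`Gm c s1 t f y = Gm c s1 t1 (Gm c t1 t f) y` (`Gm_markov`) `≤ Gm c s1 t1 (fun z => ofReal (exp (ν²Δ/2) δ) * ch ν z) y` (`gm_last`, `Gm_mono` with the same potential) `= ofReal (exp (ν²Δ/2) δ) * Gm c s1 t1 (ch ν) y` (`Gm_const_mul`)
`≤ ofReal (exp (ν²Δ/2) δ) * ofReal (exp (ν² (t1-s1)/2) cosh (ν y)) * Gm c s1 t1 1 y` (`cosh_gm`) `≤ ofReal (exp (ν²Δ/2) δ exp (ν²(t1-s1)/2) N) * ch ν y` (`hN`).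
Integrate at `y = w s1`: `∫⁻ w, ch ν (w s1) dWm = ofReal (exp (ν² s1/2))` (`ch_heat` with `y = 0`).  The exponents cancel: `-ν²t/2 + ν²Δ/2 + ν²(t1-s1)/2 + ν²s1/2 = 0`.
-/

open MeasureTheory ProbabilityTheory Set Filter Topology
open scoped NNReal ENNReal

namespace Pool.H50.BB

open Pool.Agent.H4.BM

theorem iam_ch_meas (ν : ℝ) : Measurable (ch ν) := by
  unfold ch
  exact (Real.measurable_cosh.comp (measurable_const.mul measurable_id)).ennreal_ofReal

theorem iam_far_meas (R : ℝ) : Measurable (far R) := by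
  have h : MeasurableSet {z : ℝ | R ≤ |z|} := measurableSet_le measurable_const measurable_abs
  exact (measurable_const.indicator h : Measurable (({z : ℝ | R ≤ |z|}).indicator fun _ => (1 : ℝ≥0∞)))

theorem ireg2 {c : ℝ → ℝ → ℝ} (hc : Continuous (Function.uncurry c)) (hc0 : ∀ s y, 0 ≤ c s y)
    (hcev : ∀ s y, c s (-y) = c s y) (hcm : ∀ s y y', 0 ≤ y → y ≤ y' → c s y ≤ c s y') {s1 t1 t R ν m N : ℝ}
    (hs1 : 0 ≤ s1) (h1 : s1 ≤ t1) (h2 : t1 < t) (hR : 0 < R) (hν : |ν| * (t - t1) ≤ R / 4)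
    (hm : ∀ s ∈ Icc t1 t, ∀ y, R / 2 ≤ |y| → m ≤ c s y) (hN0 : 0 ≤ N)
    (hN : ∀ y, Gm c s1 t1 (fun _ => 1) y ≤ ENNReal.ofReal N) :
    ENNReal.ofReal (Real.exp (-(ν ^ 2 * t / 2))) * ∫⁻ w, Gm c s1 t (fun z => ch ν z * far R z) (w s1) ∂Wm ≤
      ENNReal.ofReal (N * (Real.exp (-(m * (t - t1))) + 4 * Real.exp (-R ^ 2 / (128 * (t - t1))))) := by
  set δ : ℝ := Real.exp (-(m * (t - t1))) + 4 * Real.exp (-R ^ 2 / (128 * (t - t1))) with hδ
  have hδ0 : 0 ≤ δ := by positivity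
  have hf : Measurable fun z => ch ν z * far R z := (iam_ch_meas ν).mul (iam_far_meas R)
  have hA : ∀ y, Gm c s1 t (fun z => ch ν z * far R z) y ≤
      ENNReal.ofReal (Real.exp (ν ^ 2 * (t - t1) / 2) * δ * Real.exp (ν ^ 2 * (t1 - s1) / 2) * N) *
        ch ν y := by
    intro y
    rw [Gm_markov hc hf h1 h2.le y]
    have s1' : Gm c s1 t1 (fun z => Gm c t1 t (fun z => ch ν z * far R z) z) y ≤
        Gm c s1 t1 (fun z => ENNReal.ofReal (Real.exp (ν ^ 2 * (t - t1) / 2) * δ) * ch ν z) y := by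
      refine Gm_mono hc hc h1 (fun _ _ _ _ => le_rfl) (fun z => ?_) y
      refine (gm_last hc hc0 h2 hR hν hm z).trans (le_of_eq ?_)
      unfold ch
      rw [← ENNReal.ofReal_mul (by positivity)]
      congr 1
      rw [← hδ]
      ring
    refine s1'.trans ?_
    rw [Gm_const_mul hc (iam_ch_meas ν)]
    have s2 := cosh_gm hc hc0 hcev hcm ν h1 y
    have s3 : ENNReal.ofReal (Real.exp (ν ^ 2 * (t1 - s1) / 2) * Real.cosh (ν * y)) *
        Gm c s1 t1 (fun _ => 1) y ≤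
        ENNReal.ofReal (Real.exp (ν ^ 2 * (t1 - s1) / 2) * Real.cosh (ν * y)) * ENNReal.ofReal N :=
      mul_le_mul' le_rfl (hN y)
    refine (mul_le_mul' le_rfl (s2.trans s3)).trans (le_of_eq ?_)
    unfold ch
    have hc1 : 0 < Real.cosh (ν * y) := Real.cosh_pos _
    rw [← ENNReal.ofReal_mul (by positivity), ← ENNReal.ofReal_mul (by positivity),
      ← ENNReal.ofReal_mul (by positivity)]
    congr 1
    ring
  have hB : ∫⁻ w, ch ν (w s1) ∂Wm = ENNReal.ofReal (Real.exp (ν ^ 2 * s1 / 2)) := by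
    have h := ch_heat ν 0 hs1
    simp only [zero_add, mul_zero, Real.cosh_zero, mul_one] at h
    exact h
  have hm1 : Measurable fun w : Pth => ch ν (w s1) :=
    (iam_ch_meas ν).comp (Pth.measurable_apply s1)
  calc ENNReal.ofReal (Real.exp (-(ν ^ 2 * t / 2))) *
        ∫⁻ w, Gm c s1 t (fun z => ch ν z * far R z) (w s1) ∂Wm
      ≤ ENNReal.ofReal (Real.exp (-(ν ^ 2 * t / 2))) *
        ∫⁻ w, ENNReal.ofReal (Real.exp (ν ^ 2 * (t - t1) / 2) * δ *
          Real.exp (ν ^ 2 * (t1 - s1) / 2) * N) * ch ν (w s1) ∂Wm :=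
        mul_le_mul' le_rfl (lintegral_mono fun w => hA (w s1))
    _ = ENNReal.ofReal (N * δ) := by
        rw [lintegral_const_mul _ hm1, hB, ← ENNReal.ofReal_mul (by positivity),
          ← ENNReal.ofReal_mul (by positivity)]
        congr 1
        have e : Real.exp (-(ν ^ 2 * t / 2)) * (Real.exp (ν ^ 2 * (t - t1) / 2) *
            (Real.exp (ν ^ 2 * (t1 - s1) / 2) * Real.exp (ν ^ 2 * s1 / 2))) = 1 := by
          rw [← Real.exp_add, ← Real.exp_add, ← Real.exp_add]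
          rw [Real.exp_eq_one_iff]
          ring
        calc Real.exp (-(ν ^ 2 * t / 2)) * (Real.exp (ν ^ 2 * (t - t1) / 2) * δ *
              Real.exp (ν ^ 2 * (t1 - s1) / 2) * N * Real.exp (ν ^ 2 * s1 / 2))
            = (Real.exp (-(ν ^ 2 * t / 2)) * (Real.exp (ν ^ 2 * (t - t1) / 2) *
              (Real.exp (ν ^ 2 * (t1 - s1) / 2) * Real.exp (ν ^ 2 * s1 / 2)))) * (N * δ) := by ring
          _ = N * δ := by rw [e, one_mul]

end Pool.H50.BB
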