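import Pool.Agent.H50.BB.Idf
import Pool.Agent.H50.BB.Kpf

/-!
# Row Icf: properties of cfl   (about 110 lines)

`cfl α β C ζ η s y = max 0 (1 - C (max s 1)^(-ζ)) * (β (min |y| ((max s 1)^(γ+η)) / (√2 max s 1))^α)`.
`cfl_even`: `abs_neg`.  `cfl_mono`: `min |y|` is monotone in `|y|`, `Real.rpow_le_rpow`, all factors `≥ 0`.
`cfl_low`: `e = min η (g/2)`, `g = gg α = 1 - 2γ`, `γ = gam α`, so `γ + g/2 = 1/2`.  Take `t0 ≥ 2` with `C (t/2)^(-ζ) ≤ 1/2` for `t ≥ t0` (`C ≥ 0`, `ζ > 0`).  Let `t/2 ≤ s ≤ t`, so `max s 1 = s`, and `ρ√t ≤ |y|`: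
`max 0 (1 - C s^(-ζ)) ≥ 1/2`; `|y| ≥ ρ t^(1/2) ≥ ρ t^(γ+e)`, `s^(γ+η) ≥ (t/2)^(γ+η) ≥ 2^(-(γ+η)) t^(γ+e)`; with `c0 = min ρ (2^(-(γ+η)))`: `min |y| (s^(γ+η)) / (√2 s) ≥ c0 t^(γ+e) / (√2 t) = (c0/√2) t^(γ+e-1)`, so
`cfl ≥ (β/2) (c0/√2)^α t^(α(γ+e-1))` and `α(γ-1) = -2γ` (`γ = α/(2+α)`), i.e. the exponent is `-2γ + αe`.  `c = (β/2)(c0/√2)^α`.
-/

open MeasureTheory ProbabilityTheory Set Filter Topology
open scoped NNReal ENNReal

namespace Pool.H50.BB

theorem cfl_even (α β C ζ η s y : ℝ) : cfl α β C ζ η s (-y) = cfl α β C ζ η s y := by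
  unfold cfl
  rw [abs_neg]

theorem cfl_mono {α β : ℝ} (hα : 0 < α) (hβ : 0 < β) (C ζ η s y y' : ℝ) (hy : 0 ≤ y) (hyy : y ≤ y') :
    cfl α β C ζ η s y ≤ cfl α β C ζ η s y' := by
  unfold cfl
  have hS : (0 : ℝ) < max s 1 := lt_of_lt_of_le one_pos (le_max_right _ _)
  have hM : 0 ≤ (max s 1) ^ (gam α + η) := Real.rpow_nonneg hS.le _
  have hD : 0 < √2 * max s 1 := by positivity
  have h1 : |y| ≤ |y'| := by
    rw [abs_of_nonneg hy, abs_of_nonneg (hy.trans hyy)]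
    exact hyy
  refine mul_le_mul_of_nonneg_left ?_ (le_max_left _ _)
  refine mul_le_mul_of_nonneg_left ?_ hβ.le
  refine Real.rpow_le_rpow ?_ ?_ hα.le
  · exact div_nonneg (le_min (abs_nonneg _) hM) hD.le
  · exact div_le_div_of_nonneg_right (min_le_min_right _ h1) hD.le

theorem cfl_low {α β C ζ η ρ : ℝ} (hα : 0 < α) (hα2 : α < 2) (hβ : 0 < β) (hC : 0 ≤ C) (hζ : 0 < ζ) (hη : 0 < η)
    (hρ : 0 < ρ) :
    ∃ c > 0, ∃ t0 ≥ (2 : ℝ), ∀ t, t0 ≤ t → ∀ s, t / 2 ≤ s → s ≤ t → ∀ y, ρ * √t ≤ |y| →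
      c * t ^ (-2 * gam α + α * min η (gg α / 2)) ≤ cfl α β C ζ η s y := by
  have h2α : 0 < 2 + α := by linarith
  have hγ : 0 < gam α := div_pos hα h2α
  have hg : 0 < gg α := div_pos (by linarith) h2α
  have hgγ : gam α + gg α / 2 = 1 / 2 := by
    unfold gam gg
    field_simp
    ring
  obtain ⟨e, he⟩ : ∃ e, e = min η (gg α / 2) := ⟨_, rfl⟩
  have he0 : 0 < e := by
    rw [he]
    exact lt_min hη (by linarith)
  have heη : e ≤ η := by
    rw [he]
    exact min_le_left _ _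
  have heg : e ≤ gg α / 2 := by
    rw [he]
    exact min_le_right _ _
  rw [← he]
  have hexp : α * (gam α + e - 1) = -2 * gam α + α * e := by
    unfold gam
    field_simp
    ring
  obtain ⟨X, hX⟩ : ∃ X : ℝ, X = (2 * C + 1) ^ (1 / ζ) := ⟨_, rfl⟩
  have hC1 : 0 < 2 * C + 1 := by linarith
  have hXpos : 0 < X := by
    rw [hX]
    exact Real.rpow_pos_of_pos hC1 _
  have hXζ : X ^ (-ζ) = (2 * C + 1)⁻¹ := by
    rw [hX, ← Real.rpow_mul hC1.le, show 1 / ζ * -ζ = -1 by field_simp, Real.rpow_neg_one]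
  obtain ⟨c1, hc1⟩ : ∃ c1 : ℝ, c1 = min ρ ((2 : ℝ) ^ (-(gam α + η))) := ⟨_, rfl⟩
  have hc1pos : 0 < c1 := by
    rw [hc1]
    exact lt_min hρ (Real.rpow_pos_of_pos two_pos _)
  have hs2 : 0 < √(2 : ℝ) := Real.sqrt_pos.2 two_pos
  refine ⟨β / 2 * (c1 / √2) ^ α, by positivity, 2 * max 1 X, ?_, ?_⟩
  · have := le_max_left (1 : ℝ) X
    linarith
  · intro t ht s hts hst y hy
    have hm1 := le_max_left (1 : ℝ) X
    have hm2 := le_max_right (1 : ℝ) X
    have ht2 : 1 ≤ t / 2 := by linarith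
    have htX : X ≤ t / 2 := by linarith
    have hs1 : 1 ≤ s := ht2.trans hts
    have hs0 : 0 < s := by linarith
    have ht0 : 0 < t := by linarith
    have ht1 : 1 ≤ t := by linarith
    have hmax : max s 1 = s := max_eq_left hs1
    unfold cfl
    rw [hmax]
    have hf1 : 1 / 2 ≤ max 0 (1 - C * s ^ (-ζ)) := by
      refine le_trans ?_ (le_max_right _ _)
      have h1 : s ^ (-ζ) ≤ (2 * C + 1)⁻¹ := by
        rw [← hXζ]
        exact Real.rpow_le_rpow_of_nonpos hXpos (htX.trans hts) (by linarith)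
      have h2 : C * s ^ (-ζ) ≤ C * (2 * C + 1)⁻¹ := mul_le_mul_of_nonneg_left h1 hC
      have h3 : C * (2 * C + 1)⁻¹ ≤ 1 / 2 := by
        rw [← div_eq_mul_inv, div_le_iff₀ hC1]
        linarith
      linarith
    have hf2 : c1 * t ^ (gam α + e) ≤ min |y| (s ^ (gam α + η)) := by
      refine le_min ?_ ?_
      · have h1 : t ^ (gam α + e) ≤ √t := by
          rw [Real.sqrt_eq_rpow]
          exact Real.rpow_le_rpow_of_exponent_le ht1 (by linarith)
        have h2 : c1 ≤ ρ := by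
          rw [hc1]
          exact min_le_left _ _
        calc c1 * t ^ (gam α + e) ≤ ρ * √t :=
              mul_le_mul h2 h1 (Real.rpow_nonneg ht0.le _) hρ.le
          _ ≤ |y| := hy
      · have h1 : t ^ (gam α + e) ≤ t ^ (gam α + η) :=
          Real.rpow_le_rpow_of_exponent_le ht1 (by linarith)
        have h2 : c1 ≤ (2 : ℝ) ^ (-(gam α + η)) := by
          rw [hc1]
          exact min_le_right _ _
        calc c1 * t ^ (gam α + e) ≤ (2 : ℝ) ^ (-(gam α + η)) * t ^ (gam α + η) :=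
              mul_le_mul h2 h1 (Real.rpow_nonneg ht0.le _) (Real.rpow_nonneg two_pos.le _)
          _ = (t / 2) ^ (gam α + η) := by
              rw [Real.div_rpow ht0.le two_pos.le, Real.rpow_neg two_pos.le]
              field_simp
          _ ≤ s ^ (gam α + η) := Real.rpow_le_rpow (by linarith) hts (by linarith)
    have hf3 : c1 / √2 * t ^ (gam α + e - 1) ≤ min |y| (s ^ (gam α + η)) / (√2 * s) := by
      have hm0 : 0 ≤ min |y| (s ^ (gam α + η)) := le_min (abs_nonneg _) (Real.rpow_nonneg hs0.le _)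
      calc c1 / √2 * t ^ (gam α + e - 1) = c1 * t ^ (gam α + e) / (√2 * t) := by
            rw [Real.rpow_sub_one ht0.ne']
            field_simp
        _ ≤ min |y| (s ^ (gam α + η)) / (√2 * t) :=
            div_le_div_of_nonneg_right hf2 (by positivity)
        _ ≤ min |y| (s ^ (gam α + η)) / (√2 * s) :=
            div_le_div_of_nonneg_left hm0 (by positivity) (mul_le_mul_of_nonneg_left hst hs2.le)
    have hf4 : (c1 / √2) ^ α * t ^ (-2 * gam α + α * e) ≤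
        (min |y| (s ^ (gam α + η)) / (√2 * s)) ^ α := by
      calc (c1 / √2) ^ α * t ^ (-2 * gam α + α * e) = (c1 / √2 * t ^ (gam α + e - 1)) ^ α := by
            rw [Real.mul_rpow (by positivity) (Real.rpow_nonneg ht0.le _), ← Real.rpow_mul ht0.le,
              ← hexp, mul_comm α]
        _ ≤ _ := Real.rpow_le_rpow (by positivity) hf3 hα.le
    calc β / 2 * (c1 / √2) ^ α * t ^ (-2 * gam α + α * e)
        = 1 / 2 * (β * ((c1 / √2) ^ α * t ^ (-2 * gam α + α * e))) := by ring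
      _ ≤ max 0 (1 - C * s ^ (-ζ)) * (β * (min |y| (s ^ (gam α + η)) / (√2 * s)) ^ α) := by
          refine mul_le_mul hf1 (mul_le_mul_of_nonneg_left hf4 hβ.le) ?_ (le_max_left _ _)
          positivity

end Pool.H50.BB
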