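import Pool.Agent.H50.BB.Idf
import Pool.Agent.H50.BB.Kpf

/-!
# Row Icv: finitely many directions   (about 150 lines)

`z = mm α β lam t + a`, `mm t = √2 t - Kpf_a * t^g - (3-γ)/(2√2) log t` (`Kpf_kap`), `0 < g < 1/2`.  For `t` large: `max t ε ≤ z ≤ 2t` (`t^g` and `log t` are `o(t)`), `t ^ (η - γ) + 1/t ≤ 1` (`η < γ`), `t ≥ 1`.
`J` = image of `Finset.Icc (-⌊π t⌋) ⌊π t⌋ : Finset ℤ` under `k ↦ (k:ℝ)/t`: `card ≤ 2⌊πt⌋ + 1 ≤ 2πt + 1 ≤ 9t`, `|ϑ| ≤ π` on `J`.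
Let `z < ‖x‖`, `x.re ≤ z - ε`, `ϑ' = arg x`, `|ϑ'| ≤ π`, `x.re = ‖x‖ cos ϑ'`, `x.im = ‖x‖ sin ϑ'` (`Complex.norm_mul_cos_arg` etc.).
`cos ϑ' = x.re/‖x‖ ≤ (z-ε)/‖x‖ ≤ (z-ε)/z = 1 - ε/z ≤ 1 - ε/(2t)` (`z - ε ≥ 0`); `1 - ϑ'²/2 ≤ cos ϑ'` (`Real.one_sub_sq_div_two_le_cos`), so `ϑ'² ≥ ε/t`, `|ϑ'| ≥ √ε/√t`.
Choose `k = ⌊|ϑ'| t⌋`, `ϑ = ± k/t` with the sign of `ϑ'` (`ϑ ∈ J`): `|ϑ| ≤ |ϑ'|`, `|ϑ' - ϑ| ≤ 1/t`, `|ϑ'| ≤ |ϑ| + 1/t`.
`cos ϑ x.re + sin ϑ x.im = ‖x‖ cos (ϑ' - ϑ) ≥ ‖x‖ (1 - 1/(2t²)) ≥ z (1 - 1/(2t²)) ≥ z - 1` (`z ≤ 2t`, `t ≥ 1`).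
`Rth`: if `|ϑ| ≤ t^(η-γ)` then `|ϑ'| ≤ t^(η-γ) + 1/t ≤ 1`, `|sin ϑ'| = sin |ϑ'| ≥ (2/π)|ϑ'| ≥ |ϑ'|/2` (`Real.mul_le_sin`), `|x.im| = ‖x‖ |sin ϑ'| ≥ t (1/2) √ε/√t = (√ε/2) √t`.  Otherwise `Rth = 0`.
-/

open MeasureTheory ProbabilityTheory Set Filter Topology
open scoped NNReal ENNReal

namespace Pool.H50.BB

theorem Icv_asym {α β lam : ℝ} (hα : 2 / 3 < α) (hα2 : α < 2) {ε η : ℝ}
    (hη : η < gam α) (a : ℝ) :
    ∃ t0 ≥ (1 : ℝ), ∀ t, t0 ≤ t → t ≤ mm α β lam t + a ∧ ε ≤ mm α β lam t + a ∧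
      mm α β lam t + a ≤ 2 * t ∧ t ^ (η - gam α) + 1 / t ≤ 1 := by
  have hg := gg_lt hα hα2
  have h1 : Tendsto (fun t : ℝ => t ^ (-(1 - gg α))) atTop (𝓝 0) := tendsto_rpow_neg_atTop (by linarith)
  have h2 : Tendsto (fun t : ℝ => Real.log t / t) atTop (𝓝 0) := by
    have := Real.isLittleO_log_id_atTop.tendsto_div_nhds_zero
    simpa using this
  have h3 : Tendsto (fun t : ℝ => 1 / t) atTop (𝓝 0) := by
    simpa using tendsto_inv_atTop_zero (𝕜 := ℝ)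
  have h4 := (((tendsto_const_nhds (x := √2)).sub (h1.const_mul (Kpf_a α β lam))).sub
    (h2.const_mul ((3 - gam α) / (2 * √2)))).add (h3.const_mul a)
  have h5 : √2 - Kpf_a α β lam * 0 - (3 - gam α) / (2 * √2) * 0 + a * 0 = √2 := by ring
  rw [h5] at h4
  have h6 : (1 : ℝ) < √2 := by
    rw [show (1 : ℝ) = √1 from Real.sqrt_one.symm]
    exact Real.sqrt_lt_sqrt (by norm_num) (by norm_num)
  have h7 : √2 < (2 : ℝ) := by
    rw [Real.sqrt_lt' (by norm_num)]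
    norm_num
  have h8 : Tendsto (fun t : ℝ => t ^ (-(gam α - η)) + 1 / t) atTop (𝓝 0) := by
    have := (tendsto_rpow_neg_atTop (y := gam α - η) (by linarith)).add h3
    simpa using this
  obtain ⟨T, hT⟩ := eventually_atTop.1 ((h4.eventually (lt_mem_nhds h6)).and ((h4.eventually (gt_mem_nhds h7)).and
    (h8.eventually (gt_mem_nhds (by norm_num : (0 : ℝ) < 1)))))
  refine ⟨max (max 1 ε) T, (le_max_left _ _).trans (le_max_left _ _), fun t ht => ?_⟩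
  have ht1 : 1 ≤ t := ((le_max_left _ _).trans (le_max_left _ _)).trans ht
  have htε : ε ≤ t := ((le_max_right _ _).trans (le_max_left _ _)).trans ht
  obtain ⟨a1, a2, a3⟩ := hT t ((le_max_right _ _).trans ht)
  have ht0 : 0 < t := by linarith
  have h9 : √2 - Kpf_a α β lam * t ^ (-(1 - gg α)) - (3 - gam α) / (2 * √2) * (Real.log t / t) + a * (1 / t) =
      (mm α β lam t + a) / t := by
    unfold mm
    rw [Kpf_kap]
    have : t ^ (-(1 - gg α)) = t ^ gg α / t := by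
      rw [show -(1 - gg α) = gg α - 1 by ring, Real.rpow_sub_one ht0.ne']
    rw [this]
    field_simp
  rw [h9] at a1 a2
  rw [lt_div_iff₀ ht0] at a1
  rw [div_lt_iff₀ ht0] at a2
  rw [show -(gam α - η) = η - gam α by ring] at a3
  refine ⟨by linarith, by linarith, by linarith, a3.le⟩

theorem Icv_geo {z ε t : ℝ} (hε : 0 < ε) (ht : 1 ≤ t) (hz : t ≤ z) (hzε : ε ≤ z) (hz2 : z ≤ 2 * t) {x : ℂ}
    (hx : z < ‖x‖) (hxr : x.re ≤ z - ε) : √ε ≤ |Complex.arg x| * √t := by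
  have hz0 : 0 < z := by linarith
  have hc := Complex.norm_mul_cos_arg x
  have h1 : Real.cos (Complex.arg x) ≤ 1 - ε / z := by
    rw [one_sub_div hz0.ne', le_div_iff₀ hz0]
    rcases le_total (Real.cos (Complex.arg x)) 0 with h | h
    · have := mul_nonpos_of_nonpos_of_nonneg h hz0.le
      linarith
    · have := mul_le_mul_of_nonneg_right hx.le h
      linarith
  have h2 : ε / (2 * t) ≤ ε / z := div_le_div_of_nonneg_left hε.le hz0 hz2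
  have h3 := Real.one_sub_sq_div_two_le_cos (x := Complex.arg x)
  have h4 : ε / (2 * t) ≤ Complex.arg x ^ 2 / 2 := by linarith
  have h5 : ε ≤ Complex.arg x ^ 2 * t := by
    rw [div_le_iff₀ (by linarith)] at h4
    linarith
  calc √ε ≤ √(Complex.arg x ^ 2 * t) := Real.sqrt_le_sqrt h5
    _ = |Complex.arg x| * √t := by rw [Real.sqrt_mul (sq_nonneg _), Real.sqrt_sq_eq_abs]

theorem Icv_floor {t s : ℝ} (ht : 1 ≤ t) (hs : |s| ≤ Real.pi) :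
    ∃ k : ℤ, -⌊Real.pi * t⌋ ≤ k ∧ k ≤ ⌊Real.pi * t⌋ ∧ |(k : ℝ) / t| ≤ |s| ∧ |s - (k : ℝ) / t| ≤ 1 / t := by
  have ht0 : 0 < t := by linarith
  have hk0 : 0 ≤ ⌊|s| * t⌋ := Int.floor_nonneg.2 (by positivity)
  have hk1 : ⌊|s| * t⌋ ≤ ⌊Real.pi * t⌋ := Int.floor_le_floor (mul_le_mul_of_nonneg_right hs ht0.le)
  have h1 : (⌊|s| * t⌋ : ℝ) ≤ |s| * t := Int.floor_le _
  have h2 : |s| * t < (⌊|s| * t⌋ : ℝ) + 1 := Int.lt_floor_add_one _
  have hk0' : (0 : ℝ) ≤ (⌊|s| * t⌋ : ℝ) := by exact_mod_cast hk0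
  have h3 : (⌊|s| * t⌋ : ℝ) / t ≤ |s| := by rw [div_le_iff₀ ht0]; exact h1
  have h4 : |s| - (⌊|s| * t⌋ : ℝ) / t ≤ 1 / t := by
    rw [sub_le_iff_le_add, ← add_div, le_div_iff₀ ht0]
    linarith
  have h5 : 0 ≤ (⌊|s| * t⌋ : ℝ) / t := by positivity
  rcases le_total 0 s with h | h
  · refine ⟨⌊|s| * t⌋, by omega, hk1, ?_, ?_⟩
    · rw [abs_of_nonneg h5]
      exact h3
    · rw [abs_of_nonneg h] at h3 h4 h5 ⊢
      rw [abs_of_nonneg (by linarith)]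
      exact h4
  · refine ⟨-⌊|s| * t⌋, by omega, by omega, ?_, ?_⟩
    · push_cast
      rw [neg_div, abs_neg, abs_of_nonneg h5]
      exact h3
    · push_cast
      rw [abs_of_nonpos h] at h3 h4 h5 ⊢
      rw [neg_div, abs_of_nonpos (by linarith)]
      linarith

theorem icover {α β lam : ℝ} (hα : 2 / 3 < α) (hα2 : α < 2) (hβ : 0 < β) (hlam : 0 < lam) {ε η : ℝ} (hε : 0 < ε)
    (hη : η < gam α) (a : ℝ) :
    ∃ t0 ≥ (1 : ℝ), ∀ t, t0 ≤ t → ∃ J : Finset ℝ, (J.card : ℝ) ≤ 9 * t ∧ (∀ ϑ ∈ J, |ϑ| ≤ Real.pi) ∧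
      ∀ x : ℂ, mm α β lam t + a < ‖x‖ → x.re ≤ mm α β lam t + a - ε →
        ∃ ϑ ∈ J, mm α β lam t + a - 1 ≤ Real.cos ϑ * x.re + Real.sin ϑ * x.im ∧ Rth α ε η t ϑ ≤ |x.im| := by
  obtain ⟨t0, ht0, hA⟩ := Icv_asym (β := β) (lam := lam) (ε := ε) hα hα2 hη a
  refine ⟨t0, ht0, fun t ht => ?_⟩
  obtain ⟨hz, hzε, hz2, hη1⟩ := hA t ht
  obtain ⟨z, hzdef⟩ : ∃ z, z = mm α β lam t + a := ⟨_, rfl⟩
  rw [← hzdef] at hz hzε hz2 ⊢
  have ht1 : 1 ≤ t := ht0.trans ht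
  have htp : 0 < t := by linarith
  have hπ := Real.pi_pos
  have hπ4 := Real.pi_le_four
  have hπt : 0 ≤ ⌊Real.pi * t⌋ := Int.floor_nonneg.2 (by positivity)
  have hfl : (⌊Real.pi * t⌋ : ℝ) ≤ Real.pi * t := Int.floor_le _
  refine ⟨(Finset.Icc (-⌊Real.pi * t⌋) ⌊Real.pi * t⌋).image (fun k : ℤ => (k : ℝ) / t), ?_, ?_, ?_⟩
  · have h1 := Finset.card_image_le (s := Finset.Icc (-⌊Real.pi * t⌋) ⌊Real.pi * t⌋) (f := fun k : ℤ => (k : ℝ) / t)
    have h2 : (Finset.Icc (-⌊Real.pi * t⌋) ⌊Real.pi * t⌋).card = (2 * ⌊Real.pi * t⌋ + 1).toNat := by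
      rw [Int.card_Icc]
      congr 1
      ring
    have h3 : (((2 * ⌊Real.pi * t⌋ + 1).toNat : ℤ) : ℝ) = 2 * (⌊Real.pi * t⌋ : ℝ) + 1 := by
      rw [Int.toNat_of_nonneg (by omega)]
      push_cast
      ring
    have h4 : (((Finset.Icc (-⌊Real.pi * t⌋) ⌊Real.pi * t⌋).image (fun k : ℤ => (k : ℝ) / t)).card : ℝ) ≤
        (((2 * ⌊Real.pi * t⌋ + 1).toNat : ℤ) : ℝ) := by
      rw [h2] at h1
      exact_mod_cast h1
    rw [h3] at h4
    nlinarith [Real.pi_lt_d2]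
  · intro ϑ hϑ
    obtain ⟨k, hk, rfl⟩ := Finset.mem_image.1 hϑ
    rw [Finset.mem_Icc] at hk
    have h1 : |(k : ℝ)| ≤ (⌊Real.pi * t⌋ : ℝ) := by
      rw [abs_le]
      constructor
      · have := hk.1
        exact_mod_cast this
      · exact_mod_cast hk.2
    show |(k : ℝ) / t| ≤ Real.pi
    rw [abs_div, abs_of_pos htp, div_le_iff₀ htp]
    linarith
  · intro x hx hxr
    have hgeo := Icv_geo hε ht1 hz hzε hz2 hx hxr
    have harg : |Complex.arg x| ≤ Real.pi := Complex.abs_arg_le_pi x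
    obtain ⟨k, hk1, hk2, hk3, hk4⟩ := Icv_floor ht1 harg
    obtain ⟨s, hs⟩ : ∃ s, s = Complex.arg x := ⟨_, rfl⟩
    have hc := Complex.norm_mul_cos_arg x
    have hsn := Complex.norm_mul_sin_arg x
    rw [← hs] at hgeo harg hk3 hk4 hc hsn
    refine ⟨(k : ℝ) / t, Finset.mem_image.2 ⟨k, Finset.mem_Icc.2 ⟨hk1, hk2⟩, rfl⟩, ?_, ?_⟩
    · obtain ⟨v, hv⟩ : ∃ v, v = (k : ℝ) / t := ⟨_, rfl⟩
      rw [← hv] at hk3 hk4 ⊢
      have h1 : Real.cos v * x.re + Real.sin v * x.im = ‖x‖ * Real.cos (s - v) := by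
        rw [← hc, ← hsn, Real.cos_sub]
        ring
      rw [h1]
      have h2 := Real.one_sub_sq_div_two_le_cos (x := s - v)
      have h3 : (s - v) ^ 2 ≤ (1 / t) ^ 2 := by
        rw [← sq_abs (s - v)]
        exact pow_le_pow_left₀ (abs_nonneg _) hk4 2
      have h4 : 1 / t ≤ 1 := by rw [div_le_one htp]; exact ht1
      have h5 : (1 / t) ^ 2 ≤ 1 / t := by
        have : 0 < 1 / t := by positivity
        nlinarith
      have h6 : 0 ≤ 1 - (1 / t) / 2 := by linarith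
      have h7 : z * (1 - (1 / t) / 2) ≤ ‖x‖ * Real.cos (s - v) := by
        have a1 : 1 - (1 / t) / 2 ≤ Real.cos (s - v) := by linarith
        have a2 : 0 ≤ ‖x‖ := norm_nonneg _
        calc z * (1 - (1 / t) / 2) ≤ ‖x‖ * (1 - (1 / t) / 2) := mul_le_mul_of_nonneg_right hx.le h6
          _ ≤ _ := mul_le_mul_of_nonneg_left a1 a2
      have h8 : z * (1 / t) ≤ 2 := by
        rw [mul_one_div, div_le_iff₀ htp]
        exact hz2
      nlinarith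
    · unfold Rth
      split_ifs with hif
      · have h1 : |s| ≤ 1 := by
          have h2 : |s| ≤ |(k : ℝ) / t| + |s - (k : ℝ) / t| := by
            have := abs_add_le ((k : ℝ) / t) (s - (k : ℝ) / t)
            rwa [add_sub_cancel] at this
          linarith
        have h2 : |s| / 2 ≤ |Real.sin s| := by
          have h3 : 2 / Real.pi * |s| ≤ |Real.sin s| := by
            have := Real.mul_abs_le_abs_sin (x := s) (by linarith [Real.pi_gt_three])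
            exact this
          have h4 : 1 / 2 ≤ 2 / Real.pi := by
            rw [div_le_div_iff₀ (by norm_num) hπ]
            linarith
          have h5 := mul_le_mul_of_nonneg_right h4 (abs_nonneg s)
          linarith
        have h3 : |x.im| = ‖x‖ * |Real.sin s| := by
          rw [← hsn, abs_mul, abs_of_nonneg (norm_nonneg x)]
        rw [h3]
        have h4 : t * (|s| / 2) ≤ ‖x‖ * |Real.sin s| :=
          mul_le_mul (by linarith) h2 (by positivity) (norm_nonneg _)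
        refine le_trans ?_ h4
        have h5 : √t * √t = t := Real.mul_self_sqrt htp.le
        have h6 : 0 ≤ √t := Real.sqrt_nonneg _
        have h7 : √t * √ε ≤ √t * (|s| * √t) := mul_le_mul_of_nonneg_left hgeo h6
        have h8 : √t * (|s| * √t) = t * |s| := by
          calc _ = (√t * √t) * |s| := by ring
            _ = _ := by rw [h5]
        linarith
      · exact abs_nonneg _

end Pool.H50.BB
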