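import Mathlib

/-!
# Row Iev: inequalities for large t   (about 90 lines, Mathlib only)

`log t = o(t^δ)` for every `δ > 0` (`isLittleO_log_rpow_atTop`), so `(log t)^4 ≤ t/2` eventually; `t^(1-2g/3) = t * t^(-2g/3) ≤ t/2` eventually.  For the fifth: `γ = (1-g)/2`, so
`t^(g/12-γ) t^(1-2g/3) = t^(1/2 - g/12)` and `√2 t^(1/2-g/12) ≤ (√ε/8) √t` iff `8√2/√ε ≤ t^(g/12)`, true eventually.  Combine with `Filter.eventually_atTop`.
-/

open Set Filter Topology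

namespace Pool.H50.BB

theorem iev {g γ ε : ℝ} (hg : 0 < g) (hg2 : g < 1 / 2) (hγ : γ = (1 - g) / 2) (hε : 0 < ε) (s0 : ℝ) :
    ∀ᶠ t : ℝ in atTop, 1 ≤ t ∧ 1 ≤ Real.log t ∧ s0 ≤ (Real.log t) ^ 4 ∧ (Real.log t) ^ 4 ≤ t - t ^ (1 - 2 * g / 3) ∧
      t / 2 ≤ t - t ^ (1 - 2 * g / 3) ∧ √2 * t ^ (g / 12 - γ) * t ^ (1 - 2 * g / 3) ≤ √ε / 2 * √t / 4 := by
  have e1 : ∀ᶠ t : ℝ in atTop, 1 ≤ Real.log t := Real.tendsto_log_atTop.eventually_ge_atTop 1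
  have e2 : ∀ᶠ t : ℝ in atTop, s0 ≤ (Real.log t) ^ 4 :=
    ((tendsto_pow_atTop (by norm_num : (4 : ℕ) ≠ 0)).comp Real.tendsto_log_atTop).eventually_ge_atTop s0
  have e3 := (isLittleO_log_rpow_atTop (r := 1 / 4) (by norm_num)).bound (c := 1 / 2) (by norm_num)
  have e4 : ∀ᶠ t : ℝ in atTop, t ^ (-(2 * g / 3)) ≤ 1 / 2 :=
    (tendsto_rpow_neg_atTop (by positivity : 0 < 2 * g / 3)).eventually (ge_mem_nhds (by norm_num))
  have e5 : ∀ᶠ t : ℝ in atTop, 8 * √2 / √ε ≤ t ^ (g / 12) :=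
    (tendsto_rpow_atTop (by positivity : 0 < g / 12)).eventually_ge_atTop _
  filter_upwards [e1, e2, e3, e4, e5, eventually_ge_atTop 1] with t h1 h2 h3 h4 h5 ht
  have ht0 : 0 < t := by linarith
  have h6 : t ^ (1 - 2 * g / 3) ≤ t / 2 := by
    rw [show (1 - 2 * g / 3) = 1 + -(2 * g / 3) by ring, Real.rpow_add ht0, Real.rpow_one]
    nlinarith
  have h7 : (Real.log t) ^ 4 ≤ t / 2 := by
    have hl : 0 ≤ Real.log t := by linarith
    rw [Real.norm_of_nonneg hl, Real.norm_of_nonneg (by positivity)] at h3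
    have h8 := pow_le_pow_left₀ hl h3 4
    have h9 : (1 / 2 * t ^ (1 / 4 : ℝ)) ^ 4 = t / 16 := by
      rw [mul_pow, ← Real.rpow_natCast (t ^ (1 / 4 : ℝ)) 4, ← Real.rpow_mul ht0.le]
      norm_num
      ring
    rw [h9] at h8
    linarith
  refine ⟨ht, h1, h2, by linarith, by linarith, ?_⟩
  have hs : 0 < √ε := Real.sqrt_pos.2 hε
  have e6 : √2 * t ^ (g / 12 - γ) * t ^ (1 - 2 * g / 3) = √2 * t ^ (1 / 2 - g / 12) := by
    rw [mul_assoc, ← Real.rpow_add ht0, hγ]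
    congr 2
    ring
  have e7 : √t = t ^ (1 / 2 - g / 12) * t ^ (g / 12) := by
    rw [← Real.rpow_add ht0, Real.sqrt_eq_rpow]
    congr 1
    ring
  rw [e6, e7]
  have hX : 0 < t ^ (1 / 2 - g / 12) := by positivity
  have h8 : 8 * √2 ≤ t ^ (g / 12) * √ε := by
    rwa [div_le_iff₀ hs] at h5
  have h9 := mul_le_mul_of_nonneg_right h8 hX.le
  nlinarith

end Pool.H50.BB
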