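import Pool.Agent.H50.BB.Idf
import Pool.Agent.H50.BB.Kpf

/-!
# Row Ilm: limits   (about 200 lines)

`lim0`: for `t > 0`, `t^A exp (..) = exp (A log t + B t^p + D (log t)² - c t^q) = exp (t^q (A log t / t^q + B t^(p-q) + D (log t)²/t^q - c))`; the bracket tends to `-c` (`log t = o(t^(q/2))`: `isLittleO_log_rpow_atTop`,
`t^(p-q) → 0`: `tendsto_rpow_neg_atTop`) and `t^q → ∞`, so the exponent tends to `-∞`.

Notation `g = gg α ∈ (0,1/2)`, `γ = gam α = (1-g)/2`, `κ0 = Kpf_a α β lam > 0`, `kap s = κ0 s^g` (`Kpf_kap`).  `2t - √2 (mm t + a - 1) = √2 κ0 t^g + ((3-γ)/2) log t + √2 (1-a)`, so for `t > 0`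
`exp (2t - √2(mm t + a - 1)) = e^{√2(1-a)} t^((3-γ)/2) exp (√2 κ0 t^g)`.

`lim_reg1`: `t (t^(g/12-γ))^α = t^(q1)`, `q1 = 1 - αγ + αg/12 = g(1+α) + αg/12 > g` (`1 - αγ = g(1+α)` since `γ = α/(2+α)`, `g = (2-α)/(2+α)`), `t (t^(g/12-γ))^2 = t^(q2)`, `q2 = 1 - 2γ + g/6 = g + g/6 > g`.
So the function is `9 e^{√2(1-a)} t^(1+(3-γ)/2) (exp (√2κ0 t^g - c t^q1) + 8 exp (√2κ0 t^g - t^q2/2048))`: `lim0` twice (`D = 0`).

`lim_reg2`: `Δ = t^(1-2g/3)`, `t1 = t - Δ`, `s1 = (log t)^4`.  Squeeze, for `t` large (`log t ≥ 1`, `Δ ≤ t/2`, `1 ≤ s1`): `(t1/s1)^(γ/2) ≤ t^(γ/2)`; `kap t - kap t1 = κ0 (t^g - t1^g) ≤ κ0 t^(g-1) Δ = κ0 t^(g/3)`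
(`(1-x)^g ≥ 1 - x` for `0 ≤ x ≤ 1`, `0 ≤ g ≤ 1`); `kap s1 = κ0 (log t)^(4g) ≤ κ0 (log t)²` (`4g ≤ 2`, `log t ≥ 1`).  `(√ε/2 √t)² / (128 Δ) = (ε/512) t^(2g/3)`, `c t^(-2γ+αe) Δ = c t^(g/3+αe)` (`1 - 2γ = g`), `e = min η (g/2) > 0`.
So `0 ≤ function ≤ 9 e^{√2(1-a)} C1 t^(1+(3-γ)/2+γ/2) (exp (√2κ0 t^(g/3) + √2κ0 (log t)² - c t^(g/3+αe)) + 4 exp (√2κ0 t^(g/3) + √2κ0 (log t)² - (ε/512) t^(2g/3)))`: `lim0` twice.
-/

open MeasureTheory ProbabilityTheory Set Filter Topology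
open scoped NNReal ENNReal

namespace Pool.H50.BB

theorem lim0 (A B D p : ℝ) {q c : ℝ} (hc : 0 < c) (hpq : p < q) (hq : 0 < q) :
    Tendsto (fun t : ℝ => t ^ A * Real.exp (B * t ^ p + D * (Real.log t) ^ 2 - c * t ^ q)) atTop (𝓝 0) := by
  set M := |A| + |B| + |D| + 1 with hM
  have hMpos : 0 < M := by positivity
  set ε := c / (2 * M) with hε
  have hεpos : 0 < ε := by positivity
  have h1 : ∀ᶠ t : ℝ in atTop, ‖Real.log t‖ ≤ ε * ‖t ^ q‖ := (isLittleO_log_rpow_atTop hq).def hεpos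
  have h2 : ∀ᶠ t : ℝ in atTop, ‖Real.log t‖ ≤ √ε * ‖t ^ (q / 2)‖ :=
    (isLittleO_log_rpow_atTop (half_pos hq)).def (Real.sqrt_pos.2 hεpos)
  have h3 : ∀ᶠ t : ℝ in atTop, t ^ (-(q - p)) < ε :=
    (tendsto_rpow_neg_atTop (sub_pos.2 hpq)).eventually (gt_mem_nhds hεpos)
  have h4 : Tendsto (fun t : ℝ => Real.exp (-(c / 2 * t ^ q))) atTop (𝓝 0) :=
    Real.tendsto_exp_neg_atTop_nhds_zero.comp
      ((tendsto_rpow_atTop hq).const_mul_atTop (half_pos hc))
  refine tendsto_of_tendsto_of_tendsto_of_le_of_le' tendsto_const_nhds h4 ?_ ?_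
  · filter_upwards [eventually_gt_atTop 0] with t ht
    positivity
  · filter_upwards [eventually_gt_atTop 0, h1, h2, h3] with t ht h1 h2 h3
    have hq0 : 0 < t ^ q := Real.rpow_pos_of_pos ht _
    have hp0 : 0 < t ^ p := Real.rpow_pos_of_pos ht _
    have hh0 : 0 < t ^ (q / 2) := Real.rpow_pos_of_pos ht _
    rw [Real.norm_of_nonneg hq0.le] at h1
    rw [Real.norm_of_nonneg hh0.le] at h2
    rw [Real.norm_eq_abs] at h1 h2
    have h5 : t ^ p ≤ ε * t ^ q := by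
      have : t ^ p = t ^ (-(q - p)) * t ^ q := by
        rw [← Real.rpow_add ht]; congr 1; ring
      rw [this]
      exact mul_le_mul_of_nonneg_right h3.le hq0.le
    have h6 : (Real.log t) ^ 2 ≤ ε * t ^ q := by
      have h7 : (Real.log t) ^ 2 ≤ (√ε * t ^ (q / 2)) ^ 2 := by
        rw [← sq_abs]
        exact pow_le_pow_left₀ (abs_nonneg _) h2 2
      rw [mul_pow, Real.sq_sqrt hεpos.le, ← Real.rpow_natCast (t ^ (q / 2)) 2,
        ← Real.rpow_mul ht.le] at h7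
      have : q / 2 * ((2 : ℕ) : ℝ) = q := by push_cast; ring
      rw [this] at h7
      exact h7
    have h7 : t ^ A = Real.exp (A * Real.log t) := by
      rw [Real.rpow_def_of_pos ht, mul_comm]
    rw [h7, ← Real.exp_add]
    apply Real.exp_le_exp.2
    have h8 : A * Real.log t ≤ |A| * (ε * t ^ q) :=
      (le_abs_self _).trans (by rw [abs_mul]; exact mul_le_mul_of_nonneg_left h1 (abs_nonneg _))
    have h9 : B * t ^ p ≤ |B| * (ε * t ^ q) :=
      (le_abs_self _).trans (by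
        rw [abs_mul, abs_of_pos hp0]; exact mul_le_mul_of_nonneg_left h5 (abs_nonneg _))
    have h10 : D * (Real.log t) ^ 2 ≤ |D| * (ε * t ^ q) :=
      (le_abs_self _).trans (by
        rw [abs_mul, abs_of_nonneg (sq_nonneg (Real.log t))]
        exact mul_le_mul_of_nonneg_left h6 (abs_nonneg _))
    have h11 : (|A| + |B| + |D|) * (ε * t ^ q) ≤ c / 2 * t ^ q := by
      have : (|A| + |B| + |D|) * ε ≤ c / 2 := by
        have h12 : M * ε = c / 2 := by
          rw [hε]; field_simp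
        rw [← h12]
        exact mul_le_mul_of_nonneg_right (by rw [hM]; linarith) hεpos.le
      nlinarith
    nlinarith

private theorem ilm_E {α β lam a t : ℝ} (ht : 0 < t) :
    Real.exp (2 * t - √2 * (mm α β lam t + a - 1)) =
      Real.exp (√2 * (1 - a)) * (t ^ ((3 - gam α) / 2) *
        Real.exp (√2 * Kpf_a α β lam * t ^ gg α)) := by
  have h7 : t ^ ((3 - gam α) / 2) = Real.exp ((3 - gam α) / 2 * Real.log t) := by
    rw [Real.rpow_def_of_pos ht, mul_comm]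
  rw [h7, ← Real.exp_add, ← Real.exp_add]
  congr 1
  unfold mm
  rw [Kpf_kap]
  have h2 : √2 * √2 = 2 := Real.mul_self_sqrt (by norm_num)
  have h3 : √2 * ((3 - gam α) / (2 * √2) * Real.log t) = (3 - gam α) / 2 * Real.log t := by
    have : √2 ≠ 0 := by positivity
    field_simp
  have h4 : √2 * (√2 * t) = 2 * t := by rw [← mul_assoc, h2]
  linear_combination h3 - h4

theorem lim_reg1 {α β lam : ℝ} (hα : 2 / 3 < α) (hα2 : α < 2) (hβ : 0 < β) (hlam : 0 < lam) (a : ℝ) {c : ℝ}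
    (hc : 0 < c) :
    Tendsto (fun t : ℝ => 9 * t * Real.exp (2 * t - √2 * (mm α β lam t + a - 1)) *
      (Real.exp (-c * (t * (t ^ (gg α / 12 - gam α)) ^ α)) +
        8 * Real.exp (-(t * (t ^ (gg α / 12 - gam α)) ^ 2) / 2048))) atTop (𝓝 0) := by
  have hα0 : 0 < α := by linarith
  have hg := Win_gg_pos hα0 hα2
  have hge := Win_gg_eq hα0
  have hga : 1 - α * gam α = gg α * (1 + α) := by
    unfold gam gg
    field_simp
    ring
  set κ0 := Kpf_a α β lam with hκ0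
  set g := gg α with hgd
  set γ := gam α with hγd
  have e1 := lim0 (1 + (3 - γ) / 2) (√2 * κ0) 0 g (q := 1 + (g / 12 - γ) * α) (c := c) hc
    (by nlinarith) (by nlinarith)
  have e2 := lim0 (1 + (3 - γ) / 2) (√2 * κ0) 0 g (q := 1 + (g / 12 - γ) * 2) (c := 1 / 2048)
    (by norm_num) (by nlinarith) (by nlinarith)
  have e3 := ((e1.add (e2.const_mul 8)).const_mul (9 * Real.exp (√2 * (1 - a))))
  have e4 : 9 * Real.exp (√2 * (1 - a)) * (0 + 8 * 0) = 0 := by ring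
  rw [e4] at e3
  refine e3.congr' ?_
  filter_upwards [eventually_gt_atTop 0] with t ht
  rw [ilm_E ht]
  have f1 : t * (t ^ (g / 12 - γ)) ^ α = t ^ (1 + (g / 12 - γ) * α) := by
    rw [← Real.rpow_mul ht.le, Real.rpow_add ht, Real.rpow_one]
  have f2 : t * (t ^ (g / 12 - γ)) ^ 2 = t ^ (1 + (g / 12 - γ) * 2) := by
    rw [← Real.rpow_natCast (t ^ (g / 12 - γ)) 2, ← Real.rpow_mul ht.le, Real.rpow_add ht,
      Real.rpow_one]
    norm_num
  have f3 : t ^ (1 + (3 - γ) / 2) = t * t ^ ((3 - γ) / 2) := by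
    rw [Real.rpow_add ht, Real.rpow_one]
  rw [f1, f2, f3]
  have f4 : Real.exp (√2 * κ0 * t ^ g + 0 * (Real.log t) ^ 2 - c * t ^ (1 + (g / 12 - γ) * α)) =
      Real.exp (√2 * κ0 * t ^ g) * Real.exp (-c * t ^ (1 + (g / 12 - γ) * α)) := by
    rw [← Real.exp_add]; congr 1; ring
  have f5 : Real.exp (√2 * κ0 * t ^ g + 0 * (Real.log t) ^ 2 -
      1 / 2048 * t ^ (1 + (g / 12 - γ) * 2)) =
      Real.exp (√2 * κ0 * t ^ g) * Real.exp (-t ^ (1 + (g / 12 - γ) * 2) / 2048) := by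
    rw [← Real.exp_add]; congr 1; ring
  rw [f4, f5]
  ring

theorem lim_reg2 {α β lam : ℝ} (hα : 2 / 3 < α) (hα2 : α < 2) (hβ : 0 < β) (hlam : 0 < lam) (a : ℝ) {c C1 η ε : ℝ}
    (hc : 0 < c) (hC1 : 0 < C1) (hη : 0 < η) (hε : 0 < ε) :
    Tendsto (fun t : ℝ => 9 * t * Real.exp (2 * t - √2 * (mm α β lam t + a - 1)) *
      (C1 * NN α β lam ((Real.log t) ^ 4) (t - t ^ (1 - 2 * gg α / 3)) *
        (Real.exp (-(c * t ^ (-2 * gam α + α * min η (gg α / 2)) * t ^ (1 - 2 * gg α / 3))) +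
          4 * Real.exp (-(√ε / 2 * √t) ^ 2 / (128 * t ^ (1 - 2 * gg α / 3)))))) atTop (𝓝 0) := by
  have hα0 : 0 < α := by linarith
  have hg := Win_gg_pos hα0 hα2
  have hg2 := gg_lt hα hα2
  have hge := Win_gg_eq hα0
  have hγ := Win_gam_pos hα0
  have hκ := Kpf_a_pos hα0 hα2 hβ hlam
  set κ0 := Kpf_a α β lam with hκ0
  set g := gg α with hgd
  set γ := gam α with hγd
  set e := min η (g / 2) with hed
  have he : 0 < e := lt_min hη (by linarith)
  have hαe : 0 < α * e := mul_pos hα0 he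
  have e1 := lim0 (1 + (3 - γ) / 2 + γ / 2) (√2 * κ0) (√2 * κ0) (g / 3) (q := g / 3 + α * e) (c := c) hc
    (by linarith) (by linarith)
  have e2 := lim0 (1 + (3 - γ) / 2 + γ / 2) (√2 * κ0) (√2 * κ0) (g / 3) (q := 2 * g / 3) (c := ε / 512)
    (by positivity) (by linarith) (by linarith)
  have e3 := ((e1.add (e2.const_mul 4)).const_mul (9 * Real.exp (√2 * (1 - a)) * C1))
  have e4 : 9 * Real.exp (√2 * (1 - a)) * C1 * (0 + 4 * 0) = 0 := by ring
  rw [e4] at e3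
  have hlog : ∀ᶠ t : ℝ in atTop, 1 ≤ Real.log t :=
    Real.tendsto_log_atTop.eventually (eventually_ge_atTop 1)
  refine tendsto_of_tendsto_of_tendsto_of_le_of_le' tendsto_const_nhds e3 ?_ ?_
  · filter_upwards [eventually_ge_atTop 1, hlog] with t ht hl
    have ht0 : 0 < t := by linarith
    have hΔ : t ^ (1 - 2 * g / 3) ≤ t := by
      conv_rhs => rw [← Real.rpow_one t]
      exact Real.rpow_le_rpow_of_exponent_le ht (by linarith)
    unfold NN
    have : 0 ≤ (t - t ^ (1 - 2 * g / 3)) / Real.log t ^ 4 := div_nonneg (by linarith) (by positivity)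
    positivity
  · filter_upwards [eventually_ge_atTop 1, hlog] with t ht hl
    have ht0 : 0 < t := by linarith
    have hΔ0 : 0 < t ^ (1 - 2 * g / 3) := Real.rpow_pos_of_pos ht0 _
    have hΔ : t ^ (1 - 2 * g / 3) ≤ t := by
      conv_rhs => rw [← Real.rpow_one t]
      exact Real.rpow_le_rpow_of_exponent_le ht (by linarith)
    have hs1 : 1 ≤ Real.log t ^ 4 := one_le_pow₀ hl
    set t1 := t - t ^ (1 - 2 * g / 3) with ht1
    have ht10 : 0 ≤ t1 := by linarith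
    rw [ilm_E ht0]
    -- the factor NN
    have hN : NN α β lam ((Real.log t) ^ 4) t1 ≤ t ^ (γ / 2) *
        Real.exp (-(√2 * κ0 * t1 ^ g) + √2 * κ0 * (Real.log t) ^ 2) := by
      unfold NN
      refine mul_le_mul ?_ ?_ (Real.exp_pos _).le (Real.rpow_nonneg ht0.le _)
      · refine Real.rpow_le_rpow (div_nonneg ht10 (by positivity)) ?_ (by positivity)
        rw [div_le_iff₀ (by positivity)]
        nlinarith
      · apply Real.exp_le_exp.2
        rw [Kpf_kap, Kpf_kap]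
        have h1 : (Real.log t ^ 4) ^ g ≤ (Real.log t) ^ 2 := by
          rw [← Real.rpow_natCast (Real.log t) 4, ← Real.rpow_mul (by linarith),
            ← Real.rpow_natCast (Real.log t) 2]
          refine Real.rpow_le_rpow_of_exponent_le hl ?_
          push_cast
          linarith
        have h2 : 0 < √2 * κ0 := by positivity
        have h3 := mul_le_mul_of_nonneg_left h1 h2.le
        have h4 : -√2 * (κ0 * t1 ^ g - κ0 * (Real.log t ^ 4) ^ g) =
          -(√2 * κ0 * t1 ^ g) + √2 * κ0 * (Real.log t ^ 4) ^ g := by ring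
        show -√2 * (κ0 * t1 ^ g - κ0 * (Real.log t ^ 4) ^ g) ≤ _
        rw [h4]
        linarith
    have hd : t ^ g - t1 ^ g ≤ t ^ (g / 3) := by
      have hx : t1 = t * (1 - t ^ (-(2 * g / 3))) := by
        rw [ht1, mul_sub, mul_one]
        congr 1
        rw [show (1 : ℝ) - 2 * g / 3 = 1 + -(2 * g / 3) by ring, Real.rpow_add ht0, Real.rpow_one]
      have hx1 : t ^ (-(2 * g / 3)) ≤ 1 := Real.rpow_le_one_of_one_le_of_nonpos ht (by linarith)
      have hx0 : 0 < t ^ (-(2 * g / 3)) := Real.rpow_pos_of_pos ht0 _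
      have h1 : 1 - t ^ (-(2 * g / 3)) ≤ (1 - t ^ (-(2 * g / 3))) ^ g := by
        conv_lhs => rw [← Real.rpow_one (1 - t ^ (-(2 * g / 3)))]
        exact Real.rpow_le_rpow_of_exponent_ge' (by linarith) (by linarith) hg.le (by linarith)
      have h2 : t ^ (g / 3) = t ^ g * t ^ (-(2 * g / 3)) := by
        rw [← Real.rpow_add ht0]; congr 1; ring
      rw [hx, Real.mul_rpow ht0.le (by linarith), h2]
      have h3 : 0 < t ^ g := Real.rpow_pos_of_pos ht0 _
      nlinarith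
    have f1 : c * t ^ (-2 * γ + α * e) * t ^ (1 - 2 * g / 3) = c * t ^ (g / 3 + α * e) := by
      rw [mul_assoc, ← Real.rpow_add ht0]
      congr 2
      linarith
    have f2 : -(√ε / 2 * √t) ^ 2 / (128 * t ^ (1 - 2 * g / 3)) = -(ε / 512 * t ^ (2 * g / 3)) := by
      have h1 : (√ε / 2 * √t) ^ 2 = ε * t / 4 := by
        rw [mul_pow, div_pow, Real.sq_sqrt hε.le, Real.sq_sqrt ht0.le]; ring
      have h2 : t = t ^ (2 * g / 3) * t ^ (1 - 2 * g / 3) := by
        rw [← Real.rpow_add ht0]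
        conv_lhs => rw [← Real.rpow_one t]
        congr 1; ring
      rw [h1]
      have h3 : ε * t / 4 = ε * (t ^ (2 * g / 3) * t ^ (1 - 2 * g / 3)) / 4 := by rw [← h2]
      rw [h3]
      field_simp
      norm_num
    rw [f1, f2]
    set P1 := Real.exp (-(c * t ^ (g / 3 + α * e))) with hP1
    set P2 := Real.exp (-(ε / 512 * t ^ (2 * g / 3))) with hP2
    have hP1p : 0 < P1 := Real.exp_pos _
    have hP2p : 0 < P2 := Real.exp_pos _
    have g1 : Real.exp (√2 * κ0 * t ^ (g / 3) + √2 * κ0 * Real.log t ^ 2 - c * t ^ (g / 3 + α * e)) =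
        Real.exp (√2 * κ0 * t ^ (g / 3) + √2 * κ0 * Real.log t ^ 2) * P1 := by
      rw [hP1, ← Real.exp_add]; congr 1
    have g2 : Real.exp (√2 * κ0 * t ^ (g / 3) + √2 * κ0 * Real.log t ^ 2 - ε / 512 * t ^ (2 * g / 3)) =
        Real.exp (√2 * κ0 * t ^ (g / 3) + √2 * κ0 * Real.log t ^ 2) * P2 := by
      rw [hP2, ← Real.exp_add]; congr 1
    rw [g1, g2]
    have g3 : t ^ (1 + (3 - γ) / 2 + γ / 2) = t * t ^ ((3 - γ) / 2) * t ^ (γ / 2) := by
      rw [Real.rpow_add ht0, Real.rpow_add ht0, Real.rpow_one]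
    rw [g3]
    have g4 : Real.exp (√2 * κ0 * t ^ g) *
        Real.exp (-(√2 * κ0 * t1 ^ g) + √2 * κ0 * (Real.log t) ^ 2) ≤
        Real.exp (√2 * κ0 * t ^ (g / 3) + √2 * κ0 * Real.log t ^ 2) := by
      rw [← Real.exp_add]
      apply Real.exp_le_exp.2
      have h2 : 0 < √2 * κ0 := by positivity
      have h3 := mul_le_mul_of_nonneg_left hd h2.le
      linarith
    have hT : 0 < t ^ ((3 - γ) / 2) := Real.rpow_pos_of_pos ht0 _
    have hT2 : 0 < t ^ (γ / 2) := Real.rpow_pos_of_pos ht0 _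
    calc 9 * t * (Real.exp (√2 * (1 - a)) * (t ^ ((3 - γ) / 2) * Real.exp (√2 * κ0 * t ^ g))) *
          (C1 * NN α β lam ((Real.log t) ^ 4) t1 * (P1 + 4 * P2))
        ≤ 9 * t * (Real.exp (√2 * (1 - a)) * (t ^ ((3 - γ) / 2) * Real.exp (√2 * κ0 * t ^ g))) *
          (C1 * (t ^ (γ / 2) * Real.exp (-(√2 * κ0 * t1 ^ g) + √2 * κ0 * (Real.log t) ^ 2)) *
            (P1 + 4 * P2)) := by
          refine mul_le_mul_of_nonneg_left ?_ (by positivity)
          refine mul_le_mul_of_nonneg_right ?_ (by positivity)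
          exact mul_le_mul_of_nonneg_left hN hC1.le
      _ = 9 * t * Real.exp (√2 * (1 - a)) * t ^ ((3 - γ) / 2) * C1 * t ^ (γ / 2) * (P1 + 4 * P2) *
          (Real.exp (√2 * κ0 * t ^ g) *
            Real.exp (-(√2 * κ0 * t1 ^ g) + √2 * κ0 * (Real.log t) ^ 2)) := by ring
      _ ≤ 9 * t * Real.exp (√2 * (1 - a)) * t ^ ((3 - γ) / 2) * C1 * t ^ (γ / 2) * (P1 + 4 * P2) *
          Real.exp (√2 * κ0 * t ^ (g / 3) + √2 * κ0 * Real.log t ^ 2) :=
          mul_le_mul_of_nonneg_left g4 (by positivity)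
      _ = _ := by ring

end Pool.H50.BB
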