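import Pool.Agent.H50.BB.Iar
import Pool.Agent.H50.BB.Bmk

/-!
# Row Ir1: directions far from 0   (about 130 lines)

`c1` from `q_low` (Iar.lean), `c = c1 / (2 * 2^α)`.  `ID ≤ ∫⁻ w, ofReal (exp (-I w)) dW2`, `I w = ∫_0^t (1 - b(arg (dp ϑ w r))) dr ≥ 0` (drop the restriction; `a12_rate`: `b ≤ 1`).
Bad event `B = {w | (∃ s ∈ Icc 0 t, t|ϑ|/32 ≤ |w.1 s|) ∨ (∃ s ∈ Icc 0 t, t|ϑ|/32 ≤ |w.2 s|)}`.  `ofReal (exp (-I w)) ≤ ofReal (exp (-c t|ϑ|^α)) + B.indicator 1 w` for every `w`: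
on `B` as `I ≥ 0`; off `B`: for `r ∈ [t/2,t]`, `dp ϑ w r = pt w r + ⟨√2 cos ϑ r, √2 sin ϑ r⟩`, `‖pt w r‖ ≤ |w.1 r| + |w.2 r| ≤ t|ϑ|/16 ≤ r|ϑ|/8`, so `|arg (dp ϑ w r)| ≥ |ϑ|/2` (`arg_stab`), and by `q_low`
`1 - b(arg ..) ≥ c1 (|ϑ|/2)^α`; `I w ≥ ∫_{t/2}^t (1-b) ≥ (t/2) c1 (|ϑ|/2)^α = c t |ϑ|^α`  (`1 - b ≥ 0` on `[0,t/2]`; interval integrable: bounded and measurable in `r`).
`W2 B ≤ 2 * 4 exp (-(t|ϑ|/32)²/(2t)) = 8 exp (-tϑ²/2048)` by `sup_tail` (Bmk.lean) in each coordinate (`W2 {w | w.1 ∈ S} = Wm S`, `measure_union_le`; no measurability of `B` is needed if you bound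
`∫⁻ (c + B.indicator 1) ≤ c + W2 B` with `lintegral_indicator_one_le`, otherwise use `B` = complement of `Blw`-type sets, `blw_meas`).
-/

open MeasureTheory ProbabilityTheory Set Filter Topology
open scoped NNReal ENNReal

namespace Pool.H50.BB

open Pool.Agent.H4.BM

theorem Ir1_dp (ϑ : ℝ) (w : P2) (r : ℝ) :
    dp ϑ w r = pt w r + ⟨√2 * Real.cos ϑ * r, √2 * Real.sin ϑ * r⟩ := by
  apply Complex.ext <;> simp [dp, pt]

theorem Ir1_cont (ϑ : ℝ) (w : P2) : Continuous fun r : ℝ => dp ϑ w r := by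
  have h : (fun r : ℝ => dp ϑ w r) = fun r => Complex.equivRealProdCLM.symm
      (w.1 r + √2 * Real.cos ϑ * r, w.2 r + √2 * Real.sin ϑ * r) := by
    funext r
    apply Complex.ext <;> simp [dp]
  rw [h]
  refine Complex.equivRealProdCLM.symm.continuous.comp (Continuous.prodMk ?_ ?_)
  · exact w.1.continuous.add (continuous_const.mul continuous_id)
  · exact w.2.continuous.add (continuous_const.mul continuous_id)

theorem Ir1_ii {b : ℝ → ℝ} (hb : Rate b) (ϑ : ℝ) (w : P2) (s t : ℝ) :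
    IntervalIntegrable (fun r => 1 - b (Complex.arg (dp ϑ w r))) volume s t := by
  apply IntervalIntegrable.mono_fun (g := fun r => 1 - b (Complex.arg (dp ϑ w r)))
    (f := fun _ => (1 : ℝ)) intervalIntegrable_const
  · exact (measurable_const.sub ((hb.cont.measurable.comp Complex.measurable_arg).comp
      (Ir1_cont ϑ w).measurable)).aestronglyMeasurable
  · refine Filter.Eventually.of_forall fun r => ?_
    simp only [Real.norm_eq_abs, abs_one]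
    rw [abs_le]
    have h1 := hb.nonneg (Complex.arg (dp ϑ w r))
    have h2 := hb.le_one (Complex.arg (dp ϑ w r))
    constructor <;> linarith

theorem Ir1_B {t Rv : ℝ} (ht : 0 < t) (hR : 0 < Rv) :
    W2 ({w : P2 | ∃ s ∈ Icc (0 : ℝ) t, Rv ≤ |w.1 s|} ∪ {w : P2 | ∃ s ∈ Icc (0 : ℝ) t, Rv ≤ |w.2 s|})
      ≤ ENNReal.ofReal (8 * Real.exp (-Rv ^ 2 / (2 * t))) := by
  have h := sup_tail ht hR
  have e1 : {w : P2 | ∃ s ∈ Icc (0 : ℝ) t, Rv ≤ |w.1 s|} =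
      {w : Pth | ∃ s ∈ Icc (0 : ℝ) t, Rv ≤ |w s|} ×ˢ univ := by
    ext w
    simp
  have e2 : {w : P2 | ∃ s ∈ Icc (0 : ℝ) t, Rv ≤ |w.2 s|} =
      univ ×ˢ {w : Pth | ∃ s ∈ Icc (0 : ℝ) t, Rv ≤ |w s|} := by
    ext w
    simp
  refine (measure_union_le _ _).trans ?_
  unfold W2
  rw [e1, e2, Measure.prod_prod, Measure.prod_prod, measure_univ, mul_one, one_mul]
  refine (add_le_add h h).trans (le_of_eq ?_)
  rw [← ENNReal.ofReal_add (by positivity) (by positivity)]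
  congr 1
  ring

theorem reg1 {b : ℝ → ℝ} {α β : ℝ} (hα : 0 < α) (hα2 : α < 2) (hβ : 0 < β) (h : A12 b α β) :
    ∃ c > 0, ∀ ϑ K R t : ℝ, |ϑ| ≤ Real.pi → 0 < |ϑ| → 0 < t →
      ID b ϑ K R t ≤ ENNReal.ofReal (Real.exp (-c * (t * |ϑ| ^ α)) + 8 * Real.exp (-(t * ϑ ^ 2) / 2048)) := by
  obtain ⟨c1, hc1, hlow⟩ := q_low hα hα2 hβ h
  have hrate := a12_rate hα h
  refine ⟨c1 / (2 * 2 ^ α), by positivity, fun ϑ K R t hϑ hϑ0 ht => ?_⟩
  have hRv : 0 < t * |ϑ| / 32 := by positivity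
  set B : Set P2 := {w : P2 | ∃ s ∈ Icc (0 : ℝ) t, t * |ϑ| / 32 ≤ |w.1 s|} ∪
    {w : P2 | ∃ s ∈ Icc (0 : ℝ) t, t * |ϑ| / 32 ≤ |w.2 s|} with hBdef
  have hB : W2 B ≤ ENNReal.ofReal (8 * Real.exp (-(t * ϑ ^ 2) / 2048)) := by
    have h1 := Ir1_B ht hRv
    have h2 : -(t * |ϑ| / 32) ^ 2 / (2 * t) = -(t * ϑ ^ 2) / 2048 := by
      rw [div_pow, mul_pow, sq_abs]
      field_simp
      ring
    rwa [h2] at h1
  have hq0 : ∀ w : P2, ∀ r : ℝ, 0 ≤ 1 - b (Complex.arg (dp ϑ w r)) := fun w r => by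
    linarith [hrate.le_one (Complex.arg (dp ϑ w r))]
  have hI0 : ∀ w : P2, 0 ≤ ∫ r in (0 : ℝ)..t, (1 - b (Complex.arg (dp ϑ w r))) := fun w =>
    intervalIntegral.integral_nonneg ht.le fun r _ => hq0 w r
  have hI : ∀ w : P2, w ∉ B →
      c1 / (2 * 2 ^ α) * (t * |ϑ| ^ α) ≤ ∫ r in (0 : ℝ)..t, (1 - b (Complex.arg (dp ϑ w r))) := by
    intro w hw
    have hsmall : ∀ r ∈ Icc (0 : ℝ) t, |w.1 r| < t * |ϑ| / 32 ∧ |w.2 r| < t * |ϑ| / 32 := by
      intro r hr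
      constructor
      · by_contra hc
        exact hw (Or.inl ⟨r, hr, not_lt.1 hc⟩)
      · by_contra hc
        exact hw (Or.inr ⟨r, hr, not_lt.1 hc⟩)
    have hstep : ∀ r ∈ Icc (t / 2) t,
        c1 * (|ϑ| / 2) ^ α ≤ 1 - b (Complex.arg (dp ϑ w r)) := by
      intro r hr
      have hr0 : 0 < r := by linarith [hr.1]
      obtain ⟨h1, h2⟩ := hsmall r ⟨hr0.le, hr.2⟩
      have h3 : ‖pt w r‖ ≤ r * |ϑ| / 8 := by
        have h4 : ‖pt w r‖ ≤ |(pt w r).re| + |(pt w r).im| := Complex.norm_le_abs_re_add_abs_im _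
        have h5 : |(pt w r).re| + |(pt w r).im| = |w.1 r| + |w.2 r| := rfl
        have h6 : t * |ϑ| ≤ 2 * r * |ϑ| := by
          have := hr.1
          nlinarith
        rw [h5] at h4
        linarith
      have h7 := arg_stab hϑ hr0 h3
      rw [← Ir1_dp] at h7
      have h8 := hlow (Complex.arg (dp ϑ w r)) (Complex.abs_arg_le_pi _)
      refine le_trans (mul_le_mul_of_nonneg_left ?_ hc1.le) h8
      exact Real.rpow_le_rpow (by positivity) h7 hα.le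
    have hsplit : ∫ r in (0 : ℝ)..t, (1 - b (Complex.arg (dp ϑ w r))) =
        (∫ r in (0 : ℝ)..(t / 2), (1 - b (Complex.arg (dp ϑ w r)))) +
          ∫ r in (t / 2)..t, (1 - b (Complex.arg (dp ϑ w r))) :=
      (intervalIntegral.integral_add_adjacent_intervals (Ir1_ii hrate ϑ w _ _)
        (Ir1_ii hrate ϑ w _ _)).symm
    have h1 : 0 ≤ ∫ r in (0 : ℝ)..(t / 2), (1 - b (Complex.arg (dp ϑ w r))) :=
      intervalIntegral.integral_nonneg (by linarith) fun r _ => hq0 w r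
    have h2 : ∫ _r in (t / 2)..t, (c1 * (|ϑ| / 2) ^ α) ≤
        ∫ r in (t / 2)..t, (1 - b (Complex.arg (dp ϑ w r))) :=
      intervalIntegral.integral_mono_on (by linarith) intervalIntegrable_const
        (Ir1_ii hrate ϑ w _ _) hstep
    rw [intervalIntegral.integral_const, smul_eq_mul] at h2
    have h3 : (t - t / 2) * (c1 * (|ϑ| / 2) ^ α) = c1 / (2 * 2 ^ α) * (t * |ϑ| ^ α) := by
      rw [Real.div_rpow (abs_nonneg _) (by norm_num)]
      field_simp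
      ring
    rw [hsplit]
    linarith
  have hpt : ∀ w : P2, ENNReal.ofReal
      (Real.exp (-∫ r in (0 : ℝ)..t, (1 - b (Complex.arg (dp ϑ w r))))) ≤
      ENNReal.ofReal (Real.exp (-(c1 / (2 * 2 ^ α)) * (t * |ϑ| ^ α))) +
        (toMeasurable W2 B).indicator 1 w := by
    intro w
    by_cases hw : w ∈ B
    · rw [indicator_of_mem (subset_toMeasurable W2 B hw)]
      refine le_trans ?_ (le_add_self)
      rw [Pi.one_apply, ENNReal.ofReal_le_one, Real.exp_le_one_iff]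
      linarith [hI0 w]
    · refine le_trans ?_ (le_add_right le_rfl)
      refine ENNReal.ofReal_le_ofReal (Real.exp_le_exp.2 ?_)
      linarith [hI w hw]
  calc ID b ϑ K R t ≤ ∫⁻ w, ENNReal.ofReal
        (Real.exp (-∫ r in (0 : ℝ)..t, (1 - b (Complex.arg (dp ϑ w r))))) ∂W2 :=
        setLIntegral_le_lintegral _ _
    _ ≤ ∫⁻ w, (ENNReal.ofReal (Real.exp (-(c1 / (2 * 2 ^ α)) * (t * |ϑ| ^ α))) +
        (toMeasurable W2 B).indicator 1 w) ∂W2 := lintegral_mono hpt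
    _ = ENNReal.ofReal (Real.exp (-(c1 / (2 * 2 ^ α)) * (t * |ϑ| ^ α))) + W2 B := by
        rw [lintegral_add_left measurable_const, lintegral_const, measure_univ, mul_one,
          lintegral_indicator_one (measurableSet_toMeasurable W2 B), measure_toMeasurable]
    _ ≤ ENNReal.ofReal (Real.exp (-(c1 / (2 * 2 ^ α)) * (t * |ϑ| ^ α))) +
        ENNReal.ofReal (8 * Real.exp (-(t * ϑ ^ 2) / 2048)) := add_le_add_right hB _
    _ = ENNReal.ofReal (Real.exp (-(c1 / (2 * 2 ^ α)) * (t * |ϑ| ^ α)) +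
        8 * Real.exp (-(t * ϑ ^ 2) / 2048)) :=
        (ENNReal.ofReal_add (Real.exp_pos _).le (by positivity)).symm

end Pool.H50.BB
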