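import Pool.Agent.H50.BB.Idf
import Pool.Agent.H50.BB.Qlu
import Pool.Agent.H50.BB.Bcm
import Pool.Agent.H50.BB.Brf
import Pool.Agent.H50.BB.Gmk

/-!
# Row Ir2: directions close to 0: reduction to the ordinate   (about 200 lines)

`ν = √2 sin ϑ`, `c = cfl α β Cf ζ η` (continuous, `cfl_cont`; `c ≥ 0`), `0 < s1 ≤ t`.
(a) for `w ∈ dEv ϑ K R t` and `r ∈ [s1,t]`: `(dp ϑ w r).re < K + √2 r ≤ √2 r + √r + 1`, so `c r (dp ϑ w r).im ≤ 1 - b(arg (dp ϑ w r))` (`hq`), and `1 - b ≥ 0` on `[0,s1]` (`a12_rate`):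
`∫_0^t (1 - b) ≥ ∫_{s1}^t c r (w.2 r + ν r) dr`.  So `ID ≤ ∫⁻ w, G (addP (lineP ν) w.2) dW2 = ∫⁻ w, G (addP (lineP ν) w) dWm` with
`G v = ofReal (exp (-∫_{s1}^t c r (v r) dr)) * far R (v t)` (enlarge the restriction to `{w | R ≤ |(dp ϑ w t).im|}`; `lintegral_prod`, inner integral constant in `w.1`, total mass 1).
(b) `T = ⟨t,_⟩`; `G (stop T v) = G v`.  `cm_lin` with `μ = ν`: `= ∫⁻ w, ofReal (exp (ν w t - ν² t/2)) * G w dWm`.
(c) `neg_map` (Brf.lean) and `G (negP w) = G w` (`c s (-y) = c s y`: `abs_neg` in the definition of `cfl`; `far R (-z) = far R z`): the same integral with `-ν`; adding the two and dividing by 2: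
`= ofReal (exp (-ν² t/2)) * ∫⁻ w, ch ν (w t) * G w dWm`  (`cosh x = (e^x + e^{-x})/2`; in ENNReal: `2 * ∫⁻ = ∫⁻ + ∫⁻`).
(d) Markov at `s1`: `∫⁻ w, ch ν (w t) * G w dWm = ∫⁻ w, Gm c s1 t (fun z => ch ν z * far R z) (w s1) dWm`: exactly as in the proof of `Gm_markov` (Gmk.lean) with `lintegral_stop_shift Wm_isW` at the time `s1`:
`w r = w s1 + (shift s1 w)(r - s1)` for `r ≥ s1` (`Pth.shift_apply_of_nonneg`).
-/

open MeasureTheory ProbabilityTheory Set Filter Topology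
open scoped NNReal ENNReal

namespace Pool.H50.BB

open Pool.Agent.H4.BM

theorem ir2_far_meas (R : ℝ) : Measurable (far R) := by
  unfold far
  exact measurable_const.indicator (measurableSet_le measurable_const (measurable_norm (α := ℝ)))

theorem ir2_ch_meas (ν : ℝ) : Measurable (ch ν) := by
  unfold ch
  exact (Real.continuous_cosh.measurable.comp (measurable_id.const_mul ν)).ennreal_ofReal

/-- the functional of the ordinate path -/
noncomputable def ir2G (c : ℝ → ℝ → ℝ) (R s1 t : ℝ) (v : Pth) : ℝ≥0∞ :=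
  ENNReal.ofReal (Real.exp (-∫ r in s1..t, c r (v r))) * far R (v t)

theorem ir2G_meas {c : ℝ → ℝ → ℝ} (hc : Continuous (Function.uncurry c)) (R s1 t : ℝ) :
    Measurable (ir2G c R s1 t) := by
  have h1 := gmk_wt (Ω := Pth) hc (a := fun _ => s1) (b := fun _ => t) (ρ := fun _ => 0)
    (η := fun _ => 0) (Φ := id) measurable_const measurable_const measurable_const measurable_const
    measurable_id
  simp only [zero_add, sub_zero, id_eq] at h1
  exact h1.mul ((ir2_far_meas R).comp (Pth.measurable_apply t))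

theorem ir2G_stop (c : ℝ → ℝ → ℝ) {R s1 t : ℝ} (h : s1 ≤ t) (T : ℝ≥0) (hT : (T : ℝ) = t) (v : Pth) :
    ir2G c R s1 t (Pth.stop T v) = ir2G c R s1 t v := by
  unfold ir2G
  have h1 : Pth.stop T v t = v t := by rw [Pth.stop_apply, hT, min_self]
  have h2 : ∫ r in s1..t, c r (Pth.stop T v r) = ∫ r in s1..t, c r (v r) := by
    refine intervalIntegral.integral_congr fun r hr => ?_
    rw [uIcc_of_le h] at hr
    have h3 : Pth.stop T v r = v r := by rw [Pth.stop_apply, hT, min_eq_left hr.2]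
    show c r (Pth.stop T v r) = c r (v r)
    rw [h3]
  rw [h1, h2]

theorem ir2G_neg {c : ℝ → ℝ → ℝ} (hc : ∀ s y, c s (-y) = c s y) (R s1 t : ℝ) (v : Pth) :
    ir2G c R s1 t (negP v) = ir2G c R s1 t v := by
  unfold ir2G
  have h0 : ∀ r, negP v r = -(v r) := fun r => rfl
  have h2 : ∫ r in s1..t, c r (negP v r) = ∫ r in s1..t, c r (v r) := by
    refine intervalIntegral.integral_congr fun r _ => ?_
    show c r (negP v r) = c r (v r)
    rw [h0, hc]
  have h3 : far R (negP v t) = far R (v t) := by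
    rw [h0]
    unfold far
    by_cases h : R ≤ |v t|
    · rw [indicator_of_mem (show -(v t) ∈ {z : ℝ | R ≤ |z|} by rw [mem_setOf_eq, abs_neg]; exact h),
        indicator_of_mem (show v t ∈ {z : ℝ | R ≤ |z|} from h)]
    · rw [indicator_of_notMem (show -(v t) ∉ {z : ℝ | R ≤ |z|} by rw [mem_setOf_eq, abs_neg]; exact h),
        indicator_of_notMem (show v t ∉ {z : ℝ | R ≤ |z|} from h)]
  rw [h2, h3]

theorem ir2_cfl_even (α β C ζ η s y : ℝ) : cfl α β C ζ η s (-y) = cfl α β C ζ η s y := by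
  unfold cfl
  rw [abs_neg]

/-- step (a), pointwise -/
theorem ir2_pt {b : ℝ → ℝ} {α β Cf ζ η s0 : ℝ} (hα : 0 < α) (hβ : 0 < β) (h : A12 b α β) (hs0 : 1 ≤ s0)
    (hq : ∀ s, s0 ≤ s → ∀ z : ℂ, z.re ≤ √2 * s + √s + 1 → cfl α β Cf ζ η s z.im ≤ 1 - b (Complex.arg z))
    {ϑ K R t s1 : ℝ} (h1 : s0 ≤ s1) (h2 : K ≤ √s1 + 1) (h3 : s1 ≤ t) (w : P2) (hw : w ∈ dEv ϑ K R t) :
    ENNReal.ofReal (Real.exp (-∫ r in (0 : ℝ)..t, (1 - b (Complex.arg (dp ϑ w r))))) ≤
      ir2G (cfl α β Cf ζ η) R s1 t (addP (lineP (√2 * Real.sin ϑ)) w.2) := by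
  have hs1 : 0 < s1 := by linarith
  have ht : 0 < t := by linarith
  have hb : Rate b := a12_rate hα h
  obtain ⟨hw1, hw2⟩ := hw
  have hline : ∀ r, 0 ≤ r → addP (lineP (√2 * Real.sin ϑ)) w.2 r = (dp ϑ w r).im := by
    intro r hr
    show w.2 r + √2 * Real.sin ϑ * max r 0 = w.2 r + √2 * Real.sin ϑ * r
    rw [max_eq_left hr]
  unfold ir2G
  have hfar : far R (addP (lineP (√2 * Real.sin ϑ)) w.2 t) = 1 := by
    rw [hline t ht.le]
    unfold far
    exact indicator_of_mem (show (dp ϑ w t).im ∈ {z : ℝ | R ≤ |z|} from hw2) _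
  rw [hfar, mul_one]
  refine ENNReal.ofReal_le_ofReal (Real.exp_le_exp.2 (neg_le_neg ?_))
  have hdc : Continuous fun r : ℝ => dp ϑ w r := by
    have e : (fun r : ℝ => dp ϑ w r) = fun r : ℝ =>
        (((w.1 r + √2 * Real.cos ϑ * r : ℝ) : ℂ) + ((w.2 r + √2 * Real.sin ϑ * r : ℝ) : ℂ) * Complex.I) := by
      funext r
      exact Complex.mk_eq_add_mul_I _ _
    rw [e]
    have c1 : Continuous fun r : ℝ => w.1 r + √2 * Real.cos ϑ * r :=
      w.1.continuous.add (continuous_const.mul continuous_id)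
    have c2 : Continuous fun r : ℝ => w.2 r + √2 * Real.sin ϑ * r :=
      w.2.continuous.add (continuous_const.mul continuous_id)
    exact (Complex.continuous_ofReal.comp c1).add ((Complex.continuous_ofReal.comp c2).mul continuous_const)
  have hm : Measurable fun r : ℝ => 1 - b (Complex.arg (dp ϑ w r)) :=
    measurable_const.sub (hb.cont.measurable.comp (Complex.measurable_arg.comp hdc.measurable))
  have hint : ∀ p q : ℝ, IntervalIntegrable (fun r : ℝ => 1 - b (Complex.arg (dp ϑ w r))) volume p q := by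
    intro p q
    refine (intervalIntegrable_const (c := (1 : ℝ))).mono_fun' hm.aestronglyMeasurable ?_
    refine Eventually.of_forall fun r => ?_
    have e1 := hb.nonneg (Complex.arg (dp ϑ w r))
    have e2 := hb.le_one (Complex.arg (dp ϑ w r))
    simp only
    rw [Real.norm_of_nonneg (by linarith)]
    linarith
  rw [← intervalIntegral.integral_add_adjacent_intervals (hint 0 s1) (hint s1 t)]
  have i1 : 0 ≤ ∫ r in (0 : ℝ)..s1, (1 - b (Complex.arg (dp ϑ w r))) := by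
    refine intervalIntegral.integral_nonneg hs1.le fun r _ => ?_
    have e2 := hb.le_one (Complex.arg (dp ϑ w r))
    linarith
  have hcc := cfl_cont hα β Cf ζ η
  have hvc : Continuous fun r : ℝ => cfl α β Cf ζ η r (addP (lineP (√2 * Real.sin ϑ)) w.2 r) :=
    hcc.comp (continuous_id.prodMk (addP (lineP (√2 * Real.sin ϑ)) w.2).continuous)
  have i2 : ∫ r in s1..t, cfl α β Cf ζ η r (addP (lineP (√2 * Real.sin ϑ)) w.2 r) ≤
      ∫ r in s1..t, (1 - b (Complex.arg (dp ϑ w r))) := by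
    refine intervalIntegral.integral_mono_on h3 (hvc.intervalIntegrable _ _) (hint s1 t) fun r hr => ?_
    rw [hline r (hs1.le.trans hr.1)]
    refine hq r (h1.trans hr.1) _ ?_
    have e1 := hw1 r ⟨hs1.le.trans hr.1, hr.2⟩
    have e2 : √s1 ≤ √r := Real.sqrt_le_sqrt hr.1
    linarith
  linarith

theorem ir2_a {b : ℝ → ℝ} {α β Cf ζ η s0 : ℝ} (hα : 0 < α) (hβ : 0 < β) (h : A12 b α β) (hs0 : 1 ≤ s0)
    (hq : ∀ s, s0 ≤ s → ∀ z : ℂ, z.re ≤ √2 * s + √s + 1 → cfl α β Cf ζ η s z.im ≤ 1 - b (Complex.arg z))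
    {ϑ K R t s1 : ℝ} (h1 : s0 ≤ s1) (h2 : K ≤ √s1 + 1) (h3 : s1 ≤ t) :
    ID b ϑ K R t ≤ ∫⁻ u, ir2G (cfl α β Cf ζ η) R s1 t (addP (lineP (√2 * Real.sin ϑ)) u) ∂Wm := by
  have hG := ir2G_meas (cfl_cont hα β Cf ζ η) R s1 t
  have hg : Measurable fun u : Pth => ir2G (cfl α β Cf ζ η) R s1 t (addP (lineP (√2 * Real.sin ϑ)) u) :=
    hG.comp (addP_meas _)
  unfold ID
  refine (setLIntegral_mono_ae (g := fun w : P2 =>
    ir2G (cfl α β Cf ζ η) R s1 t (addP (lineP (√2 * Real.sin ϑ)) w.2)) (hg.comp measurable_snd).aemeasurable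
    (Eventually.of_forall fun w hw => ir2_pt hα hβ h hs0 hq h1 h2 h3 w hw)).trans ?_
  refine (setLIntegral_le_lintegral _ _).trans (le_of_eq ?_)
  unfold W2
  exact (measurePreserving_snd (μ := Wm) (ν := Wm)).lintegral_comp hg

theorem ir2_b {c : ℝ → ℝ → ℝ} (hc : Continuous (Function.uncurry c)) (hev : ∀ s y, c s (-y) = c s y)
    (ν : ℝ) {R s1 t : ℝ} (ht : 0 ≤ t) (h : s1 ≤ t) :
    ∫⁻ u, ir2G c R s1 t (addP (lineP ν) u) ∂Wm =
      ENNReal.ofReal (Real.exp (-(ν ^ 2 * t / 2))) * ∫⁻ w, ch ν (w t) * ir2G c R s1 t w ∂Wm := by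
  obtain ⟨T, hT⟩ : ∃ T : ℝ≥0, (T : ℝ) = t := ⟨⟨t, ht⟩, rfl⟩
  have hG := ir2G_meas hc R s1 t
  have e1 : ∫⁻ u, ir2G c R s1 t (addP (lineP ν) u) ∂Wm =
      ∫⁻ u, ir2G c R s1 t (Pth.stop T (addP (lineP ν) u)) ∂Wm :=
    lintegral_congr fun u => (ir2G_stop c h T hT _).symm
  have e2 := cm_lin ν T hG
  rw [e1, e2]
  have mexp : ∀ μ : ℝ, Measurable fun w : Pth => ENNReal.ofReal (Real.exp (μ * w t)) := fun μ =>
    (Real.measurable_exp.comp ((Pth.measurable_apply t).const_mul μ)).ennreal_ofReal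
  have mE : ∀ μ : ℝ, Measurable fun w : Pth => ENNReal.ofReal (Real.exp (μ * w t)) * ir2G c R s1 t w :=
    fun μ => (mexp μ).mul hG
  have mC : Measurable fun w : Pth => ch ν (w t) * ir2G c R s1 t w :=
    ((ir2_ch_meas ν).comp (Pth.measurable_apply t)).mul hG
  have e3 : ∫⁻ w, ENNReal.ofReal (Real.exp (ν * w T - ν ^ 2 * T / 2)) * ir2G c R s1 t (Pth.stop T w) ∂Wm =
      ENNReal.ofReal (Real.exp (-(ν ^ 2 * t / 2))) *
        ∫⁻ w, ENNReal.ofReal (Real.exp (ν * w t)) * ir2G c R s1 t w ∂Wm := by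
    rw [← lintegral_const_mul _ (mE ν)]
    refine lintegral_congr fun w => ?_
    rw [ir2G_stop c h T hT, hT, ← mul_assoc, ← ENNReal.ofReal_mul (Real.exp_pos _).le, ← Real.exp_add]
    congr 3
    ring
  rw [e3]
  congr 1
  -- symmetrisation
  have e4 : ∫⁻ w, ENNReal.ofReal (Real.exp (ν * w t)) * ir2G c R s1 t w ∂Wm =
      ∫⁻ w, ENNReal.ofReal (Real.exp (-ν * w t)) * ir2G c R s1 t w ∂Wm := by
    conv_lhs => rw [← neg_map]
    rw [lintegral_map (mE ν) negP_meas]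
    refine lintegral_congr fun w => ?_
    rw [ir2G_neg hev]
    have : negP w t = -(w t) := rfl
    rw [this]
    congr 3
    ring
  have e5 : ∀ w : Pth, 2 * (ch ν (w t) * ir2G c R s1 t w) =
      ENNReal.ofReal (Real.exp (ν * w t)) * ir2G c R s1 t w +
        ENNReal.ofReal (Real.exp (-ν * w t)) * ir2G c R s1 t w := by
    intro w
    rw [← add_mul, ← ENNReal.ofReal_add (Real.exp_pos _).le (Real.exp_pos _).le, ← mul_assoc]
    congr 1
    unfold ch
    have h2 : (2 : ℝ≥0∞) = ENNReal.ofReal 2 := by simp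
    rw [h2, ← ENNReal.ofReal_mul (by norm_num)]
    congr 1
    rw [Real.cosh_eq]
    have : -ν * w t = -(ν * w t) := by ring
    rw [this]
    ring
  have e6 : 2 * ∫⁻ w, ch ν (w t) * ir2G c R s1 t w ∂Wm =
      2 * ∫⁻ w, ENNReal.ofReal (Real.exp (ν * w t)) * ir2G c R s1 t w ∂Wm := by
    rw [← lintegral_const_mul _ mC]
    simp_rw [e5]
    rw [lintegral_add_left (mE ν), ← e4, two_mul]
  exact ((ENNReal.mul_right_inj (by norm_num) (by norm_num)).1 e6).symm

theorem ir2_d {c : ℝ → ℝ → ℝ} (hc : Continuous (Function.uncurry c)) (ν : ℝ) {R s1 t : ℝ} (h0 : 0 ≤ s1)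
    (h : s1 ≤ t) : ∫⁻ w, ch ν (w t) * ir2G c R s1 t w ∂Wm =
      ∫⁻ w, Gm c s1 t (fun z => ch ν z * far R z) (w s1) ∂Wm := by
  obtain ⟨a, ha⟩ : ∃ a : ℝ≥0, (a : ℝ) = s1 := ⟨⟨s1, h0⟩, rfl⟩
  have hF : Measurable fun z : ℝ => ch ν z * far R z := (ir2_ch_meas ν).mul (ir2_far_meas R)
  let H : Pth × Pth → ℝ≥0∞ := fun p =>
    ENNReal.ofReal (Real.exp (-∫ s in s1..t, c s (p.1 a + p.2 (s - s1)))) *
      (fun z : ℝ => ch ν z * far R z) (p.1 a + p.2 (t - s1))
  have mA : Measurable fun p : Pth × Pth => p.1 a := (Pth.measurable_apply a).comp measurable_fst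
  have hH : Measurable H := by
    refine (gmk_wt hc measurable_const measurable_const measurable_const mA measurable_snd).mul
      (hF.comp (mA.add ?_))
    exact (Pth.measurable_apply (t - s1)).comp measurable_snd
  have e1 : ∫⁻ w, ch ν (w t) * ir2G c R s1 t w ∂Wm = ∫⁻ w, H (Pth.stop a w, Pth.shift a w) ∂Wm := by
    refine lintegral_congr fun w => ?_
    have hs : Pth.stop a w a = w a := by rw [Pth.stop_apply, min_self]
    have key : ∀ s, s1 ≤ s → Pth.stop a w a + Pth.shift a w (s - s1) = w s := by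
      intro s hsm
      rw [hs, Pth.shift_apply_of_nonneg _ _ (by linarith)]
      have : (a : ℝ) + (s - s1) = s := by rw [ha]; ring
      rw [this]
      ring
    show ch ν (w t) * ir2G c R s1 t w =
      ENNReal.ofReal (Real.exp (-∫ s in s1..t, c s (Pth.stop a w a + Pth.shift a w (s - s1)))) *
      (ch ν (Pth.stop a w a + Pth.shift a w (t - s1)) * far R (Pth.stop a w a + Pth.shift a w (t - s1)))
    have i1 : ∫ s in s1..t, c s (Pth.stop a w a + Pth.shift a w (s - s1)) = ∫ s in s1..t, c s (w s) := by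
      refine intervalIntegral.integral_congr fun s hsm => ?_
      rw [uIcc_of_le h] at hsm
      have := key s hsm.1
      show c s (Pth.stop a w a + Pth.shift a w (s - s1)) = c s (w s)
      rw [this]
    rw [i1, key t h]
    unfold ir2G
    ring
  rw [e1, lintegral_stop_shift Wm_isW a hH]
  refine lintegral_congr fun w => ?_
  have hs : Pth.stop a w a = w s1 := by rw [Pth.stop_apply, min_self, ha]
  show ∫⁻ B, ENNReal.ofReal (Real.exp (-∫ s in s1..t, c s (Pth.stop a w a + B (s - s1)))) *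
      (ch ν (Pth.stop a w a + B (t - s1)) * far R (Pth.stop a w a + B (t - s1))) ∂Wm = _
  rw [hs]
  rfl

theorem reg2 {b : ℝ → ℝ} {α β Cf ζ η s0 : ℝ} (hα : 0 < α) (hβ : 0 < β) (h : A12 b α β) (hs0 : 1 ≤ s0)
    (hq : ∀ s, s0 ≤ s → ∀ z : ℂ, z.re ≤ √2 * s + √s + 1 → cfl α β Cf ζ η s z.im ≤ 1 - b (Complex.arg z))
    {ϑ K R t s1 : ℝ} (h1 : s0 ≤ s1) (h2 : K ≤ √s1 + 1) (h3 : s1 ≤ t) :
    ID b ϑ K R t ≤ ENNReal.ofReal (Real.exp (-((√2 * Real.sin ϑ) ^ 2 * t / 2))) *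
      ∫⁻ w, Gm (cfl α β Cf ζ η) s1 t (fun z => ch (√2 * Real.sin ϑ) z * far R z) (w s1) ∂Wm := by
  have hc := cfl_cont hα β Cf ζ η
  have hs1 : 0 ≤ s1 := by linarith
  refine (ir2_a hα hβ h hs0 hq h1 h2 h3).trans (le_of_eq ?_)
  rw [ir2_b hc (ir2_cfl_even α β Cf ζ η) _ (hs1.trans h3) h3, ir2_d hc _ hs1 h3]

end Pool.H50.BB
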