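import Pool.Agent.H50.BB.Ird
import Pool.Agent.H50.BB.Icv
import Pool.Agent.H50.BB.Ir1
import Pool.Agent.H50.BB.Ir2
import Pool.Agent.H50.BB.Iam
import Pool.Agent.H50.BB.Icf
import Pool.Agent.H50.BB.Ilm
import Pool.Agent.H50.BB.Iev
import Pool.Agent.H50.BB.Y1

/-!
# Part I: no particle far in norm but not in abscissa
-/

open MeasureTheory ProbabilityTheory Set Filter Topology
open scoped NNReal ENNReal

namespace Pool.H50.BB

open Pool.Agent.H4.BM

/-- the bound for directions far from 0 -/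
noncomputable def FarB1 (α c t : ℝ) : ℝ :=
  Real.exp (-c * (t * (t ^ (gg α / 12 - gam α)) ^ α)) +
        8 * Real.exp (-(t * (t ^ (gg α / 12 - gam α)) ^ 2) / 2048)

/-- the bound for directions close to 0 -/
noncomputable def FarB2 (α β lam c C1 η ε t : ℝ) : ℝ :=
  C1 * NN α β lam ((Real.log t) ^ 4) (t - t ^ (1 - 2 * gg α / 3)) *
        (Real.exp (-(c * t ^ (-2 * gam α + α * min η (gg α / 2)) * t ^ (1 - 2 * gg α / 3))) +
          4 * Real.exp (-(√ε / 2 * √t) ^ 2 / (128 * t ^ (1 - 2 * gg α / 3))))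

theorem Far_meas (z ε : ℝ) : MeasurableSet {x : ℂ | z < ‖x‖ ∧ x.re ≤ z - ε} :=
  (measurableSet_lt measurable_const measurable_norm).inter
    (measurableSet_le Complex.measurable_re measurable_const)

theorem Far_B1 {α c t ϑ : ℝ} (hα : 0 < α) (hc : 0 < c) (ht : 0 < t) (h : t ^ (gg α / 12 - gam α) < |ϑ|) :
    Real.exp (-c * (t * |ϑ| ^ α)) + 8 * Real.exp (-(t * ϑ ^ 2) / 2048) ≤ FarB1 α c t := by
  have h0 : 0 ≤ t ^ (gg α / 12 - gam α) := by positivity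
  have h1 : (t ^ (gg α / 12 - gam α)) ^ α ≤ |ϑ| ^ α := Real.rpow_le_rpow h0 h.le hα.le
  have h2 : (t ^ (gg α / 12 - gam α)) ^ 2 ≤ ϑ ^ 2 := by
    rw [← sq_abs ϑ]
    exact pow_le_pow_left₀ h0 h.le 2
  unfold FarB1
  have h3 : t * (t ^ (gg α / 12 - gam α)) ^ α ≤ t * |ϑ| ^ α := mul_le_mul_of_nonneg_left h1 ht.le
  have h4 : t * (t ^ (gg α / 12 - gam α)) ^ 2 ≤ t * ϑ ^ 2 := mul_le_mul_of_nonneg_left h2 ht.le
  refine add_le_add (Real.exp_le_exp.2 ?_) (mul_le_mul_of_nonneg_left (Real.exp_le_exp.2 ?_) (by norm_num))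
  · have := mul_le_mul_of_nonneg_left h3 hc.le
    linarith
  · linarith

theorem Far_bound {b : ℝ → ℝ} {α β lam ρ C : ℝ} {φ : ℝ → ℝ} (hα : 2 / 3 < α) (hα2 : α < 2) (hβ : 0 < β)
    (h : A12 b α β) (G : GS α lam ρ C φ) {ε : ℝ} (hε : 0 < ε) (a : ℝ) :
    ∃ c1 > 0, ∃ c2 > 0, ∃ C1 > 0, ∃ η > 0, ∀ᶠ t : ℝ in atTop,
      vf b {x : ℂ | mm α β lam t + a < ‖x‖ ∧ x.re ≤ mm α β lam t + a - ε} t 0 ≤
        Real.exp (-√2 * (Real.log t) ^ 2) + (9 * t * Real.exp (2 * t - √2 * (mm α β lam t + a - 1)) * FarB1 α c1 t +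
          9 * t * Real.exp (2 * t - √2 * (mm α β lam t + a - 1)) * FarB2 α β lam c2 C1 η ε t) := by
  have hα0 : 0 < α := by linarith
  have hb : Rate b := a12_rate hα0 h
  obtain ⟨hg, hγ0, hγ1, hgγ⟩ := gg_pos hα0 hα2
  have hg2 := gg_lt hα hα2
  have hlam := G.lam_pos
  obtain ⟨Cf, hCf, ζ, η, hζ, hη, sa, hsa1, hqlo⟩ := qlo hα hα2 hβ h
  obtain ⟨sb, hsb1, C1, hC1, hy1⟩ := y1 hα0 hα2 hβ G hCf hζ hη
  obtain ⟨c1, hc1, hreg1⟩ := reg1 hα0 hα2 hβ h
  have hρ : 0 < √ε / 4 := by positivity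
  obtain ⟨c2, hc2, tl, htl, hlow⟩ := cfl_low (C := Cf) (ζ := ζ) (η := η) (ρ := √ε / 4) hα0 hα2 hβ hCf
    (hg.trans hζ) hη hρ
  obtain ⟨tc, htc, hcov⟩ := icover (η := gg α / 12) hα hα2 hβ hlam hε (by linarith) a
  refine ⟨c1, hc1, c2, hc2, C1, hC1, η, hη, ?_⟩
  filter_upwards [iev (ε := ε) hg hg2 (by linarith : gam α = (1 - gg α) / 2) hε (max sa sb),
    eventually_ge_atTop tl, eventually_ge_atTop tc] with t hev htl' htc'
  obtain ⟨ht1, hlog, hs0, hs1, hhalf, hν⟩ := hev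
  obtain ⟨J, hJc, hJπ, hJ⟩ := hcov t htc'
  have ht0 : 0 < t := by linarith
  have hK : 0 < (Real.log t) ^ 2 := by positivity
  have hΔ : 0 < t ^ (1 - 2 * gg α / 3) := by positivity
  set z := mm α β lam t + a with hz
  set s1 := (Real.log t) ^ 4 with hs1d
  set t1 := t - t ^ (1 - 2 * gg α / 3) with ht1d
  have hsa : sa ≤ s1 := (le_max_left _ _).trans hs0
  have hsb : sb ≤ s1 := (le_max_right _ _).trans hs0
  have hΔe : t - t1 = t ^ (1 - 2 * gg α / 3) := by rw [ht1d]; ring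
  have ht1t : t1 < t := by rw [ht1d]; linarith
  have hsqrt : √s1 = (Real.log t) ^ 2 := by
    rw [hs1d, show (Real.log t) ^ 4 = ((Real.log t) ^ 2) ^ 2 by ring]
    exact Real.sqrt_sq hK.le
  have hNN : 0 ≤ NN α β lam s1 t1 := Y1_NN_nonneg (by linarith) (by linarith)
  have hB1 : 0 ≤ FarB1 α c1 t := by unfold FarB1; positivity
  have hB2 : 0 ≤ FarB2 α β lam c2 C1 η ε t := by
    unfold FarB2
    have := mul_nonneg hC1.le hNN
    positivity
  have hID : ∀ ϑ ∈ J, ID b ϑ ((Real.log t) ^ 2) (Rth α ε (gg α / 12) t ϑ) t ≤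
      ENNReal.ofReal (FarB1 α c1 t + FarB2 α β lam c2 C1 η ε t) := by
    intro ϑ hϑ
    rcases le_or_gt |ϑ| (t ^ (gg α / 12 - gam α)) with hc | hc
    · have hR : Rth α ε (gg α / 12) t ϑ = √ε / 2 * √t := by
        unfold Rth
        rw [if_pos hc]
      rw [hR]
      have hRp : 0 < √ε / 2 * √t := by positivity
      have hν' : |√2 * Real.sin ϑ| * (t - t1) ≤ √ε / 2 * √t / 4 := by
        rw [hΔe]
        refine le_trans ?_ hν
        refine mul_le_mul_of_nonneg_right ?_ hΔ.le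
        rw [abs_mul, abs_of_nonneg (Real.sqrt_nonneg 2)]
        refine mul_le_mul_of_nonneg_left ?_ (Real.sqrt_nonneg 2)
        exact (Real.abs_sin_le_abs (x := ϑ)).trans hc
      refine (reg2 (s0 := sa) (s1 := s1) hα0 hβ h hsa1 hqlo hsa (by rw [hsqrt]; linarith) (by linarith)).trans ?_
      refine (ireg2 (t1 := t1) (m := c2 * t ^ (-2 * gam α + α * min η (gg α / 2))) (N := C1 * NN α β lam s1 t1)
        (cfl_cont hα0 β Cf ζ η)
        (fun s y => cfl_nonneg hβ.le _ _ _ _ _) (fun s y => cfl_even _ _ _ _ _ _ _)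
        (fun s y y' => cfl_mono hα0 hβ _ _ _ _ _ _) (by linarith) hs1 ht1t hRp hν' ?_
        (mul_nonneg hC1.le hNN) (fun y => (hy1 s1 t1 hsb hs1 y).1)).trans ?_
      · intro s hs y hy
        refine hlow t htl' s (by linarith [hs.1]) hs.2 y ?_
        linarith
      · refine ENNReal.ofReal_le_ofReal ?_
        rw [hΔe]
        have : FarB2 α β lam c2 C1 η ε t ≤ FarB1 α c1 t + FarB2 α β lam c2 C1 η ε t := by linarith
        refine le_trans (le_of_eq ?_) this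
        unfold FarB2
        rw [← hs1d, ← ht1d]
    · have hϑ0 : 0 < |ϑ| := lt_of_le_of_lt (by positivity) hc
      refine (hreg1 ϑ _ _ t (hJπ ϑ hϑ) hϑ0 ht0).trans (ENNReal.ofReal_le_ofReal ?_)
      have := Far_B1 hα0 hc1 ht0 hc
      linarith
  have key := ired hb (Far_meas z ε) ht0 hK (y0 := z - 1) J (Rth α ε (gg α / 12) t)
    (fun x hx => by
      obtain ⟨ϑ, h1, h2, h3⟩ := hJ x hx.1 hx.2
      exact ⟨ϑ, h1, h2, h3⟩)
  have hsum : ∑ ϑ ∈ J, ID b ϑ ((Real.log t) ^ 2) (Rth α ε (gg α / 12) t ϑ) t ≤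
      ENNReal.ofReal (9 * t * (FarB1 α c1 t + FarB2 α β lam c2 C1 η ε t)) := by
    refine (Finset.sum_le_sum hID).trans ?_
    rw [Finset.sum_const, nsmul_eq_mul]
    rw [← ENNReal.ofReal_natCast, ← ENNReal.ofReal_mul (by positivity)]
    exact ENNReal.ofReal_le_ofReal (mul_le_mul_of_nonneg_right hJc (by linarith))
  have hfin : ENNReal.ofReal (vf b {x : ℂ | z < ‖x‖ ∧ x.re ≤ z - ε} t 0) ≤
      ENNReal.ofReal (Real.exp (-√2 * (Real.log t) ^ 2) + (9 * t * Real.exp (2 * t - √2 * (z - 1)) * FarB1 α c1 t +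
          9 * t * Real.exp (2 * t - √2 * (z - 1)) * FarB2 α β lam c2 C1 η ε t)) := by
    refine key.trans ?_
    rw [ENNReal.ofReal_add (Real.exp_pos _).le (by positivity)]
    refine add_le_add le_rfl ?_
    refine (mul_le_mul' le_rfl hsum).trans (le_of_eq ?_)
    rw [← ENNReal.ofReal_mul (Real.exp_pos _).le]
    congr 1
    ring
  rwa [ENNReal.ofReal_le_ofReal_iff (by positivity)] at hfin

theorem far_angle {b : ℝ → ℝ} {α β lam ρ C : ℝ} {φ : ℝ → ℝ} (hα : 2 / 3 < α) (hα2 : α < 2) (hβ : 0 < β)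
    (h : A12 b α β) (G : GS α lam ρ C φ) {ε : ℝ} (hε : 0 < ε) (a : ℝ) :
    Tendsto (fun t => vf b {x : ℂ | mm α β lam t + a < ‖x‖ ∧ x.re ≤ mm α β lam t + a - ε} t 0) atTop (𝓝 0) := by
  obtain ⟨c1, hc1, c2, hc2, C1, hC1, η, hη, hbd⟩ := Far_bound hα hα2 hβ h G hε a
  have h0 : Tendsto (fun t : ℝ => Real.exp (-√2 * (Real.log t) ^ 2)) atTop (𝓝 0) := by
    refine Real.tendsto_exp_atBot.comp ?_
    have h1 : Tendsto (fun t : ℝ => (Real.log t) ^ 2) atTop atTop :=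
      (tendsto_pow_atTop (by norm_num : (2 : ℕ) ≠ 0)).comp Real.tendsto_log_atTop
    have h2 : Tendsto (fun t : ℝ => √2 * (Real.log t) ^ 2) atTop atTop :=
      h1.const_mul_atTop (by positivity)
    refine (tendsto_neg_atTop_atBot.comp h2).congr fun t => ?_
    simp only [Function.comp, neg_mul]
  have h1 := lim_reg1 hα hα2 hβ G.lam_pos a hc1
  have h2 := lim_reg2 hα hα2 hβ G.lam_pos a hc2 hC1 hη hε
  have h3 := h0.add (h1.add h2)
  rw [add_zero, add_zero] at h3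
  refine squeeze_zero' (Eventually.of_forall fun t => vf_nonneg _ _ _ _) ?_ h3
  filter_upwards [hbd] with t ht
  exact ht

end Pool.H50.BB
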