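import Pool.Agent.H50.BB.Hb1

/-!
# Row Hb2: no mass escapes to `-∞`   (about 160 lines)

`w x = ⨆ n, Lm (-n) x` (bounded monotone sequence; measurable, `0 < w ≤ 1`), `Lm (-n) x → w x`, also `Lm (-n + √2) x → w x`, `Lm (-n - 1) x → w x` (antitone in `a`, cofinal).
`lm_step` with `a = -n` and Fatou (or monotone/dominated convergence) on both terms: `∫⁻ ofReal (w (x + pt ω 1)) + ∫⁻_{(0,1]} ∫⁻ ofReal (b(arg(x + pt ω s)) (w (1 - w))(x + pt ω s)) ≤ ofReal (w x)` for every `x`.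
The first term alone: `liouville` gives `w0`, `w = w0` a.e., `∫ w(x + pt ω 1) = w0` for all `x`; `w0 > 0` (`lm_pos`: integral of a positive function).
Take `x` with `w x = w0`.  By `pt_ac` the second term is `∫⁻_{(0,1]} ∫⁻ ofReal (b(arg(x + pt ω s)) w0 (1 - w0))`, and it is `0` by the inequality (`ofReal w0` is finite); if `w0 < 1` this says that `b(arg(x + pt ω s)) = 0` for a.e. `s, ω`,
contradiction: `b 0 = 1` (`a12_one`) and continuity give `b > 1/2` on `|θ| < θ1`, and the open cone `{z ≠ 0, re z > 0, |arg z| < θ1}` (nonempty open) has positive probability (`pt_open`).  So `w0 = 1` and `w 0 ≥ ∫ w(pt ω 1) = 1`: `Lm a 0 → 1` as `a → -∞`.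
`h_cdf`: collects everything for the final row: limits for every `a`, antitone, `→ 0` at `+∞` by `h_top`.
-/

open MeasureTheory ProbabilityTheory Set Filter Topology
open scoped NNReal ENNReal

namespace Pool.H50.BB

open Pool.Agent.H4.BM

/-- the limit at `-∞` -/
noncomputable def Hb2_w (b : ℝ → ℝ) (α β lam : ℝ) (x : ℂ) : ℝ := ⨆ a : ℝ, Lm b α β lam a x

section
variable {b : ℝ → ℝ} {α β lam ρ C : ℝ} {φ : ℝ → ℝ}

theorem Hb2_bdd (hα : 2 / 3 < α) (hα2 : α < 2) (hβ : 0 < β)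
    (h : A12 b α β) (G : GS α lam ρ C φ) (x : ℂ) : BddAbove (range fun a : ℝ => Lm b α β lam a x) := by
  refine ⟨1, ?_⟩
  rintro _ ⟨a, rfl⟩
  exact (lm_01 hα hα2 hβ h G a x).2

theorem Hb2_tend (hα : 2 / 3 < α) (hα2 : α < 2) (hβ : 0 < β)
    (h : A12 b α β) (G : GS α lam ρ C φ) (x : ℂ) :
    Tendsto (fun a => Lm b α β lam a x) atBot (𝓝 (Hb2_w b α β lam x)) :=
  tendsto_atBot_ciSup (lm_anti hα hα2 hβ h G x) (Hb2_bdd hα hα2 hβ h G x)

theorem Hb2_le (hα : 2 / 3 < α) (hα2 : α < 2) (hβ : 0 < β)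
    (h : A12 b α β) (G : GS α lam ρ C φ) (a : ℝ) (x : ℂ) : Lm b α β lam a x ≤ Hb2_w b α β lam x :=
  le_ciSup (Hb2_bdd hα hα2 hβ h G x) a

theorem Hb2_pos (hα : 2 / 3 < α) (hα2 : α < 2) (hβ : 0 < β)
    (h : A12 b α β) (G : GS α lam ρ C φ) (x : ℂ) : 0 < Hb2_w b α β lam x :=
  (lm_pos hα hα2 hβ h G 0 x).trans_le (Hb2_le hα hα2 hβ h G 0 x)

theorem Hb2_le_one (hα : 2 / 3 < α) (hα2 : α < 2) (hβ : 0 < β)
    (h : A12 b α β) (G : GS α lam ρ C φ) (x : ℂ) : Hb2_w b α β lam x ≤ 1 :=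
  ciSup_le fun a => (lm_01 hα hα2 hβ h G a x).2

theorem Hb2_seq : Tendsto (fun n : ℕ => -(n : ℝ)) atTop atBot :=
  tendsto_neg_atTop_atBot.comp tendsto_natCast_atTop_atTop

theorem Hb2_meas (hα : 2 / 3 < α) (hα2 : α < 2) (hβ : 0 < β)
    (h : A12 b α β) (G : GS α lam ρ C φ) : Measurable (Hb2_w b α β lam) := by
  refine measurable_of_tendsto_metrizable (f := fun n : ℕ => Lm b α β lam (-(n : ℝ)))
    (fun n => lm_meas hα hα2 hβ h G _) (tendsto_pi_nhds.2 fun x => ?_)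
  exact (Hb2_tend hα hα2 hβ h G x).comp Hb2_seq

theorem Hb2_pt (x : ℂ) : Measurable fun p : ℝ × P2 => x + pt p.2 p.1 :=
  measurable_const.add (pt_meas.comp (measurable_snd.prodMk measurable_fst))

theorem Hb2_pts (x : ℂ) (s : ℝ) : Measurable fun ω : P2 => x + pt ω s :=
  (Hb2_pt x).comp (measurable_const.prodMk measurable_id)

theorem Hb2_dom {X : Type*} [MeasurableSpace X] {μ : Measure X} [IsFiniteMeasure μ]
    {F : ℕ → X → ℝ≥0∞} {f : X → ℝ≥0∞} (hF : ∀ n, Measurable (F n)) (h1 : ∀ n a, F n a ≤ 1)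
    (hl : ∀ a, Tendsto (fun n => F n a) atTop (𝓝 (f a))) :
    Tendsto (fun n => ∫⁻ a, F n a ∂μ) atTop (𝓝 (∫⁻ a, f a ∂μ)) := by
  refine tendsto_lintegral_of_dominated_convergence (fun _ => 1) hF
    (fun n => Eventually.of_forall (h1 n)) ?_ (Eventually.of_forall hl)
  rw [lintegral_one]
  exact measure_ne_top μ univ

theorem Hb2_int_le {X : Type*} [MeasurableSpace X] {μ : Measure X} [IsProbabilityMeasure μ]
    {f : X → ℝ≥0∞} (h1 : ∀ a, f a ≤ 1) : ∫⁻ a, f a ∂μ ≤ 1 := by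
  refine (lintegral_mono h1).trans ?_
  rw [lintegral_one, measure_univ]

/-- the integrand of the second term -/
noncomputable def Hb2_f (b : ℝ → ℝ) (u v : ℂ → ℝ) (y : ℂ) : ℝ≥0∞ :=
  ENNReal.ofReal (b (Complex.arg y) * (u y * (1 - v y)))

theorem Hb2_fmeas (hb : Rate b) {u v : ℂ → ℝ} (hu : Measurable u) (hv : Measurable v) :
    Measurable (Hb2_f b u v) :=
  ((barg_meas hb).mul (hu.mul (measurable_const.sub hv))).ennreal_ofReal

theorem Hb2_fle (hb : Rate b) {u v : ℂ → ℝ} (hu0 : ∀ y, 0 ≤ u y) (hu : ∀ y, u y ≤ 1)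
    (hv0 : ∀ y, 0 ≤ v y) (hv : ∀ y, v y ≤ 1) (y : ℂ) : Hb2_f b u v y ≤ 1 := by
  unfold Hb2_f
  rw [← ENNReal.ofReal_one]
  refine ENNReal.ofReal_le_ofReal ?_
  refine mul_le_one₀ (hb.le_one _) (mul_nonneg (hu0 y) (by linarith [hv y])) ?_
  exact mul_le_one₀ (hu y) (by linarith [hv y]) (by linarith [hv0 y])

theorem Hb2_key (hα : 2 / 3 < α) (hα2 : α < 2) (hβ : 0 < β)
    (h : A12 b α β) (G : GS α lam ρ C φ) (x : ℂ) :
    (∫⁻ ω, ENNReal.ofReal (Hb2_w b α β lam (x + pt ω 1)) ∂W2) +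
      (∫⁻ s in Ioc (0 : ℝ) 1, ∫⁻ ω, Hb2_f b (Hb2_w b α β lam) (Hb2_w b α β lam) (x + pt ω s) ∂W2) ≤
      ENNReal.ofReal (Hb2_w b α β lam x) := by
  have hb : Rate b := a12_rate (by linarith) h
  have hseq1 : Tendsto (fun n : ℕ => -(n : ℝ) + √2) atTop atBot := tendsto_atBot_add_const_right _ _ Hb2_seq
  have hseq2 : Tendsto (fun n : ℕ => -(n : ℝ) - 1) atTop atBot := by
    have := tendsto_atBot_add_const_right atTop (-1 : ℝ) Hb2_seq
    refine this.congr fun n => ?_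
    ring
  have hT1 : ∀ y, Tendsto (fun n : ℕ => Lm b α β lam (-(n : ℝ) + √2) y) atTop (𝓝 (Hb2_w b α β lam y)) :=
    fun y => (Hb2_tend hα hα2 hβ h G y).comp hseq1
  have hT2 : ∀ y, Tendsto (fun n : ℕ => Lm b α β lam (-(n : ℝ) - 1) y) atTop (𝓝 (Hb2_w b α β lam y)) :=
    fun y => (Hb2_tend hα hα2 hβ h G y).comp hseq2
  have hfT : ∀ y, Tendsto (fun n : ℕ => Hb2_f b (Lm b α β lam (-(n : ℝ) + √2)) (Lm b α β lam (-(n : ℝ) - 1)) y)
      atTop (𝓝 (Hb2_f b (Hb2_w b α β lam) (Hb2_w b α β lam) y)) := by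
    intro y
    unfold Hb2_f
    exact ENNReal.tendsto_ofReal (((hT1 y).mul ((hT2 y).const_sub 1)).const_mul _)
  have hfm : ∀ n : ℕ, Measurable (Hb2_f b (Lm b α β lam (-(n : ℝ) + √2)) (Lm b α β lam (-(n : ℝ) - 1))) :=
    fun n => Hb2_fmeas hb (lm_meas hα hα2 hβ h G _) (lm_meas hα hα2 hβ h G _)
  have hf1 : ∀ (n : ℕ) y, Hb2_f b (Lm b α β lam (-(n : ℝ) + √2)) (Lm b α β lam (-(n : ℝ) - 1)) y ≤ 1 :=
    fun n => Hb2_fle hb (fun y => (lm_01 hα hα2 hβ h G _ y).1) (fun y => (lm_01 hα hα2 hβ h G _ y).2)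
      (fun y => (lm_01 hα hα2 hβ h G _ y).1) (fun y => (lm_01 hα hα2 hβ h G _ y).2)
  have hA : Tendsto (fun n : ℕ => ∫⁻ ω, ENNReal.ofReal (Lm b α β lam (-(n : ℝ) + √2) (x + pt ω 1)) ∂W2) atTop
      (𝓝 (∫⁻ ω, ENNReal.ofReal (Hb2_w b α β lam (x + pt ω 1)) ∂W2)) := by
    refine Hb2_dom (fun n => ?_) (fun n ω => ?_) (fun ω => ?_)
    · exact ((lm_meas hα hα2 hβ h G _).comp (Hb2_pts x 1)).ennreal_ofReal
    · rw [← ENNReal.ofReal_one]
      exact ENNReal.ofReal_le_ofReal (lm_01 hα hα2 hβ h G _ _).2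
    · exact ENNReal.tendsto_ofReal (hT1 _)
  have hB : Tendsto (fun n : ℕ => ∫⁻ s in Ioc (0 : ℝ) 1,
        ∫⁻ ω, Hb2_f b (Lm b α β lam (-(n : ℝ) + √2)) (Lm b α β lam (-(n : ℝ) - 1)) (x + pt ω s) ∂W2) atTop
      (𝓝 (∫⁻ s in Ioc (0 : ℝ) 1, ∫⁻ ω, Hb2_f b (Hb2_w b α β lam) (Hb2_w b α β lam) (x + pt ω s) ∂W2)) := by
    refine Hb2_dom (fun n => ?_) (fun n s => ?_) (fun s => ?_)
    · exact ((hfm n).comp (Hb2_pt x)).lintegral_prod_right'
    · exact Hb2_int_le fun ω => hf1 n _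
    · exact Hb2_dom (fun n => (hfm n).comp (Hb2_pts x s)) (fun n ω => hf1 n _) (fun ω => hfT _)
  refine le_of_tendsto' (hA.add hB) fun n => ?_
  refine le_trans (lm_step hα hα2 hβ h G (-(n : ℝ)) x) ?_
  exact ENNReal.ofReal_le_ofReal (Hb2_le hα hα2 hβ h G _ x)

theorem Hb2_open (hα : 0 < α) (h : A12 b α β) :
    IsOpen {z : ℂ | z ∈ Complex.slitPlane ∧ 1 / 2 < b (Complex.arg z)} ∧
      {z : ℂ | z ∈ Complex.slitPlane ∧ 1 / 2 < b (Complex.arg z)}.Nonempty := by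
  constructor
  · rw [isOpen_iff_mem_nhds]
    rintro z ⟨hz1, hz2⟩
    have h1 : ContinuousAt (fun z : ℂ => b (Complex.arg z)) z :=
      (h.cont.continuousAt).comp (Complex.continuousAt_arg hz1)
    exact (Complex.isOpen_slitPlane.mem_nhds hz1 |> fun h2 => by
      filter_upwards [h2, h1.eventually (lt_mem_nhds hz2)] with y hy1 hy2
      exact ⟨hy1, hy2⟩)
  · refine ⟨1, Complex.one_mem_slitPlane, ?_⟩
    rw [Complex.arg_one, a12_one hα h]
    norm_num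

end

theorem h_bot {b : ℝ → ℝ} {α β lam ρ C : ℝ} {φ : ℝ → ℝ} (hα : 2 / 3 < α) (hα2 : α < 2) (hβ : 0 < β)
    (h : A12 b α β) (G : GS α lam ρ C φ) : Tendsto (fun a => Lm b α β lam a 0) atBot (𝓝 1) := by
  have hb : Rate b := a12_rate (by linarith) h
  set w := Hb2_w b α β lam with hw
  have hwm : Measurable w := Hb2_meas hα hα2 hβ h G
  have hpos : ∀ x, 0 < w x := Hb2_pos hα hα2 hβ h G
  have hone : ∀ x, w x ≤ 1 := Hb2_le_one hα hα2 hβ h G
  have key := Hb2_key hα hα2 hβ h G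
  rw [← hw] at key
  have hint : ∀ x, Integrable (fun ω => w (x + pt ω 1)) W2 := by
    intro x
    refine Integrable.of_bound (hwm.comp (Hb2_pts x 1)).aestronglyMeasurable 1
      (Eventually.of_forall fun ω => ?_)
    rw [Real.norm_eq_abs, abs_of_pos (hpos _)]
    exact hone _
  have hlin : ∀ x, ENNReal.ofReal (∫ ω, w (x + pt ω 1) ∂W2) = ∫⁻ ω, ENNReal.ofReal (w (x + pt ω 1)) ∂W2 :=
    fun x => ofReal_integral_eq_lintegral_ofReal (hint x) (Eventually.of_forall fun ω => (hpos _).le)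
  have hs : ∀ x, ∫ ω, w (x + pt ω 1) ∂W2 ≤ w x := by
    intro x
    have h1 : ENNReal.ofReal (∫ ω, w (x + pt ω 1) ∂W2) ≤ ENNReal.ofReal (w x) := by
      rw [hlin]
      exact le_trans le_self_add (key x)
    exact (ENNReal.ofReal_le_ofReal_iff (hpos x).le).1 h1
  obtain ⟨w0, hae, hall⟩ := liouville hwm (fun x => (hpos x).le) hone hs
  obtain ⟨x, hx⟩ := hae.exists
  have hw0 : 0 < w0 := hx ▸ hpos x
  have hw01 : w0 ≤ 1 := hx ▸ hone x
  have hG0 : ∫⁻ s in Ioc (0 : ℝ) 1, ∫⁻ ω, Hb2_f b w w (x + pt ω s) ∂W2 = 0 := by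
    have h1 := key x
    rw [← hlin, hall, hx] at h1
    have h2 : ENNReal.ofReal w0 + (∫⁻ s in Ioc (0 : ℝ) 1, ∫⁻ ω, Hb2_f b w w (x + pt ω s) ∂W2) ≤
        ENNReal.ofReal w0 + 0 := by rw [add_zero]; exact h1
    exact le_antisymm ((ENNReal.add_le_add_iff_left ENNReal.ofReal_ne_top).1 h2) zero_le
  have hfm := Hb2_fmeas hb hwm hwm
  have hIm : Measurable fun s : ℝ => ∫⁻ ω, Hb2_f b w w (x + pt ω s) ∂W2 :=
    (hfm.comp (Hb2_pt x)).lintegral_prod_right'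
  have hI0 := (lintegral_eq_zero_iff hIm).1 hG0
  have hne : (ae (volume.restrict (Ioc (0 : ℝ) 1))).NeBot := by
    rw [ae_neBot]
    intro h0
    have h1 := congrArg (fun μ : Measure ℝ => μ univ) h0
    simp at h1
  obtain ⟨s, hs0, hs1⟩ := (hI0.and (ae_restrict_mem measurableSet_Ioc)).exists
  have hs0' : ∫⁻ ω, Hb2_f b w w (x + pt ω s) ∂W2 = 0 := hs0
  have hz := (lintegral_eq_zero_iff (hfm.comp (Hb2_pts x s))).1 hs0'
  have hac := pt_ac hs1.1 x (N := {y | ¬ w y = w0}) hae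
  have hw1 : w0 = 1 := by
    by_contra hcon
    have hlt : w0 < 1 := lt_of_le_of_ne hw01 hcon
    obtain ⟨hO, hOne⟩ := Hb2_open (b := b) (β := β) (by linarith : 0 < α) h
    have hp := pt_open hs1.1 x hO hOne
    have hp0 : W2 {ω | x + pt ω s ∈ {z : ℂ | z ∈ Complex.slitPlane ∧ 1 / 2 < b (Complex.arg z)}} = 0 := by
      rw [measure_eq_zero_iff_ae_notMem]
      filter_upwards [hz, hac] with ω h1 h2 h3
      have h4 : w (x + pt ω s) = w0 := not_not.1 h2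
      have h5 : Hb2_f b w w (x + pt ω s) = 0 := h1
      unfold Hb2_f at h5
      rw [h4, ENNReal.ofReal_eq_zero] at h5
      have h6 : 1 / 2 < b (Complex.arg (x + pt ω s)) := h3.2
      have h7 : 0 < w0 * (1 - w0) := mul_pos hw0 (by linarith)
      nlinarith
    exact absurd hp0 hp.ne'
  have h0 : w 0 = 1 := by
    refine le_antisymm (hone 0) ?_
    have := hs 0
    rw [hall, hw1] at this
    exact this
  have hfin := Hb2_tend hα hα2 hβ h G 0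
  rw [← hw, h0] at hfin
  exact hfin

theorem h_cdf {b : ℝ → ℝ} {α β lam ρ C : ℝ} {φ : ℝ → ℝ} (hα : 2 / 3 < α) (hα2 : α < 2) (hβ : 0 < β)
    (h : A12 b α β) (G : GS α lam ρ C φ) :
    ∃ L : ℝ → ℝ, Antitone L ∧ Tendsto L atBot (𝓝 1) ∧ Tendsto L atTop (𝓝 0) ∧
      ∀ a, Tendsto (fun t => vf b (HP (mm α β lam t + a)) t 0) atTop (𝓝 (L a)) := by
  refine ⟨fun a => Lm b α β lam a 0, lm_anti hα hα2 hβ h G 0, h_bot hα hα2 hβ h G, ?_,
    fun a => lm_tendsto hα hα2 hβ h G a 0⟩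
  rw [Metric.tendsto_atTop]
  intro ε hε
  obtain ⟨a, ha⟩ := h_top hα hα2 hβ h G (half_pos hε)
  have h1 : Lm b α β lam a 0 ≤ ε / 2 := le_of_tendsto (lm_tendsto hα hα2 hβ h G a 0) ha
  refine ⟨a, fun a' ha' => ?_⟩
  have h2 : Lm b α β lam a' 0 ≤ Lm b α β lam a 0 := lm_anti hα hα2 hβ h G 0 ha'
  have h3 := (lm_01 hα hα2 hβ h G a' 0).1
  rw [Real.dist_eq, sub_zero, abs_of_nonneg h3]
  linarith

end Pool.H50.BB
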