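import Pool.Agent.H50.BB.FKv

/-!
# Row Lk: the maximum as a random variable; arbitrary probability spaces   (about 170 lines)

`mx_meas`: `measurable_of_Ioi`.  Let `S ω` be the image set (reals, `≥ 0`).  `z < sSup (S ω)` iff [`S ω` nonempty, bounded above and `∃ u alive, z < ‖pos‖`] or [(`S ω` empty or not bounded above) and `z < 0`] (`Real.sSup_empty`, `Real.sSup_of_not_bddAbove`,
`lt_csSup_iff`); `bounded above` iff `∃ n : ℕ, ∀ u, alive → ‖pos‖ ≤ n`; countable unions and intersections of measurable sets (`alive_meas`, `pos_meas`, `Countable (List Bool)`).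
`mx_tail`: `alive_finite`, `alive_nonempty`: for a.e. `ω` the set is finite and nonempty, so `z < sSup` iff `∃ u alive, z < ‖pos‖` (`Set.Finite.lt_csSup_iff` or `lt_csSup_iff`); `measure_congr`; `vf` is the `toReal` of a probability.
`pp_map`: `W = Wm` (`IsW.ext`), so all laws are `mk`; `iIndepFun_iff_map_fun_eq_infinitePi_map` (Mathlib, independence of an arbitrary family of measurable functions): the law of `ω ↦ (u ↦ ξ u ω)` is `infinitePi`.
-/

open MeasureTheory ProbabilityTheory Set Filter Topology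
open scoped NNReal ENNReal

namespace Pool.H50.BB

open Pool.Agent.H4.BM

/-- the maximal norm at time `t` (root started at the origin) -/
noncomputable def Mx (b : ℝ → ℝ) (ω : Cfg) (t : ℝ) : ℝ :=
  sSup ((fun u => ‖pos b u ω 0 t‖) '' {u | Alive b u ω 0 t})

theorem Lk_emb (t : ℝ) : Measurable fun ω : Cfg => ((ω, ((0 : ℂ), t)) : Cfg × ℂ × ℝ) :=
  measurable_id.prodMk measurable_const

theorem Lk_alive {b : ℝ → ℝ} (hb : Rate b) (t : ℝ) (u : List Bool) :
    MeasurableSet {ω : Cfg | Alive b u ω 0 t} :=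
  Lk_emb t (alive_meas hb u)

theorem Lk_pos {b : ℝ → ℝ} (hb : Rate b) (t : ℝ) (u : List Bool) :
    Measurable fun ω : Cfg => ‖pos b u ω 0 t‖ :=
  ((pos_meas hb u).comp (Lk_emb t)).norm

/-- the comparison with the supremum, when the set is bounded and nonempty -/
theorem Lk_lt {b : ℝ → ℝ} {ω : Cfg} {t z : ℝ}
    (hB : BddAbove ((fun u => ‖pos b u ω 0 t‖) '' {u | Alive b u ω 0 t}))
    (hN : ∃ u, Alive b u ω 0 t) :
    z < Mx b ω t ↔ ∃ u, Alive b u ω 0 t ∧ z < ‖pos b u ω 0 t‖ := by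
  unfold Mx
  obtain ⟨u0, hu0⟩ := hN
  rw [lt_csSup_iff hB ⟨_, u0, hu0, rfl⟩]
  constructor
  · rintro ⟨_, ⟨u, hu, rfl⟩, h⟩
    exact ⟨u, hu, h⟩
  · rintro ⟨u, hu, h⟩
    exact ⟨_, ⟨u, hu, rfl⟩, h⟩

theorem Lk_bdd {b : ℝ → ℝ} {ω : Cfg} {t : ℝ} :
    BddAbove ((fun u => ‖pos b u ω 0 t‖) '' {u | Alive b u ω 0 t}) ↔
      ∃ n : ℕ, ∀ u, Alive b u ω 0 t → ‖pos b u ω 0 t‖ ≤ n := by
  constructor
  · rintro ⟨M, hM⟩
    obtain ⟨n, hn⟩ := exists_nat_ge M
    exact ⟨n, fun u hu => (hM ⟨u, hu, rfl⟩).trans hn⟩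
  · rintro ⟨n, hn⟩
    refine ⟨n, ?_⟩
    rintro _ ⟨u, hu, rfl⟩
    exact hn u hu

theorem mx_meas {b : ℝ → ℝ} (hb : Rate b) (t : ℝ) : Measurable fun ω => Mx b ω t := by
  refine measurable_of_Ioi fun z => ?_
  have hB : MeasurableSet {ω : Cfg | ∃ n : ℕ, ∀ u, Alive b u ω 0 t → ‖pos b u ω 0 t‖ ≤ n} := by
    have e : {ω : Cfg | ∃ n : ℕ, ∀ u, Alive b u ω 0 t → ‖pos b u ω 0 t‖ ≤ n} =
        ⋃ n : ℕ, ⋂ u : List Bool,
          ({ω : Cfg | Alive b u ω 0 t}ᶜ ∪ {ω : Cfg | ‖pos b u ω 0 t‖ ≤ n}) := by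
      ext ω
      simp only [mem_ofPred_eq, mem_iUnion, mem_iInter, mem_union, mem_compl_iff]
      refine exists_congr fun n => forall_congr' fun u => ?_
      exact imp_iff_not_or
    rw [e]
    exact MeasurableSet.iUnion fun n => MeasurableSet.iInter fun u =>
      (Lk_alive hb t u).compl.union (measurableSet_le (Lk_pos hb t u) measurable_const)
  have hN : MeasurableSet {ω : Cfg | ∃ u, Alive b u ω 0 t} := by
    have e : {ω : Cfg | ∃ u, Alive b u ω 0 t} = ⋃ u : List Bool, {ω : Cfg | Alive b u ω 0 t} := by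
      ext ω
      simp only [mem_ofPred_eq, mem_iUnion]
    rw [e]
    exact MeasurableSet.iUnion fun u => Lk_alive hb t u
  have hE : MeasurableSet {ω : Cfg | ∃ u, Alive b u ω 0 t ∧ z < ‖pos b u ω 0 t‖} := by
    have e : {ω : Cfg | ∃ u, Alive b u ω 0 t ∧ z < ‖pos b u ω 0 t‖} =
        ⋃ u : List Bool, ({ω : Cfg | Alive b u ω 0 t} ∩ {ω : Cfg | z < ‖pos b u ω 0 t‖}) := by
      ext ω
      simp only [mem_ofPred_eq, mem_iUnion, mem_inter_iff]
    rw [e]
    exact MeasurableSet.iUnion fun u =>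
      (Lk_alive hb t u).inter (measurableSet_lt measurable_const (Lk_pos hb t u))
  have e : (fun ω => Mx b ω t) ⁻¹' Ioi z =
      ({ω : Cfg | ∃ n : ℕ, ∀ u, Alive b u ω 0 t → ‖pos b u ω 0 t‖ ≤ n} ∩
        {ω : Cfg | ∃ u, Alive b u ω 0 t ∧ z < ‖pos b u ω 0 t‖}) ∪
      (({ω : Cfg | ∃ n : ℕ, ∀ u, Alive b u ω 0 t → ‖pos b u ω 0 t‖ ≤ n} ∩
        {ω : Cfg | ∃ u, Alive b u ω 0 t})ᶜ ∩ {ω : Cfg | z < 0}) := by
    ext ω
    rw [mem_preimage, mem_Ioi, mem_union, mem_inter_iff, mem_inter_iff, mem_compl_iff,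
      mem_inter_iff]
    simp only [mem_ofPred_eq]
    by_cases h1 : ∃ n : ℕ, ∀ u, Alive b u ω 0 t → ‖pos b u ω 0 t‖ ≤ n
    · by_cases h2 : ∃ u, Alive b u ω 0 t
      · rw [Lk_lt (Lk_bdd.2 h1) h2]
        constructor
        · intro h
          exact Or.inl ⟨h1, h⟩
        · rintro (⟨_, h⟩ | ⟨h, _⟩)
          · exact h
          · exact absurd ⟨h1, h2⟩ h
      · have h3 : Mx b ω t = 0 := by
          unfold Mx
          have h4 : {u | Alive b u ω 0 t} = ∅ := by
            ext u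
            constructor
            · intro h
              exact absurd ⟨u, h⟩ h2
            · intro h
              exact absurd h (notMem_empty u)
          rw [h4, image_empty, Real.sSup_empty]
        rw [h3]
        constructor
        · intro h
          exact Or.inr ⟨fun h5 => h2 h5.2, h⟩
        · rintro (⟨_, u, hu, _⟩ | ⟨_, h⟩)
          · exact absurd ⟨u, hu⟩ h2
          · exact h
    · have h3 : Mx b ω t = 0 := by
        unfold Mx
        exact Real.sSup_of_not_bddAbove fun h => h1 (Lk_bdd.1 h)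
      rw [h3]
      constructor
      · intro h
        exact Or.inr ⟨fun h5 => h1 h5.1, h⟩
      · rintro (⟨h, _⟩ | ⟨_, h⟩)
        · exact absurd h h1
        · exact h
  rw [e]
  exact (hB.inter hE).union ((hB.inter hN).compl.inter (MeasurableSet.const _))

theorem mx_tail {b : ℝ → ℝ} (hb : Rate b) {t : ℝ} (ht : 0 ≤ t) (z : ℝ) :
    PP {ω | z < Mx b ω t} = ENNReal.ofReal (vf b {x | z < ‖x‖} t 0) := by
  unfold vf
  rw [ENNReal.ofReal_toReal (measure_ne_top _ _)]
  refine measure_congr ?_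
  filter_upwards [alive_finite hb ht 0, alive_nonempty hb ht 0] with ω h1 h2
  have h3 : BddAbove ((fun u => ‖pos b u ω 0 t‖) '' {u | Alive b u ω 0 t}) :=
    (h1.image _).bddAbove
  exact propext (Lk_lt h3 h2)

theorem pp_map {Ω : Type*} [MeasurableSpace Ω] {P : Measure Ω} [IsProbabilityMeasure P] {W : Measure Pth}
    (hW : IsW W) {ξ : List Bool → Ω → P2 × ℝ} (hm : ∀ u, Measurable (ξ u)) (hi : iIndepFun ξ P)
    (hl : ∀ u, P.map (ξ u) = (W.prod W).prod (expMeasure 1)) : P.map (fun ω u => ξ u ω) = PP := by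
  have hWm : W = Wm := hW.ext Wm_isW
  subst hWm
  rw [hi.map_fun_eq_infinitePi_map hm]
  unfold PP
  congr 1
  funext u
  exact hl u

end Pool.H50.BB
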