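import Mathlib

/-!
# Row Wk: weak convergence from tail functions   (about 110 lines, Mathlib only)

`F = 1 - L` is monotone; `ν = (Monotone.stieltjesFunction _).measure`, a probability measure (`StieltjesFunction.measure_univ` with the limits `0`, `1`; right limits have the same limits at infinity).
`S = {Ioc a b | a, b points of continuity of L}` is a π-system; `IsPiSystem.tendsto_probabilityMeasure_of_tendsto_of_mem` (Portmanteau.lean): the points of continuity are dense (`Antitone.countable_not_continuousAt`,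
`Set.Countable.dense_compl ℝ`), so every open set around `x` contains `Ioc a b ∋ x` with `a < x < b` points of continuity, a neighbourhood of `x`.
`μ t (Ioc a b) = μ t (Ioi a) - μ t (Ioi b) → L a - L b = F b - F a`, and `ν (Ioc a b) = ofReal (F(b+) - F(a+)) = ofReal (F b - F a)` for `a ≤ b` (for `b < a` both are `0`).
-/

open MeasureTheory ProbabilityTheory Set Filter Topology
open scoped NNReal ENNReal

namespace Pool.H50.BB

/-- the π-system -/
def Wk_S (L : ℝ → ℝ) : Set (Set ℝ) := {s | ∃ a b, ContinuousAt L a ∧ ContinuousAt L b ∧ s = Ioc a b}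

theorem Wk_pi (L : ℝ → ℝ) : IsPiSystem (Wk_S L) := by
  rintro s ⟨a, b, ha, hb, rfl⟩ t ⟨c, d, hc, hd, rfl⟩ _
  refine ⟨max a c, min b d, ?_, ?_, Ioc_inter_Ioc⟩
  · rcases max_choice a c with h | h <;> rw [h] <;> assumption
  · rcases min_choice b d with h | h <;> rw [h] <;> assumption

theorem Wk_dense {L : ℝ → ℝ} (hL : Antitone L) {x y : ℝ} (hxy : x < y) :
    ∃ z, x < z ∧ z < y ∧ ContinuousAt L z := by
  have h1 : Dense ({x : ℝ | ¬ContinuousAt L x}ᶜ) := (hL.countable_not_continuousAt).dense_compl ℝ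
  obtain ⟨z, hz, hz'⟩ := h1.exists_between hxy
  refine ⟨z, hz'.1, hz'.2, ?_⟩
  by_contra hc
  exact hz hc

theorem Wk_ioc (μ : Measure ℝ) [IsProbabilityMeasure μ] {a b : ℝ} (hab : a ≤ b) :
    μ.real (Ioc a b) = μ.real (Ioi a) - μ.real (Ioi b) := by
  have h1 : Ioi a = Ioc a b ∪ Ioi b := (Ioc_union_Ioi_eq_Ioi hab).symm
  have h2 : μ.real (Ioi a) = μ.real (Ioc a b) + μ.real (Ioi b) := by
    conv_lhs => rw [h1]
    refine measureReal_union ?_ measurableSet_Ioi
    rw [Set.disjoint_left]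
    intro z hz hz'
    exact absurd hz.2 (not_le.2 hz')
  linarith

theorem weak_of_tail {L : ℝ → ℝ} (hL : Antitone L) (h0 : Tendsto L atBot (𝓝 1)) (h1 : Tendsto L atTop (𝓝 0)) :
    ∃ ν : ProbabilityMeasure ℝ, ∀ μ : ℝ → ProbabilityMeasure ℝ,
      (∀ a, ContinuousAt L a → Tendsto (fun t => (μ t : Measure ℝ).real (Ioi a)) atTop (𝓝 (L a))) →
      Tendsto μ atTop (𝓝 ν) := by
  have hF : Monotone fun x => 1 - L x := fun a b h => by
    have := hL h
    simp only
    linarith
  have hG : ∀ x, ContinuousAt L x → hF.stieltjesFunction x = 1 - L x := by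
    intro x hx
    rw [Monotone.stieltjesFunction_eq]
    have h2 : ContinuousWithinAt (fun x => 1 - L x) (Ioi x) x :=
      (continuousAt_const.sub hx).continuousWithinAt
    exact (hF.continuousWithinAt_Ioi_iff_rightLim_eq).1 h2
  have t0 : Tendsto hF.stieltjesFunction atBot (𝓝 0) := by
    have h2 : Tendsto (fun x => 1 - L x) atBot (𝓝 0) := by
      have := h0.const_sub 1
      rwa [sub_self] at this
    have h3 : Tendsto (fun x => 1 - L (x + 1)) atBot (𝓝 0) :=
      h2.comp (tendsto_atBot_add_const_right _ 1 tendsto_id)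
    refine tendsto_of_tendsto_of_tendsto_of_le_of_le h2 h3 (fun x => ?_) (fun x => ?_)
    · exact hF.le_rightLim le_rfl
    · exact hF.rightLim_le (by linarith)
  have t1 : Tendsto hF.stieltjesFunction atTop (𝓝 1) := by
    have h2 : Tendsto (fun x => 1 - L x) atTop (𝓝 1) := by
      have := h1.const_sub 1
      rwa [sub_zero] at this
    have h3 : Tendsto (fun x => 1 - L (x + 1)) atTop (𝓝 1) :=
      h2.comp (tendsto_atTop_add_const_right _ 1 tendsto_id)
    refine tendsto_of_tendsto_of_tendsto_of_le_of_le h2 h3 (fun x => ?_) (fun x => ?_)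
    · exact hF.le_rightLim le_rfl
    · exact hF.rightLim_le (by linarith)
  have hP : IsProbabilityMeasure hF.stieltjesFunction.measure :=
    hF.stieltjesFunction.isProbabilityMeasure t0 t1
  obtain ⟨ν, hν⟩ : ∃ ν : ProbabilityMeasure ℝ, (ν : Measure ℝ) = hF.stieltjesFunction.measure :=
    ⟨⟨hF.stieltjesFunction.measure, hP⟩, rfl⟩
  refine ⟨ν, fun μ hμ => ?_⟩
  refine (Wk_pi L).tendsto_probabilityMeasure_of_tendsto_of_mem ?_ ?_ ?_
  · rintro s ⟨a, b, _, _, rfl⟩
    exact measurableSet_Ioc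
  · intro u hu x hx
    obtain ⟨l, r, hlr, hsub⟩ := mem_nhds_iff_exists_Ioo_subset.1 (hu.mem_nhds hx)
    obtain ⟨a, ha1, ha2, ha3⟩ := Wk_dense hL hlr.1
    obtain ⟨b, hb1, hb2, hb3⟩ := Wk_dense hL hlr.2
    refine ⟨Ioc a b, ⟨a, b, ha3, hb3, rfl⟩, Ioc_mem_nhds ha2 hb1, ?_⟩
    exact fun z hz => hsub ⟨ha1.trans hz.1, hz.2.trans_lt hb2⟩
  · rintro s ⟨a, b, ha, hb, rfl⟩
    rw [← NNReal.tendsto_coe]
    rcases le_or_gt a b with hab | hab
    · have e1 : ∀ t, ((μ t (Ioc a b) : ℝ≥0) : ℝ) =
          (μ t : Measure ℝ).real (Ioi a) - (μ t : Measure ℝ).real (Ioi b) :=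
        fun t => Wk_ioc (μ t : Measure ℝ) hab
      have e2 : ((ν (Ioc a b) : ℝ≥0) : ℝ) = L a - L b := by
        show ((ν : Measure ℝ) (Ioc a b)).toReal = _
        rw [hν, StieltjesFunction.measure_Ioc, hG a ha, hG b hb, ENNReal.toReal_ofReal]
        · ring
        · have := hL hab
          linarith
      rw [e2]
      simp only [e1]
      exact (hμ a ha).sub (hμ b hb)
    · rw [Ioc_eq_empty (not_lt.2 hab.le)]
      simp

end Pool.H50.BB
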