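import Pool.Agent.H50.BB.Far
import Pool.Agent.H50.BB.Hb2
import Pool.Agent.H50.BB.Lk
import Pool.Agent.H50.BB.Wk

/-!
# Final assembly
-/

open MeasureTheory ProbabilityTheory Set Filter Topology
open scoped NNReal ENNReal

namespace Pool.H50.BB

open Pool.Agent.H4.BM

/-- the centring of the problem -/
noncomputable def mt (α β lam0 t : ℝ) : ℝ :=
  √2 * t - lam0 * ((2 + α) / (2 - α)) * (β ^ (2 / (2 + α)) / 2 ^ (2 * α / (2 + α))) / √2 * t ^ ((2 - α) / (2 + α)) -
    (3 / (2 * √2) - α / (2 * √2 * (2 + α))) * Real.log t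

theorem mm_eq {α β lam : ℝ} (hα : 0 < α) (hα2 : α < 2) (hβ : 0 < β) (t : ℝ) :
    mm α β lam t = mt α β (2 ^ (α / (2 + α)) * lam) t := by
  have h2 : 0 < 2 + α := by linarith
  have h3 : 0 < 2 - α := by linarith
  have hs : 0 < √2 := by positivity
  have hkb : kb α β ^ 2 = (β ^ (2 / (2 + α)) * 2 ^ (-(α / (2 + α))))⁻¹ := by
    unfold kb
    rw [← Real.rpow_natCast, ← Real.rpow_mul (by positivity), Real.mul_rpow hβ.le (by positivity),
      ← Real.rpow_mul (by norm_num), mul_inv, ← Real.rpow_neg hβ.le, ← Real.rpow_neg (by norm_num)]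
    congr 2
    · push_cast
      field_simp
    · push_cast
      field_simp
  have e1 : (2 : ℝ) ^ (α / (2 + α)) / 2 ^ (2 * α / (2 + α)) = 2 ^ (-(α / (2 + α))) := by
    rw [← Real.rpow_sub (by norm_num)]
    congr 1
    ring
  have hk : kap α β lam t = 2 ^ (α / (2 + α)) * lam * ((2 + α) / (2 - α)) *
      (β ^ (2 / (2 + α)) / 2 ^ (2 * α / (2 + α))) / √2 * t ^ ((2 - α) / (2 + α)) := by
    have e2 : 2 ^ (α / (2 + α)) * lam * ((2 + α) / (2 - α)) *
      (β ^ (2 / (2 + α)) / 2 ^ (2 * α / (2 + α))) / √2 * t ^ ((2 - α) / (2 + α)) =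
      lam * ((2 + α) / (2 - α)) * (β ^ (2 / (2 + α)) * ((2 : ℝ) ^ (α / (2 + α)) / 2 ^ (2 * α / (2 + α)))) / √2 *
        t ^ ((2 - α) / (2 + α)) := by ring
    rw [e2, e1]
    unfold kap gg
    rw [hkb]
    have hb : 0 < β ^ (2 / (2 + α)) * (2 : ℝ) ^ (-(α / (2 + α))) := by positivity
    field_simp
  unfold mm mt
  rw [hk]
  have e3 : (3 - gam α) / (2 * √2) = 3 / (2 * √2) - α / (2 * √2 * (2 + α)) := by
    unfold gam
    field_simp
  rw [e3]

theorem vf_union {b : ℝ → ℝ} (A A' : Set ℂ) (t : ℝ) (x : ℂ) :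
    vf b (A ∪ A') t x ≤ vf b A t x + vf b A' t x := by
  unfold vf
  rw [← ENNReal.toReal_add (measure_ne_top _ _) (measure_ne_top _ _)]
  refine ENNReal.toReal_mono (ENNReal.add_ne_top.2 ⟨measure_ne_top _ _, measure_ne_top _ _⟩) ?_
  refine (measure_mono ?_).trans (measure_union_le _ _)
  rintro ω ⟨u, hu, hp | hp⟩
  · exact Or.inl ⟨u, hu, hp⟩
  · exact Or.inr ⟨u, hu, hp⟩

theorem norm_lim {b : ℝ → ℝ} {α β lam ρ C : ℝ} {φ : ℝ → ℝ} (hα : 2 / 3 < α) (hα2 : α < 2) (hβ : 0 < β)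
    (h : A12 b α β) (G : GS α lam ρ C φ) {L : ℝ → ℝ}
    (hlim : ∀ a, Tendsto (fun t => vf b (HP (mm α β lam t + a)) t 0) atTop (𝓝 (L a))) {a : ℝ} (hc : ContinuousAt L a) :
    Tendsto (fun t => vf b {x | mm α β lam t + a < ‖x‖} t 0) atTop (𝓝 (L a)) := by
  have hb : Rate b := a12_rate (by linarith) h
  rw [Metric.tendsto_atTop']
  intro ε hε
  obtain ⟨δ, hδ, hδ'⟩ := Metric.continuousAt_iff.1 hc (ε / 3) (by positivity)
  have h1 := hδ' (x := a - δ / 2) (by rw [Real.dist_eq]; rw [abs_lt]; constructor <;> linarith)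
  rw [Real.dist_eq, abs_lt] at h1
  have l1 := (hlim a).eventually_const_le (show L a - ε / 3 < L a by linarith)
  have l2 := (hlim (a - δ / 2)).eventually_le_const (show L (a - δ / 2) < L (a - δ / 2) + ε / 3 by linarith)
  have l3 := (far_angle hα hα2 hβ h G (ε := δ / 2) (by positivity) a).eventually_le_const
    (show (0 : ℝ) < ε / 3 - ε / 12 by linarith)
  obtain ⟨T, hT⟩ := Filter.eventually_atTop.1 (l1.and (l2.and l3))
  refine ⟨T, fun t ht => ?_⟩
  obtain ⟨g1, g2, g3⟩ := hT t ht.le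
  have u1 : vf b (HP (mm α β lam t + a)) t 0 ≤ vf b {x | mm α β lam t + a < ‖x‖} t 0 := by
    refine vf_mono hb ?_ t 0
    intro x hx
    exact lt_of_lt_of_le hx (Complex.re_le_norm x)
  have u2 : vf b {x | mm α β lam t + a < ‖x‖} t 0 ≤ vf b (HP (mm α β lam t + (a - δ / 2))) t 0 +
      vf b {x : ℂ | mm α β lam t + a < ‖x‖ ∧ x.re ≤ mm α β lam t + a - δ / 2} t 0 := by
    refine le_trans (vf_mono hb ?_ t 0) (vf_union _ _ t 0)
    intro x hx
    rcases lt_or_ge (mm α β lam t + a - δ / 2) x.re with h3 | h3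
    · left
      change mm α β lam t + (a - δ / 2) < x.re
      linarith
    · right
      exact ⟨hx, h3⟩
  rw [Real.dist_eq, abs_lt]
  constructor
  · linarith
  · linarith

theorem main {b : ℝ → ℝ} {α β lam ρ C : ℝ} {φ : ℝ → ℝ} (hα : 2 / 3 < α) (hα2 : α < 2) (hβ : 0 < β)
    (h : A12 b α β) (G : GS α lam ρ C φ) {Ω : Type*} [MeasurableSpace Ω] {P : Measure Ω} [IsProbabilityMeasure P]
    {W : Measure Pth} (hW : IsW W) {ξ : List Bool → Ω → P2 × ℝ} (hm : ∀ u, Measurable (ξ u)) (hi : iIndepFun ξ P)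
    (hl : ∀ u, P.map (ξ u) = (W.prod W).prod (expMeasure 1)) :
    ∃ (μ : Measure ℝ) (_ : IsProbabilityMeasure μ),
      TendstoInDistribution (fun t ω => Mx b (fun u => ξ u ω) t - mm α β lam t) atTop (id : ℝ → ℝ) (fun _ => P) μ := by
  have hb : Rate b := a12_rate (by linarith) h
  obtain ⟨L, hL, h0, h1, hlim⟩ := h_cdf hα hα2 hβ h G
  obtain ⟨ν, hν⟩ := weak_of_tail hL h0 h1
  have hξ : Measurable fun ω u => ξ u ω := measurable_pi_iff.2 hm
  have hM : ∀ t, Measurable fun ω => Mx b (fun u => ξ u ω) t - mm α β lam t := fun t =>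
    ((mx_meas hb t).comp hξ).sub measurable_const
  refine ⟨(ν : Measure ℝ), inferInstance, ?_⟩
  refine ⟨fun t => (hM t).aemeasurable, measurable_id.aemeasurable, ?_⟩
  have e : (⟨(ν : Measure ℝ).map id, Measure.isProbabilityMeasure_map measurable_id.aemeasurable⟩ :
      ProbabilityMeasure ℝ) = ν := by
    apply Subtype.ext
    change (ν : Measure ℝ).map id = ν
    rw [Measure.map_id]
  rw [e]
  refine hν _ fun a ha => ?_
  refine (norm_lim hα hα2 hβ h G hlim ha).congr' ?_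
  filter_upwards [eventually_ge_atTop 0] with t ht
  change _ = (P.map (fun ω => Mx b (fun u => ξ u ω) t - mm α β lam t)).real (Ioi a)
  have hM' : Measurable fun ω : Cfg => Mx b ω t - mm α β lam t := (mx_meas hb t).sub measurable_const
  have e1 : P.map (fun ω => Mx b (fun u => ξ u ω) t - mm α β lam t) =
      PP.map (fun ω => Mx b ω t - mm α β lam t) := by
    rw [← pp_map hW hm hi hl, Measure.map_map hM' hξ]
    rfl
  rw [e1, Measure.real, Measure.map_apply hM' measurableSet_Ioi]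
  have e2 : (fun ω => Mx b ω t - mm α β lam t) ⁻¹' Ioi a = {ω | mm α β lam t + a < Mx b ω t} := by
    ext ω
    simp only [mem_preimage, mem_Ioi, mem_setOf_eq]
    constructor <;> intro h <;> linarith
  rw [e2, mx_tail hb ht, ENNReal.toReal_ofReal (vf_nonneg _ _ _ _)]

end Pool.H50.BB
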