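import Pool.Agent.H50.BB.Defs

open MeasureTheory ProbabilityTheory Set Filter Topology
open scoped NNReal ENNReal

/-!
# Row Mea: measurability and elementary properties of clock, tau, Alive, pos, vf   (about 220 lines)

`pt w` is continuous (two coordinates, `Pth.continuous`), `pt` is jointly measurable (`measurable_eval2`, `Complex.measurable_mk`-like: use
`pt w s = (w.1 s : ℂ) + (w.2 s : ℂ) * I` or `Complex.measurableEquivRealProd.symm`).  `b ∘ Complex.arg` is measurable (`Complex.measurable_arg`).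
`clock_meas`: `clock b w x s = ∫ r, (indicator (Ioc 0 s) - indicator (Ioc s 0)) r * b (arg (x + pt w r))`; the integrand is jointly measurable in `(w,x,s),r`
(the two sets `{r in Ioc 0 s}` are measurable in `(s,r)`), so `StronglyMeasurable.integral_prod_right'`.
`clock_cont`: primitive of an interval integrable function (bounded by 1, measurable); `clock_mono`: the integrand is nonnegative.
`tau_spec`: if `0 < m.2 ≤ clock b m.1 x t`, `0 ≤ t`: the set `{s ≥ 0 | m.2 ≤ clock s}` is closed, contains `t`, is bounded below: so `tau` belongs to it, `0 ≤ tau ≤ t`,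
`m.2 ≤ clock tau`; moreover `tau ≤ s ↔ m.2 ≤ clock s` for `0 ≤ s` (monotone).  `clock tau = m.2` by continuity: `clock` at smaller times is `< m.2` (and `clock 0 = 0 < m.2` so `0 < tau`).
`tau_meas`: for `s ≤ 0`: `{tau < s}` is empty (`tau ≥ 0` always: `sInf` of a set of nonnegative numbers, also for the empty set). For `s > 0`:
`{tau < s} = {∃ q ∈ ℚ, 0 ≤ q < s, m.2 ≤ clock q} ∪ {∀ n : ℕ, clock n < m.2}`: if the set is empty then tau = 0 < s; it is empty iff clock n < m.2 for all n
(monotone); if it is not empty, `tau < s` iff some real `r < s` is in the set, and then every rational between `r` and `s` is in it (monotone).  `measurable_of_Iio`.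
`alive_meas, pos_meas`: induction on `u`, all functions `(ω, x, t) ↦ ...` are compositions of measurable maps (`sub c` is measurable: coordinates;
evaluation at `[]` is measurable).
`vf_meas`: the set `{(ω,(t,x)) | ∃ u, ...}` is a countable union of measurable sets; `measurable_measure_prodMk_left` (or right) and `ENNReal.toReal`.
-/

namespace Pool.H50.BB

open Pool.Agent.H4.BM

theorem pt_cont (w : P2) : Continuous (pt w) := by
  have h : pt w = fun s => Complex.equivRealProdCLM.symm (w.1 s, w.2 s) := by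
    funext s
    apply Complex.ext <;> simp [pt]
  rw [h]
  exact Complex.equivRealProdCLM.symm.continuous.comp (w.1.continuous.prodMk w.2.continuous)

theorem pt_meas : Measurable fun p : P2 × ℝ => pt p.1 p.2 := by
  have h : (fun p : P2 × ℝ => pt p.1 p.2) =
      fun p => Complex.equivRealProdCLM.symm (p.1.1 p.2, p.1.2 p.2) := by
    funext p
    apply Complex.ext <;> simp [pt]
  rw [h]
  exact Complex.equivRealProdCLM.symm.continuous.measurable.comp
    ((Pth.measurable_eval (measurable_fst.comp measurable_fst) measurable_snd).prodMk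
      (Pth.measurable_eval (measurable_snd.comp measurable_fst) measurable_snd))

theorem pt_zero (w : P2) : pt w 0 = 0 := by
  apply Complex.ext <;> simp [pt]

theorem barg_meas {b : ℝ → ℝ} (hb : Rate b) : Measurable fun x : ℂ => b (Complex.arg x) :=
  hb.cont.measurable.comp Complex.measurable_arg

theorem Mea_int_meas {b : ℝ → ℝ} (hb : Rate b) (w : P2) (x : ℂ) :
    Measurable fun r : ℝ => b (Complex.arg (x + pt w r)) :=
  (barg_meas hb).comp (measurable_const.add (pt_cont w).measurable)

theorem clock_int {b : ℝ → ℝ} (hb : Rate b) (w : P2) (x : ℂ) (s t : ℝ) :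
    IntervalIntegrable (fun r => b (Complex.arg (x + pt w r))) volume s t := by
  apply IntervalIntegrable.mono_fun (g := fun r => b (Complex.arg (x + pt w r)))
    (f := fun _ => (1 : ℝ)) intervalIntegrable_const
  · exact (Mea_int_meas hb w x).aestronglyMeasurable
  · refine Filter.Eventually.of_forall fun r => ?_
    simp only [Real.norm_eq_abs, abs_one]
    rw [abs_of_nonneg (hb.nonneg _)]
    exact hb.le_one _

theorem clock_zero (b : ℝ → ℝ) (w : P2) (x : ℂ) : clock b w x 0 = 0 := by
  simp [clock]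

theorem Mea_sub {b : ℝ → ℝ} (hb : Rate b) (w : P2) (x : ℂ) (s t : ℝ) :
    clock b w x t - clock b w x s = ∫ r in s..t, b (Complex.arg (x + pt w r)) := by
  unfold clock
  exact intervalIntegral.integral_interval_sub_left (clock_int hb w x 0 t) (clock_int hb w x 0 s)

theorem clock_mono {b : ℝ → ℝ} (hb : Rate b) (w : P2) (x : ℂ) : Monotone (clock b w x) := by
  intro s t hst
  have h1 := Mea_sub hb w x s t
  have h2 : 0 ≤ ∫ r in s..t, b (Complex.arg (x + pt w r)) :=
    intervalIntegral.integral_nonneg hst fun r _ => hb.nonneg _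
  linarith

theorem clock_le {b : ℝ → ℝ} (hb : Rate b) (w : P2) (x : ℂ) {s : ℝ} (hs : 0 ≤ s) :
    clock b w x s ≤ s := by
  unfold clock
  have h := intervalIntegral.integral_mono_on (a := 0) (b := s) (μ := volume) hs
    (clock_int hb w x 0 s) (intervalIntegrable_const (c := (1 : ℝ))) fun r _ => hb.le_one _
  simpa using h

theorem clock_cont {b : ℝ → ℝ} (hb : Rate b) (w : P2) (x : ℂ) : Continuous (clock b w x) := by
  unfold clock
  exact intervalIntegral.continuous_primitive (fun s t => clock_int hb w x s t) 0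

theorem clock_meas {b : ℝ → ℝ} (hb : Rate b) :
    Measurable fun p : P2 × ℂ × ℝ => clock b p.1 p.2.1 p.2.2 := by
  have h1 : ∀ μ : Measure ℝ, SFinite μ →
      Measurable fun q : P2 × ℂ => ∫ r, b (Complex.arg (q.2 + pt q.1 r)) ∂μ := by
    intro μ _
    have hm : Measurable fun z : (P2 × ℂ) × ℝ => b (Complex.arg (z.1.2 + pt z.1.1 z.2)) :=
      (barg_meas hb).comp ((measurable_snd.comp measurable_fst).add
        (pt_meas.comp ((measurable_fst.comp measurable_fst).prodMk measurable_snd)))
    exact (StronglyMeasurable.integral_prod_right' hm.stronglyMeasurable).measurable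
  have h2 : ∀ s : ℝ, Measurable fun q : P2 × ℂ => clock b q.1 q.2 s := by
    intro s
    unfold clock
    simp only [intervalIntegral]
    exact (h1 _ inferInstance).sub (h1 _ inferInstance)
  have h3 := measurable_uncurry_of_continuous_of_measurable
    (u := fun (s : ℝ) (q : P2 × ℂ) => clock b q.1 q.2 s)
    (fun q => clock_cont hb q.1 q.2) h2
  exact h3.comp ((measurable_snd.comp measurable_snd).prodMk
    (measurable_fst.prodMk (measurable_fst.comp measurable_snd)))

theorem tau_nonneg (b : ℝ → ℝ) (m : P2 × ℝ) (x : ℂ) : 0 ≤ tau b m x :=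
  Real.sInf_nonneg fun _ hs => hs.1

/-- the splitting time, on the event that there is a splitting before `t` -/
theorem tau_spec {b : ℝ → ℝ} (hb : Rate b) {m : P2 × ℝ} {x : ℂ} {t : ℝ} (ht : 0 ≤ t) (he : 0 < m.2)
    (h : m.2 ≤ clock b m.1 x t) :
    0 < tau b m x ∧ tau b m x ≤ t ∧ clock b m.1 x (tau b m x) = m.2 ∧
      ∀ s, 0 ≤ s → (tau b m x ≤ s ↔ m.2 ≤ clock b m.1 x s) := by
  have hbdd : BddBelow {s : ℝ | 0 ≤ s ∧ m.2 ≤ clock b m.1 x s} := ⟨0, fun _ hs => hs.1⟩
  have hne : {s : ℝ | 0 ≤ s ∧ m.2 ≤ clock b m.1 x s}.Nonempty := ⟨t, ht, h⟩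
  have hcl : IsClosed {s : ℝ | 0 ≤ s ∧ m.2 ≤ clock b m.1 x s} :=
    (isClosed_le continuous_const continuous_id).inter
      (isClosed_le continuous_const (clock_cont hb m.1 x))
  have hmem : tau b m x ∈ {s : ℝ | 0 ≤ s ∧ m.2 ≤ clock b m.1 x s} := hcl.csInf_mem hne hbdd
  have hle : ∀ s, 0 ≤ s → m.2 ≤ clock b m.1 x s → tau b m x ≤ s := fun s h1 h2 =>
    csInf_le hbdd ⟨h1, h2⟩
  have hpos : 0 < tau b m x := by
    rcases hmem.1.lt_or_eq with h0 | h0
    · exact h0
    · exfalso
      have h1 := hmem.2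
      rw [← h0, clock_zero] at h1
      linarith
  refine ⟨hpos, hle t ht h, ?_, ?_⟩
  · have hiv := intermediate_value_Icc hmem.1 (clock_cont hb m.1 x).continuousOn
    have h1 : m.2 ∈ Icc (clock b m.1 x 0) (clock b m.1 x (tau b m x)) := by
      rw [clock_zero]
      exact ⟨he.le, hmem.2⟩
    obtain ⟨s, hs, hs2⟩ := hiv h1
    have h3 : tau b m x ≤ s := hle s hs.1 hs2.ge
    have h4 : s = tau b m x := le_antisymm hs.2 h3
    rw [← h4]
    exact hs2
  · intro s hs
    exact ⟨fun h1 => hmem.2.trans (clock_mono hb m.1 x h1), fun h1 => hle s hs h1⟩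

theorem tau_meas {b : ℝ → ℝ} (hb : Rate b) :
    Measurable fun p : (P2 × ℝ) × ℂ => tau b p.1 p.2 := by
  refine measurable_of_Iio fun s => ?_
  have hcl : ∀ q : ℝ, Measurable fun p : (P2 × ℝ) × ℂ => clock b p.1.1 p.2 q := fun q =>
    (clock_meas hb).comp ((measurable_fst.comp measurable_fst).prodMk
      (measurable_snd.prodMk measurable_const))
  have he : Measurable fun p : (P2 × ℝ) × ℂ => p.1.2 := measurable_snd.comp measurable_fst
  rcases le_or_gt s 0 with hs | hs
  · have h0 : (fun p : (P2 × ℝ) × ℂ => tau b p.1 p.2) ⁻¹' Iio s = ∅ := by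
      ext p
      simp only [mem_preimage, mem_Iio, mem_empty_iff_false, iff_false, not_lt]
      exact hs.trans (tau_nonneg b p.1 p.2)
    rw [h0]
    exact MeasurableSet.empty
  · have h0 : (fun p : (P2 × ℝ) × ℂ => tau b p.1 p.2) ⁻¹' Iio s =
        (⋃ q : {q : ℚ // 0 ≤ (q : ℝ) ∧ (q : ℝ) < s}, {p | p.1.2 ≤ clock b p.1.1 p.2 (q : ℚ)}) ∪
        ⋂ n : ℕ, {p | clock b p.1.1 p.2 n < p.1.2} := by
      ext p
      simp only [mem_preimage, mem_Iio, mem_union, mem_iUnion, mem_ofPred_eq, mem_iInter]
      have hbdd : BddBelow {s : ℝ | 0 ≤ s ∧ p.1.2 ≤ clock b p.1.1 p.2 s} := ⟨0, fun _ hs => hs.1⟩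
      constructor
      · intro h
        by_cases hne : {s : ℝ | 0 ≤ s ∧ p.1.2 ≤ clock b p.1.1 p.2 s}.Nonempty
        · left
          obtain ⟨r, hr, hrs⟩ := (csInf_lt_iff hbdd hne).1 h
          obtain ⟨q, hq1, hq2⟩ := exists_rat_btwn hrs
          exact ⟨⟨q, hr.1.trans hq1.le, hq2⟩, hr.2.trans (clock_mono hb p.1.1 p.2 hq1.le)⟩
        · right
          intro n
          by_contra hcon
          exact hne ⟨n, Nat.cast_nonneg n, not_lt.1 hcon⟩
      · rintro (⟨q, hq⟩ | h)
        · exact lt_of_le_of_lt (csInf_le hbdd ⟨q.2.1, hq⟩) q.2.2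
        · have hemp : {s : ℝ | 0 ≤ s ∧ p.1.2 ≤ clock b p.1.1 p.2 s} = ∅ := by
            ext r
            simp only [mem_ofPred_eq, mem_empty_iff_false, iff_false, not_and, not_le]
            intro _
            obtain ⟨n, hn⟩ := exists_nat_ge r
            exact lt_of_le_of_lt (clock_mono hb p.1.1 p.2 hn) (h n)
          unfold tau
          rw [hemp, Real.sInf_empty]
          exact hs
    rw [h0]
    refine MeasurableSet.union (MeasurableSet.iUnion fun q => measurableSet_le he (hcl _))
      (MeasurableSet.iInter fun n => measurableSet_lt (hcl _) he)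

theorem sub_meas (c : Bool) : Measurable (sub c) :=
  measurable_pi_iff.2 fun u => measurable_pi_apply (c :: u)

theorem Mea_root : Measurable fun p : Cfg × ℂ × ℝ => p.1 [] :=
  (measurable_pi_apply []).comp measurable_fst

theorem Mea_tau {b : ℝ → ℝ} (hb : Rate b) :
    Measurable fun p : Cfg × ℂ × ℝ => tau b (p.1 []) p.2.1 :=
  (tau_meas hb).comp (Mea_root.prodMk (measurable_fst.comp measurable_snd))

theorem Mea_step {b : ℝ → ℝ} (hb : Rate b) (c : Bool) :
    Measurable fun p : Cfg × ℂ × ℝ =>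
      ((sub c p.1, (p.2.1 + pt (p.1 []).1 (tau b (p.1 []) p.2.1),
        p.2.2 - tau b (p.1 []) p.2.1)) : Cfg × ℂ × ℝ) :=
  ((sub_meas c).comp measurable_fst).prodMk
    (((measurable_fst.comp measurable_snd).add
      (pt_meas.comp ((measurable_fst.comp Mea_root).prodMk (Mea_tau hb)))).prodMk
      ((measurable_snd.comp measurable_snd).sub (Mea_tau hb)))

theorem Mea_clock {b : ℝ → ℝ} (hb : Rate b) :
    Measurable fun p : Cfg × ℂ × ℝ => clock b (p.1 []).1 p.2.1 p.2.2 :=
  (clock_meas hb).comp ((measurable_fst.comp Mea_root).prodMk measurable_snd)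

theorem alive_meas {b : ℝ → ℝ} (hb : Rate b) (u : List Bool) :
    MeasurableSet {p : Cfg × ℂ × ℝ | Alive b u p.1 p.2.1 p.2.2} := by
  induction u with
  | nil => exact measurableSet_lt (Mea_clock hb) (measurable_snd.comp Mea_root)
  | cons c u ih =>
    exact (measurableSet_le (measurable_snd.comp Mea_root) (Mea_clock hb)).inter
      (Mea_step hb c ih)

theorem pos_meas {b : ℝ → ℝ} (hb : Rate b) (u : List Bool) :
    Measurable fun p : Cfg × ℂ × ℝ => pos b u p.1 p.2.1 p.2.2 := by
  induction u with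
  | nil =>
    have h1 : Measurable fun p : Cfg × ℂ × ℝ => p.2.1 := measurable_fst.comp measurable_snd
    have h2 : Measurable fun p : Cfg × ℂ × ℝ => pt (p.1 []).1 p.2.2 :=
      pt_meas.comp ((measurable_fst.comp Mea_root).prodMk (measurable_snd.comp measurable_snd))
    exact h1.add h2
  | cons c u ih => exact ih.comp (Mea_step hb c)

/-- the event that some particle is in `A` at time `t` -/
theorem hit_meas {b : ℝ → ℝ} (hb : Rate b) {A : Set ℂ} (hA : MeasurableSet A) :
    MeasurableSet
      {p : Cfg × ℂ × ℝ | ∃ u, Alive b u p.1 p.2.1 p.2.2 ∧ pos b u p.1 p.2.1 p.2.2 ∈ A} := by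
  have h : {p : Cfg × ℂ × ℝ | ∃ u, Alive b u p.1 p.2.1 p.2.2 ∧ pos b u p.1 p.2.1 p.2.2 ∈ A} =
      ⋃ u : List Bool, ({p : Cfg × ℂ × ℝ | Alive b u p.1 p.2.1 p.2.2} ∩
        (fun p : Cfg × ℂ × ℝ => pos b u p.1 p.2.1 p.2.2) ⁻¹' A) := by
    ext p
    simp
  rw [h]
  exact MeasurableSet.iUnion fun u => (alive_meas hb u).inter (pos_meas hb u hA)

theorem vf_meas {b : ℝ → ℝ} (hb : Rate b) {A : Set ℂ} (hA : MeasurableSet A) :
    Measurable fun p : ℝ × ℂ => vf b A p.1 p.2 := by
  have hS : MeasurableSet {z : (ℝ × ℂ) × Cfg |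
      ∃ u, Alive b u z.2 z.1.2 z.1.1 ∧ pos b u z.2 z.1.2 z.1.1 ∈ A} := by
    have hm : Measurable fun z : (ℝ × ℂ) × Cfg => ((z.2, (z.1.2, z.1.1)) : Cfg × ℂ × ℝ) :=
      measurable_snd.prodMk ((measurable_snd.comp measurable_fst).prodMk
        (measurable_fst.comp measurable_fst))
    exact hm (hit_meas hb hA)
  exact (measurable_measure_prodMk_left (ν := PP) hS).ennreal_toReal

theorem vf_nonneg (b : ℝ → ℝ) (A : Set ℂ) (t : ℝ) (x : ℂ) : 0 ≤ vf b A t x :=
  ENNReal.toReal_nonneg

theorem vf_le_one (b : ℝ → ℝ) (A : Set ℂ) (t : ℝ) (x : ℂ) : vf b A t x ≤ 1 := by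
  unfold vf
  exact ENNReal.toReal_le_of_le_ofReal zero_le_one (by rw [ENNReal.ofReal_one]; exact prob_le_one)

end Pool.H50.BB
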