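import Pool.Agent.H50.BB.Brf
import Pool.Agent.H50.BB.Mea
import Pool.Agent.H50.BB.Dh

open MeasureTheory ProbabilityTheory Set Filter Topology
open scoped NNReal ENNReal

/-!
# Row Liou: bounded superharmonic functions of planar Brownian motion are constant   (about 200 lines)

`P_n w x = ∫ w(x + pt ω n) dW2 = ∫ w(x + √n z) dγ(z)`, `γ` the standard Gaussian measure on the plane (law of `pt ω 1`; `pt ω n` has the law of `√n pt ω 1`); `P_{n+1} = P_n P_1` (independent increments / Gaussian convolution; Markov property).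
`f = w - P_1 w ≥ 0`; `∑_{k=1}^n P_k f 0 = P_1 w 0 - P_{n+1} w 0 ≤ 1`.  `P_k f 0 = ∫ f(z) (2πk)⁻¹ e^{-|z|²/(2k)} dz ≥ (2πk)⁻¹ e^{-R²/2} ∫_{|z| ≤ R} f`; `∑ 1/k = ∞`, so `∫_{|z|≤R} f = 0` for all `R`: `f = 0` a.e.
Then `P_1 w = P_2 w = ... = P_n w` everywhere (the laws are absolutely continuous), and `|P_n w x - P_n w 0| = |∫ w(√n z)(g(z - x/√n) - g(z)) dz| ≤ ∫ |g(z - x/√n) - g(z)| dz → 0` (dominated convergence, `g` the Gaussian density;
or `1D` twice).  So `P_1 w = w0` is constant and `w = w0` a.e.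
(You may work with `marg` and `volume` on `ℝ × ℝ` and transfer to `ℂ` by `Complex.measurableEquivRealProd`.)
-/

namespace Pool.H50.BB

open Pool.Agent.H4.BM

theorem Liou_J : Measurable fun p : ℝ × ℝ => (⟨p.1, p.2⟩ : ℂ) :=
  Complex.measurableEquivRealProd.symm.measurable

theorem Liou_pm (s : ℝ) : Measurable fun ω : P2 => pt ω s :=
  pt_meas.comp (measurable_id.prodMk measurable_const)

theorem Liou_dm (s : ℝ) : Measurable fun z : ℂ => ENNReal.ofReal (gd s z.re * gd s z.im) :=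
  (((gd_meas s).comp Complex.measurable_re).mul ((gd_meas s).comp Complex.measurable_im)).ennreal_ofReal

/-- the law of the position -/
theorem Liou_law {s : ℝ} (hs : 0 < s) {F : ℂ → ℝ≥0∞} (hF : Measurable F) :
    ∫⁻ ω, F (pt ω s) ∂W2 = ∫⁻ z : ℂ, F z * ENNReal.ofReal (gd s z.re * gd s z.im) := by
  have h1 : ∫⁻ ω, F (pt ω s) ∂W2 = ∫⁻ a, ∫⁻ b, F (pt (a, b) s) ∂Wm ∂Wm := by
    unfold W2
    exact lintegral_prod _ (hF.comp (Liou_pm s)).aemeasurable
  have h2 : ∀ a : Pth, ∫⁻ b, F (pt (a, b) s) ∂Wm = ∫⁻ y, F ⟨a s, y⟩ * ENNReal.ofReal (gd s y) := by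
    intro a
    exact marg hs (f := fun y => F ⟨a s, y⟩) (hF.comp (Liou_J.comp (measurable_const.prodMk measurable_id)))
  have hm : Measurable fun p : ℝ × ℝ => F ⟨p.1, p.2⟩ * ENNReal.ofReal (gd s p.2) :=
    (hF.comp Liou_J).mul ((gd_meas s).comp measurable_snd).ennreal_ofReal
  have h3 : ∫⁻ a : Pth, (∫⁻ y, F ⟨a s, y⟩ * ENNReal.ofReal (gd s y)) ∂Wm =
      ∫⁻ x, (∫⁻ y, F ⟨x, y⟩ * ENNReal.ofReal (gd s y)) * ENNReal.ofReal (gd s x) :=
    marg hs (f := fun x => ∫⁻ y, F ⟨x, y⟩ * ENNReal.ofReal (gd s y)) hm.lintegral_prod_right'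
  have hH : Measurable fun z : ℂ => F z * ENNReal.ofReal (gd s z.re * gd s z.im) := hF.mul (Liou_dm s)
  have h4 : ∫⁻ z : ℂ, F z * ENNReal.ofReal (gd s z.re * gd s z.im) =
      ∫⁻ p : ℝ × ℝ, F ⟨p.1, p.2⟩ * ENNReal.ofReal (gd s p.1 * gd s p.2) := by
    rw [← (Complex.volume_preserving_equiv_real_prod.symm).lintegral_comp hH]
    rfl
  rw [h1, lintegral_congr h2, h3, h4, Measure.volume_eq_prod, lintegral_prod]
  · refine lintegral_congr fun x => ?_
    rw [← lintegral_mul_const]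
    · refine lintegral_congr fun y => ?_
      rw [mul_assoc, mul_comm (ENNReal.ofReal (gd s y)), ← ENNReal.ofReal_mul (gd_nonneg s x)]
    · exact hm.comp (measurable_const.prodMk measurable_id)
  · refine Measurable.aemeasurable ?_
    exact (hF.comp Liou_J).mul
      (((gd_meas s).comp measurable_fst).mul ((gd_meas s).comp measurable_snd)).ennreal_ofReal

theorem Liou_gd_pos {s : ℝ} (hs : 0 < s) (x : ℝ) : 0 < gd s x := by
  unfold gd
  have := Real.pi_pos
  positivity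

theorem Liou_null {s : ℝ} (hs : 0 < s) (x : ℂ) {N : Set ℂ} (hN : MeasurableSet N) :
    W2 {ω | x + pt ω s ∈ N} = 0 ↔ volume N = 0 := by
  have hxN : MeasurableSet {z : ℂ | x + z ∈ N} := (measurable_const_add x) hN
  have h1 : W2 {ω | x + pt ω s ∈ N} =
      ∫⁻ z : ℂ, ({z : ℂ | x + z ∈ N}.indicator 1 z) * ENNReal.ofReal (gd s z.re * gd s z.im) := by
    rw [← Liou_law hs (measurable_one.indicator hxN)]
    have h2 : MeasurableSet {ω | x + pt ω s ∈ N} := (Liou_pm s) hxN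
    rw [← lintegral_indicator_one h2]
    rfl
  have hmm : Measurable fun z : ℂ => ({z : ℂ | x + z ∈ N}.indicator 1 z : ℝ≥0∞) *
      ENNReal.ofReal (gd s z.re * gd s z.im) := (measurable_one.indicator hxN).mul (Liou_dm s)
  rw [h1, lintegral_eq_zero_iff hmm]
  have h3 : volume N = volume {z : ℂ | x + z ∈ N} := (measure_preimage_add volume x N).symm
  rw [h3, measure_eq_zero_iff_ae_notMem]
  apply eventually_congr
  refine Eventually.of_forall fun z => ?_
  have hpos : ENNReal.ofReal (gd s z.re * gd s z.im) ≠ 0 := by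
    have := mul_pos (Liou_gd_pos hs z.re) (Liou_gd_pos hs z.im)
    exact (ENNReal.ofReal_pos.2 this).ne'
  constructor
  · intro h hz
    have h5 : ({z : ℂ | x + z ∈ N}.indicator 1 z : ℝ≥0∞) * ENNReal.ofReal (gd s z.re * gd s z.im) = 0 := h
    rw [Set.indicator_of_mem hz, Pi.one_apply, one_mul] at h5
    exact hpos h5
  · intro h
    show ({z : ℂ | x + z ∈ N}.indicator 1 z : ℝ≥0∞) * ENNReal.ofReal (gd s z.re * gd s z.im) = 0
    rw [Set.indicator_of_notMem h, zero_mul]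

/-- the position at a positive time has an absolutely continuous law -/
theorem pt_ac {s : ℝ} (hs : 0 < s) (x : ℂ) {N : Set ℂ} (hN : volume N = 0) :
    ∀ᵐ ω ∂W2, x + pt ω s ∉ N := by
  have h1 : W2 {ω | x + pt ω s ∈ toMeasurable volume N} = 0 :=
    (Liou_null hs x (measurableSet_toMeasurable _ _)).2 (by rw [measure_toMeasurable, hN])
  have h2 : ∀ᵐ ω ∂W2, ω ∉ {ω | x + pt ω s ∈ toMeasurable volume N} :=
    measure_eq_zero_iff_ae_notMem.1 h1
  filter_upwards [h2] with ω hω h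
  exact hω (subset_toMeasurable _ _ h)

/-- the position at a positive time charges nonempty open sets -/
theorem pt_open {s : ℝ} (hs : 0 < s) (x : ℂ) {O : Set ℂ} (hO : IsOpen O) (hne : O.Nonempty) :
    0 < W2 {ω | x + pt ω s ∈ O} := by
  rw [pos_iff_ne_zero, Ne, Liou_null hs x hO.measurableSet]
  exact (hO.measure_pos volume hne).ne'

theorem Liou_dens {R : ℝ} {k : ℕ} {z : ℂ} (hz : ‖z‖ ≤ R) :
    (2 * Real.pi)⁻¹ * Real.exp (-R ^ 2 / 2) * (1 / ((k : ℝ) + 1)) ≤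
      gd ((k : ℝ) + 1) z.re * gd ((k : ℝ) + 1) z.im := by
  have hpi := Real.pi_pos
  have hk : (0 : ℝ) < (k : ℝ) + 1 := by positivity
  have hk1 : (1 : ℝ) ≤ (k : ℝ) + 1 := by
    have : (0 : ℝ) ≤ k := Nat.cast_nonneg k
    linarith
  have h1 : gd ((k : ℝ) + 1) z.re * gd ((k : ℝ) + 1) z.im =
      (2 * Real.pi)⁻¹ * Real.exp (-‖z‖ ^ 2 / (2 * ((k : ℝ) + 1))) * (1 / ((k : ℝ) + 1)) := by
    unfold gd
    have h2 : (√(2 * Real.pi * ((k : ℝ) + 1)))⁻¹ * (√(2 * Real.pi * ((k : ℝ) + 1)))⁻¹ =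
        (2 * Real.pi)⁻¹ * (1 / ((k : ℝ) + 1)) := by
      rw [← mul_inv, Real.mul_self_sqrt (by positivity)]
      field_simp
    have h3 : Real.exp (-‖z‖ ^ 2 / (2 * ((k : ℝ) + 1))) =
        Real.exp (-z.re ^ 2 / (2 * ((k : ℝ) + 1))) * Real.exp (-z.im ^ 2 / (2 * ((k : ℝ) + 1))) := by
      rw [← Real.exp_add, ← Complex.normSq_eq_norm_sq, Complex.normSq_apply]
      congr 1
      ring
    rw [h3]
    linear_combination (Real.exp (-z.re ^ 2 / (2 * ((k : ℝ) + 1))) *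
      Real.exp (-z.im ^ 2 / (2 * ((k : ℝ) + 1)))) * h2
  rw [h1]
  have h4 : Real.exp (-R ^ 2 / 2) ≤ Real.exp (-‖z‖ ^ 2 / (2 * ((k : ℝ) + 1))) := by
    apply Real.exp_le_exp.2
    have h5 : ‖z‖ ^ 2 ≤ R ^ 2 := pow_le_pow_left₀ (norm_nonneg _) hz 2
    have h6 : ‖z‖ ^ 2 / (2 * ((k : ℝ) + 1)) ≤ R ^ 2 / 2 := by
      rw [div_le_div_iff₀ (by positivity) (by norm_num)]
      nlinarith [sq_nonneg ‖z‖, sq_nonneg R]
    have h7 : -‖z‖ ^ 2 / (2 * ((k : ℝ) + 1)) = -(‖z‖ ^ 2 / (2 * ((k : ℝ) + 1))) := by ring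
    have h8 : -R ^ 2 / 2 = -(R ^ 2 / 2) := by ring
    rw [h7, h8]
    linarith
  gcongr

/-- recurrence: a function with summable expectations vanishes almost everywhere -/
theorem Liou_rec {F : ℂ → ℝ≥0∞} (hF : Measurable F) {C : ℝ≥0∞} (hC : C ≠ ∞)
    (h : ∀ n : ℕ, ∑ k ∈ Finset.range n, ∫⁻ ω, F (pt ω ((k : ℝ) + 1)) ∂W2 ≤ C) :
    ∀ᵐ z : ℂ, F z = 0 := by
  have hpi := Real.pi_pos
  have key : ∀ R : ℕ, ∫⁻ z in Metric.closedBall (0 : ℂ) R, F z = 0 := by
    intro R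
    by_contra hI
    set I := ∫⁻ z in Metric.closedBall (0 : ℂ) R, F z with hIdef
    set c : ℝ := (2 * Real.pi)⁻¹ * Real.exp (-(R : ℝ) ^ 2 / 2) with hc
    have hc0 : 0 < c := by positivity
    have h1 : ∀ k : ℕ, ENNReal.ofReal (c * (1 / ((k : ℝ) + 1))) * I ≤ ∫⁻ ω, F (pt ω ((k : ℝ) + 1)) ∂W2 := by
      intro k
      rw [Liou_law (by positivity) hF, hIdef, ← lintegral_const_mul _ hF]
      refine le_trans ?_ (setLIntegral_le_lintegral (Metric.closedBall (0 : ℂ) R) _)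
      refine setLIntegral_mono (hF.mul (Liou_dm _)) fun z hz => ?_
      rw [mul_comm]
      have h2 : ‖z‖ ≤ R := by simpa using hz
      exact mul_le_mul_right (ENNReal.ofReal_le_ofReal (Liou_dens h2)) (F z)
    have h2 : ∀ n : ℕ, c * ∑ k ∈ Finset.range n, (1 / ((k : ℝ) + 1)) ≤ (C / I).toReal := by
      intro n
      have h3 : ENNReal.ofReal (c * ∑ k ∈ Finset.range n, (1 / ((k : ℝ) + 1))) * I ≤ C := by
        rw [Finset.mul_sum, ENNReal.ofReal_sum_of_nonneg (fun k _ => by positivity), Finset.sum_mul]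
        exact (Finset.sum_le_sum fun k _ => h1 k).trans (h n)
      have h4 : ENNReal.ofReal (c * ∑ k ∈ Finset.range n, (1 / ((k : ℝ) + 1))) ≤ C / I :=
        (ENNReal.le_div_iff_mul_le (Or.inl hI) (Or.inr hC)).2 h3
      have h5 : C / I ≠ ∞ := ENNReal.div_ne_top hC hI
      exact (ENNReal.ofReal_le_iff_le_toReal h5).1 h4
    have h3 := (Real.tendsto_sum_range_one_div_nat_succ_atTop.const_mul_atTop hc0).eventually_gt_atTop
      (C / I).toReal
    obtain ⟨n, hn⟩ := h3.exists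
    exact absurd (h2 n) (not_le.2 hn)
  have key2 : ∀ᵐ z : ℂ, ∀ R : ℕ, z ∈ Metric.closedBall (0 : ℂ) R → F z = 0 := by
    rw [ae_all_iff]
    intro R
    have h1 := (lintegral_eq_zero_iff hF).1 (key R)
    exact (ae_restrict_iff' Metric.isClosed_closedBall.measurableSet).1 h1
  filter_upwards [key2] with z hz
  obtain ⟨R, hR⟩ := exists_nat_ge ‖z‖
  exact hz R (by simpa using hR)

theorem Liou_pt_stop (c : ℝ≥0) (ω : P2) : pt (stop2 c ω) c = pt ω c := by
  unfold pt stop2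
  simp [Pth.stop]

theorem Liou_pt_shift (c : ℝ≥0) (ω : P2) : pt ω c + pt (shift2 c ω) 1 = pt ω ((c : ℝ) + 1) := by
  unfold pt shift2
  apply Complex.ext
  · show ω.1 c + Pth.shift c ω.1 1 = ω.1 (c + 1)
    rw [Pth.shift_apply_of_nonneg c ω.1 (by norm_num : (0 : ℝ) ≤ 1)]
    ring
  · show ω.2 c + Pth.shift c ω.2 1 = ω.2 (c + 1)
    rw [Pth.shift_apply_of_nonneg c ω.2 (by norm_num : (0 : ℝ) ≤ 1)]
    ring

theorem Liou_mk (c : ℝ≥0) {H : ℂ × ℂ → ℝ≥0∞} (hH : Measurable H) :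
    ∫⁻ ω, H (pt ω c, pt ω ((c : ℝ) + 1)) ∂W2 = ∫⁻ ω, ∫⁻ ω', H (pt ω c, pt ω c + pt ω' 1) ∂W2 ∂W2 := by
  have hm : Measurable fun p : P2 × P2 => H (pt p.1 c, pt p.1 c + pt p.2 1) := by
    have h1 : Measurable fun p : P2 × P2 => pt p.1 c := (Liou_pm c).comp measurable_fst
    have h2 : Measurable fun p : P2 × P2 => pt p.2 1 := (Liou_pm 1).comp measurable_snd
    exact hH.comp (h1.prodMk (h1.add h2))
  have h := lintegral_markov2 c hm
  simp only [Liou_pt_stop, Liou_pt_shift] at h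
  exact h

theorem liouville {w : ℂ → ℝ} (hw : Measurable w) (h0 : ∀ x, 0 ≤ w x) (h1 : ∀ x, w x ≤ 1)
    (hs : ∀ x, ∫ ω, w (x + pt ω 1) ∂W2 ≤ w x) :
    ∃ w0 : ℝ, (∀ᵐ x : ℂ, w x = w0) ∧ ∀ x, ∫ ω, w (x + pt ω 1) ∂W2 = w0 := by
  have hW : IsProbabilityMeasure W2 := inferInstance
  have hwi : ∀ (s : ℝ) (x : ℂ), Integrable (fun ω => w (x + pt ω s)) W2 := fun s x =>
    Integrable.of_bound (hw.comp ((Liou_pm s).const_add x)).aestronglyMeasurable 1
      (Eventually.of_forall fun ω => by rw [Real.norm_eq_abs, abs_of_nonneg (h0 _)]; exact h1 _)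
  have hwi' : ∀ (s : ℝ), Integrable (fun ω => w (pt ω s)) W2 := fun s =>
    Integrable.of_bound (hw.comp (Liou_pm s)).aestronglyMeasurable 1
      (Eventually.of_forall fun ω => by rw [Real.norm_eq_abs, abs_of_nonneg (h0 _)]; exact h1 _)
  have hwi2 : ∀ (s : ℝ), Integrable (fun ω => w (pt ω s) ^ 2) W2 := fun s =>
    Integrable.of_bound ((hw.comp (Liou_pm s)).pow_const 2).aestronglyMeasurable 1
      (Eventually.of_forall fun ω => by
        rw [Real.norm_eq_abs, abs_of_nonneg (by positivity)]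
        exact pow_le_one₀ (h0 _) (h1 _))
  set m : ℝ → ℝ := fun s => ∫ ω, w (pt ω s) ∂W2 with hm
  set q : ℝ → ℝ := fun s => ∫ ω, w (pt ω s) ^ 2 ∂W2 with hq
  set F : ℂ → ℝ≥0∞ := fun z => ∫⁻ ω, ENNReal.ofReal ((w (z + pt ω 1) - w z) ^ 2) ∂W2 with hFdef
  have hFm : Measurable F := by
    have h2 : Measurable fun p : ℂ × P2 => ENNReal.ofReal ((w (p.1 + pt p.2 1) - w p.1) ^ 2) := by
      have h3 : Measurable fun p : ℂ × P2 => pt p.2 1 := (Liou_pm 1).comp measurable_snd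
      exact (((hw.comp (measurable_fst.add h3)).sub (hw.comp measurable_fst)).pow_const 2).ennreal_ofReal
    exact h2.lintegral_prod_right'
  -- one step
  have step : ∀ c : ℝ≥0, ∫⁻ ω, F (pt ω c) ∂W2 =
      ENNReal.ofReal (∫ ω, (w (pt ω ((c : ℝ) + 1)) - w (pt ω c)) ^ 2 ∂W2) ∧
      ∫ ω, (w (pt ω ((c : ℝ) + 1)) - w (pt ω c)) ^ 2 ∂W2 ≤ q (c + 1) - q c + 2 * (m c - m (c + 1)) := by
    intro c
    have e1 : ∫⁻ ω, F (pt ω c) ∂W2 = ∫⁻ ω, ENNReal.ofReal ((w (pt ω ((c : ℝ) + 1)) - w (pt ω c)) ^ 2) ∂W2 := by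
      rw [hFdef]
      exact (Liou_mk c (H := fun p => ENNReal.ofReal ((w p.2 - w p.1) ^ 2))
        (((hw.comp measurable_snd).sub (hw.comp measurable_fst)).pow_const 2).ennreal_ofReal).symm
    have hi1 : Integrable (fun ω => (w (pt ω ((c : ℝ) + 1)) - w (pt ω c)) ^ 2) W2 := by
      refine Integrable.of_bound (((hw.comp (Liou_pm _)).sub (hw.comp (Liou_pm _))).pow_const 2).aestronglyMeasurable 1
        (Eventually.of_forall fun ω => ?_)
      rw [Real.norm_eq_abs, abs_of_nonneg (by positivity)]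
      rw [sq_le_one_iff_abs_le_one, abs_le]
      constructor <;> linarith [h0 (pt ω ((c : ℝ) + 1)), h1 (pt ω ((c : ℝ) + 1)), h0 (pt ω c), h1 (pt ω c)]
    refine ⟨by rw [e1, ← ofReal_integral_eq_lintegral_ofReal hi1 (Eventually.of_forall fun ω => by positivity)], ?_⟩
    -- `E [(1 - w a) w b] ≤ E [(1 - w a) w a]`, with lintegrals
    have hle : ∫ ω, (1 - w (pt ω c)) * w (pt ω ((c : ℝ) + 1)) ∂W2 ≤ ∫ ω, (1 - w (pt ω c)) * w (pt ω c) ∂W2 := by
      have j1 : Integrable (fun ω => (1 - w (pt ω c)) * w (pt ω ((c : ℝ) + 1))) W2 := by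
        refine Integrable.of_bound ((measurable_const.sub (hw.comp (Liou_pm _))).mul
          (hw.comp (Liou_pm _))).aestronglyMeasurable 1 (Eventually.of_forall fun ω => ?_)
        rw [Real.norm_eq_abs, abs_of_nonneg (mul_nonneg (by linarith [h1 (pt ω c)]) (h0 _))]
        exact mul_le_one₀ (by linarith [h0 (pt ω c)]) (h0 _) (h1 _)
      have j2 : Integrable (fun ω => (1 - w (pt ω c)) * w (pt ω c)) W2 := by
        refine Integrable.of_bound ((measurable_const.sub (hw.comp (Liou_pm _))).mul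
          (hw.comp (Liou_pm _))).aestronglyMeasurable 1 (Eventually.of_forall fun ω => ?_)
        rw [Real.norm_eq_abs, abs_of_nonneg (mul_nonneg (by linarith [h1 (pt ω c)]) (h0 _))]
        exact mul_le_one₀ (by linarith [h0 (pt ω c)]) (h0 _) (h1 _)
      have j3 : ∀ ω, 0 ≤ (1 - w (pt ω c)) * w (pt ω ((c : ℝ) + 1)) := fun ω =>
        mul_nonneg (by linarith [h1 (pt ω c)]) (h0 _)
      have j4 : ∀ ω, 0 ≤ (1 - w (pt ω c)) * w (pt ω c) := fun ω =>
        mul_nonneg (by linarith [h1 (pt ω c)]) (h0 _)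
      have k1 := ofReal_integral_eq_lintegral_ofReal j1 (Eventually.of_forall j3)
      have k2 := ofReal_integral_eq_lintegral_ofReal j2 (Eventually.of_forall j4)
      have k3 : ∫⁻ ω, ENNReal.ofReal ((1 - w (pt ω c)) * w (pt ω ((c : ℝ) + 1))) ∂W2 ≤
          ∫⁻ ω, ENNReal.ofReal ((1 - w (pt ω c)) * w (pt ω c)) ∂W2 := by
        rw [Liou_mk c (H := fun p => ENNReal.ofReal ((1 - w p.1) * w p.2))
          ((measurable_const.sub (hw.comp measurable_fst)).mul (hw.comp measurable_snd)).ennreal_ofReal]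
        refine lintegral_mono fun ω => ?_
        have l1 : Integrable (fun ω' => (1 - w (pt ω c)) * w (pt ω c + pt ω' 1)) W2 :=
          (hwi 1 (pt ω c)).const_mul _
        show ∫⁻ ω', ENNReal.ofReal ((1 - w (pt ω c)) * w (pt ω c + pt ω' 1)) ∂W2 ≤ _
        rw [← ofReal_integral_eq_lintegral_ofReal l1 (Eventually.of_forall fun ω' =>
          mul_nonneg (by linarith [h1 (pt ω c)]) (h0 _)), integral_const_mul]
        apply ENNReal.ofReal_le_ofReal
        exact mul_le_mul_of_nonneg_left (hs _) (by linarith [h1 (pt ω c)])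
      rw [← k1, ← k2] at k3
      exact (ENNReal.ofReal_le_ofReal_iff (integral_nonneg j4)).1 k3
    have e2 : ∫ ω, (1 - w (pt ω c)) * w (pt ω ((c : ℝ) + 1)) ∂W2 = 
        m (c + 1) - ∫ ω, w (pt ω c) * w (pt ω ((c : ℝ) + 1)) ∂W2 := by
      have j5 : Integrable (fun ω => w (pt ω c) * w (pt ω ((c : ℝ) + 1))) W2 := by
        refine Integrable.of_bound ((hw.comp (Liou_pm _)).mul
          (hw.comp (Liou_pm _))).aestronglyMeasurable 1 (Eventually.of_forall fun ω => ?_)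
        rw [Real.norm_eq_abs, abs_of_nonneg (mul_nonneg (h0 _) (h0 _))]
        exact mul_le_one₀ (h1 _) (h0 _) (h1 _)
      rw [hm]
      simp only []
      rw [← integral_sub (hwi' _) j5]
      exact integral_congr_ae (Eventually.of_forall fun ω => by ring)
    have e3 : ∫ ω, (1 - w (pt ω c)) * w (pt ω c) ∂W2 = m c - q c := by
      rw [hm, hq]
      simp only []
      rw [← integral_sub (hwi' _) (hwi2 _)]
      exact integral_congr_ae (Eventually.of_forall fun ω => by ring)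
    have e4 : ∫ ω, (w (pt ω ((c : ℝ) + 1)) - w (pt ω c)) ^ 2 ∂W2 =
        q (c + 1) + q c - 2 * ∫ ω, w (pt ω c) * w (pt ω ((c : ℝ) + 1)) ∂W2 := by
      have j5 : Integrable (fun ω => 2 * (w (pt ω c) * w (pt ω ((c : ℝ) + 1)))) W2 := by
        refine Integrable.of_bound (((hw.comp (Liou_pm _)).mul
          (hw.comp (Liou_pm _))).const_mul 2).aestronglyMeasurable 2 (Eventually.of_forall fun ω => ?_)
        rw [Real.norm_eq_abs, abs_of_nonneg (by have := mul_nonneg (h0 (pt ω c)) (h0 (pt ω ((c : ℝ) + 1))); linarith)]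
        have := mul_le_one₀ (h1 (pt ω c)) (h0 (pt ω ((c : ℝ) + 1))) (h1 _)
        linarith
      rw [hq]
      simp only []
      have j6 : Integrable (fun ω => w (pt ω ((c : ℝ) + 1)) ^ 2 + w (pt ω c) ^ 2) W2 := (hwi2 _).add (hwi2 _)
      rw [← integral_const_mul, ← integral_add (hwi2 _) (hwi2 _), ← integral_sub j6 j5]
      exact integral_congr_ae (Eventually.of_forall fun ω => by ring)
    rw [e4]
    rw [e2, e3] at hle
    linarith
  -- summation
  have hm0 : ∀ s, 0 ≤ m s := fun s => integral_nonneg fun ω => h0 _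
  have hm1 : ∀ s, m s ≤ 1 := by
    intro s
    have h2 : ∫ ω, w (pt ω s) ∂W2 ≤ ∫ _, (1 : ℝ) ∂W2 := integral_mono (hwi' s) (integrable_const 1) fun ω => h1 _
    simpa using h2
  have hq0 : ∀ s, 0 ≤ q s := fun s => integral_nonneg fun ω => by positivity
  have hq1 : ∀ s, q s ≤ 1 := by
    intro s
    have h2 : ∫ ω, w (pt ω s) ^ 2 ∂W2 ≤ ∫ _, (1 : ℝ) ∂W2 :=
      integral_mono (hwi2 s) (integrable_const 1) fun ω => pow_le_one₀ (h0 _) (h1 _)
    simpa using h2
  have hsum : ∀ n : ℕ, ∑ k ∈ Finset.range n, ∫⁻ ω, F (pt ω ((k : ℝ) + 1)) ∂W2 ≤ ENNReal.ofReal 3 := by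
    intro n
    set G : ℕ → ℝ := fun k => q ((k : ℝ) + 1) - 2 * m ((k : ℝ) + 1) with hG
    set D : ℕ → ℝ := fun k => ∫ ω, (w (pt ω ((k : ℝ) + 1 + 1)) - w (pt ω ((k : ℝ) + 1))) ^ 2 ∂W2 with hD
    have hD0 : ∀ k, 0 ≤ D k := fun k => integral_nonneg fun ω => by positivity
    have h2 : ∀ k : ℕ, ∫⁻ ω, F (pt ω ((k : ℝ) + 1)) ∂W2 = ENNReal.ofReal (D k) ∧ D k ≤ G (k + 1) - G k := by
      intro k
      have h3 := step ((k : ℝ≥0) + 1)
      have h4 : (((k : ℝ≥0) + 1 : ℝ≥0) : ℝ) = (k : ℝ) + 1 := by push_cast; ring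
      rw [h4] at h3
      refine ⟨h3.1, h3.2.trans (le_of_eq ?_)⟩
      rw [hG]
      push_cast
      ring
    rw [Finset.sum_congr rfl fun k _ => (h2 k).1, ← ENNReal.ofReal_sum_of_nonneg fun k _ => hD0 k]
    apply ENNReal.ofReal_le_ofReal
    have h5 : ∑ k ∈ Finset.range n, D k ≤ G n - G 0 := by
      rw [← Finset.sum_range_sub]
      exact Finset.sum_le_sum fun k _ => (h2 k).2
    have h6 : G n ≤ 1 := by
      have a1 := hq1 ((n : ℝ) + 1)
      have a2 := hm0 ((n : ℝ) + 1)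
      show q ((n : ℝ) + 1) - 2 * m ((n : ℝ) + 1) ≤ 1
      linarith
    have h7 : -2 ≤ G 0 := by
      have a1 := hq0 (((0 : ℕ) : ℝ) + 1)
      have a2 := hm1 (((0 : ℕ) : ℝ) + 1)
      show -2 ≤ q (((0 : ℕ) : ℝ) + 1) - 2 * m (((0 : ℕ) : ℝ) + 1)
      linarith
    linarith
  obtain ⟨z0, hz0⟩ := (Liou_rec hFm ENNReal.ofReal_ne_top hsum).exists
  have hae : ∀ᵐ ω ∂W2, w (z0 + pt ω 1) = w z0 := by
    have hmz : Measurable fun ω : P2 => ENNReal.ofReal ((w (z0 + pt ω 1) - w z0) ^ 2) :=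
      (((hw.comp ((Liou_pm 1).const_add z0)).sub_const (w z0)).pow_const 2).ennreal_ofReal
    have h2 := (lintegral_eq_zero_iff hmz).1 hz0
    filter_upwards [h2] with ω hω
    have h3 : (w (z0 + pt ω 1) - w z0) ^ 2 ≤ 0 := ENNReal.ofReal_eq_zero.1 hω
    have h4 : w (z0 + pt ω 1) - w z0 = 0 := by
      have h5 := le_antisymm h3 (sq_nonneg _)
      exact pow_eq_zero_iff (two_ne_zero) |>.1 h5
    linarith
  have hNm : MeasurableSet {y : ℂ | w y ≠ w z0} := (hw (measurableSet_singleton (w z0))).compl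
  have hN : volume {y : ℂ | w y ≠ w z0} = 0 := by
    rw [← Liou_null one_pos z0 hNm, measure_eq_zero_iff_ae_notMem]
    filter_upwards [hae] with ω hω h
    exact h hω
  refine ⟨w z0, ?_, fun x => ?_⟩
  · rw [ae_iff]
    exact hN
  · have h2 := pt_ac one_pos x hN
    have h3 : ∫ ω, w (x + pt ω 1) ∂W2 = ∫ _, w z0 ∂W2 := by
      apply integral_congr_ae
      filter_upwards [h2] with ω hω
      by_contra h
      exact hω h
    rw [h3]
    simp

end Pool.H50.BB
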