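import Pool.Agent.H50.BB.Hlim
import Pool.Agent.H50.BB.Liou

/-!
# Row Hb1: the limit function   (about 220 lines)

`Lm b α β lam a x = lim_t vf b (HP (mm t + a)) t x` (`h_lim`, `tendsto_nhds_limUnder`).  `lm_meas`: limit of measurable functions along `t = n`.  `lm_anti`: `HP` is decreasing (`vf_mono`).  `lm_01`: clear.
`lm_pos`: `ul_pos` with `U = 1` gives `r = r0`; `vf_mild` at time `r` (second term `≥ 0`): `vf .. t x ≥ ∫ vf b (HP (mm t + a)) (t - r) (x + pt w r) dW2`; along `t = n`, Fatou (`lintegral_liminf_le`):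
`ofReal (Lm a x) ≥ ∫⁻ liminf_n ofReal (vf .. (n - r) (x + pt w r))`, the integrand is `> 0` for `x + pt w r ∈ Good`, and `Good` contains the nonempty open set `{|im| < r^γ, r^{1/2-dl} < Xi < r^{1/2+dl}}` (take `r > 1`), which has positive
probability (`pt_open`); an integral `= 0` would force the integrand to vanish a.e.
`lm_step` (`x`, `a`): `vf_mild` with `r = 1`: `vf b A t x = ∫ vf b A (t-1) (x + pt w 1) + ∫_0^1 ∫ b(arg) v (1 - v)`, `v = vf b A (t - s) (x + pt w s)`, `A = HP (mm t + a)`.  For `0 ≤ s ≤ 1` and t large: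
`mm (t-s) + a - 1 ≤ mm t + a ≤ mm (t-s) + a + √2` (`mm t - mm (t-s) = √2 s - (κ t - κ(t-s)) - ((3-γ)/(2√2)) log (t/(t-s))`, both last terms are `≥ 0` and tend to `0`: `kap_diff` and monotonicity), so
`vf b (HP (mm (t-s) + a + √2)) (t-s) y ≤ v ≤ vf b (HP (mm (t-s) + a - 1)) (t-s) y`, which tend to `Lm (a+√2) y` and `Lm (a-1) y`.  Fatou along `t = n` for both terms (`lintegral_liminf_le` on `W2` and on `(volume.restrict (Ioc 0 1)).prod W2`),
`liminf (v (1-v)) ≥ Lm (a+√2) (1 - Lm (a-1))`.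
-/

open MeasureTheory ProbabilityTheory Set Filter Topology
open scoped NNReal ENNReal

namespace Pool.H50.BB

open Pool.Agent.H4.BM

/-- the limit function -/
noncomputable def Lm (b : ℝ → ℝ) (α β lam a : ℝ) (x : ℂ) : ℝ :=
  limUnder atTop (fun t => vf b (HP (mm α β lam t + a)) t x)

theorem Hb1_liminf (u v : ℕ → ℝ≥0∞) :
    liminf u atTop + liminf v atTop ≤ liminf (fun n => u n + v n) atTop := by
  rw [liminf_eq_iSup_iInf_of_nat, liminf_eq_iSup_iInf_of_nat, liminf_eq_iSup_iInf_of_nat]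
  refine ENNReal.iSup_add_iSup_le fun n m => ?_
  refine le_trans ?_ (le_iSup _ (max n m))
  exact le_iInf₂ fun i hi => add_le_add (iInf₂_le i ((le_max_left n m).trans hi))
    (iInf₂_le i ((le_max_right n m).trans hi))

theorem Hb1_conv {Ω : Type*} [MeasurableSpace Ω] {μ : Measure Ω} [IsFiniteMeasure μ] {g : Ω → ℝ}
    (hg : Measurable g) (h0 : ∀ ω, 0 ≤ g ω) (h1 : ∀ ω, g ω ≤ 1) :
    ENNReal.ofReal (∫ ω, g ω ∂μ) = ∫⁻ ω, ENNReal.ofReal (g ω) ∂μ := by
  refine ofReal_integral_eq_lintegral_ofReal ?_ (ae_of_all _ h0)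
  refine Integrable.of_bound hg.aestronglyMeasurable 1 (ae_of_all _ fun ω => ?_)
  rw [Real.norm_of_nonneg (h0 ω)]
  exact h1 ω

theorem Hb1_vmeas {b : ℝ → ℝ} (hb : Rate b) {A : Set ℂ} (hA : MeasurableSet A) (t : ℝ) (x : ℂ) :
    Measurable fun p : ℝ × P2 => vf b A (t - p.1) (x + pt p.2 p.1) := by
  have h1 : Measurable fun p : ℝ × P2 => pt p.2 p.1 := pt_meas.comp (measurable_snd.prodMk measurable_fst)
  exact (vf_meas hb hA).comp ((measurable_const.sub measurable_fst).prodMk (h1.const_add x))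

theorem Hb1_bmeas {b : ℝ → ℝ} (hb : Rate b) (x : ℂ) :
    Measurable fun p : ℝ × P2 => b (Complex.arg (x + pt p.2 p.1)) := by
  have h1 : Measurable fun p : ℝ × P2 => pt p.2 p.1 := pt_meas.comp (measurable_snd.prodMk measurable_fst)
  exact (barg_meas hb).comp (h1.const_add x)

theorem Hb1_F01 {b : ℝ → ℝ} (hb : Rate b) (A : Set ℂ) (t θ : ℝ) (y : ℂ) :
    0 ≤ b θ * vf b A t y * (1 - vf b A t y) ∧ b θ * vf b A t y * (1 - vf b A t y) ≤ 1 := by
  have h1 := hb.nonneg θ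
  have h2 := hb.le_one θ
  have h3 := vf_nonneg b A t y
  have h4 := vf_le_one b A t y
  constructor
  · exact mul_nonneg (mul_nonneg h1 h3) (by linarith)
  · have h5 : b θ * vf b A t y ≤ 1 := mul_le_one₀ h2 h3 h4
    exact mul_le_one₀ h5 (by linarith) (by linarith)

theorem Hb1_mild {b : ℝ → ℝ} (hb : Rate b) {A : Set ℂ} (hA : MeasurableSet A) {t r : ℝ} (hr : 0 ≤ r)
    (hrt : r ≤ t) (x : ℂ) :
    ENNReal.ofReal (vf b A t x) = (∫⁻ w, ENNReal.ofReal (vf b A (t - r) (x + pt w r)) ∂W2) +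
      ∫⁻ s in Ioc (0 : ℝ) r, ∫⁻ w, ENNReal.ofReal (b (Complex.arg (x + pt w s)) * vf b A (t - s) (x + pt w s) *
        (1 - vf b A (t - s) (x + pt w s))) ∂W2 := by
  have hm : Measurable fun p : ℝ × P2 => b (Complex.arg (x + pt p.2 p.1)) * vf b A (t - p.1) (x + pt p.2 p.1) *
      (1 - vf b A (t - p.1) (x + pt p.2 p.1)) :=
    ((Hb1_bmeas hb x).mul (Hb1_vmeas hb hA t x)).mul (measurable_const.sub (Hb1_vmeas hb hA t x))
  have hms : ∀ s : ℝ, Measurable fun w : P2 => b (Complex.arg (x + pt w s)) * vf b A (t - s) (x + pt w s) *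
      (1 - vf b A (t - s) (x + pt w s)) := fun s => hm.comp (measurable_const.prodMk measurable_id)
  have hvs : Measurable fun w : P2 => vf b A (t - r) (x + pt w r) :=
    (Hb1_vmeas hb hA t x).comp (measurable_const.prodMk measurable_id)
  have hg : Measurable fun s : ℝ => ∫ w, b (Complex.arg (x + pt w s)) * vf b A (t - s) (x + pt w s) *
      (1 - vf b A (t - s) (x + pt w s)) ∂W2 :=
    (hm.stronglyMeasurable.integral_prod_right').measurable
  have hg0 : ∀ s : ℝ, 0 ≤ ∫ w, b (Complex.arg (x + pt w s)) * vf b A (t - s) (x + pt w s) *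
      (1 - vf b A (t - s) (x + pt w s)) ∂W2 := fun s =>
    integral_nonneg fun w => (Hb1_F01 hb A _ _ _).1
  have hg1 : ∀ s : ℝ, ∫ w, b (Complex.arg (x + pt w s)) * vf b A (t - s) (x + pt w s) *
      (1 - vf b A (t - s) (x + pt w s)) ∂W2 ≤ 1 := fun s => by
    have h1 : ∫ w, b (Complex.arg (x + pt w s)) * vf b A (t - s) (x + pt w s) *
        (1 - vf b A (t - s) (x + pt w s)) ∂W2 ≤ ∫ _w, (1 : ℝ) ∂W2 := by
      refine integral_mono_of_nonneg (ae_of_all _ fun w => (Hb1_F01 hb A _ _ _).1)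
        (integrable_const _) (ae_of_all _ fun w => (Hb1_F01 hb A _ _ _).2)
    refine h1.trans (le_of_eq ?_)
    rw [integral_const, probReal_univ, one_smul]
  rw [vf_mild hb hA hr hrt x, ENNReal.ofReal_add (integral_nonneg fun w => vf_nonneg _ _ _ _)
    (intervalIntegral.integral_nonneg hr fun s _ => hg0 s), intervalIntegral.integral_of_le hr,
    Hb1_conv hvs (fun w => vf_nonneg _ _ _ _) (fun w => vf_le_one _ _ _ _), Hb1_conv hg hg0 hg1]
  congr 1
  refine lintegral_congr fun s => ?_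
  exact Hb1_conv (hms s) (fun w => (Hb1_F01 hb A _ _ _).1) (fun w => (Hb1_F01 hb A _ _ _).2)

theorem Hb1_mm {α β lam : ℝ} (hα : 2 / 3 < α) (hα2 : α < 2) (hβ : 0 < β) (hlam : 0 < lam) {s : ℝ}
    (hs : 0 ≤ s) (hs1 : s ≤ 1) :
    ∀ᶠ t in atTop, mm α β lam t ≤ mm α β lam (t - s) + √2 ∧ mm α β lam (t - s) - 1 ≤ mm α β lam t := by
  have hα0 : 0 < α := by linarith
  have hg := Win_gg_pos hα0 hα2
  have ha := Kpf_a_pos hα0 hα2 hβ hlam
  have hgam := Win_gam_lt hα0 hα2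
  obtain ⟨c, hc⟩ : ∃ c : ℝ, c = (3 - gam α) / (2 * √2) := ⟨_, rfl⟩
  have hc0 : 0 < c := by
    rw [hc]
    exact div_pos (by linarith) (by positivity)
  have h1 := kap_diff hα hα2 hβ hlam s
  have h2 := (Real.tendsto_log_comp_add_sub_log (-s)).const_mul c
  rw [mul_zero] at h2
  have h3 := h1.eventually (gt_mem_nhds (show (0 : ℝ) < 1 / 2 by norm_num))
  have h4 := h2.eventually (lt_mem_nhds (show (-(1 / 2) : ℝ) < 0 by norm_num))
  filter_upwards [h3, h4, eventually_gt_atTop (1 : ℝ)] with t h3 h4 ht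
  have e1 : t + -s = t - s := by ring
  rw [e1] at h4
  have h5 : kap α β lam (t - s) ≤ kap α β lam t := by
    rw [Kpf_kap, Kpf_kap]
    exact mul_le_mul_of_nonneg_left (Real.rpow_le_rpow (by linarith) (by linarith) hg.le) ha.le
  have h6 : Real.log (t - s) ≤ Real.log t := Real.log_le_log (by linarith) (by linarith)
  have h7 := mul_le_mul_of_nonneg_left h6 hc0.le
  have h8 : (0 : ℝ) < √2 := by positivity
  have h9 : √2 * s ≤ √2 := mul_le_of_le_one_right h8.le hs1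
  have h10 : 0 ≤ √2 * s := mul_nonneg h8.le hs
  unfold mm
  rw [← hc]
  constructor
  · linarith [mul_sub (√2) t s]
  · linarith [mul_sub (√2) t s, mul_sub c (Real.log (t - s)) (Real.log t)]

theorem HP_anti {z z' : ℝ} (h : z ≤ z') : HP z' ⊆ HP z := fun _ hy => lt_of_le_of_lt h hy

theorem lm_tendsto {b : ℝ → ℝ} {α β lam ρ C : ℝ} {φ : ℝ → ℝ} (hα : 2 / 3 < α) (hα2 : α < 2) (hβ : 0 < β)
    (h : A12 b α β) (G : GS α lam ρ C φ) (a : ℝ) (x : ℂ) :
    Tendsto (fun t => vf b (HP (mm α β lam t + a)) t x) atTop (𝓝 (Lm b α β lam a x)) :=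
  tendsto_nhds_limUnder (h_lim hα hα2 hβ h G a x)

theorem lm_meas {b : ℝ → ℝ} {α β lam ρ C : ℝ} {φ : ℝ → ℝ} (hα : 2 / 3 < α) (hα2 : α < 2) (hβ : 0 < β)
    (h : A12 b α β) (G : GS α lam ρ C φ) (a : ℝ) : Measurable (Lm b α β lam a) := by
  have hb : Rate b := a12_rate (by linarith) h
  refine measurable_of_tendsto_metrizable
    (f := fun (n : ℕ) (x : ℂ) => vf b (HP (mm α β lam n + a)) n x) (fun n => ?_) ?_
  · exact (vf_meas hb (HP_meas _)).comp (measurable_const.prodMk measurable_id)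
  · rw [tendsto_pi_nhds]
    intro x
    exact (lm_tendsto hα hα2 hβ h G a x).comp tendsto_natCast_atTop_atTop

theorem lm_anti {b : ℝ → ℝ} {α β lam ρ C : ℝ} {φ : ℝ → ℝ} (hα : 2 / 3 < α) (hα2 : α < 2) (hβ : 0 < β)
    (h : A12 b α β) (G : GS α lam ρ C φ) (x : ℂ) : Antitone (fun a => Lm b α β lam a x) := by
  have hb : Rate b := a12_rate (by linarith) h
  intro a a' haa
  exact le_of_tendsto_of_tendsto' (lm_tendsto hα hα2 hβ h G a' x) (lm_tendsto hα hα2 hβ h G a x)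
    fun t => vf_mono hb (HP_anti (by linarith)) t x

theorem lm_01 {b : ℝ → ℝ} {α β lam ρ C : ℝ} {φ : ℝ → ℝ} (hα : 2 / 3 < α) (hα2 : α < 2) (hβ : 0 < β)
    (h : A12 b α β) (G : GS α lam ρ C φ) (a : ℝ) (x : ℂ) : 0 ≤ Lm b α β lam a x ∧ Lm b α β lam a x ≤ 1 :=
  ⟨ge_of_tendsto' (lm_tendsto hα hα2 hβ h G a x) fun _ => vf_nonneg _ _ _ _,
    le_of_tendsto' (lm_tendsto hα hα2 hβ h G a x) fun _ => vf_le_one _ _ _ _⟩

theorem Hb1_limn {b : ℝ → ℝ} {α β lam ρ C : ℝ} {φ : ℝ → ℝ} (hα : 2 / 3 < α) (hα2 : α < 2) (hβ : 0 < β)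
    (h : A12 b α β) (G : GS α lam ρ C φ) (a : ℝ) (x : ℂ) :
    Tendsto (fun n : ℕ => ENNReal.ofReal (vf b (HP (mm α β lam n + a)) n x)) atTop
      (𝓝 (ENNReal.ofReal (Lm b α β lam a x))) :=
  (ENNReal.continuous_ofReal.tendsto _).comp
    ((lm_tendsto hα hα2 hβ h G a x).comp tendsto_natCast_atTop_atTop)

theorem Hb1_dl {α : ℝ} (hα : 2 / 3 < α) (hα2 : α < 2) : 0 < dl α := by
  have h1 := (gg_pos (by linarith) hα2).2.2.2
  have h2 := gg_lt hα hα2
  unfold dl
  exact lt_min (by linarith) (by norm_num)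

theorem Hb1_open (α β lam a r : ℝ) : IsOpen {z : ℂ | |z.im| < 1 * r ^ gam α ∧
    r ^ (1 / 2 - dl α) < Xi α β lam a r z ∧ Xi α β lam a r z < r ^ (1 / 2 + dl α)} := by
  have hX : Continuous (Xi α β lam a r) := by
    unfold Xi
    exact continuous_const.sub Complex.continuous_re
  exact (isOpen_lt (continuous_abs.comp Complex.continuous_im) continuous_const).inter
    ((isOpen_lt continuous_const hX).inter (isOpen_lt hX continuous_const))

theorem Hb1_ne {α : ℝ} (hα : 2 / 3 < α) (hα2 : α < 2) (β lam a : ℝ) {r : ℝ} (hr : 1 < r) :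
    {z : ℂ | |z.im| < 1 * r ^ gam α ∧
    r ^ (1 / 2 - dl α) < Xi α β lam a r z ∧ Xi α β lam a r z < r ^ (1 / 2 + dl α)}.Nonempty := by
  have h1 := Hb1_dl hα hα2
  refine ⟨⟨√2 * r - kap α β lam r + gam α / (2 * √2) * Real.log r + a - r ^ (1 / 2 : ℝ), 0⟩, ?_, ?_, ?_⟩
  · show |(0 : ℝ)| < 1 * r ^ gam α
    rw [abs_zero, one_mul]
    exact Real.rpow_pos_of_pos (by linarith) _
  · have e : Xi α β lam a r ⟨√2 * r - kap α β lam r + gam α / (2 * √2) * Real.log r + a - r ^ (1 / 2 : ℝ), 0⟩ =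
        r ^ (1 / 2 : ℝ) := by
      unfold Xi
      ring
    rw [e]
    exact Real.rpow_lt_rpow_of_exponent_lt hr (by linarith)
  · have e : Xi α β lam a r ⟨√2 * r - kap α β lam r + gam α / (2 * √2) * Real.log r + a - r ^ (1 / 2 : ℝ), 0⟩ =
        r ^ (1 / 2 : ℝ) := by
      unfold Xi
      ring
    rw [e]
    exact Real.rpow_lt_rpow_of_exponent_lt hr (by linarith)

theorem lm_pos {b : ℝ → ℝ} {α β lam ρ C : ℝ} {φ : ℝ → ℝ} (hα : 2 / 3 < α) (hα2 : α < 2) (hβ : 0 < β)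
    (h : A12 b α β) (G : GS α lam ρ C φ) (a : ℝ) (x : ℂ) : 0 < Lm b α β lam a x := by
  have hb : Rate b := a12_rate (by linarith) h
  obtain ⟨r0, hr0, H⟩ := ul_pos hα hα2 hβ h G a one_pos
  obtain ⟨r, hr⟩ : ∃ r, r = r0 + 1 := ⟨_, rfl⟩
  have hr1 : 1 < r := by linarith
  have hp := pt_open (by linarith : 0 < r) x (Hb1_open α β lam a r) (Hb1_ne hα hα2 β lam a hr1)
  by_contra h0
  have h0' : ENNReal.ofReal (Lm b α β lam a x) = 0 := ENNReal.ofReal_of_nonpos (not_lt.1 h0)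
  have hFm : ∀ n : ℕ, Measurable fun w : P2 =>
      ENNReal.ofReal (vf b (HP (mm α β lam n + a)) (n - r) (x + pt w r)) := fun n =>
    ((Hb1_vmeas hb (HP_meas _) n x).comp (measurable_const.prodMk measurable_id)).ennreal_ofReal
  have hF := lintegral_liminf_le (μ := W2) (u := (atTop : Filter ℕ)) hFm
  have hle : ∀ᶠ n : ℕ in atTop, ∫⁻ w, ENNReal.ofReal (vf b (HP (mm α β lam n + a)) (n - r) (x + pt w r)) ∂W2 ≤
      ENNReal.ofReal (vf b (HP (mm α β lam n + a)) n x) := by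
    filter_upwards [tendsto_natCast_atTop_atTop.eventually (eventually_ge_atTop r)] with n hn
    rw [Hb1_mild hb (HP_meas _) (by linarith : 0 ≤ r) hn x]
    exact le_self_add
  have hlim := Hb1_limn hα hα2 hβ h G a x
  rw [h0'] at hlim
  have hz : ∫⁻ w, liminf (fun n : ℕ =>
      ENNReal.ofReal (vf b (HP (mm α β lam n + a)) (n - r) (x + pt w r))) atTop ∂W2 = 0 :=
    le_antisymm (hF.trans ((liminf_le_liminf hle).trans hlim.liminf_eq.le)) bot_le
  rw [lintegral_eq_zero_iff (Measurable.liminf hFm)] at hz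
  refine hp.ne' (measure_mono_null ?_ (ae_iff.1 hz))
  rintro w ⟨hw1, hw2, hw3⟩
  obtain ⟨c, hc, hev⟩ := H r (by linarith) (x + pt w r) ⟨hw1.le, hw2.le, hw3.le⟩
  intro hw
  have h1 : ENNReal.ofReal c ≤ liminf (fun n : ℕ =>
      ENNReal.ofReal (vf b (HP (mm α β lam n + a)) (n - r) (x + pt w r))) atTop := by
    refine le_liminf_of_le (by isBoundedDefault) ?_
    filter_upwards [tendsto_natCast_atTop_atTop.eventually hev] with n hn
    exact ENNReal.ofReal_le_ofReal hn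
  have h2 := ENNReal.ofReal_pos.2 hc
  have h3 : liminf (fun n : ℕ =>
      ENNReal.ofReal (vf b (HP (mm α β lam n + a)) (n - r) (x + pt w r))) atTop = 0 := hw
  rw [h3] at h1
  exact absurd h1 (not_le.2 h2)

/-- squeeze of the value at time `n - s` -/
theorem Hb1_sq {b : ℝ → ℝ} {α β lam ρ C : ℝ} {φ : ℝ → ℝ} (hα : 2 / 3 < α) (hα2 : α < 2) (hβ : 0 < β)
    (h : A12 b α β) (G : GS α lam ρ C φ) (a : ℝ) {s : ℝ} (hs : 0 ≤ s) (hs1 : s ≤ 1) (y : ℂ) :
    ∃ l u : ℕ → ℝ, Tendsto l atTop (𝓝 (Lm b α β lam (a + √2) y)) ∧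
      Tendsto u atTop (𝓝 (Lm b α β lam (a - 1) y)) ∧ (∀ n, 0 ≤ l n) ∧ (∀ n, u n ≤ 1) ∧
      ∀ᶠ n : ℕ in atTop, l n ≤ vf b (HP (mm α β lam n + a)) (n - s) y ∧
        vf b (HP (mm α β lam n + a)) (n - s) y ≤ u n := by
  have hb : Rate b := a12_rate (by linarith) h
  have ht : Tendsto (fun n : ℕ => (n : ℝ) - s) atTop atTop :=
    tendsto_atTop_add_const_right _ _ tendsto_natCast_atTop_atTop
  refine ⟨fun n => vf b (HP (mm α β lam (n - s) + (a + √2))) (n - s) y,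
    fun n => vf b (HP (mm α β lam (n - s) + (a - 1))) (n - s) y,
    (lm_tendsto hα hα2 hβ h G (a + √2) y).comp ht, (lm_tendsto hα hα2 hβ h G (a - 1) y).comp ht,
    fun n => vf_nonneg _ _ _ _, fun n => vf_le_one _ _ _ _, ?_⟩
  filter_upwards [tendsto_natCast_atTop_atTop.eventually (Hb1_mm hα hα2 hβ G.lam_pos hs hs1)] with n hn
  exact ⟨vf_mono hb (HP_anti (by linarith [hn.1])) _ _, vf_mono hb (HP_anti (by linarith [hn.2])) _ _⟩

theorem lm_step {b : ℝ → ℝ} {α β lam ρ C : ℝ} {φ : ℝ → ℝ} (hα : 2 / 3 < α) (hα2 : α < 2) (hβ : 0 < β)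
    (h : A12 b α β) (G : GS α lam ρ C φ) (a : ℝ) (x : ℂ) :
    (∫⁻ w, ENNReal.ofReal (Lm b α β lam (a + √2) (x + pt w 1)) ∂W2) +
      (∫⁻ s in Ioc (0 : ℝ) 1, ∫⁻ w, ENNReal.ofReal (b (Complex.arg (x + pt w s)) * (Lm b α β lam (a + √2) (x + pt w s) *
        (1 - Lm b α β lam (a - 1) (x + pt w s)))) ∂W2) ≤ ENNReal.ofReal (Lm b α β lam a x) := by
  have hb : Rate b := a12_rate (by linarith) h
  have hA : ∀ n : ℕ, MeasurableSet (HP (mm α β lam n + a)) := fun n => HP_meas _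
  -- first term
  have h1m : ∀ n : ℕ, Measurable fun w : P2 =>
      ENNReal.ofReal (vf b (HP (mm α β lam n + a)) (n - 1) (x + pt w 1)) := fun n =>
    ((Hb1_vmeas hb (hA n) n x).comp (measurable_const.prodMk measurable_id)).ennreal_ofReal
  have h1 : (∫⁻ w, ENNReal.ofReal (Lm b α β lam (a + √2) (x + pt w 1)) ∂W2) ≤
      liminf (fun n : ℕ => ∫⁻ w, ENNReal.ofReal (vf b (HP (mm α β lam n + a)) (n - 1) (x + pt w 1)) ∂W2) atTop := by
    refine le_trans (lintegral_mono fun w => ?_) (lintegral_liminf_le h1m)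
    obtain ⟨l, u, hl, -, -, -, hev⟩ := Hb1_sq hα hα2 hβ h G a zero_le_one le_rfl (x + pt w 1)
    have h2 := ((ENNReal.continuous_ofReal.tendsto _).comp hl).liminf_eq
    change ENNReal.ofReal _ ≤ _
    rw [← h2]
    refine liminf_le_liminf ?_
    filter_upwards [hev] with n hn
    exact ENNReal.ofReal_le_ofReal hn.1
  -- second term
  have hm : ∀ n : ℕ, Measurable fun p : ℝ × P2 => ENNReal.ofReal (b (Complex.arg (x + pt p.2 p.1)) *
      vf b (HP (mm α β lam n + a)) (n - p.1) (x + pt p.2 p.1) *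
      (1 - vf b (HP (mm α β lam n + a)) (n - p.1) (x + pt p.2 p.1))) := fun n =>
    (((Hb1_bmeas hb x).mul (Hb1_vmeas hb (hA n) n x)).mul
      (measurable_const.sub (Hb1_vmeas hb (hA n) n x))).ennreal_ofReal
  have h2 : (∫⁻ s in Ioc (0 : ℝ) 1, ∫⁻ w, ENNReal.ofReal (b (Complex.arg (x + pt w s)) *
      (Lm b α β lam (a + √2) (x + pt w s) * (1 - Lm b α β lam (a - 1) (x + pt w s)))) ∂W2) ≤
      liminf (fun n : ℕ => ∫⁻ s in Ioc (0 : ℝ) 1, ∫⁻ w, ENNReal.ofReal (b (Complex.arg (x + pt w s)) *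
        vf b (HP (mm α β lam n + a)) (n - s) (x + pt w s) *
        (1 - vf b (HP (mm α β lam n + a)) (n - s) (x + pt w s))) ∂W2) atTop := by
    refine le_trans ?_ (lintegral_liminf_le fun n => (hm n).lintegral_prod_right')
    refine setLIntegral_mono' measurableSet_Ioc fun s hs => ?_
    refine le_trans (lintegral_mono fun w => ?_)
      (lintegral_liminf_le fun n => (hm n).comp (measurable_const.prodMk measurable_id))
    obtain ⟨l, u, hl, hu, hl0, hu1, hev⟩ := Hb1_sq hα hα2 hβ h G a hs.1.le hs.2 (x + pt w s)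
    have h3 : Tendsto (fun n => b (Complex.arg (x + pt w s)) * (l n * (1 - u n))) atTop
        (𝓝 (b (Complex.arg (x + pt w s)) * (Lm b α β lam (a + √2) (x + pt w s) *
          (1 - Lm b α β lam (a - 1) (x + pt w s))))) := (hl.mul (hu.const_sub 1)).const_mul _
    have h4 := ((ENNReal.continuous_ofReal.tendsto _).comp h3).liminf_eq
    change ENNReal.ofReal _ ≤ _
    rw [← h4]
    refine liminf_le_liminf ?_
    filter_upwards [hev] with n hn
    refine ENNReal.ofReal_le_ofReal ?_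
    rw [mul_assoc]
    refine mul_le_mul_of_nonneg_left ?_ (hb.nonneg _)
    exact mul_le_mul hn.1 (by linarith [hn.2]) (by linarith [hu1 n]) ((hl0 n).trans hn.1)
  refine (add_le_add h1 h2).trans ?_
  have h3 := (Hb1_limn hα hα2 hβ h G a x).liminf_eq
  rw [← h3]
  refine le_trans ?_ (liminf_le_liminf (f := atTop) (u := fun n : ℕ =>
    (∫⁻ w, ENNReal.ofReal (vf b (HP (mm α β lam n + a)) (n - 1) (x + pt w 1)) ∂W2) +
      ∫⁻ s in Ioc (0 : ℝ) 1, ∫⁻ w, ENNReal.ofReal (b (Complex.arg (x + pt w s)) *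
        vf b (HP (mm α β lam n + a)) (n - s) (x + pt w s) *
        (1 - vf b (HP (mm α β lam n + a)) (n - s) (x + pt w s))) ∂W2) ?_)
  · exact Hb1_liminf _ _
  · filter_upwards [eventually_ge_atTop 1] with n hn
    rw [Hb1_mild hb (hA n) zero_le_one (by exact_mod_cast hn) x]

end Pool.H50.BB
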