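import Pool.Agent.H50.BB.Dh
import Pool.Agent.H50.BB.Brf

/-!
# Row Hi0: stopping a sub-Feynman-Kac function on a line   (about 200 lines)

`u : ℝ → ℂ → ℝ` in `[0,1]`, `u q x ≤ PK kb q q' (u q') x` for `s ≤ q ≤ q' ≤ t` (`0 ≤ kb ≤ 1`).  `T = t - s > 0`.  Start `x` at time `s`; the line for the real part:
`L(s + r) = x.re + D + μ r`; the path is `x + pt w r` at time `s + r`; it is below the line on `[0,T]` iff `w.1 ∈ Blw D μ T`; `σ = hit D μ w.1`.
`Θ` continuous with values in `[0,1]`, `u q z ≤ Θ q z.re`.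
Grid `r_k = k T/2^n`, `k = 0..2^n`, `N_k = {w.1 ∈ Blw D μ r_k}` (decreasing in `k`, `N_0 = univ` as `D > 0`, depends on `stop r_k w`), `e_k = exp (∫ v in 0..r_k, kb (x + pt w v))`.
Markov property at `r_k` (`lintegral_markov2`) and the hypothesis between `s + r_k` and `s + r_{k+1}` at the point `x + pt w r_k`:
`E[e_k u(s+r_k)(x + pt w r_k); N_k] ≤ E[e_{k+1} u(s+r_{k+1})(x + pt w r_{k+1}); N_k] = E[...; N_{k+1}] + E[...; N_k \ N_{k+1}]`.
Sum over `k` (telescoping): `u s x ≤ E[e_{2^n} u t (x + pt w T); N_{2^n}] + ∑_k E[e_{k+1} u(s+r_{k+1})(..); N_k \ N_{k+1}]`.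
On `N_k \ N_{k+1}`: `r_k < σ ≤ r_{k+1}` (`hit_spec`), let `σ_n = r_{k+1}`; `u ≤ Θ`: the sum is at most `E[exp (∫_0^{σ_n} kb) Θ (s + σ_n) (x.re + w.1 σ_n); not N_{2^n}]`, and
`σ_n → σ`, `w.1 σ_n → w.1 σ = D + μ σ`, everything is bounded by `e^T`: dominated convergence gives the claim.
`hik` (line with slope `√2`, `Θ = 1`): the hit part is at most `∫⁻ s in Ioc 0 T, e^s fpd √2 K s` (`exp ∫ kb ≤ exp σ`; `hit_lint` of `Bkl`), and
`e^s fpd √2 K s = e^{-√2 K} fpd 0 K s` (`(K+√2 s)²/(2s) = K²/(2s) + √2 K + s`), total mass `≤ 1` (`fpd_mass`).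
-/

open MeasureTheory ProbabilityTheory Set Filter Topology
open scoped NNReal ENNReal

namespace Pool.H50.BB

open Pool.Agent.H4.BM

/-- sub-Feynman-Kac functions -/
structure SubFK (kb : ℂ → ℝ) (s t : ℝ) (u : ℝ → ℂ → ℝ) : Prop where
  kmeas : Measurable kb
  knonneg : ∀ x, 0 ≤ kb x
  kle : ∀ x, kb x ≤ 1
  meas : Measurable (Function.uncurry u)
  nonneg : ∀ q x, 0 ≤ u q x
  le_one : ∀ q x, u q x ≤ 1
  sub : ∀ q q', s ≤ q → q ≤ q' → q' ≤ t → ∀ x, u q x ≤ PK (fun _ => kb) q q' (u q') x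

/-- the accumulated rate -/
private noncomputable def Hi0_A (kb : ℂ → ℝ) (x : ℂ) (w : P2) (r : ℝ) : ℝ :=
  ∫ v in (0 : ℝ)..r, kb (x + pt w v)

private theorem Hi0_int {kb : ℂ → ℝ} (hm : Measurable kb) (h0 : ∀ x, 0 ≤ kb x) (h1 : ∀ x, kb x ≤ 1)
    (x : ℂ) (w : P2) (a b : ℝ) : IntervalIntegrable (fun v => kb (x + pt w v)) volume a b := by
  have hmeas : Measurable (fun v : ℝ => kb (x + pt w v)) :=
    hm.comp (measurable_const.add (pt_cont w).measurable)
  refine (intervalIntegrable_const (c := (1 : ℝ))).mono_fun hmeas.aestronglyMeasurable ?_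
  filter_upwards with v
  rw [Real.norm_of_nonneg (h0 _), norm_one]
  exact h1 _

private theorem Hi0_A_cont {kb : ℂ → ℝ} (hm : Measurable kb) (h0 : ∀ x, 0 ≤ kb x)
    (h1 : ∀ x, kb x ≤ 1) (x : ℂ) (w : P2) : Continuous (Hi0_A kb x w) :=
  intervalIntegral.continuous_primitive (fun a b => Hi0_int hm h0 h1 x w a b) 0

private theorem Hi0_A_meas {kb : ℂ → ℝ} (hm : Measurable kb) :
    Measurable fun p : (ℂ × P2) × ℝ => Hi0_A kb p.1.1 p.1.2 p.2 := by
  have e : (fun p : (ℂ × P2) × ℝ => Hi0_A kb p.1.1 p.1.2 p.2) =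
      fun p : (ℂ × P2) × ℝ => p.2 * ∫ z in Ioc (0 : ℝ) 1, kb (p.1.1 + pt p.1.2 (p.2 * z)) := by
    funext p
    unfold Hi0_A
    rw [← intervalIntegral.integral_of_le zero_le_one, ← smul_eq_mul,
      intervalIntegral.smul_integral_comp_mul_left (fun v => kb (p.1.1 + pt p.1.2 v)) p.2,
      mul_zero, mul_one]
  rw [e]
  refine measurable_snd.mul ?_
  have h2 : Measurable fun q : ((ℂ × P2) × ℝ) × ℝ => kb (q.1.1.1 + pt q.1.1.2 (q.1.2 * q.2)) := by
    refine hm.comp ((measurable_fst.comp (measurable_fst.comp measurable_fst)).add ?_)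
    exact pt_meas.comp ((measurable_snd.comp (measurable_fst.comp measurable_fst)).prodMk
      ((measurable_snd.comp measurable_fst).mul measurable_snd))
  have h3 := h2.stronglyMeasurable.integral_prod_right (ν := volume.restrict (Ioc (0 : ℝ) 1))
    (f := fun (p : (ℂ × P2) × ℝ) (z : ℝ) => kb (p.1.1 + pt p.1.2 (p.2 * z)))
  exact h3.measurable

private theorem Hi0_A_le {kb : ℂ → ℝ} (h0 : ∀ x, 0 ≤ kb x)
    (h1 : ∀ x, kb x ≤ 1) (x : ℂ) (w : P2) (r : ℝ) : Hi0_A kb x w r ≤ |r| := by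
  have h := intervalIntegral.norm_integral_le_of_norm_le_const (a := 0) (b := r) (C := 1)
    (f := fun v => kb (x + pt w v)) (fun v _ => by rw [Real.norm_of_nonneg (h0 _)]; exact h1 _)
  rw [sub_zero, one_mul] at h
  exact (le_abs_self _).trans h

private theorem Hi0_split {kb : ℂ → ℝ} (hm : Measurable kb) (h0 : ∀ x, 0 ≤ kb x)
    (h1 : ∀ x, kb x ≤ 1) (x : ℂ) (w : P2) {c : ℝ≥0} {r' : ℝ} (hr : (c : ℝ) ≤ r') :
    Hi0_A kb x w r' = Hi0_A kb x w c + Hi0_A kb (x + pt w c) (shift2 c w) (r' - c) := by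
  unfold Hi0_A
  have e1 : ∫ v in (0 : ℝ)..(r' - c), kb (x + pt w c + pt (shift2 c w) v) =
      ∫ v in (0 : ℝ)..(r' - c), kb (x + pt w ((c : ℝ) + v)) := by
    refine intervalIntegral.integral_congr fun v hv => ?_
    rw [uIcc_of_le (sub_nonneg.2 hr)] at hv
    have e : pt w c + pt (shift2 c w) v = pt w ((c : ℝ) + v) := by
      apply Complex.ext
      · simp [pt, shift2, Pth.shift_apply_of_nonneg _ _ hv.1]
      · simp [pt, shift2, Pth.shift_apply_of_nonneg _ _ hv.1]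
    simp only [add_assoc, e]
  rw [e1, intervalIntegral.integral_comp_add_left (fun v => kb (x + pt w v)) (c : ℝ)]
  rw [show (c : ℝ) + (r' - c) = r' by ring, add_zero]
  exact (intervalIntegral.integral_add_adjacent_intervals (Hi0_int hm h0 h1 x w 0 c)
    (Hi0_int hm h0 h1 x w c r')).symm

private theorem Hi0_pt_stop (w : P2) {c : ℝ≥0} {v : ℝ} (hv : v ≤ c) :
    pt (stop2 c w) v = pt w v := by
  simp [pt, stop2, Pth.stop_apply, min_eq_left hv]

private theorem Hi0_A_stop {kb : ℂ → ℝ} (x : ℂ) (w : P2) (c : ℝ≥0) :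
    Hi0_A kb x (stop2 c w) c = Hi0_A kb x w c := by
  unfold Hi0_A
  refine intervalIntegral.integral_congr fun v hv => ?_
  rw [uIcc_of_le (NNReal.coe_nonneg c)] at hv
  simp only [Hi0_pt_stop w hv.2]

private theorem Hi0_blw_stop (D μ : ℝ) (w : P2) (c : ℝ≥0) :
    (stop2 c w).1 ∈ Blw D μ c ↔ w.1 ∈ Blw D μ c := by
  unfold Blw
  simp only [mem_ofPred_eq, stop2]
  refine forall₂_congr fun v hv => ?_
  rw [Pth.stop_apply, min_eq_left hv.2]

/-- one step of the grid -/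
private theorem Hi0_step {kb : ℂ → ℝ} {s t : ℝ} {u : ℝ → ℂ → ℝ} (hu : SubFK kb s t u) (D μ : ℝ)
    (x : ℂ) (c : ℝ≥0) {r' : ℝ} (hr : (c : ℝ) ≤ r') (hr' : s + r' ≤ t) :
    ∫⁻ w in {w : P2 | w.1 ∈ Blw D μ c}, ENNReal.ofReal
        (Real.exp (Hi0_A kb x w c) * u (s + c) (x + pt w c)) ∂W2 ≤
      ∫⁻ w in {w : P2 | w.1 ∈ Blw D μ c}, ENNReal.ofReal
        (Real.exp (Hi0_A kb x w r') * u (s + r') (x + pt w r')) ∂W2 := by
  have hN : MeasurableSet {w : P2 | w.1 ∈ Blw D μ c} := measurable_fst (blw_meas D μ c)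
  set N : Set P2 := {w : P2 | w.1 ∈ Blw D μ c} with hNdef
  have hA := Hi0_A_meas hu.kmeas
  set G : P2 × P2 → ℝ := fun p => Real.exp (Hi0_A kb x p.1 c) *
    (Real.exp (Hi0_A kb (x + pt p.1 c) p.2 (r' - c)) *
      u (s + r') (x + pt p.1 c + pt p.2 (r' - c))) with hG
  have hptc : ∀ v : ℝ, Measurable fun w : P2 => pt w v := fun v =>
    pt_meas.comp (measurable_id.prodMk measurable_const)
  have hGm : Measurable G := by
    refine Measurable.mul (Real.measurable_exp.comp ?_) (Measurable.mul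
      (Real.measurable_exp.comp ?_) ?_)
    · exact hA.comp ((measurable_const.prodMk measurable_fst).prodMk measurable_const)
    · exact hA.comp (((measurable_const.add ((hptc c).comp measurable_fst)).prodMk
        measurable_snd).prodMk measurable_const)
    · exact hu.meas.comp (measurable_const.prodMk ((measurable_const.add
        ((hptc c).comp measurable_fst)).add ((hptc (r' - c)).comp measurable_snd)))
  have hG0 : ∀ p, 0 ≤ G p := fun p =>
    mul_nonneg (Real.exp_nonneg _) (mul_nonneg (Real.exp_nonneg _) (hu.nonneg _ _))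
  set F : P2 × P2 → ℝ≥0∞ := fun p => N.indicator (fun _ => (1 : ℝ≥0∞)) p.1 *
    ENNReal.ofReal (G p) with hF
  have hFm : Measurable F :=
    ((measurable_one.indicator hN).comp measurable_fst).mul hGm.ennreal_ofReal
  have hmk := lintegral_markov2 c hFm
  -- right side
  have h1 : ∫⁻ w in N, ENNReal.ofReal
      (Real.exp (Hi0_A kb x w r') * u (s + r') (x + pt w r')) ∂W2 =
      ∫⁻ w, F (stop2 c w, shift2 c w) ∂W2 := by
    rw [← lintegral_indicator hN]
    refine lintegral_congr fun w => ?_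
    have hst : (stop2 c w ∈ N) ↔ w ∈ N := Hi0_blw_stop D μ w c
    by_cases hw : w ∈ N
    · have hw' : stop2 c w ∈ N := hst.2 hw
      rw [indicator_of_mem hw, hF]
      simp only
      rw [indicator_of_mem hw', one_mul, hG]
      simp only
      rw [Hi0_A_stop, Hi0_pt_stop w le_rfl, ← mul_assoc, ← Real.exp_add,
        ← Hi0_split hu.kmeas hu.knonneg hu.kle x w hr]
      have e : x + pt w c + pt (shift2 c w) (r' - c) = x + pt w r' := by
        have h0 : 0 ≤ r' - (c : ℝ) := sub_nonneg.2 hr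
        have e1 : (c : ℝ) + (r' - c) = r' := by ring
        rw [add_assoc]
        congr 1
        apply Complex.ext
        · simp [pt, shift2, Pth.shift_apply_of_nonneg _ _ h0]
        · simp [pt, shift2, Pth.shift_apply_of_nonneg _ _ h0]
      rw [e]
    · have hw' : stop2 c w ∉ N := fun h => hw (hst.1 h)
      rw [indicator_of_notMem hw, hF]
      simp only
      rw [indicator_of_notMem hw', zero_mul]
  rw [h1, hmk, ← lintegral_indicator hN]
  refine lintegral_mono fun w => ?_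
  by_cases hw : w ∈ N
  swap
  · rw [indicator_of_notMem hw]
    exact bot_le
  rw [indicator_of_mem hw]
  have hw' : stop2 c w ∈ N := (Hi0_blw_stop D μ w c).2 hw
  have h2 : ∀ w', F (stop2 c w, w') = ENNReal.ofReal (G (stop2 c w, w')) := fun w' => by
    rw [hF]
    simp only
    rw [indicator_of_mem hw', one_mul]
  have h3 : Measurable fun w' => G (stop2 c w, w') := hGm.comp measurable_prodMk_left
  have h4 : Integrable (fun w' => G (stop2 c w, w')) W2 := by
    refine Integrable.of_bound h3.aestronglyMeasurable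
      (Real.exp (Hi0_A kb x (stop2 c w) c) * (Real.exp |r' - c| * 1)) ?_
    filter_upwards with w'
    rw [Real.norm_of_nonneg (hG0 _)]
    refine mul_le_mul_of_nonneg_left (mul_le_mul (Real.exp_le_exp.2
      (Hi0_A_le hu.knonneg hu.kle _ _ _)) (hu.le_one _ _) (hu.nonneg _ _)
      (Real.exp_nonneg _)) (Real.exp_nonneg _)
  simp only [h2]
  rw [← ofReal_integral_eq_lintegral_ofReal h4 (Filter.Eventually.of_forall fun w' => hG0 _)]
  refine ENNReal.ofReal_le_ofReal ?_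
  have h5 : ∫ w', G (stop2 c w, w') ∂W2 = Real.exp (Hi0_A kb x w c) *
      PK (fun _ => kb) (s + c) (s + r') (u (s + r')) (x + pt w c) := by
    unfold PK
    rw [← integral_const_mul]
    refine integral_congr_ae (Filter.Eventually.of_forall fun w' => ?_)
    simp only [hG]
    rw [Hi0_A_stop, Hi0_pt_stop w le_rfl]
    have e1 : ∫ v in (s + c)..(s + r'), kb (x + pt w c + pt w' (v - (s + c))) =
        Hi0_A kb (x + pt w c) w' (r' - c) := by
      unfold Hi0_A
      rw [intervalIntegral.integral_comp_sub_right (fun v => kb (x + pt w c + pt w' v)) (s + c)]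
      rw [show s + (c : ℝ) - (s + c) = 0 by ring, show s + r' - (s + c) = r' - (c : ℝ) by ring]
    rw [e1, show s + r' - (s + c) = r' - (c : ℝ) by ring]
  rw [h5]
  exact mul_le_mul_of_nonneg_left (hu.sub _ _ (by linarith [c.2]) (by linarith) hr' _)
    (Real.exp_nonneg _)

/-- the grid approximation of the hitting time -/
private noncomputable def Hi0_sig (D μ T : ℝ) (n : ℕ) (w : P2) : ℝ :=
  T * (⌈hit D μ w.1 * 2 ^ n / T⌉₊ : ℝ) / 2 ^ n

private theorem Hi0_sig_meas (D μ T : ℝ) (n : ℕ) : Measurable (Hi0_sig D μ T n) := by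
  unfold Hi0_sig
  have h1 : Measurable fun w : P2 => hit D μ w.1 := (hit_meas' D μ).comp measurable_fst
  have h2 : Measurable fun w : P2 => ⌈hit D μ w.1 * 2 ^ n / T⌉₊ :=
    Nat.measurable_ceil.comp ((h1.mul_const _).div_const _)
  have h3 : Measurable fun w : P2 => (⌈hit D μ w.1 * 2 ^ n / T⌉₊ : ℝ) :=
    (measurable_of_countable (fun m : ℕ => (m : ℝ))).comp h2
  exact (h3.const_mul T).div_const _

private theorem Hi0_sig_bd {D μ T : ℝ} (hT : 0 < T) (n : ℕ) {w : P2} (h0 : 0 < hit D μ w.1)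
    (h1 : hit D μ w.1 ≤ T) : hit D μ w.1 ≤ Hi0_sig D μ T n w ∧
      Hi0_sig D μ T n w ≤ hit D μ w.1 + T * (1 / 2) ^ n ∧ Hi0_sig D μ T n w ≤ T := by
  unfold Hi0_sig
  have h2 : (0 : ℝ) < 2 ^ n := by positivity
  have h3 := Nat.le_ceil (hit D μ w.1 * 2 ^ n / T)
  have h4 := Nat.ceil_lt_add_one (a := hit D μ w.1 * 2 ^ n / T) (by positivity)
  refine ⟨?_, ?_, ?_⟩
  · rw [le_div_iff₀ h2]
    rw [div_le_iff₀ hT] at h3
    linarith
  · rw [div_le_iff₀ h2]
    have h5 : (⌈hit D μ w.1 * 2 ^ n / T⌉₊ : ℝ) * T < (hit D μ w.1 * 2 ^ n / T + 1) * T :=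
      mul_lt_mul_of_pos_right h4 hT
    have h6 : (hit D μ w.1 * 2 ^ n / T + 1) * T = hit D μ w.1 * 2 ^ n + T := by
      field_simp
    have h7 : (hit D μ w.1 + T * (1 / 2) ^ n) * 2 ^ n = hit D μ w.1 * 2 ^ n + T := by
      rw [add_mul, mul_assoc, ← mul_pow]
      norm_num
    rw [h7]
    linarith
  · rw [div_le_iff₀ h2]
    have h5 : ⌈hit D μ w.1 * 2 ^ n / T⌉₊ ≤ 2 ^ n := by
      refine Nat.ceil_le.2 ?_
      push_cast
      rw [div_le_iff₀ hT, mul_comm]
      exact mul_le_mul_of_nonneg_left h1 h2.le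
    have h6 : (⌈hit D μ w.1 * 2 ^ n / T⌉₊ : ℝ) ≤ 2 ^ n := by exact_mod_cast h5
    exact mul_le_mul_of_nonneg_left h6 hT.le

private theorem Hi0_sig_eq {D μ T : ℝ} (hT : 0 < T) (n k : ℕ) {w : P2}
    (h0 : T * k / 2 ^ n < hit D μ w.1) (h1 : hit D μ w.1 ≤ T * (k + 1 : ℕ) / 2 ^ n) :
    Hi0_sig D μ T n w = T * (k + 1 : ℕ) / 2 ^ n := by
  unfold Hi0_sig
  have h2 : (0 : ℝ) < 2 ^ n := by positivity
  have h3 : ⌈hit D μ w.1 * 2 ^ n / T⌉₊ = k + 1 := by
    rw [Nat.ceil_eq_iff (Nat.succ_ne_zero k)]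
    constructor
    · rw [Nat.succ_sub_one, lt_div_iff₀ hT]
      rw [div_lt_iff₀ h2] at h0
      linarith
    · rw [div_le_iff₀ hT]
      rw [le_div_iff₀ h2] at h1
      linarith
  rw [h3]

/-- the grid inequality -/
private theorem Hi0_grid {kb : ℂ → ℝ} {s t : ℝ} (hst : s < t) {u : ℝ → ℂ → ℝ}
    (hu : SubFK kb s t u) {D : ℝ} (μ : ℝ) (hD : 0 < D) {Θ : ℝ → ℝ → ℝ}
    (huΘ : ∀ q, s ≤ q → q ≤ t → ∀ z, u q z ≤ Θ q z.re) (x : ℂ) (n : ℕ) (k : ℕ) :
    k ≤ 2 ^ n → ENNReal.ofReal (u s x) ≤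
      ∫⁻ w in {w : P2 | w.1 ∈ Blw D μ ((t - s) * k / 2 ^ n)}ᶜ, ENNReal.ofReal
        (Real.exp (Hi0_A kb x w (Hi0_sig D μ (t - s) n w)) *
          Θ (s + Hi0_sig D μ (t - s) n w) (x.re + w.1 (Hi0_sig D μ (t - s) n w))) ∂W2 +
      ∫⁻ w in {w : P2 | w.1 ∈ Blw D μ ((t - s) * k / 2 ^ n)}, ENNReal.ofReal
        (Real.exp (Hi0_A kb x w ((t - s) * k / 2 ^ n)) *
          u (s + (t - s) * k / 2 ^ n) (x + pt w ((t - s) * k / 2 ^ n))) ∂W2 := by
  have hT : 0 < t - s := sub_pos.2 hst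
  have h2n : (0 : ℝ) < 2 ^ n := by positivity
  induction k with
  | zero =>
    intro _
    refine le_add_left ?_
    have e : {w : P2 | w.1 ∈ Blw D μ ((t - s) * (0 : ℕ) / 2 ^ n)} = univ := by
      refine eq_univ_of_forall fun w => ?_
      intro v hv
      have hv0 : v = 0 := by
        have h1 := hv.1
        have h2 := hv.2
        simp only [Nat.cast_zero, mul_zero, zero_div] at h2
        exact le_antisymm h2 h1
      rw [hv0]
      simpa using hD
    rw [e, Measure.restrict_univ]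
    simp only [Nat.cast_zero, mul_zero, zero_div, add_zero, pt_zero, Hi0_A,
      intervalIntegral.integral_same, Real.exp_zero, one_mul, lintegral_const, measure_univ,
      mul_one, le_refl]
  | succ k ih =>
    intro hk
    have ih := ih (by omega)
    set r : ℝ := (t - s) * k / 2 ^ n with hr
    set r' : ℝ := (t - s) * (k + 1 : ℕ) / 2 ^ n with hr'
    have hr0 : 0 ≤ r := by positivity
    have hrr : r ≤ r' := by
      rw [hr, hr']
      push_cast
      gcongr
      linarith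
    have hr1 : r' ≤ t - s := by
      rw [hr', div_le_iff₀ h2n]
      have : ((k + 1 : ℕ) : ℝ) ≤ 2 ^ n := by exact_mod_cast hk
      exact mul_le_mul_of_nonneg_left this hT.le
    set N : Set P2 := {w : P2 | w.1 ∈ Blw D μ r} with hN
    set N' : Set P2 := {w : P2 | w.1 ∈ Blw D μ r'} with hN'
    have hNm : MeasurableSet N := measurable_fst (blw_meas D μ r)
    have hNm' : MeasurableSet N' := measurable_fst (blw_meas D μ r')
    have hsub : N' ⊆ N := fun w hw v hv => hw v ⟨hv.1, hv.2.trans hrr⟩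
    set H : P2 → ℝ≥0∞ := fun w => ENNReal.ofReal
        (Real.exp (Hi0_A kb x w (Hi0_sig D μ (t - s) n w)) *
          Θ (s + Hi0_sig D μ (t - s) n w) (x.re + w.1 (Hi0_sig D μ (t - s) n w))) with hH
    have h1 := Hi0_step hu D μ x ⟨r, hr0⟩ (r' := r') hrr (by linarith)
    change ∫⁻ w in N, ENNReal.ofReal (Real.exp (Hi0_A kb x w r) * u (s + r) (x + pt w r)) ∂W2 ≤
      ∫⁻ w in N, ENNReal.ofReal (Real.exp (Hi0_A kb x w r') * u (s + r') (x + pt w r')) ∂W2 at h1
    have h1' : ∫⁻ w in N, ENNReal.ofReal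
        (Real.exp (Hi0_A kb x w r) * u (s + (t - s) * k / 2 ^ n) (x + pt w r)) ∂W2 ≤
        ∫⁻ w in N, ENNReal.ofReal (Real.exp (Hi0_A kb x w r') * u (s + r') (x + pt w r')) ∂W2 := h1
    refine ih.trans ((add_le_add le_rfl h1).trans ?_)
    rw [← lintegral_inter_add_sdiff _ N hNm', inter_eq_self_of_subset_right hsub, add_comm
      (∫⁻ w in N', _ ∂W2), ← add_assoc]
    refine add_le_add ?_ le_rfl
    have e1 : N'ᶜ = Nᶜ ∪ (N \ N') := by
      ext w
      by_cases h : w ∈ N <;> by_cases h' : w ∈ N' <;> simp [h, h']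
      exact absurd (hsub h') h
    rw [e1, lintegral_union (hNm.diff hNm') (disjoint_left.2 fun w (h : w ∈ Nᶜ) h' => h h'.1)]
    refine add_le_add le_rfl (setLIntegral_mono' (hNm.diff hNm') fun w hw => ?_)
    obtain ⟨q1, q2, q3, q4⟩ := hit_spec (μ := μ) hD (hr0.trans hrr) hw.2
    have q5 : r < hit D μ w.1 := (q4 r hr0 hrr).1 hw.1
    have q6 : Hi0_sig D μ (t - s) n w = r' := Hi0_sig_eq hT n k q5 q2
    rw [q6]
    refine ENNReal.ofReal_le_ofReal (mul_le_mul_of_nonneg_left ?_ (Real.exp_nonneg _))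
    exact huΘ _ (by linarith) (by linarith) _

theorem hi0 {kb : ℂ → ℝ} {s t : ℝ} (hst : s < t) {u : ℝ → ℂ → ℝ} (hu : SubFK kb s t u) {D : ℝ} (μ : ℝ) (hD : 0 < D)
    {Θ : ℝ → ℝ → ℝ} (hΘ : Continuous (Function.uncurry Θ)) (hΘ0 : ∀ q z, 0 ≤ Θ q z) (hΘ1 : ∀ q z, Θ q z ≤ 1)
    (huΘ : ∀ q, s ≤ q → q ≤ t → ∀ z, u q z ≤ Θ q z.re) (x : ℂ) :
    ENNReal.ofReal (u s x) ≤
      ∫⁻ w in {w : P2 | w.1 ∉ Blw D μ (t - s)}, ENNReal.ofReal
        (Real.exp (∫ r in (0 : ℝ)..(hit D μ w.1), kb (x + pt w r)) *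
          Θ (s + hit D μ w.1) (x.re + D + μ * hit D μ w.1)) ∂W2 +
      ∫⁻ w in {w : P2 | w.1 ∈ Blw D μ (t - s)}, ENNReal.ofReal
        (Real.exp (∫ r in (0 : ℝ)..(t - s), kb (x + pt w r)) * u t (x + pt w (t - s))) ∂W2 := by
  have hT : 0 < t - s := sub_pos.2 hst
  have hNm : MeasurableSet {w : P2 | w.1 ∈ Blw D μ (t - s)} := measurable_fst (blw_meas D μ _)
  have hgrid : ∀ n : ℕ, ENNReal.ofReal (u s x) ≤
      ∫⁻ w in {w : P2 | w.1 ∈ Blw D μ (t - s)}ᶜ, ENNReal.ofReal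
        (Real.exp (Hi0_A kb x w (Hi0_sig D μ (t - s) n w)) *
          Θ (s + Hi0_sig D μ (t - s) n w) (x.re + w.1 (Hi0_sig D μ (t - s) n w))) ∂W2 +
      ∫⁻ w in {w : P2 | w.1 ∈ Blw D μ (t - s)}, ENNReal.ofReal
        (Real.exp (∫ r in (0 : ℝ)..(t - s), kb (x + pt w r)) * u t (x + pt w (t - s))) ∂W2 := by
    intro n
    have h := Hi0_grid hst hu μ hD huΘ x n (2 ^ n) le_rfl
    have e : (t - s) * ((2 ^ n : ℕ) : ℝ) / 2 ^ n = t - s := by
      push_cast
      field_simp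
    have e2 : s + (t - s) * ((2 ^ n : ℕ) : ℝ) / 2 ^ n = t := by
      rw [e]
      ring
    rw [e2, e] at h
    exact h
  have hlim : Tendsto (fun n : ℕ => ∫⁻ w in {w : P2 | w.1 ∈ Blw D μ (t - s)}ᶜ, ENNReal.ofReal
        (Real.exp (Hi0_A kb x w (Hi0_sig D μ (t - s) n w)) *
          Θ (s + Hi0_sig D μ (t - s) n w) (x.re + w.1 (Hi0_sig D μ (t - s) n w))) ∂W2) atTop
      (𝓝 (∫⁻ w in {w : P2 | w.1 ∈ Blw D μ (t - s)}ᶜ, ENNReal.ofReal
        (Real.exp (∫ r in (0 : ℝ)..(hit D μ w.1), kb (x + pt w r)) *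
          Θ (s + hit D μ w.1) (x.re + D + μ * hit D μ w.1)) ∂W2)) := by
    have hspec : ∀ w ∈ {w : P2 | w.1 ∈ Blw D μ (t - s)}ᶜ, 0 < hit D μ w.1 ∧
        hit D μ w.1 ≤ t - s ∧ w.1 (hit D μ w.1) = D + μ * hit D μ w.1 := fun w hw => by
      obtain ⟨q1, q2, q3, q4⟩ := hit_spec (μ := μ) hD hT.le (w := w.1) hw
      exact ⟨q1, q2, q3⟩
    refine tendsto_lintegral_of_dominated_convergence
      (fun _ => ENNReal.ofReal (Real.exp (t - s))) (fun n => ?_) (fun n => ?_) ?_ ?_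
    · have hs := Hi0_sig_meas D μ (t - s) n
      refine Measurable.ennreal_ofReal (Measurable.mul (Real.measurable_exp.comp ?_) ?_)
      · exact (Hi0_A_meas hu.kmeas).comp ((measurable_const.prodMk measurable_id).prodMk hs)
      · exact hΘ.measurable.comp ((measurable_const.add hs).prodMk
          (measurable_const.add (Pth.measurable_eval measurable_fst hs)))
    · refine ae_restrict_of_forall_mem hNm.compl fun w hw => ?_
      obtain ⟨q1, q2, q3⟩ := hspec w hw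
      obtain ⟨b1, b2, b3⟩ := Hi0_sig_bd hT n q1 q2
      refine ENNReal.ofReal_le_ofReal ?_
      have h1 : Hi0_A kb x w (Hi0_sig D μ (t - s) n w) ≤ t - s := by
        refine (Hi0_A_le hu.knonneg hu.kle _ _ _).trans ?_
        rw [abs_of_nonneg (q1.le.trans b1)]
        exact b3
      calc _ ≤ Real.exp (t - s) * 1 := mul_le_mul (Real.exp_le_exp.2 h1) (hΘ1 _ _) (hΘ0 _ _)
            (Real.exp_nonneg _)
        _ = _ := mul_one _
    · rw [lintegral_const]
      exact ENNReal.mul_ne_top ENNReal.ofReal_ne_top (measure_ne_top _ _)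
    · refine ae_restrict_of_forall_mem hNm.compl fun w hw => ?_
      obtain ⟨q1, q2, q3⟩ := hspec w hw
      have hs : Tendsto (fun n => Hi0_sig D μ (t - s) n w) atTop (𝓝 (hit D μ w.1)) := by
        refine tendsto_of_tendsto_of_tendsto_of_le_of_le tendsto_const_nhds
          (h := fun n : ℕ => hit D μ w.1 + (t - s) * (1 / 2) ^ n) ?_
          (fun n => (Hi0_sig_bd hT n q1 q2).1) (fun n => (Hi0_sig_bd hT n q1 q2).2.1)
        have h1 : Tendsto (fun n : ℕ => (1 / 2 : ℝ) ^ n) atTop (𝓝 0) :=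
          tendsto_pow_atTop_nhds_zero_of_lt_one (by norm_num) (by norm_num)
        have h2 := (h1.const_mul (t - s)).const_add (hit D μ w.1)
        rw [mul_zero, add_zero] at h2
        exact h2
      have hc : Continuous fun τ : ℝ => ENNReal.ofReal
          (Real.exp (Hi0_A kb x w τ) * Θ (s + τ) (x.re + w.1 τ)) := by
        refine ENNReal.continuous_ofReal.comp (Continuous.mul
          (Real.continuous_exp.comp (Hi0_A_cont hu.kmeas hu.knonneg hu.kle x w)) ?_)
        exact hΘ.comp ((continuous_const.add continuous_id).prodMk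
          (continuous_const.add w.1.continuous))
      have h3 := (hc.tendsto (hit D μ w.1)).comp hs
      have e : x.re + w.1 (hit D μ w.1) = x.re + D + μ * hit D μ w.1 := by
        rw [q3]
        ring
      rw [e] at h3
      exact h3
  exact le_of_tendsto_of_tendsto' tendsto_const_nhds (hlim.add_const _) hgrid

end Pool.H50.BB
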