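import Mathlib

/-!
# Row Hrf: reverse Fatou for bounded families   (about 60 lines, Mathlib only)

`e i ω = max 0 (D i ω - R ω) ∈ [0,1]` tends to `0` along `l` for every `ω`; dominated convergence for countably generated filters (`tendsto_lintegral_filter_of_dominated_convergence`, bound `1`, `μ` finite):
`∫⁻ ofReal (e i) → 0`; and `ofReal (D i) ≤ ofReal R + ofReal (e i)`.
-/

open MeasureTheory Set Filter Topology
open scoped NNReal ENNReal

namespace Pool.H50.BB

theorem rev_fatou {Ω ι : Type*} [MeasurableSpace Ω] {μ : Measure Ω} [IsFiniteMeasure μ] {l : Filter ι}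
    [l.IsCountablyGenerated] {D : ι → Ω → ℝ} {R : Ω → ℝ} (hD : ∀ᶠ i in l, Measurable (D i)) (hR : Measurable R)
    (hR0 : ∀ ω, 0 ≤ R ω) (h1 : ∀ i ω, D i ω ≤ 1)
    (h : ∀ ω, ∀ δ > 0, ∀ᶠ i in l, D i ω ≤ R ω + δ) {δ : ℝ} (hδ : 0 < δ) :
    ∀ᶠ i in l, ∫⁻ ω, ENNReal.ofReal (D i ω) ∂μ ≤ ∫⁻ ω, ENNReal.ofReal (R ω) ∂μ + ENNReal.ofReal δ := by
  have hlim : Tendsto (fun i => ∫⁻ ω, ENNReal.ofReal (D i ω - R ω) ∂μ) l (𝓝 (∫⁻ _ω, (0 : ℝ≥0∞) ∂μ)) := by
    refine tendsto_lintegral_filter_of_dominated_convergence (fun _ => 1) ?_ ?_ ?_ ?_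
    · filter_upwards [hD] with i hi
      exact (hi.sub hR).ennreal_ofReal
    · refine Eventually.of_forall fun i => Eventually.of_forall fun ω => ?_
      rw [← ENNReal.ofReal_one]
      exact ENNReal.ofReal_le_ofReal (by have := h1 i ω; have := hR0 ω; linarith)
    · rw [lintegral_one]
      exact measure_ne_top μ univ
    · refine Eventually.of_forall fun ω => ?_
      rw [ENNReal.tendsto_nhds_zero]
      intro ε hε
      by_cases hε' : ε = ⊤
      · rw [hε']
        exact Eventually.of_forall fun _ => le_top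
      · have hpos : 0 < ε.toReal := ENNReal.toReal_pos hε.ne' hε'
        filter_upwards [h ω ε.toReal hpos] with i hi
        rw [← ENNReal.ofReal_toReal hε']
        exact ENNReal.ofReal_le_ofReal (by linarith)
  rw [lintegral_zero] at hlim
  have h2 := ENNReal.tendsto_nhds_zero.1 hlim (ENNReal.ofReal δ) (ENNReal.ofReal_pos.2 hδ)
  filter_upwards [h2] with i hi
  calc ∫⁻ ω, ENNReal.ofReal (D i ω) ∂μ
      ≤ ∫⁻ ω, (ENNReal.ofReal (R ω) + ENNReal.ofReal (D i ω - R ω)) ∂μ := by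
        refine lintegral_mono fun ω => ?_
        have h3 : D i ω = R ω + (D i ω - R ω) := by ring
        calc ENNReal.ofReal (D i ω) = ENNReal.ofReal (R ω + (D i ω - R ω)) := by rw [← h3]
          _ ≤ _ := ENNReal.ofReal_add_le
    _ = ∫⁻ ω, ENNReal.ofReal (R ω) ∂μ + ∫⁻ ω, ENNReal.ofReal (D i ω - R ω) ∂μ :=
        lintegral_add_left hR.ennreal_ofReal _
    _ ≤ ∫⁻ ω, ENNReal.ofReal (R ω) ∂μ + ENNReal.ofReal δ := by gcongr

end Pool.H50.BB
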