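import Pool.Agent.H50.BB.Y1n

/-!
# Row Y2u: sharp upper asymptotics of Gm   (about 260 lines)

Fixed `U, ε > 0`.  For `r ≥ r0` and `t` large let `N = ⌊(t^g - r^g)/(gκ²)⌋ ≥ 3`, `HH ∈ [1,2]`; notation of `Y1n` with `p = 0`: `f_N v = exp(-ε_t v²)`, `ε_t = sl_{N-1} ell t/2 ∈ [c t^{-g}, C t^{-g}]`,
`f_k = TV (Vt α ω_k R_k) h_k f_{k+1}`, `η_k ≤ C x_k^{-δ}`, `δ = min ζ (2g) > g`, `B = ∑_{k<N} η_k ≤ C r^{g-δ}`.  `S = ∑_{k=1}^{N-2} h_k`.
(1) `nrm f_{N-1} ≤ C` (`last_window` with `p = 0`, as in `Y1n`).  `c1 := ∫ φ f_{N-1} = ∫ φ TV(Va) h_{N-1} f_N + err`, `|err| ≤ nrm φ · C (ω_{N-1} + e^{-cR^α}) nrm f_N ≤ C t^{-δ} t^{g/4} → 0` as `t → ∞`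
(`det1`, `nrm f_N = (π/(2ε_t))^{1/4}`), and `∫ φ TV h f_N = ∫ f_N TV h φ = e^{-lam h} ∫ φ f_N ≤ e^{-lam h_{N-1}} ∫ φ` (`tv_symm`, `GS.eig`, `f_N ≤ 1`).
(2) `at_fun` on the indices `1..N-2` (sequence `k ↦ f_{k+1}`, length `N-2 ≥ 1`, final function `f_{N-1}`): `f_1 = e^{-lam S} c1 φ + E`, `nrm E ≤ e^{-lam S} (e^B - 1 + C e^{-ρS}) C`.
`nrm f_1 ≤ e^{-lam S} e^B C` (`at_nrm`).
(3) `f_0 u = TV (Vt) h_0 f_1 u ≤ TV (Va) h_0 f_1 u + η_0 nrm f_1` (`det1`, pointwise) `= e^{-lam S} c1 e^{-lam h_0} φ u + TV (Va) h_0 E u + η_0 nrm f_1 ≤ e^{-lam(S+h_0)} c1 φ u + 2 nrm E + η_0 nrm f_1` (`det3`, `tv_add`).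
So `f_0 u ≤ e^{-lam (h_0+S+h_{N-1})} [φ(u) ∫φ + o_t(1) + C (e^B - 1 + η_0)]` (constants `e^{8 lam}` absorbed; `S → ∞` as `t → ∞`), and `h_0 + S + h_{N-1} ≥ N H`, so `e^{-lam(..)} ≤ exp (-√2 (kap t - kap r))`
(careful: `φ ≤ C`, and the bracket is positive; if the exponent is larger the bound is smaller).
(4) `wup`: factor `exp (sl_0 y²/(2 ell r)) ≤ exp (C r^{-g} U²)` for `|y| ≤ U r^γ`, `√(ell t/ell r) = (t/r)^{γ/2}`.  Choose `r0` so that all `r`-errors are `≤ ε/2`, then `t` large.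
-/

open MeasureTheory ProbabilityTheory Set Filter Topology
open scoped NNReal ENNReal

namespace Pool.H50.BB

open Pool.Agent.H4.BM

theorem Y2u_exp {c a : ℝ} (hc : 0 < c) (ha : 0 < a) (d : ℝ) : ∃ A > 0, ∀ x : ℝ, 1 ≤ x →
    Real.exp (-c * x ^ a) ≤ A * x ^ (-d) := by
  obtain ⟨n, hn⟩ := exists_nat_ge (d / a)
  refine ⟨(n.factorial : ℝ) / c ^ n, by positivity, fun x hx => ?_⟩
  have hx0 : 0 < x := by linarith
  have hxa : 0 < x ^ a := Real.rpow_pos_of_pos hx0 a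
  have h1 : (c * x ^ a) ^ n / n.factorial ≤ Real.exp (c * x ^ a) :=
    Real.pow_div_factorial_le_exp _ (by positivity) n
  have h2 : x ^ d ≤ (x ^ a) ^ n := by
    rw [← Real.rpow_natCast, ← Real.rpow_mul hx0.le]
    apply Real.rpow_le_rpow_of_exponent_le hx
    rw [div_le_iff₀ ha] at hn
    linarith
  have h3 : x ^ d ≤ (n.factorial : ℝ) / c ^ n * Real.exp (c * x ^ a) := by
    rw [mul_pow] at h1
    have hcn : 0 < c ^ n := by positivity
    have hfn : (0 : ℝ) < n.factorial := by positivity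
    rw [div_le_iff₀ hfn] at h1
    rw [div_mul_eq_mul_div, le_div_iff₀ hcn]
    nlinarith
  have h4 : Real.exp (-c * x ^ a) = (Real.exp (c * x ^ a))⁻¹ := by
    rw [← Real.exp_neg]
    congr 1
    ring
  have hxd : 0 < x ^ d := Real.rpow_pos_of_pos hx0 d
  rw [h4, Real.rpow_neg hx0.le]
  rw [← div_eq_mul_inv, le_div_iff₀ hxd, inv_mul_le_iff₀ (Real.exp_pos _)]
  linarith

theorem Y2u_phi {α lam ρ C : ℝ} {φ : ℝ → ℝ} (G : GS α lam ρ C φ) :
    MemLp φ 2 volume ∧ Integrable φ ∧ (∀ u, φ u ≤ C) ∧ nrm φ = 1 := by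
  have hC0 : 0 ≤ C := by linarith [G.C_ge]
  have h1 : Integrable (fun x => φ x ^ 2) := by
    by_contra h
    have := integral_undef h
    rw [G.norm] at this
    exact one_ne_zero this
  have hle : ∀ u : ℝ, φ u ≤ C * (1 + u ^ 2)⁻¹ := by
    intro u
    refine (G.bd u).trans ?_
    have h2 : (0 : ℝ) < 1 + u ^ 2 := by positivity
    rw [div_eq_mul_inv]
    apply mul_le_mul_of_nonneg_left _ hC0
    apply inv_anti₀ h2
    nlinarith [sq_nonneg u]
  refine ⟨(memLp_two_iff_integrable_sq G.meas.aestronglyMeasurable).2 h1, ?_, ?_, ?_⟩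
  · refine Integrable.mono' (integrable_inv_one_add_sq.const_mul C) G.meas.aestronglyMeasurable
      (Filter.Eventually.of_forall fun u => ?_)
    rw [Real.norm_of_nonneg (G.pos u).le]
    exact hle u
  · intro u
    refine (hle u).trans ?_
    have h2 : (0 : ℝ) < 1 + u ^ 2 := by positivity
    have h3 : (1 + u ^ 2 : ℝ)⁻¹ ≤ 1 := by
      rw [inv_le_one_iff₀]
      right
      nlinarith [sq_nonneg u]
    nlinarith
  · unfold nrm
    rw [G.norm, Real.sqrt_one]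

theorem Y2u_core {α lam ρ C : ℝ} {φ : ℝ → ℝ} (hα : 0 < α) (G : GS α lam ρ C φ)
    (M : ℕ) (hM : 1 ≤ M) (h θ : ℕ → ℝ) (f : ℕ → ℝ → ℝ) (K1 B : ℝ)
    (hh : ∀ k < M + 2, 1 / 8 ≤ h k ∧ h k ≤ 4)
    (hθ0 : ∀ k < M + 2, 0 ≤ θ k)
    (hm : ∀ k ≤ M + 2, Measurable (f k)) (h2 : ∀ k ≤ M + 2, MemLp (f k) 2 volume)
    (hN1 : ∀ x, f (M + 2) x ≤ 1)
    (hd : ∀ k < M + 2, nrm (fun u => f k u - TV (Va α) (h k) (f (k + 1)) u) ≤ θ k * nrm (f (k + 1)) ∧
      ∀ u, |f k u - TV (Va α) (h k) (f (k + 1)) u| ≤ θ k * nrm (f (k + 1)))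
    (hK1 : nrm (f (M + 1)) ≤ K1)
    (hB : ∑ k ∈ Finset.range (M + 2), Real.exp (4 * lam) * θ k ≤ B) (u : ℝ) :
    f 0 u ≤ Real.exp (-lam * ∑ k ∈ Finset.range (M + 2), h k) *
      (((∫ x, φ x) + Real.exp (4 * lam) * (θ (M + 1) * nrm (f (M + 2)))) * φ u +
        Real.exp (8 * lam) * (K1 * (2 * (Real.exp B - 1 + C * Real.exp (-ρ * ∑ k ∈ Finset.range M, h (k + 1))) +
          θ 0 * Real.exp B))) := by
  obtain ⟨hφ2, hφi, hφC, hφn⟩ := Y2u_phi G
  have hVa := pot_Va hα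
  have hlam := G.lam_pos
  set S : ℝ := ∑ k ∈ Finset.range M, h (k + 1) with hS
  set e4 : ℝ := Real.exp (4 * lam) with he4
  have he4p : 0 < e4 := Real.exp_pos _
  set c1 : ℝ := ∫ x, φ x * f (M + 1) x with hc1
  set Pp : ℝ := ∏ k ∈ Finset.range M, (1 + e4 * θ (k + 1)) with hPd
  have hH : ∀ k < M, nrm (fun u => f (k + 1) u - TV (Va α) (h (k + 1)) (f (k + 1 + 1)) u) ≤
      (e4 * θ (k + 1)) * Real.exp (-lam * h (k + 1)) * nrm (f (k + 1 + 1)) := by
    intro k hk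
    refine (hd (k + 1) (by omega)).1.trans ?_
    have h3 : 1 ≤ e4 * Real.exp (-lam * h (k + 1)) := by
      rw [he4, ← Real.exp_add]
      apply Real.one_le_exp
      nlinarith [(hh (k + 1) (by omega)).2]
    have h4 : 0 ≤ θ (k + 1) * nrm (f (k + 1 + 1)) := mul_nonneg (hθ0 _ (by omega)) (Det_nrm_nonneg _)
    calc θ (k + 1) * nrm (f (k + 1 + 1)) ≤ (θ (k + 1) * nrm (f (k + 1 + 1))) * (e4 * Real.exp (-lam * h (k + 1))) :=
          le_mul_of_one_le_right h4 h3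
      _ = _ := by ring
  have hη : ∀ k < M, 0 ≤ e4 * θ (k + 1) := fun k hk => mul_nonneg he4p.le (hθ0 _ (by omega))
  have hmM : ∀ k ≤ M, Measurable (f (k + 1)) := fun k hk => hm _ (by omega)
  have h2M : ∀ k ≤ M, MemLp (f (k + 1)) 2 volume := fun k hk => h2 _ (by omega)
  have hhM : ∀ k < M, 0 < h (k + 1) := fun k hk => by linarith [(hh (k + 1) (by omega)).1]
  have hE := at_fun hα G M hM (fun k => h (k + 1)) (fun k => e4 * θ (k + 1)) (fun k => f (k + 1))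
    hmM h2M hhM hη hH
  have hF := at_nrm hα G M (fun k => h (k + 1)) (fun k => e4 * θ (k + 1)) (fun k => f (k + 1))
    hmM h2M hhM hη hH
  have hE' : nrm (fun u => f 1 u - Real.exp (-lam * S) * c1 * φ u) ≤
      Real.exp (-lam * S) * (Pp - 1 + C * Real.exp (-ρ * S)) * nrm (f (M + 1)) := hE
  have hF' : nrm (f 1) ≤ Real.exp (-lam * S) * Pp * nrm (f (M + 1)) := hF
  have hPB : Pp ≤ Real.exp B := by
    calc Pp ≤ ∏ k ∈ Finset.range M, Real.exp (e4 * θ (k + 1)) := by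
          apply Finset.prod_le_prod
          · intro k hk
            linarith [hη k (Finset.mem_range.1 hk)]
          · intro k _
            linarith [Real.add_one_le_exp (e4 * θ (k + 1))]
      _ = Real.exp (∑ k ∈ Finset.range M, e4 * θ (k + 1)) := (Real.exp_sum _ _).symm
      _ ≤ Real.exp B := by
          apply Real.exp_le_exp.2
          refine le_trans ?_ hB
          rw [Finset.sum_range_succ' (fun k => e4 * θ k) (M + 1), Finset.sum_range_succ]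
          have h5 := mul_nonneg he4p.le (hθ0 0 (by omega))
          have h6 := mul_nonneg he4p.le (hθ0 (M + 1) (by omega))
          linarith
  have hP1 : 1 ≤ Pp := by
    rw [hPd]
    calc (1 : ℝ) = ∏ k ∈ Finset.range M, (1 : ℝ) := by rw [Finset.prod_const_one]
      _ ≤ ∏ k ∈ Finset.range M, (1 + e4 * θ (k + 1)) := by
          apply Finset.prod_le_prod
          · intro k _
            exact zero_le_one
          · intro k hk
            linarith [hη k (Finset.mem_range.1 hk)]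
  have hK10 : 0 ≤ K1 := (Det_nrm_nonneg _).trans hK1
  have hC0 : 0 ≤ C := by linarith [G.C_ge]
  set eS : ℝ := Real.exp (-lam * S) with heS
  have heSp : 0 < eS := Real.exp_pos _
  have hnE : nrm (fun u => f 1 u - eS * c1 * φ u) ≤ eS * ((Real.exp B - 1 + C * Real.exp (-ρ * S)) * K1) := by
    refine hE'.trans ?_
    rw [mul_assoc]
    apply mul_le_mul_of_nonneg_left _ heSp.le
    apply mul_le_mul _ hK1 (Det_nrm_nonneg _)
    · have := mul_nonneg hC0 (Real.exp_pos (-ρ * S)).le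
      linarith
    · linarith
  have hnF : nrm (f 1) ≤ eS * (Real.exp B * K1) := by
    refine hF'.trans ?_
    rw [mul_assoc]
    apply mul_le_mul_of_nonneg_left _ heSp.le
    exact mul_le_mul hPB hK1 (Det_nrm_nonneg _) (Real.exp_pos _).le
  -- c1
  have hcN : c1 ≤ Real.exp (-lam * h (M + 1)) * (∫ x, φ x) + θ (M + 1) * nrm (f (M + 2)) := by
    have hmN := hm (M + 2) le_rfl
    have h2N := h2 (M + 2) le_rfl
    have hpos : 0 < h (M + 1) := by linarith [(hh (M + 1) (by omega)).1]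
    have hTm := tv_meas hVa hpos hmN
    have hT2 := (tv_L2 hVa hpos hmN h2N).1
    have hdm : Measurable (fun x => f (M + 1) x - TV (Va α) (h (M + 1)) (f (M + 1 + 1)) x) :=
      (hm _ (by omega)).sub hTm
    have hd2 : MemLp (fun x => f (M + 1) x - TV (Va α) (h (M + 1)) (f (M + 1 + 1)) x) 2 volume :=
      (h2 _ (by omega)).sub hT2
    have hi1 : Integrable (fun x => φ x * (f (M + 1) x - TV (Va α) (h (M + 1)) (f (M + 1 + 1)) x)) :=
      hφ2.integrable_mul hd2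
    have hi2 : Integrable (fun x => φ x * TV (Va α) (h (M + 1)) (f (M + 1 + 1)) x) :=
      hφ2.integrable_mul hT2
    have e1 : c1 = (∫ x, φ x * (f (M + 1) x - TV (Va α) (h (M + 1)) (f (M + 1 + 1)) x)) +
        ∫ x, φ x * TV (Va α) (h (M + 1)) (f (M + 1 + 1)) x := by
      rw [hc1, ← integral_add hi1 hi2]
      refine integral_congr_ae (Filter.Eventually.of_forall fun x => ?_)
      ring
    have h6 : ∫ x, φ x * (f (M + 1) x - TV (Va α) (h (M + 1)) (f (M + 1 + 1)) x) ≤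
        θ (M + 1) * nrm (f (M + 2)) := by
      refine (le_abs_self _).trans ((nrm_cs hφ2 hd2).trans ?_)
      rw [hφn, one_mul]
      exact (hd (M + 1) (by omega)).1
    have h7 : ∫ x, φ x * TV (Va α) (h (M + 1)) (f (M + 1 + 1)) x ≤
        Real.exp (-lam * h (M + 1)) * (∫ x, φ x) := by
      rw [tv_symm hVa hpos hmN h2N G.meas hφ2]
      rw [← integral_const_mul]
      have hi3 : Integrable (fun x => f (M + 2) x * TV (Va α) (h (M + 1)) φ x) :=
        h2N.integrable_mul (tv_L2 hVa hpos G.meas hφ2).1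
      refine integral_mono hi3 (hφi.const_mul _) fun x => ?_
      show f (M + 2) x * TV (Va α) (h (M + 1)) φ x ≤ Real.exp (-lam * h (M + 1)) * φ x
      rw [G.eig _ hpos x]
      have h8 : 0 ≤ Real.exp (-lam * h (M + 1)) * φ x := mul_nonneg (Real.exp_pos _).le (G.pos x).le
      exact mul_le_of_le_one_left h8 (hN1 x)
    rw [e1]
    linarith
  -- f 0
  have hpos0 : 0 < h 0 := by linarith [(hh 0 (by omega)).1]
  have hEm : Measurable (fun u => f 1 u - eS * c1 * φ u) :=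
    (hm 1 (by omega)).sub (G.meas.const_mul _)
  have hE2 : MemLp (fun u => f 1 u - eS * c1 * φ u) 2 volume :=
    (h2 1 (by omega)).sub (hφ2.const_mul _)
  have h9 : TV (Va α) (h 0) (f 1) u = eS * c1 * (Real.exp (-lam * h 0) * φ u) +
      TV (Va α) (h 0) (fun u => f 1 u - eS * c1 * φ u) u := by
    have h10 := tv_add hVa hpos0 G.meas hφ2 hEm hE2 (eS * c1) 1 u
    have h11 : (fun x => eS * c1 * φ x + 1 * (f 1 x - eS * c1 * φ x)) = f 1 := by
      funext x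
      ring
    rw [h11, G.eig _ hpos0 u, one_mul] at h10
    exact h10
  have h12 := (le_abs_self _).trans (det3 hVa (hh 0 (by omega)).1 hEm hE2 u)
  have h13 := (le_abs_self _).trans ((hd 0 (by omega)).2 u)
  have h14 : f 0 u ≤ eS * c1 * (Real.exp (-lam * h 0) * φ u) +
      2 * (eS * ((Real.exp B - 1 + C * Real.exp (-ρ * S)) * K1)) + θ 0 * (eS * (Real.exp B * K1)) := by
    have h15 : θ 0 * nrm (f (0 + 1)) ≤ θ 0 * (eS * (Real.exp B * K1)) :=
      mul_le_mul_of_nonneg_left hnF (hθ0 0 (by omega))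
    have h16 : f 0 u - TV (Va α) (h 0) (f 1) u ≤ θ 0 * nrm (f (0 + 1)) := h13
    linarith
  have hsum : ∑ k ∈ Finset.range (M + 2), h k = h 0 + S + h (M + 1) := by
    rw [Finset.sum_range_succ' h (M + 1), Finset.sum_range_succ, ← hS]
    ring
  set T : ℝ := Real.exp (-lam * ∑ k ∈ Finset.range (M + 2), h k) with hT
  have hTp : 0 < T := Real.exp_pos _
  have hTe : T = Real.exp (-lam * h 0) * eS * Real.exp (-lam * h (M + 1)) := by
    rw [hT, hsum, heS, ← Real.exp_add, ← Real.exp_add]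
    congr 1
    ring
  have hST : eS ≤ T * Real.exp (8 * lam) := by
    rw [hT, hsum, heS, ← Real.exp_add]
    apply Real.exp_le_exp.2
    nlinarith [(hh 0 (by omega)).2, (hh (M + 1) (by omega)).2]
  have hST4 : eS * Real.exp (-lam * h 0) ≤ T * e4 := by
    rw [hT, hsum, heS, he4, ← Real.exp_add, ← Real.exp_add]
    apply Real.exp_le_exp.2
    nlinarith [(hh (M + 1) (by omega)).2]
  have hn0 : 0 ≤ θ (M + 1) * nrm (f (M + 2)) := mul_nonneg (hθ0 _ (by omega)) (Det_nrm_nonneg _)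
  have hφu := (G.pos u).le
  have h17 : eS * c1 * (Real.exp (-lam * h 0) * φ u) ≤
      T * (((∫ x, φ x) + e4 * (θ (M + 1) * nrm (f (M + 2)))) * φ u) := by
    have h18 : eS * c1 * (Real.exp (-lam * h 0) * φ u) ≤
        eS * (Real.exp (-lam * h (M + 1)) * (∫ x, φ x) + θ (M + 1) * nrm (f (M + 2))) *
          (Real.exp (-lam * h 0) * φ u) := by
      apply mul_le_mul_of_nonneg_right _ (mul_nonneg (Real.exp_pos _).le hφu)
      exact mul_le_mul_of_nonneg_left hcN heSp.le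
    refine h18.trans ?_
    have h19 : eS * (Real.exp (-lam * h (M + 1)) * (∫ x, φ x) + θ (M + 1) * nrm (f (M + 2))) *
          (Real.exp (-lam * h 0) * φ u) =
        T * ((∫ x, φ x) * φ u) + (eS * Real.exp (-lam * h 0)) * ((θ (M + 1) * nrm (f (M + 2))) * φ u) := by
      rw [hTe]
      ring
    rw [h19]
    have h20 : (eS * Real.exp (-lam * h 0)) * ((θ (M + 1) * nrm (f (M + 2))) * φ u) ≤
        (T * e4) * ((θ (M + 1) * nrm (f (M + 2))) * φ u) :=
      mul_le_mul_of_nonneg_right hST4 (mul_nonneg hn0 hφu)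
    calc _ ≤ T * ((∫ x, φ x) * φ u) + (T * e4) * ((θ (M + 1) * nrm (f (M + 2))) * φ u) := by linarith
      _ = _ := by ring
  have hD0 : 0 ≤ K1 * (2 * (Real.exp B - 1 + C * Real.exp (-ρ * S)) + θ 0 * Real.exp B) := by
    apply mul_nonneg hK10
    have h21 : 1 ≤ Real.exp B := hP1.trans hPB
    have h22 := mul_nonneg hC0 (Real.exp_pos (-ρ * S)).le
    have h23 := mul_nonneg (hθ0 0 (by omega)) (Real.exp_pos B).le
    linarith
  have h24 : eS * (K1 * (2 * (Real.exp B - 1 + C * Real.exp (-ρ * S)) + θ 0 * Real.exp B)) ≤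
      (T * Real.exp (8 * lam)) * (K1 * (2 * (Real.exp B - 1 + C * Real.exp (-ρ * S)) + θ 0 * Real.exp B)) :=
    mul_le_mul_of_nonneg_right hST hD0
  calc f 0 u ≤ _ := h14
    _ = eS * c1 * (Real.exp (-lam * h 0) * φ u) +
        eS * (K1 * (2 * (Real.exp B - 1 + C * Real.exp (-ρ * S)) + θ 0 * Real.exp B)) := by ring
    _ ≤ T * (((∫ x, φ x) + e4 * (θ (M + 1) * nrm (f (M + 2)))) * φ u) +
        (T * Real.exp (8 * lam)) * (K1 * (2 * (Real.exp B - 1 + C * Real.exp (-ρ * S)) + θ 0 * Real.exp B)) := by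
        linarith
    _ = _ := by ring

theorem Y2u_seq (N : ℕ) (V : ℕ → ℝ → ℝ) (h : ℕ → ℝ) (g : ℝ → ℝ) :
    ∃ f : ℕ → ℝ → ℝ, f N = g ∧ ∀ k < N, f k = TV (V k) (h k) (f (k + 1)) := by
  obtain ⟨F, hF0, hFs⟩ : ∃ F : ℕ → ℝ → ℝ, F 0 = g ∧
      ∀ j, F (j + 1) = TV (V (N - (j + 1))) (h (N - (j + 1))) (F j) :=
    ⟨fun j => Nat.rec g (fun j G => TV (V (N - (j + 1))) (h (N - (j + 1))) G) j, rfl, fun j => rfl⟩
  refine ⟨fun k => F (N - k), ?_, fun k hk => ?_⟩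
  · show F (N - N) = g
    rw [Nat.sub_self, hF0]
  · show F (N - k) = TV (V k) (h k) (F (N - (k + 1)))
    have h1 : N - k = (N - (k + 1)) + 1 := by omega
    rw [h1, hFs]
    have h2 : N - (N - (k + 1) + 1) = k := by omega
    rw [h2]

theorem Y2u_prop {N : ℕ} {V : ℕ → ℝ → ℝ} {h : ℕ → ℝ} {f : ℕ → ℝ → ℝ}
    (hV : ∀ k < N, Pot (V k)) (hh : ∀ k < N, 0 < h k)
    (hN : Measurable (f N)) (hN2 : MemLp (f N) 2 volume)
    (hf : ∀ k < N, f k = TV (V k) (h k) (f (k + 1))) :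
    ∀ k ≤ N, Measurable (f k) ∧ MemLp (f k) 2 volume := by
  have key : ∀ j ≤ N, Measurable (f (N - j)) ∧ MemLp (f (N - j)) 2 volume := by
    intro j
    induction j with
    | zero => intro _; exact ⟨hN, hN2⟩
    | succ j ih =>
      intro hj
      obtain ⟨h1, h2⟩ := ih (by omega)
      have h3 : N - (j + 1) < N := by omega
      have h4 : N - (j + 1) + 1 = N - j := by omega
      rw [hf _ h3, h4]
      exact ⟨tv_meas (hV _ h3) (hh _ h3) h1, (tv_L2 (hV _ h3) (hh _ h3) h1 h2).1⟩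
  intro k hk
  have := key (N - k) (by omega)
  rwa [Nat.sub_sub_self hk] at this

theorem Y2u_gauss {ε : ℝ} (hε : 0 < ε) : nrm (fun v : ℝ => Real.exp (-ε * v ^ 2)) = √(√(Real.pi / (2 * ε))) := by
  unfold nrm
  congr 1
  rw [← integral_gaussian (2 * ε)]
  refine integral_congr_ae (Filter.Eventually.of_forall fun v => ?_)
  show Real.exp (-ε * v ^ 2) ^ 2 = Real.exp (-(2 * ε) * v ^ 2)
  rw [← Real.exp_nat_mul]
  congr 1
  push_cast
  ring

theorem Y2u_ss {a x g : ℝ} (ha : 0 ≤ a) (hx : 0 < x) : √(√(a * x ^ g)) = a ^ (1 / 4 : ℝ) * x ^ (g / 4) := by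
  rw [Real.sqrt_eq_rpow, Real.sqrt_eq_rpow, ← Real.rpow_mul (by positivity),
    Real.mul_rpow ha (by positivity), ← Real.rpow_mul hx.le]
  have h1 : (1 / 2 : ℝ) * (1 / 2) = 1 / 4 := by norm_num
  have h2 : g * (1 / 2 * (1 / 2) : ℝ) = g / 4 := by ring
  rw [h2, h1]

theorem Y2u_win {α β lam ρ C : ℝ} {φ : ℝ → ℝ} (hα : 0 < α) (hα2 : α < 2) (hβ : 0 < β) (G : GS α lam ρ C φ)
    {Cf ζ η : ℝ} (hCf : 0 ≤ Cf) (hζ : gg α < ζ) (hη : 0 < η) {U : ℝ} (hU : 0 < U) :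
    ∃ δ > gg α, ∃ s0 ≥ (1 : ℝ), ∃ K1 > 0, ∃ Kf ≥ (0 : ℝ), ∃ Kb ≥ (0 : ℝ), ∃ A > 0, ∃ Ke ≥ (0 : ℝ),
      ∀ r t : ℝ, ∀ N : ℕ, s0 ≤ r → 0 ≤ t → 3 ≤ N → 1 / 2 ≤ HH α β r t N → HH α β r t N ≤ 2 →
      ∀ y, |y| ≤ U * r ^ gam α →
        Gm (cfl α β Cf ζ η) r t (fun _ => 1) y ≤ ENNReal.ofReal (NN α β lam r t *
          (Real.exp (Kf * r ^ (-gg α)) * (((∫ x, φ x) + Ke * t ^ (gg α / 4 - δ)) * φ (y / ell α β r) +
            Real.exp (8 * lam) * (K1 * (2 * (Real.exp (Kb * r ^ (gg α - δ)) - 1 +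
              C * Real.exp (-ρ * (((N : ℝ) - 2) * HH α β r t N))) +
              A * r ^ (-δ) * Real.exp (Kb * r ^ (gg α - δ))))))) := by
  have hg : 0 < gg α := by
    unfold gg
    apply div_pos <;> linarith
  have hγ : 0 < gam α := by
    unfold gam
    apply div_pos <;> linarith
  have hκ : 0 < kb α β := kb_pos hβ
  have hζ0 : 0 < ζ := hg.trans hζ
  have hlam := G.lam_pos
  obtain ⟨δ, hδdef⟩ : ∃ δ, δ = min ζ (2 * gg α) := ⟨_, rfl⟩
  have hδ : gg α < δ := by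
    rw [hδdef]
    exact lt_min hζ (by linarith)
  have hδζ : δ ≤ ζ := by rw [hδdef]; exact min_le_left _ _
  have hδg : δ ≤ 2 * gg α := by rw [hδdef]; exact min_le_right _ _
  have hδ0 : 0 < δ := hg.trans hδ
  obtain ⟨sw, hsw1, Cw, hCw, hwin⟩ := win (β := β) hα hα2 hβ
  obtain ⟨sc, hsc1, C', hC', hcp⟩ := wcp_up (C := Cw) (Cf := Cf) (ζ := ζ) (η := η) hα hα2 hβ hCw hCf hζ0 hη
  obtain ⟨Cd, hCd, cd, hcd, hdet⟩ := det1 hα hα2
  obtain ⟨Cl, hCl, cl, hcl, hlast⟩ := last_window (p := 0) hα hα2 le_rfl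
  obtain ⟨Cs, hCs, hsum⟩ := win_sum (β := β) hα hα2 hβ hδ
  have hηα : 0 < η * α := mul_pos hη hα
  have hκα : 0 < kb α β ^ α := Real.rpow_pos_of_pos hκ α
  obtain ⟨A0, hA0, hA0x⟩ := Y2u_exp (c := cd / kb α β ^ α) (a := η * α) (by positivity) hηα δ
  obtain ⟨A1, hA1, hA1x⟩ := Y2u_exp (c := cl / kb α β ^ α) (a := η * α) (by positivity) hηα (5 / 4 * gg α)
  have hRexp : ∀ c x : ℝ, 1 ≤ x → -c * (x ^ η / kb α β) ^ α = -(c / kb α β ^ α) * x ^ (η * α) := by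
    intro c x hx
    have hx0 : 0 ≤ x := by linarith
    rw [Real.div_rpow (Real.rpow_nonneg hx0 _) hκ.le, ← Real.rpow_mul hx0]
    ring
  obtain ⟨A, hAdef⟩ : ∃ A, A = Cd * (2 * C' + A0) := ⟨_, rfl⟩
  have hA : 0 < A := by rw [hAdef]; positivity
  obtain ⟨e4, he4⟩ : ∃ e4, e4 = Real.exp (4 * lam) := ⟨_, rfl⟩
  have he4p : 0 < e4 := by rw [he4]; exact Real.exp_pos _
  have hC0 : 0 < C := by linarith [G.C_ge]
  obtain ⟨hφ2, hφi, hφC, hφn⟩ := Y2u_phi G
  have hCw0 : 0 < Cw := by linarith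
  refine ⟨δ, hδ, max (max sw sc) (Cw ^ (1 / gg α)), le_trans hsw1 (le_trans (le_max_left _ _) (le_max_left _ _)),
    Cl * (1 + (2 * Cw) ^ (5 / 4 : ℝ) * A1), by positivity, Cw * U ^ 2 / (2 * kb α β ^ 2), by positivity,
    e4 * A * Cs, by positivity, A, hA, e4 * (A * ((Real.pi * Cw) ^ (1 / 4 : ℝ) * 2 ^ (δ - gg α / 4))), by positivity, ?_⟩
  intro r t N hr ht0 hN hH1 hH2 y hy
  have hrsw : sw ≤ r := le_trans (le_trans (le_max_left _ _) (le_max_left _ _)) hr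
  have hrsc : sc ≤ r := le_trans (le_trans (le_max_right _ _) (le_max_left _ _)) hr
  have hrC : Cw ^ (1 / gg α) ≤ r := le_trans (le_max_right _ _) hr
  have hr1 : 1 ≤ r := le_trans hsw1 hrsw
  have hr0 : 0 < r := by linarith
  have W : WinF α β Cw r t N := hwin r t N hrsw ht0 (by omega) hH1 hH2
  have hcpW := hcp r t N hrsc W
  have hx1 : ∀ k ≤ N, 1 ≤ xk α r t N k := fun k hk => hr1.trans (W.xge k hk)
  have hrt : r < t := by
    have h1 := W.xge (N - 1) (by omega)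
    have h2 := W.xlt (N - 1) (by omega)
    rw [show N - 1 + 1 = N by omega, W.xN] at h2
    linarith
  have ht0 : 0 < t := by linarith
  obtain ⟨ω, hωdef⟩ : ∃ ω : ℕ → ℝ, ω = fun k => C' * (xk α r t N k ^ (-ζ) + xk α r t N k ^ (-2 * gg α)) := ⟨_, rfl⟩
  obtain ⟨R, hRdef⟩ : ∃ R : ℕ → ℝ, R = fun k => xk α r t N k ^ η / kb α β := ⟨_, rfl⟩
  obtain ⟨θ, hθdef⟩ : ∃ θ : ℕ → ℝ, θ = fun k => Cd * (ω k + Real.exp (-cd * R k ^ α)) := ⟨_, rfl⟩
  have hω : ∀ k < N, 0 ≤ ω k ∧ ω k ≤ 1 / 2 := by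
    intro k hk
    have h0 := hx1 k hk.le
    have h1 := (hcpW k hk).1
    rw [hωdef]
    refine ⟨?_, h1⟩
    have h2 : 0 < xk α r t N k := by linarith
    positivity
  have hR : ∀ k < N, 1 ≤ R k := by
    intro k hk
    rw [hRdef]
    exact (hcpW k hk).2.1
  have hθ0 : ∀ k < N, 0 ≤ θ k := by
    intro k hk
    rw [hθdef]
    have := (hω k hk).1
    positivity
  have hθA : ∀ k < N, θ k ≤ A * xk α r t N k ^ (-δ) := by
    intro k hk
    have h0 := hx1 k hk.le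
    have h1 : xk α r t N k ^ (-ζ) ≤ xk α r t N k ^ (-δ) :=
      Real.rpow_le_rpow_of_exponent_le h0 (by linarith)
    have h2 : xk α r t N k ^ (-2 * gg α) ≤ xk α r t N k ^ (-δ) :=
      Real.rpow_le_rpow_of_exponent_le h0 (by linarith)
    have h3 := hA0x _ h0
    rw [← hRexp cd _ h0] at h3
    rw [hθdef, hωdef, hRdef, hAdef]
    show Cd * (C' * (xk α r t N k ^ (-ζ) + xk α r t N k ^ (-2 * gg α)) +
      Real.exp (-cd * (xk α r t N k ^ η / kb α β) ^ α)) ≤ _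
    rw [mul_assoc]
    apply mul_le_mul_of_nonneg_left _ hCd.le
    nlinarith
  have hhk : ∀ k < N, 1 / 8 ≤ hw α β r t N k ∧ hw α β r t N k ≤ 4 := fun k hk =>
    ⟨by linarith [W.hlo k hk], W.h4 k hk⟩
  obtain ⟨ε, hεdef⟩ : ∃ ε, ε = sl α β r t N (N - 1) * ell α β t / 2 := ⟨_, rfl⟩
  have hN1 : N - 1 < N := by omega
  have hN11 : N - 1 + 1 = N := by omega
  have hxl1 : 1 ≤ xk α r t N (N - 1) := hx1 _ hN1.le
  have hxl0 : 0 < xk α r t N (N - 1) := by linarith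
  obtain ⟨x, hxdef⟩ : ∃ x, x = xk α r t N (N - 1) := ⟨_, rfl⟩
  rw [← hxdef] at hxl1 hxl0
  have hεlo : Cw⁻¹ * x ^ (-gg α) / 2 ≤ ε := by
    have := W.sllo _ hN1
    rw [hN11, W.xN, ← hxdef] at this
    rw [hεdef]
    linarith
  have hεhi : ε ≤ Cw * x ^ (-gg α) / 2 := by
    have := W.slhi _ hN1
    rw [hN11, W.xN, ← hxdef] at this
    rw [hεdef]
    linarith
  have hxg : 0 < x ^ (-gg α) := Real.rpow_pos_of_pos hxl0 _
  have hε0 : 0 < ε := by
    refine lt_of_lt_of_le ?_ hεlo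
    positivity
  have hrx : r ≤ x := by rw [hxdef]; exact W.xge _ hN1.le
  have hε1 : ε ≤ 1 := by
    have h1 : Cw ≤ x ^ gg α := by
      calc Cw = (Cw ^ (1 / gg α)) ^ gg α := by
            rw [← Real.rpow_mul hCw0.le, one_div, inv_mul_cancel₀ hg.ne', Real.rpow_one]
        _ ≤ x ^ gg α := Real.rpow_le_rpow (Real.rpow_nonneg hCw0.le _) (hrC.trans hrx) hg.le
    have h2 : Cw * x ^ (-gg α) ≤ 1 := by
      rw [Real.rpow_neg hxl0.le, ← div_eq_mul_inv, div_le_one (Real.rpow_pos_of_pos hxl0 _)]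
      exact h1
    linarith
  obtain ⟨f, hfN, hfk⟩ := Y2u_seq N (fun k => Vt α (ω k) (R k)) (fun k => hw α β r t N k)
    (fun v => (1 : ℝ) * Real.exp (-(sl α β r t N (N - 1) * ell α β t / 2) * v ^ 2))
  have hfN' : f N = fun v => Real.exp (-ε * v ^ 2) := by
    rw [hfN, hεdef]
    funext v
    rw [one_mul]
  have hfN'' : f N = fun v => (1 + 0 * v ^ 2) * Real.exp (-ε * v ^ 2) := by
    rw [hfN']
    funext v
    rw [zero_mul, add_zero, one_mul]
  have hfNm : Measurable (f N) := by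
    rw [hfN']
    fun_prop
  have hfN2 : MemLp (f N) 2 volume := by
    rw [hfN'']
    exact gs_memLp hε0
  have hpot : ∀ k < N, Pot (Vt α (ω k) (R k)) := fun k hk =>
    pot_Vt hα (by linarith [(hω k hk).2]) (by linarith [hR k hk])
  have hh0 : ∀ k < N, 0 < hw α β r t N k := fun k hk => by linarith [(hhk k hk).1]
  have hprop := Y2u_prop (V := fun k => Vt α (ω k) (R k)) hpot hh0 hfNm hfN2 hfk
  have hG := wup (F := fun _ => 1) hα hα2 hβ hr1 (by omega : 1 ≤ N) W (cfl_cont hα β Cf ζ η) ω R hω hR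
    (fun k hk σ hσ hσ' v => by
      rw [hωdef, hRdef]
      exact (hcpW k hk).2.2 σ hσ hσ' v)
    measurable_const (fun _ => zero_le_one) f hfN hfN2 hfk y
  simp only [ENNReal.ofReal_one] at hG
  refine hG.trans (ENNReal.ofReal_le_ofReal ?_)
  -- the core estimate
  obtain ⟨M, rfl⟩ : ∃ M, N = M + 2 := ⟨N - 2, by omega⟩
  have hM : 1 ≤ M := by omega
  have hd : ∀ k < M + 2, nrm (fun u => f k u - TV (Va α) (hw α β r t (M + 2) k) (f (k + 1)) u) ≤ θ k * nrm (f (k + 1)) ∧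
      ∀ u, |f k u - TV (Va α) (hw α β r t (M + 2) k) (f (k + 1)) u| ≤ θ k * nrm (f (k + 1)) := by
    intro k hk
    obtain ⟨h1, h2⟩ := hprop (k + 1) (by omega)
    have := hdet (ω k) (R k) (hw α β r t (M + 2) k) (hω k hk).1 (hω k hk).2 (hR k hk) (hhk k hk).1 (hhk k hk).2
      (f (k + 1)) h1 h2
    rw [hθdef]
    rw [hfk k hk]
    exact this
  have hK1 : nrm (f (M + 1)) ≤ Cl * (1 + (2 * Cw) ^ (5 / 4 : ℝ) * A1) := by
    have h1 := hlast (ω (M + 1)) (R (M + 1)) (hw α β r t (M + 2) (M + 1)) ε (hω _ (by omega)).1 (hω _ (by omega)).2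
      (hR _ (by omega)) (hhk _ (by omega)).1 (hhk _ (by omega)).2 hε0 hε1
    rw [← hfN''] at h1
    have h2 : f (M + 1) = TV (Vt α (ω (M + 1)) (R (M + 1))) (hw α β r t (M + 2) (M + 1)) (f (M + 2)) :=
      hfk (M + 1) (by omega)
    rw [h2]
    refine h1.trans ?_
    apply mul_le_mul_of_nonneg_left _ hCl.le
    have h3 : ε ^ (-(5 / 4 : ℝ)) ≤ (2 * Cw) ^ (5 / 4 : ℝ) * x ^ (5 / 4 * gg α) := by
      have h4 : ε ^ (-(5 / 4 : ℝ)) ≤ (Cw⁻¹ * x ^ (-gg α) / 2) ^ (-(5 / 4 : ℝ)) :=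
        Real.rpow_le_rpow_of_nonpos (by positivity) hεlo (by norm_num)
      refine h4.trans (le_of_eq ?_)
      have h5 : Cw⁻¹ * x ^ (-gg α) / 2 = ((2 * Cw) * x ^ gg α)⁻¹ := by
        rw [Real.rpow_neg hxl0.le]
        field_simp
      rw [h5, Real.rpow_neg (by positivity), Real.inv_rpow (by positivity), inv_inv,
        Real.mul_rpow (by positivity) (by positivity), ← Real.rpow_mul hxl0.le]
      congr 2
      ring
    have h6 : Real.exp (-cl * R (M + 1) ^ α) ≤ A1 * x ^ (-(5 / 4 * gg α)) := by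
      have h7 := hA1x x hxl1
      rw [← hRexp cl _ hxl1] at h7
      have h8 : R (M + 1) = x ^ η / kb α β := by
        rw [hRdef, hxdef]
        rfl
      rw [h8]
      exact h7
    have h9 : ε ^ (-(5 / 4 : ℝ)) * Real.exp (-cl * R (M + 1) ^ α) ≤
        ((2 * Cw) ^ (5 / 4 : ℝ) * x ^ (5 / 4 * gg α)) * (A1 * x ^ (-(5 / 4 * gg α))) :=
      mul_le_mul h3 h6 (Real.exp_pos _).le (by positivity)
    have h10 : x ^ (5 / 4 * gg α) * x ^ (-(5 / 4 * gg α)) = 1 := by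
      rw [← Real.rpow_add hxl0, add_neg_cancel, Real.rpow_zero]
    have h11 : ((2 * Cw) ^ (5 / 4 : ℝ) * x ^ (5 / 4 * gg α)) * (A1 * x ^ (-(5 / 4 * gg α))) =
        (2 * Cw) ^ (5 / 4 : ℝ) * A1 := by
      calc _ = (2 * Cw) ^ (5 / 4 : ℝ) * A1 * (x ^ (5 / 4 * gg α) * x ^ (-(5 / 4 * gg α))) := by ring
        _ = _ := by rw [h10, mul_one]
    linarith
  have hB : ∑ k ∈ Finset.range (M + 2), Real.exp (4 * lam) * θ k ≤ e4 * A * Cs * r ^ (gg α - δ) := by
    have h1 := hsum r t (M + 2) hr1 (by omega) hH1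
    calc ∑ k ∈ Finset.range (M + 2), Real.exp (4 * lam) * θ k
        ≤ ∑ k ∈ Finset.range (M + 2), e4 * A * xk α r t (M + 2) k ^ (-δ) := by
          apply Finset.sum_le_sum
          intro k hk
          rw [← he4, mul_assoc]
          exact mul_le_mul_of_nonneg_left (hθA k (Finset.mem_range.1 hk)) he4p.le
      _ = e4 * A * ∑ k ∈ Finset.range (M + 2), xk α r t (M + 2) k ^ (-δ) := by rw [Finset.mul_sum]
      _ ≤ e4 * A * (Cs * r ^ (gg α - δ)) := mul_le_mul_of_nonneg_left h1 (by positivity)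
      _ = _ := by ring
  have hcore := Y2u_core hα G M hM (fun k => hw α β r t (M + 2) k) θ f _ _ hhk hθ0
    (fun k hk => (hprop k hk).1) (fun k hk => (hprop k hk).2)
    (fun x => by
      rw [hfN']
      apply Real.exp_le_one_iff.2
      nlinarith [sq_nonneg x])
    hd hK1 hB (y / ell α β r)
  obtain ⟨u, hu⟩ : ∃ u, u = y / ell α β r := ⟨_, rfl⟩
  rw [← hu] at hcore ⊢
  have hφu := (G.pos u).le
  have hP0 : 0 ≤ ∫ x, φ x := integral_nonneg fun x => (G.pos x).le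
  have hHH0 : 0 < HH α β r t (M + 2) := by linarith
  have hcast : ((M + 2 : ℕ) : ℝ) = (M : ℝ) + 2 := by push_cast; ring
  have hT : Real.exp (-lam * ∑ k ∈ Finset.range (M + 2), hw α β r t (M + 2) k) ≤
      Real.exp (-√2 * (kap α β lam t - kap α β lam r)) := by
    apply Real.exp_le_exp.2
    have h1 := kap_HH (α := α) (β := β) (lam := lam) (r := r) (t := t) (N := M + 2) (by omega) hg hκ
    have h2 : ((M + 2 : ℕ) : ℝ) * HH α β r t (M + 2) ≤ ∑ k ∈ Finset.range (M + 2), hw α β r t (M + 2) k := by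
      calc ((M + 2 : ℕ) : ℝ) * HH α β r t (M + 2) = ∑ k ∈ Finset.range (M + 2), HH α β r t (M + 2) := by
            rw [Finset.sum_const, Finset.card_range, nsmul_eq_mul]
        _ ≤ _ := Finset.sum_le_sum fun k hk => W.hlo k (Finset.mem_range.1 hk)
    have h3 := mul_le_mul_of_nonneg_left h2 hlam.le
    have h4 : -√2 * (kap α β lam t - kap α β lam r) = -(√2 * (kap α β lam t - kap α β lam r)) := by ring
    rw [h4, h1]
    linarith
  have hS : Real.exp (-ρ * ∑ k ∈ Finset.range M, hw α β r t (M + 2) (k + 1)) ≤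
      Real.exp (-ρ * ((((M + 2 : ℕ) : ℝ) - 2) * HH α β r t (M + 2))) := by
    apply Real.exp_le_exp.2
    have h2 : (((M + 2 : ℕ) : ℝ) - 2) * HH α β r t (M + 2) ≤ ∑ k ∈ Finset.range M, hw α β r t (M + 2) (k + 1) := by
      calc (((M + 2 : ℕ) : ℝ) - 2) * HH α β r t (M + 2) = ∑ k ∈ Finset.range M, HH α β r t (M + 2) := by
            rw [Finset.sum_const, Finset.card_range, nsmul_eq_mul, hcast]
            ring
        _ ≤ _ := Finset.sum_le_sum fun k hk => W.hlo (k + 1) (by have := Finset.mem_range.1 hk; omega)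
    have h3 := mul_le_mul_of_nonneg_left h2 G.rho_pos.le
    linarith
  have hxx : xk α r t (M + 2) (M + 1) = x := by
    rw [hxdef]
    rfl
  have hθN : θ (M + 1) * nrm (f (M + 2)) ≤
      A * ((Real.pi * Cw) ^ (1 / 4 : ℝ) * 2 ^ (δ - gg α / 4)) * t ^ (gg α / 4 - δ) := by
    have h1 := hθA (M + 1) (by omega)
    rw [hxx] at h1
    have h2 : nrm (f (M + 2)) ≤ (Real.pi * Cw) ^ (1 / 4 : ℝ) * x ^ (gg α / 4) := by
      rw [hfN', Y2u_gauss hε0]
      have h3 : Real.pi / (2 * ε) ≤ Real.pi * Cw * x ^ gg α := by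
        rw [div_le_iff₀ (by positivity)]
        have h4 : x ^ gg α * x ^ (-gg α) = 1 := by
          rw [← Real.rpow_add hxl0, add_neg_cancel, Real.rpow_zero]
        have h5 : Cw * x ^ gg α * (Cw⁻¹ * x ^ (-gg α) / 2) = 1 / 2 := by
          calc _ = (Cw * Cw⁻¹) * (x ^ gg α * x ^ (-gg α)) / 2 := by ring
            _ = 1 / 2 := by rw [h4, mul_inv_cancel₀ hCw0.ne', one_mul]
        have h6 : Cw * x ^ gg α * (Cw⁻¹ * x ^ (-gg α) / 2) ≤ Cw * x ^ gg α * ε :=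
          mul_le_mul_of_nonneg_left hεlo (by positivity)
        have h7 : 1 ≤ 2 * (Cw * x ^ gg α * ε) := by linarith
        calc Real.pi = Real.pi * 1 := (mul_one _).symm
          _ ≤ Real.pi * (2 * (Cw * x ^ gg α * ε)) := mul_le_mul_of_nonneg_left h7 Real.pi_pos.le
          _ = _ := by ring
      have h8 : √(√(Real.pi / (2 * ε))) ≤ √(√(Real.pi * Cw * x ^ gg α)) :=
        Real.sqrt_le_sqrt (Real.sqrt_le_sqrt h3)
      refine h8.trans (le_of_eq ?_)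
      exact Y2u_ss (by positivity) hxl0
    have h9 : θ (M + 1) * nrm (f (M + 2)) ≤ (A * x ^ (-δ)) * ((Real.pi * Cw) ^ (1 / 4 : ℝ) * x ^ (gg α / 4)) :=
      mul_le_mul h1 h2 (Det_nrm_nonneg _) (by positivity)
    refine h9.trans ?_
    have h10 : t / 2 ≤ x := by
      have h11 := W.x2 (M + 1) (by omega)
      rw [show M + 1 + 1 = M + 2 from rfl, W.xN, hxx] at h11
      linarith
    have h12 : x ^ (gg α / 4 - δ) ≤ (t / 2) ^ (gg α / 4 - δ) :=
      Real.rpow_le_rpow_of_nonpos (by positivity) h10 (by linarith)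
    have h13 : (t / 2) ^ (gg α / 4 - δ) = 2 ^ (δ - gg α / 4) * t ^ (gg α / 4 - δ) := by
      rw [Real.div_rpow ht0.le (by norm_num), div_eq_mul_inv, ← Real.rpow_neg (by norm_num : (0 : ℝ) ≤ 2)]
      rw [mul_comm]
      congr 2
      ring
    have h14 : x ^ (-δ) * x ^ (gg α / 4) = x ^ (gg α / 4 - δ) := by
      rw [← Real.rpow_add hxl0]
      congr 1
      ring
    calc (A * x ^ (-δ)) * ((Real.pi * Cw) ^ (1 / 4 : ℝ) * x ^ (gg α / 4))
        = A * (Real.pi * Cw) ^ (1 / 4 : ℝ) * (x ^ (-δ) * x ^ (gg α / 4)) := by ring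
      _ ≤ A * (Real.pi * Cw) ^ (1 / 4 : ℝ) * (2 ^ (δ - gg α / 4) * t ^ (gg α / 4 - δ)) := by
          rw [h14, ← h13]
          exact mul_le_mul_of_nonneg_left h12 (by positivity)
      _ = _ := by ring
  have hθ0' : θ 0 ≤ A * r ^ (-δ) := by
    have := hθA 0 (by omega)
    rwa [W.x0] at this
  have hexp : sl α β r t (M + 2) 0 * y ^ 2 / (2 * ell α β r) ≤ Cw * U ^ 2 / (2 * kb α β ^ 2) * r ^ (-gg α) := by
    have hrγ : 0 < r ^ gam α := Real.rpow_pos_of_pos hr0 _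
    have h1 : y ^ 2 ≤ U ^ 2 * (r ^ gam α) ^ 2 := by
      rw [← mul_pow, ← sq_abs y]
      exact pow_le_pow_left₀ (abs_nonneg _) hy 2
    have h2 := W.slhi 0 (by omega)
    rw [W.x0] at h2
    have h3 : ell α β r ≤ ell α β (xk α r t (M + 2) (0 + 1)) := by
      unfold ell
      apply mul_le_mul_of_nonneg_left _ hκ.le
      exact Real.rpow_le_rpow hr0.le (W.xge _ (by omega)) hγ.le
    have h4 := W.sl0 0 (by omega)
    have h5 : sl α β r t (M + 2) 0 * ell α β r ≤ Cw * r ^ (-gg α) :=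
      (mul_le_mul_of_nonneg_left h3 h4).trans h2
    have h6 : ell α β r = kb α β * r ^ gam α := rfl
    calc sl α β r t (M + 2) 0 * y ^ 2 / (2 * ell α β r)
        ≤ sl α β r t (M + 2) 0 * (U ^ 2 * (r ^ gam α) ^ 2) / (2 * ell α β r) := by
          apply div_le_div_of_nonneg_right _ (by rw [h6]; positivity)
          exact mul_le_mul_of_nonneg_left h1 h4
      _ = (sl α β r t (M + 2) 0 * ell α β r) * (U ^ 2 / (2 * kb α β ^ 2)) := by
          rw [h6]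
          field_simp
      _ ≤ (Cw * r ^ (-gg α)) * (U ^ 2 / (2 * kb α β ^ 2)) := mul_le_mul_of_nonneg_right h5 (by positivity)
      _ = _ := by ring
  obtain ⟨K1, hK1def⟩ : ∃ K1, K1 = Cl * (1 + (2 * Cw) ^ (5 / 4 : ℝ) * A1) := ⟨_, rfl⟩
  have hK10 : 0 < K1 := by rw [hK1def]; positivity
  obtain ⟨eB, heB⟩ : ∃ eB, eB = Real.exp (e4 * A * Cs * r ^ (gg α - δ)) := ⟨_, rfl⟩
  have heB1 : 1 ≤ eB := by
    rw [heB]
    apply Real.one_le_exp
    have : 0 < r ^ (gg α - δ) := Real.rpow_pos_of_pos hr0 _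
    positivity
  obtain ⟨eS, heS⟩ : ∃ eS, eS = Real.exp (-ρ * ((((M + 2 : ℕ) : ℝ) - 2) * HH α β r t (M + 2))) := ⟨_, rfl⟩
  have heSp : 0 < eS := by rw [heS]; exact Real.exp_pos _
  rw [← hK1def, ← heB] at hcore ⊢
  rw [← heS] at hS ⊢
  have he8 : 0 < Real.exp (8 * lam) := Real.exp_pos _
  have hrδ : 0 < r ^ (-δ) := Real.rpow_pos_of_pos hr0 _
  have htδ : 0 < t ^ (gg α / 4 - δ) := Real.rpow_pos_of_pos ht0 _
  obtain ⟨Br, hBr⟩ : ∃ Br, Br = ((∫ x, φ x) + e4 * (A * ((Real.pi * Cw) ^ (1 / 4 : ℝ) * 2 ^ (δ - gg α / 4))) *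
      t ^ (gg α / 4 - δ)) * φ u +
      Real.exp (8 * lam) * (K1 * (2 * (eB - 1 + C * eS) + A * r ^ (-δ) * eB)) := ⟨_, rfl⟩
  have hBr0 : 0 ≤ Br := by
    rw [hBr]
    have h1 : 0 ≤ eB - 1 := by linarith
    positivity
  have hf0 : f 0 u ≤ Real.exp (-√2 * (kap α β lam t - kap α β lam r)) * Br := by
    refine hcore.trans ?_
    refine mul_le_mul hT ?_ ?_ (Real.exp_pos _).le
    · rw [hBr]
      have h1 : ((∫ x, φ x) + Real.exp (4 * lam) * (θ (M + 1) * nrm (f (M + 2)))) * φ u ≤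
          ((∫ x, φ x) + e4 * (A * ((Real.pi * Cw) ^ (1 / 4 : ℝ) * 2 ^ (δ - gg α / 4))) *
            t ^ (gg α / 4 - δ)) * φ u := by
        apply mul_le_mul_of_nonneg_right _ hφu
        rw [← he4]
        have := mul_le_mul_of_nonneg_left hθN he4p.le
        linarith
      have h2 : 2 * (eB - 1 + C * Real.exp (-ρ * ∑ k ∈ Finset.range M, hw α β r t (M + 2) (k + 1))) + θ 0 * eB ≤
          2 * (eB - 1 + C * eS) + A * r ^ (-δ) * eB := by
        have h3 := mul_le_mul_of_nonneg_left hS hC0.le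
        have h4 := mul_le_mul_of_nonneg_right hθ0' (by linarith : 0 ≤ eB)
        linarith
      have h5 := mul_le_mul_of_nonneg_left (mul_le_mul_of_nonneg_left h2 hK10.le) he8.le
      linarith
    · have h1 : 0 ≤ eB - 1 := by linarith
      have h2 := hθ0 0 (by omega)
      have h3 := mul_nonneg (hθ0 (M + 1) (by omega)) (Det_nrm_nonneg (f (M + 2)))
      have h4 : 0 ≤ Real.exp (4 * lam) * (θ (M + 1) * nrm (f (M + 2))) := mul_nonneg (Real.exp_pos _).le h3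
      have h5 := (Real.exp_pos (-ρ * ∑ k ∈ Finset.range M, hw α β r t (M + 2) (k + 1))).le
      have h6 : 0 ≤ eB := by linarith
      apply add_nonneg
      · exact mul_nonneg (add_nonneg hP0 h4) hφu
      · apply mul_nonneg he8.le
        apply mul_nonneg hK10.le
        apply add_nonneg
        · have := mul_nonneg hC0.le h5
          linarith
        · exact mul_nonneg h2 h6
  rw [ell_ratio hβ hr0 ht0]
  unfold NN
  rw [← hBr]
  have hq : 0 < (t / r) ^ (gam α / 2) := Real.rpow_pos_of_pos (by positivity) _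
  have hE1 := Real.exp_le_exp.2 hexp
  calc (t / r) ^ (gam α / 2) * Real.exp (sl α β r t (M + 2) 0 * y ^ 2 / (2 * ell α β r)) * f 0 u
      ≤ (t / r) ^ (gam α / 2) * Real.exp (sl α β r t (M + 2) 0 * y ^ 2 / (2 * ell α β r)) *
        (Real.exp (-√2 * (kap α β lam t - kap α β lam r)) * Br) :=
        mul_le_mul_of_nonneg_left hf0 (by positivity)
    _ ≤ (t / r) ^ (gam α / 2) * Real.exp (Cw * U ^ 2 / (2 * kb α β ^ 2) * r ^ (-gg α)) *
        (Real.exp (-√2 * (kap α β lam t - kap α β lam r)) * Br) := by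
        apply mul_le_mul_of_nonneg_right _ (mul_nonneg (Real.exp_pos _).le hBr0)
        exact mul_le_mul_of_nonneg_left hE1 hq.le
    _ = _ := by ring

theorem Y2u_psi {g δ K1 Kf Kb A P C E ε : ℝ} (hg : 0 < g) (hδ : g < δ) (hε : 0 < ε) :
    ∃ r0 : ℝ, 1 ≤ r0 ∧ ∀ r, r0 ≤ r → (Real.exp (Kf * r ^ (-g)) - 1) * (P * C) +
      Real.exp (Kf * r ^ (-g)) * (E * (K1 * (2 * (Real.exp (Kb * r ^ (g - δ)) - 1) +
        A * r ^ (-δ) * Real.exp (Kb * r ^ (g - δ))))) ≤ ε / 2 := by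
  have h1 : Tendsto (fun r : ℝ => r ^ (-g)) atTop (𝓝 0) := tendsto_rpow_neg_atTop hg
  have h2 : Tendsto (fun r : ℝ => r ^ (-δ)) atTop (𝓝 0) := tendsto_rpow_neg_atTop (hg.trans hδ)
  have h3 : Tendsto (fun r : ℝ => r ^ (g - δ)) atTop (𝓝 0) := by
    have := tendsto_rpow_neg_atTop (y := δ - g) (by linarith)
    rwa [neg_sub] at this
  have h4 : Tendsto (fun r : ℝ => Real.exp (Kf * r ^ (-g))) atTop (𝓝 1) := by
    have := (Real.continuous_exp.tendsto _).comp (h1.const_mul Kf)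
    rw [mul_zero, Real.exp_zero] at this
    exact this
  have h5 : Tendsto (fun r : ℝ => Real.exp (Kb * r ^ (g - δ))) atTop (𝓝 1) := by
    have := (Real.continuous_exp.tendsto _).comp (h3.const_mul Kb)
    rw [mul_zero, Real.exp_zero] at this
    exact this
  have h6 := ((h4.sub_const 1).mul_const (P * C)).add
    (h4.mul (((((h5.sub_const 1).const_mul 2).add ((h2.const_mul A).mul h5)).const_mul K1).const_mul E))
  have h7 : (1 - 1) * (P * C) + 1 * (E * (K1 * (2 * ((1 : ℝ) - 1) + A * 0 * 1))) = 0 := by ring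
  rw [h7] at h6
  have h8 := h6.eventually (ge_mem_nhds (half_pos hε))
  obtain ⟨r1, hr1⟩ := eventually_atTop.1 h8
  exact ⟨max 1 r1, le_max_left _ _, fun r hr => hr1 r ((le_max_right _ _).trans hr)⟩

theorem Y2u_theta {g δ K1 Ke C E F ρ r κ ε : ℝ} (hg : 0 < g) (hδ : g < δ) (hε : 0 < ε) (hρ : 0 < ρ) (hκ : 0 < κ) :
    ∀ᶠ t : ℝ in atTop, 3 ≤ (t ^ g - r ^ g) / (g * κ ^ 2) ∧
      F * (Ke * t ^ (g / 4 - δ) * C + E * (K1 * (2 * (C * Real.exp (-ρ * ((t ^ g - r ^ g) / (g * κ ^ 2) - 4)))))) ≤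
        ε / 2 := by
  have h1 : Tendsto (fun t : ℝ => (t ^ g - r ^ g) / (g * κ ^ 2)) atTop atTop := by
    apply Tendsto.atTop_div_const (by positivity)
    exact tendsto_atTop_add_const_right _ _ (tendsto_rpow_atTop hg)
  have h2 : Tendsto (fun t : ℝ => t ^ (g / 4 - δ)) atTop (𝓝 0) := by
    have := tendsto_rpow_neg_atTop (y := δ - g / 4) (by linarith)
    rwa [neg_sub] at this
  have h3 : Tendsto (fun t : ℝ => Real.exp (-ρ * ((t ^ g - r ^ g) / (g * κ ^ 2) - 4))) atTop (𝓝 0) := by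
    apply Real.tendsto_exp_atBot.comp
    apply Tendsto.const_mul_atTop_of_neg (by linarith : -ρ < 0)
    exact tendsto_atTop_add_const_right _ _ h1
  have h4 := (((h2.const_mul Ke).mul_const C).add
    ((((h3.const_mul C).const_mul 2).const_mul K1).const_mul E)).const_mul F
  have h5 : F * (Ke * 0 * C + E * (K1 * (2 * (C * 0)))) = 0 := by ring
  rw [h5] at h4
  exact (h1.eventually_ge_atTop 3).and (h4.eventually (ge_mem_nhds (half_pos hε)))

theorem y2_up {α β lam ρ C : ℝ} {φ : ℝ → ℝ} (hα : 0 < α) (hα2 : α < 2) (hβ : 0 < β) (G : GS α lam ρ C φ)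
    {Cf ζ η : ℝ} (hCf : 0 ≤ Cf) (hζ : gg α < ζ) (hη : 0 < η) {U ε : ℝ} (hU : 0 < U) (hε : 0 < ε) :
    ∃ r0 ≥ (1 : ℝ), ∀ r, r0 ≤ r → ∀ᶠ t in atTop, ∀ y, |y| ≤ U * r ^ gam α →
      Gm (cfl α β Cf ζ η) r t (fun _ => 1) y ≤
        ENNReal.ofReal (NN α β lam r t * ((∫ x, φ x) * φ (y / ell α β r) + ε)) := by
  have hg : 0 < gg α := by
    unfold gg
    apply div_pos <;> linarith
  have hκ : 0 < kb α β := kb_pos hβ
  have hρ := G.rho_pos
  obtain ⟨-, -, hφC, -⟩ := Y2u_phi G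
  have hC0 : 0 ≤ C := by linarith [G.C_ge]
  have hP0 : 0 ≤ ∫ x, φ x := integral_nonneg fun x => (G.pos x).le
  obtain ⟨δ, hδ, s0, hs0, K1, hK1, Kf, hKf, Kb, hKb, A, hA, Ke, hKe, hwin⟩ := Y2u_win hα hα2 hβ G hCf hζ hη hU
  obtain ⟨r1, hr1, hψ⟩ := Y2u_psi (g := gg α) (δ := δ) (K1 := K1) (Kf := Kf) (Kb := Kb) (A := A) (P := ∫ x, φ x) (C := C)
    (E := Real.exp (8 * lam)) hg hδ hε
  refine ⟨max s0 r1, hs0.trans (le_max_left _ _), fun r hr => ?_⟩
  have hr0 : s0 ≤ r := (le_max_left _ _).trans hr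
  have hrp : 0 < r := by linarith
  have hψr := hψ r ((le_max_right _ _).trans hr)
  have hθ := Y2u_theta (g := gg α) (δ := δ) (K1 := K1) (Ke := Ke) (C := C) (E := Real.exp (8 * lam))
    (F := Real.exp (Kf * r ^ (-gg α))) (ρ := ρ) (r := r) (κ := kb α β) hg hδ hε hρ hκ
  filter_upwards [hθ, eventually_gt_atTop 0] with t ht ht0 y hy
  obtain ⟨hX3, hθt⟩ := ht
  obtain ⟨X, hX⟩ : ∃ X, X = (t ^ gg α - r ^ gg α) / (gg α * kb α β ^ 2) := ⟨_, rfl⟩
  rw [← hX] at hX3 hθt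
  have hN3 : 3 ≤ ⌊X⌋₊ := Nat.le_floor (by exact_mod_cast hX3)
  have hNX : (⌊X⌋₊ : ℝ) ≤ X := Nat.floor_le (by linarith)
  have hXN : X < (⌊X⌋₊ : ℝ) + 1 := Nat.lt_floor_add_one X
  obtain ⟨N, hN⟩ : ∃ N, N = ⌊X⌋₊ := ⟨_, rfl⟩
  rw [← hN] at hN3 hNX hXN
  have hN3' : (3 : ℝ) ≤ N := by exact_mod_cast hN3
  have hNp : (0 : ℝ) < N := by linarith
  have hHH : HH α β r t N = X / N := by
    unfold HH
    rw [hX, div_div]
  have hH1 : 1 ≤ X / N := by rw [le_div_iff₀ hNp]; linarith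
  have hH2 : X / N ≤ 2 := by rw [div_le_iff₀ hNp]; linarith
  have hw := hwin r t N hr0 ht0.le hN3 (by rw [hHH]; linarith) (by rw [hHH]; exact hH2) y hy
  refine hw.trans (ENNReal.ofReal_le_ofReal ?_)
  have hNN : 0 ≤ NN α β lam r t := by
    unfold NN
    have : 0 < t / r := by positivity
    positivity
  apply mul_le_mul_of_nonneg_left _ hNN
  have hes : Real.exp (-ρ * (((N : ℝ) - 2) * HH α β r t N)) ≤ Real.exp (-ρ * (X - 4)) := by
    apply Real.exp_le_exp.2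
    rw [hHH]
    have h1 : ((N : ℝ) - 2) * (X / N) = X - 2 * (X / N) := by
      field_simp
    have h2 : X - 4 ≤ ((N : ℝ) - 2) * (X / N) := by rw [h1]; linarith
    have := mul_le_mul_of_nonneg_left h2 hρ.le
    linarith
  obtain ⟨es, hes'⟩ : ∃ es, es = Real.exp (-ρ * (((N : ℝ) - 2) * HH α β r t N)) := ⟨_, rfl⟩
  obtain ⟨es2, hes2⟩ : ∃ es2, es2 = Real.exp (-ρ * (X - 4)) := ⟨_, rfl⟩
  obtain ⟨F, hF⟩ : ∃ F, F = Real.exp (Kf * r ^ (-gg α)) := ⟨_, rfl⟩
  obtain ⟨EB, hEB⟩ : ∃ EB, EB = Real.exp (Kb * r ^ (gg α - δ)) := ⟨_, rfl⟩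
  obtain ⟨E, hE⟩ : ∃ E, E = Real.exp (8 * lam) := ⟨_, rfl⟩
  obtain ⟨T, hT⟩ : ∃ T, T = t ^ (gg α / 4 - δ) := ⟨_, rfl⟩
  obtain ⟨P, hP⟩ : ∃ P, P = ∫ x, φ x := ⟨_, rfl⟩
  obtain ⟨u, hu⟩ : ∃ u, u = φ (y / ell α β r) := ⟨_, rfl⟩
  obtain ⟨Rd, hRd⟩ : ∃ Rd, Rd = r ^ (-δ) := ⟨_, rfl⟩
  have hu0 : 0 ≤ u := by rw [hu]; exact (G.pos _).le
  have huC : u ≤ C := by rw [hu]; exact hφC _
  have hE0 : 0 < E := by rw [hE]; exact Real.exp_pos _
  have hT0 : 0 ≤ T := by rw [hT]; positivity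
  have hF1 : 1 ≤ F := by
    rw [hF]
    apply Real.one_le_exp
    positivity
  rw [← hes', ← hes2] at hes
  rw [← hF, ← hEB, ← hE, ← hRd, ← hP] at hψr
  rw [← hF, ← hE, ← hT, ← hes2] at hθt
  rw [← hF, ← hEB, ← hE, ← hT, ← hP, ← hu, ← hRd, ← hes']
  rw [← hP] at hP0
  have a1 : (F - 1) * (P * u) ≤ (F - 1) * (P * C) :=
    mul_le_mul_of_nonneg_left (mul_le_mul_of_nonneg_left huC hP0) (by linarith)
  have a2 : F * (Ke * T * u) ≤ F * (Ke * T * C) :=
    mul_le_mul_of_nonneg_left (mul_le_mul_of_nonneg_left huC (mul_nonneg hKe hT0)) (by linarith)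
  have a3 : F * (E * (K1 * (2 * (C * es)))) ≤ F * (E * (K1 * (2 * (C * es2)))) := by
    apply mul_le_mul_of_nonneg_left _ (by linarith)
    apply mul_le_mul_of_nonneg_left _ hE0.le
    apply mul_le_mul_of_nonneg_left _ hK1.le
    have := mul_le_mul_of_nonneg_left hes hC0
    linarith
  calc F * ((P + Ke * T) * u + E * (K1 * (2 * (EB - 1 + C * es) + A * Rd * EB)))
      = P * u + (F - 1) * (P * u) + F * (Ke * T * u) +
        F * (E * (K1 * (2 * (EB - 1) + A * Rd * EB))) + F * (E * (K1 * (2 * (C * es)))) := by ring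
    _ ≤ P * u + ε := by
        have h1 : F * (Ke * T * C + E * (K1 * (2 * (C * es2)))) =
            F * (Ke * T * C) + F * (E * (K1 * (2 * (C * es2)))) := by ring
        rw [h1] at hθt
        linarith

end Pool.H50.BB
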