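import Pool.Agent.H50.BB.Ccf
import Pool.Agent.H50.BB.Y2u
import Pool.Agent.H50.BB.Bmo

/-!
# Row Uup: sharp upper bound at good points   (about 300 lines; may be split)

Fixed: `b, α, β, lam, φ`, `a`; `κ = kap α β lam`, `γ = gam α`.  Start point `x` at time `r`, horizon `t → ∞`, `z = mm t + a`, `T' = t - ℓ`, `j = t - r`, `J = j - ℓ`.
`Xi = √2 r - κ r + (γ/(2√2)) log r + a - x.re`; `X_t := z - x.re - MM κ γ r t = Xi + (3/(2√2)) (log (t - r + 1) - log t) → Xi`, `X_t ≤ Xi`.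
`D = X_t + 1` (`≥ 1` for `Xi ≥ 1`, t large), `μ = mu κ γ r t = √2 - δ`, `δ = (N+1)/j → 0`, `N = Nn κ γ r t`, `N²/j → 0`.
Apply `hi` on `[r, T']` to `u q x = vf b (HP z) (t - q) x` with `Θ` exactly as in `Ca5` (`min 1 (A (1 + max 0 X') e^{-√2X'} + max 0 (r + 2 - q))`, `apb` for `q ≥ r + 1`), `c = cfl`,
`U d = ofReal (vh ℓ (μ ℓ + d))`: the line at `T'` is at `z - μ ℓ`, and for `z'.re < z - μℓ`: `u T' z' ≤ vh ℓ (z - z'.re) = vh ℓ (μℓ + d)` (`vf_le_vh`).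
HITS: `Gm cfl r (r+σ) 1 ≤ C1 Gf κ γ r (r+σ)` (`y1`), `ca_hits`: `≤ C1 C e^{-√2D}((1 + D^γ) + A D (j^{-1/2} log(j+2)^{3/2} + ℓ^{-1/2}(1 + log(ℓ+1))))`.
END: `e^J e^{-μ² J/2 - μ D} ∫ e^{μ d} kk J D d U d · Gm cfl r T' 1 y`; `J - μ²J/2 = √2 δ J - δ²J/2 ≤ √2 (N+1)`; `e^{-μD} = e^{-√2D + δD}`; `kk J D d ≤ √(2/π) D d J^{-3/2}` (`kk_le`); `e^{μd} ≤ e^{√2 d}`;
`μℓ = √2ℓ - δℓ`: `∫ √(2/π) d e^{√2d} vh ℓ (√2ℓ - δℓ + d) ≤ CC ℓ + ε1` for t large (`cc_up`).  `Gm cfl r T' 1 y ≤ NN r T' (cφ φ + ε1)` for T' large (`y2_up`, `cφ = ∫ φ`, `|y| ≤ U r^γ`).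
`e^{√2 N} = e^{√2(κ t - κ r)} (j+1)^{3/2} (t/r)^{-γ/2}`, `NN r T' = (T'/r)^{γ/2} e^{-√2(κ T' - κ r)}`: the product `e^{√2N} J^{-3/2} NN r T' → 1` (`kap_diff`).  `e^{√2} e^{-√2D} → e^{-√2 Xi}`, `D → Xi+1`, `δD → 0`.
So END `≤ e^{-√2Xi} (Xi+1)(CC ℓ + ε1)(cφ φ + ε1)(1+o(1))`.
For good points `Xi ≥ r^{1/2-dl}` large: `(Xi+1) ≤ (1+ε)Xi`, `1 + (Xi+1)^γ ≤ ε Xi`, so everything is as stated (`φ` is bounded; `CC ℓ` fixed while `ε1 → 0`).
-/

open MeasureTheory ProbabilityTheory Set Filter Topology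
open scoped NNReal ENNReal

namespace Pool.H50.BB

open Pool.Agent.H4.BM

/-- asymptotic distance to the front -/
noncomputable def Xi (α β lam a r : ℝ) (x : ℂ) : ℝ :=
  √2 * r - kap α β lam r + gam α / (2 * √2) * Real.log r + a - x.re

/-- small exponent defining the good region -/
noncomputable def dl (α : ℝ) : ℝ := min ((2 * gam α - 1 / 2) / 2) (1 / 8)

/-- good points at time `r` -/
def Good (α β lam a U r : ℝ) (x : ℂ) : Prop :=
  |x.im| ≤ U * r ^ gam α ∧ r ^ (1 / 2 - dl α) ≤ Xi α β lam a r x ∧ Xi α β lam a r x ≤ r ^ (1 / 2 + dl α)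

/-- the end term -/
theorem Uup_end {ℓ ε1 μ δ D J N : ℝ} (hJ : 0 < J) (hD : 0 ≤ D) (hδ : 0 ≤ δ) (hμ : μ = √2 - δ)
    (hN : δ * J ≤ N + 1)
    (hcc : ∫⁻ d in Ioi (0 : ℝ), ENNReal.ofReal (√(2 / Real.pi) * (d * Real.exp (√2 * d) * vh ℓ (√2 * ℓ - δ * ℓ + d))) ≤
      ENNReal.ofReal (CC ℓ + ε1)) :
    ENNReal.ofReal (Real.exp J) * (∫⁻ d in Ioi (0 : ℝ), ENNReal.ofReal (Real.exp (μ * (d - D) - μ ^ 2 * J / 2) * kk J D d) *
      ENNReal.ofReal (vh ℓ (μ * ℓ + d))) ≤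
      ENNReal.ofReal (Real.exp (√2 * (N + 1)) * Real.exp (-√2 * D + δ * D) * (D / (J * √J)) * (CC ℓ + ε1)) := by
  set K : ℝ := Real.exp (√2 * (N + 1)) * Real.exp (-√2 * D + δ * D) * (D / (J * √J)) with hK
  have hK0 : 0 ≤ K := by positivity
  have hs2 : √2 * √2 = 2 := Real.mul_self_sqrt (by norm_num)
  have hs0 : 0 < √2 := Real.sqrt_pos.2 (by norm_num)
  have h1 : ∫⁻ d in Ioi (0 : ℝ), ENNReal.ofReal (Real.exp J) * (ENNReal.ofReal (Real.exp (μ * (d - D) - μ ^ 2 * J / 2) *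
      kk J D d) * ENNReal.ofReal (vh ℓ (μ * ℓ + d))) ≤
      ∫⁻ d in Ioi (0 : ℝ), ENNReal.ofReal K *
        ENNReal.ofReal (√(2 / Real.pi) * (d * Real.exp (√2 * d) * vh ℓ (√2 * ℓ - δ * ℓ + d))) := by
    refine setLIntegral_mono' measurableSet_Ioi fun d hd => ?_
    have hd0 : 0 < d := hd
    have hv : 0 ≤ vh ℓ (μ * ℓ + d) := vh_nonneg _ _
    have e1 : √2 * ℓ - δ * ℓ + d = μ * ℓ + d := by rw [hμ]; ring
    rw [e1, ← ENNReal.ofReal_mul hK0, ← mul_assoc, ← ENNReal.ofReal_mul (Real.exp_pos _).le]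
    rw [← ENNReal.ofReal_mul' hv]
    refine ENNReal.ofReal_le_ofReal ?_
    have h2 := kk_le (T := J) (D := D) (d := d) hJ hD hd0.le
    have h3 : Real.exp J * Real.exp (μ * (d - D) - μ ^ 2 * J / 2) ≤
        Real.exp (√2 * (N + 1)) * Real.exp (-√2 * D + δ * D) * Real.exp (√2 * d) := by
      rw [← Real.exp_add, ← Real.exp_add, ← Real.exp_add]
      refine Real.exp_le_exp.2 ?_
      have h4 : J + (μ * (d - D) - μ ^ 2 * J / 2) = √2 * (δ * J) - δ ^ 2 * J / 2 + (√2 * d - δ * d) + (-√2 * D + δ * D) := by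
        rw [hμ]
        linear_combination (-(J / 2)) * hs2
      rw [h4]
      have h5 : √2 * (δ * J) ≤ √2 * (N + 1) := mul_le_mul_of_nonneg_left hN hs0.le
      have h6 : 0 ≤ δ ^ 2 * J / 2 := by positivity
      have h7 : 0 ≤ δ * d := by positivity
      linarith
    have h8 : 0 ≤ √(2 / Real.pi) * D * d / (J * √J) := by positivity
    have h9 : Real.exp J * (Real.exp (μ * (d - D) - μ ^ 2 * J / 2) * kk J D d) ≤
        (Real.exp (√2 * (N + 1)) * Real.exp (-√2 * D + δ * D) * Real.exp (√2 * d)) *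
          (√(2 / Real.pi) * D * d / (J * √J)) := by
      rw [← mul_assoc]
      calc Real.exp J * Real.exp (μ * (d - D) - μ ^ 2 * J / 2) * kk J D d
          ≤ Real.exp J * Real.exp (μ * (d - D) - μ ^ 2 * J / 2) * (√(2 / Real.pi) * D * d / (J * √J)) :=
            mul_le_mul_of_nonneg_left h2 (by positivity)
        _ ≤ _ := mul_le_mul_of_nonneg_right h3 h8
    refine (mul_le_mul_of_nonneg_right h9 hv).trans (le_of_eq ?_)
    rw [hK]
    ring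
  rw [← lintegral_const_mul' _ _ ENNReal.ofReal_ne_top]
  refine h1.trans ?_
  rw [lintegral_const_mul' _ _ ENNReal.ofReal_ne_top, ENNReal.ofReal_mul hK0]
  exact mul_le_mul_right hcc _

/-- the identity for the distance -/
theorem Uup_X {α β lam a r t : ℝ} (hr : 0 < r) (ht : 0 < t) (x : ℂ) :
    mm α β lam t + a - x.re - MM (kap α β lam) (gam α) r t =
      Xi α β lam a r x + 3 / (2 * √2) * (Real.log (t - r + 1) - Real.log t) := by
  unfold mm MM Xi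
  rw [Real.log_div ht.ne' hr.ne']
  have h : (0 : ℝ) < 2 * √2 := by positivity
  field_simp
  ring

/-- the bound at a fixed time -/
theorem Uup_main {b : ℝ → ℝ} {α β lam Cf ζ η C1 Λ s0 A Ch : ℝ} (hα : 0 < α) (hβ : 0 < β) (hb : Rate b)
    (hqlo : ∀ s, s0 ≤ s → ∀ z : ℂ, z.re ≤ √2 * s + √s + 1 → cfl α β Cf ζ η s z.im ≤ 1 - b (Complex.arg z))
    (hC1 : 0 < C1)
    (hgm : ∀ s s', s0 ≤ s → s ≤ s' → ∀ y, Gm (cfl α β Cf ζ η) s s' (fun _ => 1) y ≤
      ENNReal.ofReal (C1 * Gf (kap α β lam) (gam α) s s'))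
    (K : Kap (kap α β lam) (gam α) Λ s0)
    (hadm : ∀ s t a q : ℝ, s0 ≤ s → a ≤ √s → s ≤ q → q ≤ t →
      mm α β lam t + a - MM (kap α β lam) (gam α) q t ≤ √2 * q + √q)
    (hA : 1 ≤ A)
    (hap : ∀ s t a : ℝ, s0 ≤ s → s ≤ t → a ≤ √s → ∀ x : ℂ, vf b (HP (mm α β lam t + a)) (t - s) x ≤
        A * (1 + max 0 (mm α β lam t + a - x.re - MM (kap α β lam) (gam α) s t)) *
          Real.exp (-√2 * (mm α β lam t + a - x.re - MM (kap α β lam) (gam α) s t)))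
    (hCh : 0 < Ch)
    (hits : ∀ s t ℓ D A : ℝ, s0 ≤ s → 8 ≤ t - s → 1 ≤ ℓ → 4 * ℓ ≤ t - s → 1 ≤ D → 1 ≤ A → ∀ Θ : ℝ → ℝ,
      (∀ σ, 0 < σ → σ ≤ t - s → 0 ≤ Θ σ ∧ Θ σ ≤ 1) →
      (∀ σ, 2 ≤ σ → σ ≤ t - s → Θ σ ≤ A * (1 + max 0 (Xs (kap α β lam) (gam α) s t σ)) *
        Real.exp (-√2 * Xs (kap α β lam) (gam α) s t σ)) →
      ∫⁻ σ in Ioc 0 (t - s - ℓ), ENNReal.ofReal (fpd (mu (kap α β lam) (gam α) s t) D σ * Real.exp σ * Θ σ *
        Gf (kap α β lam) (gam α) s (s + σ)) ≤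
        ENNReal.ofReal (Ch * Real.exp (-√2 * D) * ((1 + D ^ gam α) +
          A * D * ((t - s) ^ (-(1 / 2 : ℝ)) * Real.log (t - s + 2) ^ (3 / 2 : ℝ) +
            ℓ ^ (-(1 / 2 : ℝ)) * (1 + Real.log (ℓ + 1))))))
    {a r t ℓ ε1 g X δ : ℝ} (hr : s0 ≤ r) (ha : a ≤ √r) (hj : 8 ≤ t - r) (hℓ : 1 ≤ ℓ) (hℓj : 4 * ℓ ≤ t - r) (x : ℂ)
    (hX : X = mm α β lam t + a - x.re - MM (kap α β lam) (gam α) r t) (hX0 : 0 ≤ X)
    (hδ : δ = (Nn (kap α β lam) (gam α) r t + 1) / (t - r))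
    (hcc : ∫⁻ d in Ioi (0 : ℝ), ENNReal.ofReal (√(2 / Real.pi) * (d * Real.exp (√2 * d) * vh ℓ (√2 * ℓ - δ * ℓ + d))) ≤
      ENNReal.ofReal (CC ℓ + ε1)) (hε1 : 0 < ε1) (hg : 0 ≤ g)
    (hG : Gm (cfl α β Cf ζ η) r (t - ℓ) (fun _ => 1) x.im ≤ ENNReal.ofReal (NN α β lam r (t - ℓ) * g)) :
    vf b (HP (mm α β lam t + a)) (t - r) x ≤
      C1 * (Ch * Real.exp (-√2 * (X + 1)) * ((1 + (X + 1) ^ gam α) +
          A * (X + 1) * ((t - r) ^ (-(1 / 2 : ℝ)) * Real.log (t - r + 2) ^ (3 / 2 : ℝ) +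
            ℓ ^ (-(1 / 2 : ℝ)) * (1 + Real.log (ℓ + 1))))) +
      Real.exp (√2 * (Nn (kap α β lam) (gam α) r t + 1)) * Real.exp (-√2 * (X + 1) + δ * (X + 1)) *
        ((X + 1) / ((t - r - ℓ) * √(t - r - ℓ))) * (CC ℓ + ε1) * (NN α β lam r (t - ℓ) * g) := by
  obtain ⟨κ, hκ⟩ : ∃ κ, κ = kap α β lam := ⟨_, rfl⟩
  obtain ⟨γ, hγ⟩ : ∃ γ, γ = gam α := ⟨_, rfl⟩
  obtain ⟨z, hz⟩ : ∃ z, z = mm α β lam t + a := ⟨_, rfl⟩
  have hs1 := K.s1
  have hr0 : 0 < r := by linarith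
  have hrt : r < t := by linarith
  have ht0 : 0 < t := by linarith
  have hℓ0 : 0 < ℓ := by linarith
  have hrT : r < t - ℓ := by linarith
  have hs0 : 0 < √2 := Real.sqrt_pos.2 (by norm_num)
  have hD : 0 < X + 1 := by linarith
  have hap' : ∀ q, r ≤ q → q ≤ t → ∀ y : ℂ, vf b (HP z) (t - q) y ≤ A * (1 + max 0 (z - y.re - MM κ γ q t)) *
      Real.exp (-√2 * (z - y.re - MM κ γ q t)) := by
    intro q hq1 hq2 y
    rw [hz, hκ, hγ]
    exact hap q t a (hr.trans hq1) hq2 (ha.trans (Real.sqrt_le_sqrt hq1)) y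
  have hadm' : ∀ q, r ≤ q → q ≤ t → z - MM κ γ q t ≤ √2 * q + √q := by
    intro q hq1 hq2
    rw [hz, hκ, hγ]
    exact hadm r t a q hr ha hq1 hq2
  rw [← hκ, ← hγ] at K hX hδ hits hgm
  rw [← hz] at hX
  rw [← hz, ← hκ, ← hγ]
  have hμ : mu κ γ r t * (t - r) = MM κ γ r t - 1 := by
    unfold mu
    exact div_mul_cancel₀ _ (by linarith)
  have hμδ : mu κ γ r t = √2 - δ := by rw [mu_eq hrt, hδ]
  have hδ0 : 0 ≤ δ := by
    rw [hδ]
    have := nn_nonneg K hr hrt.le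
    exact div_nonneg (by linarith) (by linarith)
  have hδJ : δ * (t - r - ℓ) ≤ Nn κ γ r t + 1 := by
    have h1 : δ * (t - r) = Nn κ γ r t + 1 := by
      rw [hδ]
      exact div_mul_cancel₀ _ (by linarith)
    have h2 : 0 ≤ δ * ℓ := by positivity
    have h3 : δ * (t - r - ℓ) = δ * (t - r) - δ * ℓ := by ring
    linarith
  -- the line
  have hline : ∀ q, r ≤ q → q ≤ t → x.re + (X + 1) + mu κ γ r t * (q - r) ≤ √2 * q + √q + 1 := by
    intro q hq1 hq2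
    have h1 := Ap_sqrt (s := r) (s' := q) (t := t) hr0.le hq1 hq2
    have h2 : (t - r) * (x.re + (X + 1) + mu κ γ r t * (q - r)) =
        (t - q) * (z - MM κ γ r t + 1) + (q - r) * z := by
      have e : x.re + (X + 1) = z - MM κ γ r t + 1 := by rw [hX]; ring
      rw [e]
      linear_combination (q - r) * hμ
    have h3 : (t - q) * (z - MM κ γ r t + 1) ≤ (t - q) * (√2 * r + √r + 1) :=
      mul_le_mul_of_nonneg_left (by linarith [hadm' r le_rfl hrt.le]) (by linarith)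
    have h4 := hadm' t hrt.le le_rfl
    rw [Ca5_MMtt ht0] at h4
    have h5 : (q - r) * z ≤ (q - r) * (√2 * t + √t + 1) :=
      mul_le_mul_of_nonneg_left (by linarith) (by linarith)
    have h6 : (t - q) * (√2 * r + √r + 1) + (q - r) * (√2 * t + √t + 1) =
        ((t - q) * √r + (q - r) * √t) + (t - r) * (√2 * q + 1) := by ring
    have h7 : (t - r) * (√2 * q + √q + 1) = (t - r) * √q + (t - r) * (√2 * q + 1) := by ring
    refine le_of_mul_le_mul_left ?_ (show 0 < t - r by linarith)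
    rw [h2, h7]
    linarith
  -- the majorant
  have hTh0 : ∀ q ξ, 0 ≤ Ca5_Th κ γ r t z A q ξ := by
    intro q ξ
    unfold Ca5_Th
    refine le_min zero_le_one ?_
    have h1 := le_max_left 0 (z - ξ - MM κ γ (max r (min q t)) t)
    have h2 := le_max_left 0 (r + 2 - q)
    positivity
  have hTh1 : ∀ q ξ, Ca5_Th κ γ r t z A q ξ ≤ 1 := fun q ξ => min_le_left _ _
  have huTh : ∀ q, r ≤ q → q ≤ t - ℓ → ∀ y : ℂ, vf b (HP z) (t - q) y ≤ Ca5_Th κ γ r t z A q y.re := by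
    intro q hq1 hq2 y
    have hq3 : q ≤ t := by linarith
    unfold Ca5_Th
    refine le_min (vf_le_one _ _ _ _) ?_
    rw [min_eq_left hq3, max_eq_right hq1]
    have h1 := hap' q hq1 hq3 y
    have h2 := le_max_left 0 (r + 2 - q)
    linarith
  have hThx : ∀ σ, 2 ≤ σ → σ ≤ t - r →
      Ca5_Th κ γ r t z A (r + σ) (x.re + (X + 1) + mu κ γ r t * σ) ≤
        A * (1 + max 0 (Xs κ γ r t σ)) * Real.exp (-√2 * Xs κ γ r t σ) := by
    intro σ h2 hσ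
    have e1 : max r (min (r + σ) t) = r + σ := by
      rw [min_eq_left (by linarith), max_eq_right (by linarith)]
    have e2 : z - (x.re + (X + 1) + mu κ γ r t * σ) - MM κ γ (r + σ) t = Xs κ γ r t σ := by
      unfold Xs
      rw [Ca5_MM (s := r + σ)]
      have e3 : mu κ γ r t = √2 - (Nn κ γ r t + 1) / (t - r) := mu_eq hrt
      have e4 : MM κ γ r t = √2 * (t - r) - Nn κ γ r t := Ca5_MM
      rw [hX, e3, e4]
      have hts : t - r ≠ 0 := by linarith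
      field_simp
      ring
    have e5 : max 0 (r + 2 - (r + σ)) = 0 := max_eq_left (by linarith)
    unfold Ca5_Th
    rw [e1, e2, e5, add_zero]
    exact min_le_right _ _
  have hu := v_subfk hb (HP_meas z) r t
  have hu' : SubFK (fun z => b (Complex.arg z)) r (t - ℓ) (fun q x => vf b (HP z) (t - q) x) :=
    { kmeas := hu.kmeas
      knonneg := hu.knonneg
      kle := hu.kle
      meas := hu.meas
      nonneg := hu.nonneg
      le_one := hu.le_one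
      sub := fun q q' h1 h2 h3 => hu.sub q q' h1 h2 (h3.trans (by linarith)) }
  have hUm : Measurable (fun d : ℝ => ENNReal.ofReal (vh ℓ (mu κ γ r t * ℓ + d))) := by
    have h1 : Measurable (vh ℓ) := (vh_anti ℓ).measurable
    exact (h1.comp (measurable_const.add measurable_id)).ennreal_ofReal
  have h1 := hi hrT hu' (mu κ γ r t) hD (Ca5_cont K hr hrt.le) hTh0 hTh1 huTh x
    (cfl_cont hα β Cf ζ η).measurable (fun q y => cfl_nonneg hβ.le _ _ _ _ _)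
    (fun q hq1 _ y => by
      have h1 := hqlo q (hr.trans hq1) (⟨0, y⟩ : ℂ) (by
        have : 0 ≤ q := by linarith
        positivity)
      exact h1.trans (by linarith [hb.nonneg (Complex.arg (⟨0, y⟩ : ℂ))]))
    (fun q hq1 hq2 w hw => by
      have h2 := hqlo q (hr.trans hq1) w (hw.trans (hline q hq1 (by linarith)))
      change b (Complex.arg w) ≤ _
      linarith)
    (U := fun d : ℝ => ENNReal.ofReal (vh ℓ (mu κ γ r t * ℓ + d))) hUm
    (by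
      intro w _
      have e1 : mu κ γ r t * ℓ + (x.re + (X + 1) + mu κ γ r t * (t - ℓ - r) - w.re) = z - w.re := by
        have e2 : mu κ γ r t * ℓ + (x.re + (X + 1) + mu κ γ r t * (t - ℓ - r) - w.re) =
            x.re + X + 1 + mu κ γ r t * (t - r) - w.re := by ring
        rw [e2, hμ, hX]
        ring
      show ENNReal.ofReal (vf b (HP z) (t - (t - ℓ)) w) ≤
        ENNReal.ofReal (vh ℓ (mu κ γ r t * ℓ + (x.re + (X + 1) + mu κ γ r t * (t - ℓ - r) - w.re)))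
      rw [e1, show t - (t - ℓ) = ℓ by ring]
      exact ENNReal.ofReal_le_ofReal (vf_le_vh hb hℓ0.le w))
  have eJ : t - ℓ - r = t - r - ℓ := by ring
  rw [eJ] at h1
  -- the hits
  set Θ : ℝ → ℝ := fun σ => Ca5_Th κ γ r t z A (r + σ) (x.re + (X + 1) + mu κ γ r t * σ) with hΘ
  have h2 : ∫⁻ σ in Ioc 0 (t - r - ℓ), ENNReal.ofReal (fpd (mu κ γ r t) (X + 1) σ * Real.exp σ *
        Ca5_Th κ γ r t z A (r + σ) (x.re + (X + 1) + mu κ γ r t * σ)) *
        Gm (cfl α β Cf ζ η) r (r + σ) (fun _ => 1) x.im ≤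
      ∫⁻ σ in Ioc 0 (t - r - ℓ), ENNReal.ofReal C1 *
        ENNReal.ofReal (fpd (mu κ γ r t) (X + 1) σ * Real.exp σ * Θ σ * Gf κ γ r (r + σ)) := by
    refine setLIntegral_mono' measurableSet_Ioc fun σ hσ => ?_
    have hG := hgm r (r + σ) hr (by linarith [hσ.1]) x.im
    have hf : 0 ≤ fpd (mu κ γ r t) (X + 1) σ * Real.exp σ * Θ σ :=
      mul_nonneg (mul_nonneg (fpd_nonneg hD.le) (Real.exp_pos _).le) (hTh0 _ _)
    calc _ ≤ ENNReal.ofReal (fpd (mu κ γ r t) (X + 1) σ * Real.exp σ * Θ σ) *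
          ENNReal.ofReal (C1 * Gf κ γ r (r + σ)) := mul_le_mul_right hG _
      _ = _ := by
        rw [← ENNReal.ofReal_mul hf, ← ENNReal.ofReal_mul hC1.le]
        congr 1
        ring
  rw [lintegral_const_mul' _ _ ENNReal.ofReal_ne_top] at h2
  have h3 := hits r t ℓ (X + 1) A hr hj hℓ hℓj (by linarith) hA Θ
    (fun σ _ _ => ⟨hTh0 _ _, hTh1 _ _⟩) hThx
  -- the end
  have h4 := Uup_end (ℓ := ℓ) (ε1 := ε1) (J := t - r - ℓ) (D := X + 1) (by linarith) hD.le hδ0 hμδ hδJ hcc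
  obtain ⟨Hb, hHb⟩ : ∃ Hb, Hb = Ch * Real.exp (-√2 * (X + 1)) * ((1 + (X + 1) ^ γ) +
          A * (X + 1) * ((t - r) ^ (-(1 / 2 : ℝ)) * Real.log (t - r + 2) ^ (3 / 2 : ℝ) +
            ℓ ^ (-(1 / 2 : ℝ)) * (1 + Real.log (ℓ + 1)))) := ⟨_, rfl⟩
  obtain ⟨Eb, hEb⟩ : ∃ Eb, Eb = Real.exp (√2 * (Nn κ γ r t + 1)) * Real.exp (-√2 * (X + 1) + δ * (X + 1)) *
        ((X + 1) / ((t - r - ℓ) * √(t - r - ℓ))) * (CC ℓ + ε1) := ⟨_, rfl⟩
  rw [← hHb] at h3 ⊢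
  rw [← hEb] at h4 ⊢
  have hHb0 : 0 ≤ Hb := by
    rw [hHb]
    have a1 : 0 ≤ (X + 1) ^ γ := Real.rpow_nonneg hD.le _
    have a2 : 0 ≤ (t - r) ^ (-(1 / 2 : ℝ)) := Real.rpow_nonneg (by linarith) _
    have a3 : 0 ≤ Real.log (t - r + 2) ^ (3 / 2 : ℝ) :=
      Real.rpow_nonneg (Real.log_nonneg (by linarith)) _
    have a4 : 0 ≤ ℓ ^ (-(1 / 2 : ℝ)) := Real.rpow_nonneg (by linarith) _
    have a5 : 0 ≤ Real.log (ℓ + 1) := Real.log_nonneg (by linarith)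
    have a6 : 0 ≤ (t - r) ^ (-(1 / 2 : ℝ)) * Real.log (t - r + 2) ^ (3 / 2 : ℝ) +
            ℓ ^ (-(1 / 2 : ℝ)) * (1 + Real.log (ℓ + 1)) := by positivity
    have a7 : 0 ≤ A * (X + 1) * ((t - r) ^ (-(1 / 2 : ℝ)) * Real.log (t - r + 2) ^ (3 / 2 : ℝ) +
            ℓ ^ (-(1 / 2 : ℝ)) * (1 + Real.log (ℓ + 1))) :=
      mul_nonneg (mul_nonneg (by linarith) hD.le) a6
    exact mul_nonneg (mul_nonneg hCh.le (Real.exp_pos _).le) (by linarith)
  have hEb0 : 0 ≤ Eb := by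
    rw [hEb]
    have := cc_pos hℓ0
    have hJ : 0 < t - r - ℓ := by linarith
    positivity
  have hNN : 0 ≤ NN α β lam r (t - ℓ) := Y1_NN_nonneg hr0 (by linarith)
  have h5 : ENNReal.ofReal (vf b (HP z) (t - r) x) ≤
      ENNReal.ofReal (C1 * Hb + Eb * (NN α β lam r (t - ℓ) * g)) := by
    refine h1.trans ?_
    rw [ENNReal.ofReal_add (mul_nonneg hC1.le hHb0) (mul_nonneg hEb0 (mul_nonneg hNN hg)),
      ENNReal.ofReal_mul hC1.le, ENNReal.ofReal_mul hEb0]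
    refine add_le_add (h2.trans (mul_le_mul_right h3 _)) ?_
    exact mul_le_mul' h4 hG
  exact (ENNReal.ofReal_le_ofReal_iff (add_nonneg (mul_nonneg hC1.le hHb0)
    (mul_nonneg hEb0 (mul_nonneg hNN hg)))).1 h5

theorem Uup_Q {α β lam r ℓ : ℝ} (hα : 2 / 3 < α) (hα2 : α < 2) (hβ : 0 < β) (hlam : 0 < lam) (hr : 0 < r) (hℓ : 0 < ℓ) :
    Tendsto (fun t => Real.exp (√2 * Nn (kap α β lam) (gam α) r t) * NN α β lam r (t - ℓ) /
      ((t - r - ℓ) * √(t - r - ℓ))) atTop (𝓝 1) := by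
  have h1 := (kap_diff hα hα2 hβ hlam ℓ).const_mul √2
  have h2 := Real.tendsto_log_comp_add_sub_log (1 - r)
  have h3 := Real.tendsto_log_comp_add_sub_log (-r - ℓ)
  have h4 := Real.tendsto_log_comp_add_sub_log (-ℓ)
  have h5 := (h1.add ((h2.sub h3).const_mul (3 / 2))).add (h4.const_mul (gam α / 2))
  have h6 : √2 * 0 + 3 / 2 * (0 - 0) + gam α / 2 * (0 : ℝ) = 0 := by ring
  rw [h6] at h5
  have h7 := (Real.continuous_exp.tendsto 0).comp h5
  rw [Real.exp_zero] at h7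
  refine h7.congr' ?_
  filter_upwards [eventually_gt_atTop (r + ℓ + 1)] with t ht
  have ht0 : 0 < t := by linarith
  have hJ : 0 < t - r - ℓ := by linarith
  have hT : 0 < t - ℓ := by linarith
  have hs0 : 0 < √2 := Real.sqrt_pos.2 (by norm_num)
  have e1 : (t - r - ℓ) * √(t - r - ℓ) = Real.exp (3 / 2 * Real.log (t - r - ℓ)) := by
    have a1 : √(t - r - ℓ) = Real.exp (1 / 2 * Real.log (t - r - ℓ)) := by
      rw [Real.sqrt_eq_rpow, Real.rpow_def_of_pos hJ]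
      congr 1
      ring
    have a2 : 3 / 2 * Real.log (t - r - ℓ) = Real.log (t - r - ℓ) + 1 / 2 * Real.log (t - r - ℓ) := by ring
    rw [a2, Real.exp_add, Real.exp_log hJ, a1]
  have e2 : NN α β lam r (t - ℓ) = Real.exp (gam α / 2 * (Real.log (t - ℓ) - Real.log r) +
      -√2 * (kap α β lam (t - ℓ) - kap α β lam r)) := by
    unfold NN
    rw [Real.rpow_def_of_pos (div_pos hT hr), Real.log_div hT.ne' hr.ne', ← Real.exp_add]
    congr 1
    ring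
  have e3 : √2 * Nn (kap α β lam) (gam α) r t = √2 * (kap α β lam t - kap α β lam r) +
      3 / 2 * Real.log (t - r + 1) - gam α / 2 * (Real.log t - Real.log r) := by
    unfold Nn
    rw [Real.log_div ht0.ne' hr.ne']
    field_simp
  rw [e1, e2, e3, ← Real.exp_add, ← Real.exp_sub]
  simp only [Function.comp_apply]
  congr 1
  have e4 : t + (1 - r) = t - r + 1 := by ring
  have e5 : t + (-r - ℓ) = t - r - ℓ := by ring
  have e6 : t + -ℓ = t - ℓ := by ring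
  rw [e4, e5, e6]
  ring

theorem Uup_delta {κ : ℝ → ℝ} {γ Λ s0 : ℝ} (K : Kap κ γ Λ s0) {r : ℝ} (hr : s0 ≤ r) :
    Tendsto (fun t => (Nn κ γ r t + 1) / (t - r)) atTop (𝓝 0) := by
  obtain ⟨K1, hK1, h⟩ := nn_sq Λ
  have h1 : Tendsto (fun t : ℝ => √(K1 / (t - r))) atTop (𝓝 0) := by
    have a1 : Tendsto (fun t : ℝ => t - r) atTop atTop := tendsto_atTop_add_const_right _ _ tendsto_id
    have a2 : Tendsto (fun t : ℝ => K1 / (t - r)) atTop (𝓝 0) := a1.const_div_atTop K1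
    have a3 := (Real.continuous_sqrt.tendsto 0).comp a2
    rw [Real.sqrt_zero] at a3
    exact a3
  refine squeeze_zero' ?_ ?_ h1
  · filter_upwards [eventually_ge_atTop (r + 1)] with t ht
    have := nn_nonneg K hr (by linarith : r ≤ t)
    exact div_nonneg (by linarith) (by linarith)
  · filter_upwards [eventually_ge_atTop (r + 1)] with t ht
    have h2 := h κ γ s0 K r t hr ht
    have h3 : 0 < t - r := by linarith
    refine Real.le_sqrt_of_sq_le ?_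
    rw [div_pow, div_le_div_iff₀ (by positivity) h3]
    nlinarith

theorem Uup_logj (r : ℝ) :
    Tendsto (fun t => (t - r) ^ (-(1 / 2 : ℝ)) * Real.log (t - r + 2) ^ (3 / 2 : ℝ)) atTop (𝓝 0) := by
  have h1 : Tendsto (fun t : ℝ => 144 * (t - r) ^ (-(1 / 4 : ℝ))) atTop (𝓝 0) := by
    have a1 : Tendsto (fun t : ℝ => t - r) atTop atTop := tendsto_atTop_add_const_right _ _ tendsto_id
    have a2 := ((tendsto_rpow_neg_atTop (show (0 : ℝ) < 1 / 4 by norm_num)).comp a1).const_mul 144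
    rw [mul_zero] at a2
    exact a2
  refine squeeze_zero' ?_ ?_ h1
  · filter_upwards [eventually_ge_atTop (r + 2)] with t ht
    exact mul_nonneg (Real.rpow_nonneg (by linarith) _) (Real.rpow_nonneg (Real.log_nonneg (by linarith)) _)
  · filter_upwards [eventually_ge_atTop (r + 2)] with t ht
    exact Ca5_b (by linarith)

theorem Uup_num {γ C1 Ch A M p L ε ε1 X : ℝ} (hC : 0 < C1 * Ch) (hA : 0 < A) (hL : 0 ≤ L)
    (hε : 0 < ε) (hε1 : 0 < ε1) (hX : 1 ≤ X) (h1 : M * p ≤ ε / 4 * X) (h2 : C1 * Ch * (1 + (X + 1) ^ γ) ≤ ε / 4 * X)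
    (h3 : 2 * (ε1 * (M + p + ε1)) ≤ ε / 4) (hM : 0 ≤ M) (hp : 0 ≤ p) :
    C1 * (Ch * Real.exp (-√2 * (X + 1)) * ((1 + (X + 1) ^ γ) + A * (X + 1) * (0 + L))) +
      1 * (Real.exp √2 * Real.exp (-√2 * (X + 1) + 0 * (X + 1))) * (X + 1) * (M + ε1) * (p + ε1) <
      X * Real.exp (-√2 * X) * (M * p + 2 * (C1 * Ch) * A * L + ε) := by
  have e1 : Real.exp √2 * Real.exp (-√2 * (X + 1) + 0 * (X + 1)) = Real.exp (-√2 * X) := by
    rw [← Real.exp_add]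
    congr 1
    ring
  have e2 : Real.exp (-√2 * (X + 1)) ≤ Real.exp (-√2 * X) := by
    refine Real.exp_le_exp.2 ?_
    have := Real.sqrt_nonneg 2
    linarith
  rw [e1]
  obtain ⟨E, hE⟩ : ∃ E, E = Real.exp (-√2 * X) := ⟨_, rfl⟩
  have hE0 : 0 < E := by rw [hE]; exact Real.exp_pos _
  rw [← hE] at e2 ⊢
  have hq : 0 ≤ (X + 1) ^ γ := Real.rpow_nonneg (by linarith) _
  have hB : 0 ≤ (1 + (X + 1) ^ γ) + A * (X + 1) * (0 + L) := by
    have : 0 ≤ A * (X + 1) * (0 + L) := by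
      apply mul_nonneg (mul_nonneg hA.le (by linarith))
      linarith
    linarith
  have t1 : C1 * (Ch * Real.exp (-√2 * (X + 1)) * ((1 + (X + 1) ^ γ) + A * (X + 1) * (0 + L))) ≤
      E * (C1 * Ch * (1 + (X + 1) ^ γ) + C1 * Ch * A * (X + 1) * L) := by
    have a1 : C1 * (Ch * Real.exp (-√2 * (X + 1)) * ((1 + (X + 1) ^ γ) + A * (X + 1) * (0 + L))) =
        (C1 * Ch * ((1 + (X + 1) ^ γ) + A * (X + 1) * (0 + L))) * Real.exp (-√2 * (X + 1)) := by ring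
    rw [a1]
    refine (mul_le_mul_of_nonneg_left e2 (mul_nonneg hC.le hB)).trans (le_of_eq ?_)
    ring
  have t2 : C1 * Ch * A * (X + 1) * L ≤ X * (2 * (C1 * Ch) * A * L) := by
    have a1 : 0 ≤ C1 * Ch * A * L := by positivity
    have a2 := mul_le_mul_of_nonneg_left (show X + 1 ≤ 2 * X by linarith) a1
    linarith
  have t3 : (X + 1) * (M + ε1) * (p + ε1) ≤ X * (M * p) + ε / 4 * X + ε / 4 * X := by
    have a1 : (X + 1) * (M + ε1) * (p + ε1) = X * (M * p) + M * p + (X + 1) * (ε1 * (M + p + ε1)) := by ring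
    have a2 : 0 ≤ ε1 * (M + p + ε1) := by positivity
    have a3 := mul_le_mul_of_nonneg_right (show X + 1 ≤ 2 * X by linarith) a2
    have a4 := mul_le_mul_of_nonneg_left h3 (show 0 ≤ X by linarith)
    rw [a1]
    linarith
  have t4 : E * (C1 * Ch * (1 + (X + 1) ^ γ) + C1 * Ch * A * (X + 1) * L) + E * ((X + 1) * (M + ε1) * (p + ε1)) <
      E * (X * (M * p + 2 * (C1 * Ch) * A * L + ε)) := by
    rw [← mul_add]
    refine mul_lt_mul_of_pos_left ?_ hE0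
    have a1 : 0 < ε * X := mul_pos hε (by linarith)
    have a2 : X * (M * p + 2 * (C1 * Ch) * A * L + ε) = X * (M * p) + X * (2 * (C1 * Ch) * A * L) + ε * X := by ring
    rw [a2]
    linarith
  have t5 : 1 * E * (X + 1) * (M + ε1) * (p + ε1) = E * ((X + 1) * (M + ε1) * (p + ε1)) := by ring
  have t6 : X * E * (M * p + 2 * (C1 * Ch) * A * L + ε) = E * (X * (M * p + 2 * (C1 * Ch) * A * L + ε)) := by ring
  rw [t5, t6]
  linarith

theorem Uup_R {γ K ε : ℝ} (hγ : 0 ≤ γ) (hγ1 : γ < 1) (hK : 0 < K) (hε : 0 < ε) :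
    ∃ R0 : ℝ, 1 ≤ R0 ∧ ∀ X, R0 ≤ X → K * (1 + (X + 1) ^ γ) ≤ ε * X := by
  have h1 := (tendsto_rpow_atTop (show 0 < 1 - γ by linarith)).eventually_ge_atTop (3 * K / ε)
  obtain ⟨R1, hR1⟩ := eventually_atTop.1 h1
  refine ⟨max 1 R1, le_max_left _ _, fun X hX => ?_⟩
  have hX1 : 1 ≤ X := (le_max_left _ _).trans hX
  have hX0 : 0 < X := by linarith
  have h2 := hR1 X ((le_max_right _ _).trans hX)
  have h3 : (X + 1) ^ γ ≤ 2 * X ^ γ := by
    calc (X + 1) ^ γ ≤ (2 * X) ^ γ := Real.rpow_le_rpow (by linarith) (by linarith) hγ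
      _ = 2 ^ γ * X ^ γ := Real.mul_rpow (by norm_num) hX0.le
      _ ≤ 2 * X ^ γ := by
          refine mul_le_mul_of_nonneg_right ?_ (Real.rpow_nonneg hX0.le _)
          have := Real.rpow_le_rpow_of_exponent_le (show (1 : ℝ) ≤ 2 by norm_num) hγ1.le
          rwa [Real.rpow_one] at this
  have h4 : 1 ≤ X ^ γ := Real.one_le_rpow hX1 hγ
  have h5 : X ^ (1 - γ) * X ^ γ = X := by
    rw [← Real.rpow_add hX0]
    have : 1 - γ + γ = 1 := by ring
    rw [this, Real.rpow_one]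
  have h6 : 3 * K ≤ ε * X ^ (1 - γ) := by
    rw [div_le_iff₀ hε] at h2
    linarith
  have h7 := mul_le_mul_of_nonneg_right h6 (Real.rpow_nonneg hX0.le γ)
  calc K * (1 + (X + 1) ^ γ) ≤ K * (3 * X ^ γ) := mul_le_mul_of_nonneg_left (by linarith) hK.le
    _ = 3 * K * X ^ γ := by ring
    _ ≤ ε * X ^ (1 - γ) * X ^ γ := h7
    _ = ε * X := by rw [mul_assoc, h5]

theorem u_upper {b : ℝ → ℝ} {α β lam ρ C : ℝ} {φ : ℝ → ℝ} (hα : 2 / 3 < α) (hα2 : α < 2) (hβ : 0 < β)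
    (h : A12 b α β) (G : GS α lam ρ C φ) (a : ℝ) :
    ∃ CU > 0, ∀ U > 0, ∀ ℓ ≥ (1 : ℝ), ∀ ε > 0, ∃ r0 ≥ (1 : ℝ), ∀ r, r0 ≤ r → ∀ x, Good α β lam a U r x →
      ∀ᶠ t in atTop, vf b (HP (mm α β lam t + a)) (t - r) x ≤
        Xi α β lam a r x * Real.exp (-√2 * Xi α β lam a r x) *
          (CC ℓ * ((∫ y, φ y) * φ (x.im / ell α β r)) + CU * (ℓ ^ (-(1 / 2 : ℝ)) * (1 + Real.log (ℓ + 1))) + ε) := by
  have hα0 : 0 < α := by linarith
  have hb : Rate b := a12_rate hα0 h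
  obtain ⟨hg, hγ0, hγ1, -⟩ := gg_pos hα0 hα2
  obtain ⟨Cf, hCf, ζ, η, hζ, hη, sa, hsa1, hqlo⟩ := qlo hα hα2 hβ h
  obtain ⟨sb, hsb1, C1, hC1, hy1⟩ := y1 hα0 hα2 hβ G hCf hζ hη
  obtain ⟨Λ, sc, hkap⟩ := kap_kap hα hα2 hβ G.lam_pos
  obtain ⟨sd, hsd1, hadm⟩ := kap_adm hα hα2 hβ G.lam_pos
  obtain ⟨se, hse1, A, hA1, hap⟩ := apb hα hα2 hβ h G
  obtain ⟨Ch, hCh, hits⟩ := ca_hits (gam α) Λ hγ0.le (by linarith)
  obtain ⟨-, -, hφC, -⟩ := Y2u_phi G
  have hP0 : 0 ≤ ∫ y, φ y := integral_nonneg fun y => (G.pos y).le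
  have hCC : 0 < C1 * Ch := mul_pos hC1 hCh
  have hA0 : 0 < A := by linarith
  refine ⟨2 * (C1 * Ch) * A, by positivity, fun U hU ℓ hℓ ε hε => ?_⟩
  have hℓ0 : 0 < ℓ := by linarith
  have hM := cc_pos hℓ0
  obtain ⟨M, hMd⟩ : ∃ M, M = CC ℓ := ⟨_, rfl⟩
  rw [← hMd] at hM ⊢
  obtain ⟨P, hP⟩ : ∃ P, P = ∫ y, φ y := ⟨_, rfl⟩
  rw [← hP] at hP0 ⊢
  have hC0 : 0 ≤ C := by linarith [G.C_ge]
  have hPC : 0 ≤ P * C := mul_nonneg hP0 hC0
  obtain ⟨ε1, hε1d⟩ : ∃ ε1, ε1 = min 1 (ε / (8 * (M + P * C + 1))) := ⟨_, rfl⟩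
  have hε1 : 0 < ε1 := by
    rw [hε1d]
    exact lt_min one_pos (by positivity)
  have hε11 : ε1 ≤ 1 := by rw [hε1d]; exact min_le_left _ _
  have hε12 : ε1 * (8 * (M + P * C + 1)) ≤ ε := by
    have : ε1 ≤ ε / (8 * (M + P * C + 1)) := by rw [hε1d]; exact min_le_right _ _
    rwa [le_div_iff₀ (by positivity)] at this
  obtain ⟨r1, hr11, hy2⟩ := y2_up hα0 hα2 hβ G hCf hζ hη hU hε1
  obtain ⟨δ0, hδ0, hcc⟩ := cc_up hℓ0 hε1
  obtain ⟨R1, hR11, hR1⟩ := Uup_R hγ0.le (by linarith : gam α < 1) hCC (by positivity : 0 < ε / 4)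
  obtain ⟨R2, hR2⟩ : ∃ R2, R2 = M * (P * C) / (ε / 4) := ⟨_, rfl⟩
  have hdl : 0 < 1 / 2 - dl α := by
    unfold dl
    have := min_le_right ((2 * gam α - 1 / 2) / 2) (1 / 8)
    linarith
  obtain ⟨r2, hr2⟩ := eventually_atTop.1 ((tendsto_rpow_atTop hdl).eventually_ge_atTop (max R1 R2))
  obtain ⟨s0, hs0⟩ : ∃ s0, s0 = max (max sa sb) (max sc (max sd se)) := ⟨_, rfl⟩
  have ha0 : sa ≤ s0 := by rw [hs0]; exact (le_max_left _ _).trans (le_max_left _ _)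
  have hb0 : sb ≤ s0 := by rw [hs0]; exact (le_max_right _ _).trans (le_max_left _ _)
  have hc0 : sc ≤ s0 := by rw [hs0]; exact (le_max_left _ _).trans (le_max_right _ _)
  have hd0 : sd ≤ s0 := by
    rw [hs0]; exact ((le_max_left _ _).trans (le_max_right _ _)).trans (le_max_right _ _)
  have he0 : se ≤ s0 := by
    rw [hs0]; exact ((le_max_right _ _).trans (le_max_right _ _)).trans (le_max_right _ _)
  have K : Kap (kap α β lam) (gam α) Λ s0 := hkap s0 hc0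
  refine ⟨max (max s0 (a ^ 2)) (max r1 r2), (hsa1.trans ha0).trans ((le_max_left _ _).trans (le_max_left _ _)),
    fun r hr x hx => ?_⟩
  have hrs : s0 ≤ r := ((le_max_left _ _).trans (le_max_left _ _)).trans hr
  have hra : a ≤ √r := by
    have h1 : a ^ 2 ≤ r := ((le_max_right _ _).trans (le_max_left _ _)).trans hr
    exact Real.le_sqrt_of_sq_le h1
  have hrr1 : r1 ≤ r := ((le_max_left _ _).trans (le_max_right _ _)).trans hr
  have hrr2 : r2 ≤ r := ((le_max_right _ _).trans (le_max_right _ _)).trans hr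
  have hr0 : 0 < r := by linarith
  obtain ⟨hx1, hx2, -⟩ := hx
  obtain ⟨X, hXd⟩ : ∃ X, X = Xi α β lam a r x := ⟨_, rfl⟩
  rw [← hXd] at hx2 ⊢
  have hXR : max R1 R2 ≤ X := (hr2 r hrr2).trans hx2
  have hXR1 : R1 ≤ X := (le_max_left _ _).trans hXR
  have hX1 : 1 ≤ X := hR11.trans hXR1
  obtain ⟨p, hp⟩ : ∃ p, p = P * φ (x.im / ell α β r) := ⟨_, rfl⟩
  have hp0 : 0 ≤ p := by rw [hp]; exact mul_nonneg hP0 (G.pos _).le
  have hpC : p ≤ P * C := by rw [hp]; exact mul_le_mul_of_nonneg_left (hφC _) hP0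
  rw [← hp]
  obtain ⟨L, hL⟩ : ∃ L, L = ℓ ^ (-(1 / 2 : ℝ)) * (1 + Real.log (ℓ + 1)) := ⟨_, rfl⟩
  have hL0 : 0 ≤ L := by
    rw [hL]
    exact mul_nonneg (Real.rpow_nonneg hℓ0.le _) (by linarith [Real.log_nonneg (show 1 ≤ ℓ + 1 by linarith)])
  -- the limit
  have c1 : M * p ≤ ε / 4 * X := by
    have h1 : R2 ≤ X := (le_max_right _ _).trans hXR
    rw [hR2, div_le_iff₀ (by positivity)] at h1
    have h2 := mul_le_mul_of_nonneg_left hpC hM.le
    linarith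
  have c3 : 2 * (ε1 * (M + p + ε1)) ≤ ε / 4 := by
    have h1 : ε1 * (M + p + ε1) ≤ ε1 * (M + P * C + 1) :=
      mul_le_mul_of_nonneg_left (by linarith) hε1.le
    linarith
  have hnum := Uup_num (γ := gam α) hCC hA0 hL0 hε hε1 hX1 c1 (hR1 X hXR1) c3 hM.le hp0
  have hXt : Tendsto (fun t => mm α β lam t + a - x.re - MM (kap α β lam) (gam α) r t) atTop (𝓝 X) := by
    have h1 := ((Real.tendsto_log_comp_add_sub_log (1 - r)).const_mul (3 / (2 * √2))).const_add X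
    rw [mul_zero, add_zero] at h1
    refine h1.congr' ?_
    filter_upwards [eventually_gt_atTop 0] with t ht
    rw [Uup_X hr0 ht, ← hXd]
    have e : t + (1 - r) = t - r + 1 := by ring
    rw [e]
  have hδt := Uup_delta K hrs
  have hQt := Uup_Q hα hα2 hβ G.lam_pos hr0 hℓ0
  have hjt := Uup_logj r
  obtain ⟨Xt, hXt'⟩ : ∃ Xt : ℝ → ℝ, Xt = fun t => mm α β lam t + a - x.re - MM (kap α β lam) (gam α) r t := ⟨_, rfl⟩
  rw [← hXt'] at hXt
  obtain ⟨dt, hdt⟩ : ∃ dt : ℝ → ℝ, dt = fun t => (Nn (kap α β lam) (gam α) r t + 1) / (t - r) := ⟨_, rfl⟩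
  rw [← hdt] at hδt
  obtain ⟨Qt, hQt'⟩ : ∃ Qt : ℝ → ℝ, Qt = fun t => Real.exp (√2 * Nn (kap α β lam) (gam α) r t) * NN α β lam r (t - ℓ) /
      ((t - r - ℓ) * √(t - r - ℓ)) := ⟨_, rfl⟩
  rw [← hQt'] at hQt
  obtain ⟨jt, hjt'⟩ : ∃ jt : ℝ → ℝ, jt = fun t => (t - r) ^ (-(1 / 2 : ℝ)) * Real.log (t - r + 2) ^ (3 / 2 : ℝ) := ⟨_, rfl⟩
  rw [← hjt'] at hjt
  have hX1t := hXt.add_const 1
  have hexp1 := (Real.continuous_exp.tendsto _).comp (hX1t.const_mul (-√2))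
  have hexp2 := (Real.continuous_exp.tendsto _).comp ((hX1t.const_mul (-√2)).add (hδt.mul hX1t))
  have hpow := hX1t.rpow_const (p := gam α) (Or.inl (by linarith : X + 1 ≠ 0))
  have hF := (((hexp1.const_mul Ch).mul ((hpow.const_add 1).add
    ((hX1t.const_mul A).mul (hjt.add_const L)))).const_mul C1).add
    ((((hQt.mul (hexp2.const_mul (Real.exp √2))).mul hX1t).mul_const (M + ε1)).mul_const (p + ε1))
  have hev := hF.eventually (gt_mem_nhds hnum)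
  have hG : ∀ᶠ t in atTop, Gm (cfl α β Cf ζ η) r (t - ℓ) (fun _ => 1) x.im ≤
      ENNReal.ofReal (NN α β lam r (t - ℓ) * (p + ε1)) := by
    have h1 : Tendsto (fun t : ℝ => t - ℓ) atTop atTop := tendsto_atTop_add_const_right _ _ tendsto_id
    filter_upwards [h1.eventually (hy2 r hrr1)] with t ht
    have h2 := ht x.im hx1
    rw [← hP, ← hp] at h2
    exact h2
  have hδℓ : ∀ᶠ t in atTop, dt t * ℓ ≤ δ0 := by
    have h1 := hδt.mul_const ℓ
    rw [zero_mul] at h1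
    exact h1.eventually (ge_mem_nhds hδ0)
  have hXpos : ∀ᶠ t in atTop, 0 ≤ Xt t := hXt.eventually (le_mem_nhds (by linarith))
  filter_upwards [hev, hG, hδℓ, hXpos, eventually_ge_atTop (r + 8 + 4 * ℓ)] with t ht1 ht2 ht3 ht4 ht5
  have hδn : 0 ≤ dt t := by
    rw [hdt]
    have := nn_nonneg K hrs (by linarith : r ≤ t)
    exact div_nonneg (by linarith) (by linarith)
  have hmain := Uup_main (X := Xt t) (δ := dt t) hα0 hβ hb (fun s hs z hz => hqlo s (ha0.trans hs) z hz) hC1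
    (fun s s' hs hss y => (hy1 s s' (hb0.trans hs) hss y).1) K
    (fun s t a q hs => hadm s t a q (hd0.trans hs)) hA1
    (fun s t a hs => hap s t a (he0.trans hs)) hCh
    (fun s t ℓ D A => hits (kap α β lam) s0 K s t ℓ D A) hrs hra (by linarith) hℓ (by linarith) x
    (by rw [hXt']) ht4 (by rw [hdt]) (hcc (dt t * ℓ) (by positivity) ht3) hε1 (by linarith) ht2
  rw [← hMd, ← hL] at hmain
  rw [← hL]
  refine hmain.trans (le_trans (le_of_eq ?_) ht1.le)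
  have e1 : Real.exp (√2 * (Nn (kap α β lam) (gam α) r t + 1)) =
      Real.exp (√2 * Nn (kap α β lam) (gam α) r t) * Real.exp √2 := by
    rw [← Real.exp_add]
    congr 1
    ring
  have e2 : Qt t = Real.exp (√2 * Nn (kap α β lam) (gam α) r t) * NN α β lam r (t - ℓ) /
      ((t - r - ℓ) * √(t - r - ℓ)) := by rw [hQt']
  have e3 : jt t = (t - r) ^ (-(1 / 2 : ℝ)) * Real.log (t - r + 2) ^ (3 / 2 : ℝ) := by rw [hjt']
  rw [e1, e2, ← e3]
  simp only [Function.comp_apply]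
  ring

end Pool.H50.BB
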