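import Pool.Agent.H50.BB.Hms
import Pool.Agent.H50.BB.Uup
import Pool.Agent.H50.BB.Bmo
import Pool.Agent.H50.BB.Ilm

/-!
# Row Hsp: mass estimates with the a priori bound   (about 260 lines; may be split)

`Ex z = (1 + max 0 Xi) e^{-√2 Xi}`, `Xi = Xi α β lam a r z`.  With `d = re x + K + √2 r - re z`: `Xi = d - K - re x - κ r + (γ/(2√2)) log r + a`, so `Ex z = F d` for an explicit `F`, and
`e^{√2 d} e^{-√2 Xi} = e^{√2(K + re x) + √2 κ r - √2 a} r^{-γ/2}`, `NN s r = (r/s)^{γ/2} e^{-√2(κ r - κ s)}`: by `ms_bound` (1), for any measurable set `S`: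
(*) `Ms b K r x (1{d ∈ S} Ex) ≤ ofReal(C1 s^{-γ/2} e^{√2 κ s} e^{√2(re x - a)}) ∫⁻_{d>0, d∈S} ofReal(kk r K d (1 + max 0 Xi))`, and the same with the weight `1 + im² r^{-2γ}` and the extra factor `1 + (im x² + s) s^{-2γ}`.
`κ r ≥ (γ/(2√2)) log r` for `r ≥ r1` (`g > 0`), so `max 0 Xi ≤ d + |re x| + |a|`.
`∫⁻_{d>0} kk r K d (1 + B + d) ≤ K + (1+B) √(2/π) K/√r · C`: `kk_mom1`; and for the constant: `kk r K d ≤ √(2/π) K d/(r√r)` for `d ≤ √r` (`kk_le`), `≤ kk d/√r` for `d ≥ √r`: total `≤ (√(2/π) K + K)/√r`.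
`ms_all`: `s = max s0 ((K+|re x|)²)`, (*) with `S = univ`.
`ms_bad`: `¬Good` is contained in the union of (i) `|im| > U r^γ`, (ii) `Xi < r^{1/2-dl}`, (iii) `Xi > r^{1/2+dl}`.
(i) `1{|im| > U r^γ} ≤ U^{-2} (1 + im² r^{-2γ})`: `≤ CK/U²`.
(ii) `d = Xi + K + re x + κ r - .. - a ≤ r^{1/2-dl} + K + |x.re| + |a| + κ r ≤ 2 r^{1/2-dl}` for r large (`g < 1/2 - dl`), `kk ≤ √(2/π) K d/(r√r)`: `≤ C r^{-3/2} r^{3(1/2-dl)} = C r^{-3 dl} → 0`.
(iii) `d ≥ Xi - |re x| - |a| ≥ r^{1/2+dl}/2 =: L`, `1 + max 0 Xi ≤ 2d`, `d ≤ d²/L`, `kk_mom2`: `≤ (2/L) 2K√(r+K²) ≤ C r^{-dl} → 0`.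
`ms_top`: `x = 0`, `a ≥ 1` large, `K = a/2`, `s = r = max R (max s0 a²)` (`= a²` for a large; `K² ≤ s`, `NN r r = 1`): (*): `≤ C1 e^{√2 κ r} e^{-√2 a} (K + (1+a) C K/√r) ≤ C a² exp(-√2 a + C a^{2g}) → 0` as `a → ∞` (`2g < 1`; `r ≥ r1` fine),
and `e^{-√2K} → 0`.
-/

open MeasureTheory ProbabilityTheory Set Filter Topology
open scoped NNReal ENNReal

namespace Pool.H50.BB

open Pool.Agent.H4.BM

/-- the shape of the a priori bound -/
noncomputable def Ex (α β lam a r : ℝ) (z : ℂ) : ℝ :=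
  (1 + max 0 (Xi α β lam a r z)) * Real.exp (-√2 * Xi α β lam a r z)

/-- the shift -/
noncomputable def Hsp_c (α β lam a K r : ℝ) (x : ℂ) : ℝ :=
  x.re + K + kap α β lam r - gam α / (2 * √2) * Real.log r - a

/-- the shape in terms of the distance to the line -/
noncomputable def Hsp_G (c d : ℝ) : ℝ := (1 + max 0 (d - c)) * Real.exp (-√2 * (d - c))

/-- the constant -/
noncomputable def Hsp_k (α β lam a s : ℝ) (x : ℂ) : ℝ :=
  s ^ (-(gam α / 2)) * Real.exp (√2 * kap α β lam s) * Real.exp (√2 * (x.re - a))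

/-- the weighted kernel -/
noncomputable def Hsp_I (c r K : ℝ) (S : Set ℝ) : ℝ≥0∞ :=
  ∫⁻ d in Ioi (0 : ℝ), S.indicator (fun d => ENNReal.ofReal (kk r K d * (1 + max 0 (d - c)))) d

theorem Hsp_k_pos {α β lam a s : ℝ} {x : ℂ} (hs : 0 < s) : 0 < Hsp_k α β lam a s x := by
  unfold Hsp_k
  positivity

theorem Hsp_Xi (α β lam a K r : ℝ) (x z : ℂ) :
    Xi α β lam a r z = (x.re + K + √2 * r - z.re) - Hsp_c α β lam a K r x := by
  unfold Xi Hsp_c
  ring

theorem Hsp_Ex (α β lam a K r : ℝ) (x z : ℂ) :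
    Ex α β lam a r z = Hsp_G (Hsp_c α β lam a K r x) (x.re + K + √2 * r - z.re) := by
  unfold Ex Hsp_G
  rw [Hsp_Xi α β lam a K r x z]

theorem Hsp_G_nonneg (c d : ℝ) : 0 ≤ Hsp_G c d := by
  unfold Hsp_G
  have := le_max_left 0 (d - c)
  positivity

theorem Hsp_G_meas (c : ℝ) : Measurable (Hsp_G c) := by
  unfold Hsp_G
  fun_prop

theorem Hsp_id {α β lam a K s r d : ℝ} {x : ℂ} (hs : 0 < s) (hr : 0 < r) :
    Real.exp (-√2 * K) * NN α β lam s r *
      (Real.exp (√2 * d) * Real.exp (-√2 * (d - Hsp_c α β lam a K r x))) = Hsp_k α β lam a s x := by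
  have h2 : (0 : ℝ) < √2 := by positivity
  have e1 : (r / s) ^ (gam α / 2) = r ^ (gam α / 2) * s ^ (-(gam α / 2)) := by
    rw [Real.div_rpow hr.le hs.le, Real.rpow_neg hs.le]
    rfl
  have e2 : r ^ (gam α / 2) = Real.exp (gam α / 2 * Real.log r) := by
    rw [Real.rpow_def_of_pos hr]
    ring_nf
  have e3 : √2 * (gam α / (2 * √2) * Real.log r) = gam α / 2 * Real.log r := by
    field_simp
  unfold NN Hsp_k
  rw [e1, e2]
  have e4 : Real.exp (-√2 * K) * (Real.exp (gam α / 2 * Real.log r) * s ^ (-(gam α / 2)) *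
      Real.exp (-√2 * (kap α β lam r - kap α β lam s))) *
      (Real.exp (√2 * d) * Real.exp (-√2 * (d - Hsp_c α β lam a K r x))) =
      s ^ (-(gam α / 2)) * (Real.exp (-√2 * K) * Real.exp (gam α / 2 * Real.log r) *
      Real.exp (-√2 * (kap α β lam r - kap α β lam s)) * Real.exp (√2 * d) *
        Real.exp (-√2 * (d - Hsp_c α β lam a K r x))) := by ring
  rw [e4, ← Real.exp_add, ← Real.exp_add, ← Real.exp_add, ← Real.exp_add, mul_assoc, ← Real.exp_add]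
  congr 2
  unfold Hsp_c
  have e5 : -√2 * K + gam α / 2 * Real.log r + -√2 * (kap α β lam r - kap α β lam s) + √2 * d +
      -√2 * (d - (x.re + K + kap α β lam r - gam α / (2 * √2) * Real.log r - a)) =
      gam α / 2 * Real.log r - √2 * (gam α / (2 * √2) * Real.log r) + √2 * kap α β lam s + √2 * (x.re - a) := by
    ring
  rw [e5, e3]
  ring

theorem Hsp_conv {α β lam a K s r Cc : ℝ} {x : ℂ} (hs : 0 < s) (hr : 0 < r) (hK : 0 < K) (hC : 0 ≤ Cc) (S : Set ℝ)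
    (hS : MeasurableSet S) :
    ENNReal.ofReal (Cc * Real.exp (-√2 * K) * NN α β lam s r) *
      ∫⁻ d in Ioi (0 : ℝ), ENNReal.ofReal (Real.exp (√2 * d) * kk r K d) *
        S.indicator (fun d => ENNReal.ofReal (Hsp_G (Hsp_c α β lam a K r x) d)) d =
      ENNReal.ofReal (Cc * Hsp_k α β lam a s x) * Hsp_I (Hsp_c α β lam a K r x) r K S := by
  have hNN : 0 ≤ NN α β lam s r := Y1_NN_nonneg hs hr
  have hGm := (Hsp_G_meas (Hsp_c α β lam a K r x)).ennreal_ofReal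
  have hk := (kk_cont r K).measurable
  unfold Hsp_I
  rw [← lintegral_const_mul _ (by
    refine Measurable.mul ?_ (hGm.indicator hS)
    fun_prop), ← lintegral_const_mul _ (by
    refine Measurable.indicator ?_ hS
    fun_prop)]
  refine setLIntegral_congr_fun measurableSet_Ioi fun d hd => ?_
  by_cases hdS : d ∈ S
  · simp only [indicator_of_mem hdS]
    have hkk := kk_nonneg hr hK.le (le_of_lt (mem_Ioi.1 hd))
    have hm : 0 ≤ 1 + max 0 (d - Hsp_c α β lam a K r x) := by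
      have := le_max_left 0 (d - Hsp_c α β lam a K r x)
      linarith
    rw [← ENNReal.ofReal_mul (by positivity), ← ENNReal.ofReal_mul (by positivity),
      ← ENNReal.ofReal_mul (mul_nonneg hC (Hsp_k_pos hs).le)]
    congr 1
    rw [← Hsp_id (α := α) (β := β) (lam := lam) (a := a) (K := K) (x := x) (d := d) hs hr]
    unfold Hsp_G
    ring
  · simp only [indicator_of_notMem hdS, mul_zero]

theorem Hsp_bAll {c r K B : ℝ} (hr : 0 < r) (hK : 0 < K) (hB : 0 ≤ B) (hc : -B ≤ c) (S : Set ℝ) :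
    Hsp_I c r K S ≤ ENNReal.ofReal (1 + B + K) := by
  unfold Hsp_I
  have hk := (kk_cont r K).measurable
  have hg := Bmk_gd_meas r
  have h1 : ∀ d ∈ Ioi (0 : ℝ), S.indicator (fun d => ENNReal.ofReal (kk r K d * (1 + max 0 (d - c)))) d ≤
      ENNReal.ofReal (1 + B) * ENNReal.ofReal (gd r (d - K)) + ENNReal.ofReal (kk r K d * d) := by
    intro d hd
    have hd0 : 0 < d := hd
    have hkk := kk_nonneg hr hK.le hd0.le
    refine (indicator_le_self _ _ _).trans ?_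
    rw [← ENNReal.ofReal_mul (by positivity), ← ENNReal.ofReal_add (mul_nonneg (by positivity) (gd_nonneg _ _))
      (by positivity)]
    refine ENNReal.ofReal_le_ofReal ?_
    have h2 : max 0 (d - c) ≤ d + B := max_le (by positivity) (by linarith)
    have h3 := kk_le1 (T := r) (D := K) (d := d)
    have h4 : kk r K d * (1 + max 0 (d - c)) ≤ kk r K d * (1 + (d + B)) :=
      mul_le_mul_of_nonneg_left (by linarith) hkk
    have h5 := mul_le_mul_of_nonneg_left h3 (by positivity : 0 ≤ 1 + B)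
    nlinarith
  refine (setLIntegral_mono' measurableSet_Ioi h1).trans ?_
  rw [lintegral_add_right _ (by fun_prop), lintegral_const_mul _ (by fun_prop), kk_mom1 hr hK.le]
  have h6 : ∫⁻ d in Ioi (0 : ℝ), ENNReal.ofReal (gd r (d - K)) ≤ 1 := by
    refine (setLIntegral_le_lintegral _ _).trans ?_
    rw [lintegral_sub_right_eq_self (fun d => ENNReal.ofReal (gd r d)) K, Bmk_one hr]
  refine (add_le_add (mul_le_mul' le_rfl h6) le_rfl).trans ?_
  rw [mul_one, ← ENNReal.ofReal_add (by positivity) hK.le]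

theorem Hsp_bSmall {c r K B L : ℝ} (hr : 0 < r) (hK : 0 < K) (hB : 0 ≤ B) (hc : -B ≤ c) (hL : 0 ≤ L) :
    Hsp_I c r K (Iic L) ≤ ENNReal.ofReal (√(2 / Real.pi) * K * L / (r * √r) * (1 + B + L) * L) := by
  unfold Hsp_I
  have e1 : ∀ d, (Iic L).indicator (fun d => ENNReal.ofReal (kk r K d * (1 + max 0 (d - c)))) d =
      (Iic L).indicator (fun d => ENNReal.ofReal (kk r K d * (1 + max 0 (d - c)))) d := fun _ => rfl
  rw [setLIntegral_indicator measurableSet_Iic]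
  have h1 : ∀ d ∈ Iic L ∩ Ioi (0 : ℝ), ENNReal.ofReal (kk r K d * (1 + max 0 (d - c))) ≤
      ENNReal.ofReal (√(2 / Real.pi) * K * L / (r * √r) * (1 + B + L)) := by
    rintro d ⟨hdL, hd⟩
    have hd0 : 0 < d := hd
    have hdL' : d ≤ L := hdL
    refine ENNReal.ofReal_le_ofReal ?_
    have hkk := kk_nonneg hr hK.le hd0.le
    have h2 : max 0 (d - c) ≤ L + B := max_le (by positivity) (by linarith)
    have h3 := kk_le hr hK.le hd0.le
    have h4 : √(2 / Real.pi) * K * d / (r * √r) ≤ √(2 / Real.pi) * K * L / (r * √r) := by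
      gcongr
    exact mul_le_mul (h3.trans h4) (by linarith) (by have := le_max_left 0 (d - c); linarith) (by positivity)
  refine (setLIntegral_mono' (measurableSet_Iic.inter measurableSet_Ioi) h1).trans ?_
  rw [setLIntegral_const]
  have h5 : volume (Iic L ∩ Ioi (0 : ℝ)) ≤ ENNReal.ofReal L := by
    rw [Iic_inter_Ioi, Real.volume_Ioc, sub_zero]
  refine (mul_le_mul' le_rfl h5).trans ?_
  rw [← ENNReal.ofReal_mul (by positivity)]

theorem Hsp_bLarge {c r K B L : ℝ} (hr : 0 < r) (hK : 0 < K) (hB : 0 ≤ B) (hc : -B ≤ c) (hL : 1 + B ≤ L) :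
    Hsp_I c r K (Ici L) ≤ ENNReal.ofReal (4 * K * √(r + K ^ 2) / L) := by
  unfold Hsp_I
  have hL0 : 0 < L := by linarith
  have hk := (kk_cont r K).measurable
  have h1 : ∀ d ∈ Ioi (0 : ℝ), (Ici L).indicator (fun d => ENNReal.ofReal (kk r K d * (1 + max 0 (d - c)))) d ≤
      ENNReal.ofReal (2 / L) * ENNReal.ofReal (kk r K d * d ^ 2) := by
    intro d hd
    have hd0 : 0 < d := hd
    by_cases hdL : d ∈ Ici L
    · rw [indicator_of_mem hdL]
      have hdL' : L ≤ d := hdL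
      have hkk := kk_nonneg hr hK.le hd0.le
      rw [← ENNReal.ofReal_mul (by positivity)]
      refine ENNReal.ofReal_le_ofReal ?_
      have h2 : max 0 (d - c) ≤ d + B := max_le (by positivity) (by linarith)
      have h3 : 1 + max 0 (d - c) ≤ 2 / L * d ^ 2 := by
        rw [div_mul_eq_mul_div, le_div_iff₀ hL0]
        nlinarith
      have h4 := mul_le_mul_of_nonneg_left h3 hkk
      linarith
    · rw [indicator_of_notMem hdL]
      exact bot_le
  refine (setLIntegral_mono' measurableSet_Ioi h1).trans ?_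
  rw [lintegral_const_mul _ (by fun_prop)]
  refine (mul_le_mul' le_rfl (kk_mom2 hr hK.le)).trans ?_
  rw [← ENNReal.ofReal_mul (by positivity)]
  refine ENNReal.ofReal_le_ofReal (le_of_eq ?_)
  ring

theorem Ms_mono {b : ℝ → ℝ} {K r : ℝ} {x : ℂ} {Φ Ψ : ℂ → ℝ≥0∞} (h : ∀ z, Φ z ≤ Ψ z) :
    Ms b K r x Φ ≤ Ms b K r x Ψ := by
  unfold Ms
  exact lintegral_mono fun w => mul_le_mul' le_rfl (h _)

theorem Hsp_wmeas {b : ℝ → ℝ} (hb : Rate b) (r : ℝ) (x : ℂ) {Φ : ℂ → ℝ≥0∞} (hΦ : Measurable Φ) :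
    Measurable fun w : P2 =>
      ENNReal.ofReal (Real.exp (∫ u in (0 : ℝ)..r, b (Complex.arg (x + pt w u)))) * Φ (x + pt w r) := by
  have h1 : Measurable fun w : P2 => ∫ u in (0 : ℝ)..r, b (Complex.arg (x + pt w u)) :=
    (clock_meas hb).comp (measurable_id.prodMk (measurable_const.prodMk measurable_const))
  have h2 : Measurable fun w : P2 => pt w r := pt_meas.comp (measurable_id.prodMk measurable_const)
  exact h1.exp.ennreal_ofReal.mul (hΦ.comp (measurable_const.add h2))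

theorem Ms_add {b : ℝ → ℝ} (hb : Rate b) {K r : ℝ} {x : ℂ} {Φ : ℂ → ℝ≥0∞} (hΦ : Measurable Φ) (Ψ : ℂ → ℝ≥0∞) :
    Ms b K r x (fun z => Φ z + Ψ z) = Ms b K r x Φ + Ms b K r x Ψ := by
  unfold Ms
  rw [← lintegral_add_left (Hsp_wmeas hb r x hΦ)]
  refine lintegral_congr fun w => ?_
  rw [mul_add]

theorem Ms_const_mul {b : ℝ → ℝ} (hb : Rate b) {K r : ℝ} {x : ℂ} {Φ : ℂ → ℝ≥0∞} (hΦ : Measurable Φ) (k : ℝ≥0∞) :
    Ms b K r x (fun z => k * Φ z) = k * Ms b K r x Φ := by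
  unfold Ms
  rw [← lintegral_const_mul _ (Hsp_wmeas hb r x hΦ)]
  refine lintegral_congr fun w => ?_
  ring

theorem Hsp_star {b : ℝ → ℝ} {α β lam ρ C : ℝ} {φ : ℝ → ℝ} (hα : 2 / 3 < α) (hα2 : α < 2) (hβ : 0 < β)
    (h : A12 b α β) (G : GS α lam ρ C φ) :
    ∃ s0 ≥ (1 : ℝ), ∃ C1 > 0, ∀ (x : ℂ) (K s r a : ℝ), 0 < K → s0 ≤ s → (K + |x.re|) ^ 2 ≤ s → s ≤ r →
      ∀ S : Set ℝ, MeasurableSet S →
        Ms b K r x (fun z => S.indicator (fun d => ENNReal.ofReal (Hsp_G (Hsp_c α β lam a K r x) d))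
          (x.re + K + √2 * r - z.re)) ≤
          ENNReal.ofReal (C1 * Hsp_k α β lam a s x) * Hsp_I (Hsp_c α β lam a K r x) r K S ∧
        Ms b K r x (fun z => ENNReal.ofReal (1 + z.im ^ 2 * r ^ (-2 * gam α)) *
          S.indicator (fun d => ENNReal.ofReal (Hsp_G (Hsp_c α β lam a K r x) d))
          (x.re + K + √2 * r - z.re)) ≤
          ENNReal.ofReal (C1 * (1 + (x.im ^ 2 + s) * s ^ (-2 * gam α)) * Hsp_k α β lam a s x) *
            Hsp_I (Hsp_c α β lam a K r x) r K S := by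
  obtain ⟨s0, hs0, C1, hC1, hms⟩ := ms_bound hα hα2 hβ h G
  refine ⟨s0, hs0, C1, hC1, fun x K s r a hK hs hKs hsr S hS => ?_⟩
  have hs0' : 0 < s := by linarith
  have hr : 0 < r := by linarith
  obtain ⟨h1, h2⟩ := hms x K s r hK hs hKs hsr
    (S.indicator (fun d => ENNReal.ofReal (Hsp_G (Hsp_c α β lam a K r x) d)))
    ((Hsp_G_meas _).ennreal_ofReal.indicator hS)
  have hW : 0 ≤ C1 * (1 + (x.im ^ 2 + s) * s ^ (-2 * gam α)) := by positivity
  refine ⟨h1.trans (le_of_eq ?_), h2.trans (le_of_eq ?_)⟩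
  · exact Hsp_conv hs0' hr hK hC1.le S hS
  · rw [← Hsp_conv hs0' hr hK hW S hS]
    congr 2
    ring

/-- the curve dominates the logarithm -/
theorem Hsp_ev1 {α β lam : ℝ} (hα : 0 < α) (hα2 : α < 2) (hβ : 0 < β) (hlam : 0 < lam) :
    ∀ᶠ r : ℝ in atTop, gam α / (2 * √2) * Real.log r ≤ kap α β lam r := by
  obtain ⟨hg, hγ0, -, -⟩ := gg_pos hα hα2
  have hκ := Kpf_a_pos hα hα2 hβ hlam
  have hp : 0 < gam α / (2 * √2) := by positivity
  have h1 := (isLittleO_log_rpow_atTop (r := gg α) hg).bound (c := Kpf_a α β lam / (gam α / (2 * √2))) (by positivity)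
  filter_upwards [h1, eventually_ge_atTop 1] with r h2 hr
  rw [Real.norm_of_nonneg (Real.log_nonneg hr), Real.norm_of_nonneg (by positivity)] at h2
  rw [Kpf_kap]
  have h3 := mul_le_mul_of_nonneg_left h2 hp.le
  refine h3.trans (le_of_eq ?_)
  field_simp

theorem Hsp_cB {α β lam a K r : ℝ} {x : ℂ} (hK : 0 < K) (h : gam α / (2 * √2) * Real.log r ≤ kap α β lam r) :
    -(|x.re| + |a|) ≤ Hsp_c α β lam a K r x := by
  unfold Hsp_c
  have h1 := neg_abs_le x.re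
  have h2 := le_abs_self a
  linarith

theorem Hsp_dl {α : ℝ} (hα : 2 / 3 < α) (hα2 : α < 2) : 0 < dl α ∧ dl α ≤ 1 / 8 ∧ gg α < 1 / 2 - dl α := by
  have hα0 : 0 < α := by linarith
  obtain ⟨hg, hγ0, hγ1, hgγ⟩ := gg_pos hα0 hα2
  have hg2 := gg_lt hα hα2
  unfold dl
  have h1 : min ((2 * gam α - 1 / 2) / 2) (1 / 8) ≤ (2 * gam α - 1 / 2) / 2 := min_le_left _ _
  refine ⟨lt_min (by linarith) (by norm_num), min_le_right _ _, by linarith⟩

theorem Hsp_ev2 {α β lam : ℝ} (hα : 2 / 3 < α) (hα2 : α < 2) (hβ : 0 < β) (hlam : 0 < lam) (M : ℝ) :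
    ∀ᶠ r : ℝ in atTop, M + kap α β lam r ≤ r ^ (1 / 2 - dl α) := by
  have hα0 : 0 < α := by linarith
  obtain ⟨hg, hγ0, hγ1, hgγ⟩ := gg_pos hα0 hα2
  obtain ⟨hd0, hd1, hd2⟩ := Hsp_dl hα hα2
  have h1 : ∀ᶠ r : ℝ in atTop, |M| + Kpf_a α β lam ≤ r ^ (1 / 2 - dl α - gg α) :=
    (tendsto_rpow_atTop (by linarith)).eventually_ge_atTop _
  filter_upwards [h1, eventually_ge_atTop 1] with r h2 hr
  have hr0 : 0 < r := by linarith
  have h3 : 1 ≤ r ^ gg α := Real.one_le_rpow hr hg.le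
  rw [Kpf_kap, show 1 / 2 - dl α = (1 / 2 - dl α - gg α) + gg α by ring, Real.rpow_add hr0]
  have h4 := mul_le_mul_of_nonneg_right h2 (by linarith : 0 ≤ r ^ gg α)
  have h5 := le_abs_self M
  nlinarith [abs_nonneg M]

theorem Hsp_ev3 {α : ℝ} (hα : 2 / 3 < α) (hα2 : α < 2) (M : ℝ) :
    ∀ᶠ r : ℝ in atTop, M ≤ r ^ (1 / 2 + dl α) / 2 := by
  obtain ⟨hd0, hd1, hd2⟩ := Hsp_dl hα hα2
  filter_upwards [(tendsto_rpow_atTop (by linarith : 0 < 1 / 2 + dl α)).eventually_ge_atTop (2 * M)] with r hr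
  linarith

theorem Hsp_ev4 {α : ℝ} (hα : 2 / 3 < α) (hα2 : α < 2) {H K B η : ℝ} (hH : 0 < H) (hK : 0 < K) (hB : 0 ≤ B)
    (hη : 0 < η) :
    ∀ᶠ r : ℝ in atTop, H * (√(2 / Real.pi) * K * (2 * r ^ (1 / 2 - dl α)) / (r * √r) *
      (1 + B + 2 * r ^ (1 / 2 - dl α)) * (2 * r ^ (1 / 2 - dl α))) ≤ η := by
  obtain ⟨hd0, hd1, hd2⟩ := Hsp_dl hα hα2
  obtain ⟨M, hM⟩ : ∃ M, M = H * (4 * √(2 / Real.pi) * K * (3 + B)) := ⟨_, rfl⟩
  have hM0 : 0 < M := by rw [hM]; positivity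
  have h1 : ∀ᶠ r : ℝ in atTop, r ^ (-(3 * dl α)) ≤ η / M :=
    (tendsto_rpow_neg_atTop (by linarith : 0 < 3 * dl α)).eventually (ge_mem_nhds (by positivity))
  filter_upwards [h1, eventually_ge_atTop 1] with r h2 hr
  have hr0 : 0 < r := by linarith
  obtain ⟨q, hq⟩ : ∃ q, q = r ^ (1 / 2 - dl α) := ⟨_, rfl⟩
  have hq1 : 1 ≤ q := by rw [hq]; exact Real.one_le_rpow hr (by linarith)
  have hq3 : q * q * q = r ^ (-(3 * dl α)) * (r * √r) := by
    rw [hq, Real.sqrt_eq_rpow, ← Real.rpow_add hr0, ← Real.rpow_add hr0]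
    nth_rewrite 3 [← Real.rpow_one r]
    rw [← Real.rpow_add hr0, ← Real.rpow_add hr0]
    congr 1
    ring
  rw [← hq]
  have hrr : 0 < r * √r := by positivity
  have h3 : √(2 / Real.pi) * K * (2 * q) / (r * √r) * (1 + B + 2 * q) * (2 * q) ≤
      √(2 / Real.pi) * K * (2 * q) / (r * √r) * ((3 + B) * q) * (2 * q) := by
    have : 1 + B + 2 * q ≤ (3 + B) * q := by nlinarith
    gcongr
  have h4 : √(2 / Real.pi) * K * (2 * q) / (r * √r) * ((3 + B) * q) * (2 * q) =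
      4 * √(2 / Real.pi) * K * (3 + B) * r ^ (-(3 * dl α)) := by
    have : √(2 / Real.pi) * K * (2 * q) / (r * √r) * ((3 + B) * q) * (2 * q) =
      4 * √(2 / Real.pi) * K * (3 + B) * (q * q * q) / (r * √r) := by ring
    rw [this, hq3]
    field_simp
  calc _ ≤ H * (√(2 / Real.pi) * K * (2 * q) / (r * √r) * ((3 + B) * q) * (2 * q)) :=
        mul_le_mul_of_nonneg_left h3 hH.le
    _ = M * r ^ (-(3 * dl α)) := by rw [h4, hM]; ring
    _ ≤ M * (η / M) := mul_le_mul_of_nonneg_left h2 hM0.le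
    _ = η := by field_simp

theorem Hsp_ev5 {α : ℝ} (hα : 2 / 3 < α) (hα2 : α < 2) {H K η : ℝ} (hH : 0 < H) (hK : 0 < K) (hη : 0 < η) :
    ∀ᶠ r : ℝ in atTop, H * (4 * K * √(r + K ^ 2) / (r ^ (1 / 2 + dl α) / 2)) ≤ η := by
  obtain ⟨hd0, hd1, hd2⟩ := Hsp_dl hα hα2
  obtain ⟨M, hM⟩ : ∃ M, M = H * (8 * √2 * K) := ⟨_, rfl⟩
  have hM0 : 0 < M := by rw [hM]; positivity
  have h1 : ∀ᶠ r : ℝ in atTop, r ^ (-(dl α)) ≤ η / M :=
    (tendsto_rpow_neg_atTop hd0).eventually (ge_mem_nhds (by positivity))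
  filter_upwards [h1, eventually_ge_atTop 1, eventually_ge_atTop (K ^ 2)] with r h2 hr hrK
  have hr0 : 0 < r := by linarith
  have h3 : √(r + K ^ 2) ≤ √2 * √r := by
    rw [← Real.sqrt_mul (by norm_num)]
    exact Real.sqrt_le_sqrt (by linarith)
  have hL : 0 < r ^ (1 / 2 + dl α) := by positivity
  have h4 : √r = r ^ (-(dl α)) * r ^ (1 / 2 + dl α) := by
    rw [← Real.rpow_add hr0, Real.sqrt_eq_rpow]
    congr 1
    ring
  calc _ ≤ H * (4 * K * (√2 * √r) / (r ^ (1 / 2 + dl α) / 2)) := by gcongr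
    _ = M * r ^ (-(dl α)) := by
        rw [h4, hM]
        field_simp
        ring
    _ ≤ M * (η / M) := mul_le_mul_of_nonneg_left h2 hM0.le
    _ = η := by field_simp

theorem ms_all {b : ℝ → ℝ} {α β lam ρ C : ℝ} {φ : ℝ → ℝ} (hα : 2 / 3 < α) (hα2 : α < 2) (hβ : 0 < β)
    (h : A12 b α β) (G : GS α lam ρ C φ) (x : ℂ) (a : ℝ) {K : ℝ} (hK : 0 < K) :
    ∃ CK > 0, ∃ r0 ≥ (1 : ℝ), ∀ r, r0 ≤ r →
      Ms b K r x (fun z => ENNReal.ofReal (Ex α β lam a r z)) ≤ ENNReal.ofReal CK := by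
  have hα0 : 0 < α := by linarith
  obtain ⟨s0, hs0, C1, hC1, hst⟩ := Hsp_star hα hα2 hβ h G
  obtain ⟨r1, hr1⟩ := eventually_atTop.1 (Hsp_ev1 hα0 hα2 hβ G.lam_pos)
  obtain ⟨s, hs⟩ : ∃ s, s = max s0 ((K + |x.re|) ^ 2) := ⟨_, rfl⟩
  have hs1 : s0 ≤ s := by rw [hs]; exact le_max_left _ _
  have hs2 : (K + |x.re|) ^ 2 ≤ s := by rw [hs]; exact le_max_right _ _
  have hk := Hsp_k_pos (α := α) (β := β) (lam := lam) (a := a) (x := x) (s := s) (by linarith)
  have hB : 0 ≤ |x.re| + |a| := by positivity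
  refine ⟨C1 * Hsp_k α β lam a s x * (1 + (|x.re| + |a|) + K), by positivity, max s r1,
    le_max_of_le_left (by linarith), fun r hr => ?_⟩
  have hrs : s ≤ r := (le_max_left _ _).trans hr
  have hr0 : 0 < r := by linarith
  have h1 := (hst x K s r a hK hs1 hs2 hrs univ MeasurableSet.univ).1
  simp only [indicator_univ] at h1
  have e1 : (fun z : ℂ => ENNReal.ofReal (Ex α β lam a r z)) = fun z =>
      ENNReal.ofReal (Hsp_G (Hsp_c α β lam a K r x) (x.re + K + √2 * r - z.re)) := by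
    funext z
    rw [Hsp_Ex α β lam a K r x z]
  rw [e1]
  refine h1.trans ?_
  rw [ENNReal.ofReal_mul (show 0 ≤ C1 * Hsp_k α β lam a s x by positivity)]
  exact mul_le_mul' le_rfl (Hsp_bAll hr0 hK hB (Hsp_cB hK (hr1 r ((le_max_right _ _).trans hr))) univ)

theorem ms_bad {b : ℝ → ℝ} {α β lam ρ C : ℝ} {φ : ℝ → ℝ} (hα : 2 / 3 < α) (hα2 : α < 2) (hβ : 0 < β)
    (h : A12 b α β) (G : GS α lam ρ C φ) (x : ℂ) (a : ℝ) {K : ℝ} (hK : 0 < K) :
    ∃ CK > 0, ∀ U > 0, ∀ η > 0, ∃ r0 ≥ (1 : ℝ), ∀ r, r0 ≤ r →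
      Ms b K r x ({z | ¬ Good α β lam a U r z}.indicator fun z => ENNReal.ofReal (Ex α β lam a r z)) ≤
        ENNReal.ofReal (CK / U ^ 2 + η) := by
  have hα0 : 0 < α := by linarith
  have hb : Rate b := a12_rate hα0 h
  obtain ⟨hg, hγ0, hγ1, hgγ⟩ := gg_pos hα0 hα2
  obtain ⟨s0, hs0, C1, hC1, hst⟩ := Hsp_star hα hα2 hβ h G
  obtain ⟨s, hs⟩ : ∃ s, s = max s0 ((K + |x.re|) ^ 2) := ⟨_, rfl⟩
  have hs1 : s0 ≤ s := by rw [hs]; exact le_max_left _ _
  have hs2 : (K + |x.re|) ^ 2 ≤ s := by rw [hs]; exact le_max_right _ _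
  have hk := Hsp_k_pos (α := α) (β := β) (lam := lam) (a := a) (x := x) (s := s) (by linarith)
  obtain ⟨B, hBd⟩ : ∃ B, B = |x.re| + |a| := ⟨_, rfl⟩
  have hB : 0 ≤ B := by rw [hBd]; positivity
  obtain ⟨W, hW⟩ : ∃ W, W = C1 * (1 + (x.im ^ 2 + s) * s ^ (-2 * gam α)) * Hsp_k α β lam a s x := ⟨_, rfl⟩
  have hW0 : 0 < W := by
    rw [hW]
    have : 0 < s := by linarith
    positivity
  obtain ⟨H, hH⟩ : ∃ H, H = C1 * Hsp_k α β lam a s x := ⟨_, rfl⟩
  have hH0 : 0 < H := by rw [hH]; positivity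
  refine ⟨W * (1 + B + K), by positivity, fun U hU η hη => ?_⟩
  obtain ⟨r1, hr1⟩ := eventually_atTop.1 ((Hsp_ev1 hα0 hα2 hβ G.lam_pos).and
    ((Hsp_ev2 hα hα2 hβ G.lam_pos (|x.re| + K + |a|)).and ((Hsp_ev3 hα hα2 (1 + B)).and
      ((Hsp_ev4 hα hα2 hH0 hK hB (half_pos hη)).and (Hsp_ev5 hα hα2 hH0 hK (half_pos hη))))))
  refine ⟨max s r1, le_max_of_le_left (by linarith), fun r hr => ?_⟩
  have hrs : s ≤ r := (le_max_left _ _).trans hr
  have hr0 : 0 < r := by linarith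
  have hr1' : 1 ≤ r := by linarith
  obtain ⟨f1, f2, f3, f4, f5⟩ := hr1 r ((le_max_right _ _).trans hr)
  obtain ⟨L2, hL2⟩ : ∃ L2, L2 = 2 * r ^ (1 / 2 - dl α) := ⟨_, rfl⟩
  obtain ⟨L3, hL3⟩ : ∃ L3, L3 = r ^ (1 / 2 + dl α) / 2 := ⟨_, rfl⟩
  rw [← hL2] at f4
  rw [← hL3] at f3 f5
  obtain ⟨c, hc⟩ : ∃ c, c = Hsp_c α β lam a K r x := ⟨_, rfl⟩
  have hcB : -B ≤ c := by rw [hc, hBd]; exact Hsp_cB hK f1
  have hcU : c ≤ r ^ (1 / 2 - dl α) := by
    refine le_trans ?_ f2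
    rw [hc]
    unfold Hsp_c
    have h1 := le_abs_self x.re
    have h2 := neg_abs_le a
    have h3 : 0 ≤ gam α / (2 * √2) * Real.log r := by
      have := Real.log_nonneg hr1'
      positivity
    linarith
  have hGm := (Hsp_G_meas c).ennreal_ofReal
  have hd : Measurable fun z : ℂ => x.re + K + √2 * r - z.re := by fun_prop
  have key : ∀ z : ℂ, ({z | ¬ Good α β lam a U r z}.indicator fun z => ENNReal.ofReal (Ex α β lam a r z)) z ≤
      ENNReal.ofReal (1 / U ^ 2) * (ENNReal.ofReal (1 + z.im ^ 2 * r ^ (-2 * gam α)) *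
        univ.indicator (fun d => ENNReal.ofReal (Hsp_G c d)) (x.re + K + √2 * r - z.re)) +
      ((Iic L2).indicator (fun d => ENNReal.ofReal (Hsp_G c d)) (x.re + K + √2 * r - z.re) +
        (Ici L3).indicator (fun d => ENNReal.ofReal (Hsp_G c d)) (x.re + K + √2 * r - z.re)) := by
    intro z
    by_cases hz : z ∈ {z | ¬ Good α β lam a U r z}
    · rw [indicator_of_mem hz, Hsp_Ex α β lam a K r x z, ← hc]
      have hXi : x.re + K + √2 * r - z.re = Xi α β lam a r z + c := by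
        rw [hc, Hsp_Xi α β lam a K r x z]
        ring
      have hz' : ¬ Good α β lam a U r z := hz
      unfold Good at hz'
      by_cases h1 : |z.im| ≤ U * r ^ gam α
      · by_cases h2 : r ^ (1 / 2 - dl α) ≤ Xi α β lam a r z
        · have h3 : r ^ (1 / 2 + dl α) < Xi α β lam a r z := by
            by_contra h4
            exact hz' ⟨h1, h2, not_lt.1 h4⟩
          have h4 : x.re + K + √2 * r - z.re ∈ Ici L3 := by
            rw [hXi, mem_Ici]
            have h5 : L3 + L3 = r ^ (1 / 2 + dl α) := by rw [hL3]; ring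
            linarith
          rw [indicator_of_mem h4]
          exact le_add_left (le_add_left le_rfl)
        · have h4 : x.re + K + √2 * r - z.re ∈ Iic L2 := by
            rw [hXi, mem_Iic, hL2]
            have := not_le.1 h2
            linarith
          rw [indicator_of_mem h4]
          exact le_add_left (le_add_right le_rfl)
      · rw [indicator_univ, ← mul_assoc, ← ENNReal.ofReal_mul (by positivity)]
        refine le_add_right ?_
        refine le_mul_of_one_le_left bot_le ?_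
        rw [ENNReal.one_le_ofReal]
        have h2 : U * r ^ gam α < |z.im| := not_le.1 h1
        have h3 : (U * r ^ gam α) ^ 2 ≤ z.im ^ 2 := by
          rw [← sq_abs z.im]
          exact pow_le_pow_left₀ (by positivity) h2.le 2
        have h4 : (r ^ gam α) ^ 2 * r ^ (-2 * gam α) = 1 := by
          rw [← Real.rpow_natCast, ← Real.rpow_mul hr0.le, ← Real.rpow_add hr0]
          norm_num
          rw [show gam α * 2 + -(2 * gam α) = 0 by ring, Real.rpow_zero]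
        have h5 : U ^ 2 ≤ z.im ^ 2 * r ^ (-2 * gam α) := by
          have h6 := mul_le_mul_of_nonneg_right h3 (by positivity : 0 ≤ r ^ (-2 * gam α))
          have h7 : (U * r ^ gam α) ^ 2 * r ^ (-2 * gam α) = U ^ 2 := by
            rw [mul_pow, mul_assoc, h4, mul_one]
          rwa [h7] at h6
        rw [one_div, inv_mul_eq_div, le_div_iff₀ (by positivity)]
        linarith
    · rw [indicator_of_notMem hz]
      exact bot_le
  refine (Ms_mono key).trans ?_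
  have m1 : Measurable fun z : ℂ => (ENNReal.ofReal (1 + z.im ^ 2 * r ^ (-2 * gam α)) *
        univ.indicator (fun d => ENNReal.ofReal (Hsp_G c d)) (x.re + K + √2 * r - z.re)) := by
    simp only [indicator_univ]
    refine Measurable.mul ?_ (hGm.comp hd)
    fun_prop
  have m2 : Measurable fun z : ℂ => (Iic L2).indicator (fun d => ENNReal.ofReal (Hsp_G c d)) (x.re + K + √2 * r - z.re) :=
    (hGm.indicator measurableSet_Iic).comp hd
  rw [Ms_add hb (Measurable.const_mul m1 _), Ms_add hb m2, Ms_const_mul hb m1]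
  have g1 := (hst x K s r a hK hs1 hs2 hrs univ MeasurableSet.univ).2
  have g2 := (hst x K s r a hK hs1 hs2 hrs (Iic L2) measurableSet_Iic).1
  have g3 := (hst x K s r a hK hs1 hs2 hrs (Ici L3) measurableSet_Ici).1
  rw [← hc, ← hW] at g1
  rw [← hc, ← hH] at g2 g3
  have i1 := Hsp_bAll (c := c) hr0 hK hB hcB univ
  have i2 := Hsp_bSmall (c := c) (L := L2) hr0 hK hB hcB (by rw [hL2]; positivity)
  have i3 := Hsp_bLarge (c := c) (L := L3) hr0 hK hB hcB f3
  have j1 := mul_le_mul' (le_refl (ENNReal.ofReal (1 / U ^ 2))) (g1.trans (mul_le_mul' le_rfl i1))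
  have j2 := g2.trans (mul_le_mul' le_rfl i2)
  have j3 := g3.trans (mul_le_mul' le_rfl i3)
  have hL20 : 0 < L2 := by rw [hL2]; positivity
  have hL30 : 0 < L3 := by linarith
  rw [← ENNReal.ofReal_mul hW0.le, ← ENNReal.ofReal_mul (by positivity)] at j1
  rw [← ENNReal.ofReal_mul hH0.le] at j2 j3
  refine (add_le_add j1 (add_le_add (j2.trans (ENNReal.ofReal_le_ofReal f4))
    (j3.trans (ENNReal.ofReal_le_ofReal f5)))).trans ?_
  rw [← ENNReal.ofReal_add (by positivity) (by positivity), ← ENNReal.ofReal_add (by positivity) (by positivity)]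
  refine ENNReal.ofReal_le_ofReal (le_of_eq ?_)
  ring

theorem ms_top {b : ℝ → ℝ} {α β lam ρ C : ℝ} {φ : ℝ → ℝ} (hα : 2 / 3 < α) (hα2 : α < 2) (hβ : 0 < β)
    (h : A12 b α β) (G : GS α lam ρ C φ) (A R : ℝ) {η : ℝ} (hA : 0 < A) (hη : 0 < η) :
    ∃ a K r : ℝ, 0 < K ∧ R ≤ r ∧ 1 ≤ r ∧ a ≤ √r ∧
      ENNReal.ofReal (Real.exp (-√2 * K)) +
        ENNReal.ofReal A * Ms b K r 0 (fun z => ENNReal.ofReal (Ex α β lam a r z)) ≤ ENNReal.ofReal η := by
  have hα0 : 0 < α := by linarith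
  obtain ⟨hg, hγ0, hγ1, hgγ⟩ := gg_pos hα0 hα2
  have hg2 := gg_lt hα hα2
  obtain ⟨s0, hs0, C1, hC1, hst⟩ := Hsp_star hα hα2 hβ h G
  obtain ⟨r1, hr1⟩ := eventually_atTop.1 (Hsp_ev1 hα0 hα2 hβ G.lam_pos)
  have hl := lim0 1 (√2 * Kpf_a α β lam) 0 (2 * gg α) (q := 1) (c := √2) (by positivity) (by linarith) one_pos
  have e1 : ∀ᶠ a : ℝ in atTop, a ^ (1 : ℝ) * Real.exp (√2 * Kpf_a α β lam * a ^ (2 * gg α) +
      0 * (Real.log a) ^ 2 - √2 * a ^ (1 : ℝ)) ≤ η / 2 / (3 * A * C1) :=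
    hl.eventually (ge_mem_nhds (by positivity))
  have hl2 : Tendsto (fun a : ℝ => Real.exp (-√2 * (a / 2))) atTop (𝓝 0) := by
    refine Real.tendsto_exp_atBot.comp ?_
    have h1 : Tendsto (fun a : ℝ => √2 / 2 * a) atTop atTop := tendsto_id.const_mul_atTop (by positivity)
    refine (tendsto_neg_atTop_atBot.comp h1).congr fun a => ?_
    simp only [Function.comp]
    ring
  have e2 : ∀ᶠ a : ℝ in atTop, Real.exp (-√2 * (a / 2)) ≤ η / 2 :=
    hl2.eventually (ge_mem_nhds (by positivity))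
  obtain ⟨a, h1, h2, h3, h4⟩ := (e1.and (e2.and ((eventually_ge_atTop 1).and
    (eventually_ge_atTop (max R (max s0 r1)))))).exists
  have ha0 : 0 < a := by linarith
  have haa : a ≤ a ^ 2 := by nlinarith
  have hr0 : 0 < a ^ 2 := by positivity
  have hsr : s0 ≤ a ^ 2 := ((le_max_left _ _).trans (le_max_right _ _)).trans (h4.trans haa)
  have hr1r : r1 ≤ a ^ 2 := ((le_max_right _ _).trans (le_max_right _ _)).trans (h4.trans haa)
  refine ⟨a, a / 2, a ^ 2, by positivity, ((le_max_left _ _).trans h4).trans haa, by linarith,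
    by rw [Real.sqrt_sq ha0.le], ?_⟩
  have g1 := (hst 0 (a / 2) (a ^ 2) (a ^ 2) a (by positivity) hsr (by
    simp only [Complex.zero_re, abs_zero, add_zero]
    nlinarith) le_rfl univ MeasurableSet.univ).1
  simp only [indicator_univ] at g1
  have e3 : (fun z : ℂ => ENNReal.ofReal (Ex α β lam a (a ^ 2) z)) = fun z =>
      ENNReal.ofReal (Hsp_G (Hsp_c α β lam a (a / 2) (a ^ 2) 0) ((0 : ℂ).re + a / 2 + √2 * a ^ 2 - z.re)) := by
    funext z
    rw [Hsp_Ex α β lam a (a / 2) (a ^ 2) 0 z]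
  rw [e3]
  have i1 := Hsp_bAll (B := |(0 : ℂ).re| + |a|) hr0 (by positivity : 0 < a / 2) (by positivity)
    (Hsp_cB (x := 0) (a := a) (K := a / 2) (by positivity) (hr1 (a ^ 2) hr1r)) univ
  have hk : 0 ≤ C1 * Hsp_k α β lam a (a ^ 2) 0 := mul_nonneg hC1.le (Hsp_k_pos hr0).le
  have i2 := g1.trans (mul_le_mul' le_rfl i1)
  rw [← ENNReal.ofReal_mul hk] at i2
  have i3 := mul_le_mul' (le_refl (ENNReal.ofReal A)) i2
  rw [← ENNReal.ofReal_mul hA.le] at i3
  refine (add_le_add (ENNReal.ofReal_le_ofReal h2) i3).trans ?_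
  have hk2 : Hsp_k α β lam a (a ^ 2) 0 ≤ Real.exp (√2 * Kpf_a α β lam * a ^ (2 * gg α) - √2 * a) := by
    unfold Hsp_k
    have j1 : (a ^ 2) ^ (-(gam α / 2)) ≤ 1 := Real.rpow_le_one_of_one_le_of_nonpos (by linarith) (by linarith)
    have j2 : kap α β lam (a ^ 2) = Kpf_a α β lam * a ^ (2 * gg α) := by
      rw [Kpf_kap, ← Real.rpow_natCast a 2, ← Real.rpow_mul ha0.le]
      norm_num
    rw [j2, Complex.zero_re]
    calc _ ≤ 1 * Real.exp (√2 * (Kpf_a α β lam * a ^ (2 * gg α))) * Real.exp (√2 * (0 - a)) := by gcongr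
      _ = _ := by
        rw [one_mul, ← Real.exp_add]
        congr 1
        ring
  have hE : 0 < Real.exp (√2 * Kpf_a α β lam * a ^ (2 * gg α) - √2 * a) := Real.exp_pos _
  rw [Real.rpow_one, zero_mul, add_zero, le_div_iff₀ (by positivity)] at h1
  rw [← ENNReal.ofReal_add (by positivity) (by
    have : 0 ≤ |(0 : ℂ).re| + |a| := by positivity
    positivity)]
  refine ENNReal.ofReal_le_ofReal ?_
  rw [Complex.zero_re, abs_zero, zero_add, abs_of_pos ha0]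
  have j3 : A * (C1 * Hsp_k α β lam a (a ^ 2) 0 * (1 + a + a / 2)) ≤
      A * (C1 * Real.exp (√2 * Kpf_a α β lam * a ^ (2 * gg α) - √2 * a) * (3 * a)) := by
    have : 1 + a + a / 2 ≤ 3 * a := by linarith
    gcongr
  have j4 : A * (C1 * Real.exp (√2 * Kpf_a α β lam * a ^ (2 * gg α) - √2 * a) * (3 * a)) =
      a * Real.exp (√2 * Kpf_a α β lam * a ^ (2 * gg α) - √2 * a) * (3 * A * C1) := by ring
  linarith

end Pool.H50.BB
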