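import Pool.Agent.H50.BB.Ul
import Pool.Agent.H50.BB.Hsp
import Pool.Agent.H50.BB.Hrf

/-!
# Row Hlim: the limit exists for the rightmost abscissa   (about 240 lines; may be split)

`X_t(z) = mm t + a - re z - MM κ γ r t = Xi z + (3/(2√2)) (log(t-r+1) - log t) → Xi z` (unfold `mm`, `MM`; `(3-γ) + γ = 3`), so by `apb` (`a ≤ √r`):
`apb_ev`: for every `z` and `δ > 0`, for t large `vf b (HP (mm t + a)) (t - r) z ≤ A Ex z + δ` (continuity of `X ↦ A(1 + max 0 X)e^{-√2X}`).
`ms_hik` (`r > 0`, `K > 0`, `0 ≤ D z ≤ 1`): `hik` with `s = 0, t = r` reads `ofReal (u 0 x) ≤ e^{-√2K} + Ms b K r x (fun z => ofReal (u r z))`.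
`h_cau`: `u q z = |vf b (HP (mm t + a)) (t - q) z - vf b (HP (mm t' + a)) (t' - q) z|` (`vdiff_subfk`, `t, t' ≥ r`).  Given `η > 0`: `K` with `e^{-√2K} ≤ η`; `CK` from `ms_all`, `CK'`, `ms_bad`; `U` with `2A CK'/U² ≤ η`; `ε = η/CK`; `r` large
for `ms_all`, `ms_bad` (with `η/(2A)`), `ul_diff` (with `U, ε`), `apb` and `a ≤ √r`.  `R z = ε Ex z` if `Good z`, `2A Ex z` otherwise (`Xi ≤ 1 + max 0 Xi`).  `rev_fatou` for the finite measure
`(W2.restrict {w.1 ∈ Blw K √2 r}).withDensity (ofReal (exp ∫ b))` (total mass `≤ e^r`), the filter `atTop ×ˢ atTop`, `D p w = u_p (x + pt w r)`: pointwise hypothesis by `ul_diff` (good) and `apb_ev` twice (bad):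
for `p` large `|vf(p.1) - vf(p.2)|(x) ≤ η + ε CK + 2A(CK'/U² + η/(2A)) + η ≤ 5η`.
`h_lim`: Cauchy (`cauchy_map_iff`, completeness of `ℝ`).
`h_top`: `apb` gives `s0, A`; `ms_top` with `A + 1`, `R = s0`, `η/2` gives `a, K, r`; `u q z = vf b (HP (mm t + a)) (t - q) z` (`v_subfk`), `ms_hik`, `rev_fatou` with `R z = A Ex z`, `δ = η/2`: for t large `vf .. t 0 ≤ η`.
-/

open MeasureTheory ProbabilityTheory Set Filter Topology
open scoped NNReal ENNReal

namespace Pool.H50.BB

open Pool.Agent.H4.BM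

/-- weighted measure on planar paths -/
noncomputable def Hlim_mu (b : ℝ → ℝ) (K r : ℝ) (x : ℂ) : Measure P2 :=
  (W2.restrict {w : P2 | w.1 ∈ Blw K √2 r}).withDensity fun w =>
    ENNReal.ofReal (Real.exp (∫ u in (0 : ℝ)..r, b (Complex.arg (x + pt w u))))

theorem Hlim_dens {b : ℝ → ℝ} (hb : Rate b) (r : ℝ) (x : ℂ) :
    Measurable fun w : P2 => ENNReal.ofReal (Real.exp (∫ u in (0 : ℝ)..r, b (Complex.arg (x + pt w u)))) := by
  have h1 : Measurable fun w : P2 => clock b w x r := by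
    have h2 : Measurable fun w : P2 => ((w, x, r) : P2 × ℂ × ℝ) := by fun_prop
    exact (clock_meas hb).comp h2
  exact ENNReal.measurable_ofReal.comp (Real.measurable_exp.comp h1)

theorem Hlim_pos (r : ℝ) (x : ℂ) : Measurable fun w : P2 => x + pt w r := by
  have h2 : Measurable fun w : P2 => ((w, r) : P2 × ℝ) := by fun_prop
  exact measurable_const.add (pt_meas.comp h2)

theorem Hlim_ms_eq {b : ℝ → ℝ} (hb : Rate b) (K r : ℝ) (x : ℂ) {Φ : ℂ → ℝ≥0∞} (hΦ : Measurable Φ) :
    Ms b K r x Φ = ∫⁻ w, Φ (x + pt w r) ∂(Hlim_mu b K r x) := by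
  unfold Hlim_mu
  have h1 : Measurable fun w : P2 => Φ (x + pt w r) := hΦ.comp (Hlim_pos r x)
  rw [lintegral_withDensity_eq_lintegral_mul _ (Hlim_dens hb r x) h1]
  rfl

theorem Hlim_fin {b : ℝ → ℝ} (hb : Rate b) (K : ℝ) {r : ℝ} (hr : 0 ≤ r) (x : ℂ) :
    IsFiniteMeasure (Hlim_mu b K r x) := by
  refine ⟨?_⟩
  unfold Hlim_mu
  rw [withDensity_apply _ MeasurableSet.univ]
  refine (lintegral_mono (g := fun _ => ENNReal.ofReal (Real.exp r)) fun w => ?_).trans_lt ?_
  · refine ENNReal.ofReal_le_ofReal (Real.exp_le_exp.2 ?_)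
    exact clock_le hb w x hr
  · rw [lintegral_const]
    exact ENNReal.mul_lt_top ENNReal.ofReal_lt_top (measure_lt_top _ _)

theorem Hlim_Xi_meas (α β lam a r : ℝ) : Measurable (Xi α β lam a r) := by
  unfold Xi
  exact measurable_const.sub Complex.measurable_re

theorem Hlim_Ex_meas (α β lam a r : ℝ) : Measurable (Ex α β lam a r) := by
  unfold Ex
  have h := Hlim_Xi_meas α β lam a r
  exact (measurable_const.add (measurable_const.max h)).mul
    (Real.measurable_exp.comp (measurable_const.mul h))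

theorem Hlim_Ex_nonneg (α β lam a r : ℝ) (z : ℂ) : 0 ≤ Ex α β lam a r z := by
  unfold Ex
  have : 0 ≤ max 0 (Xi α β lam a r z) := le_max_left _ _
  have := Real.exp_pos (-√2 * Xi α β lam a r z)
  positivity

theorem Hlim_good_meas (α β lam a U r : ℝ) : MeasurableSet {z | Good α β lam a U r z} := by
  unfold Good
  have h := Hlim_Xi_meas α β lam a r
  refine MeasurableSet.inter ?_ (MeasurableSet.inter ?_ ?_)
  · exact measurableSet_le (by
      have : Measurable fun z : ℂ => |z.im| := Complex.measurable_im.abs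
      exact this) measurable_const
  · exact measurableSet_le measurable_const h
  · exact measurableSet_le h measurable_const

theorem Hlim_ev {b : ℝ → ℝ} {α β lam A s0 a r : ℝ} (hr1 : 1 ≤ r) (hr : s0 ≤ r) (ha : a ≤ √r)
    (hA : ∀ s t a : ℝ, s0 ≤ s → s ≤ t → a ≤ √s → ∀ x : ℂ,
      vf b (HP (mm α β lam t + a)) (t - s) x ≤
        A * (1 + max 0 (mm α β lam t + a - x.re - MM (kap α β lam) (gam α) s t)) *
          Real.exp (-√2 * (mm α β lam t + a - x.re - MM (kap α β lam) (gam α) s t)))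
    (z : ℂ) {δ : ℝ} (hδ : 0 < δ) :
    ∀ᶠ t in atTop, vf b (HP (mm α β lam t + a)) (t - r) z ≤ A * Ex α β lam a r z + δ := by
  have hlim : Tendsto (fun t : ℝ => Xi α β lam a r z +
      3 / (2 * √2) * (Real.log (t + (1 - r)) - Real.log t)) atTop (𝓝 (Xi α β lam a r z)) := by
    have h1 := (Real.tendsto_log_comp_add_sub_log (1 - r)).const_mul (3 / (2 * √2))
    have h2 := h1.const_add (Xi α β lam a r z)
    simpa using h2
  have hcont : Continuous fun X : ℝ => A * (1 + max 0 X) * Real.exp (-√2 * X) := by fun_prop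
  have h3 := (hcont.tendsto (Xi α β lam a r z)).comp hlim
  have h4 : ∀ᶠ t : ℝ in atTop, A * (1 + max 0 (Xi α β lam a r z +
      3 / (2 * √2) * (Real.log (t + (1 - r)) - Real.log t))) * Real.exp (-√2 * (Xi α β lam a r z +
      3 / (2 * √2) * (Real.log (t + (1 - r)) - Real.log t))) <
      A * (1 + max 0 (Xi α β lam a r z)) * Real.exp (-√2 * Xi α β lam a r z) + δ :=
    h3.eventually (eventually_lt_nhds (by linarith))
  filter_upwards [h4, eventually_ge_atTop r] with t ht htr
  have h5 := hA r t a hr htr ha z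
  have e : mm α β lam t + a - z.re - MM (kap α β lam) (gam α) r t = Xi α β lam a r z +
      3 / (2 * √2) * (Real.log (t + (1 - r)) - Real.log t) := by
    unfold mm MM Xi
    rw [Real.log_div (by linarith) (by linarith)]
    have e1 : t - r + 1 = t + (1 - r) := by ring
    rw [e1]
    ring
  rw [e] at h5
  refine h5.trans ?_
  unfold Ex
  rw [← mul_assoc]
  exact ht.le

theorem Hlim_hik {b : ℝ → ℝ} (hb : Rate b) {r : ℝ} (hr : 0 < r) {u : ℝ → ℂ → ℝ}
    (hu : SubFK (fun z => b (Complex.arg z)) 0 r u) {K : ℝ} (hK : 0 < K) (x : ℂ) :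
    ENNReal.ofReal (u 0 x) ≤ ENNReal.ofReal (Real.exp (-√2 * K)) +
      ∫⁻ w, ENNReal.ofReal (u r (x + pt w r)) ∂(Hlim_mu b K r x) := by
  have h := hik hr hu hK x
  have hm : Measurable fun z : ℂ => ENNReal.ofReal (u r z) := by
    have h1 : Measurable fun z : ℂ => ((r, z) : ℝ × ℂ) := by fun_prop
    exact ENNReal.measurable_ofReal.comp (hu.meas.comp h1)
  rw [← Hlim_ms_eq hb K r x hm]
  refine h.trans (le_of_eq ?_)
  congr 1
  unfold Ms
  simp only [sub_zero]
  refine lintegral_congr fun w => ?_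
  rw [ENNReal.ofReal_mul (Real.exp_pos _).le]

theorem h_cau {b : ℝ → ℝ} {α β lam ρ C : ℝ} {φ : ℝ → ℝ} (hα : 2 / 3 < α) (hα2 : α < 2) (hβ : 0 < β)
    (h : A12 b α β) (G : GS α lam ρ C φ) (a : ℝ) (x : ℂ) {η : ℝ} (hη : 0 < η) :
    ∀ᶠ p : ℝ × ℝ in atTop ×ˢ atTop,
      |vf b (HP (mm α β lam p.1 + a)) p.1 x - vf b (HP (mm α β lam p.2 + a)) p.2 x| ≤ η := by
  have hb : Rate b := a12_rate (by linarith) h
  obtain ⟨s0, hs01, A, hA1, hA⟩ := apb hα hα2 hβ h G
  have h2 : (0 : ℝ) < √2 := by positivity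
  -- choice of K
  obtain ⟨K, hK, hKe⟩ : ∃ K : ℝ, 0 < K ∧ Real.exp (-√2 * K) ≤ η / 5 := by
    refine ⟨max 1 (-(Real.log (η / 5)) / √2), lt_max_of_lt_left one_pos, ?_⟩
    rw [← Real.le_log_iff_exp_le (by positivity)]
    have h3 : -(Real.log (η / 5)) / √2 ≤ max 1 (-(Real.log (η / 5)) / √2) := le_max_right _ _
    rw [div_le_iff₀ h2] at h3
    linarith
  obtain ⟨CK, hCK, ra, hra, hall⟩ := ms_all hα hα2 hβ h G x a hK
  obtain ⟨CB, hCB, hbad⟩ := ms_bad hα hα2 hβ h G x a hK
  have hA0 : 0 < A := by linarith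
  obtain ⟨U, hU, hUe⟩ : ∃ U : ℝ, 0 < U ∧ 2 * A * (CB / U ^ 2) ≤ η / 5 := by
    refine ⟨√(10 * A * CB / η), Real.sqrt_pos.2 (by positivity), ?_⟩
    rw [Real.sq_sqrt (by positivity)]
    apply le_of_eq
    field_simp
    ring
  obtain ⟨rb, hrb, hbad⟩ := hbad U hU (η / (10 * A)) (by positivity)
  obtain ⟨rc, hrc, hgood⟩ := ul_diff hα hα2 hβ h G a hU (ε := η / (5 * CK)) (by positivity)
  obtain ⟨r, hr1, hrs, hrA, hrB, hrC, hra'⟩ : ∃ r : ℝ, 1 ≤ r ∧ s0 ≤ r ∧ ra ≤ r ∧ rb ≤ r ∧ rc ≤ r ∧ a ≤ √r := by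
    refine ⟨max (max s0 ra) (max (max rb rc) (a ^ 2)), ?_, ?_, ?_, ?_, ?_, ?_⟩
    · exact hs01.trans ((le_max_left _ _).trans (le_max_left _ _))
    · exact (le_max_left _ _).trans (le_max_left _ _)
    · exact (le_max_right _ _).trans (le_max_left _ _)
    · exact (le_max_left _ _).trans ((le_max_left _ _).trans (le_max_right _ _))
    · exact (le_max_right _ _).trans ((le_max_left _ _).trans (le_max_right _ _))
    · refine (le_abs_self a).trans (Real.abs_le_sqrt ?_)
      exact (le_max_right _ _).trans (le_max_right _ _)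
  have hr0 : 0 < r := by linarith
  have := Hlim_fin hb K hr0.le x
  set D : ℝ × ℝ → P2 → ℝ := fun p w =>
    |vf b (HP (mm α β lam p.1 + a)) (p.1 - r) (x + pt w r) -
      vf b (HP (mm α β lam p.2 + a)) (p.2 - r) (x + pt w r)| with hD
  set Rf : ℂ → ℝ := fun z => η / (5 * CK) * Ex α β lam a r z +
    ({z | ¬ Good α β lam a U r z}.indicator (fun z => 2 * A * Ex α β lam a r z)) z with hRf
  have hbm : MeasurableSet {z | ¬ Good α β lam a U r z} := (Hlim_good_meas α β lam a U r).compl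
  have hRm : Measurable Rf :=
    (measurable_const.mul (Hlim_Ex_meas α β lam a r)).add
      ((measurable_const.mul (Hlim_Ex_meas α β lam a r)).indicator hbm)
  have hR0 : ∀ z, 0 ≤ Rf z := fun z => by
    have h4 := Hlim_Ex_nonneg α β lam a r z
    refine add_nonneg (by positivity) (Set.indicator_nonneg (fun z _ => ?_) z)
    have h4 := Hlim_Ex_nonneg α β lam a r z
    positivity
  have hvm : ∀ c : ℝ, Measurable fun z : ℂ => vf b (HP (mm α β lam c + a)) (c - r) z := fun c => by
    have h1 : Measurable fun z : ℂ => ((c - r, z) : ℝ × ℂ) := by fun_prop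
    exact (vf_meas hb (HP_meas _)).comp h1
  have hDm : ∀ p, Measurable (D p) := fun p =>
    (((hvm p.1).comp (Hlim_pos r x)).sub ((hvm p.2).comp (Hlim_pos r x))).abs
  have hD1 : ∀ p w, D p w ≤ 1 := fun p w => by
    have a1 := vf_nonneg b (HP (mm α β lam p.1 + a)) (p.1 - r) (x + pt w r)
    have a2 := vf_le_one b (HP (mm α β lam p.1 + a)) (p.1 - r) (x + pt w r)
    have a3 := vf_nonneg b (HP (mm α β lam p.2 + a)) (p.2 - r) (x + pt w r)
    have a4 := vf_le_one b (HP (mm α β lam p.2 + a)) (p.2 - r) (x + pt w r)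
    simp only [hD]
    rw [abs_le]
    constructor <;> linarith
  have hpt : ∀ w, ∀ δ > 0, ∀ᶠ p in (atTop ×ˢ atTop : Filter (ℝ × ℝ)), D p w ≤ Rf (x + pt w r) + δ := by
    intro w δ hδ
    by_cases hg : Good α β lam a U r (x + pt w r)
    · filter_upwards [hgood r hrC _ hg] with p hp
      have e : Rf (x + pt w r) = η / (5 * CK) * Ex α β lam a r (x + pt w r) := by
        simp only [hRf]
        rw [Set.indicator_of_notMem (by simpa using hg), add_zero]
      rw [e]
      refine hp.trans ?_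
      have h5 : Xi α β lam a r (x + pt w r) * Real.exp (-√2 * Xi α β lam a r (x + pt w r)) ≤
          Ex α β lam a r (x + pt w r) := by
        unfold Ex
        refine mul_le_mul_of_nonneg_right ?_ (Real.exp_pos _).le
        linarith [le_max_right 0 (Xi α β lam a r (x + pt w r))]
      have h6 := mul_le_mul_of_nonneg_left h5 (by positivity : 0 ≤ η / (5 * CK))
      linarith
    · have e := Hlim_ev hr1 hrs hra' hA (x + pt w r) (half_pos hδ)
      have e1 := e.prod_inl (atTop : Filter ℝ)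
      have e2 := e.prod_inr (atTop : Filter ℝ)
      filter_upwards [e1, e2] with p hp1 hp2
      have e : Rf (x + pt w r) = η / (5 * CK) * Ex α β lam a r (x + pt w r) +
          2 * A * Ex α β lam a r (x + pt w r) := by
        simp only [hRf]
        rw [Set.indicator_of_mem (by simpa using hg)]
      rw [e]
      have a1 := vf_nonneg b (HP (mm α β lam p.1 + a)) (p.1 - r) (x + pt w r)
      have a3 := vf_nonneg b (HP (mm α β lam p.2 + a)) (p.2 - r) (x + pt w r)
      have h4 := Hlim_Ex_nonneg α β lam a r (x + pt w r)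
      have h5 : 0 ≤ η / (5 * CK) * Ex α β lam a r (x + pt w r) := by positivity
      have h6 : 0 ≤ A * Ex α β lam a r (x + pt w r) := by positivity
      simp only [hD]
      rw [abs_le]
      constructor <;> linarith
  have hrf := rev_fatou (μ := Hlim_mu b K r x) (l := (atTop ×ˢ atTop : Filter (ℝ × ℝ))) (D := D)
    (R := fun w => Rf (x + pt w r)) (Eventually.of_forall hDm) (hRm.comp (Hlim_pos r x))
    (fun w => hR0 _) hD1 hpt (δ := η / 5) (by positivity)
  have hR : ∫⁻ w, ENNReal.ofReal (Rf (x + pt w r)) ∂(Hlim_mu b K r x) ≤ ENNReal.ofReal (3 * (η / 5)) := by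
    have e1 : ∀ z, ENNReal.ofReal (Rf z) = ENNReal.ofReal (η / (5 * CK)) * ENNReal.ofReal (Ex α β lam a r z) +
        ENNReal.ofReal (2 * A) * ({z | ¬ Good α β lam a U r z}.indicator
          (fun z => ENNReal.ofReal (Ex α β lam a r z))) z := by
      intro z
      have h4 := Hlim_Ex_nonneg α β lam a r z
      by_cases hg : z ∈ {z | ¬ Good α β lam a U r z}
      · simp only [hRf]
        rw [Set.indicator_of_mem hg, Set.indicator_of_mem hg, ENNReal.ofReal_add (by positivity) (by positivity),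
          ENNReal.ofReal_mul (by positivity), ENNReal.ofReal_mul (p := 2 * A) (by positivity)]
      · simp only [hRf]
        rw [Set.indicator_of_notMem hg, Set.indicator_of_notMem hg, add_zero, mul_zero, add_zero,
          ENNReal.ofReal_mul (by positivity)]
    simp only [e1]
    have m1 : Measurable fun z => ENNReal.ofReal (Ex α β lam a r z) :=
      ENNReal.measurable_ofReal.comp (Hlim_Ex_meas α β lam a r)
    have m2 : Measurable ({z | ¬ Good α β lam a U r z}.indicator
          (fun z => ENNReal.ofReal (Ex α β lam a r z))) := m1.indicator hbm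
    have m1' : Measurable fun w : P2 => ENNReal.ofReal (Ex α β lam a r (x + pt w r)) := m1.comp (Hlim_pos r x)
    have m2' : Measurable fun w : P2 => ({z | ¬ Good α β lam a U r z}.indicator
          (fun z => ENNReal.ofReal (Ex α β lam a r z))) (x + pt w r) := m2.comp (Hlim_pos r x)
    rw [lintegral_add_left (m1'.const_mul _), lintegral_const_mul _ m1',
      lintegral_const_mul _ m2', ← Hlim_ms_eq hb K r x m1, ← Hlim_ms_eq hb K r x m2]
    calc _ ≤ ENNReal.ofReal (η / (5 * CK)) * ENNReal.ofReal CK +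
          ENNReal.ofReal (2 * A) * ENNReal.ofReal (CB / U ^ 2 + η / (10 * A)) :=
          add_le_add (mul_le_mul' le_rfl (hall r hrA)) (mul_le_mul' le_rfl (hbad r hrB))
      _ = ENNReal.ofReal (η / (5 * CK) * CK + 2 * A * (CB / U ^ 2 + η / (10 * A))) := by
          rw [← ENNReal.ofReal_mul (by positivity), ← ENNReal.ofReal_mul (by positivity),
            ← ENNReal.ofReal_add (by positivity) (by positivity)]
      _ ≤ _ := by
          refine ENNReal.ofReal_le_ofReal ?_
          have e2 : η / (5 * CK) * CK = η / 5 := by field_simp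
          have e3 : 2 * A * (CB / U ^ 2 + η / (10 * A)) = 2 * A * (CB / U ^ 2) + η / 5 := by
            field_simp
            ring
          rw [e2, e3]
          linarith
  have hge : ∀ᶠ p in (atTop ×ˢ atTop : Filter (ℝ × ℝ)), r ≤ p.1 ∧ r ≤ p.2 :=
    ((eventually_ge_atTop r).prod_inl _).and ((eventually_ge_atTop r).prod_inr _)
  filter_upwards [hrf, hge] with p hp hpr
  have hs := vdiff_subfk hb (HP_meas (mm α β lam p.1 + a)) (HP_meas (mm α β lam p.2 + a)) 0 r p.1 p.2 hpr.1 hpr.2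
  have h7 := Hlim_hik hb hr0 hs hK x
  simp only [sub_zero] at h7
  have h8 : ENNReal.ofReal |vf b (HP (mm α β lam p.1 + a)) p.1 x - vf b (HP (mm α β lam p.2 + a)) p.2 x| ≤
      ENNReal.ofReal η := by
    refine h7.trans ?_
    calc _ ≤ ENNReal.ofReal (η / 5) + (ENNReal.ofReal (3 * (η / 5)) + ENNReal.ofReal (η / 5)) := by
          refine add_le_add (ENNReal.ofReal_le_ofReal hKe) (hp.trans (add_le_add hR le_rfl))
      _ = ENNReal.ofReal (η / 5 + (3 * (η / 5) + η / 5)) := by
          rw [← ENNReal.ofReal_add (by positivity) (by positivity),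
            ← ENNReal.ofReal_add (by positivity) (by positivity)]
      _ = _ := by congr 1; ring
  exact (ENNReal.ofReal_le_ofReal_iff hη.le).1 h8

theorem h_lim {b : ℝ → ℝ} {α β lam ρ C : ℝ} {φ : ℝ → ℝ} (hα : 2 / 3 < α) (hα2 : α < 2) (hβ : 0 < β)
    (h : A12 b α β) (G : GS α lam ρ C φ) (a : ℝ) (x : ℂ) :
    ∃ L : ℝ, Tendsto (fun t => vf b (HP (mm α β lam t + a)) t x) atTop (𝓝 L) := by
  have hc : Cauchy (map (fun t => vf b (HP (mm α β lam t + a)) t x) atTop) := by
    rw [cauchy_map_iff]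
    refine ⟨inferInstance, ?_⟩
    rw [Metric.uniformity_basis_dist_le.tendsto_right_iff]
    intro ε hε
    filter_upwards [h_cau hα hα2 hβ h G a x hε] with p hp
    exact hp
  exact CompleteSpace.complete hc

theorem h_top {b : ℝ → ℝ} {α β lam ρ C : ℝ} {φ : ℝ → ℝ} (hα : 2 / 3 < α) (hα2 : α < 2) (hβ : 0 < β)
    (h : A12 b α β) (G : GS α lam ρ C φ) {η : ℝ} (hη : 0 < η) :
    ∃ a : ℝ, ∀ᶠ t in atTop, vf b (HP (mm α β lam t + a)) t 0 ≤ η := by
  have hb : Rate b := a12_rate (by linarith) h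
  obtain ⟨s0, hs01, A, hA1, hA⟩ := apb hα hα2 hβ h G
  have hA0 : 0 < A := by linarith
  obtain ⟨a, K, r, hK, hrs, hr1, har, htop⟩ := ms_top hα hα2 hβ h G A s0 hA0 (half_pos hη)
  refine ⟨a, ?_⟩
  have hr0 : 0 < r := by linarith
  have := Hlim_fin hb K hr0.le 0
  set D : ℝ → P2 → ℝ := fun t w => vf b (HP (mm α β lam t + a)) (t - r) (0 + pt w r) with hD
  have hvm : ∀ c : ℝ, Measurable fun z : ℂ => vf b (HP (mm α β lam c + a)) (c - r) z := fun c => by
    have h1 : Measurable fun z : ℂ => ((c - r, z) : ℝ × ℂ) := by fun_prop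
    exact (vf_meas hb (HP_meas _)).comp h1
  have m1 : Measurable fun z => ENNReal.ofReal (Ex α β lam a r z) :=
    ENNReal.measurable_ofReal.comp (Hlim_Ex_meas α β lam a r)
  have hrf := rev_fatou (μ := Hlim_mu b K r 0) (l := (atTop : Filter ℝ)) (D := D)
    (R := fun w => A * Ex α β lam a r (0 + pt w r))
    (Eventually.of_forall fun t => (hvm t).comp (Hlim_pos r 0))
    (((Hlim_Ex_meas α β lam a r).const_mul A).comp (Hlim_pos r 0))
    (fun w => mul_nonneg hA0.le (Hlim_Ex_nonneg α β lam a r _)) (fun t w => vf_le_one _ _ _ _)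
    (fun w δ hδ => Hlim_ev hr1 hrs har hA (0 + pt w r) hδ) (δ := η / 2) (by positivity)
  filter_upwards [hrf, eventually_ge_atTop r] with t ht htr
  have hs := v_subfk hb (HP_meas (mm α β lam t + a)) 0 t
  have hs' : SubFK (fun z => b (Complex.arg z)) 0 r (fun q x => vf b (HP (mm α β lam t + a)) (t - q) x) :=
    { kmeas := hs.kmeas
      knonneg := hs.knonneg
      kle := hs.kle
      meas := hs.meas
      nonneg := hs.nonneg
      le_one := hs.le_one
      sub := fun q q' h1 h2 h3 x => hs.sub q q' h1 h2 (h3.trans htr) x }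
  have h7 := Hlim_hik hb hr0 hs' hK 0
  simp only [sub_zero] at h7
  have h8 : ENNReal.ofReal (vf b (HP (mm α β lam t + a)) t 0) ≤ ENNReal.ofReal η := by
    refine h7.trans ?_
    refine (add_le_add le_rfl ht).trans ?_
    have e1 : ∫⁻ w, ENNReal.ofReal (A * Ex α β lam a r (0 + pt w r)) ∂(Hlim_mu b K r 0) =
        ENNReal.ofReal A * Ms b K r 0 (fun z => ENNReal.ofReal (Ex α β lam a r z)) := by
      have m1' : Measurable fun w : P2 => ENNReal.ofReal (Ex α β lam a r (0 + pt w r)) := m1.comp (Hlim_pos r 0)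
      rw [Hlim_ms_eq hb K r 0 m1, ← lintegral_const_mul _ m1']
      refine lintegral_congr fun w => ?_
      rw [ENNReal.ofReal_mul hA0.le]
    rw [e1, ← add_assoc]
    refine (add_le_add htop le_rfl).trans (le_of_eq ?_)
    rw [← ENNReal.ofReal_add (by positivity) (by positivity), add_halves]
  exact (ENNReal.ofReal_le_ofReal_iff hη.le).1 h8

end Pool.H50.BB
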