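import Pool.Agent.H50.BB.Ap

/-!
# Row Hms: the weighted mass below a line of slope `√2`   (about 200 lines)

`Gm_start` (`0 ≤ s ≤ r`): Markov property at time `s`; copy the proof of `Gm_markov` (Gmk.lean), the weight is only on `[s,r]`.
`ms_bound`: `qlo` gives `Cf, ζ, η, s1`, `y1` gives `s2, C1`; `s0` their maximum.  Let `c q y = if s ≤ q then cfl α β Cf ζ η q y else 0` (measurable, `≥ 0`).
For `q ≥ s` and `re z ≤ re x + K + √2 q`: `re x + K ≤ √s ≤ √q + 1`, so `cfl q (im z) ≤ 1 - b(arg z)` (`qlo`); for `q < s`: `b ≤ 1`.  `cfl q y ≤ 1`: `qlo` at `z = ⟨0,y⟩`.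
`Hi_pt` (with `s := 0, t := r, D := K, μ := √2, σ := r`): on `w.1 ∈ Blw K √2 r`: `exp(∫_0^r b) ≤ e^r exp(-∫_0^r c q (im x + w.2 q) dq)`, and `∫_0^r c = ∫_s^r cfl` (the integral over `[0,s]` vanishes).
`Hi_prod` and product of integrals: `Ms ≤ e^r (∫⁻_{Blw K √2 r} F (K + √2 r - w r) dWm) (∫⁻ exp(-∫_s^r cfl) ψ(im x + w r) dWm)` with `re x + K + √2 r - re (x + pt w r) = K + √2 r - w.1 r`, `ψ = 1` or `ψ z = ofReal(1 + z² r^{-2γ})`.
Radial factor: `kline` with `μ = √2`, `D = K`: `∫⁻_{d>0} F d ofReal(exp(√2(d-K) - r) kk r K d)`.  Lateral factor: `Gm_start` and `y1`; in the second case `∫⁻ ofReal(1 + (im x + w s)² s^{-2γ}) dWm = 1 + (im x² + s) s^{-2γ}` (Gaussian, `≤` is enough;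
`marg` and `gm_two` or the moments of `gaussianReal`).
-/

open MeasureTheory ProbabilityTheory Set Filter Topology
open scoped NNReal ENNReal

namespace Pool.H50.BB

open Pool.Agent.H4.BM

/-- weighted mass of the planar motion that stays below the line of slope `√2` -/
noncomputable def Ms (b : ℝ → ℝ) (K r : ℝ) (x : ℂ) (Φ : ℂ → ℝ≥0∞) : ℝ≥0∞ :=
  ∫⁻ w in {w : P2 | w.1 ∈ Blw K √2 r},
    ENNReal.ofReal (Real.exp (∫ u in (0 : ℝ)..r, b (Complex.arg (x + pt w u)))) * Φ (x + pt w r) ∂W2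

theorem Gm_start {c : ℝ → ℝ → ℝ} (hc : Continuous (Function.uncurry c)) {f : ℝ → ℝ≥0∞} (hf : Measurable f)
    {s r : ℝ} (hs : 0 ≤ s) (hsr : s ≤ r) (y : ℝ) :
    ∫⁻ w, ENNReal.ofReal (Real.exp (-∫ q in s..r, c q (y + w q))) * f (y + w r) ∂Wm =
      ∫⁻ w, Gm c s r f (y + w s) ∂Wm := by
  obtain ⟨a, ha⟩ : ∃ a : ℝ≥0, (a : ℝ) = s := ⟨⟨s, hs⟩, rfl⟩
  let G : Pth × Pth → ℝ≥0∞ := fun p =>
    ENNReal.ofReal (Real.exp (-∫ q in s..r, c q ((y + p.1 a) + p.2 (q - s)))) *
      f ((y + p.1 a) + p.2 (r - s))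
  have mA : Measurable fun p : Pth × Pth => y + p.1 a :=
    measurable_const.add ((Pth.measurable_apply a).comp measurable_fst)
  have hG : Measurable G := by
    refine (gmk_wt hc measurable_const measurable_const measurable_const mA
      measurable_snd).mul (hf.comp (mA.add ?_))
    exact (Pth.measurable_apply (r - s)).comp measurable_snd
  have e1 : ∀ w : Pth, ENNReal.ofReal (Real.exp (-∫ q in s..r, c q (y + w q))) * f (y + w r) =
      G (Pth.stop a w, Pth.shift a w) := by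
    intro w
    have hst : Pth.stop a w a = w a := by rw [Pth.stop_apply, min_self]
    have i2 : ∫ q in s..r, c q ((y + Pth.stop a w a) + Pth.shift a w (q - s)) =
        ∫ q in s..r, c q (y + w q) := by
      refine intervalIntegral.integral_congr fun q hq => ?_
      rw [uIcc_of_le hsr] at hq
      change c q ((y + Pth.stop a w a) + Pth.shift a w (q - s)) = c q (y + w q)
      rw [hst, Pth.shift_apply_of_nonneg _ _ (by linarith [hq.1])]
      congr 1
      have : (a : ℝ) + (q - s) = q := by rw [ha]; ring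
      rw [this]
      ring
    have i3 : (y + Pth.stop a w a) + Pth.shift a w (r - s) = y + w r := by
      rw [hst, Pth.shift_apply_of_nonneg _ _ (by linarith)]
      have : (a : ℝ) + (r - s) = r := by rw [ha]; ring
      rw [this]
      ring
    change _ = ENNReal.ofReal (Real.exp (-∫ q in s..r, c q ((y + Pth.stop a w a) +
      Pth.shift a w (q - s)))) * f ((y + Pth.stop a w a) + Pth.shift a w (r - s))
    rw [i2, i3]
  rw [lintegral_congr e1, lintegral_stop_shift Wm_isW a hG]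
  refine lintegral_congr fun w => ?_
  have hst : Pth.stop a w a = w a := by rw [Pth.stop_apply, min_self]
  change ∫⁻ B, ENNReal.ofReal (Real.exp (-∫ q in s..r, c q ((y + Pth.stop a w a) + B (q - s)))) *
      f ((y + Pth.stop a w a) + B (r - s)) ∂Wm = _
  rw [hst, ha]
  rfl

/-- second moment of Brownian motion -/
private theorem Hms_mom (y : ℝ) {s e : ℝ} (hs : 0 < s) (he : 0 ≤ e) :
    ∫⁻ w, ENNReal.ofReal (1 + (y + w s) ^ 2 * e) ∂Wm = ENNReal.ofReal (1 + (y ^ 2 + s) * e) := by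
  have hc : ((s.toNNReal : ℝ≥0) : ℝ) = s := Real.coe_toNNReal s hs.le
  have hlaw : Wm.map (fun w : Pth => w s) = gaussianReal 0 s.toNNReal := by
    have h1 := (IsPreBrownianReal.hasLaw_eval (B := fun (t : ℝ≥0) (A : Pth) => A t) Wm_isW
      s.toNNReal).map_eq
    rw [hc] at h1
    exact h1
  have hf : Measurable fun x : ℝ => ENNReal.ofReal (1 + (y + x) ^ 2 * e) := by fun_prop
  have h1 : ∫⁻ w, ENNReal.ofReal (1 + (y + w s) ^ 2 * e) ∂Wm =
      ∫⁻ x, ENNReal.ofReal (1 + (y + x) ^ 2 * e) ∂(gaussianReal 0 s.toNNReal) := by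
    rw [← hlaw, lintegral_map hf (Pth.measurable_apply s)]
  have m1 : MemLp (id : ℝ → ℝ) 2 (gaussianReal 0 s.toNNReal) := memLp_id_gaussianReal 2
  have i2 : Integrable (fun x : ℝ => x ^ 2) (gaussianReal 0 s.toNNReal) := m1.integrable_sq
  have i1 : Integrable (fun x : ℝ => x) (gaussianReal 0 s.toNNReal) := m1.integrable (by norm_num)
  have e1 : ∫ x, x ∂(gaussianReal 0 s.toNNReal) = 0 := integral_id_gaussianReal
  have e2 : ∫ x, x ^ 2 ∂(gaussianReal 0 s.toNNReal) = s := by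
    have h := variance_fun_id_gaussianReal (μ := 0) (v := s.toNNReal)
    rw [variance_of_integral_eq_zero aemeasurable_id' e1, hc] at h
    exact h
  have i3 : Integrable (fun x : ℝ => 1 + (y + x) ^ 2 * e) (gaussianReal 0 s.toNNReal) := by
    have h3 : (fun x : ℝ => 1 + (y + x) ^ 2 * e) = fun x => ((1 + y ^ 2 * e) + (2 * y * e) * x) + e * x ^ 2 := by
      funext x
      ring
    rw [h3]
    exact ((integrable_const _).add (i1.const_mul _)).add (i2.const_mul _)
  rw [h1, ← ofReal_integral_eq_lintegral_ofReal i3 (Eventually.of_forall fun x => by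
    change (0 : ℝ) ≤ 1 + (y + x) ^ 2 * e
    positivity)]
  congr 1
  have h3 : (fun x : ℝ => 1 + (y + x) ^ 2 * e) = fun x => ((1 + y ^ 2 * e) + (2 * y * e) * x) + e * x ^ 2 := by
    funext x
    ring
  have h4 : ∫ x, (((1 + y ^ 2 * e) + (2 * y * e) * x) + e * x ^ 2) ∂(gaussianReal 0 s.toNNReal) =
      (1 + y ^ 2 * e) + (2 * y * e) * (∫ x, x ∂(gaussianReal 0 s.toNNReal)) +
        e * ∫ x, x ^ 2 ∂(gaussianReal 0 s.toNNReal) := by
    have j0 : Integrable (fun _ : ℝ => (1 + y ^ 2 * e)) (gaussianReal 0 s.toNNReal) := integrable_const _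
    have j1 : Integrable (fun x : ℝ => (2 * y * e) * x) (gaussianReal 0 s.toNNReal) := i1.const_mul _
    have j2 : Integrable (fun x : ℝ => (1 + y ^ 2 * e) + (2 * y * e) * x) (gaussianReal 0 s.toNNReal) :=
      j0.add j1
    have j3 : Integrable (fun x : ℝ => e * x ^ 2) (gaussianReal 0 s.toNNReal) := i2.const_mul _
    rw [integral_add j2 j3, integral_add j0 j1, integral_const_mul, integral_const_mul]
    simp
  rw [h3, h4, e1, e2]
  ring

/-- the product bound -/
private theorem Hms_main {b : ℝ → ℝ} (hb : Rate b) {c : ℝ → ℝ → ℝ} (hc : Continuous (Function.uncurry c))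
    (hc0 : ∀ q y, 0 ≤ c q y) {s1 : ℝ} (hs1 : 1 ≤ s1)
    (hq : ∀ q, s1 ≤ q → ∀ z : ℂ, z.re ≤ √2 * q + √q + 1 → c q z.im ≤ 1 - b (Complex.arg z))
    {x : ℂ} {K s r : ℝ} (hK : 0 < K) (hs : s1 ≤ s) (hKs : (K + |x.re|) ^ 2 ≤ s) (hsr : s ≤ r)
    {F ψ : ℝ → ℝ≥0∞} (hF : Measurable F) (hψ : Measurable ψ) :
    Ms b K r x (fun z => ψ z.im * F (x.re + K + √2 * r - z.re)) ≤
      ENNReal.ofReal (Real.exp (-√2 * K)) * (∫⁻ w, Gm c s r ψ (x.im + w s) ∂Wm) *
        ∫⁻ d in Ioi (0 : ℝ), ENNReal.ofReal (Real.exp (√2 * d) * kk r K d) * F d := by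
  have hs0 : 0 < s := by linarith
  have hr0 : 0 < r := by linarith
  have hc1 : ∀ q, s ≤ q → ∀ y, c q y ≤ 1 := by
    intro q hsq y
    have h1 := hq q (hs.trans hsq) (⟨0, y⟩ : ℂ) (by
      have : 0 ≤ q := by linarith
      positivity)
    exact h1.trans (by linarith [hb.nonneg (Complex.arg (⟨0, y⟩ : ℂ))])
  -- the potential which starts at time `s`
  set c' : ℝ → ℝ → ℝ := fun q y => if s < q then c q y else 0 with hc'
  have hc'm : Measurable (Function.uncurry c') := by
    refine Measurable.ite (measurableSet_lt measurable_const measurable_fst) ?_ measurable_const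
    exact hc.measurable
  have hc'0 : ∀ q y, 0 ≤ c' q y := by
    intro q y
    simp only [hc']
    split_ifs
    · exact hc0 q y
    · exact le_rfl
  have hc'1 : ∀ q y, c' q y ≤ 1 := by
    intro q y
    simp only [hc']
    split_ifs with h
    · exact hc1 q h.le y
    · exact zero_le_one
  have hxs : x.re + K ≤ √s := by
    have h1 : K + |x.re| ≤ √s := Real.le_sqrt_of_sq_le hKs
    have h2 := le_abs_self x.re
    linarith
  have hkc : ∀ q, (0 : ℝ) ≤ q → q ≤ r → ∀ z : ℂ, z.re ≤ x.re + K + √2 * (q - 0) →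
      b (Complex.arg z) ≤ 1 - c' q z.im := by
    intro q _ _ z hz
    simp only [hc']
    split_ifs with h
    · have h1 : √s ≤ √q := Real.sqrt_le_sqrt h.le
      have h2 := hq q (hs.trans h.le) z (by linarith)
      linarith
    · linarith [hb.le_one (Complex.arg z)]
  have hint : ∀ w : Pth, ∫ q in (0 : ℝ)..r, c' (0 + q) (x.im + w q) = ∫ q in s..r, c q (x.im + w q) := by
    intro w
    have hm : Measurable fun q : ℝ => c' (0 + q) (x.im + w q) :=
      hc'm.comp ((measurable_const.add measurable_id).prodMk (measurable_const.add w.continuous.measurable))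
    have hi : ∀ a d : ℝ, IntervalIntegrable (fun q : ℝ => c' (0 + q) (x.im + w q)) volume a d := fun a d =>
      ExI_int hm (K := 1) (fun u => by rw [abs_of_nonneg (hc'0 _ _)]; exact hc'1 _ _) a d
    rw [← intervalIntegral.integral_add_adjacent_intervals (hi 0 s) (hi s r)]
    have h1 : ∫ q in (0 : ℝ)..s, c' (0 + q) (x.im + w q) = 0 := by
      rw [intervalIntegral.integral_of_le hs0.le]
      have h2 : ∫ q in Ioc 0 s, c' (0 + q) (x.im + w q) = ∫ _ in Ioc 0 s, (0 : ℝ) := by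
        refine setIntegral_congr_fun measurableSet_Ioc fun q hq => ?_
        change c' (0 + q) (x.im + w q) = 0
        simp only [hc', zero_add]
        rw [if_neg (not_lt.2 hq.2)]
      rw [h2, integral_zero]
    have h3 : ∫ q in s..r, c' (0 + q) (x.im + w q) = ∫ q in s..r, c q (x.im + w q) := by
      rw [intervalIntegral.integral_of_le hsr, intervalIntegral.integral_of_le hsr]
      refine setIntegral_congr_fun measurableSet_Ioc fun q hq => ?_
      change c' (0 + q) (x.im + w q) = c q (x.im + w q)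
      simp only [hc', zero_add]
      rw [if_pos hq.1]
    rw [h1, h3, zero_add]
  set E : Pth → ℝ≥0∞ := fun w =>
    ENNReal.ofReal (Real.exp (-∫ q in s..r, c q (x.im + w q))) * ψ (x.im + w r) with hE
  have hEm : Measurable E := by
    have h1 := gmk_wt hc (a := fun _ : Pth => s) (b := fun _ => r) (ρ := fun _ => 0) (η := fun _ => x.im)
      (Φ := fun w => w) measurable_const measurable_const measurable_const measurable_const measurable_id
    simp only [sub_zero] at h1
    exact h1.mul (hψ.comp (measurable_const.add (Pth.measurable_apply r)))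
  have hpt : Ms b K r x (fun z => ψ z.im * F (x.re + K + √2 * r - z.re)) ≤
      ∫⁻ w in {w : P2 | w.1 ∈ Blw K √2 r},
        (ENNReal.ofReal (Real.exp r) * F (K + √2 * r - w.1 r)) * E w.2 ∂W2 := by
    unfold Ms
    refine setLIntegral_mono' (measurable_fst (blw_meas K √2 r)) fun w hw => ?_
    have hw' : ∀ q ∈ Icc (0 : ℝ) r, w.1 q < K + √2 * q := hw
    have h5 := Hi_pt (barg_meas hb) (fun z => hb.nonneg _) (fun z => hb.le_one _) (s := 0) (t := r)
      (D := K) (μ := √2) (σ := r) x hc'm hc'0 (fun q _ _ y => hc'1 q y) hkc hr0.le (by linarith) w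
      (fun q h0 h1 => (hw' q ⟨h0, h1⟩).le)
    rw [hint w.2] at h5
    have h6 : (x + pt w r).im = x.im + w.2 r := by simp only [pt, Complex.add_im]
    have h7 : x.re + K + √2 * r - (x + pt w r).re = K + √2 * r - w.1 r := by
      simp only [pt, Complex.add_re]
      ring
    change ENNReal.ofReal (Real.exp (∫ u in (0 : ℝ)..r, b (Complex.arg (x + pt w u)))) *
      (ψ (x + pt w r).im * F (x.re + K + √2 * r - (x + pt w r).re)) ≤ _
    rw [h6, h7]
    calc _ ≤ ENNReal.ofReal (Real.exp r * Real.exp (-∫ q in s..r, c q (x.im + w.2 q))) *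
          (ψ (x.im + w.2 r) * F (K + √2 * r - w.1 r)) :=
          mul_le_mul' (ENNReal.ofReal_le_ofReal h5) le_rfl
      _ = _ := by
        rw [ENNReal.ofReal_mul (Real.exp_pos _).le]
        simp only [hE]
        ring
  refine hpt.trans (le_of_eq ?_)
  have hum : Measurable fun a : Pth => ENNReal.ofReal (Real.exp r) * F (K + √2 * r - a r) :=
    measurable_const.mul (hF.comp (measurable_const.sub (Pth.measurable_apply r)))
  have hum0 : Measurable fun a : Pth => F (K + √2 * r - a r) :=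
    hF.comp (measurable_const.sub (Pth.measurable_apply r))
  rw [Hi_prod (S := Blw K √2 r) (F := fun a b =>
    (ENNReal.ofReal (Real.exp r) * F (K + √2 * r - a r)) * E b)
    ((hum.comp measurable_fst).mul (hEm.comp measurable_snd))]
  have e3 : ∀ a : Pth, ∫⁻ b, (ENNReal.ofReal (Real.exp r) * F (K + √2 * r - a r)) * E b ∂Wm =
      ENNReal.ofReal (Real.exp r) * F (K + √2 * r - a r) * ∫⁻ w, Gm c s r ψ (x.im + w s) ∂Wm := by
    intro a
    rw [lintegral_const_mul _ hEm, ← Gm_start hc hψ hs0.le hsr]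
  simp only [e3]
  rw [lintegral_mul_const _ hum, lintegral_const_mul _ hum0, kline √2 hr0 hK hF]
  have e5 : ENNReal.ofReal (Real.exp r) * ∫⁻ d in Ioi (0 : ℝ), F d *
        ENNReal.ofReal (Real.exp (√2 * (d - K) - √2 ^ 2 * r / 2) * kk r K d) =
      ENNReal.ofReal (Real.exp (-√2 * K)) *
        ∫⁻ d in Ioi (0 : ℝ), ENNReal.ofReal (Real.exp (√2 * d) * kk r K d) * F d := by
    rw [← lintegral_const_mul' _ _ ENNReal.ofReal_ne_top, ← lintegral_const_mul' _ _ ENNReal.ofReal_ne_top]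
    refine lintegral_congr fun d => ?_
    have h2 : √2 ^ 2 = (2 : ℝ) := Real.sq_sqrt (by norm_num)
    have h3 : Real.exp r * (Real.exp (√2 * (d - K) - √2 ^ 2 * r / 2) * kk r K d) =
        Real.exp (-√2 * K) * (Real.exp (√2 * d) * kk r K d) := by
      rw [← mul_assoc, ← mul_assoc, ← Real.exp_add, ← Real.exp_add, h2]
      congr 2
      ring
    have h4 : ENNReal.ofReal (Real.exp r) * ENNReal.ofReal (Real.exp (√2 * (d - K) - √2 ^ 2 * r / 2) * kk r K d) =
        ENNReal.ofReal (Real.exp (-√2 * K)) * ENNReal.ofReal (Real.exp (√2 * d) * kk r K d) := by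
      rw [← ENNReal.ofReal_mul (Real.exp_pos r).le, h3, ENNReal.ofReal_mul (Real.exp_pos (-√2 * K)).le]
    rw [mul_left_comm, h4]
    ring
  rw [e5]
  ring

theorem ms_bound {b : ℝ → ℝ} {α β lam ρ C : ℝ} {φ : ℝ → ℝ} (hα : 2 / 3 < α) (hα2 : α < 2) (hβ : 0 < β)
    (h : A12 b α β) (G : GS α lam ρ C φ) :
    ∃ s0 ≥ (1 : ℝ), ∃ C1 > 0, ∀ (x : ℂ) (K s r : ℝ), 0 < K → s0 ≤ s → (K + |x.re|) ^ 2 ≤ s → s ≤ r →
      ∀ F : ℝ → ℝ≥0∞, Measurable F →
        Ms b K r x (fun z => F (x.re + K + √2 * r - z.re)) ≤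
          ENNReal.ofReal (C1 * Real.exp (-√2 * K) * NN α β lam s r) *
            ∫⁻ d in Ioi (0 : ℝ), ENNReal.ofReal (Real.exp (√2 * d) * kk r K d) * F d ∧
        Ms b K r x (fun z => ENNReal.ofReal (1 + z.im ^ 2 * r ^ (-2 * gam α)) * F (x.re + K + √2 * r - z.re)) ≤
          ENNReal.ofReal (C1 * Real.exp (-√2 * K) * (1 + (x.im ^ 2 + s) * s ^ (-2 * gam α)) * NN α β lam s r) *
            ∫⁻ d in Ioi (0 : ℝ), ENNReal.ofReal (Real.exp (√2 * d) * kk r K d) * F d := by
  have hα0 : 0 < α := by linarith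
  have hb : Rate b := a12_rate hα0 h
  obtain ⟨Cf, hCf, ζ, η, hζ, hη, sa, hsa1, hqlo⟩ := qlo hα hα2 hβ h
  obtain ⟨sb, hsb1, C1, hC1, hy1⟩ := y1 hα0 hα2 hβ G hCf hζ hη
  have hcc := cfl_cont hα0 β Cf ζ η
  refine ⟨max sa sb, hsa1.trans (le_max_left _ _), C1, hC1, fun x K s r hK hs hKs hsr F hF => ?_⟩
  have hsa : sa ≤ s := (le_max_left _ _).trans hs
  have hsb : sb ≤ s := (le_max_right _ _).trans hs
  have hs0 : 0 < s := by linarith
  have hr0 : 0 < r := by linarith
  have hN : 0 ≤ NN α β lam s r := Y1_NN_nonneg hs0 hr0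
  have hN' : 0 ≤ C1 * NN α β lam s r := mul_nonneg hC1.le hN
  have he : 0 ≤ s ^ (-2 * gam α) := Real.rpow_nonneg hs0.le _
  have hc0 : ∀ q y, 0 ≤ cfl α β Cf ζ η q y := fun q y => cfl_nonneg hβ.le _ _ _ _ _
  have hy2 := hy1 s r hsb hsr
  clear hy1
  generalize cfl α β Cf ζ η = c at hcc hc0 hqlo hy2
  generalize NN α β lam s r = N at hy2 hN hN'
  generalize s ^ (-2 * gam α) = e at hy2 he
  generalize r ^ (-2 * gam α) = er at hy2
  constructor
  · have h1 : Ms b K r x (fun z => 1 * F (x.re + K + √2 * r - z.re)) ≤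
        ENNReal.ofReal (Real.exp (-√2 * K)) * (∫⁻ w, Gm c s r (fun _ => 1) (x.im + w s) ∂Wm) *
          ∫⁻ d in Ioi (0 : ℝ), ENNReal.ofReal (Real.exp (√2 * d) * kk r K d) * F d :=
      Hms_main (ψ := fun _ => 1) hb hcc hc0 hsa1 hqlo hK hsa hKs hsr hF measurable_const
    have h0 : (fun z : ℂ => 1 * F (x.re + K + √2 * r - z.re)) = fun z => F (x.re + K + √2 * r - z.re) := by
      funext z
      rw [one_mul]
    rw [h0] at h1
    refine h1.trans ?_
    have h2 : ∫⁻ w, Gm c s r (fun _ => 1) (x.im + w s) ∂Wm ≤ ENNReal.ofReal (C1 * N) := by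
      calc ∫⁻ w, Gm c s r (fun _ => 1) (x.im + w s) ∂Wm ≤ ∫⁻ _, ENNReal.ofReal (C1 * N) ∂Wm :=
            lintegral_mono fun w => (hy2 (x.im + w s)).1
        _ = ENNReal.ofReal (C1 * N) := by
            rw [lintegral_const, measure_univ, mul_one]
    have h3 : ENNReal.ofReal (Real.exp (-√2 * K)) *
        ENNReal.ofReal (C1 * N) = ENNReal.ofReal (C1 * Real.exp (-√2 * K) * N) := by
      rw [← ENNReal.ofReal_mul (Real.exp_pos _).le]
      congr 1
      ring
    rw [← h3]
    exact mul_le_mul' (mul_le_mul' le_rfl h2) le_rfl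
  · have hψ : Measurable fun z : ℝ => ENNReal.ofReal (1 + z ^ 2 * er) := by fun_prop
    have h1 : Ms b K r x (fun z => ENNReal.ofReal (1 + z.im ^ 2 * er) * F (x.re + K + √2 * r - z.re)) ≤
        ENNReal.ofReal (Real.exp (-√2 * K)) *
          (∫⁻ w, Gm c s r (fun z : ℝ => ENNReal.ofReal (1 + z ^ 2 * er)) (x.im + w s) ∂Wm) *
          ∫⁻ d in Ioi (0 : ℝ), ENNReal.ofReal (Real.exp (√2 * d) * kk r K d) * F d :=
      Hms_main (ψ := fun z : ℝ => ENNReal.ofReal (1 + z ^ 2 * er)) hb hcc hc0 hsa1 hqlo hK hsa hKs hsr hF hψ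
    refine h1.trans ?_
    have hM : Measurable fun w : Pth => ENNReal.ofReal (1 + (x.im + w s) ^ 2 * e) := by
      have := Pth.measurable_apply s
      fun_prop
    have h2 : ∫⁻ w, Gm c s r (fun z : ℝ => ENNReal.ofReal (1 + z ^ 2 * er)) (x.im + w s) ∂Wm ≤
        ENNReal.ofReal (C1 * N) * ENNReal.ofReal (1 + (x.im ^ 2 + s) * e) := by
      have h5 : ∫⁻ w, ENNReal.ofReal (C1 * (1 + (x.im + w s) ^ 2 * e) * N) ∂Wm =
          ENNReal.ofReal (C1 * N) * ENNReal.ofReal (1 + (x.im ^ 2 + s) * e) := by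
        rw [← Hms_mom x.im hs0 he, ← lintegral_const_mul _ hM]
        refine lintegral_congr fun w => ?_
        rw [← ENNReal.ofReal_mul hN']
        congr 1
        ring
      rw [← h5]
      exact lintegral_mono fun w => (hy2 (x.im + w s)).2
    have h3 : ENNReal.ofReal (Real.exp (-√2 * K)) *
        (ENNReal.ofReal (C1 * N) * ENNReal.ofReal (1 + (x.im ^ 2 + s) * e)) =
        ENNReal.ofReal (C1 * Real.exp (-√2 * K) * (1 + (x.im ^ 2 + s) * e) * N) := by
      rw [← ENNReal.ofReal_mul hN', ← ENNReal.ofReal_mul (Real.exp_pos _).le]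
      congr 1
      ring
    rw [← h3]
    exact mul_le_mul' (mul_le_mul' le_rfl h2) le_rfl

end Pool.H50.BB
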