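import Pool.Agent.H50.BB.Idf
import Pool.Agent.H50.BB.Brf

/-!
# Row Ian: association and monotonicity of the heat semigroup   (about 150 lines)

Rearrangement in `ℝ≥0∞`: `a' ≤ a`, `b' ≤ b` implies `a * b' + a' * b ≤ a * b + a' * b'` (write `a = a' + p`, `b = b' + q` with `exists_add_of_le`; the difference is `p * q`).
`EN.heat`: `P f y = ∫⁻ w, f (y + w h) dWm = ∫⁻ x, f x * ofReal (gd h (x - y))` (`marg` (Brf.lean) and the translation `x ↦ x - y`, `lintegral_sub_right_eq_self`-type lemma).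
Measurable: `Measurable.lintegral_prod_right'` (jointly measurable `f (y + w h)`).  Even: `f (-y + w h) = f (y - w h)` and `neg_map`.  Monotone: `0 ≤ y ≤ y'`, `m = (y+y')/2 ≥ 0`, `ρ x = 2m - x`.  Split at `m`
(`lintegral_add_compl` with `Iio m`, the point `m` is null; `∫⁻ x in Ioi m, F x = ∫⁻ x in Iio m, F (ρ x)`, `ρ` preserves Lebesgue measure): for `x < m`, `gd h (ρ x - y') = gd h (x - y)` and `gd h (ρ x - y) = gd h (x - y')`, so
`P f y' = ∫⁻ x in Iio m, f x * g' x + f (ρ x) * g x`, `P f y = ∫⁻ x in Iio m, f x * g x + f (ρ x) * g' x`, with `g x = ofReal (gd h (x-y)) ≥ g' x = ofReal (gd h (x-y'))` (`|x - y| ≤ |x - y'|` for `x ≤ m`) and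
`f x ≥ f (ρ x)` (`|x| ≤ ρ x` since `x ≤ m ≤ ρ x` and `x + ρ x = 2m ≥ 0`; `f x = f |x|`).  Rearrangement.
`EN_assoc`: `F z = ch ν z` is even and nondecreasing in `|z|` (`Real.cosh_le_cosh`), `f` nonincreasing in `|z|`; for all `z, z'`: `F z f z + F z' f z' ≤ F z f z' + F z' f z` (rearrangement, cases `|z| ≤ |z'|`).  Integrate
over the product measure `Wm.prod Wm` (`z = y + w h`, `z' = y + w' h`): `2 ∫ F f ≤ 2 ∫ F ∫ f`; divide by 2 (`ENNReal.mul_le_mul_left`; if the right side is infinite nothing is to prove).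
`ch_heat`: `marg`/`Bcm_law`-type Gaussian moment generating function: `E exp (σ w h) = exp (σ² h/2)` (`mgf_gaussianReal` with `IsPreBrownianReal.hasLaw_eval Wm_isW`, as in the proof of `marg`), `cosh = (e^x + e^{-x})/2`; `h = 0`: `w 0 = 0` (`Pth.zero`).
-/

open MeasureTheory ProbabilityTheory Set Filter Topology
open scoped NNReal ENNReal

namespace Pool.H50.BB

open Pool.Agent.H4.BM

theorem rearr_enn {a a' b b' : ℝ≥0∞} (ha : a' ≤ a) (hb : b' ≤ b) : a * b' + a' * b ≤ a * b + a' * b' := by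
  obtain ⟨p, rfl⟩ := exists_add_of_le ha
  obtain ⟨q, rfl⟩ := exists_add_of_le hb
  calc (a' + p) * b' + a' * (b' + q) ≤ (a' + p) * b' + a' * (b' + q) + p * q := le_self_add
    _ = (a' + p) * (b' + q) + a' * b' := by ring

theorem gd_neg (v x : ℝ) : gd v (-x) = gd v x := by
  unfold gd
  rw [neg_sq]

theorem gd_mono_abs {v : ℝ} (hv : 0 < v) {x x' : ℝ} (h : |x| ≤ |x'|) : gd v x' ≤ gd v x := by
  unfold gd
  refine mul_le_mul_of_nonneg_left ?_ (inv_nonneg.2 (Real.sqrt_nonneg _))
  rw [Real.exp_le_exp]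
  refine div_le_div_of_nonneg_right ?_ (by linarith)
  have := sq_le_sq.2 h
  linarith

theorem lint_fold {F : ℝ → ℝ≥0∞} (hF : Measurable F) (m : ℝ) :
    ∫⁻ x, F x = ∫⁻ x in Iio m, (F x + F (2 * m - x)) := by
  have h1 : ∫⁻ x, F x = (∫⁻ x in Iio m, F x) + ∫⁻ x in (Iio m)ᶜ, F x :=
    (lintegral_add_compl F measurableSet_Iio).symm
  have h2 : ∫⁻ x in (Iio m)ᶜ, F x = ∫⁻ x in Iio m, F (2 * m - x) := by
    rw [compl_Iio, ← setLIntegral_congr (Ioi_ae_eq_Ici (μ := volume) (a := m)),
      ← lintegral_indicator measurableSet_Ioi, ← lintegral_indicator measurableSet_Iio,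
      ← lintegral_sub_left_eq_self (fun x => (Ioi m).indicator (fun x => F x) x) (2 * m)]
    refine lintegral_congr fun x => ?_
    by_cases hx : x < m
    · rw [indicator_of_mem (show x ∈ Iio m from hx), indicator_of_mem (show 2 * m - x ∈ Ioi m by
        show m < 2 * m - x
        linarith)]
    · rw [indicator_of_notMem (show x ∉ Iio m from hx), indicator_of_notMem (show 2 * m - x ∉ Ioi m by
        show ¬ m < 2 * m - x
        linarith)]
  rw [h1, h2, lintegral_add_left hF]

theorem EN.abs {f : ℝ → ℝ≥0∞} (hf : EN f) (x : ℝ) : f |x| = f x := by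
  rcases abs_cases x with ⟨h, -⟩ | ⟨h, -⟩ <;> rw [h]
  exact hf.even x

theorem EN.anti_abs {f : ℝ → ℝ≥0∞} (hf : EN f) {x x' : ℝ} (h : |x| ≤ |x'|) : f x' ≤ f x := by
  rw [← hf.abs x, ← hf.abs x']
  exact hf.anti _ _ (abs_nonneg x) h

theorem heat_eq {f : ℝ → ℝ≥0∞} (hf : Measurable f) {h : ℝ} (hh : 0 < h) (y : ℝ) :
    ∫⁻ w, f (y + w h) ∂Wm = ∫⁻ x, f x * ENNReal.ofReal (gd h (x - y)) := by
  have h1 := marg hh (f := fun z => f (y + z)) (hf.comp (measurable_const.add measurable_id))
  rw [h1, ← lintegral_sub_right_eq_self (fun x => f (y + x) * ENNReal.ofReal (gd h x)) y]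
  refine lintegral_congr fun x => ?_
  rw [add_sub_cancel]

theorem EN_one : EN (fun _ => 1) := ⟨measurable_const, fun _ => rfl, fun _ _ _ _ => le_rfl⟩

theorem EN.mul {f g : ℝ → ℝ≥0∞} (hf : EN f) (hg : EN g) : EN (fun y => f y * g y) :=
  ⟨hf.meas.mul hg.meas, fun y => by rw [hf.even, hg.even],
    fun y y' h h' => mul_le_mul' (hf.anti y y' h h') (hg.anti y y' h h')⟩

theorem EN.heat {f : ℝ → ℝ≥0∞} (hf : EN f) {h : ℝ} (hh : 0 < h) : EN (fun y => ∫⁻ w, f (y + w h) ∂Wm) := by
  have hm2 : Measurable fun p : ℝ × Pth => f (p.1 + p.2 h) :=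
    hf.meas.comp (measurable_fst.add ((Pth.measurable_apply h).comp measurable_snd))
  refine ⟨hm2.lintegral_prod_right', fun y => ?_, fun y y' hy hyy => ?_⟩
  · have h1 : ∫⁻ w, f (y + w h) ∂Wm = ∫⁻ w, f (y + w h) ∂(Wm.map negP) := by rw [neg_map]
    have hm3 : Measurable fun w : Pth => f (y + w h) :=
      hf.meas.comp (measurable_const.add (Pth.measurable_apply h))
    rw [h1, lintegral_map hm3 negP_meas]
    refine lintegral_congr fun w => ?_
    show f (-y + w h) = f (y + (- w h))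
    rw [← hf.even]
    congr 1
    ring
  · show ∫⁻ w, f (y' + w h) ∂Wm ≤ ∫⁻ w, f (y + w h) ∂Wm
    have hF : ∀ u : ℝ, Measurable fun x : ℝ => f x * ENNReal.ofReal (gd h (x - u)) := fun u =>
      hf.meas.mul (((gd_meas h).comp (measurable_id.sub_const u)).ennreal_ofReal)
    rw [heat_eq hf.meas hh, heat_eq hf.meas hh, lint_fold (hF y') ((y + y') / 2),
      lint_fold (hF y) ((y + y') / 2)]
    refine setLIntegral_mono' measurableSet_Iio fun x hx => ?_
    have hx' : x < (y + y') / 2 := hx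
    have e1 : 2 * ((y + y') / 2) - x - y' = -(x - y) := by ring
    have e2 : 2 * ((y + y') / 2) - x - y = -(x - y') := by ring
    rw [e1, e2, gd_neg, gd_neg]
    refine rearr_enn (hf.anti_abs ?_) (ENNReal.ofReal_le_ofReal (gd_mono_abs hh ?_))
    · have h3 : |2 * ((y + y') / 2) - x| = 2 * ((y + y') / 2) - x := abs_of_nonneg (by linarith)
      rw [h3, abs_le]
      constructor <;> linarith
    · rw [abs_le, abs_of_nonpos (show x - y' ≤ 0 by linarith)]
      constructor <;> linarith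

theorem ch_meas (ν : ℝ) : Measurable (ch ν) := by
  unfold ch
  exact (Real.measurable_cosh.comp (measurable_const.mul measurable_id)).ennreal_ofReal

theorem ch_mono (ν : ℝ) {z z' : ℝ} (h : |z| ≤ |z'|) : ch ν z ≤ ch ν z' := by
  unfold ch
  refine ENNReal.ofReal_le_ofReal ?_
  rw [Real.cosh_le_cosh, abs_mul, abs_mul]
  exact mul_le_mul_of_nonneg_left h (abs_nonneg ν)

theorem EN_assoc {f : ℝ → ℝ≥0∞} (hf : EN f) (ν y h : ℝ) :
    ∫⁻ w, ch ν (y + w h) * f (y + w h) ∂Wm ≤ (∫⁻ w, ch ν (y + w h) ∂Wm) * ∫⁻ w, f (y + w h) ∂Wm := by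
  have hW : IsProbabilityMeasure Wm := inferInstance
  have hz : Measurable fun w : Pth => y + w h := measurable_const.add (Pth.measurable_apply h)
  have hc : Measurable fun w : Pth => ch ν (y + w h) := (ch_meas ν).comp hz
  have hg : Measurable fun w : Pth => f (y + w h) := hf.meas.comp hz
  have key : ∀ w w' : Pth, ch ν (y + w h) * f (y + w h) + ch ν (y + w' h) * f (y + w' h) ≤
      ch ν (y + w h) * f (y + w' h) + ch ν (y + w' h) * f (y + w h) := by
    intro w w'
    rcases le_total |y + w h| |y + w' h| with hle | hle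
    · have := rearr_enn (ch_mono ν hle) (hf.anti_abs hle)
      rw [add_comm (ch ν (y + w h) * f (y + w h)), add_comm (ch ν (y + w h) * f (y + w' h))]
      exact this
    · exact rearr_enn (ch_mono ν hle) (hf.anti_abs hle)
  set A := ∫⁻ w, ch ν (y + w h) * f (y + w h) ∂Wm with hA
  set B := ∫⁻ w, f (y + w h) ∂Wm with hB
  set C := ∫⁻ w, ch ν (y + w h) ∂Wm with hC
  have hL : ∫⁻ w, ∫⁻ w', (ch ν (y + w h) * f (y + w h) + ch ν (y + w' h) * f (y + w' h)) ∂Wm ∂Wm =
      A + A := by
    have h1 : ∀ w : Pth, ∫⁻ w', (ch ν (y + w h) * f (y + w h) + ch ν (y + w' h) * f (y + w' h)) ∂Wm =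
        ch ν (y + w h) * f (y + w h) + A := by
      intro w
      rw [lintegral_add_left measurable_const, lintegral_const, measure_univ, mul_one]
    rw [lintegral_congr h1, lintegral_add_right _ measurable_const, lintegral_const, measure_univ,
      mul_one]
  have hR : ∫⁻ w, ∫⁻ w', (ch ν (y + w h) * f (y + w' h) + ch ν (y + w' h) * f (y + w h)) ∂Wm ∂Wm =
      C * B + C * B := by
    have h1 : ∀ w : Pth, ∫⁻ w', (ch ν (y + w h) * f (y + w' h) + ch ν (y + w' h) * f (y + w h)) ∂Wm =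
        ch ν (y + w h) * B + C * f (y + w h) := by
      intro w
      have hm1 : Measurable fun w' : Pth => ch ν (y + w h) * f (y + w' h) := measurable_const.mul hg
      rw [lintegral_add_left hm1, lintegral_const_mul _ hg, lintegral_mul_const _ hc]
    have hm2 : Measurable fun w : Pth => ch ν (y + w h) * B := hc.mul measurable_const
    rw [lintegral_congr h1, lintegral_add_left hm2, lintegral_mul_const _ hc,
      lintegral_const_mul _ hg]
  have h2 : A + A ≤ C * B + C * B := by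
    rw [← hL, ← hR]
    exact lintegral_mono fun w => lintegral_mono fun w' => key w w'
  by_contra hcon
  push Not at hcon
  exact absurd h2 (not_le.2 (ENNReal.add_lt_add hcon hcon))

theorem ch_heat (ν y : ℝ) {h : ℝ} (hh : 0 ≤ h) :
    ∫⁻ w, ch ν (y + w h) ∂Wm = ENNReal.ofReal (Real.exp (ν ^ 2 * h / 2) * Real.cosh (ν * y)) := by
  have hlaw := (IsPreBrownianReal.hasLaw_eval Wm_isW h.toNNReal).map_eq
  have hcoe : ((h.toNNReal : ℝ≥0) : ℝ) = h := Real.coe_toNNReal h hh
  have hlaw2 : Wm.map (fun w : Pth => w h) = gaussianReal 0 h.toNNReal := by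
    rw [← hlaw]
    simp only [hcoe]
  have h1 : ∫⁻ w, ch ν (y + w h) ∂Wm = ∫⁻ x, ch ν (y + x) ∂(gaussianReal 0 h.toNNReal) := by
    have hm : Measurable fun x : ℝ => ch ν (y + x) :=
      (ch_meas ν).comp (measurable_const.add measurable_id)
    rw [← hlaw2, lintegral_map hm (Pth.measurable_apply h)]
  have hid : (gaussianReal 0 h.toNNReal).map id = gaussianReal 0 h.toNNReal := Measure.map_id
  have hmgf : ∀ t : ℝ, ∫ x, Real.exp (t * x) ∂(gaussianReal 0 h.toNNReal) =
      Real.exp (t ^ 2 * h / 2) := by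
    intro t
    have := mgf_gaussianReal hid t
    unfold mgf at this
    simp only [id] at this
    rw [this, hcoe]
    congr 1
    ring
  have hint : ∀ t : ℝ, Integrable (fun x => Real.exp (t * x)) (gaussianReal 0 h.toNNReal) :=
    fun t => integrable_exp_mul_gaussianReal t
  have hcosh : ∀ x : ℝ, Real.cosh (ν * (y + x)) = Real.exp (ν * y) / 2 * Real.exp (ν * x) +
      Real.exp (-(ν * y)) / 2 * Real.exp ((-ν) * x) := by
    intro x
    rw [Real.cosh_eq, mul_add, Real.exp_add, neg_add, Real.exp_add, ← neg_mul ν x]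
    ring
  have hi : Integrable (fun x => Real.cosh (ν * (y + x))) (gaussianReal 0 h.toNNReal) := by
    simp only [hcosh]
    exact ((hint ν).const_mul _).add ((hint (-ν)).const_mul _)
  rw [h1]
  unfold ch
  rw [← ofReal_integral_eq_lintegral_ofReal hi (Eventually.of_forall fun x => (Real.cosh_pos _).le)]
  congr 1
  simp only [hcosh]
  rw [integral_add ((hint ν).const_mul _) ((hint (-ν)).const_mul _), integral_const_mul,
    integral_const_mul, hmgf, hmgf, Real.cosh_eq, neg_sq]
  ring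

end Pool.H50.BB
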