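import Pool.Agent.H50.BB.Idf
import Pool.Agent.H50.BB.Qlu

/-!
# Row Iar: stability of the argument, lower bound of the potential   (about 120 lines)

`arg_stab`: `p = |ϑ|`; `p = 0` is trivial.  `v = √2 cos ϑ s + i √2 sin ϑ s`, `x = W + v`, `θ = arg x`, `ψ = θ - ϑ`.  Suppose `|θ| < p/2`.  Then `p/2 < |ψ| < 3p/2 ≤ 3π/2`.
Multiplying `x` by `e^{-iϑ}`: `‖x‖ cos ψ = √2 s + W'.re`, `‖x‖ sin ψ = W'.im`, `W' = W e^{-iϑ}` (i.e. `W'.re = W.re cos ϑ + W.im sin ϑ`, `W'.im = W.im cos ϑ - W.re sin ϑ`, both `≤ ‖W‖` in absolute value).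
`‖x‖ cos ψ ≥ √2 s - ‖W‖ > 0` (`‖W‖ ≤ sπ/8 < √2 s`), so `cos ψ > 0` and, as `|ψ| < 3π/2`, `|ψ| < π/2`; then `|ψ| cos ψ ≤ |sin ψ|` (`Real.le_tan` or `Real.mul_cos_lt_sin`-type lemma).  So
`(p/2)(√2 s - ‖W‖) ≤ |ψ| ‖x‖ cos ψ ≤ ‖x‖ |sin ψ| ≤ ‖W‖ ≤ s p/8`, i.e. `√2 - p/8 ≤ 1/4`, false as `p ≤ π < 3.15`, `√2 > 1.41`.
`q_low`: `b 0 = 1` (`a12_one`).  `asy`: `|b θ - (1 - β|θ|^α)| ≤ C θ²` for `|θ| ≤ θ1`, so `1 - b θ ≥ β|θ|^α - Cθ² ≥ (β/2)|θ|^α` if moreover `C |θ|^(2-α) ≤ β/2`.  On the compact `{θ1 ≤ |θ| ≤ π}` the continuous function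
`b 0 - b θ` is positive (`max`), so `≥ c1 > 0`, and `|θ|^α ≤ π^α`; `c = min (β/2) (c1/π^α)`.
-/

open MeasureTheory ProbabilityTheory Set Filter Topology
open scoped NNReal ENNReal

namespace Pool.H50.BB

theorem arg_stab {ϑ s : ℝ} (hϑ : |ϑ| ≤ Real.pi) (hs : 0 < s) {W : ℂ} (hW : ‖W‖ ≤ s * |ϑ| / 8) :
    |ϑ| / 2 ≤ |Complex.arg (W + ⟨√2 * Real.cos ϑ * s, √2 * Real.sin ϑ * s⟩)| := by
  set x : ℂ := W + ⟨√2 * Real.cos ϑ * s, √2 * Real.sin ϑ * s⟩ with hx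
  by_contra hlt
  push Not at hlt
  set θ : ℝ := Complex.arg x with hθ
  have hp : 0 < |ϑ| := by
    have := abs_nonneg θ
    linarith
  have h2 : (1.41 : ℝ) ≤ √2 := by
    rw [show (1.41 : ℝ) = √(1.41 ^ 2) by rw [Real.sqrt_sq (by norm_num)]]
    exact Real.sqrt_le_sqrt (by norm_num)
  have hpi : Real.pi < 3.15 := Real.pi_lt_d2
  have hre : x.re = W.re + √2 * Real.cos ϑ * s := by rw [hx]; rfl
  have him : x.im = W.im + √2 * Real.sin ϑ * s := by rw [hx]; rfl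
  have e1 : ‖x‖ * Real.cos θ = x.re := Complex.norm_mul_cos_arg x
  have e2 : ‖x‖ * Real.sin θ = x.im := Complex.norm_mul_sin_arg x
  have hcs := Real.cos_sq_add_sin_sq ϑ
  have hWn : ‖W‖ ^ 2 = W.re ^ 2 + W.im ^ 2 := by
    rw [← Complex.normSq_eq_norm_sq, Complex.normSq_apply]
    ring
  have b1 : |W.re * Real.cos ϑ + W.im * Real.sin ϑ| ≤ ‖W‖ := by
    refine abs_le_of_sq_le_sq ?_ (norm_nonneg _)
    rw [hWn]
    have : W.re ^ 2 + W.im ^ 2 = (W.re * Real.cos ϑ + W.im * Real.sin ϑ) ^ 2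
        + (W.re * Real.sin ϑ - W.im * Real.cos ϑ) ^ 2
        + (W.re ^ 2 + W.im ^ 2) * (1 - (Real.cos ϑ ^ 2 + Real.sin ϑ ^ 2)) := by ring
    rw [this, hcs]
    nlinarith [sq_nonneg (W.re * Real.sin ϑ - W.im * Real.cos ϑ)]
  have b2 : |W.im * Real.cos ϑ - W.re * Real.sin ϑ| ≤ ‖W‖ := by
    refine abs_le_of_sq_le_sq ?_ (norm_nonneg _)
    rw [hWn]
    have : W.re ^ 2 + W.im ^ 2 = (W.re * Real.cos ϑ + W.im * Real.sin ϑ) ^ 2
        + (W.im * Real.cos ϑ - W.re * Real.sin ϑ) ^ 2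
        + (W.re ^ 2 + W.im ^ 2) * (1 - (Real.cos ϑ ^ 2 + Real.sin ϑ ^ 2)) := by ring
    rw [this, hcs]
    nlinarith [sq_nonneg (W.re * Real.cos ϑ + W.im * Real.sin ϑ)]
  have c1 : ‖x‖ * Real.cos (θ - ϑ) = W.re * Real.cos ϑ + W.im * Real.sin ϑ + √2 * s := by
    rw [Real.cos_sub]
    have : ‖x‖ * (Real.cos θ * Real.cos ϑ + Real.sin θ * Real.sin ϑ)
        = (‖x‖ * Real.cos θ) * Real.cos ϑ + (‖x‖ * Real.sin θ) * Real.sin ϑ := by ring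
    rw [this, e1, e2, hre, him]
    have : √2 * s = √2 * s * (Real.cos ϑ ^ 2 + Real.sin ϑ ^ 2) := by rw [hcs, mul_one]
    rw [this]
    ring
  have c2 : ‖x‖ * Real.sin (θ - ϑ) = W.im * Real.cos ϑ - W.re * Real.sin ϑ := by
    rw [Real.sin_sub]
    have : ‖x‖ * (Real.sin θ * Real.cos ϑ - Real.cos θ * Real.sin ϑ)
        = (‖x‖ * Real.sin θ) * Real.cos ϑ - (‖x‖ * Real.cos θ) * Real.sin ϑ := by ring
    rw [this, e1, e2, hre, him]
    ring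
  have hW2 : ‖W‖ ≤ s * 3.15 / 8 := by
    refine hW.trans ?_
    have : s * |ϑ| ≤ s * 3.15 := mul_le_mul_of_nonneg_left (by linarith) hs.le
    linarith
  have hs2 : 1.41 * s ≤ √2 * s := mul_le_mul_of_nonneg_right h2 hs.le
  have d1 : 1 * s < ‖x‖ * Real.cos (θ - ϑ) := by
    rw [c1]
    have := (abs_le.1 b1).1
    linarith
  set ψ : ℝ := θ - ϑ with hψ
  have hψ1 : |ϑ| / 2 < |ψ| := by
    have : |ϑ| ≤ |θ| + |ψ| := by
      have h3 : ϑ = θ - ψ := by rw [hψ]; ring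
      calc |ϑ| = |θ - ψ| := by rw [← h3]
        _ ≤ |θ| + |ψ| := abs_sub _ _
    linarith
  have hψ2 : |ψ| < 3 * Real.pi / 2 := by
    have : |ψ| ≤ |θ| + |ϑ| := abs_sub _ _
    linarith
  have hxn : 0 ≤ ‖x‖ := norm_nonneg _
  have hcos : 0 < Real.cos ψ := by
    by_contra h
    push Not at h
    have := mul_nonpos_of_nonneg_of_nonpos hxn h
    linarith
  have hψ3 : |ψ| < Real.pi / 2 := by
    by_contra h
    push Not at h
    have h3 := Real.cos_nonpos_of_pi_div_two_le_of_le h (by linarith : |ψ| ≤ Real.pi + Real.pi / 2)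
    rw [Real.cos_abs] at h3
    linarith
  have h4 : |ψ| * Real.cos ψ ≤ Real.sin |ψ| := by
    have h5 := Real.le_tan (abs_nonneg ψ) hψ3
    rw [Real.tan_eq_sin_div_cos, Real.cos_abs, le_div_iff₀ hcos] at h5
    exact h5
  have h6 : ‖x‖ * Real.sin |ψ| ≤ ‖W‖ := by
    have h7 : |‖x‖ * Real.sin ψ| ≤ ‖W‖ := by rw [c2]; exact b2
    rw [abs_mul, abs_of_nonneg hxn] at h7
    have h8 : Real.sin |ψ| ≤ |Real.sin ψ| := by
      rcases abs_cases ψ with ⟨h9, -⟩ | ⟨h9, -⟩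
      · rw [h9]; exact le_abs_self _
      · rw [h9, Real.sin_neg]; exact neg_le_abs _
    exact (mul_le_mul_of_nonneg_left h8 hxn).trans h7
  have h9 : |ψ| * (‖x‖ * Real.cos ψ) ≤ s * |ϑ| / 8 := by
    calc |ψ| * (‖x‖ * Real.cos ψ) = ‖x‖ * (|ψ| * Real.cos ψ) := by ring
      _ ≤ ‖x‖ * Real.sin |ψ| := mul_le_mul_of_nonneg_left h4 hxn
      _ ≤ ‖W‖ := h6
      _ ≤ _ := hW
  have h10 : |ϑ| / 2 * (1 * s) ≤ |ψ| * (‖x‖ * Real.cos ψ) :=
    mul_le_mul hψ1.le d1.le (by linarith) (abs_nonneg _)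
  have h11 : 0 < |ϑ| * s := mul_pos hp hs
  nlinarith

theorem q_low {b : ℝ → ℝ} {α β : ℝ} (hα : 0 < α) (hα2 : α < 2) (hβ : 0 < β) (h : A12 b α β) :
    ∃ c > 0, ∀ θ, |θ| ≤ Real.pi → c * |θ| ^ α ≤ 1 - b θ := by
  obtain ⟨C, hC, r, hr, hlow⟩ := Qlu_low hα hα2 hβ h
  have h2α : 0 < 2 - α := by linarith
  have hq0 : 0 < β / (2 * (C + 1)) := by positivity
  set r2 : ℝ := min (min r 1) ((β / (2 * (C + 1))) ^ (1 / (2 - α))) with hr2
  have hr2p : 0 < r2 := lt_min (lt_min hr one_pos) (Real.rpow_pos_of_pos hq0 _)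
  have hr2a : r2 ≤ r := (min_le_left _ _).trans (min_le_left _ _)
  have hr21 : r2 ≤ 1 := (min_le_left _ _).trans (min_le_right _ _)
  have hr2b : ∀ t : ℝ, 0 ≤ t → t ≤ r2 → C * t ^ 2 ≤ β / 2 * t ^ α := by
    intro t ht0 ht
    have h1 : t ^ (2 - α) ≤ ((β / (2 * (C + 1))) ^ (1 / (2 - α))) ^ (2 - α) :=
      Real.rpow_le_rpow ht0 (ht.trans (min_le_right _ _)) h2α.le
    rw [← Real.rpow_mul hq0.le, one_div, inv_mul_cancel₀ h2α.ne', Real.rpow_one] at h1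
    rcases ht0.eq_or_lt with h0 | h0
    · rw [← h0, Real.zero_rpow hα.ne']
      norm_num
    have h3 : t ^ 2 = t ^ (2 - α) * t ^ α := by
      rw [← Real.rpow_add h0]
      norm_num
    have h4 : 0 ≤ t ^ α := Real.rpow_nonneg ht0 _
    rw [h3, ← mul_assoc]
    refine mul_le_mul_of_nonneg_right ?_ h4
    calc C * t ^ (2 - α) ≤ C * (β / (2 * (C + 1))) := mul_le_mul_of_nonneg_left h1 hC
      _ ≤ (C + 1) * (β / (2 * (C + 1))) := mul_le_mul_of_nonneg_right (by linarith) hq0.le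
      _ = β / 2 := by field_simp
  have hpi : 0 < Real.pi := Real.pi_pos
  have hrp : r2 ≤ Real.pi := by linarith [Real.pi_gt_three]
  have hfac : 0 < (r2 / Real.pi) ^ α := Real.rpow_pos_of_pos (by positivity) _
  have hfac1 : (r2 / Real.pi) ^ α ≤ 1 :=
    Real.rpow_le_one (by positivity) ((div_le_one hpi).2 hrp) hα.le
  refine ⟨β / 2 * (r2 / Real.pi) ^ α, by positivity, fun θ hθ => ?_⟩
  have hθα : 0 ≤ |θ| ^ α := Real.rpow_nonneg (abs_nonneg _) _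
  rcases le_total |θ| r2 with hle | hle
  · have h1 := hlow |θ| θ (abs_nonneg _) (hle.trans hr2a) hθ le_rfl
    have h3 := hr2b |θ| (abs_nonneg _) hle
    have h5 : β / 2 * (r2 / Real.pi) ^ α * |θ| ^ α ≤ β / 2 * |θ| ^ α := by
      refine mul_le_mul_of_nonneg_right ?_ hθα
      calc β / 2 * (r2 / Real.pi) ^ α ≤ β / 2 * 1 := mul_le_mul_of_nonneg_left hfac1 (by positivity)
        _ = β / 2 := mul_one _
    linarith
  · have h1 := hlow r2 θ hr2p.le hr2a hθ hle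
    have h3 := hr2b r2 hr2p.le le_rfl
    have h5 : β / 2 * (r2 / Real.pi) ^ α * |θ| ^ α ≤ β / 2 * r2 ^ α := by
      rw [mul_assoc]
      refine mul_le_mul_of_nonneg_left ?_ (by positivity)
      rw [← Real.mul_rpow (by positivity) (abs_nonneg _)]
      refine Real.rpow_le_rpow (by positivity) ?_ hα.le
      rw [div_mul_eq_mul_div, div_le_iff₀ hpi]
      exact mul_le_mul_of_nonneg_left hθ hr2p.le
    linarith

end Pool.H50.BB
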