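import Mathlib

/-!
# Row Iri: Riemann sums   (about 70 lines, Mathlib only)

`r ≤ t`, `h = (t-r)/(n+1)`, `a_i = r + i h`.  `∫_r^t φ = ∑_{i<n+1} ∫_{a_i}^{a_{i+1}} φ` (`intervalIntegral.sum_integral_adjacent_intervals`, `a_{n+1} = t`).  `φ` is uniformly continuous on `[r,t]`
(`CompactIcc.uniformContinuousOn_of_continuous`): given `e > 0` take `δ`; for `n` with `h < δ`, `|∫_{a_i}^{a_{i+1}} φ - h φ(a_{i+1})| = |∫_{a_i}^{a_{i+1}} (φ - φ(a_{i+1}))| ≤ e h`
(`intervalIntegral.norm_integral_le_of_norm_le_const`), the sum of the errors is `≤ e (t - r)`.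
-/

open MeasureTheory Set Filter Topology

namespace Pool.H50.BB

theorem Iri_step {φ : ℝ → ℝ} (hφ : Continuous φ) {r t : ℝ} (hrt : r ≤ t) {e δ : ℝ}
    (hδ : ∀ x ∈ Icc r t, ∀ y ∈ Icc r t, |x - y| ≤ δ → |φ x - φ y| ≤ e) (n : ℕ)
    (hn : (t - r) / ((n : ℝ) + 1) ≤ δ) :
    |(t - r) / ((n : ℝ) + 1) * ∑ i ∈ Finset.range (n + 1), φ (r + (t - r) / ((n : ℝ) + 1) * ((i : ℝ) + 1)) -
      ∫ s in r..t, φ s| ≤ e * (t - r) := by
  obtain ⟨h, hh⟩ : ∃ h, h = (t - r) / ((n : ℝ) + 1) := ⟨_, rfl⟩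
  have hn0 : (0 : ℝ) < (n : ℝ) + 1 := by positivity
  have hh0 : 0 ≤ h := by rw [hh]; exact div_nonneg (by linarith) hn0.le
  have hhn : h * ((n : ℝ) + 1) = t - r := by rw [hh]; field_simp
  rw [← hh] at hn ⊢
  have hsum := intervalIntegral.sum_integral_adjacent_intervals (μ := volume) (f := φ)
    (a := fun i : ℕ => r + h * i) (n := n + 1) (fun k _ => hφ.intervalIntegrable _ _)
  have hend : r + h * ((n + 1 : ℕ) : ℝ) = t := by push_cast; linarith
  simp only [hend, Nat.cast_zero, mul_zero, add_zero] at hsum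
  rw [← hsum, Finset.mul_sum, ← Finset.sum_sub_distrib]
  refine (Finset.abs_sum_le_sum_abs _ _).trans ?_
  have hterm : ∀ i ∈ Finset.range (n + 1), |h * φ (r + h * ((i : ℝ) + 1)) -
      ∫ s in (r + h * (i : ℝ))..(r + h * ((i + 1 : ℕ) : ℝ)), φ s| ≤ e * h := by
    intro i hi
    have hi' : (i : ℝ) + 1 ≤ (n : ℝ) + 1 := by
      have := Finset.mem_range.1 hi
      exact_mod_cast this
    have hi0 : (0 : ℝ) ≤ i := Nat.cast_nonneg i
    have e1 : ((i + 1 : ℕ) : ℝ) = (i : ℝ) + 1 := by push_cast; ring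
    rw [e1]
    have hle : r + h * (i : ℝ) ≤ r + h * ((i : ℝ) + 1) := by nlinarith
    have e2 : h * φ (r + h * ((i : ℝ) + 1)) = ∫ s in (r + h * (i : ℝ))..(r + h * ((i : ℝ) + 1)),
        φ (r + h * ((i : ℝ) + 1)) := by
      rw [intervalIntegral.integral_const, smul_eq_mul]
      ring
    have hmem : r + h * ((i : ℝ) + 1) ∈ Icc r t := by
      constructor
      · nlinarith
      · have := mul_le_mul_of_nonneg_left hi' hh0
        linarith
    rw [e2, ← intervalIntegral.integral_sub (by simp) (hφ.intervalIntegrable _ _)]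
    have h3 := intervalIntegral.norm_integral_le_of_norm_le_const (a := r + h * (i : ℝ))
      (b := r + h * ((i : ℝ) + 1)) (C := e) (f := fun s => φ (r + h * ((i : ℝ) + 1)) - φ s) (by
        intro x hx
        rw [uIoc_of_le hle] at hx
        rw [Real.norm_eq_abs]
        refine hδ _ hmem x ⟨?_, hx.2.trans hmem.2⟩ ?_
        · have := mul_nonneg hh0 hi0
          linarith [hx.1]
        · rw [abs_of_nonneg (by linarith [hx.2])]
          linarith [hx.1])
    rw [Real.norm_eq_abs] at h3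
    refine h3.trans (le_of_eq ?_)
    rw [abs_of_nonneg (by linarith)]
    ring
  refine (Finset.sum_le_sum hterm).trans (le_of_eq ?_)
  rw [Finset.sum_const, Finset.card_range, nsmul_eq_mul]
  push_cast
  rw [← hhn]
  ring

theorem riemann_lim {φ : ℝ → ℝ} (hφ : Continuous φ) {r t : ℝ} (hrt : r ≤ t) :
    Tendsto (fun n : ℕ => (t - r) / ((n : ℝ) + 1) *
      ∑ i ∈ Finset.range (n + 1), φ (r + (t - r) / ((n : ℝ) + 1) * ((i : ℝ) + 1))) atTop (𝓝 (∫ s in r..t, φ s)) := by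
  have hu : UniformContinuousOn φ (Icc r t) :=
    isCompact_Icc.uniformContinuousOn_of_continuous hφ.continuousOn
  rw [Metric.uniformContinuousOn_iff_le] at hu
  rw [Metric.tendsto_atTop]
  intro e he
  obtain ⟨e', he', hee⟩ : ∃ e' > 0, e' * (t - r) < e := by
    refine ⟨e / (2 * (t - r + 1)), by positivity [sub_nonneg.2 hrt], ?_⟩
    have : 0 ≤ t - r := by linarith
    rw [div_mul_eq_mul_div, div_lt_iff₀ (by positivity)]
    nlinarith
  obtain ⟨δ, hδ, hd⟩ := hu e' he'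
  have hlim : Tendsto (fun n : ℕ => (t - r) / ((n : ℝ) + 1)) atTop (𝓝 0) := by
    have h1 := tendsto_one_div_add_atTop_nhds_zero_nat (𝕜 := ℝ)
    have h2 := h1.const_mul (t - r)
    rw [mul_zero] at h2
    refine h2.congr fun n => ?_
    ring
  obtain ⟨N, hN⟩ := eventually_atTop.1 (hlim.eventually (ge_mem_nhds hδ))
  refine ⟨N, fun n hn => ?_⟩
  rw [Real.dist_eq]
  refine lt_of_le_of_lt (Iri_step hφ hrt (fun x hx y hy hxy => ?_) n (hN n hn)) hee
  have := hd x hx y hy (by rw [Real.dist_eq]; exact hxy)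
  rwa [Real.dist_eq] at this

end Pool.H50.BB
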