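import Pool.Agent.H50.BB.Iqq
import Pool.Agent.H50.BB.Iri
import Pool.Agent.H50.BB.Gmk

/-!
# Row Ich: the cosh lemma   (about 130 lines)

If `r = t`: `Gm_self` (both sides; `exp 0 = 1`).  Let `r < t`, `h = (t-r)/(n+1) > 0`, `g i y = ofReal (exp (-(h * c (r + h (i+1)) y)))`: `EN (g i)` (`hcev`, `hcm`; continuous in `y`).
`QQ h g (n+1) F y = ∫⁻ w, ofReal (exp (-(h ∑_{i<n+1} c (r + h(i+1)) (y + w (h(i+1)))))) * F (y + w (t - r)) dWm` (product of exponentials: `ENNReal.ofReal_prod_of_nonneg`, `Real.exp_sum`; `h * (n+1) = t - r`).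
For every `w` the integrand tends (`n → ∞`) to `ofReal (exp (-∫_r^t c s (y + w (s-r)) ds)) * F (y + w(t-r))`: `riemann_lim` (Iri.lean) for `φ s = c s (y + w (s - r))` (continuous: `gmk_path_cont`).
`F = 1`: dominated convergence (`tendsto_lintegral_of_dominated_convergence`, bound 1, `c ≥ 0`): `QQ → Gm c r t 1 y`.
`F = ch ν`: Fatou (`lintegral_liminf_le`): `Gm c r t (ch ν) y ≤ liminf QQ h g (n+1) (ch ν) y ≤ liminf ofReal (exp (ν² (t-r)/2) cosh (ν y)) * QQ h g (n+1) 1 y = ofReal (..) * Gm c r t 1 y`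
(`QQ_ch`, `h (n+1) = t - r`; the limit of a constant, finite, times a convergent sequence: `ENNReal.Tendsto.const_mul`, `Tendsto.liminf_eq`).
-/

open MeasureTheory ProbabilityTheory Set Filter Topology
open scoped NNReal ENNReal

namespace Pool.H50.BB

open Pool.Agent.H4.BM

/-- the weights of the discretisation -/
private noncomputable def Ich_g (c : ℝ → ℝ → ℝ) (r h : ℝ) (i : ℕ) (y : ℝ) : ℝ≥0∞ :=
  ENNReal.ofReal (Real.exp (-(h * c (r + h * ((i : ℝ) + 1)) y)))

private theorem Ich_EN {c : ℝ → ℝ → ℝ} (hc : Continuous (Function.uncurry c))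
    (hcev : ∀ s y, c s (-y) = c s y) (hcm : ∀ s y y', 0 ≤ y → y ≤ y' → c s y ≤ c s y') (r : ℝ) {h : ℝ}
    (hh : 0 ≤ h) (i : ℕ) : EN (Ich_g c r h i) where
  meas := by
    have h1 : Continuous fun y : ℝ => c (r + h * ((i : ℝ) + 1)) y :=
      hc.comp (continuous_const.prodMk continuous_id)
    exact (Real.measurable_exp.comp (h1.measurable.const_mul h).neg).ennreal_ofReal
  even y := by
    unfold Ich_g
    rw [hcev]
  anti y y' hy hyy := by
    unfold Ich_g
    refine ENNReal.ofReal_le_ofReal (Real.exp_le_exp.2 (neg_le_neg ?_))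
    exact mul_le_mul_of_nonneg_left (hcm _ _ _ hy hyy) hh

private theorem Ich_prod (c : ℝ → ℝ → ℝ) (r h y : ℝ) (n : ℕ) (w : Pth) :
    (∏ i ∈ Finset.range n, Ich_g c r h i (y + w (h * ((i : ℝ) + 1)))) =
      ENNReal.ofReal (Real.exp (-(h * ∑ i ∈ Finset.range n,
        (fun s => c s (y + w (s - r))) (r + h * ((i : ℝ) + 1))))) := by
  unfold Ich_g
  rw [← ENNReal.ofReal_prod_of_nonneg (fun _ _ => (Real.exp_pos _).le), ← Real.exp_sum]
  congr 2
  rw [Finset.mul_sum, ← Finset.sum_neg_distrib]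
  refine Finset.sum_congr rfl fun i _ => ?_
  simp only
  rw [add_sub_cancel_left]

theorem cosh_gm {c : ℝ → ℝ → ℝ} (hc : Continuous (Function.uncurry c)) (hc0 : ∀ s y, 0 ≤ c s y)
    (hcev : ∀ s y, c s (-y) = c s y) (hcm : ∀ s y y', 0 ≤ y → y ≤ y' → c s y ≤ c s y') (ν : ℝ) {r t : ℝ}
    (hrt : r ≤ t) (y : ℝ) :
    Gm c r t (ch ν) y ≤ ENNReal.ofReal (Real.exp (ν ^ 2 * (t - r) / 2) * Real.cosh (ν * y)) *
      Gm c r t (fun _ => 1) y := by
  rcases hrt.eq_or_lt with rfl | hlt
  · rw [Gm_self, Gm_self, sub_self, mul_zero, zero_div, Real.exp_zero, one_mul, mul_one]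
    exact le_rfl
  set h : ℕ → ℝ := fun n => (t - r) / ((n : ℝ) + 1) with hh
  have hh0 : ∀ n, 0 < h n := fun n => div_pos (by linarith) (by positivity)
  have hhn : ∀ n : ℕ, h n * ((n + 1 : ℕ) : ℝ) = t - r := by
    intro n
    have : (n : ℝ) + 1 ≠ 0 := by positivity
    simp only [hh]
    push_cast
    field_simp
  set A : ℕ → Pth → ℝ≥0∞ := fun n w =>
    ∏ i ∈ Finset.range (n + 1), Ich_g c r (h n) i (y + w (h n * ((i : ℝ) + 1))) with hA
  have hEN : ∀ n i, EN (Ich_g c r (h n) i) := fun n i => Ich_EN hc hcev hcm r (hh0 n).le i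
  have hAm : ∀ n, Measurable (A n) := by
    intro n
    refine Finset.measurable_prod _ fun i _ => ?_
    exact (hEN n i).meas.comp (measurable_const.add (Pth.measurable_apply _))
  have hA1 : ∀ n w, A n w ≤ 1 := by
    intro n w
    rw [hA]
    simp only
    rw [Ich_prod, ENNReal.ofReal_le_one, Real.exp_le_one_iff, neg_nonpos]
    exact mul_nonneg (hh0 n).le (Finset.sum_nonneg fun i _ => hc0 _ _)
  have hAl : ∀ w, Tendsto (fun n => A n w) atTop
      (𝓝 (ENNReal.ofReal (Real.exp (-∫ s in r..t, c s (y + w (s - r)))))) := by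
    intro w
    have h1 := riemann_lim (gmk_path_cont hc y r w) hrt
    have h2 := ENNReal.tendsto_ofReal ((Real.continuous_exp.tendsto _).comp h1.neg)
    refine h2.congr fun n => ?_
    simp only [hA]
    rw [Ich_prod]
    rfl
  have hQ : ∀ n F, QQ (h n) (Ich_g c r (h n)) (n + 1) F y = ∫⁻ w, A n w * F (y + w (t - r)) ∂Wm := by
    intro n F
    unfold QQ
    rw [hhn n]
  have hch : Measurable (ch ν) := by
    unfold ch
    exact (Real.continuous_cosh.measurable.comp (measurable_const_mul ν)).ennreal_ofReal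
  have hone : Tendsto (fun n => ∫⁻ w, A n w * (fun _ => (1 : ℝ≥0∞)) (y + w (t - r)) ∂Wm) atTop
      (𝓝 (Gm c r t (fun _ => 1) y)) := by
    unfold Gm
    simp only [mul_one]
    refine tendsto_lintegral_of_dominated_convergence (fun _ => 1) hAm
      (fun n => Eventually.of_forall fun w => hA1 n w) ?_ (Eventually.of_forall hAl)
    rw [lintegral_one, measure_univ]
    exact ENNReal.one_ne_top
  have hle : ∀ n, ∫⁻ w, A n w * ch ν (y + w (t - r)) ∂Wm ≤
      ENNReal.ofReal (Real.exp (ν ^ 2 * (t - r) / 2) * Real.cosh (ν * y)) *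
        ∫⁻ w, A n w * (fun _ => (1 : ℝ≥0∞)) (y + w (t - r)) ∂Wm := by
    intro n
    have h1 := QQ_ch (hh0 n) (hEN n) (n + 1) ν y
    rw [hQ, hQ, hhn n] at h1
    exact h1
  have hfat : Gm c r t (ch ν) y ≤ liminf (fun n => ∫⁻ w, A n w * ch ν (y + w (t - r)) ∂Wm) atTop := by
    have hmt : Measurable fun w : Pth => ch ν (y + w (t - r)) :=
      hch.comp (measurable_const.add (Pth.measurable_apply _))
    refine le_trans (le_of_eq ?_) (lintegral_liminf_le fun n => (hAm n).mul hmt)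
    unfold Gm
    refine lintegral_congr fun w => ?_
    have h1 : Tendsto (fun n => A n w * ch ν (y + w (t - r))) atTop
        (𝓝 (ENNReal.ofReal (Real.exp (-∫ s in r..t, c s (y + w (s - r)))) * ch ν (y + w (t - r)))) :=
      ENNReal.Tendsto.mul_const (hAl w) (Or.inr (by unfold ch; exact ENNReal.ofReal_ne_top))
    exact h1.liminf_eq.symm
  refine hfat.trans ((liminf_le_liminf (Eventually.of_forall hle)).trans (le_of_eq ?_))
  exact (ENNReal.Tendsto.const_mul hone (Or.inr ENNReal.ofReal_ne_top)).liminf_eq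

end Pool.H50.BB
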