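import Pool.Agent.H50.BB.Idf
import Pool.Agent.H50.BB.Bcm

/-!
# Row Icm: Cameron-Martin in the plane   (about 80 lines)

`μ1 = √2 cos ϑ`, `μ2 = √2 sin ϑ`, `μ1² + μ2² = 2`; `T : ℝ≥0 := ⟨t, ht⟩`.  By `hs`, `F w = F (Pth.stop T w.1, Pth.stop T w.2)` (`Pth.stop_apply`: `stop T A r = A (min r T)`).
`W2 = Wm.prod Wm`; `lintegral_prod` (integrand measurable).  For fixed `A = w.1`:
`∫⁻ B, ofReal (exp (μ2 B t)) * F (A,B) dWm = ofReal (exp (μ2² t/2)) * ∫⁻ B, ofReal (exp (μ2 * B T - μ2² T/2)) * F (A, stop T B) dWm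
 = ofReal (exp (μ2² t/2)) * ∫⁻ B, F (A, stop T (addP (lineP μ2) B)) dWm` by `cm_lin` (Bcm.lean) with `G B = F (A, B)`; `F (A, stop T B') = F (A, B')` by `hs`.
Then exchange the order (`lintegral_lintegral_swap` or `lintegral_prod_symm`) and do the same with the first coordinate.
`exp (√2 (cos ϑ w1 + sin ϑ w2)) = exp (μ1 w1) exp (μ2 w2)` and `exp (μ1² t/2) exp (μ2² t/2) = exp t`.
`addP_meas` gives the measurability of `addP p`.
-/

open MeasureTheory ProbabilityTheory Set Filter Topology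
open scoped NNReal ENNReal

namespace Pool.H50.BB

open Pool.Agent.H4.BM

/-- one coordinate -/
theorem Icm_one (μ : ℝ) {t : ℝ} (ht : 0 ≤ t) {F : Pth → ℝ≥0∞} (hF : Measurable F)
    (hs : ∀ w w' : Pth, (∀ r ∈ Icc (0 : ℝ) t, w r = w' r) → F w = F w') :
    ∫⁻ w, ENNReal.ofReal (Real.exp (μ * w t)) * F w ∂Wm =
      ENNReal.ofReal (Real.exp (μ ^ 2 * t / 2)) * ∫⁻ w, F (addP (lineP μ) w) ∂Wm := by
  obtain ⟨T, hT⟩ : ∃ T : ℝ≥0, (T : ℝ) = t := ⟨⟨t, ht⟩, rfl⟩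
  have hst : ∀ w : Pth, F (Pth.stop T w) = F w := fun w => hs _ _ fun r hr => by
    rw [Pth.stop_apply, hT, min_eq_left hr.2]
  have h1 := cm_lin μ T hF
  simp only [hst] at h1
  rw [h1, ← lintegral_const_mul _ (by
    refine Measurable.mul ?_ hF
    have := Pth.measurable_apply (T : ℝ)
    fun_prop)]
  refine lintegral_congr fun w => ?_
  rw [← mul_assoc, ← ENNReal.ofReal_mul (Real.exp_pos _).le, ← Real.exp_add, hT]
  congr 3
  ring

theorem cm2 (ϑ : ℝ) {t : ℝ} (ht : 0 ≤ t) {F : P2 → ℝ≥0∞} (hF : Measurable F)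
    (hs : ∀ w w' : P2, (∀ r ∈ Icc (0 : ℝ) t, w.1 r = w'.1 r ∧ w.2 r = w'.2 r) → F w = F w') :
    ∫⁻ w, ENNReal.ofReal (Real.exp (√2 * (Real.cos ϑ * w.1 t + Real.sin ϑ * w.2 t))) * F w ∂W2 =
      ENNReal.ofReal (Real.exp t) *
        ∫⁻ w, F (addP (lineP (√2 * Real.cos ϑ)) w.1, addP (lineP (√2 * Real.sin ϑ)) w.2) ∂W2 := by
  obtain ⟨μ1, hμ1⟩ : ∃ μ1, μ1 = √2 * Real.cos ϑ := ⟨_, rfl⟩
  obtain ⟨μ2, hμ2⟩ : ∃ μ2, μ2 = √2 * Real.sin ϑ := ⟨_, rfl⟩
  have h12 : μ1 ^ 2 + μ2 ^ 2 = 2 := by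
    rw [hμ1, hμ2, mul_pow, mul_pow, Real.sq_sqrt (by norm_num)]
    have := Real.sin_sq_add_cos_sq ϑ
    linarith
  rw [← hμ1, ← hμ2]
  have m1 : Measurable fun w : P2 => w.1 t := (Pth.measurable_apply t).comp measurable_fst
  have m2 : Measurable fun w : P2 => w.2 t := (Pth.measurable_apply t).comp measurable_snd
  have hA : Measurable fun w : P2 => F (w.1, addP (lineP μ2) w.2) :=
    hF.comp (measurable_fst.prodMk ((addP_meas _).comp measurable_snd))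
  have hAB : Measurable fun w : P2 => F (addP (lineP μ1) w.1, addP (lineP μ2) w.2) :=
    hF.comp (((addP_meas _).comp measurable_fst).prodMk ((addP_meas _).comp measurable_snd))
  have e0 : ∀ w : P2, ENNReal.ofReal (Real.exp (√2 * (Real.cos ϑ * w.1 t + Real.sin ϑ * w.2 t))) * F w =
      ENNReal.ofReal (Real.exp (μ1 * w.1 t)) * (ENNReal.ofReal (Real.exp (μ2 * w.2 t)) * F w) := by
    intro w
    rw [← mul_assoc, ← ENNReal.ofReal_mul (Real.exp_pos _).le, ← Real.exp_add, hμ1, hμ2]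
    congr 3
    ring
  simp only [e0]
  unfold W2
  rw [lintegral_prod _ (by
    refine (Measurable.mul ?_ (Measurable.mul ?_ hF)).aemeasurable <;> fun_prop)]
  -- second coordinate
  have e1 : ∀ A : Pth, ∫⁻ B, ENNReal.ofReal (Real.exp (μ1 * A t)) *
      (ENNReal.ofReal (Real.exp (μ2 * B t)) * F (A, B)) ∂Wm =
      ENNReal.ofReal (Real.exp (μ2 ^ 2 * t / 2)) *
        ∫⁻ B, ENNReal.ofReal (Real.exp (μ1 * A t)) * F (A, addP (lineP μ2) B) ∂Wm := by
    intro A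
    have hFA : Measurable fun B => F (A, B) := hF.comp measurable_prodMk_left
    have mB : Measurable fun B : Pth => B t := Pth.measurable_apply t
    have mE : Measurable fun B : Pth => ENNReal.ofReal (Real.exp (μ2 * B t)) * F (A, B) :=
      Measurable.mul (by fun_prop) hFA
    have mG : Measurable fun B : Pth => F (A, addP (lineP μ2) B) := hFA.comp (addP_meas _)
    rw [lintegral_const_mul _ mE, lintegral_const_mul _ mG,
      Icm_one μ2 ht hFA (fun w w' h => hs _ _ fun r hr => ⟨rfl, h r hr⟩)]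
    ring
  simp only [e1]
  have hK : Measurable fun w : P2 => ENNReal.ofReal (Real.exp (μ1 * w.1 t)) * F (w.1, addP (lineP μ2) w.2) := by
    refine Measurable.mul ?_ hA
    fun_prop
  rw [lintegral_const_mul _ hK.lintegral_prod_right']
  have e2 : ∫⁻ A, ∫⁻ B, ENNReal.ofReal (Real.exp (μ1 * A t)) * F (A, addP (lineP μ2) B) ∂Wm ∂Wm =
      ∫⁻ B, ∫⁻ A, ENNReal.ofReal (Real.exp (μ1 * A t)) * F (A, addP (lineP μ2) B) ∂Wm ∂Wm :=
    lintegral_lintegral_swap (f := fun A B => ENNReal.ofReal (Real.exp (μ1 * A t)) * F (A, addP (lineP μ2) B))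
      hK.aemeasurable
  rw [e2]
  have e3 : ∀ B : Pth, ∫⁻ A, ENNReal.ofReal (Real.exp (μ1 * A t)) * F (A, addP (lineP μ2) B) ∂Wm =
      ENNReal.ofReal (Real.exp (μ1 ^ 2 * t / 2)) * ∫⁻ A, F (addP (lineP μ1) A, addP (lineP μ2) B) ∂Wm := by
    intro B
    exact Icm_one μ1 ht (F := fun A => F (A, addP (lineP μ2) B)) (hF.comp measurable_prodMk_right)
      (fun w w' h => hs _ _ fun r hr => ⟨h r hr, rfl⟩)
  simp only [e3]
  rw [lintegral_const_mul _ hAB.lintegral_prod_left']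
  rw [← mul_assoc, ← ENNReal.ofReal_mul (Real.exp_pos _).le, ← Real.exp_add]
  rw [show μ2 ^ 2 * t / 2 + μ1 ^ 2 * t / 2 = t by
    have : μ2 ^ 2 * t / 2 + μ1 ^ 2 * t / 2 = (μ1 ^ 2 + μ2 ^ 2) * t / 2 := by ring
    rw [this, h12]
    ring]
  congr 1
  rw [lintegral_prod_symm _ hAB.aemeasurable]

end Pool.H50.BB
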