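import Pool.Agent.H50.BB.Defs3

/-!
# Definitions for part I (passage from the maximal abscissa to the maximal norm)
-/

open MeasureTheory ProbabilityTheory Set Filter Topology
open scoped NNReal ENNReal

namespace Pool.H50.BB

open Pool.Agent.H4.BM

/-- planar path with drift `√2 (cos ϑ, sin ϑ)` -/
noncomputable def dp (ϑ : ℝ) (w : P2) (r : ℝ) : ℂ :=
  ⟨w.1 r + √2 * Real.cos ϑ * r, w.2 r + √2 * Real.sin ϑ * r⟩

/-- the abscissa stays below the line `K + √2 s` and the final ordinate is far from 0 -/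
def dEv (ϑ K R t : ℝ) : Set P2 :=
  {w | (∀ s ∈ Icc (0 : ℝ) t, (dp ϑ w s).re < K + √2 * s) ∧ R ≤ |(dp ϑ w t).im|}

/-- the tilted expectation in the direction `ϑ` -/
noncomputable def ID (b : ℝ → ℝ) (ϑ K R t : ℝ) : ℝ≥0∞ :=
  ∫⁻ w in dEv ϑ K R t, ENNReal.ofReal
    (Real.exp (-∫ r in (0 : ℝ)..t, (1 - b (Complex.arg (dp ϑ w r))))) ∂W2

/-- even measurable functions, nonincreasing in `|y|` -/
structure EN (f : ℝ → ℝ≥0∞) : Prop where
  meas : Measurable f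
  even : ∀ y, f (-y) = f y
  anti : ∀ y y', 0 ≤ y → y ≤ y' → f y' ≤ f y

/-- indicator of `R ≤ |z|` -/
noncomputable def far (R z : ℝ) : ℝ≥0∞ := ({z : ℝ | R ≤ |z|}).indicator (fun _ => 1) z

/-- hyperbolic cosine -/
noncomputable def ch (ν z : ℝ) : ℝ≥0∞ := ENNReal.ofReal (Real.cosh (ν * z))

/-- discretised functional -/
noncomputable def QQ (h : ℝ) (g : ℕ → ℝ → ℝ≥0∞) (n : ℕ) (F : ℝ → ℝ≥0∞) (y : ℝ) : ℝ≥0∞ :=
  ∫⁻ w, (∏ i ∈ Finset.range n, g i (y + w (h * (i + 1)))) * F (y + w (h * n)) ∂Wm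

/-- the threshold for the ordinate in the direction `ϑ` -/
noncomputable def Rth (α ε η t ϑ : ℝ) : ℝ := if |ϑ| ≤ t ^ (η - gam α) then √ε / 2 * √t else 0

end Pool.H50.BB
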