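import Pool.Agent.H50.BB.Ian

/-!
# Row Iqq: the discretised functional   (about 130 lines)

`QQ_succ`: Markov property at the time `h` (`lintegral_stop_shift Wm_isW`, H4/BM/Wiener.lean, see the proof of `Gm_markov` in Gmk.lean): for `i ≥ 1`, `w (h (i+1)) = w h + (Pth.shift h w) (h i)` (`Pth.shift_apply_of_nonneg`),
`Finset.prod_range_succ'`: the factor `i = 0` is `g 0 (y + w h)` (take it out with `lintegral_const_mul`), the others are `g (i+1) ((y + w h) + w' (h (i+1)))`, and `y + w (h (n+1)) = (y + w h) + w' (h n)`.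
`QQ_zero`: `w 0 = 0` (`Pth.zero`) .
`QQ_EN`: induction on `n` (for all `g`): `QQ h g (n+1) 1 = P_h (g 0 * QQ h (shift g) n 1)`, `EN.mul`, `EN.heat`.
`QQ_ch`: induction on `n` (for all `g`, `y`): `QQ h g (n+1) (ch ν) y = ∫⁻ g 0 (z) * QQ h g' n (ch ν) z ≤ ∫⁻ g 0 z * ofReal (exp (ν² h n/2) cosh (ν z)) * QQ h g' n 1 z = ofReal (exp (ν² h n/2)) ∫⁻ ch ν z * (g 0 z * QQ h g' n 1 z)`,
`z = y + w h`, and by `EN_assoc` (`g 0 * QQ h g' n 1` is `EN`) and `ch_heat` this is `≤ ofReal (exp (ν² h n/2)) * ofReal (exp (ν² h/2) cosh (ν y)) * QQ h g (n+1) 1 y`.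
-/

open MeasureTheory ProbabilityTheory Set Filter Topology
open scoped NNReal ENNReal

namespace Pool.H50.BB

open Pool.Agent.H4.BM

theorem QQ_zero (h : ℝ) (g : ℕ → ℝ → ℝ≥0∞) (F : ℝ → ℝ≥0∞) (y : ℝ) : QQ h g 0 F y = F y := by
  unfold QQ
  simp

theorem QQ_succ {h : ℝ} (hh : 0 ≤ h) {g : ℕ → ℝ → ℝ≥0∞} (hg : ∀ i, Measurable (g i)) (n : ℕ) {F : ℝ → ℝ≥0∞}
    (hF : Measurable F) (y : ℝ) :
    QQ h g (n + 1) F y = ∫⁻ w, g 0 (y + w h) * QQ h (fun i => g (i + 1)) n F (y + w h) ∂Wm := by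
  obtain ⟨a, ha⟩ : ∃ a : ℝ≥0, (a : ℝ) = h := ⟨⟨h, hh⟩, rfl⟩
  let G : Pth × Pth → ℝ≥0∞ := fun p =>
    g 0 (y + p.1 a) * ((∏ i ∈ Finset.range n, g (i + 1) ((y + p.1 a) + p.2 (h * (i + 1)))) *
      F ((y + p.1 a) + p.2 (h * n)))
  have mA : Measurable fun p : Pth × Pth => y + p.1 a :=
    measurable_const.add ((Pth.measurable_apply a).comp measurable_fst)
  have mB : ∀ t : ℝ, Measurable fun p : Pth × Pth => (y + p.1 a) + p.2 t := fun t =>
    mA.add ((Pth.measurable_apply t).comp measurable_snd)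
  have hG : Measurable G := by
    refine ((hg 0).comp mA).mul (Measurable.mul ?_ (hF.comp (mB _)))
    exact Finset.measurable_prod _ fun i _ => (hg (i + 1)).comp (mB _)
  have key : ∀ (w : Pth) (t : ℝ), 0 ≤ t → (y + Pth.stop a w a) + Pth.shift a w t = y + w (h + t) := by
    intro w t ht
    rw [Pth.stop_apply, min_self, Pth.shift_apply_of_nonneg _ _ ht, ha]
    ring
  have e1 : QQ h g (n + 1) F y = ∫⁻ w, G (Pth.stop a w, Pth.shift a w) ∂Wm := by
    unfold QQ
    refine lintegral_congr fun w => ?_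
    show _ = g 0 (y + Pth.stop a w a) *
      ((∏ i ∈ Finset.range n, g (i + 1) ((y + Pth.stop a w a) + Pth.shift a w (h * (i + 1)))) *
      F ((y + Pth.stop a w a) + Pth.shift a w (h * n)))
    rw [key w _ (mul_nonneg hh (Nat.cast_nonneg n)), Finset.prod_range_succ', Pth.stop_apply, min_self, ha]
    have h1 : ∏ i ∈ Finset.range n, g (i + 1) ((y + w h) + Pth.shift a w (h * (i + 1))) =
        ∏ k ∈ Finset.range n, g (k + 1) (y + w (h * (((k + 1 : ℕ) : ℝ) + 1))) := by
      refine Finset.prod_congr rfl fun i _ => ?_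
      have h2 := key w (h * (i + 1)) (by positivity)
      rw [Pth.stop_apply, min_self, ha] at h2
      rw [h2]
      congr 2
      push_cast
      congr 1
      ring
    rw [h1]
    have h3 : h * (((n + 1 : ℕ) : ℝ)) = h + h * n := by push_cast; ring
    have h4 : h * (((0 : ℕ) : ℝ) + 1) = h := by push_cast; ring
    rw [h3, h4]
    ring
  rw [e1, lintegral_stop_shift Wm_isW a hG]
  refine lintegral_congr fun w => ?_
  show ∫⁻ B, g 0 (y + Pth.stop a w a) *
      ((∏ i ∈ Finset.range n, g (i + 1) ((y + Pth.stop a w a) + B (h * (i + 1)))) *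
      F ((y + Pth.stop a w a) + B (h * n))) ∂Wm = _
  rw [Pth.stop_apply, min_self, ha]
  unfold QQ
  refine lintegral_const_mul _ ?_
  refine Measurable.mul ?_ (hF.comp (measurable_const.add (Pth.measurable_apply _)))
  exact Finset.measurable_prod _ fun i _ => (hg (i + 1)).comp (measurable_const.add (Pth.measurable_apply _))

theorem QQ_EN {h : ℝ} (hh : 0 < h) {g : ℕ → ℝ → ℝ≥0∞} (hg : ∀ i, EN (g i)) (n : ℕ) : EN (QQ h g n fun _ => 1) := by
  induction n generalizing g with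
  | zero =>
    have h1 : (QQ h g 0 fun _ => 1) = fun _ => 1 := funext fun y => QQ_zero h g _ y
    rw [h1]
    exact EN_one
  | succ n ih =>
    have h1 : (QQ h g (n + 1) fun _ => 1) =
        fun y => ∫⁻ w, (fun z => g 0 z * QQ h (fun i => g (i + 1)) n (fun _ => 1) z) (y + w h) ∂Wm :=
      funext fun y => QQ_succ hh.le (fun i => (hg i).meas) n measurable_const y
    rw [h1]
    exact EN.heat ((hg 0).mul (ih fun i => hg (i + 1))) hh

theorem QQ_ch {h : ℝ} (hh : 0 < h) {g : ℕ → ℝ → ℝ≥0∞} (hg : ∀ i, EN (g i)) (n : ℕ) (ν y : ℝ) :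
    QQ h g n (ch ν) y ≤ ENNReal.ofReal (Real.exp (ν ^ 2 * (h * n) / 2) * Real.cosh (ν * y)) * QQ h g n (fun _ => 1) y := by
  have mch : Measurable (ch ν) := by
    unfold ch
    exact (Real.measurable_cosh.comp (measurable_const.mul measurable_id)).ennreal_ofReal
  induction n generalizing g y with
  | zero =>
    rw [QQ_zero, QQ_zero]
    simp [ch]
  | succ n ih =>
    rw [QQ_succ hh.le (fun i => (hg i).meas) n mch, QQ_succ hh.le (fun i => (hg i).meas) n measurable_const]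
    have hEN : EN (fun z => g 0 z * QQ h (fun i => g (i + 1)) n (fun _ => 1) z) :=
      (hg 0).mul (QQ_EN hh (fun i => hg (i + 1)) n)
    have hmz : Measurable fun w : Pth => y + w h := measurable_const.add (Pth.measurable_apply _)
    calc ∫⁻ w, g 0 (y + w h) * QQ h (fun i => g (i + 1)) n (ch ν) (y + w h) ∂Wm
        ≤ ∫⁻ w, ENNReal.ofReal (Real.exp (ν ^ 2 * (h * n) / 2)) * (ch ν (y + w h) *
          (g 0 (y + w h) * QQ h (fun i => g (i + 1)) n (fun _ => 1) (y + w h))) ∂Wm := by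
          refine lintegral_mono fun w => ?_
          refine (mul_le_mul' le_rfl (ih (fun i => hg (i + 1)) (y + w h))).trans (le_of_eq ?_)
          rw [ENNReal.ofReal_mul (Real.exp_pos _).le]
          unfold ch
          ring
      _ = ENNReal.ofReal (Real.exp (ν ^ 2 * (h * n) / 2)) * ∫⁻ w, ch ν (y + w h) *
          (g 0 (y + w h) * QQ h (fun i => g (i + 1)) n (fun _ => 1) (y + w h)) ∂Wm :=
          lintegral_const_mul _ ((mch.comp hmz).mul (hEN.meas.comp hmz))
      _ ≤ ENNReal.ofReal (Real.exp (ν ^ 2 * (h * n) / 2)) * ((∫⁻ w, ch ν (y + w h) ∂Wm) *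
          ∫⁻ w, g 0 (y + w h) * QQ h (fun i => g (i + 1)) n (fun _ => 1) (y + w h) ∂Wm) :=
          mul_le_mul' le_rfl (EN_assoc hEN ν y h)
      _ = ENNReal.ofReal (Real.exp (ν ^ 2 * (h * (n + 1 : ℕ)) / 2) * Real.cosh (ν * y)) *
          ∫⁻ w, g 0 (y + w h) * QQ h (fun i => g (i + 1)) n (fun _ => 1) (y + w h) ∂Wm := by
          rw [ch_heat ν y hh.le, ← mul_assoc, ← ENNReal.ofReal_mul (Real.exp_pos _).le, ← mul_assoc, ← Real.exp_add]
          congr 4
          push_cast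
          ring

end Pool.H50.BB
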