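import Pool.Agent.H50.BB.Icm
import Pool.Agent.H50.BB.Hi
import Pool.Agent.H50.BB.Ap

/-!
# Row Ird: reduction to tilted expectations   (about 170 lines)

`hik` (Hi.lean) with `s = 0`, `u q x = vf b A (t - q) x` (`v_subfk hb hA 0 t`, Ap.lean), the point `0` and `K`: (`t - 0 = t`, `0 + z = z`)
`ofReal (vf b A t 0) ≤ ofReal (exp (-√2 K)) + ∫⁻ w in {w | w.1 ∈ Blw K √2 t}, ofReal (exp (∫_0^t b(arg (pt w r)) dr) * vf b A 0 (pt w t)) dW2`, and `vf b A 0 z = A.indicator 1 z` (`vf_zero`, FKv.lean).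
Pointwise: if `pt w t ∉ A` the integrand is 0.  If `pt w t ∈ A` take `ϑ ∈ J` from `hJ`: `∫_0^t b = t - ∫_0^t (1-b)` (bounded measurable integrands) and
`t ≤ t - √2 y0 + √2 (cos ϑ w.1 t + sin ϑ w.2 t)`, so the integrand is `≤ ofReal (exp (t - √2 y0)) * (ofReal (exp (√2 (cos ϑ w.1 t + sin ϑ w.2 t))) * F ϑ w)`,
`F ϑ w = {w | w.1 ∈ Blw K √2 t ∧ Rf ϑ ≤ |w.2 t|}.indicator (ofReal (exp (-∫_0^t (1 - b(arg (pt w r))) dr))) w`, hence `≤ ∑ ϑ ∈ J` of these (all terms `≥ 0`; `Finset.single_le_sum`).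
So the integral is `≤ ofReal (exp (t - √2 y0)) * ∑ ϑ ∈ J, ∫⁻ w, ofReal (exp (√2 (..))) * F ϑ w dW2` (`lintegral_finset_sum`, `lintegral_const_mul`, the restriction is dropped), and by `cm2` (Icm.lean; `F ϑ` only depends on
the path on `[0,t]`) each integral is `ofReal (exp t) * ∫⁻ w, F ϑ (shifted w) dW2`, `F ϑ (shifted w) = (dEv ϑ K (Rf ϑ) t).indicator (integrand of ID) w`: `pt (shifted w) r = dp ϑ w r` for `r ≥ 0`
(`lineP μ r = μ * max r 0`, `Bcm_addP_apply`); `Blw K √2 t` for the shifted path is the first condition of `dEv`.  So it is `ofReal (exp t) * ID b ϑ K (Rf ϑ) t`; `exp (t - √2 y0) exp t = exp (2t - √2 y0)`.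
Measurability: of `w ↦ ∫_0^t (1 - b (arg (pt w r))) dr`: `Hi_ivl` (Hi.lean) with `F w r = 1 - b (arg (pt w r))` jointly measurable (`Pth.measurable_eval`, `Complex.measurable_arg`, the point `⟨x, y⟩` is
measurable e.g. as `x + y * I` or via `Complex.measurableEquivRealProd.symm`; see `barg_meas` and the file Mea.lean for `pt`); of `Blw`: `blw_meas` (Brf.lean).
-/

open MeasureTheory ProbabilityTheory Set Filter Topology
open scoped NNReal ENNReal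

namespace Pool.H50.BB

open Pool.Agent.H4.BM

/-- the shifted path -/
noncomputable def Ird_sh (ϑ : ℝ) (w : P2) : P2 :=
  (addP (lineP (√2 * Real.cos ϑ)) w.1, addP (lineP (√2 * Real.sin ϑ)) w.2)

theorem Ird_sh_meas (ϑ : ℝ) : Measurable (Ird_sh ϑ) :=
  ((addP_meas _).comp measurable_fst).prodMk ((addP_meas _).comp measurable_snd)

theorem Ird_sh_fst (ϑ : ℝ) (w : P2) {r : ℝ} (hr : 0 ≤ r) : (Ird_sh ϑ w).1 r = w.1 r + √2 * Real.cos ϑ * r := by
  have h1 : lineP (√2 * Real.cos ϑ) r = √2 * Real.cos ϑ * max r 0 := rfl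
  unfold Ird_sh
  rw [Bcm_addP_apply, h1, max_eq_left hr]

theorem Ird_sh_snd (ϑ : ℝ) (w : P2) {r : ℝ} (hr : 0 ≤ r) : (Ird_sh ϑ w).2 r = w.2 r + √2 * Real.sin ϑ * r := by
  have h1 : lineP (√2 * Real.sin ϑ) r = √2 * Real.sin ϑ * max r 0 := rfl
  unfold Ird_sh
  rw [Bcm_addP_apply, h1, max_eq_left hr]

theorem Ird_pt (ϑ : ℝ) (w : P2) {r : ℝ} (hr : 0 ≤ r) : pt (Ird_sh ϑ w) r = dp ϑ w r := by
  unfold pt dp
  rw [Ird_sh_fst ϑ w hr, Ird_sh_snd ϑ w hr]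

/-- the event -/
def Ird_S (K R t : ℝ) : Set P2 := {w | w.1 ∈ Blw K √2 t ∧ R ≤ |w.2 t|}

theorem Ird_S_meas (K R t : ℝ) : MeasurableSet (Ird_S K R t) :=
  (measurable_fst (blw_meas K √2 t)).inter
    (measurableSet_le measurable_const ((measurable_norm.comp ((Pth.measurable_apply t).comp measurable_snd))))

theorem Ird_S_sh (ϑ K R t : ℝ) (ht : 0 ≤ t) (w : P2) : Ird_sh ϑ w ∈ Ird_S K R t ↔ w ∈ dEv ϑ K R t := by
  unfold Ird_S dEv
  simp only [mem_ofPred_eq]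
  rw [Ird_sh_snd ϑ w ht]
  refine and_congr ?_ Iff.rfl
  unfold Blw
  simp only [mem_ofPred_eq]
  refine forall₂_congr fun s hs => ?_
  rw [Ird_sh_fst ϑ w hs.1]
  rfl

theorem Ird_S_eq (ϑ K R t : ℝ) (ht : 0 ≤ t) : dEv ϑ K R t = Ird_sh ϑ ⁻¹' Ird_S K R t := by
  ext w
  exact (Ird_S_sh ϑ K R t ht w).symm

/-- the cost -/
noncomputable def Ird_c (b : ℝ → ℝ) (t : ℝ) (w : P2) : ℝ≥0∞ :=
  ENNReal.ofReal (Real.exp (-∫ r in (0 : ℝ)..t, (1 - b (Complex.arg (pt w r)))))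

theorem Ird_c_meas {b : ℝ → ℝ} (hb : Rate b) (t : ℝ) : Measurable (Ird_c b t) := by
  unfold Ird_c
  refine ENNReal.measurable_ofReal.comp (Real.measurable_exp.comp (Measurable.neg ?_))
  refine Hi_ivl (α := P2) (F := fun w r => 1 - b (Complex.arg (pt w r))) ?_ measurable_const measurable_const
  exact measurable_const.sub ((barg_meas hb).comp pt_meas)

noncomputable def Ird_F (b : ℝ → ℝ) (K R t : ℝ) : P2 → ℝ≥0∞ := (Ird_S K R t).indicator (Ird_c b t)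

theorem Ird_F_meas {b : ℝ → ℝ} (hb : Rate b) (K R t : ℝ) : Measurable (Ird_F b K R t) :=
  (Ird_c_meas hb t).indicator (Ird_S_meas K R t)

theorem Ird_F_dep (b : ℝ → ℝ) (K R : ℝ) {t : ℝ} (ht : 0 ≤ t) (w w' : P2)
    (h : ∀ r ∈ Icc (0 : ℝ) t, w.1 r = w'.1 r ∧ w.2 r = w'.2 r) : Ird_F b K R t w = Ird_F b K R t w' := by
  have h1 : w ∈ Ird_S K R t ↔ w' ∈ Ird_S K R t := by
    unfold Ird_S Blw
    simp only [mem_ofPred_eq]
    rw [(h t ⟨ht, le_rfl⟩).2]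
    refine and_congr (forall₂_congr fun s hs => ?_) Iff.rfl
    rw [(h s hs).1]
  have h2 : Ird_c b t w = Ird_c b t w' := by
    unfold Ird_c
    congr 3
    refine intervalIntegral.integral_congr fun r hr => ?_
    rw [uIcc_of_le ht] at hr
    have h3 : pt w r = pt w' r := by
      unfold pt
      rw [(h r hr).1, (h r hr).2]
    simp only [h3]
  unfold Ird_F
  by_cases hw : w ∈ Ird_S K R t
  · rw [indicator_of_mem hw, indicator_of_mem (h1.1 hw), h2]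
  · rw [indicator_of_notMem hw, indicator_of_notMem (fun h' => hw (h1.2 h'))]

theorem Ird_ID (b : ℝ → ℝ) (ϑ K R : ℝ) {t : ℝ} (ht : 0 ≤ t) :
    ∫⁻ w, Ird_F b K R t (addP (lineP (√2 * Real.cos ϑ)) w.1, addP (lineP (√2 * Real.sin ϑ)) w.2) ∂W2 =
      ID b ϑ K R t := by
  have hm : MeasurableSet (dEv ϑ K R t) := by
    rw [Ird_S_eq ϑ K R t ht]
    exact Ird_sh_meas ϑ (Ird_S_meas K R t)
  unfold ID
  rw [← lintegral_indicator hm]
  refine lintegral_congr fun w => ?_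
  change Ird_F b K R t (Ird_sh ϑ w) = _
  unfold Ird_F
  by_cases hw : w ∈ dEv ϑ K R t
  · rw [indicator_of_mem hw, indicator_of_mem ((Ird_S_sh ϑ K R t ht w).2 hw)]
    unfold Ird_c
    congr 3
    refine intervalIntegral.integral_congr fun r hr => ?_
    rw [uIcc_of_le ht] at hr
    simp only [Ird_pt ϑ w hr.1]
  · rw [indicator_of_notMem hw, indicator_of_notMem (fun h' => hw ((Ird_S_sh ϑ K R t ht w).1 h'))]

theorem Ird_point {b : ℝ → ℝ} (hb : Rate b) {A : Set ℂ} (hA : MeasurableSet A) {t K y0 : ℝ} (ht : 0 < t)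
    (J : Finset ℝ) (Rf : ℝ → ℝ)
    (hJ : ∀ x ∈ A, ∃ ϑ ∈ J, y0 ≤ Real.cos ϑ * x.re + Real.sin ϑ * x.im ∧ Rf ϑ ≤ |x.im|) (w : P2)
    (hw : w.1 ∈ Blw K √2 t) :
    ENNReal.ofReal (Real.exp (∫ r in (0 : ℝ)..t, b (Complex.arg (pt w r))) * vf b A 0 (pt w t)) ≤
      ENNReal.ofReal (Real.exp (t - √2 * y0)) * ∑ ϑ ∈ J,
        ENNReal.ofReal (Real.exp (√2 * (Real.cos ϑ * w.1 t + Real.sin ϑ * w.2 t))) * Ird_F b K (Rf ϑ) t w := by
  rw [vf_zero hb hA]
  by_cases hx : pt w t ∈ A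
  · rw [indicator_of_mem hx, mul_one]
    obtain ⟨ϑ, hϑ, h1, h2⟩ := hJ _ hx
    have h1' : y0 ≤ Real.cos ϑ * w.1 t + Real.sin ϑ * w.2 t := h1
    have hwS : w ∈ Ird_S K (Rf ϑ) t := ⟨hw, h2⟩
    have hI : ∫ r in (0 : ℝ)..t, b (Complex.arg (pt w r)) =
        t - ∫ r in (0 : ℝ)..t, (1 - b (Complex.arg (pt w r))) := by
      have h3 := clock_int hb w 0 0 t
      simp only [zero_add] at h3
      rw [intervalIntegral.integral_sub intervalIntegrable_const h3]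
      simp
    have h4 : Real.exp (∫ r in (0 : ℝ)..t, b (Complex.arg (pt w r))) ≤
        Real.exp (t - √2 * y0) * (Real.exp (√2 * (Real.cos ϑ * w.1 t + Real.sin ϑ * w.2 t)) *
          Real.exp (-∫ r in (0 : ℝ)..t, (1 - b (Complex.arg (pt w r))))) := by
      rw [← Real.exp_add, ← Real.exp_add]
      refine Real.exp_le_exp.2 ?_
      rw [hI]
      have h5 := mul_le_mul_of_nonneg_left h1' (Real.sqrt_nonneg 2)
      linarith
    refine (ENNReal.ofReal_le_ofReal h4).trans ?_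
    rw [ENNReal.ofReal_mul (Real.exp_pos _).le, ENNReal.ofReal_mul (Real.exp_pos _).le]
    refine mul_le_mul' le_rfl ?_
    have h6 := Finset.single_le_sum (f := fun ϑ =>
      ENNReal.ofReal (Real.exp (√2 * (Real.cos ϑ * w.1 t + Real.sin ϑ * w.2 t))) * Ird_F b K (Rf ϑ) t w)
      (fun _ _ => bot_le) hϑ
    refine le_trans ?_ h6
    simp only [Ird_F, indicator_of_mem hwS]
    rfl
  · rw [indicator_of_notMem hx, mul_zero, ENNReal.ofReal_zero]
    exact bot_le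

theorem ired {b : ℝ → ℝ} (hb : Rate b) {A : Set ℂ} (hA : MeasurableSet A) {t K y0 : ℝ} (ht : 0 < t)
    (hK : 0 < K) (J : Finset ℝ) (Rf : ℝ → ℝ)
    (hJ : ∀ x ∈ A, ∃ ϑ ∈ J, y0 ≤ Real.cos ϑ * x.re + Real.sin ϑ * x.im ∧ Rf ϑ ≤ |x.im|) :
    ENNReal.ofReal (vf b A t 0) ≤ ENNReal.ofReal (Real.exp (-√2 * K)) +
      ENNReal.ofReal (Real.exp (2 * t - √2 * y0)) * ∑ ϑ ∈ J, ID b ϑ K (Rf ϑ) t := by
  have h := hik (s := 0) (t := t) ht (v_subfk hb hA 0 t) hK 0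
  simp only [sub_zero, sub_self, zero_add] at h
  refine h.trans (add_le_add le_rfl ?_)
  have hm : ∀ ϑ : ℝ, Measurable fun w : P2 =>
      ENNReal.ofReal (Real.exp (√2 * (Real.cos ϑ * w.1 t + Real.sin ϑ * w.2 t))) * Ird_F b K (Rf ϑ) t w := by
    intro ϑ
    refine Measurable.mul ?_ (Ird_F_meas hb K (Rf ϑ) t)
    refine ENNReal.measurable_ofReal.comp (Real.measurable_exp.comp (measurable_const.mul ?_))
    exact (measurable_const.mul ((Pth.measurable_apply t).comp measurable_fst)).add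
      (measurable_const.mul ((Pth.measurable_apply t).comp measurable_snd))
  calc ∫⁻ w in {w : P2 | w.1 ∈ Blw K √2 t}, ENNReal.ofReal
        (Real.exp (∫ r in (0 : ℝ)..t, b (Complex.arg (pt w r))) * vf b A 0 (pt w t)) ∂W2
      ≤ ∫⁻ w in {w : P2 | w.1 ∈ Blw K √2 t}, ENNReal.ofReal (Real.exp (t - √2 * y0)) * ∑ ϑ ∈ J,
          ENNReal.ofReal (Real.exp (√2 * (Real.cos ϑ * w.1 t + Real.sin ϑ * w.2 t))) * Ird_F b K (Rf ϑ) t w ∂W2 :=
        setLIntegral_mono' (measurable_fst (blw_meas K √2 t)) fun w hw => Ird_point hb hA ht J Rf hJ w hw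
    _ ≤ ∫⁻ w, ENNReal.ofReal (Real.exp (t - √2 * y0)) * ∑ ϑ ∈ J,
          ENNReal.ofReal (Real.exp (√2 * (Real.cos ϑ * w.1 t + Real.sin ϑ * w.2 t))) * Ird_F b K (Rf ϑ) t w ∂W2 :=
        setLIntegral_le_lintegral _ _
    _ = ENNReal.ofReal (Real.exp (t - √2 * y0)) * ∑ ϑ ∈ J, ∫⁻ w,
          ENNReal.ofReal (Real.exp (√2 * (Real.cos ϑ * w.1 t + Real.sin ϑ * w.2 t))) * Ird_F b K (Rf ϑ) t w ∂W2 := by
        rw [lintegral_const_mul _ (Finset.measurable_fun_sum J fun ϑ _ => hm ϑ), lintegral_finsetSum J fun ϑ _ => hm ϑ]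
    _ = ENNReal.ofReal (Real.exp (t - √2 * y0)) * ∑ ϑ ∈ J, ENNReal.ofReal (Real.exp t) * ID b ϑ K (Rf ϑ) t := by
        congr 1
        refine Finset.sum_congr rfl fun ϑ _ => ?_
        rw [cm2 ϑ ht.le (Ird_F_meas hb K (Rf ϑ) t) (fun w w' hww => Ird_F_dep b K (Rf ϑ) ht.le w w' hww),
          Ird_ID b ϑ K (Rf ϑ) ht.le]
    _ = ENNReal.ofReal (Real.exp (2 * t - √2 * y0)) * ∑ ϑ ∈ J, ID b ϑ K (Rf ϑ) t := by
        rw [← Finset.mul_sum, ← mul_assoc, ← ENNReal.ofReal_mul (Real.exp_pos _).le, ← Real.exp_add]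
        congr 3
        ring_nf

end Pool.H50.BB
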