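import Pool.Agent.H50.BB.Dh

/-!
# Row KD: change of potential in a mild equation   (about 130 lines)

Suppose `h s x = PK k1 s T (h T) x + ∫ r in s..T, PK k1 s r (f r) x` for all `s ∈ [0,T]` and all `x`; then
`h s x = PK k2 s T (h T) x + ∫ r in s..T, PK k2 s r (f r + (k1 r - k2 r) * h r) x`.
Proof.  Duhamel (`PK_duh` with the roles of `k1`, `k2` exchanged): for `g` bounded and `s ≤ q`:
`PK k1 s q g = PK k2 s q g + ∫ p in s..q, PK k2 s p ((k1 p - k2 p) * PK k1 p q g)`.   (D)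
Apply (D) to `PK k1 s T (h T)` and to each `PK k1 s r (f r)`, insert:
`h s = PK k2 s T (h T) + ∫ p in s..T, PK k2 s p ((k1-k2)(p) PK k1 p T (h T)) + ∫ r in s..T, PK k2 s r (f r) + ∫ r in s..T ∫ p in s..r, PK k2 s p ((k1-k2)(p) PK k1 p r (f r))`.
In the last term exchange the order (`s < p < r < T`; Fubini on the triangle: write both inner integrals with the indicator of `p < r`; everything is bounded and
measurable by `PK_meas`, `PK_bdd`) and use linearity of `PK k2 s p` (it is an integral): it is `∫ p in s..T, PK k2 s p ((k1-k2)(p) ∫ r in p..T, PK k1 p r (f r))`.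
By hypothesis at time `p`: `PK k1 p T (h T) y + ∫ r in p..T, PK k1 p r (f r) y = h p y`.  Sum up.
-/

open MeasureTheory ProbabilityTheory Set Filter Topology
open scoped NNReal ENNReal

namespace Pool.H50.BB

open Pool.Agent.H4.BM

theorem KD_path_meas (s : ℝ) (x : ℂ) : Measurable fun q : ℝ × P2 => x + pt q.2 (q.1 - s) := by
  have h : Measurable fun q : ℝ × P2 => pt q.2 (q.1 - s) :=
    pt_meas.comp (measurable_snd.prodMk (measurable_fst.sub_const s))
  exact measurable_const.add h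

/-- the exponential weight -/
noncomputable def KD_E (k : ℝ → ℂ → ℝ) (s : ℝ) (x : ℂ) (p : ℝ) (w : P2) : ℝ :=
  Real.exp (∫ u in Ioc s p, k u (x + pt w (u - s)))

theorem KD_E_meas {K : ℝ} {k : ℝ → ℂ → ℝ} (hk : Bdd K k) (s : ℝ) (x : ℂ) :
    Measurable fun q : ℝ × P2 => KD_E k s x q.1 q.2 := by
  unfold KD_E
  apply Real.measurable_exp.comp
  have h : (fun q : ℝ × P2 => ∫ u in Ioc s q.1, k u (x + pt q.2 (u - s))) = fun q =>
      ∫ u, (fun z : (ℝ × P2) × ℝ => if s < z.2 ∧ z.2 ≤ z.1.1 then k z.2 (x + pt z.1.2 (z.2 - s))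
        else 0) (q, u) := by
    funext q
    rw [← integral_indicator measurableSet_Ioc]
    congr 1
    funext u
    simp only [indicator, mem_Ioc]
  rw [h]
  have h3 : Measurable (fun z : (ℝ × P2) × ℝ => if s < z.2 ∧ z.2 ≤ z.1.1 then
      k z.2 (x + pt z.1.2 (z.2 - s)) else 0) := by
    refine Measurable.ite ?_ ?_ measurable_const
    · exact (measurableSet_lt measurable_const measurable_snd).inter
        (measurableSet_le measurable_snd (measurable_fst.comp measurable_fst))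
    · have h1 : Measurable fun z : (ℝ × P2) × ℝ => x + pt z.1.2 (z.2 - s) :=
        (KD_path_meas s x).comp (measurable_snd.prodMk (measurable_snd.comp measurable_fst))
      exact hk.meas.comp (measurable_snd.prodMk h1)
  exact (h3.stronglyMeasurable.integral_prod_right' (ν := volume)).measurable

theorem KD_E_pos (k : ℝ → ℂ → ℝ) (s : ℝ) (x : ℂ) (p : ℝ) (w : P2) : 0 < KD_E k s x p w :=
  Real.exp_pos _

theorem KD_K {K : ℝ} {k : ℝ → ℂ → ℝ} (hk : Bdd K k) : 0 ≤ K := (abs_nonneg _).trans (hk.bdd 0 0)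

theorem KD_E_le {K : ℝ} {k : ℝ → ℂ → ℝ} (hk : Bdd K k) {s p T : ℝ} (hs : s ≤ p) (hp : p ≤ T)
    (x : ℂ) (w : P2) : KD_E k s x p w ≤ Real.exp (K * (T - s)) := by
  unfold KD_E
  apply Real.exp_le_exp.mpr
  have h1 : ‖∫ u in Ioc s p, k u (x + pt w (u - s))‖ ≤ K * volume.real (Ioc s p) :=
    norm_setIntegral_le_of_norm_le_const (by simp) (fun u _ => hk.bdd _ _)
  rw [Real.norm_eq_abs] at h1
  have h2 : volume.real (Ioc s p) = p - s := by
    rw [Measure.real, Real.volume_Ioc, ENNReal.toReal_ofReal (by linarith)]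
  rw [h2] at h1
  have h3 := KD_K hk
  have h4 := le_abs_self (∫ u in Ioc s p, k u (x + pt w (u - s)))
  nlinarith

theorem KD_PK (k : ℝ → ℂ → ℝ) {s p : ℝ} (hs : s ≤ p) (g : ℂ → ℝ) (x : ℂ) :
    PK k s p g x = ∫ w, KD_E k s x p w * g (x + pt w (p - s)) ∂W2 := by
  unfold PK KD_E
  simp only [intervalIntegral.integral_of_le hs]

theorem KD_int {K M : ℝ} {k : ℝ → ℂ → ℝ} (hk : Bdd K k) {g : ℂ → ℝ} (hg : Measurable g)
    (hM : ∀ y, |g y| ≤ M) {s p : ℝ} (hs : s ≤ p) (x : ℂ) :
    Integrable (fun w => KD_E k s x p w * g (x + pt w (p - s))) W2 := by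
  refine Integrable.of_bound (C := Real.exp (K * (p - s)) * M) ?_ (Eventually.of_forall fun w => ?_)
  · apply Measurable.aestronglyMeasurable
    have h1 : Measurable fun w : P2 => KD_E k s x p w :=
      (KD_E_meas hk s x).comp (measurable_const.prodMk measurable_id)
    have h2 : Measurable fun w : P2 => x + pt w (p - s) :=
      (KD_path_meas s x).comp (measurable_const.prodMk measurable_id)
    exact h1.mul (hg.comp h2)
  · rw [Real.norm_eq_abs, abs_mul, abs_of_pos (KD_E_pos _ _ _ _ _)]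
    exact mul_le_mul (KD_E_le hk hs le_rfl x w) (hM _) (abs_nonneg _) (Real.exp_pos _).le

theorem KD_add {K M : ℝ} {k : ℝ → ℂ → ℝ} (hk : Bdd K k) {g g' : ℂ → ℝ} (hg : Measurable g)
    (hM : ∀ y, |g y| ≤ M) (hg' : Measurable g') {M' : ℝ} (hM' : ∀ y, |g' y| ≤ M') {s p : ℝ}
    (hs : s ≤ p) (x : ℂ) :
    PK k s p (fun y => g y + g' y) x = PK k s p g x + PK k s p g' x := by
  rw [KD_PK k hs, KD_PK k hs, KD_PK k hs, ← integral_add (KD_int hk hg hM hs x) (KD_int hk hg' hM' hs x)]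
  congr 1
  funext w
  ring

/-- interval integrability of the terms -/
theorem KD_ii {K C : ℝ} {k : ℝ → ℂ → ℝ} (hk : Bdd K k) {Z : ℝ → ℂ → ℝ}
    (hZ : Measurable (Function.uncurry Z)) {s T : ℝ} (hsT : s ≤ T)
    (hC : ∀ p, s < p → p ≤ T → ∀ y, |Z p y| ≤ C) (x : ℂ) :
    IntervalIntegrable (fun p => PK k s p (Z p) x) volume s T := by
  rw [intervalIntegrable_iff_integrableOn_Ioc_of_le hsT]
  set Z' : ℝ → ℂ → ℝ := fun p y => if s < p ∧ p ≤ T then Z p y else 0 with hZ'
  have hm : Measurable (Function.uncurry Z') := by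
    refine Measurable.ite ?_ hZ measurable_const
    exact (measurableSet_lt measurable_const measurable_fst).inter
      (measurableSet_le measurable_fst measurable_const)
  have hB : Bdd (max C 0) Z' := by
    refine ⟨hm, fun p y => ?_⟩
    rw [hZ']
    by_cases h : s < p ∧ p ≤ T
    · simp only [if_pos h]
      exact (hC p h.1 h.2 y).trans (le_max_left _ _)
    · simp only [if_neg h, abs_zero]
      exact le_max_right _ _
  have h1 : Measurable fun p : ℝ => PK k s p (Z' p) x :=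
    (PK_meas hk hB).comp (measurable_const.prodMk (measurable_id.prodMk measurable_const))
  have h2 : IntegrableOn (fun p => PK k s p (Z' p) x) (Ioc s T) := by
    refine Integrable.of_bound (C := Real.exp (K * (T - s)) * max C 0) h1.aestronglyMeasurable ?_
    rw [ae_restrict_iff' measurableSet_Ioc]
    refine Eventually.of_forall fun p hp => ?_
    rw [Real.norm_eq_abs]
    refine (PK_bdd hk (g := Z' p) (hm.comp (measurable_const.prodMk measurable_id))
      (hB.bdd p) hp.1.le x).trans ?_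
    apply mul_le_mul_of_nonneg_right _ (le_max_right _ _)
    apply Real.exp_le_exp.mpr
    exact mul_le_mul_of_nonneg_left (by linarith [hp.2]) (KD_K hk)
  refine h2.congr_fun (fun p hp => ?_) measurableSet_Ioc
  have h3 : Z' p = Z p := by
    funext y
    rw [hZ']
    exact if_pos ⟨hp.1, hp.2⟩
  show PK k s p (Z' p) x = PK k s p (Z p) x
  rw [h3]

/-- the integrand of the triple integral -/
noncomputable def KD_G (k1 k2 f : ℝ → ℂ → ℝ) (s T : ℝ) (x : ℂ) (p r : ℝ) (w : P2) : ℝ :=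
  if s < p ∧ p ≤ r ∧ r ≤ T then KD_E k2 s x p w * ((k1 p (x + pt w (p - s)) -
    k2 p (x + pt w (p - s))) * PK k1 p r (f r) (x + pt w (p - s))) else 0

theorem KD_G_meas {K M : ℝ} {k1 k2 f : ℝ → ℂ → ℝ} (hk1 : Bdd K k1) (hk2 : Bdd K k2) (hf : Bdd M f)
    (s T : ℝ) (x : ℂ) : Measurable fun q : (ℝ × ℝ) × P2 => KD_G k1 k2 f s T x q.1.1 q.1.2 q.2 := by
  have hp : Measurable fun q : (ℝ × ℝ) × P2 => q.1.1 := measurable_fst.comp measurable_fst
  have hr : Measurable fun q : (ℝ × ℝ) × P2 => q.1.2 := measurable_snd.comp measurable_fst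
  have hy : Measurable fun q : (ℝ × ℝ) × P2 => x + pt q.2 (q.1.1 - s) :=
    (KD_path_meas s x).comp (hp.prodMk measurable_snd)
  unfold KD_G
  refine Measurable.ite ?_ ?_ measurable_const
  · exact (measurableSet_lt measurable_const hp).inter
      ((measurableSet_le hp hr).inter (measurableSet_le hr measurable_const))
  · have h1 : Measurable fun q : (ℝ × ℝ) × P2 => KD_E k2 s x q.1.1 q.2 :=
      (KD_E_meas hk2 s x).comp (hp.prodMk measurable_snd)
    have h2 : Measurable fun q : (ℝ × ℝ) × P2 => k1 q.1.1 (x + pt q.2 (q.1.1 - s)) :=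
      hk1.meas.comp (hp.prodMk hy)
    have h3 : Measurable fun q : (ℝ × ℝ) × P2 => k2 q.1.1 (x + pt q.2 (q.1.1 - s)) :=
      hk2.meas.comp (hp.prodMk hy)
    have h4 : Measurable fun q : (ℝ × ℝ) × P2 => PK k1 q.1.1 q.1.2 (f q.1.2) (x + pt q.2 (q.1.1 - s)) :=
      (PK_meas hk1 hf).comp (hp.prodMk (hr.prodMk hy))
    exact h1.mul ((h2.sub h3).mul h4)

theorem KD_kap {K : ℝ} {k1 k2 : ℝ → ℂ → ℝ} (hk1 : Bdd K k1) (hk2 : Bdd K k2) (p : ℝ) (y : ℂ) :
    |k1 p y - k2 p y| ≤ 2 * K := by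
  have h1 := abs_le.mp (hk1.bdd p y)
  have h2 := abs_le.mp (hk2.bdd p y)
  rw [abs_le]
  constructor <;> linarith [h1.1, h1.2, h2.1, h2.2]

theorem KD_PKb {K M : ℝ} {k : ℝ → ℂ → ℝ} (hk : Bdd K k) {g : ℂ → ℝ} (hg : Measurable g)
    (hM : ∀ y, |g y| ≤ M) {s T p r : ℝ} (hsp : s ≤ p) (hpr : p ≤ r) (hrT : r ≤ T) (y : ℂ) :
    |PK k p r g y| ≤ Real.exp (K * (T - s)) * M := by
  refine (PK_bdd hk hg hM hpr y).trans ?_
  apply mul_le_mul_of_nonneg_right _ ((abs_nonneg _).trans (hM 0))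
  apply Real.exp_le_exp.mpr
  exact mul_le_mul_of_nonneg_left (by linarith) (KD_K hk)

theorem KD_G_bdd {K M : ℝ} {k1 k2 f : ℝ → ℂ → ℝ} (hk1 : Bdd K k1) (hk2 : Bdd K k2) (hf : Bdd M f)
    (s T : ℝ) (x : ℂ) (p r : ℝ) (w : P2) : |KD_G k1 k2 f s T x p r w| ≤
      Real.exp (K * (T - s)) * (2 * K * (Real.exp (K * (T - s)) * M)) := by
  have hK := KD_K hk1
  have hM : 0 ≤ M := KD_K hf
  unfold KD_G
  by_cases h : s < p ∧ p ≤ r ∧ r ≤ T
  · rw [if_pos h, abs_mul, abs_mul, abs_of_pos (KD_E_pos _ _ _ _ _)]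
    have h1 := KD_E_le hk2 h.1.le (h.2.1.trans h.2.2) x w
    have h2 := KD_kap hk1 hk2 p (x + pt w (p - s))
    have h3 := KD_PKb hk1 (g := f r) (hf.meas.comp (measurable_const.prodMk measurable_id))
      (hf.bdd r) h.1.le h.2.1 h.2.2 (x + pt w (p - s))
    refine mul_le_mul h1 (mul_le_mul h2 h3 (abs_nonneg _) (by linarith)) (by positivity)
      (Real.exp_pos _).le
  · rw [if_neg h, abs_zero]
    positivity

theorem KD_swap {K M : ℝ} {k1 k2 f : ℝ → ℂ → ℝ} (hk1 : Bdd K k1) (hk2 : Bdd K k2) (hf : Bdd M f)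
    {s T : ℝ} (hsT : s ≤ T) (x : ℂ) :
    (∫ r in s..T, ∫ p in s..r, PK k2 s p (fun y => (k1 p y - k2 p y) * PK k1 p r (f r) y) x) =
      ∫ p in s..T, PK k2 s p (fun y => (k1 p y - k2 p y) * ∫ r in p..T, PK k1 p r (f r) y) x := by
  have hGm := KD_G_meas hk1 hk2 hf s T x
  have hGb := KD_G_bdd hk1 hk2 hf s T x
  have hL : ∀ r ∈ Ioc s T, (∫ p in s..r, PK k2 s p (fun y => (k1 p y - k2 p y) * PK k1 p r (f r) y) x) =
      ∫ p in Ioc s T, ∫ w, KD_G k1 k2 f s T x p r w ∂W2 := by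
    intro r hr
    rw [intervalIntegral.integral_of_le hr.1.le]
    have h1 : (∫ p in Ioc s T, ∫ w, KD_G k1 k2 f s T x p r w ∂W2) =
        ∫ p in Ioc s r, ∫ w, KD_G k1 k2 f s T x p r w ∂W2 := by
      apply setIntegral_eq_of_subset_of_forall_sdiff_eq_zero measurableSet_Ioc
        (Ioc_subset_Ioc_right hr.2)
      intro p hp
      have h2 : ¬ (s < p ∧ p ≤ r ∧ r ≤ T) := fun h3 => hp.2 ⟨h3.1, h3.2.1⟩
      simp only [KD_G, if_neg h2, integral_zero]
    rw [h1]
    apply setIntegral_congr_fun measurableSet_Ioc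
    intro p hp
    show PK k2 s p (fun y => (k1 p y - k2 p y) * PK k1 p r (f r) y) x = ∫ w, KD_G k1 k2 f s T x p r w ∂W2
    rw [KD_PK k2 hp.1.le]
    have h2 : s < p ∧ p ≤ r ∧ r ≤ T := ⟨hp.1, hp.2, hr.2⟩
    simp only [KD_G, if_pos h2]
  have hR : ∀ p ∈ Ioc s T, PK k2 s p (fun y => (k1 p y - k2 p y) * ∫ r in p..T, PK k1 p r (f r) y) x =
      ∫ w, (∫ r in Ioc s T, KD_G k1 k2 f s T x p r w) ∂W2 := by
    intro p hp
    rw [KD_PK k2 hp.1.le]
    congr 1
    funext w
    have h1 : (∫ r in Ioc s T, KD_G k1 k2 f s T x p r w) = ∫ r in Icc p T, KD_G k1 k2 f s T x p r w := by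
      apply setIntegral_eq_of_subset_of_forall_sdiff_eq_zero measurableSet_Ioc
        (fun r hr => ⟨hp.1.trans_le hr.1, hr.2⟩)
      intro r hr
      have h2 : ¬ (s < p ∧ p ≤ r ∧ r ≤ T) := fun h3 => hr.2 ⟨h3.2.1, h3.2.2⟩
      simp only [KD_G, if_neg h2]
    rw [h1, integral_Icc_eq_integral_Ioc, intervalIntegral.integral_of_le hp.2]
    rw [← integral_const_mul, ← integral_const_mul]
    apply setIntegral_congr_fun measurableSet_Ioc
    intro r hr
    have h2 : s < p ∧ p ≤ r ∧ r ≤ T := ⟨hp.1, hr.1.le, hr.2⟩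
    simp only [KD_G, if_pos h2]
  rw [intervalIntegral.integral_of_le hsT, intervalIntegral.integral_of_le hsT,
    setIntegral_congr_fun measurableSet_Ioc hL, setIntegral_congr_fun measurableSet_Ioc hR]
  have hJ : Integrable (Function.uncurry fun r p => ∫ w, KD_G k1 k2 f s T x p r w ∂W2)
      ((volume.restrict (Ioc s T)).prod (volume.restrict (Ioc s T))) := by
    refine Integrable.of_bound (C := Real.exp (K * (T - s)) * (2 * K * (Real.exp (K * (T - s)) * M)))
      ?_ (Eventually.of_forall fun z => ?_)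
    · apply StronglyMeasurable.aestronglyMeasurable
      have h1 : Measurable fun q : (ℝ × ℝ) × P2 => KD_G k1 k2 f s T x q.1.2 q.1.1 q.2 :=
        hGm.comp (((measurable_snd.comp measurable_fst).prodMk
          (measurable_fst.comp measurable_fst)).prodMk measurable_snd)
      exact h1.stronglyMeasurable.integral_prod_right' (ν := W2)
    · have h2 : ‖∫ w, KD_G k1 k2 f s T x z.2 z.1 w ∂W2‖ ≤
          Real.exp (K * (T - s)) * (2 * K * (Real.exp (K * (T - s)) * M)) * W2.real univ :=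
        norm_integral_le_of_norm_le_const (Eventually.of_forall fun w => hGb z.2 z.1 w)
      rw [probReal_univ, mul_one] at h2
      exact h2
  rw [integral_integral_swap hJ]
  apply setIntegral_congr_fun measurableSet_Ioc
  intro p _
  show (∫ r in Ioc s T, ∫ w, KD_G k1 k2 f s T x p r w ∂W2) =
    ∫ w, (∫ r in Ioc s T, KD_G k1 k2 f s T x p r w) ∂W2
  apply integral_integral_swap (f := fun r w => KD_G k1 k2 f s T x p r w)
  refine Integrable.of_bound (C := Real.exp (K * (T - s)) * (2 * K * (Real.exp (K * (T - s)) * M)))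
      ?_ (Eventually.of_forall fun z => hGb _ _ _)
  apply Measurable.aestronglyMeasurable
  exact hGm.comp ((measurable_const.prodMk measurable_fst).prodMk measurable_snd)

theorem kd {K M : ℝ} {k1 k2 h f : ℝ → ℂ → ℝ} (hk1 : Bdd K k1) (hk2 : Bdd K k2) (hh : Bdd M h) (hf : Bdd M f)
    {T : ℝ}
    (H : ∀ s, 0 ≤ s → s ≤ T → ∀ x, h s x = PK k1 s T (h T) x + ∫ r in s..T, PK k1 s r (f r) x)
    {s : ℝ} (hs : 0 ≤ s) (hsT : s ≤ T) (x : ℂ) :
    h s x = PK k2 s T (h T) x +
      ∫ r in s..T, PK k2 s r (fun y => f r y + (k1 r y - k2 r y) * h r y) x := by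
  have hK := KD_K hk1
  have hM : 0 ≤ M := KD_K hf
  have hfm : ∀ r, Measurable (f r) := fun r => hf.meas.comp (measurable_const.prodMk measurable_id)
  have hhm : ∀ r, Measurable (h r) := fun r => hh.meas.comp (measurable_const.prodMk measurable_id)
  have hkm : Measurable (Function.uncurry fun p y => k1 p y - k2 p y) := hk1.meas.sub hk2.meas
  have hP : Measurable (Function.uncurry fun p y => PK k1 p T (h T) y) := by
    have hB : Bdd M (fun (_ : ℝ) y => h T y) :=
      ⟨(hhm T).comp measurable_snd, fun _ y => hh.bdd T y⟩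
    exact (PK_meas hk1 hB).comp (measurable_fst.prodMk (measurable_const.prodMk measurable_snd))
  have hZ2 : Measurable (Function.uncurry fun p y => (k1 p y - k2 p y) * PK k1 p T (h T) y) :=
    hkm.mul hP
  have hZ3 : Measurable (Function.uncurry fun p y => (k1 p y - k2 p y) *
      (h p y - PK k1 p T (h T) y)) := hkm.mul (hh.meas.sub hP)
  have hPb : ∀ p, s < p → p ≤ T → ∀ y, |PK k1 p T (h T) y| ≤ Real.exp (K * (T - s)) * M :=
    fun p h1 h2 y => KD_PKb hk1 (hhm T) (hh.bdd T) h1.le h2 le_rfl y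
  have hb2 : ∀ p, s < p → p ≤ T → ∀ y, |(k1 p y - k2 p y) * PK k1 p T (h T) y| ≤
      2 * K * (Real.exp (K * (T - s)) * M) := by
    intro p h1 h2 y
    rw [abs_mul]
    exact mul_le_mul (KD_kap hk1 hk2 p y) (hPb p h1 h2 y) (abs_nonneg _) (by linarith)
  have hb3 : ∀ p, s < p → p ≤ T → ∀ y, |(k1 p y - k2 p y) * (h p y - PK k1 p T (h T) y)| ≤
      2 * K * (M + Real.exp (K * (T - s)) * M) := by
    intro p h1 h2 y
    rw [abs_mul]
    refine mul_le_mul (KD_kap hk1 hk2 p y) ?_ (abs_nonneg _) (by linarith)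
    exact (abs_sub _ _).trans (add_le_add (hh.bdd p y) (hPb p h1 h2 y))
  have hbf : ∀ p, s < p → p ≤ T → ∀ y, |f p y| ≤ M := fun p _ _ y => hf.bdd p y
  have i1 := KD_ii hk2 hf.meas hsT hbf x
  have i1' := KD_ii hk1 hf.meas hsT hbf x
  have i2 := KD_ii hk2 hZ2 hsT hb2 x
  have i3 := KD_ii hk2 hZ3 hsT hb3 x
  have e1 : PK k1 s T (h T) x = PK k2 s T (h T) x +
      ∫ r in s..T, PK k2 s r (fun y => (k1 r y - k2 r y) * PK k1 r T (h T) y) x :=
    PK_duh hk2 hk1 (hhm T) (hh.bdd T) hsT x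
  have e2 : (∫ r in s..T, PK k1 s r (f r) x) - (∫ r in s..T, PK k2 s r (f r) x) =
      ∫ r in s..T, ∫ p in s..r, PK k2 s p (fun y => (k1 p y - k2 p y) * PK k1 p r (f r) y) x := by
    rw [← intervalIntegral.integral_sub i1' i1]
    apply intervalIntegral.integral_congr
    intro r hr
    rw [uIcc_of_le hsT] at hr
    have h1 := PK_duh hk2 hk1 (hfm r) (hf.bdd r) hr.1 x
    show PK k1 s r (f r) x - PK k2 s r (f r) x = _
    linarith
  have e3 : (∫ p in s..T, PK k2 s p (fun y => (k1 p y - k2 p y) * ∫ r in p..T, PK k1 p r (f r) y) x) =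
      ∫ p in s..T, PK k2 s p (fun y => (k1 p y - k2 p y) * (h p y - PK k1 p T (h T) y)) x := by
    apply intervalIntegral.integral_congr
    intro p hp
    rw [uIcc_of_le hsT] at hp
    show PK k2 s p _ x = PK k2 s p _ x
    congr 1
    funext y
    rw [H p (hs.trans hp.1) hp.2 y]
    ring
  have e4 : (∫ r in s..T, PK k2 s r (fun y => f r y + (k1 r y - k2 r y) * h r y) x) =
      (∫ r in s..T, PK k2 s r (f r) x) +
      ((∫ r in s..T, PK k2 s r (fun y => (k1 r y - k2 r y) * PK k1 r T (h T) y) x) +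
      ∫ r in s..T, PK k2 s r (fun y => (k1 r y - k2 r y) * (h r y - PK k1 r T (h T) y)) x) := by
    rw [← intervalIntegral.integral_add i2 i3, ← intervalIntegral.integral_add i1 (i2.add i3)]
    rw [intervalIntegral.integral_of_le hsT, intervalIntegral.integral_of_le hsT]
    apply setIntegral_congr_fun measurableSet_Ioc
    intro p hp
    have m2 : Measurable fun y => (k1 p y - k2 p y) * PK k1 p T (h T) y :=
      hZ2.comp (measurable_const.prodMk measurable_id)
    have m3 : Measurable fun y => (k1 p y - k2 p y) * (h p y - PK k1 p T (h T) y) :=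
      hZ3.comp (measurable_const.prodMk measurable_id)
    have c2 := hb2 p hp.1 hp.2
    have c3 := hb3 p hp.1 hp.2
    show PK k2 s p (fun y => f p y + (k1 p y - k2 p y) * h p y) x = PK k2 s p (f p) x +
      (PK k2 s p (fun y => (k1 p y - k2 p y) * PK k1 p T (h T) y) x +
      PK k2 s p (fun y => (k1 p y - k2 p y) * (h p y - PK k1 p T (h T) y)) x)
    rw [← KD_add hk2 m2 c2 m3 c3 hp.1.le x]
    have m23 : Measurable fun y => (k1 p y - k2 p y) * PK k1 p T (h T) y +
      (k1 p y - k2 p y) * (h p y - PK k1 p T (h T) y) := m2.add m3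
    rw [← KD_add hk2 (hfm p) (hf.bdd p) m23
      (fun y => (abs_add_le _ _).trans (add_le_add (c2 y) (c3 y))) hp.1.le x]
    congr 1
    funext y
    show _ = f p y + ((k1 p y - k2 p y) * PK k1 p T (h T) y +
      (k1 p y - k2 p y) * (h p y - PK k1 p T (h T) y))
    ring
  have e5 := KD_swap hk1 hk2 hf hsT x
  rw [H s hs hsT x, e1, e4, ← e3, ← e5, ← e2]
  ring

end Pool.H50.BB
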