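import Pool.Agent.H50.BB.Dph

/-!
# Row Las: the last window   (about 130 lines)

`G v = (1 + p v²) exp (-ε v²)`, `0 ≤ p`, `0 < ε ≤ 1`, `V' = Vt α ω R`, `0 ≤ ω ≤ 1/2`, `R ≥ 1`, `1/8 ≤ h ≤ 4`.
`(TV V' h G u)² ≤ om V' h u * E G(u + w h)²` (`tv_sq`).  `sup_split` with `m = (1/2) (min (|u|/2) R)^α`: `om V' h u ≤ exp(-h (min (|u|/2) R)^α) + 4 exp(-u²/(8h))`.
`E G(u+w h)² ≤ E (1 + p (u+w h)²)² ≤ C_p (1+u²)²` and `∫ E G(u + w h)² du = ∫ G² ≤ C_p ε^{-5/2}` (`path_L2`; `(1+pv²)² exp(-2εv²)`, substitute `v = ε^{-1/2} x`, `ε ≤ 1`).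
`|u| ≤ 2R`: `om ≤ exp(-(|u|/2)^α/8) + 4 exp(-u²/32)`, so the integral over `|u| ≤ 2R` of `(TV G)²` is at most `∫ (...) C (1+u²)² du ≤ C`.
`|u| > 2R`: `om ≤ exp (-R^α/8) + 4 exp(-R²/8) ≤ 5 exp(-R^α/8)`; the integral is at most `5 exp(-R^α/8) C ε^{-5/2}`.
-/

open MeasureTheory ProbabilityTheory Set Filter Topology
open scoped NNReal ENNReal

namespace Pool.H50.BB

open Pool.Agent.H4.BM

theorem Las_nrm_sq (f : ℝ → ℝ) : nrm f ^ 2 = ∫ x, f x ^ 2 := by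
  unfold nrm
  exact Real.sq_sqrt (integral_nonneg fun x => sq_nonneg _)

theorem Las_nrm_le {g : ℝ → ℝ} {c : ℝ} (hc : 0 ≤ c) (h : ∫ x, g x ^ 2 ≤ c ^ 2) : nrm g ≤ c := by
  rw [← Las_nrm_sq] at h
  exact le_of_sq_le_sq h hc

theorem Las_g_meas (p ε : ℝ) : Measurable (fun v : ℝ => (1 + p * v ^ 2) * Real.exp (-ε * v ^ 2)) := by
  fun_prop

theorem Las_pt (p : ℝ) {ε : ℝ} (hε : 0 < ε) (v : ℝ) :
    ((1 + p * v ^ 2) * Real.exp (-ε * v ^ 2)) ^ 2 ≤ ((1 + |p| / ε) ^ 2) * Real.exp (-ε * v ^ 2) := by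
  have h1 : ε / 2 * v ^ 2 ≤ Real.exp (ε / 2 * v ^ 2) := by
    have := Real.add_one_le_exp (ε / 2 * v ^ 2)
    linarith
  have h2 : v ^ 2 * Real.exp (-(ε / 2 * v ^ 2)) ≤ 1 / ε := by
    have h3 := Real.add_one_le_exp (ε / 2 * v ^ 2 - 1)
    have h4 : Real.exp (ε / 2 * v ^ 2 - 1) = Real.exp (ε / 2 * v ^ 2) / Real.exp 1 := Real.exp_sub _ _
    have h5 : (2 : ℝ) ≤ Real.exp 1 := by
      have := Real.add_one_le_exp (1 : ℝ)
      linarith
    have h6 : Real.exp (ε / 2 * v ^ 2) / Real.exp 1 ≤ Real.exp (ε / 2 * v ^ 2) / 2 := by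
      gcongr
    have h7 : ε * v ^ 2 ≤ Real.exp (ε / 2 * v ^ 2) := by
      rw [h4] at h3
      linarith
    rw [Real.exp_neg, ← div_eq_mul_inv, div_le_div_iff₀ (Real.exp_pos _) hε]
    linarith
  have h8 : |1 + p * v ^ 2| * Real.exp (-(ε / 2 * v ^ 2)) ≤ 1 + |p| / ε := by
    have h9 : |1 + p * v ^ 2| ≤ 1 + |p| * v ^ 2 := by
      refine (abs_add_le _ _).trans ?_
      rw [abs_one, abs_mul, abs_of_nonneg (sq_nonneg v)]
    have h10 : Real.exp (-(ε / 2 * v ^ 2)) ≤ 1 := by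
      apply Real.exp_le_one_iff.2
      nlinarith [sq_nonneg v]
    calc |1 + p * v ^ 2| * Real.exp (-(ε / 2 * v ^ 2)) ≤ (1 + |p| * v ^ 2) * Real.exp (-(ε / 2 * v ^ 2)) :=
          mul_le_mul_of_nonneg_right h9 (Real.exp_pos _).le
      _ = Real.exp (-(ε / 2 * v ^ 2)) + |p| * (v ^ 2 * Real.exp (-(ε / 2 * v ^ 2))) := by ring
      _ ≤ 1 + |p| * (1 / ε) := add_le_add h10 (mul_le_mul_of_nonneg_left h2 (abs_nonneg p))
      _ = _ := by ring
  have e1 : Real.exp (-ε * v ^ 2) = Real.exp (-(ε / 2 * v ^ 2)) * Real.exp (-(ε / 2 * v ^ 2)) := by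
    rw [← Real.exp_add]
    congr 1
    ring
  have e2 : ((1 + p * v ^ 2) * Real.exp (-ε * v ^ 2)) ^ 2 =
      (|1 + p * v ^ 2| * Real.exp (-(ε / 2 * v ^ 2))) ^ 2 * Real.exp (-ε * v ^ 2) := by
    rw [mul_pow, mul_pow, sq_abs, e1]
    ring
  rw [e2]
  apply mul_le_mul_of_nonneg_right _ (Real.exp_pos _).le
  exact pow_le_pow_left₀ (mul_nonneg (abs_nonneg _) (Real.exp_pos _).le) h8 2

theorem gs_memLp {p ε : ℝ} (hε : 0 < ε) : MemLp (fun v : ℝ => (1 + p * v ^ 2) * Real.exp (-ε * v ^ 2)) 2 volume := by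
  rw [memLp_two_iff_integrable_sq (Las_g_meas p ε).aestronglyMeasurable]
  refine Integrable.mono' ((integrable_exp_neg_mul_sq hε).const_mul ((1 + |p| / ε) ^ 2))
    ((Las_g_meas p ε).pow_const 2).aestronglyMeasurable (Filter.Eventually.of_forall fun v => ?_)
  rw [Real.norm_of_nonneg (sq_nonneg _)]
  exact Las_pt p hε v

theorem gs_nrm {p : ℝ} (hp : 0 ≤ p) : ∃ C > 0, ∀ ε : ℝ, 0 < ε → ε ≤ 1 →
    nrm (fun v : ℝ => (1 + p * v ^ 2) * Real.exp (-ε * v ^ 2)) ≤ C * ε ^ (-(5 / 4 : ℝ)) := by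
  refine ⟨(1 + p) * (Real.pi + 1), by positivity, fun ε hε hε1 => ?_⟩
  have hpi := Real.pi_pos
  apply Las_nrm_le (by positivity)
  have h1 : ∫ v : ℝ, ((1 + p * v ^ 2) * Real.exp (-ε * v ^ 2)) ^ 2 ≤ ∫ v : ℝ, ((1 + |p| / ε) ^ 2) * Real.exp (-ε * v ^ 2) :=
    integral_mono_of_nonneg (Filter.Eventually.of_forall fun v => sq_nonneg _)
      ((integrable_exp_neg_mul_sq hε).const_mul _) (Filter.Eventually.of_forall (Las_pt p hε))
  rw [integral_const_mul, integral_gaussian, abs_of_nonneg hp] at h1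
  refine h1.trans ?_
  have h2 : 1 + p / ε ≤ (1 + p) * ε⁻¹ := by
    have : 1 ≤ ε⁻¹ := by rw [one_le_inv₀ hε]; exact hε1
    rw [div_eq_mul_inv]
    linarith
  have h3 : √(Real.pi / ε) ≤ (Real.pi + 1) * ε ^ (-(1 / 2 : ℝ)) := by
    rw [Real.sqrt_eq_rpow, Real.div_rpow hpi.le hε.le, Real.rpow_neg hε.le, div_eq_mul_inv]
    apply mul_le_mul_of_nonneg_right _ (by positivity)
    rw [← Real.sqrt_eq_rpow]
    apply Real.sqrt_le_iff.2
    constructor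
    · positivity
    · nlinarith
  have e1 : ((1 + p) * (Real.pi + 1) * ε ^ (-(5 / 4 : ℝ))) ^ 2 =
      ((1 + p) * ε⁻¹) ^ 2 * ((Real.pi + 1) ^ 2 * ε ^ (-(1 / 2 : ℝ))) := by
    have e2 : (ε ^ (-(5 / 4 : ℝ))) ^ 2 = (ε⁻¹) ^ 2 * ε ^ (-(1 / 2 : ℝ)) := by
      rw [← Real.rpow_natCast, ← Real.rpow_natCast, ← Real.rpow_mul hε.le, ← Real.rpow_neg_one, ← Real.rpow_mul hε.le,
        ← Real.rpow_add hε]
      congr 1
      push_cast
      norm_num
    rw [mul_pow, e2]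
    ring
  rw [e1]
  have h4 : (1 + p / ε) ^ 2 ≤ ((1 + p) * ε⁻¹) ^ 2 := pow_le_pow_left₀ (by positivity) h2 2
  have h5 : √(Real.pi / ε) ≤ (Real.pi + 1) ^ 2 * ε ^ (-(1 / 2 : ℝ)) := by
    refine h3.trans ?_
    apply mul_le_mul_of_nonneg_right _ (by positivity)
    nlinarith
  exact mul_le_mul h4 h5 (Real.sqrt_nonneg _) (by positivity)

theorem Las_dec {α c : ℝ} (hα : 0 < α) (hc : 0 < c) : ∃ K > 0, ∀ u : ℝ, (1 + u ^ 2) ^ 4 * Real.exp (-(c * |u| ^ α)) ≤ K := by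
  obtain ⟨k, hk⟩ := exists_nat_ge (8 / α)
  have hk' : 8 ≤ α * k := by
    rw [div_le_iff₀ hα] at hk
    linarith
  refine ⟨16 + 16 * (k.factorial / c ^ k), by positivity, fun u => ?_⟩
  have hpos : 0 < 16 * ((k.factorial : ℝ) / c ^ k) := by positivity
  rcases le_or_gt |u| 1 with h | h
  · have h1 : u ^ 2 ≤ 1 := by
      rw [← sq_abs]
      nlinarith [abs_nonneg u]
    have h2 : (1 + u ^ 2) ^ 4 ≤ 2 ^ 4 := pow_le_pow_left₀ (by positivity) (by linarith) 4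
    have h3 : Real.exp (-(c * |u| ^ α)) ≤ 1 := by
      apply Real.exp_le_one_iff.2
      have : 0 ≤ |u| ^ α := Real.rpow_nonneg (abs_nonneg u) _
      nlinarith
    have h4 : (1 + u ^ 2) ^ 4 * Real.exp (-(c * |u| ^ α)) ≤ 2 ^ 4 * 1 :=
      mul_le_mul h2 h3 (Real.exp_pos _).le (by norm_num)
    linarith
  · have h1 : (1 + u ^ 2) ^ 4 ≤ 16 * |u| ^ (8 : ℝ) := by
      have h2 : 1 + u ^ 2 ≤ 2 * |u| ^ 2 := by
        rw [sq_abs]
        have : 1 ≤ u ^ 2 := by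
          rw [← sq_abs]
          nlinarith
        linarith
      calc (1 + u ^ 2) ^ 4 ≤ (2 * |u| ^ 2) ^ 4 := pow_le_pow_left₀ (by positivity) h2 4
        _ = 16 * |u| ^ (8 : ℕ) := by ring
        _ = 16 * |u| ^ (8 : ℝ) := by
            congr 1
            rw [← Real.rpow_natCast]
            norm_num
    have h3 : |u| ^ (8 : ℝ) ≤ (|u| ^ α) ^ k := by
      rw [← Real.rpow_natCast, ← Real.rpow_mul (abs_nonneg u)]
      exact Real.rpow_le_rpow_of_exponent_le h.le hk'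
    have hx : 0 ≤ c * |u| ^ α := mul_nonneg hc.le (Real.rpow_nonneg (abs_nonneg u) _)
    have h4 := Real.pow_div_factorial_le_exp (c * |u| ^ α) hx k
    have h5 : (|u| ^ α) ^ k ≤ (k.factorial / c ^ k) * Real.exp (c * |u| ^ α) := by
      rw [mul_pow, div_le_iff₀ (by positivity)] at h4
      rw [div_mul_eq_mul_div, le_div_iff₀ (by positivity)]
      linarith
    have h6 : (1 + u ^ 2) ^ 4 ≤ 16 * (k.factorial / c ^ k) * Real.exp (c * |u| ^ α) := by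
      have : 16 * |u| ^ (8 : ℝ) ≤ 16 * ((k.factorial / c ^ k) * Real.exp (c * |u| ^ α)) :=
        mul_le_mul_of_nonneg_left (h3.trans h5) (by norm_num)
      linarith
    rw [Real.exp_neg, ← div_eq_mul_inv, div_le_iff₀ (Real.exp_pos _)]
    refine h6.trans ?_
    apply mul_le_mul_of_nonneg_right _ (Real.exp_pos _).le
    linarith

theorem Las_law {h : ℝ} (hh : 0 < h) : Wm.map (fun w : Pth => w h) = gaussianReal 0 h.toNNReal := by
  have h1 := (IsPreBrownianReal.hasLaw_eval (B := fun (t : ℝ≥0) (A : Pth) => A t) Wm_isW h.toNNReal).map_eq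
  have hc : ((h.toNNReal : ℝ≥0) : ℝ) = h := Real.coe_toNNReal h hh.le
  rw [hc] at h1
  exact h1

theorem Las_mom {h : ℝ} (hh : 0 < h) (hh4 : h ≤ 4) :
    Integrable (fun w : Pth => (1 + (w h) ^ 2) ^ 2) Wm ∧
      ∫ w, (1 + (w h) ^ 2) ^ 2 ∂Wm ≤ 2 + 96 * Real.exp 2 := by
  have hm : Measurable (fun w : Pth => w h) := Pth.measurable_apply _
  have hc : ((h.toNNReal : ℝ≥0) : ℝ) = h := Real.coe_toNNReal h hh.le
  have hI : ∀ t : ℝ, Integrable (fun w : Pth => Real.exp (t * w h)) Wm := by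
    intro t
    have h1 : Integrable (fun x : ℝ => Real.exp (t * x)) (Wm.map (fun w : Pth => w h)) := by
      rw [Las_law hh]
      exact integrable_exp_mul_gaussianReal t
    exact h1.comp_measurable hm
  have hE : ∀ t : ℝ, t ^ 2 = 1 → ∫ w : Pth, Real.exp (t * w h) ∂Wm ≤ Real.exp 2 := by
    intro t ht
    have h1 : mgf (fun w : Pth => w h) Wm t = Real.exp (0 * t + h.toNNReal * t ^ 2 / 2) := by
      have := mgf_gaussianReal (p := Wm) (X := fun w : Pth => w h) (Las_law hh) t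
      exact this
    unfold mgf at h1
    rw [h1, hc, ht]
    apply Real.exp_le_exp.2
    linarith
  have hpt : ∀ x : ℝ, (1 + x ^ 2) ^ 2 ≤ 2 + (48 * Real.exp (1 * x) + 48 * Real.exp (-1 * x)) := by
    intro x
    have h1 : |x| ^ 4 / (Nat.factorial 4 : ℝ) ≤ Real.exp |x| := Real.pow_div_factorial_le_exp |x| (abs_nonneg x) 4
    have h2 : (Nat.factorial 4 : ℝ) = 24 := by norm_num [Nat.factorial]
    rw [h2, div_le_iff₀ (by norm_num)] at h1
    have h3 : |x| ^ 4 = x ^ 4 := by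
      have e : |x| ^ 4 = (|x| ^ 2) ^ 2 := by ring
      rw [e, sq_abs]
      ring
    have h4 : Real.exp |x| ≤ Real.exp (1 * x) + Real.exp (-1 * x) := by
      rcases abs_cases x with ⟨h5, _⟩ | ⟨h5, _⟩
      · rw [h5, one_mul]
        have := Real.exp_pos (-1 * x)
        linarith
      · rw [h5]
        have e : -1 * x = -x := by ring
        rw [e]
        have := Real.exp_pos (1 * x)
        linarith
    nlinarith [sq_nonneg (1 - x ^ 2)]
  have hmaj : Integrable (fun w : Pth => 2 + (48 * Real.exp (1 * w h) + 48 * Real.exp (-1 * w h))) Wm :=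
    (integrable_const _).add (((hI 1).const_mul 48).add ((hI (-1)).const_mul 48))
  have hmm : Measurable (fun w : Pth => (1 + (w h) ^ 2) ^ 2) := (measurable_const.add (hm.pow_const 2)).pow_const 2
  refine ⟨?_, ?_⟩
  · refine Integrable.mono' hmaj hmm.aestronglyMeasurable (Filter.Eventually.of_forall fun w => ?_)
    rw [Real.norm_of_nonneg (sq_nonneg _)]
    exact hpt _
  · have h1 : ∫ w, (1 + (w h) ^ 2) ^ 2 ∂Wm ≤ ∫ w : Pth, (2 + (48 * Real.exp (1 * w h) + 48 * Real.exp (-1 * w h))) ∂Wm :=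
      integral_mono_of_nonneg (Filter.Eventually.of_forall fun w => sq_nonneg _) hmaj
        (Filter.Eventually.of_forall fun w => hpt _)
    have i1 : Integrable (fun w : Pth => 48 * Real.exp (1 * w h)) Wm := (hI 1).const_mul 48
    have i2 : Integrable (fun w : Pth => 48 * Real.exp (-1 * w h)) Wm := (hI (-1)).const_mul 48
    have i3 : Integrable (fun w : Pth => 48 * Real.exp (1 * w h) + 48 * Real.exp (-1 * w h)) Wm := i1.add i2
    rw [integral_add (integrable_const _) i3,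
      integral_add i1 i2, integral_const_mul, integral_const_mul, integral_const] at h1
    simp only [probReal_univ, one_smul] at h1
    have h2 := hE 1 (by norm_num)
    have h3 := hE (-1) (by norm_num)
    linarith

/-- the potentials near `0` and far away -/
theorem Las_om {α : ℝ} (hα : 0 < α) (hα2 : α < 2) : ∃ K > 0, ∀ ω R h : ℝ, 0 ≤ ω → ω ≤ 1 / 2 → 1 ≤ R → 1 / 8 ≤ h → h ≤ 4 → ∀ u : ℝ, u ≠ 0 →
    (|u| ≤ 2 * R → (1 + u ^ 2) ^ 4 * om (Vt α ω R) h u ≤ K) ∧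
    (2 * R < |u| → om (Vt α ω R) h u ≤ 5 * Real.exp (-(R ^ α / 8))) := by
  have hc : 0 < (1 / 2 : ℝ) ^ α / 8 := by positivity
  obtain ⟨K1, hK1, h1⟩ := Las_dec hα hc
  obtain ⟨K2, hK2, h2⟩ := Las_dec (α := 2) (c := 1 / 32) (by norm_num) (by norm_num)
  refine ⟨K1 + 4 * K2, by positivity, fun ω R h hω hω1 hR hh hh4 u hu => ?_⟩
  have hV := pot_Vt (ω := ω) (R := R) hα (by linarith) (by linarith)
  have hR0 : 0 < R := by linarith
  obtain ⟨r, hr⟩ : ∃ r, r = min (|u| / 2) R := ⟨_, rfl⟩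
  have hr0 : 0 ≤ r := by rw [hr]; exact le_min (by positivity) hR0.le
  have hrα : 0 ≤ r ^ α := Real.rpow_nonneg hr0 _
  have hs := sup_split hV (h := h) (u := u) (m := 1 / 2 * r ^ α) (by linarith) hu (by positivity) (by
    intro x hx
    unfold Vt
    have h3 : r ≤ min |x| R := by
      rw [hr]
      exact min_le_min_right R hx
    have h4 : r ^ α ≤ (min |x| R) ^ α := Real.rpow_le_rpow hr0 h3 hα.le
    nlinarith)
  have e1 : Real.exp (-2 * h * (1 / 2 * r ^ α)) ≤ Real.exp (-(r ^ α / 8)) := by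
    apply Real.exp_le_exp.2
    nlinarith
  have e2 : Real.exp (-u ^ 2 / (8 * h)) ≤ Real.exp (-(u ^ 2 / 32)) := by
    apply Real.exp_le_exp.2
    have h3 : u ^ 2 / 32 ≤ u ^ 2 / (8 * h) := by
      apply div_le_div_of_nonneg_left (sq_nonneg u) (by linarith) (by linarith)
    have h4 : -u ^ 2 / (8 * h) = -(u ^ 2 / (8 * h)) := by ring
    rw [h4]
    linarith
  constructor
  · intro hu2
    have hr2 : r = |u| / 2 := by rw [hr]; exact min_eq_left (by linarith)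
    have h3 := h1 u
    have h4 := h2 u
    have e3 : r ^ α / 8 = (1 / 2 : ℝ) ^ α / 8 * |u| ^ α := by
      have e : |u| / 2 = |u| * (1 / 2) := by ring
      rw [hr2, e, Real.mul_rpow (abs_nonneg u) (by norm_num)]
      ring
    have e4 : u ^ 2 / 32 = 1 / 32 * |u| ^ (2 : ℝ) := by
      rw [Real.rpow_two, sq_abs]
      ring
    rw [e3] at e1
    rw [e4] at e2
    have h5 : 0 < (1 + u ^ 2) ^ 4 := by positivity
    calc (1 + u ^ 2) ^ 4 * om (Vt α ω R) h u ≤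
          (1 + u ^ 2) ^ 4 * (Real.exp (-((1 / 2 : ℝ) ^ α / 8 * |u| ^ α)) + 4 * Real.exp (-(1 / 32 * |u| ^ (2 : ℝ)))) :=
          mul_le_mul_of_nonneg_left (by linarith) h5.le
      _ = (1 + u ^ 2) ^ 4 * Real.exp (-((1 / 2 : ℝ) ^ α / 8 * |u| ^ α)) +
          4 * ((1 + u ^ 2) ^ 4 * Real.exp (-(1 / 32 * |u| ^ (2 : ℝ)))) := by ring
      _ ≤ K1 + 4 * K2 := by linarith
  · intro hu2
    have hr2 : r = R := by rw [hr]; exact min_eq_right (by linarith)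
    rw [hr2] at e1 hs
    have h3 : R ^ α ≤ R ^ 2 := by
      calc R ^ α ≤ R ^ (2 : ℝ) := Real.rpow_le_rpow_of_exponent_le hR hα2.le
        _ = R ^ 2 := Real.rpow_two R
    have h4 : Real.exp (-(u ^ 2 / 32)) ≤ Real.exp (-(R ^ α / 8)) := by
      apply Real.exp_le_exp.2
      have h5 : 4 * R ^ 2 ≤ u ^ 2 := by
        rw [← sq_abs u]
        nlinarith
      linarith
    linarith

theorem last_window {α p : ℝ} (hα : 0 < α) (hα2 : α < 2) (hp : 0 ≤ p) : ∃ C > 0, ∃ c > 0, ∀ ω R h ε : ℝ,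
    0 ≤ ω → ω ≤ 1 / 2 → 1 ≤ R → 1 / 8 ≤ h → h ≤ 4 → 0 < ε → ε ≤ 1 →
      nrm (TV (Vt α ω R) h (fun v => (1 + p * v ^ 2) * Real.exp (-ε * v ^ 2))) ≤
        C * (1 + ε ^ (-(5 / 4 : ℝ)) * Real.exp (-c * R ^ α)) := by
  obtain ⟨K, hK, hom⟩ := Las_om hα hα2
  obtain ⟨Cg, hCg, hg⟩ := gs_nrm hp
  obtain ⟨K3, hK3⟩ : ∃ K3 : ℝ, K3 = K * ((1 + 2 * p) ^ 2 * (2 + 96 * Real.exp 2)) := ⟨_, rfl⟩
  have hK30 : 0 < K3 := by
    rw [hK3]
    positivity
  have hpi := Real.pi_pos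
  refine ⟨K3 * Real.pi + 1 + 3 * Cg, by positivity, 1 / 16, by norm_num, fun ω R h ε hω hω1 hR hh hh4 hε hε1 => ?_⟩
  have hh0 : 0 < h := by linarith
  have hV := pot_Vt (ω := ω) (R := R) hα (by linarith) (by linarith)
  obtain ⟨G, hG⟩ : ∃ G : ℝ → ℝ, G = fun v => (1 + p * v ^ 2) * Real.exp (-ε * v ^ 2) := ⟨_, rfl⟩
  have hGm : Measurable G := by rw [hG]; exact Las_g_meas p ε
  have hG2 : MemLp G 2 volume := by rw [hG]; exact gs_memLp hε
  have hGn : nrm G ≤ Cg * ε ^ (-(5 / 4 : ℝ)) := by rw [hG]; exact hg ε hε hε1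
  rw [← hG]
  obtain ⟨m1, m2⟩ := Las_mom hh0 hh4
  obtain ⟨p1, p2⟩ := path_L2 hh0 hGm hG2
  have hEG : ∀ u : ℝ, ∫ w, G (u + w h) ^ 2 ∂Wm ≤ (1 + u ^ 2) ^ 2 * ((1 + 2 * p) ^ 2 * (2 + 96 * Real.exp 2)) := by
    intro u
    have hpt : ∀ x : ℝ, G (u + x) ^ 2 ≤ ((1 + u ^ 2) ^ 2 * (1 + 2 * p) ^ 2) * (1 + x ^ 2) ^ 2 := by
      intro x
      rw [hG]
      have h1 : Real.exp (-ε * (u + x) ^ 2) ≤ 1 := by
        apply Real.exp_le_one_iff.2
        nlinarith [sq_nonneg (u + x)]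
      have h2 : 0 ≤ 1 + p * (u + x) ^ 2 := by positivity
      have h3 : 1 + p * (u + x) ^ 2 ≤ (1 + u ^ 2) * (1 + 2 * p) * (1 + x ^ 2) := by
        have h4 : (u + x) ^ 2 ≤ 2 * u ^ 2 + 2 * x ^ 2 := by nlinarith [sq_nonneg (u - x)]
        have h5 : p * (u + x) ^ 2 ≤ p * (2 * u ^ 2 + 2 * x ^ 2) := mul_le_mul_of_nonneg_left h4 hp
        have h6 : 0 ≤ p * u ^ 2 * x ^ 2 := by positivity
        have h7 : 0 ≤ u ^ 2 * x ^ 2 := by positivity
        nlinarith [sq_nonneg u, sq_nonneg x]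
      have h4 : (1 + p * (u + x) ^ 2) * Real.exp (-ε * (u + x) ^ 2) ≤ (1 + u ^ 2) * (1 + 2 * p) * (1 + x ^ 2) :=
        (mul_le_of_le_one_right h2 h1).trans h3
      calc ((1 + p * (u + x) ^ 2) * Real.exp (-ε * (u + x) ^ 2)) ^ 2 ≤ ((1 + u ^ 2) * (1 + 2 * p) * (1 + x ^ 2)) ^ 2 :=
            pow_le_pow_left₀ (mul_nonneg h2 (Real.exp_pos _).le) h4 2
        _ = _ := by ring
    have h1 : ∫ w, G (u + w h) ^ 2 ∂Wm ≤ ∫ w : Pth, ((1 + u ^ 2) ^ 2 * (1 + 2 * p) ^ 2) * (1 + (w h) ^ 2) ^ 2 ∂Wm :=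
      integral_mono_of_nonneg (Filter.Eventually.of_forall fun w => sq_nonneg _) (m1.const_mul _)
        (Filter.Eventually.of_forall fun w => hpt _)
    rw [integral_const_mul] at h1
    have h2 := mul_le_mul_of_nonneg_left m2 (show 0 ≤ (1 + u ^ 2) ^ 2 * (1 + 2 * p) ^ 2 by positivity)
    linarith
  have hmain : ∀ u : ℝ, u ≠ 0 → TV (Vt α ω R) h G u ^ 2 ≤
      K3 * (1 + u ^ 2)⁻¹ + 5 * Real.exp (-(R ^ α / 8)) * ∫ w, G (u + w h) ^ 2 ∂Wm := by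
    intro u hu
    have h1 := tv_sq hV hh0 hGm hG2 u
    have h2 : 0 ≤ ∫ w, G (u + w h) ^ 2 ∂Wm := integral_nonneg fun _ => sq_nonneg _
    obtain ⟨o1, o2⟩ := hom ω R h hω hω1 hR hh hh4 u hu
    have h5 : 0 < 1 + u ^ 2 := by positivity
    rcases le_or_gt |u| (2 * R) with hu2 | hu2
    · have h3 := o1 hu2
      have h4 : om (Vt α ω R) h u * ∫ w, G (u + w h) ^ 2 ∂Wm ≤ K3 * (1 + u ^ 2)⁻¹ := by
        have h6 := (om_le hV hh0.le u).1
        calc om (Vt α ω R) h u * ∫ w, G (u + w h) ^ 2 ∂Wm ≤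
              om (Vt α ω R) h u * ((1 + u ^ 2) ^ 2 * ((1 + 2 * p) ^ 2 * (2 + 96 * Real.exp 2))) :=
              mul_le_mul_of_nonneg_left (hEG u) h6
          _ = ((1 + u ^ 2) ^ 4 * om (Vt α ω R) h u) * ((1 + 2 * p) ^ 2 * (2 + 96 * Real.exp 2)) * ((1 + u ^ 2) ^ 2)⁻¹ := by
              field_simp
          _ ≤ K * ((1 + 2 * p) ^ 2 * (2 + 96 * Real.exp 2)) * ((1 + u ^ 2) ^ 2)⁻¹ := by
              gcongr
          _ ≤ K * ((1 + 2 * p) ^ 2 * (2 + 96 * Real.exp 2)) * (1 + u ^ 2)⁻¹ := by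
              apply mul_le_mul_of_nonneg_left _ (by positivity)
              apply inv_anti₀ h5
              nlinarith [sq_nonneg u]
          _ = K3 * (1 + u ^ 2)⁻¹ := by rw [hK3]
      have h7 : 0 ≤ 5 * Real.exp (-(R ^ α / 8)) * ∫ w, G (u + w h) ^ 2 ∂Wm := by positivity
      linarith
    · have h3 := mul_le_mul_of_nonneg_right (o2 hu2) h2
      have h7 : 0 ≤ K3 * (1 + u ^ 2)⁻¹ := by positivity
      linarith
  have hae : ∀ᵐ u : ℝ, u ≠ 0 := by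
    have : (volume : Measure ℝ) {(0 : ℝ)} = 0 := measure_singleton 0
    exact compl_mem_ae_iff.2 this
  have h1 : ∫ u, TV (Vt α ω R) h G u ^ 2 ≤
      ∫ u : ℝ, (K3 * (1 + u ^ 2)⁻¹ + 5 * Real.exp (-(R ^ α / 8)) * ∫ w, G (u + w h) ^ 2 ∂Wm) :=
    integral_mono_of_nonneg (Filter.Eventually.of_forall fun u => sq_nonneg _)
      ((integrable_inv_one_add_sq.const_mul K3).add (p1.const_mul _)) (hae.mono fun u hu => hmain u hu)
  rw [integral_add (integrable_inv_one_add_sq.const_mul K3) (p1.const_mul _), integral_const_mul, integral_const_mul, p2,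
    integral_univ_inv_one_add_sq, ← Las_nrm_sq G] at h1
  have hn0 : 0 ≤ nrm G := Real.sqrt_nonneg _
  obtain ⟨e, he⟩ : ∃ e, e = Real.exp (-(1 / 16) * R ^ α) := ⟨_, rfl⟩
  have he0 : 0 < e := by rw [he]; exact Real.exp_pos _
  have e2 : Real.exp (-(R ^ α / 8)) = e ^ 2 := by
    rw [he, ← Real.exp_nat_mul]
    congr 1
    push_cast
    ring
  rw [e2] at h1
  rw [← he]
  obtain ⟨t, ht⟩ : ∃ t, t = ε ^ (-(5 / 4 : ℝ)) := ⟨_, rfl⟩
  have ht0 : 0 < t := by rw [ht]; exact Real.rpow_pos_of_pos hε _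
  rw [← ht] at hGn ⊢
  apply Las_nrm_le (by positivity)
  refine h1.trans ?_
  have h3 : nrm G ^ 2 ≤ (Cg * t) ^ 2 := pow_le_pow_left₀ hn0 hGn 2
  have h4 : 5 * e ^ 2 * nrm G ^ 2 ≤ 5 * e ^ 2 * (Cg * t) ^ 2 := mul_le_mul_of_nonneg_left h3 (by positivity)
  have h5 : K3 * Real.pi ≤ (K3 * Real.pi + 1) ^ 2 := by nlinarith [mul_pos hK30 hpi]
  have h6 : 5 * e ^ 2 * (Cg * t) ^ 2 ≤ (3 * Cg * (t * e)) ^ 2 := by nlinarith [sq_nonneg (e * (Cg * t))]
  have h7 : (K3 * Real.pi + 1) ^ 2 + (3 * Cg * (t * e)) ^ 2 ≤ ((K3 * Real.pi + 1 + 3 * Cg) * (1 + t * e)) ^ 2 := by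
    have a0 : 0 < K3 * Real.pi + 1 := by positivity
    have b0 : 0 < 3 * Cg * (t * e) := by positivity
    have c0 : (K3 * Real.pi + 1) + 3 * Cg * (t * e) ≤ (K3 * Real.pi + 1 + 3 * Cg) * (1 + t * e) := by
      have : 0 < (K3 * Real.pi + 1) * (t * e) := by positivity
      have : 0 < 3 * Cg := by positivity
      nlinarith
    calc (K3 * Real.pi + 1) ^ 2 + (3 * Cg * (t * e)) ^ 2 ≤ ((K3 * Real.pi + 1) + 3 * Cg * (t * e)) ^ 2 := by nlinarith
      _ ≤ _ := pow_le_pow_left₀ (by positivity) c0 2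
  linarith

end Pool.H50.BB
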