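import Pool.Agent.H50.BB.Uup

/-!
# Row Lcv: the curve of the lower bound and its polygon   (about 280 lines, calculus; may be split)

`κ = kap α β lam` (`= a0 s^g`, `g = gg α < 1/2`, `γ = gam α = (1-g)/2`), `cc = (3-γ)/(2√2)`, `f0 s = √2 s - κ s - (s/t)(cc log t - a)`; `f0 t = mm t + a`.  `r ≥ r0`, `ℓ ≥ 1`, `t → ∞` (t large depending on `r, ℓ, a`),
`J = t - ℓ - r`, `n = ⌊J⌋ ≥ 1`, `h = J/n ∈ [1,2]`, `s_k = r + k h`, `θ_k = (f0 s_{k+1} - f0 s_k)/h`, `δ_t = (cc log t - a)/t ≥ 0`, `√2 - θ_k = (κ s_{k+1} - κ s_k)/h + δ_t =: d_k`.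
Polygon: `p u = ∑_{k<n} θ_k (clamp (u - k h) to [0,h])`, i.e. `∑ θ_k * max 0 (min (u - k h) h)`: continuous, 0 for `u ≤ 0`, slope `θ_k` on the k-th interval.
(d0) clear (κ increasing).  (dm) `θ_{k+1} - θ_k = (2κ(s_{k+1}) - κ(s_k) - κ(s_{k+2}))/h ≥ 0` (concave) and `≤ h sup|κ''| ≤ C s_k^{g-2} ≤ C' s_{k+1}^{g-2}` (`s_{k+1} ≤ 3 s_k`).
(dsum) telescoping.  (dsq) `d_k² ≤ 2 κ'(s_k)² + 2 δ_t²`, `∑ h κ'(s_k)² ≤ C ∑ s_k^{2g-2} ≤ C r^{2g-1}`, `J δ_t² ≤ C (log t)²/t`.  (dlast) `κ'(s_{n-1}) ≤ C t^{g-1}`.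
(f0le) `f0` is convex, so the chord is above; (fle) the chord minus `f0` is at most `h² sup|κ''|/8 ≤ C s^{g-2} ≤ κ s` for `r0` large, and `δ_t ≥ 0`: `f ≤ √2 s`.
(xi) `s = r+u ∈ [r, t-ℓ]`, `f s = f0 r + p u ≤ f0 s + C`.  `mm t + a - f0 s - MM κ γ s t = (3/(2√2)) log(t-s+1) - (γ/(2√2)) log(t/s) - (1 - s/t)(cc log t - a)`.  Let `L = log t`.
 `s ≤ t/2`: `log (t-s+1) ≥ L - log 2`: it is `≥ (γ/(2√2)) log s + (s/t) cc L - C - |a|`.
 `s ≥ t/2`, `m = t - s`: `≥ (3/(2√2)) log(m+1) - C - |a| - cc (m/t) L`, and `(m/t) log(1+t) ≤ log(1+m)` (`x/log(1+x)` is nondecreasing, `m ≤ t`), so `≥ (γ/(2√2)) log (m+1) - C - |a|`.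
-/

open MeasureTheory ProbabilityTheory Set Filter Topology
open scoped NNReal ENNReal

namespace Pool.H50.BB

open Pool.Agent.H4.BM

noncomputable def cc (α : ℝ) : ℝ := (3 - gam α) / (2 * √2)

/-- the curve -/
noncomputable def f0 (α β lam a t s : ℝ) : ℝ := √2 * s - kap α β lam s - s / t * (cc α * Real.log t - a)

/-- the polygon `p` with slopes `θ` approximating the curve on `[r, t-ℓ]` -/
structure Lc (α β lam a C r t ℓ : ℝ) (n : ℕ) (h : ℝ≥0) (θ : ℕ → ℝ) (p : Pth) : Prop where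
  hn : 1 ≤ n
  h1 : 1 ≤ (h : ℝ)
  h2 : (h : ℝ) ≤ 2
  nh : (n : ℝ) * h = t - ℓ - r
  hp : ∀ k < n, ∀ s ∈ Icc (0 : ℝ) h, p (k * h + s) = p (k * h) + θ k * s
  node : ∀ k ≤ n, f0 α β lam a t r + p (k * h) = f0 α β lam a t (r + k * h)
  d0 : ∀ k < n, 0 ≤ √2 - θ k
  dm : ∀ k, k + 1 < n → 0 ≤ θ (k + 1) - θ k ∧ θ (k + 1) - θ k ≤ C * (r + (k + 1) * h) ^ (gg α - 2)
  dsum : ∑ k ∈ Finset.range n, (√2 - θ k) * h =
    kap α β lam (t - ℓ) - kap α β lam r + (t - ℓ - r) * ((cc α * Real.log t - a) / t)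
  dsq : (∑ k ∈ Finset.range n, (√2 - θ k) ^ 2) * h / 2 ≤ C * (r ^ (2 * gg α - 1) + Real.log t ^ 2 / t)
  dlast : √2 - θ (n - 1) ≤ C * (t ^ (gg α - 1) + Real.log t / t)
  f0le : ∀ u, 0 ≤ u → u ≤ t - ℓ - r → f0 α β lam a t (r + u) ≤ f0 α β lam a t r + p u
  fle : ∀ u, 0 ≤ u → u ≤ t - ℓ - r → f0 α β lam a t r + p u ≤ √2 * (r + u)
  xi : ∀ u, 0 ≤ u → u ≤ t - ℓ - r →
    gam α / (2 * √2) * Real.log (min (r + u) (t - r - u) + 1) - C ≤
      mm α β lam t + a - (f0 α β lam a t r + p u) - MM (kap α β lam) (gam α) (r + u) t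

/-- tangent line above -/
private theorem Lcv_up {g x y : ℝ} (hg0 : 0 ≤ g) (hg1 : g ≤ 1) (hx : 0 < x) (hy : 0 < y) :
    y ^ g - x ^ g ≤ g * x ^ (g - 1) * (y - x) := by
  have hq : 0 < y / x := div_pos hy hx
  have h1 : (y / x) ^ g ≤ 1 + g * (y / x - 1) := by
    have := rpow_one_add_le_one_add_mul_self (s := y / x - 1) (p := g) (by linarith) hg0 hg1
    rwa [add_sub_cancel] at this
  have h2 : y ^ g = x ^ g * (y / x) ^ g := by
    rw [← Real.mul_rpow hx.le hq.le]
    congr 1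
    field_simp
  have h3 : x ^ (g - 1) = x ^ g / x := Real.rpow_sub_one hx.ne' g
  have h4 : 0 < x ^ g := Real.rpow_pos_of_pos hx g
  have h5 : g * (x ^ g / x) * (y - x) = x ^ g * (g * (y / x - 1)) := by field_simp
  rw [h3, h5, h2]
  nlinarith

/-- tangent line below, negative exponents -/
private theorem Lcv_lo {q x y : ℝ} (hq : 0 ≤ q) (hx : 0 < x) (hy : 0 < y) :
    x ^ (-q) - q * x ^ (-q - 1) * (y - x) ≤ y ^ (-q) := by
  have hr : 0 < y / x := div_pos hy hx
  have h1 : 1 - q * (y / x - 1) ≤ (y / x) ^ (-q) := by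
    rw [Real.rpow_def_of_pos hr]
    have h2 := Real.add_one_le_exp (Real.log (y / x) * -q)
    have h3 := Real.log_le_sub_one_of_pos hr
    nlinarith
  have h2 : y ^ (-q) = x ^ (-q) * (y / x) ^ (-q) := by
    rw [← Real.mul_rpow hx.le hr.le]
    congr 1
    field_simp
  have h3 : x ^ (-q - 1) = x ^ (-q) / x := Real.rpow_sub_one hx.ne' _
  have h4 : 0 < x ^ (-q) := Real.rpow_pos_of_pos hx _
  have h5 : q * (x ^ (-q) / x) * (y - x) = x ^ (-q) * (q * (y / x - 1)) := by field_simp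
  rw [h3, h5, h2]
  nlinarith

private theorem Lcv_third {x m e : ℝ} (he : e ≤ 0) (he2 : -2 ≤ e) (hx : 0 < x) (hm : 0 < m)
    (h : m ≤ 3 * x) : x ^ e ≤ 9 * m ^ e := by
  have h1 : x ^ e ≤ (m / 3) ^ e :=
    Real.rpow_le_rpow_of_nonpos (by positivity) (by linarith) he
  have h2 : (m / 3) ^ e = m ^ e / 3 ^ e := Real.div_rpow hm.le (by norm_num) e
  have h3 : (1 / 9 : ℝ) ≤ 3 ^ e := by
    have h4 : (3 : ℝ) ^ (-2 : ℝ) ≤ 3 ^ e := Real.rpow_le_rpow_of_exponent_le (by norm_num) he2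
    have h5 : (3 : ℝ) ^ (-2 : ℝ) = 1 / 9 := by
      rw [Real.rpow_neg (by norm_num), Real.rpow_two]
      norm_num
    rw [h5] at h4
    exact h4
  have h6 : 0 < m ^ e := Real.rpow_pos_of_pos hm e
  have h7 : (0 : ℝ) < 3 ^ e := by linarith
  have h8 : m ^ e / 3 ^ e ≤ 9 * m ^ e := by
    rw [div_le_iff₀ h7]
    nlinarith
  linarith

/-- second differences of `x ^ g` -/
private theorem Lcv_sec {g x h : ℝ} (hg0 : 0 ≤ g) (hg1 : g ≤ 1) (hx : 1 ≤ x) (hh : 0 < h) (hh2 : h ≤ 2) :
    0 ≤ 2 * (x + h) ^ g - x ^ g - (x + 2 * h) ^ g ∧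
    2 * (x + h) ^ g - x ^ g - (x + 2 * h) ^ g ≤ 36 * h * (x + h) ^ (g - 2) := by
  have hx0 : 0 < x := by linarith
  have hm0 : 0 < x + h := by linarith
  have hy0 : 0 < x + 2 * h := by linarith
  constructor
  · have h1 := Lcv_up hg0 hg1 hm0 hx0
    have h2 := Lcv_up hg0 hg1 hm0 hy0
    nlinarith
  · have h1 := Lcv_up hg0 hg1 hx0 hm0
    have h2 := Lcv_up hg0 hg1 hy0 hm0
    have h3 := Lcv_lo (q := 1 - g) (by linarith) hx0 hy0
    have e1 : -(1 - g) = g - 1 := by ring
    have e2 : -(1 - g) - 1 = g - 2 := by ring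
    rw [e2, e1] at h3
    have h4 : x ^ (g - 2) ≤ 9 * (x + h) ^ (g - 2) :=
      Lcv_third (by linarith) (by linarith) hx0 hm0 (by linarith)
    have h5 : 0 < x ^ (g - 2) := Real.rpow_pos_of_pos hx0 _
    have h6 : 2 * (x + h) ^ g - x ^ g - (x + 2 * h) ^ g ≤ g * h * (x ^ (g - 1) - (x + 2 * h) ^ (g - 1)) := by
      nlinarith
    have h7 : x ^ (g - 1) - (x + 2 * h) ^ (g - 1) ≤ 2 * h * x ^ (g - 2) := by
      have h8 : (1 - g) * x ^ (g - 2) * (x + 2 * h - x) ≤ 2 * h * x ^ (g - 2) := by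
        have : 0 ≤ h * x ^ (g - 2) := by positivity
        nlinarith
      linarith
    have h9 : g * h * (x ^ (g - 1) - (x + 2 * h) ^ (g - 1)) ≤ h * (2 * h * x ^ (g - 2)) := by
      have a1 : g * h * (x ^ (g - 1) - (x + 2 * h) ^ (g - 1)) ≤ g * h * (2 * h * x ^ (g - 2)) :=
        mul_le_mul_of_nonneg_left h7 (by positivity)
      have a2 : 0 ≤ h * (2 * h * x ^ (g - 2)) := by positivity
      nlinarith
    have h10 : h * (2 * h * x ^ (g - 2)) ≤ 4 * h * x ^ (g - 2) := by
      have : 0 ≤ h * x ^ (g - 2) := by positivity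
      nlinarith
    have h11 : 4 * h * x ^ (g - 2) ≤ 4 * h * (9 * (x + h) ^ (g - 2)) :=
      mul_le_mul_of_nonneg_left h4 (by positivity)
    linarith

/-- a step of the sum of squares -/
private theorem Lcv_sq {g x h : ℝ} (hg0 : 0 ≤ g) (hg1 : 2 * g < 1) (hx : 1 ≤ x) (hh : 0 < h) (hh2 : h ≤ 2) :
    h * x ^ (2 * g - 2) ≤ 9 / (1 - 2 * g) * (x ^ (2 * g - 1) - (x + h) ^ (2 * g - 1)) := by
  have hx0 : 0 < x := by linarith
  have hy0 : 0 < x + h := by linarith
  have h3 := Lcv_lo (q := 1 - 2 * g) (by linarith) hy0 hx0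
  have e1 : -(1 - 2 * g) = 2 * g - 1 := by ring
  have e2 : -(1 - 2 * g) - 1 = 2 * g - 2 := by ring
  rw [e2, e1] at h3
  have h4 : x ^ (2 * g - 2) ≤ 9 * (x + h) ^ (2 * g - 2) :=
    Lcv_third (by linarith) (by linarith) hx0 hy0 (by linarith)
  have hq : 0 < 1 - 2 * g := by linarith
  rw [div_mul_eq_mul_div, le_div_iff₀ hq]
  have h5 : h * x ^ (2 * g - 2) * (1 - 2 * g) ≤ h * (9 * (x + h) ^ (2 * g - 2)) * (1 - 2 * g) :=
    mul_le_mul_of_nonneg_right (mul_le_mul_of_nonneg_left h4 hh.le) hq.le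
  nlinarith

/-- the chord of `x ^ g` is below the graph -/
private theorem Lcv_ch {g x h s : ℝ} (hg0 : 0 ≤ g) (hg1 : g ≤ 1) (hx : 0 < x) (hh : 0 < h) (hs : 0 ≤ s)
    (hsh : s ≤ h) : x ^ g + ((x + h) ^ g - x ^ g) / h * s ≤ (x + s) ^ g := by
  have hz : 0 < x + s := by linarith
  have hy : 0 < x + h := by linarith
  have h1 := Lcv_up hg0 hg1 hz hx
  have h2 := Lcv_up hg0 hg1 hz hy
  have h3 : x ^ g + ((x + h) ^ g - x ^ g) / h * s = ((h - s) * x ^ g + s * (x + h) ^ g) / h := by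
    field_simp
    ring
  rw [h3, div_le_iff₀ hh]
  have h4 := mul_le_mul_of_nonneg_left h1 (by linarith : 0 ≤ h - s)
  have h5 := mul_le_mul_of_nonneg_left h2 hs
  nlinarith

/-- the polygon -/
private noncomputable def Lcv_p (n : ℕ) (h : ℝ) (θ : ℕ → ℝ) (hh : 0 ≤ h) : Pth :=
  ⟨fun u => ∑ k ∈ Finset.range n, θ k * max 0 (min (u - k * h) h), by fun_prop, fun u hu => by
    refine Finset.sum_eq_zero fun k _ => ?_
    rw [max_eq_left, mul_zero]
    refine (min_le_left _ _).trans ?_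
    have : (0 : ℝ) ≤ k * h := by positivity
    linarith⟩

private theorem Lcv_eval {n : ℕ} {h : ℝ} {θ : ℕ → ℝ} (hh : 0 ≤ h) {j : ℕ} (hj : j < n) {s : ℝ}
    (hs : 0 ≤ s) (hsh : s ≤ h) :
    Lcv_p n h θ hh (j * h + s) = (∑ k ∈ Finset.range j, θ k * h) + θ j * s := by
  change ∑ k ∈ Finset.range n, θ k * max 0 (min (j * h + s - k * h) h) = _
  have h1 : ∑ k ∈ Finset.range (j + 1), θ k * max 0 (min (j * h + s - k * h) h) =
      ∑ k ∈ Finset.range n, θ k * max 0 (min (j * h + s - k * h) h) := by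
    refine Finset.sum_subset (Finset.range_mono (Nat.succ_le_of_lt hj)) fun k _ hk => ?_
    rw [Finset.mem_range, not_lt] at hk
    have hk' : (j : ℝ) + 1 ≤ k := by exact_mod_cast hk
    rw [max_eq_left, mul_zero]
    refine (min_le_left _ _).trans ?_
    nlinarith
  rw [← h1, Finset.sum_range_succ]
  congr 1
  · refine Finset.sum_congr rfl fun k hk => ?_
    rw [Finset.mem_range] at hk
    have hk' : (k : ℝ) + 1 ≤ j := by exact_mod_cast hk
    rw [min_eq_right (by nlinarith), max_eq_right hh]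
  · rw [add_sub_cancel_left, min_eq_left hsh, max_eq_right hs]

private theorem Lcv_node {n : ℕ} {h : ℝ} {θ : ℕ → ℝ} (hh : 0 ≤ h) {j : ℕ} (hj : j ≤ n) :
    Lcv_p n h θ hh (j * h) = ∑ k ∈ Finset.range j, θ k * h := by
  rcases j with _ | i
  · rw [Nat.cast_zero, zero_mul, Pth.zero, Finset.range_zero, Finset.sum_empty]
  · have h1 : ((i + 1 : ℕ) : ℝ) * h = i * h + h := by
      push_cast
      ring
    rw [h1, Lcv_eval hh (by omega) hh le_rfl, Finset.sum_range_succ]

private theorem Lcv_dec {n : ℕ} {h u : ℝ} (hn : 1 ≤ n) (hh : 0 < h) (hu : 0 ≤ u) (hun : u ≤ n * h) :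
    ∃ k < n, ∃ s, 0 ≤ s ∧ s ≤ h ∧ u = k * h + s := by
  have h0 : 0 ≤ u / h := by positivity
  by_cases hlt : u < n * h
  · refine ⟨⌊u / h⌋₊, ?_, u - ⌊u / h⌋₊ * h, ?_, ?_, by ring⟩
    · rw [Nat.floor_lt h0, div_lt_iff₀ hh]
      exact hlt
    · have h1 := Nat.floor_le h0
      rw [le_div_iff₀ hh] at h1
      linarith
    · have h1 := (Nat.lt_floor_add_one (u / h)).le
      rw [div_le_iff₀ hh] at h1
      linarith
  · have he : u = n * h := le_antisymm hun (not_lt.1 hlt)
    refine ⟨n - 1, by omega, h, hh.le, le_rfl, ?_⟩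
    rw [he, Nat.cast_sub hn]
    push_cast
    ring

/-- the logarithmic estimate -/
private theorem Lcv_log {γ a s t c3 cγ : ℝ} (hc3 : c3 = 3 / (2 * √2)) (hcγ : cγ = γ / (2 * √2)) (hγ0 : 0 < γ)
    (hγ1 : γ < 1 / 2) (hs : 1 ≤ s) (hst : s ≤ t) (hL : |a| ≤ (c3 - cγ) * Real.log t) :
    cγ * Real.log (min s (t - s) + 1) - (2 + |a|) ≤
      c3 * Real.log (t - s + 1) - cγ * Real.log (t / s) - (1 - s / t) * ((c3 - cγ) * Real.log t - a) := by
  have ht : 0 < t := by linarith
  have hs0 : 0 < s := by linarith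
  have h2 : 1 ≤ √2 := by
    rw [Real.one_le_sqrt]
    norm_num
  have hcγ0 : 0 ≤ cγ := by rw [hcγ]; positivity
  have hcγ1 : cγ ≤ 1 / 4 := by
    rw [hcγ, div_le_iff₀ (by positivity)]
    nlinarith
  have hc30 : 0 ≤ c3 := by rw [hc3]; positivity
  have hc31 : c3 ≤ 3 / 2 := by
    rw [hc3, div_le_iff₀ (by positivity)]
    nlinarith
  have hcc : 0 ≤ c3 - cγ := by
    rw [hc3, hcγ, ← sub_div]
    apply div_nonneg (by linarith) (by positivity)
  have hl2 := Real.log_two_lt_d9
  have hl2' : 0 < Real.log 2 := Real.log_pos (by norm_num)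
  have ha := abs_nonneg a
  have ha1 := neg_abs_le a
  have ha2 := le_abs_self a
  have hls : Real.log (t / s) = Real.log t - Real.log s := Real.log_div ht.ne' hs0.ne'
  have hr1 : 0 ≤ 1 - s / t := by
    rw [sub_nonneg, div_le_one ht]
    exact hst
  have hr2 : 1 - s / t ≤ 1 := by
    have : 0 ≤ s / t := by positivity
    linarith
  rcases le_or_gt s (t - s) with hm | hm
  · rw [min_eq_left hm]
    have h3 : Real.log t - Real.log 2 ≤ Real.log (t - s + 1) := by
      rw [← Real.log_div ht.ne' (by norm_num)]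
      exact Real.log_le_log (by positivity) (by linarith)
    have h4 : Real.log (s + 1) ≤ Real.log s + Real.log 2 := by
      rw [← Real.log_mul hs0.ne' (by norm_num)]
      exact Real.log_le_log (by linarith) (by linarith)
    have h5 : (1 - s / t) * ((c3 - cγ) * Real.log t - a) ≤ 1 * ((c3 - cγ) * Real.log t - a) :=
      mul_le_mul_of_nonneg_right hr2 (by linarith)
    have h6 := mul_le_mul_of_nonneg_left h3 hc30
    have h7 := mul_le_mul_of_nonneg_left h4 hcγ0
    have h8 : c3 * Real.log 2 ≤ 3 / 2 * 1 := mul_le_mul hc31 (by linarith) hl2'.le (by norm_num)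
    have h9 : cγ * Real.log 2 ≤ 1 / 4 * 1 := mul_le_mul hcγ1 (by linarith) hl2'.le (by norm_num)
    rw [hls]
    nlinarith
  · rw [min_eq_right hm.le]
    set m := t - s with hmdef
    have hm0 : 0 ≤ m := by linarith
    have hmt : 1 - s / t = m / t := by
      rw [hmdef]
      field_simp
    have h3 : Real.log (t / s) ≤ Real.log 2 := by
      refine Real.log_le_log (by positivity) ?_
      rw [div_le_iff₀ hs0]
      linarith
    have h4 : m / t * Real.log (1 + t) ≤ Real.log (m + 1) := by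
      have h5 : (1 + t) ^ (m / t) ≤ m + 1 := by
        have h6 := rpow_one_add_le_one_add_mul_self (s := t) (p := m / t) (by linarith)
          (by positivity) (by rw [div_le_one ht]; linarith)
        have h7 : m / t * t = m := by field_simp
        rw [h7] at h6
        linarith
      have h8 := Real.log_le_log (Real.rpow_pos_of_pos (by linarith) _) h5
      rwa [Real.log_rpow (by linarith)] at h8
    have h5 : m / t * Real.log t ≤ m / t * Real.log (1 + t) :=
      mul_le_mul_of_nonneg_left (Real.log_le_log ht (by linarith)) (by positivity)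
    have h6 : (c3 - cγ) * (m / t * Real.log t) ≤ (c3 - cγ) * Real.log (m + 1) :=
      mul_le_mul_of_nonneg_left (h5.trans h4) hcc
    have h7 : -(m / t * a) ≤ |a| := by
      have h8 : m / t ≤ 1 := by rw [div_le_one ht]; linarith
      have h9 : 0 ≤ m / t := by positivity
      nlinarith
    have h8 : cγ * Real.log (t / s) ≤ cγ * Real.log 2 := mul_le_mul_of_nonneg_left h3 hcγ0
    have h9 : cγ * Real.log 2 ≤ 1 / 4 * 1 := mul_le_mul hcγ1 (by linarith) hl2'.le (by norm_num)
    rw [hmt]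
    have e1 : m / t * ((c3 - cγ) * Real.log t - a) =
        (c3 - cγ) * (m / t * Real.log t) - m / t * a := by ring
    rw [e1]
    nlinarith

theorem lcv {α β lam : ℝ} (hα : 2 / 3 < α) (hα2 : α < 2) (hβ : 0 < β) (hlam : 0 < lam) (a : ℝ) :
    ∃ C ≥ (1 : ℝ), ∃ r0 ≥ (1 : ℝ), ∀ r, r0 ≤ r → ∀ ℓ ≥ (1 : ℝ), ∀ᶠ t in atTop,
      ∃ (n : ℕ) (h : ℝ≥0) (θ : ℕ → ℝ) (p : Pth), Lc α β lam a C r t ℓ n h θ p := by
  have hα0 : 0 < α := by linarith
  have hg0 : 0 < gg α := by
    unfold gg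
    exact div_pos (by linarith) (by linarith)
  have hg2 : 2 * gg α < 1 := by
    unfold gg
    rw [← mul_div_assoc, div_lt_one (by linarith)]
    linarith
  have hγ0 : 0 < gam α := by
    unfold gam
    positivity
  have hγ1 : gam α < 1 / 2 := by
    unfold gam
    rw [div_lt_iff₀ (by linarith)]
    linarith
  have hkb : 0 < kb α β := by
    unfold kb
    positivity
  obtain ⟨a0, ha0, hkap⟩ : ∃ a0 : ℝ, 0 < a0 ∧ ∀ s, kap α β lam s = a0 * s ^ gg α :=
    ⟨lam / (√2 * gg α * kb α β ^ 2), by positivity, fun s => by unfold kap; ring⟩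
  set g := gg α with hg
  set c3 : ℝ := 3 / (2 * √2) with hc3
  set cγ : ℝ := gam α / (2 * √2) with hcγ
  have hcc : cc α = c3 - cγ := by
    unfold cc
    rw [hc3, hcγ, sub_div]
  have hcc0 : 0 < cc α := by
    unfold cc
    exact div_pos (by linarith) (by positivity)
  have hq : 0 < 1 - 2 * g := by linarith
  have h9q : 0 < 9 / (1 - 2 * g) := by positivity
  set C : ℝ := 1 + 36 * a0 + 9 / (1 - 2 * g) * a0 ^ 2 + (cc α + 1) ^ 2 + (2 + |a|) + 2 * a0 with hC
  have haa := abs_nonneg a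
  have ht1 : 0 < 36 * a0 := by positivity
  have ht2 : 0 < 9 / (1 - 2 * g) * a0 ^ 2 := by positivity
  have ht3 : 0 < (cc α + 1) ^ 2 := by positivity
  refine ⟨C, by rw [hC]; linarith, 1, le_rfl, fun r hr ℓ hℓ => ?_⟩
  filter_upwards [eventually_ge_atTop (2 * (ℓ + 2) + r),
    Real.tendsto_log_atTop.eventually_ge_atTop (|a| + |a| / cc α)] with t ht hL
  have ht0 : 0 < t := by linarith
  set L := Real.log t with hLdef
  have haL : |a| ≤ L := by
    have : 0 ≤ |a| / cc α := by positivity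
    linarith
  have haL2 : |a| ≤ cc α * L := by
    have h1 : |a| / cc α ≤ L := by linarith
    rwa [div_le_iff₀ hcc0, mul_comm] at h1
  have hLa := le_abs_self a
  have hLa' := neg_abs_le a
  set δ : ℝ := (cc α * L - a) / t with hδ
  have hδ0 : 0 ≤ δ := div_nonneg (by linarith) ht0.le
  have hδt : δ ≤ (cc α + 1) * (L / t) := by
    rw [hδ, ← mul_div_assoc]
    gcongr
    linarith
  have hL0 : 0 ≤ L := haa.trans haL
  -- the curve
  have hF : ∀ s, f0 α β lam a t s = √2 * s - a0 * s ^ g - s * δ := by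
    intro s
    unfold f0
    rw [hkap, hδ]
    ring
  -- the mesh
  set J : ℝ := t - ℓ - r with hJ
  have hJ1 : 1 ≤ J := by linarith
  obtain ⟨n, hn⟩ : ∃ n : ℕ, n = ⌊J⌋₊ := ⟨_, rfl⟩
  have hn1 : 1 ≤ n := by
    rw [hn, Nat.one_le_floor_iff]
    exact hJ1
  have hnJ : (n : ℝ) ≤ J := by
    rw [hn]
    exact Nat.floor_le (by linarith)
  have hJn : J < n + 1 := by
    rw [hn]
    exact Nat.lt_floor_add_one J
  have hn0 : (1 : ℝ) ≤ n := by exact_mod_cast hn1
  obtain ⟨h, hh⟩ : ∃ h : ℝ≥0, (h : ℝ) = J / n := ⟨⟨J / n, by positivity⟩, rfl⟩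
  have h1 : 1 ≤ (h : ℝ) := by
    rw [hh, one_le_div (by linarith)]
    exact hnJ
  have h2 : (h : ℝ) ≤ 2 := by
    rw [hh, div_le_iff₀ (by linarith)]
    linarith
  have hh0 : (0 : ℝ) < h := by linarith
  have hnh : (n : ℝ) * h = J := by
    rw [hh]
    field_simp
  set S : ℕ → ℝ := fun k => r + k * h with hS
  have hS0 : ∀ k, 1 ≤ S k := by
    intro k
    have : (0 : ℝ) ≤ k * h := by positivity
    simp only [hS]
    linarith
  have hSs : ∀ k, S (k + 1) = S k + h := by
    intro k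
    simp only [hS]
    push_cast
    ring
  have hSz : S 0 = r := by
    simp only [hS]
    push_cast
    ring
  have hSn : S n = t - ℓ := by
    simp only [hS]
    rw [hnh, hJ]
    ring
  set θ : ℕ → ℝ := fun k => (f0 α β lam a t (S (k + 1)) - f0 α β lam a t (S k)) / h with hθ
  have hθh : ∀ k, θ k * h = f0 α β lam a t (S (k + 1)) - f0 α β lam a t (S k) := by
    intro k
    simp only [hθ]
    field_simp
  have hθd : ∀ k, √2 - θ k = a0 * (((S k + h) ^ g - S k ^ g) / h) + δ := by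
    intro k
    simp only [hθ]
    rw [hF, hF, hSs]
    field_simp
    ring
  have hmono : ∀ x : ℝ, 1 ≤ x → 0 ≤ ((x + h) ^ g - x ^ g) / h := by
    intro x hx
    refine div_nonneg (sub_nonneg.2 ?_) hh0.le
    exact Real.rpow_le_rpow (by linarith) (by linarith) hg0.le
  have hD : ∀ x : ℝ, 1 ≤ x → ((x + h) ^ g - x ^ g) / h ≤ x ^ (g - 1) := by
    intro x hx
    rw [div_le_iff₀ hh0]
    have h3 := Lcv_up hg0.le (by linarith) (by linarith : 0 < x) (by linarith : 0 < x + h)
    have h4 : 0 < x ^ (g - 1) * h := mul_pos (Real.rpow_pos_of_pos (by linarith) _) hh0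
    have h5 : g * x ^ (g - 1) * (x + h - x) = g * (x ^ (g - 1) * h) := by ring
    rw [h5] at h3
    nlinarith
  have hnode : ∀ k ≤ n, f0 α β lam a t r + Lcv_p n h θ hh0.le (k * h) = f0 α β lam a t (S k) := by
    intro k hk
    rw [Lcv_node hh0.le hk]
    simp only [hθh]
    rw [Finset.sum_range_sub (fun k => f0 α β lam a t (S k)), hSz]
    ring
  have hpoly : ∀ k < n, ∀ s : ℝ, 0 ≤ s → s ≤ h →
      f0 α β lam a t r + Lcv_p n h θ hh0.le (k * h + s) = f0 α β lam a t (S k) + θ k * s := by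
    intro k hk s hs hsh
    rw [Lcv_eval hh0.le hk hs hsh, ← hnode k hk.le, Lcv_node hh0.le hk.le]
    ring
  -- the chord
  have hchord : ∀ k < n, ∀ s : ℝ, 0 ≤ s → s ≤ h → f0 α β lam a t (S k) + θ k * s =
      √2 * (S k + s) - a0 * (S k ^ g + ((S k + h) ^ g - S k ^ g) / h * s) - (S k + s) * δ := by
    intro k _ s _ _
    have h3 : θ k = √2 - (a0 * (((S k + h) ^ g - S k ^ g) / h) + δ) := by
      have := hθd k
      linarith
    rw [h3, hF]
    ring
  have hdec : ∀ u, 0 ≤ u → u ≤ t - ℓ - r → ∃ k < n, ∃ s : ℝ, 0 ≤ s ∧ s ≤ h ∧ u = k * h + s := by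
    intro u hu huJ
    exact Lcv_dec hn1 hh0 hu (by rw [hnh]; exact huJ)
  have hfle0 : ∀ u, 0 ≤ u → u ≤ t - ℓ - r → f0 α β lam a t (r + u) ≤
      f0 α β lam a t r + Lcv_p n h θ hh0.le u ∧
      f0 α β lam a t r + Lcv_p n h θ hh0.le u ≤ f0 α β lam a t (r + u) + 2 * a0 ∧
      f0 α β lam a t r + Lcv_p n h θ hh0.le u ≤ √2 * (r + u) := by
    intro u hu huJ
    obtain ⟨k, hk, s, hs, hsh, rfl⟩ := hdec u hu huJ
    have hru : r + (k * h + s) = S k + s := by
      simp only [hS]
      ring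
    have hx := hS0 k
    rw [hpoly k hk s hs hsh, hchord k hk s hs hsh, hru, hF]
    have h3 := Lcv_ch hg0.le (by linarith : g ≤ 1) (by linarith : 0 < S k) hh0 hs hsh
    have h4 := mul_le_mul_of_nonneg_left h3 ha0.le
    have h5 : 0 ≤ ((S k + h) ^ g - S k ^ g) / h * s := mul_nonneg (hmono _ hx) hs
    have h6 : (S k + s) ^ g - S k ^ g ≤ 2 := by
      have h7 := Lcv_up hg0.le (by linarith : g ≤ 1) (by linarith : 0 < S k) (by linarith : 0 < S k + s)
      have h8 : S k ^ (g - 1) ≤ 1 := Real.rpow_le_one_of_one_le_of_nonpos hx (by linarith)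
      have h9 : 0 < S k ^ (g - 1) := Real.rpow_pos_of_pos (by linarith) _
      have h10 : g * S k ^ (g - 1) * (S k + s - S k) ≤ 1 * 1 * 2 := by
        have : S k + s - S k = s := by ring
        rw [this]
        refine mul_le_mul (mul_le_mul (by linarith) h8 h9.le zero_le_one) (by linarith) hs (by norm_num)
      linarith
    have h7 : 0 ≤ S k ^ g := Real.rpow_nonneg (by linarith) _
    have h8 : 0 ≤ (S k + s) * δ := mul_nonneg (by linarith) hδ0
    have h9 : 0 ≤ a0 * (S k ^ g + ((S k + h) ^ g - S k ^ g) / h * s) := by positivity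
    have h10 : a0 * (S k + s) ^ g ≤ a0 * (S k ^ g + 2) := mul_le_mul_of_nonneg_left (by linarith) ha0.le
    have h11 : 0 ≤ a0 * (((S k + h) ^ g - S k ^ g) / h * s) := mul_nonneg ha0.le h5
    refine ⟨by linarith, ?_, by linarith⟩
    nlinarith
  refine ⟨n, h, θ, Lcv_p n h θ hh0.le, ?_⟩
  exact
    { hn := hn1
      h1 := h1
      h2 := h2
      nh := hnh
      hp := fun k hk s hs => by
        have h3 := Lcv_eval (θ := θ) hh0.le hk hs.1 hs.2
        have h4 := Lcv_node (θ := θ) (n := n) hh0.le hk.le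
        rw [h3, h4]
      node := fun k hk => hnode k hk
      d0 := fun k hk => by
        rw [hθd]
        have := mul_nonneg ha0.le (hmono (S k) (hS0 k))
        linarith
      dm := fun k hk => by
        have e1 : θ (k + 1) - θ k =
            a0 * ((2 * (S k + h) ^ g - S k ^ g - (S k + 2 * h) ^ g) / h) := by
          have h3 := hθd k
          have h4 := hθd (k + 1)
          rw [hSs] at h4
          have e2 : S k + h + h = S k + 2 * h := by ring
          rw [e2] at h4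
          have e3 : θ (k + 1) - θ k = (√2 - θ k) - (√2 - θ (k + 1)) := by ring
          rw [e3, h3, h4]
          field_simp
          ring
        obtain ⟨h3, h4⟩ := Lcv_sec hg0.le (by linarith : g ≤ 1) (hS0 k) hh0 h2
        have e4 : r + ((k : ℝ) + 1) * h = S k + h := by
          simp only [hS]
          ring
        rw [e1, e4]
        refine ⟨mul_nonneg ha0.le (div_nonneg h3 hh0.le), ?_⟩
        have h5 : (2 * (S k + h) ^ g - S k ^ g - (S k + 2 * h) ^ g) / h ≤ 36 * (S k + h) ^ (g - 2) := by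
          rw [div_le_iff₀ hh0]
          linarith
        have h6 : 0 ≤ (S k + h) ^ (g - 2) := Real.rpow_nonneg (by linarith [hS0 k]) _
        calc a0 * ((2 * (S k + h) ^ g - S k ^ g - (S k + 2 * h) ^ g) / h)
            ≤ a0 * (36 * (S k + h) ^ (g - 2)) := mul_le_mul_of_nonneg_left h5 ha0.le
          _ = 36 * a0 * (S k + h) ^ (g - 2) := by ring
          _ ≤ C * (S k + h) ^ (g - 2) := by
            refine mul_le_mul_of_nonneg_right ?_ h6
            rw [hC]
            linarith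
      dsum := by
        have e1 : ∀ k, (√2 - θ k) * h = (a0 * S (k + 1) ^ g - a0 * S k ^ g) + δ * h := by
          intro k
          rw [hθd, hSs]
          field_simp
        simp only [e1]
        rw [Finset.sum_add_distrib, Finset.sum_range_sub (fun k => a0 * S k ^ g), hSz, hSn,
          Finset.sum_const, Finset.card_range, nsmul_eq_mul, hkap, hkap]
        have e2 : (n : ℝ) * (δ * h) = J * δ := by
          rw [← hnh]
          ring
        rw [e2]
      dsq := by
        have e1 : ∀ k ∈ Finset.range n, (√2 - θ k) ^ 2 * h / 2 ≤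
            a0 ^ 2 * (9 / (1 - 2 * g)) * (S k ^ (2 * g - 1) - S (k + 1) ^ (2 * g - 1)) + δ ^ 2 * h := by
          intro k _
          have hx := hS0 k
          have h3 := hmono _ hx
          have h4 := hD _ hx
          have h5 : (((S k + h) ^ g - S k ^ g) / h) ^ 2 ≤ S k ^ (2 * g - 2) := by
            have h6 : S k ^ (2 * g - 2) = (S k ^ (g - 1)) ^ 2 := by
              rw [← Real.rpow_natCast, ← Real.rpow_mul (by linarith)]
              congr 1
              push_cast
              ring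
            rw [h6]
            exact pow_le_pow_left₀ h3 h4 2
          have h6 := Lcv_sq hg0.le hg2 hx hh0 h2
          rw [← hSs] at h6
          have h7 : (√2 - θ k) ^ 2 ≤ 2 * (a0 ^ 2 * S k ^ (2 * g - 2)) + 2 * δ ^ 2 := by
            rw [hθd]
            have h8 := mul_le_mul_of_nonneg_left h5 (sq_nonneg a0)
            nlinarith [sq_nonneg (a0 * (((S k + h) ^ g - S k ^ g) / h) - δ)]
          have h8 : (√2 - θ k) ^ 2 * h / 2 ≤ a0 ^ 2 * (h * S k ^ (2 * g - 2)) + δ ^ 2 * h := by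
            have := mul_le_mul_of_nonneg_right h7 hh0.le
            nlinarith
          have h9 := mul_le_mul_of_nonneg_left h6 (sq_nonneg a0)
          nlinarith
        have e2 : (∑ k ∈ Finset.range n, (√2 - θ k) ^ 2) * h / 2 =
            ∑ k ∈ Finset.range n, (√2 - θ k) ^ 2 * h / 2 := by
          rw [Finset.sum_mul, Finset.sum_div]
        rw [e2]
        refine (Finset.sum_le_sum e1).trans ?_
        rw [Finset.sum_add_distrib, ← Finset.mul_sum,
          Finset.sum_range_sub' (fun k => S k ^ (2 * g - 1)), hSz, Finset.sum_const,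
          Finset.card_range, nsmul_eq_mul]
        have h3 : 0 ≤ S n ^ (2 * g - 1) := Real.rpow_nonneg (by linarith [hS0 n]) _
        have h4 : 0 ≤ r ^ (2 * g - 1) := Real.rpow_nonneg (by linarith) _
        have h5 : (n : ℝ) * (δ ^ 2 * h) = J * δ ^ 2 := by
          rw [← hnh]
          ring
        have h6 : J * δ ^ 2 ≤ (cc α + 1) ^ 2 * (L ^ 2 / t) := by
          have h7 : δ ^ 2 ≤ ((cc α + 1) * (L / t)) ^ 2 := pow_le_pow_left₀ hδ0 hδt 2
          have h8 : J ≤ t := by linarith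
          calc J * δ ^ 2 ≤ t * ((cc α + 1) * (L / t)) ^ 2 := mul_le_mul h8 h7 (sq_nonneg _) ht0.le
            _ = (cc α + 1) ^ 2 * (L ^ 2 / t) := by
              field_simp
        have h7 : 0 ≤ L ^ 2 / t := by positivity
        have h8 : a0 ^ 2 * (9 / (1 - 2 * g)) * (r ^ (2 * g - 1) - S n ^ (2 * g - 1)) ≤
            C * r ^ (2 * g - 1) := by
          have h9 : a0 ^ 2 * (9 / (1 - 2 * g)) * (r ^ (2 * g - 1) - S n ^ (2 * g - 1)) ≤
              a0 ^ 2 * (9 / (1 - 2 * g)) * r ^ (2 * g - 1) :=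
            mul_le_mul_of_nonneg_left (by linarith) (by positivity)
          refine h9.trans (mul_le_mul_of_nonneg_right ?_ h4)
          rw [hC]
          linarith
        have h9 : (cc α + 1) ^ 2 * (L ^ 2 / t) ≤ C * (L ^ 2 / t) := by
          refine mul_le_mul_of_nonneg_right ?_ h7
          rw [hC]
          linarith
        rw [h5, mul_add]
        linarith
      dlast := by
        rw [hθd]
        have hx := hS0 (n - 1)
        have h3 := hD _ hx
        have e1 : S (n - 1) = t - ℓ - h := by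
          have h4 := hSs (n - 1)
          rw [Nat.sub_add_cancel hn1, hSn] at h4
          linarith
        have h4 : t / 2 ≤ S (n - 1) := by
          rw [e1]
          linarith
        have h5 : S (n - 1) ^ (g - 1) ≤ 2 * t ^ (g - 1) := by
          have h6 : S (n - 1) ^ (g - 1) ≤ (t / 2) ^ (g - 1) :=
            Real.rpow_le_rpow_of_nonpos (by positivity) h4 (by linarith)
          have h7 : (t / 2) ^ (g - 1) = t ^ (g - 1) / 2 ^ (g - 1) :=
            Real.div_rpow ht0.le (by norm_num) _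
          have h8 : (1 / 2 : ℝ) ≤ 2 ^ (g - 1) := by
            have h9 : (2 : ℝ) ^ (-1 : ℝ) ≤ 2 ^ (g - 1) :=
              Real.rpow_le_rpow_of_exponent_le (by norm_num) (by linarith)
            rw [Real.rpow_neg_one] at h9
            linarith
          have h9 : 0 < t ^ (g - 1) := Real.rpow_pos_of_pos ht0 _
          have h10 : t ^ (g - 1) / 2 ^ (g - 1) ≤ 2 * t ^ (g - 1) := by
            rw [div_le_iff₀ (by linarith)]
            nlinarith
          linarith
        have h6 : a0 * (((S (n - 1) + h) ^ g - S (n - 1) ^ g) / h) ≤ a0 * (2 * t ^ (g - 1)) :=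
          mul_le_mul_of_nonneg_left (h3.trans h5) ha0.le
        have h7 : 0 ≤ t ^ (g - 1) := Real.rpow_nonneg ht0.le _
        have h8 : 0 ≤ L / t := by positivity
        have h9 : a0 * (2 * t ^ (g - 1)) ≤ C * t ^ (g - 1) := by
          have : 2 * a0 ≤ C := by
            rw [hC]
            linarith
          nlinarith
        have h10 : (cc α + 1) * (L / t) ≤ C * (L / t) := by
          refine mul_le_mul_of_nonneg_right ?_ h8
          rw [hC]
          nlinarith
        rw [mul_add]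
        linarith
      f0le := fun u hu huJ => (hfle0 u hu huJ).1
      fle := fun u hu huJ => (hfle0 u hu huJ).2.2
      xi := fun u hu huJ => by
        obtain ⟨-, h3, -⟩ := hfle0 u hu huJ
        have h4 := Lcv_log (γ := gam α) (a := a) (s := r + u) (t := t) hc3 hcγ hγ0 hγ1 (by linarith)
          (by linarith) (by rw [← hcc]; exact haL2)
        rw [← hcc] at h4
        have e1 : t - (r + u) = t - r - u := by ring
        rw [e1] at h4
        have e2 : mm α β lam t + a - f0 α β lam a t (r + u) - MM (kap α β lam) (gam α) (r + u) t =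
            c3 * Real.log (t - r - u + 1) - cγ * Real.log (t / (r + u)) -
              (1 - (r + u) / t) * (cc α * L - a) := by
          have e3 : cc α = (3 - gam α) / (2 * √2) := rfl
          unfold mm MM f0
          rw [← e3, ← hc3, ← hcγ, e1, ← hLdef]
          ring
        have h5 : 2 + |a| + 2 * a0 ≤ C := by
          rw [hC]
          linarith
        rw [← e2] at h4
        linarith }

end Pool.H50.BB
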