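import Pool.Agent.H50.BB.Lr3

/-!
# Row Lfin: sharp lower bound at good points   (about 280 lines; may be split)

`x` good at time `r`, `z = mm t + a`, `Dr = f0 r - x.re = √2 r - κ r - (r/t)(cc log t - a) - x.re → D∞ := Xi - a - (γ/(2√2)) log r` as `t → ∞`; for good points and `r0` large `D∞ ∈ [(1-ε) Xi, 2 Xi]`, `Dr ≥ 1`.
Given `ℓ ≥ 1`, `ε ∈ (0,1)`; if `CC ℓ ≤ ε` the claim is trivial (`vf ≥ 0`).  `cc_lo` with `ε/2`: `Dm, ε1`; `w0 d = ofReal ((1-ε') exp(√2 d) max 0 (vh ℓ (√2ℓ+d) - ε1))` for `0 < d ≤ Dm`, else `0`; `√(2/π) I0 ≥ (1-ε')(CC ℓ - ε/2)`.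
`lcv` gives (for t large) `n, h, θ, p` with `Lc`; `y_low` gives `U'`.
END WEIGHT: on `{w.1 ∈ Blw, D_J := Dr - w.1 J ≤ Dm, |im Bp J| ≤ U' (t-ℓ)^γ}` (`D_J > 0` automatically): `re (Bp J) = f0 (t-ℓ) - D_J` (`Lc.node` at `k = n`), `z - re = f0 t - f0 (t-ℓ) + D_J ≤ √2 ℓ + D_J` (`κ` increasing, `cc log t ≥ a`), so by
`l_end` and `vh_anti`: `vf ≥ vh ℓ (√2ℓ + D_J) - ε1` (`re ≥ t` and `(t-ℓ)^γ ≤ t^γ`), and `exp (θ_{n-1} D_J) ≥ (1-ε') exp (√2 D_J)` (`Lc.dlast`).  So `exp(θ_{n-1} D_J) vf(..) ≥ w0 (D_J)`.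
Let `W w = 1{|im Bp J| ≤ U'(t-ℓ)^γ} w0 (Dr - w.1 J) ofReal (Lw w.2)`.  `lmaster`: `vf ≥ e^{const} ∫⁻_{Blw} exp(-Rb) W`.
`E := ∫⁻_{Blw} W ≥ ofReal (√(2/π) Dr/(J√J) exp(-(Dr²+Dm²)/(2J))) I0 · NN (1-ε')(∫φ)φ(im x/ell r)` (product: `x_low`, `y_low`).
`∫⁻ Rb W ≤ ofReal (K Esc) I0` with `K` = sum of the three brackets of `lr1, lr2, lr3` (`W ≤` the weight without the indicator; `Rb` is the sum of three nonnegative terms), `Esc = Dr/(J√J) NN`.  So `∫⁻ Rb W ≤ m E` with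
`m = K/(√(2/π) e^{-1}(1-ε')(∫φ) c_U)`, `c_U ≤ φ` on `|u| ≤ U/κ`; for good points `Dr ≤ 2 r^{1/2+dl}`, the exponents `1/2 + dl + g - 1 < 0`, `1/2 + dl - 2γ < 0`, `4(1/2+dl) - 3 < 0`, so `m ≤ CL ℓ^{-γ/4} + ε'` for `r ≥ r0(Dm, ε')`,
`t` large.  `jensen_lb`: `∫⁻ exp(-Rb) W ≥ e^{-m} E`.
CONSTANT: `e^{√2(κ(t-ℓ) - κ r)} NN r (t-ℓ) = ((t-ℓ)/r)^{γ/2}`; `e^{√2 J (cc log t - a)/t} → t^{(3-γ)/2} e^{-√2 a}` up to `1 + o(1)` (`√2 cc = (3-γ)/2`; `(r+ℓ) log t/t → 0`); times `J^{-3/2} (t-ℓ)^{γ/2}` `→ 1`; what is left: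
`r^{-γ/2} e^{-√2 Dr - √2 a} → r^{-γ/2} e^{-√2 (D∞ + a)} = e^{-√2 Xi}`; `e^{-C (r^{2g-1} + log²t/t)} ≥ 1-ε'`.
So `vf ≥ e^{-√2Xi} (1-ε')^5 D∞ (CC ℓ - ε/2)(∫φ)φ e^{-CLℓ^{-γ/4} - ε'}`.
-/

open MeasureTheory ProbabilityTheory Set Filter Topology
open scoped NNReal ENNReal

namespace Pool.H50.BB

open Pool.Agent.H4.BM

/-- the weight at the end -/
noncomputable def Lfin_w (ℓ ε1 ε' Dm : ℝ) : ℝ → ℝ≥0∞ :=
  (Ioc (0 : ℝ) Dm).indicator fun d =>
    ENNReal.ofReal ((1 - ε') * (Real.exp (√2 * d) * max 0 (vh ℓ (√2 * ℓ + d) - ε1)))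

theorem Lfin_vh_meas (ℓ : ℝ) : Measurable fun d => vh ℓ (√2 * ℓ + d) :=
  (vh_anti ℓ).measurable.comp (measurable_const.add measurable_id)

theorem Lfin_w_meas (ℓ ε1 ε' Dm : ℝ) : Measurable (Lfin_w ℓ ε1 ε' Dm) := by
  refine Measurable.indicator ?_ measurableSet_Ioc
  have h := Lfin_vh_meas ℓ
  have h2 : Measurable fun d : ℝ => Real.exp (√2 * d) := by fun_prop
  exact ((h2.mul (measurable_const.max (h.sub_const ε1))).const_mul (1 - ε')).ennreal_ofReal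

theorem Lfin_w_supp (ℓ ε1 ε' Dm : ℝ) : ∀ d, Dm < d → Lfin_w ℓ ε1 ε' Dm d = 0 := by
  intro d hd
  unfold Lfin_w
  rw [indicator_of_notMem]
  exact fun h => absurd h.2 (not_le.2 hd)

theorem Lfin_I0 {ℓ ε1 ε' Dm : ℝ} (hε' : ε' ≤ 1) :
    I0 (Lfin_w ℓ ε1 ε' Dm) = ENNReal.ofReal ((1 - ε') *
      ∫ d in Ioc (0 : ℝ) Dm, d * (Real.exp (√2 * d) * max 0 (vh ℓ (√2 * ℓ + d) - ε1))) := by
  have hFm : Measurable fun d : ℝ => d * (Real.exp (√2 * d) * max 0 (vh ℓ (√2 * ℓ + d) - ε1)) := by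
    have h := Lfin_vh_meas ℓ
    have h2 : Measurable fun d : ℝ => Real.exp (√2 * d) := by fun_prop
    exact measurable_id.mul (h2.mul (measurable_const.max (h.sub_const ε1)))
  have hF0 : ∀ d ∈ Ioc (0 : ℝ) Dm, 0 ≤ d * (Real.exp (√2 * d) * max 0 (vh ℓ (√2 * ℓ + d) - ε1)) :=
    fun d hd => mul_nonneg hd.1.le (mul_nonneg (Real.exp_pos _).le (le_max_left _ _))
  have hs2 : 0 < √2 := Real.sqrt_pos.2 (by norm_num)
  have hFi : IntegrableOn (fun d : ℝ => d * (Real.exp (√2 * d) * max 0 (vh ℓ (√2 * ℓ + d) - ε1))) (Ioc 0 Dm) := by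
    refine Measure.integrableOn_of_bounded (M := Dm * (Real.exp (√2 * Dm) * (1 + |ε1|)))
      measure_Ioc_lt_top.ne hFm.aestronglyMeasurable ?_
    refine (ae_restrict_iff' measurableSet_Ioc).2 (ae_of_all _ fun d hd => ?_)
    rw [Real.norm_of_nonneg (hF0 d hd)]
    have h1 : max 0 (vh ℓ (√2 * ℓ + d) - ε1) ≤ 1 + |ε1| := by
      refine max_le (by positivity) ?_
      have h2 : vh ℓ (√2 * ℓ + d) ≤ 1 := vf_le_one _ _ _ _
      have h3 := neg_abs_le ε1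
      linarith
    have h4 : Real.exp (√2 * d) ≤ Real.exp (√2 * Dm) :=
      Real.exp_le_exp.2 (mul_le_mul_of_nonneg_left hd.2 hs2.le)
    exact mul_le_mul hd.2 (mul_le_mul h4 h1 (le_max_left _ _) (Real.exp_pos _).le)
      (mul_nonneg (Real.exp_pos _).le (le_max_left _ _)) (hd.1.le.trans hd.2)
  have h1 : I0 (Lfin_w ℓ ε1 ε' Dm) = ∫⁻ d in Ioc (0 : ℝ) Dm,
      ENNReal.ofReal ((1 - ε') * (d * (Real.exp (√2 * d) * max 0 (vh ℓ (√2 * ℓ + d) - ε1)))) := by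
    unfold I0 Lfin_w
    have e : ∀ d : ℝ, ENNReal.ofReal d * (Ioc (0 : ℝ) Dm).indicator (fun d =>
        ENNReal.ofReal ((1 - ε') * (Real.exp (√2 * d) * max 0 (vh ℓ (√2 * ℓ + d) - ε1)))) d =
        (Ioc (0 : ℝ) Dm).indicator (fun d => ENNReal.ofReal ((1 - ε') *
          (d * (Real.exp (√2 * d) * max 0 (vh ℓ (√2 * ℓ + d) - ε1))))) d := by
      intro d
      by_cases hd : d ∈ Ioc (0 : ℝ) Dm
      · rw [indicator_of_mem hd, indicator_of_mem hd, ← ENNReal.ofReal_mul hd.1.le]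
        congr 1
        ring
      · rw [indicator_of_notMem hd, indicator_of_notMem hd, mul_zero]
    simp_rw [e]
    rw [lintegral_indicator measurableSet_Ioc, Measure.restrict_restrict measurableSet_Ioc,
      inter_eq_self_of_subset_left (fun d hd => hd.1)]
  rw [h1, ← ofReal_integral_eq_lintegral_ofReal (hFi.const_mul _), integral_const_mul]
  refine (ae_restrict_iff' measurableSet_Ioc).2 (ae_of_all _ fun d hd => ?_)
  exact mul_nonneg (by linarith) (hF0 d hd)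

theorem Lfin_Bp_meas (x : ℂ) (p : Pth) : Measurable fun q : P2 × ℝ => Bp x p q.1 q.2 := by
  unfold Bp
  have h1 : Measurable fun q : P2 × ℝ => ((p q.2 : ℝ) : ℂ) :=
    Complex.measurable_ofReal.comp (p.continuous.measurable.comp measurable_snd)
  exact (measurable_const.add h1).add pt_meas

theorem Lfin_int_meas {F : P2 × ℝ → ℝ} (hF : Measurable F) (J : ℝ) :
    Measurable fun w : P2 => ∫ u in (0 : ℝ)..J, F (w, u) := by
  simp only [intervalIntegral]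
  exact (StronglyMeasurable.integral_prod_right' hF.stronglyMeasurable).measurable.sub
    (StronglyMeasurable.integral_prod_right' hF.stronglyMeasurable).measurable

theorem Lfin_R1_meas (Dr : ℝ) (n : ℕ) (h : ℝ≥0) (θ : ℕ → ℝ) :
    Measurable fun w : P2 => ∑ k ∈ Finset.Ico 1 n, (θ k - θ (k - 1)) * (Dr - w.1 (k * h)) := by
  refine Finset.measurable_fun_sum _ fun k _ => ?_
  exact (measurable_const.sub ((Pth.measurable_apply _).comp measurable_fst)).const_mul _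

theorem Lfin_R2_meas {b : ℝ → ℝ} (hb : Rate b) {α : ℝ} (hα : 0 < α) (β r J : ℝ) (x : ℂ) (p : Pth) :
    Measurable fun w : P2 => ∫ u in (0 : ℝ)..J,
      max 0 (1 - b (Complex.arg (Bp x p w u)) - c0 α β (r + u) (Bp x p w u).im) := by
  have h1 := Lfin_Bp_meas x p
  have h2 : Measurable fun q : P2 × ℝ => b (Complex.arg (Bp x p q.1 q.2)) := (barg_meas hb).comp h1
  have h3 : Measurable fun q : P2 × ℝ => c0 α β (r + q.2) (Bp x p q.1 q.2).im :=
    (c0_cont hα β).measurable.comp ((measurable_const.add measurable_snd).prodMk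
      (Complex.measurable_im.comp h1))
  exact Lfin_int_meas (F := fun q : P2 × ℝ =>
    max 0 (1 - b (Complex.arg (Bp x p q.1 q.2)) - c0 α β (r + q.2) (Bp x p q.1 q.2).im))
    (measurable_const.max ((measurable_const.sub h2).sub h3)) J

theorem Lfin_R3_meas {b : ℝ → ℝ} (hb : Rate b) (z s J : ℝ) (x : ℂ) (p : Pth) :
    Measurable fun w : P2 => ∫ u in (0 : ℝ)..J, vf b (HP z) (s - u) (Bp x p w u) := by
  have h1 := Lfin_Bp_meas x p
  have h2 : Measurable fun q : P2 × ℝ => vf b (HP z) (s - q.2) (Bp x p q.1 q.2) :=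
    (vf_meas hb (HP_meas z)).comp ((measurable_const.sub measurable_snd).prodMk h1)
  exact Lfin_int_meas (F := fun q : P2 × ℝ => vf b (HP z) (s - q.2) (Bp x p q.1 q.2)) h2 J

/-- the bound of the error functional -/
noncomputable def Lfin_K (α c1 c2 c3 e r t ℓ Dm D : ℝ) : ℝ :=
  c1 * ((D + Dm) * r ^ (gg α - 1) + r ^ (gg α - 1 / 2)) +
    c3 * (r ^ (-e) + (D + Dm) * r ^ (-2 * gam α) + (D ^ 4 + Dm ^ 4) * r ^ (-3 : ℝ) +
      Real.log t ^ 4 * t ^ (-2 * gam α)) +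
    c2 * (r ^ (-gam α / 4) + ℓ ^ (-gam α / 4))

theorem Lfin_err {b : ℝ → ℝ} {α β lam ρ C : ℝ} {φ : ℝ → ℝ} (hα : 2 / 3 < α) (hα2 : α < 2) (hβ : 0 < β)
    (h' : A12 b α β) (G : GS α lam ρ C φ) (a C0 : ℝ) {U : ℝ} (hU : 0 < U) :
    ∃ c1 > 0, ∃ c2 > 0, ∃ c3 > 0, ∃ e > (0 : ℝ), ∃ r0 ≥ (1 : ℝ), ∀ r t ℓ Dm : ℝ, ∀ (n : ℕ) (h : ℝ≥0)
      (θ : ℕ → ℝ) (p : Pth), r0 ≤ r → 1 ≤ ℓ → 1 ≤ Dm →
      2 * r + 2 * ℓ + 2 ≤ t - ℓ - r → Lc α β lam a C0 r t ℓ n h θ p → ∀ (x : ℂ), 1 ≤ f0 α β lam a t r - x.re →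
      |x.im| ≤ U * r ^ gam α →
      ∀ w0 : ℝ → ℝ≥0∞, Measurable w0 → (∀ d, Dm < d → w0 d = 0) →
        ∫⁻ w in {w : P2 | w.1 ∈ Blw (f0 α β lam a t r - x.re) 0 (t - ℓ - r)},
          ENNReal.ofReal (Rb b α β (mm α β lam t + a) r t ℓ (f0 α β lam a t r - x.re) x n h θ p w) *
          (w0 (f0 α β lam a t r - x.re - w.1 (t - ℓ - r)) * ENNReal.ofReal (Lw α β r (t - ℓ) x.im w.2)) ∂W2 ≤
        ENNReal.ofReal (Lfin_K α c1 c2 c3 e r t ℓ Dm (f0 α β lam a t r - x.re) *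
          Esc α β lam r t ℓ (f0 α β lam a t r - x.re)) * I0 w0 := by
  have hα0 : 0 < α := by linarith
  have hb := a12_rate hα0 h'
  obtain ⟨c1, hc1, ra, hra, H1⟩ := lr1 hα hα2 hβ G a C0
  obtain ⟨c2, hc2, rb, hrb, H2⟩ := lr2 hα hα2 hβ h' G a C0
  obtain ⟨c3, hc3, e, he, rc, hrc, H3⟩ := lr3 hα hα2 hβ h' G a C0 hU
  refine ⟨c1, hc1, c2, hc2, c3, hc3, e, he, max ra (max rb rc), hra.trans (le_max_left _ _), ?_⟩
  intro r t ℓ Dm n h θ p hr hℓ hDm hrt H x hD hx w0 hw hs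
  have hra' : ra ≤ r := (le_max_left _ _).trans hr
  have hrb' : rb ≤ r := ((le_max_left _ _).trans (le_max_right _ _)).trans hr
  have hrc' : rc ≤ r := ((le_max_right _ _).trans (le_max_right _ _)).trans hr
  have hr1 : 1 ≤ r := hra.trans hra'
  have I1 := H1 r t ℓ Dm n h θ p hra' hℓ hDm hrt H x.im _ hD w0 hw hs
  have I2 := H2 r t ℓ n h θ p hrb' hℓ hrt H x hD w0 hw
  have I3 := H3 r t ℓ Dm n h θ p hrc' hℓ hDm hrt H x hD hx w0 hw hs
  set D := f0 α β lam a t r - x.re with hDdef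
  set X : P2 → ℝ≥0∞ := fun w => w0 (D - w.1 (t - ℓ - r)) * ENNReal.ofReal (Lw α β r (t - ℓ) x.im w.2) with hX
  have hXm : Measurable X :=
    (hw.comp (measurable_const.sub ((Pth.measurable_apply _).comp measurable_fst))).mul
      ((Lw_meas α β r (t - ℓ) x.im hα0).comp measurable_snd).ennreal_ofReal
  have m1 : Measurable fun w : P2 =>
      ENNReal.ofReal (∑ k ∈ Finset.Ico 1 n, (θ k - θ (k - 1)) * (D - w.1 (k * h))) * X w :=
    ((Lfin_R1_meas D n h θ).ennreal_ofReal).mul hXm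
  have m2 : Measurable fun w : P2 => ENNReal.ofReal (∫ u in (0 : ℝ)..(t - ℓ - r),
      max 0 (1 - b (Complex.arg (Bp x p w u)) - c0 α β (r + u) (Bp x p w u).im)) * X w :=
    ((Lfin_R2_meas hb hα0 β r (t - ℓ - r) x p).ennreal_ofReal).mul hXm
  have m12 : Measurable fun w : P2 =>
      ENNReal.ofReal (∑ k ∈ Finset.Ico 1 n, (θ k - θ (k - 1)) * (D - w.1 (k * h))) * X w +
      ENNReal.ofReal (∫ u in (0 : ℝ)..(t - ℓ - r),
      max 0 (1 - b (Complex.arg (Bp x p w u)) - c0 α β (r + u) (Bp x p w u).im)) * X w := m1.add m2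
  have hJ0 : 0 < t - ℓ - r := by linarith
  have hT0 : 0 < t - ℓ := by linarith
  have ht1 : 1 ≤ t := by linarith
  have hr0 : 0 < r := by linarith
  have hE : 0 ≤ Esc α β lam r t ℓ D := by
    unfold Esc NN
    have : 0 ≤ (t - ℓ) / r := (div_pos hT0 hr0).le
    positivity
  have hD0 : 0 < D := by linarith
  have hlog : 0 ≤ Real.log t := Real.log_nonneg ht1
  have p1 : 0 ≤ c1 * ((D + Dm) * r ^ (gg α - 1) + r ^ (gg α - 1 / 2)) * Esc α β lam r t ℓ D := by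
    positivity
  have p2 : 0 ≤ c2 * (r ^ (-gam α / 4) + ℓ ^ (-gam α / 4)) * Esc α β lam r t ℓ D := by
    positivity
  have p3 : 0 ≤ c3 * (r ^ (-e) + (D + Dm) * r ^ (-2 * gam α) + (D ^ 4 + Dm ^ 4) * r ^ (-3 : ℝ) +
      Real.log t ^ 4 * t ^ (-2 * gam α)) * Esc α β lam r t ℓ D := by
    positivity
  calc ∫⁻ w in {w : P2 | w.1 ∈ Blw D 0 (t - ℓ - r)},
        ENNReal.ofReal (Rb b α β (mm α β lam t + a) r t ℓ D x n h θ p w) * X w ∂W2
      ≤ ∫⁻ w in {w : P2 | w.1 ∈ Blw D 0 (t - ℓ - r)},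
        ((ENNReal.ofReal (∑ k ∈ Finset.Ico 1 n, (θ k - θ (k - 1)) * (D - w.1 (k * h))) * X w +
          ENNReal.ofReal (∫ u in (0 : ℝ)..(t - ℓ - r),
            max 0 (1 - b (Complex.arg (Bp x p w u)) - c0 α β (r + u) (Bp x p w u).im)) * X w) +
          ENNReal.ofReal (∫ u in (0 : ℝ)..(t - ℓ - r),
            vf b (HP (mm α β lam t + a)) (t - r - u) (Bp x p w u)) * X w) ∂W2 := by
        refine lintegral_mono fun w => ?_
        rw [← add_mul, ← add_mul]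
        refine mul_le_mul_left ?_ (X w)
        unfold Rb
        exact ENNReal.ofReal_add_le.trans (add_le_add ENNReal.ofReal_add_le le_rfl)
    _ = (∫⁻ w in {w : P2 | w.1 ∈ Blw D 0 (t - ℓ - r)},
          ENNReal.ofReal (∑ k ∈ Finset.Ico 1 n, (θ k - θ (k - 1)) * (D - w.1 (k * h))) * X w ∂W2 +
        ∫⁻ w in {w : P2 | w.1 ∈ Blw D 0 (t - ℓ - r)},
          ENNReal.ofReal (∫ u in (0 : ℝ)..(t - ℓ - r),
            max 0 (1 - b (Complex.arg (Bp x p w u)) - c0 α β (r + u) (Bp x p w u).im)) * X w ∂W2) +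
        ∫⁻ w in {w : P2 | w.1 ∈ Blw D 0 (t - ℓ - r)},
          ENNReal.ofReal (∫ u in (0 : ℝ)..(t - ℓ - r),
            vf b (HP (mm α β lam t + a)) (t - r - u) (Bp x p w u)) * X w ∂W2 := by
        rw [lintegral_add_left m12, lintegral_add_left m1]
    _ ≤ _ := by
        refine (add_le_add (add_le_add I1 I3) I2).trans ?_
        rw [← add_mul, ← add_mul, ← ENNReal.ofReal_add p1 p3, ← ENNReal.ofReal_add (add_nonneg p1 p3) p2]
        refine le_of_eq ?_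
        congr 2
        unfold Lfin_K
        ring

theorem Lfin_prod {α β r T y D J : ℝ} (hα : 0 < α) {w0 : ℝ → ℝ≥0∞} (hw : Measurable w0) {V : Set Pth}
    (hV : MeasurableSet V) :
    ∫⁻ w in {w : P2 | w.1 ∈ Blw D 0 J},
      w0 (D - w.1 J) * V.indicator (fun w => ENNReal.ofReal (Lw α β r T y w)) w.2 ∂W2 =
      (∫⁻ w in Blw D 0 J, w0 (D - w J) ∂Wm) * ∫⁻ w in V, ENNReal.ofReal (Lw α β r T y w) ∂Wm := by
  have hS : {w : P2 | w.1 ∈ Blw D 0 J} = Blw D 0 J ×ˢ (univ : Set Pth) := by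
    ext w
    simp
  have h1 : Measurable fun w : Pth => w0 (D - w J) := hw.comp (measurable_const.sub (Pth.measurable_apply _))
  have h2 : Measurable (V.indicator (fun w => ENNReal.ofReal (Lw α β r T y w))) :=
    (Lw_meas α β r T y hα).ennreal_ofReal.indicator hV
  unfold W2
  rw [hS, ← Measure.prod_restrict, Measure.restrict_univ, lintegral_prod_mul h1.aemeasurable h2.aemeasurable,
    lintegral_indicator hV]

theorem Lfin_rp {y : ℝ} (hy : y < 0) : Tendsto (fun r : ℝ => r ^ y) atTop (𝓝 0) := by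
  have h := tendsto_rpow_neg_atTop (y := -y) (by linarith)
  rwa [neg_neg] at h

theorem Lfin_quot (c : ℝ) : Tendsto (fun t : ℝ => (t - c) / t) atTop (𝓝 1) := by
  have h : Tendsto (fun t : ℝ => 1 - c / t) atTop (𝓝 (1 - 0)) :=
    tendsto_const_nhds.sub (tendsto_const_nhds.div_atTop tendsto_id)
  rw [sub_zero] at h
  refine h.congr' ?_
  filter_upwards [eventually_gt_atTop 0] with t ht
  field_simp

theorem Lfin_logt : Tendsto (fun t : ℝ => Real.log t / t) atTop (𝓝 0) :=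
  Real.isLittleO_log_id_atTop.tendsto_div_nhds_zero

theorem Lfin_log2t : Tendsto (fun t : ℝ => Real.log t ^ 2 / t) atTop (𝓝 0) :=
  Real.isLittleO_pow_log_id_atTop.tendsto_div_nhds_zero

theorem Lfin_log4 {y : ℝ} (hy : 0 < y) : Tendsto (fun t : ℝ => Real.log t ^ 4 * t ^ (-y)) atTop (𝓝 0) := by
  have h := (isLittleO_log_rpow_rpow_atTop 4 hy).tendsto_div_nhds_zero
  refine h.congr' ?_
  filter_upwards [eventually_gt_atTop 0] with t ht
  rw [Real.rpow_neg ht.le, div_eq_mul_inv]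
  congr 1
  exact_mod_cast Real.rpow_natCast (Real.log t) 4

theorem Lfin_D (α β lam a r xr : ℝ) :
    Tendsto (fun t => f0 α β lam a t r - xr) atTop (𝓝 (√2 * r - kap α β lam r - xr)) := by
  have h1 : Tendsto (fun t : ℝ => r * (cc α * (Real.log t / t) - a / t)) atTop (𝓝 (r * (cc α * 0 - 0))) :=
    ((Lfin_logt.const_mul _).sub (tendsto_const_nhds.div_atTop tendsto_id)).const_mul _
  have h2 : Tendsto (fun t : ℝ => √2 * r - kap α β lam r - r * (cc α * (Real.log t / t) - a / t) - xr) atTop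
      (𝓝 (√2 * r - kap α β lam r - r * (cc α * 0 - 0) - xr)) := (tendsto_const_nhds.sub h1).sub_const _
  have e : √2 * r - kap α β lam r - r * (cc α * 0 - 0) - xr = √2 * r - kap α β lam r - xr := by ring
  rw [e] at h2
  refine h2.congr fun t => ?_
  unfold f0
  ring

theorem Lfin_cc (α : ℝ) : √2 * cc α = (3 - gam α) / 2 := by
  unfold cc
  exact ca1_c _

theorem Lfin_Lam {α a r ℓ : ℝ} :
    Tendsto (fun t => √2 * ((t - ℓ - r) * ((cc α * Real.log t - a) / t)) +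
      gam α / 2 * (Real.log (t - ℓ) - Real.log r) - 3 / 2 * Real.log (t - ℓ - r)) atTop
      (𝓝 (-√2 * a - gam α / 2 * Real.log r)) := by
  have e2 := Lfin_cc α
  have h1 := Lfin_logt
  have h2 := Lfin_quot (ℓ + r)
  have h3 : Tendsto (fun t : ℝ => Real.log ((t - ℓ) / t)) atTop (𝓝 0) := by
    have h := (Lfin_quot ℓ).log one_ne_zero
    rwa [Real.log_one] at h
  have h4 : Tendsto (fun t : ℝ => Real.log ((t - (ℓ + r)) / t)) atTop (𝓝 0) := by
    have h := (Lfin_quot (ℓ + r)).log one_ne_zero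
    rwa [Real.log_one] at h
  have h5 : Tendsto (fun t : ℝ => -(r + ℓ) * ((3 - gam α) / 2) * (Real.log t / t) -
      √2 * a * ((t - (ℓ + r)) / t) + gam α / 2 * (Real.log ((t - ℓ) / t) - Real.log r) -
      3 / 2 * Real.log ((t - (ℓ + r)) / t)) atTop
      (𝓝 (-(r + ℓ) * ((3 - gam α) / 2) * 0 - √2 * a * 1 + gam α / 2 * (0 - Real.log r) - 3 / 2 * 0)) :=
    (((h1.const_mul _).sub (h2.const_mul _)).add ((h3.sub_const _).const_mul _)).sub (h4.const_mul _)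
  have h6 : -(r + ℓ) * ((3 - gam α) / 2) * 0 - √2 * a * 1 + gam α / 2 * (0 - Real.log r) - 3 / 2 * 0 =
      -√2 * a - gam α / 2 * Real.log r := by ring
  rw [h6] at h5
  refine h5.congr' ?_
  filter_upwards [eventually_gt_atTop (|ℓ| + |r| + 1)] with t ht
  have a1 := le_abs_self ℓ
  have a2 := le_abs_self r
  have a3 := abs_nonneg ℓ
  have a4 := abs_nonneg r
  have ht0 : 0 < t := by linarith
  have hT : 0 < t - ℓ := by linarith
  have hJ : 0 < t - (ℓ + r) := by linarith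
  rw [Real.log_div hT.ne' ht0.ne', Real.log_div hJ.ne' ht0.ne']
  have e3 : √2 * ((t - ℓ - r) * ((cc α * Real.log t - a) / t)) =
      (t - (ℓ + r)) / t * ((3 - gam α) / 2 * Real.log t) - √2 * a * ((t - (ℓ + r)) / t) := by
    rw [← e2]
    ring
  rw [e3, show t - ℓ - r = t - (ℓ + r) by ring]
  have e4 : (t - (ℓ + r)) / t = 1 - (r + ℓ) * (1 / t) := by
    field_simp
    ring
  rw [e4]
  ring

/-- the constants in front -/
noncomputable def Lfin_G (α β lam a C0 r ℓ Dm xr t : ℝ) : ℝ :=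
  Real.exp (√2 * (kap α β lam (t - ℓ) - kap α β lam r) +
        √2 * ((t - ℓ - r) * ((cc α * Real.log t - a) / t)) - C0 * (r ^ (2 * gg α - 1) + Real.log t ^ 2 / t) -
        √2 * (f0 α β lam a t r - xr)) *
    ((f0 α β lam a t r - xr) / ((t - ℓ - r) * √(t - ℓ - r)) *
      Real.exp (-((f0 α β lam a t r - xr) ^ 2 + Dm ^ 2) / (2 * (t - ℓ - r))) * NN α β lam r (t - ℓ))

theorem Lfin_key (A B E F X D : ℝ) : Real.exp A * (D / Real.exp X * Real.exp B * (Real.exp E * Real.exp F)) =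
    D * Real.exp (A + B + E + F - X) := by
  rw [Real.exp_sub, Real.exp_add, Real.exp_add, Real.exp_add]
  ring

theorem Lfin_small (α β lam a r ℓ Dm xr : ℝ) :
    Tendsto (fun t => -((f0 α β lam a t r - xr) ^ 2 + Dm ^ 2) / (2 * (t - ℓ - r))) atTop (𝓝 0) := by
  have h2 : Tendsto (fun t => -((f0 α β lam a t r - xr) ^ 2 + Dm ^ 2)) atTop
      (𝓝 (-((√2 * r - kap α β lam r - xr) ^ 2 + Dm ^ 2))) := (((Lfin_D α β lam a r xr).pow 2).add_const _).neg
  refine h2.div_atTop ?_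
  refine Tendsto.const_mul_atTop (by norm_num) ?_
  have h3 : Tendsto (fun t : ℝ => t - (ℓ + r)) atTop atTop := tendsto_atTop_add_const_right _ _ tendsto_id
  refine h3.congr fun t => ?_
  ring

theorem Lfin_Glim {α β lam a C0 r ℓ Dm xr : ℝ} (hr : 0 < r) :
    Tendsto (fun t => Lfin_G α β lam a C0 r ℓ Dm xr t) atTop
      (𝓝 ((√2 * r - kap α β lam r - xr) * Real.exp (-√2 * (√2 * r - kap α β lam r - xr) -
        C0 * r ^ (2 * gg α - 1) + (-√2 * a - gam α / 2 * Real.log r)))) := by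
  have hD := Lfin_D α β lam a r xr
  have hS := Lfin_small α β lam a r ℓ Dm xr
  have hL := Lfin_Lam (α := α) (a := a) (r := r) (ℓ := ℓ)
  have h1 : Tendsto (fun t => (f0 α β lam a t r - xr) * Real.exp (-√2 * (f0 α β lam a t r - xr) -
      C0 * (r ^ (2 * gg α - 1) + Real.log t ^ 2 / t) +
      -((f0 α β lam a t r - xr) ^ 2 + Dm ^ 2) / (2 * (t - ℓ - r)) +
      (√2 * ((t - ℓ - r) * ((cc α * Real.log t - a) / t)) +
      gam α / 2 * (Real.log (t - ℓ) - Real.log r) - 3 / 2 * Real.log (t - ℓ - r)))) atTop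
      (𝓝 ((√2 * r - kap α β lam r - xr) * Real.exp (-√2 * (√2 * r - kap α β lam r - xr) -
        C0 * (r ^ (2 * gg α - 1) + 0) + 0 + (-√2 * a - gam α / 2 * Real.log r)))) := by
    refine hD.mul ?_
    refine (Real.continuous_exp.tendsto _).comp ?_
    exact (((hD.const_mul _).sub ((tendsto_const_nhds.add Lfin_log2t).const_mul C0)).add hS).add hL
  have e : (√2 * r - kap α β lam r - xr) * Real.exp (-√2 * (√2 * r - kap α β lam r - xr) -
        C0 * (r ^ (2 * gg α - 1) + 0) + 0 + (-√2 * a - gam α / 2 * Real.log r)) =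
      (√2 * r - kap α β lam r - xr) * Real.exp (-√2 * (√2 * r - kap α β lam r - xr) -
        C0 * r ^ (2 * gg α - 1) + (-√2 * a - gam α / 2 * Real.log r)) := by
    rw [add_zero, add_zero]
  rw [e] at h1
  refine h1.congr' ?_
  filter_upwards [eventually_gt_atTop (|ℓ| + |r| + 1)] with t ht
  have a1 := le_abs_self ℓ
  have a2 := le_abs_self r
  have a3 := abs_nonneg ℓ
  have a4 := abs_nonneg r
  have hT : 0 < t - ℓ := by linarith
  have hJ : 0 < t - ℓ - r := by linarith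
  have h2 : (t - ℓ - r) * √(t - ℓ - r) = Real.exp (3 / 2 * Real.log (t - ℓ - r)) := by
    have h3 : √(t - ℓ - r) = Real.exp (Real.log (t - ℓ - r) / 2) := by
      rw [Real.exp_half, Real.exp_log hJ]
    have h4 : 3 / 2 * Real.log (t - ℓ - r) = Real.log (t - ℓ - r) + Real.log (t - ℓ - r) / 2 := by ring
    rw [h3, h4, Real.exp_add, Real.exp_log hJ]
  have h5 : ((t - ℓ) / r) ^ (gam α / 2) = Real.exp (gam α / 2 * (Real.log (t - ℓ) - Real.log r)) := by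
    rw [Real.rpow_def_of_pos (div_pos hT hr), Real.log_div hT.ne' hr.ne', mul_comm]
  unfold Lfin_G NN
  rw [h2, h5, Lfin_key]
  congr 2
  ring

/-- the part of the error which tends to 0 with r -/
noncomputable def Lfin_K0 (α c1 c2 c3 e Dm r : ℝ) : ℝ :=
  c1 * ((2 * r ^ (1 / 2 + dl α) + Dm) * r ^ (gg α - 1) + r ^ (gg α - 1 / 2)) +
    c3 * (r ^ (-e) + (2 * r ^ (1 / 2 + dl α) + Dm) * r ^ (-2 * gam α) +
      ((2 * r ^ (1 / 2 + dl α)) ^ 4 + Dm ^ 4) * r ^ (-3 : ℝ)) +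
    c2 * r ^ (-gam α / 4)

theorem Lfin_K0_lim {α c1 c2 c3 e Dm : ℝ} (hα : 2 / 3 < α) (hα2 : α < 2) (he : 0 < e) :
    Tendsto (Lfin_K0 α c1 c2 c3 e Dm) atTop (𝓝 0) := by
  have hα0 : 0 < α := by linarith
  obtain ⟨hg, hγ, hγ1, hgγ⟩ := gg_pos hα0 hα2
  have hg1 := gg_lt hα hα2
  have hdl1 : dl α ≤ (2 * gam α - 1 / 2) / 2 := min_le_left _ _
  have hdl2 : dl α ≤ 1 / 8 := min_le_right _ _
  have t1 := Lfin_rp (y := 1 / 2 + dl α + (gg α - 1)) (by linarith)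
  have t2 := Lfin_rp (y := gg α - 1) (by linarith)
  have t3 := Lfin_rp (y := gg α - 1 / 2) (by linarith)
  have t4 := Lfin_rp (y := -e) (by linarith)
  have t5 := Lfin_rp (y := 1 / 2 + dl α + (-2 * gam α)) (by linarith)
  have t6 := Lfin_rp (y := -2 * gam α) (by linarith)
  have t7 := Lfin_rp (y := (1 / 2 + dl α) * 4 + (-3)) (by linarith)
  have t8 := Lfin_rp (y := (-3 : ℝ)) (by norm_num)
  have t9 := Lfin_rp (y := -gam α / 4) (by linarith)
  have h := (((((t1.const_mul 2).add (t2.const_mul Dm)).add t3).const_mul c1).add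
    (((t4.add ((t5.const_mul 2).add (t6.const_mul Dm))).add
      ((t7.const_mul 16).add (t8.const_mul (Dm ^ 4)))).const_mul c3)).add (t9.const_mul c2)
  have e0 : c1 * (2 * 0 + Dm * 0 + 0) + c3 * (0 + (2 * 0 + Dm * 0) + (16 * 0 + Dm ^ 4 * 0)) + c2 * 0 = 0 := by
    ring
  rw [e0] at h
  refine h.congr' ?_
  filter_upwards [eventually_gt_atTop 0] with r hr
  unfold Lfin_K0
  have e1 : r ^ ((1 / 2 + dl α) * 4) = (r ^ (1 / 2 + dl α)) ^ 4 := by
    rw [Real.rpow_mul hr.le]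
    exact_mod_cast Real.rpow_natCast _ 4
  rw [Real.rpow_add hr (1 / 2 + dl α) (gg α - 1), Real.rpow_add hr (1 / 2 + dl α) (-2 * gam α),
    Real.rpow_add hr ((1 / 2 + dl α) * 4) (-3), e1]
  ring

theorem Lfin_r {α C0 M0 c1 c2 c3 e Dm a ε' : ℝ} (hα : 2 / 3 < α) (hα2 : α < 2) (he : 0 < e) (hε' : 0 < ε') :
    ∀ᶠ r in atTop, |a| + gam α / (2 * √2) * Real.log r ≤ ε' * r ^ (1 / 2 - dl α) ∧
      |a| + 1 ≤ r ^ (1 / 2 + dl α) ∧ 4 ≤ r ^ (1 / 2 - dl α) ∧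
      1 - ε' ≤ Real.exp (-(C0 * r ^ (2 * gg α - 1))) ∧ M0 * Lfin_K0 α c1 c2 c3 e Dm r ≤ ε' / 2 := by
  have hα0 : 0 < α := by linarith
  obtain ⟨hg, hγ, hγ1, hgγ⟩ := gg_pos hα0 hα2
  have hg1 := gg_lt hα hα2
  have hdl1 : dl α ≤ (2 * gam α - 1 / 2) / 2 := min_le_left _ _
  have hdl2 : dl α ≤ 1 / 8 := min_le_right _ _
  have hdl0 : 0 < dl α := lt_min (by linarith) (by norm_num)
  have hs : 0 < 1 / 2 - dl α := by linarith
  have hp : 0 < 1 / 2 + dl α := by linarith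
  have h1 : Tendsto (fun r : ℝ => (|a| + gam α / (2 * √2) * Real.log r) / r ^ (1 / 2 - dl α)) atTop (𝓝 0) := by
    have h2 := (isLittleO_log_rpow_atTop hs).tendsto_div_nhds_zero
    have h3 : Tendsto (fun r : ℝ => |a| / r ^ (1 / 2 - dl α)) atTop (𝓝 0) :=
      tendsto_const_nhds.div_atTop (tendsto_rpow_atTop hs)
    have h4 := h3.add (h2.const_mul (gam α / (2 * √2)))
    rw [mul_zero, add_zero] at h4
    refine h4.congr fun r => ?_
    ring
  have h2 : Tendsto (fun r : ℝ => Real.exp (-(C0 * r ^ (2 * gg α - 1)))) atTop (𝓝 1) := by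
    have h3 := ((Lfin_rp (y := 2 * gg α - 1) (by linarith)).const_mul C0).neg
    rw [mul_zero, neg_zero] at h3
    have h4 := (Real.continuous_exp.tendsto 0).comp h3
    rwa [Real.exp_zero] at h4
  have h3 := (Lfin_K0_lim (c1 := c1) (c2 := c2) (c3 := c3) (Dm := Dm) hα hα2 he).const_mul M0
  rw [mul_zero] at h3
  filter_upwards [h1.eventually_le_const hε', (tendsto_rpow_atTop hp).eventually_ge_atTop (|a| + 1),
    (tendsto_rpow_atTop hs).eventually_ge_atTop 4, h2.eventually_const_le (show 1 - ε' < 1 by linarith),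
    h3.eventually_le_const (show 0 < ε' / 2 by linarith), eventually_gt_atTop 0] with r k1 k2 k3 k4 k5 k6
  refine ⟨?_, k2, k3, k4, k5⟩
  rwa [div_le_iff₀ (Real.rpow_pos_of_pos k6 _)] at k1

theorem Lfin_kmono {α β lam : ℝ} (hα : 2 / 3 < α) (hα2 : α < 2) (hβ : 0 < β) (hlam : 0 < lam) {s t : ℝ}
    (hs : 0 ≤ s) (hst : s ≤ t) : kap α β lam s ≤ kap α β lam t := by
  have hα0 : 0 < α := by linarith
  have ha := Kpf_a_pos hα0 hα2 hβ hlam
  have hg := (gg_pos hα0 hα2).1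
  rw [Kpf_kap α β lam, Kpf_kap α β lam]
  exact mul_le_mul_of_nonneg_left (Real.rpow_le_rpow hs hst hg.le) ha.le

theorem Lfin_ccpos {α : ℝ} (hα : 0 < α) (hα2 : α < 2) : 0 < cc α := by
  have h := (gg_pos hα hα2).2.2.1
  unfold cc
  exact div_pos (by linarith) (by positivity)

theorem Lfin_far {α β lam : ℝ} (hα : 2 / 3 < α) (hα2 : α < 2) (hβ : 0 < β) (hlam : 0 < lam) (a ℓ Dm : ℝ)
    (hℓ : 0 ≤ ℓ) : ∀ᶠ t in atTop, t ≤ f0 α β lam a t (t - ℓ) - Dm := by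
  have hα0 : 0 < α := by linarith
  have hA := Kpf_a_pos hα0 hα2 hβ hlam
  have hg1 := gg_lt hα hα2
  have hcc := Lfin_ccpos hα0 hα2
  have h1 : Tendsto (fun t : ℝ => Kpf_a α β lam * t ^ (gg α - 1)) atTop (𝓝 (Kpf_a α β lam * 0)) :=
    (Lfin_rp (by linarith)).const_mul _
  rw [mul_zero] at h1
  have h2 : Tendsto (fun t : ℝ => cc α * (Real.log t / t)) atTop (𝓝 (cc α * 0)) := Lfin_logt.const_mul _
  rw [mul_zero] at h2
  filter_upwards [h1.eventually_le_const (show (0 : ℝ) < 0.1 by norm_num),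
    h2.eventually_le_const (show (0 : ℝ) < 0.1 by norm_num),
    eventually_ge_atTop (5 * (1.5 * ℓ + |a| + |Dm|) + ℓ + 1),
    (Real.tendsto_log_atTop.const_mul_atTop hcc).eventually_ge_atTop a] with t k1 k2 k3 k4
  have b1 := abs_nonneg a
  have b2 := abs_nonneg Dm
  have b3 := le_abs_self Dm
  have b4 := neg_abs_le a
  have ht : 0 < t := by linarith
  have htl : 0 ≤ t - ℓ := by linarith
  have e1 : kap α β lam (t - ℓ) ≤ 0.1 * t := by
    refine (Lfin_kmono hα hα2 hβ hlam htl (by linarith : t - ℓ ≤ t)).trans ?_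
    rw [Kpf_kap α β lam]
    have e2 : t ^ gg α = t ^ (gg α - 1) * t := by
      rw [Real.rpow_sub_one ht.ne']
      field_simp
    rw [e2, ← mul_assoc]
    exact mul_le_mul_of_nonneg_right k1 ht.le
  have e2 : cc α * Real.log t ≤ 0.1 * t := by
    have e3 : cc α * Real.log t = cc α * (Real.log t / t) * t := by field_simp
    rw [e3]
    exact mul_le_mul_of_nonneg_right k2 ht.le
  have e3 : (t - ℓ) / t * (cc α * Real.log t - a) ≤ cc α * Real.log t - a := by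
    refine mul_le_of_le_one_left (by linarith) ?_
    rw [div_le_one ht]
    linarith
  have e4 := ca1_gt
  have e5 := ca1_lt
  have e6 : 1.4 * (t - ℓ) ≤ √2 * (t - ℓ) := mul_le_mul_of_nonneg_right e4 htl
  unfold f0
  linarith

theorem Lfin_core {b : ℝ → ℝ} (hb : Rate b) {α β z r t ℓ Dm V q K m A : ℝ} (hα : 0 < α) (hβ : 0 ≤ β) {n : ℕ}
    {h : ℝ≥0} {θ : ℕ → ℝ} {p : Pth} {x : ℂ} {D : ℝ} {w0 : ℝ → ℝ≥0∞} (hw : Measurable w0) (hI : I0 w0 ≠ ∞)
    (hs : ∀ d, Dm < d → w0 d = 0) (hD : 0 < D) (hJ : 0 < t - ℓ - r)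
    (LM : ENNReal.ofReal (Real.exp A) *
      ∫⁻ w in {w : P2 | w.1 ∈ Blw D 0 (t - ℓ - r)},
        ENNReal.ofReal (Real.exp (-Rb b α β z r t ℓ D x n h θ p w)) *
        ENNReal.ofReal (Real.exp (θ (n - 1) * (D - w.1 (t - ℓ - r))) *
          vf b (HP z) ℓ (Bp x p w (t - ℓ - r))) *
        ENNReal.ofReal (Lw α β r (t - ℓ) x.im w.2) ∂W2 ≤
      ENNReal.ofReal (vf b (HP z) (t - r) x))
    (hW : ∀ w : P2, w.1 ∈ Blw D 0 (t - ℓ - r) → |x.im + w.2 (t - ℓ - r)| ≤ V →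
      w0 (D - w.1 (t - ℓ - r)) ≤ ENNReal.ofReal (Real.exp (θ (n - 1) * (D - w.1 (t - ℓ - r))) *
          vf b (HP z) ℓ (Bp x p w (t - ℓ - r))))
    (herr : ∫⁻ w in {w : P2 | w.1 ∈ Blw D 0 (t - ℓ - r)},
      ENNReal.ofReal (Rb b α β z r t ℓ D x n h θ p w) *
        (w0 (D - w.1 (t - ℓ - r)) * ENNReal.ofReal (Lw α β r (t - ℓ) x.im w.2)) ∂W2 ≤ ENNReal.ofReal K * I0 w0)
    (hq0 : 0 ≤ q) (hy : ENNReal.ofReal q ≤
      ∫⁻ w in {w : Pth | |x.im + w (t - ℓ - r)| ≤ V}, ENNReal.ofReal (Lw α β r (t - ℓ) x.im w) ∂Wm)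
    (hm : 0 ≤ m) (hK : K ≤ m * (√(2 / Real.pi) * D / ((t - ℓ - r) * √(t - ℓ - r)) *
      Real.exp (-(D ^ 2 + Dm ^ 2) / (2 * (t - ℓ - r))) * q)) :
    Real.exp A * (Real.exp (-m) * (√(2 / Real.pi) * D / ((t - ℓ - r) * √(t - ℓ - r)) *
      Real.exp (-(D ^ 2 + Dm ^ 2) / (2 * (t - ℓ - r))) * (I0 w0).toReal * q)) ≤ vf b (HP z) (t - r) x := by
  set J := t - ℓ - r with hJd
  set Q := √(2 / Real.pi) * D / (J * √J) * Real.exp (-(D ^ 2 + Dm ^ 2) / (2 * J)) with hQ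
  have hQ0 : 0 ≤ Q := by positivity
  set S : Set P2 := {w : P2 | w.1 ∈ Blw D 0 J} with hS
  have hSm : MeasurableSet S := measurable_fst (blw_meas D 0 J)
  set VS : Set Pth := {w : Pth | |x.im + w J| ≤ V} with hVS
  have hVm : MeasurableSet VS := by
    have h1 : Measurable fun w : Pth => |x.im + w J| :=
      continuous_abs.measurable.comp (measurable_const.add (Pth.measurable_apply J))
    exact measurableSet_le h1 measurable_const
  set L : Pth → ℝ≥0∞ := fun w => ENNReal.ofReal (Lw α β r (t - ℓ) x.im w) with hL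
  have hLm : Measurable L := (Lw_meas α β r (t - ℓ) x.im hα).ennreal_ofReal
  have hL1 : ∀ w, L w ≤ 1 := by
    intro w
    rw [hL]
    refine ENNReal.ofReal_le_one.2 ?_
    unfold Lw
    rw [Real.exp_le_one_iff, neg_nonpos]
    exact intervalIntegral.integral_nonneg (by linarith) fun s _ => c0_nonneg hβ _ _
  set W : P2 → ℝ≥0∞ := fun w => w0 (D - w.1 J) * VS.indicator L w.2 with hWd
  have hwm : Measurable fun w : P2 => w0 (D - w.1 J) :=
    hw.comp (measurable_const.sub ((Pth.measurable_apply _).comp measurable_fst))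
  have hWm : Measurable W := hwm.mul ((hLm.indicator hVm).comp measurable_snd)
  have hE : ∫⁻ w in S, W w ∂W2 = (∫⁻ w in Blw D 0 J, w0 (D - w J) ∂Wm) * ∫⁻ w in VS, L w ∂Wm :=
    Lfin_prod hα hw hVm
  have hlow : ENNReal.ofReal Q * I0 w0 * ENNReal.ofReal q ≤ ∫⁻ w in S, W w ∂W2 := by
    rw [hE]
    exact mul_le_mul' (x_low hw hD hJ hs) hy
  have hfin : ∫⁻ w in S, W w ∂W2 ≠ ∞ := by
    rw [hE]
    refine ENNReal.mul_ne_top (ne_top_of_le_ne_top (ENNReal.mul_ne_top ENNReal.ofReal_ne_top hI)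
      (x_tot hw hD hJ)) ?_
    have h1 : ∫⁻ w in VS, L w ∂Wm ≤ 1 := by
      calc ∫⁻ w in VS, L w ∂Wm ≤ ∫⁻ _ in VS, 1 ∂Wm := lintegral_mono fun w => hL1 w
        _ = Wm VS := by rw [lintegral_one, Measure.restrict_apply_univ]
        _ ≤ 1 := prob_le_one
    exact ne_top_of_le_ne_top ENNReal.one_ne_top h1
  set R : P2 → ℝ := Rb b α β z r t ℓ D x n h θ p with hR
  have hRm : Measurable R := by
    have h1 := (Lfin_R1_meas D n h θ).add (Lfin_R2_meas hb hα β r J x p)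
    exact h1.add (Lfin_R3_meas hb z (t - r) J x p)
  have hWle : ∀ w : P2, W w ≤ w0 (D - w.1 J) * L w.2 := fun w =>
    mul_le_mul_right (indicator_le_self _ _ _) _
  have herr' : ∫⁻ w, ENNReal.ofReal (max 0 (R w)) * W w ∂(W2.restrict S) ≤
      ENNReal.ofReal m * ∫⁻ w, W w ∂(W2.restrict S) := by
    calc ∫⁻ w in S, ENNReal.ofReal (max 0 (R w)) * W w ∂W2
        ≤ ∫⁻ w in S, ENNReal.ofReal (R w) * (w0 (D - w.1 J) * L w.2) ∂W2 := by
          refine lintegral_mono fun w => mul_le_mul' (le_of_eq ?_) (hWle w)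
          rcases le_total 0 (R w) with h1 | h1
          · rw [max_eq_right h1]
          · rw [max_eq_left h1, ENNReal.ofReal_zero, ENNReal.ofReal_of_nonpos h1]
      _ ≤ ENNReal.ofReal K * I0 w0 := herr
      _ ≤ ENNReal.ofReal (m * (Q * q)) * I0 w0 := mul_le_mul_left (ENNReal.ofReal_le_ofReal hK) _
      _ = ENNReal.ofReal m * (ENNReal.ofReal Q * I0 w0 * ENNReal.ofReal q) := by
          rw [ENNReal.ofReal_mul hm, ENNReal.ofReal_mul hQ0]
          ring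
      _ ≤ ENNReal.ofReal m * ∫⁻ w in S, W w ∂W2 := mul_le_mul_right hlow _
  have hjen := jensen_lb (W2.restrict S) hWm (measurable_const.max hRm) (fun w => le_max_left 0 (R w)) hfin hm herr'
  have hpt : ∫⁻ w in S, ENNReal.ofReal (Real.exp (-max 0 (R w))) * W w ∂W2 ≤
      ∫⁻ w in S, ENNReal.ofReal (Real.exp (-R w)) *
        ENNReal.ofReal (Real.exp (θ (n - 1) * (D - w.1 J)) * vf b (HP z) ℓ (Bp x p w J)) * L w.2 ∂W2 := by
    refine setLIntegral_mono' hSm fun w hwS => ?_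
    rw [mul_assoc]
    refine mul_le_mul' (ENNReal.ofReal_le_ofReal (Real.exp_le_exp.2 (neg_le_neg (le_max_right _ _)))) ?_
    by_cases hv : w.2 ∈ VS
    · rw [hWd]
      show w0 (D - w.1 J) * VS.indicator L w.2 ≤ _
      rw [indicator_of_mem hv]
      exact mul_le_mul_left (hW w hwS hv) _
    · rw [hWd]
      show w0 (D - w.1 J) * VS.indicator L w.2 ≤ _
      rw [indicator_of_notMem hv, mul_zero]
      exact bot_le
  have hfinal : ENNReal.ofReal (Real.exp A) * (ENNReal.ofReal (Real.exp (-m)) *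
      (ENNReal.ofReal Q * I0 w0 * ENNReal.ofReal q)) ≤ ENNReal.ofReal (vf b (HP z) (t - r) x) :=
    (mul_le_mul_right ((mul_le_mul_right hlow _).trans (hjen.trans hpt)) _).trans LM
  have hI' : I0 w0 = ENNReal.ofReal (I0 w0).toReal := (ENNReal.ofReal_toReal hI).symm
  have hT0 : 0 ≤ (I0 w0).toReal := ENNReal.toReal_nonneg
  rw [hI', ← ENNReal.ofReal_mul hQ0, ← ENNReal.ofReal_mul (mul_nonneg hQ0 hT0),
    ← ENNReal.ofReal_mul (Real.exp_pos _).le, ← ENNReal.ofReal_mul (Real.exp_pos _).le,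
    ENNReal.ofReal_le_ofReal_iff (vf_nonneg _ _ _ _)] at hfinal
  exact hfinal

theorem Lfin_end {b : ℝ → ℝ} {α β lam a C0 r t ℓ Dm V U' ε' ε1 : ℝ} {n : ℕ} {h : ℝ≥0}
    {θ : ℕ → ℝ} {p : Pth} {x : ℂ} (hα : 2 / 3 < α) (hα2 : α < 2) (hβ : 0 < β) (hlam : 0 < lam)
    (hℓ : 0 ≤ ℓ) (hr : 0 ≤ r) (hJ : 0 < t - ℓ - r) (hC0 : 0 ≤ C0) (hε1 : ε' ≤ 1) (hU' : 0 ≤ U')
    (H : Lc α β lam a C0 r t ℓ n h θ p)
    (ht : 1 ≤ t) (hV : V ≤ U' * t ^ gam α)
    (hcc : a ≤ cc α * Real.log t) (hfar : t ≤ f0 α β lam a t (t - ℓ) - Dm)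
    (hend : ∀ (y : ℂ) (z : ℝ), t ≤ y.re → |y.im| ≤ U' * t ^ gam α → vh ℓ (z - y.re) - ε1 ≤ vf b (HP z) ℓ y)
    (hexp : 1 - ε' ≤ Real.exp (-(C0 * (t ^ (gg α - 1) + Real.log t / t) * Dm)))
    (w : P2) (hw : w.1 ∈ Blw (f0 α β lam a t r - x.re) 0 (t - ℓ - r)) (hwV : |x.im + w.2 (t - ℓ - r)| ≤ V) :
    Lfin_w ℓ ε1 ε' Dm (f0 α β lam a t r - x.re - w.1 (t - ℓ - r)) ≤
      ENNReal.ofReal (Real.exp (θ (n - 1) * (f0 α β lam a t r - x.re - w.1 (t - ℓ - r))) *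
          vf b (HP (mm α β lam t + a)) ℓ (Bp x p w (t - ℓ - r))) := by
  set J := t - ℓ - r with hJd
  set d := f0 α β lam a t r - x.re - w.1 J with hd
  have hd0 : 0 < d := by
    have h1 := hw J ⟨hJ.le, le_rfl⟩
    rw [zero_mul, add_zero] at h1
    linarith
  unfold Lfin_w
  by_cases hdm : d ≤ Dm
  swap
  · rw [indicator_of_notMem (fun h1 => hdm h1.2)]
    exact bot_le
  rw [indicator_of_mem (show d ∈ Ioc (0 : ℝ) Dm from ⟨hd0, hdm⟩)]
  refine ENNReal.ofReal_le_ofReal ?_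
  have hlog : 0 ≤ Real.log t := Real.log_nonneg ht
  have ht0 : 0 < t := by linarith
  have hX0 : 0 ≤ C0 * (t ^ (gg α - 1) + Real.log t / t) := by positivity
  have hnode : f0 α β lam a t r + p J = f0 α β lam a t (t - ℓ) := by
    have h1 := H.node n le_rfl
    rw [H.nh] at h1
    rw [h1]
    congr 1
    ring
  have hre : (Bp x p w J).re = f0 α β lam a t (t - ℓ) - d := by
    have h1 : (Bp x p w J).re = x.re + p J + w.1 J := by
      unfold Bp pt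
      simp
    rw [h1, ← hnode, hd]
    ring
  have him : (Bp x p w J).im = x.im + w.2 J := by
    unfold Bp pt
    simp
  have hv0 : 0 ≤ vf b (HP (mm α β lam t + a)) ℓ (Bp x p w J) := vf_nonneg _ _ _ _
  have hz : mm α β lam t + a - (Bp x p w J).re ≤ √2 * ℓ + d := by
    rw [hre]
    have h1 : kap α β lam (t - ℓ) ≤ kap α β lam t :=
      Lfin_kmono hα hα2 hβ hlam (by linarith) (by linarith)
    have h2 : 0 ≤ ℓ / t * (cc α * Real.log t - a) := mul_nonneg (div_nonneg hℓ ht0.le) (by linarith)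
    have h3 : (t - ℓ) / t * (cc α * Real.log t - a) = (cc α * Real.log t - a) - ℓ / t * (cc α * Real.log t - a) := by
      have : (t - ℓ) / t = 1 - ℓ / t := by field_simp
      rw [this]
      ring
    have h4 : (3 - gam α) / (2 * √2) * Real.log t = cc α * Real.log t := rfl
    unfold mm f0
    rw [h3, h4]
    nlinarith
  have hv1 : max 0 (vh ℓ (√2 * ℓ + d) - ε1) ≤ vf b (HP (mm α β lam t + a)) ℓ (Bp x p w J) := by
    refine max_le hv0 ?_
    have h1 := hend (Bp x p w J) (mm α β lam t + a) (by rw [hre]; linarith)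
      (by rw [him]; exact hwV.trans hV)
    have h2 := vh_anti ℓ hz
    linarith
  have hθ : (1 - ε') * Real.exp (√2 * d) ≤ Real.exp (θ (n - 1) * d) := by
    have h1 := H.dlast
    have h2 : (√2 - θ (n - 1)) * d ≤ C0 * (t ^ (gg α - 1) + Real.log t / t) * Dm :=
      (mul_le_mul_of_nonneg_right h1 hd0.le).trans (mul_le_mul_of_nonneg_left hdm hX0)
    have h3 : Real.exp (θ (n - 1) * d) = Real.exp (-((√2 - θ (n - 1)) * d)) * Real.exp (√2 * d) := by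
      rw [← Real.exp_add]
      congr 1
      ring
    rw [h3]
    refine mul_le_mul_of_nonneg_right (hexp.trans (Real.exp_le_exp.2 (neg_le_neg h2))) (Real.exp_pos _).le
  calc (1 - ε') * (Real.exp (√2 * d) * max 0 (vh ℓ (√2 * ℓ + d) - ε1))
      = ((1 - ε') * Real.exp (√2 * d)) * max 0 (vh ℓ (√2 * ℓ + d) - ε1) := by ring
    _ ≤ Real.exp (θ (n - 1) * d) * vf b (HP (mm α β lam t + a)) ℓ (Bp x p w J) :=
        mul_le_mul hθ hv1 (le_max_left _ _) (Real.exp_pos _).le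

theorem Lfin_num {X y ε' ε CCl E2 P CL l m Gi G I : ℝ} (hX : 0 ≤ X) (hy : 0 ≤ y) (hε : 0 < ε) (hε1 : ε < 1)
    (hεε : ε' = ε / 6)
    (hCC : ε < CCl) (hP : 0 ≤ P) (hE2 : 1 - ε' ≤ E2) (hm : m = CL * l + ε')
    (hGi : (1 - ε') * X * (y * E2) ≤ Gi) (hG : (1 - ε') * Gi ≤ G)
    (hI : (1 - ε') * (CCl - ε / 2) ≤ I) :
    X * y * ((1 - ε) * (CCl - ε) * P * Real.exp (-CL * l)) ≤ Real.exp (-m) * (G * I * ((1 - ε') * P)) := by
  have h1 : 0 < 1 - ε' := by rw [hεε]; linarith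
  have e1 : Real.exp (-m) = Real.exp (-CL * l) * Real.exp (-ε') := by
    rw [hm, ← Real.exp_add]
    congr 1
    ring
  have e2 : 1 - ε' ≤ Real.exp (-ε') := by
    have := Real.add_one_le_exp (-ε')
    linarith
  have e3 : (1 - ε') ^ 3 * (X * y) ≤ G := by
    have h2 : (1 - ε') * X * (y * (1 - ε')) ≤ Gi := by
      refine le_trans ?_ hGi
      exact mul_le_mul_of_nonneg_left (mul_le_mul_of_nonneg_left hE2 hy) (mul_nonneg h1.le hX)
    have h3 := (mul_le_mul_of_nonneg_left h2 h1.le).trans hG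
    calc (1 - ε') ^ 3 * (X * y) = (1 - ε') * ((1 - ε') * X * (y * (1 - ε'))) := by ring
      _ ≤ G := h3
  have h5 : 0 ≤ CCl - ε / 2 := by linarith
  have e4 : (1 - ε') ^ 4 * (X * y * (CCl - ε / 2)) ≤ G * I := by
    have h2 : (1 - ε') ^ 3 * (X * y) * ((1 - ε') * (CCl - ε / 2)) ≤ G * I :=
      mul_le_mul e3 hI (mul_nonneg h1.le h5) (le_trans (by positivity) e3)
    calc (1 - ε') ^ 4 * (X * y * (CCl - ε / 2)) = (1 - ε') ^ 3 * (X * y) * ((1 - ε') * (CCl - ε / 2)) := by ring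
      _ ≤ G * I := h2
  have hB : 1 - ε ≤ (1 - ε') ^ 6 := by
    have h2 := one_add_mul_le_pow (show (-2 : ℝ) ≤ -ε' by linarith) 6
    have h3 : (1 : ℝ) + -ε' = 1 - ε' := by ring
    rw [h3] at h2
    push_cast at h2
    rw [hεε] at h2 ⊢
    linarith
  have hZ : 0 ≤ P * Real.exp (-CL * l) := mul_nonneg hP (Real.exp_pos _).le
  calc X * y * ((1 - ε) * (CCl - ε) * P * Real.exp (-CL * l))
      = (1 - ε) * (X * y * (CCl - ε)) * (P * Real.exp (-CL * l)) := by ring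
    _ ≤ (1 - ε') ^ 6 * (X * y * (CCl - ε / 2)) * (P * Real.exp (-CL * l)) := by
        refine mul_le_mul_of_nonneg_right ?_ hZ
        refine mul_le_mul hB ?_ (mul_nonneg (mul_nonneg hX hy) (by linarith)) (by positivity)
        exact mul_le_mul_of_nonneg_left (by linarith) (mul_nonneg hX hy)
    _ = ((1 - ε') ^ 4 * (X * y * (CCl - ε / 2))) * ((1 - ε') * P) * (Real.exp (-CL * l) * (1 - ε')) := by ring
    _ ≤ (G * I) * ((1 - ε') * P) * (Real.exp (-CL * l) * Real.exp (-ε')) := by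
        have hGI : 0 ≤ G * I := le_trans (by positivity) e4
        refine mul_le_mul (mul_le_mul_of_nonneg_right e4 (mul_nonneg h1.le hP))
          (mul_le_mul_of_nonneg_left e2 (Real.exp_pos _).le) (mul_nonneg (Real.exp_pos _).le h1.le)
          (mul_nonneg hGI (mul_nonneg h1.le hP))
    _ = Real.exp (-m) * (G * I * ((1 - ε') * P)) := by
        rw [e1]
        ring

theorem l_lower {b : ℝ → ℝ} {α β lam ρ C : ℝ} {φ : ℝ → ℝ} (hα : 2 / 3 < α) (hα2 : α < 2) (hβ : 0 < β)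
    (h : A12 b α β) (G : GS α lam ρ C φ) (a : ℝ) {U : ℝ} (hU : 0 < U) :
    ∃ CL > 0, ∀ ℓ ≥ (1 : ℝ), ∀ ε > 0, ε < 1 → ∃ r0 ≥ (1 : ℝ), ∀ r, r0 ≤ r → ∀ x, Good α β lam a U r x →
      ∀ᶠ t in atTop, Xi α β lam a r x * Real.exp (-√2 * Xi α β lam a r x) *
          ((1 - ε) * (CC ℓ - ε) * ((∫ y, φ y) * φ (x.im / ell α β r)) * Real.exp (-CL * ℓ ^ (-gam α / 4))) ≤
        vf b (HP (mm α β lam t + a)) (t - r) x := by
  have hα0 : 0 < α := by linarith
  have hb := a12_rate hα0 h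
  obtain ⟨hg, hγ, hγ1, hgγ⟩ := gg_pos hα0 hα2
  have hg1 := gg_lt hα hα2
  rcases eq_or_lt_of_le (integral_nonneg (fun y => (G.pos y).le) : 0 ≤ ∫ y, φ y) with hφ0 | hφ0
  · refine ⟨1, one_pos, fun ℓ hℓ ε hε hε1 => ⟨1, le_rfl, fun r hr x hx => Eventually.of_forall fun t => ?_⟩⟩
    rw [← hφ0, zero_mul, mul_zero, zero_mul, mul_zero]
    exact vf_nonneg _ _ _ _
  have hkb : 0 < kb α β := by
    unfold kb
    exact Real.rpow_pos_of_pos (mul_pos hβ (Real.rpow_pos_of_pos (by norm_num) _)) _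
  obtain ⟨C0, hC0, r1, hr1, Hlcv⟩ := lcv hα hα2 hβ G.lam_pos a
  obtain ⟨c1, hc1, c2, hc2, c3, hc3, e, he, r2, hr2, Herr⟩ := Lfin_err hα hα2 hβ h G a C0 hU
  obtain ⟨cU, hcU, HcU⟩ := G.low (U / kb α β)
  have hπ : 0 < √(2 / Real.pi) := Real.sqrt_pos.2 (by positivity)
  set M1 : ℝ := √(2 / Real.pi) * Real.exp (-1) * (1 / 2) * ((∫ y, φ y) * cU) with hM1
  have hM1p : 0 < M1 := by positivity
  have hM0p : 0 < M1⁻¹ := inv_pos.2 hM1p
  refine ⟨M1⁻¹ * c2, by positivity, ?_⟩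
  intro ℓ hℓ ε hε hε1
  by_cases hCC : CC ℓ ≤ ε
  · refine ⟨1, le_rfl, fun r hr x hx => Eventually.of_forall fun t => ?_⟩
    have hX : 0 ≤ Xi α β lam a r x := (Real.rpow_nonneg (by linarith) _).trans hx.2.1
    have hP : 0 ≤ (∫ y, φ y) * φ (x.im / ell α β r) := mul_nonneg hφ0.le (G.pos _).le
    have h1 : (1 - ε) * (CC ℓ - ε) * ((∫ y, φ y) * φ (x.im / ell α β r)) *
        Real.exp (-(M1⁻¹ * c2) * ℓ ^ (-gam α / 4)) ≤ 0 :=
      mul_nonpos_of_nonpos_of_nonneg (mul_nonpos_of_nonpos_of_nonneg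
        (mul_nonpos_of_nonneg_of_nonpos (by linarith) (by linarith)) hP) (Real.exp_pos _).le
    exact (mul_nonpos_of_nonneg_of_nonpos (mul_nonneg hX (Real.exp_pos _).le) h1).trans (vf_nonneg _ _ _ _)
  rw [not_le] at hCC
  obtain ⟨ε', hεε⟩ : ∃ ε', ε' = ε / 6 := ⟨_, rfl⟩
  have hε' : 0 < ε' := by rw [hεε]; linarith
  have hε6 : ε' ≤ 1 / 6 := by rw [hεε]; linarith
  obtain ⟨Dm, hDm, ε1, hε1p, Hcc⟩ := cc_lo (ℓ := ℓ) (ε := ε / 2) (by linarith) (by linarith)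
  obtain ⟨U', hU', r3, hr3, Hy⟩ := y_low hα0 hα2 hβ G hU hε'
  obtain ⟨r4, Hr4⟩ := eventually_atTop.1
    (Lfin_r (C0 := C0) (M0 := M1⁻¹) (c1 := c1) (c2 := c2) (c3 := c3) (Dm := Dm) (a := a) hα hα2 he hε')
  refine ⟨max (max r1 r2) (max r3 r4), hr1.trans ((le_max_left _ _).trans (le_max_left _ _)), ?_⟩
  intro r hr x hx
  have hr1' : r1 ≤ r := ((le_max_left _ _).trans (le_max_left _ _)).trans hr
  have hr2' : r2 ≤ r := ((le_max_right _ _).trans (le_max_left _ _)).trans hr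
  have hr3' : r3 ≤ r := ((le_max_left _ _).trans (le_max_right _ _)).trans hr
  have hr4' : r4 ≤ r := ((le_max_right _ _).trans (le_max_right _ _)).trans hr
  have hrr : 1 ≤ r := hr1.trans hr1'
  have hr0 : 0 < r := by linarith
  obtain ⟨q1, q2, q3, q4, q5⟩ := Hr4 r hr4'
  obtain ⟨hx1, hx2, hx3⟩ := hx
  obtain ⟨X, hX⟩ : ∃ X, X = Xi α β lam a r x := ⟨_, rfl⟩
  rw [← hX] at hx2 hx3 ⊢
  have hlogr : 0 ≤ Real.log r := Real.log_nonneg hrr
  obtain ⟨Di, hDi⟩ : ∃ Di, Di = √2 * r - kap α β lam r - x.re := ⟨_, rfl⟩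
  have hDX : Di = X - a - gam α / (2 * √2) * Real.log r := by
    rw [hDi, hX]
    unfold Xi
    ring
  have hX4 : 4 ≤ X := q3.trans hx2
  have hclog : 0 ≤ gam α / (2 * √2) * Real.log r := by positivity
  have b1 := neg_abs_le a
  have b2 := le_abs_self a
  have hD1 : (1 - ε') * X ≤ Di := by
    have h1 : ε' * r ^ (1 / 2 - dl α) ≤ ε' * X := mul_le_mul_of_nonneg_left hx2 hε'.le
    rw [hDX]
    linarith
  have hD2 : 1 < Di := by
    refine lt_of_lt_of_le ?_ hD1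
    nlinarith
  have hD3 : Di < 2 * r ^ (1 / 2 + dl α) := by
    rw [hDX]
    linarith
  -- the limits
  have hL1 := Lfin_D α β lam a r x.re
  rw [← hDi] at hL1
  have hL2 := Lfin_small α β lam a r ℓ Dm x.re
  have hL3 := Lfin_Glim (α := α) (β := β) (lam := lam) (a := a) (C0 := C0) (ℓ := ℓ) (Dm := Dm) (xr := x.re) hr0
  rw [← hDi] at hL3
  obtain ⟨Gi, hGi⟩ : ∃ Gi, Gi = Di * Real.exp (-√2 * Di - C0 * r ^ (2 * gg α - 1) +
      (-√2 * a - gam α / 2 * Real.log r)) := ⟨_, rfl⟩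
  rw [← hGi] at hL3
  have hGi0 : 0 < Gi := by
    rw [hGi]
    exact mul_pos (by linarith) (Real.exp_pos _)
  have hGi1 : (1 - ε') * X * (Real.exp (-√2 * X) * Real.exp (-(C0 * r ^ (2 * gg α - 1)))) ≤ Gi := by
    rw [hGi, ← Real.exp_add]
    have h1 : -√2 * X + -(C0 * r ^ (2 * gg α - 1)) =
        -√2 * Di - C0 * r ^ (2 * gg α - 1) + (-√2 * a - gam α / 2 * Real.log r) := by
      rw [hDX]
      have h2 := ca1_c (gam α)
      have h3 : √2 * (gam α / (2 * √2) * Real.log r) = gam α / 2 * Real.log r := by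
        rw [← mul_assoc, h2]
      linarith
    rw [h1]
    exact mul_le_mul_of_nonneg_right hD1 (Real.exp_pos _).le
  have hlamp := G.lam_pos
  have hccp := Lfin_ccpos hα0 hα2
  have ev1 := Hlcv r hr1' ℓ hℓ
  have ev2 := (tendsto_atTop_add_const_right atTop (-ℓ) (tendsto_id (α := ℝ))).eventually (Hy r hr3')
  have ev3 := l_end hα0 hα2 h (show 0 < ℓ by linarith) (show 0 < U' by linarith) hε1p
  have ev4 : ∀ᶠ t : ℝ in atTop, 2 * r + 2 * ℓ + 2 ≤ t - ℓ - r := by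
    filter_upwards [eventually_ge_atTop (3 * r + 3 * ℓ + 2)] with t ht
    linarith
  have ev5 : ∀ᶠ t : ℝ in atTop, a ≤ cc α * Real.log t :=
    (Real.tendsto_log_atTop.const_mul_atTop hccp).eventually_ge_atTop a
  have ev6 := Lfin_far hα hα2 hβ hlamp a ℓ Dm (by linarith)
  have ev7 : ∀ᶠ t : ℝ in atTop, 1 - ε' ≤ Real.exp (-(C0 * (t ^ (gg α - 1) + Real.log t / t) * Dm)) := by
    have h1 := ((((Lfin_rp (y := gg α - 1) (by linarith)).add Lfin_logt).const_mul C0).mul_const Dm).neg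
    rw [add_zero, mul_zero, zero_mul, neg_zero] at h1
    have h2 := (Real.continuous_exp.tendsto 0).comp h1
    rw [Real.exp_zero] at h2
    exact h2.eventually_const_le (show 1 - ε' < 1 by linarith)
  have ev8 := hL1.eventually_const_le hD2
  have ev8' := hL1.eventually_le_const hD3
  have ev9 := hL2.eventually_const_le (show (-1 : ℝ) < 0 by norm_num)
  have ev10 : ∀ᶠ t : ℝ in atTop, M1⁻¹ * (c3 * (Real.log t ^ 4 * t ^ (-(2 * gam α)))) ≤ ε' / 2 := by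
    have h1 := ((Lfin_log4 (y := 2 * gam α) (by linarith)).const_mul c3).const_mul M1⁻¹
    rw [mul_zero, mul_zero] at h1
    exact h1.eventually_le_const (by linarith)
  have ev11 := hL3.eventually_const_le (show (1 - ε') * Gi < Gi by nlinarith)
  filter_upwards [ev1, ev2, ev3, ev4, ev5, ev6, ev7, ev8, ev8', ev9, ev10, ev11] with t k1 k2 k3 k4 k5 k6 k7 k8
    k8' k9 k10 k11
  obtain ⟨n, hh, θ, p, H⟩ := k1
  have hJ : 0 < t - ℓ - r := by linarith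
  have hT : 0 < t - ℓ := by linarith
  have ht1 : 1 ≤ t := by linarith
  have ht0 : 0 < t := by linarith
  have hD0 : 0 < f0 α β lam a t r - x.re := by linarith
  -- the pieces
  have k2' := k2 x.im hx1
  have LM := lmaster hb hα0 hβ.le hrr (by linarith) H x hD0
  have hwm := Lfin_w_meas ℓ ε1 ε' Dm
  have hsup := Lfin_w_supp ℓ ε1 ε' Dm
  have hI0 := Lfin_I0 (ℓ := ℓ) (ε1 := ε1) (ε' := ε') (Dm := Dm) (by linarith)
  obtain ⟨Ic, hIc⟩ : ∃ Ic, Ic = ∫ d in Ioc (0 : ℝ) Dm, d * (Real.exp (√2 * d) * max 0 (vh ℓ (√2 * ℓ + d) - ε1)) :=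
    ⟨_, rfl⟩
  rw [← hIc] at hI0 Hcc
  have hIc0 : 0 ≤ Ic := by
    rw [hIc]
    exact setIntegral_nonneg measurableSet_Ioc fun d hd =>
      mul_nonneg hd.1.le (mul_nonneg (Real.exp_pos _).le (le_max_left _ _))
  have hIr : (I0 (Lfin_w ℓ ε1 ε' Dm)).toReal = (1 - ε') * Ic := by
    rw [hI0, ENNReal.toReal_ofReal (mul_nonneg (by linarith) hIc0)]
  have herr := Herr r t ℓ Dm n hh θ p hr2' hℓ hDm k4 H x k8 hx1 _ hwm hsup
  obtain ⟨P, hP⟩ : ∃ P, P = (∫ y, φ y) * φ (x.im / ell α β r) := ⟨_, rfl⟩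
  have hP0 : 0 ≤ P := by
    rw [hP]
    exact mul_nonneg hφ0.le (G.pos _).le
  have hPc : (∫ y, φ y) * cU ≤ P := by
    rw [hP]
    refine mul_le_mul_of_nonneg_left (HcU _ ?_) hφ0.le
    unfold ell
    have h1 : 0 < r ^ gam α := Real.rpow_pos_of_pos hr0 _
    rw [abs_div, abs_of_pos (mul_pos hkb h1), div_le_div_iff₀ (mul_pos hkb h1) hkb]
    calc |x.im| * kb α β ≤ (U * r ^ gam α) * kb α β := mul_le_mul_of_nonneg_right hx1 hkb.le
      _ = U * (kb α β * r ^ gam α) := by ring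
  rw [← hP] at k2' ⊢
  have hNN : 0 < NN α β lam r (t - ℓ) := by
    unfold NN
    have : 0 < (t - ℓ) / r := div_pos hT hr0
    positivity
  obtain ⟨m, hm⟩ : ∃ m, m = M1⁻¹ * c2 * ℓ ^ (-gam α / 4) + ε' := ⟨_, rfl⟩
  have hm0 : 0 ≤ m := by
    rw [hm]
    positivity
  have hKle : Lfin_K α c1 c2 c3 e r t ℓ Dm (f0 α β lam a t r - x.re) ≤ m * M1 := by
    have h1 : Lfin_K α c1 c2 c3 e r t ℓ Dm (f0 α β lam a t r - x.re) ≤
        Lfin_K0 α c1 c2 c3 e Dm r + c3 * (Real.log t ^ 4 * t ^ (-(2 * gam α))) + c2 * ℓ ^ (-gam α / 4) := by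
      have h2 : (f0 α β lam a t r - x.re) ^ 4 ≤ (2 * r ^ (1 / 2 + dl α)) ^ 4 := by gcongr
      have e1 : -(2 * gam α) = -2 * gam α := by ring
      have h3 : c1 * ((f0 α β lam a t r - x.re + Dm) * r ^ (gg α - 1) + r ^ (gg α - 1 / 2)) ≤
          c1 * ((2 * r ^ (1 / 2 + dl α) + Dm) * r ^ (gg α - 1) + r ^ (gg α - 1 / 2)) := by gcongr
      have h4 : c3 * (r ^ (-e) + (f0 α β lam a t r - x.re + Dm) * r ^ (-2 * gam α) +
          ((f0 α β lam a t r - x.re) ^ 4 + Dm ^ 4) * r ^ (-3 : ℝ)) ≤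
          c3 * (r ^ (-e) + (2 * r ^ (1 / 2 + dl α) + Dm) * r ^ (-2 * gam α) +
          ((2 * r ^ (1 / 2 + dl α)) ^ 4 + Dm ^ 4) * r ^ (-3 : ℝ)) := by gcongr
      rw [e1]
      unfold Lfin_K Lfin_K0
      linarith
    have h5 : M1⁻¹ * Lfin_K α c1 c2 c3 e r t ℓ Dm (f0 α β lam a t r - x.re) ≤ m := by
      refine (mul_le_mul_of_nonneg_left h1 hM0p.le).trans ?_
      rw [hm]
      have e2 : M1⁻¹ * (Lfin_K0 α c1 c2 c3 e Dm r + c3 * (Real.log t ^ 4 * t ^ (-(2 * gam α))) +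
          c2 * ℓ ^ (-gam α / 4)) = M1⁻¹ * Lfin_K0 α c1 c2 c3 e Dm r +
          M1⁻¹ * (c3 * (Real.log t ^ 4 * t ^ (-(2 * gam α)))) + M1⁻¹ * c2 * ℓ ^ (-gam α / 4) := by ring
      rw [e2]
      linarith
    calc Lfin_K α c1 c2 c3 e r t ℓ Dm (f0 α β lam a t r - x.re)
        = (M1⁻¹ * Lfin_K α c1 c2 c3 e r t ℓ Dm (f0 α β lam a t r - x.re)) * M1 := by
          field_simp
      _ ≤ m * M1 := mul_le_mul_of_nonneg_right h5 hM1p.le
  obtain ⟨D, hD⟩ : ∃ D, D = f0 α β lam a t r - x.re := ⟨_, rfl⟩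
  have hq0 : 0 ≤ NN α β lam r (t - ℓ) * ((1 - ε') * P) :=
    mul_nonneg hNN.le (mul_nonneg (by linarith) hP0)
  have hKE : Lfin_K α c1 c2 c3 e r t ℓ Dm (f0 α β lam a t r - x.re) *
      Esc α β lam r t ℓ (f0 α β lam a t r - x.re) ≤
      m * (√(2 / Real.pi) * (f0 α β lam a t r - x.re) / ((t - ℓ - r) * √(t - ℓ - r)) *
      Real.exp (-((f0 α β lam a t r - x.re) ^ 2 + Dm ^ 2) / (2 * (t - ℓ - r))) *
      (NN α β lam r (t - ℓ) * ((1 - ε') * P))) := by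
    rw [← hD] at hKle k9 hD0 ⊢
    unfold Esc
    obtain ⟨B, hB⟩ : ∃ B, B = D / ((t - ℓ - r) * √(t - ℓ - r)) := ⟨_, rfl⟩
    have hB0 : 0 ≤ B := by
      rw [hB]
      positivity
    have e1 : √(2 / Real.pi) * D / ((t - ℓ - r) * √(t - ℓ - r)) = √(2 / Real.pi) * B := by
      rw [hB]
      ring
    rw [e1, ← hB]
    have h1 : Real.exp (-1) ≤ Real.exp (-(D ^ 2 + Dm ^ 2) / (2 * (t - ℓ - r))) := Real.exp_le_exp.2 k9
    have h2 : 1 / 2 * ((∫ y, φ y) * cU) ≤ (1 - ε') * P :=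
      mul_le_mul (by linarith) hPc (by positivity) (by linarith)
    have h3 : M1 ≤ √(2 / Real.pi) * Real.exp (-(D ^ 2 + Dm ^ 2) / (2 * (t - ℓ - r))) * ((1 - ε') * P) := by
      rw [hM1]
      calc √(2 / Real.pi) * Real.exp (-1) * (1 / 2) * ((∫ y, φ y) * cU)
          = √(2 / Real.pi) * Real.exp (-1) * (1 / 2 * ((∫ y, φ y) * cU)) := by ring
        _ ≤ _ := mul_le_mul (mul_le_mul_of_nonneg_left h1 hπ.le) h2 (by positivity) (by positivity)
    calc Lfin_K α c1 c2 c3 e r t ℓ Dm D * (B * NN α β lam r (t - ℓ))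
        ≤ (m * M1) * (B * NN α β lam r (t - ℓ)) :=
          mul_le_mul_of_nonneg_right hKle (mul_nonneg hB0 hNN.le)
      _ ≤ (m * (√(2 / Real.pi) * Real.exp (-(D ^ 2 + Dm ^ 2) / (2 * (t - ℓ - r))) * ((1 - ε') * P))) *
          (B * NN α β lam r (t - ℓ)) :=
          mul_le_mul_of_nonneg_right (mul_le_mul_of_nonneg_left h3 hm0) (mul_nonneg hB0 hNN.le)
      _ = _ := by ring
  have hV : U' * (t - ℓ) ^ gam α ≤ U' * t ^ gam α := by
    refine mul_le_mul_of_nonneg_left (Real.rpow_le_rpow hT.le (by linarith) hγ.le) (by linarith)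
  have hWt : ∀ w : P2, w.1 ∈ Blw (f0 α β lam a t r - x.re) 0 (t - ℓ - r) →
      |x.im + w.2 (t - ℓ - r)| ≤ U' * (t - ℓ) ^ gam α →
      Lfin_w ℓ ε1 ε' Dm (f0 α β lam a t r - x.re - w.1 (t - ℓ - r)) ≤
      ENNReal.ofReal (Real.exp (θ (n - 1) * (f0 α β lam a t r - x.re - w.1 (t - ℓ - r))) *
          vf b (HP (mm α β lam t + a)) ℓ (Bp x p w (t - ℓ - r))) :=
    Lfin_end hα hα2 hβ hlamp (by linarith) hr0.le hJ (by linarith) (by linarith) (by linarith) H ht1 hV k5 k6 k3 k7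
  have hcore := Lfin_core hb hα0 hβ.le hwm (by rw [hI0]; exact ENNReal.ofReal_ne_top) hsup hD0 hJ LM hWt herr
    hq0 k2' hm0 hKE
  rw [hIr] at hcore
  refine le_trans ?_ hcore
  have hfin := Lfin_num (X := X) (y := Real.exp (-√2 * X)) (CCl := CC ℓ) (P := P)
    (CL := M1⁻¹ * c2) (l := ℓ ^ (-gam α / 4)) (m := m) (I := √(2 / Real.pi) * ((1 - ε') * Ic)) (by linarith)
    (Real.exp_pos _).le hε hε1 hεε hCC hP0 q4 hm hGi1 k11 (by
      have h1 := mul_le_mul_of_nonneg_left Hcc (show 0 ≤ 1 - ε' by linarith)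
      calc (1 - ε') * (CC ℓ - ε / 2) ≤ (1 - ε') * (√(2 / Real.pi) * Ic) := h1
        _ = √(2 / Real.pi) * ((1 - ε') * Ic) := by ring)
  refine hfin.trans (le_of_eq ?_)
  unfold Lfin_G
  ring

end Pool.H50.BB
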