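import Pool.Agent.H50.BB.Lcv
import Pool.Agent.H50.BB.Bcm

/-!
# Row Lms: the master lower bound   (about 230 lines)

`v q y = vf b (HP z) (t - q) y`, `z = mm t + a`, start `x` at time `r`, `J = t - ℓ - r`, `Dr = f0 r - x.re > 0`, `B u = x + p u + pt w u` (`p u` real), `D u = Dr - w.1 u`.
(1) `vf_fk` (time `J`) restricted to paths with `w.1 u < Dr + p u` on `[0,J]`: `v r x ≥ E[1{..} exp(∫_0^J b(1-v)) v(t-ℓ)(x + pt w J)]`, and `b (1-v) = (1-q)(1-v) ≥ 1 - q - v` (`q = 1-b(arg)`).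
(2) Cameron-Martin (`cm_poly` for the first coordinate, for fixed `w.2`; `n h = J`): for a nonnegative functional `F` of the path up to `J`: apply `cm_poly` to
`G(w) = F(w) exp(-∑ θ_k Δ_k w + h ∑ θ_k²/2)`: `E F(w) = E[F(w + p) exp (-∑_k θ_k (Δ_k w + θ_k h) + h∑θ_k²/2)] = E[F(w+p) exp(-∑ θ_k Δ_k w - h∑θ_k²/2)]`, `Δ_k w = w((k+1)h) - w(kh)`, `Δ_k p = θ_k h`.
The event becomes `w.1 ∈ Blw Dr 0 J`, the path `B`.
(3) Exponent: `J - ∫q - ∫v - ∑ θ_k Δ_k w.1 - h∑θ_k²/2`; with `d_k = √2 - θ_k`: `-h∑θ_k²/2 = -J + √2 h∑ d_k - h∑d_k²/2`; `-∑θ_kΔ_k w = ∑ θ_k (D_{k+1} - D_k) = √2 (D_n - D_0) - ∑ d_k (D_{k+1} - D_k)`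
`= θ_{n-1} D_n - √2 D_0 + d_0 D_0 - ∑_{k=1}^{n-1} (d_{k-1} - d_k) D_k` (Abel), `d_{k-1} - d_k = θ_k - θ_{k-1}`, `D_k = D(k h) > 0`, `d_0 D_0 ≥ 0`.
And `∫q ≤ ∫ c0 + ∫ (q - c0)^+`.  With `dsum`, `dsq` this is the statement.
-/

open MeasureTheory ProbabilityTheory Set Filter Topology
open scoped NNReal ENNReal

namespace Pool.H50.BB

open Pool.Agent.H4.BM

/-- the path of the particle -/
def Bp (x : ℂ) (p : Pth) (w : P2) (u : ℝ) : ℂ := x + (p u : ℂ) + pt w u

/-- the error functional -/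
noncomputable def Rb (b : ℝ → ℝ) (α β z r t ℓ Dr : ℝ) (x : ℂ) (n : ℕ) (h : ℝ≥0) (θ : ℕ → ℝ) (p : Pth) (w : P2) : ℝ :=
  ∑ k ∈ Finset.Ico 1 n, (θ k - θ (k - 1)) * (Dr - w.1 (k * h)) +
    (∫ u in (0 : ℝ)..(t - ℓ - r), max 0 (1 - b (Complex.arg (Bp x p w u)) - c0 α β (r + u) (Bp x p w u).im)) +
    ∫ u in (0 : ℝ)..(t - ℓ - r), vf b (HP z) (t - r - u) (Bp x p w u)

/-- the lateral weight -/
noncomputable def Lw (α β r T : ℝ) (y : ℝ) (w : Pth) : ℝ :=
  Real.exp (-∫ s in r..T, c0 α β s (y + w (s - r)))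

/-! ### auxiliary lemmas -/

theorem Lms_abel (θ D : ℕ → ℝ) (n : ℕ) (hn : 1 ≤ n) :
    ∑ k ∈ Finset.range n, θ k * (D (k + 1) - D k) =
      θ (n - 1) * D n - θ 0 * D 0 - ∑ k ∈ Finset.Ico 1 n, (θ k - θ (k - 1)) * D k := by
  induction n, hn using Nat.le_induction with
  | base => simp; ring
  | succ n hn ih =>
    rw [Finset.sum_range_succ, ih, Finset.sum_Ico_succ_top hn, Nat.add_sub_cancel]
    ring

theorem Lms_pint {f : ℝ → ℂ → ℝ} (hf : Measurable (Function.uncurry f)) (x : ℂ) {c : ℝ}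
    (hc : 0 ≤ c) : Measurable fun w : P2 => ∫ u in (0 : ℝ)..c, f u (x + pt w u) := by
  simp only [intervalIntegral.integral_of_le hc]
  have h : Measurable (fun q : P2 × ℝ => f q.2 (x + pt q.1 q.2)) :=
    hf.comp (measurable_snd.prodMk (measurable_const.add pt_meas))
  exact (h.stronglyMeasurable.integral_prod_right' (ν := volume.restrict (Ioc 0 c))).measurable

theorem Lms_ii {g : ℝ → ℝ} (hg : Measurable g) {M : ℝ} (hM : ∀ u, |g u| ≤ M) (a c : ℝ) :
    IntervalIntegrable g volume a c := by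
  apply IntervalIntegrable.mono_fun (g := g) (f := fun _ => M) intervalIntegrable_const
    hg.aestronglyMeasurable
  refine Eventually.of_forall fun u => ?_
  simp only [Real.norm_eq_abs]
  exact (hM u).trans (le_abs_self M)

/-- Cameron-Martin for functionals of the path up to time `n h` -/
theorem Lms_cm {h : ℝ≥0} {θ : ℕ → ℝ} {p : Pth} {n : ℕ}
    (hp : ∀ k < n, ∀ s ∈ Icc (0 : ℝ) h, p (k * h + s) = p (k * h) + θ k * s)
    {Φ : Pth → ℝ≥0∞} (hΦ : Measurable Φ) (hst : ∀ w, Φ (Pth.stop (n * h) w) = Φ w) :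
    ∫⁻ w, Φ w ∂Wm = ∫⁻ w, ENNReal.ofReal (Real.exp
      (-(∑ k ∈ Finset.range n, θ k * (w ((k + 1) * h) - w (k * h))) -
        (∑ k ∈ Finset.range n, θ k ^ 2) * h / 2)) * Φ (addP p w) ∂Wm := by
  have hh := h.coe_nonneg
  set G : Pth → ℝ≥0∞ := fun w => Φ w * ENNReal.ofReal (Real.exp
    (-(∑ k ∈ Finset.range n, θ k * (w ((k + 1) * h) - w (k * h))) +
      (∑ k ∈ Finset.range n, θ k ^ 2) * h / 2)) with hGd
  have hG : Measurable G := by
    refine hΦ.mul (ENNReal.measurable_ofReal.comp (Real.measurable_exp.comp (Measurable.add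
      (Measurable.neg ?_) measurable_const)))
    refine Finset.measurable_sum _ fun k _ => ?_
    exact ((Pth.measurable_apply _).sub (Pth.measurable_apply _)).const_mul _
  have hcm := cm_poly h θ p n hp hG
  have hs1 : ∀ (w : Pth), ∀ k ∈ Finset.range n,
      θ k * (Pth.stop (n * h) w ((k + 1) * h) - Pth.stop (n * h) w (k * h)) =
      θ k * (w ((k + 1) * h) - w (k * h)) := by
    intro w k hk
    have hk' := Finset.mem_range.1 hk
    have e1 : min (((k : ℝ) + 1) * h) (((n : ℝ≥0) * h : ℝ≥0) : ℝ) = ((k : ℝ) + 1) * h := by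
      refine min_eq_left ?_
      push_cast
      refine mul_le_mul_of_nonneg_right ?_ hh
      exact_mod_cast hk'
    have e2 : min ((k : ℝ) * h) (((n : ℝ≥0) * h : ℝ≥0) : ℝ) = (k : ℝ) * h := by
      refine min_eq_left ?_
      push_cast
      refine mul_le_mul_of_nonneg_right ?_ hh
      exact_mod_cast hk'.le
    rw [Pth.stop_apply, Pth.stop_apply, e1, e2]
  have hL : ∀ w : Pth, G (Pth.stop (n * h) (addP p w)) =
      ENNReal.ofReal (Real.exp
      (-(∑ k ∈ Finset.range n, θ k * (w ((k + 1) * h) - w (k * h))) -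
        (∑ k ∈ Finset.range n, θ k ^ 2) * h / 2)) * Φ (addP p w) := by
    intro w
    rw [hGd]
    simp only
    rw [hst, mul_comm, Finset.sum_congr rfl (hs1 (addP p w))]
    congr 3
    have e3 : ∀ k ∈ Finset.range n, θ k * (addP p w ((k + 1) * h) - addP p w (k * h)) =
        θ k * (w ((k + 1) * h) - w (k * h)) + θ k ^ 2 * h := by
      intro k hk
      have h1 := hp k (Finset.mem_range.1 hk) h ⟨hh, le_rfl⟩
      rw [Bcm_addP_apply, Bcm_addP_apply]
      have h2 : ((k : ℝ) + 1) * h = (k : ℝ) * h + h := by ring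
      rw [h2, h1]
      ring
    rw [Finset.sum_congr rfl e3, Finset.sum_add_distrib, ← Finset.sum_mul]
    ring
  have hR : ∀ w : Pth, ENNReal.ofReal (Real.exp (∑ k ∈ Finset.range n,
      θ k * (w ((k + 1) * h) - w (k * h)) -
        (∑ k ∈ Finset.range n, θ k ^ 2) * h / 2)) * G (Pth.stop (n * h) w) = Φ w := by
    intro w
    rw [hGd]
    simp only
    rw [hst, Finset.sum_congr rfl (hs1 w), mul_comm (Φ w), ← mul_assoc,
      ← ENNReal.ofReal_mul (Real.exp_pos _).le, ← Real.exp_add]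
    have e4 : (∑ k ∈ Finset.range n, θ k * (w ((k + 1) * h) - w (k * h)) -
        (∑ k ∈ Finset.range n, θ k ^ 2) * h / 2) +
        (-(∑ k ∈ Finset.range n, θ k * (w ((k + 1) * h) - w (k * h))) +
        (∑ k ∈ Finset.range n, θ k ^ 2) * h / 2) = 0 := by ring
    rw [e4, Real.exp_zero, ENNReal.ofReal_one, one_mul]
  simp only [hL, hR] at hcm
  exact hcm.symm

/-- `-p` as a path -/
def Lms_neg (p : Pth) : Pth :=
  ⟨fun t => -p t, p.continuous.neg, fun t ht => by rw [p.of_nonpos ht, neg_zero]⟩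

theorem Lms_set (p : Pth) (D J : ℝ) :
    MeasurableSet {w : Pth | ∀ s ∈ Icc (0 : ℝ) J, w s < D + p s} := by
  have h : {w : Pth | ∀ s ∈ Icc (0 : ℝ) J, w s < D + p s} =
      addP (Lms_neg p) ⁻¹' (Blw D 0 J) := by
    ext w
    refine forall₂_congr fun s _ => ?_
    rw [Bcm_addP_apply]
    show w s < D + p s ↔ w s + -p s < D + 0 * s
    constructor <;> intro h <;> linarith
  rw [h]
  exact addP_meas _ (blw_meas D 0 J)

/-- the integral of the exponent -/
noncomputable def Lms_E (b : ℝ → ℝ) (z t r J : ℝ) (x : ℂ) (w : P2) : ℝ :=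
  ∫ u in (0 : ℝ)..J, (b (Complex.arg (x + pt w u)) - vf b (HP z) (t - r - u) (x + pt w u))

open Classical in
/-- the functional before the Cameron-Martin transformation -/
noncomputable def Lms_F (b : ℝ → ℝ) (z t r ℓ J D : ℝ) (x : ℂ) (p : Pth) (w : P2) : ℝ≥0∞ :=
  if (∀ s ∈ Icc (0 : ℝ) J, w.1 s < D + p s) then
    ENNReal.ofReal (Real.exp (Lms_E b z t r J x w)) *
      ENNReal.ofReal (vf b (HP z) ℓ (x + pt w J)) else 0

theorem Lms_HP (z : ℝ) : MeasurableSet (HP z) :=
  measurableSet_lt measurable_const Complex.measurable_re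

theorem Lms_vm {b : ℝ → ℝ} (hb : Rate b) (z c : ℝ) :
    Measurable (Function.uncurry fun (u : ℝ) (y : ℂ) => vf b (HP z) (c - u) y) := by
  have h : Measurable fun q : ℝ × ℂ => ((c - q.1, q.2) : ℝ × ℂ) := by fun_prop
  exact (vf_meas hb (Lms_HP z)).comp h

theorem Lms_bm {b : ℝ → ℝ} (hb : Rate b) :
    Measurable (Function.uncurry fun (_ : ℝ) (y : ℂ) => b (Complex.arg y)) :=
  (barg_meas hb).comp measurable_snd

theorem Lms_E_meas {b : ℝ → ℝ} (hb : Rate b) (z t r : ℝ) {J : ℝ} (hJ : 0 ≤ J) (x : ℂ) :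
    Measurable (Lms_E b z t r J x) := by
  unfold Lms_E
  exact Lms_pint (f := fun u y => b (Complex.arg y) - vf b (HP z) (t - r - u) y)
    ((Lms_bm hb).sub (Lms_vm hb z (t - r))) x hJ

theorem Lms_end_meas {b : ℝ → ℝ} (hb : Rate b) (z ℓ J : ℝ) (x : ℂ) :
    Measurable fun w : P2 => vf b (HP z) ℓ (x + pt w J) := by
  have h1 : Measurable fun w : P2 => x + pt w J :=
    measurable_const.add (pt_meas.comp (measurable_id.prodMk measurable_const))
  exact (vf_meas hb (Lms_HP z)).comp (measurable_const.prodMk h1)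

theorem Lms_F_meas {b : ℝ → ℝ} (hb : Rate b) (z t r ℓ : ℝ) {J : ℝ} (hJ : 0 ≤ J) (D : ℝ) (x : ℂ)
    (p : Pth) : Measurable (Lms_F b z t r ℓ J D x p) := by
  unfold Lms_F
  refine Measurable.ite ?_ ?_ measurable_const
  · exact measurable_fst (Lms_set p D J)
  · exact (ENNReal.measurable_ofReal.comp (Real.measurable_exp.comp (Lms_E_meas hb z t r hJ x))).mul
      (ENNReal.measurable_ofReal.comp (Lms_end_meas hb z ℓ J x))

theorem Lms_pt_stop {c : ℝ≥0} (w1 w2 : Pth) {u : ℝ} (hu : u ≤ c) :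
    pt (Pth.stop c w1, w2) u = pt (w1, w2) u := by
  unfold pt
  simp only [Pth.stop_apply, min_eq_left hu]

theorem Lms_F_stop (b : ℝ → ℝ) (z t r ℓ : ℝ) {J : ℝ} (hJ : 0 ≤ J) (D : ℝ) (x : ℂ)
    (p : Pth) {c : ℝ≥0} (hc : (c : ℝ) = J) (w1 w2 : Pth) :
    Lms_F b z t r ℓ J D x p (Pth.stop c w1, w2) = Lms_F b z t r ℓ J D x p (w1, w2) := by
  unfold Lms_F
  have e1 : (∀ s ∈ Icc (0 : ℝ) J, (Pth.stop c w1, w2).1 s < D + p s) ↔
      (∀ s ∈ Icc (0 : ℝ) J, (w1, w2).1 s < D + p s) := by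
    refine forall₂_congr fun s hs => ?_
    show Pth.stop c w1 s < _ ↔ _
    rw [Pth.stop_apply, min_eq_left (hc ▸ hs.2)]
  have e2 : Lms_E b z t r J x (Pth.stop c w1, w2) = Lms_E b z t r J x (w1, w2) := by
    unfold Lms_E
    refine intervalIntegral.integral_congr fun u hu => ?_
    rw [uIcc_of_le hJ] at hu
    rw [Lms_pt_stop w1 w2 (hc ▸ hu.2)]
  rw [e2, Lms_pt_stop w1 w2 (hc ▸ le_rfl)]
  by_cases hh : ∀ s ∈ Icc (0 : ℝ) J, (w1, w2).1 s < D + p s
  · rw [if_pos (e1.2 hh), if_pos hh]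
  · rw [if_neg (fun h => hh (e1.1 h)), if_neg hh]

/-- step (1) -/
theorem Lms_one {b : ℝ → ℝ} (hb : Rate b) (z : ℝ) {t r ℓ : ℝ} (hℓ : 0 ≤ ℓ) (hJ : 0 ≤ t - ℓ - r)
    (D : ℝ) (x : ℂ) (p : Pth) :
    ∫⁻ w, Lms_F b z t r ℓ (t - ℓ - r) D x p w ∂W2 ≤ ENNReal.ofReal (vf b (HP z) (t - r) x) := by
  set J := t - ℓ - r with hJd
  have hA := Lms_HP z
  have hfk := vf_fk hb hA (t := t - r) (r := J) hJ (by linarith) x
  have hℓe : t - r - J = ℓ := by rw [hJd]; ring
  rw [hℓe] at hfk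
  have hm1 : Measurable fun w : P2 => ∫ u in (0 : ℝ)..J, b (Complex.arg (x + pt w u)) *
      (1 - vf b (HP z) (t - r - u) (x + pt w u)) :=
    Lms_pint (f := fun u y => b (Complex.arg y) * (1 - vf b (HP z) (t - r - u) y))
      ((Lms_bm hb).mul (measurable_const.sub (Lms_vm hb z (t - r)))) x hJ
  have hm2 := Lms_end_meas hb z ℓ J x
  have hpm : ∀ w : P2, Measurable fun u : ℝ => ((u, x + pt w u) : ℝ × ℂ) := fun w =>
    measurable_id.prodMk (measurable_const.add (pt_cont w).measurable)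
  have hbi : ∀ w : P2, IntervalIntegrable (fun u => b (Complex.arg (x + pt w u)) *
      (1 - vf b (HP z) (t - r - u) (x + pt w u))) volume 0 J := by
    intro w
    refine Lms_ii (M := 1) ?_ ?_ _ _
    · exact ((Lms_bm hb).comp (hpm w)).mul
        (measurable_const.sub ((Lms_vm hb z (t - r)).comp (hpm w)))
    · intro u
      have h1 := hb.nonneg (Complex.arg (x + pt w u))
      have h2 := hb.le_one (Complex.arg (x + pt w u))
      have h3 := vf_nonneg b (HP z) (t - r - u) (x + pt w u)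
      have h4 := vf_le_one b (HP z) (t - r - u) (x + pt w u)
      rw [abs_of_nonneg (mul_nonneg h1 (by linarith))]
      nlinarith
  have hint : Integrable (fun w : P2 => Real.exp (∫ u in (0 : ℝ)..J,
      b (Complex.arg (x + pt w u)) * (1 - vf b (HP z) (t - r - u) (x + pt w u))) *
      vf b (HP z) ℓ (x + pt w J)) W2 := by
    refine Integrable.of_bound ((Real.measurable_exp.comp hm1).mul hm2).aestronglyMeasurable
      (Real.exp J) (Eventually.of_forall fun w => ?_)
    rw [Real.norm_eq_abs, abs_mul, abs_of_pos (Real.exp_pos _), abs_of_nonneg (vf_nonneg _ _ _ _)]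
    have h1 : ∫ u in (0 : ℝ)..J, b (Complex.arg (x + pt w u)) *
        (1 - vf b (HP z) (t - r - u) (x + pt w u)) ≤ J := by
      have h2 := intervalIntegral.integral_mono_on hJ (hbi w)
        (intervalIntegrable_const (c := (1 : ℝ))) (fun u _ => by
          have h1 := hb.nonneg (Complex.arg (x + pt w u))
          have h2 := hb.le_one (Complex.arg (x + pt w u))
          have h3 := vf_nonneg b (HP z) (t - r - u) (x + pt w u)
          have h4 := vf_le_one b (HP z) (t - r - u) (x + pt w u)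
          nlinarith)
      rw [intervalIntegral.integral_const, sub_zero, smul_eq_mul, mul_one] at h2
      exact h2
    calc Real.exp _ * vf b (HP z) ℓ (x + pt w J) ≤ Real.exp J * 1 :=
          mul_le_mul (Real.exp_le_exp.2 h1) (vf_le_one _ _ _ _) (vf_nonneg _ _ _ _)
            (Real.exp_pos _).le
      _ = _ := mul_one _
  rw [hfk, ofReal_integral_eq_lintegral_ofReal hint
    (Eventually.of_forall fun w => mul_nonneg (Real.exp_pos _).le (vf_nonneg _ _ _ _))]
  refine lintegral_mono fun w => ?_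
  unfold Lms_F
  split_ifs
  · rw [← ENNReal.ofReal_mul (Real.exp_pos _).le]
    refine ENNReal.ofReal_le_ofReal ?_
    refine mul_le_mul_of_nonneg_right (Real.exp_le_exp.2 ?_) (vf_nonneg _ _ _ _)
    unfold Lms_E
    refine intervalIntegral.integral_mono_on hJ ?_ (hbi w) fun u _ => ?_
    · refine Lms_ii (M := 1) ?_ ?_ _ _
      · exact ((Lms_bm hb).comp (hpm w)).sub ((Lms_vm hb z (t - r)).comp (hpm w))
      · intro u
        have h1 := hb.nonneg (Complex.arg (x + pt w u))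
        have h2 := hb.le_one (Complex.arg (x + pt w u))
        have h3 := vf_nonneg b (HP z) (t - r - u) (x + pt w u)
        have h4 := vf_le_one b (HP z) (t - r - u) (x + pt w u)
        rw [abs_le]
        constructor <;> linarith
    · have h2 := hb.le_one (Complex.arg (x + pt w u))
      have h3 := vf_nonneg b (HP z) (t - r - u) (x + pt w u)
      nlinarith
  · exact zero_le

theorem Lms_c0_nonneg {α β : ℝ} (hβ : 0 ≤ β) (s y : ℝ) : 0 ≤ c0 α β s y := by
  unfold c0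
  exact mul_nonneg hβ (Real.rpow_nonneg (by positivity) _)

theorem Lms_c0_cont {α β r : ℝ} (hα : 0 < α) {g : ℝ → ℝ} (hg : Continuous g) :
    Continuous fun u : ℝ => c0 α β (r + u) (g u) := by
  unfold c0
  refine continuous_const.mul (Continuous.rpow_const ?_ fun _ => Or.inr hα.le)
  refine hg.abs.div ?_ fun u => ?_
  · fun_prop
  · have : 0 < max (r + u) 1 := lt_of_lt_of_le one_pos (le_max_right _ _)
    positivity

theorem Lms_path (x : ℂ) (p : Pth) (w : P2) (u : ℝ) :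
    x + pt (addP p w.1, w.2) u = Bp x p w u := by
  unfold Bp pt
  apply Complex.ext
  · simp only [Complex.add_re, Complex.ofReal_re, Bcm_addP_apply]
    ring
  · simp only [Complex.add_im, Complex.ofReal_im]
    ring

theorem Lms_Bp_cont (x : ℂ) (p : Pth) (w : P2) : Continuous (Bp x p w) := by
  unfold Bp
  exact (continuous_const.add (Complex.continuous_ofReal.comp p.continuous)).add (pt_cont w)

theorem Lms_Bp_im (x : ℂ) (p : Pth) (w : P2) (u : ℝ) : (Bp x p w u).im = x.im + w.2 u := by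
  unfold Bp pt
  simp only [Complex.add_im, Complex.ofReal_im]
  ring

/-- step (3) -/
theorem Lms_exp {b : ℝ → ℝ} (hb : Rate b) {α β lam a C r t ℓ : ℝ} (hα : 0 < α) (hβ : 0 ≤ β) {n : ℕ} {h : ℝ≥0}
    {θ : ℕ → ℝ} {p : Pth} (H : Lc α β lam a C r t ℓ n h θ p) (x : ℂ)
    {D : ℝ} (hD : 0 < D) (hJ : 0 ≤ t - ℓ - r) (z : ℝ) (w : P2) :
    (√2 * (kap α β lam (t - ℓ) - kap α β lam r) +
        √2 * ((t - ℓ - r) * ((cc α * Real.log t - a) / t)) - C * (r ^ (2 * gg α - 1) + Real.log t ^ 2 / t) -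
        √2 * D) + (-Rb b α β z r t ℓ D x n h θ p w) + θ (n - 1) * (D - w.1 (t - ℓ - r)) +
        (-∫ s in r..(t - ℓ), c0 α β s (x.im + w.2 (s - r))) ≤
      (-(∑ k ∈ Finset.range n, θ k * (w.1 ((k + 1) * h) - w.1 (k * h))) -
        (∑ k ∈ Finset.range n, θ k ^ 2) * h / 2) +
        Lms_E b z t r (t - ℓ - r) x (addP p w.1, w.2) := by
  set J := t - ℓ - r with hJd
  -- the integrals
  have hBc := Lms_Bp_cont x p w
  have hpm : Measurable fun u : ℝ => ((u, Bp x p w u) : ℝ × ℂ) :=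
    measurable_id.prodMk hBc.measurable
  have mb : Measurable fun u : ℝ => b (Complex.arg (Bp x p w u)) := (Lms_bm hb).comp hpm
  have mv : Measurable fun u : ℝ => vf b (HP z) (t - r - u) (Bp x p w u) :=
    (Lms_vm hb z (t - r)).comp hpm
  have him : Continuous fun u : ℝ => (Bp x p w u).im := Complex.continuous_im.comp hBc
  have cc0 : Continuous fun u : ℝ => c0 α β (r + u) (Bp x p w u).im := Lms_c0_cont hα him
  have ib : IntervalIntegrable (fun u : ℝ => b (Complex.arg (Bp x p w u))) volume 0 J :=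
    Lms_ii mb (M := 1) (fun u => by
      rw [abs_of_nonneg (hb.nonneg _)]; exact hb.le_one _) _ _
  have iv : IntervalIntegrable (fun u : ℝ => vf b (HP z) (t - r - u) (Bp x p w u)) volume 0 J :=
    Lms_ii mv (M := 1) (fun u => by
      rw [abs_of_nonneg (vf_nonneg _ _ _ _)]; exact vf_le_one _ _ _ _) _ _
  have ic : IntervalIntegrable (fun u : ℝ => c0 α β (r + u) (Bp x p w u).im) volume 0 J :=
    cc0.intervalIntegrable _ _
  have im : IntervalIntegrable (fun u : ℝ => max 0 (1 - b (Complex.arg (Bp x p w u)) -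
      c0 α β (r + u) (Bp x p w u).im)) volume 0 J := by
    refine Lms_ii (M := 1) ?_ ?_ _ _
    · exact measurable_const.max ((measurable_const.sub mb).sub cc0.measurable)
    · intro u
      rw [abs_of_nonneg (le_max_left _ _)]
      refine max_le zero_le_one ?_
      have h1 := hb.nonneg (Complex.arg (Bp x p w u))
      have h2 := Lms_c0_nonneg (α := α) hβ (r + u) (Bp x p w u).im
      linarith
  have hE : Lms_E b z t r J x (addP p w.1, w.2) =
      (∫ u in (0 : ℝ)..J, b (Complex.arg (Bp x p w u))) -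
        ∫ u in (0 : ℝ)..J, vf b (HP z) (t - r - u) (Bp x p w u) := by
    unfold Lms_E
    simp only [Lms_path]
    exact intervalIntegral.integral_sub ib iv
  have hq : J - (∫ u in (0 : ℝ)..J, b (Complex.arg (Bp x p w u))) ≤
      (∫ u in (0 : ℝ)..J, c0 α β (r + u) (Bp x p w u).im) +
      ∫ u in (0 : ℝ)..J, max 0 (1 - b (Complex.arg (Bp x p w u)) -
        c0 α β (r + u) (Bp x p w u).im) := by
    have h1 : J - (∫ u in (0 : ℝ)..J, b (Complex.arg (Bp x p w u))) =
        ∫ u in (0 : ℝ)..J, (1 - b (Complex.arg (Bp x p w u))) := by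
      rw [intervalIntegral.integral_sub intervalIntegrable_const ib,
        intervalIntegral.integral_const, sub_zero, smul_eq_mul, mul_one]
    rw [h1, ← intervalIntegral.integral_add ic im]
    refine intervalIntegral.integral_mono_on hJ (intervalIntegrable_const.sub ib) (ic.add im)
      fun u _ => ?_
    have := le_max_right 0 (1 - b (Complex.arg (Bp x p w u)) -
        c0 α β (r + u) (Bp x p w u).im)
    linarith
  have hLw : ∫ s in r..(t - ℓ), c0 α β s (x.im + w.2 (s - r)) =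
      ∫ u in (0 : ℝ)..J, c0 α β (r + u) (Bp x p w u).im := by
    have h1 := intervalIntegral.integral_comp_add_left (a := 0) (b := J)
      (fun s => c0 α β s (x.im + w.2 (s - r))) r
    rw [add_zero] at h1
    have h2 : r + J = t - ℓ := by rw [hJd]; ring
    rw [h2] at h1
    rw [← h1]
    refine intervalIntegral.integral_congr fun u _ => ?_
    simp only [add_sub_cancel_left, Lms_Bp_im]
  -- the sums
  have hnh := H.nh
  have hab := Lms_abel θ (fun k => D - w.1 ((k : ℝ) * h)) n H.hn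
  have hn0 : w.1 ((n : ℝ) * h) = w.1 J := by rw [hnh]
  have h00 : w.1 (((0 : ℕ) : ℝ) * h) = 0 := by
    rw [Nat.cast_zero, zero_mul, Pth.zero]
  rw [hn0, h00] at hab
  have hsum1 : ∑ k ∈ Finset.range n, θ k * ((D - w.1 (((k + 1 : ℕ) : ℝ) * h)) - (D - w.1 ((k : ℝ) * h))) =
      -(∑ k ∈ Finset.range n, θ k * (w.1 ((k + 1) * h) - w.1 (k * h))) := by
    rw [← Finset.sum_neg_distrib]
    refine Finset.sum_congr rfl fun k _ => ?_
    push_cast
    ring
  rw [hsum1] at hab
  have hsq : ∑ k ∈ Finset.range n, θ k ^ 2 =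
      2 * n - 2 * √2 * (∑ k ∈ Finset.range n, (√2 - θ k)) +
        ∑ k ∈ Finset.range n, (√2 - θ k) ^ 2 := by
    have e : ∀ k ∈ Finset.range n, θ k ^ 2 = 2 - 2 * √2 * (√2 - θ k) + (√2 - θ k) ^ 2 := by
      intro k _
      have : √2 * √2 = 2 := Real.mul_self_sqrt (by norm_num)
      nlinarith
    rw [Finset.sum_congr rfl e, Finset.sum_add_distrib, Finset.sum_sub_distrib, ← Finset.mul_sum]
    simp only [Finset.sum_const, Finset.card_range, nsmul_eq_mul]
    ring
  have hds := H.dsum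
  rw [← Finset.sum_mul, ← hJd] at hds
  have hdq := H.dsq
  have hd0 := H.d0 0 H.hn
  have hd0D : 0 ≤ (√2 - θ 0) * D := mul_nonneg hd0 hD.le
  unfold Rb
  rw [hE, hLw, ← hJd]
  have hlast : (∑ k ∈ Finset.range n, θ k ^ 2) * h / 2 =
      J - √2 * ((∑ k ∈ Finset.range n, (√2 - θ k)) * h) +
        (∑ k ∈ Finset.range n, (√2 - θ k) ^ 2) * h / 2 := by
    rw [hsq, hJd, ← hnh]
    ring
  rw [hlast, hds]
  nlinarith [hab, hq, hdq, hd0D]

theorem lmaster {b : ℝ → ℝ} (hb : Rate b) {α β lam a C r t ℓ : ℝ} (hα : 0 < α) (hβ : 0 ≤ β) {n : ℕ} {h : ℝ≥0}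
    {θ : ℕ → ℝ} {p : Pth} (hr : 1 ≤ r) (hℓ : 0 ≤ ℓ) (H : Lc α β lam a C r t ℓ n h θ p) (x : ℂ)
    (hD : 0 < f0 α β lam a t r - x.re) :
    ENNReal.ofReal (Real.exp (√2 * (kap α β lam (t - ℓ) - kap α β lam r) +
        √2 * ((t - ℓ - r) * ((cc α * Real.log t - a) / t)) - C * (r ^ (2 * gg α - 1) + Real.log t ^ 2 / t) -
        √2 * (f0 α β lam a t r - x.re))) *
      ∫⁻ w in {w : P2 | w.1 ∈ Blw (f0 α β lam a t r - x.re) 0 (t - ℓ - r)},
        ENNReal.ofReal (Real.exp (-Rb b α β (mm α β lam t + a) r t ℓ (f0 α β lam a t r - x.re) x n h θ p w)) *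
        ENNReal.ofReal (Real.exp (θ (n - 1) * (f0 α β lam a t r - x.re - w.1 (t - ℓ - r))) *
          vf b (HP (mm α β lam t + a)) ℓ (Bp x p w (t - ℓ - r))) *
        ENNReal.ofReal (Lw α β r (t - ℓ) x.im w.2) ∂W2 ≤
    ENNReal.ofReal (vf b (HP (mm α β lam t + a)) (t - r) x) := by
  set z := mm α β lam t + a with hz
  set D := f0 α β lam a t r - x.re with hDd
  have hJ : 0 ≤ t - ℓ - r := by
    rw [← H.nh]
    have := h.coe_nonneg
    positivity
  refine le_trans ?_ (Lms_one hb z hℓ hJ D x p)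
  set J := t - ℓ - r with hJd
  have hcJ : (((n : ℝ≥0) * h : ℝ≥0) : ℝ) = J := by
    push_cast
    exact H.nh
  have hFm := Lms_F_meas hb z t r ℓ hJ D x p
  -- Cameron-Martin
  set wt : Pth → ℝ≥0∞ := fun w => ENNReal.ofReal (Real.exp
      (-(∑ k ∈ Finset.range n, θ k * (w ((k + 1) * h) - w (k * h))) -
        (∑ k ∈ Finset.range n, θ k ^ 2) * h / 2)) with hwt
  have hwm : Measurable wt := by
    refine ENNReal.measurable_ofReal.comp (Real.measurable_exp.comp (Measurable.sub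
      (Measurable.neg ?_) measurable_const))
    refine Finset.measurable_sum _ fun k _ => ?_
    exact ((Pth.measurable_apply _).sub (Pth.measurable_apply _)).const_mul _
  have hcm : ∫⁻ w, Lms_F b z t r ℓ J D x p w ∂W2 =
      ∫⁻ w : P2, wt w.1 * Lms_F b z t r ℓ J D x p (addP p w.1, w.2) ∂W2 := by
    have hm2 : Measurable fun w : P2 => wt w.1 * Lms_F b z t r ℓ J D x p (addP p w.1, w.2) :=
      (hwm.comp measurable_fst).mul
        (hFm.comp (((addP_meas p).comp measurable_fst).prodMk measurable_snd))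
    unfold W2
    rw [lintegral_prod_symm _ hFm.aemeasurable, lintegral_prod_symm _ hm2.aemeasurable]
    refine lintegral_congr fun w2 => ?_
    exact Lms_cm H.hp (Φ := fun w1 => Lms_F b z t r ℓ J D x p (w1, w2))
      (hFm.comp (measurable_id.prodMk measurable_const))
      (fun w1 => Lms_F_stop b z t r ℓ hJ D x p hcJ w1 w2)
  rw [hcm, ← lintegral_const_mul' _ _ ENNReal.ofReal_ne_top]
  have hset : MeasurableSet {w : P2 | w.1 ∈ Blw D 0 J} := measurable_fst (blw_meas D 0 J)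
  rw [← lintegral_indicator hset]
  refine lintegral_mono fun w => ?_
  by_cases hw : w ∈ {w : P2 | w.1 ∈ Blw D 0 J}
  · rw [Set.indicator_of_mem hw]
    have hev : ∀ s ∈ Icc (0 : ℝ) J, (addP p w.1, w.2).1 s < D + p s := by
      intro s hs
      have h1 : w.1 s < D + 0 * s := hw s hs
      show addP p w.1 s < D + p s
      rw [Bcm_addP_apply]
      linarith
    unfold Lms_F
    rw [if_pos hev, Lms_path]
    unfold Lw
    have hmain := Lms_exp hb hα hβ H x hD hJ z w
    rw [← hJd] at hmain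
    have hv := vf_nonneg b (HP z) ℓ (Bp x p w J)
    rw [← ENNReal.ofReal_mul (Real.exp_pos _).le, ← ENNReal.ofReal_mul
      (mul_nonneg (Real.exp_pos _).le (mul_nonneg (Real.exp_pos _).le hv)),
      ← ENNReal.ofReal_mul (Real.exp_pos _).le, hwt]
    simp only
    rw [← ENNReal.ofReal_mul (Real.exp_pos _).le, ← ENNReal.ofReal_mul (Real.exp_pos _).le]
    refine ENNReal.ofReal_le_ofReal ?_
    have h2 := mul_le_mul_of_nonneg_right (Real.exp_le_exp.2 hmain) hv
    rw [Real.exp_add, Real.exp_add, Real.exp_add, Real.exp_add] at h2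
    refine le_trans (le_of_eq ?_) (h2.trans (le_of_eq ?_))
    · ring
    · ring
  · rw [Set.indicator_of_notMem hw]
    exact zero_le

/-- tangent line inequality -/
theorem jensen_lb {Ω : Type*} [MeasurableSpace Ω] (μ : Measure Ω) {W : Ω → ℝ≥0∞} {R : Ω → ℝ} (hW : Measurable W)
    (hR : Measurable R) (hR0 : ∀ ω, 0 ≤ R ω) (hfin : ∫⁻ ω, W ω ∂μ ≠ ∞) {m : ℝ} (hm : 0 ≤ m)
    (h : ∫⁻ ω, ENNReal.ofReal (R ω) * W ω ∂μ ≤ ENNReal.ofReal m * ∫⁻ ω, W ω ∂μ) :
    ENNReal.ofReal (Real.exp (-m)) * ∫⁻ ω, W ω ∂μ ≤ ∫⁻ ω, ENNReal.ofReal (Real.exp (-R ω)) * W ω ∂μ := by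
  set e : ℝ≥0∞ := ENNReal.ofReal (Real.exp (-m)) with he
  set I : ℝ≥0∞ := ∫⁻ ω, W ω ∂μ with hI
  set K : ℝ≥0∞ := ∫⁻ ω, ENNReal.ofReal (R ω) * W ω ∂μ with hK
  have hefin : e ≠ ∞ := ENNReal.ofReal_ne_top
  have hKfin : e * K ≠ ∞ := by
    refine ENNReal.mul_ne_top hefin (ne_top_of_le_ne_top ?_ h)
    exact ENNReal.mul_ne_top ENNReal.ofReal_ne_top hfin
  have hpt : ∀ ω, e * W ω + e * (ENNReal.ofReal m * W ω) ≤
      ENNReal.ofReal (Real.exp (-R ω)) * W ω + e * (ENNReal.ofReal (R ω) * W ω) := by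
    intro ω
    rw [← mul_assoc, ← mul_assoc, ← add_mul, ← add_mul]
    refine mul_le_mul_left ?_ _
    rw [he, ← ENNReal.ofReal_mul (Real.exp_pos _).le, ← ENNReal.ofReal_mul (Real.exp_pos _).le,
      ← ENNReal.ofReal_add (Real.exp_pos _).le (mul_nonneg (Real.exp_pos _).le hm),
      ← ENNReal.ofReal_add (Real.exp_pos _).le (mul_nonneg (Real.exp_pos _).le (hR0 ω))]
    refine ENNReal.ofReal_le_ofReal ?_
    have h1 : Real.exp (-R ω) = Real.exp (-m) * Real.exp (m - R ω) := by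
      rw [← Real.exp_add]
      congr 1
      ring
    have h2 := Real.add_one_le_exp (m - R ω)
    have h3 := mul_le_mul_of_nonneg_left h2 (Real.exp_pos (-m)).le
    rw [h1]
    linarith
  have h1 := lintegral_mono (μ := μ) hpt
  have mRW : Measurable fun ω => ENNReal.ofReal (R ω) * W ω :=
    (ENNReal.measurable_ofReal.comp hR).mul hW
  rw [lintegral_add_left (hW.const_mul _), lintegral_add_right _ (mRW.const_mul _),
    lintegral_const_mul' _ _ hefin, lintegral_const_mul' _ _ hefin,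
    lintegral_const_mul' _ _ hefin, lintegral_const_mul' _ _ ENNReal.ofReal_ne_top] at h1
  rw [← hI, ← hK] at h1
  have h2 : e * I + e * K ≤ (∫⁻ ω, ENNReal.ofReal (Real.exp (-R ω)) * W ω ∂μ) + e * K := by
    refine le_trans ?_ h1
    exact add_le_add_right (mul_le_mul_right h _) _
  exact (ENNReal.add_le_add_iff_right hKfin).1 h2

end Pool.H50.BB
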