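import Pool.Agent.H50.BB.Bmo
import Pool.Agent.H50.BB.Bmk

/-!
# Row Lxx: radial expectations under the weighted killed motion   (about 230 lines)

`w0 ≥ 0` measurable, `w0 d = 0` unless `0 < d ≤ Dm`; `I0 = ∫⁻ d in Ioi 0, ofReal d * w0 d` (finite or not).  `D, Dm ≥ 1`, `J ≥ 1`.  `X_σ(ψ) = ∫⁻ w in Blw D 0 J, ψ (D - w σ) * w0 (D - w J) ∂Wm`.
`x_tot`: `refl_lint` and `kk_le`: `∫⁻ w in Blw D 0 J, w0 (D - w J) ≤ ofReal (√(2/π) D J^{-3/2}) I0`.
`x_low`: `kk_ge` and `D² + d² ≤ D² + Dm²` on the support.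
`kk_two` for `0 < σ < J`: `X_σ(ψ) = ∫⁻ d1, ψ d1 kk σ D d1 (∫⁻ d2, w0 d2 kk (J-σ) d1 d2)`.
First half `σ ≤ J/2`: `kk (J-σ) d1 d2 ≤ √(2/π) d1 d2 (J/2)^{-3/2}` (`kk_le`, monotone): `X_σ(ψ) ≤ C J^{-3/2} I0 ∫⁻ ψ(d) d kk σ D d`.
Second half: `kk σ D d1 ≤ √(2/π) D d1 (J/2)^{-3/2}`: `X_σ(ψ) ≤ C D J^{-3/2} ∫⁻ d2, w0 d2 ∫⁻ d1, ψ(d1) d1 kk (J-σ) d1 d2` (`kk_symm`).
`ψ = d`: `kk_mom2`: `∫ d² kk σ D d ≤ 2D √(σ+D²)`, resp. `≤ 2 d2 √(J-σ+d2²) ≤ 2 d2 (√(2σ) + Dm)` for `σ ≥ J/2`: `x_one`.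
`ψ = d^4`: `kk_mom5`: `∫ d^5 kk ≤ 15 D (D²+σ)²`: `x_four`.
`ψ = (1+d) e^{-√2 d}`: integrate over `σ` first (Tonelli), `kk_green`: `∫_0^∞ kk σ D d dσ ≤ 2 min D d`; `∫⁻ 2 min(D,d) d (1+d) e^{-√2 d} dd ≤ C` (`min ≤ d`) gives `x_exp1` (no factor `D`); in the second half
`∫⁻ 2 min(d1,d2) d1 (1+d1) e^{-√2 d1} ≤ C d2`: `x_exp2`.
All measurability: `kk` is jointly measurable.
-/

open MeasureTheory ProbabilityTheory Set Filter Topology
open scoped NNReal ENNReal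

namespace Pool.H50.BB

open Pool.Agent.H4.BM

/-- mass of the final weight -/
noncomputable def I0 (w0 : ℝ → ℝ≥0∞) : ℝ≥0∞ := ∫⁻ d in Ioi (0 : ℝ), ENNReal.ofReal d * w0 d

theorem Lxx_c {J T : ℝ} (hJ : 0 < J) (hT : J ≤ 2 * T) :
    √(2 / Real.pi) * (J * √J) ≤ 3 * (T * √T) := by
  have hT0 : 0 < T := by linarith
  have hpi := Real.pi_gt_three
  have ha : √J ^ 2 = J := Real.sq_sqrt hJ.le
  have hb : √T ^ 2 = T := Real.sq_sqrt hT0.le
  have hs : √(2 / Real.pi) ^ 2 = 2 / Real.pi := Real.sq_sqrt (by positivity)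
  refine (sq_le_sq₀ (by positivity) (by positivity)).1 ?_
  have e1 : (√(2 / Real.pi) * (J * √J)) ^ 2 = √(2 / Real.pi) ^ 2 * (J ^ 2 * √J ^ 2) := by ring
  have e2 : (3 * (T * √T)) ^ 2 = 9 * (T ^ 2 * √T ^ 2) := by ring
  rw [e1, e2, ha, hb, hs]
  have h1 : J ^ 3 ≤ (2 * T) ^ 3 := pow_le_pow_left₀ hJ.le hT 3
  have h2 : 2 / Real.pi ≤ 1 := by
    rw [div_le_one (by linarith)]
    linarith
  have h3 : 0 ≤ J ^ 3 := by positivity
  have h4 : 2 / Real.pi * J ^ 3 ≤ J ^ 3 := by nlinarith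
  have h5 : 0 < T ^ 3 := by positivity
  calc 2 / Real.pi * (J ^ 2 * J) = 2 / Real.pi * J ^ 3 := by ring
    _ ≤ J ^ 3 := h4
    _ ≤ (2 * T) ^ 3 := h1
    _ = 8 * T ^ 3 := by ring
    _ ≤ 9 * (T ^ 2 * T) := by nlinarith

theorem Lxx_kk {J T D d : ℝ} (hJ : 0 < J) (hT : J ≤ 2 * T) (hD : 0 ≤ D) (hd : 0 ≤ d) :
    kk T D d ≤ 3 * D * d / (J * √J) := by
  have hT0 : 0 < T := by linarith
  refine (kk_le hT0 hD hd).trans ?_
  have hJs : 0 < √J := Real.sqrt_pos.2 hJ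
  have hTs : 0 < √T := Real.sqrt_pos.2 hT0
  rw [div_le_div_iff₀ (by positivity) (by positivity)]
  have h := mul_le_mul_of_nonneg_left (Lxx_c hJ hT) (mul_nonneg hD hd)
  calc √(2 / Real.pi) * D * d * (J * √J) = D * d * (√(2 / Real.pi) * (J * √J)) := by ring
    _ ≤ D * d * (3 * (T * √T)) := h
    _ = 3 * D * d * (T * √T) := by ring

theorem Lxx_m2 : Measurable (fun p : ℝ × ℝ × ℝ => kk p.1 p.2.1 p.2.2) := by
  unfold kk gd
  fun_prop

theorem Lxx_mk (T D : ℝ) : Measurable (fun d : ℝ => kk T D d) :=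
  Lxx_m2.comp (measurable_const.prodMk (measurable_const.prodMk measurable_id))

theorem Lxx_I0 {w0 : ℝ → ℝ≥0∞} (hw : Measurable w0) (c : ℝ≥0∞) :
    c * I0 w0 = ∫⁻ d in Ioi (0 : ℝ), c * (ENNReal.ofReal d * w0 d) := by
  have hm : Measurable (fun d : ℝ => ENNReal.ofReal d * w0 d) := measurable_id.ennreal_ofReal.mul hw
  rw [I0, lintegral_const_mul _ hm]

theorem x_tot {w0 : ℝ → ℝ≥0∞} (hw : Measurable w0) {D J : ℝ} (hD : 0 < D) (hJ : 0 < J) :
    ∫⁻ w in Blw D 0 J, w0 (D - w J) ∂Wm ≤ ENNReal.ofReal (√(2 / Real.pi) * D / (J * √J)) * I0 w0 := by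
  rw [refl_lint hJ hD hw, Lxx_I0 hw]
  refine setLIntegral_mono' measurableSet_Ioi fun d hd => ?_
  have hd0 : 0 < d := hd
  rw [← mul_assoc, ← ENNReal.ofReal_mul (by positivity), mul_comm]
  refine mul_le_mul_left (ENNReal.ofReal_le_ofReal ?_) _
  refine (kk_le hJ hD.le hd0.le).trans (le_of_eq ?_)
  ring

theorem x_low {w0 : ℝ → ℝ≥0∞} (hw : Measurable w0) {D J Dm : ℝ} (hD : 0 < D) (hJ : 0 < J)
    (hs : ∀ d, Dm < d → w0 d = 0) :
    ENNReal.ofReal (√(2 / Real.pi) * D / (J * √J) * Real.exp (-(D ^ 2 + Dm ^ 2) / (2 * J))) * I0 w0 ≤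
      ∫⁻ w in Blw D 0 J, w0 (D - w J) ∂Wm := by
  rw [refl_lint hJ hD hw, Lxx_I0 hw]
  refine setLIntegral_mono' measurableSet_Ioi fun d hd => ?_
  have hd0 : 0 < d := hd
  rcases lt_or_ge Dm d with h | h
  · rw [hs d h, mul_zero, mul_zero, zero_mul]
  rw [← mul_assoc, ← ENNReal.ofReal_mul (by positivity), mul_comm (w0 d)]
  refine mul_le_mul_left (ENNReal.ofReal_le_ofReal ?_) _
  refine le_trans ?_ (kk_ge hJ hD.le hd0.le)
  have h1 : Real.exp (-(D ^ 2 + Dm ^ 2) / (2 * J)) ≤ Real.exp (-(D ^ 2 + d ^ 2) / (2 * J)) := by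
    rw [Real.exp_le_exp]
    refine div_le_div_of_nonneg_right ?_ (by positivity)
    nlinarith
  have h2 : 0 ≤ √(2 / Real.pi) * D * d / (J * √J) := by positivity
  calc √(2 / Real.pi) * D / (J * √J) * Real.exp (-(D ^ 2 + Dm ^ 2) / (2 * J)) * d
      = √(2 / Real.pi) * D * d / (J * √J) * Real.exp (-(D ^ 2 + Dm ^ 2) / (2 * J)) := by ring
    _ ≤ _ := mul_le_mul_of_nonneg_left h1 h2

/-- first half -/
theorem Lxx_A {w0 g : ℝ → ℝ≥0∞} (hw : Measurable w0) (hg : Measurable g) {D J σ : ℝ} (hD : 0 < D)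
    (hσ : 0 < σ) (hσJ : σ ≤ J / 2) :
    ∫⁻ w in Blw D 0 J, g (D - w σ) * w0 (D - w J) ∂Wm ≤
      ENNReal.ofReal (3 / (J * √J)) * I0 w0 * ∫⁻ d in Ioi (0 : ℝ), g d * ENNReal.ofReal (kk σ D d * d) := by
  have hJ : 0 < J := by linarith
  rw [kk_two hσ (by linarith) hD hw hg]
  have hm : Measurable (fun d : ℝ => g d * ENNReal.ofReal (kk σ D d * d)) :=
    hg.mul ((Lxx_mk σ D).mul measurable_id).ennreal_ofReal
  rw [← lintegral_const_mul _ hm]
  refine setLIntegral_mono' measurableSet_Ioi fun d1 hd1 => ?_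
  have hd0 : 0 < d1 := hd1
  have h1 : ∫⁻ d2 in Ioi (0 : ℝ), w0 d2 * ENNReal.ofReal (kk (J - σ) d1 d2) ≤
      ENNReal.ofReal (3 / (J * √J) * d1) * I0 w0 := by
    rw [Lxx_I0 hw]
    refine setLIntegral_mono' measurableSet_Ioi fun d2 hd2 => ?_
    have hd20 : 0 < d2 := hd2
    rw [← mul_assoc, ← ENNReal.ofReal_mul (by positivity), mul_comm]
    refine mul_le_mul_left (ENNReal.ofReal_le_ofReal ?_) _
    refine (Lxx_kk hJ (by linarith) hd0.le hd20.le).trans (le_of_eq ?_)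
    ring
  refine (mul_le_mul_right h1 _).trans (le_of_eq ?_)
  have h2 : 0 ≤ 3 / (J * √J) := by positivity
  rw [ENNReal.ofReal_mul h2, ENNReal.ofReal_mul (kk_nonneg hσ hD.le hd0.le)]
  ring

/-- second half -/
theorem Lxx_B {w0 g : ℝ → ℝ≥0∞} (hw : Measurable w0) (hg : Measurable g) {D J σ : ℝ} (hD : 0 < D)
    (hJ : 0 < J) (hσJ : J / 2 ≤ σ) (hσ : σ < J) :
    ∫⁻ w in Blw D 0 J, g (D - w σ) * w0 (D - w J) ∂Wm ≤
      ENNReal.ofReal (3 * D / (J * √J)) *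
        ∫⁻ d2 in Ioi (0 : ℝ), w0 d2 * ∫⁻ d in Ioi (0 : ℝ), g d * ENNReal.ofReal (kk (J - σ) d2 d * d) := by
  have hσ0 : 0 < σ := by linarith
  rw [kk_two hσ0 hσ hD hw hg]
  have hin : ∀ d2 : ℝ, w0 d2 * ∫⁻ d in Ioi (0 : ℝ), g d * ENNReal.ofReal (kk (J - σ) d2 d * d) =
      ∫⁻ d in Ioi (0 : ℝ), w0 d2 * (g d * ENNReal.ofReal (kk (J - σ) d2 d * d)) := fun d2 =>
    (lintegral_const_mul _ (hg.mul ((Lxx_mk (J - σ) d2).mul measurable_id).ennreal_ofReal)).symm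
  have hk2 : Measurable (fun p : ℝ × ℝ => kk (J - σ) p.1 p.2) :=
    Lxx_m2.comp (measurable_const.prodMk (measurable_fst.prodMk measurable_snd))
  rw [lintegral_congr hin, lintegral_lintegral_swap]
  · rw [← lintegral_const_mul]
    · refine setLIntegral_mono' measurableSet_Ioi fun d1 hd1 => ?_
      have hd0 : 0 < d1 := hd1
      have h1 : ENNReal.ofReal (kk σ D d1) ≤ ENNReal.ofReal (3 * D / (J * √J)) * ENNReal.ofReal d1 := by
        rw [← ENNReal.ofReal_mul (by positivity)]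
        refine ENNReal.ofReal_le_ofReal ?_
        refine (Lxx_kk hJ (by linarith) hD.le hd0.le).trans (le_of_eq ?_)
        ring
      refine (mul_le_mul_left (mul_le_mul_right h1 (g d1)) _).trans (le_of_eq ?_)
      have hma : Measurable (fun d2 : ℝ => w0 d2 * ENNReal.ofReal (kk (J - σ) d1 d2)) :=
        hw.mul (Lxx_mk (J - σ) d1).ennreal_ofReal
      have hmb : Measurable (fun d2 : ℝ => w0 d2 * (g d1 * ENNReal.ofReal (kk (J - σ) d2 d1 * d1))) :=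
        hw.mul (measurable_const.mul
          ((hk2.comp (measurable_id.prodMk measurable_const)).mul measurable_const).ennreal_ofReal)
      rw [← lintegral_const_mul _ hma, ← lintegral_const_mul _ hmb]
      refine setLIntegral_congr_fun measurableSet_Ioi fun d2 hd2 => ?_
      have hd20 : 0 < d2 := hd2
      show g d1 * (ENNReal.ofReal (3 * D / (J * √J)) * ENNReal.ofReal d1) *
        (w0 d2 * ENNReal.ofReal (kk (J - σ) d1 d2)) = ENNReal.ofReal (3 * D / (J * √J)) *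
        (w0 d2 * (g d1 * ENNReal.ofReal (kk (J - σ) d2 d1 * d1)))
      rw [kk_symm (J - σ) d2 d1, ENNReal.ofReal_mul (kk_nonneg (by linarith) hd0.le hd20.le)]
      ring
    · have h2 : Measurable (fun p : ℝ × ℝ => w0 p.2 * (g p.1 * ENNReal.ofReal (kk (J - σ) p.2 p.1 * p.1))) :=
        (hw.comp measurable_snd).mul ((hg.comp measurable_fst).mul
          ((hk2.comp (measurable_snd.prodMk measurable_fst)).mul measurable_fst).ennreal_ofReal)
      exact h2.lintegral_prod_right' (ν := volume.restrict (Ioi (0 : ℝ)))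
  · refine Measurable.aemeasurable ?_
    exact (hw.comp measurable_fst).mul ((hg.comp measurable_snd).mul
      (hk2.mul measurable_snd).ennreal_ofReal)

theorem Lxx_sqrt {a b : ℝ} (ha : 0 ≤ a) (hb : 0 ≤ b) : √(a + b ^ 2) ≤ √a + b := by
  rw [Real.sqrt_le_left (by positivity)]
  have h := Real.sq_sqrt ha
  nlinarith [mul_nonneg (Real.sqrt_nonneg a) hb]

theorem x_one : ∃ C > 0, ∀ (w0 : ℝ → ℝ≥0∞), Measurable w0 → ∀ D J Dm σ : ℝ, 1 ≤ D → 1 ≤ Dm → 0 < σ → σ < J →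
    (∀ d, Dm < d → w0 d = 0) →
    ∫⁻ w in Blw D 0 J, ENNReal.ofReal (D - w σ) * w0 (D - w J) ∂Wm ≤
      ENNReal.ofReal (C * (D + Dm + √σ) * (D / (J * √J))) * I0 w0 := by
  refine ⟨6, by norm_num, fun w0 hw D J Dm σ hD hDm hσ hσJ hs => ?_⟩
  have hJ : 0 < J := hσ.trans hσJ
  have hD0 : 0 < D := by linarith
  have hJs : 0 < √J := Real.sqrt_pos.2 hJ
  have hg : Measurable (fun d : ℝ => ENNReal.ofReal d) := measurable_id.ennreal_ofReal
  rcases le_total σ (J / 2) with h | h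
  · refine (Lxx_A hw hg hD0 hσ h).trans ?_
    have h1 : ∫⁻ d in Ioi (0 : ℝ), ENNReal.ofReal d * ENNReal.ofReal (kk σ D d * d) ≤
        ENNReal.ofReal (2 * D * √(σ + D ^ 2)) := by
      refine le_trans (le_of_eq ?_) (kk_mom2 hσ hD0.le)
      refine setLIntegral_congr_fun measurableSet_Ioi fun d hd => ?_
      have hd0 : 0 < d := hd
      show ENNReal.ofReal d * ENNReal.ofReal (kk σ D d * d) = ENNReal.ofReal (kk σ D d * d ^ 2)
      rw [← ENNReal.ofReal_mul hd0.le]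
      congr 1
      ring
    refine (mul_le_mul_right h1 _).trans ?_
    rw [mul_right_comm, ← ENNReal.ofReal_mul (by positivity)]
    refine mul_le_mul_left (ENNReal.ofReal_le_ofReal ?_) _
    have h2 := Lxx_sqrt hσ.le hD0.le
    have h3 : 0 ≤ 6 * (D / (J * √J)) := by positivity
    calc 3 / (J * √J) * (2 * D * √(σ + D ^ 2)) = 6 * (D / (J * √J)) * √(σ + D ^ 2) := by ring
      _ ≤ 6 * (D / (J * √J)) * (D + Dm + √σ) := mul_le_mul_of_nonneg_left (by linarith) h3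
      _ = 6 * (D + Dm + √σ) * (D / (J * √J)) := by ring
  · refine (Lxx_B hw hg hD0 hJ h hσJ).trans ?_
    have h1 : ∫⁻ d2 in Ioi (0 : ℝ), w0 d2 * ∫⁻ d in Ioi (0 : ℝ), ENNReal.ofReal d *
        ENNReal.ofReal (kk (J - σ) d2 d * d) ≤ ENNReal.ofReal (2 * (√σ + Dm)) * I0 w0 := by
      rw [Lxx_I0 hw]
      refine setLIntegral_mono' measurableSet_Ioi fun d2 hd2 => ?_
      have hd20 : 0 < d2 := hd2
      rcases lt_or_ge Dm d2 with h2 | h2
      · rw [hs d2 h2, zero_mul, mul_zero, mul_zero]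
      have h3 : ∫⁻ d in Ioi (0 : ℝ), ENNReal.ofReal d * ENNReal.ofReal (kk (J - σ) d2 d * d) ≤
          ENNReal.ofReal (2 * d2 * √(J - σ + d2 ^ 2)) := by
        refine le_trans (le_of_eq ?_) (kk_mom2 (by linarith) hd20.le)
        refine setLIntegral_congr_fun measurableSet_Ioi fun d hd => ?_
        have hd0 : 0 < d := hd
        show ENNReal.ofReal d * ENNReal.ofReal (kk (J - σ) d2 d * d) =
          ENNReal.ofReal (kk (J - σ) d2 d * d ^ 2)
        rw [← ENNReal.ofReal_mul hd0.le]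
        congr 1
        ring
      refine (mul_le_mul_right h3 _).trans ?_
      rw [← mul_assoc, ← ENNReal.ofReal_mul (by positivity), mul_comm (w0 d2)]
      refine mul_le_mul_left (ENNReal.ofReal_le_ofReal ?_) _
      have h4 : √(J - σ + d2 ^ 2) ≤ √σ + Dm := by
        have h5 := Lxx_sqrt (a := J - σ) (by linarith) hd20.le
        have h6 : √(J - σ) ≤ √σ := Real.sqrt_le_sqrt (by linarith)
        linarith
      calc 2 * d2 * √(J - σ + d2 ^ 2) ≤ 2 * d2 * (√σ + Dm) :=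
            mul_le_mul_of_nonneg_left h4 (by positivity)
        _ = 2 * (√σ + Dm) * d2 := by ring
    refine (mul_le_mul_right h1 _).trans ?_
    rw [← mul_assoc, ← ENNReal.ofReal_mul (by positivity)]
    refine mul_le_mul_left (ENNReal.ofReal_le_ofReal ?_) _
    have h3 : 0 ≤ 6 * (D / (J * √J)) := by positivity
    calc 3 * D / (J * √J) * (2 * (√σ + Dm)) = 6 * (D / (J * √J)) * (√σ + Dm) := by ring
      _ ≤ 6 * (D / (J * √J)) * (D + Dm + √σ) := mul_le_mul_of_nonneg_left (by linarith) h3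
      _ = 6 * (D + Dm + √σ) * (D / (J * √J)) := by ring

theorem Lxx_five {D T : ℝ} (hT : 0 < T) (hD : 0 ≤ D) :
    ∫⁻ d in Ioi (0 : ℝ), ENNReal.ofReal (d ^ 4) * ENNReal.ofReal (kk T D d * d) ≤
      ENNReal.ofReal (15 * D * (D ^ 2 + T) ^ 2) := by
  have e : ∫⁻ d in Ioi (0 : ℝ), ENNReal.ofReal (d ^ 4) * ENNReal.ofReal (kk T D d * d) =
      ∫⁻ d in Ioi (0 : ℝ), ENNReal.ofReal (kk T D d * d ^ 5) := by
    refine setLIntegral_congr_fun measurableSet_Ioi fun d hd => ?_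
    have hd0 : 0 < d := hd
    show ENNReal.ofReal (d ^ 4) * ENNReal.ofReal (kk T D d * d) = ENNReal.ofReal (kk T D d * d ^ 5)
    rw [← ENNReal.ofReal_mul (by positivity)]
    congr 1
    ring
  rw [e, kk_mom5 hT hD]
  refine ENNReal.ofReal_le_ofReal ?_
  have h1 : 0 ≤ D ^ 5 := by positivity
  have h2 : 0 ≤ D ^ 3 * T := by positivity
  have e2 : 15 * D * (D ^ 2 + T) ^ 2 = 15 * D ^ 5 + 30 * (D ^ 3 * T) + 15 * D * T ^ 2 := by ring
  rw [e2]
  have e3 : 10 * D ^ 3 * T = 10 * (D ^ 3 * T) := by ring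
  rw [e3]
  linarith

theorem x_four : ∃ C > 0, ∀ (w0 : ℝ → ℝ≥0∞), Measurable w0 → ∀ D J Dm σ : ℝ, 1 ≤ D → 1 ≤ Dm → 0 < σ → σ < J →
    (∀ d, Dm < d → w0 d = 0) →
    ∫⁻ w in Blw D 0 J, ENNReal.ofReal ((D - w σ) ^ 4) * w0 (D - w J) ∂Wm ≤
      ENNReal.ofReal (C * (D ^ 2 + Dm ^ 2 + σ) ^ 2 * (D / (J * √J))) * I0 w0 := by
  refine ⟨45, by norm_num, fun w0 hw D J Dm σ hD hDm hσ hσJ hs => ?_⟩
  have hJ : 0 < J := hσ.trans hσJ
  have hD0 : 0 < D := by linarith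
  have hJs : 0 < √J := Real.sqrt_pos.2 hJ
  have hg : Measurable (fun d : ℝ => ENNReal.ofReal (d ^ 4)) := (measurable_id.pow_const 4).ennreal_ofReal
  have h3 : 0 ≤ 45 * (D / (J * √J)) := by positivity
  rcases le_total σ (J / 2) with h | h
  · refine (Lxx_A hw hg hD0 hσ h).trans ?_
    refine (mul_le_mul_right (Lxx_five hσ hD0.le) _).trans ?_
    rw [mul_right_comm, ← ENNReal.ofReal_mul (by positivity)]
    refine mul_le_mul_left (ENNReal.ofReal_le_ofReal ?_) _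
    calc 3 / (J * √J) * (15 * D * (D ^ 2 + σ) ^ 2) = 45 * (D / (J * √J)) * (D ^ 2 + σ) ^ 2 := by ring
      _ ≤ 45 * (D / (J * √J)) * (D ^ 2 + Dm ^ 2 + σ) ^ 2 := by
        refine mul_le_mul_of_nonneg_left (pow_le_pow_left₀ (by positivity) ?_ 2) h3
        nlinarith
      _ = 45 * (D ^ 2 + Dm ^ 2 + σ) ^ 2 * (D / (J * √J)) := by ring
  · refine (Lxx_B hw hg hD0 hJ h hσJ).trans ?_
    have h1 : ∫⁻ d2 in Ioi (0 : ℝ), w0 d2 * ∫⁻ d in Ioi (0 : ℝ), ENNReal.ofReal (d ^ 4) *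
        ENNReal.ofReal (kk (J - σ) d2 d * d) ≤ ENNReal.ofReal (15 * (Dm ^ 2 + σ) ^ 2) * I0 w0 := by
      rw [Lxx_I0 hw]
      refine setLIntegral_mono' measurableSet_Ioi fun d2 hd2 => ?_
      have hd20 : 0 < d2 := hd2
      rcases lt_or_ge Dm d2 with h2 | h2
      · rw [hs d2 h2, zero_mul, mul_zero, mul_zero]
      refine (mul_le_mul_right (Lxx_five (by linarith) hd20.le) _).trans ?_
      rw [← mul_assoc, ← ENNReal.ofReal_mul (by positivity), mul_comm (w0 d2)]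
      refine mul_le_mul_left (ENNReal.ofReal_le_ofReal ?_) _
      have h4 : (d2 ^ 2 + (J - σ)) ^ 2 ≤ (Dm ^ 2 + σ) ^ 2 := by
        refine pow_le_pow_left₀ (add_nonneg (sq_nonneg _) (by linarith)) ?_ 2
        have h5 : d2 ^ 2 ≤ Dm ^ 2 := pow_le_pow_left₀ hd20.le h2 2
        linarith
      calc 15 * d2 * (d2 ^ 2 + (J - σ)) ^ 2 ≤ 15 * d2 * (Dm ^ 2 + σ) ^ 2 :=
            mul_le_mul_of_nonneg_left h4 (by positivity)
        _ = 15 * (Dm ^ 2 + σ) ^ 2 * d2 := by ring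
    refine (mul_le_mul_right h1 _).trans ?_
    rw [← mul_assoc, ← ENNReal.ofReal_mul (by positivity)]
    refine mul_le_mul_left (ENNReal.ofReal_le_ofReal ?_) _
    calc 3 * D / (J * √J) * (15 * (Dm ^ 2 + σ) ^ 2) = 45 * (D / (J * √J)) * (Dm ^ 2 + σ) ^ 2 := by ring
      _ ≤ 45 * (D / (J * √J)) * (D ^ 2 + Dm ^ 2 + σ) ^ 2 := by
        refine mul_le_mul_of_nonneg_left (pow_le_pow_left₀ (by positivity) ?_ 2) h3
        nlinarith
      _ = 45 * (D ^ 2 + Dm ^ 2 + σ) ^ 2 * (D / (J * √J)) := by ring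

/-- the exponential weight -/
noncomputable def Lxx_psi (d : ℝ) : ℝ := (1 + d) * Real.exp (-√2 * d)

theorem Lxx_psi_meas : Measurable Lxx_psi := by
  unfold Lxx_psi
  fun_prop

theorem Lxx_int : ∃ C > 0, (∫⁻ d in Ioi (0 : ℝ), ENNReal.ofReal (Lxx_psi d * d * (2 * d)) ≤ ENNReal.ofReal C) ∧
    ∫⁻ d in Ioi (0 : ℝ), ENNReal.ofReal (Lxx_psi d * d * 2) ≤ ENNReal.ofReal C := by
  have hs : (0 : ℝ) < √2 := by positivity
  have hI : ∀ n : ℕ, IntegrableOn (fun d : ℝ => d ^ n * Real.exp (-√2 * d)) (Ioi 0) := by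
    intro n
    have h := integrableOn_rpow_mul_exp_neg_mul_rpow (p := 1) (s := (n : ℝ)) (b := √2)
      (by have : (0 : ℝ) ≤ n := Nat.cast_nonneg n
          linarith) one_pos hs
    refine h.congr_fun (fun d hd => ?_) measurableSet_Ioi
    simp only [Real.rpow_natCast, Real.rpow_one]
  have h1 : IntegrableOn (fun d : ℝ => Lxx_psi d * d * (2 * d)) (Ioi 0) := by
    have h3 : IntegrableOn (fun d : ℝ => 2 * (d ^ 2 * Real.exp (-√2 * d)) +
        2 * (d ^ 3 * Real.exp (-√2 * d))) (Ioi 0) := ((hI 2).const_mul 2).add ((hI 3).const_mul 2)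
    refine h3.congr_fun (fun d _ => ?_) measurableSet_Ioi
    simp only [Lxx_psi]
    ring
  have h2 : IntegrableOn (fun d : ℝ => Lxx_psi d * d * 2) (Ioi 0) := by
    have h3 : IntegrableOn (fun d : ℝ => 2 * (d ^ 1 * Real.exp (-√2 * d)) +
        2 * (d ^ 2 * Real.exp (-√2 * d))) (Ioi 0) := ((hI 1).const_mul 2).add ((hI 2).const_mul 2)
    refine h3.congr_fun (fun d _ => ?_) measurableSet_Ioi
    simp only [Lxx_psi]
    ring
  have n1 : 0 ≤ᵐ[volume.restrict (Ioi (0 : ℝ))] fun d : ℝ => Lxx_psi d * d * (2 * d) := by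
    filter_upwards [ae_restrict_mem measurableSet_Ioi] with d hd
    have hd0 : 0 < d := hd
    show 0 ≤ Lxx_psi d * d * (2 * d)
    unfold Lxx_psi
    positivity
  have n2 : 0 ≤ᵐ[volume.restrict (Ioi (0 : ℝ))] fun d : ℝ => Lxx_psi d * d * 2 := by
    filter_upwards [ae_restrict_mem measurableSet_Ioi] with d hd
    have hd0 : 0 < d := hd
    show 0 ≤ Lxx_psi d * d * 2
    unfold Lxx_psi
    positivity
  set a : ℝ := ∫ d in Ioi (0 : ℝ), Lxx_psi d * d * (2 * d) with ha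
  set b : ℝ := ∫ d in Ioi (0 : ℝ), Lxx_psi d * d * 2 with hb
  have ha0 : 0 ≤ a := integral_nonneg_of_ae n1
  have hb0 : 0 ≤ b := integral_nonneg_of_ae n2
  refine ⟨a + b + 1, by linarith, ?_, ?_⟩
  · rw [← ofReal_integral_eq_lintegral_ofReal h1 n1]
    exact ENNReal.ofReal_le_ofReal (by linarith)
  · rw [← ofReal_integral_eq_lintegral_ofReal h2 n2]
    exact ENNReal.ofReal_le_ofReal (by linarith)

theorem x_exp1 : ∃ C > 0, ∀ (w0 : ℝ → ℝ≥0∞), Measurable w0 → ∀ D J : ℝ, 1 ≤ D → 0 < J →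
    ∫⁻ σ in Ioc 0 (J / 2), (∫⁻ w in Blw D 0 J, ENNReal.ofReal ((1 + (D - w σ)) * Real.exp (-√2 * (D - w σ))) *
      w0 (D - w J) ∂Wm) ≤ ENNReal.ofReal (C / (J * √J)) * I0 w0 := by
  obtain ⟨C1, hC1, hI1, -⟩ := Lxx_int
  refine ⟨3 * C1, by positivity, fun w0 hw D J hD hJ => ?_⟩
  have hD0 : 0 < D := by linarith
  have hJs : 0 < √J := Real.sqrt_pos.2 hJ
  have hg : Measurable (fun d : ℝ => ENNReal.ofReal (Lxx_psi d)) := Lxx_psi_meas.ennreal_ofReal
  have hk3 : Measurable (fun p : ℝ × ℝ => kk p.1 D p.2) :=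
    Lxx_m2.comp (measurable_fst.prodMk (measurable_const.prodMk measurable_snd))
  have hm2 : Measurable (fun p : ℝ × ℝ => ENNReal.ofReal (Lxx_psi p.2) *
      ENNReal.ofReal (kk p.1 D p.2 * p.2)) :=
    (hg.comp measurable_snd).mul (hk3.mul measurable_snd).ennreal_ofReal
  have h1 : ∫⁻ σ in Ioc 0 (J / 2), (∫⁻ w in Blw D 0 J, ENNReal.ofReal ((1 + (D - w σ)) *
      Real.exp (-√2 * (D - w σ))) * w0 (D - w J) ∂Wm) ≤
      ∫⁻ σ in Ioc 0 (J / 2), ENNReal.ofReal (3 / (J * √J)) * I0 w0 *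
        ∫⁻ d in Ioi (0 : ℝ), ENNReal.ofReal (Lxx_psi d) * ENNReal.ofReal (kk σ D d * d) := by
    refine setLIntegral_mono' measurableSet_Ioc fun σ hσ => ?_
    exact Lxx_A hw hg hD0 hσ.1 hσ.2
  refine h1.trans ?_
  have hm3 : Measurable (fun σ : ℝ => ∫⁻ d in Ioi (0 : ℝ), ENNReal.ofReal (Lxx_psi d) *
      ENNReal.ofReal (kk σ D d * d)) :=
    hm2.lintegral_prod_right' (ν := volume.restrict (Ioi (0 : ℝ)))
  rw [lintegral_const_mul _ hm3]
  have h2 : ∫⁻ σ in Ioc 0 (J / 2), ∫⁻ d in Ioi (0 : ℝ), ENNReal.ofReal (Lxx_psi d) *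
      ENNReal.ofReal (kk σ D d * d) ≤ ENNReal.ofReal C1 := by
    refine le_trans (lintegral_mono_set (s := Ioc 0 (J / 2)) (t := Ioi 0) (fun σ hσ => hσ.1)) ?_
    rw [lintegral_lintegral_swap hm2.aemeasurable]
    refine le_trans (setLIntegral_mono' measurableSet_Ioi fun d hd => ?_) hI1
    have hd0 : 0 < d := hd
    have hψ : 0 ≤ Lxx_psi d := by
      unfold Lxx_psi
      positivity
    have e1 : ∫⁻ σ in Ioi (0 : ℝ), ENNReal.ofReal (Lxx_psi d) * ENNReal.ofReal (kk σ D d * d) =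
        ENNReal.ofReal (Lxx_psi d * d) * ∫⁻ σ in Ioi (0 : ℝ), ENNReal.ofReal (kk σ D d) := by
      have hkm : Measurable (fun σ : ℝ => ENNReal.ofReal (kk σ D d)) :=
        (Lxx_m2.comp (f := fun σ : ℝ => (σ, D, d)) (by fun_prop)).ennreal_ofReal
      rw [← lintegral_const_mul _ hkm]
      refine setLIntegral_congr_fun measurableSet_Ioi fun σ hσ => ?_
      have hσ0 : 0 < σ := hσ
      show ENNReal.ofReal (Lxx_psi d) * ENNReal.ofReal (kk σ D d * d) =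
        ENNReal.ofReal (Lxx_psi d * d) * ENNReal.ofReal (kk σ D d)
      rw [← ENNReal.ofReal_mul hψ, ← ENNReal.ofReal_mul (mul_nonneg hψ hd0.le)]
      congr 1
      ring
    rw [e1]
    refine (mul_le_mul_right (kk_green hD0 hd0) _).trans ?_
    rw [← ENNReal.ofReal_mul (mul_nonneg hψ hd0.le)]
    refine ENNReal.ofReal_le_ofReal ?_
    refine mul_le_mul_of_nonneg_left ?_ (mul_nonneg hψ hd0.le)
    have := min_le_right D d
    linarith
  refine (mul_le_mul_right h2 _).trans ?_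
  rw [mul_right_comm, ← ENNReal.ofReal_mul (by positivity)]
  refine mul_le_mul_left (ENNReal.ofReal_le_ofReal (le_of_eq ?_)) _
  ring

theorem x_exp2 : ∃ C > 0, ∀ (w0 : ℝ → ℝ≥0∞), Measurable w0 → ∀ D J : ℝ, 1 ≤ D → 0 < J →
    ∫⁻ σ in Ioo (J / 2) J, (∫⁻ w in Blw D 0 J, ENNReal.ofReal ((1 + (D - w σ)) * Real.exp (-√2 * (D - w σ))) *
      w0 (D - w J) ∂Wm) ≤ ENNReal.ofReal (C * D / (J * √J)) * I0 w0 := by
  obtain ⟨C1, hC1, -, hI1⟩ := Lxx_int
  refine ⟨3 * C1, by positivity, fun w0 hw D J hD hJ => ?_⟩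
  have hD0 : 0 < D := by linarith
  have hJs : 0 < √J := Real.sqrt_pos.2 hJ
  have hg : Measurable (fun d : ℝ => ENNReal.ofReal (Lxx_psi d)) := Lxx_psi_meas.ennreal_ofReal
  have hm3 : Measurable (fun p : (ℝ × ℝ) × ℝ => ENNReal.ofReal (Lxx_psi p.2) *
      ENNReal.ofReal (kk (J - p.1.1) p.1.2 p.2 * p.2)) := by
    refine (hg.comp measurable_snd).mul (Measurable.ennreal_ofReal ?_)
    refine Measurable.mul ?_ measurable_snd
    exact Lxx_m2.comp (f := fun p : (ℝ × ℝ) × ℝ => (J - p.1.1, p.1.2, p.2)) (by fun_prop)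
  have hm4 : Measurable (fun p : ℝ × ℝ => ∫⁻ d in Ioi (0 : ℝ), ENNReal.ofReal (Lxx_psi d) *
      ENNReal.ofReal (kk (J - p.1) p.2 d * d)) :=
    hm3.lintegral_prod_right' (ν := volume.restrict (Ioi (0 : ℝ)))
  have hm5 : Measurable (fun p : ℝ × ℝ => w0 p.2 * ∫⁻ d in Ioi (0 : ℝ), ENNReal.ofReal (Lxx_psi d) *
      ENNReal.ofReal (kk (J - p.1) p.2 d * d)) := (hw.comp measurable_snd).mul hm4
  have h1 : ∫⁻ σ in Ioo (J / 2) J, (∫⁻ w in Blw D 0 J, ENNReal.ofReal ((1 + (D - w σ)) *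
      Real.exp (-√2 * (D - w σ))) * w0 (D - w J) ∂Wm) ≤
      ∫⁻ σ in Ioo (J / 2) J, ENNReal.ofReal (3 * D / (J * √J)) *
        ∫⁻ d2 in Ioi (0 : ℝ), w0 d2 * ∫⁻ d in Ioi (0 : ℝ), ENNReal.ofReal (Lxx_psi d) *
          ENNReal.ofReal (kk (J - σ) d2 d * d) := by
    refine setLIntegral_mono' measurableSet_Ioo fun σ hσ => ?_
    exact Lxx_B hw hg hD0 hJ hσ.1.le hσ.2
  refine h1.trans ?_
  rw [lintegral_const_mul _ (hm5.lintegral_prod_right' (ν := volume.restrict (Ioi (0 : ℝ)))),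
    lintegral_lintegral_swap hm5.aemeasurable]
  have h2 : ∫⁻ d2 in Ioi (0 : ℝ), ∫⁻ σ in Ioo (J / 2) J, w0 d2 * ∫⁻ d in Ioi (0 : ℝ),
      ENNReal.ofReal (Lxx_psi d) * ENNReal.ofReal (kk (J - σ) d2 d * d) ≤
      ENNReal.ofReal C1 * I0 w0 := by
    rw [Lxx_I0 hw]
    refine setLIntegral_mono' measurableSet_Ioi fun d2 hd2 => ?_
    have hd20 : 0 < d2 := hd2
    have hm6 : Measurable (fun σ : ℝ => ∫⁻ d in Ioi (0 : ℝ), ENNReal.ofReal (Lxx_psi d) *
        ENNReal.ofReal (kk (J - σ) d2 d * d)) :=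
      hm4.comp (f := fun σ : ℝ => (σ, d2)) (by fun_prop)
    rw [lintegral_const_mul _ hm6]
    have hm7 : Measurable (fun p : ℝ × ℝ => ENNReal.ofReal (Lxx_psi p.2) *
        ENNReal.ofReal (kk (J - p.1) d2 p.2 * p.2)) :=
      hm3.comp (f := fun p : ℝ × ℝ => ((p.1, d2), p.2)) (by fun_prop)
    rw [lintegral_lintegral_swap hm7.aemeasurable]
    have h3 : ∫⁻ d in Ioi (0 : ℝ), ∫⁻ σ in Ioo (J / 2) J, ENNReal.ofReal (Lxx_psi d) *
        ENNReal.ofReal (kk (J - σ) d2 d * d) ≤ ENNReal.ofReal C1 * ENNReal.ofReal d2 := by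
      have h4 : ∀ d ∈ Ioi (0 : ℝ), ∫⁻ σ in Ioo (J / 2) J, ENNReal.ofReal (Lxx_psi d) *
          ENNReal.ofReal (kk (J - σ) d2 d * d) ≤ ENNReal.ofReal (Lxx_psi d * d * 2) * ENNReal.ofReal d2 := by
        intro d hd
        have hd0 : 0 < d := hd
        have hψ : 0 ≤ Lxx_psi d := by
          unfold Lxx_psi
          positivity
        have hkm : Measurable (fun σ : ℝ => kk (J - σ) d2 d) :=
          Lxx_m2.comp (f := fun σ : ℝ => (J - σ, d2, d)) (by fun_prop)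
        have e1 : ∫⁻ σ in Ioo (J / 2) J, ENNReal.ofReal (Lxx_psi d) *
            ENNReal.ofReal (kk (J - σ) d2 d * d) =
            ENNReal.ofReal (Lxx_psi d * d) * ∫⁻ σ in Ioo (J / 2) J, ENNReal.ofReal (kk (J - σ) d2 d) := by
          rw [← lintegral_const_mul _ hkm.ennreal_ofReal]
          refine lintegral_congr fun σ => ?_
          rw [← ENNReal.ofReal_mul hψ, ← ENNReal.ofReal_mul (mul_nonneg hψ hd0.le)]
          congr 1
          ring
        have e2 : ∫⁻ σ in Ioo (J / 2) J, ENNReal.ofReal (kk (J - σ) d2 d) ≤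
            ∫⁻ τ in Ioi (0 : ℝ), ENNReal.ofReal (kk τ d2 d) := by
          rw [← lintegral_indicator measurableSet_Ioi, ← lintegral_indicator measurableSet_Ioo,
            ← lintegral_sub_left_eq_self
              (fun τ => (Ioi (0 : ℝ)).indicator (fun τ => ENNReal.ofReal (kk τ d2 d)) τ) J]
          refine lintegral_mono fun σ => ?_
          by_cases hσ : σ ∈ Ioo (J / 2) J
          · rw [indicator_of_mem hσ, indicator_of_mem (show J - σ ∈ Ioi (0 : ℝ) from by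
              rw [mem_Ioi]; linarith [hσ.2])]
          · rw [indicator_of_notMem hσ]
            exact bot_le
        rw [e1]
        refine (mul_le_mul_right (e2.trans (kk_green hd20 hd0)) _).trans ?_
        rw [← ENNReal.ofReal_mul (mul_nonneg hψ hd0.le), ← ENNReal.ofReal_mul (by positivity)]
        refine ENNReal.ofReal_le_ofReal ?_
        have h5 := min_le_left d2 d
        have h6 : 0 ≤ Lxx_psi d * d := mul_nonneg hψ hd0.le
        calc Lxx_psi d * d * (2 * min d2 d) ≤ Lxx_psi d * d * (2 * d2) :=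
              mul_le_mul_of_nonneg_left (by linarith) h6
          _ = Lxx_psi d * d * 2 * d2 := by ring
      refine (setLIntegral_mono' measurableSet_Ioi h4).trans ?_
      rw [lintegral_mul_const' _ _ ENNReal.ofReal_ne_top]
      exact mul_le_mul_left hI1 _
    refine (mul_le_mul_right h3 _).trans (le_of_eq ?_)
    ring
  refine (mul_le_mul_right h2 _).trans ?_
  rw [← mul_assoc, ← ENNReal.ofReal_mul (by positivity)]
  refine mul_le_mul_left (ENNReal.ofReal_le_ofReal (le_of_eq ?_)) _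
  ring

end Pool.H50.BB
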