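import Pool.Agent.H50.BB.Lyy
import Pool.Agent.H50.BB.Lxx

/-!
# Rows Lr: the error functional in the mean, parts 1 and 2   (about 220 lines)

Setting: `H : Lc α β lam a C r t ℓ n h θ p`, `Dr = f0 r - x.re ≥ 1`, `Dm ≥ 1`, `J = t - ℓ - r ≥ 2r + 2`, `w0` supported in `d ≤ Dm`; `W w = w0 (Dr - w.1 J) * ofReal (Lw w.2)` on `w.1 ∈ Blw Dr 0 J`;
for `F w = F1 w.1 * F2 w.2` the integral is a product (`W2 = Wm.prod Wm`).
`lr1`: `θ_k - θ_{k-1} ≤ C s_k^{g-2}`, `s_k = r + k h` (`dm` with `k-1`), `x_one` at `σ = k h < J` for `1 ≤ k < n`: the sum is `≤ C ∑_k s_k^{g-2} (Dr + Dm + √(k h)) (Dr/(J√J)) I0`, and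
`∑ s_k^{g-2} ≤ C r^{g-1}`, `∑ s_k^{g-2} √s_k ≤ C r^{g-1/2}` (`g < 1/2`; compare with integrals, `h ≥ 1`); lateral factor `y_a`.
`lr2`: for `u ∈ [0,J]`, `s = r+u`: `re (Bp u) = f0 r + p u - D_u`, `D_u = Dr - w.1 u > 0`, so with `X = mm t + a - re (Bp u) - MM κ γ s t = D_u + ξ`, `ξ ≥ (γ/(2√2)) log (m+1) - C`, `m = min s (t-s)` (`Lc.xi`);
`apb` (`a ≤ √s`): `vf ≤ A F(X)`, `F x = (1 + max 0 x) e^{-√2x}` is nonincreasing, so
`vf ≤ A (1 + D + log(m+1)) e^{-√2 D} (m+1)^{-γ/2} e^{√2 C} ≤ C' (1+D) e^{-√2 D} (m+1)^{-γ/4}` (`1 + log(m+1) ≤ C (m+1)^{γ/4}`).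
`u ≤ J/2`: `m ≥ r` (as `t - s ≥ J/2 ≥ r`): factor `r^{-γ/4}`, `x_exp1` (`1 ≤ Dr`); `u > J/2`: `m ≥ ℓ` if `ℓ ≤ J/2`: factor `ℓ^{-γ/4}`, `x_exp2`.  Tonelli in `u`; lateral factor `y_a`.
-/

open MeasureTheory ProbabilityTheory Set Filter Topology
open scoped NNReal ENNReal

namespace Pool.H50.BB

open Pool.Agent.H4.BM

/-- the common scale of all error terms -/
noncomputable def Esc (α β lam r t ℓ Dr : ℝ) : ℝ :=
  Dr / ((t - ℓ - r) * √(t - ℓ - r)) * NN α β lam r (t - ℓ)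

theorem Lr1_prod {A : Set Pth} {F1 F2 : Pth → ℝ≥0∞} (h1 : Measurable F1)
    (h2 : Measurable F2) :
    ∫⁻ w in {w : P2 | w.1 ∈ A}, F1 w.1 * F2 w.2 ∂W2 = (∫⁻ w in A, F1 w ∂Wm) * ∫⁻ w, F2 w ∂Wm := by
  have e : {w : P2 | w.1 ∈ A} = A ×ˢ univ := by
    ext w
    simp
  rw [e]
  unfold W2
  rw [← Measure.prod_restrict, Measure.restrict_univ,
    lintegral_prod_mul h1.aemeasurable h2.aemeasurable]

theorem Lr1_tel {e x : ℝ} (he : 0 < e) (hx : 0 < x) :
    (x + 1) ^ (-e - 1) ≤ (x ^ (-e) - (x + 1) ^ (-e)) / e := by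
  have h1 : 0 < x + 1 := by linarith
  have hq : 0 < x / (x + 1) := by positivity
  have h2 : x ^ (-e) = (x + 1) ^ (-e) * (x / (x + 1)) ^ (-e) := by
    rw [← Real.mul_rpow h1.le hq.le]
    congr 1
    field_simp
  have h3 : 1 + e / (x + 1) ≤ (x / (x + 1)) ^ (-e) := by
    rw [Real.rpow_def_of_pos hq]
    have h4 := Real.log_le_sub_one_of_pos hq
    have h5 : x / (x + 1) - 1 = -(1 / (x + 1)) := by
      field_simp
      ring
    have h6 : e / (x + 1) ≤ Real.log (x / (x + 1)) * (-e) := by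
      rw [h5] at h4
      have h7 := mul_le_mul_of_nonneg_left h4 he.le
      have h8 : e * -(1 / (x + 1)) = -(e / (x + 1)) := by ring
      linarith
    linarith [Real.add_one_le_exp (Real.log (x / (x + 1)) * (-e))]
  have h8 : 0 < (x + 1) ^ (-e) := Real.rpow_pos_of_pos h1 _
  have h9 := mul_le_mul_of_nonneg_left h3 h8.le
  rw [Real.rpow_sub h1, Real.rpow_one, le_div_iff₀ he, h2]
  calc (x + 1) ^ (-e) / (x + 1) * e = (x + 1) ^ (-e) * (1 + e / (x + 1)) - (x + 1) ^ (-e) := by ring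
    _ ≤ _ := by linarith

theorem Lr1_sum {e r h : ℝ} (he : 0 < e) (hr : 0 < r) (hh : 1 ≤ h) (n : ℕ) :
    ∑ k ∈ Finset.Ico 1 n, (r + k * h) ^ (-e - 1) ≤ r ^ (-e) / e := by
  have key : ∀ n : ℕ, ∑ k ∈ Finset.Ico 1 (n + 1), (r + k * h) ^ (-e - 1) ≤
      (r ^ (-e) - (r + n) ^ (-e)) / e := by
    intro n
    induction n with
    | zero => simp
    | succ n ih =>
      rw [Finset.sum_Ico_succ_top (by omega)]
      have hn : (0 : ℝ) ≤ n := Nat.cast_nonneg n
      have h1 : (r + ((n + 1 : ℕ) : ℝ) * h) ^ (-e - 1) ≤ ((r + n) + 1) ^ (-e - 1) := by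
        refine Real.rpow_le_rpow_of_nonpos (by positivity) ?_ (by linarith)
        push_cast
        nlinarith
      have h2 := Lr1_tel he (show 0 < r + n by positivity)
      have h3 : (r + ((n + 1 : ℕ) : ℝ)) = r + n + 1 := by push_cast; ring
      rw [h3]
      have h4 : (r ^ (-e) - (r + n + 1) ^ (-e)) / e = (r ^ (-e) - (r + n) ^ (-e)) / e +
          ((r + n) ^ (-e) - (r + n + 1) ^ (-e)) / e := by ring
      rw [h4]
      linarith
  rcases n with _ | n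
  · simp only [Finset.Ico_eq_empty_of_le (Nat.zero_le 1), Finset.sum_empty]
    positivity
  · refine (key n).trans (div_le_div_of_nonneg_right ?_ he.le)
    have : 0 ≤ (r + n) ^ (-e) := Real.rpow_nonneg (by positivity) _
    linarith

theorem lr1 {α β lam ρ C : ℝ} {φ : ℝ → ℝ} (hα : 2 / 3 < α) (hα2 : α < 2) (hβ : 0 < β) (G : GS α lam ρ C φ)
    (a C0 : ℝ) :
    ∃ C1 > 0, ∃ r0 ≥ (1 : ℝ), ∀ r t ℓ Dm : ℝ, ∀ (n : ℕ) (h : ℝ≥0) (θ : ℕ → ℝ) (p : Pth), r0 ≤ r → 1 ≤ ℓ → 1 ≤ Dm →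
      2 * r + 2 * ℓ + 2 ≤ t - ℓ - r → Lc α β lam a C0 r t ℓ n h θ p → ∀ (y Dr : ℝ), 1 ≤ Dr →
      ∀ w0 : ℝ → ℝ≥0∞, Measurable w0 → (∀ d, Dm < d → w0 d = 0) →
        ∫⁻ w in {w : P2 | w.1 ∈ Blw Dr 0 (t - ℓ - r)},
          ENNReal.ofReal (∑ k ∈ Finset.Ico 1 n, (θ k - θ (k - 1)) * (Dr - w.1 (k * h))) *
          (w0 (Dr - w.1 (t - ℓ - r)) * ENNReal.ofReal (Lw α β r (t - ℓ) y w.2)) ∂W2 ≤
        ENNReal.ofReal (C1 * ((Dr + Dm) * r ^ (gg α - 1) + r ^ (gg α - 1 / 2)) * Esc α β lam r t ℓ Dr) * I0 w0 := by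
  have hα0 : 0 < α := by linarith
  have hg2 := gg_lt hα hα2
  obtain ⟨Cx, hCx, hx⟩ := x_one
  obtain ⟨s0, hs0, Cy, hCy, hy⟩ := y_a hα0 hα2 hβ G
  set g := gg α with hg
  have he1 : 0 < 1 - g := by linarith
  have he2 : 0 < 1 / 2 - g := by linarith
  have hC0 : 0 < |C0| + 1 := by positivity
  refine ⟨(|C0| + 1) * Cx * Cy * (1 / (1 - g) + 1 / (1 / 2 - g)), by positivity, s0, hs0, ?_⟩
  intro r t ℓ Dm n h θ p hr hℓ hDm hJ H y Dr hDr w0 hw0 hsupp
  set J := t - ℓ - r with hJdef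
  have hr0 : 0 < r := by linarith
  have hJ0 : 0 < J := by linarith
  have hh : (1 : ℝ) ≤ h := H.h1
  have hnh := H.nh
  set K : ℝ := Dr / (J * √J) with hK
  have hK0 : 0 ≤ K := by positivity
  let ck : ℕ → ℝ := fun k => (|C0| + 1) * (r + k * h) ^ (g - 2)
  have hck : ∀ k, 0 ≤ ck k := fun k => by
    show 0 ≤ (|C0| + 1) * (r + k * h) ^ (g - 2)
    positivity
  have hkJ : ∀ k ∈ Finset.Ico 1 n, 0 < (k : ℝ) * h ∧ (k : ℝ) * h < J := by
    intro k hk
    rw [Finset.mem_Ico] at hk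
    have h1 : (1 : ℝ) ≤ k := by exact_mod_cast hk.1
    have h2 : (k : ℝ) < n := by exact_mod_cast hk.2
    constructor
    · positivity
    · exact (mul_lt_mul_of_pos_right h2 (by linarith)).trans_eq hnh
  -- pointwise bound
  have hpt : ∀ w : P2, w.1 ∈ Blw Dr 0 J →
      ENNReal.ofReal (∑ k ∈ Finset.Ico 1 n, (θ k - θ (k - 1)) * (Dr - w.1 (k * h))) ≤
      ∑ k ∈ Finset.Ico 1 n, ENNReal.ofReal (ck k) * ENNReal.ofReal (Dr - w.1 (k * h)) := by
    intro w hw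
    have hD : ∀ k ∈ Finset.Ico 1 n, 0 ≤ Dr - w.1 (k * h) := by
      intro k hk
      have h1 := hkJ k hk
      have h2 := hw (k * h) ⟨h1.1.le, h1.2.le⟩
      rw [zero_mul, add_zero] at h2
      linarith
    have h1 : ∑ k ∈ Finset.Ico 1 n, (θ k - θ (k - 1)) * (Dr - w.1 (k * h)) ≤
        ∑ k ∈ Finset.Ico 1 n, ck k * (Dr - w.1 (k * h)) := by
      refine Finset.sum_le_sum fun k hk => mul_le_mul_of_nonneg_right ?_ (hD k hk)
      rw [Finset.mem_Ico] at hk
      have h2 := (H.dm (k - 1) (by omega)).2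
      have h3 : k - 1 + 1 = k := by omega
      have h4 : (((k - 1 : ℕ) : ℝ) + 1) = k := by
        have : (((k - 1 + 1 : ℕ)) : ℝ) = k := by rw [h3]
        push_cast at this
        exact this
      rw [h3, h4] at h2
      refine h2.trans (mul_le_mul_of_nonneg_right ?_ (by positivity))
      linarith [le_abs_self C0]
    refine (ENNReal.ofReal_le_ofReal h1).trans (le_of_eq ?_)
    rw [ENNReal.ofReal_sum_of_nonneg fun k hk => mul_nonneg (hck k) (hD k hk)]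
    exact Finset.sum_congr rfl fun k _ => ENNReal.ofReal_mul (hck k)
  have mD : ∀ s : ℝ, Measurable fun w : Pth => Dr - w s := fun s =>
    measurable_const.sub (Pth.measurable_apply s)
  have mF : ∀ k : ℕ, Measurable fun w : Pth => ENNReal.ofReal (Dr - w (k * h)) * w0 (Dr - w J) :=
    fun k => (mD _).ennreal_ofReal.mul (hw0.comp (mD J))
  have mL : Measurable fun w : Pth => ENNReal.ofReal (Lw α β r (t - ℓ) y w) :=
    (Lw_meas α β r (t - ℓ) y hα0).ennreal_ofReal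
  have mS : MeasurableSet {w : P2 | w.1 ∈ Blw Dr 0 J} := (blw_meas Dr 0 J).preimage measurable_fst
  have e1 : ∫⁻ w in {w : P2 | w.1 ∈ Blw Dr 0 J},
          ENNReal.ofReal (∑ k ∈ Finset.Ico 1 n, (θ k - θ (k - 1)) * (Dr - w.1 (k * h))) *
          (w0 (Dr - w.1 J) * ENNReal.ofReal (Lw α β r (t - ℓ) y w.2)) ∂W2 ≤
      ∫⁻ w in {w : P2 | w.1 ∈ Blw Dr 0 J},
        (fun w : Pth => ∑ k ∈ Finset.Ico 1 n, ENNReal.ofReal (ck k) *
          (ENNReal.ofReal (Dr - w (k * h)) * w0 (Dr - w J))) w.1 *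
        (fun w : Pth => ENNReal.ofReal (Lw α β r (t - ℓ) y w)) w.2 ∂W2 := by
    refine setLIntegral_mono' mS fun w hw => ?_
    refine (mul_le_mul' (hpt w hw) le_rfl).trans (le_of_eq ?_)
    show _ = (∑ k ∈ Finset.Ico 1 n, ENNReal.ofReal (ck k) *
          (ENNReal.ofReal (Dr - w.1 (k * h)) * w0 (Dr - w.1 J))) *
            ENNReal.ofReal (Lw α β r (t - ℓ) y w.2)
    rw [← mul_assoc, Finset.sum_mul]
    congr 1
    exact Finset.sum_congr rfl fun k _ => mul_assoc _ _ _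
  refine e1.trans ?_
  rw [Lr1_prod (Finset.measurable_sum _ fun k _ => (mF k).const_mul _) mL,
    lintegral_finsetSum _ fun k _ => (mF k).const_mul _]
  have e2 : ∑ k ∈ Finset.Ico 1 n, ∫⁻ w in Blw Dr 0 J, ENNReal.ofReal (ck k) *
      (ENNReal.ofReal (Dr - w (k * h)) * w0 (Dr - w J)) ∂Wm ≤
      ENNReal.ofReal (∑ k ∈ Finset.Ico 1 n, ck k * (Cx * (Dr + Dm + √(k * h)) * K)) * I0 w0 := by
    rw [ENNReal.ofReal_sum_of_nonneg fun k _ => mul_nonneg (hck k) (by positivity), Finset.sum_mul]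
    refine Finset.sum_le_sum fun k hk => ?_
    rw [lintegral_const_mul _ (mF k), ENNReal.ofReal_mul (hck k), mul_assoc]
    refine mul_le_mul' le_rfl ?_
    exact hx w0 hw0 Dr J Dm (k * h) hDr hDm (hkJ k hk).1 (hkJ k hk).2 hsupp
  have e3 := hy r (t - ℓ) hr (by linarith) y
  refine (mul_le_mul' e2 e3).trans ?_
  have hN : 0 ≤ NN α β lam r (t - ℓ) := Y1_NN_nonneg hr0 (by linarith)
  have hsum : ∑ k ∈ Finset.Ico 1 n, ck k * (Cx * (Dr + Dm + √(k * h)) * K) ≤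
      (|C0| + 1) * Cx * K * ((Dr + Dm) * (r ^ (g - 1) / (1 - g)) + r ^ (g - 1 / 2) / (1 / 2 - g)) := by
    have h1 : ∀ k ∈ Finset.Ico 1 n, ck k * (Cx * (Dr + Dm + √(k * h)) * K) ≤
        (|C0| + 1) * Cx * K * ((Dr + Dm) * (r + k * h) ^ (-(1 - g) - 1) +
          (r + k * h) ^ (-(1 / 2 - g) - 1)) := by
      intro k hk
      have hkh := hkJ k hk
      have hp0 : 0 < r + k * h := by linarith [hkh.1]
      have h2 : (r + k * h) ^ (g - 2) * √(k * h) ≤ (r + k * h) ^ (-(1 / 2 - g) - 1) := by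
        have h3 : √(k * h) ≤ (r + k * h) ^ (1 / 2 : ℝ) := by
          rw [← Real.sqrt_eq_rpow]
          exact Real.sqrt_le_sqrt (by linarith)
        refine (mul_le_mul_of_nonneg_left h3 (by positivity)).trans (le_of_eq ?_)
        rw [← Real.rpow_add hp0]
        congr 1
        ring
      have h4 : (r + k * h) ^ (g - 2) = (r + k * h) ^ (-(1 - g) - 1) := by
        congr 1
        ring
      show (|C0| + 1) * (r + k * h) ^ (g - 2) * (Cx * (Dr + Dm + √(k * h)) * K) ≤ _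
      calc (|C0| + 1) * (r + k * h) ^ (g - 2) * (Cx * (Dr + Dm + √(k * h)) * K) =
          (|C0| + 1) * Cx * K * ((Dr + Dm) * (r + k * h) ^ (g - 2) +
            (r + k * h) ^ (g - 2) * √(k * h)) := by ring
        _ ≤ _ := by
          refine mul_le_mul_of_nonneg_left ?_ (by positivity)
          rw [h4] at h2 ⊢
          linarith
    refine (Finset.sum_le_sum h1).trans ?_
    rw [← Finset.mul_sum, Finset.sum_add_distrib, ← Finset.mul_sum]
    refine mul_le_mul_of_nonneg_left ?_ (by positivity)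
    have h5 := Lr1_sum he1 hr0 hh n
    have h6 := Lr1_sum he2 hr0 hh n
    have h7 : r ^ (-(1 - g)) = r ^ (g - 1) := by
      congr 1
      ring
    have h8 : r ^ (-(1 / 2 - g)) = r ^ (g - 1 / 2) := by
      congr 1
      ring
    rw [h7] at h5
    rw [h8] at h6
    exact add_le_add (mul_le_mul_of_nonneg_left h5 (by linarith)) h6
  have hfin : (∑ k ∈ Finset.Ico 1 n, ck k * (Cx * (Dr + Dm + √(k * h)) * K)) *
      (Cy * NN α β lam r (t - ℓ)) ≤
      (|C0| + 1) * Cx * Cy * (1 / (1 - g) + 1 / (1 / 2 - g)) *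
        ((Dr + Dm) * r ^ (g - 1) + r ^ (g - 1 / 2)) * Esc α β lam r t ℓ Dr := by
    refine (mul_le_mul_of_nonneg_right hsum (by positivity)).trans ?_
    have hE : Esc α β lam r t ℓ Dr = K * NN α β lam r (t - ℓ) := rfl
    rw [hE]
    have h9 : (Dr + Dm) * (r ^ (g - 1) / (1 - g)) + r ^ (g - 1 / 2) / (1 / 2 - g) ≤
        (1 / (1 - g) + 1 / (1 / 2 - g)) * ((Dr + Dm) * r ^ (g - 1) + r ^ (g - 1 / 2)) := by
      have i1 : 0 ≤ (Dr + Dm) * r ^ (g - 1) := by positivity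
      have i2 : 0 ≤ r ^ (g - 1 / 2) := by positivity
      have i3 : 0 < 1 / (1 - g) := by positivity
      have i4 : 0 < 1 / (1 / 2 - g) := by positivity
      have i5 : (Dr + Dm) * (r ^ (g - 1) / (1 - g)) = 1 / (1 - g) * ((Dr + Dm) * r ^ (g - 1)) := by ring
      have i6 : r ^ (g - 1 / 2) / (1 / 2 - g) = 1 / (1 / 2 - g) * r ^ (g - 1 / 2) := by ring
      rw [i5, i6]
      nlinarith [mul_nonneg i3.le i2, mul_nonneg i4.le i1]
    calc (|C0| + 1) * Cx * K * ((Dr + Dm) * (r ^ (g - 1) / (1 - g)) +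
          r ^ (g - 1 / 2) / (1 / 2 - g)) * (Cy * NN α β lam r (t - ℓ)) =
          ((|C0| + 1) * Cx * K * (Cy * NN α β lam r (t - ℓ))) *
          ((Dr + Dm) * (r ^ (g - 1) / (1 - g)) + r ^ (g - 1 / 2) / (1 / 2 - g)) := by ring
      _ ≤ ((|C0| + 1) * Cx * K * (Cy * NN α β lam r (t - ℓ))) *
          ((1 / (1 - g) + 1 / (1 / 2 - g)) * ((Dr + Dm) * r ^ (g - 1) + r ^ (g - 1 / 2))) :=
          mul_le_mul_of_nonneg_left h9 (by positivity)
      _ = _ := by ring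
  have hS0 : 0 ≤ ∑ k ∈ Finset.Ico 1 n, ck k * (Cx * (Dr + Dm + √(k * h)) * K) :=
    Finset.sum_nonneg fun k _ => mul_nonneg (hck k) (by positivity)
  calc ENNReal.ofReal (∑ k ∈ Finset.Ico 1 n, ck k * (Cx * (Dr + Dm + √(k * h)) * K)) * I0 w0 *
        ENNReal.ofReal (Cy * NN α β lam r (t - ℓ)) =
        ENNReal.ofReal ((∑ k ∈ Finset.Ico 1 n, ck k * (Cx * (Dr + Dm + √(k * h)) * K)) *
          (Cy * NN α β lam r (t - ℓ))) * I0 w0 := by
        rw [ENNReal.ofReal_mul hS0]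
        ring
    _ ≤ _ := mul_le_mul' (ENNReal.ofReal_le_ofReal hfin) le_rfl

theorem Lr1_F {x y : ℝ} (h : x ≤ y) :
    (1 + max 0 y) * Real.exp (-√2 * y) ≤ (1 + max 0 x) * Real.exp (-√2 * x) := by
  have h1 : Real.exp (-√2 * x) = Real.exp (-√2 * y) * Real.exp (√2 * (y - x)) := by
    rw [← Real.exp_add]
    congr 1
    ring
  have h2 : 1 ≤ √2 := Real.one_le_sqrt.2 (by norm_num)
  have h3 := Real.add_one_le_exp (√2 * (y - x))
  have h4 : 0 ≤ y - x := by linarith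
  have h5 : y - x ≤ √2 * (y - x) := by nlinarith
  have h6 : max 0 y ≤ max 0 x + (y - x) := by
    refine max_le ?_ ?_
    · linarith [le_max_left 0 x]
    · linarith [le_max_right 0 x]
  have h7 : 0 ≤ max 0 x := le_max_left _ _
  rw [h1]
  calc (1 + max 0 y) * Real.exp (-√2 * y) ≤
      ((1 + max 0 x) * Real.exp (√2 * (y - x))) * Real.exp (-√2 * y) := by
        refine mul_le_mul_of_nonneg_right ?_ (Real.exp_pos _).le
        nlinarith
    _ = _ := by ring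

theorem Lr1_pt {D ξ m γ C0 : ℝ} (hD : 0 ≤ D) (hγ : 0 < γ) (hm : 0 ≤ m)
    (hξ : γ / (2 * √2) * Real.log (m + 1) - C0 ≤ ξ) :
    (1 + max 0 (D + ξ)) * Real.exp (-√2 * (D + ξ)) ≤
      (1 + |C0| + √2) * Real.exp (√2 * |C0|) * (m + 1) ^ (-γ / 4) *
        ((1 + D) * Real.exp (-√2 * D)) := by
  have hs : 0 < √2 := Real.sqrt_pos.2 (by norm_num)
  have hss : √2 * √2 = 2 := Real.mul_self_sqrt (by norm_num)
  have hm1 : 0 < m + 1 := by linarith
  set L := Real.log (m + 1) with hL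
  have hL0 : 0 ≤ L := Real.log_nonneg (by linarith)
  set ξ0 := γ / (2 * √2) * L - |C0| with hξ0
  have h0 : D + ξ0 ≤ D + ξ := by
    have := le_abs_self C0
    linarith
  refine (Lr1_F h0).trans ?_
  set P := (m + 1) ^ (γ / 4) with hP
  have hP1 : 1 ≤ P := Real.one_le_rpow (by linarith) (by positivity)
  have h1 : γ / (2 * √2) * L ≤ √2 * P := by
    have h2 : L ≤ P / (γ / 4) := Real.log_le_rpow_div hm1.le (by positivity)
    have h3 : γ / (2 * √2) * L ≤ γ / (2 * √2) * (P / (γ / 4)) :=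
      mul_le_mul_of_nonneg_left h2 (by positivity)
    refine h3.trans (le_of_eq ?_)
    field_simp
    nlinarith
  have h2 : 1 + max 0 (D + ξ0) ≤ (1 + |C0| + √2) * ((1 + D) * P) := by
    have h3 : max 0 (D + ξ0) ≤ D + √2 * P + |C0| := by
      have hc := abs_nonneg C0
      refine max_le (by positivity) ?_
      rw [hξ0]
      linarith
    have hc := abs_nonneg C0
    have h4 : 1 ≤ (1 + D) * P := by nlinarith
    have h5 : P ≤ (1 + D) * P := by nlinarith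
    have h6 : 1 + D ≤ (1 + D) * P := by nlinarith
    have h7 : √2 * P ≤ √2 * ((1 + D) * P) := mul_le_mul_of_nonneg_left h5 hs.le
    have h8 : |C0| * 1 ≤ |C0| * ((1 + D) * P) := mul_le_mul_of_nonneg_left h4 hc
    calc 1 + max 0 (D + ξ0) ≤ (1 + D) + √2 * P + |C0| * 1 := by linarith
      _ ≤ (1 + D) * P + √2 * ((1 + D) * P) + |C0| * ((1 + D) * P) := by linarith
      _ = _ := by ring
  have h3 : Real.exp (-√2 * (D + ξ0)) = Real.exp (√2 * |C0|) * (m + 1) ^ (-γ / 2) *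
      Real.exp (-√2 * D) := by
    rw [Real.rpow_def_of_pos hm1, ← hL, ← Real.exp_add, ← Real.exp_add, hξ0]
    congr 1
    field_simp
    nlinarith
  have h4 : P * (m + 1) ^ (-γ / 2) = (m + 1) ^ (-γ / 4) := by
    rw [hP, ← Real.rpow_add hm1]
    congr 1
    ring
  rw [h3]
  have hR : 0 ≤ (m + 1) ^ (-γ / 2) := Real.rpow_nonneg hm1.le _
  calc (1 + max 0 (D + ξ0)) * (Real.exp (√2 * |C0|) * (m + 1) ^ (-γ / 2) * Real.exp (-√2 * D)) ≤
      ((1 + |C0| + √2) * ((1 + D) * P)) *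
        (Real.exp (√2 * |C0|) * (m + 1) ^ (-γ / 2) * Real.exp (-√2 * D)) :=
        mul_le_mul_of_nonneg_right h2 (by positivity)
    _ = (1 + |C0| + √2) * Real.exp (√2 * |C0|) * (P * (m + 1) ^ (-γ / 2)) *
        ((1 + D) * Real.exp (-√2 * D)) := by ring
    _ = _ := by rw [h4]

theorem lr2 {b : ℝ → ℝ} {α β lam ρ C : ℝ} {φ : ℝ → ℝ} (hα : 2 / 3 < α) (hα2 : α < 2) (hβ : 0 < β)
    (h' : A12 b α β) (G : GS α lam ρ C φ) (a C0 : ℝ) :
    ∃ C1 > 0, ∃ r0 ≥ (1 : ℝ), ∀ r t ℓ : ℝ, ∀ (n : ℕ) (h : ℝ≥0) (θ : ℕ → ℝ) (p : Pth), r0 ≤ r → 1 ≤ ℓ →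
      2 * r + 2 * ℓ + 2 ≤ t - ℓ - r → Lc α β lam a C0 r t ℓ n h θ p → ∀ (x : ℂ), 1 ≤ f0 α β lam a t r - x.re →
      ∀ w0 : ℝ → ℝ≥0∞, Measurable w0 →
        ∫⁻ w in {w : P2 | w.1 ∈ Blw (f0 α β lam a t r - x.re) 0 (t - ℓ - r)},
          ENNReal.ofReal (∫ u in (0 : ℝ)..(t - ℓ - r), vf b (HP (mm α β lam t + a)) (t - r - u) (Bp x p w u)) *
          (w0 (f0 α β lam a t r - x.re - w.1 (t - ℓ - r)) * ENNReal.ofReal (Lw α β r (t - ℓ) x.im w.2)) ∂W2 ≤
        ENNReal.ofReal (C1 * (r ^ (-gam α / 4) + ℓ ^ (-gam α / 4)) *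
          Esc α β lam r t ℓ (f0 α β lam a t r - x.re)) * I0 w0 := by
  have hα0 : 0 < α := by linarith
  obtain ⟨-, hγ0, -, -⟩ := gg_pos hα0 hα2
  obtain ⟨s1, hs1, A, hA1, hA⟩ := apb hα hα2 hβ h' G
  obtain ⟨s0, hs0, Cy, hCy, hy⟩ := y_a hα0 hα2 hβ G
  obtain ⟨Cx, hCx, hx⟩ := x_exp1
  obtain ⟨Cz, hCz, hz⟩ := x_exp2
  set γ := gam α with hγ
  set K : ℝ := A * ((1 + |C0| + √2) * Real.exp (√2 * |C0|)) with hK
  have hK0 : 0 < K := by positivity
  refine ⟨K * (Cx + Cz) * Cy, by positivity, max (max s0 s1) (a ^ 2), ?_, ?_⟩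
  · exact hs0.le.trans ((le_max_left _ _).trans (le_max_left _ _))
  intro r t ℓ n h θ p hr hℓ hJ H x hDr w0 hw0
  have hr1 : s0 ≤ r := ((le_max_left _ _).trans (le_max_left _ _)).trans hr
  have hr2 : s1 ≤ r := ((le_max_right _ _).trans (le_max_left _ _)).trans hr
  have hr3 : a ^ 2 ≤ r := (le_max_right _ _).trans hr
  set Dr := f0 α β lam a t r - x.re with hDrdef
  set J := t - ℓ - r with hJdef
  have hr0 : 0 < r := by linarith
  have hr11 : 1 ≤ r := by linarith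
  have hJ0 : 0 < J := by linarith
  set k1 : ℝ := K * r ^ (-γ / 4) with hk1
  set k2 : ℝ := K * ℓ ^ (-γ / 4) with hk2
  have hk10 : 0 ≤ k1 := by positivity
  have hk20 : 0 ≤ k2 := by positivity
  let E : Pth → ℝ → ℝ≥0∞ := fun w u =>
    ENNReal.ofReal ((1 + (Dr - w u)) * Real.exp (-√2 * (Dr - w u)))
  have mE2 : Measurable fun q : Pth × ℝ => E q.1 q.2 := by
    have h1 : Measurable fun q : Pth × ℝ => q.1 q.2 :=
      Pth.measurable_eval measurable_fst measurable_snd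
    have h2 : Measurable fun q : Pth × ℝ => Dr - q.1 q.2 := measurable_const.sub h1
    exact ((measurable_const.add h2).mul
      (Real.measurable_exp.comp (h2.const_mul _))).ennreal_ofReal
  have mEu : ∀ w : Pth, Measurable (E w) := fun w => mE2.comp (measurable_const.prodMk measurable_id)
  have mEw : ∀ u : ℝ, Measurable fun w : Pth => E w u := fun u =>
    mE2.comp (measurable_id.prodMk measurable_const)
  have hRe : ∀ (w : P2) (u : ℝ), (Bp x p w u).re = x.re + p u + w.1 u := by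
    intro w u
    simp [Bp, pt]
  -- pointwise bound of the function
  have hvf : ∀ w : P2, w.1 ∈ Blw Dr 0 J → ∀ u, 0 < u → u ≤ J → ∀ m0 : ℝ, 0 < m0 →
      m0 ≤ min (r + u) (t - r - u) →
      ENNReal.ofReal (vf b (HP (mm α β lam t + a)) (t - r - u) (Bp x p w u)) ≤
        ENNReal.ofReal (K * m0 ^ (-γ / 4)) * E w.1 u := by
    intro w hw u hu huJ m0 hm0 hm
    have hDu : 0 < Dr - w.1 u := by
      have h2 := hw u ⟨hu.le, huJ⟩
      rw [zero_mul, add_zero] at h2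
      linarith
    have hau : a ≤ √(r + u) := by
      refine Real.le_sqrt_of_sq_le ?_
      linarith
    have h1 := hA (r + u) t a (by linarith) (by linarith) hau (Bp x p w u)
    have h2 : mm α β lam t + a - (Bp x p w u).re - MM (kap α β lam) γ (r + u) t =
        (Dr - w.1 u) + (mm α β lam t + a - (f0 α β lam a t r + p u) -
          MM (kap α β lam) γ (r + u) t) := by
      rw [hRe, hDrdef]
      ring
    rw [h2, mul_assoc, ← sub_sub] at h1
    have hmin : 0 ≤ min (r + u) (t - r - u) := hm0.le.trans hm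
    have h3 := Lr1_pt hDu.le hγ0 hmin (H.xi u hu.le huJ)
    have h4 : (min (r + u) (t - r - u) + 1) ^ (-γ / 4) ≤ m0 ^ (-γ / 4) := by
      refine Real.rpow_le_rpow_of_nonpos hm0 (by linarith) ?_
      linarith
    have hE0 : 0 ≤ (1 + (Dr - w.1 u)) * Real.exp (-√2 * (Dr - w.1 u)) := by positivity
    show _ ≤ ENNReal.ofReal (K * m0 ^ (-γ / 4)) *
      ENNReal.ofReal ((1 + (Dr - w.1 u)) * Real.exp (-√2 * (Dr - w.1 u)))
    rw [← ENNReal.ofReal_mul (by positivity)]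
    refine ENNReal.ofReal_le_ofReal (h1.trans ?_)
    refine (mul_le_mul_of_nonneg_left h3 (by linarith)).trans ?_
    calc A * ((1 + |C0| + √2) * Real.exp (√2 * |C0|) *
          (min (r + u) (t - r - u) + 1) ^ (-γ / 4) *
          ((1 + (Dr - w.1 u)) * Real.exp (-√2 * (Dr - w.1 u)))) =
        K * ((min (r + u) (t - r - u) + 1) ^ (-γ / 4) *
          ((1 + (Dr - w.1 u)) * Real.exp (-√2 * (Dr - w.1 u)))) := by
          rw [hK]
          ring
      _ ≤ K * (m0 ^ (-γ / 4) * ((1 + (Dr - w.1 u)) * Real.exp (-√2 * (Dr - w.1 u)))) :=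
          mul_le_mul_of_nonneg_left (mul_le_mul_of_nonneg_right h4 hE0) hK0.le
      _ = _ := by ring
  have hstepA : ∀ w : P2, w.1 ∈ Blw Dr 0 J →
      ENNReal.ofReal (∫ u in (0 : ℝ)..J, vf b (HP (mm α β lam t + a)) (t - r - u) (Bp x p w u)) ≤
      ENNReal.ofReal k1 * (∫⁻ u in Ioc 0 (J / 2), E w.1 u) +
        ENNReal.ofReal k2 * (∫⁻ u in Ioo (J / 2) J, E w.1 u) := by
    intro w hw
    have h1 : ENNReal.ofReal (∫ u in (0 : ℝ)..J, vf b (HP (mm α β lam t + a)) (t - r - u) (Bp x p w u)) ≤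
        ∫⁻ u in Ioc 0 J, ENNReal.ofReal (vf b (HP (mm α β lam t + a)) (t - r - u) (Bp x p w u)) := by
      rw [intervalIntegral.integral_of_le hJ0.le]
      refine (ENNReal.ofReal_le_ofReal (le_abs_self _)).trans ?_
      rw [← Real.enorm_eq_ofReal_abs]
      refine (enorm_integral_le_lintegral_enorm _).trans (le_of_eq ?_)
      refine lintegral_congr fun u => ?_
      rw [Real.enorm_eq_ofReal_abs, abs_of_nonneg (vf_nonneg _ _ _ _)]
    refine h1.trans ?_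
    have h2 : Ioc 0 J = Ioc 0 (J / 2) ∪ Ioc (J / 2) J :=
      (Ioc_union_Ioc_eq_Ioc (by linarith) (by linarith)).symm
    have h3 : Disjoint (Ioc 0 (J / 2)) (Ioc (J / 2) J) := by
      rw [Set.disjoint_left]
      intro u hu hu'
      exact absurd hu.2 (not_le.2 hu'.1)
    rw [h2, lintegral_union measurableSet_Ioc h3, ← setLIntegral_congr (Ioo_ae_eq_Ioc (a := J / 2) (b := J)),
      ← lintegral_const_mul _ (mEu w.1), ← lintegral_const_mul _ (mEu w.1)]
    refine add_le_add ?_ ?_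
    · refine setLIntegral_mono' measurableSet_Ioc fun u hu => ?_
      refine hvf w hw u hu.1 (by linarith [hu.2]) r hr0 (le_min (by linarith [hu.1]) ?_)
      linarith [hu.2]
    · refine setLIntegral_mono' measurableSet_Ioo fun u hu => ?_
      refine hvf w hw u (by linarith [hu.1]) hu.2.le ℓ (by linarith) (le_min ?_ ?_)
      · linarith [hu.1]
      · linarith [hu.2]
  have mD : Measurable fun w : Pth => Dr - w J := measurable_const.sub (Pth.measurable_apply J)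
  have mw : Measurable fun w : Pth => w0 (Dr - w J) := hw0.comp mD
  have mI : ∀ I : Set ℝ, Measurable fun w : Pth => ∫⁻ u in I, E w u := fun I =>
    mE2.lintegral_prod_right' (ν := volume.restrict I)
  have mL : Measurable fun w : Pth => ENNReal.ofReal (Lw α β r (t - ℓ) x.im w) :=
    (Lw_meas α β r (t - ℓ) x.im hα0).ennreal_ofReal
  have mS : MeasurableSet {w : P2 | w.1 ∈ Blw Dr 0 J} := (blw_meas Dr 0 J).preimage measurable_fst
  have hton : ∀ I : Set ℝ, ∫⁻ w in Blw Dr 0 J, (∫⁻ u in I, E w u) * w0 (Dr - w J) ∂Wm =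
      ∫⁻ u in I, (∫⁻ w in Blw Dr 0 J, E w u * w0 (Dr - w J) ∂Wm) := by
    intro I
    have h1 : ∀ w : Pth, (∫⁻ u in I, E w u) * w0 (Dr - w J) = ∫⁻ u in I, E w u * w0 (Dr - w J) :=
      fun w => (lintegral_mul_const _ (mEu w)).symm
    rw [lintegral_congr h1, lintegral_lintegral_swap]
    refine Measurable.aemeasurable ?_
    exact mE2.mul (mw.comp measurable_fst)
  have e1 : ∫⁻ w in {w : P2 | w.1 ∈ Blw Dr 0 J},
          ENNReal.ofReal (∫ u in (0 : ℝ)..J, vf b (HP (mm α β lam t + a)) (t - r - u) (Bp x p w u)) *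
          (w0 (Dr - w.1 J) * ENNReal.ofReal (Lw α β r (t - ℓ) x.im w.2)) ∂W2 ≤
      ∫⁻ w in {w : P2 | w.1 ∈ Blw Dr 0 J},
        (fun w : Pth => ENNReal.ofReal k1 * ((∫⁻ u in Ioc 0 (J / 2), E w u) * w0 (Dr - w J)) +
          ENNReal.ofReal k2 * ((∫⁻ u in Ioo (J / 2) J, E w u) * w0 (Dr - w J))) w.1 *
        (fun w : Pth => ENNReal.ofReal (Lw α β r (t - ℓ) x.im w)) w.2 ∂W2 := by
    refine setLIntegral_mono' mS fun w hw => ?_
    refine (mul_le_mul' (hstepA w hw) le_rfl).trans (le_of_eq ?_)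
    ring
  refine e1.trans ?_
  have m1 : Measurable fun w : Pth => (∫⁻ u in Ioc 0 (J / 2), E w u) * w0 (Dr - w J) := (mI _).mul mw
  have m2 : Measurable fun w : Pth => (∫⁻ u in Ioo (J / 2) J, E w u) * w0 (Dr - w J) := (mI _).mul mw
  have m12 : Measurable fun w : Pth =>
      ENNReal.ofReal k1 * ((∫⁻ u in Ioc 0 (J / 2), E w u) * w0 (Dr - w J)) +
        ENNReal.ofReal k2 * ((∫⁻ u in Ioo (J / 2) J, E w u) * w0 (Dr - w J)) :=
    (m1.const_mul _).add (m2.const_mul _)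
  rw [Lr1_prod m12 mL, lintegral_add_left (m1.const_mul _),
    lintegral_const_mul _ m1, lintegral_const_mul _ m2, hton, hton]
  have e2 := hx w0 hw0 Dr J hDr hJ0
  have e3 := hz w0 hw0 Dr J hDr hJ0
  have e4 := hy r (t - ℓ) hr1 (by linarith) x.im
  refine (mul_le_mul' (add_le_add (mul_le_mul' le_rfl e2) (mul_le_mul' le_rfl e3)) e4).trans ?_
  have hN : 0 ≤ NN α β lam r (t - ℓ) := Y1_NN_nonneg hr0 (by linarith)
  have hJJ : 0 < J * √J := by positivity
  have e5 : ENNReal.ofReal k1 * (ENNReal.ofReal (Cx / (J * √J)) * I0 w0) +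
      ENNReal.ofReal k2 * (ENNReal.ofReal (Cz * Dr / (J * √J)) * I0 w0) =
      ENNReal.ofReal (k1 * (Cx / (J * √J)) + k2 * (Cz * Dr / (J * √J))) * I0 w0 := by
    rw [ENNReal.ofReal_add (by positivity) (by positivity), ENNReal.ofReal_mul hk10,
      ENNReal.ofReal_mul hk20]
    ring
  rw [e5]
  have hfin : (k1 * (Cx / (J * √J)) + k2 * (Cz * Dr / (J * √J))) * (Cy * NN α β lam r (t - ℓ)) ≤
      K * (Cx + Cz) * Cy * (r ^ (-γ / 4) + ℓ ^ (-γ / 4)) * Esc α β lam r t ℓ Dr := by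
    have hE : Esc α β lam r t ℓ Dr = Dr / (J * √J) * NN α β lam r (t - ℓ) := rfl
    have i1 : Cx / (J * √J) ≤ (Cx + Cz) * (Dr / (J * √J)) := by
      rw [← mul_div_assoc]
      refine div_le_div_of_nonneg_right ?_ hJJ.le
      nlinarith
    have i2 : Cz * Dr / (J * √J) ≤ (Cx + Cz) * (Dr / (J * √J)) := by
      rw [← mul_div_assoc]
      refine div_le_div_of_nonneg_right ?_ hJJ.le
      nlinarith
    rw [hE]
    calc (k1 * (Cx / (J * √J)) + k2 * (Cz * Dr / (J * √J))) * (Cy * NN α β lam r (t - ℓ)) ≤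
        (k1 * ((Cx + Cz) * (Dr / (J * √J))) + k2 * ((Cx + Cz) * (Dr / (J * √J)))) *
          (Cy * NN α β lam r (t - ℓ)) := by
          refine mul_le_mul_of_nonneg_right ?_ (by positivity)
          exact add_le_add (mul_le_mul_of_nonneg_left i1 hk10) (mul_le_mul_of_nonneg_left i2 hk20)
      _ = _ := by
          rw [hk1, hk2]
          ring
  calc ENNReal.ofReal (k1 * (Cx / (J * √J)) + k2 * (Cz * Dr / (J * √J))) * I0 w0 *
        ENNReal.ofReal (Cy * NN α β lam r (t - ℓ)) =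
        ENNReal.ofReal ((k1 * (Cx / (J * √J)) + k2 * (Cz * Dr / (J * √J))) *
          (Cy * NN α β lam r (t - ℓ))) * I0 w0 := by
        rw [ENNReal.ofReal_mul (p := k1 * (Cx / (J * √J)) + k2 * (Cz * Dr / (J * √J)))
          (by positivity)]
        ring
    _ ≤ _ := mul_le_mul' (ENNReal.ofReal_le_ofReal hfin) le_rfl

end Pool.H50.BB
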