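import Pool.Agent.H50.BB.Lr1

/-!
# Row Lr3: the error functional in the mean, part 3 (the potential)   (about 230 lines)

For `u ∈ [0,J]`, `s = r + u`, `B = Bp x p w u`, `D = Dr - w.1 u > 0`: `re B = f0 r + p u - D ≤ √2 s` (`Lc.fle`), `d := √2 s - re B = √2 s - (f0 r + p u) + D ≤ κ s + (s/t)(cc log t - a) + D` (`Lc.f0le`), so
`0 ≤ d ≤ C (s^g + (s/t) log t) + D` (t large).  `qup`: `max 0 (1 - b(arg B) - c0 s (im B)) ≤ Cq (c0 s Y (d/s) + Y²/s² + (d/s)^4)`, `Y = im B = im x + w.2 u`.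
`c0 s Y = β (|Y|/(√2 s))^α ≤ C s^{-2γ} (1 + Y² s^{-2γ})` (`s^{-α} |Y|^α = s^{-2γ} (|Y| s^{-γ})^α`, `v^α ≤ 1 + v²`).
Radial means (divide by the common factor `(Dr/(J√J)) I0`): of `1`: `≤ C` (`x_tot`); of `d`: `≤ C (s^g + (s/t) log t + Dr + Dm + √u)` (`x_one`); of `d^4`: `≤ C ((s^g + (s/t) log t)^4 + (Dr² + Dm² + u)²)` (`x_four`).
Lateral means (divide by `NN`): of `1`: `C`; of `Y²`: `≤ C (1+U²) s^{2γ}` (`y_b`, `|im x| ≤ U r^γ`); of `c0`: `≤ C (1+U²) s^{-2γ}`.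
Tonelli in `u` and `∫_r^t`: `∫ s^{-2γ} (s^{g-1} + (log t)/t + (Dr+Dm)/s + s^{-1/2}) ds ≤ C (r^{2g-1} + t^{-2γ} log t + (Dr+Dm) r^{-2γ} + r^{1/2-2γ})` (`-2γ + g - 1 = 2g - 2`; `2γ > 1/2`);
`∫ s^{2γ-2} ds ≤ C r^{2γ-1}`; `∫ (s^{4g-4} + (log t/t)^4 + (Dr^4+Dm^4) s^{-4} + s^{-2}) ds ≤ C (r^{4g-3} + t^{-3} (log t)^4 + (Dr^4+Dm^4) r^{-3} + r^{-1})`.
All pure powers of `r` are `≤ r^{-e}` with `e = min (1-2g) (min (2γ-1/2) (1-2γ)) > 0` (statement with some `e > 0`), the `t` terms are `≤ C (log t)^4 t^{-2γ}`.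
The endpoint values `u = 0, J` are irrelevant (null sets).
-/

open MeasureTheory ProbabilityTheory Set Filter Topology
open scoped NNReal ENNReal

namespace Pool.H50.BB

open Pool.Agent.H4.BM

theorem Lr3_c0 {α β : ℝ} (hα : 0 < α) (hα2 : α < 2) (hβ : 0 < β) {s : ℝ} (hs : 1 ≤ s) (Y : ℝ) :
    c0 α β s Y ≤ β * (s ^ (-2 * gam α) * (1 + s ^ (-2 * gam α) * Y ^ 2)) := by
  have hs0 : 0 < s := by linarith
  unfold c0
  rw [max_eq_left hs]
  apply mul_le_mul_of_nonneg_left _ hβ.le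
  obtain ⟨hg0, hγ0, hγ1, hgg⟩ := gg_pos hα hα2
  have h2 : (1 : ℝ) ≤ √2 := by
    rw [Real.one_le_sqrt]; norm_num
  have h1 : |Y| / (√2 * s) ≤ |Y| / s := by
    apply div_le_div_of_nonneg_left (abs_nonneg _) hs0
    nlinarith
  have h3 : (|Y| / (√2 * s)) ^ α ≤ (|Y| / s) ^ α :=
    Real.rpow_le_rpow (by positivity) h1 hα.le
  have hσ : 0 < s ^ (-gam α) := Real.rpow_pos_of_pos hs0 _
  have h4 : |Y| / s = (|Y| * s ^ (-gam α)) * s ^ (gam α - 1) := by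
    rw [mul_assoc, ← Real.rpow_add hs0]
    have : -gam α + (gam α - 1) = -1 := by ring
    rw [this, Real.rpow_neg_one, div_eq_mul_inv]
  have hexp : (gam α - 1) * α = -2 * gam α := by
    unfold gam
    have : 2 + α ≠ 0 := by linarith
    field_simp
    ring
  have h5 : (|Y| / s) ^ α = (|Y| * s ^ (-gam α)) ^ α * s ^ (-2 * gam α) := by
    rw [h4, Real.mul_rpow (by positivity) (Real.rpow_nonneg hs0.le _), ← Real.rpow_mul hs0.le, hexp]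
  have h6 : ∀ v : ℝ, 0 ≤ v → v ^ α ≤ 1 + v ^ 2 := by
    intro v hv
    rcases le_total v 1 with h | h
    · have := Real.rpow_le_one hv h hα.le
      nlinarith [sq_nonneg v]
    · have h7 : v ^ α ≤ v ^ (2 : ℝ) := Real.rpow_le_rpow_of_exponent_le h hα2.le
      rw [Real.rpow_two] at h7
      linarith
  have h8 : (|Y| * s ^ (-gam α)) ^ 2 = s ^ (-2 * gam α) * Y ^ 2 := by
    rw [mul_pow, sq_abs, ← Real.rpow_natCast (s ^ (-gam α)) 2, ← Real.rpow_mul hs0.le]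
    push_cast
    rw [show -gam α * 2 = -2 * gam α by ring]
    ring
  calc (|Y| / (√2 * s)) ^ α ≤ (|Y| / s) ^ α := h3
    _ = (|Y| * s ^ (-gam α)) ^ α * s ^ (-2 * gam α) := h5
    _ ≤ (1 + (|Y| * s ^ (-gam α)) ^ 2) * s ^ (-2 * gam α) :=
        mul_le_mul_of_nonneg_right (h6 _ (by positivity)) (Real.rpow_nonneg hs0.le _)
    _ = _ := by rw [h8]; ring

theorem Lr3_ivl {J : ℝ} (hJ : 0 ≤ J) {f : ℝ → ℝ} (hf : ∀ u, 0 ≤ f u) :
    ENNReal.ofReal (∫ u in (0 : ℝ)..J, f u) ≤ ∫⁻ u in Ioo (0 : ℝ) J, ENNReal.ofReal (f u) := by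
  rw [intervalIntegral.integral_of_le hJ, integral_Ioc_eq_integral_Ioo]
  by_cases h : Integrable f (volume.restrict (Ioo 0 J))
  · rw [ofReal_integral_eq_lintegral_ofReal h (Eventually.of_forall hf)]
  · rw [integral_undef h]
    simp

theorem Lr3_pow {r J p : ℝ} (hr : 0 < r) (hJ : 0 ≤ J) (hp : p ≠ -1) :
    ∫⁻ u in Ioo (0 : ℝ) J, ENNReal.ofReal ((r + u) ^ p) =
      ENNReal.ofReal (((r + J) ^ (p + 1) - r ^ (p + 1)) / (p + 1)) := by
  have hc : ContinuousOn (fun u : ℝ => (r + u) ^ p) (Icc 0 J) := by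
    apply ContinuousOn.rpow_const (by fun_prop)
    intro u hu
    left
    have := hu.1
    linarith
  have hint : IntegrableOn (fun u : ℝ => (r + u) ^ p) (Ioo 0 J) :=
    (hc.integrableOn_compact isCompact_Icc).mono_set Ioo_subset_Icc_self
  have hnn : 0 ≤ᵐ[volume.restrict (Ioo 0 J)] fun u : ℝ => (r + u) ^ p := by
    filter_upwards [ae_restrict_mem measurableSet_Ioo] with u hu
    exact Real.rpow_nonneg (by linarith [hu.1]) _
  rw [← ofReal_integral_eq_lintegral_ofReal hint hnn, ← integral_Ioc_eq_integral_Ioo,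
    ← intervalIntegral.integral_of_le hJ,
    intervalIntegral.integral_comp_add_left (fun x : ℝ => x ^ p) r, add_zero,
    integral_rpow]
  right
  refine ⟨hp, ?_⟩
  rw [uIcc_of_le (by linarith)]
  intro h
  have := h.1
  linarith

theorem Lr3_pow1 {r J p : ℝ} (hr : 0 < r) (hJ : 0 ≤ J) (hp : p < -1) :
    ∫⁻ u in Ioo (0 : ℝ) J, ENNReal.ofReal ((r + u) ^ p) ≤
      ENNReal.ofReal (r ^ (p + 1) / (-(p + 1))) := by
  rw [Lr3_pow hr hJ hp.ne]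
  apply ENNReal.ofReal_le_ofReal
  have h1 : 0 ≤ (r + J) ^ (p + 1) := Real.rpow_nonneg (by linarith) _
  have h2 : 0 < -(p + 1) := by linarith
  rw [show ((r + J) ^ (p + 1) - r ^ (p + 1)) / (p + 1) =
    (r ^ (p + 1) - (r + J) ^ (p + 1)) / (-(p + 1)) by rw [div_neg, ← neg_div]; ring]
  exact div_le_div_of_nonneg_right (by linarith) h2.le

theorem Lr3_pow2 {r J p : ℝ} (hr : 0 < r) (hJ : 0 ≤ J) (hp : -1 < p) :
    ∫⁻ u in Ioo (0 : ℝ) J, ENNReal.ofReal ((r + u) ^ p) ≤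
      ENNReal.ofReal ((r + J) ^ (p + 1) / (p + 1)) := by
  rw [Lr3_pow hr hJ hp.ne']
  apply ENNReal.ofReal_le_ofReal
  have h1 : 0 ≤ r ^ (p + 1) := Real.rpow_nonneg hr.le _
  exact div_le_div_of_nonneg_right (by linarith) (by linarith)

theorem Lr3_add {J : ℝ} {f g : ℝ → ℝ} {A B : ℝ} (hf : Measurable f) (hA : 0 ≤ A) (hB : 0 ≤ B)
    (h1 : ∫⁻ u in Ioo (0 : ℝ) J, ENNReal.ofReal (f u) ≤ ENNReal.ofReal A)
    (h2 : ∫⁻ u in Ioo (0 : ℝ) J, ENNReal.ofReal (g u) ≤ ENNReal.ofReal B) :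
    ∫⁻ u in Ioo (0 : ℝ) J, ENNReal.ofReal (f u + g u) ≤ ENNReal.ofReal (A + B) := by
  calc ∫⁻ u in Ioo (0 : ℝ) J, ENNReal.ofReal (f u + g u)
      ≤ ∫⁻ u in Ioo (0 : ℝ) J, (ENNReal.ofReal (f u) + ENNReal.ofReal (g u)) :=
        lintegral_mono fun u => ENNReal.ofReal_add_le
    _ = (∫⁻ u in Ioo (0 : ℝ) J, ENNReal.ofReal (f u)) + ∫⁻ u in Ioo (0 : ℝ) J, ENNReal.ofReal (g u) :=
        lintegral_add_left (ENNReal.measurable_ofReal.comp hf) _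
    _ ≤ ENNReal.ofReal A + ENNReal.ofReal B := add_le_add h1 h2
    _ = _ := (ENNReal.ofReal_add hA hB).symm

theorem Lr3_mul {J : ℝ} {f : ℝ → ℝ} {A c : ℝ} (hc : 0 ≤ c)
    (h1 : ∫⁻ u in Ioo (0 : ℝ) J, ENNReal.ofReal (f u) ≤ ENNReal.ofReal A) :
    ∫⁻ u in Ioo (0 : ℝ) J, ENNReal.ofReal (c * f u) ≤ ENNReal.ofReal (c * A) := by
  simp_rw [ENNReal.ofReal_mul hc]
  rw [lintegral_const_mul' _ _ ENNReal.ofReal_ne_top]
  gcongr

theorem Lr3_two {B : Set Pth} {F G : Pth → ℝ≥0∞} (hF : Measurable F) (hG : Measurable G) :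
    ∫⁻ w in {w : P2 | w.1 ∈ B}, F w.1 * G w.2 ∂W2 = (∫⁻ a in B, F a ∂Wm) * ∫⁻ b, G b ∂Wm := by
  have h1 : {w : P2 | w.1 ∈ B} = B ×ˢ (univ : Set Pth) := by ext w; simp
  rw [h1, W2, ← Measure.prod_restrict, Measure.restrict_univ]
  exact lintegral_prod_mul hF.aemeasurable hG.aemeasurable

theorem Lr3_M {B : Set Pth} (hB : MeasurableSet B) {R Lam : Pth → ℝ≥0∞} (hR : Measurable R)
    (hL : Measurable Lam) {D Y : Pth → ℝ} (hD : Measurable D) (hY : Measurable Y)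
    {k1 k2 k3 A σ : ℝ} (hk1 : 0 ≤ k1) (hk2 : 0 ≤ k2) (hk3 : 0 ≤ k3) (hA : 0 ≤ A) (hσ : 0 ≤ σ)
    {q : P2 → ℝ} (hq : ∀ w : P2, w.1 ∈ B → 0 ≤ D w.1 ∧
      q w ≤ k1 * ((A + D w.1) * (1 + σ * Y w.2 ^ 2)) + k2 * Y w.2 ^ 2 + k3 * (A ^ 4 + D w.1 ^ 4))
    {x0 x1 x4 l0 l2 : ℝ} {I : ℝ≥0∞} (hx0 : 0 ≤ x0) (hx1 : 0 ≤ x1) (hx4 : 0 ≤ x4) (hl0 : 0 ≤ l0)
    (hl2 : 0 ≤ l2)
    (hX0 : ∫⁻ a in B, R a ∂Wm ≤ ENNReal.ofReal x0 * I)
    (hX1 : ∫⁻ a in B, ENNReal.ofReal (D a) * R a ∂Wm ≤ ENNReal.ofReal x1 * I)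
    (hX4 : ∫⁻ a in B, ENNReal.ofReal (D a ^ 4) * R a ∂Wm ≤ ENNReal.ofReal x4 * I)
    (hL0 : ∫⁻ b, Lam b ∂Wm ≤ ENNReal.ofReal l0)
    (hL2 : ∫⁻ b, Lam b * ENNReal.ofReal (Y b ^ 2) ∂Wm ≤ ENNReal.ofReal l2) :
    ∫⁻ w in {w : P2 | w.1 ∈ B}, ENNReal.ofReal (q w) * (R w.1 * Lam w.2) ∂W2 ≤
      ENNReal.ofReal (k1 * ((A * x0 + x1) * (l0 + σ * l2)) + k2 * (x0 * l2) +
        k3 * ((A ^ 4 * x0 + x4) * l0)) * I := by
  have hset : MeasurableSet {w : P2 | w.1 ∈ B} := measurable_fst hB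
  have hmD : Measurable fun a : Pth => ENNReal.ofReal (D a) := ENNReal.measurable_ofReal.comp hD
  have hmD4 : Measurable fun a : Pth => ENNReal.ofReal (D a ^ 4) :=
    ENNReal.measurable_ofReal.comp (hD.pow_const 4)
  have hmY : Measurable fun a : Pth => ENNReal.ofReal (Y a ^ 2) :=
    ENNReal.measurable_ofReal.comp (hY.pow_const 2)
  set F1 : Pth → ℝ≥0∞ := fun a => ENNReal.ofReal A * R a + ENNReal.ofReal (D a) * R a with hF1
  set G1 : Pth → ℝ≥0∞ := fun b => Lam b + ENNReal.ofReal σ * (Lam b * ENNReal.ofReal (Y b ^ 2)) with hG1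
  set G2 : Pth → ℝ≥0∞ := fun b => Lam b * ENNReal.ofReal (Y b ^ 2) with hG2
  set F3 : Pth → ℝ≥0∞ := fun a => ENNReal.ofReal (A ^ 4) * R a + ENNReal.ofReal (D a ^ 4) * R a with hF3
  have mF1 : Measurable F1 := (hR.const_mul _).add (hmD.mul hR)
  have mG2 : Measurable G2 := hL.mul hmY
  have mG1 : Measurable G1 := hL.add (mG2.const_mul _)
  have mF3 : Measurable F3 := (hR.const_mul _).add (hmD4.mul hR)
  have hpt : ∀ w ∈ {w : P2 | w.1 ∈ B}, ENNReal.ofReal (q w) * (R w.1 * Lam w.2) ≤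
      ENNReal.ofReal k1 * (F1 w.1 * G1 w.2) + (ENNReal.ofReal k2 * (R w.1 * G2 w.2) +
        ENNReal.ofReal k3 * (F3 w.1 * Lam w.2)) := by
    intro w hw
    obtain ⟨hD0, hqw⟩ := hq w hw
    have hY2 : 0 ≤ Y w.2 ^ 2 := sq_nonneg _
    have h1 : ENNReal.ofReal (q w) ≤
        ENNReal.ofReal k1 * ((ENNReal.ofReal A + ENNReal.ofReal (D w.1)) *
          (1 + ENNReal.ofReal σ * ENNReal.ofReal (Y w.2 ^ 2))) +
        ENNReal.ofReal k2 * ENNReal.ofReal (Y w.2 ^ 2) +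
        ENNReal.ofReal k3 * (ENNReal.ofReal (A ^ 4) + ENNReal.ofReal (D w.1 ^ 4)) := by
      refine (ENNReal.ofReal_le_ofReal hqw).trans (le_of_eq ?_)
      rw [ENNReal.ofReal_add (by positivity) (by positivity), ENNReal.ofReal_add (by positivity) (by positivity),
        ENNReal.ofReal_mul hk1, ENNReal.ofReal_mul (by positivity), ENNReal.ofReal_add hA hD0,
        ENNReal.ofReal_add zero_le_one (by positivity), ENNReal.ofReal_one, ENNReal.ofReal_mul hσ,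
        ENNReal.ofReal_mul hk2, ENNReal.ofReal_mul hk3, ENNReal.ofReal_add (by positivity) (by positivity)]
    calc ENNReal.ofReal (q w) * (R w.1 * Lam w.2) ≤ _ := mul_le_mul_left h1 _
      _ = _ := by
        simp only [hF1, hG1, hG2, hF3]
        ring
  calc ∫⁻ w in {w : P2 | w.1 ∈ B}, ENNReal.ofReal (q w) * (R w.1 * Lam w.2) ∂W2
      ≤ ∫⁻ w in {w : P2 | w.1 ∈ B}, (ENNReal.ofReal k1 * (F1 w.1 * G1 w.2) +
          (ENNReal.ofReal k2 * (R w.1 * G2 w.2) + ENNReal.ofReal k3 * (F3 w.1 * Lam w.2))) ∂W2 :=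
        setLIntegral_mono' hset hpt
    _ = ENNReal.ofReal k1 * ((∫⁻ a in B, F1 a ∂Wm) * ∫⁻ b, G1 b ∂Wm) +
          (ENNReal.ofReal k2 * ((∫⁻ a in B, R a ∂Wm) * ∫⁻ b, G2 b ∂Wm) +
          ENNReal.ofReal k3 * ((∫⁻ a in B, F3 a ∂Wm) * ∫⁻ b, Lam b ∂Wm)) := by
        have m1 : Measurable fun w : P2 => F1 w.1 * G1 w.2 :=
          (mF1.comp measurable_fst).mul (mG1.comp measurable_snd)
        have m2 : Measurable fun w : P2 => R w.1 * G2 w.2 :=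
          (hR.comp measurable_fst).mul (mG2.comp measurable_snd)
        have m3 : Measurable fun w : P2 => F3 w.1 * Lam w.2 :=
          (mF3.comp measurable_fst).mul (hL.comp measurable_snd)
        rw [lintegral_add_left (m1.const_mul _), lintegral_add_left (m2.const_mul _),
          lintegral_const_mul _ m1, lintegral_const_mul _ m2, lintegral_const_mul _ m3,
          Lr3_two mF1 mG1, Lr3_two hR mG2, Lr3_two mF3 hL]
    _ ≤ ENNReal.ofReal k1 * ((ENNReal.ofReal (A * x0 + x1) * I) * ENNReal.ofReal (l0 + σ * l2)) +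
          (ENNReal.ofReal k2 * ((ENNReal.ofReal x0 * I) * ENNReal.ofReal l2) +
          ENNReal.ofReal k3 * ((ENNReal.ofReal (A ^ 4 * x0 + x4) * I) * ENNReal.ofReal l0)) := by
        have b1 : ∫⁻ a in B, F1 a ∂Wm ≤ ENNReal.ofReal (A * x0 + x1) * I := by
          simp only [hF1]
          rw [lintegral_add_left (hR.const_mul _), lintegral_const_mul _ hR,
            ENNReal.ofReal_add (by positivity) hx1, ENNReal.ofReal_mul hA, add_mul, mul_assoc]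
          exact add_le_add (mul_le_mul_right hX0 _) hX1
        have b3 : ∫⁻ a in B, F3 a ∂Wm ≤ ENNReal.ofReal (A ^ 4 * x0 + x4) * I := by
          simp only [hF3]
          rw [lintegral_add_left (hR.const_mul _), lintegral_const_mul _ hR,
            ENNReal.ofReal_add (by positivity) hx4, ENNReal.ofReal_mul (by positivity), add_mul, mul_assoc]
          exact add_le_add (mul_le_mul_right hX0 _) hX4
        have c1 : ∫⁻ b, G1 b ∂Wm ≤ ENNReal.ofReal (l0 + σ * l2) := by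
          simp only [hG1]
          rw [lintegral_add_left hL, lintegral_const_mul _ mG2,
            ENNReal.ofReal_add hl0 (by positivity), ENNReal.ofReal_mul hσ]
          exact add_le_add hL0 (mul_le_mul_right hL2 _)
        gcongr
    _ = _ := by
        have e : ENNReal.ofReal (k1 * ((A * x0 + x1) * (l0 + σ * l2)) + k2 * (x0 * l2) +
            k3 * ((A ^ 4 * x0 + x4) * l0)) =
            ENNReal.ofReal k1 * (ENNReal.ofReal (A * x0 + x1) * ENNReal.ofReal (l0 + σ * l2)) +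
            ENNReal.ofReal k2 * (ENNReal.ofReal x0 * ENNReal.ofReal l2) +
            ENNReal.ofReal k3 * (ENNReal.ofReal (A ^ 4 * x0 + x4) * ENNReal.ofReal l0) := by
          have p1 : 0 ≤ A * x0 + x1 := by positivity
          have p2 : 0 ≤ A ^ 4 * x0 + x4 := by positivity
          rw [← ENNReal.ofReal_mul p1, ← ENNReal.ofReal_mul hx0, ← ENNReal.ofReal_mul p2,
            ← ENNReal.ofReal_mul hk1, ← ENNReal.ofReal_mul hk2, ← ENNReal.ofReal_mul hk3,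
            ← ENNReal.ofReal_add (by positivity) (by positivity),
            ← ENNReal.ofReal_add (by positivity) (by positivity)]
        rw [e]
        ring

/-- sum of the powers of `s` in the bound of the mean -/
noncomputable def Lr3_H (γ l E1 E4 s : ℝ) : ℝ :=
  s ^ (-4 * γ) + (l * s ^ (-2 * γ) + (E1 * s ^ (-2 * γ - 1) + (s ^ (-2 * γ - 1 / 2) + (s ^ (2 * γ - 2) +
    (s ^ (-8 * γ) + (l ^ 4 * s ^ (0 : ℝ) + (E4 * s ^ (-4 : ℝ) + s ^ (-2 : ℝ))))))))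

theorem Lr3_ms (r p : ℝ) : Measurable fun u : ℝ => (r + u) ^ p :=
  (measurable_const.add measurable_id).pow_const p

theorem Lr3_int {γ : ℝ} (h1 : 1 / 4 < γ) (h2 : γ < 1 / 2) : ∃ K > 0, ∀ r J t L E1 E4 : ℝ, 1 ≤ r → 0 ≤ J →
    r + J ≤ t → 1 ≤ L → 0 ≤ E1 → 0 ≤ E4 →
    ∫⁻ u in Ioo (0 : ℝ) J, ENNReal.ofReal (Lr3_H γ (L / t) E1 E4 (r + u)) ≤
      ENNReal.ofReal (K * (r ^ (-(min (2 * γ - 1 / 2) (1 - 2 * γ))) + E1 * r ^ (-2 * γ) + E4 * r ^ (-3 : ℝ) +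
        L ^ 4 * t ^ (-2 * γ))) := by
  have q1 : 0 < 4 * γ - 1 := by linarith
  have q2 : 0 < 1 - 2 * γ := by linarith
  have q3 : 0 < 2 * γ := by linarith
  have q4 : 0 < 2 * γ - 1 / 2 := by linarith
  have q5 : 0 < 8 * γ - 1 := by linarith
  refine ⟨1 / (4 * γ - 1) + 1 / (1 - 2 * γ) + 1 / (2 * γ) + 1 / (2 * γ - 1 / 2) + 1 / (1 - 2 * γ) +
    1 / (8 * γ - 1) + 1 + 1 / 3 + 1, by positivity, ?_⟩
  intro r J t L E1 E4 hr hJ hJt hL hE1 hE4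
  have hr0 : 0 < r := by linarith
  have ht0 : 0 < t := by linarith
  have ht1 : 1 ≤ t := by linarith
  have hl0 : 0 ≤ L / t := by positivity
  set e := min (2 * γ - 1 / 2) (1 - 2 * γ) with he
  have he1 : e ≤ 2 * γ - 1 / 2 := min_le_left _ _
  have he2 : e ≤ 1 - 2 * γ := min_le_right _ _
  have I1 := Lr3_pow1 (p := -4 * γ) hr0 hJ (by linarith)
  have I2 := Lr3_mul hl0 (Lr3_pow2 (p := -2 * γ) hr0 hJ (by linarith))
  have I3 := Lr3_mul hE1 (Lr3_pow1 (p := -2 * γ - 1) hr0 hJ (by linarith))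
  have I4 := Lr3_pow1 (p := -2 * γ - 1 / 2) hr0 hJ (by linarith)
  have I5 := Lr3_pow1 (p := 2 * γ - 2) hr0 hJ (by linarith)
  have I6 := Lr3_pow1 (p := -8 * γ) hr0 hJ (by linarith)
  have I7 := Lr3_mul (show 0 ≤ (L / t) ^ 4 by positivity) (Lr3_pow2 (p := 0) hr0 hJ (by norm_num))
  have I8 := Lr3_mul hE4 (Lr3_pow1 (p := -4) hr0 hJ (by norm_num))
  have I9 := Lr3_pow1 (p := -2) hr0 hJ (by norm_num)
  have P : ∀ p : ℝ, 0 ≤ r ^ p := fun p => Real.rpow_nonneg hr0.le p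
  have hJr : 0 ≤ r + J := by linarith
  have P' : ∀ p : ℝ, 0 ≤ (r + J) ^ p := fun p => Real.rpow_nonneg hJr p
  have N1 : 0 ≤ r ^ (-4 * γ + 1) / (-(-4 * γ + 1)) := div_nonneg (P _) (by linarith)
  have N2 : 0 ≤ L / t * ((r + J) ^ (-2 * γ + 1) / (-2 * γ + 1)) :=
    mul_nonneg hl0 (div_nonneg (P' _) (by linarith))
  have N3 : 0 ≤ E1 * (r ^ (-2 * γ - 1 + 1) / (-(-2 * γ - 1 + 1))) :=
    mul_nonneg hE1 (div_nonneg (P _) (by linarith))
  have N4 : 0 ≤ r ^ (-2 * γ - 1 / 2 + 1) / (-(-2 * γ - 1 / 2 + 1)) := div_nonneg (P _) (by linarith)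
  have N5 : 0 ≤ r ^ (2 * γ - 2 + 1) / (-(2 * γ - 2 + 1)) := div_nonneg (P _) (by linarith)
  have N6 : 0 ≤ r ^ (-8 * γ + 1) / (-(-8 * γ + 1)) := div_nonneg (P _) (by linarith)
  have N7 : 0 ≤ (L / t) ^ 4 * ((r + J) ^ ((0 : ℝ) + 1) / ((0 : ℝ) + 1)) :=
    mul_nonneg (by positivity) (div_nonneg (P' _) (by norm_num))
  have N8 : 0 ≤ E4 * (r ^ ((-4 : ℝ) + 1) / (-((-4 : ℝ) + 1))) :=
    mul_nonneg hE4 (div_nonneg (P _) (by norm_num))
  have N9 : 0 ≤ r ^ ((-2 : ℝ) + 1) / (-((-2 : ℝ) + 1)) := div_nonneg (P _) (by norm_num)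
  have M8 := Lr3_add ((Lr3_ms r (-4)).const_mul E4) N8 N9 I8 I9
  have M7 := Lr3_add ((Lr3_ms r 0).const_mul ((L / t) ^ 4)) N7 (by linarith) I7 M8
  have M6 := Lr3_add (Lr3_ms r (-8 * γ)) N6 (by linarith) I6 M7
  have M5 := Lr3_add (Lr3_ms r (2 * γ - 2)) N5 (by linarith) I5 M6
  have M4 := Lr3_add (Lr3_ms r (-2 * γ - 1 / 2)) N4 (by linarith) I4 M5
  have M3 := Lr3_add ((Lr3_ms r (-2 * γ - 1)).const_mul E1) N3 (by linarith) I3 M4
  have M2 := Lr3_add ((Lr3_ms r (-2 * γ)).const_mul (L / t)) N2 (by linarith) I2 M3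
  have M1 := Lr3_add (Lr3_ms r (-4 * γ)) N1 (by linarith) I1 M2
  refine le_trans (le_of_eq ?_) (M1.trans (ENNReal.ofReal_le_ofReal ?_))
  · rfl
  · -- real inequality
    have hX1 : 0 ≤ r ^ (-e) := P _
    have hX2 : 0 ≤ E1 * r ^ (-2 * γ) := mul_nonneg hE1 (P _)
    have hX3 : 0 ≤ E4 * r ^ (-3 : ℝ) := mul_nonneg hE4 (P _)
    have hX4 : 0 ≤ L ^ 4 * t ^ (-2 * γ) := mul_nonneg (by positivity) (Real.rpow_nonneg ht0.le _)
    set X := r ^ (-e) + E1 * r ^ (-2 * γ) + E4 * r ^ (-3 : ℝ) + L ^ 4 * t ^ (-2 * γ) with hX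
    have mono : ∀ p : ℝ, p ≤ -e → r ^ p ≤ X := by
      intro p hp
      have := Real.rpow_le_rpow_of_exponent_le hr hp
      linarith
    have hinv : ∀ a c : ℝ, 0 < c → a ≤ X → a / c ≤ 1 / c * X := by
      intro a c hc ha
      rw [div_mul_eq_mul_div, one_mul]
      exact div_le_div_of_nonneg_right ha hc.le
    have B1 : r ^ (-4 * γ + 1) / (-(-4 * γ + 1)) ≤ 1 / (4 * γ - 1) * X := by
      rw [show -(-4 * γ + 1) = 4 * γ - 1 by ring]
      exact hinv _ _ q1 (mono _ (by linarith))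
    have B2 : L / t * ((r + J) ^ (-2 * γ + 1) / (-2 * γ + 1)) ≤ 1 / (1 - 2 * γ) * X := by
      rw [show -2 * γ + 1 = 1 - 2 * γ by ring, ← mul_div_assoc]
      apply hinv _ _ q2
      have h3 : (r + J) ^ (1 - 2 * γ) ≤ t ^ (1 - 2 * γ) := Real.rpow_le_rpow hJr hJt q2.le
      have h4 : L / t * t ^ (1 - 2 * γ) = L * t ^ (-2 * γ) := by
        rw [show 1 - 2 * γ = 1 + -2 * γ by ring, Real.rpow_add ht0, Real.rpow_one]
        field_simp
      have h5 : L ≤ L ^ 4 := by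
        have : L ^ 1 ≤ L ^ 4 := pow_le_pow_right₀ hL (by norm_num)
        simpa using this
      have h6 : L * t ^ (-2 * γ) ≤ L ^ 4 * t ^ (-2 * γ) :=
        mul_le_mul_of_nonneg_right h5 (Real.rpow_nonneg ht0.le _)
      have h7 := mul_le_mul_of_nonneg_left h3 hl0
      rw [h4] at h7
      linarith
    have B3 : E1 * (r ^ (-2 * γ - 1 + 1) / (-(-2 * γ - 1 + 1))) ≤ 1 / (2 * γ) * X := by
      rw [show -(-2 * γ - 1 + 1) = 2 * γ by ring, show -2 * γ - 1 + 1 = -2 * γ by ring, ← mul_div_assoc]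
      apply hinv _ _ q3
      linarith
    have B4 : r ^ (-2 * γ - 1 / 2 + 1) / (-(-2 * γ - 1 / 2 + 1)) ≤ 1 / (2 * γ - 1 / 2) * X := by
      rw [show -(-2 * γ - 1 / 2 + 1) = 2 * γ - 1 / 2 by ring]
      exact hinv _ _ q4 (mono _ (by linarith))
    have B5 : r ^ (2 * γ - 2 + 1) / (-(2 * γ - 2 + 1)) ≤ 1 / (1 - 2 * γ) * X := by
      rw [show -(2 * γ - 2 + 1) = 1 - 2 * γ by ring]
      exact hinv _ _ q2 (mono _ (by linarith))
    have B6 : r ^ (-8 * γ + 1) / (-(-8 * γ + 1)) ≤ 1 / (8 * γ - 1) * X := by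
      rw [show -(-8 * γ + 1) = 8 * γ - 1 by ring]
      exact hinv _ _ q5 (mono _ (by linarith))
    have B7 : (L / t) ^ 4 * ((r + J) ^ ((0 : ℝ) + 1) / ((0 : ℝ) + 1)) ≤ 1 * X := by
      rw [zero_add, div_one, Real.rpow_one]
      have h3 : (L / t) ^ 4 * (r + J) ≤ (L / t) ^ 4 * t := mul_le_mul_of_nonneg_left hJt (by positivity)
      have h4 : (L / t) ^ 4 * t = L ^ 4 * t ^ (-3 : ℝ) := by
        rw [Real.rpow_neg ht0.le, show (3 : ℝ) = ((3 : ℕ) : ℝ) by norm_num, Real.rpow_natCast]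
        field_simp
      have h5 : t ^ (-3 : ℝ) ≤ t ^ (-2 * γ) := Real.rpow_le_rpow_of_exponent_le ht1 (by linarith)
      have h6 : L ^ 4 * t ^ (-3 : ℝ) ≤ L ^ 4 * t ^ (-2 * γ) := mul_le_mul_of_nonneg_left h5 (by positivity)
      linarith
    have B8 : E4 * (r ^ ((-4 : ℝ) + 1) / (-((-4 : ℝ) + 1))) ≤ 1 / 3 * X := by
      rw [show -((-4 : ℝ) + 1) = 3 by norm_num, show (-4 : ℝ) + 1 = -3 by norm_num, ← mul_div_assoc]
      apply hinv _ _ (by norm_num)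
      linarith
    have B9 : r ^ ((-2 : ℝ) + 1) / (-((-2 : ℝ) + 1)) ≤ 1 * X := by
      rw [show -((-2 : ℝ) + 1) = 1 by norm_num, div_one, one_mul]
      exact mono _ (by linarith)
    have hfin : (1 / (4 * γ - 1) + 1 / (1 - 2 * γ) + 1 / (2 * γ) + 1 / (2 * γ - 1 / 2) + 1 / (1 - 2 * γ) +
        1 / (8 * γ - 1) + 1 + 1 / 3 + 1) * X = 1 / (4 * γ - 1) * X + 1 / (1 - 2 * γ) * X + 1 / (2 * γ) * X +
        1 / (2 * γ - 1 / 2) * X + 1 / (1 - 2 * γ) * X + 1 / (8 * γ - 1) * X + 1 * X + 1 / 3 * X + 1 * X := by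
      ring
    rw [hfin]
    linarith

theorem Lr3_p4 (a b : ℝ) : (a + b) ^ 4 ≤ 8 * (a ^ 4 + b ^ 4) := by
  nlinarith [sq_nonneg (a - b), sq_nonneg (a + b), sq_nonneg (a ^ 2 - b ^ 2), sq_nonneg (a ^ 2 + b ^ 2),
    mul_nonneg (sq_nonneg (a - b)) (sq_nonneg (a + b)), mul_nonneg (sq_nonneg (a - b)) (sq_nonneg a),
    mul_nonneg (sq_nonneg (a - b)) (sq_nonneg b), sq_nonneg ((a - b) ^ 2)]

theorem Lr3_h {γ Cq β K Cx C4 Ca Cb U2 : ℝ} (hCq : 0 ≤ Cq) (hβ : 0 ≤ β) (hK : 0 ≤ K) (hCx : 0 ≤ Cx)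
    (hC4 : 0 ≤ C4) (hCa : 0 ≤ Ca) (hCb : 0 ≤ Cb) (hU : 0 ≤ U2) {s u l Dr Dm P N : ℝ} (hs : 1 ≤ s)
    (hu : 0 ≤ u) (hus : u ≤ s) (hl : 0 ≤ l) (hDr : 0 ≤ Dr) (hDm : 0 ≤ Dm) (hP : 0 ≤ P) (hN : 0 ≤ N) :
    (Cq * β * s ^ (-2 * γ) / s) * ((K * (s ^ (1 - 2 * γ) + s * l) * P + Cx * (Dr + Dm + √u) * P) *
      (Ca * N + s ^ (-2 * γ) * (Cb * U2 * s ^ (2 * γ) * N))) +
      (Cq / s ^ 2) * (P * (Cb * U2 * s ^ (2 * γ) * N)) +
      (8 * Cq / s ^ 4) * (((K * (s ^ (1 - 2 * γ) + s * l)) ^ 4 * P + C4 * (Dr ^ 2 + Dm ^ 2 + u) ^ 2 * P) *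
        (Ca * N)) ≤
    (Cq * β * (K + Cx) * (Ca + Cb * U2) + Cq * (Cb * U2) + 8 * Cq * (8 * K ^ 4 + 3 * C4) * Ca) *
      Lr3_H γ l (Dr + Dm) (Dr ^ 4 + Dm ^ 4) s * (P * N) := by
  have hs0 : 0 < s := by linarith
  have R : ∀ p : ℝ, 0 ≤ s ^ p := fun p => Real.rpow_nonneg hs0.le p
  have e1 : s ^ (-2 * γ) * s ^ (2 * γ) = 1 := by
    rw [← Real.rpow_add hs0, show -2 * γ + 2 * γ = 0 by ring, Real.rpow_zero]
  have e2 : s ^ (-2 * γ) / s = s ^ (-2 * γ - 1) := by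
    rw [Real.rpow_sub hs0, Real.rpow_one]
  have e3 : s ^ (-2 * γ - 1) * s ^ (1 - 2 * γ) = s ^ (-4 * γ) := by
    rw [← Real.rpow_add hs0]; congr 1; ring
  have e4 : s ^ (-2 * γ - 1) * s = s ^ (-2 * γ) := by
    rw [Real.rpow_sub hs0, Real.rpow_one]; field_simp
  have e5 : s ^ (-2 * γ - 1) * s ^ ((1 : ℝ) / 2) = s ^ (-2 * γ - 1 / 2) := by
    rw [← Real.rpow_add hs0]; congr 1; ring
  have e6 : s ^ (2 * γ) / s ^ 2 = s ^ (2 * γ - 2) := by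
    rw [Real.rpow_sub hs0, show (2 : ℝ) = ((2 : ℕ) : ℝ) by norm_num, Real.rpow_natCast]
  have e7 : (s ^ (1 - 2 * γ)) ^ 4 / s ^ 4 = s ^ (-8 * γ) := by
    rw [← Real.rpow_natCast (s ^ (1 - 2 * γ)) 4, ← Real.rpow_mul hs0.le, ← Real.rpow_natCast s 4,
      ← Real.rpow_sub hs0]
    congr 1
    push_cast
    ring
  have e8 : 1 / s ^ 4 = s ^ (-4 : ℝ) := by
    rw [Real.rpow_neg hs0.le, show (4 : ℝ) = ((4 : ℕ) : ℝ) by norm_num, Real.rpow_natCast, one_div]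
  have e9 : s ^ 2 / s ^ 4 = s ^ (-2 : ℝ) := by
    rw [Real.rpow_neg hs0.le, show (2 : ℝ) = ((2 : ℕ) : ℝ) by norm_num, Real.rpow_natCast]
    field_simp
  have hsq : √u ≤ s ^ ((1 : ℝ) / 2) := by
    rw [Real.sqrt_eq_rpow]
    exact Real.rpow_le_rpow hu hus (by norm_num)
  have hPN : 0 ≤ P * N := mul_nonneg hP hN
  set G := s ^ (1 - 2 * γ) with hG
  have hG0 : 0 ≤ G := R _
  -- first term
  have t1 : (Cq * β * s ^ (-2 * γ) / s) * ((K * (G + s * l) * P + Cx * (Dr + Dm + √u) * P) *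
      (Ca * N + s ^ (-2 * γ) * (Cb * U2 * s ^ (2 * γ) * N))) ≤
      (Cq * β * (K + Cx) * (Ca + Cb * U2)) * (s ^ (-4 * γ) + (l * s ^ (-2 * γ) + ((Dr + Dm) * s ^ (-2 * γ - 1) +
        s ^ (-2 * γ - 1 / 2)))) * (P * N) := by
    have a1 : (Cq * β * s ^ (-2 * γ) / s) * ((K * (G + s * l) * P + Cx * (Dr + Dm + √u) * P) *
        (Ca * N + s ^ (-2 * γ) * (Cb * U2 * s ^ (2 * γ) * N))) =
        (Cq * β * (Ca + Cb * U2) * s ^ (-2 * γ - 1) * (P * N)) * (K * (G + s * l) + Cx * (Dr + Dm + √u)) := by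
      rw [← e2]
      have : s ^ (-2 * γ) * (Cb * U2 * s ^ (2 * γ) * N) = Cb * U2 * N * (s ^ (-2 * γ) * s ^ (2 * γ)) := by ring
      rw [this, e1]
      ring
    have a2 : K * (G + s * l) + Cx * (Dr + Dm + √u) ≤
        (K + Cx) * (G + s * l + (Dr + Dm) + s ^ ((1 : ℝ) / 2)) := by
      have b1 : 0 ≤ Cx * (G + s * l) := by positivity
      have b2 : 0 ≤ K * (Dr + Dm + s ^ ((1 : ℝ) / 2)) := mul_nonneg hK (by linarith [R ((1 : ℝ) / 2)])
      have b3 : Cx * √u ≤ Cx * s ^ ((1 : ℝ) / 2) := mul_le_mul_of_nonneg_left hsq hCx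
      nlinarith
    rw [a1]
    have a3 : 0 ≤ Cq * β * (Ca + Cb * U2) * s ^ (-2 * γ - 1) * (P * N) :=
      mul_nonneg (mul_nonneg (by positivity) (R _)) hPN
    refine (mul_le_mul_of_nonneg_left a2 a3).trans (le_of_eq ?_)
    rw [← e3, ← e4, ← e5]
    ring
  have t2 : (Cq / s ^ 2) * (P * (Cb * U2 * s ^ (2 * γ) * N)) =
      (Cq * (Cb * U2)) * s ^ (2 * γ - 2) * (P * N) := by
    rw [← e6]
    ring
  have t3 : (8 * Cq / s ^ 4) * (((K * (G + s * l)) ^ 4 * P + C4 * (Dr ^ 2 + Dm ^ 2 + u) ^ 2 * P) *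
        (Ca * N)) ≤ (8 * Cq * (8 * K ^ 4 + 3 * C4) * Ca) * (s ^ (-8 * γ) + (l ^ 4 +
          ((Dr ^ 4 + Dm ^ 4) * s ^ (-4 : ℝ) + s ^ (-2 : ℝ)))) * (P * N) := by
    have a1 : (K * (G + s * l)) ^ 4 + C4 * (Dr ^ 2 + Dm ^ 2 + u) ^ 2 ≤
        (8 * K ^ 4 + 3 * C4) * (G ^ 4 + (s * l) ^ 4 + (Dr ^ 4 + Dm ^ 4) + s ^ 2) := by
      have b1 : (K * (G + s * l)) ^ 4 ≤ 8 * K ^ 4 * (G ^ 4 + (s * l) ^ 4) := by
        rw [mul_pow]
        have := mul_le_mul_of_nonneg_left (Lr3_p4 G (s * l)) (show 0 ≤ K ^ 4 by positivity)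
        linarith
      have b2 : (Dr ^ 2 + Dm ^ 2 + u) ^ 2 ≤ 3 * (Dr ^ 4 + Dm ^ 4 + s ^ 2) := by
        have c1 : u ^ 2 ≤ s ^ 2 := pow_le_pow_left₀ hu hus 2
        nlinarith [sq_nonneg (Dr ^ 2 - Dm ^ 2), sq_nonneg (Dr ^ 2 - u), sq_nonneg (Dm ^ 2 - u)]
      have b3 := mul_le_mul_of_nonneg_left b2 hC4
      have b4 : 0 ≤ 3 * C4 * (G ^ 4 + (s * l) ^ 4) := by positivity
      have b5 : 0 ≤ 8 * K ^ 4 * (Dr ^ 4 + Dm ^ 4 + s ^ 2) := by positivity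
      nlinarith
    have a2 : (8 * Cq / s ^ 4) * (((K * (G + s * l)) ^ 4 * P + C4 * (Dr ^ 2 + Dm ^ 2 + u) ^ 2 * P) *
        (Ca * N)) = (8 * Cq * Ca * (1 / s ^ 4) * (P * N)) *
          ((K * (G + s * l)) ^ 4 + C4 * (Dr ^ 2 + Dm ^ 2 + u) ^ 2) := by ring
    rw [a2]
    have a3 : 0 ≤ 8 * Cq * Ca * (1 / s ^ 4) * (P * N) := by positivity
    refine (mul_le_mul_of_nonneg_left a1 a3).trans (le_of_eq ?_)
    rw [← e7, ← e8, ← e9]
    field_simp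
    ring
  have hH : Lr3_H γ l (Dr + Dm) (Dr ^ 4 + Dm ^ 4) s =
      (s ^ (-4 * γ) + (l * s ^ (-2 * γ) + ((Dr + Dm) * s ^ (-2 * γ - 1) + s ^ (-2 * γ - 1 / 2)))) +
      s ^ (2 * γ - 2) + (s ^ (-8 * γ) + (l ^ 4 + ((Dr ^ 4 + Dm ^ 4) * s ^ (-4 : ℝ) + s ^ (-2 : ℝ)))) := by
    unfold Lr3_H
    rw [Real.rpow_zero]
    ring
  rw [t2]
  refine (add_le_add (add_le_add t1 le_rfl) t3).trans ?_
  rw [hH]
  set S1 := s ^ (-4 * γ) + (l * s ^ (-2 * γ) + ((Dr + Dm) * s ^ (-2 * γ - 1) + s ^ (-2 * γ - 1 / 2))) with hS1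
  set S2 := s ^ (2 * γ - 2) with hS2
  set S3 := s ^ (-8 * γ) + (l ^ 4 + ((Dr ^ 4 + Dm ^ 4) * s ^ (-4 : ℝ) + s ^ (-2 : ℝ))) with hS3
  have n1 : 0 ≤ S1 := by
    have := R (-4 * γ)
    have := R (-2 * γ)
    have := R (-2 * γ - 1)
    have := R (-2 * γ - 1 / 2)
    positivity
  have n2 : 0 ≤ S2 := R _
  have n3 : 0 ≤ S3 := by
    have := R (-8 * γ)
    have := R (-4)
    have := R (-2)
    positivity
  have c1 : 0 ≤ Cq * β * (K + Cx) * (Ca + Cb * U2) := by positivity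
  have c2 : 0 ≤ Cq * (Cb * U2) := by positivity
  have c3 : 0 ≤ 8 * Cq * (8 * K ^ 4 + 3 * C4) * Ca := by positivity
  have z : Cq * β * (K + Cx) * (Ca + Cb * U2) * S1 * (P * N) + Cq * (Cb * U2) * S2 * (P * N) +
      8 * Cq * (8 * K ^ 4 + 3 * C4) * Ca * S3 * (P * N) =
      (Cq * β * (K + Cx) * (Ca + Cb * U2) * S1 + Cq * (Cb * U2) * S2 +
      8 * Cq * (8 * K ^ 4 + 3 * C4) * Ca * S3) * (P * N) := by ring
  rw [z]
  apply mul_le_mul_of_nonneg_right _ hPN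
  generalize Cq * β * (K + Cx) * (Ca + Cb * U2) = d1 at *
  generalize Cq * (Cb * U2) = d2 at *
  generalize 8 * Cq * (8 * K ^ 4 + 3 * C4) * Ca = d3 at *
  nlinarith [mul_nonneg c1 n2, mul_nonneg c1 n3, mul_nonneg c2 n1, mul_nonneg c2 n3, mul_nonneg c3 n1,
    mul_nonneg c3 n2]

/-- the explicit bound of the error of the potential -/
noncomputable def Lr3_Q (γ Cq β K l Dr y r u : ℝ) (w : P2) : ℝ :=
  (Cq * β * (r + u) ^ (-2 * γ) / (r + u)) * ((K * ((r + u) ^ (1 - 2 * γ) + (r + u) * l) + (Dr - w.1 u)) *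
    (1 + (r + u) ^ (-2 * γ) * (y + w.2 u) ^ 2)) + Cq / (r + u) ^ 2 * (y + w.2 u) ^ 2 +
    8 * Cq / (r + u) ^ 4 * ((K * ((r + u) ^ (1 - 2 * γ) + (r + u) * l)) ^ 4 + (Dr - w.1 u) ^ 4)

theorem Lr3_Qm (γ Cq β K l Dr y r : ℝ) :
    Measurable fun v : P2 × ℝ => Lr3_Q γ Cq β K l Dr y r v.2 v.1 := by
  have m1 : Measurable fun v : P2 × ℝ => v.1.1 v.2 :=
    Pth.measurable_eval2.comp (measurable_snd.prodMk (measurable_fst.comp measurable_fst))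
  have m2 : Measurable fun v : P2 × ℝ => v.1.2 v.2 :=
    Pth.measurable_eval2.comp (measurable_snd.prodMk (measurable_snd.comp measurable_fst))
  have m3 : Measurable fun v : P2 × ℝ => r + v.2 := measurable_const.add measurable_snd
  have m4 : ∀ p : ℝ, Measurable fun v : P2 × ℝ => (r + v.2) ^ p := fun p => m3.pow_const p
  have m5 : Measurable fun v : P2 × ℝ => (y + v.1.2 v.2) ^ 2 := (measurable_const.add m2).pow_const 2
  have m6 : Measurable fun v : P2 × ℝ => K * ((r + v.2) ^ (1 - 2 * γ) + (r + v.2) * l) :=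
    ((m4 _).add (m3.mul_const l)).const_mul K
  have m7 : Measurable fun v : P2 × ℝ => Dr - v.1.1 v.2 := measurable_const.sub m1
  unfold Lr3_Q
  refine Measurable.add (Measurable.add ?_ ?_) ?_
  · exact (((m4 _).const_mul _).div m3).mul ((m6.add m7).mul (measurable_const.add ((m4 _).mul m5)))
  · exact (measurable_const.div (m3.pow_const 2)).mul m5
  · exact (measurable_const.div (m3.pow_const 4)).mul ((m6.pow_const 4).add (m7.pow_const 4))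

theorem Lr3_real {c β σ Y Cq A D d s : ℝ} (hc : c ≤ β * (σ * (1 + σ * Y ^ 2))) (hβ : 0 ≤ β) (hσ : 0 ≤ σ)
    (hCq : 0 ≤ Cq) (hs : 0 < s) (hd0 : 0 ≤ d) (hd : d ≤ A + D) :
    Cq * (c * (d / s) + Y ^ 2 / s ^ 2 + (d / s) ^ 4) ≤
      Cq * β * σ / s * ((A + D) * (1 + σ * Y ^ 2)) + Cq / s ^ 2 * Y ^ 2 + 8 * Cq / s ^ 4 * (A ^ 4 + D ^ 4) := by
  have b1 : c * (d / s) ≤ β * σ / s * ((A + D) * (1 + σ * Y ^ 2)) := by
    have c0 : c * (d / s) ≤ (β * (σ * (1 + σ * Y ^ 2))) * (d / s) :=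
      mul_le_mul_of_nonneg_right hc (by positivity)
    have c1 : (β * (σ * (1 + σ * Y ^ 2))) * (d / s) ≤ (β * (σ * (1 + σ * Y ^ 2))) * ((A + D) / s) :=
      mul_le_mul_of_nonneg_left (div_le_div_of_nonneg_right hd hs.le) (by positivity)
    refine (c0.trans c1).trans (le_of_eq ?_)
    ring
  have b2 : (d / s) ^ 4 ≤ 8 / s ^ 4 * (A ^ 4 + D ^ 4) := by
    have c1 : d ^ 4 ≤ (A + D) ^ 4 := pow_le_pow_left₀ hd0 hd 4
    have c2 := Lr3_p4 A D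
    rw [div_pow, div_mul_eq_mul_div]
    exact div_le_div_of_nonneg_right (by linarith) (by positivity)
  calc Cq * (c * (d / s) + Y ^ 2 / s ^ 2 + (d / s) ^ 4)
      ≤ Cq * (β * σ / s * ((A + D) * (1 + σ * Y ^ 2)) + Y ^ 2 / s ^ 2 + 8 / s ^ 4 * (A ^ 4 + D ^ 4)) :=
        mul_le_mul_of_nonneg_left (by linarith) hCq
    _ = _ := by ring

/-- bound of the distance -/
theorem Lr3_dist {α β lam a C0 : ℝ} (hα : 0 < α) (hα2 : α < 2) (hβ : 0 < β) (hlam : 0 < lam)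
    {r t ℓ : ℝ} {n : ℕ} {h : ℝ≥0} {θ : ℕ → ℝ} {p : Pth} (hr : 1 ≤ r) (hL : 1 ≤ Real.log t) (ht : 0 < t)
    (H : Lc α β lam a C0 r t ℓ n h θ p) {u : ℝ} (hu : u ∈ Ioo (0 : ℝ) (t - ℓ - r)) :
    √2 * (r + u) - (f0 α β lam a t r + p u) ≤
      (Kpf_a α β lam + cc α + |a| + 1) * ((r + u) ^ (1 - 2 * gam α) + (r + u) * (Real.log t / t)) := by
  obtain ⟨hg0, hγ0, hγ1, hgg⟩ := gg_pos hα hα2
  have hKa := Kpf_a_pos hα hα2 hβ hlam
  have hcc : 0 < cc α := by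
    unfold cc
    have : 0 < 3 - gam α := by linarith
    positivity
  have hs0 : 0 < r + u := by linarith [hu.1]
  have hf2 := H.f0le u hu.1.le hu.2.le
  have h2 : f0 α β lam a t (r + u) = √2 * (r + u) - kap α β lam (r + u) - (r + u) / t * (cc α * Real.log t - a) := rfl
  have h3 : kap α β lam (r + u) = Kpf_a α β lam * (r + u) ^ (1 - 2 * gam α) := by rw [Kpf_kap, hgg]
  rw [h2, h3] at hf2
  have hsg : 0 ≤ (r + u) ^ (1 - 2 * gam α) := Real.rpow_nonneg hs0.le _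
  generalize (r + u) ^ (1 - 2 * gam α) = G at *
  generalize f0 α β lam a t r + p u = F at *
  generalize Kpf_a α β lam = Ka at *
  generalize cc α = c at *
  generalize r + u = s at *
  generalize Real.log t = L at *
  have h6 : -a ≤ |a| := neg_le_abs a
  have ha0 : 0 ≤ |a| := abs_nonneg a
  generalize |a| = a' at *
  have h5 : c * L - a ≤ (c + a') * L := by nlinarith
  have h8 := mul_le_mul_of_nonneg_left h5 (show 0 ≤ s / t by positivity)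
  have h9 : 0 ≤ (c + a' + 1) * G := by positivity
  have h10 : 0 ≤ (Ka + 1) * (s * (L / t)) := by positivity
  have h11 : (Ka + c + a' + 1) * (G + s * (L / t)) = Ka * G + s / t * ((c + a') * L) +
      (c + a' + 1) * G + (Ka + 1) * (s * (L / t)) := by ring
  rw [h11]
  linarith

theorem Lr3_pt {b : ℝ → ℝ} {α β lam a C0 Cq : ℝ} (hα : 0 < α) (hα2 : α < 2) (hβ : 0 < β) (hlam : 0 < lam)
    (hCq : 0 < Cq)
    (hq : ∀ s, 1 ≤ s → ∀ z : ℂ, z.re ≤ √2 * s →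
      1 - b (Complex.arg z) ≤ c0 α β s z.im + Cq * (c0 α β s z.im * ((√2 * s - z.re) / s) + z.im ^ 2 / s ^ 2 +
        ((√2 * s - z.re) / s) ^ 4))
    {r t ℓ : ℝ} {n : ℕ} {h : ℝ≥0} {θ : ℕ → ℝ} {p : Pth} (hr : 1 ≤ r) (hL : 1 ≤ Real.log t) (ht : 0 < t)
    (H : Lc α β lam a C0 r t ℓ n h θ p) (x : ℂ) {w : P2}
    (hw : w.1 ∈ Blw (f0 α β lam a t r - x.re) 0 (t - ℓ - r)) {u : ℝ} (hu : u ∈ Ioo (0 : ℝ) (t - ℓ - r)) :
    max 0 (1 - b (Complex.arg (Bp x p w u)) - c0 α β (r + u) (Bp x p w u).im) ≤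
      Lr3_Q (gam α) Cq β (Kpf_a α β lam + cc α + |a| + 1) (Real.log t / t) (f0 α β lam a t r - x.re) x.im r u w := by
  have hdist := Lr3_dist hα hα2 hβ hlam hr hL ht H hu
  have hs1 : 1 ≤ r + u := by linarith [hu.1]
  have hs0 : 0 < r + u := by linarith
  have hD : 0 < f0 α β lam a t r - x.re - w.1 u := by
    have := hw u ⟨hu.1.le, hu.2.le⟩
    linarith
  have hre : (Bp x p w u).re = x.re + p u + w.1 u := by
    simp [Bp, pt]
  have him : (Bp x p w u).im = x.im + w.2 u := by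
    simp [Bp, pt]
  have hf1 := H.fle u hu.1.le hu.2.le
  have hle : (Bp x p w u).re ≤ √2 * (r + u) := by rw [hre]; linarith
  have hqz := hq (r + u) hs1 (Bp x p w u) hle
  have hc0 := Lr3_c0 (α := α) (β := β) hα hα2 hβ hs1 (Bp x p w u).im
  have hc00 : 0 ≤ c0 α β (r + u) (Bp x p w u).im := by unfold c0; positivity
  have hσ : 0 ≤ (r + u) ^ (-2 * gam α) := Real.rpow_nonneg hs0.le _
  have hd0 : 0 ≤ √2 * (r + u) - (Bp x p w u).re := by linarith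
  have hdA : √2 * (r + u) - (Bp x p w u).re ≤ (Kpf_a α β lam + cc α + |a| + 1) *
      ((r + u) ^ (1 - 2 * gam α) + (r + u) * (Real.log t / t)) + (f0 α β lam a t r - x.re - w.1 u) := by
    rw [hre]; linarith
  have hR := Lr3_real hc0 hβ.le hσ hCq.le hs0 hd0 hdA
  unfold Lr3_Q
  rw [← him]
  have hn : 0 ≤ Cq * (c0 α β (r + u) (Bp x p w u).im * ((√2 * (r + u) - (Bp x p w u).re) / (r + u)) +
      (Bp x p w u).im ^ 2 / (r + u) ^ 2 + ((√2 * (r + u) - (Bp x p w u).re) / (r + u)) ^ 4) := by positivity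
  apply max_le
  · exact hn.trans hR
  · linarith

theorem Lr3_mean {α β lam Cx C4 Ca Cb U2 Cq K l : ℝ} (hCq : 0 ≤ Cq) (hβ : 0 ≤ β) (hK : 0 ≤ K) (hCx : 0 ≤ Cx)
    (hC4 : 0 ≤ C4) (hCa : 0 ≤ Ca) (hCb : 0 ≤ Cb) (hU : 0 ≤ U2) (hα : 0 < α) (hl : 0 ≤ l)
    {w0 : ℝ → ℝ≥0∞} (hw : Measurable w0) {Dr Dm r T J y u : ℝ} (hr : 1 ≤ r) (hu : u ∈ Ioo 0 J) (hJ : 0 < J)
    (hT : 0 < T) (hDr : 1 ≤ Dr) (hDm : 1 ≤ Dm)
    (hx1 : ∫⁻ w in Blw Dr 0 J, ENNReal.ofReal (Dr - w u) * w0 (Dr - w J) ∂Wm ≤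
      ENNReal.ofReal (Cx * (Dr + Dm + √u) * (Dr / (J * √J))) * I0 w0)
    (hx4 : ∫⁻ w in Blw Dr 0 J, ENNReal.ofReal ((Dr - w u) ^ 4) * w0 (Dr - w J) ∂Wm ≤
      ENNReal.ofReal (C4 * (Dr ^ 2 + Dm ^ 2 + u) ^ 2 * (Dr / (J * √J))) * I0 w0)
    (hya : ∫⁻ w, ENNReal.ofReal (Lw α β r T y w) ∂Wm ≤ ENNReal.ofReal (Ca * NN α β lam r T))
    (hyb : ∫⁻ w, ENNReal.ofReal (Lw α β r T y w) * ENNReal.ofReal ((y + w u) ^ 2) ∂Wm ≤
        ENNReal.ofReal (Cb * U2 * (r + u) ^ (2 * gam α) * NN α β lam r T)) :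
    ∫⁻ w in {w : P2 | w.1 ∈ Blw Dr 0 J}, ENNReal.ofReal (Lr3_Q (gam α) Cq β K l Dr y r u w) *
      (w0 (Dr - w.1 J) * ENNReal.ofReal (Lw α β r T y w.2)) ∂W2 ≤
      ENNReal.ofReal ((Cq * β * (K + Cx) * (Ca + Cb * U2) + Cq * (Cb * U2) + 8 * Cq * (8 * K ^ 4 + 3 * C4) * Ca) *
      Lr3_H (gam α) l (Dr + Dm) (Dr ^ 4 + Dm ^ 4) (r + u) * (Dr / (J * √J) * NN α β lam r T)) * I0 w0 := by
  set s := r + u with hs
  have hs1 : 1 ≤ s := by linarith [hu.1]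
  have hs0 : 0 < s := by linarith
  have hus : u ≤ s := by linarith
  set P := Dr / (J * √J) with hP
  have hP0 : 0 ≤ P := by positivity
  set N := NN α β lam r T with hN
  have hN0 : 0 ≤ N := Y1_NN_nonneg (by linarith) hT
  have hR : ∀ p : ℝ, 0 ≤ s ^ p := fun p => Real.rpow_nonneg hs0.le p
  have hx0 : ∫⁻ w in Blw Dr 0 J, w0 (Dr - w J) ∂Wm ≤ ENNReal.ofReal P * I0 w0 := by
    refine (x_tot hw (by linarith) hJ).trans ?_
    gcongr
    rw [hP]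
    have h1 : √(2 / Real.pi) ≤ 1 := by
      rw [Real.sqrt_le_one]
      rw [div_le_one Real.pi_pos]
      linarith [Real.pi_gt_three]
    have h2 : √(2 / Real.pi) * Dr ≤ Dr := by nlinarith
    exact div_le_div_of_nonneg_right h2 (by positivity)
  have hmR : Measurable fun a : Pth => w0 (Dr - a J) :=
    hw.comp (measurable_const.sub (Pth.measurable_apply J))
  have hmL : Measurable fun a : Pth => ENNReal.ofReal (Lw α β r T y a) :=
    ENNReal.measurable_ofReal.comp (Lw_meas α β r T y hα)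
  have hmD : Measurable fun a : Pth => Dr - a u := measurable_const.sub (Pth.measurable_apply u)
  have hmY : Measurable fun a : Pth => y + a u := measurable_const.add (Pth.measurable_apply u)
  have hUs : 0 ≤ Cb * U2 * s ^ (2 * gam α) * N := mul_nonneg (mul_nonneg (by positivity) (hR _)) hN0
  have hM := Lr3_M (blw_meas Dr 0 J) hmR hmL hmD hmY (k1 := Cq * β * s ^ (-2 * gam α) / s)
    (k2 := Cq / s ^ 2) (k3 := 8 * Cq / s ^ 4) (A := K * (s ^ (1 - 2 * gam α) + s * l)) (σ := s ^ (-2 * gam α))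
    (by have := hR (-2 * gam α); positivity) (by positivity) (by positivity)
    (by have := hR (1 - 2 * gam α); positivity) (hR _)
    (q := fun w => Lr3_Q (gam α) Cq β K l Dr y r u w)
    (fun w hw => ⟨by
      have := hw u ⟨hu.1.le, hu.2.le⟩
      linarith, le_of_eq (by unfold Lr3_Q; rw [← hs])⟩)
    (x0 := P) (x1 := Cx * (Dr + Dm + √u) * P) (x4 := C4 * (Dr ^ 2 + Dm ^ 2 + u) ^ 2 * P) (l0 := Ca * N)
    (l2 := Cb * U2 * s ^ (2 * gam α) * N) (I := I0 w0) hP0 (by positivity) (by positivity) (by positivity) hUs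
    hx0 hx1 hx4 hya hyb
  refine hM.trans ?_
  gcongr
  exact Lr3_h hCq hβ hK hCx hC4 hCa hCb hU hs1 hu.1.le hus hl (by linarith) (by linarith) hP0 hN0

theorem lr3 {b : ℝ → ℝ} {α β lam ρ C : ℝ} {φ : ℝ → ℝ} (hα : 2 / 3 < α) (hα2 : α < 2) (hβ : 0 < β)
    (h' : A12 b α β) (G : GS α lam ρ C φ) (a C0 : ℝ) {U : ℝ} (hU : 0 < U) :
    ∃ C1 > 0, ∃ e > (0 : ℝ), ∃ r0 ≥ (1 : ℝ), ∀ r t ℓ Dm : ℝ, ∀ (n : ℕ) (h : ℝ≥0) (θ : ℕ → ℝ) (p : Pth), r0 ≤ r → 1 ≤ ℓ → 1 ≤ Dm →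
      2 * r + 2 * ℓ + 2 ≤ t - ℓ - r → Lc α β lam a C0 r t ℓ n h θ p → ∀ (x : ℂ), 1 ≤ f0 α β lam a t r - x.re →
      |x.im| ≤ U * r ^ gam α →
      ∀ w0 : ℝ → ℝ≥0∞, Measurable w0 → (∀ d, Dm < d → w0 d = 0) →
        ∫⁻ w in {w : P2 | w.1 ∈ Blw (f0 α β lam a t r - x.re) 0 (t - ℓ - r)},
          ENNReal.ofReal (∫ u in (0 : ℝ)..(t - ℓ - r),
            max 0 (1 - b (Complex.arg (Bp x p w u)) - c0 α β (r + u) (Bp x p w u).im)) *
          (w0 (f0 α β lam a t r - x.re - w.1 (t - ℓ - r)) * ENNReal.ofReal (Lw α β r (t - ℓ) x.im w.2)) ∂W2 ≤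
        ENNReal.ofReal (C1 * (r ^ (-e) + (f0 α β lam a t r - x.re + Dm) * r ^ (-2 * gam α) +
          ((f0 α β lam a t r - x.re) ^ 4 + Dm ^ 4) * r ^ (-3 : ℝ) + Real.log t ^ 4 * t ^ (-2 * gam α)) *
          Esc α β lam r t ℓ (f0 α β lam a t r - x.re)) * I0 w0 := by
  have hα0 : 0 < α := by linarith
  obtain ⟨hg0, hγ0, hγ1, hgg⟩ := gg_pos hα0 hα2
  have hglt := gg_lt hα hα2
  have hγ4 : 1 / 4 < gam α := by linarith
  have hlam : 0 < lam := G.lam_pos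
  have hKa := Kpf_a_pos hα0 hα2 hβ hlam
  have hcc : 0 < cc α := by
    unfold cc
    have : 0 < 3 - gam α := by linarith
    positivity
  obtain ⟨Cq, hCq, hq⟩ := qup hα0 hα2 hβ h'
  obtain ⟨Cx, hCx, hx1⟩ := x_one
  obtain ⟨C4, hC4, hx4⟩ := x_four
  obtain ⟨sa, hsa, Ca, hCa, hya⟩ := y_a hα0 hα2 hβ G
  obtain ⟨sb, hsb, Cb, hCb, hyb⟩ := y_b hα0 hα2 hβ G
  obtain ⟨K3, hK3, hint⟩ := Lr3_int hγ4 hγ1
  set K := Kpf_a α β lam + cc α + |a| + 1 with hK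
  have hK0 : 0 < K := by positivity
  set U2 := 1 + U ^ 2 with hU2
  have hU20 : 0 < U2 := by positivity
  set K2 := Cq * β * (K + Cx) * (Ca + Cb * U2) + Cq * (Cb * U2) + 8 * Cq * (8 * K ^ 4 + 3 * C4) * Ca with hK2
  have hK20 : 0 < K2 := by positivity
  refine ⟨K2 * K3, by positivity, min (2 * gam α - 1 / 2) (1 - 2 * gam α), lt_min (by linarith) (by linarith),
    max (max sa sb) 3, le_trans (by norm_num) (le_max_right _ _), ?_⟩
  intro r t ℓ Dm n h θ p hr hℓ hDm hJ H x hDr hxim w0 hw0 hw0s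
  have hra : sa ≤ r := ((le_max_left _ _).trans (le_max_left _ _)).trans hr
  have hrb : sb ≤ r := ((le_max_right _ _).trans (le_max_left _ _)).trans hr
  have hr3 : 3 ≤ r := (le_max_right _ _).trans hr
  have hr1 : 1 ≤ r := by linarith
  have hr0 : 0 < r := by linarith
  set Dr := f0 α β lam a t r - x.re with hDrd
  set J := t - ℓ - r with hJd
  have hJ0 : 0 < J := by linarith
  have hT0 : 0 < t - ℓ := by linarith
  have ht0 : 0 < t := by linarith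
  have ht3 : 3 ≤ t := by linarith
  have hL : 1 ≤ Real.log t := by
    rw [Real.le_log_iff_exp_le ht0]
    have := Real.exp_one_lt_d9
    linarith
  have hl0 : 0 ≤ Real.log t / t := by positivity
  set N := NN α β lam r (t - ℓ) with hN
  have hN0 : 0 ≤ N := Y1_NN_nonneg hr0 hT0
  have hE : Esc α β lam r t ℓ Dr = Dr / (J * √J) * N := rfl
  set Q : ℝ → P2 → ℝ := fun u w => Lr3_Q (gam α) Cq β K (Real.log t / t) Dr x.im r u w with hQ
  have hQm : Measurable fun v : P2 × ℝ => Q v.2 v.1 := Lr3_Qm _ _ _ _ _ _ _ _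
  set S := {w : P2 | w.1 ∈ Blw Dr 0 J} with hS
  have hSm : MeasurableSet S := measurable_fst (blw_meas Dr 0 J)
  set W : P2 → ℝ≥0∞ := fun w => w0 (Dr - w.1 J) * ENNReal.ofReal (Lw α β r (t - ℓ) x.im w.2) with hW
  have hWm : Measurable W := by
    refine Measurable.mul ?_ ?_
    · exact (hw0.comp (measurable_const.sub (Pth.measurable_apply J))).comp measurable_fst
    · exact (ENNReal.measurable_ofReal.comp (Lw_meas α β r (t - ℓ) x.im hα0)).comp measurable_snd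
  have hxx : x.im ^ 2 * r ^ (-2 * gam α) ≤ U ^ 2 := by
    have h1 : x.im ^ 2 ≤ (U * r ^ gam α) ^ 2 := by
      rw [← sq_abs x.im]
      exact pow_le_pow_left₀ (abs_nonneg _) hxim 2
    have h2 : (r ^ gam α) ^ 2 * r ^ (-2 * gam α) = 1 := by
      rw [← Real.rpow_natCast (r ^ gam α) 2, ← Real.rpow_mul hr0.le, ← Real.rpow_add hr0]
      push_cast
      rw [show gam α * 2 + -2 * gam α = 0 by ring, Real.rpow_zero]
    calc x.im ^ 2 * r ^ (-2 * gam α) ≤ (U * r ^ gam α) ^ 2 * r ^ (-2 * gam α) :=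
          mul_le_mul_of_nonneg_right h1 (Real.rpow_nonneg hr0.le _)
      _ = U ^ 2 * ((r ^ gam α) ^ 2 * r ^ (-2 * gam α)) := by ring
      _ = U ^ 2 := by rw [h2, mul_one]
  have hmean : ∀ u ∈ Ioo (0 : ℝ) J, ∫⁻ w in S, ENNReal.ofReal (Q u w) * W w ∂W2 ≤
      ENNReal.ofReal (K2 * Lr3_H (gam α) (Real.log t / t) (Dr + Dm) (Dr ^ 4 + Dm ^ 4) (r + u) *
        (Dr / (J * √J) * N)) * I0 w0 := by
    intro u hu
    have hb := hyb r (r + u) (t - ℓ) hrb (by linarith [hu.1]) (by linarith [hu.2]) x.im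
    have hb2 : ∫⁻ w, ENNReal.ofReal (Lw α β r (t - ℓ) x.im w) * ENNReal.ofReal ((x.im + w u) ^ 2) ∂Wm ≤
        ENNReal.ofReal (Cb * U2 * (r + u) ^ (2 * gam α) * N) := by
      have e : r + u - r = u := by ring
      rw [e] at hb
      refine hb.trans (ENNReal.ofReal_le_ofReal ?_)
      apply mul_le_mul_of_nonneg_right _ hN0
      apply mul_le_mul_of_nonneg_right _ (Real.rpow_nonneg (by linarith [hu.1]) _)
      apply mul_le_mul_of_nonneg_left _ hCb.le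
      rw [hU2]
      linarith
    exact Lr3_mean hCq.le hβ.le hK0.le hCx.le hC4.le hCa.le hCb.le hU20.le hα0 hl0 hw0 hr1 hu hJ0 hT0 hDr hDm
      (hx1 w0 hw0 Dr J Dm u hDr hDm hu.1 hu.2 hw0s) (hx4 w0 hw0 Dr J Dm u hDr hDm hu.1 hu.2 hw0s)
      (hya r (t - ℓ) hra (by linarith) x.im) hb2
  have hPN : 0 ≤ Dr / (J * √J) * N := by positivity
  calc ∫⁻ w in S, ENNReal.ofReal (∫ u in (0 : ℝ)..J,
            max 0 (1 - b (Complex.arg (Bp x p w u)) - c0 α β (r + u) (Bp x p w u).im)) * W w ∂W2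
      ≤ ∫⁻ w in S, (∫⁻ u in Ioo (0 : ℝ) J, ENNReal.ofReal (Q u w)) * W w ∂W2 := by
        refine setLIntegral_mono' hSm fun w hw => ?_
        gcongr
        refine (Lr3_ivl hJ0.le fun u => le_max_left _ _).trans ?_
        refine setLIntegral_mono' measurableSet_Ioo fun u hu => ?_
        exact ENNReal.ofReal_le_ofReal (Lr3_pt hα0 hα2 hβ hlam hCq hq hr1 hL ht0 H x hw hu)
    _ = ∫⁻ w in S, (∫⁻ u in Ioo (0 : ℝ) J, ENNReal.ofReal (Q u w) * W w) ∂W2 := by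
        refine lintegral_congr fun w => ?_
        rw [lintegral_mul_const]
        exact ENNReal.measurable_ofReal.comp (hQm.comp (measurable_const.prodMk measurable_id))
    _ = ∫⁻ u in Ioo (0 : ℝ) J, (∫⁻ w in S, ENNReal.ofReal (Q u w) * W w ∂W2) := by
        refine lintegral_lintegral_swap ?_
        exact ((ENNReal.measurable_ofReal.comp hQm).mul (hWm.comp measurable_fst)).aemeasurable
    _ ≤ ∫⁻ u in Ioo (0 : ℝ) J, ENNReal.ofReal (K2 * (Dr / (J * √J) * N)) * ENNReal.ofReal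
          (Lr3_H (gam α) (Real.log t / t) (Dr + Dm) (Dr ^ 4 + Dm ^ 4) (r + u)) * I0 w0 := by
        refine setLIntegral_mono' measurableSet_Ioo fun u hu => ?_
        refine (hmean u hu).trans (le_of_eq ?_)
        rw [← ENNReal.ofReal_mul (by positivity)]
        congr 2
        ring
    _ = ENNReal.ofReal (K2 * (Dr / (J * √J) * N)) * (∫⁻ u in Ioo (0 : ℝ) J, ENNReal.ofReal
          (Lr3_H (gam α) (Real.log t / t) (Dr + Dm) (Dr ^ 4 + Dm ^ 4) (r + u))) * I0 w0 := by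
        have hHm : Measurable fun u : ℝ => ENNReal.ofReal
            (Lr3_H (gam α) (Real.log t / t) (Dr + Dm) (Dr ^ 4 + Dm ^ 4) (r + u)) := by
          apply ENNReal.measurable_ofReal.comp
          unfold Lr3_H
          have := Lr3_ms r
          fun_prop
        rw [lintegral_mul_const _ (hHm.const_mul _), lintegral_const_mul _ hHm]
    _ ≤ ENNReal.ofReal (K2 * (Dr / (J * √J) * N)) * ENNReal.ofReal (K3 * (r ^ (-(min (2 * gam α - 1 / 2) (1 - 2 * gam α))) +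
          (Dr + Dm) * r ^ (-2 * gam α) + (Dr ^ 4 + Dm ^ 4) * r ^ (-3 : ℝ) + Real.log t ^ 4 * t ^ (-2 * gam α))) * I0 w0 := by
        gcongr
        exact hint r J t (Real.log t) (Dr + Dm) (Dr ^ 4 + Dm ^ 4) hr1 hJ0.le (by linarith) hL (by linarith)
          (by positivity)
    _ = _ := by
        rw [← ENNReal.ofReal_mul (by positivity), hE]
        congr 2
        ring

end Pool.H50.BB
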