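import Pool.Agent.H50.BB.Y1n

/-!
# Row Y2l: sharp lower asymptotics of Gm   (about 230 lines)

Fixed `U, ε > 0`; `N`, windows as in `Y2u`.  `wlo`: `ρ_0 = 0`, `ρ_k = ell(x_k)(sl_{k-1} - sl_k)/2 ∈ [0, C x_k^{-2g}]` (`slm`, `kink`), `f_N v = exp (-ε_t v²)`,
`f_k v = exp (-ρ_k v²) TV (Va α) h_k f_{k+1} v`.
(1) `nrm (f_k - TV (Va) h_k f_{k+1}) ≤ C ρ_k nrm f_{k+1}` (`det2`): `η_k = e^{4 lam} C ρ_k ≤ C x_k^{-2g}`, `B = ∑ η_k ≤ C r^{-g}` (`win_sum` with `δ = 2g`).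
(2) `f_{N-1} ≤ TV (Va) h f_N ≤ TV (Va) h 1`-type bound: `nrm f_{N-1} ≤ C` (`last_window` with `ω = 0`: `Va ≥ Vt α 0 R`, `tv_anti`, `R` with `R^η`... simply use `R = t`, `h = h_{N-1}`).
`c1 := ∫ φ f_{N-1} ≥ ∫ φ TV h f_N - C ρ_{N-1} nrm f_N nrm φ`, `∫ φ TV h f_N = e^{-lam h_{N-1}} ∫ φ f_N` and `∫ φ f_N → ∫ φ` as `t → ∞` (dominated convergence: `ε_t ≤ C t^{-g} → 0`, `φ` integrable by `GS.bd`);
`ρ_{N-1} nrm f_N ≤ C t^{-2g} t^{g/4} → 0`.
(3) `at_fun` on indices `1..N-2`: `f_1 = e^{-lam S} c1 φ + E`, `nrm E ≤ e^{-lam S}(e^B - 1 + Ce^{-ρS}) C`.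
(4) `f_0 u = TV (Va) h_0 f_1 u ≥ e^{-lam (S+h_0)} c1 φ u - 2 nrm E` (`ρ_0 = 0`).
(5) `h_0 + S + h_{N-1} = ∑_{k<N} h_k ≤ N H (…)`: `∑ h_k ≤ N H + C ∑ x_k^{-2g} ≤ N H + C r^{-g}` (`hhi`, `HH ≤ 2`, `win_sum`), so `e^{-lam ∑ h_k} ≥ e^{-C r^{-g}} exp (-√2 (kap t - kap r))`.
Choose `r0` (all `r`-errors `≤ ε/2`; `φ ≤ C`) and then `t` large.  If the lower bound is negative there is nothing to prove (`ofReal`).
-/

open MeasureTheory ProbabilityTheory Set Filter Topology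
open scoped NNReal ENNReal

namespace Pool.H50.BB

open Pool.Agent.H4.BM

variable {α β lam ρ C : ℝ} {φ : ℝ → ℝ}

theorem Y2l_seq (α : ℝ) (N : ℕ) (h r : ℕ → ℝ) (fN : ℝ → ℝ) : ∃ f : ℕ → ℝ → ℝ, f N = fN ∧
    ∀ k < N, f k = fun v => Real.exp (-r k * v ^ 2) * TV (Va α) (h k) (f (k + 1)) v := by
  let g : ℕ → ℝ → ℝ := fun j => Nat.rec fN
    (fun i p => fun v => Real.exp (-r (N - 1 - i) * v ^ 2) * TV (Va α) (h (N - 1 - i)) p v) j
  refine ⟨fun k => g (N - k), ?_, fun k hk => ?_⟩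
  · show g (N - N) = fN
    rw [Nat.sub_self]
    rfl
  · have e1 : N - k = (N - (k + 1)) + 1 := by omega
    have e2 : N - 1 - (N - (k + 1)) = k := by omega
    show g (N - k) = fun v => Real.exp (-r k * v ^ 2) * TV (Va α) (h k) (g (N - (k + 1))) v
    rw [e1]
    show (fun v => Real.exp (-r (N - 1 - (N - (k + 1))) * v ^ 2) *
      TV (Va α) (h (N - 1 - (N - (k + 1)))) (g (N - (k + 1))) v) = _
    rw [e2]

theorem Y2l_props (hα : 0 < α) (N : ℕ) {h r : ℕ → ℝ} {f : ℕ → ℝ → ℝ}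
    (hf : ∀ k < N, f k = fun v => Real.exp (-r k * v ^ 2) * TV (Va α) (h k) (f (k + 1)) v)
    (hm : Measurable (f N)) (h2 : MemLp (f N) 2 volume) (h0 : ∀ x, 0 ≤ f N x)
    (hh : ∀ k < N, 0 < h k) (hr : ∀ k < N, 0 ≤ r k) :
    ∀ k ≤ N, Measurable (f k) ∧ MemLp (f k) 2 volume ∧ ∀ x, 0 ≤ f k x := by
  have hp := Dat_pot hα
  have key : ∀ j ≤ N, Measurable (f (N - j)) ∧ MemLp (f (N - j)) 2 volume ∧ ∀ x, 0 ≤ f (N - j) x := by
    intro j
    induction j with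
    | zero => intro _; exact ⟨hm, h2, h0⟩
    | succ j ih =>
      intro hj
      obtain ⟨a, b, c⟩ := ih (by omega)
      have e1 : N - j = (N - (j + 1)) + 1 := by omega
      have hk : N - (j + 1) < N := by omega
      rw [e1] at a b c
      generalize hKdef : N - (j + 1) = K at *
      have m1 := tv_meas hp (hh K hk) a
      have l1 := (tv_L2 hp (hh K hk) a b).1
      have n1 := tv_nonneg (h := h K) hp c
      rw [hf K hk]
      have m2 : Measurable fun v : ℝ => Real.exp (-r K * v ^ 2) := by fun_prop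
      refine ⟨m2.mul m1, ?_, fun x => mul_nonneg (Real.exp_pos _).le (n1 x)⟩
      refine l1.mono (m2.mul m1).aestronglyMeasurable (ae_of_all _ fun v => ?_)
      show ‖Real.exp (-r K * v ^ 2) * TV (Va α) (h K) (f (K + 1)) v‖ ≤ _
      rw [norm_mul, Real.norm_of_nonneg (Real.exp_pos _).le]
      have : Real.exp (-r K * v ^ 2) ≤ 1 := by
        rw [Real.exp_le_one_iff]
        have := mul_nonneg (hr K hk) (sq_nonneg v)
        linarith
      exact mul_le_of_le_one_left (norm_nonneg _) this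
  intro k hk
  have := key (N - k) (by omega)
  have e : N - (N - k) = k := by omega
  rwa [e] at this

theorem Y2l_prod (n : ℕ) (η : ℕ → ℝ) (hη : ∀ k < n, 0 ≤ η k) {B : ℝ} (hB : ∑ k ∈ Finset.range n, η k ≤ B) :
    ∏ k ∈ Finset.range n, (1 + η k) ≤ Real.exp B := by
  calc ∏ k ∈ Finset.range n, (1 + η k) ≤ ∏ k ∈ Finset.range n, Real.exp (η k) := by
        refine Finset.prod_le_prod (fun k hk => ?_) fun k hk => ?_
        · have := hη k (Finset.mem_range.1 hk)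
          linarith
        · have := Real.add_one_le_exp (η k)
          linarith
    _ = Real.exp (∑ k ∈ Finset.range n, η k) := (Real.exp_sum _ _).symm
    _ ≤ Real.exp B := Real.exp_le_exp.2 hB

theorem Y2l_core (hα : 0 < α) (G : GS α lam ρ C φ) {C2 : ℝ} (hC2 : 0 < C2)
    (hd : ∀ r h : ℝ, 0 ≤ r → 1 / 8 ≤ h → h ≤ 4 → ∀ f : ℝ → ℝ, Measurable f → MemLp f 2 volume →
      nrm (fun u => Real.exp (-r * u ^ 2) * TV (Va α) h f u - TV (Va α) h f u) ≤ C2 * r * nrm f)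
    (n : ℕ) (hn : 1 ≤ n) {h r a : ℕ → ℝ} {f : ℕ → ℝ → ℝ}
    (hf : ∀ k < n + 2, f k = fun v => Real.exp (-r k * v ^ 2) * TV (Va α) (h k) (f (k + 1)) v)
    (hm : Measurable (f (n + 2))) (h2 : MemLp (f (n + 2)) 2 volume) (h0 : ∀ x, 0 ≤ f (n + 2) x)
    (hh : ∀ k < n + 2, 1 / 8 ≤ h k) (hh4 : ∀ k < n + 2, h k ≤ 4) (r0 : r 0 = 0)
    (hr : ∀ k < n + 2, 0 ≤ r k) (hra : ∀ k, 1 ≤ k → k < n + 2 → r k ≤ a k) {B K S : ℝ}
    (hB : ∑ k ∈ Finset.range (n + 2), a k ≤ B) (ha : ∀ k < n + 2, 0 ≤ a k)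
    (hK : nrm (f (n + 1)) ≤ K) (hS : S ≤ ∑ k ∈ Finset.range n, h (k + 1)) (u : ℝ) :
    Real.exp (-lam * ∑ k ∈ Finset.range (n + 2), h k) *
      ((∫ x, φ x * f (n + 2) x) * φ u - Real.exp (4 * lam) * C2 * (r (n + 1) * nrm (f (n + 2))) * φ u -
        2 * Real.exp (8 * lam) * (Real.exp (Real.exp (4 * lam) * C2 * B) - 1 + C * Real.exp (-ρ * S)) * K) ≤ f 0 u := by
  have hp := Dat_pot hα
  have hh0 : ∀ k < n + 2, 0 < h k := fun k hk => lt_of_lt_of_le (by norm_num) (hh k hk)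
  have P := Y2l_props hα (n + 2) hf hm h2 h0 hh0 hr
  have lam0 := G.lam_pos
  have rho0 := G.rho_pos
  have hφm := G.meas
  have hφ2 := Dat_gs_L2 G
  have hC1 := G.C_ge
  obtain ⟨A, hA⟩ : ∃ A, A = Real.exp (4 * lam) * C2 := ⟨_, rfl⟩
  have hA0 : 0 < A := by rw [hA]; positivity
  obtain ⟨T, hT⟩ : ∃ T, T = ∑ k ∈ Finset.range n, h (k + 1) := ⟨_, rfl⟩
  -- step estimates
  have st : ∀ k < n + 2, nrm (fun u => f k u - TV (Va α) (h k) (f (k + 1)) u) ≤ C2 * r k * nrm (f (k + 1)) := by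
    intro k hk
    have := hd (r k) (h k) (hr k hk) (hh k hk) (hh4 k hk) (f (k + 1)) (P (k + 1) (by omega)).1 (P (k + 1) (by omega)).2.1
    rw [hf k hk]
    exact this
  have H1 : ∀ k < n, nrm (fun u => f (k + 1) u - TV (Va α) (h (k + 1)) (f (k + 1 + 1)) u) ≤
      A * a (k + 1) * Real.exp (-lam * h (k + 1)) * nrm (f (k + 1 + 1)) := by
    intro k hk
    refine (st (k + 1) (by omega)).trans ?_
    refine mul_le_mul_of_nonneg_right ?_ (Dat_nonneg _)
    have e1 : 1 ≤ Real.exp (4 * lam) * Real.exp (-lam * h (k + 1)) := by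
      rw [← Real.exp_add, Real.one_le_exp_iff]
      have := hh4 (k + 1) (by omega)
      nlinarith
    have e2 := hra (k + 1) (by omega) (by omega)
    have e3 := ha (k + 1) (by omega)
    calc C2 * r (k + 1) ≤ C2 * a (k + 1) := mul_le_mul_of_nonneg_left e2 hC2.le
      _ ≤ C2 * a (k + 1) * (Real.exp (4 * lam) * Real.exp (-lam * h (k + 1))) :=
        le_mul_of_one_le_right (by positivity) e1
      _ = _ := by rw [hA]; ring
  have F := at_fun hα G n hn (fun k => h (k + 1)) (fun k => A * a (k + 1)) (fun k => f (k + 1))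
    (fun k hk => (P (k + 1) (by omega)).1) (fun k hk => (P (k + 1) (by omega)).2.1)
    (fun k hk => hh0 (k + 1) (by omega)) (fun k hk => mul_nonneg hA0.le (ha (k + 1) (by omega))) H1
  simp only [zero_add, ← hT] at F
  obtain ⟨c1, hc1⟩ : ∃ c1, c1 = ∫ x, φ x * f (n + 1) x := ⟨_, rfl⟩
  rw [← hc1] at F
  have hPr : ∏ k ∈ Finset.range n, (1 + A * a (k + 1)) ≤ Real.exp (A * B) := by
    refine Y2l_prod n (fun k => A * a (k + 1)) (fun k hk => mul_nonneg hA0.le (ha (k + 1) (by omega))) ?_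
    rw [← Finset.mul_sum]
    refine mul_le_mul_of_nonneg_left ?_ hA0.le
    refine le_trans ?_ hB
    rw [Finset.sum_range_succ, Finset.sum_range_succ']
    have := ha 0 (by omega)
    have := ha (n + 1) (by omega)
    linarith
  have hnn := Dat_nonneg (f (n + 1))
  have hQ : 0 ≤ (∏ k ∈ Finset.range n, (1 + A * a (k + 1))) - 1 + C * Real.exp (-ρ * T) := by
    have : (1 : ℝ) ≤ ∏ k ∈ Finset.range n, (1 + A * a (k + 1)) := by
      calc (1 : ℝ) = ∏ k ∈ Finset.range n, (1 : ℝ) := by simp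
        _ ≤ _ := Finset.prod_le_prod (fun _ _ => zero_le_one) fun k hk => by
            have := mul_nonneg hA0.le (ha (k + 1) (by have := Finset.mem_range.1 hk; omega))
            linarith
    have h3 : 0 ≤ C * Real.exp (-ρ * T) := mul_nonneg (by linarith) (Real.exp_pos _).le
    linarith
  obtain ⟨E, hE⟩ : ∃ E : ℝ → ℝ, E = fun u => f 1 u - Real.exp (-lam * T) * c1 * φ u := ⟨_, rfl⟩
  rw [← hE] at F
  have F2 : nrm E ≤ Real.exp (-lam * T) * ((Real.exp (A * B) - 1 + C * Real.exp (-ρ * S)) * K) := by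
    refine F.trans ?_
    rw [mul_assoc]
    refine mul_le_mul_of_nonneg_left ?_ (Real.exp_pos _).le
    have h3 : Real.exp (-ρ * T) ≤ Real.exp (-ρ * S) := by
      rw [Real.exp_le_exp]
      rw [← hT] at hS
      nlinarith
    have h4 : C * Real.exp (-ρ * T) ≤ C * Real.exp (-ρ * S) := mul_le_mul_of_nonneg_left h3 (by linarith)
    exact mul_le_mul (by linarith) hK hnn (by linarith)
  have mE : Measurable E := by
    rw [hE]
    exact (P 1 (by omega)).1.sub (hφm.const_mul _)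
  have lE : MemLp E 2 volume := by
    rw [hE]
    exact (P 1 (by omega)).2.1.sub (hφ2.const_mul _)
  -- the first window
  have d3 := det3 hp (hh 0 (by omega)) mE lE u
  have f0 : f 0 u = TV (Va α) (h 0) (f 1) u := by
    rw [hf 0 (by omega)]
    show Real.exp (-r 0 * u ^ 2) * TV (Va α) (h 0) (f (0 + 1)) u = _
    rw [r0]
    simp
  have f1 : TV (Va α) (h 0) (f 1) u = TV (Va α) (h 0) E u +
      Real.exp (-lam * T) * c1 * (Real.exp (-lam * h 0) * φ u) := by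
    have e1 := tv_add hp (hh0 0 (by omega)) mE lE hφm hφ2 1 (Real.exp (-lam * T) * c1) u
    have e2 : (fun x => 1 * E x + Real.exp (-lam * T) * c1 * φ x) = f 1 := by
      funext x
      rw [hE]
      ring
    rw [e2, G.eig (h 0) (hh0 0 (by omega)) u] at e1
    rw [e1]
    ring
  -- the last window
  have mN := (P (n + 1) (by omega)).1
  have lN := (P (n + 1) (by omega)).2.1
  have hl0 := hh0 (n + 1) (by omega)
  have tm := tv_meas hp hl0 hm
  have tl := (tv_L2 hp hl0 hm h2).1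
  have c2 : Real.exp (-lam * h (n + 1)) * (∫ x, φ x * f (n + 2) x) - C2 * r (n + 1) * nrm (f (n + 2)) ≤ c1 := by
    have s1 := tv_symm hp hl0 hm h2 hφm hφ2
    have s2 : ∫ u, f (n + 2) u * TV (Va α) (h (n + 1)) φ u =
        Real.exp (-lam * h (n + 1)) * (∫ x, φ x * f (n + 2) x) := by
      rw [← integral_const_mul]
      refine integral_congr_ae (ae_of_all _ fun x => ?_)
      show f (n + 2) x * TV (Va α) (h (n + 1)) φ x = _
      rw [G.eig (h (n + 1)) hl0 x]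
      ring
    have lD : MemLp (fun u => f (n + 1) u - TV (Va α) (h (n + 1)) (f (n + 2)) u) 2 volume := lN.sub tl
    have s3 := nrm_cs hφ2 lD
    have s4 : nrm φ = 1 := by unfold nrm; rw [G.norm, Real.sqrt_one]
    have s5 := st (n + 1) (by omega)
    have i1 : Integrable fun x => φ x * f (n + 1) x := hφ2.integrable_mul lN
    have i2 : Integrable fun x => φ x * TV (Va α) (h (n + 1)) (f (n + 2)) x := hφ2.integrable_mul tl
    have s6 : ∫ x, φ x * (f (n + 1) x - TV (Va α) (h (n + 1)) (f (n + 2)) x) =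
        c1 - Real.exp (-lam * h (n + 1)) * (∫ x, φ x * f (n + 2) x) := by
      rw [← s2, ← s1, hc1, ← integral_sub i1 i2]
      refine integral_congr_ae (ae_of_all _ fun x => ?_)
      show φ x * (f (n + 1) x - _) = φ x * _ - φ x * _
      ring
    rw [s6, s4, one_mul] at s3
    have s7 := neg_abs_le (c1 - Real.exp (-lam * h (n + 1)) * (∫ x, φ x * f (n + 2) x))
    have s8 : nrm (fun u => f (n + 1) u - TV (Va α) (h (n + 1)) (f (n + 2)) u) ≤ C2 * r (n + 1) * nrm (f (n + 2)) := s5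
    linarith
  -- assemble
  have hφu := G.pos u
  have hsum : ∑ k ∈ Finset.range (n + 2), h k = T + h 0 + h (n + 1) := by
    rw [Finset.sum_range_succ, Finset.sum_range_succ', hT]
  obtain ⟨x, hx⟩ : ∃ x, x = Real.exp (-lam * T) := ⟨_, rfl⟩
  obtain ⟨y, hy⟩ : ∃ y, y = Real.exp (-lam * h 0) := ⟨_, rfl⟩
  obtain ⟨z, hz⟩ : ∃ z, z = Real.exp (-lam * h (n + 1)) := ⟨_, rfl⟩
  have hexp : Real.exp (-lam * ∑ k ∈ Finset.range (n + 2), h k) = x * y * z := by
    rw [hsum, hx, hy, hz, ← Real.exp_add, ← Real.exp_add]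
    congr 1
    ring
  have x0 : 0 < x := by rw [hx]; exact Real.exp_pos _
  have y0 : 0 < y := by rw [hy]; exact Real.exp_pos _
  have z0 : 0 < z := by rw [hz]; exact Real.exp_pos _
  have z4 : 1 ≤ z * Real.exp (4 * lam) := by
    rw [hz, ← Real.exp_add, Real.one_le_exp_iff]
    have := hh4 (n + 1) (by omega)
    nlinarith
  have yz8 : 1 ≤ y * z * Real.exp (8 * lam) := by
    rw [hz, hy, ← Real.exp_add, ← Real.exp_add, Real.one_le_exp_iff]
    have := hh4 (n + 1) (by omega)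
    have := hh4 0 (by omega)
    nlinarith
  rw [hexp, f0, f1, ← hx, ← hy, ← hA]
  rw [← hx] at F2
  rw [← hz] at c2
  obtain ⟨Q, hQQ⟩ : ∃ Q, Q = Real.exp (A * B) - 1 + C * Real.exp (-ρ * S) := ⟨_, rfl⟩
  rw [← hQQ] at F2 ⊢
  have hK0 : 0 ≤ K := hnn.trans hK
  have hQ0 : 0 ≤ Q := by
    rw [hQQ]
    have h3 : Real.exp (-ρ * T) ≤ Real.exp (-ρ * S) := by
      rw [Real.exp_le_exp]
      rw [← hT] at hS
      nlinarith
    have h4 : C * Real.exp (-ρ * T) ≤ C * Real.exp (-ρ * S) := mul_le_mul_of_nonneg_left h3 (by linarith)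
    linarith
  obtain ⟨I, hI⟩ : ∃ I, I = ∫ x, φ x * f (n + 2) x := ⟨_, rfl⟩
  rw [← hI] at c2 ⊢
  obtain ⟨R, hR⟩ : ∃ R, R = r (n + 1) * nrm (f (n + 2)) := ⟨_, rfl⟩
  have hR0 : 0 ≤ R := by rw [hR]; exact mul_nonneg (hr (n + 1) (by omega)) (Dat_nonneg _)
  rw [mul_assoc C2, ← hR] at c2
  rw [← hR]
  have g1 : -(2 * (x * (Q * K))) ≤ TV (Va α) (h 0) E u := by
    have := neg_abs_le (TV (Va α) (h 0) E u)
    linarith
  have g2 : x * y * (φ u) * (z * I - C2 * R) ≤ x * y * (φ u) * c1 :=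
    mul_le_mul_of_nonneg_left c2 (by positivity)
  have g3 : x * y * φ u * (C2 * R) ≤ x * y * φ u * (C2 * R) * (z * Real.exp (4 * lam)) :=
    le_mul_of_one_le_right (by positivity) z4
  have g4 : 2 * (x * (Q * K)) ≤ 2 * (x * (Q * K)) * (y * z * Real.exp (8 * lam)) :=
    le_mul_of_one_le_right (by positivity) yz8
  rw [hA]
  nlinarith [g1, g2, g3, g4]

/-- the integral against the Gaussian weight -/
theorem Y2l_gauss (G : GS α lam ρ C φ) {e : ℝ} (he : 0 ≤ e) :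
    (∫ x, φ x) - C * Real.pi * e ≤ ∫ x, φ x * Real.exp (-e * x ^ 2) := by
  have hC := G.C_ge
  have hb : ∀ x, φ x ≤ C * (1 + x ^ 2)⁻¹ := by
    intro x
    refine (G.bd x).trans ?_
    rw [div_eq_mul_inv]
    refine mul_le_mul_of_nonneg_left ?_ (by linarith)
    refine inv_anti₀ (by positivity) ?_
    nlinarith [sq_nonneg x]
  have i0 : Integrable fun x : ℝ => C * (1 + x ^ 2)⁻¹ := integrable_inv_one_add_sq.const_mul C
  have i1 : Integrable φ := by
    refine i0.mono G.meas.aestronglyMeasurable (ae_of_all _ fun x => ?_)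
    rw [Real.norm_of_nonneg (G.pos x).le, Real.norm_of_nonneg (by positivity)]
    exact hb x
  have i2 : Integrable fun x => φ x * Real.exp (-e * x ^ 2) := by
    refine i1.mono (G.meas.mul (by fun_prop)).aestronglyMeasurable (ae_of_all _ fun x => ?_)
    rw [norm_mul, Real.norm_of_nonneg (Real.exp_pos _).le]
    refine mul_le_of_le_one_right (norm_nonneg _) ?_
    rw [Real.exp_le_one_iff]
    have := mul_nonneg he (sq_nonneg x)
    linarith
  have i3 : Integrable fun x : ℝ => e * (C * (1 + x ^ 2)⁻¹) := i0.const_mul e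
  have h1 : (∫ x, φ x) - ∫ x, φ x * Real.exp (-e * x ^ 2) ≤ ∫ x : ℝ, e * (C * (1 + x ^ 2)⁻¹) := by
    rw [← integral_sub i1 i2]
    refine integral_mono (i1.sub i2) i3 fun x => ?_
    show φ x - φ x * Real.exp (-e * x ^ 2) ≤ e * (C * (1 + x ^ 2)⁻¹)
    have h2 := Real.add_one_le_exp (-e * x ^ 2)
    have h3 := (G.pos x).le
    have h4 : φ x - φ x * Real.exp (-e * x ^ 2) ≤ φ x * (e * x ^ 2) := by nlinarith
    have h5 : φ x * x ^ 2 ≤ C * (1 + x ^ 2)⁻¹ := by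
      calc φ x * x ^ 2 ≤ C / (1 + x ^ 2) ^ 2 * x ^ 2 := mul_le_mul_of_nonneg_right (G.bd x) (sq_nonneg x)
        _ ≤ C / (1 + x ^ 2) ^ 2 * (1 + x ^ 2) :=
          mul_le_mul_of_nonneg_left (by linarith) (by positivity)
        _ = _ := by field_simp
    calc φ x - φ x * Real.exp (-e * x ^ 2) ≤ e * (φ x * x ^ 2) := by linarith
      _ ≤ _ := mul_le_mul_of_nonneg_left h5 he
  rw [integral_const_mul, integral_const_mul, integral_univ_inv_one_add_sq] at h1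
  linarith

/-- everything about one pair `r, t` -/
theorem Y2l_one (hα : 0 < α) (hα2 : α < 2) (hβ : 0 < β) (G : GS α lam ρ C φ) {C1 C2 C3 c3 C4 Cs : ℝ} (hC1 : 1 ≤ C1)
    (hC2 : 0 < C2) (hC3 : 0 < C3) (hC4 : 0 < C4)
    (hd : ∀ r h : ℝ, 0 ≤ r → 1 / 8 ≤ h → h ≤ 4 → ∀ f : ℝ → ℝ, Measurable f → MemLp f 2 volume →
      nrm (fun u => Real.exp (-r * u ^ 2) * TV (Va α) h f u - TV (Va α) h f u) ≤ C2 * r * nrm f)
    (hlast : ∀ ω R h ε : ℝ, 0 ≤ ω → ω ≤ 1 / 2 → 1 ≤ R → 1 / 8 ≤ h → h ≤ 4 → 0 < ε → ε ≤ 1 →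
      nrm (TV (Vt α ω R) h (fun v => (1 + 0 * v ^ 2) * Real.exp (-ε * v ^ 2))) ≤
        C3 * (1 + ε ^ (-(5 / 4 : ℝ)) * Real.exp (-c3 * R ^ α)))
    (hgs : ∀ ε : ℝ, 0 < ε → ε ≤ 1 →
      nrm (fun v : ℝ => (1 + 0 * v ^ 2) * Real.exp (-ε * v ^ 2)) ≤ C4 * ε ^ (-(5 / 4 : ℝ)))
    {r t : ℝ} {n : ℕ} (hr : 1 ≤ r) (ht : r ≤ t) (hn : 1 ≤ n)
    (hs : ∑ k ∈ Finset.range (n + 2), xk α r t (n + 2) k ^ (-(2 * gg α)) ≤ Cs * r ^ (gg α - 2 * gg α))
    (W : WinF α β C1 r t (n + 2)) (hH : 1 / 2 ≤ HH α β r t (n + 2))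
    {e : ℝ} (he : e = (2 * C1 * t ^ gg α) ^ (5 / 4 : ℝ)) (he1 : C1 * (t / 2) ^ (-gg α) ≤ 1)
    (he2 : e * Real.exp (-c3 * t ^ α) ≤ 1) (y : ℝ) :
    ENNReal.ofReal (√(ell α β t / ell α β r) * (Real.exp (-lam * ∑ k ∈ Finset.range (n + 2), hw α β r t (n + 2) k) *
      ((∫ x, φ x) * φ (y / ell α β r) - C * (C * Real.pi * (C1 * (t / 2) ^ (-gg α)) +
        Real.exp (4 * lam) * C2 * (C1 * (t / 2) ^ (-2 * gg α) * (C4 * e))) -
        2 * Real.exp (8 * lam) * (Real.exp (Real.exp (4 * lam) * C2 * (C1 * Cs * r ^ (-gg α))) - 1 +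
          C * Real.exp (-ρ * (n / 2))) * (2 * C3)))) ≤ Gm (c0 α β) r t (fun _ => 1) y := by
  have hg : 0 < gg α := by unfold gg; exact div_pos (by linarith) (by linarith)
  have hp := Dat_pot hα
  have lam0 := G.lam_pos
  have hCge := G.C_ge
  have ht1 : 1 ≤ t := hr.trans ht
  obtain ⟨x, hx⟩ : ∃ x : ℕ → ℝ, x = fun k => xk α r t (n + 2) k := ⟨_, rfl⟩
  have hxk : ∀ k, xk α r t (n + 2) k = x k := fun k => by rw [hx]
  obtain ⟨h, hhd⟩ : ∃ h : ℕ → ℝ, h = fun k => hw α β r t (n + 2) k := ⟨_, rfl⟩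
  have hhk : ∀ k, hw α β r t (n + 2) k = h k := fun k => by rw [hhd]
  have xN1 : t / 2 ≤ x (n + 1) := by
    have := W.x2 (n + 1) (by omega)
    rw [W.xN, hxk] at this
    linarith
  have xNt : x (n + 1) ≤ t := by
    have := W.xlt (n + 1) (by omega)
    rw [W.xN, hxk] at this
    exact this.le
  have xpos : ∀ k ≤ n + 2, 1 ≤ x k := fun k hk => by
    have := W.xge k hk
    rw [hxk] at this
    linarith
  -- the Gaussian parameter
  obtain ⟨ε, hε⟩ : ∃ ε, ε = sl α β r t (n + 2) (n + 1) * ell α β t / 2 := ⟨_, rfl⟩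
  have a1 := W.slhi (n + 1) (by omega)
  have a2 := W.sllo (n + 1) (by omega)
  rw [W.xN, hxk] at a1 a2
  have xr1 : x (n + 1) ^ (-gg α) ≤ (t / 2) ^ (-gg α) :=
    Real.rpow_le_rpow_of_nonpos (by linarith) xN1 (by linarith)
  have xr2 : t ^ (-gg α) ≤ x (n + 1) ^ (-gg α) :=
    Real.rpow_le_rpow_of_nonpos (by linarith [xpos (n + 1) (by omega)]) xNt (by linarith)
  have tp : 0 < t ^ gg α := Real.rpow_pos_of_pos (by linarith) _
  have ε1 : ε ≤ C1 * (t / 2) ^ (-gg α) := by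
    have h1 : C1 * x (n + 1) ^ (-gg α) ≤ C1 * (t / 2) ^ (-gg α) := mul_le_mul_of_nonneg_left xr1 (by linarith)
    have h2 : 0 ≤ C1 * x (n + 1) ^ (-gg α) :=
      mul_nonneg (by linarith) (Real.rpow_nonneg (by linarith [xpos (n + 1) (by omega)]) _)
    rw [hε]
    linarith
  have ε2 : (2 * C1 * t ^ gg α)⁻¹ ≤ ε := by
    have h1 : C1⁻¹ * t ^ (-gg α) ≤ C1⁻¹ * x (n + 1) ^ (-gg α) :=
      mul_le_mul_of_nonneg_left xr2 (by positivity)
    have h2 : (2 * C1 * t ^ gg α)⁻¹ = C1⁻¹ * t ^ (-gg α) / 2 := by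
      rw [Real.rpow_neg (by linarith)]
      field_simp
    rw [h2, hε]
    linarith
  have ε0 : 0 < ε := lt_of_lt_of_le (by positivity) ε2
  have εle : ε ≤ 1 := ε1.trans he1
  have ε54 : ε ^ (-(5 / 4 : ℝ)) ≤ e := by
    rw [he, Real.rpow_neg ε0.le, ← Real.inv_rpow ε0.le]
    refine Real.rpow_le_rpow (by positivity) ?_ (by norm_num)
    rw [inv_le_comm₀ ε0 (by positivity)]
    exact ε2
  have e0 : 0 ≤ e := (Real.rpow_nonneg ε0.le _).trans ε54
  -- the final function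
  obtain ⟨fN, hfN⟩ : ∃ fN : ℝ → ℝ, fN = fun v => Real.exp (-(sl α β r t (n + 2) (n + 2 - 1) * ell α β t / 2) * v ^ 2) :=
    ⟨_, rfl⟩
  have hfN' : fN = fun v => Real.exp (-ε * v ^ 2) := by
    rw [hfN, hε]
    rfl
  have hfN'' : fN = fun v => (1 + 0 * v ^ 2) * Real.exp (-ε * v ^ 2) := by
    rw [hfN']
    funext v
    ring
  have mN : Measurable fN := by rw [hfN']; fun_prop
  have lN : MemLp fN 2 volume := by rw [hfN'']; exact gs_memLp ε0
  have n0 : ∀ x, 0 ≤ fN x := fun x => by rw [hfN']; exact (Real.exp_pos _).le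
  -- the kinks
  obtain ⟨q, hq⟩ : ∃ q : ℕ → ℝ, q = fun k => if k = 0 then 0 else
    ell α β (x k) * (sl α β r t (n + 2) (k - 1) - sl α β r t (n + 2) k) / 2 := ⟨_, rfl⟩
  have q0 : q 0 = 0 := by rw [hq]; simp
  have qk : ∀ k, 1 ≤ k → q k = ell α β (x k) * (sl α β r t (n + 2) (k - 1) - sl α β r t (n + 2) k) / 2 := by
    intro k hk
    rw [hq]
    simp only [if_neg (show k ≠ 0 by omega)]
  have qle : ∀ k, 1 ≤ k → k < n + 2 → q k ≤ C1 * x k ^ (-2 * gg α) := by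
    intro k hk hk2
    obtain ⟨j, rfl⟩ : ∃ j, k = j + 1 := ⟨k - 1, by omega⟩
    have := W.kink j hk2
    rw [hxk] at this
    rw [qk (j + 1) hk]
    exact this
  have qpos : ∀ k < n + 2, 0 ≤ q k := by
    intro k hk2
    rcases Nat.eq_zero_or_pos k with h0 | hk
    · rw [h0, q0]
    · obtain ⟨j, rfl⟩ : ∃ j, k = j + 1 := ⟨k - 1, by omega⟩
      have h1 := W.slm j hk2
      rw [qk (j + 1) hk]
      have h2 : 0 ≤ ell α β (x (j + 1)) := by
        unfold ell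
        exact mul_nonneg (kb_pos hβ).le (Real.rpow_nonneg (by linarith [xpos (j + 1) (by omega)]) _)
      have h3 : 0 ≤ sl α β r t (n + 2) (j + 1 - 1) - sl α β r t (n + 2) (j + 1) := sub_nonneg.2 h1
      have := mul_nonneg h2 h3
      linarith
  obtain ⟨f, fN1, fk⟩ := Y2l_seq α (n + 2) h q fN
  have hh : ∀ k < n + 2, 1 / 8 ≤ h k := by
    intro k hk
    have := W.hlo k hk
    rw [hhk] at this
    linarith
  have hhalf : ∀ k < n + 2, 1 / 2 ≤ h k := by
    intro k hk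
    have := W.hlo k hk
    rw [hhk] at this
    linarith
  have hh4 : ∀ k < n + 2, h k ≤ 4 := by
    intro k hk
    have := W.h4 k hk
    rwa [hhk] at this
  have lowG := wlo hα hα2 hβ hr (by omega) W q q0 (fun k hk _ => by rw [qk k hk, hxk]) f
    (by rw [fN1, hfN]) (by rw [fN1]; exact lN) (fun k hk => by rw [fk k hk, hhk]) y
  refine le_trans ?_ lowG
  refine ENNReal.ofReal_le_ofReal ?_
  refine mul_le_mul_of_nonneg_left ?_ (Real.sqrt_nonneg _)
  have P := Y2l_props hα (n + 2) fk (by rw [fN1]; exact mN) (by rw [fN1]; exact lN) (by rw [fN1]; exact n0)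
    (fun k hk => by linarith [hh k hk]) qpos
  -- the last window
  have hK : nrm (f (n + 1)) ≤ 2 * C3 := by
    have hpt := pot_Vt (α := α) (ω := 0) (R := t) hα (by norm_num) (by linarith)
    have hl := hlast 0 t (h (n + 1)) ε le_rfl (by norm_num) ht1 (hh (n + 1) (by omega)) (hh4 (n + 1) (by omega)) ε0 εle
    rw [← hfN''] at hl
    have hh1 : 0 < h (n + 1) := by linarith [hh (n + 1) (by omega)]
    have hl2 : nrm (f (n + 1)) ≤ nrm (TV (Vt α 0 t) (h (n + 1)) fN) := by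
      refine nrm_mono (tv_L2 hpt hh1 mN lN).1 fun v => ?_
      have v1 : f (n + 1) v = Real.exp (-q (n + 1) * v ^ 2) * TV (Va α) (h (n + 1)) fN v := by
        rw [fk (n + 1) (by omega), fN1]
      have v2 : 0 ≤ TV (Va α) (h (n + 1)) fN v := tv_nonneg hp n0 v
      have v3 : TV (Va α) (h (n + 1)) fN v ≤ TV (Vt α 0 t) (h (n + 1)) fN v := by
        refine tv_anti hpt hp (fun x => ?_) hh1 mN lN n0 v
        show (1 - 0) * (min |x| t) ^ α ≤ |x| ^ α
        rw [sub_zero, one_mul]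
        exact Real.rpow_le_rpow (le_min (abs_nonneg _) (by linarith)) (min_le_left _ _) hα.le
      have v4 : Real.exp (-q (n + 1) * v ^ 2) ≤ 1 := by
        rw [Real.exp_le_one_iff]
        have := mul_nonneg (qpos (n + 1) (by omega)) (sq_nonneg v)
        linarith
      rw [v1, abs_of_nonneg (mul_nonneg (Real.exp_pos _).le v2), abs_of_nonneg (v2.trans v3)]
      exact (mul_le_of_le_one_left v2 v4).trans v3
    have hl3 : ε ^ (-(5 / 4 : ℝ)) * Real.exp (-c3 * t ^ α) ≤ 1 :=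
      (mul_le_mul_of_nonneg_right ε54 (Real.exp_pos _).le).trans he2
    have hl4 : C3 * (1 + ε ^ (-(5 / 4 : ℝ)) * Real.exp (-c3 * t ^ α)) ≤ C3 * (1 + 1) :=
      mul_le_mul_of_nonneg_left (by linarith) hC3.le
    linarith
  have hB : ∑ k ∈ Finset.range (n + 2), C1 * x k ^ (-2 * gg α) ≤ C1 * Cs * r ^ (-gg α) := by
    rw [← Finset.mul_sum, mul_assoc]
    refine mul_le_mul_of_nonneg_left ?_ (by linarith)
    have e1 : gg α - 2 * gg α = -gg α := by ring
    rw [e1] at hs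
    refine le_trans (le_of_eq ?_) hs
    refine Finset.sum_congr rfl fun k _ => ?_
    rw [hxk, neg_mul]
  have hS : (n : ℝ) / 2 ≤ ∑ k ∈ Finset.range n, h (k + 1) := by
    calc (n : ℝ) / 2 = ∑ k ∈ Finset.range n, (1 / 2 : ℝ) := by
          rw [Finset.sum_const, Finset.card_range, nsmul_eq_mul]; ring
      _ ≤ _ := Finset.sum_le_sum fun k hk => hhalf (k + 1) (by have := Finset.mem_range.1 hk; omega)
  have core := Y2l_core hα G hC2 hd n hn (h := h) (r := q) (a := fun k => C1 * x k ^ (-2 * gg α)) (f := f) fk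
    (by rw [fN1]; exact mN) (by rw [fN1]; exact lN) (by rw [fN1]; exact n0) hh hh4 q0 qpos qle hB
    (fun k hk => mul_nonneg (by linarith) (Real.rpow_nonneg (by linarith [xpos k hk.le]) _)) hK hS (y / ell α β r)
  refine le_trans ?_ core
  have hsumeq : ∑ k ∈ Finset.range (n + 2), hw α β r t (n + 2) k = ∑ k ∈ Finset.range (n + 2), h k :=
    Finset.sum_congr rfl fun k _ => hhk k
  rw [hsumeq]
  refine mul_le_mul_of_nonneg_left ?_ (Real.exp_pos _).le
  obtain ⟨p, hpd⟩ : ∃ p, p = φ (y / ell α β r) := ⟨_, rfl⟩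
  rw [← hpd]
  have p0 : 0 ≤ p := by rw [hpd]; exact (G.pos _).le
  have pC : p ≤ C := by
    rw [hpd]
    refine (G.bd _).trans ?_
    refine div_le_self (by linarith) ?_
    have := sq_nonneg (y / ell α β r)
    nlinarith
  have g1 := Y2l_gauss G ε0.le
  have g1' : (∫ x, φ x) - C * Real.pi * (C1 * (t / 2) ^ (-gg α)) ≤ ∫ x, φ x * f (n + 2) x := by
    rw [fN1, hfN']
    have := mul_le_mul_of_nonneg_left ε1 (show 0 ≤ C * Real.pi by positivity)
    linarith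
  have g2 : q (n + 1) * nrm (f (n + 2)) ≤ C1 * (t / 2) ^ (-2 * gg α) * (C4 * e) := by
    have u1 := hgs ε ε0 εle
    rw [← hfN''] at u1
    rw [fN1]
    have u2 : nrm fN ≤ C4 * e := u1.trans (mul_le_mul_of_nonneg_left ε54 hC4.le)
    have u3 : q (n + 1) ≤ C1 * (t / 2) ^ (-2 * gg α) :=
      (qle (n + 1) (by omega) (by omega)).trans (mul_le_mul_of_nonneg_left
        (Real.rpow_le_rpow_of_nonpos (by linarith) xN1 (by linarith)) (by linarith))
    exact mul_le_mul u3 u2 (Dat_nonneg _) (mul_nonneg (by linarith) (Real.rpow_nonneg (by linarith) _))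
  obtain ⟨A, hA⟩ : ∃ A, A = Real.exp (4 * lam) * C2 := ⟨_, rfl⟩
  have hA0 : 0 < A := by rw [hA]; positivity
  rw [← hA]
  obtain ⟨J, hJ⟩ : ∃ J, J = C * Real.pi * (C1 * (t / 2) ^ (-gg α)) := ⟨_, rfl⟩
  obtain ⟨L, hL⟩ : ∃ L, L = C1 * (t / 2) ^ (-2 * gg α) * (C4 * e) := ⟨_, rfl⟩
  rw [← hJ, ← hL]
  rw [← hJ] at g1'
  rw [← hL] at g2
  have hJ0 : 0 ≤ J := by
    rw [hJ]
    exact mul_nonneg (by positivity) (mul_nonneg (by linarith) (Real.rpow_nonneg (by linarith) _))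
  have hL0 : 0 ≤ L := by
    rw [hL]
    exact mul_nonneg (mul_nonneg (by linarith) (Real.rpow_nonneg (by linarith) _)) (by positivity)
  have k1 : ((∫ x, φ x) - J) * p ≤ (∫ x, φ x * f (n + 2) x) * p := mul_le_mul_of_nonneg_right g1' p0
  have k2 : A * (q (n + 1) * nrm (f (n + 2))) * p ≤ A * L * p :=
    mul_le_mul_of_nonneg_right (mul_le_mul_of_nonneg_left g2 hA0.le) p0
  have k3 : J * p ≤ C * J := by nlinarith
  have k4 : A * L * p ≤ C * (A * L) := by nlinarith [mul_nonneg hA0.le hL0]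
  linarith

theorem Y2l_rp {g : ℝ} (hg : 0 < g) : Tendsto (fun t : ℝ => (t / 2) ^ (-g)) atTop (𝓝 0) :=
  (tendsto_rpow_neg_atTop hg).comp (tendsto_id.atTop_div_const (by norm_num))

theorem Y2l_e2 {g c C1 α : ℝ} (hg : 0 < g) (hc : 0 < c) (hC1 : 1 ≤ C1) (hα : 0 < α) :
    Tendsto (fun t : ℝ => (2 * C1 * t ^ g) ^ (5 / 4 : ℝ) * Real.exp (-c * t ^ α)) atTop (𝓝 0) := by
  have h1 := (tendsto_rpow_mul_exp_neg_mul_atTop_nhds_zero (g * (5 / 4) / α) c hc).comp (tendsto_rpow_atTop hα)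
  have h2 := h1.const_mul ((2 * C1) ^ (5 / 4 : ℝ))
  rw [mul_zero] at h2
  refine h2.congr' ?_
  filter_upwards [eventually_gt_atTop 0] with t ht
  show (2 * C1) ^ (5 / 4 : ℝ) * ((t ^ α) ^ (g * (5 / 4) / α) * Real.exp (-c * t ^ α)) = _
  rw [← Real.rpow_mul ht.le, Real.mul_rpow (by linarith) (Real.rpow_nonneg ht.le _), ← Real.rpow_mul ht.le, mul_assoc]
  congr 3
  field_simp

theorem Y2l_e3 {g C1 : ℝ} (hg : 0 < g) (hC1 : 1 ≤ C1) :
    Tendsto (fun t : ℝ => (t / 2) ^ (-2 * g) * (2 * C1 * t ^ g) ^ (5 / 4 : ℝ)) atTop (𝓝 0) := by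
  have h1 := (tendsto_rpow_neg_atTop (show 0 < g * (3 / 4) by positivity)).const_mul
    ((2 : ℝ) ^ (2 * g) * (2 * C1) ^ (5 / 4 : ℝ))
  rw [mul_zero] at h1
  refine h1.congr' ?_
  filter_upwards [eventually_gt_atTop 0] with t ht
  rw [Real.mul_rpow (by linarith) (Real.rpow_nonneg ht.le _), ← Real.rpow_mul ht.le, Real.div_rpow ht.le (by norm_num)]
  have e1 : t ^ (-(g * (3 / 4))) = t ^ (-2 * g) * t ^ (g * (5 / 4)) := by
    rw [← Real.rpow_add ht]
    congr 1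
    ring
  have e2 : (2 : ℝ) ^ (-2 * g) = ((2 : ℝ) ^ (2 * g))⁻¹ := by
    rw [← Real.rpow_neg (by norm_num)]
    congr 1
    ring
  rw [e1, e2, div_inv_eq_mul]
  ring

theorem Y2l_M {g κ r : ℝ} (hg : 0 < g) (hκ : 0 < κ) :
    Tendsto (fun t : ℝ => (t ^ g - r ^ g) / (g * κ ^ 2)) atTop atTop := by
  refine Tendsto.atTop_div_const (by positivity) ?_
  exact tendsto_atTop_add_const_right _ _ (tendsto_rpow_atTop hg)

theorem y2_lo {α β lam ρ C : ℝ} {φ : ℝ → ℝ} (hα : 0 < α) (hα2 : α < 2) (hβ : 0 < β) (G : GS α lam ρ C φ)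
    {U ε : ℝ} (hU : 0 < U) (hε : 0 < ε) :
    ∃ r0 ≥ (1 : ℝ), ∀ r, r0 ≤ r → ∀ᶠ t in atTop, ∀ y, |y| ≤ U * r ^ gam α →
      ENNReal.ofReal (NN α β lam r t * ((∫ x, φ x) * φ (y / ell α β r) - ε)) ≤ Gm (c0 α β) r t (fun _ => 1) y := by
  have hg : 0 < gg α := by unfold gg; exact div_pos (by linarith) (by linarith)
  have hκ := kb_pos (α := α) hβ
  have lam0 := G.lam_pos
  have rho0 := G.rho_pos
  have hC := G.C_ge
  obtain ⟨s0, hs0, C1, hC1, hwin⟩ := win hα hα2 hβ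
  obtain ⟨Cs, hCs, hsum⟩ := win_sum hα hα2 hβ (δ := 2 * gg α) (by linarith)
  obtain ⟨C2, hC2, hd⟩ := det2 hα hα2
  obtain ⟨C3, hC3, c3, hc3, hlast⟩ := last_window (p := 0) hα hα2 le_rfl
  obtain ⟨C4, hC4, hgs⟩ := gs_nrm (p := 0) le_rfl
  obtain ⟨A, hA⟩ : ∃ A, A = Real.exp (4 * lam) * C2 := ⟨_, rfl⟩
  have hA0 : 0 < A := by rw [hA]; positivity
  obtain ⟨I, hI⟩ : ∃ I, I = ∫ x, φ x := ⟨_, rfl⟩
  have hI0 : 0 ≤ I := by rw [hI]; exact integral_nonneg fun x => (G.pos x).le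
  -- errors in `r`
  have Lr : Tendsto (fun r : ℝ => r ^ (-gg α)) atTop (𝓝 0) := tendsto_rpow_neg_atTop hg
  have L1 : Tendsto (fun r : ℝ => 2 * Real.exp (8 * lam) * (Real.exp (A * (C1 * Cs * r ^ (-gg α))) - 1) * (2 * C3))
      atTop (𝓝 0) := by
    have h1 : Tendsto (fun z : ℝ => 2 * Real.exp (8 * lam) * (Real.exp (A * (C1 * Cs * z)) - 1) * (2 * C3))
        (𝓝 0) (𝓝 (2 * Real.exp (8 * lam) * (Real.exp (A * (C1 * Cs * 0)) - 1) * (2 * C3))) := by
      have : Continuous fun z : ℝ => 2 * Real.exp (8 * lam) * (Real.exp (A * (C1 * Cs * z)) - 1) * (2 * C3) := by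
        fun_prop
      exact this.tendsto 0
    have h2 : 2 * Real.exp (8 * lam) * (Real.exp (A * (C1 * Cs * 0)) - 1) * (2 * C3) = 0 := by simp
    rw [h2] at h1
    exact h1.comp Lr
  have L2 : Tendsto (fun r : ℝ => (1 - Real.exp (-lam * (2 * C1 * (Cs * r ^ (-gg α))))) * (I * C)) atTop (𝓝 0) := by
    have h1 : Tendsto (fun z : ℝ => (1 - Real.exp (-lam * (2 * C1 * (Cs * z)))) * (I * C))
        (𝓝 0) (𝓝 ((1 - Real.exp (-lam * (2 * C1 * (Cs * 0)))) * (I * C))) := by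
      have : Continuous fun z : ℝ => (1 - Real.exp (-lam * (2 * C1 * (Cs * z)))) * (I * C) := by fun_prop
      exact this.tendsto 0
    have h2 : (1 - Real.exp (-lam * (2 * C1 * (Cs * 0)))) * (I * C) = 0 := by simp
    rw [h2] at h1
    exact h1.comp Lr
  obtain ⟨r1, hr1⟩ := eventually_atTop.1 ((L1.eventually_le_const (show (0 : ℝ) < ε / 4 by linarith)).and
    (L2.eventually_le_const (show (0 : ℝ) < ε / 2 by linarith)))
  refine ⟨max s0 r1, le_max_of_le_left hs0, fun r hr => ?_⟩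
  have hrs : s0 ≤ r := (le_max_left _ _).trans hr
  have hr1' : 1 ≤ r := hs0.trans hrs
  obtain ⟨R1, R2⟩ := hr1 r ((le_max_right _ _).trans hr)
  -- errors in `t`
  obtain ⟨M, hM⟩ : ∃ M : ℝ → ℝ, M = fun t : ℝ => (t ^ gg α - r ^ gg α) / (gg α * kb α β ^ 2) := ⟨_, rfl⟩
  have LM : Tendsto M atTop atTop := by rw [hM]; exact Y2l_M hg hκ
  have LN : Tendsto (fun t => ⌊M t⌋₊) atTop atTop := tendsto_nat_floor_atTop.comp LM
  have Ln : Tendsto (fun t => ⌊M t⌋₊ - 2) atTop atTop := (tendsto_sub_atTop_nat 2).comp LN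
  have Ln' : Tendsto (fun t => ((⌊M t⌋₊ - 2 : ℕ) : ℝ)) atTop atTop := tendsto_natCast_atTop_atTop.comp Ln
  have T1 : Tendsto (fun t : ℝ => C1 * (t / 2) ^ (-gg α)) atTop (𝓝 0) := by
    simpa using (Y2l_rp hg).const_mul C1
  have T2 := Y2l_e2 hg hc3 hC1 hα
  have T3 : Tendsto (fun t : ℝ => C * (C * Real.pi * (C1 * (t / 2) ^ (-gg α)) +
      A * (C1 * (t / 2) ^ (-2 * gg α) * (C4 * (2 * C1 * t ^ gg α) ^ (5 / 4 : ℝ))))) atTop (𝓝 0) := by
    have h1 := T1.const_mul (C * Real.pi)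
    have h2 := (Y2l_e3 hg hC1).const_mul (A * C1 * C4)
    have h3 := (h1.add h2).const_mul C
    simp only [mul_zero, add_zero] at h3
    refine h3.congr fun t => ?_
    ring
  have T4 : Tendsto (fun t : ℝ => 2 * Real.exp (8 * lam) * (C * Real.exp (-ρ * (((⌊M t⌋₊ - 2 : ℕ) : ℝ) / 2))) * (2 * C3))
      atTop (𝓝 0) := by
    have h1 : Tendsto (fun t : ℝ => Real.exp (-ρ * (((⌊M t⌋₊ - 2 : ℕ) : ℝ) / 2))) atTop (𝓝 0) := by
      refine Real.tendsto_exp_atBot.comp ?_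
      exact (Ln'.atTop_div_const (by norm_num)).const_mul_atTop_of_neg (by linarith)
    have h2 := h1.const_mul (2 * Real.exp (8 * lam) * C * (2 * C3))
    rw [mul_zero] at h2
    refine h2.congr fun t => ?_
    ring
  filter_upwards [LN.eventually_ge_atTop 3, eventually_ge_atTop r, T1.eventually_le_const one_pos,
    T2.eventually_le_const one_pos, T3.eventually_le_const (show (0 : ℝ) < ε / 8 by linarith),
    T4.eventually_le_const (show (0 : ℝ) < ε / 8 by linarith)] with t t1 t2 t3 t4 t5 t6 y _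
  obtain ⟨n, hn⟩ : ∃ n, n = ⌊M t⌋₊ - 2 := ⟨_, rfl⟩
  have hN : ⌊M t⌋₊ = n + 2 := by omega
  have hn1 : 1 ≤ n := by omega
  rw [← hn] at t6
  have hM0 : 0 ≤ M t := by
    by_contra h
    rw [not_le] at h
    rw [Nat.floor_of_nonpos h.le] at hN
    omega
  have hMt : M t = (t ^ gg α - r ^ gg α) / (gg α * kb α β ^ 2) := by rw [hM]
  have hHH : HH α β r t (n + 2) = M t / ((n + 2 : ℕ) : ℝ) := by
    unfold HH
    rw [hMt, div_div]
  have hNpos : (0 : ℝ) < ((n + 2 : ℕ) : ℝ) := by positivity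
  have f1 : ((n + 2 : ℕ) : ℝ) ≤ M t := by rw [← hN]; exact Nat.floor_le hM0
  have f2 : M t < ((n + 2 : ℕ) : ℝ) + 1 := by rw [← hN]; exact Nat.lt_floor_add_one _
  have f3 : (1 : ℝ) ≤ ((n + 2 : ℕ) : ℝ) := by exact_mod_cast (by omega : 1 ≤ n + 2)
  have hH1 : 1 ≤ HH α β r t (n + 2) := by
    rw [hHH, le_div_iff₀ hNpos]
    linarith
  have hH2 : HH α β r t (n + 2) ≤ 2 := by
    rw [hHH, div_le_iff₀ hNpos]
    linarith
  have hHh : 1 / 2 ≤ HH α β r t (n + 2) := by linarith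
  have W := hwin r t (n + 2) hrs (by linarith) (by omega) hHh hH2
  have hs := hsum r t (n + 2) hr1' (by omega) hHh
  have one := Y2l_one hα hα2 hβ G hC1 hC2 hC3 hC4 hd hlast hgs hr1' t2 hn1 hs W hHh rfl t3 t4 y
  rw [← hA, ← hI] at one
  obtain ⟨T, hT⟩ : ∃ T, T = ∑ k ∈ Finset.range (n + 2), hw α β r t (n + 2) k := ⟨_, rfl⟩
  have hTle : T ≤ ((n + 2 : ℕ) : ℝ) * HH α β r t (n + 2) + 2 * C1 * (Cs * r ^ (-gg α)) := by
    have e1 : gg α - 2 * gg α = -gg α := by ring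
    rw [e1] at hs
    have hstep : ∀ k ∈ Finset.range (n + 2), hw α β r t (n + 2) k ≤
        HH α β r t (n + 2) + 2 * C1 * xk α r t (n + 2) k ^ (-(2 * gg α)) := by
      intro k hk
      have h1 := W.hhi k (Finset.mem_range.1 hk)
      have h2 : 0 ≤ C1 * xk α r t (n + 2) k ^ (-2 * gg α) :=
        mul_nonneg (by linarith) (Real.rpow_nonneg (by linarith [W.xge k (Finset.mem_range.1 hk).le]) _)
      have h3 : HH α β r t (n + 2) * (C1 * xk α r t (n + 2) k ^ (-2 * gg α)) ≤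
          2 * (C1 * xk α r t (n + 2) k ^ (-2 * gg α)) := mul_le_mul_of_nonneg_right hH2 h2
      rw [← neg_mul]
      linarith
    rw [hT]
    refine (Finset.sum_le_sum hstep).trans ?_
    rw [Finset.sum_add_distrib, Finset.sum_const, Finset.card_range, nsmul_eq_mul, ← Finset.mul_sum]
    have := mul_le_mul_of_nonneg_left hs (show 0 ≤ 2 * C1 by linarith)
    linarith
  rw [← hT] at one
  rw [← hI]
  by_cases hneg : I * φ (y / ell α β r) - ε ≤ 0
  · rw [ENNReal.ofReal_of_nonpos]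
    · exact zero_le
    · refine mul_nonpos_of_nonneg_of_nonpos ?_ hneg
      unfold NN
      exact mul_nonneg (Real.rpow_nonneg (div_nonneg (by linarith) (by linarith)) _) (Real.exp_pos _).le
  · rw [not_le] at hneg
    refine le_trans (ENNReal.ofReal_le_ofReal ?_) one
    have hkap := kap_HH (α := α) (β := β) (lam := lam) (r := r) (t := t) (N := n + 2) (by omega) hg hκ
    have hNN : NN α β lam r t = √(ell α β t / ell α β r) *
        Real.exp (-lam * (((n + 2 : ℕ) : ℝ) * HH α β r t (n + 2))) := by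
      unfold NN
      rw [ell_ratio hβ (by linarith) (by linarith)]
      congr 2
      rw [neg_mul, neg_mul, hkap]
    rw [hNN, mul_assoc]
    refine mul_le_mul_of_nonneg_left ?_ (Real.sqrt_nonneg _)
    obtain ⟨p, hpd⟩ : ∃ p, p = φ (y / ell α β r) := ⟨_, rfl⟩
    rw [← hpd] at hneg ⊢
    have pC : p ≤ C := by
      rw [hpd]
      refine (G.bd _).trans ?_
      refine div_le_self (by linarith) ?_
      have := sq_nonneg (y / ell α β r)
      nlinarith
    obtain ⟨X, hX⟩ : ∃ X, X = Real.exp (-lam * (((n + 2 : ℕ) : ℝ) * HH α β r t (n + 2))) := ⟨_, rfl⟩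
    obtain ⟨θ, hθ⟩ : ∃ θ, θ = Real.exp (-lam * (2 * C1 * (Cs * r ^ (-gg α)))) := ⟨_, rfl⟩
    rw [← hθ] at R2
    rw [← hX]
    have X0 : 0 < X := by rw [hX]; exact Real.exp_pos _
    have θ0 : 0 < θ := by rw [hθ]; exact Real.exp_pos _
    have θ1 : θ ≤ 1 := by
      rw [hθ, Real.exp_le_one_iff]
      have : 0 ≤ lam * (2 * C1 * (Cs * r ^ (-gg α))) :=
        mul_nonneg lam0.le (mul_nonneg (by linarith) (mul_nonneg hCs.le (Real.rpow_nonneg (by linarith) _)))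
      linarith
    have hXθ : X * θ ≤ Real.exp (-lam * T) := by
      rw [hX, hθ, ← Real.exp_add, Real.exp_le_exp]
      nlinarith
    obtain ⟨D, hD⟩ : ∃ D, D = I * p - C * (C * Real.pi * (C1 * (t / 2) ^ (-gg α)) +
        A * (C1 * (t / 2) ^ (-2 * gg α) * (C4 * (2 * C1 * t ^ gg α) ^ (5 / 4 : ℝ)))) -
        2 * Real.exp (8 * lam) * (Real.exp (A * (C1 * Cs * r ^ (-gg α))) - 1 +
          C * Real.exp (-ρ * ((n : ℝ) / 2))) * (2 * C3) := ⟨_, rfl⟩
    rw [← hD]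
    have hDlow : I * p - ε / 2 ≤ D := by
      rw [hD]
      have : 2 * Real.exp (8 * lam) * (Real.exp (A * (C1 * Cs * r ^ (-gg α))) - 1 +
          C * Real.exp (-ρ * ((n : ℝ) / 2))) * (2 * C3) =
          2 * Real.exp (8 * lam) * (Real.exp (A * (C1 * Cs * r ^ (-gg α))) - 1) * (2 * C3) +
          2 * Real.exp (8 * lam) * (C * Real.exp (-ρ * ((n : ℝ) / 2))) * (2 * C3) := by ring
      rw [this]
      linarith
    have hD0 : 0 ≤ D := by linarith
    have g1 : (1 - θ) * (I * p) ≤ ε / 2 := by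
      refine le_trans ?_ R2
      exact mul_le_mul_of_nonneg_left (mul_le_mul_of_nonneg_left pC hI0) (by linarith)
    have g2 : I * p - ε ≤ θ * D := by
      have h1 : θ * (I * p - ε / 2) ≤ θ * D := mul_le_mul_of_nonneg_left hDlow θ0.le
      have h2 : θ * (ε / 2) ≤ ε / 2 := mul_le_of_le_one_left (by linarith) θ1
      linarith
    calc X * (I * p - ε) ≤ X * (θ * D) := mul_le_mul_of_nonneg_left g2 X0.le
      _ = X * θ * D := by ring
      _ ≤ Real.exp (-lam * T) * D := mul_le_mul_of_nonneg_right hXθ hD0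


end Pool.H50.BB
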