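import Pool.Agent.H50.BB.Lms
import Pool.Agent.H50.BB.Y2l
import Pool.Agent.H50.BB.Y1

/-!
# Row Lyy: lateral expectations; the end weight   (about 260 lines; may be split)

`Lw α β r T y w = exp (-∫_r^T c0 s (y + w (s-r)) ds)`, `Y_s = y + w (s - r)`.
`Gm_two` (`r ≤ s ≤ T`): `∫⁻ w, ofReal (Lw) ψ(Y_s) f(Y_T) = Gm c0 r s (fun z => ψ z * Gm c0 s T f z) y` (Markov property at `s - r`, as in `Gm_markov`).
`y_a`, `y_b`: choose any admissible `Cf, ζ, η` (e.g. `Cf = 0`, `ζ = gg α + 1`, `η = 1`: `cfl ≤ c0`, `cfl_le_c0`), so `Gm c0 ≤ Gm cfl` (`Gm_mono`) and `y1` applies to `c0`: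
`y_a`: `∫⁻ Lw = Gm c0 r T 1 ≤ C1 NN r T`.  `y_b`: `≤ Gm c0 r s (z² C1 NN s T) ≤ C1 NN s T s^{2γ} Gm c0 r s (1 + z² s^{-2γ}) ≤ C1² s^{2γ} (1 + y² r^{-2γ}) NN r s NN s T` (`NN_mul`).
`y_low`: given `U, ε`: `c_U ≤ φ` on `|u| ≤ U/κ` (`GS.low`); `ε' = ε (∫φ) c_U/2`; `y2_lo` with `ε'`: `∫⁻ Lw ≥ NN ((∫φ) φ - ε')`; the part with `|Y_T| > U' T^γ` is at most `U'^{-2} ∫⁻ Lw Y_T² T^{-2γ} ≤ U'^{-2} C (1+U²) NN ≤ ε' NN`
for `U'` large (`y_b` with `s = T`); the difference is `≥ NN ((∫φ)φ - 2ε') ≥ (1-ε) NN (∫φ) φ`.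
`l_end`: fixed `ℓ, U', ε1`.  `vf_ge_vh`: the error is `≤ e^ℓ ∫_0^ℓ E (1-b)(arg (y + pt w s)) ds`.  Since `b` is continuous, `b 0 = 1`: choose `θ1` with `1 - b ≤ ε2` for `|θ| ≤ θ1`; if `|w.1 s|, |w.2 s| ≤ √t` and `re y ≥ t`,
`|im y| ≤ U' t^γ` then `|arg(y + pt w s)| ≤ 2 (U' t^γ + √t)/t ≤ θ1` for t large; `P(|w.i s| > √t for some i) ≤ 8 exp(-t/(2ℓ))` (`sup_tail` or the Gaussian tail).
-/

open MeasureTheory ProbabilityTheory Set Filter Topology
open scoped NNReal ENNReal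

namespace Pool.H50.BB

open Pool.Agent.H4.BM

theorem Gm_two {c : ℝ → ℝ → ℝ} (hc : Continuous (Function.uncurry c)) {f ψ : ℝ → ℝ≥0∞} (hf : Measurable f)
    (hψ : Measurable ψ) {r s T : ℝ} (hrs : r ≤ s) (hsT : s ≤ T) (y : ℝ) :
    ∫⁻ w, ENNReal.ofReal (Real.exp (-∫ q in r..T, c q (y + w (q - r)))) * (ψ (y + w (s - r)) * f (y + w (T - r))) ∂Wm =
      Gm c r s (fun z => ψ z * Gm c s T f z) y := by
  obtain ⟨a, ha⟩ : ∃ a : ℝ≥0, (a : ℝ) = s - r := ⟨⟨s - r, by linarith⟩, rfl⟩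
  let G : Pth × Pth → ℝ≥0∞ := fun p =>
    (ENNReal.ofReal (Real.exp (-∫ q in r..s, c q (y + p.1 (q - r)))) * ψ (y + p.1 a)) *
      (ENNReal.ofReal (Real.exp (-∫ q in s..T, c q ((y + p.1 a) + p.2 (q - s)))) *
        f ((y + p.1 a) + p.2 (T - s)))
  have mA : Measurable fun p : Pth × Pth => y + p.1 a :=
    measurable_const.add ((Pth.measurable_apply a).comp measurable_fst)
  have hG : Measurable G := by
    refine ((gmk_wt hc measurable_const measurable_const measurable_const measurable_const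
      measurable_fst).mul (hψ.comp mA)).mul ((gmk_wt hc measurable_const measurable_const measurable_const mA
      measurable_snd).mul (hf.comp (mA.add ?_)))
    exact (Pth.measurable_apply (T - s)).comp measurable_snd
  have e1 : ∫⁻ w, ENNReal.ofReal (Real.exp (-∫ q in r..T, c q (y + w (q - r)))) *
      (ψ (y + w (s - r)) * f (y + w (T - r))) ∂Wm = ∫⁻ w, G (Pth.stop a w, Pth.shift a w) ∂Wm := by
    refine lintegral_congr fun w => ?_
    have hs : Pth.stop a w a = w a := by rw [Pth.stop_apply, min_self]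
    have i1 : ∫ q in r..s, c q (y + Pth.stop a w (q - r)) = ∫ q in r..s, c q (y + w (q - r)) := by
      refine intervalIntegral.integral_congr fun q hsm => ?_
      rw [uIcc_of_le hrs] at hsm
      rw [Pth.stop_apply, min_eq_left (by rw [ha]; linarith [hsm.2])]
    have i2 : ∫ q in s..T, c q ((y + Pth.stop a w a) + Pth.shift a w (q - s)) =
        ∫ q in s..T, c q (y + w (q - r)) := by
      refine intervalIntegral.integral_congr fun q hsm => ?_
      rw [uIcc_of_le hsT] at hsm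
      rw [hs, Pth.shift_apply_of_nonneg _ _ (by linarith [hsm.1])]
      congr 1
      have : (a : ℝ) + (q - s) = q - r := by rw [ha]; ring
      rw [this]
      ring
    have i3 : (y + Pth.stop a w a) + Pth.shift a w (T - s) = y + w (T - r) := by
      rw [hs, Pth.shift_apply_of_nonneg _ _ (by linarith)]
      have : (a : ℝ) + (T - s) = T - r := by rw [ha]; ring
      rw [this]
      ring
    show _ = (ENNReal.ofReal (Real.exp (-∫ q in r..s, c q (y + Pth.stop a w (q - r)))) *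
      ψ (y + Pth.stop a w a)) *
      (ENNReal.ofReal (Real.exp (-∫ q in s..T, c q ((y + Pth.stop a w a) + Pth.shift a w (q - s)))) *
        f ((y + Pth.stop a w a) + Pth.shift a w (T - s)))
    have e2 : Real.exp (-∫ q in r..T, c q (y + w (q - r))) =
        Real.exp (-∫ q in r..s, c q (y + w (q - r))) *
        Real.exp (-∫ q in s..T, c q (y + w (q - r))) := by
      rw [← Real.exp_add]
      congr 1
      have hi := gmk_path_cont hc y r w
      rw [← intervalIntegral.integral_add_adjacent_intervals (hi.intervalIntegrable r s)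
        (hi.intervalIntegrable s T)]
      ring
    rw [i1, i2, i3, e2, ENNReal.ofReal_mul (Real.exp_pos _).le, hs, ha]
    ring
  rw [e1, lintegral_stop_shift Wm_isW a hG]
  unfold Gm
  refine lintegral_congr fun w => ?_
  have hs : Pth.stop a w a = w a := by rw [Pth.stop_apply, min_self]
  have i1 : ∫ q in r..s, c q (y + Pth.stop a w (q - r)) = ∫ q in r..s, c q (y + w (q - r)) := by
    refine intervalIntegral.integral_congr fun q hsm => ?_
    rw [uIcc_of_le hrs] at hsm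
    rw [Pth.stop_apply, min_eq_left (by rw [ha]; linarith [hsm.2])]
  show ∫⁻ B, (ENNReal.ofReal (Real.exp (-∫ q in r..s, c q (y + Pth.stop a w (q - r)))) *
      ψ (y + Pth.stop a w a)) *
      (ENNReal.ofReal (Real.exp (-∫ q in s..T, c q ((y + Pth.stop a w a) + B (q - s)))) *
        f ((y + Pth.stop a w a) + B (T - s))) ∂Wm = _
  rw [i1, hs, ha, ← mul_assoc]
  refine lintegral_const_mul _ ?_
  refine (gmk_wt hc measurable_const measurable_const measurable_const measurable_const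
      measurable_id).mul (hf.comp (measurable_const.add ?_))
  exact Pth.measurable_apply (T - s)

theorem Lw_meas (α β r T y : ℝ) (hα : 0 < α) : Measurable (Lw α β r T y) := by
  unfold Lw
  exact Real.measurable_exp.comp (gmk_expo (c0_cont hα β) measurable_const measurable_const
    measurable_const measurable_const measurable_id).neg

theorem Lyy_gg {α : ℝ} (hα : 0 < α) (hα2 : α < 2) : 0 < gg α := by
  unfold gg
  exact div_pos (by linarith) (by linarith)

/-- the two bounds of `y1` for the potential `c0` -/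
theorem Lyy_y1 {α β lam ρ C : ℝ} {φ : ℝ → ℝ} (hα : 0 < α) (hα2 : α < 2) (hβ : 0 < β) (G : GS α lam ρ C φ) :
    ∃ s0 ≥ (1 : ℝ), ∃ C1 > 0, ∀ r t : ℝ, s0 ≤ r → r ≤ t → ∀ y,
      Gm (c0 α β) r t (fun _ => 1) y ≤ ENNReal.ofReal (C1 * NN α β lam r t) ∧
      Gm (c0 α β) r t (fun z => ENNReal.ofReal (1 + z ^ 2 * t ^ (-2 * gam α))) y ≤
        ENNReal.ofReal (C1 * (1 + y ^ 2 * r ^ (-2 * gam α)) * NN α β lam r t) := by
  obtain ⟨s0, hs0, C1, hC1, h⟩ := y1 hα hα2 hβ G (Cf := 0) (ζ := gg α + 1) (η := 1) le_rfl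
    (by linarith) one_pos
  refine ⟨s0, hs0, C1, hC1, fun r t hr hrt y => ⟨?_, ?_⟩⟩
  · exact (Gm_mono (c0_cont hα β) (cfl_cont hα β 0 (gg α + 1) 1) hrt
      (fun s _ _ z => cfl_le_c0 hα hβ.le le_rfl s z) (fun _ => le_rfl) y).trans (h r t hr hrt y).1
  · exact (Gm_mono (c0_cont hα β) (cfl_cont hα β 0 (gg α + 1) 1) hrt
      (fun s _ _ z => cfl_le_c0 hα hβ.le le_rfl s z) (fun _ => le_rfl) y).trans (h r t hr hrt y).2

theorem y_a {α β lam ρ C : ℝ} {φ : ℝ → ℝ} (hα : 0 < α) (hα2 : α < 2) (hβ : 0 < β) (G : GS α lam ρ C φ) :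
    ∃ s0 ≥ (1 : ℝ), ∃ C1 > 0, ∀ r T : ℝ, s0 ≤ r → r ≤ T → ∀ y,
      ∫⁻ w, ENNReal.ofReal (Lw α β r T y w) ∂Wm ≤ ENNReal.ofReal (C1 * NN α β lam r T) := by
  obtain ⟨s0, hs0, C1, hC1, h⟩ := Lyy_y1 hα hα2 hβ G
  refine ⟨s0, hs0, C1, hC1, fun r T hr hrT y => ?_⟩
  refine le_trans (le_of_eq ?_) (h r T hr hrT y).1
  unfold Gm Lw
  simp only [mul_one]

theorem y_b {α β lam ρ C : ℝ} {φ : ℝ → ℝ} (hα : 0 < α) (hα2 : α < 2) (hβ : 0 < β) (G : GS α lam ρ C φ) :
    ∃ s0 ≥ (1 : ℝ), ∃ C1 > 0, ∀ r s T : ℝ, s0 ≤ r → r ≤ s → s ≤ T → ∀ y,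
      ∫⁻ w, ENNReal.ofReal (Lw α β r T y w) * ENNReal.ofReal ((y + w (s - r)) ^ 2) ∂Wm ≤
        ENNReal.ofReal (C1 * (1 + y ^ 2 * r ^ (-2 * gam α)) * s ^ (2 * gam α) * NN α β lam r T) := by
  obtain ⟨s0, hs0, C1, hC1, h⟩ := Lyy_y1 hα hα2 hβ G
  refine ⟨s0, hs0, C1 * C1, by positivity, fun r s T hr hrs hsT y => ?_⟩
  have hr0 : 0 < r := by linarith
  have hs1 : 0 < s := by linarith
  have hT0 : 0 < T := by linarith
  have hc := c0_cont hα β
  have hN1 := Y1_NN_nonneg (α := α) (β := β) (lam := lam) hs1 hT0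
  have hN2 := Y1_NN_nonneg (α := α) (β := β) (lam := lam) hr0 hs1
  have hsg : 0 < s ^ (2 * gam α) := Real.rpow_pos_of_pos hs1 _
  have hψ : Measurable fun z : ℝ => ENNReal.ofReal (z ^ 2) := by fun_prop
  have e1 : ∫⁻ w, ENNReal.ofReal (Lw α β r T y w) * ENNReal.ofReal ((y + w (s - r)) ^ 2) ∂Wm =
      Gm (c0 α β) r s (fun z => ENNReal.ofReal (z ^ 2) * Gm (c0 α β) s T (fun _ => 1) z) y := by
    rw [← Gm_two hc measurable_const hψ hrs hsT y]
    refine lintegral_congr fun w => ?_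
    rw [mul_one]
    rfl
  have hle : ∀ z : ℝ, ENNReal.ofReal (z ^ 2) * Gm (c0 α β) s T (fun _ => 1) z ≤
      ENNReal.ofReal (C1 * NN α β lam s T * s ^ (2 * gam α)) *
        ENNReal.ofReal (1 + z ^ 2 * s ^ (-2 * gam α)) := by
    intro z
    refine (mul_le_mul_right ((h s T (hr.trans hrs) hsT z).1) _).trans ?_
    rw [← ENNReal.ofReal_mul (sq_nonneg z), ← ENNReal.ofReal_mul (by positivity)]
    refine ENNReal.ofReal_le_ofReal ?_
    have e2 : s ^ (2 * gam α) * s ^ (-2 * gam α) = 1 := by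
      rw [← Real.rpow_add hs1]
      have : 2 * gam α + -2 * gam α = 0 := by ring
      rw [this, Real.rpow_zero]
    have e3 : C1 * NN α β lam s T * s ^ (2 * gam α) * (1 + z ^ 2 * s ^ (-2 * gam α)) =
        C1 * NN α β lam s T * s ^ (2 * gam α) + C1 * NN α β lam s T * z ^ 2 *
          (s ^ (2 * gam α) * s ^ (-2 * gam α)) := by ring
    rw [e3, e2]
    have e4 : 0 ≤ C1 * NN α β lam s T * s ^ (2 * gam α) := by positivity
    linarith
  rw [e1]
  refine (Gm_mono hc hc hrs (fun _ _ _ _ => le_rfl) hle y).trans ?_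
  rw [Gm_const_mul hc (by fun_prop)]
  refine (mul_le_mul_right (h r s hr hrs y).2 _).trans ?_
  rw [← ENNReal.ofReal_mul (by positivity)]
  refine le_of_eq ?_
  congr 1
  rw [NN_mul (α := α) (β := β) (lam := lam) hr0 hs1 hT0]
  ring

theorem Lyy_int {α lam ρ C : ℝ} {φ : ℝ → ℝ} (G : GS α lam ρ C φ) : Integrable φ := by
  have hC := G.C_ge
  have i0 : Integrable fun x : ℝ => C * (1 + x ^ 2)⁻¹ := integrable_inv_one_add_sq.const_mul C
  refine i0.mono G.meas.aestronglyMeasurable (ae_of_all _ fun x => ?_)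
  rw [Real.norm_of_nonneg (G.pos x).le, Real.norm_of_nonneg (by positivity)]
  refine (G.bd x).trans ?_
  rw [div_eq_mul_inv]
  refine mul_le_mul_of_nonneg_left ?_ (by linarith)
  refine inv_anti₀ (by positivity) ?_
  nlinarith [sq_nonneg x]

theorem Lyy_pos {α lam ρ C : ℝ} {φ : ℝ → ℝ} (G : GS α lam ρ C φ) : 0 < ∫ x, φ x := by
  rw [integral_pos_iff_support_of_nonneg (fun x => (G.pos x).le) (Lyy_int G)]
  have : Function.support φ = univ := by
    ext x
    simp [(G.pos x).ne']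
  rw [this]
  simp

theorem y_low {α β lam ρ C : ℝ} {φ : ℝ → ℝ} (hα : 0 < α) (hα2 : α < 2) (hβ : 0 < β) (G : GS α lam ρ C φ)
    {U ε : ℝ} (hU : 0 < U) (hε : 0 < ε) :
    ∃ U' ≥ (1 : ℝ), ∃ r0 ≥ (1 : ℝ), ∀ r, r0 ≤ r → ∀ᶠ T in atTop, ∀ y, |y| ≤ U * r ^ gam α →
      ENNReal.ofReal (NN α β lam r T * ((1 - ε) * ((∫ x, φ x) * φ (y / ell α β r)))) ≤
        ∫⁻ w in {w : Pth | |y + w (T - r)| ≤ U' * T ^ gam α}, ENNReal.ofReal (Lw α β r T y w) ∂Wm := by
  have hκ := kb_pos (α := α) hβ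
  have hI := Lyy_pos G
  obtain ⟨c, hc, hcφ⟩ := G.low (U / kb α β)
  have hε' : 0 < ε * (∫ x, φ x) * c / 2 := by positivity
  obtain ⟨ε', hε'd⟩ : ∃ e, e = ε * (∫ x, φ x) * c / 2 := ⟨_, rfl⟩
  rw [← hε'd] at hε'
  obtain ⟨r1, hr1, h2⟩ := y2_lo hα hα2 hβ G (U := U) hU hε'
  obtain ⟨s0, hs0, C1, hC1, hb⟩ := y_b hα hα2 hβ G
  refine ⟨1 + C1 * (1 + U ^ 2) / ε', ?_, max r1 s0, le_max_of_le_left hr1, fun r hr => ?_⟩
  · have : 0 ≤ C1 * (1 + U ^ 2) / ε' := by positivity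
    linarith
  obtain ⟨U', hU'd⟩ : ∃ u, u = 1 + C1 * (1 + U ^ 2) / ε' := ⟨_, rfl⟩
  rw [← hU'd]
  have hU'1 : 1 ≤ U' := by
    have : 0 ≤ C1 * (1 + U ^ 2) / ε' := by positivity
    linarith
  have hU'2 : C1 * (1 + U ^ 2) ≤ ε' * U' ^ 2 := by
    have e1 : C1 * (1 + U ^ 2) / ε' ≤ U' := by linarith
    have e2 : U' ≤ U' ^ 2 := by nlinarith
    have e3 := e1.trans e2
    rw [div_le_iff₀ hε'] at e3
    linarith
  have hrr1 : r1 ≤ r := (le_max_left _ _).trans hr
  have hrs0 : s0 ≤ r := (le_max_right _ _).trans hr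
  have hr0 : 0 < r := by linarith
  filter_upwards [h2 r hrr1, eventually_ge_atTop r] with T hT hrT y hy
  have hT0 : 0 < T := by linarith
  have hN := Y1_NN_nonneg (α := α) (β := β) (lam := lam) hr0 hT0
  have hrg : 0 < r ^ gam α := Real.rpow_pos_of_pos hr0 _
  have hTg : 0 < T ^ gam α := Real.rpow_pos_of_pos hT0 _
  have hyφ : c ≤ φ (y / ell α β r) := by
    refine hcφ _ ?_
    have e1 : 0 < ell α β r := by
      unfold ell
      positivity
    rw [abs_div, abs_of_pos e1, div_le_div_iff₀ e1 hκ]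
    unfold ell
    have := mul_le_mul_of_nonneg_right hy hκ.le
    linarith
  -- the far part
  have hTsq : T ^ (2 * gam α) = (T ^ gam α) ^ 2 := by
    rw [mul_comm, Real.rpow_mul hT0.le]
    norm_cast
  have hrsq : (r ^ gam α) ^ 2 * r ^ (-2 * gam α) = 1 := by
    have : (r ^ gam α) ^ 2 = r ^ (2 * gam α) := by
      rw [mul_comm, Real.rpow_mul hr0.le]
      norm_cast
    rw [this, ← Real.rpow_add hr0]
    have : 2 * gam α + -2 * gam α = 0 := by ring
    rw [this, Real.rpow_zero]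
  have hmw : Measurable fun w : Pth => y + w (T - r) := measurable_const.add (Pth.measurable_apply _)
  have hset : MeasurableSet {w : Pth | |y + w (T - r)| ≤ U' * T ^ gam α} :=
    measurableSet_le (hmw.norm) measurable_const
  have hfar : ∫⁻ w in {w : Pth | |y + w (T - r)| ≤ U' * T ^ gam α}ᶜ,
      ENNReal.ofReal (Lw α β r T y w) ∂Wm ≤ ENNReal.ofReal (ε' * NN α β lam r T) := by
    obtain ⟨a, ha⟩ : ∃ a, a = (U' ^ 2 * T ^ (2 * gam α))⁻¹ := ⟨_, rfl⟩
    have ha0 : 0 < a := by rw [ha]; positivity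
    have hLm := (Lw_meas α β r T y hα).ennreal_ofReal
    have hqm : Measurable fun w : Pth => ENNReal.ofReal ((y + w (T - r)) ^ 2) :=
      (hmw.pow_const 2).ennreal_ofReal
    calc ∫⁻ w in {w : Pth | |y + w (T - r)| ≤ U' * T ^ gam α}ᶜ,
          ENNReal.ofReal (Lw α β r T y w) ∂Wm ≤
          ∫⁻ w in {w : Pth | |y + w (T - r)| ≤ U' * T ^ gam α}ᶜ, ENNReal.ofReal a *
            (ENNReal.ofReal (Lw α β r T y w) * ENNReal.ofReal ((y + w (T - r)) ^ 2)) ∂Wm := by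
          refine setLIntegral_mono (measurable_const.mul (hLm.mul hqm)) fun w hw => ?_
          have hw' : U' * T ^ gam α < |y + w (T - r)| := not_le.1 hw
          have h3 : 1 ≤ a * (y + w (T - r)) ^ 2 := by
            rw [ha, ← div_eq_inv_mul, one_le_div (by positivity), hTsq, ← mul_pow,
              ← sq_abs (y + w (T - r))]
            exact pow_le_pow_left₀ (by positivity) hw'.le 2
          have hL0 : 0 ≤ Lw α β r T y w := (Real.exp_pos _).le
          rw [← ENNReal.ofReal_mul hL0, ← ENNReal.ofReal_mul ha0.le]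
          refine ENNReal.ofReal_le_ofReal ?_
          have := mul_le_mul_of_nonneg_left h3 hL0
          linarith
      _ ≤ ∫⁻ w, ENNReal.ofReal a *
            (ENNReal.ofReal (Lw α β r T y w) * ENNReal.ofReal ((y + w (T - r)) ^ 2)) ∂Wm :=
          setLIntegral_le_lintegral _ _
      _ = ENNReal.ofReal a * ∫⁻ w, ENNReal.ofReal (Lw α β r T y w) *
            ENNReal.ofReal ((y + w (T - r)) ^ 2) ∂Wm := lintegral_const_mul _ (hLm.mul hqm)
      _ ≤ ENNReal.ofReal a * ENNReal.ofReal (C1 * (1 + y ^ 2 * r ^ (-2 * gam α)) *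
            T ^ (2 * gam α) * NN α β lam r T) := mul_le_mul_right (hb r T T hrs0 hrT le_rfl y) _
      _ ≤ ENNReal.ofReal (ε' * NN α β lam r T) := by
          rw [← ENNReal.ofReal_mul ha0.le]
          refine ENNReal.ofReal_le_ofReal ?_
          have h4 : y ^ 2 * r ^ (-2 * gam α) ≤ U ^ 2 := by
            have h5 : y ^ 2 ≤ U ^ 2 * (r ^ gam α) ^ 2 := by
              rw [← mul_pow, ← sq_abs y]
              exact pow_le_pow_left₀ (abs_nonneg _) hy 2
            have h6 : 0 ≤ r ^ (-2 * gam α) := Real.rpow_nonneg hr0.le _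
            calc y ^ 2 * r ^ (-2 * gam α) ≤ U ^ 2 * (r ^ gam α) ^ 2 * r ^ (-2 * gam α) :=
                  mul_le_mul_of_nonneg_right h5 h6
              _ = U ^ 2 * ((r ^ gam α) ^ 2 * r ^ (-2 * gam α)) := by ring
              _ = U ^ 2 := by rw [hrsq, mul_one]
          have h7 : C1 * (1 + y ^ 2 * r ^ (-2 * gam α)) ≤ ε' * U' ^ 2 :=
            (mul_le_mul_of_nonneg_left (by linarith) hC1.le).trans hU'2
          have h8 : 0 < T ^ (2 * gam α) := Real.rpow_pos_of_pos hT0 _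
          calc a * (C1 * (1 + y ^ 2 * r ^ (-2 * gam α)) * T ^ (2 * gam α) * NN α β lam r T) ≤
                a * (ε' * U' ^ 2 * T ^ (2 * gam α) * NN α β lam r T) := by
                gcongr
            _ = ε' * NN α β lam r T * (a * (U' ^ 2 * T ^ (2 * gam α))) := by ring
            _ = ε' * NN α β lam r T := by
                rw [ha, inv_mul_cancel₀ (by positivity), mul_one]
  have htot : Gm (c0 α β) r T (fun _ => 1) y =
      ∫⁻ w in {w : Pth | |y + w (T - r)| ≤ U' * T ^ gam α}, ENNReal.ofReal (Lw α β r T y w) ∂Wm +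
      ∫⁻ w in {w : Pth | |y + w (T - r)| ≤ U' * T ^ gam α}ᶜ, ENNReal.ofReal (Lw α β r T y w) ∂Wm := by
    rw [lintegral_add_compl _ hset]
    unfold Gm Lw
    simp only [mul_one]
  have hmain := hT y hy
  rw [htot] at hmain
  have h9 := hmain.trans (add_le_add_right hfar _)
  have h10 : ENNReal.ofReal (NN α β lam r T * ((∫ x, φ x) * φ (y / ell α β r) - ε')) -
      ENNReal.ofReal (ε' * NN α β lam r T) ≤
      ∫⁻ w in {w : Pth | |y + w (T - r)| ≤ U' * T ^ gam α}, ENNReal.ofReal (Lw α β r T y w) ∂Wm :=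
    tsub_le_iff_right.2 h9
  rw [← ENNReal.ofReal_sub _ (by positivity)] at h10
  refine le_trans (ENNReal.ofReal_le_ofReal ?_) h10
  have h11 : 2 * ε' ≤ ε * ((∫ x, φ x) * φ (y / ell α β r)) := by
    rw [hε'd]
    have := mul_le_mul_of_nonneg_left hyφ (show 0 ≤ ε * ∫ x, φ x by positivity)
    linarith
  have h12 := mul_le_mul_of_nonneg_left h11 hN
  linarith

/-- the bad event -/
theorem Lyy_B {ℓ R : ℝ} (hℓ : 0 < ℓ) (hR : 0 < R) :
    W2 ({w : P2 | ∃ s ∈ Icc (0 : ℝ) ℓ, R ≤ |w.1 s|} ∪ {w : P2 | ∃ s ∈ Icc (0 : ℝ) ℓ, R ≤ |w.2 s|})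
      ≤ ENNReal.ofReal (8 * Real.exp (-R ^ 2 / (2 * ℓ))) := by
  have h := sup_tail hℓ hR
  have e1 : {w : P2 | ∃ s ∈ Icc (0 : ℝ) ℓ, R ≤ |w.1 s|} =
      {w : Pth | ∃ s ∈ Icc (0 : ℝ) ℓ, R ≤ |w s|} ×ˢ univ := by
    ext w
    simp
  have e2 : {w : P2 | ∃ s ∈ Icc (0 : ℝ) ℓ, R ≤ |w.2 s|} =
      univ ×ˢ {w : Pth | ∃ s ∈ Icc (0 : ℝ) ℓ, R ≤ |w s|} := by
    ext w
    simp
  refine (measure_union_le _ _).trans ?_
  unfold W2
  rw [e1, e2, Measure.prod_prod, Measure.prod_prod, measure_univ, mul_one, one_mul]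
  refine (add_le_add h h).trans (le_of_eq ?_)
  rw [← ENNReal.ofReal_add (by positivity) (by positivity)]
  congr 1
  ring

theorem Lyy_gam1 {α : ℝ} (hα : 0 < α) : gam α < 1 := by
  unfold gam
  rw [div_lt_one (by linarith)]
  linarith

/-- smallness of the argument -/
theorem Lyy_lim {α U' : ℝ} (hα : 0 < α) :
    Tendsto (fun t : ℝ => (U' * t ^ gam α + √t) / (t / 2)) atTop (𝓝 0) := by
  have h1 : Tendsto (fun t : ℝ => t ^ (-(1 - gam α))) atTop (𝓝 0) :=
    tendsto_rpow_neg_atTop (by linarith [Lyy_gam1 hα])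
  have h2 : Tendsto (fun t : ℝ => t ^ (-(1 / 2 : ℝ))) atTop (𝓝 0) :=
    tendsto_rpow_neg_atTop (by norm_num)
  have h3 : Tendsto (fun t : ℝ => 2 * U' * t ^ (-(1 - gam α)) + 2 * t ^ (-(1 / 2 : ℝ))) atTop
      (𝓝 (2 * U' * 0 + 2 * 0)) := (h1.const_mul _).add (h2.const_mul _)
  rw [mul_zero, mul_zero, add_zero] at h3
  refine h3.congr' ?_
  filter_upwards [eventually_gt_atTop 0] with t ht
  have e1 : t ^ (-(1 - gam α)) = t ^ gam α / t := by
    have : -(1 - gam α) = gam α - 1 := by ring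
    rw [this, Real.rpow_sub_one ht.ne']
  have e2 : t ^ (-(1 / 2 : ℝ)) = √t / t := by
    have : (-(1 / 2 : ℝ)) = 1 / 2 - 1 := by norm_num
    rw [this, Real.rpow_sub_one ht.ne', ← Real.sqrt_eq_rpow]
  rw [e1, e2]
  field_simp

theorem l_end {b : ℝ → ℝ} {α β : ℝ} (hα : 0 < α) (hα2 : α < 2) (h : A12 b α β) {ℓ U' ε1 : ℝ} (hℓ : 0 < ℓ)
    (hU : 0 < U') (hε : 0 < ε1) :
    ∀ᶠ t in atTop, ∀ (y : ℂ) (z : ℝ), t ≤ y.re → |y.im| ≤ U' * t ^ gam α →
      vh ℓ (z - y.re) - ε1 ≤ vf b (HP z) ℓ y := by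
  have hrate := a12_rate hα h
  have hb0 := a12_one hα h
  obtain ⟨ε2, hε2d⟩ : ∃ e, e = ε1 / (2 * ℓ * Real.exp ℓ) := ⟨_, rfl⟩
  have hε2 : 0 < ε2 := by rw [hε2d]; positivity
  obtain ⟨θ1, hθ1, hθ⟩ := Metric.continuousAt_iff.1 (h.cont.continuousAt (x := 0)) ε2 hε2
  have hbθ : ∀ θ : ℝ, |θ| < θ1 → 1 - b θ ≤ ε2 := by
    intro θ h1
    have h2 := hθ (x := θ) (by rw [Real.dist_eq, sub_zero]; exact h1)
    rw [hb0, Real.dist_eq] at h2
    have := (abs_lt.1 h2).1
    linarith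
  have hlim : Tendsto (fun t : ℝ => 8 * Real.exp (-t / (2 * ℓ))) atTop (𝓝 0) := by
    have h1 : Tendsto (fun t : ℝ => t / (2 * ℓ)) atTop atTop :=
      tendsto_id.atTop_div_const (by positivity)
    have h2 := (Real.tendsto_exp_neg_atTop_nhds_zero.comp h1).const_mul 8
    rw [mul_zero] at h2
    refine h2.congr fun t => ?_
    simp only [Function.comp]
    rw [neg_div]
  filter_upwards [(Lyy_lim (U' := U') hα).eventually_lt_const hθ1, hlim.eventually_le_const hε2,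
    eventually_ge_atTop 4] with t ht1 ht2 ht4 y z hy1 hy2
  have ht0 : 0 < t := by linarith
  have hsq : 0 < √t := Real.sqrt_pos.2 ht0
  have hsq2 : √t ≤ t / 2 := by
    rw [Real.sqrt_le_left (by positivity)]
    nlinarith
  obtain ⟨B, hBd⟩ : ∃ B : Set P2, B = {w : P2 | ∃ s ∈ Icc (0 : ℝ) ℓ, √t ≤ |w.1 s|} ∪
    {w : P2 | ∃ s ∈ Icc (0 : ℝ) ℓ, √t ≤ |w.2 s|} := ⟨_, rfl⟩
  have hB : W2 B ≤ ENNReal.ofReal ε2 := by
    have h1 := Lyy_B hℓ hsq
    rw [← hBd, Real.sq_sqrt ht0.le] at h1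
    exact h1.trans (ENNReal.ofReal_le_ofReal ht2)
  have hgood : ∀ w : P2, w ∉ B → ∀ s ∈ Icc (0 : ℝ) ℓ, 1 - b (Complex.arg (y + pt w s)) ≤ ε2 := by
    intro w hw s hs
    have h1 : |w.1 s| < √t := by
      by_contra hc
      exact hw (by rw [hBd]; exact Or.inl ⟨s, hs, not_lt.1 hc⟩)
    have h2 : |w.2 s| < √t := by
      by_contra hc
      exact hw (by rw [hBd]; exact Or.inr ⟨s, hs, not_lt.1 hc⟩)
    have h3 : (y + pt w s).re = y.re + w.1 s := rfl
    have h4 : (y + pt w s).im = y.im + w.2 s := rfl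
    have h5 : t / 2 ≤ (y + pt w s).re := by
      rw [h3]
      have := (abs_lt.1 h1).1
      linarith
    have h6 : |(y + pt w s).im| ≤ U' * t ^ gam α + √t := by
      rw [h4]
      exact (abs_add_le _ _).trans (add_le_add hy2 h2.le)
    apply hbθ
    refine lt_of_le_of_lt (Qlu_arg_up (by linarith)) (lt_of_le_of_lt ?_ ht1)
    exact div_le_div₀ (by positivity) h6 (by positivity) h5
  have hin : ∀ s ∈ Icc (0 : ℝ) ℓ, |∫ w, (1 - b (Complex.arg (y + pt w s))) ∂W2| ≤ 2 * ε2 := by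
    intro s hs
    have hn : ∀ w : P2, 0 ≤ 1 - b (Complex.arg (y + pt w s)) := fun w => by
      linarith [hrate.le_one (Complex.arg (y + pt w s))]
    rw [abs_of_nonneg (integral_nonneg hn)]
    have hmT := measurableSet_toMeasurable W2 B
    have hint : Integrable (fun w : P2 => ε2 + (toMeasurable W2 B).indicator (fun _ => (1 : ℝ)) w) W2 :=
      (integrable_const _).add ((integrable_const _).indicator hmT)
    have h1 : ∫ w, (1 - b (Complex.arg (y + pt w s))) ∂W2 ≤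
        ∫ w, (ε2 + (toMeasurable W2 B).indicator (fun _ => (1 : ℝ)) w) ∂W2 := by
      refine integral_mono_of_nonneg (ae_of_all _ hn) hint (ae_of_all _ fun w => ?_)
      show 1 - b (Complex.arg (y + pt w s)) ≤ ε2 + (toMeasurable W2 B).indicator (fun _ => (1 : ℝ)) w
      by_cases hw : w ∈ B
      · rw [indicator_of_mem (subset_toMeasurable W2 B hw)]
        linarith [hrate.nonneg (Complex.arg (y + pt w s))]
      · have h2 := hgood w hw s hs
        have h3 : 0 ≤ (toMeasurable W2 B).indicator (fun _ => (1 : ℝ)) w :=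
          indicator_nonneg (fun _ _ => zero_le_one) _
        linarith
    have h2 : ∫ w, (ε2 + (toMeasurable W2 B).indicator (fun _ => (1 : ℝ)) w) ∂W2 =
        ε2 + (W2 B).toReal := by
      rw [integral_add (integrable_const _) ((integrable_const _).indicator hmT),
        integral_const, integral_indicator hmT, setIntegral_const]
      simp [Measure.real, measure_toMeasurable]
    have h3 : (W2 B).toReal ≤ ε2 := by
      have := ENNReal.toReal_mono ENNReal.ofReal_ne_top hB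
      rwa [ENNReal.toReal_ofReal hε2.le] at this
    linarith
  have hbound : |∫ s in (0 : ℝ)..ℓ, ∫ w, (1 - b (Complex.arg (y + pt w s))) ∂W2| ≤
      2 * ε2 * |ℓ - 0| := by
    refine intervalIntegral.norm_integral_le_of_norm_le_const
      (f := fun s => ∫ w, (1 - b (Complex.arg (y + pt w s))) ∂W2) (fun s hs => ?_)
    rw [uIoc_of_le hℓ.le] at hs
    exact hin s ⟨hs.1.le, hs.2⟩
  rw [sub_zero, abs_of_pos hℓ] at hbound
  have h5 := vf_ge_vh hrate (z := z) hℓ.le y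
  have h6 : Real.exp ℓ * (2 * ε2 * ℓ) = ε1 := by
    rw [hε2d]
    field_simp
  have h7 := mul_le_mul_of_nonneg_left ((le_abs_self _).trans hbound) (Real.exp_pos ℓ).le
  linarith

end Pool.H50.BB
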