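import Pool.Agent.H50.BB.Defs

/-!
# Row Tree: the root and the two subtrees are independent   (about 100 lines)

`PP = infinitePi (fun _ : List Bool => mk)`.  Let `F : (P2 × ℝ) × Cfg × Cfg → Cfg`, `F (m, ω0, ω1) [] = m`, `F (..) (false :: u) = ω0 u`, `F (..) (true :: u) = ω1 u`;
`F` is measurable (coordinates) and it is the inverse of `G ω = (ω [], sub false ω, sub true ω)`.  Show `(mk.prod (PP.prod PP)).map F = PP` with
`Measure.eq_infinitePi` (see `Mathlib/Probability/ProductMeasure.lean`): for a finite set `s` of words and measurable sets `t u`, `F ⁻¹' (Set.pi s t)` is the product of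
`{m | [] ∈ s → m ∈ t []}`, `Set.pi s0 (fun u => t (false :: u))`, `Set.pi s1 (fun u => t (true :: u))`, where `s0 = {u | false :: u ∈ s}`, `s1 = {u | true :: u ∈ s}` (finite:
`Finset.preimage` by the injective map `List.cons false`); its measure is the product (`infinitePi_pi`), and the product over `s` splits into the three parts.
Then `PP.map G = ((mk.prod ..).map F).map G = (mk.prod ..).map (G ∘ F) = mk.prod ..` as `G ∘ F = id`.
-/

open MeasureTheory ProbabilityTheory Set Filter Topology
open scoped NNReal ENNReal

namespace Pool.H50.BB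

open Pool.Agent.H4.BM

/-- the configuration with root `m` and subtrees `ω0`, `ω1`. -/
def Tree_F (p : (P2 × ℝ) × Cfg × Cfg) : Cfg
  | [] => p.1
  | false :: u => p.2.1 u
  | true :: u => p.2.2 u

theorem Tree_meas : Measurable Tree_F := by
  refine measurable_pi_iff.2 fun u => ?_
  match u with
  | [] => exact measurable_fst
  | false :: u => exact (measurable_pi_apply u).comp (measurable_fst.comp measurable_snd)
  | true :: u => exact (measurable_pi_apply u).comp (measurable_snd.comp measurable_snd)

theorem Tree_pre (s : Finset (List Bool)) (t : List Bool → Set (P2 × ℝ)) :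
    Tree_F ⁻¹' (Set.pi s t) = {m | [] ∈ s → m ∈ t []} ×ˢ
      ((Set.pi (s.preimage (List.cons false) (List.cons_injective.injOn) : Finset (List Bool))
          (fun u => t (false :: u))) ×ˢ
        (Set.pi (s.preimage (List.cons true) (List.cons_injective.injOn) : Finset (List Bool))
          (fun u => t (true :: u)))) := by
  ext ⟨m, ω0, ω1⟩
  constructor
  · intro h
    refine ⟨fun hs => h [] hs, fun u hu => ?_, fun u hu => ?_⟩
    · exact h (false :: u) (Finset.mem_preimage.1 (Finset.mem_coe.1 hu))
    · exact h (true :: u) (Finset.mem_preimage.1 (Finset.mem_coe.1 hu))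
  · rintro ⟨h1, h2, h3⟩ u hu
    match u with
    | [] => exact h1 hu
    | false :: u => exact h2 u (Finset.mem_coe.2 (Finset.mem_preimage.2 hu))
    | true :: u => exact h3 u (Finset.mem_coe.2 (Finset.mem_preimage.2 hu))

theorem Tree_prod (s : Finset (List Bool)) (g : List Bool → ℝ≥0∞) :
    ∏ u ∈ s, g u = (if [] ∈ s then g [] else 1) *
      ((∏ u ∈ s.preimage (List.cons false) (List.cons_injective.injOn), g (false :: u)) *
        ∏ u ∈ s.preimage (List.cons true) (List.cons_injective.injOn), g (true :: u)) := by
  classical
  rw [Finset.prod_preimage' (List.cons false) s, Finset.prod_preimage' (List.cons true) s,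
    Finset.prod_filter, Finset.prod_filter, ← Finset.prod_mul_distrib,
    ← Finset.prod_ite_eq' s [] g, ← Finset.prod_mul_distrib]
  refine Finset.prod_congr rfl fun u _ => ?_
  match u with
  | [] => simp
  | false :: u => simp
  | true :: u => simp

theorem Tree_map : (mk.prod (PP.prod PP)).map Tree_F = PP := by
  classical
  unfold PP
  refine Measure.eq_infinitePi _ fun s t ht => ?_
  rw [Measure.map_apply Tree_meas (MeasurableSet.pi s.countable_toSet fun i _ => ht i), Tree_pre,
    Measure.prod_prod, Measure.prod_prod, Measure.infinitePi_pi _ (fun u _ => ht _),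
    Measure.infinitePi_pi _ (fun u _ => ht _), Tree_prod s (fun u => mk (t u))]
  congr 1
  by_cases hs : ([] : List Bool) ∈ s
  · simp [hs]
  · simp [hs]

theorem tree_map : PP.map (fun ω : Cfg => (ω [], sub false ω, sub true ω)) = mk.prod (PP.prod PP) := by
  have hG : Measurable (fun ω : Cfg => (ω [], sub false ω, sub true ω)) := by
    refine (measurable_pi_apply _).prodMk (Measurable.prodMk ?_ ?_)
    · exact measurable_pi_iff.2 fun u => measurable_pi_apply _
    · exact measurable_pi_iff.2 fun u => measurable_pi_apply _
  have hid : (fun ω : Cfg => (ω [], sub false ω, sub true ω)) ∘ Tree_F = id := by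
    funext p
    rfl
  conv_lhs => rw [← Tree_map]
  rw [Measure.map_map hG Tree_meas, hid, Measure.map_id]

end Pool.H50.BB
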