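import Pool.Agent.H50.BB.Ap

/-!
# Row Trn: the homogeneous system   (about 130 lines)

`b = 1` (constant): `clock = s`, so `tau` does not depend on the starting point; by induction on the word: `Alive 1 u ω x t ↔ Alive 1 u ω 0 t`, `pos 1 u ω x t = x + pos 1 u ω 0 t`.
So the event `∃ u alive, z < re pos` from `x` is the event `∃ u alive, z - re x < re pos` from `0`: `vf1_trans`.  `vh_anti`: inclusion of events (`vf_mono`).
`vh_le`: `vf_fk` with `r = t = ℓ`, `vf 0 = indicator` (`vf_zero`), `exp ∫ (1-v) ≤ e^ℓ`: `vh ℓ D ≤ e^ℓ P(w_ℓ > D) ≤ e^ℓ e^{-D²/(2ℓ)}` (Gaussian tail / Chernoff, `marg`).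
`vh_pos`: the exponential is `≥ 1`: `vh ℓ D ≥ P(w_ℓ > D) > 0`.
`vf_le_vh`: `vf b (HP z) ℓ x ≤ vh ℓ (z - x.re)` (`vf_cmp`, `b ≤ 1`, `vf1_trans`).
`vf_ge_vh`: the second part of `vf_cmp` with `b' = 1` and `vf1_trans`.
-/

open MeasureTheory ProbabilityTheory Set Filter Topology
open scoped NNReal ENNReal

namespace Pool.H50.BB

open Pool.Agent.H4.BM

theorem rate_one : Rate (fun _ => (1 : ℝ)) := Ap_rate

/-- tail function of the maximum of the homogeneous system -/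
noncomputable def vh (ℓ D : ℝ) : ℝ := vf (fun _ => 1) (HP D) ℓ 0

theorem Trn_clock (w : P2) (x : ℂ) (s : ℝ) : clock (fun _ => 1) w x s = s := by
  unfold clock
  simp

theorem Trn_tau (m : P2 × ℝ) (x y : ℂ) : tau (fun _ => 1) m x = tau (fun _ => 1) m y := by
  unfold tau
  simp only [Trn_clock]

theorem Trn_alive (u : List Bool) : ∀ (ω : Cfg) (x y : ℂ) (t : ℝ),
    Alive (fun _ => 1) u ω x t ↔ Alive (fun _ => 1) u ω y t := by
  induction u with
  | nil =>
    intro ω x y t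
    unfold Alive
    simp only [Trn_clock]
  | cons c u ih =>
    intro ω x y t
    unfold Alive
    simp only [Trn_clock]
    rw [Trn_tau _ x y, ih (sub c ω) _ (y + pt (ω []).1 (tau (fun _ => 1) (ω []) y))]

theorem Trn_pos (u : List Bool) : ∀ (ω : Cfg) (x y : ℂ) (t : ℝ),
    pos (fun _ => 1) u ω (x + y) t = x + pos (fun _ => 1) u ω y t := by
  induction u with
  | nil =>
    intro ω x y t
    unfold pos
    ring
  | cons c u ih =>
    intro ω x y t
    have h1 : pos (fun _ => 1) (c :: u) ω (x + y) t = pos (fun _ => 1) u (sub c ω)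
      (x + y + pt (ω []).1 (tau (fun _ => 1) (ω []) (x + y)))
      (t - tau (fun _ => 1) (ω []) (x + y)) := rfl
    have h2 : pos (fun _ => 1) (c :: u) ω y t = pos (fun _ => 1) u (sub c ω)
      (y + pt (ω []).1 (tau (fun _ => 1) (ω []) y))
      (t - tau (fun _ => 1) (ω []) y) := rfl
    rw [h1, h2, Trn_tau _ (x + y) y, add_assoc, ih]

theorem vf1_trans (z ℓ : ℝ) (x : ℂ) : vf (fun _ => 1) (HP z) ℓ x = vh ℓ (z - x.re) := by
  unfold vh vf
  congr 2
  ext ω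
  simp only [mem_ofPred_eq]
  refine exists_congr fun u => ?_
  rw [Trn_alive u ω x 0]
  have h := Trn_pos u ω x 0 ℓ
  rw [add_zero] at h
  rw [h]
  unfold HP
  simp only [mem_ofPred_eq, Complex.add_re]
  constructor
  · rintro ⟨h1, h2⟩
    exact ⟨h1, by linarith⟩
  · rintro ⟨h1, h2⟩
    exact ⟨h1, by linarith⟩

theorem vh_anti (ℓ : ℝ) : Antitone (vh ℓ) := by
  intro D D' h
  unfold vh
  refine vf_mono rate_one ?_ ℓ 0
  intro x hx
  unfold HP at hx ⊢
  simp only [mem_ofPred_eq] at hx ⊢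
  linarith

theorem vh_nonneg (ℓ D : ℝ) : 0 ≤ vh ℓ D := vf_nonneg _ _ _ _

/-- the tail of the first coordinate -/
theorem Trn_law {ℓ : ℝ} (hℓ : 0 < ℓ) (D : ℝ) :
    W2 {w : P2 | D < w.1 ℓ} = gaussianReal 0 ℓ.toNNReal (Ioi D) := by
  have hm : MeasurableSet {w : Pth | D < w ℓ} := measurableSet_lt measurable_const (Pth.measurable_apply ℓ)
  have e1 : {w : P2 | D < w.1 ℓ} = {w : Pth | D < w ℓ} ×ˢ (univ : Set Pth) := by
    ext w; simp
  have h1 := (IsPreBrownianReal.hasLaw_eval Wm_isW ℓ.toNNReal).map_eq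
  have hc : ((ℓ.toNNReal : ℝ≥0) : ℝ) = ℓ := Real.coe_toNNReal ℓ hℓ.le
  have h2 : Wm.map (fun w : Pth => w ℓ) = gaussianReal 0 ℓ.toNNReal := by
    rw [← h1]
    simp only [hc]
  unfold W2
  rw [e1, Measure.prod_prod, measure_univ, mul_one, ← h2,
    Measure.map_apply (Pth.measurable_apply ℓ) measurableSet_Ioi]
  rfl

theorem Trn_tail {ℓ D : ℝ} (hℓ : 0 < ℓ) (hD : 0 ≤ D) :
    W2.real {w : P2 | D < w.1 ℓ} ≤ Real.exp (-(D ^ 2 / (2 * ℓ))) := by
  have h1 : W2.real {w : P2 | D < w.1 ℓ} = (gaussianReal 0 ℓ.toNNReal).real (Ioi D) := by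
    unfold Measure.real
    rw [Trn_law hℓ]
  have hc : ((ℓ.toNNReal : ℝ≥0) : ℝ) = ℓ := Real.coe_toNNReal ℓ hℓ.le
  have h2 := measure_ge_le_exp_mul_mgf (μ := gaussianReal 0 ℓ.toNNReal) (X := id) (t := D / ℓ) D
    (by positivity) (by
      have := integrable_exp_mul_gaussianReal (μ := 0) (v := ℓ.toNNReal) (D / ℓ)
      simpa using this)
  rw [mgf_id_gaussianReal] at h2
  simp only [hc] at h2
  rw [h1]
  refine (measureReal_mono (fun x hx => ?_)).trans (h2.trans (le_of_eq ?_))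
  · exact le_of_lt (Set.mem_Ioi.1 hx)
  · rw [← Real.exp_add]
    congr 1
    field_simp
    ring

theorem vh_le {ℓ D : ℝ} (hℓ : 0 < ℓ) (hD : 0 ≤ D) : vh ℓ D ≤ Real.exp (ℓ - D ^ 2 / (2 * ℓ)) := by
  unfold vh
  rw [vf_fk rate_one (HP_meas D) hℓ.le le_rfl 0]
  have hS : MeasurableSet {w : P2 | D < w.1 ℓ} :=
    measurableSet_lt measurable_const ((Pth.measurable_apply ℓ).comp measurable_fst)
  have h1 : ∫ w, Real.exp (∫ u in (0 : ℝ)..ℓ, (fun _ => (1 : ℝ)) (Complex.arg (0 + pt w u)) *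
      (1 - vf (fun _ => 1) (HP D) (ℓ - u) (0 + pt w u))) *
      vf (fun _ => 1) (HP D) (ℓ - ℓ) (0 + pt w ℓ) ∂W2 ≤
      ∫ w, Real.exp ℓ * ({w : P2 | D < w.1 ℓ}.indicator (fun _ => (1 : ℝ)) w) ∂W2 := by
    refine integral_mono_of_nonneg (Eventually.of_forall fun w => ?_) ?_ (Eventually.of_forall fun w => ?_)
    · exact mul_nonneg (Real.exp_pos _).le (vf_nonneg _ _ _ _)
    · exact ((integrable_const (1 : ℝ)).indicator hS).const_mul _
    · have e2 : ∫ u in (0 : ℝ)..ℓ, (fun _ => (1 : ℝ)) (Complex.arg (0 + pt w u)) *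
          (1 - vf (fun _ => 1) (HP D) (ℓ - u) (0 + pt w u)) ≤ ℓ := by
        have h3 : ∀ u ∈ Set.uIoc (0 : ℝ) ℓ, ‖(fun _ => (1 : ℝ)) (Complex.arg (0 + pt w u)) *
          (1 - vf (fun _ => 1) (HP D) (ℓ - u) (0 + pt w u))‖ ≤ 1 := by
          intro u _
          have a1 := vf_nonneg (fun _ => 1) (HP D) (ℓ - u) (0 + pt w u)
          have a2 := vf_le_one (fun _ => 1) (HP D) (ℓ - u) (0 + pt w u)
          rw [Real.norm_eq_abs, abs_le]
          constructor <;> simp only [one_mul] <;> linarith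
        have h4 := intervalIntegral.norm_integral_le_of_norm_le_const h3
        rw [sub_zero, abs_of_pos hℓ, one_mul] at h4
        exact (le_abs_self _).trans h4
      rw [sub_self]
      change _ * vf (fun _ => 1) (HP D) 0 (0 + pt w ℓ) ≤ _
      rw [vf_zero rate_one (HP_meas D)]
      refine mul_le_mul (Real.exp_le_exp.2 e2) ?_ ?_ (Real.exp_pos _).le
      · apply le_of_eq
        unfold Set.indicator HP pt
        simp
      · exact Set.indicator_nonneg (fun _ _ => zero_le_one) _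
  refine h1.trans ?_
  rw [integral_const_mul, integral_indicator hS, setIntegral_const, smul_eq_mul, mul_one, Real.exp_sub,
    div_eq_mul_inv, ← Real.exp_neg]
  exact mul_le_mul_of_nonneg_left (Trn_tail hℓ hD) (Real.exp_pos _).le

theorem vh_pos {ℓ : ℝ} (hℓ : 0 < ℓ) (D : ℝ) : 0 < vh ℓ D := by
  have hr0 : Rate (fun _ => (0 : ℝ)) := ⟨continuous_const, fun _ => le_rfl, fun _ => zero_le_one⟩
  have h1 := (vf_cmp hr0 rate_one (fun _ => zero_le_one) (HP_meas D) hℓ.le 0).1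
  unfold vh
  refine lt_of_lt_of_le ?_ h1
  rw [vf_fk hr0 (HP_meas D) hℓ.le le_rfl 0]
  have hS : MeasurableSet {w : P2 | D < w.1 ℓ} :=
    measurableSet_lt measurable_const ((Pth.measurable_apply ℓ).comp measurable_fst)
  have e1 : ∫ w, Real.exp (∫ u in (0 : ℝ)..ℓ, (fun _ => (0 : ℝ)) (Complex.arg (0 + pt w u)) *
      (1 - vf (fun _ => 0) (HP D) (ℓ - u) (0 + pt w u))) *
      vf (fun _ => 0) (HP D) (ℓ - ℓ) (0 + pt w ℓ) ∂W2 =
      ∫ w, ({w : P2 | D < w.1 ℓ}.indicator (fun _ => (1 : ℝ)) w) ∂W2 := by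
    congr 1
    funext w
    simp only [zero_mul, intervalIntegral.integral_zero, Real.exp_zero, one_mul, sub_self]
    rw [vf_zero hr0 (HP_meas D)]
    unfold Set.indicator HP pt
    simp
  rw [e1, integral_indicator hS, setIntegral_const, smul_eq_mul, mul_one]
  unfold Measure.real
  rw [Trn_law hℓ]
  refine ENNReal.toReal_pos ?_ (measure_ne_top _ _)
  intro h0
  have hv : ℓ.toNNReal ≠ 0 := by
    rw [Ne, Real.toNNReal_eq_zero]
    linarith
  have h2 := gaussianReal_absolutelyContinuous' 0 hv h0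
  rw [Real.volume_Ioi] at h2
  exact ENNReal.top_ne_zero h2

theorem vf_le_vh {b : ℝ → ℝ} (hb : Rate b) {z ℓ : ℝ} (hℓ : 0 ≤ ℓ) (x : ℂ) : vf b (HP z) ℓ x ≤ vh ℓ (z - x.re) := by
  rw [← vf1_trans]
  exact (vf_cmp hb rate_one hb.le_one (HP_meas z) hℓ x).1

theorem vf_ge_vh {b : ℝ → ℝ} (hb : Rate b) {z ℓ : ℝ} (hℓ : 0 ≤ ℓ) (x : ℂ) :
    vh ℓ (z - x.re) - vf b (HP z) ℓ x ≤
      Real.exp ℓ * ∫ s in (0 : ℝ)..ℓ, ∫ w, (1 - b (Complex.arg (x + pt w s))) ∂W2 := by
  rw [← vf1_trans]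
  exact (vf_cmp hb rate_one hb.le_one (HP_meas z) hℓ x).2

end Pool.H50.BB
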