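import Pool.Agent.H50.BB.Lfin

/-!
# Row Ul: sandwich at good points   (about 200 lines)

`gpt_good`: `Xi = √r = r^(1/2)`, `im = 0`, `dl α ≥ 0`.
`cc_bdd`: `u_upper` with `a = 0, U = 1, ℓ = 1, ε = 1` and `l_lower` with `a = 0, U = 1, ℓ, ε = 1/2`, at `x = gpt .. 0 r`, `r` = maximum of the two `r0`; one `t` in both eventual sets; divide by `Xi e^{-√2Xi} > 0`:
`(1/2)(CC ℓ - 1/2) P e^{-CL ℓ^{-γ/4}} ≤ CC 1 P + CU (1 + log 2) + 1 =: K`, `P = (∫φ) φ(0) > 0`; `e^{-CL ℓ^{-γ/4}} ≥ e^{-CL}`: `CC ℓ ≤ 1/2 + 2 K e^{CL}/P`.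
`ul_diff`: `M = (∫φ) C ≥ (∫φ)φ`; `CU` from `u_upper`, `CL` from `l_lower`, `C2` from `cc_bdd`.  Choose `ℓ` with `CU ℓ^{-1/2}(1+log(ℓ+1)) ≤ ε/4` and `M C2 CL ℓ^{-γ/4} ≤ ε/4`, then `ε' ∈ (0,1)` with `(M + M C2 + 1) ε' ≤ ε/2`.
For good `x` at time `r ≥ r0` all `vf .. t` (t large) are between `E L1` and `E L2`, `E = Xi e^{-√2Xi}`, `L2 = CC ℓ P + CU(..) + ε'`, `L1 = (1-ε')(CC ℓ - ε') P e^{-q}`, `q = CL ℓ^{-γ/4}`, `P = (∫φ)φ(u) ∈ [0,M]`.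
`L2 - L1 = P (ε' + (CC ℓ - ε')(1 - (1-ε')e^{-q})) + CU(..) + ε' ≤ M (ε' + C2 (ε' + q)) + ε/4 + ε' ≤ ε` (`0 ≤ 1 - (1-ε')e^{-q} ≤ ε' + q`; if `CC ℓ < ε'` the product is `≤ 0`).
So `|vf t - vf t'| ≤ ε E`; the two-variable eventual statement by `Eventually.prod_mk` (`Filter.Eventually.prod_inl`, `prod_inr`).
`ul_pos`: `l_lower` with `ℓ = 1`, `ε = min (1/2) (CC 1 / 2)`, `cc_pos`.
-/

open MeasureTheory ProbabilityTheory Set Filter Topology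
open scoped NNReal ENNReal

namespace Pool.H50.BB

open Pool.Agent.H4.BM

/-- an explicit good point -/
noncomputable def gpt (α β lam a r : ℝ) : ℂ :=
  ((√2 * r - kap α β lam r + gam α / (2 * √2) * Real.log r + a - √r : ℝ) : ℂ)

theorem dl_nonneg {α : ℝ} (hα : 2 / 3 < α) : 0 ≤ dl α := by
  unfold dl gam
  refine le_min ?_ (by norm_num)
  have h1 : 1 / 4 ≤ α / (2 + α) := by
    rw [le_div_iff₀ (by linarith)]
    linarith
  linarith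

theorem gpt_im (α β lam a r : ℝ) : (gpt α β lam a r).im = 0 := by
  unfold gpt
  exact Complex.ofReal_im _

theorem gpt_Xi (α β lam a r : ℝ) : Xi α β lam a r (gpt α β lam a r) = √r := by
  unfold Xi gpt
  rw [Complex.ofReal_re]
  ring

theorem gpt_good {α β lam a U r : ℝ} (hα : 2 / 3 < α) (hα2 : α < 2) (hU : 0 ≤ U) (hr : 1 ≤ r) :
    Good α β lam a U r (gpt α β lam a r) := by
  have hd := dl_nonneg hα
  refine ⟨?_, ?_, ?_⟩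
  · rw [gpt_im, abs_zero]
    positivity
  · rw [gpt_Xi, Real.sqrt_eq_rpow]
    exact Real.rpow_le_rpow_of_exponent_le hr (by linarith)
  · rw [gpt_Xi, Real.sqrt_eq_rpow]
    exact Real.rpow_le_rpow_of_exponent_le hr (by linarith)

theorem good_Xi_pos {α β lam a U r : ℝ} {x : ℂ} (hr : 1 ≤ r) (hx : Good α β lam a U r x) :
    0 < Xi α β lam a r x :=
  lt_of_lt_of_le (Real.rpow_pos_of_pos (by linarith) _) hx.2.1

theorem cc_bdd {b : ℝ → ℝ} {α β lam ρ C : ℝ} {φ : ℝ → ℝ} (hα : 2 / 3 < α) (hα2 : α < 2) (hβ : 0 < β)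
    (h : A12 b α β) (G : GS α lam ρ C φ) : ∃ C2 > 0, ∀ ℓ ≥ (1 : ℝ), CC ℓ ≤ C2 := by
  obtain ⟨CU, hCU, hu⟩ := u_upper hα hα2 hβ h G 0
  obtain ⟨CL, hCL, hl⟩ := l_lower hα hα2 hβ h G 0 (U := 1) one_pos
  obtain ⟨r1, hr1, hu1⟩ := hu 1 one_pos 1 le_rfl 1 one_pos
  have hI := Lyy_pos G
  have hφ0 := G.pos 0
  obtain ⟨P, hP⟩ : ∃ P, P = (∫ y, φ y) * φ 0 := ⟨_, rfl⟩
  have hPpos : 0 < P := by
    rw [hP]
    positivity
  obtain ⟨K, hK⟩ : ∃ K, K = CC 1 * P + CU * ((1 : ℝ) ^ (-(1 / 2 : ℝ)) * (1 + Real.log (1 + 1))) + 1 := ⟨_, rfl⟩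
  have hlog : 0 ≤ Real.log (1 + 1) := Real.log_nonneg (by norm_num)
  have hKpos : 0 < K := by
    have h1 := cc_pos (ℓ := 1) one_pos
    rw [hK]
    positivity
  refine ⟨1 / 2 + 2 * K * Real.exp CL / P, by positivity, fun ℓ hℓ => ?_⟩
  obtain ⟨r2, hr2, hl1⟩ := hl ℓ hℓ (1 / 2) (by norm_num) (by norm_num)
  obtain ⟨r, hr⟩ : ∃ r, r = max r1 r2 := ⟨_, rfl⟩
  have hrr1 : r1 ≤ r := by
    rw [hr]
    exact le_max_left _ _
  have hrr2 : r2 ≤ r := by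
    rw [hr]
    exact le_max_right _ _
  have hg : Good α β lam 0 1 r (gpt α β lam 0 r) := gpt_good hα hα2 zero_le_one (hr1.trans hrr1)
  have hXi := good_Xi_pos (hr1.trans hrr1) hg
  obtain ⟨t, h1, h2⟩ := ((hu1 r hrr1 _ hg).and (hl1 r hrr2 _ hg)).exists
  have h3 := h2.trans h1
  rw [gpt_im, zero_div, ← hP, ← hK] at h3
  have h4 := le_of_mul_le_mul_left h3 (mul_pos hXi (Real.exp_pos _))
  rcases le_or_gt (CC ℓ) (1 / 2) with hc | hc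
  · have : 0 ≤ 2 * K * Real.exp CL / P := by positivity
    linarith
  have hg0 : 0 ≤ gam α := by
    unfold gam
    have : 0 < α := by linarith
    positivity
  have h5 : ℓ ^ (-gam α / 4) ≤ 1 := Real.rpow_le_one_of_one_le_of_nonpos hℓ (by linarith)
  have h6 : Real.exp (-CL) ≤ Real.exp (-CL * ℓ ^ (-gam α / 4)) := by
    rw [Real.exp_le_exp]
    nlinarith
  have h7 : (1 - 1 / 2) * (CC ℓ - 1 / 2) * P * Real.exp (-CL) ≤ K := by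
    refine le_trans ?_ h4
    refine mul_le_mul_of_nonneg_left h6 ?_
    have : 0 < CC ℓ - 1 / 2 := by linarith
    positivity
  have h8 : (CC ℓ - 1 / 2) * P ≤ 2 * K * Real.exp CL := by
    have h9 : (1 - 1 / 2) * (CC ℓ - 1 / 2) * P * Real.exp (-CL) * Real.exp CL ≤ K * Real.exp CL :=
      mul_le_mul_of_nonneg_right h7 (Real.exp_pos _).le
    have h10 : Real.exp (-CL) * Real.exp CL = 1 := by
      rw [← Real.exp_add, neg_add_cancel, Real.exp_zero]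
    have h11 : (1 - 1 / 2) * (CC ℓ - 1 / 2) * P * Real.exp (-CL) * Real.exp CL =
        (1 - 1 / 2) * (CC ℓ - 1 / 2) * P := by
      rw [mul_assoc, h10, mul_one]
    rw [h11] at h9
    linarith
  have h9 : CC ℓ - 1 / 2 ≤ 2 * K * Real.exp CL / P := by
    rw [le_div_iff₀ hPpos]
    exact h8
  linarith

theorem ul_log_bound {ℓ : ℝ} (hℓ : 1 ≤ ℓ) :
    ℓ ^ (-(1 / 2 : ℝ)) * (1 + Real.log (ℓ + 1)) ≤ 9 * ℓ ^ (-(1 / 4 : ℝ)) := by
  have h0 : 0 < ℓ := by linarith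
  have h1 : Real.log (ℓ + 1) ≤ (ℓ + 1) ^ (1 / 4 : ℝ) / (1 / 4) :=
    Real.log_le_rpow_div (by linarith) (by norm_num)
  have h2 : (ℓ + 1) ^ (1 / 4 : ℝ) ≤ 2 * ℓ ^ (1 / 4 : ℝ) := by
    have h3 : (ℓ + 1) ^ (1 / 4 : ℝ) ≤ (2 * ℓ) ^ (1 / 4 : ℝ) :=
      Real.rpow_le_rpow (by linarith) (by linarith) (by norm_num)
    rw [Real.mul_rpow (by norm_num) h0.le] at h3
    have h4 : (2 : ℝ) ^ (1 / 4 : ℝ) ≤ 2 := by
      calc (2 : ℝ) ^ (1 / 4 : ℝ) ≤ 2 ^ (1 : ℝ) :=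
            Real.rpow_le_rpow_of_exponent_le (by norm_num) (by norm_num)
        _ = 2 := Real.rpow_one 2
    have h5 : 0 ≤ ℓ ^ (1 / 4 : ℝ) := Real.rpow_nonneg h0.le _
    nlinarith
  have h3 : (1 : ℝ) ≤ ℓ ^ (1 / 4 : ℝ) := Real.one_le_rpow hℓ (by norm_num)
  have h4 : 1 + Real.log (ℓ + 1) ≤ 9 * ℓ ^ (1 / 4 : ℝ) := by linarith
  calc ℓ ^ (-(1 / 2 : ℝ)) * (1 + Real.log (ℓ + 1)) ≤ ℓ ^ (-(1 / 2 : ℝ)) * (9 * ℓ ^ (1 / 4 : ℝ)) :=
        mul_le_mul_of_nonneg_left h4 (Real.rpow_nonneg h0.le _)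
    _ = 9 * (ℓ ^ (-(1 / 2 : ℝ)) * ℓ ^ (1 / 4 : ℝ)) := by ring
    _ = 9 * ℓ ^ (-(1 / 4 : ℝ)) := by
        rw [← Real.rpow_add h0]
        norm_num

theorem ul_diff {b : ℝ → ℝ} {α β lam ρ C : ℝ} {φ : ℝ → ℝ} (hα : 2 / 3 < α) (hα2 : α < 2) (hβ : 0 < β)
    (h : A12 b α β) (G : GS α lam ρ C φ) (a : ℝ) {U ε : ℝ} (hU : 0 < U) (hε : 0 < ε) :
    ∃ r0 ≥ (1 : ℝ), ∀ r, r0 ≤ r → ∀ x, Good α β lam a U r x → ∀ᶠ p : ℝ × ℝ in atTop ×ˢ atTop,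
      |vf b (HP (mm α β lam p.1 + a)) (p.1 - r) x - vf b (HP (mm α β lam p.2 + a)) (p.2 - r) x| ≤
        ε * (Xi α β lam a r x * Real.exp (-√2 * Xi α β lam a r x)) := by
  obtain ⟨CU, hCU, hu⟩ := u_upper hα hα2 hβ h G a
  obtain ⟨CL, hCL, hl⟩ := l_lower hα hα2 hβ h G a hU
  obtain ⟨C2, hC2, hcc⟩ := cc_bdd hα hα2 hβ h G
  have hI := Lyy_pos G
  have hC1 := G.C_ge
  obtain ⟨M, hM⟩ : ∃ M, M = (∫ y, φ y) * C := ⟨_, rfl⟩
  have hM0 : 0 < M := by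
    rw [hM]
    have : 0 < C := by linarith
    positivity
  have hg0 : 0 < gam α := by
    unfold gam
    have : 0 < α := by linarith
    positivity
  have t1 : Tendsto (fun ℓ : ℝ => CU * (9 * ℓ ^ (-(1 / 4 : ℝ)))) atTop (𝓝 0) := by
    have := ((tendsto_rpow_neg_atTop (show (0 : ℝ) < 1 / 4 by norm_num)).const_mul 9).const_mul CU
    simpa using this
  have t2 : Tendsto (fun ℓ : ℝ => M * C2 * (CL * ℓ ^ (-gam α / 4))) atTop (𝓝 0) := by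
    have h1 : (0 : ℝ) < gam α / 4 := by linarith
    have := ((tendsto_rpow_neg_atTop h1).const_mul CL).const_mul (M * C2)
    simpa [neg_div] using this
  obtain ⟨ℓ, ⟨hℓ1, hℓ2⟩, hℓ⟩ := (((t1.eventually (ge_mem_nhds (show (0 : ℝ) < ε / 4 by linarith))).and
    (t2.eventually (ge_mem_nhds (show (0 : ℝ) < ε / 4 by linarith)))).and (eventually_ge_atTop 1)).exists
  have hℓ3 : CU * (ℓ ^ (-(1 / 2 : ℝ)) * (1 + Real.log (ℓ + 1))) ≤ ε / 4 :=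
    (mul_le_mul_of_nonneg_left (ul_log_bound hℓ) hCU.le).trans hℓ1
  obtain ⟨q, hq⟩ : ∃ q, q = CL * ℓ ^ (-gam α / 4) := ⟨_, rfl⟩
  have hq0 : 0 ≤ q := by
    rw [hq]
    have : 0 ≤ ℓ := by linarith
    positivity
  rw [← hq] at hℓ2
  obtain ⟨ε', hε'⟩ : ∃ e, e = min (1 / 2) (ε / (2 * (M + M * C2 + 1))) := ⟨_, rfl⟩
  have hS : 0 < M + M * C2 + 1 := by positivity
  have hε'0 : 0 < ε' := by
    rw [hε']
    exact lt_min (by norm_num) (by positivity)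
  have hε'1 : ε' < 1 := by
    rw [hε']
    exact (min_le_left _ _).trans_lt (by norm_num)
  have hε'2 : (M + M * C2 + 1) * ε' ≤ ε / 2 := by
    have h1 : ε' ≤ ε / (2 * (M + M * C2 + 1)) := by
      rw [hε']
      exact min_le_right _ _
    calc (M + M * C2 + 1) * ε' ≤ (M + M * C2 + 1) * (ε / (2 * (M + M * C2 + 1))) :=
          mul_le_mul_of_nonneg_left h1 hS.le
      _ = ε / 2 := by field_simp
  obtain ⟨r1, hr1, hu1⟩ := hu U hU ℓ hℓ ε' hε'0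
  obtain ⟨r2, hr2, hl1⟩ := hl ℓ hℓ ε' hε'0 hε'1
  refine ⟨max r1 r2, le_max_of_le_left hr1, fun r hr x hx => ?_⟩
  have hrr1 : r1 ≤ r := (le_max_left _ _).trans hr
  have hrr2 : r2 ≤ r := (le_max_right _ _).trans hr
  have hXi := good_Xi_pos (hr1.trans hrr1) hx
  have hu2 := hu1 r hrr1 x hx
  have hl2 := hl1 r hrr2 x hx
  obtain ⟨P, hP⟩ : ∃ P, P = (∫ y, φ y) * φ (x.im / ell α β r) := ⟨_, rfl⟩
  obtain ⟨E, hE⟩ : ∃ E, E = Xi α β lam a r x * Real.exp (-√2 * Xi α β lam a r x) := ⟨_, rfl⟩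
  have hE0 : 0 < E := by
    rw [hE]
    positivity
  have hP0 : 0 ≤ P := by
    rw [hP]
    exact mul_nonneg hI.le (G.pos _).le
  have hPM : P ≤ M := by
    rw [hP, hM]
    refine mul_le_mul_of_nonneg_left ((G.bd _).trans ?_) hI.le
    refine div_le_self (by linarith) ?_
    nlinarith [sq_nonneg (x.im / ell α β r)]
  rw [← hP, ← hE] at hu2 hl2
  have hneg : -CL * ℓ ^ (-gam α / 4) = -q := by
    rw [hq]
    ring
  rw [hneg] at hl2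
  obtain ⟨L2, hL2⟩ : ∃ L, L = CC ℓ * P + CU * (ℓ ^ (-(1 / 2 : ℝ)) * (1 + Real.log (ℓ + 1))) + ε' := ⟨_, rfl⟩
  obtain ⟨L1, hL1⟩ : ∃ L, L = (1 - ε') * (CC ℓ - ε') * P * Real.exp (-q) := ⟨_, rfl⟩
  rw [← hL2] at hu2
  rw [← hL1] at hl2
  have hcℓ := hcc ℓ hℓ
  have hexp1 : Real.exp (-q) ≤ 1 := Real.exp_le_one_iff.2 (by linarith)
  have hexp2 : 1 - q ≤ Real.exp (-q) := by
    have := Real.add_one_le_exp (-q)
    linarith
  have hexp0 := Real.exp_pos (-q)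
  have hw0 : 0 ≤ 1 - (1 - ε') * Real.exp (-q) := by nlinarith
  have hw1 : 1 - (1 - ε') * Real.exp (-q) ≤ ε' + q := by nlinarith [mul_nonneg hε'0.le hq0]
  have hkey : (CC ℓ - ε') * (1 - (1 - ε') * Real.exp (-q)) ≤ C2 * (ε' + q) := by
    rcases le_or_gt (CC ℓ - ε') 0 with hc | hc
    · have h1 : (CC ℓ - ε') * (1 - (1 - ε') * Real.exp (-q)) ≤ 0 := mul_nonpos_of_nonpos_of_nonneg hc hw0
      have h2 : 0 ≤ C2 * (ε' + q) := by positivity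
      linarith
    · exact mul_le_mul (by linarith) hw1 hw0 hC2.le
  have hL : L2 - L1 ≤ ε := by
    have h1 : L2 - L1 = P * (ε' + (CC ℓ - ε') * (1 - (1 - ε') * Real.exp (-q))) +
        CU * (ℓ ^ (-(1 / 2 : ℝ)) * (1 + Real.log (ℓ + 1))) + ε' := by
      rw [hL2, hL1]
      ring
    have h2 : P * (ε' + (CC ℓ - ε') * (1 - (1 - ε') * Real.exp (-q))) ≤ M * (ε' + C2 * (ε' + q)) := by
      have h3 : 0 ≤ ε' + C2 * (ε' + q) := by positivity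
      calc P * (ε' + (CC ℓ - ε') * (1 - (1 - ε') * Real.exp (-q))) ≤ P * (ε' + C2 * (ε' + q)) :=
            mul_le_mul_of_nonneg_left (by linarith) hP0
        _ ≤ M * (ε' + C2 * (ε' + q)) := mul_le_mul_of_nonneg_right hPM h3
    nlinarith
  have hdiff : ∀ v v' : ℝ, E * L1 ≤ v → v ≤ E * L2 → E * L1 ≤ v' → v' ≤ E * L2 → |v - v'| ≤ ε * E := by
    intro v v' h1 h2 h3 h4
    have h5 : E * (L2 - L1) ≤ E * ε := mul_le_mul_of_nonneg_left hL hE0.le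
    rw [abs_le]
    constructor <;> nlinarith
  have hev := (hl2.and hu2).prod_mk (hl2.and hu2)
  rw [← hE]
  filter_upwards [hev] with p hp
  exact hdiff _ _ hp.1.1 hp.1.2 hp.2.1 hp.2.2

theorem ul_pos {b : ℝ → ℝ} {α β lam ρ C : ℝ} {φ : ℝ → ℝ} (hα : 2 / 3 < α) (hα2 : α < 2) (hβ : 0 < β)
    (h : A12 b α β) (G : GS α lam ρ C φ) (a : ℝ) {U : ℝ} (hU : 0 < U) :
    ∃ r0 ≥ (1 : ℝ), ∀ r, r0 ≤ r → ∀ x, Good α β lam a U r x → ∃ c > 0, ∀ᶠ t in atTop,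
      c ≤ vf b (HP (mm α β lam t + a)) (t - r) x := by
  obtain ⟨CL, hCL, hl⟩ := l_lower hα hα2 hβ h G a hU
  have hc1 := cc_pos (ℓ := 1) one_pos
  have hI := Lyy_pos G
  obtain ⟨ε, hε⟩ : ∃ e, e = min (1 / 2) (CC 1 / 2) := ⟨_, rfl⟩
  have hε0 : 0 < ε := by
    rw [hε]
    exact lt_min (by norm_num) (by linarith)
  have hε1 : ε ≤ 1 / 2 := by
    rw [hε]
    exact min_le_left _ _
  have hε2 : ε ≤ CC 1 / 2 := by
    rw [hε]
    exact min_le_right _ _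
  obtain ⟨r2, hr2, hl1⟩ := hl 1 le_rfl ε hε0 (by linarith)
  refine ⟨r2, hr2, fun r hr x hx => ⟨_, ?_, hl1 r hr x hx⟩⟩
  have hXi := good_Xi_pos (hr2.trans hr) hx
  have h1 : 0 < 1 - ε := by linarith
  have h2 : 0 < CC 1 - ε := by linarith
  have h3 := G.pos (x.im / ell α β r)
  positivity

end Pool.H50.BB
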