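import Pool.Agent.H50.BB.Win
import Pool.Agent.H50.BB.Dom

/-!
# Row Wcp: the potentials in the window coordinates   (about 140 lines)

`s = x_k + σ ≥ 1`, `ℓ = ell x_k + sl_k σ` (`0 < ℓ ≤ ell s`, `ℓ ≥ (1 - C x_k^{-2g}) ell s`), `β' = β 2^{-α/2}`, `κ = β'^{-1/(2+α)}`.
Identity: `β (a/(√2 s))^α = β' (a/s)^α` (`√2^α = 2^{α/2}`), and `(ell s)^{2+α} = κ^{2+α} s^{γ(2+α)} = s^α/β'` (`γ(2+α) = α`), so
`ℓ² β' (ℓ a/s)^α = (ℓ/ell s)^{2+α} a^α` for `a ≥ 0`.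
`wcp_lo`: `ℓ² c0 s (ℓ v) = (ℓ/ell s)^{2+α} |v|^α ≤ |v|^α`.
`wcp_up`: `min (ℓ|v|) s^{γ+η} = ℓ min |v| (s^{γ+η}/ℓ)` and `s^{γ+η}/ℓ ≥ s^{γ+η}/ell s = s^η/κ ≥ x_k^η/κ`; so
`ℓ² cfl s (ℓ v) ≥ (1 - Cf s^{-ζ}) (1 - C x_k^{-2g})^{2+α} (min |v| (x_k^η/κ))^α ≥ (1 - C' (x_k^{-ζ} + x_k^{-2g})) (..)^α` (Bernoulli: `(1-z)^{2+α} ≥ 1 - (2+α) z` for `0 ≤ z ≤ 1`,
`s^{-ζ} ≤ x_k^{-ζ}`; `(1-a)(1-b) ≥ 1 - a - b`), `C' = Cf + (2+α) C`.
-/

open MeasureTheory Set Filter Topology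

namespace Pool.H50.BB

theorem Wcp_g {α : ℝ} (hα : 0 < α) : gam α * (2 + α) = α := by
  unfold gam
  have : (2 : ℝ) + α ≠ 0 := by positivity
  field_simp

theorem Wcp_kb {α β : ℝ} (hα : 0 < α) (hβ : 0 < β) : kb α β ^ (2 + α) = 2 ^ (α / 2) / β := by
  unfold kb
  have h2 : (2 : ℝ) + α ≠ 0 := by positivity
  have h3 : (0 : ℝ) < 2 ^ (-α / 2) := Real.rpow_pos_of_pos two_pos _
  have h4 : 0 < β * 2 ^ (-α / 2) := mul_pos hβ h3
  rw [← Real.rpow_mul h4.le, div_mul_cancel₀ _ h2, Real.rpow_neg_one]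
  have h5 : (2 : ℝ) ^ (-α / 2) = (2 ^ (α / 2))⁻¹ := by
    rw [← Real.rpow_neg two_pos.le]
    congr 1
    ring
  rw [h5, mul_inv, inv_inv, mul_comm]
  exact (div_eq_mul_inv _ _).symm

theorem Wcp_ellpow {α β s : ℝ} (hα : 0 < α) (hβ : 0 < β) (hs : 0 < s) :
    ell α β s ^ (2 + α) = 2 ^ (α / 2) / β * s ^ α := by
  unfold ell
  rw [Real.mul_rpow (kb_pos hβ).le (Real.rpow_nonneg hs.le _), Wcp_kb hα hβ, ← Real.rpow_mul hs.le, Wcp_g hα]

theorem Wcp_ellpos {α β s : ℝ} (hβ : 0 < β) (hs : 0 < s) : 0 < ell α β s :=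
  mul_pos (kb_pos hβ) (Real.rpow_pos_of_pos hs _)

theorem Wcp_id {α β s l a : ℝ} (hα : 0 < α) (hβ : 0 < β) (hs : 0 < s) (hl : 0 < l) (ha : 0 ≤ a) :
    l ^ 2 * (β * (l * a / (√2 * s)) ^ α) = (l / ell α β s) ^ (2 + α) * a ^ α := by
  have h2 : (0 : ℝ) < √2 := Real.sqrt_pos.2 two_pos
  have h3 : (√2 : ℝ) ^ α = 2 ^ (α / 2) := by
    rw [Real.sqrt_eq_rpow, ← Real.rpow_mul two_pos.le]
    congr 1
    ring
  rw [Real.div_rpow hl.le (Wcp_ellpos hβ hs).le, Wcp_ellpow hα hβ hs,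
    Real.div_rpow (mul_nonneg hl.le ha) (mul_pos h2 hs).le, Real.mul_rpow hl.le ha,
    Real.mul_rpow h2.le hs.le, h3, Real.rpow_add hl, Real.rpow_two]
  have h4 : (0 : ℝ) < 2 ^ (α / 2) := Real.rpow_pos_of_pos two_pos _
  have h5 : 0 < s ^ α := Real.rpow_pos_of_pos hs _
  field_simp

theorem wcp_lo {α β C : ℝ} (hα : 0 < α) (hβ : 0 < β) {r t : ℝ} {N : ℕ} (hr : 1 ≤ r) (W : WinF α β C r t N)
    {k : ℕ} (hk : k < N) {σ : ℝ} (hσ : 0 ≤ σ) (hσ' : σ ≤ xk α r t N (k + 1) - xk α r t N k) (v : ℝ) :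
    (ell α β (xk α r t N k) + sl α β r t N k * σ) ^ 2 *
      c0 α β (xk α r t N k + σ) ((ell α β (xk α r t N k) + sl α β r t N k * σ) * v) ≤ Va α v := by
  have hx : 1 ≤ xk α r t N k := hr.trans (W.xge k hk.le)
  have h1 := W.chord_le k hk σ hσ hσ'
  have h2 : 0 < ell α β (xk α r t N k) + sl α β r t N k * σ :=
    add_pos_of_pos_of_nonneg (Wcp_ellpos hβ (by linarith)) (mul_nonneg (W.sl0 k hk) hσ)
  set l := ell α β (xk α r t N k) + sl α β r t N k * σ with hl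
  set s := xk α r t N k + σ with hs
  have hs1 : 1 ≤ s := by rw [hs]; linarith
  have hs0 : 0 < s := by linarith
  unfold c0 Va
  rw [max_eq_left hs1, abs_mul, abs_of_pos h2, Wcp_id hα hβ hs0 h2 (abs_nonneg v)]
  have h3 : (l / ell α β s) ^ (2 + α) ≤ 1 :=
    Real.rpow_le_one (div_nonneg h2.le (Wcp_ellpos hβ hs0).le)
      ((div_le_one (Wcp_ellpos hβ hs0)).2 h1) (by linarith)
  exact mul_le_of_le_one_left (Real.rpow_nonneg (abs_nonneg v) _) h3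

theorem wcp_up {α β C Cf ζ η : ℝ} (hα : 0 < α) (hα2 : α < 2) (hβ : 0 < β) (hC : 1 ≤ C) (hCf : 0 ≤ Cf) (hζ : 0 < ζ) (hη : 0 < η) :
    ∃ s0 ≥ (1 : ℝ), ∃ C' > 0, ∀ r t : ℝ, ∀ N : ℕ, s0 ≤ r → WinF α β C r t N → ∀ k < N,
      C' * (xk α r t N k ^ (-ζ) + xk α r t N k ^ (-2 * gg α)) ≤ 1 / 2 ∧ 1 ≤ xk α r t N k ^ η / kb α β ∧
      ∀ σ, 0 ≤ σ → σ ≤ xk α r t N (k + 1) - xk α r t N k → ∀ v,
        Vt α (C' * (xk α r t N k ^ (-ζ) + xk α r t N k ^ (-2 * gg α))) (xk α r t N k ^ η / kb α β) v ≤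
          (ell α β (xk α r t N k) + sl α β r t N k * σ) ^ 2 *
            cfl α β Cf ζ η (xk α r t N k + σ) ((ell α β (xk α r t N k) + sl α β r t N k * σ) * v) := by
  have hg : 0 < gg α := by
    unfold gg
    exact div_pos (by linarith) (by linarith)
  have hkb := kb_pos (α := α) hβ
  set C' := Cf + (2 + α) * C with hC'
  have hC'0 : 0 < C' := by
    rw [hC']
    have : 0 < (2 + α) * C := mul_pos (by linarith) (by linarith)
    linarith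
  have hl1 : Tendsto (fun x : ℝ => C' * (x ^ (-ζ) + x ^ (-2 * gg α))) atTop (𝓝 0) := by
    have a1 := tendsto_rpow_neg_atTop hζ
    have a2 := tendsto_rpow_neg_atTop (show 0 < 2 * gg α by linarith)
    have a3 := (a1.add a2).const_mul C'
    rw [add_zero, mul_zero] at a3
    refine a3.congr fun x => ?_
    rw [neg_mul]
  have hl2 : ∀ᶠ x : ℝ in atTop, C' * (x ^ (-ζ) + x ^ (-2 * gg α)) ≤ 1 / 2 :=
    (hl1.eventually (gt_mem_nhds (show (0 : ℝ) < 1 / 2 by norm_num))).mono fun x hx => hx.le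
  have hl3 : ∀ᶠ x : ℝ in atTop, kb α β ≤ x ^ η := (tendsto_rpow_atTop hη).eventually_ge_atTop _
  obtain ⟨s1, hs1⟩ := eventually_atTop.1 (hl2.and hl3)
  refine ⟨max 1 s1, le_max_left _ _, C', hC'0, fun r t N hr W k hk => ?_⟩
  have hxr := W.xge k hk.le
  have hx1 : 1 ≤ xk α r t N k := ((le_max_left _ _).trans hr).trans hxr
  obtain ⟨hb1, hb2⟩ := hs1 (xk α r t N k) (((le_max_right _ _).trans hr).trans hxr)
  have hch := W.chord_ge k hk
  have hcl := W.chord_le k hk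
  have hsl := W.sl0 k hk
  set x := xk α r t N k with hx
  set ω := C' * (x ^ (-ζ) + x ^ (-2 * gg α)) with hω
  have hx0 : 0 < x := by linarith
  refine ⟨hb1, (one_le_div hkb).2 hb2, fun σ hσ hσ' v => ?_⟩
  have h1 := hcl σ hσ hσ'
  have h1' := hch σ hσ hσ'
  have h2 : 0 < ell α β x + sl α β r t N k * σ :=
    add_pos_of_pos_of_nonneg (Wcp_ellpos hβ hx0) (mul_nonneg hsl hσ)
  set l := ell α β x + sl α β r t N k * σ with hl
  set s := x + σ with hs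
  have hxs : x ≤ s := by rw [hs]; linarith
  have hs1 : 1 ≤ s := by linarith
  have hs0 : 0 < s := by linarith
  have hes := Wcp_ellpos (α := α) hβ hs0
  have hz0 : 0 ≤ x ^ (-2 * gg α) := Real.rpow_nonneg hx0.le _
  have hy0 : 0 ≤ x ^ (-ζ) := Real.rpow_nonneg hx0.le _
  have hsζ : s ^ (-ζ) ≤ x ^ (-ζ) := Real.rpow_le_rpow_of_nonpos hx0 hxs (by linarith)
  have hsζ0 : 0 ≤ s ^ (-ζ) := Real.rpow_nonneg hs0.le _
  have hmin : min (|l * v|) (s ^ (gam α + η)) = l * min |v| (s ^ (gam α + η) / l) := by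
    rw [mul_min_of_nonneg _ _ h2.le, mul_div_cancel₀ _ h2.ne', abs_mul, abs_of_pos h2]
  have ha0 : 0 ≤ min |v| (x ^ η / kb α β) :=
    le_min (abs_nonneg _) (div_nonneg (Real.rpow_nonneg hx0.le _) hkb.le)
  have haa : min |v| (x ^ η / kb α β) ≤ min |v| (s ^ (gam α + η) / l) := by
    refine min_le_min_left _ ?_
    have b1 : x ^ η ≤ s ^ η := Real.rpow_le_rpow hx0.le hxs hη.le
    have b2 : s ^ η / kb α β = s ^ (gam α + η) / ell α β s := by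
      unfold ell
      rw [Real.rpow_add hs0]
      have b3 : s ^ gam α ≠ 0 := (Real.rpow_pos_of_pos hs0 _).ne'
      field_simp
    calc x ^ η / kb α β ≤ s ^ η / kb α β := div_le_div_of_nonneg_right b1 hkb.le
      _ = s ^ (gam α + η) / ell α β s := b2
      _ ≤ s ^ (gam α + η) / l := div_le_div_of_nonneg_left (Real.rpow_nonneg hs0.le _) h2 h1
  set P := max 0 (1 - Cf * s ^ (-ζ)) with hP
  have hP0 : 0 ≤ P := le_max_left _ _
  have hP1 : P ≤ 1 := max_le zero_le_one (by nlinarith [mul_nonneg hCf hsζ0])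
  have hP2 : 1 - Cf * x ^ (-ζ) ≤ P := by
    refine le_trans ?_ (le_max_right _ _)
    have := mul_le_mul_of_nonneg_left hsζ hCf
    linarith
  set q := l / ell α β s with hq
  have hq0 : 0 ≤ q := div_nonneg h2.le hes.le
  have hq1 : q ≤ 1 := (div_le_one hes).2 h1
  have hzle : C * x ^ (-2 * gg α) ≤ 1 / 2 := by
    refine le_trans ?_ hb1
    rw [hω, hC']
    have c1 : C * x ^ (-2 * gg α) ≤ (2 + α) * C * x ^ (-2 * gg α) := by
      refine mul_le_mul_of_nonneg_right ?_ hz0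
      nlinarith
    have c2 : 0 ≤ Cf * (x ^ (-ζ) + x ^ (-2 * gg α)) := by positivity
    have c3 : 0 ≤ (2 + α) * C * x ^ (-ζ) := by positivity
    nlinarith
  have hz1 : 0 ≤ C * x ^ (-2 * gg α) := by positivity
  have hql : 1 - C * x ^ (-2 * gg α) ≤ q := by
    rw [hq, le_div_iff₀ hes]
    exact h1'
  have hQ1 : q ^ (2 + α) ≤ 1 := Real.rpow_le_one hq0 hq1 (by linarith)
  have hQ0 : 0 ≤ q ^ (2 + α) := Real.rpow_nonneg hq0 _
  have hQ2 : 1 - (2 + α) * (C * x ^ (-2 * gg α)) ≤ q ^ (2 + α) := by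
    have d1 := one_add_mul_self_le_rpow_one_add (s := -(C * x ^ (-2 * gg α))) (p := 2 + α)
      (by linarith) (by linarith)
    have d2 : (1 + -(C * x ^ (-2 * gg α))) ^ (2 + α) ≤ q ^ (2 + α) :=
      Real.rpow_le_rpow (by linarith) (by linarith) (by linarith)
    linarith
  have hPQ : 1 - ω ≤ P * q ^ (2 + α) := by
    have e1 : 0 ≤ (1 - P) * (1 - q ^ (2 + α)) := mul_nonneg (by linarith) (by linarith)
    have e2 : Cf * x ^ (-ζ) + (2 + α) * (C * x ^ (-2 * gg α)) ≤ ω := by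
      rw [hω, hC']
      have c2 : 0 ≤ Cf * x ^ (-2 * gg α) := by positivity
      have c3 : 0 ≤ (2 + α) * C * x ^ (-ζ) := by positivity
      nlinarith
    nlinarith
  have hfin : l ^ 2 * cfl α β Cf ζ η s (l * v) =
      P * q ^ (2 + α) * (min |v| (s ^ (gam α + η) / l)) ^ α := by
    unfold cfl
    rw [max_eq_left hs1, ← hP, hmin]
    have f1 := Wcp_id hα hβ hs0 h2 (le_trans ha0 haa)
    calc l ^ 2 * (P * (β * (l * min |v| (s ^ (gam α + η) / l) / (√2 * s)) ^ α))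
        = P * (l ^ 2 * (β * (l * min |v| (s ^ (gam α + η) / l) / (√2 * s)) ^ α)) := by ring
      _ = P * (q ^ (2 + α) * (min |v| (s ^ (gam α + η) / l)) ^ α) := by rw [f1]
      _ = _ := by ring
  rw [hfin]
  unfold Vt
  have hA0 : 0 ≤ (min |v| (x ^ η / kb α β)) ^ α := Real.rpow_nonneg ha0 _
  calc (1 - ω) * (min |v| (x ^ η / kb α β)) ^ α
      ≤ P * q ^ (2 + α) * (min |v| (x ^ η / kb α β)) ^ α := mul_le_mul_of_nonneg_right hPQ hA0
    _ ≤ P * q ^ (2 + α) * (min |v| (s ^ (gam α + η) / l)) ^ α :=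
        mul_le_mul_of_nonneg_left (Real.rpow_le_rpow ha0 haa hα.le) (mul_nonneg hP0 hQ0)

end Pool.H50.BB
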