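import Pool.Agent.H50.BB.Wcp
import Pool.Agent.H50.BB.Gmk
import Pool.Agent.H50.BB.Dts
import Pool.Agent.H50.BB.Bsc2

/-!
# Row Wup: composition of the windows   (about 220 lines)

`Th_TV`: for `f ≥ 0` measurable in `L²`: `Th V h (ofReal ∘ f) u = ofReal (TV V h f u)` (`ofReal_integral_eq_lintegral_ofReal`, `tv_int`).  `Th_mono`.

`wup`: notation `x_k, ℓ_k = ell x_k, θ_k = sl k, h_k = hw k, Δ_k = x_{k+1} - x_k`, `V_k = Vt α ω_k R_k`.  Claim for `k ≤ N - 1` (backward induction):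
`Gm c x_k t F y ≤ ofReal (√(ℓ_N/ℓ_k) exp (θ_k y²/(2ℓ_k)) f_k (y/ℓ_k))`.
`scale_le` on `[x_k, x_{k+1}]` (`ℓ1 = ℓ_k`, `θ = θ_k`, `ℓ1 + θΔ = ℓ_{k+1}`, `Δ/(ℓ_kℓ_{k+1}) = h_k`; hypothesis from `wcp_up`, here the assumption `hV`):
`Gm c x_k x_{k+1} F' y ≤ √(ℓ_{k+1}/ℓ_k) exp (θ_k y²/(2ℓ_k)) Th V_k h_k (v ↦ F'(ℓ_{k+1} v) exp (-θ_k ℓ_{k+1} v²/2)) (y/ℓ_k)`.
`k = N-1`: `F' = F`: the function is `f_N`.  `k < N-1`: `F' = Gm c x_{k+1} t F` (`Gm_markov`), by induction
`F'(ℓ_{k+1} v) exp (-θ_k ℓ_{k+1} v²/2) ≤ √(ℓ_N/ℓ_{k+1}) exp ((θ_{k+1} - θ_k) ℓ_{k+1} v²/2) f_{k+1}(v) ≤ √(ℓ_N/ℓ_{k+1}) f_{k+1} v` (`slm`).  `√(ℓ_{k+1}/ℓ_k) √(ℓ_N/ℓ_{k+1}) = √(ℓ_N/ℓ_k)`.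
All `f_k ≥ 0`, measurable, in `L²` (`tv_meas`, `tv_L2`).

`wlo`: the same with `scale_ge`, `c0`, `V = Va α` (`wcp_lo`), `F = 1`; the factor `exp ((θ_{k+1}-θ_k) ℓ_{k+1} v²/2) = exp (-ρ_{k+1} v²)`, `ρ_{k+1} = ℓ_{k+1}(θ_k - θ_{k+1})/2`, is kept:
`f_k = exp(-ρ_k v²) TV (Va α) h_k f_{k+1}` for `k ≥ 1`, `f_0 = TV (Va α) h_0 f_1`; claim (`1 ≤ k ≤ N-1`): `Gm c0 x_k t 1 y ≥ √(ℓ_N/ℓ_k) exp(θ_k y²/(2ℓ_k)) TV (Va α) h_k f_{k+1} (y/ℓ_k)`,
at the end drop `exp (θ_0 y²/(2ℓ_0)) ≥ 1`.
-/

open MeasureTheory ProbabilityTheory Set Filter Topology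
open scoped NNReal ENNReal

namespace Pool.H50.BB

open Pool.Agent.H4.BM

theorem Th_TV {V : ℝ → ℝ} (hV : Pot V) {h : ℝ} (hh : 0 < h) {f : ℝ → ℝ} (hf : Measurable f)
    (hf2 : MemLp f 2 volume) (hf0 : ∀ x, 0 ≤ f x) (u : ℝ) :
    Th V h (fun x => ENNReal.ofReal (f x)) u = ENNReal.ofReal (TV V h f u) := by
  unfold Th TV
  rw [ofReal_integral_eq_lintegral_ofReal (tv_int hV hh hf hf2 u)
    (Eventually.of_forall fun w => mul_nonneg (Real.exp_pos _).le (hf0 _))]
  refine lintegral_congr fun w => ?_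
  rw [ENNReal.ofReal_mul (Real.exp_pos _).le]

theorem Wup_mono {V : ℝ → ℝ} {h : ℝ} {f g : ℝ → ℝ≥0∞} (hfg : ∀ v, f v ≤ g v) (u : ℝ) :
    Th V h f u ≤ Th V h g u := by
  unfold Th
  exact lintegral_mono fun w => mul_le_mul_right (hfg _) _

theorem Wup_mul {V : ℝ → ℝ} (hV : Pot V) {h : ℝ} (hh : 0 < h) {f : ℝ → ℝ} (hf : Measurable f)
    (hf2 : MemLp f 2 volume) (hf0 : ∀ x, 0 ≤ f x) {a : ℝ} (ha : 0 ≤ a) (u : ℝ) :
    Th V h (fun x => ENNReal.ofReal (a * f x)) u = ENNReal.ofReal (a * TV V h f u) := by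
  rw [Th_TV hV hh (hf.const_mul a) (hf2.const_mul a) (fun x => mul_nonneg ha (hf0 x))]
  congr 1
  unfold TV
  rw [← integral_const_mul]
  refine integral_congr_ae (Eventually.of_forall fun w => ?_)
  simp only
  ring

theorem Wup_nn {V : ℝ → ℝ} {h : ℝ} {f : ℝ → ℝ} (hf0 : ∀ x, 0 ≤ f x) (u : ℝ) : 0 ≤ TV V h f u := by
  unfold TV
  exact integral_nonneg fun w => mul_nonneg (Real.exp_pos _).le (hf0 _)

theorem Wup_ell {α β C : ℝ} (hβ : 0 < β) {r t : ℝ} {N : ℕ} (hr : 1 ≤ r)
    (W : WinF α β C r t N) {k : ℕ} (hk : k ≤ N) : 0 < ell α β (xk α r t N k) := by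
  unfold ell
  have h1 := W.xge k hk
  have h2 : 0 < xk α r t N k := by linarith
  exact mul_pos (kb_pos hβ) (Real.rpow_pos_of_pos h2 _)

theorem Wup_next {α β C : ℝ} {r t : ℝ} {N : ℕ}
    (W : WinF α β C r t N) {k : ℕ} (hk : k < N) :
    ell α β (xk α r t N k) + sl α β r t N k * (xk α r t N (k + 1) - xk α r t N k) =
      ell α β (xk α r t N (k + 1)) := by
  unfold sl
  have := W.xlt k hk
  have h1 : xk α r t N (k + 1) - xk α r t N k ≠ 0 := by
    intro h
    linarith
  rw [div_mul_cancel₀ _ h1]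
  ring

theorem Wup_hw {α β C : ℝ} (hβ : 0 < β) {r t : ℝ} {N : ℕ} (hr : 1 ≤ r)
    (W : WinF α β C r t N) {k : ℕ} (hk : k < N) : 0 < hw α β r t N k := by
  unfold hw
  have h1 := Wup_ell hβ hr W hk.le
  have h2 := Wup_ell hβ hr W (Nat.succ_le_of_lt hk)
  have h3 := W.xlt k hk
  exact div_pos (by linarith) (mul_pos h1 h2)

theorem Wup_step {α β C : ℝ} (hβ : 0 < β) {r t : ℝ} {N : ℕ} (hr : 1 ≤ r)
    (W : WinF α β C r t N) {c : ℝ → ℝ → ℝ} (hc : Continuous (Function.uncurry c)) {k : ℕ} (hk : k < N)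
    {V : ℝ → ℝ} (hP : Pot V)
    (hV : ∀ σ, 0 ≤ σ → σ ≤ xk α r t N (k + 1) - xk α r t N k → ∀ v,
        V v ≤ (ell α β (xk α r t N k) + sl α β r t N k * σ) ^ 2 *
            c (xk α r t N k + σ) ((ell α β (xk α r t N k) + sl α β r t N k * σ) * v))
    {F : ℝ → ℝ≥0∞} (hF : Measurable F) {g : ℝ → ℝ} (hg : Measurable g) (hg2 : MemLp g 2 volume)
    (hg0 : ∀ x, 0 ≤ g x) {a : ℝ} (ha : 0 ≤ a)
    (hH : ∀ v, F (ell α β (xk α r t N (k + 1)) * v) *
      ENNReal.ofReal (Real.exp (-sl α β r t N k * ell α β (xk α r t N (k + 1)) * v ^ 2 / 2)) ≤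
        ENNReal.ofReal (a * g v)) (y : ℝ) :
    Gm c (xk α r t N k) (xk α r t N (k + 1)) F y ≤
      ENNReal.ofReal (√(ell α β (xk α r t N (k + 1)) / ell α β (xk α r t N k)) *
        Real.exp (sl α β r t N k * y ^ 2 / (2 * ell α β (xk α r t N k))) *
        (a * TV V (hw α β r t N k) g (y / ell α β (xk α r t N k)))) := by
  have h1 := Wup_ell hβ hr W hk.le
  have h2 := Wup_ell hβ hr W (Nat.succ_le_of_lt hk)
  have h3 := W.xlt k hk
  have h4 := Wup_next W hk
  have h5 := scale_le (r := xk α r t N k) h1 (by rw [h4]; exact h2) (by linarith : 0 < xk α r t N (k + 1) - xk α r t N k)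
    hc hP.cont hV hF y
  rw [h4, add_sub_cancel] at h5
  refine h5.trans ?_
  have h6 : (xk α r t N (k + 1) - xk α r t N k) / (ell α β (xk α r t N k) * ell α β (xk α r t N (k + 1))) =
      hw α β r t N k := rfl
  have h7 : 0 ≤ √(ell α β (xk α r t N (k + 1)) / ell α β (xk α r t N k)) *
      Real.exp (sl α β r t N k * y ^ 2 / (2 * ell α β (xk α r t N k))) := by positivity
  rw [h6, ENNReal.ofReal_mul h7 (q := a * TV V (hw α β r t N k) g (y / ell α β (xk α r t N k))),
    ← Wup_mul hP (Wup_hw hβ hr W hk) hg hg2 hg0 ha]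
  exact mul_le_mul_right (Wup_mono hH _) _

theorem Wup_step' {α β C : ℝ} (hβ : 0 < β) {r t : ℝ} {N : ℕ} (hr : 1 ≤ r)
    (W : WinF α β C r t N) {c : ℝ → ℝ → ℝ} (hc : Continuous (Function.uncurry c)) {k : ℕ} (hk : k < N)
    {V : ℝ → ℝ} (hP : Pot V)
    (hV : ∀ σ, 0 ≤ σ → σ ≤ xk α r t N (k + 1) - xk α r t N k → ∀ v,
        (ell α β (xk α r t N k) + sl α β r t N k * σ) ^ 2 *
            c (xk α r t N k + σ) ((ell α β (xk α r t N k) + sl α β r t N k * σ) * v) ≤ V v)
    {F : ℝ → ℝ≥0∞} (hF : Measurable F) {g : ℝ → ℝ} (hg : Measurable g) (hg2 : MemLp g 2 volume)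
    (hg0 : ∀ x, 0 ≤ g x) {a : ℝ} (ha : 0 ≤ a)
    (hH : ∀ v, ENNReal.ofReal (a * g v) ≤ F (ell α β (xk α r t N (k + 1)) * v) *
      ENNReal.ofReal (Real.exp (-sl α β r t N k * ell α β (xk α r t N (k + 1)) * v ^ 2 / 2))) (y : ℝ) :
    ENNReal.ofReal (√(ell α β (xk α r t N (k + 1)) / ell α β (xk α r t N k)) *
        Real.exp (sl α β r t N k * y ^ 2 / (2 * ell α β (xk α r t N k))) *
        (a * TV V (hw α β r t N k) g (y / ell α β (xk α r t N k)))) ≤
      Gm c (xk α r t N k) (xk α r t N (k + 1)) F y := by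
  have h1 := Wup_ell hβ hr W hk.le
  have h2 := Wup_ell hβ hr W (Nat.succ_le_of_lt hk)
  have h3 := W.xlt k hk
  have h4 := Wup_next W hk
  have h5 := scale_ge (r := xk α r t N k) h1 (by rw [h4]; exact h2) (by linarith : 0 < xk α r t N (k + 1) - xk α r t N k)
    hc hP.cont hV hF y
  rw [h4, add_sub_cancel] at h5
  refine le_trans ?_ h5
  have h6 : (xk α r t N (k + 1) - xk α r t N k) / (ell α β (xk α r t N k) * ell α β (xk α r t N (k + 1))) =
      hw α β r t N k := rfl
  have h7 : 0 ≤ √(ell α β (xk α r t N (k + 1)) / ell α β (xk α r t N k)) *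
      Real.exp (sl α β r t N k * y ^ 2 / (2 * ell α β (xk α r t N k))) := by positivity
  rw [h6, ENNReal.ofReal_mul h7 (q := a * TV V (hw α β r t N k) g (y / ell α β (xk α r t N k))),
    ← Wup_mul hP (Wup_hw hβ hr W hk) hg hg2 hg0 ha]
  exact mul_le_mul_right (Wup_mono hH _) _

theorem Wup_sqrt {a b c : ℝ} (ha : 0 < a) (hb : 0 < b) (hc : 0 < c) : √(b / a) * √(c / b) = √(c / a) := by
  rw [← Real.sqrt_mul (by positivity)]
  congr 1
  field_simp

theorem Wup_meas0 {c : ℝ → ℝ → ℝ} (hc : Continuous (Function.uncurry c)) (r t : ℝ) {f : ℝ → ℝ≥0∞} (hf : Measurable f) :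
    Measurable (fun z => Gm c r t f z) := by
  have h2 := Gm_measurable hc hf
  have h3 : Measurable (fun z : ℝ => (r, t, z)) := measurable_const.prodMk (measurable_const.prodMk measurable_id)
  have h4 := h2.comp h3
  have e : (fun z => Gm c r t f z) = (fun p : ℝ × ℝ × ℝ => Gm c p.1 p.2.1 f p.2.2) ∘ (fun z : ℝ => (r, t, z)) := by
    funext z
    rw [Function.comp_apply]
  rw [e]
  exact h4

theorem wup {α β C : ℝ} (hα : 0 < α) (hα2 : α < 2) (hβ : 0 < β) {r t : ℝ} {N : ℕ} (hr : 1 ≤ r) (hN : 1 ≤ N)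
    (W : WinF α β C r t N) {c : ℝ → ℝ → ℝ} (hc : Continuous (Function.uncurry c)) (ω R : ℕ → ℝ)
    (hω : ∀ k < N, 0 ≤ ω k ∧ ω k ≤ 1 / 2) (hR : ∀ k < N, 1 ≤ R k)
    (hV : ∀ k < N, ∀ σ, 0 ≤ σ → σ ≤ xk α r t N (k + 1) - xk α r t N k → ∀ v,
        Vt α (ω k) (R k) v ≤ (ell α β (xk α r t N k) + sl α β r t N k * σ) ^ 2 *
            c (xk α r t N k + σ) ((ell α β (xk α r t N k) + sl α β r t N k * σ) * v))
    {F : ℝ → ℝ} (hF : Measurable F) (hF0 : ∀ z, 0 ≤ F z) (f : ℕ → ℝ → ℝ)
    (hfN : f N = fun v => F (ell α β t * v) * Real.exp (-(sl α β r t N (N - 1) * ell α β t / 2) * v ^ 2))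
    (hf2 : MemLp (f N) 2 volume)
    (hf : ∀ k < N, f k = TV (Vt α (ω k) (R k)) (hw α β r t N k) (f (k + 1))) (y : ℝ) :
    Gm c r t (fun z => ENNReal.ofReal (F z)) y ≤ ENNReal.ofReal (√(ell α β t / ell α β r) *
      Real.exp (sl α β r t N 0 * y ^ 2 / (2 * ell α β r)) * f 0 (y / ell α β r)) := by
  have hP : ∀ k < N, Pot (Vt α (ω k) (R k)) := fun k hk =>
    pot_Vt hα (by linarith [(hω k hk).2]) (by linarith [hR k hk])
  have hgood : ∀ j, j ≤ N → Measurable (f (N - j)) ∧ MemLp (f (N - j)) 2 volume ∧ ∀ v, 0 ≤ f (N - j) v := by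
    intro j
    induction j with
    | zero =>
      intro _
      rw [Nat.sub_zero]
      refine ⟨?_, hf2, ?_⟩
      · rw [hfN]
        exact (hF.comp (measurable_const_mul _)).mul (by fun_prop)
      · intro v
        rw [hfN]
        exact mul_nonneg (hF0 _) (Real.exp_pos _).le
    | succ j ih =>
      intro hj
      obtain ⟨i1, i2, i3⟩ := ih (by omega)
      have hk : N - (j + 1) < N := by omega
      have e : N - (j + 1) + 1 = N - j := by omega
      rw [hf _ hk, e]
      exact ⟨tv_meas (hP _ hk) (Wup_hw hβ hr W hk) i1, (tv_L2 (hP _ hk) (Wup_hw hβ hr W hk) i1 i2).1,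
        fun v => Wup_nn i3 v⟩
  have hgood' : ∀ k ≤ N, Measurable (f k) ∧ MemLp (f k) 2 volume ∧ ∀ v, 0 ≤ f k v := by
    intro k hk
    have := hgood (N - k) (Nat.sub_le _ _)
    rwa [Nat.sub_sub_self hk] at this
  have hFm : Measurable (fun z => ENNReal.ofReal (F z)) := hF.ennreal_ofReal
  have main : ∀ j, j + 1 ≤ N → ∀ y, Gm c (xk α r t N (N - (j + 1))) t (fun z => ENNReal.ofReal (F z)) y ≤
      ENNReal.ofReal (√(ell α β t / ell α β (xk α r t N (N - (j + 1)))) *
        Real.exp (sl α β r t N (N - (j + 1)) * y ^ 2 / (2 * ell α β (xk α r t N (N - (j + 1))))) *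
        f (N - (j + 1)) (y / ell α β (xk α r t N (N - (j + 1))))) := by
    intro j
    induction j with
    | zero =>
      intro hj y
      have hk : N - (0 + 1) < N := by omega
      have e : N - (0 + 1) + 1 = N := by omega
      obtain ⟨i1, i2, i3⟩ := hgood' N le_rfl
      have h := Wup_step hβ hr W hc hk (hP _ hk) (hV _ hk) hFm (g := f N) i1 i2 i3 (a := 1) zero_le_one ?_ y
      · rw [e, W.xN, one_mul] at h
        have h7 := hf _ hk
        rw [e] at h7
        rw [h7]
        exact h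
      · intro v
        rw [e, W.xN, one_mul, hfN, ← ENNReal.ofReal_mul (hF0 _)]
        refine le_of_eq ?_
        congr 3
        rw [zero_add]
        ring
    | succ j ih =>
      intro hj y
      have ih' := ih (by omega)
      have hk : N - (j + 1 + 1) < N := by omega
      have e : N - (j + 1 + 1) + 1 = N - (j + 1) := by omega
      have hk' : N - (j + 1) < N := by omega
      obtain ⟨i1, i2, i3⟩ := hgood' (N - (j + 1)) hk'.le
      have p0 := Wup_ell hβ hr W hk.le
      have p1 := Wup_ell hβ hr W hk'.le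
      have p2 : 0 < ell α β t := by
        have := Wup_ell hβ hr W (le_refl N)
        rwa [W.xN] at this
      have hlt := W.xlt _ hk
      rw [e] at hlt
      have hle : xk α r t N (N - (j + 1)) ≤ t := by
        have hmon : ∀ i, N - (j + 1) + i ≤ N → xk α r t N (N - (j + 1)) ≤ xk α r t N (N - (j + 1) + i) := by
          intro i
          induction i with
          | zero => intro _; exact le_rfl
          | succ i ih2 =>
            intro hi
            exact (ih2 (by omega)).trans (W.xlt _ (by omega)).le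
        have := hmon (j + 1) (by omega)
        rw [Nat.sub_add_cancel (by omega : j + 1 ≤ N), W.xN] at this
        exact this
      rw [Gm_markov hc hFm hlt.le hle y]
      have hFm' : Measurable (fun z => Gm c (xk α r t N (N - (j + 1))) t (fun z => ENNReal.ofReal (F z)) z) :=
        Wup_meas0 hc _ _ hFm
      have h := Wup_step hβ hr W hc hk (hP _ hk) (hV _ hk) hFm' (g := f (N - (j + 1))) i1 i2 i3
        (a := √(ell α β t / ell α β (xk α r t N (N - (j + 1))))) (Real.sqrt_nonneg _) ?_ y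
      · rw [e] at h
        refine h.trans (le_of_eq ?_)
        congr 1
        have h7 := hf _ hk
        rw [e] at h7
        rw [h7, ← Wup_sqrt p0 p1 p2]
        ring
      · intro v
        rw [e]
        refine (mul_le_mul_left (ih' _) _).trans ?_
        rw [← ENNReal.ofReal_mul (mul_nonneg (by positivity) (i3 _))]
        refine ENNReal.ofReal_le_ofReal ?_
        have e2 : ell α β (xk α r t N (N - (j + 1))) * v / ell α β (xk α r t N (N - (j + 1))) = v := by
          field_simp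
        rw [e2]
        have hs := W.slm (N - (j + 1 + 1)) (by omega)
        rw [e] at hs
        have h8 : Real.exp (sl α β r t N (N - (j + 1)) * (ell α β (xk α r t N (N - (j + 1))) * v) ^ 2 /
            (2 * ell α β (xk α r t N (N - (j + 1))))) *
            Real.exp (-sl α β r t N (N - (j + 1 + 1)) * ell α β (xk α r t N (N - (j + 1))) * v ^ 2 / 2) ≤ 1 := by
          rw [← Real.exp_add, Real.exp_le_one_iff]
          have e3 : sl α β r t N (N - (j + 1)) * (ell α β (xk α r t N (N - (j + 1))) * v) ^ 2 /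
            (2 * ell α β (xk α r t N (N - (j + 1)))) +
            -sl α β r t N (N - (j + 1 + 1)) * ell α β (xk α r t N (N - (j + 1))) * v ^ 2 / 2 =
            -((sl α β r t N (N - (j + 1 + 1)) - sl α β r t N (N - (j + 1))) *
              (ell α β (xk α r t N (N - (j + 1))) * v ^ 2 / 2)) := by
            field_simp
            ring
          rw [e3]
          have : 0 ≤ (sl α β r t N (N - (j + 1 + 1)) - sl α β r t N (N - (j + 1))) *
              (ell α β (xk α r t N (N - (j + 1))) * v ^ 2 / 2) := mul_nonneg (by linarith) (by positivity)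
          linarith
        calc _ = √(ell α β t / ell α β (xk α r t N (N - (j + 1)))) * f (N - (j + 1)) v *
              (Real.exp (sl α β r t N (N - (j + 1)) * (ell α β (xk α r t N (N - (j + 1))) * v) ^ 2 /
            (2 * ell α β (xk α r t N (N - (j + 1))))) *
            Real.exp (-sl α β r t N (N - (j + 1 + 1)) * ell α β (xk α r t N (N - (j + 1))) * v ^ 2 / 2)) := by ring
          _ ≤ √(ell α β t / ell α β (xk α r t N (N - (j + 1)))) * f (N - (j + 1)) v * 1 :=
            mul_le_mul_of_nonneg_left h8 (mul_nonneg (Real.sqrt_nonneg _) (i3 v))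
          _ = _ := mul_one _
  have h := main (N - 1) (by omega) y
  have e : N - (N - 1 + 1) = 0 := by omega
  rw [e, W.x0] at h
  exact h

theorem wlo {α β C : ℝ} (hα : 0 < α) (hα2 : α < 2) (hβ : 0 < β) {r t : ℝ} {N : ℕ} (hr : 1 ≤ r) (hN : 1 ≤ N)
    (W : WinF α β C r t N) (ρ : ℕ → ℝ) (hρ0 : ρ 0 = 0)
    (hρ : ∀ k, 1 ≤ k → k < N → ρ k = ell α β (xk α r t N k) * (sl α β r t N (k - 1) - sl α β r t N k) / 2)
    (f : ℕ → ℝ → ℝ)
    (hfN : f N = fun v => Real.exp (-(sl α β r t N (N - 1) * ell α β t / 2) * v ^ 2))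
    (hf2 : MemLp (f N) 2 volume)
    (hf : ∀ k < N, f k = fun v => Real.exp (-ρ k * v ^ 2) * TV (Va α) (hw α β r t N k) (f (k + 1)) v) (y : ℝ) :
    ENNReal.ofReal (√(ell α β t / ell α β r) * f 0 (y / ell α β r)) ≤ Gm (c0 α β) r t (fun _ => 1) y := by
  have hP : Pot (Va α) := pot_Va hα
  have hc := c0_cont hα β
  have hρn : ∀ k < N, 0 ≤ ρ k := by
    intro k hk
    rcases Nat.eq_zero_or_pos k with h0 | h0
    · rw [h0, hρ0]
    · rw [hρ k h0 hk]
      have h1 := Wup_ell hβ hr W hk.le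
      have h2 := W.slm (k - 1) (by omega)
      rw [Nat.sub_add_cancel h0] at h2
      have := mul_nonneg h1.le (by linarith : 0 ≤ sl α β r t N (k - 1) - sl α β r t N k)
      linarith
  have hgood : ∀ j, j ≤ N → Measurable (f (N - j)) ∧ MemLp (f (N - j)) 2 volume ∧ ∀ v, 0 ≤ f (N - j) v := by
    intro j
    induction j with
    | zero =>
      intro _
      rw [Nat.sub_zero]
      refine ⟨?_, hf2, ?_⟩
      · rw [hfN]
        fun_prop
      · intro v
        rw [hfN]
        exact (Real.exp_pos _).le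
    | succ j ih =>
      intro hj
      obtain ⟨i1, i2, i3⟩ := ih (by omega)
      have hk : N - (j + 1) < N := by omega
      have e : N - (j + 1) + 1 = N - j := by omega
      rw [hf _ hk, e]
      have m1 := tv_meas hP (Wup_hw hβ hr W hk) i1
      have m2 : Measurable (fun v => Real.exp (-ρ (N - (j + 1)) * v ^ 2) *
          TV (Va α) (hw α β r t N (N - (j + 1))) (f (N - j)) v) := Measurable.mul (by fun_prop) m1
      refine ⟨m2, ?_, fun v => mul_nonneg (Real.exp_pos _).le (Wup_nn i3 v)⟩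
      refine (tv_L2 hP (Wup_hw hβ hr W hk) i1 i2).1.mono m2.aestronglyMeasurable
        (Eventually.of_forall fun v => ?_)
      rw [norm_mul, Real.norm_of_nonneg (Real.exp_pos _).le]
      refine mul_le_of_le_one_left (norm_nonneg _) ?_
      rw [Real.exp_le_one_iff]
      have := mul_nonneg (hρn _ hk) (sq_nonneg v)
      linarith
  have hgood' : ∀ k ≤ N, Measurable (f k) ∧ MemLp (f k) 2 volume ∧ ∀ v, 0 ≤ f k v := by
    intro k hk
    have := hgood (N - k) (Nat.sub_le _ _)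
    rwa [Nat.sub_sub_self hk] at this
  have hVlo : ∀ k < N, ∀ σ, 0 ≤ σ → σ ≤ xk α r t N (k + 1) - xk α r t N k → ∀ v,
        (ell α β (xk α r t N k) + sl α β r t N k * σ) ^ 2 *
            c0 α β (xk α r t N k + σ) ((ell α β (xk α r t N k) + sl α β r t N k * σ) * v) ≤ Va α v :=
    fun k hk σ h1 h2 v => wcp_lo hα hβ hr W hk h1 h2 v
  have hFm : Measurable (fun _ : ℝ => (1 : ℝ≥0∞)) := measurable_const
  have main : ∀ j, j + 1 ≤ N → ∀ y,
      ENNReal.ofReal (√(ell α β t / ell α β (xk α r t N (N - (j + 1)))) *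
        Real.exp (sl α β r t N (N - (j + 1)) * y ^ 2 / (2 * ell α β (xk α r t N (N - (j + 1))))) *
        TV (Va α) (hw α β r t N (N - (j + 1))) (f (N - (j + 1) + 1)) (y / ell α β (xk α r t N (N - (j + 1))))) ≤
      Gm (c0 α β) (xk α r t N (N - (j + 1))) t (fun _ => 1) y := by
    intro j
    induction j with
    | zero =>
      intro hj y
      have hk : N - (0 + 1) < N := by omega
      have e : N - (0 + 1) + 1 = N := by omega
      obtain ⟨i1, i2, i3⟩ := hgood' N le_rfl
      have h := Wup_step' hβ hr W hc hk hP (hVlo _ hk) hFm (g := f N) i1 i2 i3 (a := 1) zero_le_one ?_ y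
      · rw [e, W.xN, one_mul] at h
        rw [e]
        exact h
      · intro v
        rw [e, W.xN, one_mul, hfN, one_mul]
        refine le_of_eq ?_
        congr 2
        rw [zero_add]
        ring
    | succ j ih =>
      intro hj y
      have ih' := ih (by omega)
      have hk : N - (j + 1 + 1) < N := by omega
      have e : N - (j + 1 + 1) + 1 = N - (j + 1) := by omega
      have hk' : N - (j + 1) < N := by omega
      obtain ⟨i1, i2, i3⟩ := hgood' (N - (j + 1)) hk'.le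
      have p0 := Wup_ell hβ hr W hk.le
      have p1 := Wup_ell hβ hr W hk'.le
      have p2 : 0 < ell α β t := by
        have := Wup_ell hβ hr W (le_refl N)
        rwa [W.xN] at this
      have hlt := W.xlt _ hk
      rw [e] at hlt
      have hle : xk α r t N (N - (j + 1)) ≤ t := by
        have hmon : ∀ i, N - (j + 1) + i ≤ N → xk α r t N (N - (j + 1)) ≤ xk α r t N (N - (j + 1) + i) := by
          intro i
          induction i with
          | zero => intro _; exact le_rfl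
          | succ i ih2 =>
            intro hi
            exact (ih2 (by omega)).trans (W.xlt _ (by omega)).le
        have := hmon (j + 1) (by omega)
        rw [Nat.sub_add_cancel (by omega : j + 1 ≤ N), W.xN] at this
        exact this
      rw [Gm_markov hc hFm hlt.le hle y]
      have hFm' : Measurable (fun z => Gm (c0 α β) (xk α r t N (N - (j + 1))) t (fun _ => 1) z) :=
        Wup_meas0 hc _ _ hFm
      have h := Wup_step' hβ hr W hc hk hP (hVlo _ hk) hFm' (g := f (N - (j + 1))) i1 i2 i3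
        (a := √(ell α β t / ell α β (xk α r t N (N - (j + 1))))) (Real.sqrt_nonneg _) ?_ y
      · rw [e] at h
        refine le_trans (le_of_eq ?_) h
        congr 1
        rw [e, ← Wup_sqrt p0 p1 p2]
        ring
      · intro v
        rw [e]
        refine le_trans ?_ (mul_le_mul_left (ih' _) _)
        rw [← ENNReal.ofReal_mul (mul_nonneg (by positivity) (Wup_nn (hgood' _ (by omega)).2.2 _))]
        refine ENNReal.ofReal_le_ofReal (le_of_eq ?_)
        have e2 : ell α β (xk α r t N (N - (j + 1))) * v / ell α β (xk α r t N (N - (j + 1))) = v := by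
          field_simp
        rw [e2]
        have h9 := hρ (N - (j + 1)) (by omega) hk'
        have e4 : N - (j + 1) - 1 = N - (j + 1 + 1) := by omega
        rw [e4] at h9
        have h8 : Real.exp (sl α β r t N (N - (j + 1)) * (ell α β (xk α r t N (N - (j + 1))) * v) ^ 2 /
            (2 * ell α β (xk α r t N (N - (j + 1))))) *
            Real.exp (-sl α β r t N (N - (j + 1 + 1)) * ell α β (xk α r t N (N - (j + 1))) * v ^ 2 / 2) =
            Real.exp (-ρ (N - (j + 1)) * v ^ 2) := by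
          rw [← Real.exp_add, h9]
          congr 1
          field_simp
          ring
        have h10 := congrFun (hf _ hk') v
        rw [h10, ← h8]
        ring
  have h := main (N - 1) (by omega) y
  have e : N - (N - 1 + 1) = 0 := by omega
  rw [e, W.x0] at h
  refine le_trans (ENNReal.ofReal_le_ofReal ?_) h
  have h11 := congrFun (hf 0 (by omega)) (y / ell α β r)
  rw [h11, hρ0]
  have p0 := Wup_ell hβ hr W (Nat.zero_le N)
  rw [W.x0] at p0
  have h12 : 1 ≤ Real.exp (sl α β r t N 0 * y ^ 2 / (2 * ell α β r)) := by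
    rw [Real.one_le_exp_iff]
    have := W.sl0 0 (by omega)
    positivity
  have h13 : 0 ≤ TV (Va α) (hw α β r t N 0) (f (0 + 1)) (y / ell α β r) :=
    Wup_nn (hgood' _ (by omega)).2.2 _
  rw [neg_zero, zero_mul, Real.exp_zero, one_mul]
  refine mul_le_mul_of_nonneg_right ?_ h13
  exact le_mul_of_one_le_right (Real.sqrt_nonneg _) h12

end Pool.H50.BB
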