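import Pool.Agent.H50.BB.Wup
import Pool.Agent.H50.BB.Dat
import Pool.Agent.H50.BB.Det
import Pool.Agent.H50.BB.Las

/-!
# Row Y1n: upper bound of Gm from the near region   (about 230 lines)

Data `F z = 1 + p z² t^{-2γ}`, `p ∈ {0,1}` (any `0 ≤ p ≤ 1`), `N ≥ 2`, `H = HH ∈ [1/2,2]`, `r ≥ s0`, `|y| ≤ r^{γ+g/2}`.  `W = win`, `wcp_up` with its `C'`; `ω_k = C'(x_k^{-ζ}+x_k^{-2g}) ≤ 1/2`,
`R_k = x_k^η/κ ≥ 1`.  `f_N v = (1 + pκ² v²) exp (-ε v²)` (`ell t = κ t^γ`), `ε = sl_{N-1} ell t/2 ∈ [c t^{-g}, C x_{N-1}^{-g}]`, `≤ 1` for `s0` large.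
(1) `nrm f_{N-1} ≤ C (1 + ε^{-5/4} exp (-c R_{N-1}^α)) ≤ C` (`last_window`; `x_{N-1} ≥ t/2`, `ε^{-5/4} ≤ C t^{5g/4}`, `exp(-c t^{αη}) ≤ C t^{-5g/4}`).
(2) `η_k := e^{4 lam} C (ω_k + exp (-c R_k^α))` (`det1`, and `e^{-lam h_k} ≥ e^{-4 lam}`): hypothesis of `at_nrm` on the indices `1..N-2` (shifted sequence, final function `f_{N-1}`):
`nrm f_1 ≤ exp (-lam ∑_{k=1}^{N-2} h_k) exp (∑ η_k) nrm f_{N-1}`; `η_k ≤ C x_k^{-δ}`, `δ = min ζ (2g) > g`, so `∑ η_k ≤ C r^{g-δ} ≤ C` (`win_sum`); `h_k ≥ H` so `∑_{1}^{N-2} h_k ≥ (N-2) H ≥ N H - 4`.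
(3) `f_0 u ≤ 2 nrm f_1` (`det3`).
(4) `wup`: `Gm ≤ √(ell t/ell r) exp (sl_0 y²/(2 ell r)) f_0`; `sl_0 y²/(2 ell r) ≤ C r^{-g} y²/(ell r)² ≤ C r^{-g} r^{g}/κ² ≤ C` (`sl_0 ell(x_1) ≤ C r^{-g}`, `ell x_1 ≥ ell r`).
(5) `√(ell t/ell r) = (t/r)^{γ/2}` and `lam N H = √2 (kap t - kap r)` (definitions): total `≤ C NN r t`.
-/

open MeasureTheory ProbabilityTheory Set Filter Topology
open scoped NNReal ENNReal

namespace Pool.H50.BB

open Pool.Agent.H4.BM

theorem kap_HH {α β lam r t : ℝ} {N : ℕ} (hN : 1 ≤ N) (hg : 0 < gg α) (hκ : 0 < kb α β) :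
    √2 * (kap α β lam t - kap α β lam r) = lam * (N * HH α β r t N) := by
  unfold kap HH
  have h2 : √2 ≠ 0 := by positivity
  have hN' : (N : ℝ) ≠ 0 := by
    have : (1 : ℝ) ≤ N := by exact_mod_cast hN
    linarith
  field_simp

theorem ell_ratio {α β r t : ℝ} (hβ : 0 < β) (hr : 0 < r) (ht : 0 < t) :
    √(ell α β t / ell α β r) = (t / r) ^ (gam α / 2) := by
  have hκ : 0 < kb α β := kb_pos hβ
  unfold ell
  rw [mul_div_mul_left _ _ hκ.ne', ← Real.div_rpow ht.le hr.le, Real.sqrt_eq_rpow,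
    ← Real.rpow_mul (by positivity)]
  congr 1
  ring

theorem Y1n_exp {b c : ℝ} (hb : 0 < b) (hc : 0 < c) (a : ℝ) :
    ∃ B > 0, ∀ x : ℝ, 1 ≤ x → x ^ a * Real.exp (-(c * x ^ b)) ≤ B := by
  obtain ⟨n, hn⟩ := exists_nat_ge (a / b)
  refine ⟨(n.factorial : ℝ) / c ^ n, by positivity, fun x hx => ?_⟩
  have hx0 : 0 < x := by linarith
  obtain ⟨y, hy⟩ : ∃ y, y = x ^ b := ⟨_, rfl⟩
  have hy1 : 1 ≤ y := by rw [hy]; exact Real.one_le_rpow hx hb.le
  have hy0 : 0 < y := by linarith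
  have e1 : x ^ a = y ^ (a / b) := by
    rw [hy, ← Real.rpow_mul hx0.le]
    congr 1
    field_simp
  have e2 : y ^ (a / b) ≤ y ^ n := by
    rw [← Real.rpow_natCast]
    exact Real.rpow_le_rpow_of_exponent_le hy1 hn
  have e3 := Real.pow_div_factorial_le_exp (c * y) (by positivity) n
  rw [← hy, e1]
  have hf : (0 : ℝ) < n.factorial := by positivity
  have e4 : y ^ n ≤ (n.factorial : ℝ) / c ^ n * Real.exp (c * y) := by
    rw [div_le_iff₀ hf, mul_pow] at e3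
    rw [div_mul_eq_mul_div, le_div_iff₀ (by positivity)]
    linarith
  calc y ^ (a / b) * Real.exp (-(c * y)) ≤
      ((n.factorial : ℝ) / c ^ n * Real.exp (c * y)) * Real.exp (-(c * y)) :=
        mul_le_mul_of_nonneg_right (e2.trans e4) (Real.exp_pos _).le
    _ = (n.factorial : ℝ) / c ^ n := by
        rw [mul_assoc, ← Real.exp_add]
        simp

theorem Y1n_expR {α κ η c : ℝ} (hα : 0 < α) (hκ : 0 < κ) (hη : 0 < η) (hc : 0 < c) (a : ℝ) :
    ∃ B > 0, ∀ x : ℝ, 1 ≤ x → Real.exp (-c * (x ^ η / κ) ^ α) ≤ B * x ^ (-a) := by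
  obtain ⟨B, hB, h⟩ := Y1n_exp (b := η * α) (c := c / κ ^ α) (by positivity) (by positivity) a
  refine ⟨B, hB, fun x hx => ?_⟩
  have hx0 : 0 < x := by linarith
  have h1 := h x hx
  have e1 : -c * (x ^ η / κ) ^ α = -(c / κ ^ α * x ^ (η * α)) := by
    rw [Real.div_rpow (by positivity) hκ.le, ← Real.rpow_mul hx0.le]
    ring
  rw [e1, Real.rpow_neg hx0.le]
  have hxa : 0 < x ^ a := Real.rpow_pos_of_pos hx0 a
  rw [← div_eq_mul_inv, le_div_iff₀ hxa, mul_comm]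
  exact h1

theorem Y1n_rec (V : ℕ → ℝ → ℝ) (h : ℕ → ℝ) (N : ℕ) (fN : ℝ → ℝ) :
    ∃ f : ℕ → ℝ → ℝ, f N = fN ∧ ∀ k < N, f k = TV (V k) (h k) (f (k + 1)) := by
  let g : ℕ → ℝ → ℝ := fun j =>
    Nat.rec fN (fun j F => TV (V (N - 1 - j)) (h (N - 1 - j)) F) j
  refine ⟨fun k => g (N - k), ?_, ?_⟩
  · show g (N - N) = fN
    rw [Nat.sub_self]
    rfl
  · intro k hk
    have e : N - k = (N - (k + 1)) + 1 := by omega
    show g (N - k) = TV (V k) (h k) (g (N - (k + 1)))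
    rw [e]
    show TV (V (N - 1 - (N - (k + 1)))) (h (N - 1 - (N - (k + 1)))) (g (N - (k + 1))) = _
    have e2 : N - 1 - (N - (k + 1)) = k := by omega
    rw [e2]

theorem Y1n_reg {V : ℕ → ℝ → ℝ} {h : ℕ → ℝ} {N : ℕ} {f : ℕ → ℝ → ℝ}
    (hV : ∀ k < N, Pot (V k)) (hh : ∀ k < N, 0 < h k)
    (hm : Measurable (f N)) (h2 : MemLp (f N) 2 volume)
    (hf : ∀ k < N, f k = TV (V k) (h k) (f (k + 1))) :
    ∀ k ≤ N, Measurable (f k) ∧ MemLp (f k) 2 volume := by
  have key : ∀ j ≤ N, Measurable (f (N - j)) ∧ MemLp (f (N - j)) 2 volume := by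
    intro j
    induction j with
    | zero => intro _; exact ⟨by simpa using hm, by simpa using h2⟩
    | succ j ih =>
      intro hj
      obtain ⟨a, b⟩ := ih (by omega)
      have hk : N - (j + 1) < N := by omega
      have e : N - (j + 1) + 1 = N - j := by omega
      rw [hf _ hk, e]
      exact ⟨tv_meas (hV _ hk) (hh _ hk) a, (tv_L2 (hV _ hk) (hh _ hk) a b).1⟩
  intro k hk
  have := key (N - k) (by omega)
  rwa [Nat.sub_sub_self hk] at this

theorem Y1n_prod (M : ℕ) (η : ℕ → ℝ) (hη : ∀ k < M, 0 ≤ η k) {S : ℝ}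
    (hS : ∑ k ∈ Finset.range M, η k ≤ S) :
    ∏ k ∈ Finset.range M, (1 + η k) ≤ Real.exp S := by
  calc ∏ k ∈ Finset.range M, (1 + η k) ≤ ∏ k ∈ Finset.range M, Real.exp (η k) := by
        refine Finset.prod_le_prod (fun k hk => ?_) fun k hk => ?_
        · have := hη k (Finset.mem_range.1 hk)
          linarith
        · have := Real.add_one_le_exp (η k)
          linarith
    _ = Real.exp (∑ k ∈ Finset.range M, η k) := (Real.exp_sum _ _).symm
    _ ≤ _ := Real.exp_le_exp.2 hS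

theorem Y1n_shift (F : ℕ → ℝ) (N : ℕ) (hF : ∀ k < N, 0 ≤ F k) (hN : 2 ≤ N) :
    ∑ k ∈ Finset.range (N - 2), F (k + 1) ≤ ∑ k ∈ Finset.range N, F k := by
  have h1 : ∑ k ∈ Finset.range (N - 2), F (k + 1) ≤ ∑ k ∈ Finset.range (N - 2 + 1), F k := by
    rw [Finset.sum_range_succ']
    have := hF 0 (by omega)
    linarith
  refine h1.trans (Finset.sum_le_sum_of_subset_of_nonneg ?_ fun k hk _ => ?_)
  · intro k hk
    rw [Finset.mem_range] at hk ⊢
    omega
  · exact hF k (Finset.mem_range.1 hk)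

/-- the norm of `f 1` -/
theorem Y1n_f1 {α lam ρ C : ℝ} {φ : ℝ → ℝ} (hα : 0 < α) (G : GS α lam ρ C φ) {C1 c1 A H : ℝ}
    (hC1 : 0 < C1)
    (hd1 : ∀ ω R h : ℝ, 0 ≤ ω → ω ≤ 1 / 2 → 1 ≤ R →
      1 / 8 ≤ h → h ≤ 4 → ∀ f : ℝ → ℝ, Measurable f → MemLp f 2 volume →
        nrm (fun u => TV (Vt α ω R) h f u - TV (Va α) h f u) ≤
          C1 * (ω + Real.exp (-c1 * R ^ α)) * nrm f)
    {N : ℕ} (hN : 2 ≤ N) (ω R h : ℕ → ℝ) (f : ℕ → ℝ → ℝ)
    (hω : ∀ k < N, 0 ≤ ω k ∧ ω k ≤ 1 / 2) (hR : ∀ k < N, 1 ≤ R k) (hH : 1 / 2 ≤ H) (hH2 : H ≤ 2)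
    (hh : ∀ k < N, H ≤ h k) (hh4 : ∀ k < N, h k ≤ 4)
    (hreg : ∀ k ≤ N, Measurable (f k) ∧ MemLp (f k) 2 volume)
    (hf : ∀ k < N, f k = TV (Vt α (ω k) (R k)) (h k) (f (k + 1)))
    (hA : ∑ k ∈ Finset.range N, Real.exp (4 * lam) * (C1 * (ω k + Real.exp (-c1 * R k ^ α))) ≤ A) :
    nrm (f 1) ≤ Real.exp (-(lam * (N * H))) * Real.exp (4 * lam) * Real.exp A * nrm (f (N - 1)) := by
  set F : ℕ → ℝ := fun k => Real.exp (4 * lam) * (C1 * (ω k + Real.exp (-c1 * R k ^ α))) with hF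
  have hF0 : ∀ k < N, 0 ≤ F k := by
    intro k hk
    have := (hω k hk).1
    simp only [hF]
    positivity
  have h1 := at_nrm hα G (N - 2) (fun k => h (k + 1)) (fun k => F (k + 1)) (fun k => f (k + 1))
    (fun k hk => (hreg (k + 1) (by omega)).1) (fun k hk => (hreg (k + 1) (by omega)).2)
    (fun k hk => by have := hh (k + 1) (by omega); show 0 < h (k + 1); linarith)
    (fun k hk => hF0 (k + 1) (by omega)) (by
      intro k hk
      have hk1 : k + 1 < N := by omega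
      obtain ⟨m, l⟩ := hreg (k + 1 + 1) (by omega)
      have hhk := hh (k + 1) hk1
      have hhk4 := hh4 (k + 1) hk1
      have h2 := hd1 (ω (k + 1)) (R (k + 1)) (h (k + 1)) (hω _ hk1).1 (hω _ hk1).2 (hR _ hk1)
        (by linarith) hhk4 (f (k + 1 + 1)) m l
      have e1 : (fun u => f (k + 1) u - TV (Va α) (h (k + 1)) (f (k + 1 + 1)) u) = fun u =>
          TV (Vt α (ω (k + 1)) (R (k + 1))) (h (k + 1)) (f (k + 1 + 1)) u -
            TV (Va α) (h (k + 1)) (f (k + 1 + 1)) u := by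
        rw [← hf _ hk1]
      show nrm (fun u => f (k + 1) u - TV (Va α) (h (k + 1)) (f (k + 1 + 1)) u) ≤
        F (k + 1) * Real.exp (-lam * h (k + 1)) * nrm (f (k + 1 + 1))
      rw [e1]
      refine h2.trans ?_
      refine mul_le_mul_of_nonneg_right ?_ (Dat_nonneg _)
      have h3 : 0 ≤ C1 * (ω (k + 1) + Real.exp (-c1 * R (k + 1) ^ α)) := by
        have := (hω _ hk1).1
        positivity
      have h4 : 1 ≤ Real.exp (4 * lam) * Real.exp (-lam * h (k + 1)) := by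
        rw [← Real.exp_add]
        apply Real.one_le_exp
        have := mul_le_mul_of_nonneg_left hhk4 G.lam_pos.le
        linarith
      calc C1 * (ω (k + 1) + Real.exp (-c1 * R (k + 1) ^ α))
          = 1 * (C1 * (ω (k + 1) + Real.exp (-c1 * R (k + 1) ^ α))) := (one_mul _).symm
        _ ≤ (Real.exp (4 * lam) * Real.exp (-lam * h (k + 1))) *
            (C1 * (ω (k + 1) + Real.exp (-c1 * R (k + 1) ^ α))) :=
            mul_le_mul_of_nonneg_right h4 h3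
        _ = F (k + 1) * Real.exp (-lam * h (k + 1)) := by
            simp only [hF]
            ring)
  have e2 : N - 2 + 1 = N - 1 := by omega
  simp only [zero_add, e2] at h1
  have h2 : ∏ k ∈ Finset.range (N - 2), (1 + F (k + 1)) ≤ Real.exp A :=
    Y1n_prod (N - 2) (fun k => F (k + 1)) (fun k hk => hF0 (k + 1) (by omega))
      ((Y1n_shift F N hF0 hN).trans hA)
  have h3 : ((N : ℝ) - 2) * H ≤ ∑ k ∈ Finset.range (N - 2), h (k + 1) := by
    have h4 : ∑ k ∈ Finset.range (N - 2), H ≤ ∑ k ∈ Finset.range (N - 2), h (k + 1) :=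
      Finset.sum_le_sum fun k hk => hh (k + 1) (by have := Finset.mem_range.1 hk; omega)
    rw [Finset.sum_const, Finset.card_range, nsmul_eq_mul, Nat.cast_sub hN] at h4
    exact_mod_cast h4
  have h4 : Real.exp (-lam * ∑ k ∈ Finset.range (N - 2), h (k + 1)) ≤
      Real.exp (-(lam * (N * H))) * Real.exp (4 * lam) := by
    rw [← Real.exp_add]
    apply Real.exp_le_exp.2
    have h5 := mul_le_mul_of_nonneg_left h3 G.lam_pos.le
    have h6 := mul_le_mul_of_nonneg_left hH2 G.lam_pos.le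
    nlinarith
  have hP0 : 0 ≤ ∏ k ∈ Finset.range (N - 2), (1 + F (k + 1)) :=
    Finset.prod_nonneg fun k hk => by
      have := hF0 (k + 1) (by have := Finset.mem_range.1 hk; omega)
      linarith
  refine h1.trans (mul_le_mul_of_nonneg_right ?_ (Dat_nonneg _))
  exact mul_le_mul h4 h2 hP0 (by positivity)

theorem y1_near {α β lam ρ C : ℝ} {φ : ℝ → ℝ} (hα : 0 < α) (hα2 : α < 2) (hβ : 0 < β) (G : GS α lam ρ C φ)
    {Cf ζ η : ℝ} (hCf : 0 ≤ Cf) (hζ : gg α < ζ) (hη : 0 < η) :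
    ∃ s0 ≥ (1 : ℝ), ∃ C1 > 0, ∀ p : ℝ, 0 ≤ p → p ≤ 1 → ∀ r t : ℝ, ∀ N : ℕ, s0 ≤ r → 0 ≤ t → 2 ≤ N →
      1 / 2 ≤ HH α β r t N → HH α β r t N ≤ 2 → ∀ y, |y| ≤ r ^ (gam α + gg α / 2) →
        Gm (cfl α β Cf ζ η) r t (fun z => ENNReal.ofReal (1 + p * (z ^ 2 * t ^ (-2 * gam α)))) y ≤
          ENNReal.ofReal (C1 * NN α β lam r t) := by
  have hg : 0 < gg α := by
    unfold gg
    apply div_pos <;> linarith
  have hγ : 0 < gam α := by
    unfold gam
    positivity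
  have hκ : 0 < kb α β := kb_pos hβ
  have hlam := G.lam_pos
  obtain ⟨s1, hs1, C₀, hC₀, hW⟩ := win hα hα2 hβ
  obtain ⟨s2, hs2, C', hC', hwc⟩ := wcp_up (Cf := Cf) hα hα2 hβ hC₀ hCf (hg.trans hζ) hη
  obtain ⟨C₁, hC₁, c₁, hc₁, hd1⟩ := det1 hα hα2
  obtain ⟨C₂, hC₂, c₂, hc₂, hlw⟩ := last_window (p := kb α β ^ 2) hα hα2 (by positivity)
  obtain ⟨δ, hδ⟩ : ∃ δ, δ = min ζ (2 * gg α) := ⟨_, rfl⟩
  have hδ1 : gg α < δ := by
    rw [hδ]
    exact lt_min hζ (by linarith)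
  have hδζ : δ ≤ ζ := by rw [hδ]; exact min_le_left _ _
  have hδg : δ ≤ 2 * gg α := by rw [hδ]; exact min_le_right _ _
  obtain ⟨C₄, hC₄, hsum⟩ := win_sum hα hα2 hβ hδ1
  obtain ⟨B₁, hB₁, hB₁'⟩ := Y1n_expR hα hκ hη hc₁ δ
  obtain ⟨B₂, hB₂, hB₂'⟩ := Y1n_expR hα hκ hη hc₂ (5 * gg α / 4)
  set A : ℝ := Real.exp (4 * lam) * (C₁ * (2 * C' + B₁)) with hA
  have hA0 : 0 < A := by positivity
  set q₁ : ℝ := ((2 * C₀)⁻¹) ^ (-(5 / 4 : ℝ)) with hq₁
  have hq₁0 : 0 < q₁ := Real.rpow_pos_of_pos (by positivity) _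
  set C₅ : ℝ := C₂ * (1 + q₁ * B₂) with hC₅
  have hC₅0 : 0 < C₅ := by positivity
  refine ⟨max s1 (max s2 (C₀ ^ (1 / gg α))), le_max_of_le_left hs1,
    Real.exp (C₀ / (2 * kb α β ^ 2)) * (2 * (Real.exp (4 * lam) * Real.exp (A * C₄) * C₅)),
    by positivity, ?_⟩
  intro p hp0 hp1 r t N hr htn hN hH1 hH2 y hy
  have hr1 : s1 ≤ r := (le_max_left _ _).trans hr
  have hr2 : s2 ≤ r := ((le_max_left _ _).trans (le_max_right _ _)).trans hr
  have hr3 : C₀ ^ (1 / gg α) ≤ r := ((le_max_right _ _).trans (le_max_right _ _)).trans hr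
  have hr01 : 1 ≤ r := hs1.trans hr1
  have hr0 : 0 < r := by linarith
  have W := hW r t N hr1 htn (by omega) hH1 hH2
  have hwcp := hwc r t N hr2 W
  have hrt : r ≤ t := by
    have := W.xge N le_rfl
    rwa [W.xN] at this
  have ht0 : 0 < t := by linarith
  have hx1 : ∀ k ≤ N, 1 ≤ xk α r t N k := fun k hk => hr01.trans (W.xge k hk)
  have hx0 : ∀ k ≤ N, 0 < xk α r t N k := fun k hk => by linarith [hx1 k hk]
  -- the largest data
  have hm : Gm (cfl α β Cf ζ η) r t (fun z => ENNReal.ofReal (1 + p * (z ^ 2 * t ^ (-2 * gam α)))) y ≤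
      Gm (cfl α β Cf ζ η) r t (fun z => ENNReal.ofReal (1 + z ^ 2 * t ^ (-2 * gam α))) y := by
    refine Gm_mono (cfl_cont hα _ _ _ _) (cfl_cont hα _ _ _ _) hrt (fun _ _ _ _ => le_rfl)
      (fun z => ENNReal.ofReal_le_ofReal ?_) y
    have h0 : 0 ≤ z ^ 2 * t ^ (-2 * gam α) := by positivity
    have h1 := mul_le_mul_of_nonneg_right hp1 h0
    linarith
  refine hm.trans ?_
  set ω : ℕ → ℝ := fun k => C' * (xk α r t N k ^ (-ζ) + xk α r t N k ^ (-2 * gg α)) with hω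
  set R : ℕ → ℝ := fun k => xk α r t N k ^ η / kb α β with hR
  obtain ⟨f, hfN, hf⟩ := Y1n_rec (fun k => Vt α (ω k) (R k)) (hw α β r t N) N
    (fun v => (1 + (ell α β t * v) ^ 2 * t ^ (-2 * gam α)) *
      Real.exp (-(sl α β r t N (N - 1) * ell α β t / 2) * v ^ 2))
  have hN1 : N - 1 < N := by omega
  have hN1' : N - 1 + 1 = N := by omega
  obtain ⟨ε, hε⟩ : ∃ ε, ε = sl α β r t N (N - 1) * ell α β t / 2 := ⟨_, rfl⟩
  have hslhi := W.slhi (N - 1) hN1
  have hsllo := W.sllo (N - 1) hN1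
  rw [hN1', W.xN] at hslhi hsllo
  have hxm := hx0 (N - 1) (by omega)
  have hxm1 := hx1 (N - 1) (by omega)
  have hε0 : (2 * C₀)⁻¹ * xk α r t N (N - 1) ^ (-gg α) ≤ ε := by
    rw [hε, mul_inv]
    linarith
  have hεlo : 0 < (2 * C₀)⁻¹ * xk α r t N (N - 1) ^ (-gg α) := by positivity
  have hεpos : 0 < ε := lt_of_lt_of_le hεlo hε0
  have hrg : ∀ x, r ≤ x → C₀ * x ^ (-gg α) ≤ 1 := by
    intro x hx
    have hx' : 0 < x := by linarith
    have h1 : C₀ ≤ x ^ gg α := by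
      have h2 : (C₀ ^ (1 / gg α)) ^ gg α ≤ x ^ gg α :=
        Real.rpow_le_rpow (by positivity) (hr3.trans hx) hg.le
      rwa [← Real.rpow_mul (by linarith), one_div, inv_mul_cancel₀ hg.ne', Real.rpow_one] at h2
    rw [Real.rpow_neg hx'.le, ← div_eq_mul_inv, div_le_one (by positivity)]
    exact h1
  have hε1 : ε ≤ 1 := by
    have := hrg _ (W.xge (N - 1) (by omega))
    rw [hε]
    linarith
  have hfN' : f N = fun v => (1 + kb α β ^ 2 * v ^ 2) * Real.exp (-ε * v ^ 2) := by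
    rw [hfN, hε]
    funext v
    congr 1
    have e1 : (ell α β t * v) ^ 2 * t ^ (-2 * gam α) = kb α β ^ 2 * v ^ 2 := by
      have e2 : (t ^ gam α) ^ 2 * t ^ (-2 * gam α) = 1 := by
        rw [← Real.rpow_natCast, ← Real.rpow_mul ht0.le, ← Real.rpow_add ht0]
        have e3 : gam α * ((2 : ℕ) : ℝ) + -2 * gam α = 0 := by
          push_cast
          ring
        rw [e3, Real.rpow_zero]
      unfold ell
      calc (kb α β * t ^ gam α * v) ^ 2 * t ^ (-2 * gam α)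
          = kb α β ^ 2 * v ^ 2 * ((t ^ gam α) ^ 2 * t ^ (-2 * gam α)) := by ring
        _ = _ := by rw [e2, mul_one]
    rw [e1]
  have hfNm : Measurable (f N) := by
    rw [hfN']
    fun_prop
  have hfN2 : MemLp (f N) 2 volume := by
    rw [hfN']
    exact gs_memLp hεpos
  have hω' : ∀ k < N, 0 ≤ ω k ∧ ω k ≤ 1 / 2 := by
    intro k hk
    refine ⟨?_, (hwcp k hk).1⟩
    have := hx0 k hk.le
    simp only [hω]
    positivity
  have hR' : ∀ k < N, 1 ≤ R k := fun k hk => (hwcp k hk).2.1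
  have hhH : ∀ k < N, HH α β r t N ≤ hw α β r t N k := W.hlo
  have hh0 : ∀ k < N, 0 < hw α β r t N k := fun k hk => by linarith [hhH k hk]
  have hreg := Y1n_reg (V := fun k => Vt α (ω k) (R k)) (h := hw α β r t N) (f := f)
    (fun k hk => pot_Vt hα (by linarith [(hω' k hk).2]) (by linarith [hR' k hk])) hh0 hfNm hfN2 hf
  have hup := wup hα hα2 hβ hr01 (by omega : 1 ≤ N) W (cfl_cont hα β Cf ζ η) ω R hω' hR'
    (fun k hk => (hwcp k hk).2.2) (F := fun z => 1 + z ^ 2 * t ^ (-2 * gam α))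
    (by fun_prop) (fun z => by positivity) f hfN hfN2 hf y
  refine hup.trans (ENNReal.ofReal_le_ofReal ?_)
  -- the sum
  have hS : ∑ k ∈ Finset.range N,
      Real.exp (4 * lam) * (C₁ * (ω k + Real.exp (-c₁ * R k ^ α))) ≤ A * C₄ := by
    have h1 : ∀ k ∈ Finset.range N,
        Real.exp (4 * lam) * (C₁ * (ω k + Real.exp (-c₁ * R k ^ α))) ≤
          A * xk α r t N k ^ (-δ) := by
      intro k hk
      have hk' := Finset.mem_range.1 hk
      have hx := hx1 k hk'.le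
      have h2 := hB₁' _ hx
      have h3 : xk α r t N k ^ (-ζ) ≤ xk α r t N k ^ (-δ) :=
        Real.rpow_le_rpow_of_exponent_le hx (by linarith)
      have h4 : xk α r t N k ^ (-2 * gg α) ≤ xk α r t N k ^ (-δ) :=
        Real.rpow_le_rpow_of_exponent_le hx (by linarith)
      have h5 : ω k + Real.exp (-c₁ * R k ^ α) ≤ (2 * C' + B₁) * xk α r t N k ^ (-δ) := by
        simp only [hω, hR]
        have h6 : C' * (xk α r t N k ^ (-ζ) + xk α r t N k ^ (-2 * gg α)) ≤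
            C' * (2 * xk α r t N k ^ (-δ)) := mul_le_mul_of_nonneg_left (by linarith) hC'.le
        linarith
      have h7 := mul_le_mul_of_nonneg_left (mul_le_mul_of_nonneg_left h5 hC₁.le)
        (Real.exp_pos (4 * lam)).le
      refine h7.trans (le_of_eq ?_)
      rw [hA]
      ring
    refine (Finset.sum_le_sum h1).trans ?_
    rw [← Finset.mul_sum]
    refine mul_le_mul_of_nonneg_left ?_ hA0.le
    refine (hsum r t N hr01 (by omega) hH1).trans ?_
    have h8 : r ^ (gg α - δ) ≤ 1 := Real.rpow_le_one_of_one_le_of_nonpos hr01 (by linarith)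
    have h9 := mul_le_mul_of_nonneg_left h8 hC₄.le
    linarith
  have hf1 := Y1n_f1 hα G hC₁
    (fun ω R h a b c d e f g i => (hd1 ω R h a b c d e f g i).1) hN ω R (hw α β r t N) f hω' hR'
    hH1 hH2 hhH W.h4 hreg hf hS
  -- the last window
  have hlast : nrm (f (N - 1)) ≤ C₅ := by
    have h1 := hf (N - 1) hN1
    rw [hN1', hfN'] at h1
    rw [h1]
    have h2 := hlw (ω (N - 1)) (R (N - 1)) (hw α β r t N (N - 1)) ε (hω' _ hN1).1 (hω' _ hN1).2
      (hR' _ hN1) (by linarith [hhH _ hN1]) (W.h4 _ hN1) hεpos hε1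
    refine h2.trans ?_
    rw [hC₅]
    refine mul_le_mul_of_nonneg_left ?_ hC₂.le
    have h3 : ε ^ (-(5 / 4 : ℝ)) ≤ q₁ * xk α r t N (N - 1) ^ (5 * gg α / 4) := by
      have h4 : ε ^ (-(5 / 4 : ℝ)) ≤
          ((2 * C₀)⁻¹ * xk α r t N (N - 1) ^ (-gg α)) ^ (-(5 / 4 : ℝ)) :=
        Real.rpow_le_rpow_of_nonpos hεlo hε0 (by norm_num)
      rw [Real.mul_rpow (by positivity) (by positivity), ← Real.rpow_mul hxm.le] at h4
      have e : -gg α * -(5 / 4 : ℝ) = 5 * gg α / 4 := by ring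
      rwa [e] at h4
    have h5 := hB₂' _ hxm1
    have h6 : ε ^ (-(5 / 4 : ℝ)) * Real.exp (-c₂ * R (N - 1) ^ α) ≤
        (q₁ * xk α r t N (N - 1) ^ (5 * gg α / 4)) *
          (B₂ * xk α r t N (N - 1) ^ (-(5 * gg α / 4))) :=
      mul_le_mul h3 h5 (Real.exp_pos _).le (by positivity)
    have e2 : xk α r t N (N - 1) ^ (5 * gg α / 4) * xk α r t N (N - 1) ^ (-(5 * gg α / 4)) = 1 := by
      rw [← Real.rpow_add hxm]
      simp
    have e3 : (q₁ * xk α r t N (N - 1) ^ (5 * gg α / 4)) *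
          (B₂ * xk α r t N (N - 1) ^ (-(5 * gg α / 4))) = q₁ * B₂ := by
      calc _ = q₁ * B₂ * (xk α r t N (N - 1) ^ (5 * gg α / 4) *
            xk α r t N (N - 1) ^ (-(5 * gg α / 4))) := by ring
        _ = _ := by rw [e2, mul_one]
    linarith
  -- the first window
  have hf0 : f 0 (y / ell α β r) ≤ 2 * nrm (f 1) := by
    have h0 : 0 < N := by omega
    have h1 := hf 0 h0
    obtain ⟨m, l⟩ := hreg 1 (by omega)
    have h2 := det3 (pot_Vt (ω := ω 0) (R := R 0) hα (by linarith [(hω' 0 h0).2])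
      (by linarith [hR' 0 h0])) (h := hw α β r t N 0) (by linarith [hhH 0 h0]) m l (y / ell α β r)
    have h3 : f 0 (y / ell α β r) = TV (Vt α (ω 0) (R 0)) (hw α β r t N 0) (f 1) (y / ell α β r) := by
      rw [h1]
    rw [h3]
    exact (le_abs_self _).trans h2
  -- the Gaussian factor
  have hℓr : 0 < ell α β r := by
    unfold ell
    positivity
  have hexp : Real.exp (sl α β r t N 0 * y ^ 2 / (2 * ell α β r)) ≤
      Real.exp (C₀ / (2 * kb α β ^ 2)) := by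
    apply Real.exp_le_exp.2
    have h0 : 0 < N := by omega
    have h1 := W.slhi 0 h0
    rw [W.x0] at h1
    have h2 := W.sl0 0 h0
    have h3 : ell α β r ≤ ell α β (xk α r t N (0 + 1)) := by
      unfold ell
      refine mul_le_mul_of_nonneg_left ?_ hκ.le
      exact Real.rpow_le_rpow hr0.le (W.xge _ (by omega)) hγ.le
    have h4 : sl α β r t N 0 * ell α β r ≤ C₀ * r ^ (-gg α) :=
      (mul_le_mul_of_nonneg_left h3 h2).trans h1
    have h5 : y ^ 2 ≤ r ^ (2 * gam α) * r ^ gg α := by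
      have h6 : |y| ^ 2 ≤ (r ^ (gam α + gg α / 2)) ^ 2 := pow_le_pow_left₀ (abs_nonneg y) hy 2
      rw [sq_abs] at h6
      refine h6.trans (le_of_eq ?_)
      rw [← Real.rpow_natCast, ← Real.rpow_mul hr0.le, ← Real.rpow_add hr0]
      congr 1
      push_cast
      ring
    have h7 : ell α β r ^ 2 = kb α β ^ 2 * r ^ (2 * gam α) := by
      unfold ell
      rw [mul_pow, ← Real.rpow_natCast (r ^ gam α), ← Real.rpow_mul hr0.le]
      congr 2
      push_cast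
      ring
    rw [div_le_div_iff₀ (by positivity) (by positivity)]
    have h8 : r ^ (-gg α) * r ^ gg α = 1 := by
      rw [← Real.rpow_add hr0]
      simp
    have h9 : sl α β r t N 0 * y ^ 2 * kb α β ^ 2 * ell α β r ≤ C₀ * ell α β r * ell α β r := by
      calc sl α β r t N 0 * y ^ 2 * kb α β ^ 2 * ell α β r
          = (sl α β r t N 0 * ell α β r) * (kb α β ^ 2 * y ^ 2) := by ring
        _ ≤ (C₀ * r ^ (-gg α)) * (kb α β ^ 2 * (r ^ (2 * gam α) * r ^ gg α)) := by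
            refine mul_le_mul h4 ?_ (by positivity) (by positivity)
            exact mul_le_mul_of_nonneg_left h5 (by positivity)
        _ = C₀ * (kb α β ^ 2 * r ^ (2 * gam α)) * (r ^ (-gg α) * r ^ gg α) := by ring
        _ = C₀ * ell α β r * ell α β r := by
            rw [h8, ← h7]
            ring
    have h10 := le_of_mul_le_mul_right h9 hℓr
    linarith
  -- conclusion
  have hNN : NN α β lam r t = (t / r) ^ (gam α / 2) * Real.exp (-(lam * (N * HH α β r t N))) := by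
    have := kap_HH (lam := lam) (r := r) (t := t) (by omega : 1 ≤ N) hg hκ
    unfold NN
    rw [← this]
    ring_nf
  rw [ell_ratio hβ hr0 ht0, hNN]
  have hT : 0 < (t / r) ^ (gam α / 2) := Real.rpow_pos_of_pos (by positivity) _
  have hf0' : f 0 (y / ell α β r) ≤ 2 * (Real.exp (-(lam * (N * HH α β r t N))) *
      Real.exp (4 * lam) * Real.exp (A * C₄) * C₅) := by
    refine hf0.trans (mul_le_mul_of_nonneg_left (hf1.trans ?_) (by norm_num))
    exact mul_le_mul_of_nonneg_left hlast (by positivity)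
  calc (t / r) ^ (gam α / 2) * Real.exp (sl α β r t N 0 * y ^ 2 / (2 * ell α β r)) *
        f 0 (y / ell α β r)
      ≤ (t / r) ^ (gam α / 2) * Real.exp (sl α β r t N 0 * y ^ 2 / (2 * ell α β r)) *
        (2 * (Real.exp (-(lam * (N * HH α β r t N))) *
          Real.exp (4 * lam) * Real.exp (A * C₄) * C₅)) :=
        mul_le_mul_of_nonneg_left hf0' (by positivity)
    _ ≤ (t / r) ^ (gam α / 2) * Real.exp (C₀ / (2 * kb α β ^ 2)) *
        (2 * (Real.exp (-(lam * (N * HH α β r t N))) *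
          Real.exp (4 * lam) * Real.exp (A * C₄) * C₅)) := by
        refine mul_le_mul_of_nonneg_right ?_ (by positivity)
        exact mul_le_mul_of_nonneg_left hexp hT.le
    _ = _ := by ring

end Pool.H50.BB
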